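import Pool.Agent.Lib.MP_a17b09_nt.MRS.Cheb7

/-!
Project MRSG: Mertens' theorem in arithmetic progressions with error `O(1)`, and a Chebyshev bound.
-/

set_option autoImplicit false

open Filter Topology Finset

namespace Pool.Agent.Lib.MP_a17b09_nt.MRSG.H7

/-! ### Abel summation, complex coefficients -/

theorem abel_id (c f : ℕ → ℂ) (a : ℕ) : ∀ b : ℕ, a ≤ b →
    ∑ m ∈ Ioc a b, c m * f m = (∑ m ∈ Ioc a b, c m) * f (b + 1) +
      ∑ m ∈ Ioc a b, (∑ k ∈ Ioc a m, c k) * (f m - f (m + 1)) := by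
  intro b hab
  induction b, hab using Nat.le_induction with
  | base => simp
  | succ b hab ih =>
    rw [Finset.sum_Ioc_succ_top hab, Finset.sum_Ioc_succ_top hab, Finset.sum_Ioc_succ_top hab, ih,
      Finset.sum_Ioc_succ_top hab]
    ring

theorem abel (c : ℕ → ℂ) (f : ℕ → ℝ) (B : ℝ) (a : ℕ)
    (hB : ∀ n, a ≤ n → ‖∑ m ∈ Ioc a n, c m‖ ≤ B)
    (h0 : ∀ m, a < m → 0 ≤ f m) (hf : ∀ m, a < m → f (m + 1) ≤ f m) (b : ℕ) (hab : a ≤ b) :
    ‖∑ m ∈ Ioc a b, c m * (f m : ℂ)‖ ≤ B * f (a + 1) := by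
  rw [abel_id c (fun m => (f m : ℂ)) a b hab]
  have h1 : ‖(∑ m ∈ Ioc a b, c m) * (f (b + 1) : ℂ)‖ ≤ B * f (b + 1) := by
    rw [norm_mul, Complex.norm_real, Real.norm_eq_abs, abs_of_nonneg (h0 (b + 1) (by omega))]
    exact mul_le_mul_of_nonneg_right (hB b hab) (h0 (b + 1) (by omega))
  have h2 : ‖∑ m ∈ Ioc a b, (∑ k ∈ Ioc a m, c k) * ((f m : ℂ) - (f (m + 1) : ℂ))‖ ≤
      B * (f (a + 1) - f (b + 1)) := by
    rw [← MRS.H7.tel f a b hab, Finset.mul_sum]
    refine (norm_sum_le _ _).trans (Finset.sum_le_sum fun m hm => ?_)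
    rw [Finset.mem_Ioc] at hm
    have h3 : 0 ≤ f m - f (m + 1) := by linarith [hf m hm.1]
    rw [norm_mul, ← Complex.ofReal_sub, Complex.norm_real, Real.norm_eq_abs, abs_of_nonneg h3]
    exact mul_le_mul_of_nonneg_right (hB m hm.1.le) h3
  calc _ ≤ ‖(∑ m ∈ Ioc a b, c m) * (f (b + 1) : ℂ)‖ +
        ‖∑ m ∈ Ioc a b, (∑ k ∈ Ioc a m, c k) * ((f m : ℂ) - (f (m + 1) : ℂ))‖ := norm_add_le _ _
    _ ≤ B * f (b + 1) + B * (f (a + 1) - f (b + 1)) := add_le_add h1 h2
    _ = B * f (a + 1) := by ring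

/-! ### sums of a character -/

variable {q : ℕ} [NeZero q]

theorem sum_range_zmod (g : ZMod q → ℂ) : ∑ m ∈ range q, g (m : ZMod q) = ∑ x, g x := by
  refine Finset.sum_bij' (fun m _ => (m : ZMod q)) (fun x _ => x.val) ?_ ?_ ?_ ?_ ?_
  · intro m _; exact Finset.mem_univ _
  · intro x _; rw [Finset.mem_range]; exact ZMod.val_lt x
  · intro m hm
    rw [Finset.mem_range] at hm
    exact ZMod.val_natCast_of_lt hm
  · intro x _
    exact ZMod.natCast_zmod_val x
  · intro m _; rfl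

theorem sum_period {χ : DirichletCharacter ℂ q} (hχ : χ ≠ 1) (n : ℕ) :
    ∑ m ∈ range q, χ ((n + m : ℕ) : ZMod q) = 0 := by
  have h1 : ∀ m ∈ range q, χ ((n + m : ℕ) : ZMod q) =
      (fun x : ZMod q => χ ((n : ZMod q) + x)) (m : ZMod q) := by
    intro m _
    push_cast
    rfl
  rw [Finset.sum_congr rfl h1, sum_range_zmod (fun x : ZMod q => χ ((n : ZMod q) + x))]
  rw [← MulChar.sum_eq_zero_of_ne_one hχ]
  exact Fintype.sum_equiv (Equiv.addLeft (n : ZMod q)) _ _ (fun x => rfl)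

theorem sum_range_le {χ : DirichletCharacter ℂ q} (hχ : χ ≠ 1) (n : ℕ) :
    ‖∑ m ∈ range n, χ (m : ZMod q)‖ ≤ q := by
  induction n using Nat.strong_induction_on with
  | _ n ih =>
    rcases Nat.lt_or_ge n q with h | h
    · calc ‖∑ m ∈ range n, χ (m : ZMod q)‖ ≤ ∑ m ∈ range n, ‖χ (m : ZMod q)‖ := norm_sum_le _ _
        _ ≤ ∑ m ∈ range n, (1 : ℝ) := Finset.sum_le_sum fun m _ => χ.norm_le_one _
        _ = n := by simp
        _ ≤ q := by exact_mod_cast h.le
    · obtain ⟨k, rfl⟩ := Nat.exists_eq_add_of_le h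
      have hq : 0 < q := NeZero.pos q
      have h1 : ∑ m ∈ range (q + k), χ (m : ZMod q) = ∑ m ∈ range k, χ (m : ZMod q) := by
        rw [add_comm q k, Finset.sum_range_add, sum_period hχ k, add_zero]
      rw [h1]
      exact ih k (by omega)

theorem sum_ioc_le {χ : DirichletCharacter ℂ q} (hχ : χ ≠ 1) (a n : ℕ) (h : a ≤ n) :
    ‖∑ m ∈ Ioc a n, χ (m : ZMod q)‖ ≤ 2 * q := by
  have h1 : ∑ m ∈ Ioc a n, χ (m : ZMod q) =
      ∑ m ∈ range (n + 1), χ (m : ZMod q) - ∑ m ∈ range (a + 1), χ (m : ZMod q) := by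
    rw [Finset.range_eq_Ico, ← Finset.sum_Ico_consecutive (fun m : ℕ => χ (m : ZMod q))
      (Nat.zero_le (a + 1)) (by omega : a + 1 ≤ n + 1), ← Finset.range_eq_Ico, add_sub_cancel_left]
    refine Finset.sum_congr ?_ fun _ _ => rfl
    ext x
    simp only [Finset.mem_Ioc, Finset.mem_Ico]
    omega
  rw [h1]
  refine (norm_sub_le _ _).trans ?_
  have := sum_range_le hχ (n + 1)
  have := sum_range_le hχ (a + 1)
  linarith

/-- `∑_{m ≤ n} χ(m)/m` -/
noncomputable def T (χ : DirichletCharacter ℂ q) (n : ℕ) : ℂ :=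
  ∑ m ∈ Ioc 0 n, χ (m : ZMod q) / m

/-- the value of the L function at a real point `s > 1` is close to the partial sums -/
theorem L_sub {χ : DirichletCharacter ℂ q} (hχ : χ ≠ 1) (n : ℕ) (s : ℝ) (hs : 1 < s) :
    ‖DirichletCharacter.LFunction χ (s : ℂ) -
      ∑ m ∈ Ioc 0 n, χ (m : ZMod q) * (((m : ℝ) ^ (-s) : ℝ) : ℂ)‖ ≤ 2 * q / ((n : ℝ) + 1) := by
  have hs' : 1 < (s : ℂ).re := by simpa using hs
  rw [DirichletCharacter.LFunction_eq_LSeries χ hs']
  have h1 : LSeriesSummable (fun n : ℕ => χ (n : ZMod q)) (s : ℂ) :=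
    ZMod.LSeriesSummable_of_one_lt_re (fun x => χ x) hs'
  have h2 := (h1.LSeriesHasSum).tendsto_sum_nat
  have h3 : ∀ N : ℕ, ∑ i ∈ range (N + 1), LSeries.term (fun n : ℕ => χ (n : ZMod q)) (s : ℂ) i =
      ∑ m ∈ Ioc 0 N, χ (m : ZMod q) * (((m : ℝ) ^ (-s) : ℝ) : ℂ) := by
    intro N
    rw [Finset.range_eq_Ico, Finset.sum_eq_sum_Ico_succ_bot (by omega)]
    rw [LSeries.term_zero, zero_add]
    have e : Finset.Ico (0 + 1) (N + 1) = Ioc 0 N := by
      ext x; simp only [Finset.mem_Ioc, Finset.mem_Ico]; omega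
    rw [e]
    refine Finset.sum_congr rfl fun m hm => ?_
    rw [Finset.mem_Ioc] at hm
    rw [LSeries.term_of_ne_zero (by omega)]
    rw [Complex.ofReal_cpow (Nat.cast_nonneg m)]
    push_cast
    rw [Complex.cpow_neg, div_eq_mul_inv]
  have h4 : Tendsto (fun N : ℕ => ∑ m ∈ Ioc 0 N, χ (m : ZMod q) * (((m : ℝ) ^ (-s) : ℝ) : ℂ)) atTop
      (𝓝 (LSeries (fun n : ℕ => χ (n : ZMod q)) (s : ℂ))) := by
    have h5 := h2.comp (tendsto_add_atTop_nat 1)
    refine h5.congr fun N => ?_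
    exact h3 N
  have h5 : Tendsto (fun N : ℕ => ‖∑ m ∈ Ioc 0 N, χ (m : ZMod q) * (((m : ℝ) ^ (-s) : ℝ) : ℂ) -
      ∑ m ∈ Ioc 0 n, χ (m : ZMod q) * (((m : ℝ) ^ (-s) : ℝ) : ℂ)‖) atTop
      (𝓝 ‖LSeries (fun n : ℕ => χ (n : ZMod q)) (s : ℂ) -
      ∑ m ∈ Ioc 0 n, χ (m : ZMod q) * (((m : ℝ) ^ (-s) : ℝ) : ℂ)‖) :=
    (h4.sub_const _).norm
  refine le_of_tendsto h5 ?_
  filter_upwards [eventually_ge_atTop n] with N hN
  rw [← Finset.sum_Ioc_consecutive
    (fun m : ℕ => χ (m : ZMod q) * (((m : ℝ) ^ (-s) : ℝ) : ℂ)) (Nat.zero_le n) hN,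
    add_sub_cancel_left]
  have h6 := abel (fun m : ℕ => χ (m : ZMod q)) (fun m : ℕ => (m : ℝ) ^ (-s)) (2 * q) n
    (fun k hk => sum_ioc_le hχ n k hk) (fun m _ => Real.rpow_nonneg (Nat.cast_nonneg m) _)
    (fun m hm => by
      apply Real.rpow_le_rpow_of_nonpos
      · exact_mod_cast (show 0 < m by omega)
      · push_cast; linarith
      · linarith) N hN
  refine h6.trans ?_
  rw [div_eq_mul_inv]
  apply mul_le_mul_of_nonneg_left _ (by positivity)
  have h7 : (1 : ℝ) ≤ ((n + 1 : ℕ) : ℝ) := by push_cast; linarith [(Nat.cast_nonneg n : (0:ℝ) ≤ n)]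
  calc ((n + 1 : ℕ) : ℝ) ^ (-s) ≤ ((n + 1 : ℕ) : ℝ) ^ (-1 : ℝ) :=
        Real.rpow_le_rpow_of_exponent_le h7 (by linarith)
    _ = ((n : ℝ) + 1)⁻¹ := by rw [Real.rpow_neg_one]; push_cast; rfl

theorem L_T {χ : DirichletCharacter ℂ q} (hχ : χ ≠ 1) (n : ℕ) :
    ‖DirichletCharacter.LFunction χ 1 - T χ n‖ ≤ 2 * q / ((n : ℝ) + 1) := by
  have h1 : Tendsto (fun s : ℝ => ‖DirichletCharacter.LFunction χ (s : ℂ) -
      ∑ m ∈ Ioc 0 n, χ (m : ZMod q) * (((m : ℝ) ^ (-s) : ℝ) : ℂ)‖) (𝓝[>] 1)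
      (𝓝 ‖DirichletCharacter.LFunction χ ((1 : ℝ) : ℂ) -
      ∑ m ∈ Ioc 0 n, χ (m : ZMod q) * (((m : ℝ) ^ (-(1 : ℝ)) : ℝ) : ℂ)‖) := by
    apply Tendsto.norm
    apply Tendsto.sub
    · have h2 : Continuous (fun s : ℝ => DirichletCharacter.LFunction χ (s : ℂ)) :=
        (DirichletCharacter.differentiable_LFunction hχ).continuous.comp Complex.continuous_ofReal
      exact (h2.tendsto 1).mono_left nhdsWithin_le_nhds
    · apply tendsto_finsetSum
      intro m hm
      rw [Finset.mem_Ioc] at hm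
      apply Tendsto.const_mul
      have h3 : Continuous (fun s : ℝ => (((m : ℝ) ^ (-s) : ℝ) : ℂ)) := by
        apply Complex.continuous_ofReal.comp
        apply Real.continuous_const_rpow _ |>.comp continuous_neg
        exact_mod_cast (show m ≠ 0 by omega)
      exact (h3.tendsto 1).mono_left nhdsWithin_le_nhds
  have h2 : ‖DirichletCharacter.LFunction χ ((1 : ℝ) : ℂ) -
      ∑ m ∈ Ioc 0 n, χ (m : ZMod q) * (((m : ℝ) ^ (-(1 : ℝ)) : ℝ) : ℂ)‖ ≤
      2 * q / ((n : ℝ) + 1) := by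
    refine le_of_tendsto h1 ?_
    filter_upwards [self_mem_nhdsWithin] with s hs
    exact L_sub hχ n s hs
  have h3 : T χ n = ∑ m ∈ Ioc 0 n, χ (m : ZMod q) * (((m : ℝ) ^ (-(1 : ℝ)) : ℝ) : ℂ) := by
    unfold T
    refine Finset.sum_congr rfl fun m _ => ?_
    rw [Real.rpow_neg_one, div_eq_mul_inv]
    push_cast
    rfl
  rw [h3]
  simpa using h2

theorem sum_chi_log {χ : DirichletCharacter ℂ q} (hχ : χ ≠ 1) (n : ℕ) :
    ‖∑ m ∈ Ioc 0 n, χ (m : ZMod q) * ((Real.log m / m : ℝ) : ℂ)‖ ≤ 1 + 2 * q := by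
  have hq0 : (0 : ℝ) ≤ q := Nat.cast_nonneg q
  have hsmall : ∀ m : ℕ, ‖χ (m : ZMod q) * ((Real.log m / m : ℝ) : ℂ)‖ ≤ Real.log m / m := by
    intro m
    rw [norm_mul, Complex.norm_real, Real.norm_eq_abs,
      abs_of_nonneg (div_nonneg (Real.log_natCast_nonneg m) (Nat.cast_nonneg m))]
    exact mul_le_of_le_one_left (div_nonneg (Real.log_natCast_nonneg m) (Nat.cast_nonneg m))
      (χ.norm_le_one _)
  have h12 : ∀ k : ℕ, k ≤ 2 → ‖∑ m ∈ Ioc 0 k, χ (m : ZMod q) * ((Real.log m / m : ℝ) : ℂ)‖ ≤ 1 := by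
    intro k hk
    calc _ ≤ ∑ m ∈ Ioc 0 k, ‖χ (m : ZMod q) * ((Real.log m / m : ℝ) : ℂ)‖ := norm_sum_le _ _
      _ ≤ ∑ m ∈ Ioc 0 k, Real.log m / m := Finset.sum_le_sum fun m _ => hsmall m
      _ ≤ ∑ m ∈ Ioc (0 : ℕ) 2, Real.log (m : ℝ) / (m : ℝ) := by
          apply Finset.sum_le_sum_of_subset_of_nonneg
          · intro m hm
            rw [Finset.mem_Ioc] at hm ⊢
            omega
          · intro m _ _
            exact div_nonneg (Real.log_natCast_nonneg m) (Nat.cast_nonneg m)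
      _ ≤ 1 := by
          rw [Finset.sum_Ioc_succ_top (by norm_num), Finset.sum_Ioc_succ_top (by norm_num)]
          have := Real.log_two_lt_d9
          norm_num
          linarith
  rcases Nat.lt_or_ge n 2 with h | h
  · linarith [h12 n h.le]
  · rw [← Finset.sum_Ioc_consecutive
      (fun m : ℕ => χ (m : ZMod q) * ((Real.log m / m : ℝ) : ℂ)) (Nat.zero_le 2) h]
    have h2 := abel (fun m : ℕ => χ (m : ZMod q)) (fun m : ℕ => Real.log m / (m : ℝ)) (2 * q) 2
      (fun n hn => sum_ioc_le hχ 2 n hn)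
      (fun m _ => div_nonneg (Real.log_natCast_nonneg m) (Nat.cast_nonneg m)) (fun m hm => by
        have hm3 : (3 : ℝ) ≤ m := by exact_mod_cast hm
        have he : Real.exp 1 ≤ (m : ℝ) := by
          have := Real.exp_one_lt_d9
          linarith
        exact Real.log_div_self_antitoneOn he (show Real.exp 1 ≤ ((m + 1 : ℕ) : ℝ) by
          push_cast; linarith) (show (m : ℝ) ≤ ((m + 1 : ℕ) : ℝ) by push_cast; linarith)) n h
    have h3 : Real.log ((2 + 1 : ℕ) : ℝ) / ((2 + 1 : ℕ) : ℝ) ≤ 1 := by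
      have h3 : Real.log 3 ≤ 3 - 1 := Real.log_le_sub_one_of_pos (by norm_num)
      norm_num
      linarith
    have h4 : 2 * (q : ℝ) * (Real.log ((2 + 1 : ℕ) : ℝ) / ((2 + 1 : ℕ) : ℝ)) ≤ 2 * q * 1 :=
      mul_le_mul_of_nonneg_left h3 (by positivity)
    refine (norm_add_le _ _).trans ?_
    have h5 := h12 2 le_rfl
    linarith

omit [NeZero q] in
open ArithmeticFunction in
theorem exch (χ : DirichletCharacter ℂ q) (n : ℕ) :
    ∑ m ∈ Ioc 0 n, χ (m : ZMod q) * ((Real.log m / m : ℝ) : ℂ) =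
    ∑ d ∈ Ioc 0 n, ((vonMangoldt d : ℝ) : ℂ) * (χ (d : ZMod q) / d) * T χ (n / d) := by
  set F : ArithmeticFunction ℂ :=
    ⟨fun d => ((vonMangoldt d : ℝ) : ℂ) * (χ (d : ZMod q) / d), by simp⟩ with hF
  set G : ArithmeticFunction ℂ := ⟨fun m => χ (m : ZMod q) / m, by simp⟩ with hG
  have h1 := sum_Ioc_mul_eq_sum_sum F G n
  have h2 : ∀ m ∈ Ioc 0 n, χ (m : ZMod q) * ((Real.log m / m : ℝ) : ℂ) = (F * G) m := by
    intro m hm
    rw [Finset.mem_Ioc] at hm
    rw [ArithmeticFunction.mul_apply]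
    have h3 : ∀ x ∈ m.divisorsAntidiagonal, F x.1 * G x.2 =
        χ (m : ZMod q) / m * ((vonMangoldt x.1 : ℝ) : ℂ) := by
      intro x hx
      rw [Nat.mem_divisorsAntidiagonal] at hx
      have h4 : (m : ℂ) = x.1 * x.2 := by rw [← hx.1]; push_cast; ring
      have h5 : χ (m : ZMod q) = χ (x.1 : ZMod q) * χ (x.2 : ZMod q) := by
        rw [← hx.1, Nat.cast_mul, map_mul]
      have h6 : (x.1 : ℂ) ≠ 0 := by
        intro h0
        apply hx.2
        have : (m : ℂ) = 0 := by rw [h4, h0, zero_mul]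
        exact_mod_cast this
      have h7 : (x.2 : ℂ) ≠ 0 := by
        intro h0
        apply hx.2
        have : (m : ℂ) = 0 := by rw [h4, h0, mul_zero]
        exact_mod_cast this
      change ((vonMangoldt x.1 : ℝ) : ℂ) * (χ (x.1 : ZMod q) / x.1) * (χ (x.2 : ZMod q) / x.2) = _
      rw [h4, h5]
      field_simp
    rw [Finset.sum_congr rfl h3, ← Finset.mul_sum,
      Nat.sum_divisorsAntidiagonal (fun i _ => ((vonMangoldt i : ℝ) : ℂ)), ← Complex.ofReal_sum,
      vonMangoldt_sum]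
    push_cast
    ring
  rw [Finset.sum_congr rfl h2, h1]
  rfl

/-- `∑ Λ(d) χ(d)/d` is bounded -/
theorem sum_vm {χ : DirichletCharacter ℂ q} (hχ : χ ≠ 1) :
    ∃ B : ℝ, 0 ≤ B ∧ ∀ n : ℕ,
    ‖∑ d ∈ Ioc 0 n, ((ArithmeticFunction.vonMangoldt d : ℝ) : ℂ) * (χ (d : ZMod q) / d)‖ ≤ B := by
  have hL : DirichletCharacter.LFunction χ 1 ≠ 0 :=
    DirichletCharacter.LFunction_apply_one_ne_zero hχ
  set L := DirichletCharacter.LFunction χ 1 with hLdef
  have hL0 : 0 < ‖L‖ := norm_pos_iff.2 hL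
  have hq0 : (0 : ℝ) ≤ q := Nat.cast_nonneg q
  refine ⟨(1 + 14 * q) / ‖L‖, by positivity, fun n => ?_⟩
  rcases Nat.eq_zero_or_pos n with h0 | h0
  · subst h0
    simp only [Finset.Ioc_self, Finset.sum_empty, norm_zero]
    positivity
  have hn0 : (0 : ℝ) < n := by exact_mod_cast h0
  have h1 := sum_chi_log hχ n
  rw [exch χ n] at h1
  set S : ℂ := ∑ d ∈ Ioc 0 n,
    ((ArithmeticFunction.vonMangoldt d : ℝ) : ℂ) * (χ (d : ZMod q) / d) with hS
  set E : ℂ := ∑ d ∈ Ioc 0 n,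
    ((ArithmeticFunction.vonMangoldt d : ℝ) : ℂ) * (χ (d : ZMod q) / d) * T χ (n / d) with hE
  have h2 : ‖S * L - E‖ ≤ 12 * q := by
    rw [hS, hE, Finset.sum_mul, ← Finset.sum_sub_distrib]
    refine (norm_sum_le _ _).trans ?_
    calc ∑ d ∈ Ioc 0 n, ‖((ArithmeticFunction.vonMangoldt d : ℝ) : ℂ) * (χ (d : ZMod q) / d) * L -
          ((ArithmeticFunction.vonMangoldt d : ℝ) : ℂ) * (χ (d : ZMod q) / d) * T χ (n / d)‖
        ≤ ∑ d ∈ Ioc 0 n, ArithmeticFunction.vonMangoldt d * (2 * q / n) := by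
          refine Finset.sum_le_sum fun d hd => ?_
          rw [Finset.mem_Ioc] at hd
          have hd0 : (0 : ℝ) < d := by exact_mod_cast hd.1
          rw [← mul_sub, mul_assoc, norm_mul, Complex.norm_real, Real.norm_eq_abs,
            abs_of_nonneg ArithmeticFunction.vonMangoldt_nonneg]
          apply mul_le_mul_of_nonneg_left _ ArithmeticFunction.vonMangoldt_nonneg
          rw [norm_mul, norm_div, Complex.norm_natCast]
          have h3 := L_T hχ (n / d)
          have h4 : (n : ℝ) ≤ ((n / d : ℕ) + 1) * d := by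
            have := Nat.lt_div_mul_add (a := n) (b := d) hd.1
            have h5 : (n : ℝ) < (n / d : ℕ) * d + d := by exact_mod_cast this
            linarith
          calc ‖χ (d : ZMod q)‖ / d * ‖L - T χ (n / d)‖ ≤ 1 / d * (2 * q / ((n / d : ℕ) + 1)) :=
                mul_le_mul (div_le_div_of_nonneg_right (χ.norm_le_one _) hd0.le) h3
                  (norm_nonneg _) (by positivity)
            _ = 2 * q / (((n / d : ℕ) + 1) * d) := by
                rw [div_mul_div_comm, one_mul, mul_comm (d : ℝ)]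
            _ ≤ 2 * q / n := div_le_div_of_nonneg_left (by positivity) hn0 h4
      _ = (∑ d ∈ Ioc 0 n, ArithmeticFunction.vonMangoldt d) * (2 * q / n) := by
          rw [Finset.sum_mul]
      _ ≤ (6 * n) * (2 * q / n) :=
          mul_le_mul_of_nonneg_right (MRS.H7.psi_nat n) (by positivity)
      _ = 12 * q := by field_simp; ring
  have h3 : ‖S * L‖ ≤ 1 + 14 * q := by
    have h4 := norm_sub_norm_le (S * L) E
    linarith
  rw [norm_mul] at h3
  rw [le_div_iff₀ hL0]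
  exact h3

/-- the coefficients `χ(p) log p / p` -/
noncomputable def cp (χ : DirichletCharacter ℂ q) (m : ℕ) : ℂ :=
  if m.Prime then χ (m : ZMod q) * ((Real.log m / m : ℝ) : ℂ) else 0

theorem sum_cp {χ : DirichletCharacter ℂ q} (hχ : χ ≠ 1) :
    ∃ B : ℝ, 0 ≤ B ∧ ∀ a n : ℕ, a ≤ n → ‖∑ m ∈ Ioc a n, cp χ m‖ ≤ B := by
  obtain ⟨B, hB0, hB⟩ := sum_vm hχ
  have key : ∀ n : ℕ, ‖∑ m ∈ Ioc 0 n, cp χ m‖ ≤ B + 11 := by
    intro n
    rcases Nat.eq_zero_or_pos n with h0 | h0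
    · subst h0
      simp only [Finset.Ioc_self, Finset.sum_empty, norm_zero]
      positivity
    have h1 := hB n
    have h2 : ‖∑ d ∈ Ioc 0 n, ((ArithmeticFunction.vonMangoldt d : ℝ) : ℂ) * (χ (d : ZMod q) / d) -
        ∑ m ∈ Ioc 0 n, cp χ m‖ ≤ 11 := by
      rw [← Finset.sum_sub_distrib]
      refine (norm_sum_le _ _).trans ?_
      calc ∑ d ∈ Ioc 0 n, ‖((ArithmeticFunction.vonMangoldt d : ℝ) : ℂ) * (χ (d : ZMod q) / d) -
            cp χ d‖
          ≤ ∑ d ∈ Ioc 0 n, (ArithmeticFunction.vonMangoldt d / d -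
              if d.Prime then Real.log d / d else 0) := by
            refine Finset.sum_le_sum fun d hd => ?_
            rw [Finset.mem_Ioc] at hd
            have hd0 : (0 : ℝ) < d := by exact_mod_cast hd.1
            unfold cp
            split_ifs with hp
            · rw [ArithmeticFunction.vonMangoldt_apply_prime hp]
              have e1 : ((Real.log d : ℝ) : ℂ) * (χ (d : ZMod q) / d) -
                  χ (d : ZMod q) * ((Real.log d / d : ℝ) : ℂ) = 0 := by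
                push_cast
                ring
              rw [e1]
              simp
            · rw [sub_zero, sub_zero, norm_mul, Complex.norm_real, Real.norm_eq_abs,
                abs_of_nonneg ArithmeticFunction.vonMangoldt_nonneg, norm_div,
                Complex.norm_natCast]
              calc ArithmeticFunction.vonMangoldt d * (‖χ (d : ZMod q)‖ / d) ≤
                  ArithmeticFunction.vonMangoldt d * (1 / d) :=
                    mul_le_mul_of_nonneg_left (div_le_div_of_nonneg_right (χ.norm_le_one _) hd0.le)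
                      ArithmeticFunction.vonMangoldt_nonneg
                _ = _ := by ring
        _ = ∑ d ∈ Ioc 0 n, ArithmeticFunction.vonMangoldt d / d -
              ∑ d ∈ Ioc 0 n, if d.Prime then Real.log d / d else 0 := by
            rw [Finset.sum_sub_distrib]
        _ ≤ 11 := by
            have h3 := MRS.H7.sum_vm_div n h0
            have h4 := MP_973905_nt.PrimeSum.A_bound (n : ℝ) (by exact_mod_cast h0)
            unfold MP_973905_nt.PrimeSum.A at h4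
            rw [Nat.floor_natCast, Finset.sum_filter] at h4
            have h5 := (abs_le.1 h4).1
            have h6 : Finset.Icc 1 n = Finset.Ioc 0 n := by
              ext x
              simp only [Finset.mem_Icc, Finset.mem_Ioc]
              omega
            rw [h6] at h5
            linarith
    have h3 := norm_sub_norm_le (∑ m ∈ Ioc 0 n, cp χ m)
      (∑ d ∈ Ioc 0 n, ((ArithmeticFunction.vonMangoldt d : ℝ) : ℂ) * (χ (d : ZMod q) / d))
    rw [norm_sub_rev] at h2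
    linarith
  refine ⟨2 * (B + 11), by positivity, fun a n h => ?_⟩
  have h1 : ∑ m ∈ Ioc a n, cp χ m = ∑ m ∈ Ioc 0 n, cp χ m - ∑ m ∈ Ioc 0 a, cp χ m := by
    rw [← Finset.sum_Ioc_consecutive (cp χ) (Nat.zero_le a) h]
    ring
  rw [h1]
  have h2 := key n
  have h3 := key a
  have h4 := norm_sub_le (∑ m ∈ Ioc 0 n, cp χ m) (∑ m ∈ Ioc 0 a, cp χ m)
  linarith

/-- `∑ χ(p)/p` is bounded -/
theorem sum_chi_p {χ : DirichletCharacter ℂ q} (hχ : χ ≠ 1) :
    ∃ B : ℝ, 0 ≤ B ∧ ∀ a b : ℕ, 1 ≤ a → a ≤ b →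
    ‖∑ p ∈ (Ioc a b).filter Nat.Prime, χ (p : ZMod q) / p‖ ≤ B := by
  obtain ⟨B, hB0, hB⟩ := sum_cp hχ
  refine ⟨B * 2, by positivity, fun a b ha hab => ?_⟩
  have h1 : ∑ p ∈ (Ioc a b).filter Nat.Prime, χ (p : ZMod q) / p =
      ∑ m ∈ Ioc a b, cp χ m * ((1 / Real.log m : ℝ) : ℂ) := by
    rw [Finset.sum_filter]
    refine Finset.sum_congr rfl fun m _ => ?_
    unfold cp
    split_ifs with hp
    · have h2 : Real.log m ≠ 0 := (Real.log_pos (by exact_mod_cast hp.one_lt)).ne'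
      have h3 : ((Real.log m : ℝ) : ℂ) ≠ 0 := by exact_mod_cast h2
      have h4 : (m : ℂ) ≠ 0 := by exact_mod_cast hp.ne_zero
      rw [Complex.ofReal_div, Complex.ofReal_div, Complex.ofReal_one, Complex.ofReal_natCast]
      field_simp
    · simp
  rw [h1]
  have hl : ∀ m : ℕ, a < m → 0 < Real.log m := fun m hm =>
    Real.log_pos (by exact_mod_cast (show 1 < m by omega))
  have h2 := abel (cp χ) (fun m : ℕ => 1 / Real.log m) B a (fun n hn => hB a n hn)
    (fun m hm => by have := hl m hm; positivity)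
    (fun m hm => by
      apply one_div_le_one_div_of_le (hl m hm)
      apply Real.log_le_log
      · exact_mod_cast (show 0 < m by omega)
      · push_cast; linarith) b hab
  refine h2.trans ?_
  have h3 : Real.log 2 ≤ Real.log ((a + 1 : ℕ) : ℝ) := by
    apply Real.log_le_log (by norm_num)
    exact_mod_cast (show 2 ≤ a + 1 by omega)
  have h4 := Real.log_two_gt_d9
  have h5 : 1 / Real.log ((a + 1 : ℕ) : ℝ) ≤ 1 / (1 / 2) :=
    one_div_le_one_div_of_le (by norm_num) (by linarith)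
  apply mul_le_mul_of_nonneg_left _ hB0
  linarith

/-- primes dividing `q` contribute a bounded amount -/
theorem sum_dvd (a b : ℕ) : ∑ p ∈ (Ioc a b).filter Nat.Prime,
    (if IsUnit (p : ZMod q) then (0 : ℝ) else 1 / p) ≤ q := by
  have hq : 0 < q := NeZero.pos q
  calc ∑ p ∈ (Ioc a b).filter Nat.Prime, (if IsUnit (p : ZMod q) then (0 : ℝ) else 1 / p)
      = ∑ p ∈ ((Ioc a b).filter Nat.Prime).filter (fun p : ℕ => ¬ IsUnit (p : ZMod q)),
        (1 : ℝ) / p := by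
        rw [Finset.sum_filter (s := (Ioc a b).filter Nat.Prime)
          (p := fun p : ℕ => ¬ IsUnit (p : ZMod q))]
        refine Finset.sum_congr rfl fun p _ => ?_
        by_cases h1 : IsUnit (p : ZMod q)
        · rw [if_pos h1, if_neg (not_not.2 h1)]
        · rw [if_neg h1, if_pos h1]
    _ ≤ ∑ p ∈ ((Ioc a b).filter Nat.Prime).filter (fun p : ℕ => ¬ IsUnit (p : ZMod q)), (1 : ℝ) := by
        refine Finset.sum_le_sum fun p hp => ?_
        rw [Finset.mem_filter, Finset.mem_filter] at hp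
        have h1 : (1 : ℝ) ≤ p := by exact_mod_cast hp.1.2.one_lt.le
        rw [div_le_one (by linarith)]
        exact h1
    _ ≤ ∑ p ∈ Ioc 0 q, (1 : ℝ) := by
        apply Finset.sum_le_sum_of_subset_of_nonneg
        · intro p hp
          rw [Finset.mem_filter, Finset.mem_filter] at hp
          rw [Finset.mem_Ioc]
          refine ⟨hp.1.2.pos, ?_⟩
          rw [ZMod.isUnit_iff_coprime] at hp
          have h1 : p ∣ q := by
            rcases Nat.coprime_or_dvd_of_prime hp.1.2 q with h | h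
            · exact absurd h hp.2
            · exact h
          exact Nat.le_of_dvd hq h1
        · intro _ _ _; norm_num
    _ = q := by simp

/-- Mertens in progressions, integer end points -/
theorem mer_nat (q : ℕ) (hq : 0 < q) (a : ℕ) (ha : Nat.Coprime a q) : ∃ C : ℝ, 0 ≤ C ∧
    ∀ x y : ℕ, 1 ≤ x → x ≤ y →
    |∑ p ∈ (Ioc x y).filter (fun p => p.Prime ∧ p ≡ a [MOD q]), (1 : ℝ) / p -
      (1 / (Nat.totient q : ℝ)) * ∑ p ∈ (Ioc x y).filter Nat.Prime, (1 : ℝ) / p| ≤ C := by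
  have : NeZero q := ⟨hq.ne'⟩
  classical
  choose! B hB0 hB using fun (χ : DirichletCharacter ℂ q) (hχ : χ ≠ 1) => sum_chi_p hχ
  have hphi : (0 : ℝ) < Nat.totient q := by
    have := Nat.totient_pos.2 hq
    exact_mod_cast this
  have hphi1 : (1 : ℝ) ≤ Nat.totient q := by
    have := Nat.totient_pos.2 hq
    exact_mod_cast this
  have hB0' : 0 ≤ ∑ χ ∈ (Finset.univ : Finset (DirichletCharacter ℂ q)).erase 1, B χ :=
    Finset.sum_nonneg fun χ hχ => hB0 χ (Finset.ne_of_mem_erase hχ)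
  refine ⟨(∑ χ ∈ (Finset.univ : Finset (DirichletCharacter ℂ q)).erase 1, B χ) + q, by positivity,
    fun x y hx hxy => ?_⟩
  set P := (Ioc x y).filter Nat.Prime with hP
  have haU : IsUnit (a : ZMod q) := (ZMod.isUnit_iff_coprime a q).2 ha
  -- the sum over the class through characters
  have h1 : ∑ p ∈ (Ioc x y).filter (fun p => p.Prime ∧ p ≡ a [MOD q]), (1 : ℂ) / p =
      (1 / (Nat.totient q : ℂ)) * ∑ χ : DirichletCharacter ℂ q, χ (a : ZMod q)⁻¹ *
        ∑ p ∈ P, χ (p : ZMod q) / p := by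
    have h2 : ∀ p ∈ P, (if (p ≡ a [MOD q]) then (1 : ℂ) / p else 0) =
        (1 / (Nat.totient q : ℂ)) * ∑ χ : DirichletCharacter ℂ q, χ (a : ZMod q)⁻¹ *
          (χ (p : ZMod q) / p) := by
      intro p _
      have h3 := DirichletCharacter.sum_char_inv_mul_char_eq ℂ haU (p : ZMod q)
      have h4 : ∑ χ : DirichletCharacter ℂ q, χ (a : ZMod q)⁻¹ * (χ (p : ZMod q) / p) =
          (if (a : ZMod q) = (p : ZMod q) then (Nat.totient q : ℂ) else 0) / p := by
        rw [← h3, Finset.sum_div]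
        refine Finset.sum_congr rfl fun χ _ => ?_
        ring
      rw [h4]
      have h5 : ((a : ZMod q) = (p : ZMod q)) ↔ p ≡ a [MOD q] := by
        rw [ZMod.natCast_eq_natCast_iff]
        exact ⟨fun h => h.symm, fun h => h.symm⟩
      have h6 : (Nat.totient q : ℂ) ≠ 0 := by exact_mod_cast hphi.ne'
      by_cases h7 : p ≡ a [MOD q]
      · rw [if_pos h7, if_pos (h5.2 h7)]
        field_simp
      · rw [if_neg h7, if_neg (mt h5.1 h7)]
        simp
    have h3 : ∑ p ∈ (Ioc x y).filter (fun p => p.Prime ∧ p ≡ a [MOD q]), (1 : ℂ) / p =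
        ∑ p ∈ P, (if (p ≡ a [MOD q]) then (1 : ℂ) / p else 0) := by
      rw [hP, ← Finset.sum_filter, Finset.filter_filter]
    rw [h3, Finset.sum_congr rfl h2, ← Finset.mul_sum, Finset.sum_comm]
    congr 1
    refine Finset.sum_congr rfl fun χ _ => ?_
    rw [Finset.mul_sum]
  -- split off the principal character
  rw [← Finset.add_sum_erase _ _ (Finset.mem_univ (1 : DirichletCharacter ℂ q))] at h1
  have hainv : IsUnit ((a : ZMod q)⁻¹) := by
    obtain ⟨u, hu⟩ := haU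
    rw [← hu, ZMod.inv_coe_unit]
    exact (u⁻¹).isUnit
  have h2 : (1 : DirichletCharacter ℂ q) (a : ZMod q)⁻¹ = 1 := MulChar.one_apply hainv
  have h3 : ∑ p ∈ P, (1 : DirichletCharacter ℂ q) (p : ZMod q) / (p : ℂ) =
      ((∑ p ∈ P, (1 : ℝ) / p - ∑ p ∈ P, (if IsUnit (p : ZMod q) then (0 : ℝ) else 1 / p) : ℝ) : ℂ)
      := by
    rw [← Finset.sum_sub_distrib, Complex.ofReal_sum]
    refine Finset.sum_congr rfl fun p _ => ?_
    split_ifs with h
    · rw [MulChar.one_apply h]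
      push_cast
      ring
    · rw [MulChar.map_nonunit _ h]
      push_cast
      ring
  rw [h2, one_mul, h3] at h1
  set D : ℝ := ∑ p ∈ P, (if IsUnit (p : ZMod q) then (0 : ℝ) else 1 / p) with hD
  have hD0 : 0 ≤ D := Finset.sum_nonneg fun p _ => by split_ifs <;> positivity
  have hD1 : D ≤ q := sum_dvd x y
  set Z : ℂ := ∑ χ ∈ (Finset.univ : Finset (DirichletCharacter ℂ q)).erase 1,
    χ (a : ZMod q)⁻¹ * ∑ p ∈ P, χ (p : ZMod q) / p with hZ
  have hZ1 : ‖Z‖ ≤ ∑ χ ∈ (Finset.univ : Finset (DirichletCharacter ℂ q)).erase 1, B χ := by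
    refine (norm_sum_le _ _).trans (Finset.sum_le_sum fun χ hχ => ?_)
    have h4 := hB χ (Finset.ne_of_mem_erase hχ) x y hx hxy
    rw [norm_mul]
    calc _ ≤ 1 * B χ := mul_le_mul (χ.norm_le_one _) h4 (norm_nonneg _) (by norm_num)
      _ = B χ := one_mul _
  have h4 : ((∑ p ∈ (Ioc x y).filter (fun p => p.Prime ∧ p ≡ a [MOD q]), (1 : ℝ) / p -
      (1 / (Nat.totient q : ℝ)) * ∑ p ∈ P, (1 : ℝ) / p : ℝ) : ℂ) =
      (1 / (Nat.totient q : ℂ)) * (Z - (D : ℂ)) := by
    have h5 : ((∑ p ∈ (Ioc x y).filter (fun p => p.Prime ∧ p ≡ a [MOD q]), (1 : ℝ) / p : ℝ) : ℂ) =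
        ∑ p ∈ (Ioc x y).filter (fun p => p.Prime ∧ p ≡ a [MOD q]), (1 : ℂ) / p := by
      push_cast
      rfl
    rw [Complex.ofReal_sub, h5, h1]
    push_cast
    ring
  have h5 : |∑ p ∈ (Ioc x y).filter (fun p => p.Prime ∧ p ≡ a [MOD q]), (1 : ℝ) / p -
      (1 / (Nat.totient q : ℝ)) * ∑ p ∈ P, (1 : ℝ) / p| =
      ‖(1 / (Nat.totient q : ℂ)) * (Z - (D : ℂ))‖ := by
    rw [← h4, Complex.norm_real, Real.norm_eq_abs]
  rw [h5, norm_mul, norm_div, norm_one, Complex.norm_natCast]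
  have h6 : ‖Z - (D : ℂ)‖ ≤ (∑ χ ∈ (Finset.univ : Finset (DirichletCharacter ℂ q)).erase 1, B χ) +
      q := by
    refine (norm_sub_le _ _).trans (add_le_add hZ1 ?_)
    rw [Complex.norm_real, Real.norm_eq_abs, abs_of_nonneg hD0]
    exact hD1
  have h7 : 1 / (Nat.totient q : ℝ) ≤ 1 := by
    rw [div_le_one hphi]
    exact hphi1
  calc 1 / (Nat.totient q : ℝ) * ‖Z - (D : ℂ)‖ ≤ 1 * ‖Z - (D : ℂ)‖ :=
        mul_le_mul_of_nonneg_right h7 (norm_nonneg _)
    _ ≤ _ := by rw [one_mul]; exact h6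

end Pool.Agent.Lib.MP_a17b09_nt.MRSG.H7

namespace Pool.Agent.Lib.MP_a17b09_nt.MRSG

open H7

/-- the primes `p = a mod q` in `[x, y)` -/
noncomputable def PA7 (q a : ℕ) (x y : ℝ) : Finset ℕ :=
  (Finset.range ⌈y⌉₊).filter (fun p => p.Prime ∧ p ≡ a [MOD q] ∧ x ≤ p)

theorem mem_PA7 {q a : ℕ} {x y : ℝ} {p : ℕ} :
    p ∈ PA7 q a x y ↔ p.Prime ∧ p ≡ a [MOD q] ∧ x ≤ p ∧ (p : ℝ) < y := by
  unfold PA7
  rw [Finset.mem_filter, Finset.mem_range, Nat.lt_ceil]
  tauto

/-- Mertens' theorem in progressions with bounded error -/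
theorem merG_7 (q : ℕ) (hq : 0 < q) (a : ℕ) (ha : Nat.Coprime a q) : ∃ C : ℝ, 0 < C ∧
    ∀ x y : ℝ, 2 ≤ x → x ≤ y →
    |∑ p ∈ PA7 q a x y, (1 : ℝ) / p -
      (1 / (Nat.totient q : ℝ)) * Real.log (Real.log y / Real.log x)| ≤ C := by
  obtain ⟨C, hC0, hC⟩ := mer_nat q hq a ha
  refine ⟨C + 22, by positivity, fun x y hx hxy => ?_⟩
  have hphi1 : (1 : ℝ) ≤ Nat.totient q := by
    have := Nat.totient_pos.2 hq
    exact_mod_cast this
  have hy : 2 ≤ y := hx.trans hxy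
  set A : ℕ := ⌊x⌋₊ with hA
  set B : ℕ := ⌊y⌋₊ with hB
  have hA2 : 2 ≤ A := Nat.le_floor (by simpa using hx)
  have hAB : A ≤ B := Nat.floor_mono hxy
  set P : Finset ℕ := (Ioc A B).filter (fun p => p.Prime ∧ p ≡ a [MOD q]) with hP
  have h1 := hC A B (by omega) hAB
  have h2 := MP_973905_nt.PrimeSum.range_bound x y hx hxy
  have h3 : Real.log 2 ≤ Real.log x := Real.log_le_log (by norm_num) hx
  have h4 := Real.log_two_gt_d9
  have h5 : 10 / Real.log x ≤ 20 := by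
    rw [div_le_iff₀ (by linarith)]
    linarith
  have h6 : |(1 / (Nat.totient q : ℝ)) * ∑ p ∈ (Ioc A B).filter Nat.Prime, (1 : ℝ) / p -
      (1 / (Nat.totient q : ℝ)) * Real.log (Real.log y / Real.log x)| ≤ 20 := by
    rw [← mul_sub, abs_mul, abs_of_nonneg (by positivity : (0 : ℝ) ≤ 1 / (Nat.totient q : ℝ))]
    have h7 : 1 / (Nat.totient q : ℝ) ≤ 1 := by
      rw [div_le_one (by linarith)]
      exact hphi1
    have h8 : |∑ p ∈ (Ioc A B).filter Nat.Prime, (1 : ℝ) / p -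
        Real.log (Real.log y / Real.log x)| ≤ 20 := h2.trans h5
    calc _ ≤ 1 * |∑ p ∈ (Ioc A B).filter Nat.Prime, (1 : ℝ) / p -
        Real.log (Real.log y / Real.log x)| := mul_le_mul_of_nonneg_right h7 (abs_nonneg _)
      _ ≤ 20 := by rw [one_mul]; exact h8
  have hG : ∀ p : ℕ, 2 ≤ p → (1 : ℝ) / p ≤ 1 := by
    intro p hp
    have : (2 : ℝ) ≤ p := by exact_mod_cast hp
    rw [div_le_one (by linarith)]
    linarith
  have h7 : ∑ p ∈ PA7 q a x y, (1 : ℝ) / p ≤ ∑ p ∈ P, (1 : ℝ) / p + 1 := by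
    have h8 : PA7 q a x y ⊆ insert A P := by
      intro p hp
      rw [mem_PA7] at hp
      rw [Finset.mem_insert, hP, Finset.mem_filter, Finset.mem_Ioc]
      have h9 : A ≤ p := by
        rw [hA]
        exact Nat.floor_le_of_le hp.2.2.1
      have h10 : p ≤ B := Nat.le_floor hp.2.2.2.le
      rcases h9.eq_or_lt with h11 | h11
      · exact Or.inl h11.symm
      · exact Or.inr ⟨⟨h11, h10⟩, hp.1, hp.2.1⟩
    have h9 : A ∉ P := by
      rw [hP, Finset.mem_filter, Finset.mem_Ioc]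
      omega
    calc ∑ p ∈ PA7 q a x y, (1 : ℝ) / p ≤ ∑ p ∈ insert A P, (1 : ℝ) / p :=
          Finset.sum_le_sum_of_subset_of_nonneg h8 fun p _ _ => by positivity
      _ = 1 / (A : ℝ) + ∑ p ∈ P, (1 : ℝ) / p := Finset.sum_insert h9
      _ ≤ _ := by linarith [hG A hA2]
  have h8 : ∑ p ∈ P, (1 : ℝ) / p ≤ ∑ p ∈ PA7 q a x y, (1 : ℝ) / p + 1 := by
    have h9 : P ⊆ PA7 q a x y ∪ {B} := by
      intro p hp
      rw [hP, Finset.mem_filter, Finset.mem_Ioc] at hp
      rw [Finset.mem_union, Finset.mem_singleton, mem_PA7]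
      have h10 : x < p := (Nat.floor_lt (by linarith)).1 hp.1.1
      rcases hp.1.2.eq_or_lt with h11 | h11
      · exact Or.inr h11
      · left
        refine ⟨hp.2.1, hp.2.2, h10.le, ?_⟩
        calc (p : ℝ) < B := by exact_mod_cast h11
          _ ≤ y := Nat.floor_le (by linarith)
    calc ∑ p ∈ P, (1 : ℝ) / p ≤ ∑ p ∈ PA7 q a x y ∪ {B}, (1 : ℝ) / p :=
          Finset.sum_le_sum_of_subset_of_nonneg h9 fun p _ _ => by positivity
      _ ≤ ∑ p ∈ PA7 q a x y, (1 : ℝ) / p + ∑ p ∈ {B}, (1 : ℝ) / p := by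
          rw [← Finset.sum_union_inter]
          have : 0 ≤ ∑ p ∈ PA7 q a x y ∩ {B}, (1 : ℝ) / p :=
            Finset.sum_nonneg fun p _ => by positivity
          linarith
      _ ≤ _ := by
          rw [Finset.sum_singleton]
          linarith [hG B (hA2.trans hAB)]
  rw [abs_le] at h1 h6 ⊢
  constructor <;> linarith [h1.1, h1.2, h6.1, h6.2]

/-- Chebyshev bound in dyadic windows -/
theorem chebG_7 (q a : ℕ) (y : ℝ) (hy : 2 ≤ y) :
    ∑ p ∈ PA7 q a y (2 * y), (1 : ℝ) / p ≤ 2 * Real.log 4 / Real.log y := by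
  have hy0 : 0 < y := by linarith
  have hl : 0 < Real.log y := Real.log_pos (by linarith)
  have h1 : ∀ p ∈ PA7 q a y (2 * y), (1 : ℝ) / p ≤ (1 / (y * Real.log y)) * Real.log p := by
    intro p hp
    rw [mem_PA7] at hp
    have hp0 : (0 : ℝ) < p := by linarith [hp.2.2.1]
    have h2 : Real.log y ≤ Real.log p := Real.log_le_log hy0 hp.2.2.1
    rw [div_mul_eq_mul_div, div_le_div_iff₀ hp0 (by positivity)]
    have h3 : y * Real.log y ≤ p * Real.log p := mul_le_mul hp.2.2.1 h2 hl.le hp0.le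
    nlinarith
  calc ∑ p ∈ PA7 q a y (2 * y), (1 : ℝ) / p
      ≤ ∑ p ∈ PA7 q a y (2 * y), (1 / (y * Real.log y)) * Real.log p := Finset.sum_le_sum h1
    _ = (1 / (y * Real.log y)) * ∑ p ∈ PA7 q a y (2 * y), Real.log p := by rw [Finset.mul_sum]
    _ ≤ (1 / (y * Real.log y)) * (Real.log 4 * (2 * y)) := by
        apply mul_le_mul_of_nonneg_left _ (by positivity)
        refine le_trans ?_ (Chebyshev.theta_le_log4_mul_x (x := 2 * y) (by positivity))
        unfold Chebyshev.theta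
        apply Finset.sum_le_sum_of_subset_of_nonneg
        · intro p hp
          rw [mem_PA7] at hp
          rw [Finset.mem_filter, Finset.mem_Ioc]
          exact ⟨⟨hp.1.pos, Nat.le_floor hp.2.2.2.le⟩, hp.1⟩
        · intro p _ _
          exact Real.log_natCast_nonneg p
    _ = 2 * Real.log 4 / Real.log y := by
        field_simp

end Pool.Agent.Lib.MP_a17b09_nt.MRSG
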