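import Pool.Agent.Lib.MP_a17b09_nt.MRS.TopJ90

/-!
Project CH / MRS, stages B and C: the final statement in plain terms from the twisted theorem for all
pairs of roots of unity different from `(1, 1)`.
-/

set_option autoImplicit false

open Filter Topology Finset

namespace Pool.Agent.Lib.MP_a17b09_nt.CH

namespace EndJ90

/-- the classes only depend on the residues -/
theorem CST_mod (a b c : ℤ) (α β : ℝ) (h t0 k r s r' s' N : ℕ) (hr : r ≡ r' [MOD k])
    (hs : s ≡ s' [MOD k]) : CST a b c α β h t0 k r s N = CST a b c α β h t0 k r' s' N := by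
  unfold CST
  apply Finset.sum_congr rfl
  intro t _
  congr 1
  apply Finset.filter_congr
  intro d _
  exact ⟨fun h1 => ⟨h1.1.trans hr, h1.2.trans hs⟩,
    fun h1 => ⟨h1.1.trans hr.symm, h1.2.trans hs.symm⟩⟩

/-- the classes together are all pairs -/
theorem CST_sum (a b c : ℤ) (α β : ℝ) (h t0 : ℕ) {k : ℕ} (hk : 0 < k) (N : ℕ) :
    ∑ p ∈ range k ×ˢ range k, CST a b c α β h t0 k p.1 p.2 N = CST a b c α β h t0 1 0 0 N := by
  unfold CST
  rw [Finset.sum_comm]
  apply Finset.sum_congr rfl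
  intro t _
  have h1 : (nearG a b c α β t).filter (fun d => Omn d ≡ 0 [MOD 1] ∧
      Omn ((fv a b c t).natAbs / d) ≡ 0 [MOD 1]) = nearG a b c α β t := by
    apply Finset.filter_true_of_mem
    intro d _
    exact ⟨Nat.modEq_one, Nat.modEq_one⟩
  rw [h1]
  have h2 := Finset.card_eq_sum_card_fiberwise (s := nearG a b c α β t)
    (t := range k ×ˢ range k)
    (f := fun d => (Omn d % k, Omn ((fv a b c t).natAbs / d) % k)) (by
      intro d _
      simp only [Finset.coe_product, Set.mem_prod, Finset.mem_coe, Finset.mem_range]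
      exact ⟨Nat.mod_lt _ hk, Nat.mod_lt _ hk⟩)
  rw [h2]
  apply Finset.sum_congr rfl
  rintro ⟨r, s⟩ hp
  rw [Finset.mem_product, Finset.mem_range, Finset.mem_range] at hp
  congr 1
  apply Finset.filter_congr
  intro d _
  simp only [Prod.mk.injEq]
  unfold Nat.ModEq
  rw [Nat.mod_eq_of_lt hp.1, Nat.mod_eq_of_lt hp.2]

/-- the number of pairs with `Ω (f t)` in a class -/
noncomputable def CS (a b c : ℤ) (α β : ℝ) (h t0 k r : ℕ) (N : ℕ) : ℕ :=
  ∑ t ∈ (Finset.Icc 1 N).filter (fun t => t ≡ t0 [MOD h]),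
    ((nearG a b c α β t).filter (fun _ => Om a b c t ≡ r [MOD k])).card

theorem CS_eq {a b c : ℤ} (ha : 0 < a) (hD : b ^ 2 - 4 * a * c < 0) (α β : ℝ) (h t0 : ℕ) {k : ℕ}
    (hk : 0 < k) (r N : ℕ) : CS a b c α β h t0 k r N =
      ∑ r' ∈ range k, CST a b c α β h t0 k r' (r + (k - 1) * r') N := by
  obtain ⟨k, rfl⟩ : ∃ k', k = k' + 1 := ⟨k - 1, by omega⟩
  simp only [Nat.add_sub_cancel]
  unfold CST CS
  rw [Finset.sum_comm]
  apply Finset.sum_congr rfl
  intro t _
  have h2 := Finset.card_eq_sum_card_fiberwise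
    (s := (nearG a b c α β t).filter (fun _ => Om a b c t ≡ r [MOD k + 1]))
    (t := range (k + 1)) (f := fun d => Omn d % (k + 1)) (by
      intro d _
      simp only [Finset.mem_coe, Finset.mem_range]
      exact Nat.mod_lt _ hk)
  rw [h2]
  apply Finset.sum_congr rfl
  intro r' hr'
  rw [Finset.mem_range] at hr'
  congr 1
  rw [Finset.filter_filter]
  apply Finset.filter_congr
  intro d hd
  have h3 : Omn d + Omn ((fv a b c t).natAbs / d) = Om a b c t := by
    unfold nearG at hd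
    obtain ⟨hd1, -⟩ := Finset.mem_filter.1 hd
    rw [Nat.mem_divisors] at hd1
    obtain ⟨hd2, hd3⟩ := hd1
    have hd0 : d ≠ 0 := by
      rintro rfl
      exact hd3 (Nat.eq_zero_of_zero_dvd hd2)
    have hq0 : (fv a b c t).natAbs / d ≠ 0 := by
      intro h0
      have := Nat.mul_div_cancel' hd2
      rw [h0, mul_zero] at this
      exact hd3 this.symm
    unfold Omn Om
    rw [← ArithmeticFunction.cardFactors_mul hd0 hq0, Nat.mul_div_cancel' hd2]
  have hmod : Omn d % (k + 1) = r' ↔ Omn d ≡ r' [MOD k + 1] := by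
    unfold Nat.ModEq
    rw [Nat.mod_eq_of_lt hr']
  rw [hmod, ← h3]
  constructor
  · rintro ⟨h4, h5⟩
    refine ⟨h5, ?_⟩
    -- add `k Ω d`
    have h6 : Omn ((fv a b c t).natAbs / d) + (k + 1) * Omn d ≡ r + k * r' [MOD k + 1] := by
      have h7 : Omn ((fv a b c t).natAbs / d) + (k + 1) * Omn d =
          (Omn d + Omn ((fv a b c t).natAbs / d)) + k * Omn d := by ring
      rw [h7]
      exact h4.add (h5.mul_left k)
    have h8 : Omn ((fv a b c t).natAbs / d) + (k + 1) * Omn d ≡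
        Omn ((fv a b c t).natAbs / d) [MOD k + 1] := by
      unfold Nat.ModEq
      rw [Nat.add_mul_mod_self_left]
    exact h8.symm.trans h6
  · rintro ⟨h4, h5⟩
    refine ⟨?_, h4⟩
    have h6 := h4.add h5
    have h7 : r' + (r + k * r') = r + (k + 1) * r' := by ring
    rw [h7] at h6
    have h8 : r + (k + 1) * r' ≡ r [MOD k + 1] := by
      unfold Nat.ModEq
      rw [Nat.add_mul_mod_self_left]
    exact h6.trans h8

/-- means of all classes -/
theorem finJ (hO : StOn) (hMain : StMainS) {a b c : ℤ} (ha : 0 < a)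
    (hD : b ^ 2 - 4 * a * c < 0) {h : ℕ} (hh : 0 < h) (t0 : ℕ) {α β : ℝ} (hα : 0 < α)
    (hαβ : α < β) (hTw : ∀ (z1 z2 : ℂ) (k : ℕ), 0 < k → z1 ^ k = 1 → z2 ^ k = 1 →
      (z1 ≠ 1 ∨ z2 ≠ 1) → ∀ M : LMean,
      M.E (fun N : ℕ => ‖TwN a b c α β h t0 z1 z2 N‖ / N) = 0) :
    ∃ κ : ℝ, 0 < κ ∧
      Tendsto (fun N : ℕ => (CST a b c α β h t0 1 0 0 N : ℝ) / N) atTop (𝓝 κ) ∧
      (∀ k : ℕ, 0 < k → ∀ r s : ℕ, Bdd (fun N : ℕ => (CST a b c α β h t0 k r s N : ℝ) / N) ∧
        ∀ M : LMean, M.E (fun N : ℕ => |(CST a b c α β h t0 k r s N : ℝ) / N - κ / k ^ 2|) = 0) ∧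
      (∀ k : ℕ, 0 < k → ∀ r : ℕ, Bdd (fun N : ℕ => (CS a b c α β h t0 k r N : ℝ) / N) ∧
        ∀ M : LMean, M.E (fun N : ℕ => |(CS a b c α β h t0 k r N : ℝ) / N - κ / k|) = 0) := by
  obtain ⟨κ, hκ, hlim⟩ := hMain a b c ha hD h hh t0 α β hα hαβ
  obtain ⟨C, hC⟩ := hO a b c ha hD h hh t0 α β hα hαβ
  have hb : ∀ k r s : ℕ, Bdd (fun N : ℕ => (CST a b c α β h t0 k r s N : ℝ) / N) := by
    intro k r s
    refine ⟨|C|, fun N => ?_⟩
    rw [abs_of_nonneg (by positivity)]
    rcases Nat.eq_zero_or_pos N with h0 | h0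
    · rw [h0]; simp
    · have h0' : (0 : ℝ) < N := by exact_mod_cast h0
      rw [div_le_iff₀ h0']
      have h1 : CST a b c α β h t0 k r s N ≤
          ∑ t ∈ (Finset.Icc 1 N).filter (fun t => t ≡ t0 [MOD h]), (nearG a b c α β t).card := by
        unfold CST
        exact Finset.sum_le_sum fun t _ => Finset.card_filter_le _ _
      calc (CST a b c α β h t0 k r s N : ℝ) ≤ ((∑ t ∈ (Finset.Icc 1 N).filter
            (fun t => t ≡ t0 [MOD h]), (nearG a b c α β t).card : ℕ) : ℝ) := by exact_mod_cast h1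
        _ ≤ C * N := hC N
        _ ≤ |C| * N := mul_le_mul_of_nonneg_right (le_abs_self C) h0'.le
  have h1 : ∀ k : ℕ, 0 < k → ∀ r s : ℕ, ∀ M : LMean,
      M.E (fun N : ℕ => |(CST a b c α β h t0 k r s N : ℝ) / N - κ / k ^ 2|) = 0 := by
    intro k hk r s M
    have hsh := TopJ90.share M (range k ×ˢ range k)
      (fun p N => (CST a b c α β h t0 k p.1 p.2 N : ℝ)) (fun p _ => hb k p.1 p.2)
      (fun p _ q _ => TopJ90.inv2 M k hk
        (fun M => (Finset.Icc 1 M).filter (fun t => t ≡ t0 [MOD h]))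
        (nearG a b c α β) (fun _ d => Omn d) (fun t d => Omn ((fv a b c t).natAbs / d))
        ⟨C, hC⟩ (fun z1 z2 h1 h2 h3 => hTw z1 z2 k hk h1 h2 h3 M) p.1 p.2 q.1 q.2)
      (κ := κ) (by
        refine hlim.congr fun N => ?_
        rw [← CST_sum a b c α β h t0 hk N]
        push_cast
        rfl) (r % k, s % k) (by
        rw [Finset.mem_product, Finset.mem_range, Finset.mem_range]
        exact ⟨Nat.mod_lt _ hk, Nat.mod_lt _ hk⟩)
    have hcard : ((range k ×ˢ range k).card : ℝ) = (k : ℝ) ^ 2 := by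
      rw [Finset.card_product, Finset.card_range]
      push_cast
      ring
    rw [hcard] at hsh
    refine Eq.trans ?_ hsh
    congr 1
    funext N
    rw [CST_mod a b c α β h t0 k r s (r % k) (s % k) N (Nat.mod_modEq r k).symm
      (Nat.mod_modEq s k).symm]
  refine ⟨κ, hκ, hlim, fun k hk r s => ⟨hb k r s, h1 k hk r s⟩, fun k hk r => ?_⟩
  have e1 : ∀ N : ℕ, (CS a b c α β h t0 k r N : ℝ) =
      ∑ r' ∈ range k, (CST a b c α β h t0 k r' (r + (k - 1) * r') N : ℝ) := by
    intro N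
    rw [CS_eq ha hD α β h t0 hk r N]
    push_cast
    rfl
  constructor
  · have h2 : (fun N : ℕ => (CS a b c α β h t0 k r N : ℝ) / N) = fun N : ℕ =>
        ∑ r' ∈ range k, (CST a b c α β h t0 k r' (r + (k - 1) * r') N : ℝ) / N := by
      funext N
      rw [e1 N, Finset.sum_div]
    rw [h2]
    exact Bdd.sum _ _ fun r' _ => hb k r' _
  · intro M
    have h2 := TopJ90.sum_mean M (range k)
      (fun r' N => (CST a b c α β h t0 k r' (r + (k - 1) * r') N : ℝ)) (fun _ => κ / k ^ 2)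
      (fun r' _ => hb k r' _) (fun r' _ => h1 k hk r' _ M)
    refine Eq.trans ?_ h2
    congr 1
    funext N
    rw [e1 N, Finset.sum_const, Finset.card_range, nsmul_eq_mul]
    have hk' : (k : ℝ) ≠ 0 := by exact_mod_cast hk.ne'
    congr 2
    field_simp

/-- from means to the final form -/
theorem final (hU : StMeanU) (hMean : StMean) (a b c : ℤ) (h t₀ : ℕ) (α β : ℝ)
    (P : ℕ → ℕ → Prop) (C : ℕ → ℕ) (hC : ∀ N, pairCount a b c h t₀ α β P N = C N) {κ : ℝ}
    (hκ : 0 < κ) (hb : Bdd (fun N : ℕ => (C N : ℝ) / N))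
    (hM : ∀ M : LMean, M.E (fun N : ℕ => |(C N : ℝ) / N - κ|) = 0) :
    (∀ ε : ℝ, 0 < ε → LogNull {N | ε < |(pairCount a b c h t₀ α β P N : ℝ) / N - κ|}) ∧
      (∃ η : ℝ, 0 < η ∧ ∀ᶠ N : ℕ in atTop, η * N ≤ pairCount a b c h t₀ α β P N) ∧
      Tendsto (fun X : ℕ => pairSum a b c h t₀ α β P X / Real.log X) atTop (𝓝 κ) := by
  have h1 : ∀ ε : ℝ, 0 < ε →
      LogNull {N | ε < |(pairCount a b c h t₀ α β P N : ℝ) / N - κ|} := by
    intro ε hε
    have h2 := EndS.logNull_of hU (F := fun N : ℕ => |(C N : ℝ) / N - κ|)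
      (Bdd.abs (Bdd.sub hb (Bdd.const κ))) (fun N => abs_nonneg _) hM hε
    simpa only [hC] using h2
  refine ⟨h1, ?_, ?_⟩
  · have hmono : Monotone (fun N : ℕ => (pairCount a b c h t₀ α β P N : ℝ)) := by
      intro N N' hN
      show (pairCount a b c h t₀ α β P N : ℝ) ≤ (pairCount a b c h t₀ α β P N' : ℝ)
      have : pairCount a b c h t₀ α β P N ≤ pairCount a b c h t₀ α β P N' := by
        unfold pairCount
        apply Finset.sum_le_sum_of_subset
        apply Finset.filter_subset_filter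
        exact Finset.Icc_subset_Icc le_rfl hN
      exact_mod_cast this
    exact EndS.lower_all hmono hκ (h1 (κ / 2) (by positivity))
  · set w : ℕ → ℝ := fun t => if t ≡ t₀ [MOD h] then
      (Set.ncard {d : ℕ | (d : ℤ) ∣ a * (t : ℤ) ^ 2 + b * t + c ∧ α * t ≤ d ∧ d ≤ β * t ∧
        P t d} : ℝ) else 0 with hw
    have e1 : ∀ N : ℕ, ∑ t ∈ Finset.Icc 1 N, w t = (C N : ℝ) := by
      intro N
      rw [← hC N]
      unfold pairCount
      rw [Nat.cast_sum, Finset.sum_filter]
    have e2 : ∀ X : ℕ, ∑ t ∈ Finset.Icc 1 X, w t / t = pairSum a b c h t₀ α β P X := by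
      intro X
      unfold pairSum
      rw [Finset.sum_filter]
      apply Finset.sum_congr rfl
      intro t _
      rw [hw]
      beta_reduce
      split_ifs
      · rfl
      · rw [zero_div]
    have h2 := TopJ90.log_of_mean hMean (w := w) (c := κ) (by simpa only [e1] using hb)
      (by simpa only [e1] using hM)
    simpa only [e2] using h2

end EndJ90

open EndJ90 in
/-- The final statement in plain terms. -/
theorem endJ90 (hO : StOn) (hMain : StMainS) (hU : StMeanU) (hMean : StMean) (a b c : ℤ)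
    (ha : 0 < a) (hD : b ^ 2 - 4 * a * c < 0) (h t₀ : ℕ) (hh : 0 < h) (α β : ℝ) (hα : 0 < α)
    (hαβ : α < β) (hTw : ∀ (z1 z2 : ℂ) (k : ℕ), 0 < k → z1 ^ k = 1 → z2 ^ k = 1 →
      (z1 ≠ 1 ∨ z2 ≠ 1) → ∀ M : LMean,
      M.E (fun N : ℕ => ‖TwN a b c α β h t₀ z1 z2 N‖ / N) = 0) :
    ∃ κ : ℝ, 0 < κ ∧
      Tendsto (fun N : ℕ => (pairCount a b c h t₀ α β (fun _ _ => True) N : ℝ) / N) atTop
        (𝓝 κ) ∧
      ∀ k : ℕ, 0 < k →
        (∀ r s : ℕ,
          (∀ ε : ℝ, 0 < ε → LogNull {N | ε < |(pairCount a b c h t₀ α β (fun t d =>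
            ArithmeticFunction.cardFactors d ≡ r [MOD k] ∧
            ArithmeticFunction.cardFactors ((a * (t : ℤ) ^ 2 + b * t + c).natAbs / d) ≡ s
              [MOD k]) N : ℝ) / N - κ / k ^ 2|}) ∧
          (∃ η : ℝ, 0 < η ∧ ∀ᶠ N : ℕ in atTop, η * N ≤ pairCount a b c h t₀ α β (fun t d =>
            ArithmeticFunction.cardFactors d ≡ r [MOD k] ∧
            ArithmeticFunction.cardFactors ((a * (t : ℤ) ^ 2 + b * t + c).natAbs / d) ≡ s
              [MOD k]) N) ∧
          Tendsto (fun X : ℕ => pairSum a b c h t₀ α β (fun t d =>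
            ArithmeticFunction.cardFactors d ≡ r [MOD k] ∧
            ArithmeticFunction.cardFactors ((a * (t : ℤ) ^ 2 + b * t + c).natAbs / d) ≡ s
              [MOD k]) X / Real.log X) atTop (𝓝 (κ / k ^ 2))) ∧
        (∀ r : ℕ,
          (∀ ε : ℝ, 0 < ε → LogNull {N | ε < |(pairCount a b c h t₀ α β (fun t _ =>
            ArithmeticFunction.cardFactors (a * (t : ℤ) ^ 2 + b * t + c).natAbs ≡ r [MOD k])
              N : ℝ) / N - κ / k|}) ∧
          (∃ η : ℝ, 0 < η ∧ ∀ᶠ N : ℕ in atTop, η * N ≤ pairCount a b c h t₀ α β (fun t _ =>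
            ArithmeticFunction.cardFactors (a * (t : ℤ) ^ 2 + b * t + c).natAbs ≡ r [MOD k])
              N) ∧
          Tendsto (fun X : ℕ => pairSum a b c h t₀ α β (fun t _ =>
            ArithmeticFunction.cardFactors (a * (t : ℤ) ^ 2 + b * t + c).natAbs ≡ r [MOD k])
              X / Real.log X) atTop (𝓝 (κ / k))) := by
  obtain ⟨κ, hκ, hlim, h1, h2⟩ := finJ hO hMain ha hD hh t₀ hα hαβ hTw
  have e0 : ∀ N : ℕ, pairCount a b c h t₀ α β (fun _ _ => True) N =
      CST a b c α β h t₀ 1 0 0 N := by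
    intro N
    unfold pairCount CST
    apply Finset.sum_congr rfl
    intro t _
    rw [EndF64.ncard_eq ha hD α β t (fun _ => True)]
    congr 1
    apply Finset.filter_congr
    intro d _
    exact ⟨fun _ => ⟨Nat.modEq_one, Nat.modEq_one⟩, fun _ => trivial⟩
  refine ⟨κ, hκ, by simpa only [e0] using hlim, fun k hk => ⟨fun r s => ?_, fun r => ?_⟩⟩
  · have hk' : (0 : ℝ) < k := by exact_mod_cast hk
    exact final hU hMean a b c h t₀ α β _ (CST a b c α β h t₀ k r s) (fun N => by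
      unfold pairCount CST
      apply Finset.sum_congr rfl
      intro t _
      exact EndF64.ncard_eq ha hD α β t (fun d => ArithmeticFunction.cardFactors d ≡ r [MOD k] ∧
        ArithmeticFunction.cardFactors ((a * (t : ℤ) ^ 2 + b * t + c).natAbs / d) ≡ s [MOD k]))
      (by positivity) (h1 k hk r s).1 (h1 k hk r s).2
  · have hk' : (0 : ℝ) < k := by exact_mod_cast hk
    exact final hU hMean a b c h t₀ α β _ (CS a b c α β h t₀ k r) (fun N => by
      unfold pairCount CS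
      apply Finset.sum_congr rfl
      intro t _
      exact EndF64.ncard_eq ha hD α β t (fun _ =>
        ArithmeticFunction.cardFactors (a * (t : ℤ) ^ 2 + b * t + c).natAbs ≡ r [MOD k]))
      (by positivity) (h2 k hk r).1 (h2 k hk r).2

end Pool.Agent.Lib.MP_a17b09_nt.CH
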