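import Mathlib

/-!
Project MRS, section (3c), abstract form: all but few frequencies (helper70).
-/

set_option autoImplicit false

open Finset

namespace Pool.Agent.Lib.MP_a17b09_nt.MRS

namespace Exc70

/-- Cauchy-Schwarz with weights -/
theorem cs {ι : Type*} (T : Finset ι) (w r : ι → ℝ) (hw : ∀ u ∈ T, 0 ≤ w u) :
    (∑ u ∈ T, w u * r u) ^ 2 ≤ (∑ u ∈ T, w u) * ∑ u ∈ T, w u * r u ^ 2 := by
  have h := Finset.sum_mul_sq_le_sq_mul_sq T (fun u => √(w u)) (fun u => √(w u) * r u)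
  have e1 : ∑ u ∈ T, √(w u) * (√(w u) * r u) = ∑ u ∈ T, w u * r u :=
    Finset.sum_congr rfl fun u hu => by rw [← mul_assoc, Real.mul_self_sqrt (hw u hu)]
  have e2 : ∑ u ∈ T, √(w u) ^ 2 = ∑ u ∈ T, w u :=
    Finset.sum_congr rfl fun u hu => Real.sq_sqrt (hw u hu)
  have e3 : ∑ u ∈ T, (√(w u) * r u) ^ 2 = ∑ u ∈ T, w u * r u ^ 2 :=
    Finset.sum_congr rfl fun u hu => by rw [mul_pow, Real.sq_sqrt (hw u hu)]
  rw [e1, e2, e3] at h
  exact h

/-- one frequency, the windows of `T`: `‖Q u‖ ≤ a w u` -/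
theorem one {ι : Type*} (T : Finset ι) (w : ι → ℝ) (hw : ∀ u ∈ T, 0 ≤ w u) (q r : ι → ℂ) {a : ℝ}
    (hq : ∀ u ∈ T, ‖q u‖ ≤ a * w u) :
    ‖∑ u ∈ T, q u * r u‖ ^ 2 ≤ a ^ 2 * (∑ u ∈ T, w u) * ∑ u ∈ T, w u * ‖r u‖ ^ 2 := by
  have h1 : ‖∑ u ∈ T, q u * r u‖ ≤ a * ∑ u ∈ T, w u * ‖r u‖ := by
    refine (norm_sum_le _ _).trans ?_
    rw [Finset.mul_sum]
    refine Finset.sum_le_sum fun u hu => ?_
    rw [norm_mul, ← mul_assoc]
    exact mul_le_mul_of_nonneg_right (hq u hu) (norm_nonneg _)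
  have h2 := cs T w (fun u => ‖r u‖) hw
  calc ‖∑ u ∈ T, q u * r u‖ ^ 2 ≤ (a * ∑ u ∈ T, w u * ‖r u‖) ^ 2 :=
        pow_le_pow_left₀ (norm_nonneg _) h1 2
    _ = a ^ 2 * (∑ u ∈ T, w u * ‖r u‖) ^ 2 := by ring
    _ ≤ a ^ 2 * ((∑ u ∈ T, w u) * ∑ u ∈ T, w u * ‖r u‖ ^ 2) :=
        mul_le_mul_of_nonneg_left h2 (by positivity)
    _ = _ := by ring

end Exc70

open Exc70 in
open Classical in
/-- (3c): windows `u ∈ W` with weights `w u` (`= 1 / u`), frequencies `j ∈ U`. All but `D S / η ^ 3`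
frequencies contribute little. -/
theorem exc_70 {ι J : Type*} (W : Finset ι) (U : Finset J) (w : ι → ℝ) (hw : ∀ u ∈ W, 0 < w u)
    (Q R : ι → J → ℂ) {A B D S η : ℝ} (hB : 0 ≤ B) (hη : 0 < η)
    (hQ : ∀ u ∈ W, ∀ j ∈ U, ‖Q u j‖ ≤ A * w u)
    (hR : ∀ u ∈ W, ∑ j ∈ U, ‖R u j‖ ^ 2 ≤ B)
    (hD : ∀ u ∈ W, ∑ j ∈ U, ‖Q u j‖ ^ 2 ≤ D * w u ^ 2)
    (hD0 : 0 ≤ D) (hS : ∑ u ∈ W, w u ≤ S) :
    ∃ U' ⊆ U, (U'.card : ℝ) * η ^ 3 ≤ D * S ∧
      ∑ j ∈ U \ U', ‖∑ u ∈ W, Q u j * R u j‖ ^ 2 ≤ 2 * (η ^ 2 * S ^ 2 * B + η * A ^ 2 * S * B) := by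
  have hw0 : ∀ u ∈ W, 0 ≤ w u := fun u hu => (hw u hu).le
  have hS0 : 0 ≤ S := (Finset.sum_nonneg hw0).trans hS
  set Bj : J → Finset ι := fun j => W.filter (fun u => η * w u ≤ ‖Q u j‖) with hBj
  refine ⟨U.filter (fun j => η < ∑ u ∈ Bj j, w u), Finset.filter_subset _ _, ?_, ?_⟩
  · -- the number of exceptional frequencies
    have h1 : ((U.filter (fun j => η < ∑ u ∈ Bj j, w u)).card : ℝ) * η ≤
        ∑ j ∈ U, ∑ u ∈ Bj j, w u := by
      calc ((U.filter (fun j => η < ∑ u ∈ Bj j, w u)).card : ℝ) * η =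
            ∑ j ∈ U.filter (fun j => η < ∑ u ∈ Bj j, w u), η := by
            rw [Finset.sum_const, nsmul_eq_mul]
        _ ≤ ∑ j ∈ U.filter (fun j => η < ∑ u ∈ Bj j, w u), ∑ u ∈ Bj j, w u :=
            Finset.sum_le_sum fun j hj => (Finset.mem_filter.1 hj).2.le
        _ ≤ ∑ j ∈ U, ∑ u ∈ Bj j, w u := by
            refine Finset.sum_le_sum_of_subset_of_nonneg (Finset.filter_subset _ _) fun j _ _ => ?_
            exact Finset.sum_nonneg fun u hu => hw0 u (Finset.mem_filter.1 hu).1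
    have h2 : ∀ u ∈ W, ∀ j ∈ U, (if η * w u ≤ ‖Q u j‖ then w u else 0) * η ^ 2 ≤
        ‖Q u j‖ ^ 2 / w u := by
      intro u hu j _
      have hwu := hw u hu
      split_ifs with h
      · rw [le_div_iff₀ hwu]
        calc w u * η ^ 2 * w u = (η * w u) ^ 2 := by ring
          _ ≤ ‖Q u j‖ ^ 2 := pow_le_pow_left₀ (by positivity) h 2
      · rw [zero_mul]
        positivity
    have h3 : (∑ j ∈ U, ∑ u ∈ Bj j, w u) * η ^ 2 ≤ D * S := by
      calc (∑ j ∈ U, ∑ u ∈ Bj j, w u) * η ^ 2 =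
            ∑ u ∈ W, ∑ j ∈ U, (if η * w u ≤ ‖Q u j‖ then w u else 0) * η ^ 2 := by
            rw [Finset.sum_comm, Finset.sum_mul]
            refine Finset.sum_congr rfl fun j _ => ?_
            rw [hBj, Finset.sum_filter, Finset.sum_mul]
        _ ≤ ∑ u ∈ W, ∑ j ∈ U, ‖Q u j‖ ^ 2 / w u :=
            Finset.sum_le_sum fun u hu => Finset.sum_le_sum fun j hj => h2 u hu j hj
        _ ≤ ∑ u ∈ W, D * w u := by
            refine Finset.sum_le_sum fun u hu => ?_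
            have hwu := hw u hu
            rw [← Finset.sum_div, div_le_iff₀ hwu]
            calc ∑ j ∈ U, ‖Q u j‖ ^ 2 ≤ D * w u ^ 2 := hD u hu
              _ = D * w u * w u := by ring
        _ = D * ∑ u ∈ W, w u := by rw [Finset.mul_sum]
        _ ≤ D * S := mul_le_mul_of_nonneg_left hS hD0
    calc _ = (((U.filter (fun j => η < ∑ u ∈ Bj j, w u)).card : ℝ) * η) * η ^ 2 := by ring
      _ ≤ (∑ j ∈ U, ∑ u ∈ Bj j, w u) * η ^ 2 := mul_le_mul_of_nonneg_right h1 (by positivity)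
      _ ≤ D * S := h3
  · -- the other frequencies
    set E : J → ℝ := fun j => ∑ u ∈ W, w u * ‖R u j‖ ^ 2 with hE
    have hE0 : ∀ j, 0 ≤ E j := fun j =>
      Finset.sum_nonneg fun u hu => mul_nonneg (hw0 u hu) (by positivity)
    have hEs : ∑ j ∈ U, E j ≤ S * B := by
      calc ∑ j ∈ U, E j = ∑ u ∈ W, w u * ∑ j ∈ U, ‖R u j‖ ^ 2 := by
            rw [hE, Finset.sum_comm]
            refine Finset.sum_congr rfl fun u _ => ?_
            rw [Finset.mul_sum]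
        _ ≤ ∑ u ∈ W, w u * B :=
            Finset.sum_le_sum fun u hu => mul_le_mul_of_nonneg_left (hR u hu) (hw0 u hu)
        _ = (∑ u ∈ W, w u) * B := by rw [Finset.sum_mul]
        _ ≤ S * B := mul_le_mul_of_nonneg_right hS hB
    have h1 : ∀ j ∈ U \ U.filter (fun j => η < ∑ u ∈ Bj j, w u),
        ‖∑ u ∈ W, Q u j * R u j‖ ^ 2 ≤ 2 * ((η ^ 2 * S + η * A ^ 2) * E j) := by
      intro j hj
      rw [Finset.mem_sdiff, Finset.mem_filter] at hj
      have hjU := hj.1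
      have hjB : ∑ u ∈ Bj j, w u ≤ η := by
        by_contra h
        exact hj.2 ⟨hjU, lt_of_not_ge h⟩
      set Gj : Finset ι := W.filter (fun u => ¬ η * w u ≤ ‖Q u j‖) with hGj
      have e1 : ∑ u ∈ W, Q u j * R u j = ∑ u ∈ Bj j, Q u j * R u j + ∑ u ∈ Gj, Q u j * R u j := by
        rw [hBj, hGj, Finset.sum_filter_add_sum_filter_not]
      have e2 : ‖∑ u ∈ Bj j, Q u j * R u j‖ ^ 2 ≤ A ^ 2 * η * E j := by
        have c1 := one (Bj j) w (fun u hu => hw0 u (Finset.mem_filter.1 hu).1)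
          (fun u => Q u j) (fun u => R u j) (fun u hu => hQ u (Finset.mem_filter.1 hu).1 j hjU)
        have c2 : ∑ u ∈ Bj j, w u * ‖R u j‖ ^ 2 ≤ E j :=
          Finset.sum_le_sum_of_subset_of_nonneg (Finset.filter_subset _ _)
            fun u hu _ => mul_nonneg (hw0 u hu) (by positivity)
        have c3 : 0 ≤ ∑ u ∈ Bj j, w u * ‖R u j‖ ^ 2 := Finset.sum_nonneg fun u hu =>
          mul_nonneg (hw0 u (Finset.mem_filter.1 hu).1) (by positivity)
        refine c1.trans ?_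
        exact mul_le_mul (mul_le_mul_of_nonneg_left hjB (by positivity)) c2 c3 (by positivity)
      have e3 : ‖∑ u ∈ Gj, Q u j * R u j‖ ^ 2 ≤ η ^ 2 * S * E j := by
        have c1 := one Gj w (fun u hu => hw0 u (Finset.mem_filter.1 hu).1)
          (fun u => Q u j) (fun u => R u j) (fun u hu => by
            have := (Finset.mem_filter.1 hu).2
            exact (lt_of_not_ge this).le)
        have c2 : ∑ u ∈ Gj, w u * ‖R u j‖ ^ 2 ≤ E j :=
          Finset.sum_le_sum_of_subset_of_nonneg (Finset.filter_subset _ _)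
            fun u hu _ => mul_nonneg (hw0 u hu) (by positivity)
        have c3 : 0 ≤ ∑ u ∈ Gj, w u * ‖R u j‖ ^ 2 := Finset.sum_nonneg fun u hu =>
          mul_nonneg (hw0 u (Finset.mem_filter.1 hu).1) (by positivity)
        have c4 : ∑ u ∈ Gj, w u ≤ S := (Finset.sum_le_sum_of_subset_of_nonneg
          (Finset.filter_subset _ _) fun u hu _ => hw0 u hu).trans hS
        refine c1.trans ?_
        exact mul_le_mul (mul_le_mul_of_nonneg_left c4 (by positivity)) c2 c3 (by positivity)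
      have e4 : ‖∑ u ∈ W, Q u j * R u j‖ ^ 2 ≤ 2 * (‖∑ u ∈ Bj j, Q u j * R u j‖ ^ 2 +
          ‖∑ u ∈ Gj, Q u j * R u j‖ ^ 2) := by
        rw [e1]
        have c1 := norm_add_le (∑ u ∈ Bj j, Q u j * R u j) (∑ u ∈ Gj, Q u j * R u j)
        have c2 := pow_le_pow_left₀ (norm_nonneg _) c1 2
        nlinarith [sq_nonneg (‖∑ u ∈ Bj j, Q u j * R u j‖ - ‖∑ u ∈ Gj, Q u j * R u j‖)]
      refine e4.trans ?_
      have := add_le_add e2 e3
      linarith
    calc ∑ j ∈ U \ U.filter (fun j => η < ∑ u ∈ Bj j, w u), ‖∑ u ∈ W, Q u j * R u j‖ ^ 2 ≤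
          ∑ j ∈ U \ U.filter (fun j => η < ∑ u ∈ Bj j, w u),
            2 * ((η ^ 2 * S + η * A ^ 2) * E j) := Finset.sum_le_sum h1
      _ ≤ ∑ j ∈ U, 2 * ((η ^ 2 * S + η * A ^ 2) * E j) :=
          Finset.sum_le_sum_of_subset_of_nonneg Finset.sdiff_subset fun j _ _ => by
            have := hE0 j
            positivity
      _ = 2 * ((η ^ 2 * S + η * A ^ 2) * ∑ j ∈ U, E j) := by
          rw [← Finset.mul_sum, ← Finset.mul_sum]
      _ ≤ 2 * ((η ^ 2 * S + η * A ^ 2) * (S * B)) := by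
          have := mul_le_mul_of_nonneg_left hEs (show 0 ≤ η ^ 2 * S + η * A ^ 2 by positivity)
          linarith
      _ = _ := by ring

end Pool.Agent.Lib.MP_a17b09_nt.MRS
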