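import Mathlib
import Pool.Agent.Lib.MP_a17b09_nt.CH.DsC86

/-!
MP_a17b09_nt (MRS), section (3b), part A: the sieve product for the norm form, from the Euler
product of the zeta function of the Gaussian integers. helper12.
-/

set_option autoImplicit false

namespace Pool.Agent.MRS.NuA12

open Finset Filter Topology
open scoped Classical
open Pool.Agent.Lib.TwinAll (PP)

/-- alternating sums -/
theorem alt_sum (a : ℕ → ℝ) (h0 : ∀ n, 0 ≤ a n) (ha : ∀ m n, 1 ≤ m → m ≤ n → a n ≤ a m)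
    (N : ℕ) (hN : 1 ≤ N) :
    a 1 - a 3 ≤ ∑ d ∈ range (N + 1), ((ZMod.χ₄ (d : ZMod 4) : ℤ) : ℝ) * a d := by
  have h1 : ∀ k : ℕ, ((ZMod.χ₄ ((4 * k + 1 : ℕ) : ZMod 4) : ℤ) : ℝ) = 1 := by
    intro k
    have : ((4 * k + 1 : ℕ) : ZMod 4) = 1 := by
      push_cast
      rw [show (4 : ZMod 4) = 0 from rfl]
      ring
    rw [this, show (ZMod.χ₄ (1 : ZMod 4) : ℤ) = 1 from rfl, Int.cast_one]
  have h2 : ∀ k : ℕ, ((ZMod.χ₄ ((4 * k + 2 : ℕ) : ZMod 4) : ℤ) : ℝ) = 0 := by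
    intro k
    have : ((4 * k + 2 : ℕ) : ZMod 4) = 2 := by
      push_cast
      rw [show (4 : ZMod 4) = 0 from rfl]
      ring
    rw [this, show (ZMod.χ₄ (2 : ZMod 4) : ℤ) = 0 from rfl, Int.cast_zero]
  have h3 : ∀ k : ℕ, ((ZMod.χ₄ ((4 * k + 3 : ℕ) : ZMod 4) : ℤ) : ℝ) = -1 := by
    intro k
    have : ((4 * k + 3 : ℕ) : ZMod 4) = 3 := by
      push_cast
      rw [show (4 : ZMod 4) = 0 from rfl]
      ring
    rw [this, show (ZMod.χ₄ (3 : ZMod 4) : ℤ) = -1 from rfl, Int.cast_neg, Int.cast_one]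
  have h4 : ∀ k : ℕ, ((ZMod.χ₄ ((4 * k : ℕ) : ZMod 4) : ℤ) : ℝ) = 0 := by
    intro k
    have : ((4 * k : ℕ) : ZMod 4) = 0 := by
      push_cast
      rw [show (4 : ZMod 4) = 0 from rfl]
      ring
    rw [this, show (ZMod.χ₄ (0 : ZMod 4) : ℤ) = 0 from rfl, Int.cast_zero]
  have key : ∀ k : ℕ, a 1 - a 3 ≤
      ∑ d ∈ range (4 * k + 4), ((ZMod.χ₄ (d : ZMod 4) : ℤ) : ℝ) * a d := by
    intro k
    induction k with
    | zero =>
      rw [sum_range_succ, sum_range_succ, sum_range_succ, sum_range_succ, sum_range_zero]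
      have e0 := h4 0
      have e1 := h1 0
      have e2 := h2 0
      have e3 := h3 0
      simp only [mul_zero, zero_add] at e0 e1 e2 e3
      rw [e0, e1, e2, e3]
      linarith
    | succ k ih =>
      rw [show 4 * (k + 1) + 4 = 4 * k + 4 + 1 + 1 + 1 + 1 by ring, sum_range_succ,
        sum_range_succ, sum_range_succ, sum_range_succ]
      have e0 := h4 (k + 1)
      have e1 := h1 (k + 1)
      have e2 := h2 (k + 1)
      have e3 := h3 (k + 1)
      rw [show 4 * (k + 1) = 4 * k + 4 by ring] at e0 e1 e2 e3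
      rw [e0, e1, e2, e3]
      have := ha (4 * k + 4 + 1) (4 * k + 4 + 1 + 1 + 1) (by omega) (by omega)
      linarith
  rcases lt_or_ge N 3 with hlt | hge
  · have h13 := h0 3
    interval_cases N
    · rw [sum_range_succ, sum_range_succ, sum_range_zero]
      have e0 := h4 0
      have e1 := h1 0
      simp only [mul_zero, zero_add] at e0 e1
      rw [e0, e1]
      linarith
    · rw [sum_range_succ, sum_range_succ, sum_range_succ, sum_range_zero]
      have e0 := h4 0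
      have e1 := h1 0
      have e2 := h2 0
      simp only [mul_zero, zero_add] at e0 e1 e2
      rw [e0, e1, e2]
      linarith
  · obtain ⟨k, r, hr, hk⟩ : ∃ k r : ℕ, r < 4 ∧ N + 1 = 4 * k + 4 + r :=
      ⟨(N + 1 - 4) / 4, (N + 1 - 4) % 4, Nat.mod_lt _ (by norm_num), by omega⟩
    have hk0 := key k
    have e0 := h4 (k + 1)
    have e1 := h1 (k + 1)
    have e2 := h2 (k + 1)
    rw [show 4 * (k + 1) = 4 * k + 4 by ring] at e0 e1 e2
    rw [hk]
    interval_cases r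
    · exact hk0
    · rw [sum_range_succ, e0]
      linarith
    · rw [sum_range_succ, sum_range_succ, e0, e1]
      have := h0 (4 * k + 4 + 1)
      linarith
    · rw [sum_range_succ, sum_range_succ, sum_range_succ, e0, e1, e2]
      have := h0 (4 * k + 4 + 1)
      linarith

/-- harmonic numbers -/
noncomputable def HH (n : ℕ) : ℝ := ∑ m ∈ Icc 1 n, (1 : ℝ) / m

theorem HH_mono {m n : ℕ} (h : m ≤ n) : HH m ≤ HH n := by
  unfold HH
  exact sum_le_sum_of_subset_of_nonneg (Icc_subset_Icc_right h) (fun i _ _ => by positivity)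

theorem HH_nonneg (n : ℕ) : 0 ≤ HH n := sum_nonneg (fun i _ => by positivity)

theorem log_le_HH (z : ℕ) (hz : 1 ≤ z) : Real.log z ≤ HH z := by
  have h3 := log_add_one_le_harmonic z
  rw [harmonic_eq_sum_Icc] at h3
  push_cast at h3
  have h4 : HH z = ∑ m ∈ Icc 1 z, ((m : ℝ))⁻¹ := by
    unfold HH
    exact sum_congr rfl (fun m _ => one_div _)
  rw [h4]
  refine le_trans ?_ h3
  apply Real.log_le_log
  · exact_mod_cast hz
  · linarith

/-- the sum of the coefficients of the zeta function -/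
noncomputable def gg (n : ℕ) : ℤ := ∑ d ∈ n.divisors, ZMod.χ₄ (d : ZMod 4)

theorem sum_gg (z : ℕ) (hz : 1 ≤ z) :
    2 / 3 * Real.log z ≤ ∑ n ∈ Icc 1 z, (gg n : ℝ) / n := by
  have h1 : ∑ n ∈ Icc 1 z, (gg n : ℝ) / n =
      ∑ d ∈ Icc 1 z, ((ZMod.χ₄ (d : ZMod 4) : ℤ) : ℝ) * (HH (z / d) / d) := by
    have e1 : ∀ n ∈ Icc 1 z, (gg n : ℝ) / n =
        ∑ d ∈ n.divisors, ((ZMod.χ₄ (d : ZMod 4) : ℤ) : ℝ) / n := by
      intro n _
      unfold gg
      push_cast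
      rw [sum_div]
    have e2 : ∀ d ∈ Icc 1 z, ((ZMod.χ₄ (d : ZMod 4) : ℤ) : ℝ) * (HH (z / d) / d) =
        ∑ m ∈ Icc 1 (z / d), ((ZMod.χ₄ (d : ZMod 4) : ℤ) : ℝ) / ((d * m : ℕ) : ℝ) := by
      intro d hd
      rw [mem_Icc] at hd
      have hd0 : (d : ℝ) ≠ 0 := by
        have : d ≠ 0 := by omega
        exact_mod_cast this
      unfold HH
      rw [sum_div, mul_sum]
      refine sum_congr rfl (fun m hm => ?_)
      rw [mem_Icc] at hm
      have hm0 : (m : ℝ) ≠ 0 := by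
        have : m ≠ 0 := by omega
        exact_mod_cast this
      push_cast
      field_simp
    rw [sum_congr rfl e1, sum_congr rfl e2, sum_sigma', sum_sigma']
    refine sum_nbij' (fun x => ⟨x.2, x.1 / x.2⟩) (fun y => ⟨y.1 * y.2, y.1⟩) ?_ ?_ ?_ ?_ ?_
    · rintro ⟨n, d⟩ h
      rw [mem_sigma, mem_Icc, Nat.mem_divisors] at h
      obtain ⟨⟨h1, h2⟩, hdn, h3⟩ := h
      simp only at h1 h2 hdn h3
      obtain ⟨k, rfl⟩ := hdn
      have hd0 : 0 < d := Nat.pos_of_ne_zero (fun h => h3 (by rw [h, zero_mul]))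
      have hk0 : 0 < k := Nat.pos_of_ne_zero (fun h => h3 (by rw [h, mul_zero]))
      simp only [mem_sigma, mem_Icc]
      rw [Nat.mul_div_cancel_left _ hd0]
      refine ⟨⟨hd0, ?_⟩, hk0, ?_⟩
      · exact (Nat.le_mul_of_pos_right d hk0).trans h2
      · rw [Nat.le_div_iff_mul_le hd0, mul_comm]
        exact h2
    · rintro ⟨d, m⟩ h
      rw [mem_sigma, mem_Icc, mem_Icc] at h
      obtain ⟨⟨h1, h2⟩, h3, h4⟩ := h
      simp only at h1 h2 h3 h4
      have hd0 : 0 < d := h1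
      rw [Nat.le_div_iff_mul_le hd0, mul_comm] at h4
      simp only [mem_sigma, mem_Icc, Nat.mem_divisors]
      exact ⟨⟨Nat.mul_pos hd0 h3, h4⟩, Dvd.intro _ rfl, (Nat.mul_pos hd0 h3).ne'⟩
    · rintro ⟨n, d⟩ h
      rw [mem_sigma, mem_Icc, Nat.mem_divisors] at h
      obtain ⟨⟨h1, h2⟩, hdn, h3⟩ := h
      simp only at hdn ⊢
      rw [Nat.mul_div_cancel' hdn]
    · rintro ⟨d, m⟩ h
      rw [mem_sigma, mem_Icc, mem_Icc] at h
      obtain ⟨⟨h1, h2⟩, h3, h4⟩ := h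
      simp only at h1 ⊢
      rw [Nat.mul_div_cancel_left _ (show 0 < d from h1)]
    · rintro ⟨n, d⟩ h
      rw [mem_sigma, mem_Icc, Nat.mem_divisors] at h
      obtain ⟨⟨h1, h2⟩, hdn, h3⟩ := h
      simp only at hdn ⊢
      rw [Nat.mul_div_cancel' hdn]
  rw [h1]
  have h2 : ∑ d ∈ Icc 1 z, ((ZMod.χ₄ (d : ZMod 4) : ℤ) : ℝ) * (HH (z / d) / d) =
      ∑ d ∈ range (z + 1), ((ZMod.χ₄ (d : ZMod 4) : ℤ) : ℝ) * (HH (z / d) / d) := by
    have e : range (z + 1) = insert 0 (Icc 1 z) := by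
      ext n
      rw [mem_range, mem_insert, mem_Icc]
      omega
    rw [e, sum_insert (by rw [mem_Icc]; omega)]
    rw [Nat.cast_zero, Nat.cast_zero]
    rw [show (ZMod.χ₄ (0 : ZMod 4) : ℤ) = 0 from rfl]
    push_cast
    ring
  rw [h2]
  have h3 := alt_sum (fun d => HH (z / d) / d) (fun n => div_nonneg (HH_nonneg _)
    (Nat.cast_nonneg _)) (by
      intro m n hm hmn
      have hm0 : (0 : ℝ) < m := by exact_mod_cast hm
      have hn0 : (0 : ℝ) < n := by exact_mod_cast (show 0 < n by omega)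
      apply div_le_div₀ (HH_nonneg _) (HH_mono (Nat.div_le_div_left hmn hm)) hm0
      exact_mod_cast hmn) z hz
  refine le_trans ?_ h3
  have h4 : HH (z / 3) ≤ HH (z / 1) := HH_mono (Nat.div_le_div_left (by norm_num) (by norm_num))
  have h5 := log_le_HH z hz
  rw [Nat.div_one] at h4
  simp only [Nat.div_one, Nat.cast_one, div_one, Nat.cast_ofNat]
  linarith

/-- the character as an arithmetic function -/
noncomputable def chiA : ArithmeticFunction ℤ :=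
  ⟨fun n => ZMod.χ₄ (n : ZMod 4), by rw [Nat.cast_zero]; rfl⟩

theorem chiA_mult : chiA.IsMultiplicative := by
  refine ⟨?_, ?_⟩
  · change ZMod.χ₄ ((1 : ℕ) : ZMod 4) = 1
    rw [Nat.cast_one]
    rfl
  · intro m n _
    change ZMod.χ₄ ((m * n : ℕ) : ZMod 4) = ZMod.χ₄ (m : ZMod 4) * ZMod.χ₄ (n : ZMod 4)
    rw [Nat.cast_mul, map_mul]

theorem gg_eq (n : ℕ) : gg n = (((ArithmeticFunction.zeta : ArithmeticFunction ℕ) :
    ArithmeticFunction ℤ) * chiA) n := by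
  rw [ArithmeticFunction.coe_zeta_mul_apply]
  rfl

theorem gg_mul (m n : ℕ) (h : Nat.Coprime m n) : gg (m * n) = gg m * gg n := by
  rw [gg_eq, gg_eq, gg_eq]
  exact (ArithmeticFunction.isMultiplicative_zeta.natCast.mul chiA_mult).map_mul_of_coprime h

theorem gg_one : gg 1 = 1 := by
  unfold gg
  rw [Nat.divisors_one, sum_singleton, Nat.cast_one]
  rfl

theorem gg_pow (p k : ℕ) (hp : p.Prime) :
    gg (p ^ k) = ∑ i ∈ range (k + 1), (ZMod.χ₄ (p : ZMod 4)) ^ i := by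
  unfold gg
  rw [Nat.sum_divisors_prime_pow hp]
  refine sum_congr rfl (fun i _ => ?_)
  rw [Nat.cast_pow, map_pow]

theorem cast_mod (p r : ℕ) (h : p % 4 = r) : (p : ZMod 4) = (r : ZMod 4) := by
  rw [← h]
  exact (ZMod.natCast_mod p 4).symm

theorem gg_one4 (p k : ℕ) (hp : p.Prime) (h : p % 4 = 1) : gg (p ^ k) = k + 1 := by
  rw [gg_pow p k hp, cast_mod p 1 h, Nat.cast_one,
    show (ZMod.χ₄ (1 : ZMod 4) : ℤ) = 1 from rfl]
  simp

theorem gg_three4 (p k : ℕ) (hp : p.Prime) (h : p % 4 = 3) :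
    2 * gg (p ^ k) = 1 + (-1) ^ k := by
  rw [gg_pow p k hp, cast_mod p 3 h]
  have : (ZMod.χ₄ ((3 : ℕ) : ZMod 4) : ℤ) = -1 := rfl
  rw [this]
  induction k with
  | zero => simp
  | succ k ih =>
    rw [sum_range_succ, mul_add, ih, pow_succ]
    ring

theorem gg_two (k : ℕ) : gg (2 ^ k) = 1 := by
  rw [gg_pow 2 k Nat.prime_two]
  have : (ZMod.χ₄ ((2 : ℕ) : ZMod 4) : ℤ) = 0 := rfl
  rw [this, sum_range_succ', pow_zero]
  rw [sum_eq_zero (fun i _ => by rw [pow_succ, mul_zero])]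
  norm_num

theorem prime_cases (p : ℕ) (hp : p.Prime) : p % 4 = 1 ∨ p = 2 ∨ p % 4 = 3 := by
  rcases hp.eq_two_or_odd with h | h
  · exact Or.inr (Or.inl h)
  · omega

theorem gg_nonneg_pow (p k : ℕ) (hp : p.Prime) : 0 ≤ gg (p ^ k) := by
  rcases prime_cases p hp with h | h | h
  · rw [gg_one4 p k hp h]
    positivity
  · rw [h, gg_two]
    norm_num
  · have := gg_three4 p k hp h
    rcases neg_one_pow_eq_or ℤ k with h1 | h1
    · rw [h1] at this
      omega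
    · rw [h1] at this
      omega

theorem gg_le_pow (p k : ℕ) (hp : p.Prime) : gg (p ^ k) ≤ k + 1 := by
  rcases prime_cases p hp with h | h | h
  · rw [gg_one4 p k hp h]
  · rw [h, gg_two]
    omega
  · have := gg_three4 p k hp h
    rcases neg_one_pow_eq_or ℤ k with h1 | h1
    · rw [h1] at this
      omega
    · rw [h1] at this
      omega

theorem gg_nonneg (n : ℕ) : 0 ≤ gg n := by
  induction n using Nat.recOnPosPrimePosCoprime with
  | prime_pow p n hp _ => exact gg_nonneg_pow p n hp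
  | zero => simp [gg]
  | one => rw [gg_one]; norm_num
  | coprime a b _ _ hab ha hb =>
    rw [gg_mul a b hab]
    exact mul_nonneg ha hb

/-- the coefficients of the Euler product -/
noncomputable def ff (n : ℕ) : ℝ := (gg n : ℝ) / n

theorem ff_nonneg (n : ℕ) : 0 ≤ ff n :=
  div_nonneg (by exact_mod_cast gg_nonneg n) (Nat.cast_nonneg _)

theorem ff_one : ff 1 = 1 := by
  unfold ff
  rw [gg_one]
  norm_num

theorem ff_mul {m n : ℕ} (h : Nat.Coprime m n) : ff (m * n) = ff m * ff n := by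
  unfold ff
  rw [gg_mul m n h]
  push_cast
  rw [mul_div_mul_comm]

theorem inv_lt (p : ℕ) (hp : p.Prime) : ‖(1 / (p : ℝ))‖ < 1 := by
  rw [one_div, norm_inv, Real.norm_natCast]
  apply inv_lt_one_of_one_lt₀
  exact_mod_cast hp.one_lt

theorem ff_pow (p k : ℕ) : ff (p ^ k) = (gg (p ^ k) : ℝ) * (1 / (p : ℝ)) ^ k := by
  unfold ff
  push_cast
  rw [div_pow, one_pow, mul_one_div]

theorem hasSum_lin (r : ℝ) (hr : ‖r‖ < 1) :
    HasSum (fun n : ℕ => ((n : ℝ) + 1) * r ^ n) (((1 - r) ^ 2)⁻¹) := by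
  have h1 := (hasSum_coe_mul_geometric_of_norm_lt_one hr).add (hasSum_geometric_of_norm_lt_one hr)
  have hne : (1 - r) ≠ 0 := by
    have := (abs_lt.1 (by rwa [Real.norm_eq_abs] at hr)).2
    linarith
  have e1 : (fun n : ℕ => ((n : ℝ) + 1) * r ^ n) = fun b : ℕ => (b : ℝ) * r ^ b + r ^ b := by
    funext n
    ring
  have e2 : ((1 - r) ^ 2)⁻¹ = r / (1 - r) ^ 2 + (1 - r)⁻¹ := by
    field_simp
    ring
  rw [e1, e2]
  exact h1

theorem ff_summable {p : ℕ} (hp : p.Prime) : Summable (fun n : ℕ => ‖ff (p ^ n)‖) := by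
  refine Summable.of_nonneg_of_le (fun n => norm_nonneg _) (fun n => ?_)
    (hasSum_lin _ (inv_lt p hp)).summable
  rw [Real.norm_of_nonneg (ff_nonneg _), ff_pow]
  apply mul_le_mul_of_nonneg_right _ (by positivity)
  exact_mod_cast gg_le_pow p n hp

/-- the main local factors -/
noncomputable def vv (p : ℕ) : ℝ := if p % 4 = 1 then (1 - 1 / (p : ℝ)) ^ 2 else 1

theorem one_sub_inv_pos (p : ℕ) (hp : p.Prime) : (0 : ℝ) < 1 - 1 / (p : ℝ) := by
  have h : (2 : ℝ) ≤ p := by exact_mod_cast hp.two_le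
  have h2 : 1 / (p : ℝ) ≤ 1 / 2 := one_div_le_one_div_of_le (by norm_num) h
  linarith

theorem vv_pos (p : ℕ) (hp : p.Prime) : 0 < vv p := by
  unfold vv
  have := one_sub_inv_pos p hp
  split_ifs
  · positivity
  · norm_num

theorem vv_le (p : ℕ) (hp : p.Prime) : vv p ≤ 1 := by
  unfold vv
  have := one_sub_inv_pos p hp
  split_ifs
  · have h2 : (0 : ℝ) ≤ 1 / (p : ℝ) := by positivity
    exact pow_le_one₀ this.le (by linarith)
  · exact le_rfl

theorem one_sub_sq_pos (n : ℕ) (hn : 2 ≤ n) : (0 : ℝ) < 1 - 1 / (n : ℝ) ^ 2 := by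
  have h : (2 : ℝ) ≤ n := by exact_mod_cast hn
  have h3 : (4 : ℝ) ≤ (n : ℝ) ^ 2 := by nlinarith
  have h2 : 1 / (n : ℝ) ^ 2 ≤ 1 / 4 := one_div_le_one_div_of_le (by norm_num) h3
  linarith

theorem tsum_ff_le (p : ℕ) (hp : p.Prime) :
    ∑' n : ℕ, ff (p ^ n) ≤ (vv p)⁻¹ * ((1 - 1 / (p : ℝ) ^ 2)⁻¹) ^ 3 := by
  have hs := one_sub_sq_pos p hp.two_le
  have hs1 : 1 ≤ (1 - 1 / (p : ℝ) ^ 2)⁻¹ := by
    apply one_le_inv_iff₀.2
    refine ⟨hs, ?_⟩
    have : (0 : ℝ) ≤ 1 / (p : ℝ) ^ 2 := by positivity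
    linarith
  have hp0 : (0 : ℝ) < p := by exact_mod_cast hp.pos
  rcases prime_cases p hp with h | h | h
  · have h1 : HasSum (fun n : ℕ => ff (p ^ n)) (((1 - 1 / (p : ℝ)) ^ 2)⁻¹) := by
      have e1 : (fun n : ℕ => ff (p ^ n)) = fun n : ℕ => ((n : ℝ) + 1) * (1 / (p : ℝ)) ^ n := by
        funext n
        rw [ff_pow, gg_one4 p n hp h]
        push_cast
        ring
      rw [e1]
      exact hasSum_lin _ (inv_lt p hp)
    rw [h1.tsum_eq]
    unfold vv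
    rw [if_pos h]
    have h2 : 1 ≤ ((1 - 1 / (p : ℝ) ^ 2)⁻¹) ^ 3 := one_le_pow₀ hs1
    have h3 := one_sub_inv_pos p hp
    have h4 : 0 < (((1 - 1 / (p : ℝ)) ^ 2)⁻¹) := by positivity
    exact le_mul_of_one_le_right h4.le h2
  · subst h
    have h1 : HasSum (fun n : ℕ => ff (2 ^ n)) ((1 - (1 / 2 : ℝ))⁻¹) := by
      have e1 : (fun n : ℕ => ff (2 ^ n)) = fun n : ℕ => (1 / (2 : ℝ)) ^ n := by
        funext n
        rw [ff_pow, gg_two]
        push_cast
        ring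
      rw [e1]
      have := hasSum_geometric_of_norm_lt_one (inv_lt 2 Nat.prime_two)
      push_cast at this
      exact this
    rw [h1.tsum_eq]
    unfold vv
    norm_num
  · have h1 : HasSum (fun n : ℕ => ff (p ^ n)) ((1 - 1 / (p : ℝ) ^ 2)⁻¹) := by
      have hlt := inv_lt p hp
      have e1 := hasSum_geometric_of_norm_lt_one hlt
      have e2 := hasSum_geometric_of_norm_lt_one (show ‖-(1 / (p : ℝ))‖ < 1 by rwa [norm_neg])
      have e3 := (e1.add e2).mul_left (1 / 2)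
      have e4 : (fun n : ℕ => ff (p ^ n)) = fun n : ℕ =>
          1 / 2 * ((1 / (p : ℝ)) ^ n + (-(1 / (p : ℝ))) ^ n) := by
        funext n
        have h5 := gg_three4 p n hp h
        have h6 : (gg (p ^ n) : ℝ) = 1 / 2 * (1 + (-1) ^ n) := by
          have := congrArg (fun x : ℤ => (x : ℝ)) h5
          push_cast at this
          linarith
        rw [ff_pow, h6, neg_pow]
        ring
      have h7 : (1 - 1 / (p : ℝ)) ≠ 0 := (one_sub_inv_pos p hp).ne'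
      have h8 : (1 + 1 / (p : ℝ)) ≠ 0 := by positivity
      have h9 : (1 - 1 / (p : ℝ) ^ 2) = (1 - 1 / (p : ℝ)) * (1 + 1 / (p : ℝ)) := by
        rw [← one_div_pow]
        ring
      have e5 : (1 - 1 / (p : ℝ) ^ 2)⁻¹ =
          1 / 2 * ((1 - 1 / (p : ℝ))⁻¹ + (1 - -(1 / (p : ℝ)))⁻¹) := by
        rw [h9, sub_neg_eq_add, mul_inv]
        generalize (1 / (p : ℝ)) = r at h7 h8
        field_simp
        ring
      rw [e4, e5]
      exact e3
    rw [h1.tsum_eq]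
    unfold vv
    rw [if_neg (by omega), inv_one, one_mul]
    exact le_self_pow₀ hs1 (by norm_num)

theorem prod_sq (z : ℕ) (hz : 1 ≤ z) :
    ∏ n ∈ Ioc 1 z, (1 - 1 / (n : ℝ) ^ 2)⁻¹ ≤ 2 := by
  have h : ∀ z : ℕ, 1 ≤ z →
      ∏ n ∈ Ioc 1 z, (1 - 1 / (n : ℝ) ^ 2)⁻¹ = 2 * (z : ℝ) / ((z : ℝ) + 1) := by
    intro z hz
    induction z, hz using Nat.le_induction with
    | base => norm_num
    | succ m hm ih =>
      have hI : Ioc 1 (m + 1) = insert (m + 1) (Ioc 1 m) := by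
        ext n
        rw [mem_insert, mem_Ioc, mem_Ioc]
        omega
      rw [hI, prod_insert (by rw [mem_Ioc]; omega), ih]
      have hm0 : (0 : ℝ) < m := by exact_mod_cast hm
      have e : (1 - 1 / ((m + 1 : ℕ) : ℝ) ^ 2) = (m * (m + 2)) / (m + 1) ^ 2 := by
        push_cast
        field_simp
        ring
      rw [e]
      push_cast
      field_simp
      ring
  rw [h z hz, div_le_iff₀ (by positivity)]
  linarith

/-- Mertens type upper bound for the norm form -/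
theorem prod_vv_one (z : ℕ) (hz : 2 ≤ z) : ∏ p ∈ PP 1 z, vv p ≤ 12 / Real.log z := by
  obtain ⟨_, hhas⟩ := EulerProduct.summable_and_hasSum_factoredNumbers_prod_filter_prime_tsum
    ff_one ff_mul ff_summable (Finset.Ioc 1 z)
  have h1 : ∑ n ∈ Finset.Icc 1 z, ff n ≤ ∏ p ∈ PP 1 z, ∑' n : ℕ, ff (p ^ n) := by
    have h2 := sum_le_hasSum ((Finset.Icc 1 z).subtype
      (fun n => n ∈ Nat.factoredNumbers (Finset.Ioc 1 z)))
      (fun i _ => ff_nonneg _) hhas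
    refine le_trans (le_of_eq ?_) h2
    have h3 := Finset.sum_subtype_eq_sum_filter (s := Finset.Icc 1 z) (fun n : ℕ => ff n)
      (p := fun n => n ∈ Nat.factoredNumbers (Finset.Ioc 1 z))
    rw [h3, Finset.filter_true_of_mem]
    intro n hn
    rw [Finset.mem_Icc] at hn
    rw [Nat.mem_factoredNumbers_iff_forall_le]
    refine ⟨by omega, ?_⟩
    intro p hpn hp _
    rw [Finset.mem_Ioc]
    exact ⟨hp.one_lt, by omega⟩
  have h2 := sum_gg z (by omega)
  have h3 : ∏ p ∈ PP 1 z, ∑' n : ℕ, ff (p ^ n) ≤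
      ∏ p ∈ PP 1 z, ((vv p)⁻¹ * ((1 - 1 / (p : ℝ) ^ 2)⁻¹) ^ 3) := by
    apply Finset.prod_le_prod
    · intro p _
      exact tsum_nonneg (fun n => ff_nonneg _)
    · intro p hp
      exact tsum_ff_le p (Pool.Agent.Lib.MP_a17b09_nt.CH.DsC86.mem_PP.1 hp).2
  rw [prod_mul_distrib, prod_pow, prod_inv_distrib] at h3
  have h4 : ∏ p ∈ PP 1 z, (1 - 1 / (p : ℝ) ^ 2)⁻¹ ≤ 2 := by
    refine le_trans ?_ (prod_sq z (by omega))
    apply Finset.prod_le_prod_of_subset_of_one_le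
    · intro p hp
      rw [Pool.Agent.Lib.MP_a17b09_nt.CH.DsC86.mem_PP] at hp
      exact mem_Ioc.2 hp.1
    · intro p hp
      exact (inv_pos.2 (one_sub_sq_pos p (Pool.Agent.Lib.MP_a17b09_nt.CH.DsC86.mem_PP.1 hp).2.two_le)).le
    · intro n hn _
      rw [mem_Ioc] at hn
      apply one_le_inv_iff₀.2
      refine ⟨one_sub_sq_pos n (by omega), ?_⟩
      have : (0 : ℝ) ≤ 1 / (n : ℝ) ^ 2 := by positivity
      linarith
  have h5 : 0 ≤ ∏ p ∈ PP 1 z, (1 - 1 / (p : ℝ) ^ 2)⁻¹ := prod_nonneg (fun p hp =>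
    (inv_pos.2 (one_sub_sq_pos p (Pool.Agent.Lib.MP_a17b09_nt.CH.DsC86.mem_PP.1 hp).2.two_le)).le)
  have h6 : (∏ p ∈ PP 1 z, (1 - 1 / (p : ℝ) ^ 2)⁻¹) ^ 3 ≤ 8 := by
    calc (∏ p ∈ PP 1 z, (1 - 1 / (p : ℝ) ^ 2)⁻¹) ^ 3 ≤ 2 ^ 3 := pow_le_pow_left₀ h5 h4 3
      _ = 8 := by norm_num
  have hV : 0 < ∏ p ∈ PP 1 z, vv p := prod_pos (fun p hp => vv_pos p (Pool.Agent.Lib.MP_a17b09_nt.CH.DsC86.mem_PP.1 hp).2)
  have hlog : 0 < Real.log z := Real.log_pos (by exact_mod_cast hz)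
  have h7 : 2 / 3 * Real.log z ≤ (∏ p ∈ PP 1 z, vv p)⁻¹ * 8 := by
    refine h2.trans (h1.trans (h3.trans ?_))
    exact mul_le_mul_of_nonneg_left h6 (inv_pos.2 hV).le
  rw [le_div_iff₀ hlog]
  have h8 := mul_le_mul_of_nonneg_left h7 hV.le
  rw [mul_inv_cancel_left₀ hV.ne'] at h8
  linarith

/-- Mertens type upper bound for the norm form, large primes -/
theorem prod_vv (z0 : ℕ) (h0 : 1 ≤ z0) : ∃ C : ℝ, 0 < C ∧ ∀ z : ℕ, z0 ≤ z → 2 ≤ z →
    ∏ q ∈ PP z0 z, vv q ≤ C / Real.log z := by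
  have hpos : 0 < ∏ q ∈ PP 1 z0, vv q :=
    prod_pos fun q hq => vv_pos q (Pool.Agent.Lib.MP_a17b09_nt.CH.DsC86.mem_PP.1 hq).2
  refine ⟨12 / ∏ q ∈ PP 1 z0, vv q, by positivity, fun z hz hz2 => ?_⟩
  have h1 := prod_vv_one z hz2
  have h2 : PP 1 z = PP 1 z0 ∪ PP z0 z := by
    ext q
    rw [mem_union, Pool.Agent.Lib.MP_a17b09_nt.CH.DsC86.mem_PP, Pool.Agent.Lib.MP_a17b09_nt.CH.DsC86.mem_PP, Pool.Agent.Lib.MP_a17b09_nt.CH.DsC86.mem_PP]
    constructor
    · rintro ⟨⟨h3, h4⟩, h5⟩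
      rcases le_or_gt q z0 with h6 | h6
      · exact Or.inl ⟨⟨h3, h6⟩, h5⟩
      · exact Or.inr ⟨⟨h6, h4⟩, h5⟩
    · rintro (⟨⟨h3, h4⟩, h5⟩ | ⟨⟨h3, h4⟩, h5⟩)
      · exact ⟨⟨h3, h4.trans hz⟩, h5⟩
      · exact ⟨⟨by omega, h4⟩, h5⟩
  have h3 : Disjoint (PP 1 z0) (PP z0 z) := by
    rw [disjoint_left]
    intro q h4 h5
    rw [Pool.Agent.Lib.MP_a17b09_nt.CH.DsC86.mem_PP] at h4 h5
    omega
  rw [h2, prod_union h3] at h1
  rw [div_div, mul_comm (∏ q ∈ PP 1 z0, vv q), ← div_div, le_div_iff₀ hpos, mul_comm]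
  exact h1

end Pool.Agent.MRS.NuA12
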