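import Pool.Agent.Lib.MP_a17b09_nt.MRS.LatG84

/-!
MRSG (MP_a17b09_nt): lattice points in ellipses, uniformly in the form (reduction theory), and in
sublattices of index `m` on which the form is divisible by `m`.
-/

set_option autoImplicit false

open Finset

namespace Pool.Agent.Lib.MP_a17b09_nt.MRS.LatU84

open CH LatG84

/-- the form in the basis given by the columns of `A`, up to division -/
theorem q_app (Q : Form) (A : Mat) (u : V) :
    Q.q (A.app u) = Q.q (A.a, A.c) * u.1 ^ 2 + Q.B (A.a, A.c) (A.b, A.d) * u.1 * u.2 +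
      Q.q (A.b, A.d) * u.2 ^ 2 := by
  unfold Form.q Form.B Mat.app
  ring

/-- a vector with the least positive value can be completed to a basis -/
theorem exists_red (Q : Form) (hQ : Q.Pos) : ∃ (A : Mat) (Q' : Form), A.det = 1 ∧ Q'.Pos ∧
    Q'.D = Q.D ∧ 3 * Q'.a ^ 2 ≤ Q.D ∧ ∀ u, Q.q (A.app u) = Q'.q u := by
  -- the least value
  have hex : ∃ n : ℕ, ∃ v : V, v ≠ 0 ∧ (Q.q v).toNat = n := ⟨_, (1, 0), by simp, rfl⟩
  classical
  obtain ⟨v, hv0, hvn⟩ := Nat.find_spec hex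
  have hmin : ∀ w : V, w ≠ 0 → Q.q v ≤ Q.q w := by
    intro w hw
    have h1 := Nat.find_min' hex ⟨w, hw, rfl⟩
    rw [← hvn] at h1
    have h2 := hQ.q_pos hv0
    have h3 := hQ.q_pos hw
    omega
  -- primitive
  have hprim : Int.gcd v.1 v.2 = 1 := by
    set g := Int.gcd v.1 v.2 with hg
    have hg0 : g ≠ 0 := by
      intro h
      rw [hg, Int.gcd_eq_zero_iff] at h
      exact hv0 (Prod.ext h.1 h.2)
    obtain ⟨x, hx⟩ := Int.gcd_dvd_left v.1 v.2
    obtain ⟨y, hy⟩ := Int.gcd_dvd_right v.1 v.2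
    rw [← hg] at hx hy
    have hw0 : ((x, y) : V) ≠ 0 := by
      intro h
      have h1 : x = 0 := congrArg Prod.fst h
      have h2 : y = 0 := congrArg Prod.snd h
      apply hv0
      rw [h1, mul_zero] at hx
      rw [h2, mul_zero] at hy
      exact Prod.ext hx hy
    have h1 := hmin _ hw0
    have h2 : Q.q v = (g : ℤ) ^ 2 * Q.q (x, y) := by
      unfold Form.q
      simp only
      rw [hx, hy]
      ring
    have h3 := hQ.q_pos hw0
    by_contra hne
    have h4 : (2 : ℤ) ≤ g := by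
      have : 2 ≤ g := by omega
      exact_mod_cast this
    rw [h2] at h1
    have h5 : (4 : ℤ) ≤ (g : ℤ) ^ 2 := by nlinarith
    nlinarith [mul_le_mul_of_nonneg_right h5 h3.le]
  obtain ⟨s, t, hst⟩ : ∃ s t : ℤ, v.1 * t - v.2 * s = 1 := by
    have h1 := Int.gcd_eq_gcd_ab v.1 v.2
    rw [hprim] at h1
    push_cast at h1
    exact ⟨-(Int.gcdB v.1 v.2), Int.gcdA v.1 v.2, by linear_combination -h1⟩
  have ha : 0 < Q.q v := hQ.q_pos hv0
  -- reduce the middle coefficient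
  obtain ⟨k, hk⟩ : ∃ k : ℤ, |Q.B v (s, t) + 2 * k * Q.q v| ≤ Q.q v := by
    set b := Q.B v (s, t) with hb
    set a := Q.q v with haa
    refine ⟨-((b + a) / (2 * a)), ?_⟩
    have h1 := Int.emod_add_mul_ediv (b + a) (2 * a)
    have h2 := Int.emod_nonneg (b + a) (show 2 * a ≠ 0 by omega)
    have h3 := Int.emod_lt_of_pos (b + a) (show 0 < 2 * a by omega)
    rw [abs_le]
    constructor
    · nlinarith
    · nlinarith
  set w : V := (s + k * v.1, t + k * v.2) with hw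
  have hB : Q.B v w = Q.B v (s, t) + 2 * k * Q.q v := by
    rw [hw]
    unfold Form.B Form.q
    ring
  have hwd : wd v w = 1 := by
    rw [hw]
    unfold wd
    simp only
    linear_combination hst
  have hw0 : w ≠ 0 := by
    intro h
    rw [h] at hwd
    unfold wd at hwd
    simp at hwd
  have hc := hmin w hw0
  have hkey := Q.key v w
  rw [hwd] at hkey
  rw [← hB] at hk
  have hB2 : Q.B v w ^ 2 ≤ Q.q v ^ 2 := by
    rw [← sq_abs (Q.B v w)]
    exact pow_le_pow_left₀ (abs_nonneg _) hk 2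
  refine ⟨⟨v.1, w.1, v.2, w.2⟩, ⟨Q.q v, Q.B v w, Q.q w⟩, ?_, ⟨ha, ?_⟩, ?_, ?_, ?_⟩
  · unfold Mat.det
    simp only
    unfold wd at hwd
    linear_combination hwd
  · show 0 < 4 * Q.q v * Q.q w - Q.B v w ^ 2
    have := hQ.2
    nlinarith
  · show 4 * Q.q v * Q.q w - Q.B v w ^ 2 = Q.D
    linear_combination hkey
  · show 3 * Q.q v ^ 2 ≤ Q.D
    nlinarith
  · intro u
    rw [q_app]
    show _ = Q.q v * u.1 ^ 2 + Q.B v w * u.1 * u.2 + Q.q w * u.2 ^ 2
    rfl

theorem kap_le (Q : Form) (hQ : Q.Pos) : kap Q ≤ 4 := by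
  obtain ⟨A, Q', _, hQ', hD, h3, _⟩ := exists_red Q hQ
  have h1 : 1 ≤ Q'.a := hQ'.1
  have h2 : (3 : ℤ) ≤ Q.D := by nlinarith
  have h4 : (3 : ℝ) ≤ Q.D := by exact_mod_cast h2
  unfold kap
  have h5 : (1.7 : ℝ) ≤ √(Q.D : ℝ) := by
    apply Real.le_sqrt_of_sq_le
    linarith [show (1.7 : ℝ) ^ 2 = 2.89 by norm_num]
  rw [div_le_iff₀ (by linarith)]
  have h6 := Real.pi_lt_d2
  linarith

/-- **uniform count**: lattice points in ellipses with an absolute constant -/
theorem latU (Q : Form) (hQ : Q.Pos) (N : ℕ) :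
    |((Q.ball N).card : ℝ) - kap Q * N| ≤ 17 * (√(N : ℝ) + 1) := by
  classical
  obtain ⟨A, Q', hA, hQ', hD, h3, hs⟩ := exists_red Q hQ
  have hcard : (Q.ball N).card = (Q'.ball N).card := by
    have h1 := card_img Q Q' hQ' A 1 one_pos (by rw [hA]; exact one_ne_zero)
      (fun u => by rw [hs u]; push_cast; ring) (Q.ball N) N ?_
    · rw [h1, Nat.div_one]
    · intro v
      rw [Form.mem_ball hQ]
      refine ⟨fun h => ⟨h, (A.d * v.1 - A.b * v.2, A.a * v.2 - A.c * v.1), ?_⟩, fun h => h.1⟩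
      unfold Mat.app
      unfold Mat.det at hA
      apply Prod.ext
      · simp only
        linear_combination (-v.1) * hA
      · simp only
        linear_combination (-v.2) * hA
  rw [hcard]
  have h1 := lat_ex Q' hQ' N
  have hkk : kap Q' = kap Q := by
    unfold kap
    rw [hD]
  rw [hkk] at h1
  refine h1.trans ?_
  have ha1 : 1 ≤ Q'.a := hQ'.1
  have ha1' : (1 : ℝ) ≤ Q'.a := by exact_mod_cast ha1
  have hs0 : 0 ≤ √(N : ℝ) := Real.sqrt_nonneg _
  apply mul_le_mul_of_nonneg_right _ (by linarith)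
  have hb : (1 / 4 : ℝ) ≤ (Q'.D : ℝ) / (4 * Q'.a) := by
    rw [div_le_div_iff₀ (by norm_num) (by positivity)]
    have h2 : Q'.a ≤ Q'.D := by rw [hD]; nlinarith
    have h4 : (Q'.a : ℝ) ≤ Q'.D := by exact_mod_cast h2
    linarith
  have hsb : (1 / 2 : ℝ) ≤ √((Q'.D : ℝ) / (4 * Q'.a)) := by
    apply Real.le_sqrt_of_sq_le
    calc (1 / 2 : ℝ) ^ 2 = 1 / 4 := by norm_num
      _ ≤ _ := hb
  have hsa : (1 : ℝ) ≤ √(Q'.a : ℝ) := by
    rw [Real.one_le_sqrt]; exact ha1'
  have e1 : 2 / √((Q'.D : ℝ) / (4 * Q'.a)) ≤ 4 := by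
    rw [div_le_iff₀ (by linarith)]
    linarith
  have e2 : 10 / √(Q'.a : ℝ) ≤ 10 := by
    rw [div_le_iff₀ (by linarith)]
    linarith
  linarith

/-- image of a matrix -/
def Im (A : Mat) (v : V) : Prop := ∃ u, v = A.app u

/-- **count in a sublattice** of index `m` on which the form is divisible by `m` -/
theorem sub_bd (Q : Form) (hQ : Q.Pos) (A : Mat) (m : ℕ) (hm : 0 < m) (hA : A.det = m)
    (hd : ∀ u, (m : ℤ) ∣ Q.q (A.app u)) (S : Finset V) (N : ℕ)
    (hS : ∀ v, v ∈ S ↔ Q.q v ≤ N ∧ Im A v) :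
    |(S.card : ℝ) - kap Q * (N / m)| ≤ 21 * (√((N : ℝ) / m) + 1) := by
  have hm' : (m : ℤ) ≠ 0 := by exact_mod_cast hm.ne'
  obtain ⟨a, ha⟩ : (m : ℤ) ∣ Q.q (A.a, A.c) := by
    have := hd (1, 0)
    rw [q_app] at this
    simpa using this
  obtain ⟨c, hc⟩ : (m : ℤ) ∣ Q.q (A.b, A.d) := by
    have := hd (0, 1)
    rw [q_app] at this
    simpa using this
  obtain ⟨b, hb⟩ : (m : ℤ) ∣ Q.B (A.a, A.c) (A.b, A.d) := by
    have h1 := hd (1, 1)
    rw [q_app, ha, hc] at h1
    simp only [one_pow, mul_one] at h1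
    have h2 : (m : ℤ) ∣ (m * a + Q.B (A.a, A.c) (A.b, A.d) + m * c) - m * a - m * c :=
      dvd_sub (dvd_sub h1 (Dvd.intro _ rfl)) (Dvd.intro _ rfl)
    have h3 : (m * a + Q.B (A.a, A.c) (A.b, A.d) + m * c) - m * a - m * c =
        Q.B (A.a, A.c) (A.b, A.d) := by ring
    rwa [h3] at h2
  set Q' : Form := ⟨a, b, c⟩ with hQ'
  have hs : ∀ u, Q.q (A.app u) = m * Q'.q u := by
    intro u
    rw [q_app, ha, hb, hc, hQ']
    unfold Form.q
    ring
  have hD : Q.D = Q'.D := by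
    have h1 := Q.key (A.a, A.c) (A.b, A.d)
    have h2 : wd (A.a, A.c) (A.b, A.d) = m := by
      unfold wd
      unfold Mat.det at hA
      linear_combination hA
    rw [h2, ha, hb, hc] at h1
    have h3 : (m : ℤ) ^ 2 * Q.D = (m : ℤ) ^ 2 * Q'.D := by
      rw [hQ']
      unfold Form.D at *
      linear_combination -h1
    exact mul_left_cancel₀ (pow_ne_zero 2 hm') h3
  have hpos : Q'.Pos := by
    constructor
    · have h1 : ((A.a, A.c) : V) ≠ 0 := by
        intro h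
        have h2 : A.a = 0 := congrArg Prod.fst h
        have h3 : A.c = 0 := congrArg Prod.snd h
        unfold Mat.det at hA
        rw [h2, h3] at hA
        apply hm'
        linear_combination -hA
      have h2 := hQ.q_pos h1
      rw [ha] at h2
      have hmp : (0 : ℤ) < m := by exact_mod_cast hm
      exact (pos_iff_pos_of_mul_pos h2).1 hmp
    · rw [← hD]; exact hQ.2
  have hkk : kap Q' = kap Q := by
    unfold kap
    rw [hD]
  have h1 := img_bd Q Q' hQ hpos hD 17 (latU Q' hpos) A m hm (by rw [hA]; exact hm') hs S N hS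
  have h2 := kap_le Q hQ
  have h3 : 0 ≤ √((N : ℝ) / m) := Real.sqrt_nonneg _
  rw [abs_of_pos (show (0 : ℝ) < 17 by norm_num)] at h1
  linarith

end Pool.Agent.Lib.MP_a17b09_nt.MRS.LatU84
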