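import Pool.Agent.Lib.MP_a17b09_nt.MRS.StmtsL27

/-!
Project MRS, levels: the schedule (`StSch`), with the closed form `p_i = P ^ (4 ^ i)`, `q_i = p_i ^ 2`,
`h_i = p_i` (helper38's form of the schedule; helper27).
-/

set_option autoImplicit false

open Filter Topology Finset

namespace Pool.Agent.Lib.MP_a17b09_nt.MRS

namespace Sch27

theorem log_sq (K : ℝ) : ∃ X : ℝ, ∀ x : ℝ, X ≤ x → K * Real.log x ^ 2 ≤ x := by
  have h1 : (0 : ℝ) < 1 / (|K| + 1) := by positivity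
  have h2 := (Real.isLittleO_pow_log_id_atTop (n := 2)).def h1
  obtain ⟨X, hX⟩ := (h2.and (eventually_ge_atTop (0 : ℝ))).exists_forall_of_atTop
  refine ⟨X, fun x hx => ?_⟩
  obtain ⟨h3, h4⟩ := hX x hx
  rw [Real.norm_of_nonneg (sq_nonneg _), id, Real.norm_of_nonneg h4] at h3
  have h5 : (|K| + 1) * Real.log x ^ 2 ≤ x := by
    have h6 : (0 : ℝ) < |K| + 1 := by positivity
    calc (|K| + 1) * Real.log x ^ 2 ≤ (|K| + 1) * (1 / (|K| + 1) * x) :=
          mul_le_mul_of_nonneg_left h3 h6.le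
      _ = x := by field_simp
  have h7 : K * Real.log x ^ 2 ≤ (|K| + 1) * Real.log x ^ 2 :=
    mul_le_mul_of_nonneg_right (by linarith [le_abs_self K]) (sq_nonneg _)
  linarith

theorem lemA (C δ : ℝ) (hC : 1 ≤ C) (hδ : 0 < δ) : ∃ X0 : ℝ, 17 ≤ X0 ∧ ∀ x : ℝ, X0 ≤ x →
    ∀ w : ℝ, x ^ 2 ≤ w → w ≤ 16 * x ^ 8 → ∀ l : ℕ, (l : ℝ) ≤ w / x + 1 →
    x ^ 27 * (C ^ (l + 1) * (l.factorial : ℝ) ^ 2) ≤ Real.exp (δ * (w / Real.log x)) := by
  obtain ⟨X, hX⟩ := log_sq ((59 + 3 * Real.log C) / δ)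
  refine ⟨max 17 X, le_max_left _ _, fun x hx w hw1 hw2 l hl => ?_⟩
  have h17 : (17 : ℝ) ≤ x := (le_max_left _ _).trans hx
  have hxK := hX x ((le_max_right _ _).trans hx)
  have hx0 : (0 : ℝ) < x := by linarith
  have hLc : 0 ≤ Real.log C := Real.log_nonneg hC
  have hLx : 1 ≤ Real.log x := by
    rw [Real.le_log_iff_exp_le hx0]
    have := Real.exp_one_lt_d9
    linarith
  set Lx := Real.log x with hLxd
  set Lc := Real.log C with hLcd
  have hwx : x ≤ w / x := by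
    rw [le_div_iff₀ hx0, ← sq]; exact hw1
  have hl8 : (l : ℝ) ≤ x ^ 8 := by
    have h1 : w / x ≤ 16 * x ^ 7 := by
      rw [div_le_iff₀ hx0]
      calc w ≤ 16 * x ^ 8 := hw2
        _ = 16 * x ^ 7 * x := by ring
    have h2 : (1 : ℝ) ≤ x ^ 7 := one_le_pow₀ (by linarith)
    have h3 : x ^ 8 = x ^ 7 * x := by ring
    have h4 : x ^ 7 * 17 ≤ x ^ 7 * x := mul_le_mul_of_nonneg_left h17 (by linarith)
    linarith
  have hfac : (l.factorial : ℝ) ≤ (x ^ 8) ^ l := by
    have h1 : (l.factorial : ℝ) ≤ (l : ℝ) ^ l := by exact_mod_cast Nat.factorial_le_pow l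
    exact h1.trans (pow_le_pow_left₀ (Nat.cast_nonneg _) hl8 l)
  have hfac2 : (l.factorial : ℝ) ^ 2 ≤ ((x ^ 8) ^ l) ^ 2 :=
    pow_le_pow_left₀ (Nat.cast_nonneg _) hfac 2
  have hCpos : (0 : ℝ) < C := by linarith
  have hxe : x = Real.exp Lx := (Real.exp_log hx0).symm
  have hCe : C = Real.exp Lc := (Real.exp_log hCpos).symm
  have hmain : x ^ 27 * (C ^ (l + 1) * ((x ^ 8) ^ l) ^ 2) =
      Real.exp (27 * Lx + ((l : ℝ) + 1) * Lc + 16 * (l : ℝ) * Lx) := by
    have e1 : x ^ 27 = Real.exp (27 * Lx) := by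
      conv_lhs => rw [hxe]
      rw [← Real.exp_nat_mul]; norm_num
    have e2 : C ^ (l + 1) = Real.exp (((l : ℝ) + 1) * Lc) := by
      conv_lhs => rw [hCe]
      rw [← Real.exp_nat_mul]; push_cast; ring_nf
    have e3 : ((x ^ 8) ^ l) ^ 2 = Real.exp (16 * (l : ℝ) * Lx) := by
      rw [← pow_mul, ← pow_mul]
      conv_lhs => rw [hxe]
      rw [← Real.exp_nat_mul]; push_cast; ring_nf
    rw [e1, e2, e3, ← Real.exp_add, ← Real.exp_add]
    congr 1; ring
  calc x ^ 27 * (C ^ (l + 1) * (l.factorial : ℝ) ^ 2)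
      ≤ x ^ 27 * (C ^ (l + 1) * ((x ^ 8) ^ l) ^ 2) := by gcongr
    _ = Real.exp (27 * Lx + ((l : ℝ) + 1) * Lc + 16 * (l : ℝ) * Lx) := hmain
    _ ≤ Real.exp (δ * (w / Lx)) := by
        apply Real.exp_le_exp.2
        set y := w / x with hy
        have hy1 : 1 ≤ y := by linarith
        have hl2 : (l : ℝ) ≤ 2 * y := by linarith
        have hl3 : (l : ℝ) + 1 ≤ 3 * y := by linarith
        have hLx0 : 0 ≤ Lx := by linarith
        have s1 : 27 * Lx ≤ 27 * Lx * y := le_mul_of_one_le_right (by positivity) hy1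
        have s2 : ((l : ℝ) + 1) * Lc ≤ 3 * y * Lc * Lx := by
          have : ((l : ℝ) + 1) * Lc ≤ 3 * y * Lc := mul_le_mul_of_nonneg_right hl3 hLc
          have h3 : 0 ≤ 3 * y * Lc := by positivity
          exact this.trans (le_mul_of_one_le_right h3 hLx)
        have s3 : 16 * (l : ℝ) * Lx ≤ 32 * y * Lx :=
          mul_le_mul_of_nonneg_right (by linarith) hLx0
        have s4 : 27 * Lx + ((l : ℝ) + 1) * Lc + 16 * (l : ℝ) * Lx ≤ (59 + 3 * Lc) * Lx * y := by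
          calc 27 * Lx + ((l : ℝ) + 1) * Lc + 16 * (l : ℝ) * Lx
              ≤ 27 * Lx * y + 3 * y * Lc * Lx + 32 * y * Lx := by linarith
            _ = (59 + 3 * Lc) * Lx * y := by ring
        refine s4.trans ?_
        have s5 : (59 + 3 * Lc) * Lx ^ 2 ≤ δ * x := by
          have h1 : (59 + 3 * Lc) / δ * Lx ^ 2 ≤ x := hxK
          have h2 := mul_le_mul_of_nonneg_left h1 hδ.le
          calc (59 + 3 * Lc) * Lx ^ 2 = δ * ((59 + 3 * Lc) / δ * Lx ^ 2) := by field_simp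
            _ ≤ δ * x := h2
        have hw : w = y * x := by rw [hy]; field_simp
        rw [hw]
        have hLp : 0 < Lx := by linarith
        rw [show δ * (y * x / Lx) = (δ * x) * y / Lx by ring, le_div_iff₀ hLp]
        calc (59 + 3 * Lc) * Lx * y * Lx = ((59 + 3 * Lc) * Lx ^ 2) * y := by ring
          _ ≤ (δ * x) * y := mul_le_mul_of_nonneg_right s5 (by linarith)

theorem stepL (C ε e : ℝ) (hC : 1 ≤ C) (hε : 0 < ε) (he : 0 < e) (he1 : e ≤ 1) :
    ∃ X0 : ℝ, 17 ≤ X0 ∧ ∀ x : ℝ, X0 ≤ x → ∀ w s a d : ℝ, x ^ 4 ≤ w → w ≤ x ^ 8 → x ≤ s →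
      s ≤ x ^ 2 → 0 ≤ a → a ≤ e → e / (4 * Real.log x) ≤ d → ∃ l : ℕ, w ≤ l * s ∧
      x ^ 27 * (Real.exp (2 * l * a * s - 2 * (a + d) * w) * (C ^ (l + 1) *
        (l.factorial : ℝ) ^ 2)) ≤ ε * Real.exp (-x) := by
  obtain ⟨X, hX17, hX⟩ := lemA C (e / 8) hC (by positivity)
  refine ⟨X + 16 / e + 8 * |Real.log ε| / e, ?_, ?_⟩
  · have h1 : 0 ≤ 16 / e := by positivity
    have h2 : 0 ≤ 8 * |Real.log ε| / e := by positivity
    linarith
  intro x hx w s a d hw1 hw2 hs1 hs2 ha0 hae hd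
  have h1 : 0 ≤ 16 / e := by positivity
  have h2 : 0 ≤ 8 * |Real.log ε| / e := by positivity
  have hxX : X ≤ x := by linarith
  have h17 : 17 ≤ x := by linarith
  have hx16 : 16 / e ≤ x := by linarith
  have hxlog : 8 * |Real.log ε| / e ≤ x := by linarith
  have hx0 : 0 < x := by linarith
  have hs0 : 0 < s := by linarith
  have hw0 : 0 < w := by
    have : 0 < x ^ 4 := by positivity
    linarith
  have hLx : 1 ≤ Real.log x := by
    rw [Real.le_log_iff_exp_le hx0]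
    have := Real.exp_one_lt_d9
    linarith
  have hLx2 : Real.log x ≤ x := (Real.log_le_sub_one_of_pos hx0).trans (by linarith)
  have hL0 : 0 < Real.log x := by linarith
  refine ⟨⌈w / s⌉₊, ?_, ?_⟩
  · have := Nat.le_ceil (w / s)
    rwa [div_le_iff₀ hs0] at this
  set l := ⌈w / s⌉₊ with hl
  have hl1 : (l : ℝ) ≤ w / s + 1 := (Nat.ceil_lt_add_one (by positivity)).le
  have hl2 : (l : ℝ) ≤ w / x + 1 := by
    have : w / s ≤ w / x := div_le_div_of_nonneg_left hw0.le hx0 hs1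
    linarith
  have hls : (l : ℝ) * s ≤ w + s := by
    have := mul_le_mul_of_nonneg_right hl1 hs0.le
    rwa [add_mul, div_mul_cancel₀ _ hs0.ne', one_mul] at this
  have hx24 : x ^ 2 ≤ x ^ 4 := pow_le_pow_right₀ (by linarith) (by norm_num)
  have hx8 : 0 < x ^ 8 := pow_pos hx0 8
  have hA := hX x hxX w (by linarith) (by linarith) l hl2
  have hexp : 2 * (l : ℝ) * a * s - 2 * (a + d) * w ≤ 2 * x ^ 2 - e / 2 * (w / Real.log x) := by
    have t1 : 2 * (l : ℝ) * a * s ≤ 2 * a * (w + s) := by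
      have := mul_le_mul_of_nonneg_left hls (show 0 ≤ 2 * a by positivity)
      linarith
    have t2 : 2 * a * s ≤ 2 * x ^ 2 := by
      have : a * s ≤ 1 * x ^ 2 := mul_le_mul (hae.trans he1) hs2 hs0.le zero_le_one
      linarith
    have t3 : e / 2 * (w / Real.log x) ≤ 2 * d * w := by
      have : e / (4 * Real.log x) * w ≤ d * w := mul_le_mul_of_nonneg_right hd hw0.le
      have h5 : e / 2 * (w / Real.log x) = 2 * (e / (4 * Real.log x) * w) := by
        field_simp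
        ring
      rw [h5]; linarith
    linarith
  have hy : x ^ 3 ≤ w / Real.log x := by
    rw [le_div_iff₀ hL0]
    calc x ^ 3 * Real.log x ≤ x ^ 3 * x := by gcongr
      _ = x ^ 4 := by ring
      _ ≤ w := hw1
  have hfin : 2 * x ^ 2 - e / 2 * (w / Real.log x) + e / 8 * (w / Real.log x) ≤
      Real.log ε + -x := by
    have g0 : 16 ≤ x * e := by rwa [div_le_iff₀ he] at hx16
    have hx1 : 1 ≤ x := by linarith
    have g1 : 2 * x ^ 2 ≤ e / 8 * x ^ 3 := by
      have : x ^ 2 * 16 ≤ x ^ 2 * (x * e) := mul_le_mul_of_nonneg_left g0 (by positivity)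
      have h7 : x ^ 2 * (x * e) = e * x ^ 3 := by ring
      linarith
    have g2 : x ≤ 2 * x ^ 2 := by
      have := le_self_pow₀ hx1 (two_ne_zero)
      have h8 : 0 < x ^ 2 := by positivity
      linarith
    have g3 : |Real.log ε| ≤ e / 8 * x ^ 3 := by
      have h5 : 8 * |Real.log ε| ≤ x * e := by rwa [div_le_iff₀ he] at hxlog
      have h6 : x * e ≤ x ^ 3 * e := by
        exact mul_le_mul_of_nonneg_right (le_self_pow₀ hx1 (by norm_num)) he.le
      linarith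
    have g4 := neg_abs_le (Real.log ε)
    have g5 : e * x ^ 3 ≤ e * (w / Real.log x) := mul_le_mul_of_nonneg_left hy he.le
    linarith
  calc x ^ 27 * (Real.exp (2 * l * a * s - 2 * (a + d) * w) * (C ^ (l + 1) *
        (l.factorial : ℝ) ^ 2))
      = Real.exp (2 * l * a * s - 2 * (a + d) * w) * (x ^ 27 * (C ^ (l + 1) *
        (l.factorial : ℝ) ^ 2)) := by ring
    _ ≤ Real.exp (2 * x ^ 2 - e / 2 * (w / Real.log x)) * Real.exp (e / 8 * (w / Real.log x)) := by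
        apply mul_le_mul (Real.exp_le_exp.2 hexp) hA (by positivity) (Real.exp_pos _).le
    _ = Real.exp (2 * x ^ 2 - e / 2 * (w / Real.log x) + e / 8 * (w / Real.log x)) := by
        rw [← Real.exp_add]
    _ ≤ Real.exp (Real.log ε + -x) := Real.exp_le_exp.2 hfin
    _ = ε * Real.exp (-x) := by rw [Real.exp_add, Real.exp_log hε]

theorem stepU (C c e : ℝ) (hC : 1 ≤ C) (hc : 0 < c) (he2 : e ≤ c / 8) :
    ∃ X0 : ℝ, 17 ≤ X0 ∧ ∀ x : ℝ, X0 ≤ x → ∀ w s a : ℝ, x ^ 2 ≤ w → w ≤ 16 * x ^ 8 → x ≤ s →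
      s ≤ x ^ 2 → 0 ≤ a → a ≤ e → ∃ l : ℕ, w ≤ l * s ∧
      x ^ 3 * (Real.exp (2 * l * a * s) * (C ^ (l + 1) *
        (l.factorial : ℝ) ^ 2)) ≤ Real.exp (w * c) := by
  obtain ⟨X, hX17, hX⟩ := lemA C (c / 2) hC (by positivity)
  refine ⟨X, hX17, ?_⟩
  intro x hxX w s a hw1 hw2 hs1 hs2 ha0 hae
  have h17 : 17 ≤ x := by linarith
  have hx0 : 0 < x := by linarith
  have hs0 : 0 < s := by linarith
  have hw0 : 0 < w := by
    have : 0 < x ^ 2 := by positivity
    linarith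
  have hLx : 1 ≤ Real.log x := by
    rw [Real.le_log_iff_exp_le hx0]
    have := Real.exp_one_lt_d9
    linarith
  have hL0 : 0 < Real.log x := by linarith
  refine ⟨⌈w / s⌉₊, ?_, ?_⟩
  · have := Nat.le_ceil (w / s)
    rwa [div_le_iff₀ hs0] at this
  set l := ⌈w / s⌉₊ with hl
  have hl1 : (l : ℝ) ≤ w / s + 1 := (Nat.ceil_lt_add_one (by positivity)).le
  have hl2 : (l : ℝ) ≤ w / x + 1 := by
    have : w / s ≤ w / x := div_le_div_of_nonneg_left hw0.le hx0 hs1
    linarith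
  have hls : (l : ℝ) * s ≤ w + s := by
    have := mul_le_mul_of_nonneg_right hl1 hs0.le
    rwa [add_mul, div_mul_cancel₀ _ hs0.ne', one_mul] at this
  have hA := hX x hxX w hw1 hw2 l hl2
  have hexp : 2 * (l : ℝ) * a * s ≤ c / 2 * w := by
    have t1 : 2 * (l : ℝ) * a * s ≤ 2 * a * (w + s) := by
      have := mul_le_mul_of_nonneg_left hls (show 0 ≤ 2 * a by positivity)
      linarith
    have t2 : 2 * a * (w + s) ≤ 2 * a * (2 * w) :=
      mul_le_mul_of_nonneg_left (by linarith) (by positivity)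
    have t3 : 2 * a * (2 * w) ≤ c / 2 * w := by
      have : a * w ≤ c / 8 * w := mul_le_mul_of_nonneg_right (hae.trans he2) hw0.le
      linarith
    linarith
  have h27 : x ^ 3 ≤ x ^ 27 := pow_le_pow_right₀ (by linarith) (by norm_num)
  have hwl : w / Real.log x ≤ w := div_le_self hw0.le hLx
  calc x ^ 3 * (Real.exp (2 * l * a * s) * (C ^ (l + 1) * (l.factorial : ℝ) ^ 2))
      = Real.exp (2 * l * a * s) * (x ^ 3 * (C ^ (l + 1) * (l.factorial : ℝ) ^ 2)) := by ring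
    _ ≤ Real.exp (2 * l * a * s) * (x ^ 27 * (C ^ (l + 1) * (l.factorial : ℝ) ^ 2)) := by gcongr
    _ ≤ Real.exp (c / 2 * w) * Real.exp (c / 2 * (w / Real.log x)) := by
        apply mul_le_mul (Real.exp_le_exp.2 hexp) hA (by positivity) (Real.exp_pos _).le
    _ = Real.exp (c / 2 * w + c / 2 * (w / Real.log x)) := by rw [← Real.exp_add]
    _ ≤ Real.exp (w * c) := by
        apply Real.exp_le_exp.2
        have := mul_le_mul_of_nonneg_left hwl (show 0 ≤ c / 2 by positivity)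
        linarith

theorem geo (m : ℕ) : ∑ i ∈ Finset.range m, ((1 : ℝ) / 4) ^ i ≤ 4 / 3 := by
  have h : ∑ i ∈ Finset.range m, ((1 : ℝ) / 4) ^ i = 4 / 3 * (1 - (1 / 4) ^ m) := by
    induction m with
    | zero => simp
    | succ k ih => rw [Finset.sum_range_succ, ih, pow_succ]; ring
  rw [h]
  have : (0 : ℝ) ≤ (1 / 4) ^ m := by positivity
  linarith

theorem lev0 (C ε e : ℝ) (hC : 1 ≤ C) (hε : 0 < ε) (he : 0 < e) : ∃ X0 : ℝ, 1 ≤ X0 ∧
    ∀ x : ℝ, X0 ≤ x → C * (x ^ 3) ^ 2 * Real.exp (-(e * x)) ≤ ε := by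
  refine ⟨1 + C * 5040 / (e ^ 7 * ε), ?_, ?_⟩
  · have : 0 ≤ C * 5040 / (e ^ 7 * ε) := by positivity
    linarith
  intro x hx
  have h0 : 0 ≤ C * 5040 / (e ^ 7 * ε) := by positivity
  have hx0 : 0 < x := by linarith
  have h1 := Real.pow_div_factorial_le_exp (e * x) (by positivity) 7
  have h2 : (0 : ℝ) < Real.exp (e * x) := Real.exp_pos _
  rw [Real.exp_neg, ← div_eq_mul_inv, div_le_iff₀ h2]
  have h3 : C * 5040 / (e ^ 7 * ε) ≤ x := by linarith
  rw [div_le_iff₀ (by positivity)] at h3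
  have h4 : ((7 : ℕ).factorial : ℝ) = 5040 := by norm_num [Nat.factorial]
  rw [h4, mul_pow] at h1
  calc C * (x ^ 3) ^ 2 = (C * 5040) * (x ^ 6 / 5040) := by ring
    _ ≤ (x * (e ^ 7 * ε)) * (x ^ 6 / 5040) := by gcongr
    _ = ε * (e ^ 7 * x ^ 7 / 5040) := by ring
    _ ≤ ε * Real.exp (e * x) := by gcongr

/-- the scales -/
def pp (P i : ℕ) : ℕ := P ^ (4 ^ i)

theorem pp_succ (P i : ℕ) : pp P (i + 1) = pp P i ^ 4 := by
  unfold pp
  rw [← pow_mul, pow_succ]

theorem pp_ge {P : ℕ} (hP : 1 ≤ P) (i : ℕ) : P ≤ pp P i := by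
  unfold pp
  calc P = P ^ 1 := (pow_one P).symm
    _ ≤ P ^ (4 ^ i) := Nat.pow_le_pow_right hP (Nat.one_le_pow _ _ (by norm_num))

theorem pp_mono {P : ℕ} (hP : 1 ≤ P) {i j : ℕ} (h : i ≤ j) : pp P i ≤ pp P j := by
  unfold pp
  exact Nat.pow_le_pow_right hP (Nat.pow_le_pow_right (by norm_num) h)

theorem log_pp (P i : ℕ) : Real.log (pp P i) = 4 ^ i * Real.log P := by
  unfold pp
  push_cast
  rw [Real.log_pow]
  push_cast
  rfl

end Sch27

open Sch27 in
/-- the schedule -/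
theorem stSch_27 : StSch := by
  intro C r ε c hC hr hε hc
  set e : ℝ := min 1 (c / 8) with he
  have he0 : 0 < e := lt_min one_pos (by positivity)
  have he1 : e ≤ 1 := min_le_left _ _
  have hec : e ≤ c / 8 := min_le_right _ _
  obtain ⟨X1, hX1, hL⟩ := stepL C ε e hC hε he0 he1
  obtain ⟨X2, hX2, hU⟩ := stepU C c e hC hc hec
  obtain ⟨X3, hX3, h0⟩ := lev0 C ε e hC hε he0
  -- the first scale
  obtain ⟨P, hP⟩ : ∃ P : ℕ, max (max X1 X2) (max X3 (Real.exp (2 * C + 1 + 16 * C / (3 * ε)))) ≤ P :=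
    ⟨_, Nat.le_ceil _⟩
  have hPX1 : X1 ≤ P := ((le_max_left _ _).trans (le_max_left _ _)).trans hP
  have hPX2 : X2 ≤ P := ((le_max_right _ _).trans (le_max_left _ _)).trans hP
  have hPX3 : X3 ≤ P := ((le_max_left _ _).trans (le_max_right _ _)).trans hP
  have hPe : Real.exp (2 * C + 1 + 16 * C / (3 * ε)) ≤ P :=
    ((le_max_right _ _).trans (le_max_right _ _)).trans hP
  have hP17 : (17 : ℝ) ≤ P := hX1.trans hPX1
  have hP17' : 17 ≤ P := by exact_mod_cast hP17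
  have hP0 : (0 : ℝ) < P := by linarith
  have hlogP : 2 * C + 1 + 16 * C / (3 * ε) ≤ Real.log P := (Real.le_log_iff_exp_le hP0).2 hPe
  have hq0 : 0 < 16 * C / (3 * ε) := by positivity
  have hlog1 : 2 * C + 1 ≤ Real.log P := by linarith
  have hlog2 : 16 * C / (3 * ε) ≤ Real.log P := by linarith
  have hlog0 : 0 < Real.log P := by linarith
  -- facts on the scales
  have hpP : ∀ i, (P : ℝ) ≤ pp P i := fun i => by exact_mod_cast pp_ge (by omega) i
  have hp17 : ∀ i, (17 : ℝ) ≤ pp P i := fun i => hP17.trans (hpP i)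
  have hpX1 : ∀ i, X1 ≤ pp P i := fun i => hPX1.trans (hpP i)
  have hpX2 : ∀ i, X2 ≤ pp P i := fun i => hPX2.trans (hpP i)
  have hp0 : ∀ i, (0 : ℝ) < pp P i := fun i => by linarith [hp17 i]
  have h4i : ∀ i : ℕ, (1 : ℝ) ≤ 4 ^ i := fun i => one_le_pow₀ (by norm_num)
  have hlogp : ∀ i, (4 : ℝ) ^ i * Real.log P ≤ pp P i := fun i => by
    rw [← log_pp]
    exact (Real.log_le_sub_one_of_pos (hp0 i)).trans (by linarith)
  have hl4 : ∀ i : ℕ, (4 : ℝ) ^ i ≤ 4 ^ i * Real.log P := fun i =>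
    le_mul_of_one_le_right (by positivity) (by linarith)
  have hlm : ∀ i : ℕ, Real.log P ≤ 4 ^ i * Real.log P := fun i =>
    le_mul_of_one_le_left hlog0.le (h4i i)
  have hsq : ∀ i, (pp P i : ℝ) ≤ (pp P i : ℝ) ^ 2 := fun i =>
    le_self_pow₀ (by linarith [hp17 i]) two_ne_zero
  refine ⟨1 + Real.exp ((P : ℝ) ^ 2) / r, by
    have : 0 ≤ Real.exp ((P : ℝ) ^ 2) / r := by positivity
    linarith, fun H hH => ⟨Real.exp (16 * (P : ℝ) ^ 2), Real.one_le_exp (by positivity), ?_⟩⟩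
  intro N hN
  have hN0 : 0 < N := (Real.exp_pos _).trans_le hN
  have hlogN : 16 * (P : ℝ) ^ 2 ≤ Real.log N := (Real.le_log_iff_exp_le hN0).2 hN
  -- the last level
  have hex : ∃ m : ℕ, Real.log N / 16 < (pp P (m + 1) : ℝ) ^ 2 := by
    obtain ⟨m, hm⟩ := exists_nat_gt (Real.log N / 16)
    refine ⟨m, hm.trans ?_⟩
    have h1 : (m : ℝ) < 4 ^ (m + 1) := by
      have : m < 4 ^ (m + 1) := (Nat.lt_succ_self m).trans (Nat.lt_pow_self (by norm_num))
      exact_mod_cast this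
    have h2 : (4 : ℝ) ^ (m + 1) ≤ pp P (m + 1) := by
      exact le_trans (hl4 (m + 1)) (hlogp (m + 1))
    calc (m : ℝ) < 4 ^ (m + 1) := h1
      _ ≤ pp P (m + 1) := h2
      _ ≤ (pp P (m + 1) : ℝ) ^ 2 := hsq (m + 1)
  classical
  set n := Nat.find hex with hn
  have hn1 : Real.log N / 16 < (pp P (n + 1) : ℝ) ^ 2 := Nat.find_spec hex
  have hn2 : (pp P n : ℝ) ^ 2 ≤ Real.log N / 16 := by
    rcases Nat.eq_zero_or_pos n with h | h
    · rw [h]
      have : pp P 0 = P := by unfold pp; simp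
      rw [this]; linarith
    · have h1 := Nat.find_min hex (m := n - 1) (by omega)
      rw [Nat.sub_add_cancel h] at h1
      exact not_lt.1 h1
  have hle : ∀ i ≤ n, (pp P i : ℝ) ^ 2 ≤ Real.log N / 16 := fun i hi => by
    have h1 : (pp P i : ℝ) ≤ pp P n := by exact_mod_cast pp_mono (by omega) hi
    exact (pow_le_pow_left₀ (hp0 i).le h1 2).trans hn2
  have hlN0 : 0 < Real.log N := by
    have : 0 < 16 * (P : ℝ) ^ 2 := by positivity
    linarith
  have hN8 : N ^ (1 / 8 : ℝ) = Real.exp (Real.log N * (1 / 8)) := Real.rpow_def_of_pos hN0 _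
  have hNc : N ^ c = Real.exp (Real.log N * c) := Real.rpow_def_of_pos hN0 _
  have hqe : ∀ i ≤ n, Real.exp ((pp P i : ℝ) ^ 2) ≤ N ^ (1 / 8 : ℝ) := fun i hi => by
    rw [hN8]
    exact Real.exp_le_exp.2 (by linarith [hle i hi])
  have hratio : ∀ i, ((pp P i ^ 3 : ℕ) : ℝ) / ((pp P i ^ 2 : ℕ) : ℝ) = pp P i := fun i => by
    have := (hp0 i).ne'
    push_cast
    field_simp
  have hα : ∀ i : ℕ, 0 ≤ e * (1 - (1 / 2 : ℝ) ^ (i + 1)) ∧ e * (1 - (1 / 2 : ℝ) ^ (i + 1)) ≤ e :=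
    fun i => by
    have h1 : (0 : ℝ) < (1 / 2) ^ (i + 1) := by positivity
    have h2 : ((1 : ℝ) / 2) ^ (i + 1) ≤ 1 := pow_le_one₀ (by norm_num) (by norm_num)
    exact ⟨mul_nonneg he0.le (by linarith), mul_le_of_le_one_right he0.le (by linarith)⟩
  refine ⟨n, pp P, fun i => pp P i ^ 2, fun i => pp P i ^ 3,
    fun i => e * (1 - (1 / 2 : ℝ) ^ (i + 1)), fun i => (hα i).1, ?_, ?_, ?_, ?_, ?_, ?_⟩
  · intro i hi
    have h17 := hp17 i
    have h17' : 17 ≤ pp P i := by exact_mod_cast h17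
    refine ⟨by omega, ?_, ?_, ?_, ?_, ?_⟩
    · show 3 * pp P i ≤ pp P i ^ 2
      rw [sq]
      exact Nat.mul_le_mul_right _ (by omega)
    · exact Nat.pow_lt_pow_right (by omega) (by norm_num)
    · refine le_trans ?_ (hqe i hi)
      have h1 := Real.add_one_le_exp ((pp P i : ℝ) ^ 2)
      linarith [hsq i]
    · have : ((pp P i ^ 3 : ℕ) : ℝ) / (pp P i : ℝ) = (pp P i : ℝ) ^ 2 := by
        push_cast
        field_simp
      rw [this]
      exact hqe i hi
    · rw [hratio, log_pp]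
      linarith [hlm i]
  · have h1 : pp P 0 = P := by unfold pp; simp
    simp only [h1]
    have : ((P ^ 3 : ℕ) : ℝ) / (P : ℝ) = (P : ℝ) ^ 2 := by
      push_cast
      field_simp
    rw [this]
    have h2 : Real.exp ((P : ℝ) ^ 2) / r ≤ H := by linarith
    rw [div_le_iff₀ hr] at h2
    linarith
  · have hterm : ∀ i ∈ Finset.range (n + 1),
        C * (1 / (Real.log (((pp P i ^ 3 : ℕ) : ℝ) / ((pp P i ^ 2 : ℕ) : ℝ)) - C) +
          1 / (pp P i : ℝ) + (pp P i : ℝ) / ((pp P i ^ 2 : ℕ) : ℝ)) ≤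
        4 * C / Real.log P * (1 / 4) ^ i := by
      intro i _
      rw [hratio, log_pp]
      have g1 : (4 : ℝ) ^ i * Real.log P / 2 ≤ 4 ^ i * Real.log P - C := by
        linarith [hlm i]
      have g0 : 0 < (4 : ℝ) ^ i * Real.log P := by positivity
      have g2 : 1 / ((4 : ℝ) ^ i * Real.log P - C) ≤ 2 / (4 ^ i * Real.log P) := by
        rw [div_le_div_iff₀ (by linarith) g0]
        linarith
      have g3 : 1 / (pp P i : ℝ) ≤ 1 / (4 ^ i * Real.log P) :=
        one_div_le_one_div_of_le g0 (hlogp i)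
      have g4 : (pp P i : ℝ) / ((pp P i ^ 2 : ℕ) : ℝ) = 1 / (pp P i : ℝ) := by
        have := (hp0 i).ne'
        push_cast
        field_simp
      rw [g4]
      have g5 : 4 * C / Real.log P * (1 / 4) ^ i = C * (4 * (1 / (4 ^ i * Real.log P))) := by
        rw [one_div_pow]
        field_simp
      rw [g5]
      apply mul_le_mul_of_nonneg_left _ (by linarith)
      have g6 : 2 / ((4 : ℝ) ^ i * Real.log P) = 2 * (1 / (4 ^ i * Real.log P)) := by ring
      linarith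
    refine (Finset.sum_le_sum hterm).trans ?_
    rw [← Finset.mul_sum]
    have g7 : 0 ≤ 4 * C / Real.log P := by positivity
    refine (mul_le_mul_of_nonneg_left (geo (n + 1)) g7).trans ?_
    rw [div_mul_eq_mul_div, div_le_iff₀ hlog0]
    rw [div_le_iff₀ (by positivity)] at hlog2
    linarith
  · have h1 : pp P 0 = P := by unfold pp; simp
    simp only [h1]
    have h2 : 2 * (e * (1 - (1 / 2 : ℝ) ^ (0 + 1))) * (((P ^ 2 : ℕ) : ℝ) / (P : ℝ)) = e * P := by
      push_cast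
      field_simp
      ring
    rw [h2]
    have h3 := h0 P hPX3
    push_cast
    exact h3
  · intro i hi u hu s hs
    rw [Finset.mem_Ico] at hu hs
    set x : ℝ := ((pp P i : ℕ) : ℝ) with hx
    have hx17 : (17 : ℝ) ≤ x := hp17 i
    have hx0 : 0 < x := hp0 i
    have hsucc : ((pp P (i + 1) : ℕ) : ℝ) = x ^ 4 := by
      rw [pp_succ]; push_cast; rfl
    have hu1 : x ^ 8 ≤ (u : ℝ) := by
      have : ((pp P (i + 1) ^ 2 : ℕ) : ℝ) ≤ u := by exact_mod_cast hu.1
      push_cast at this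
      rw [hsucc] at this
      calc x ^ 8 = (x ^ 4) ^ 2 := by ring
        _ ≤ (u : ℝ) := this
    have hu2 : (u : ℝ) ≤ x ^ 12 := by
      have : (u : ℝ) ≤ ((pp P (i + 1) ^ 3 : ℕ) : ℝ) := by exact_mod_cast hu.2.le
      push_cast at this
      rw [hsucc] at this
      calc (u : ℝ) ≤ (x ^ 4) ^ 3 := this
        _ = x ^ 12 := by ring
    have hs1 : x ^ 2 ≤ (s : ℝ) := by
      have : ((pp P i ^ 2 : ℕ) : ℝ) ≤ s := by exact_mod_cast hs.1
      push_cast at this
      exact this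
    have hs2 : (s : ℝ) ≤ x ^ 3 := by
      have : (s : ℝ) ≤ ((pp P i ^ 3 : ℕ) : ℝ) := by exact_mod_cast hs.2.le
      push_cast at this
      exact this
    have hx4 : 0 < x ^ 4 := by positivity
    have hlx : Real.log x = 4 ^ i * Real.log P := log_pp P i
    obtain ⟨l, hl1, hl2⟩ := hL x (hpX1 i) ((u : ℝ) / x ^ 4) ((s : ℝ) / x)
      (e * (1 - (1 / 2 : ℝ) ^ (i + 1))) (e * (1 / 2) ^ (i + 2))
      (by rw [le_div_iff₀ hx4]; calc x ^ 4 * x ^ 4 = x ^ 8 := by ring
            _ ≤ _ := hu1)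
      (by rw [div_le_iff₀ hx4]; calc (u : ℝ) ≤ x ^ 12 := hu2
            _ = _ := by ring)
      (by rw [le_div_iff₀ hx0]; calc x * x = x ^ 2 := by ring
            _ ≤ _ := hs1)
      (by rw [div_le_iff₀ hx0]; calc (s : ℝ) ≤ x ^ 3 := hs2
            _ = _ := by ring) (hα i).1 (hα i).2
      (by
        rw [hlx, div_le_iff₀ (by positivity)]
        have h2 : (2 : ℝ) ^ i ≤ 4 ^ i := pow_le_pow_left₀ (by norm_num) (by norm_num) i
        have h3 : (2 : ℝ) ^ i ≤ 4 ^ i * Real.log P := h2.trans (hl4 i)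
        have h4 : e * (1 / 2 : ℝ) ^ (i + 2) * (4 * (4 ^ i * Real.log P)) =
          e * ((1 / 2 : ℝ) ^ i * (4 ^ i * Real.log P)) := by ring
        rw [h4]
        have h5 : (1 : ℝ) = (1 / 2) ^ i * 2 ^ i := by
          rw [← mul_pow]; norm_num
        have h6 : (1 : ℝ) ≤ (1 / 2) ^ i * (4 ^ i * Real.log P) := by
          calc (1 : ℝ) = (1 / 2) ^ i * 2 ^ i := h5
            _ ≤ _ := mul_le_mul_of_nonneg_left h3 (by positivity)
        exact le_mul_of_one_le_right he0.le h6)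
    refine ⟨l, ?_, ?_⟩
    · simp only [hsucc]
      exact hl1
    · simp only [hsucc]
      have h27 : (((pp P (i + 1) ^ 3 : ℕ) : ℝ)) ^ 2 * ((pp P i ^ 3 : ℕ) : ℝ) = x ^ 27 := by
        push_cast
        rw [hsucc]
        ring
      rw [h27]
      have ha : e * (1 - (1 / 2 : ℝ) ^ (i + 1)) + e * (1 / 2) ^ (i + 2) =
          e * (1 - (1 / 2 : ℝ) ^ (i + 1 + 1)) := by ring
      rw [ha] at hl2
      refine hl2.trans (mul_le_mul_of_nonneg_left ?_ hε.le)
      -- exp (-x) ≤ (1/2)^(i+1)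
      have k1 : ((i : ℝ) + 1) ≤ x := by
        have k2 : (i : ℝ) + 1 ≤ 4 ^ i := by
          have : i + 1 ≤ 4 ^ i := Nat.succ_le_of_lt (Nat.lt_pow_self (by norm_num))
          exact_mod_cast this
        exact k2.trans ((hl4 i).trans (hlogp i))
      rw [one_div_pow, Real.exp_neg, ← one_div]
      apply one_div_le_one_div_of_le (by positivity)
      calc (2 : ℝ) ^ (i + 1) ≤ Real.exp 1 ^ (i + 1) :=
            pow_le_pow_left₀ (by norm_num) (by have := Real.exp_one_gt_d9; linarith) _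
        _ = Real.exp ((i : ℝ) + 1) := by
            rw [← Real.exp_nat_mul]; push_cast; ring_nf
        _ ≤ Real.exp x := Real.exp_le_exp.2 k1
  · intro s hs
    rw [Finset.mem_Ico] at hs
    set x : ℝ := ((pp P n : ℕ) : ℝ) with hx
    have hx17 : (17 : ℝ) ≤ x := hp17 n
    have hx0 : 0 < x := hp0 n
    have hsucc : ((pp P (n + 1) : ℕ) : ℝ) = x ^ 4 := by
      rw [pp_succ]; push_cast; rfl
    have hs1 : x ^ 2 ≤ (s : ℝ) := by
      have : ((pp P n ^ 2 : ℕ) : ℝ) ≤ s := by exact_mod_cast hs.1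
      push_cast at this
      exact this
    have hs2 : (s : ℝ) ≤ x ^ 3 := by
      have : (s : ℝ) ≤ ((pp P n ^ 3 : ℕ) : ℝ) := by exact_mod_cast hs.2.le
      push_cast at this
      exact this
    rw [hsucc] at hn1
    obtain ⟨l, hl1, hl2⟩ := hU x (hpX2 n) (Real.log N) ((s : ℝ) / x)
      (e * (1 - (1 / 2 : ℝ) ^ (n + 1)))
      (by linarith [sq_nonneg x]) (by
        have : (x ^ 4) ^ 2 = x ^ 8 := by ring
        linarith)
      (by rw [le_div_iff₀ hx0]; calc x * x = x ^ 2 := by ring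
            _ ≤ _ := hs1)
      (by rw [div_le_iff₀ hx0]; calc (s : ℝ) ≤ x ^ 3 := hs2
            _ = _ := by ring) (hα n).1 (hα n).2
    refine ⟨l, ?_, ?_⟩
    · calc N = Real.exp (Real.log N) := (Real.exp_log hN0).symm
        _ ≤ _ := Real.exp_le_exp.2 hl1
    · rw [hNc]
      have h3 : ((pp P n ^ 3 : ℕ) : ℝ) = x ^ 3 := by push_cast; rfl
      rw [h3]
      exact hl2



end Pool.Agent.Lib.MP_a17b09_nt.MRS
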