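import Mathlib

/-!
MRSG (MP_a17b09_nt): the inequality of Turan and Kubilius, abstract form with general
coefficients: a finite set `B` of about `κ x` points, events `L a` of relative density `1 / m a`,
pairwise independent up to square root errors.
-/

set_option autoImplicit false

open Finset

namespace Pool.Agent.Lib.MP_a17b09_nt.MRS.TkAbs84

open scoped Classical in
/-- the deviation -/
noncomputable def dva {ι W : Type} (m : ι → ℕ) (L : ι → W → Prop) (a : ι) (v : W) : ℝ :=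
  (if L a v then (1 : ℝ) else 0) - 1 / m a

open scoped Classical in
theorem corr {ι W : Type} (B : Finset W) (m : ι → ℕ) (L : ι → W → Prop) (κ x E : ℝ)
    (hE : 0 ≤ E) (hB : |(B.card : ℝ) - κ * x| ≤ E * (√x + 1)) (a b : ι) (ha : 1 ≤ m a)
    (hb : 1 ≤ m b) (hx : ((m a : ℝ) * m b) ≤ x)
    (h1 : |((B.filter (L a)).card : ℝ) - κ * (x / m a)| ≤ E * (√(x / m a) + 1))
    (h2 : |((B.filter (L b)).card : ℝ) - κ * (x / m b)| ≤ E * (√(x / m b) + 1))
    (h12 : |((B.filter (fun v => L a v ∧ L b v)).card : ℝ) - κ * (x / (m a * m b))| ≤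
      E * (√(x / (m a * m b)) + 1)) :
    |∑ v ∈ B, dva m L a v * dva m L b v| ≤ 8 * E * √(x / (m a * m b)) := by
  set p : ℝ := (m a : ℝ) with hp
  set r : ℝ := (m b : ℝ) with hr
  have hp1 : 1 ≤ p := by rw [hp]; exact_mod_cast ha
  have hr1 : 1 ≤ r := by rw [hr]; exact_mod_cast hb
  have hsum : ∑ v ∈ B, dva m L a v * dva m L b v =
      ((B.filter (fun v => L a v ∧ L b v)).card : ℝ) -
      ((B.filter (L a)).card : ℝ) / r - ((B.filter (L b)).card : ℝ) / p +
      (B.card : ℝ) / (p * r) := by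
    have e1 : ∀ v ∈ B, dva m L a v * dva m L b v = (if L a v ∧ L b v then (1 : ℝ) else 0) -
        (if L a v then (1 : ℝ) else 0) / r - (if L b v then (1 : ℝ) else 0) / p +
        1 / (p * r) := by
      intro v _
      unfold dva
      rw [← hp, ← hr]
      by_cases hpv : L a v <;> by_cases hrv : L b v <;> simp only [hpv, hrv, and_true,
        and_false, if_true, if_false, true_and, false_and] <;> field_simp <;> ring
    rw [Finset.sum_congr rfl e1, Finset.sum_add_distrib, Finset.sum_sub_distrib,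
      Finset.sum_sub_distrib, ← Finset.sum_div, ← Finset.sum_div]
    simp only [Finset.sum_ite, Finset.sum_const_zero, add_zero, Finset.sum_const, nsmul_eq_mul,
      mul_one]
    ring
  rw [hsum]
  set s : ℝ := √(x / (p * r)) with hs
  have hpr : 0 < p * r := by positivity
  have hx0 : 0 ≤ x := hpr.le.trans hx
  have hs1 : 1 ≤ s := by
    rw [hs, Real.one_le_sqrt, le_div_iff₀ hpr]
    linarith
  have k1 : √(x / p) / r ≤ s := by
    rw [div_le_iff₀ (by positivity), hs]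
    have h5 : √(x / (p * r)) * r = √(x / (p * r) * r ^ 2) := by
      rw [Real.sqrt_mul (by positivity), Real.sqrt_sq (by positivity)]
    rw [h5]
    apply Real.sqrt_le_sqrt
    have : x / (p * r) * r ^ 2 = x / p * r := by field_simp
    rw [this]
    have h6 : 0 ≤ x / p := by positivity
    nlinarith
  have k2 : √(x / r) / p ≤ s := by
    rw [div_le_iff₀ (by positivity), hs]
    have h5 : √(x / (p * r)) * p = √(x / (p * r) * p ^ 2) := by
      rw [Real.sqrt_mul (by positivity), Real.sqrt_sq (by positivity)]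
    rw [h5]
    apply Real.sqrt_le_sqrt
    have : x / (p * r) * p ^ 2 = x / r * p := by field_simp
    rw [this]
    have h6 : 0 ≤ x / r := by positivity
    nlinarith
  have k3 : √x / (p * r) ≤ s := by
    rw [div_le_iff₀ (by positivity), hs]
    have h5 : √(x / (p * r)) * (p * r) = √(x / (p * r) * (p * r) ^ 2) := by
      rw [Real.sqrt_mul (by positivity), Real.sqrt_sq (by positivity)]
    rw [h5]
    apply Real.sqrt_le_sqrt
    have : x / (p * r) * (p * r) ^ 2 = x * (p * r) := by field_simp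
    rw [this]
    have h6 : 1 ≤ p * r := by nlinarith
    nlinarith
  have l1 : 1 / r ≤ 1 := by rw [div_le_one (by positivity)]; exact hr1
  have l2 : 1 / p ≤ 1 := by rw [div_le_one (by positivity)]; exact hp1
  have l3 : 1 / (p * r) ≤ 1 := by
    rw [div_le_one (by positivity)]
    nlinarith
  set A0 : ℝ := ((B.filter (fun v => L a v ∧ L b v)).card : ℝ)
  set A1 : ℝ := ((B.filter (L a)).card : ℝ)
  set A2 : ℝ := ((B.filter (L b)).card : ℝ)
  set A3 : ℝ := (B.card : ℝ)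
  have hid : A0 - A1 / r - A2 / p + A3 / (p * r) =
      (A0 - κ * (x / (p * r))) - (A1 - κ * (x / p)) / r -
      (A2 - κ * (x / r)) / p + (A3 - κ * x) / (p * r) := by
    field_simp
    ring
  rw [hid]
  have m1 : |(A1 - κ * (x / p)) / r| ≤ 2 * E * s := by
    rw [abs_div, abs_of_pos (show (0 : ℝ) < r by linarith)]
    calc _ ≤ (E * (√(x / p) + 1)) / r := by gcongr
      _ = E * (√(x / p) / r + 1 / r) := by ring
      _ ≤ E * (s + 1) := by gcongr
      _ ≤ 2 * E * s := by nlinarith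
  have m2 : |(A2 - κ * (x / r)) / p| ≤ 2 * E * s := by
    rw [abs_div, abs_of_pos (show (0 : ℝ) < p by linarith)]
    calc _ ≤ (E * (√(x / r) + 1)) / p := by gcongr
      _ = E * (√(x / r) / p + 1 / p) := by ring
      _ ≤ E * (s + 1) := by gcongr
      _ ≤ 2 * E * s := by nlinarith
  have m3 : |(A3 - κ * x) / (p * r)| ≤ 2 * E * s := by
    rw [abs_div, abs_of_pos hpr]
    calc _ ≤ (E * (√x + 1)) / (p * r) := by gcongr
      _ = E * (√x / (p * r) + 1 / (p * r)) := by ring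
      _ ≤ E * (s + 1) := by gcongr
      _ ≤ 2 * E * s := by nlinarith
  have m0 : |A0 - κ * (x / (p * r))| ≤ 2 * E * s := by
    refine h12.trans ?_
    nlinarith
  calc _ ≤ |A0 - κ * (x / (p * r))| + |(A1 - κ * (x / p)) / r| +
        |(A2 - κ * (x / r)) / p| + |(A3 - κ * x) / (p * r)| := by
        refine (abs_add_le _ _).trans (add_le_add ((abs_sub _ _).trans
          (add_le_add (abs_sub _ _) le_rfl)) le_rfl)
    _ ≤ 8 * E * s := by linarith

open scoped Classical in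
theorem diag {ι W : Type} (B : Finset W) (m : ι → ℕ) (L : ι → W → Prop) (κ x E : ℝ)
    (hκ : 0 ≤ κ) (hE : 0 ≤ E) (hB : |(B.card : ℝ) - κ * x| ≤ E * (√x + 1)) (a : ι)
    (ha : 1 ≤ m a) (hx : (m a : ℝ) ≤ x)
    (h1 : |((B.filter (L a)).card : ℝ) - κ * (x / m a)| ≤ E * (√(x / m a) + 1)) :
    ∑ v ∈ B, dva m L a v * dva m L a v ≤ (2 * κ + 4 * E) * (x / m a) := by
  set p : ℝ := (m a : ℝ) with hp
  have hp1 : 1 ≤ p := by rw [hp]; exact_mod_cast ha
  have hx1 : 1 ≤ x := hp1.trans hx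
  have e1 : ∀ v ∈ B, dva m L a v * dva m L a v ≤ (if L a v then (1 : ℝ) else 0) + 1 / p ^ 2 := by
    intro v _
    unfold dva
    rw [← hp]
    have h2 : 0 < 1 / p := by positivity
    have h3 : 1 / p ^ 2 = (1 / p) * (1 / p) := by ring
    rw [h3]
    split_ifs
    · nlinarith
    · nlinarith
  refine (Finset.sum_le_sum e1).trans ?_
  rw [Finset.sum_add_distrib, Finset.sum_const, nsmul_eq_mul, Finset.sum_ite,
    Finset.sum_const_zero, add_zero, Finset.sum_const, nsmul_eq_mul, mul_one]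
  have hxp : 1 ≤ x / p := by rw [le_div_iff₀ (by positivity)]; linarith
  have hsq : ∀ y : ℝ, 1 ≤ y → √y ≤ y := by
    intro y hy
    rw [Real.sqrt_le_left (by linarith)]
    nlinarith
  have f1 : ((B.filter (L a)).card : ℝ) ≤ (κ + 2 * E) * (x / p) := by
    have h4 := (abs_le.1 h1).2
    have h5 := hsq _ hxp
    nlinarith
  have f2 : (B.card : ℝ) * (1 / p ^ 2) ≤ (κ + 2 * E) * (x / p) := by
    have h4 := (abs_le.1 hB).2
    have h5 := hsq _ hx1
    have h6 : (B.card : ℝ) ≤ (κ + 2 * E) * x := by nlinarith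
    calc (B.card : ℝ) * (1 / p ^ 2) ≤ ((κ + 2 * E) * x) * (1 / p ^ 2) := by gcongr
      _ = (κ + 2 * E) * (x / p) * (1 / p) := by field_simp
      _ ≤ (κ + 2 * E) * (x / p) * 1 := by
          gcongr
          rw [div_le_one (by positivity)]
          exact hp1
      _ = _ := by ring
  linarith

open scoped Classical in
/-- **Turan and Kubilius, abstract form** -/
theorem tk_abs {ι W : Type} (B : Finset W) (P : Finset ι) (m : ι → ℕ) (L : ι → W → Prop)
    (κ x E : ℝ) (hκ : 0 ≤ κ) (hE : 0 ≤ E) (hx : 1 ≤ x)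
    (hB : |(B.card : ℝ) - κ * x| ≤ E * (√x + 1))
    (hm : ∀ a ∈ P, 1 ≤ m a ∧ (m a : ℝ) ^ 2 ≤ x)
    (h1 : ∀ a ∈ P, |((B.filter (L a)).card : ℝ) - κ * (x / m a)| ≤ E * (√(x / m a) + 1))
    (h12 : ∀ a ∈ P, ∀ b ∈ P, a ≠ b →
      |((B.filter (fun v => L a v ∧ L b v)).card : ℝ) - κ * (x / (m a * m b))| ≤
        E * (√(x / (m a * m b)) + 1))
    (hP : (P.card : ℝ) ≤ E * √x) (c : ι → ℂ) :
    ∑ v ∈ B, ‖∑ a ∈ P, c a * (dva m L a v : ℂ)‖ ^ 2 ≤
      (2 * κ + 4 * E + 8 * E ^ 2) * x * ∑ a ∈ P, ‖c a‖ ^ 2 / (m a : ℝ) := by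
  have hx0 : 0 ≤ x := by linarith
  -- expand the square
  have hexp : ∑ v ∈ B, ‖∑ a ∈ P, c a * (dva m L a v : ℂ)‖ ^ 2 ≤
      ∑ a ∈ P, ∑ b ∈ P, ‖c a‖ * ‖c b‖ * |∑ v ∈ B, dva m L a v * dva m L b v| := by
    have e1 : ((∑ v ∈ B, ‖∑ a ∈ P, c a * (dva m L a v : ℂ)‖ ^ 2 : ℝ) : ℂ) =
        ∑ a ∈ P, ∑ b ∈ P, c a * (starRingEnd ℂ) (c b) *
          ((∑ v ∈ B, dva m L a v * dva m L b v : ℝ) : ℂ) := by
      push_cast
      have h2 : ∀ v ∈ B, ((‖∑ a ∈ P, c a * (dva m L a v : ℂ)‖ : ℂ)) ^ 2 =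
          ∑ a ∈ P, ∑ b ∈ P, c a * (starRingEnd ℂ) (c b) *
            ((dva m L a v : ℂ) * (dva m L b v : ℂ)) := by
        intro v _
        have h3 : ((‖∑ a ∈ P, c a * (dva m L a v : ℂ)‖ : ℂ)) ^ 2 =
            (∑ a ∈ P, c a * (dva m L a v : ℂ)) *
              (starRingEnd ℂ) (∑ a ∈ P, c a * (dva m L a v : ℂ)) := by
          rw [Complex.mul_conj, Complex.normSq_eq_norm_sq]
          push_cast
          ring
        rw [h3, map_sum, Finset.sum_mul_sum]
        refine Finset.sum_congr rfl fun a _ => Finset.sum_congr rfl fun b _ => ?_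
        rw [map_mul, Complex.conj_ofReal]
        ring
      rw [Finset.sum_congr rfl h2, Finset.sum_comm]
      refine Finset.sum_congr rfl fun a _ => ?_
      rw [Finset.sum_comm]
      refine Finset.sum_congr rfl fun b _ => ?_
      exact (Finset.mul_sum _ _ _).symm
    have h4 : 0 ≤ ∑ v ∈ B, ‖∑ a ∈ P, c a * (dva m L a v : ℂ)‖ ^ 2 :=
      Finset.sum_nonneg fun v _ => by positivity
    have h5 : ∑ v ∈ B, ‖∑ a ∈ P, c a * (dva m L a v : ℂ)‖ ^ 2 =
        ‖((∑ v ∈ B, ‖∑ a ∈ P, c a * (dva m L a v : ℂ)‖ ^ 2 : ℝ) : ℂ)‖ := by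
      rw [Complex.norm_real, Real.norm_of_nonneg h4]
    rw [h5, e1]
    refine (norm_sum_le _ _).trans (Finset.sum_le_sum fun a _ => ?_)
    refine (norm_sum_le _ _).trans (Finset.sum_le_sum fun b _ => ?_)
    rw [norm_mul, norm_mul, Complex.norm_conj, Complex.norm_real, Real.norm_eq_abs]
  -- bound of the terms
  have hterm : ∀ a ∈ P, ∀ b ∈ P, ‖c a‖ * ‖c b‖ * |∑ v ∈ B, dva m L a v * dva m L b v| ≤
      (if a = b then (2 * κ + 4 * E) * x * (‖c a‖ ^ 2 / (m a : ℝ)) else 0) +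
        8 * E * √x * ((‖c a‖ / √(m a : ℝ)) * (‖c b‖ / √(m b : ℝ))) := by
    intro a ha b hb
    obtain ⟨ha1, ha2⟩ := hm a ha
    obtain ⟨hb1, hb2⟩ := hm b hb
    have hpa : (1 : ℝ) ≤ m a := by exact_mod_cast ha1
    have hpb : (1 : ℝ) ≤ m b := by exact_mod_cast hb1
    by_cases hab : a = b
    · subst hab
      rw [if_pos rfl]
      have h2 := diag B m L κ x E hκ hE hB a ha1 (by nlinarith) (h1 a ha)
      rw [abs_of_nonneg (Finset.sum_nonneg fun v _ => mul_self_nonneg _)]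
      have h3 : 0 ≤ 8 * E * √x * ((‖c a‖ / √(m a : ℝ)) * (‖c a‖ / √(m a : ℝ))) := by
        positivity
      have h4 : ‖c a‖ * ‖c a‖ * ∑ v ∈ B, dva m L a v * dva m L a v ≤
          ‖c a‖ * ‖c a‖ * ((2 * κ + 4 * E) * (x / m a)) := by gcongr
      have h5 : ‖c a‖ * ‖c a‖ * ((2 * κ + 4 * E) * (x / m a)) =
          (2 * κ + 4 * E) * x * (‖c a‖ ^ 2 / (m a : ℝ)) := by ring
      linarith
    · rw [if_neg hab, zero_add]
      have hxx : ((m a : ℝ) * m b) ≤ x := by nlinarith [sq_nonneg ((m a : ℝ) - m b)]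
      have h2 := corr B m L κ x E hE hB a b ha1 hb1 hxx (h1 a ha) (h1 b hb) (h12 a ha b hb hab)
      calc _ ≤ ‖c a‖ * ‖c b‖ * (8 * E * √(x / (m a * m b))) := by gcongr
        _ = _ := by
            rw [Real.sqrt_div hx0, Real.sqrt_mul (by positivity)]
            ring
  refine hexp.trans ((Finset.sum_le_sum fun a ha => Finset.sum_le_sum fun b hb =>
    hterm a ha b hb).trans ?_)
  simp only [Finset.sum_add_distrib]
  set S : ℝ := ∑ a ∈ P, ‖c a‖ ^ 2 / (m a : ℝ) with hS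
  have hS0 : 0 ≤ S := Finset.sum_nonneg fun _ _ => by positivity
  have d1 : ∑ a ∈ P, ∑ b ∈ P, (if a = b then (2 * κ + 4 * E) * x * (‖c a‖ ^ 2 / (m a : ℝ)) else 0)
      = (2 * κ + 4 * E) * x * S := by
    rw [hS, Finset.mul_sum]
    refine Finset.sum_congr rfl fun a ha => ?_
    rw [Finset.sum_ite_eq, if_pos ha]
  have d2 : ∑ a ∈ P, ∑ b ∈ P,
      8 * E * √x * ((‖c a‖ / √(m a : ℝ)) * (‖c b‖ / √(m b : ℝ))) =
      8 * E * √x * (∑ a ∈ P, ‖c a‖ / √(m a : ℝ)) ^ 2 := by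
    rw [pow_two, Finset.sum_mul_sum, Finset.mul_sum]
    refine Finset.sum_congr rfl fun a _ => ?_
    rw [Finset.mul_sum]
  have d3 : (∑ a ∈ P, ‖c a‖ / √(m a : ℝ)) ^ 2 ≤ (E * √x) * S := by
    have h2 := sq_sum_le_card_mul_sum_sq (s := P) (f := fun a => ‖c a‖ / √(m a : ℝ))
    have h3 : ∑ a ∈ P, (‖c a‖ / √(m a : ℝ)) ^ 2 = S := by
      rw [hS]
      refine Finset.sum_congr rfl fun a _ => ?_
      rw [div_pow, Real.sq_sqrt (Nat.cast_nonneg _)]
    rw [h3] at h2
    exact h2.trans (mul_le_mul_of_nonneg_right hP hS0)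
  rw [d1, d2]
  have d4 : 8 * E * √x * (∑ a ∈ P, ‖c a‖ / √(m a : ℝ)) ^ 2 ≤ 8 * E ^ 2 * x * S := by
    calc _ ≤ 8 * E * √x * ((E * √x) * S) := by gcongr
      _ = 8 * E ^ 2 * (√x * √x) * S := by ring
      _ = _ := by rw [Real.mul_self_sqrt hx0]
  linarith

end Pool.Agent.Lib.MP_a17b09_nt.MRS.TkAbs84
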