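import Pool.Agent.Lib.MP_a17b09_nt.MRS.LatU84
import Pool.Agent.Lib.MP_a17b09_nt.MRS.TkAbs84

/-!
MRSG (MP_a17b09_nt): the inequality of Turan and Kubilius for a positive form `Q` and sublattices
of prime index `p` on which `Q` is divisible by `p`.
-/

set_option autoImplicit false

open Finset

namespace Pool.Agent.Lib.MP_a17b09_nt.MRS.TkG84

open CH LatG84 LatU84 TkAbs84

theorem mem_im (A : Mat) (n : ℤ) (hn : n ≠ 0) (hA : A.det = n) (v : V) :
    Im A v ↔ n ∣ A.d * v.1 - A.b * v.2 ∧ n ∣ A.a * v.2 - A.c * v.1 := by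
  unfold Mat.det at hA
  constructor
  · rintro ⟨u, rfl⟩
    refine ⟨⟨u.1, ?_⟩, ⟨u.2, ?_⟩⟩
    · unfold Mat.app
      simp only
      linear_combination u.1 * hA
    · unfold Mat.app
      simp only
      linear_combination u.2 * hA
  · rintro ⟨⟨x, hx⟩, ⟨y, hy⟩⟩
    refine ⟨(x, y), ?_⟩
    unfold Mat.app
    apply Prod.ext
    · apply mul_left_cancel₀ hn
      simp only
      linear_combination (-v.1) * hA + A.a * hx + A.b * hy
    · apply mul_left_cancel₀ hn
      simp only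
      linear_combination (-v.2) * hA + A.c * hx + A.d * hy

theorem line_mat (r : ℤ) (hr : Prime r) (α β : ℤ) (h : ¬ (r ∣ α ∧ r ∣ β)) :
    ∃ E : Mat, E.det = r ∧ ∀ u, Im E u ↔ r ∣ α * u.1 + β * u.2 := by
  by_cases hb : r ∣ β
  · have ha : ¬ r ∣ α := fun h1 => h ⟨h1, hb⟩
    refine ⟨⟨r, 0, 0, 1⟩, by unfold Mat.det; ring, fun u => ?_⟩
    constructor
    · rintro ⟨w, rfl⟩
      unfold Mat.app
      simp only
      obtain ⟨t, ht⟩ := hb
      exact ⟨α * w.1 + t * w.2, by rw [ht]; ring⟩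
    · intro h1
      have h2 : r ∣ α * u.1 := by
        have := dvd_sub h1 (hb.mul_right u.2)
        rwa [add_sub_cancel_right] at this
      obtain ⟨t, ht⟩ := (hr.dvd_or_dvd h2).resolve_left ha
      refine ⟨(t, u.2), ?_⟩
      unfold Mat.app
      apply Prod.ext
      · simp only; rw [ht]; ring
      · simp only; ring
  · have hco : IsCoprime r β := (hr.irreducible.coprime_iff_not_dvd).2 hb
    obtain ⟨x, y, hxy⟩ := hco
    -- `y` is the inverse of `β`
    refine ⟨⟨1, 0, -α * y, r⟩, by unfold Mat.det; ring, fun u => ?_⟩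
    have key : r ∣ α * u.1 + β * u.2 ↔ r ∣ u.2 - (-α * y) * u.1 := by
      constructor
      · rintro ⟨t, ht⟩
        refine ⟨y * t + x * u.2, ?_⟩
        linear_combination y * ht - u.2 * hxy
      · rintro ⟨t, ht⟩
        refine ⟨β * t + α * x * u.1, ?_⟩
        linear_combination β * ht - α * u.1 * hxy
    rw [key]
    constructor
    · rintro ⟨w, rfl⟩
      unfold Mat.app
      simp only
      exact ⟨w.2, by ring⟩
    · rintro ⟨t, ht⟩
      refine ⟨(u.1, t), ?_⟩
      unfold Mat.app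
      apply Prod.ext
      · simp only; ring
      · simp only; linear_combination ht

/-- two sublattices of different prime index -/
theorem inter (A B : Mat) (p r : ℤ) (hr : Prime r)
    (hpr : ¬ r ∣ p) (hA : A.det = p) (hB : B.det = r) :
    ∃ C : Mat, C.det = p * r ∧ ∀ v, Im C v ↔ Im A v ∧ Im B v := by
  have hr0 := hr.ne_zero
  set a1 : ℤ := B.d * A.a - B.b * A.c with ha1
  set b1 : ℤ := B.d * A.b - B.b * A.d with hb1
  set a2 : ℤ := B.a * A.c - B.c * A.a with ha2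
  set b2 : ℤ := B.a * A.d - B.c * A.b with hb2
  have hdet : a1 * b2 - a2 * b1 = r * p := by
    rw [ha1, hb1, ha2, hb2, ← hA, ← hB]
    unfold Mat.det
    ring
  have hmemB : ∀ u : V, Im B (A.app u) ↔ r ∣ a1 * u.1 + b1 * u.2 ∧ r ∣ a2 * u.1 + b2 * u.2 := by
    intro u
    rw [mem_im B r hr0 hB]
    have e1 : B.d * (A.app u).1 - B.b * (A.app u).2 = a1 * u.1 + b1 * u.2 := by
      rw [ha1, hb1]; unfold Mat.app; ring
    have e2 : B.a * (A.app u).2 - B.c * (A.app u).1 = a2 * u.1 + b2 * u.2 := by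
      rw [ha2, hb2]; unfold Mat.app; ring
    rw [e1, e2]
  -- one row is enough
  obtain ⟨α, β, hnz, hiff⟩ : ∃ α β : ℤ, ¬ (r ∣ α ∧ r ∣ β) ∧
      ∀ u : V, Im B (A.app u) ↔ r ∣ α * u.1 + β * u.2 := by
    by_cases h1 : r ∣ a1 ∧ r ∣ b1
    · have h2 : ¬ (r ∣ a2 ∧ r ∣ b2) := by
        rintro ⟨h3, h4⟩
        obtain ⟨x1, hx1⟩ := h1.1
        obtain ⟨y1, hy1⟩ := h1.2
        obtain ⟨x2, hx2⟩ := h3
        obtain ⟨y2, hy2⟩ := h4
        apply hpr
        refine ⟨x1 * y2 - x2 * y1, ?_⟩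
        apply mul_left_cancel₀ hr0
        rw [← hdet, hx1, hx2, hy1, hy2]
        ring
      refine ⟨a2, b2, h2, fun u => ?_⟩
      rw [hmemB]
      refine ⟨fun h => h.2, fun h => ⟨?_, h⟩⟩
      exact dvd_add (h1.1.mul_right _) (h1.2.mul_right _)
    · refine ⟨a1, b1, h1, fun u => ?_⟩
      rw [hmemB]
      refine ⟨fun h => h.1, fun h => ⟨h, ?_⟩⟩
      have h2 : r ∣ a1 * (a2 * u.1 + b2 * u.2) := by
        have e : a1 * (a2 * u.1 + b2 * u.2) = a2 * (a1 * u.1 + b1 * u.2) + r * (p * u.2) := by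
          linear_combination u.2 * hdet
        rw [e]
        exact dvd_add (h.mul_left _) (Dvd.intro _ rfl)
      have h3 : r ∣ b1 * (a2 * u.1 + b2 * u.2) := by
        have e : b1 * (a2 * u.1 + b2 * u.2) = b2 * (a1 * u.1 + b1 * u.2) - r * (p * u.1) := by
          linear_combination (-u.1) * hdet
        rw [e]
        exact dvd_sub (h.mul_left _) (Dvd.intro _ rfl)
      by_cases h4 : r ∣ a1
      · have h5 : ¬ r ∣ b1 := fun h6 => h1 ⟨h4, h6⟩
        exact (hr.dvd_or_dvd h3).resolve_left h5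
      · exact (hr.dvd_or_dvd h2).resolve_left h4
  obtain ⟨E, hE, hEu⟩ := line_mat r hr α β hnz
  refine ⟨⟨A.a * E.a + A.b * E.c, A.a * E.b + A.b * E.d, A.c * E.a + A.d * E.c,
    A.c * E.b + A.d * E.d⟩, ?_, fun v => ?_⟩
  · rw [← hA, ← hE]
    unfold Mat.det
    ring
  · have hcomp : ∀ w : V, (⟨A.a * E.a + A.b * E.c, A.a * E.b + A.b * E.d,
        A.c * E.a + A.d * E.c, A.c * E.b + A.d * E.d⟩ : Mat).app w = A.app (E.app w) := by
      intro w
      unfold Mat.app
      apply Prod.ext <;> simp only <;> ring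
    constructor
    · rintro ⟨w, rfl⟩
      rw [hcomp]
      refine ⟨⟨_, rfl⟩, ?_⟩
      rw [hiff, ← hEu]
      exact ⟨w, rfl⟩
    · rintro ⟨⟨u, rfl⟩, h⟩
      rw [hiff, ← hEu] at h
      obtain ⟨w, rfl⟩ := h
      exact ⟨w, (hcomp w).symm⟩

/-- two different sublattices of the same prime index meet in the multiples of `p` -/
theorem inter_same (A B : Mat) (p : ℤ) (hp : Prime p) (hA : A.det = p) (hB : B.det = p)
    (hne : ∃ u, ¬ Im B (A.app u)) (v : V) :
    Im ⟨p, 0, 0, p⟩ v ↔ Im A v ∧ Im B v := by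
  have hp0 := hp.ne_zero
  constructor
  · rintro ⟨w, rfl⟩
    constructor
    · rw [mem_im A p hp0 hA]
      unfold Mat.app
      simp only
      exact ⟨⟨A.d * w.1 - A.b * w.2, by ring⟩, ⟨A.a * w.2 - A.c * w.1, by ring⟩⟩
    · rw [mem_im B p hp0 hB]
      unfold Mat.app
      simp only
      exact ⟨⟨B.d * w.1 - B.b * w.2, by ring⟩, ⟨B.a * w.2 - B.c * w.1, by ring⟩⟩
  · rintro ⟨⟨u0, hu0⟩, hvB⟩
    by_contra hcon
    have hv : ¬ (p ∣ v.1 ∧ p ∣ v.2) := by
      rintro ⟨⟨x, hx⟩, ⟨y, hy⟩⟩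
      apply hcon
      refine ⟨(x, y), ?_⟩
      unfold Mat.app
      apply Prod.ext
      · simp only; rw [hx]; ring
      · simp only; rw [hy]; ring
    obtain ⟨u, hu⟩ := hne
    apply hu
    rw [mem_im B p hp0 hB] at hvB ⊢
    obtain ⟨k1, k2⟩ := hvB
    set w : V := A.app u with hw
    have hwd : p ∣ v.1 * w.2 - v.2 * w.1 := by
      refine ⟨u0.1 * u.2 - u0.2 * u.1, ?_⟩
      rw [hu0, hw, ← hA]
      unfold Mat.app Mat.det
      simp only
      ring
    obtain ⟨t, ht⟩ := hwd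
    obtain ⟨x1, hx1⟩ := k1
    obtain ⟨x2, hx2⟩ := k2
    by_cases h1 : p ∣ v.1
    · have h2 : ¬ p ∣ v.2 := fun h => hv ⟨h1, h⟩
      constructor
      · have h3 : p ∣ v.2 * (B.d * w.1 - B.b * w.2) :=
          ⟨w.2 * x1 - B.d * t, by linear_combination w.2 * hx1 - B.d * ht⟩
        exact (hp.dvd_or_dvd h3).resolve_left h2
      · have h3 : p ∣ v.2 * (B.a * w.2 - B.c * w.1) :=
          ⟨w.2 * x2 + B.c * t, by linear_combination w.2 * hx2 + B.c * ht⟩
        exact (hp.dvd_or_dvd h3).resolve_left h2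
    · constructor
      · have h3 : p ∣ v.1 * (B.d * w.1 - B.b * w.2) :=
          ⟨w.1 * x1 - B.b * t, by linear_combination w.1 * hx1 - B.b * ht⟩
        exact (hp.dvd_or_dvd h3).resolve_left h1
      · have h3 : p ∣ v.1 * (B.a * w.2 - B.c * w.1) :=
          ⟨w.1 * x2 + B.a * t, by linear_combination w.1 * hx2 + B.a * ht⟩
        exact (hp.dvd_or_dvd h3).resolve_left h1

open scoped Classical in
/-- **Turan and Kubilius for a positive form**, general coefficients, absolute constant -/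
theorem tkG {ι : Type} (Q : Form) (hQ : Q.Pos) (x : ℕ) (hx : 1 ≤ x) (P : Finset ι)
    (p : ι → ℕ) (A : ι → Mat) (hp : ∀ a ∈ P, (p a).Prime) (hA : ∀ a ∈ P, (A a).det = p a)
    (hd : ∀ a ∈ P, ∀ u, (p a : ℤ) ∣ Q.q ((A a).app u)) (hN : ∀ a ∈ P, p a ^ 2 ≤ x)
    (hne : ∀ a ∈ P, ∀ b ∈ P, a ≠ b → p a = p b → ∃ u, ¬ Im (A b) ((A a).app u))
    (hfib : ∀ n : ℕ, (P.filter (fun a => p a = n)).card ≤ 2) (c : ι → ℂ) :
    ∑ v ∈ Q.ball x, ‖∑ a ∈ P, c a * ((if Im (A a) v then 1 else 0) - 1 / (p a : ℂ))‖ ^ 2 ≤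
      4000 * x * ∑ a ∈ P, ‖c a‖ ^ 2 / (p a : ℝ) := by
  have hk := kap_le Q hQ
  have hk0 := kap_pos hQ
  have hx' : (1 : ℝ) ≤ x := by exact_mod_cast hx
  have hsx : 0 ≤ √(x : ℝ) := Real.sqrt_nonneg _
  have h := tk_abs (Q.ball x) P p (fun a v => Im (A a) v) (kap Q) x 21 hk0.le (by norm_num) hx'
    ?_ ?_ ?_ ?_ ?_ c
  · have he : ∀ v, ∑ a ∈ P, c a * ((if Im (A a) v then 1 else 0) - 1 / (p a : ℂ)) =
        ∑ a ∈ P, c a * (dva p (fun a v => Im (A a) v) a v : ℂ) := by
      intro v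
      refine Finset.sum_congr rfl fun a _ => ?_
      unfold dva
      by_cases hv : Im (A a) v
      · rw [if_pos hv, if_pos hv]
        push_cast
        rfl
      · rw [if_neg hv, if_neg hv]
        push_cast
        rfl
    simp only [he]
    refine h.trans ?_
    have hS : 0 ≤ ∑ a ∈ P, ‖c a‖ ^ 2 / (p a : ℝ) := Finset.sum_nonneg fun _ _ => by positivity
    have h2 : 0 ≤ (x : ℝ) * ∑ a ∈ P, ‖c a‖ ^ 2 / (p a : ℝ) := by positivity
    nlinarith
  · exact (latU Q hQ x).trans (by nlinarith)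
  · intro a ha
    exact ⟨(hp a ha).one_lt.le, by exact_mod_cast hN a ha⟩
  · intro a ha
    exact sub_bd Q hQ (A a) (p a) (hp a ha).pos (hA a ha) (hd a ha) _ x
      (fun v => by rw [Finset.mem_filter, Form.mem_ball hQ])
  · intro a ha b hb hab
    by_cases hpp : p a = p b
    · have h1 := sub_bd Q hQ ⟨p a, 0, 0, p a⟩ (p a * p a) (Nat.mul_pos (hp a ha).pos (hp a ha).pos)
        (by unfold Mat.det; push_cast; ring) (fun u => ?_)
        ((Q.ball x).filter (fun v => Im (A a) v ∧ Im (A b) v)) x (fun v => ?_)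
      · rw [← hpp]
        push_cast at h1
        exact h1
      · refine ⟨Q.q u, ?_⟩
        unfold Form.q Mat.app
        push_cast
        ring
      · rw [Finset.mem_filter, Form.mem_ball hQ]
        have h2 := inter_same (A a) (A b) (p a) (Nat.prime_iff_prime_int.1 (hp a ha)) (hA a ha)
          (by rw [hA b hb, hpp]) (hne a ha b hb hab hpp) v
        rw [h2]
    · have hcop : ¬ ((p b : ℤ) ∣ (p a : ℤ)) := by
        rw [Int.natCast_dvd_natCast, (Nat.prime_dvd_prime_iff_eq (hp b hb) (hp a ha))]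
        exact fun h => hpp h.symm
      obtain ⟨C, hC, hCv⟩ := inter (A a) (A b) (p a) (p b) (Nat.prime_iff_prime_int.1 (hp b hb))
        hcop (hA a ha) (hA b hb)
      have h1 := sub_bd Q hQ C (p a * p b) (Nat.mul_pos (hp a ha).pos (hp b hb).pos)
        (by rw [hC]; push_cast; ring) (fun u => ?_)
        ((Q.ball x).filter (fun v => Im (A a) v ∧ Im (A b) v)) x (fun v => ?_)
      · push_cast at h1
        exact h1
      · obtain ⟨⟨w1, hw1⟩, ⟨w2, hw2⟩⟩ := (hCv (C.app u)).1 ⟨u, rfl⟩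
        have d1 : (p a : ℤ) ∣ Q.q (C.app u) := by rw [hw1]; exact hd a ha w1
        have d2 : (p b : ℤ) ∣ Q.q (C.app u) := by rw [hw2]; exact hd b hb w2
        have hco : IsCoprime (p a : ℤ) (p b : ℤ) := by
          rw [Nat.isCoprime_iff_coprime]
          exact (Nat.coprime_primes (hp a ha) (hp b hb)).2 hpp
        push_cast
        exact hco.mul_dvd d1 d2
      · rw [Finset.mem_filter, Form.mem_ball hQ, hCv]
  · -- the number of indices
    have h1 : P.card ≤ 2 * (P.image p).card := by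
      have := Finset.card_le_mul_card_image (f := p) P 2 (fun n _ => hfib n)
      exact this
    have h2 : (P.image p) ⊆ Finset.Icc 1 (Nat.sqrt x) := by
      intro n hn
      rw [Finset.mem_image] at hn
      obtain ⟨a, ha, rfl⟩ := hn
      rw [Finset.mem_Icc]
      refine ⟨(hp a ha).one_lt.le, ?_⟩
      rw [Nat.le_sqrt']
      exact hN a ha
    have h3 : (P.image p).card ≤ Nat.sqrt x := by
      have := Finset.card_le_card h2
      rwa [Nat.card_Icc, Nat.add_sub_cancel] at this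
    have h4 : (Nat.sqrt x : ℝ) ≤ √(x : ℝ) := by
      apply Real.le_sqrt_of_sq_le
      exact_mod_cast Nat.sqrt_le' x
    have h5 : (P.card : ℝ) ≤ 2 * (Nat.sqrt x : ℝ) := by
      have : P.card ≤ 2 * Nat.sqrt x := h1.trans (Nat.mul_le_mul_left 2 h3)
      exact_mod_cast this
    linarith

end Pool.Agent.Lib.MP_a17b09_nt.MRS.TkG84
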