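import Mathlib

/-!
MRS (MP_a17b09_nt): Halasz - Montgomery duality, and the selection of boundedly many frequencies
(section 3 of MRS_lead).  Everything here is abstract.
-/

set_option autoImplicit false

open Finset

namespace Pool.Agent.Lib.MP_a17b09_nt.MRS

/-- **Halasz - Montgomery duality** with nonnegative weights `ν`. -/
theorem hm_96 {ι κ : Type} (S : Finset ι) (J : Finset κ) (ν : ι → ℝ) (hν : ∀ v ∈ S, 0 ≤ ν v)
    (φ : κ → ι → ℂ) (a : ι → ℂ) (G : ℝ) (hG0 : 0 ≤ G)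
    (hG : ∀ j ∈ J, ∑ k ∈ J, ‖∑ v ∈ S, (ν v : ℂ) * (φ j v * (starRingEnd ℂ) (φ k v))‖ ≤ G) :
    ∑ j ∈ J, ‖∑ v ∈ S, (ν v : ℂ) * a v * φ j v‖ ^ 2 ≤ (∑ v ∈ S, ν v * ‖a v‖ ^ 2) * G := by
  set T : κ → ℂ := fun j => ∑ v ∈ S, (ν v : ℂ) * a v * φ j v with hT
  set X : ℝ := ∑ j ∈ J, ‖T j‖ ^ 2 with hX
  set A : ℝ := ∑ v ∈ S, ν v * ‖a v‖ ^ 2 with hA
  set F : ι → ℂ := fun v => ∑ j ∈ J, (starRingEnd ℂ) (T j) * φ j v with hF
  have hX0 : 0 ≤ X := Finset.sum_nonneg fun j _ => by positivity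
  have hA0 : 0 ≤ A := Finset.sum_nonneg fun v hv => mul_nonneg (hν v hv) (by positivity)
  -- the first identity
  have h1 : (X : ℂ) = ∑ v ∈ S, (ν v : ℂ) * a v * F v := by
    rw [hX, hF]
    push_cast
    simp only [Finset.mul_sum]
    rw [Finset.sum_comm]
    refine Finset.sum_congr rfl fun j _ => ?_
    have h2 : ((‖T j‖ : ℂ)) ^ 2 = (starRingEnd ℂ) (T j) * T j := by
      rw [mul_comm, Complex.mul_conj, Complex.normSq_eq_norm_sq]
      push_cast
      ring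
    rw [h2]
    nth_rewrite 2 [hT]
    rw [Finset.mul_sum]
    refine Finset.sum_congr rfl fun v _ => ?_
    ring
  have h2 : X ≤ ∑ v ∈ S, (√(ν v) * ‖a v‖) * (√(ν v) * ‖F v‖) := by
    have h3 : X = ‖(X : ℂ)‖ := by
      rw [Complex.norm_real, Real.norm_of_nonneg hX0]
    rw [h3, h1]
    refine (norm_sum_le _ _).trans (Finset.sum_le_sum fun v hv => ?_)
    rw [norm_mul, norm_mul, Complex.norm_real, Real.norm_of_nonneg (hν v hv)]
    have h4 := Real.mul_self_sqrt (hν v hv)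
    calc ν v * ‖a v‖ * ‖F v‖ = (√(ν v) * √(ν v)) * ‖a v‖ * ‖F v‖ := by rw [h4]
      _ ≤ _ := le_of_eq (by ring)
  -- the second moment of `F`
  have h3 : ∑ v ∈ S, ν v * ‖F v‖ ^ 2 ≤ X * G := by
    have h4 : ((∑ v ∈ S, ν v * ‖F v‖ ^ 2 : ℝ) : ℂ) = ∑ j ∈ J, ∑ k ∈ J,
        (starRingEnd ℂ) (T j) * T k *
          ∑ v ∈ S, (ν v : ℂ) * (φ j v * (starRingEnd ℂ) (φ k v)) := by
      push_cast
      have h5 : ∀ v ∈ S, (ν v : ℂ) * (‖F v‖ : ℂ) ^ 2 = ∑ j ∈ J, ∑ k ∈ J,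
          (starRingEnd ℂ) (T j) * T k * ((ν v : ℂ) * (φ j v * (starRingEnd ℂ) (φ k v))) := by
        intro v _
        have h6 : ((‖F v‖ : ℂ)) ^ 2 = F v * (starRingEnd ℂ) (F v) := by
          rw [Complex.mul_conj, Complex.normSq_eq_norm_sq]
          push_cast
          ring
        rw [h6]
        have h7 : (starRingEnd ℂ) (F v) = ∑ k ∈ J, T k * (starRingEnd ℂ) (φ k v) := by
          rw [hF, map_sum]
          refine Finset.sum_congr rfl fun k _ => ?_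
          rw [map_mul, Complex.conj_conj]
        rw [h7, hF, Finset.sum_mul_sum, Finset.mul_sum]
        refine Finset.sum_congr rfl fun j _ => ?_
        rw [Finset.mul_sum]
        refine Finset.sum_congr rfl fun k _ => ?_
        ring
      rw [Finset.sum_congr rfl h5, Finset.sum_comm]
      refine Finset.sum_congr rfl fun j _ => ?_
      rw [Finset.sum_comm]
      refine Finset.sum_congr rfl fun k _ => ?_
      exact (Finset.mul_sum _ _ _).symm
    have h5 : 0 ≤ ∑ v ∈ S, ν v * ‖F v‖ ^ 2 :=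
      Finset.sum_nonneg fun v hv => mul_nonneg (hν v hv) (by positivity)
    have h6 : ∑ v ∈ S, ν v * ‖F v‖ ^ 2 = ‖((∑ v ∈ S, ν v * ‖F v‖ ^ 2 : ℝ) : ℂ)‖ := by
      rw [Complex.norm_real, Real.norm_of_nonneg h5]
    rw [h6, h4]
    set g : κ → κ → ℝ := fun j k => ‖∑ v ∈ S, (ν v : ℂ) * (φ j v * (starRingEnd ℂ) (φ k v))‖
      with hg
    have hsymm : ∀ j k, g j k = g k j := by
      intro j k
      rw [hg]
      simp only
      rw [← Complex.norm_conj, map_sum]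
      congr 1
      refine Finset.sum_congr rfl fun v _ => ?_
      rw [map_mul, map_mul, Complex.conj_ofReal, Complex.conj_conj]
      ring
    calc ‖∑ j ∈ J, ∑ k ∈ J, (starRingEnd ℂ) (T j) * T k *
          ∑ v ∈ S, (ν v : ℂ) * (φ j v * (starRingEnd ℂ) (φ k v))‖
        ≤ ∑ j ∈ J, ∑ k ∈ J, ‖T j‖ * ‖T k‖ * g j k := by
          refine (norm_sum_le _ _).trans (Finset.sum_le_sum fun j _ => ?_)
          refine (norm_sum_le _ _).trans (Finset.sum_le_sum fun k _ => ?_)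
          rw [norm_mul, norm_mul, Complex.norm_conj]
      _ ≤ ∑ j ∈ J, ∑ k ∈ J, ((‖T j‖ ^ 2 + ‖T k‖ ^ 2) / 2) * g j k := by
          refine Finset.sum_le_sum fun j _ => Finset.sum_le_sum fun k _ => ?_
          have hg0 : 0 ≤ g j k := norm_nonneg _
          gcongr
          nlinarith [sq_nonneg (‖T j‖ - ‖T k‖)]
      _ = ∑ j ∈ J, ‖T j‖ ^ 2 * ∑ k ∈ J, g j k := by
          have e1 : ∑ j ∈ J, ∑ k ∈ J, ((‖T j‖ ^ 2 + ‖T k‖ ^ 2) / 2) * g j k =
              1 / 2 * ∑ j ∈ J, ∑ k ∈ J, ‖T j‖ ^ 2 * g j k +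
              1 / 2 * ∑ j ∈ J, ∑ k ∈ J, ‖T k‖ ^ 2 * g j k := by
            rw [← mul_add, ← Finset.sum_add_distrib, Finset.mul_sum]
            refine Finset.sum_congr rfl fun j _ => ?_
            rw [← Finset.sum_add_distrib, Finset.mul_sum]
            refine Finset.sum_congr rfl fun k _ => ?_
            ring
          have e2 : ∑ j ∈ J, ∑ k ∈ J, ‖T k‖ ^ 2 * g j k =
              ∑ j ∈ J, ∑ k ∈ J, ‖T j‖ ^ 2 * g j k := by
            rw [Finset.sum_comm]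
            refine Finset.sum_congr rfl fun j _ => Finset.sum_congr rfl fun k _ => ?_
            rw [hsymm]
          rw [e1, e2]
          simp only [Finset.mul_sum]
          rw [← Finset.sum_add_distrib]
          refine Finset.sum_congr rfl fun j _ => ?_
          rw [← Finset.sum_add_distrib]
          refine Finset.sum_congr rfl fun k _ => ?_
          ring
      _ ≤ ∑ j ∈ J, ‖T j‖ ^ 2 * G := by
          refine Finset.sum_le_sum fun j hj => ?_
          exact mul_le_mul_of_nonneg_left (hG j hj) (by positivity)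
      _ = X * G := by rw [← Finset.sum_mul]
  -- Cauchy - Schwarz
  have h4 := Finset.sum_mul_sq_le_sq_mul_sq S (fun v => √(ν v) * ‖a v‖) (fun v => √(ν v) * ‖F v‖)
  have h5 : ∑ v ∈ S, (√(ν v) * ‖a v‖) ^ 2 = A := by
    refine Finset.sum_congr rfl fun v hv => ?_
    rw [mul_pow, Real.sq_sqrt (hν v hv)]
  have h6 : ∑ v ∈ S, (√(ν v) * ‖F v‖) ^ 2 = ∑ v ∈ S, ν v * ‖F v‖ ^ 2 := by
    refine Finset.sum_congr rfl fun v hv => ?_
    rw [mul_pow, Real.sq_sqrt (hν v hv)]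
  rw [h5, h6] at h4
  have h7 : X ^ 2 ≤ A * (X * G) := by
    refine (pow_le_pow_left₀ hX0 h2 2).trans (h4.trans ?_)
    exact mul_le_mul_of_nonneg_left h3 hA0
  rcases hX0.lt_or_eq with h8 | h8
  · have h9 : X * X ≤ X * (A * G) := by nlinarith
    exact le_of_mul_le_mul_left h9 h8
  · rw [← h8]
    exact mul_nonneg hA0 hG0

/-- the same for coefficients supported on a subset on which the majorant `ν` is at least `1` -/
theorem hm_maj96 {ι κ : Type} (S R : Finset ι) (hR : R ⊆ S) (J : Finset κ) (ν : ι → ℝ)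
    (hν : ∀ v ∈ S, 0 ≤ ν v) (hν1 : ∀ v ∈ R, 1 ≤ ν v) (φ : κ → ι → ℂ) (a : ι → ℂ) (G : ℝ)
    (hG0 : 0 ≤ G)
    (hG : ∀ j ∈ J, ∑ k ∈ J, ‖∑ v ∈ S, (ν v : ℂ) * (φ j v * (starRingEnd ℂ) (φ k v))‖ ≤ G) :
    ∑ j ∈ J, ‖∑ v ∈ R, a v * φ j v‖ ^ 2 ≤ (∑ v ∈ R, ‖a v‖ ^ 2) * G := by
  classical
  have h := hm_96 S J ν hν φ (fun v => if v ∈ R then a v / (ν v : ℂ) else 0) G hG0 hG
  have h1 : ∀ j, ∑ v ∈ S, (ν v : ℂ) * (if v ∈ R then a v / (ν v : ℂ) else 0) * φ j v =
      ∑ v ∈ R, a v * φ j v := by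
    intro j
    rw [← Finset.sum_subset hR]
    · refine Finset.sum_congr rfl fun v hv => ?_
      have : (ν v : ℂ) ≠ 0 := by
        have := hν1 v hv
        exact_mod_cast (by linarith : (0 : ℝ) < ν v).ne'
      rw [if_pos hv]
      field_simp
    · intro v _ hv
      rw [if_neg hv]
      ring
  simp only [h1] at h
  refine h.trans (mul_le_mul_of_nonneg_right ?_ hG0)
  have h2 : ∑ v ∈ S, ν v * ‖(if v ∈ R then a v / (ν v : ℂ) else 0)‖ ^ 2 =
      ∑ v ∈ R, ν v * ‖a v / (ν v : ℂ)‖ ^ 2 := by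
    rw [← Finset.sum_subset hR]
    · refine Finset.sum_congr rfl fun v hv => ?_
      rw [if_pos hv]
    · intro v _ hv
      rw [if_neg hv]
      simp
  rw [h2]
  refine Finset.sum_le_sum fun v hv => ?_
  have h3 := hν1 v hv
  have h4 : (0 : ℝ) < ν v := by linarith
  rw [norm_div, Complex.norm_real, Real.norm_of_nonneg h4.le, div_pow]
  have h5 : ν v * (‖a v‖ ^ 2 / ν v ^ 2) = ‖a v‖ ^ 2 / ν v := by
    field_simp
  rw [h5]
  exact div_le_self (by positivity) h3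

/-! ### Boundedly many frequencies -/

/-- (3c) Let `W` be a set of windows with weights `w u` (`= 1 / u`), `Q_u(j)` and `R_u(j)` the two
factors.  All frequencies of `U` outside a set of bounded cardinality contribute little. -/
theorem split_96 {κ : Type} (U : Finset κ) (W : Finset ℕ) (w : ℕ → ℝ) (hw : ∀ u ∈ W, 0 < w u)
    (Qf Rf : ℕ → κ → ℂ) (C1 C2 C3 Lw η : ℝ) (hη : 0 < η) (hC3 : 0 ≤ C3) (hC2 : 0 ≤ C2)
    (hC1 : 0 ≤ C1)
    (hL : ∑ u ∈ W, w u ≤ Lw)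
    (h3a : ∀ u ∈ W, ∑ j ∈ U, ‖Rf u j‖ ^ 2 ≤ C1)
    (h3b : ∀ u ∈ W, ∑ j ∈ U, ‖Qf u j‖ ^ 2 ≤ C2 * w u ^ 2)
    (h3c : ∀ u ∈ W, ∀ j ∈ U, ‖Qf u j‖ ≤ C3 * w u) :
    ∃ U' ⊆ U, (U'.card : ℝ) * η ^ 3 ≤ Lw * C2 ∧
      ∑ j ∈ U, ‖∑ u ∈ W, Qf u j * Rf u j‖ ^ 2 ≤
        2 * (η ^ 2 * Lw ^ 2 * C1) + 2 * (C3 ^ 2 * η * Lw * C1) +
          ∑ j ∈ U', ‖∑ u ∈ W, Qf u j * Rf u j‖ ^ 2 := by
  classical
  -- the large windows of `j`
  set B : κ → Finset ℕ := fun j => W.filter (fun u => η * w u < ‖Qf u j‖) with hB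
  set U' : Finset κ := U.filter (fun j => η < ∑ u ∈ B j, w u) with hU'
  have hBW : ∀ j, B j ⊆ W := fun j => Finset.filter_subset _ _
  have hLw0 : 0 ≤ Lw := (Finset.sum_nonneg fun u hu => (hw u hu).le).trans hL
  refine ⟨U', Finset.filter_subset _ _, ?_, ?_⟩
  · -- the cardinality
    have h1 : ∀ j ∈ U', η ^ 3 ≤ ∑ u ∈ W, ‖Qf u j‖ ^ 2 / w u := by
      intro j hj
      rw [hU', Finset.mem_filter] at hj
      calc η ^ 3 = η ^ 2 * η := by ring
        _ ≤ η ^ 2 * ∑ u ∈ B j, w u := by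
            have := hj.2.le
            gcongr
        _ = ∑ u ∈ B j, (η * w u) ^ 2 / w u := by
            rw [Finset.mul_sum]
            refine Finset.sum_congr rfl fun u hu => ?_
            have := (hw u (hBW j hu)).ne'
            field_simp
        _ ≤ ∑ u ∈ B j, ‖Qf u j‖ ^ 2 / w u := by
            refine Finset.sum_le_sum fun u hu => ?_
            have h2 := hw u (hBW j hu)
            rw [hB, Finset.mem_filter] at hu
            have h3 := hu.2.le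
            gcongr
        _ ≤ ∑ u ∈ W, ‖Qf u j‖ ^ 2 / w u :=
            Finset.sum_le_sum_of_subset_of_nonneg (hBW j) fun u hu _ =>
              div_nonneg (by positivity) (hw u hu).le
    calc (U'.card : ℝ) * η ^ 3 = ∑ j ∈ U', η ^ 3 := by rw [Finset.sum_const, nsmul_eq_mul]
      _ ≤ ∑ j ∈ U', ∑ u ∈ W, ‖Qf u j‖ ^ 2 / w u := Finset.sum_le_sum h1
      _ ≤ ∑ j ∈ U, ∑ u ∈ W, ‖Qf u j‖ ^ 2 / w u :=
          Finset.sum_le_sum_of_subset_of_nonneg (Finset.filter_subset _ _) fun j _ _ =>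
            Finset.sum_nonneg fun u hu => div_nonneg (by positivity) (hw u hu).le
      _ = ∑ u ∈ W, (∑ j ∈ U, ‖Qf u j‖ ^ 2) / w u := by
          rw [Finset.sum_comm]
          refine Finset.sum_congr rfl fun u _ => ?_
          rw [Finset.sum_div]
      _ ≤ ∑ u ∈ W, C2 * w u := by
          refine Finset.sum_le_sum fun u hu => ?_
          have h2 := hw u hu
          rw [div_le_iff₀ h2]
          refine (h3b u hu).trans (le_of_eq (by ring))
      _ = (∑ u ∈ W, w u) * C2 := by rw [← Finset.mul_sum, mul_comm]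
      _ ≤ Lw * C2 := by gcongr
  · -- the other frequencies
    set Z : κ → ℝ := fun j => ∑ u ∈ W, w u * ‖Rf u j‖ ^ 2 with hZ
    have hZ0 : ∀ j, 0 ≤ Z j := fun j => Finset.sum_nonneg fun u hu =>
      mul_nonneg (hw u hu).le (by positivity)
    have hcs : ∀ (A : Finset ℕ), A ⊆ W → ∀ j, (∑ u ∈ A, w u * ‖Rf u j‖) ^ 2 ≤
        (∑ u ∈ A, w u) * Z j := by
      intro A hA j
      have h1 := Finset.sum_mul_sq_le_sq_mul_sq A (fun u => √(w u)) (fun u => √(w u) * ‖Rf u j‖)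
      have h2 : ∑ u ∈ A, √(w u) * (√(w u) * ‖Rf u j‖) = ∑ u ∈ A, w u * ‖Rf u j‖ := by
        refine Finset.sum_congr rfl fun u hu => ?_
        rw [← mul_assoc, Real.mul_self_sqrt (hw u (hA hu)).le]
      have h3 : ∑ u ∈ A, √(w u) ^ 2 = ∑ u ∈ A, w u :=
        Finset.sum_congr rfl fun u hu => Real.sq_sqrt (hw u (hA hu)).le
      have h4 : ∑ u ∈ A, (√(w u) * ‖Rf u j‖) ^ 2 ≤ Z j := by
        refine le_trans (le_of_eq (Finset.sum_congr rfl fun u hu => ?_))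
          (Finset.sum_le_sum_of_subset_of_nonneg hA fun u hu _ =>
            mul_nonneg (hw u hu).le (by positivity))
        rw [mul_pow, Real.sq_sqrt (hw u (hA hu)).le]
      rw [h2, h3] at h1
      refine h1.trans (mul_le_mul_of_nonneg_left h4 ?_)
      exact Finset.sum_nonneg fun u hu => (hw u (hA hu)).le
    have hone : ∀ j ∈ U \ U', ‖∑ u ∈ W, Qf u j * Rf u j‖ ^ 2 ≤
        (2 * (η ^ 2 * Lw) + 2 * (C3 ^ 2 * η)) * Z j := by
      intro j hj
      rw [Finset.mem_sdiff] at hj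
      have hjB : ∑ u ∈ B j, w u ≤ η := by
        by_contra hc
        push Not at hc
        exact hj.2 (by rw [hU', Finset.mem_filter]; exact ⟨hj.1, hc⟩)
      have h1 : ‖∑ u ∈ W, Qf u j * Rf u j‖ ≤ η * (∑ u ∈ W \ B j, w u * ‖Rf u j‖) +
          C3 * ∑ u ∈ B j, w u * ‖Rf u j‖ := by
        refine (norm_sum_le _ _).trans ?_
        rw [← Finset.sum_sdiff (hBW j), Finset.mul_sum, Finset.mul_sum]
        refine add_le_add (Finset.sum_le_sum fun u hu => ?_) (Finset.sum_le_sum fun u hu => ?_)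
        · rw [Finset.mem_sdiff] at hu
          have h2 : ‖Qf u j‖ ≤ η * w u := by
            by_contra hc
            push Not at hc
            exact hu.2 (by
              simp only [hB, Finset.mem_filter]
              exact ⟨hu.1, hc⟩)
          rw [norm_mul, ← mul_assoc]
          gcongr
        · have h2 := h3c u (hBW j hu) j hj.1
          rw [norm_mul, ← mul_assoc]
          gcongr
      have h2 := hcs (W \ B j) Finset.sdiff_subset j
      have h3 := hcs (B j) (hBW j) j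
      have h4 : (∑ u ∈ W \ B j, w u * ‖Rf u j‖) ^ 2 ≤ Lw * Z j := by
        refine h2.trans (mul_le_mul_of_nonneg_right ?_ (hZ0 j))
        refine (Finset.sum_le_sum_of_subset_of_nonneg Finset.sdiff_subset
          fun u hu _ => (hw u hu).le).trans hL
      have h5 : (∑ u ∈ B j, w u * ‖Rf u j‖) ^ 2 ≤ η * Z j :=
        h3.trans (mul_le_mul_of_nonneg_right hjB (hZ0 j))
      calc ‖∑ u ∈ W, Qf u j * Rf u j‖ ^ 2
          ≤ (η * (∑ u ∈ W \ B j, w u * ‖Rf u j‖) + C3 * ∑ u ∈ B j, w u * ‖Rf u j‖) ^ 2 := by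
            gcongr
        _ ≤ 2 * (η ^ 2 * (∑ u ∈ W \ B j, w u * ‖Rf u j‖) ^ 2) +
            2 * (C3 ^ 2 * (∑ u ∈ B j, w u * ‖Rf u j‖) ^ 2) := by
            nlinarith [sq_nonneg (η * (∑ u ∈ W \ B j, w u * ‖Rf u j‖) -
              C3 * ∑ u ∈ B j, w u * ‖Rf u j‖)]
        _ ≤ 2 * (η ^ 2 * (Lw * Z j)) + 2 * (C3 ^ 2 * (η * Z j)) := by gcongr
        _ = _ := by ring
    have hZsum : ∑ j ∈ U \ U', Z j ≤ Lw * C1 := by
      calc ∑ j ∈ U \ U', Z j ≤ ∑ j ∈ U, Z j :=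
            Finset.sum_le_sum_of_subset_of_nonneg Finset.sdiff_subset fun j _ _ => hZ0 j
        _ = ∑ u ∈ W, w u * ∑ j ∈ U, ‖Rf u j‖ ^ 2 := by
            rw [hZ, Finset.sum_comm]
            refine Finset.sum_congr rfl fun u _ => ?_
            rw [Finset.mul_sum]
        _ ≤ ∑ u ∈ W, w u * C1 := by
            refine Finset.sum_le_sum fun u hu => ?_
            exact mul_le_mul_of_nonneg_left (h3a u hu) (hw u hu).le
        _ = (∑ u ∈ W, w u) * C1 := by rw [← Finset.sum_mul]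
        _ ≤ Lw * C1 := by gcongr
    rw [← Finset.sum_sdiff (Finset.filter_subset (fun j => η < ∑ u ∈ B j, w u) U)]
    refine add_le_add ?_ le_rfl
    calc ∑ j ∈ U \ U', ‖∑ u ∈ W, Qf u j * Rf u j‖ ^ 2
        ≤ ∑ j ∈ U \ U', (2 * (η ^ 2 * Lw) + 2 * (C3 ^ 2 * η)) * Z j :=
          Finset.sum_le_sum hone
      _ = (2 * (η ^ 2 * Lw) + 2 * (C3 ^ 2 * η)) * ∑ j ∈ U \ U', Z j := by
          rw [← Finset.mul_sum]
      _ ≤ (2 * (η ^ 2 * Lw) + 2 * (C3 ^ 2 * η)) * (Lw * C1) := by gcongr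
      _ = _ := by ring

end Pool.Agent.Lib.MP_a17b09_nt.MRS
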