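import Pool.Agent.Lib.MP_a17b09_nt.MRS.StmtsL27

/-!
MRS / MRSG, levels: the abstract level theorem (helper38; schedule `StSch` of helper27).

`ι` is the set of all frequencies, `Sj J` the frequencies of size at most `J`, `Mf N` the polynomial
of length `N`, `Qf h u` the prime polynomial of the window `[e^(u/h), e^((u+1)/h))`, `Lf a b` the sum
of `1/p` over the primes in use.
-/

set_option autoImplicit false
set_option linter.unusedVariables false

open Filter Topology Finset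

namespace Pool.Agent.Lib.MP_a17b09_nt.MRS

namespace LevAbs

open Classical in
/-- first good level -/
theorem cover {ι : Type} (S : Finset ι) (good : ℕ → ι → Prop) (J : ℕ) (f : ι → ℝ)
    (hf : ∀ j, 0 ≤ f j) :
    ∑ j ∈ S.filter (fun j => ∃ i ≤ J, good i j), f j ≤
      ∑ j ∈ S.filter (fun j => good 0 j), f j +
      ∑ i ∈ Finset.range J, ∑ j ∈ S.filter (fun j => good (i + 1) j ∧ ¬ good i j), f j := by
  simp only [Finset.sum_filter]
  rw [Finset.sum_comm, ← Finset.sum_add_distrib]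
  refine Finset.sum_le_sum fun j _ => ?_
  have h2 : 0 ≤ ∑ i ∈ Finset.range J, (if good (i + 1) j ∧ ¬ good i j then f j else 0) :=
    Finset.sum_nonneg fun i _ => by split_ifs <;> [exact hf j; exact le_rfl]
  by_cases hex : ∃ i, i ≤ J ∧ good i j
  · have hex' : ∃ i ≤ J, good i j := hex
    rw [if_pos hex']
    obtain ⟨hle, hg⟩ := Nat.find_spec hex
    have hmin := fun m => @Nat.find_min _ _ hex m
    rcases Nat.eq_zero_or_pos (Nat.find hex) with h0 | h0
    · rw [h0] at hg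
      rw [if_pos hg]
      linarith
    · obtain ⟨m, hm⟩ := Nat.exists_eq_succ_of_ne_zero h0.ne'
      have h3 : f j ≤ ∑ i ∈ Finset.range J, (if good (i + 1) j ∧ ¬ good i j then f j else 0) := by
        have h4 := Finset.single_le_sum (f := fun i => if good (i + 1) j ∧ ¬ good i j then f j else 0)
          (s := Finset.range J) (fun i _ => by
            split_ifs <;> [exact hf j; exact le_rfl]) (a := m) (by rw [mem_range]; omega)
        rwa [if_pos ⟨by rw [hm] at hg; exact hg, fun hgm => hmin m (by omega) ⟨by omega, hgm⟩⟩] at h4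
      have h5 : 0 ≤ (if good 0 j then f j else 0) := by split_ifs <;> [exact hf j; exact le_rfl]
      linarith
  · have hex' : ¬ ∃ i ≤ J, good i j := hex
    rw [if_neg hex']
    have h5 : 0 ≤ (if good 0 j then f j else 0) := by split_ifs <;> [exact hf j; exact le_rfl]
    linarith

/-- one level -/
theorem lvl {ι : Type} (S T : Finset ι) (hTS : T ⊆ S) (M X : ι → ℂ) (L E B : ℝ) (hL : 1 ≤ L)
    (hE : ∑ j ∈ S, ‖M j - (1 / (L : ℂ)) * X j‖ ^ 2 ≤ E) (hB : ∑ j ∈ T, ‖X j‖ ^ 2 ≤ B) :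
    ∑ j ∈ T, ‖M j‖ ^ 2 ≤ 2 * E + 2 * B := by
  have h1 : ∀ j, ‖M j‖ ^ 2 ≤ 2 * ‖M j - (1 / (L : ℂ)) * X j‖ ^ 2 + 2 * ‖X j‖ ^ 2 := by
    intro j
    have h2 : ‖M j‖ ≤ ‖M j - (1 / (L : ℂ)) * X j‖ + ‖X j‖ := by
      have h3 : M j = (M j - (1 / (L : ℂ)) * X j) + (1 / (L : ℂ)) * X j := by ring
      have h4 : ‖(1 / (L : ℂ)) * X j‖ ≤ ‖X j‖ := by
        rw [norm_mul, norm_div, norm_one, Complex.norm_real, Real.norm_of_nonneg (by linarith)]
        have h5 : 1 / L ≤ 1 := by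
          rw [div_le_one (by linarith)]; exact hL
        calc 1 / L * ‖X j‖ ≤ 1 * ‖X j‖ := mul_le_mul_of_nonneg_right h5 (norm_nonneg _)
          _ = ‖X j‖ := one_mul _
      calc ‖M j‖ = ‖(M j - (1 / (L : ℂ)) * X j) + (1 / (L : ℂ)) * X j‖ := by rw [← h3]
        _ ≤ ‖M j - (1 / (L : ℂ)) * X j‖ + ‖(1 / (L : ℂ)) * X j‖ := norm_add_le _ _
        _ ≤ _ := by linarith
    have h6 := norm_nonneg (M j)
    have h7 := norm_nonneg (M j - (1 / (L : ℂ)) * X j)
    have h8 := norm_nonneg (X j)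
    nlinarith [sq_nonneg (‖M j - (1 / (L : ℂ)) * X j‖ - ‖X j‖)]
  calc ∑ j ∈ T, ‖M j‖ ^ 2
      ≤ ∑ j ∈ T, (2 * ‖M j - (1 / (L : ℂ)) * X j‖ ^ 2 + 2 * ‖X j‖ ^ 2) :=
        Finset.sum_le_sum fun j _ => h1 j
    _ = 2 * ∑ j ∈ T, ‖M j - (1 / (L : ℂ)) * X j‖ ^ 2 + 2 * ∑ j ∈ T, ‖X j‖ ^ 2 := by
        rw [Finset.sum_add_distrib, ← Finset.mul_sum, ← Finset.mul_sum]
    _ ≤ 2 * ∑ j ∈ S, ‖M j - (1 / (L : ℂ)) * X j‖ ^ 2 + 2 * ∑ j ∈ T, ‖X j‖ ^ 2 := by
        have := Finset.sum_le_sum_of_subset_of_nonneg (f := fun j => ‖M j - (1 / (L : ℂ)) * X j‖ ^ 2)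
          hTS (fun j _ _ => by positivity)
        linarith
    _ ≤ 2 * E + 2 * B := by linarith

/-- Cauchy-Schwarz over the windows -/
theorem cs {ι : Type} (I : Finset ℕ) (a : ℕ → ℝ) (Q X : ℕ → ι → ℂ) (w : ι)
    (h1 : ∀ u ∈ I, ‖Q u w‖ ≤ Real.exp (-(a u))) :
    ‖∑ u ∈ I, Q u w * X u w‖ ^ 2 ≤ I.card * ∑ u ∈ I, Real.exp (-(2 * a u)) * ‖X u w‖ ^ 2 := by
  have h2 : ‖∑ u ∈ I, Q u w * X u w‖ ≤ ∑ u ∈ I, Real.exp (-(a u)) * ‖X u w‖ := by
    refine (norm_sum_le _ _).trans (Finset.sum_le_sum fun u hu => ?_)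
    rw [norm_mul]
    exact mul_le_mul_of_nonneg_right (h1 u hu) (norm_nonneg _)
  calc ‖∑ u ∈ I, Q u w * X u w‖ ^ 2 ≤ (∑ u ∈ I, Real.exp (-(a u)) * ‖X u w‖) ^ 2 :=
        pow_le_pow_left₀ (norm_nonneg _) h2 2
    _ ≤ I.card * ∑ u ∈ I, (Real.exp (-(a u)) * ‖X u w‖) ^ 2 := sq_sum_le_card_mul_sum_sq
    _ = _ := by
        congr 1
        refine Finset.sum_congr rfl fun u _ => ?_
        rw [mul_pow, ← Real.exp_nat_mul]
        congr 2
        push_cast
        ring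

/-- the first level -/
theorem t1 {ι : Type} (S T : Finset ι) (hTS : T ⊆ S) (I : Finset ℕ) (a : ℕ → ℝ)
    (Q X : ℕ → ι → ℂ) (M : ℝ) (hM0 : 0 ≤ M)
    (h1 : ∀ w ∈ T, ∀ u ∈ I, ‖Q u w‖ ≤ Real.exp (-(a u)))
    (h3 : ∀ u ∈ I, Real.exp (-(2 * a u)) * ∑ w ∈ S, ‖X u w‖ ^ 2 ≤ M) :
    ∑ w ∈ T, ‖∑ u ∈ I, Q u w * X u w‖ ^ 2 ≤ (I.card : ℝ) ^ 2 * M := by
  calc ∑ w ∈ T, ‖∑ u ∈ I, Q u w * X u w‖ ^ 2
      ≤ ∑ w ∈ T, I.card * ∑ u ∈ I, Real.exp (-(2 * a u)) * ‖X u w‖ ^ 2 :=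
        Finset.sum_le_sum fun w hw => cs I a Q X w (h1 w hw)
    _ = I.card * ∑ u ∈ I, Real.exp (-(2 * a u)) * ∑ w ∈ T, ‖X u w‖ ^ 2 := by
        rw [← Finset.mul_sum, Finset.sum_comm]
        congr 1
        exact Finset.sum_congr rfl fun u _ => by rw [Finset.mul_sum]
    _ ≤ I.card * ∑ u ∈ I, M := by
        refine mul_le_mul_of_nonneg_left (Finset.sum_le_sum fun u hu => ?_) (Nat.cast_nonneg _)
        refine le_trans ?_ (h3 u hu)
        refine mul_le_mul_of_nonneg_left ?_ (Real.exp_pos _).le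
        exact Finset.sum_le_sum_of_subset_of_nonneg hTS fun _ _ _ => by positivity
    _ = _ := by
        rw [Finset.sum_const, nsmul_eq_mul]
        ring

/-- a large window: powers -/
theorem big (x y : ℝ) (l : ℕ) (hx : Real.exp (-y) < x) : 1 ≤ Real.exp (2 * l * y) * (x ^ l) ^ 2 := by
  have h1 : Real.exp (-y) ^ l ≤ x ^ l := pow_le_pow_left₀ (Real.exp_pos _).le hx.le l
  have h2 : (Real.exp (-y) ^ l) ^ 2 ≤ (x ^ l) ^ 2 := pow_le_pow_left₀ (by positivity) h1 2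
  have h3 : (Real.exp (-y) ^ l) ^ 2 = Real.exp (-(2 * l * y)) := by
    rw [← pow_mul, ← Real.exp_nat_mul]
    congr 1
    push_cast
    ring
  rw [h3] at h2
  calc (1 : ℝ) = Real.exp (2 * l * y) * Real.exp (-(2 * l * y)) := by
        rw [← Real.exp_add]; simp
    _ ≤ _ := mul_le_mul_of_nonneg_left h2 (Real.exp_pos _).le

/-- the next levels -/
theorem tI {ι : Type} (S T : Finset ι) (hTS : T ⊆ S) (I I' : Finset ℕ) (a b : ℕ → ℝ)
    (Q Q' X : ℕ → ι → ℂ) (M : ℝ) (hM0 : 0 ≤ M)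
    (h1 : ∀ w ∈ T, ∀ u ∈ I, ‖Q u w‖ ≤ Real.exp (-(a u)))
    (h2 : ∀ w ∈ T, ∃ s ∈ I', Real.exp (-(b s)) < ‖Q' s w‖)
    (h3 : ∀ u ∈ I, ∀ s ∈ I', ∃ l : ℕ, Real.exp (2 * l * b s - 2 * a u) *
      ∑ w ∈ S, ‖Q' s w ^ l * X u w‖ ^ 2 ≤ M) :
    ∑ w ∈ T, ‖∑ u ∈ I, Q u w * X u w‖ ^ 2 ≤ (I.card : ℝ) ^ 2 * I'.card * M := by
  choose! l hl using h3
  have key : ∀ w ∈ T, ‖∑ u ∈ I, Q u w * X u w‖ ^ 2 ≤ I.card * ∑ u ∈ I, ∑ s ∈ I',
      Real.exp (2 * l u s * b s - 2 * a u) * ‖Q' s w ^ l u s * X u w‖ ^ 2 := by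
    intro w hw
    refine (cs I a Q X w (h1 w hw)).trans ?_
    refine mul_le_mul_of_nonneg_left (Finset.sum_le_sum fun u hu => ?_) (Nat.cast_nonneg _)
    obtain ⟨s, hs, hs'⟩ := h2 w hw
    have h4 : Real.exp (-(2 * a u)) * ‖X u w‖ ^ 2 ≤
        Real.exp (2 * l u s * b s - 2 * a u) * ‖Q' s w ^ l u s * X u w‖ ^ 2 := by
      have h5 := big ‖Q' s w‖ (b s) (l u s) hs'
      rw [norm_mul, norm_pow, sub_eq_add_neg, Real.exp_add, mul_pow]
      calc Real.exp (-(2 * a u)) * ‖X u w‖ ^ 2 = 1 * (Real.exp (-(2 * a u)) * ‖X u w‖ ^ 2) := by ring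
        _ ≤ (Real.exp (2 * l u s * b s) * (‖Q' s w‖ ^ l u s) ^ 2) *
            (Real.exp (-(2 * a u)) * ‖X u w‖ ^ 2) :=
            mul_le_mul_of_nonneg_right h5 (by positivity)
        _ = _ := by ring
    refine h4.trans ?_
    exact Finset.single_le_sum (f := fun s => Real.exp (2 * l u s * b s - 2 * a u) *
      ‖Q' s w ^ l u s * X u w‖ ^ 2) (fun _ _ => by positivity) hs
  calc ∑ w ∈ T, ‖∑ u ∈ I, Q u w * X u w‖ ^ 2
      ≤ ∑ w ∈ T, I.card * ∑ u ∈ I, ∑ s ∈ I',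
        Real.exp (2 * l u s * b s - 2 * a u) * ‖Q' s w ^ l u s * X u w‖ ^ 2 :=
        Finset.sum_le_sum key
    _ = I.card * ∑ u ∈ I, ∑ s ∈ I', Real.exp (2 * l u s * b s - 2 * a u) *
        ∑ w ∈ T, ‖Q' s w ^ l u s * X u w‖ ^ 2 := by
        rw [← Finset.mul_sum, Finset.sum_comm]
        congr 1
        refine Finset.sum_congr rfl fun u _ => ?_
        rw [Finset.sum_comm]
        exact Finset.sum_congr rfl fun s _ => by rw [Finset.mul_sum]
    _ ≤ I.card * ∑ u ∈ I, ∑ s ∈ I', M := by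
        refine mul_le_mul_of_nonneg_left (Finset.sum_le_sum fun u hu =>
          Finset.sum_le_sum fun s hs => ?_) (Nat.cast_nonneg _)
        refine le_trans ?_ (hl u hu s hs)
        refine mul_le_mul_of_nonneg_left ?_ (Real.exp_pos _).le
        exact Finset.sum_le_sum_of_subset_of_nonneg hTS fun _ _ _ => by positivity
    _ = _ := by
        rw [Finset.sum_const, Finset.sum_const, nsmul_eq_mul, nsmul_eq_mul]
        ring

/-- the last set -/
theorem tU {ι : Type} (S T : Finset ι) (hTS : T ⊆ S) (I' : Finset ℕ) (b : ℕ → ℝ)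
    (Q' : ℕ → ι → ℂ) (M : ℝ) (hM0 : 0 ≤ M)
    (h2 : ∀ w ∈ T, ∃ s ∈ I', Real.exp (-(b s)) < ‖Q' s w‖)
    (h3 : ∀ s ∈ I', ∃ l : ℕ, Real.exp (2 * l * b s) * ∑ w ∈ S, ‖Q' s w ^ l‖ ^ 2 ≤ M) :
    (T.card : ℝ) ≤ I'.card * M := by
  choose! l hl using h3
  have key : ∀ w ∈ T, (1 : ℝ) ≤ ∑ s ∈ I', Real.exp (2 * l s * b s) * ‖Q' s w ^ l s‖ ^ 2 := by
    intro w hw
    obtain ⟨s, hs, hs'⟩ := h2 w hw
    have h5 := big ‖Q' s w‖ (b s) (l s) hs'
    rw [← norm_pow] at h5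
    refine h5.trans ?_
    exact Finset.single_le_sum (f := fun s => Real.exp (2 * l s * b s) * ‖Q' s w ^ l s‖ ^ 2)
      (fun _ _ => by positivity) hs
  calc (T.card : ℝ) = ∑ w ∈ T, (1 : ℝ) := by rw [Finset.sum_const, nsmul_eq_mul, mul_one]
    _ ≤ ∑ w ∈ T, ∑ s ∈ I', Real.exp (2 * l s * b s) * ‖Q' s w ^ l s‖ ^ 2 :=
        Finset.sum_le_sum key
    _ = ∑ s ∈ I', Real.exp (2 * l s * b s) * ∑ w ∈ T, ‖Q' s w ^ l s‖ ^ 2 := by
        rw [Finset.sum_comm]
        exact Finset.sum_congr rfl fun s _ => by rw [Finset.mul_sum]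
    _ ≤ ∑ s ∈ I', M := by
        refine Finset.sum_le_sum fun s hs => ?_
        refine le_trans ?_ (hl s hs)
        refine mul_le_mul_of_nonneg_left ?_ (Real.exp_pos _).le
        exact Finset.sum_le_sum_of_subset_of_nonneg hTS fun _ _ _ => by positivity
    _ = _ := by rw [Finset.sum_const, nsmul_eq_mul]

/-- all windows are small -/
def Gda {ι : Type} (Qf : ℕ → ℕ → ι → ℂ) (h u0 u1 : ℕ) (α : ℝ) (w : ι) : Prop :=
  ∀ u ∈ Finset.Ico u0 u1, ‖Qf h u w‖ ≤ Real.exp (-(α * (u / h)))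

open Classical in
/-- **abstract level theorem** -/
theorem lev_abs (hSch : StSch) {ι : Type} (Sj : ℕ → Finset ι) (Mf : ℝ → ι → ℂ)
    (Qf : ℕ → ℕ → ι → ℂ) (Lf : ℝ → ℝ → ℝ) (r κ : ℝ) (hr : 0 < r) (hκ : 0 < κ)
    (hDec : ∃ C N0 : ℝ, 0 < C ∧ 1 ≤ N0 ∧ ∀ (h u0 u1 : ℕ) (N : ℝ), 0 < h → 3 * h ≤ u0 → u0 < u1 →
      N0 ≤ N → (h : ℝ) ≤ N ^ (1 / 8 : ℝ) → Real.exp (u1 / h) ≤ N ^ (1 / 8 : ℝ) →
      1 ≤ Lf (Real.exp (u0 / h)) (Real.exp (u1 / h)) → ∀ J : ℕ, (J : ℝ) ≤ N →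
      ∑ w ∈ Sj J, ‖Mf N w - (1 / (Lf (Real.exp (u0 / h)) (Real.exp (u1 / h)) : ℂ)) *
        ∑ u ∈ Finset.Ico u0 u1, Qf h u w * Mf (N * Real.exp (-(u / h))) w‖ ^ 2 ≤
      C * (1 / Lf (Real.exp (u0 / h)) (Real.exp (u1 / h)) + 1 / h + h / u0))
    (hMom : ∃ C : ℝ, 1 ≤ C ∧ ∀ (h u l J : ℕ) (N : ℝ), 0 < h → 3 * h ≤ u → 1 ≤ r * N →
      (J : ℝ) ≤ Real.exp (l * (u / h)) * (r * N) →
      ∑ w ∈ Sj J, ‖Qf h u w ^ l * Mf N w‖ ^ 2 ≤ C ^ (l + 1) * (l.factorial : ℝ) ^ 2)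
    (hMom1 : ∃ C : ℝ, 1 ≤ C ∧ ∀ (h u l J : ℕ), 0 < h → 3 * h ≤ u →
      (J : ℝ) ≤ Real.exp (l * (u / h)) →
      ∑ w ∈ Sj J, ‖Qf h u w ^ l‖ ^ 2 ≤ C ^ (l + 1) * (l.factorial : ℝ) ^ 2)
    (hMer : ∃ C : ℝ, 0 < C ∧ ∀ a b : ℝ, 2 ≤ a → a ≤ b →
      κ * Real.log (Real.log b / Real.log a) - C ≤ Lf a b) :
    ∀ ε c : ℝ, 0 < ε → 0 < c → ∃ H0 : ℝ, 1 ≤ H0 ∧ ∀ H : ℝ, H0 ≤ H → ∃ N0 : ℝ, ∀ N : ℝ, N0 ≤ N →
      ∃ U ⊆ Sj ⌊N / H⌋₊, (U.card : ℝ) ≤ N ^ c ∧
        ∑ w ∈ Sj ⌊N / H⌋₊ \ U, ‖Mf N w‖ ^ 2 ≤ ε := by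
  intro ε c hε hc
  obtain ⟨CD, ND, hCD, hND, hDec'⟩ := hDec
  obtain ⟨CM, hCM, hMer'⟩ := hMer
  obtain ⟨C1, hC1, hMom'⟩ := hMom
  obtain ⟨CU, hCU, hMom1'⟩ := hMom1
  set C : ℝ := 2 * CD * (1 + 1 / κ) + (1 + CM) / κ + 2 * C1 + CU with hC
  have hC1' : 2 * C1 ≤ C := by
    have : 0 ≤ 2 * CD * (1 + 1 / κ) := by positivity
    have : 0 ≤ (1 + CM) / κ := by positivity
    rw [hC]; linarith
  have hCU' : CU ≤ C := by
    have : 0 ≤ 2 * CD * (1 + 1 / κ) := by positivity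
    have : 0 ≤ (1 + CM) / κ := by positivity
    rw [hC]; linarith
  have hCκ : (1 + CM) / κ ≤ C := by
    have : 0 ≤ 2 * CD * (1 + 1 / κ) := by positivity
    rw [hC]; linarith
  have hCD' : 2 * CD * (1 + 1 / κ) ≤ C := by
    have : 0 ≤ (1 + CM) / κ := by positivity
    rw [hC]; linarith
  have hC1C : C1 ≤ C := by linarith
  have hε' : 0 < ε / 4 := by positivity
  obtain ⟨H0, hH0, hS⟩ := hSch C r (ε / 4) c (by linarith) hr hε' hc
  set ε' : ℝ := ε / 4 with hε'def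
  refine ⟨H0, hH0, fun H hH => ?_⟩
  obtain ⟨N0, hN0, hS'⟩ := hS H hH
  refine ⟨max N0 (max ND ((1 / r) ^ 8)), fun N hN => ?_⟩
  have hNN0 : N0 ≤ N := (le_max_left _ _).trans hN
  have hNND : ND ≤ N := ((le_max_left _ _).trans (le_max_right _ _)).trans hN
  have hNr : (1 / r) ^ 8 ≤ N := ((le_max_right _ _).trans (le_max_right _ _)).trans hN
  have hN1 : 1 ≤ N := hN0.trans hNN0
  obtain ⟨n, h, u0, u1, α, hα, hlv, he0, hsum, hl0, hl1, hlU⟩ := hS' N hNN0
  have hH1 : 1 ≤ H := hH0.trans hH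
  have hHp : 0 < H := by linarith
  set J : ℕ := ⌊N / H⌋₊ with hJ
  have hJle : (J : ℝ) ≤ N / H := Nat.floor_le (by positivity)
  have hJN : (J : ℝ) ≤ N := hJle.trans (div_le_self (by linarith) hH1)
  have hrH : 1 ≤ r * H := (Real.one_le_exp (by positivity)).trans he0
  have hJr : (J : ℝ) ≤ r * N := by
    refine hJle.trans ?_
    rw [div_le_iff₀ hHp]
    nlinarith
  -- the windows are short compared to `N`
  set t : ℝ := N ^ (1 / 8 : ℝ) with ht
  have ht8 : t ^ 8 = N := by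
    rw [ht, ← Real.rpow_natCast, ← Real.rpow_mul (by linarith)]
    norm_num
  have ht1 : 1 ≤ t := Real.one_le_rpow hN1 (by norm_num)
  have htr : 1 / r ≤ t := by
    by_contra hcon
    push Not at hcon
    have h3 : t ^ 8 < (1 / r) ^ 8 := pow_lt_pow_left₀ hcon (by linarith) (by norm_num)
    rw [ht8] at h3
    linarith
  have hexp : ∀ i ≤ n, ∀ u ∈ Finset.Ico (u0 i) (u1 i),
      1 ≤ r * (N * Real.exp (-(u / h i))) := by
    intro i hi u hu
    have hh : (0 : ℝ) < h i := by exact_mod_cast (hlv i hi).1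
    have h3 : Real.exp (u / h i) ≤ t := by
      refine le_trans (Real.exp_le_exp.2 ?_) (hlv i hi).2.2.2.2.1
      exact div_le_div_of_nonneg_right (by exact_mod_cast (Finset.mem_Ico.1 hu).2.le) hh.le
    have h4 : 1 ≤ r * t := by
      rw [div_le_iff₀ hr] at htr
      linarith
    have h5 : (0 : ℝ) < Real.exp (u / h i) := Real.exp_pos _
    rw [Real.exp_neg]
    have h6 : 1 ≤ r * N * (Real.exp (u / h i))⁻¹ := by
      rw [← div_eq_mul_inv, one_le_div h5]
      refine h3.trans ?_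
      rw [← ht8]
      have h7 : (1 : ℝ) ≤ t ^ 6 := one_le_pow₀ ht1
      calc t = 1 * t := (one_mul t).symm
        _ ≤ (r * t) * t := by nlinarith
        _ = (r * t) * t * 1 := by ring
        _ ≤ (r * t) * t * t ^ 6 := by
          refine mul_le_mul_of_nonneg_left h7 (by positivity)
        _ = r * t ^ 8 := by ring
    calc 1 ≤ r * N * (Real.exp (u / h i))⁻¹ := h6
      _ = _ := by ring
  -- the set `U`
  set gd : ℕ → ι → Prop := fun i j => Gda Qf (h i) (u0 i) (u1 i) (α i) j with hgd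
  have hngd : ∀ i j, ¬ gd i j → ∃ s ∈ Finset.Ico (u0 i) (u1 i),
      Real.exp (-(α i * (s / h i))) < ‖Qf (h i) s j‖ := by
    intro i j hij
    rw [hgd] at hij
    simp only [Gda] at hij
    push Not at hij
    exact hij
  have hcard : ∀ i, ((Finset.Ico (u0 i) (u1 i)).card : ℝ) ≤ u1 i := by
    intro i
    rw [Nat.card_Ico]
    exact_mod_cast Nat.sub_le _ _
  refine ⟨(Sj J).filter (fun j => ∀ i ≤ n, ¬ gd i j), Finset.filter_subset _ _, ?_, ?_⟩
  · -- the number of elements of `U`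
    have hu1 : (0 : ℝ) < u1 n := by
      have := (hlv n le_rfl).2.2.1
      exact_mod_cast (Nat.zero_le _).trans_lt this
    have h3 := tU (Sj J) ((Sj J).filter (fun j => ∀ i ≤ n, ¬ gd i j)) (Finset.filter_subset _ _)
      (Finset.Ico (u0 n) (u1 n)) (fun s => α n * (s / h n)) (fun s j => Qf (h n) s j)
      (N ^ c / u1 n) (by positivity) (fun j hj => hngd n j ((mem_filter.1 hj).2 n le_rfl))
      (fun s hs => by
        obtain ⟨l, hl, hl'⟩ := hlU s hs
        refine ⟨l, ?_⟩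
        rw [le_div_iff₀ hu1]
        refine le_trans ?_ hl'
        rw [mul_comm]
        refine mul_le_mul_of_nonneg_left ?_ hu1.le
        refine mul_le_mul (le_of_eq ?_) ?_ (Finset.sum_nonneg fun _ _ => by positivity)
          (Real.exp_pos _).le
        · congr 1; ring
        · refine (hMom1' (h n) s l J (hlv n le_rfl).1
            ((hlv n le_rfl).2.1.trans (Finset.mem_Ico.1 hs).1) (hJN.trans hl)).trans ?_
          refine mul_le_mul_of_nonneg_right ?_ (by positivity)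
          exact pow_le_pow_left₀ (by linarith) hCU' _)
    refine h3.trans ?_
    calc ((Finset.Ico (u0 n) (u1 n)).card : ℝ) * (N ^ c / u1 n) ≤ u1 n * (N ^ c / u1 n) :=
          mul_le_mul_of_nonneg_right (hcard n) (by positivity)
      _ = N ^ c := by rw [mul_div_cancel₀ _ hu1.ne']
  · -- the sum
    have hset : Sj J \ (Sj J).filter (fun j => ∀ i ≤ n, ¬ gd i j) =
        (Sj J).filter (fun j => ∃ i ≤ n, gd i j) := by
      ext j
      rw [Finset.mem_sdiff, mem_filter, mem_filter]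
      constructor
      · rintro ⟨h3, h4⟩
        refine ⟨h3, ?_⟩
        by_contra hcon
        push Not at hcon
        exact h4 ⟨h3, hcon⟩
      · rintro ⟨h3, i, hi, h4⟩
        exact ⟨h3, fun h5 => h5.2 i hi h4⟩
    rw [hset]
    refine (cover (Sj J) gd n (fun j => ‖Mf N j‖ ^ 2) fun j => by positivity).trans ?_
    -- the error of a level
    have hLLge : ∀ i ≤ n, 1 ≤ Lf (Real.exp (u0 i / h i)) (Real.exp (u1 i / h i)) ∧
        κ * (Real.log (u1 i / u0 i) - C) ≤ Lf (Real.exp (u0 i / h i)) (Real.exp (u1 i / h i)) ∧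
        1 ≤ Real.log (u1 i / u0 i) - C := by
      intro i hi
      obtain ⟨a1, a2, a3, a4, a5, a6⟩ := hlv i hi
      have hh : (0 : ℝ) < h i := by exact_mod_cast a1
      have hu : (3 : ℝ) ≤ u0 i / h i := by
        rw [le_div_iff₀ hh]
        exact_mod_cast a2
      have hu' : (u0 i : ℝ) / h i ≤ u1 i / h i :=
        div_le_div_of_nonneg_right (by exact_mod_cast a3.le) hh.le
      have h3 := hMer' (Real.exp (u0 i / h i)) (Real.exp (u1 i / h i)) (by
        have := Real.add_one_le_exp ((u0 i : ℝ) / h i)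
        linarith) (Real.exp_le_exp.2 hu')
      rw [Real.log_exp, Real.log_exp, div_div_div_cancel_right₀ hh.ne'] at h3
      have h5 : 1 + CM ≤ κ * C := by
        rw [div_le_iff₀ hκ] at hCκ
        linarith
      have h6 : κ * (C + 1) ≤ κ * Real.log (u1 i / u0 i) := mul_le_mul_of_nonneg_left a6 hκ.le
      refine ⟨by linarith, ?_, by linarith⟩
      have : κ * (Real.log (u1 i / u0 i) - C) = κ * Real.log (u1 i / u0 i) - κ * C := by ring
      linarith
    have herr : ∀ i ≤ n, ∑ j ∈ Sj J, ‖Mf N j - (1 / (Lf (Real.exp (u0 i / h i))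
        (Real.exp (u1 i / h i)) : ℂ)) * ∑ u ∈ Finset.Ico (u0 i) (u1 i), Qf (h i) u j *
          Mf (N * Real.exp (-(u / h i))) j‖ ^ 2 ≤
        CD * (1 + 1 / κ) * (1 / (Real.log (u1 i / u0 i) - C) + 1 / h i + h i / u0 i) := by
      intro i hi
      obtain ⟨a1, a2, a3, a4, a5, a6⟩ := hlv i hi
      obtain ⟨b1, b2, b3⟩ := hLLge i hi
      refine (hDec' (h i) (u0 i) (u1 i) N a1 a2 a3 hNND a4 a5 b1 J hJN).trans ?_
      rw [mul_assoc]
      refine mul_le_mul_of_nonneg_left ?_ hCD.le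
      have hp : 0 < Real.log (u1 i / u0 i) - C := by linarith
      have h3 := one_div_le_one_div_of_le (mul_pos hκ hp) b2
      have h4 : 1 / (κ * (Real.log (u1 i / u0 i) - C)) =
          1 / κ * (1 / (Real.log (u1 i / u0 i) - C)) := by
        rw [one_div_mul_one_div]
      rw [h4] at h3
      have h5 : 0 ≤ 1 / (Real.log (u1 i / u0 i) - C) := by positivity
      have h6 : 0 ≤ 1 / κ * ((1 : ℝ) / h i + h i / u0 i) := by positivity
      nlinarith
    have hecmp : ∀ i ≤ n, 2 * (CD * (1 + 1 / κ) *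
        (1 / (Real.log (u1 i / u0 i) - C) + 1 / h i + h i / u0 i)) ≤
        C * (1 / (Real.log (u1 i / u0 i) - C) + 1 / h i + h i / u0 i) := by
      intro i hi
      obtain ⟨b1, b2, b3⟩ := hLLge i hi
      rw [← mul_assoc, ← mul_assoc]
      refine mul_le_mul_of_nonneg_right hCD' ?_
      have : 0 < 1 / (Real.log (u1 i / u0 i) - C) := by
        apply one_div_pos.2; linarith
      positivity
    -- level 0
    have hL0 : ∑ j ∈ (Sj J).filter (fun j => gd 0 j), ‖Mf N j‖ ^ 2 ≤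
        C * (1 / (Real.log (u1 0 / u0 0) - C) + 1 / h 0 + h 0 / u0 0) + ε' := by
      obtain ⟨a1, a2, a3, a4, a5, a6⟩ := hlv 0 (Nat.zero_le _)
      have hh : (0 : ℝ) < h 0 := by exact_mod_cast a1
      have h3 := t1 (Sj J) ((Sj J).filter (fun j => gd 0 j)) (Finset.filter_subset _ _)
        (Finset.Ico (u0 0) (u1 0)) (fun u => α 0 * (u / h 0)) (fun u j => Qf (h 0) u j)
        (fun u j => Mf (N * Real.exp (-(u / h 0))) j)
        (C1 * Real.exp (-(2 * α 0 * (u0 0 / h 0)))) (by positivity)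
        (fun j hj => (mem_filter.1 hj).2) (fun u hu => by
          have h4 := hMom' (h 0) u 0 J (N * Real.exp (-(u / h 0))) a1
            (a2.trans (Finset.mem_Ico.1 hu).1) (hexp 0 (Nat.zero_le _) u hu) (by
              have h5 : Real.exp (u / h 0) ≤ r * H := by
                refine le_trans (Real.exp_le_exp.2 ?_) he0
                exact div_le_div_of_nonneg_right
                  (by exact_mod_cast (Finset.mem_Ico.1 hu).2.le) hh.le
              rw [Nat.cast_zero, zero_mul, Real.exp_zero, one_mul, Real.exp_neg]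
              have h6 : (0 : ℝ) < Real.exp (u / h 0) := Real.exp_pos _
              rw [← mul_assoc, ← div_eq_mul_inv, le_div_iff₀ h6]
              calc (J : ℝ) * Real.exp (u / h 0) ≤ (N / H) * (r * H) :=
                    mul_le_mul hJle h5 h6.le (by positivity)
                _ = r * N := by field_simp)
          simp only [pow_zero, one_mul, zero_add, pow_one, Nat.factorial_zero, Nat.cast_one,
            one_pow, mul_one] at h4
          calc Real.exp (-(2 * (α 0 * (u / h 0)))) *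
                ∑ j ∈ Sj J, ‖Mf (N * Real.exp (-(u / h 0))) j‖ ^ 2
              ≤ Real.exp (-(2 * α 0 * (u0 0 / h 0))) * C1 := by
                refine mul_le_mul (Real.exp_le_exp.2 ?_) h4
                  (Finset.sum_nonneg fun _ _ => by positivity) (Real.exp_pos _).le
                have h7 : (u0 0 : ℝ) / h 0 ≤ u / h 0 := div_le_div_of_nonneg_right
                  (by exact_mod_cast (Finset.mem_Ico.1 hu).1) hh.le
                have h8 := mul_le_mul_of_nonneg_left h7 (hα 0)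
                linarith
            _ = _ := mul_comm _ _)
      have h4 := lvl (Sj J) ((Sj J).filter (fun j => gd 0 j)) (Finset.filter_subset _ _)
        (fun j => Mf N j) (fun j => ∑ u ∈ Finset.Ico (u0 0) (u1 0), Qf (h 0) u j *
          Mf (N * Real.exp (-(u / h 0))) j) _ _ _ (hLLge 0 (Nat.zero_le _)).1
        (herr 0 (Nat.zero_le _)) h3
      refine h4.trans ?_
      have h5 := hecmp 0 (Nat.zero_le _)
      have h6 : 2 * (((Finset.Ico (u0 0) (u1 0)).card : ℝ) ^ 2 *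
          (C1 * Real.exp (-(2 * α 0 * (u0 0 / h 0))))) ≤ ε' := by
        refine le_trans ?_ hl0
        have h7 : ((Finset.Ico (u0 0) (u1 0)).card : ℝ) ^ 2 ≤ (u1 0 : ℝ) ^ 2 :=
          pow_le_pow_left₀ (Nat.cast_nonneg _) (hcard 0) 2
        have h8 := mul_le_mul hC1' h7 (by positivity) (by linarith)
        calc 2 * (((Finset.Ico (u0 0) (u1 0)).card : ℝ) ^ 2 *
              (C1 * Real.exp (-(2 * α 0 * (u0 0 / h 0)))))
            = (2 * C1 * ((Finset.Ico (u0 0) (u1 0)).card : ℝ) ^ 2) *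
              Real.exp (-(2 * α 0 * (u0 0 / h 0))) := by ring
          _ ≤ _ := mul_le_mul_of_nonneg_right h8 (Real.exp_pos _).le
      linarith
    -- the other levels
    have hL1 : ∀ i ∈ Finset.range n, ∑ j ∈ (Sj J).filter (fun j => gd (i + 1) j ∧ ¬ gd i j),
        ‖Mf N j‖ ^ 2 ≤
        C * (1 / (Real.log (u1 (i + 1) / u0 (i + 1)) - C) + 1 / h (i + 1) +
          h (i + 1) / u0 (i + 1)) + 2 * ε' * (1 / 2) ^ (i + 1) := by
      intro i hi
      rw [mem_range] at hi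
      obtain ⟨a1, a2, a3, a4, a5, a6⟩ := hlv (i + 1) (by omega)
      obtain ⟨b1, b2, b3, b4, b5, b6⟩ := hlv i (by omega)
      have hp1 : (0 : ℝ) < u1 (i + 1) := by exact_mod_cast (Nat.zero_le _).trans_lt a3
      have hp2 : (0 : ℝ) < u1 i := by exact_mod_cast (Nat.zero_le _).trans_lt b3
      have hp3 : (0 : ℝ) < (u1 (i + 1) : ℝ) ^ 2 * u1 i := by positivity
      have h3 := tI (Sj J) ((Sj J).filter (fun j => gd (i + 1) j ∧ ¬ gd i j))
        (Finset.filter_subset _ _) (Finset.Ico (u0 (i + 1)) (u1 (i + 1)))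
        (Finset.Ico (u0 i) (u1 i)) (fun u => α (i + 1) * (u / h (i + 1)))
        (fun s => α i * (s / h i)) (fun u j => Qf (h (i + 1)) u j) (fun s j => Qf (h i) s j)
        (fun u j => Mf (N * Real.exp (-(u / h (i + 1)))) j)
        (ε' * (1 / 2) ^ (i + 1) / ((u1 (i + 1) : ℝ) ^ 2 * u1 i)) (by positivity)
        (fun j hj => (mem_filter.1 hj).2.1) (fun j hj => hngd i j (mem_filter.1 hj).2.2)
        (fun u hu s hs => by
          obtain ⟨l, hl, hl'⟩ := hl1 i hi u hu s hs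
          refine ⟨l, ?_⟩
          have h4 := hMom' (h i) s l J (N * Real.exp (-(u / h (i + 1)))) b1
            (b2.trans (Finset.mem_Ico.1 hs).1) (hexp (i + 1) (by omega) u hu) (by
              refine hJr.trans ?_
              have h5 : 1 ≤ Real.exp (l * (s / h i)) * Real.exp (-(u / h (i + 1))) := by
                rw [← Real.exp_add]
                exact Real.one_le_exp (by linarith)
              calc r * N = r * N * 1 := by ring
                _ ≤ r * N * (Real.exp (l * (s / h i)) * Real.exp (-(u / h (i + 1)))) :=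
                  mul_le_mul_of_nonneg_left h5 (by positivity)
                _ = _ := by ring)
          rw [le_div_iff₀ hp3]
          refine le_trans ?_ hl'
          rw [mul_comm]
          refine mul_le_mul_of_nonneg_left ?_ hp3.le
          refine mul_le_mul (le_of_eq ?_) ?_ (Finset.sum_nonneg fun _ _ => by positivity)
            (Real.exp_pos _).le
          · congr 1; ring
          · refine h4.trans ?_
            refine mul_le_mul_of_nonneg_right ?_ (by positivity)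
            exact pow_le_pow_left₀ (by linarith) hC1C _)
      have h4 := lvl (Sj J) ((Sj J).filter (fun j => gd (i + 1) j ∧ ¬ gd i j))
        (Finset.filter_subset _ _)
        (fun j => Mf N j) (fun j => ∑ u ∈ Finset.Ico (u0 (i + 1)) (u1 (i + 1)),
          Qf (h (i + 1)) u j * Mf (N * Real.exp (-(u / h (i + 1)))) j) _ _ _
        (hLLge (i + 1) (by omega)).1 (herr (i + 1) (by omega)) h3
      refine h4.trans ?_
      have h5 := hecmp (i + 1) (by omega)
      have h6 : ((Finset.Ico (u0 (i + 1)) (u1 (i + 1))).card : ℝ) ^ 2 *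
          (Finset.Ico (u0 i) (u1 i)).card * (ε' * (1 / 2) ^ (i + 1) /
            ((u1 (i + 1) : ℝ) ^ 2 * u1 i)) ≤ ε' * (1 / 2) ^ (i + 1) := by
        rw [mul_div_assoc', div_le_iff₀ hp3]
        have h7 : ((Finset.Ico (u0 (i + 1)) (u1 (i + 1))).card : ℝ) ^ 2 *
            (Finset.Ico (u0 i) (u1 i)).card ≤ (u1 (i + 1) : ℝ) ^ 2 * u1 i :=
          mul_le_mul (pow_le_pow_left₀ (Nat.cast_nonneg _) (hcard _) 2) (hcard _)
            (Nat.cast_nonneg _) (by positivity)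
        calc _ ≤ (u1 (i + 1) : ℝ) ^ 2 * u1 i * (ε' * (1 / 2) ^ (i + 1)) :=
              mul_le_mul_of_nonneg_right h7 (by positivity)
          _ = _ := by ring
      linarith
    have hgeo : ∑ i ∈ Finset.range n, ((1 : ℝ) / 2) ^ (i + 1) ≤ 1 := by
      have h3 : ∀ m : ℕ, ∑ i ∈ Finset.range m, ((1 : ℝ) / 2) ^ (i + 1) = 1 - (1 / 2) ^ m := by
        intro m
        induction m with
        | zero => simp
        | succ m ih => rw [Finset.sum_range_succ, ih, pow_succ]; ring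
      rw [h3]
      have : (0 : ℝ) < (1 / 2) ^ n := by positivity
      linarith
    have h7 := Finset.sum_le_sum hL1
    rw [Finset.sum_add_distrib] at h7
    rw [Finset.sum_range_succ'] at hsum
    have h8 : ∑ i ∈ Finset.range n, 2 * ε' * ((1 : ℝ) / 2) ^ (i + 1) ≤ 2 * ε' := by
      rw [← Finset.mul_sum]
      have : 0 ≤ 2 * ε' := by positivity
      nlinarith
    linarith

end LevAbs

end Pool.Agent.Lib.MP_a17b09_nt.MRS
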