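import Pool.Agent.Lib.MP_a17b09_nt.MRS.LS19

/-!
MRS (MP_a17b09): large sieve for separated points and for directions of lattice vectors (helper19).
-/

namespace MRS19

open Finset

noncomputable section

/-- for a unimodular number, `|arg z| ≤ (π/2) |z - 1|` -/
lemma arg_le {z : ℂ} (hz : ‖z‖ = 1) : |z.arg| ≤ Real.pi / 2 * ‖z - 1‖ := by
  have h1 : z = Complex.exp (Complex.I * (z.arg : ℝ)) := by
    have := Complex.norm_mul_exp_arg_mul_I z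
    rw [hz] at this
    rw [mul_comm Complex.I]
    simpa using this.symm
  have h2 : ‖z - 1‖ = ‖2 * Real.sin (z.arg / 2)‖ := by
    conv_lhs => rw [h1]
    exact Complex.norm_exp_I_mul_ofReal_sub_one z.arg
  have h3 : |z.arg| ≤ Real.pi := Complex.abs_arg_le_pi z
  have h4 : 2 / Real.pi * (|z.arg| / 2) ≤ Real.sin (|z.arg| / 2) :=
    Real.mul_le_sin (by positivity) (by linarith)
  have h5 : |Real.sin (z.arg / 2)| = Real.sin (|z.arg| / 2) := by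
    rcases le_total 0 z.arg with h | h
    · rw [abs_of_nonneg h, abs_of_nonneg]
      exact Real.sin_nonneg_of_nonneg_of_le_pi (by linarith) (by rw [abs_of_nonneg h] at h3; linarith)
    · rw [abs_of_nonpos h, abs_of_nonpos]
      · rw [← Real.sin_neg]; congr 1; ring
      · apply Real.sin_nonpos_of_nonpos_of_neg_pi_le (by linarith)
        rw [abs_of_nonpos h] at h3; linarith
  rw [h2, norm_mul, Real.norm_of_nonneg (by norm_num : (0:ℝ) ≤ 2), Real.norm_eq_abs, h5]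
  have hpi := Real.pi_pos
  have h6 : Real.pi / 2 * (2 * (2 / Real.pi * (|z.arg| / 2))) = |z.arg| := by
    field_simp
  calc |z.arg| = Real.pi / 2 * (2 * (2 / Real.pi * (|z.arg| / 2))) := h6.symm
    _ ≤ Real.pi / 2 * (2 * Real.sin (|z.arg| / 2)) := by
        apply mul_le_mul_of_nonneg_left _ (by positivity)
        exact mul_le_mul_of_nonneg_left h4 (by norm_num)

/-- for unimodular numbers `|z - w| ≤ |arg z - arg w|` -/
lemma sub_le_arg {z w : ℂ} (hz : ‖z‖ = 1) (hw : ‖w‖ = 1) : ‖z - w‖ ≤ |z.arg - w.arg| := by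
  have h1 : ∀ z : ℂ, ‖z‖ = 1 → z = Complex.exp (Complex.I * (z.arg : ℝ)) := by
    intro z hz
    have := Complex.norm_mul_exp_arg_mul_I z
    rw [hz] at this
    rw [mul_comm Complex.I]
    simpa using this.symm
  have h2 : ‖z - w‖ = ‖Complex.exp (Complex.I * ((z.arg - w.arg : ℝ))) - 1‖ := by
    have h3 : z - w = Complex.exp (Complex.I * (w.arg : ℝ)) *
        (Complex.exp (Complex.I * ((z.arg - w.arg : ℝ))) - 1) := by
      rw [mul_sub, ← Complex.exp_add, mul_one]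
      have : Complex.I * (w.arg : ℝ) + Complex.I * ((z.arg - w.arg : ℝ)) = Complex.I * (z.arg : ℝ) := by
        push_cast; ring
      rw [this, ← h1 z hz, ← h1 w hw]
    rw [h3, norm_mul]
    have : ‖Complex.exp (Complex.I * (w.arg : ℝ))‖ = 1 := by rw [← h1 w hw]; exact hw
    rw [this, one_mul]
  rw [h2, Complex.norm_exp_I_mul_ofReal_sub_one, norm_mul, Real.norm_of_nonneg (by norm_num : (0:ℝ) ≤ 2),
    Real.norm_eq_abs]
  have h4 : |Real.sin ((z.arg - w.arg) / 2)| ≤ |(z.arg - w.arg) / 2| := Real.abs_sin_le_abs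
  rw [abs_div, abs_of_pos (by norm_num : (0:ℝ) < 2)] at h4
  linarith

/-- counting separated points on the circle near a point -/
lemma sep_count {ι : Type*} (s : Finset ι) (z : ι → ℂ) (hz : ∀ i ∈ s, ‖z i‖ = 1) (δ : ℝ)
    (hδ : 0 < δ) (hsep : ∀ i ∈ s, ∀ k ∈ s, i ≠ k → δ ≤ ‖z i - z k‖) (i : ι) (hi : i ∈ s)
    (φ : ℝ) (hφ : 0 < φ) :
    ((s.filter (fun k => ‖z i - z k‖ ≤ φ)).card : ℝ) ≤ 4 * (1 + 1 / δ * φ) := by
  classical
  set x : ι → ℝ := fun k => (z k * (starRingEnd ℂ) (z i)).arg with hx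
  have hu : ∀ k ∈ s, ‖z k * (starRingEnd ℂ) (z i)‖ = 1 := by
    intro k hk; rw [norm_mul, RCLike.norm_conj, hz k hk, hz i hi, one_mul]
  have hdist : ∀ k ∈ s, ∀ l ∈ s, ‖z k * (starRingEnd ℂ) (z i) - z l * (starRingEnd ℂ) (z i)‖
      = ‖z k - z l‖ := by
    intro k _ l _
    rw [← sub_mul, norm_mul, RCLike.norm_conj, hz i hi, mul_one]
  have hinj : Set.InjOn (fun k => ⌊x k / δ⌋) (s.filter (fun k => ‖z i - z k‖ ≤ φ) : Finset ι) := by
    intro k hk l hl hkl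
    by_contra hne
    simp only [coe_filter, Set.mem_ofPred_eq] at hk hl
    have h1 := hsep k hk.1 l hl.1 hne
    have h2 := sub_le_arg (hu k hk.1) (hu l hl.1)
    rw [hdist k hk.1 l hl.1] at h2
    have h3 : |x k / δ - x l / δ| < 1 := Int.abs_sub_lt_one_of_floor_eq_floor hkl
    rw [← sub_div, abs_div, abs_of_pos hδ, div_lt_one hδ] at h3
    linarith
  have hmaps : ∀ k ∈ s.filter (fun k => ‖z i - z k‖ ≤ φ),
      ⌊x k / δ⌋ ∈ Finset.Icc (⌊-(Real.pi / 2 * φ) / δ⌋) (⌊(Real.pi / 2 * φ) / δ⌋) := by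
    intro k hk
    rw [mem_filter] at hk
    have h1 := arg_le (hu k hk.1)
    have h2 : ‖z k * (starRingEnd ℂ) (z i) - 1‖ = ‖z i - z k‖ := by
      have : z k * (starRingEnd ℂ) (z i) - 1 = (z k - z i) * (starRingEnd ℂ) (z i) := by
        rw [sub_mul, Complex.mul_conj', hz i hi]; simp
      rw [this, norm_mul, RCLike.norm_conj, hz i hi, mul_one, norm_sub_rev]
    rw [h2] at h1
    have h3 : |x k| ≤ Real.pi / 2 * φ :=
      h1.trans (mul_le_mul_of_nonneg_left hk.2 (by positivity))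
    rw [abs_le] at h3
    rw [Finset.mem_Icc]
    constructor
    · exact Int.floor_le_floor (div_le_div_of_nonneg_right h3.1 hδ.le)
    · exact Int.floor_le_floor (div_le_div_of_nonneg_right h3.2 hδ.le)
  have hcard := Finset.card_le_card_of_injOn _ hmaps hinj
  have hcI : ((Finset.Icc (⌊-(Real.pi / 2 * φ) / δ⌋) (⌊(Real.pi / 2 * φ) / δ⌋)).card : ℝ)
      ≤ Real.pi * φ / δ + 2 := by
    rw [Int.card_Icc]
    have hle : ⌊-(Real.pi / 2 * φ) / δ⌋ ≤ ⌊(Real.pi / 2 * φ) / δ⌋ := by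
      apply Int.floor_le_floor
      apply div_le_div_of_nonneg_right _ hδ.le
      have : 0 ≤ Real.pi / 2 * φ := by positivity
      linarith
    have h0 : (0:ℤ) ≤ ⌊(Real.pi / 2 * φ) / δ⌋ + 1 - ⌊-(Real.pi / 2 * φ) / δ⌋ := by omega
    have h1 : (((⌊(Real.pi / 2 * φ) / δ⌋ + 1 - ⌊-(Real.pi / 2 * φ) / δ⌋).toNat : ℕ) : ℝ)
        = ((⌊(Real.pi / 2 * φ) / δ⌋ + 1 - ⌊-(Real.pi / 2 * φ) / δ⌋ : ℤ) : ℝ) := by
      rw [← Int.cast_natCast, Int.toNat_of_nonneg h0]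
    rw [h1]
    push_cast
    have h2 := Int.floor_le ((Real.pi / 2 * φ) / δ)
    have h3 := Int.lt_floor_add_one (-(Real.pi / 2 * φ) / δ)
    have h4 : (Real.pi / 2 * φ) / δ - (-(Real.pi / 2 * φ) / δ) = Real.pi * φ / δ := by ring
    linarith
  have hpi : Real.pi ≤ 4 := Real.pi_le_four
  have hq : 0 ≤ φ / δ := by positivity
  calc ((s.filter (fun k => ‖z i - z k‖ ≤ φ)).card : ℝ)
      ≤ ((Finset.Icc (⌊-(Real.pi / 2 * φ) / δ⌋) (⌊(Real.pi / 2 * φ) / δ⌋)).card : ℝ) := by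
        exact_mod_cast hcard
    _ ≤ Real.pi * φ / δ + 2 := hcI
    _ ≤ 4 * (1 + 1 / δ * φ) := by
        have e1 : Real.pi * φ / δ ≤ 4 * (φ / δ) := by
          rw [mul_div_assoc]; exact mul_le_mul_of_nonneg_right hpi hq
        have e2 : 4 * (1 + 1 / δ * φ) = 4 + 4 * (φ / δ) := by ring
        rw [e2]; linarith

/-- **Large sieve for separated points of the circle.** -/
theorem ls_sep {ι : Type*} (s : Finset ι) (z : ι → ℂ) (hz : ∀ i ∈ s, ‖z i‖ = 1) (δ : ℝ)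
    (hδ : 0 < δ) (hsep : ∀ i ∈ s, ∀ k ∈ s, i ≠ k → δ ≤ ‖z i - z k‖) (J : ℕ) (a : ι → ℂ) :
    ∑ j ∈ Finset.Icc (-(J:ℤ)) J, ‖∑ i ∈ s, a i * z i ^ j‖ ^ 2
      ≤ 800 * (1 / δ + J + 1) * ∑ i ∈ s, ‖a i‖ ^ 2 := by
  have h := ls_abs s z hz 4 (1/δ) (fun _ => 1) (by norm_num) (by positivity) (fun _ _ => zero_le_one)
    (fun i hi φ hφ => sep_count s z hz δ hδ hsep i hi φ hφ) J a
  refine h.trans (le_of_eq ?_)
  rw [← sum_mul]; ring

/-- lattice vector as a complex number -/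
def zc (m : ℤ × ℤ) : ℂ := (m.1 : ℂ) + (m.2 : ℂ) * Complex.I

/-- direction of a lattice vector -/
def dir (m : ℤ × ℤ) : ℂ := zc m / (‖zc m‖ : ℂ)

lemma zc_re (m : ℤ × ℤ) : (zc m).re = m.1 := by simp [zc]
lemma zc_im (m : ℤ × ℤ) : (zc m).im = m.2 := by simp [zc]

lemma norm_zc_sq (m : ℤ × ℤ) : ‖zc m‖ ^ 2 = (m.1:ℝ)^2 + (m.2:ℝ)^2 := by
  rw [← Complex.normSq_eq_norm_sq, Complex.normSq_apply, zc_re, zc_im]; ring

lemma zc_ne_zero {m : ℤ × ℤ} (hm : m ≠ 0) : zc m ≠ 0 := by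
  intro h
  apply hm
  have h1 := congrArg Complex.re h
  have h2 := congrArg Complex.im h
  rw [zc_re] at h1; rw [zc_im] at h2
  simp only [Complex.zero_re, Complex.zero_im, Int.cast_eq_zero] at h1 h2
  exact Prod.ext h1 h2

lemma norm_dir {m : ℤ × ℤ} (hm : m ≠ 0) : ‖dir m‖ = 1 := by
  unfold dir
  have h : ‖zc m‖ ≠ 0 := norm_ne_zero_iff.mpr (zc_ne_zero hm)
  rw [norm_div, Complex.norm_real, norm_norm, div_self h]

/-- the wedge of two directions is at most their distance -/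
lemma wedge_le {v w : ℤ × ℤ} (hv : v ≠ 0) (hw : w ≠ 0) :
    |((v.1 * w.2 - v.2 * w.1 : ℤ) : ℝ)| ≤ ‖zc v‖ * ‖zc w‖ * ‖dir v - dir w‖ := by
  have hv' : (0:ℝ) < ‖zc v‖ := norm_pos_iff.mpr (zc_ne_zero hv)
  have hw' : (0:ℝ) < ‖zc w‖ := norm_pos_iff.mpr (zc_ne_zero hw)
  have h1 : ((starRingEnd ℂ) (zc v) * zc w).im = ((v.1 * w.2 - v.2 * w.1 : ℤ) : ℝ) := by
    rw [Complex.mul_im, Complex.conj_re, Complex.conj_im, zc_re, zc_im, zc_re, zc_im]
    push_cast; ring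
  have h2 : (starRingEnd ℂ) (zc v) * zc w
      = ((‖zc v‖ * ‖zc w‖ : ℝ) : ℂ) * ((starRingEnd ℂ) (dir v) * dir w) := by
    unfold dir
    rw [map_div₀, Complex.conj_ofReal]
    have e1 : (‖zc v‖ : ℂ) ≠ 0 := by exact_mod_cast hv'.ne'
    have e2 : (‖zc w‖ : ℂ) ≠ 0 := by exact_mod_cast hw'.ne'
    push_cast
    field_simp
  have h3 : (starRingEnd ℂ) (dir v) * dir w = 1 + (starRingEnd ℂ) (dir v) * (dir w - dir v) := by
    rw [mul_sub, mul_comm ((starRingEnd ℂ) (dir v)) (dir v), Complex.mul_conj', norm_dir hv]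
    simp
  have h4 : |((starRingEnd ℂ) (dir v) * dir w).im| ≤ ‖dir v - dir w‖ := by
    rw [h3, Complex.add_im, Complex.one_im, zero_add]
    refine (Complex.abs_im_le_norm _).trans ?_
    rw [norm_mul, RCLike.norm_conj, norm_dir hv, one_mul, norm_sub_rev]
  rw [← h1, h2, Complex.im_ofReal_mul, abs_mul, abs_of_pos (mul_pos hv' hw')]
  exact mul_le_mul_of_nonneg_left h4 (mul_pos hv' hw').le

/-- primitive collinear vectors are equal up to sign -/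
lemma prim_collinear {v w : ℤ × ℤ} (hv : IsCoprime v.1 v.2) (hw : IsCoprime w.1 w.2)
    (h : v.1 * w.2 - v.2 * w.1 = 0) : w = v ∨ w = -v := by
  obtain ⟨x, y, hxy⟩ := hv
  set t := x * w.1 + y * w.2 with ht
  have h1 : w.1 = t * v.1 := by rw [ht]; linear_combination (-w.1) * hxy - y * h
  have h2 : w.2 = t * v.2 := by rw [ht]; linear_combination (-w.2) * hxy + x * h
  have hu : IsUnit t := by
    apply hw.isUnit_of_dvd' (by rw [h1]; exact dvd_mul_right _ _) (by rw [h2]; exact dvd_mul_right _ _)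
  rcases Int.isUnit_iff.mp hu with ht1 | ht1
  · left; exact Prod.ext (by rw [h1, ht1, one_mul]) (by rw [h2, ht1, one_mul])
  · right
    exact Prod.ext (by rw [h1, ht1]; simp) (by rw [h2, ht1]; simp)

lemma prim_ne_zero {v : ℤ × ℤ} (hv : IsCoprime v.1 v.2) : v ≠ 0 := by
  rintro rfl
  obtain ⟨x, y, h⟩ := hv
  simp at h

/-- separation of the directions of primitive vectors -/
lemma dir_sep {v w : ℤ × ℤ} (hv : IsCoprime v.1 v.2) (hw : IsCoprime w.1 w.2) (N : ℝ) (hN : 1 ≤ N)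
    (hvN : (v.1:ℝ)^2 + (v.2:ℝ)^2 ≤ N) (hwN : (w.1:ℝ)^2 + (w.2:ℝ)^2 ≤ N) (hne : v ≠ w) :
    1 / N ≤ ‖dir v - dir w‖ := by
  have hv0 := prim_ne_zero hv
  have hw0 := prim_ne_zero hw
  have hNpos : 0 < N := by linarith
  by_cases h : v.1 * w.2 - v.2 * w.1 = 0
  · rcases prim_collinear hv hw h with h1 | h1
    · exact absurd h1.symm hne
    · have h2 : dir w = - dir v := by
        rw [h1]; unfold dir
        have : zc (-v) = - zc v := by unfold zc; simp; ring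
        rw [this, norm_neg, neg_div]
      rw [h2, sub_neg_eq_add, ← two_mul, norm_mul, norm_dir hv0]
      have h3 : 1 / N ≤ 1 := by rw [div_le_one hNpos]; exact hN
      have h4 : ‖(2:ℂ)‖ = 2 := by simp
      rw [h4]; linarith
  · have h1 : (1:ℝ) ≤ |((v.1 * w.2 - v.2 * w.1 : ℤ) : ℝ)| := by
      rw [← Int.cast_abs]
      exact_mod_cast Int.one_le_abs h
    have h2 := wedge_le hv0 hw0
    have h3 : ‖zc v‖ * ‖zc w‖ ≤ N := by
      have e1 := norm_zc_sq v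
      have e2 := norm_zc_sq w
      nlinarith [sq_nonneg (‖zc v‖ - ‖zc w‖)]
    rw [div_le_iff₀ hNpos]
    calc (1:ℝ) ≤ ‖zc v‖ * ‖zc w‖ * ‖dir v - dir w‖ := h1.trans h2
      _ ≤ N * ‖dir v - dir w‖ := mul_le_mul_of_nonneg_right h3 (norm_nonneg _)
      _ = ‖dir v - dir w‖ * N := mul_comm _ _

/-- **Large sieve for the directions of primitive lattice vectors.** -/
theorem ls_prim (N : ℝ) (hN : 1 ≤ N) (S : Finset (ℤ × ℤ))
    (hS : ∀ v ∈ S, IsCoprime v.1 v.2 ∧ (v.1:ℝ)^2 + (v.2:ℝ)^2 ≤ N) (J : ℕ) (a : ℤ × ℤ → ℂ) :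
    ∑ j ∈ Finset.Icc (-(J:ℤ)) J, ‖∑ v ∈ S, a v * dir v ^ j‖ ^ 2
      ≤ 800 * (N + J + 1) * ∑ v ∈ S, ‖a v‖ ^ 2 := by
  have h := ls_sep S dir (fun v hv => norm_dir (prim_ne_zero (hS v hv).1)) (1/N) (by positivity)
    (fun v hv w hw hne => dir_sep (hS v hv).1 (hS w hw).1 N hN (hS v hv).2 (hS w hw).2 hne) J a
  rwa [one_div_one_div] at h

/-- primitive part of a lattice vector -/
def pr (v : ℤ × ℤ) : ℤ × ℤ := (v.1 / (Int.gcd v.1 v.2 : ℤ), v.2 / (Int.gcd v.1 v.2 : ℤ))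

lemma gcd_pos {v : ℤ × ℤ} (hv : v ≠ 0) : 0 < Int.gcd v.1 v.2 := by
  rw [Nat.pos_iff_ne_zero]
  intro h
  rw [Int.gcd_eq_zero_iff] at h
  exact hv (Prod.ext h.1 h.2)

lemma pr_coprime {v : ℤ × ℤ} (hv : v ≠ 0) : IsCoprime (pr v).1 (pr v).2 := by
  rw [Int.isCoprime_iff_gcd_eq_one]
  unfold pr
  exact Int.gcd_div_gcd_div_gcd (gcd_pos hv)

lemma eq_gcd_mul (v : ℤ × ℤ) :
    v.1 = (Int.gcd v.1 v.2 : ℤ) * (pr v).1 ∧ v.2 = (Int.gcd v.1 v.2 : ℤ) * (pr v).2 := by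
  unfold pr
  exact ⟨(Int.mul_ediv_cancel' (Int.gcd_dvd_left _ _)).symm, (Int.mul_ediv_cancel' (Int.gcd_dvd_right _ _)).symm⟩

lemma dir_pr {v : ℤ × ℤ} (hv : v ≠ 0) : dir (pr v) = dir v := by
  have hg : (0:ℝ) < (Int.gcd v.1 v.2 : ℝ) := by exact_mod_cast gcd_pos hv
  have h1 : zc v = ((Int.gcd v.1 v.2 : ℝ) : ℂ) * zc (pr v) := by
    obtain ⟨e1, e2⟩ := eq_gcd_mul v
    have f1 : (v.1:ℂ) = ((Int.gcd v.1 v.2 : ℝ) : ℂ) * ((pr v).1 : ℂ) := by exact_mod_cast e1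
    have f2 : (v.2:ℂ) = ((Int.gcd v.1 v.2 : ℝ) : ℂ) * ((pr v).2 : ℂ) := by exact_mod_cast e2
    have f3 : zc v = (v.1:ℂ) + (v.2:ℂ) * Complex.I := rfl
    have f4 : zc (pr v) = ((pr v).1:ℂ) + ((pr v).2:ℂ) * Complex.I := rfl
    rw [f3, f4, f1, f2]; ring
  unfold dir
  rw [h1, norm_mul, Complex.norm_real, Real.norm_of_nonneg hg.le]
  have hg' : ((Int.gcd v.1 v.2 : ℝ) : ℂ) ≠ 0 := by exact_mod_cast hg.ne'
  have hz : (‖zc (pr v)‖ : ℂ) ≠ 0 := by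
    have := norm_pos_iff.mpr (zc_ne_zero (prim_ne_zero (pr_coprime hv)))
    exact_mod_cast this.ne'
  push_cast
  push_cast at hg'
  field_simp

lemma norm_pr_le {v : ℤ × ℤ} (hv : v ≠ 0) :
    ((pr v).1:ℝ)^2 + ((pr v).2:ℝ)^2 ≤ (v.1:ℝ)^2 + (v.2:ℝ)^2 := by
  obtain ⟨e1, e2⟩ := eq_gcd_mul v
  have hg : (1:ℝ) ≤ (Int.gcd v.1 v.2 : ℝ) := by exact_mod_cast gcd_pos hv
  have h1 : (v.1:ℝ) = (Int.gcd v.1 v.2 : ℝ) * ((pr v).1 : ℝ) := by exact_mod_cast e1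
  have h2 : (v.2:ℝ) = (Int.gcd v.1 v.2 : ℝ) * ((pr v).2 : ℝ) := by exact_mod_cast e2
  rw [h1, h2, mul_pow, mul_pow, ← mul_add]
  have h3 : 0 ≤ ((pr v).1:ℝ)^2 + ((pr v).2:ℝ)^2 := by positivity
  nlinarith [mul_self_nonneg ((Int.gcd v.1 v.2 : ℝ) - 1)]

/-- **Large sieve, collinear vectors grouped by rays.** -/
theorem ls_ray (N : ℝ) (hN : 1 ≤ N) (S : Finset (ℤ × ℤ))
    (hS : ∀ v ∈ S, v ≠ 0 ∧ (v.1:ℝ)^2 + (v.2:ℝ)^2 ≤ N) (J : ℕ) (a : ℤ × ℤ → ℂ) :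
    ∑ j ∈ Finset.Icc (-(J:ℤ)) J, ‖∑ v ∈ S, a v * dir v ^ j‖ ^ 2
      ≤ 800 * (N + J + 1) * ∑ u ∈ S.image pr, ‖∑ v ∈ S with pr v = u, a v‖ ^ 2 := by
  classical
  have h1 : ∀ j : ℤ, ∑ v ∈ S, a v * dir v ^ j
      = ∑ u ∈ S.image pr, (∑ v ∈ S with pr v = u, a v) * dir u ^ j := by
    intro j
    rw [← sum_fiberwise_of_maps_to (fun v hv => mem_image_of_mem pr hv)]
    refine sum_congr rfl fun u _ => ?_
    rw [sum_mul]
    refine sum_congr rfl fun v hv => ?_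
    rw [mem_filter] at hv
    rw [← hv.2, dir_pr (hS v hv.1).1]
  simp_rw [h1]
  exact ls_prim N hN (S.image pr) (by
    intro u hu
    rw [mem_image] at hu
    obtain ⟨v, hv, rfl⟩ := hu
    exact ⟨pr_coprime (hS v hv).1, (norm_pr_le (hS v hv).1).trans (hS v hv).2⟩) J _

end

end MRS19
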