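import Pool.Agent.Lib.MP_a17b09_nt.MRS.MomB16

/-! MRS, module MOM in abstract form (helper16): moments of `Q ^ l R` for commuting maps `m_P` on a
set with a size, a content and joint eigenfunctions. -/

set_option autoImplicit false

namespace Pool.Agent.MRS16a

open Finset

/-- sizes, contents and the maps of the primes -/
structure MSys (X ι : Type) where
  /-- the points in use -/
  Val : X → Prop
  /-- the prime below -/
  p : ι → ℕ
  /-- the map of a prime -/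
  m : ι → X → X
  /-- the size -/
  q : X → ℝ
  /-- the content -/
  g : X → ℕ
  /-- division by the content -/
  pr : X → X
  /-- the constant of the count -/
  C0 : ℝ

/-- `P` divides `x` -/
def MSys.D {X ι : Type} (M : MSys X ι) (P : ι) (x : X) : Prop := ∃ y, M.Val y ∧ x = M.m P y

/-- the axioms for a finite set of primes -/
structure MSys.Ax {X ι : Type} (M : MSys X ι) (Pi : Finset ι) : Prop where
  qpos : ∀ x, M.Val x → 0 < M.q x
  gpos : ∀ x, M.Val x → M.g x ≠ 0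
  prime : ∀ P ∈ Pi, (M.p P).Prime
  two : ∀ t ⊆ Pi, ∀ r, (∀ P ∈ t, M.p P = r) → t.card ≤ 2
  mval : ∀ P ∈ Pi, ∀ x, M.Val x → M.Val (M.m P x)
  mq : ∀ P ∈ Pi, ∀ x, M.Val x → M.q (M.m P x) = M.p P * M.q x
  minj : ∀ P ∈ Pi, ∀ x y, M.Val x → M.Val y → M.m P x = M.m P y → x = y
  dup : ∀ P ∈ Pi, ∀ P' ∈ Pi, ∀ x, M.Val x → M.D P' x → M.D P' (M.m P x)
  ddn : ∀ P ∈ Pi, ∀ P' ∈ Pi, P ≠ P' → ∀ x, M.Val x → M.D P' (M.m P x) → M.D P' x
  c0 : 0 ≤ M.C0
  cnt : ∀ (U : Finset X) (T : ℝ), 0 ≤ T → (∀ u ∈ U, M.Val u ∧ M.q u ≤ T) → (U.card : ℝ) ≤ M.C0 * T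
  prval : ∀ x, M.Val x → M.Val (M.pr x)
  prq : ∀ x, M.Val x → M.q x = (M.g x : ℝ) ^ 2 * M.q (M.pr x)
  prinj : ∀ x y, M.Val x → M.Val y → M.g x = M.g y → M.pr x = M.pr y → x = y
  prd : ∀ P ∈ Pi, ∀ x, M.Val x → M.D P x → M.p P ∣ M.g x ∨ M.D P (M.pr x)
  gm : ∀ P ∈ Pi, ∀ x, M.Val x → ∀ r : ℕ, r.Prime → r ∣ M.g (M.m P x) → r = M.p P ∨ r ∣ M.g x

section

variable {X ι : Type} (M : MSys X ι) {Pi : Finset ι}

open Classical in
/-- number of elements of `Pi` dividing `x` -/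
noncomputable def om (Pi : Finset ι) (x : X) : ℕ := (Pi.filter (fun P => M.D P x)).card

variable {M}

theorem om_le (h : M.Ax Pi) {P : ι} (hP : P ∈ Pi) {x : X} (hx : M.Val x) :
    om M Pi x ≤ om M Pi (M.m P x) := by
  classical
  unfold om
  apply Finset.card_le_card
  intro P' hP'
  rw [Finset.mem_filter] at hP' ⊢
  exact ⟨hP'.1, h.dup P hP P' hP'.1 x hx hP'.2⟩

/-- counting multiples -/
theorem card_mult (h : M.Ax Pi) : ∀ (t : Finset ι), t ⊆ Pi → ∀ (U : Finset X) (T : ℝ), 0 ≤ T →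
    (∀ u ∈ U, M.Val u ∧ M.q u ≤ T) → (∀ u ∈ U, ∀ P ∈ t, M.D P u) →
    (U.card : ℝ) ≤ M.C0 * T * ∏ P ∈ t, (1 / (M.p P : ℝ)) := by
  classical
  intro t
  induction t using Finset.induction_on with
  | empty =>
    intro _ U T hT hU _
    rw [Finset.prod_empty, mul_one]
    exact h.cnt U T hT hU
  | insert P t hPt ih =>
    intro hsub U T hT hU hD
    have hPP : P ∈ Pi := hsub (Finset.mem_insert_self P t)
    have hp0 : (0 : ℝ) < M.p P := by exact_mod_cast (h.prime P hPP).pos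
    have hex : ∀ u : X, ∃ y, u ∈ U → M.Val y ∧ u = M.m P y := by
      intro u
      by_cases hu : u ∈ U
      · obtain ⟨y, hy⟩ := hD u hu P (Finset.mem_insert_self P t)
        exact ⟨y, fun _ => hy⟩
      · exact ⟨u, fun h => absurd h hu⟩
    choose f hf using hex
    have hinj : Set.InjOn f U := by
      intro u hu v hv huv
      rw [(hf u hu).2, (hf v hv).2, huv]
    rw [← Finset.card_image_of_injOn hinj]
    have h1 := ih (fun x hx => hsub (Finset.mem_insert_of_mem hx)) (U.image f) (T / M.p P)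
      (by positivity) (by
        intro y hy
        obtain ⟨u, hu, rfl⟩ := Finset.mem_image.1 hy
        obtain ⟨h2, h3⟩ := hf u hu
        refine ⟨h2, ?_⟩
        have h4 := h.mq P hPP (f u) h2
        rw [← h3] at h4
        rw [le_div_iff₀ hp0]
        have h5 := (hU u hu).2
        rw [h4] at h5
        linarith) (by
        intro y hy P' hP'
        obtain ⟨u, hu, rfl⟩ := Finset.mem_image.1 hy
        obtain ⟨h2, h3⟩ := hf u hu
        apply h.ddn P hPP P' (hsub (Finset.mem_insert_of_mem hP')) (fun hE => hPt (hE ▸ hP'))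
          (f u) h2
        rw [← h3]
        exact hD u hu P' (Finset.mem_insert_of_mem hP'))
    rw [Finset.prod_insert hPt]
    calc ((U.image f).card : ℝ) ≤ M.C0 * (T / M.p P) * ∏ P ∈ t, (1 / (M.p P : ℝ)) := h1
      _ = _ := by ring

/-- the weighted count -/
theorem sum_pow (h : M.Ax Pi) (U : Finset X) (T : ℝ)
    (hT : 0 ≤ T) (hU : ∀ u ∈ U, M.Val u ∧ M.q u ≤ T) :
    ∑ u ∈ U, (11 / 10 : ℝ) ^ om M Pi u ≤
      M.C0 * T * ∏ P ∈ Pi, (1 + (1 / 10) / (M.p P : ℝ)) := by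
  classical
  have h1 : ∀ u, (11 / 10 : ℝ) ^ om M Pi u =
      ∑ t ∈ Pi.powerset, ∏ P ∈ t, (if M.D P u then (1 / 10 : ℝ) else 0) := by
    intro u
    rw [← Finset.prod_one_add]
    unfold om
    rw [← Finset.prod_const, Finset.prod_filter]
    apply Finset.prod_congr rfl
    intro p _
    split_ifs <;> norm_num
  have h2 : ∀ t ∈ Pi.powerset, ∑ u ∈ U, ∏ P ∈ t, (if M.D P u then (1 / 10 : ℝ) else 0) ≤
      M.C0 * T * ∏ P ∈ t, ((1 / 10) / (M.p P : ℝ)) := by
    intro t ht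
    have htP := Finset.mem_powerset.1 ht
    have h3 : ∀ u, ∏ P ∈ t, (if M.D P u then (1 / 10 : ℝ) else 0) =
        if (∀ P ∈ t, M.D P u) then (1 / 10 : ℝ) ^ t.card else 0 := by
      intro u
      split_ifs with h4
      · rw [← Finset.prod_const]
        apply Finset.prod_congr rfl
        intro p hp
        rw [if_pos (h4 p hp)]
      · push Not at h4
        obtain ⟨p, hp, hpu⟩ := h4
        apply Finset.prod_eq_zero hp
        rw [if_neg hpu]
    calc ∑ u ∈ U, ∏ P ∈ t, (if M.D P u then (1 / 10 : ℝ) else 0)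
        = ∑ u ∈ U, if (∀ P ∈ t, M.D P u) then (1 / 10 : ℝ) ^ t.card else 0 :=
          Finset.sum_congr rfl (fun u _ => h3 u)
      _ = (U.filter (fun u => ∀ P ∈ t, M.D P u)).card * (1 / 10 : ℝ) ^ t.card := by
          rw [← Finset.sum_filter, Finset.sum_const, nsmul_eq_mul]
      _ ≤ (M.C0 * T * ∏ P ∈ t, (1 / (M.p P : ℝ))) * (1 / 10 : ℝ) ^ t.card := by
          apply mul_le_mul_of_nonneg_right _ (by positivity)
          apply card_mult h t htP _ T hT
          · intro u hu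
            exact hU u (Finset.mem_filter.1 hu).1
          · intro u hu
            exact (Finset.mem_filter.1 hu).2
      _ = M.C0 * T * ∏ P ∈ t, ((1 / 10) / (M.p P : ℝ)) := by
          rw [Finset.prod_div_distrib, Finset.prod_div_distrib, Finset.prod_const,
            Finset.prod_const]
          ring
  calc ∑ u ∈ U, (11 / 10 : ℝ) ^ om M Pi u
      = ∑ u ∈ U, ∑ t ∈ Pi.powerset, ∏ P ∈ t, (if M.D P u then (1 / 10 : ℝ) else 0) :=
        Finset.sum_congr rfl (fun u _ => h1 u)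
    _ = ∑ t ∈ Pi.powerset, ∑ u ∈ U, ∏ P ∈ t, (if M.D P u then (1 / 10 : ℝ) else 0) :=
        Finset.sum_comm
    _ ≤ ∑ t ∈ Pi.powerset, M.C0 * T * ∏ P ∈ t, ((1 / 10) / (M.p P : ℝ)) := Finset.sum_le_sum h2
    _ = M.C0 * T * ∏ P ∈ Pi, (1 + (1 / 10) / (M.p P : ℝ)) := by
        rw [← Finset.mul_sum, Finset.prod_one_add]

/-- the primes of `Pi` dividing a rational integer -/
theorem card_dvd_le (h : M.Ax Pi) (n : ℕ) (hn : n ≠ 0) :
    (Pi.filter (fun P => M.p P ∣ n)).card ≤ 2 * n.primeFactorsList.length := by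
  classical
  set t := Pi.filter (fun P => M.p P ∣ n) with ht
  have h1 : t.card ≤ 2 * (t.image M.p).card := by
    apply Finset.card_le_mul_card_image
    intro r _
    apply h.two (t.filter (fun P => M.p P = r)) _ r
    · intro P hP
      exact (Finset.mem_filter.1 hP).2
    · intro P hP
      exact (Finset.mem_filter.1 (Finset.mem_filter.1 hP).1).1
  have h2 : t.image M.p ⊆ n.primeFactors := by
    intro r hr
    obtain ⟨P, hP, rfl⟩ := Finset.mem_image.1 hr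
    rw [Nat.mem_primeFactors]
    exact ⟨h.prime P (Finset.mem_filter.1 hP).1, (Finset.mem_filter.1 hP).2, hn⟩
  have h3 : n.primeFactors.card ≤ n.primeFactorsList.length := by
    rw [Nat.primeFactors]
    exact List.toFinset_card_le _
  have h4 := Finset.card_le_card h2
  omega

/-- all primes dividing the content of `x` lie in `q` -/
def GP (M : MSys X ι) (q : Finset ℕ) (x : X) : Prop := ∀ r : ℕ, r.Prime → r ∣ M.g x → r ∈ q

/-- the weighted count with the content -/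
theorem sum_g (h : M.Ax Pi) (q : Finset ℕ) (hq : ∀ r ∈ q, r.Prime)
    (V : Finset X) (T : ℝ) (hT : 0 ≤ T)
    (hV : ∀ x ∈ V, M.Val x ∧ M.q x ≤ T ∧ GP M q x) :
    ∑ x ∈ V, (11 / 10 : ℝ) ^ om M Pi x * (M.g x : ℝ) ≤
      M.C0 * T * (∏ P ∈ Pi, (1 + (1 / 10) / (M.p P : ℝ))) *
        ∏ r ∈ q, (1 - (121 / 100) / (r : ℝ))⁻¹ := by
  classical
  set A : ℝ := ∏ P ∈ Pi, (1 + (1 / 10) / (M.p P : ℝ)) with hA
  have hA0 : 0 ≤ A := Finset.prod_nonneg (fun p _ => by positivity)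
  have hc0 := h.c0
  have hfib : ∀ g ∈ V.image M.g, ∑ x ∈ V.filter (fun x => M.g x = g),
      (11 / 10 : ℝ) ^ om M Pi x * (M.g x : ℝ) ≤
      ((121 / 100 : ℝ) ^ (g.primeFactorsList.length) / g) * (M.C0 * T * A) := by
    intro g hg
    have hg0 : g ≠ 0 := by
      obtain ⟨v, hv, rfl⟩ := Finset.mem_image.1 hg
      exact h.gpos v (hV v hv).1
    have hgR : (0 : ℝ) < g := by exact_mod_cast Nat.pos_of_ne_zero hg0
    have hinj : Set.InjOn M.pr (V.filter (fun x => M.g x = g)) := by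
      intro u hu v hv huv
      obtain ⟨hu1, hu2⟩ := Finset.mem_filter.1 hu
      obtain ⟨hv1, hv2⟩ := Finset.mem_filter.1 hv
      exact h.prinj u v (hV u hu1).1 (hV v hv1).1 (hu2.trans hv2.symm) huv
    calc ∑ x ∈ V.filter (fun x => M.g x = g), (11 / 10 : ℝ) ^ om M Pi x * (M.g x : ℝ)
        ≤ ∑ x ∈ V.filter (fun x => M.g x = g),
          ((121 / 100 : ℝ) ^ (g.primeFactorsList.length) * g) *
            (11 / 10 : ℝ) ^ om M Pi (M.pr x) := by
          apply Finset.sum_le_sum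
          intro x hx
          obtain ⟨hx1, hx2⟩ := Finset.mem_filter.1 hx
          rw [hx2]
          have h2 : om M Pi x ≤ 2 * g.primeFactorsList.length + om M Pi (M.pr x) := by
            have h3 : om M Pi x ≤ (Pi.filter (fun P => M.p P ∣ g)).card + om M Pi (M.pr x) := by
              unfold om
              rw [← Finset.card_union_add_card_inter]
              refine le_trans (Finset.card_le_card ?_) (Nat.le_add_right _ _)
              intro P hP
              obtain ⟨hP1, hP2⟩ := Finset.mem_filter.1 hP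
              rw [Finset.mem_union, Finset.mem_filter, Finset.mem_filter]
              rcases h.prd P hP1 x (hV x hx1).1 hP2 with h4 | h4
              · left; exact ⟨hP1, hx2 ▸ h4⟩
              · right; exact ⟨hP1, h4⟩
            have h4 := card_dvd_le h g hg0
            omega
          have h5 : (11 / 10 : ℝ) ^ om M Pi x ≤ (121 / 100 : ℝ) ^ (g.primeFactorsList.length) *
              (11 / 10 : ℝ) ^ om M Pi (M.pr x) := by
            calc (11 / 10 : ℝ) ^ om M Pi x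
                ≤ (11 / 10 : ℝ) ^ (2 * g.primeFactorsList.length + om M Pi (M.pr x)) :=
                  pow_le_pow_right₀ (by norm_num) h2
              _ = _ := by rw [pow_add, pow_mul]; norm_num
          calc (11 / 10 : ℝ) ^ om M Pi x * (g : ℝ) ≤
              ((121 / 100 : ℝ) ^ (g.primeFactorsList.length) *
              (11 / 10 : ℝ) ^ om M Pi (M.pr x)) * g := mul_le_mul_of_nonneg_right h5 hgR.le
            _ = _ := by ring
      _ = ((121 / 100 : ℝ) ^ (g.primeFactorsList.length) * g) *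
          ∑ y ∈ (V.filter (fun x => M.g x = g)).image M.pr, (11 / 10 : ℝ) ^ om M Pi y := by
          rw [← Finset.mul_sum, Finset.sum_image hinj]
      _ ≤ ((121 / 100 : ℝ) ^ (g.primeFactorsList.length) * g) *
            (M.C0 * (T / (g : ℝ) ^ 2) * A) := by
          apply mul_le_mul_of_nonneg_left _ (by positivity)
          apply sum_pow h _ _ (by positivity)
          intro y hy
          obtain ⟨x, hx, rfl⟩ := Finset.mem_image.1 hy
          obtain ⟨hx1, hx2⟩ := Finset.mem_filter.1 hx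
          have h2 := hV x hx1
          refine ⟨h.prval x h2.1, ?_⟩
          have h3 := h.prq x h2.1
          rw [hx2] at h3
          rw [le_div_iff₀ (by positivity)]
          have h4 := h2.2.1
          rw [h3] at h4
          linarith
      _ = ((121 / 100 : ℝ) ^ (g.primeFactorsList.length) / g) * (M.C0 * T * A) := by
          field_simp
  calc ∑ x ∈ V, (11 / 10 : ℝ) ^ om M Pi x * (M.g x : ℝ)
      = ∑ g ∈ V.image M.g, ∑ x ∈ V.filter (fun x => M.g x = g),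
          (11 / 10 : ℝ) ^ om M Pi x * (M.g x : ℝ) := by
        rw [Finset.sum_fiberwise_of_maps_to (fun v hv => Finset.mem_image_of_mem M.g hv)]
    _ ≤ ∑ g ∈ V.image M.g, ((121 / 100 : ℝ) ^ (g.primeFactorsList.length) / g) *
          (M.C0 * T * A) := Finset.sum_le_sum hfib
    _ = (∑ g ∈ V.image M.g, ((121 / 100 : ℝ) ^ (g.primeFactorsList.length) / g)) *
          (M.C0 * T * A) := by
        rw [Finset.sum_mul]
    _ ≤ (∏ r ∈ q, (1 - (121 / 100) / (r : ℝ))⁻¹) * (M.C0 * T * A) := by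
        apply mul_le_mul_of_nonneg_right _ (by positivity)
        apply MRS16b.sum_smooth q hq (fun r hr => (hq r hr).two_le)
        intro g hg
        obtain ⟨x, hx, rfl⟩ := Finset.mem_image.1 hg
        exact ⟨h.gpos x (hV x hx).1, (hV x hx).2.2⟩
    _ = _ := by ring

theorem gp_m (h : M.Ax Pi) {q : Finset ℕ} (hq : ∀ P ∈ Pi, M.p P ∈ q) {P : ι} (hP : P ∈ Pi) {x : X}
    (hx : M.Val x) (hg : GP M q x) : GP M q (M.m P x) := by
  intro r hr hrg
  rcases h.gm P hP x hx r hr hrg with h1 | h1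
  · rw [h1]; exact hq P hP
  · exact hg r hr h1

/-- `Q ^ l R` as one sum -/
theorem rep (h : M.Ax Pi) {Ω : Type} (χ : Ω → X → ℂ) (cw : Ω → ι → ℂ)
    (hχ : ∀ w, ∀ P ∈ Pi, ∀ x, M.Val x → χ w (M.m P x) = cw w P * χ w x)
    (q : Finset ℕ) (hq : ∀ P ∈ Pi, M.p P ∈ q)
    (Z B1 Y B2 : ℝ) (hZ : 0 < Z) (hY : 0 < Y) (hB1 : 0 ≤ B1) (_hB2 : 0 ≤ B2)
    (hPi : ∀ P ∈ Pi, Z ≤ (M.p P : ℝ) ∧ (M.p P : ℝ) ≤ B1 * Z)
    (c : ι → ℂ) (hc : ∀ P ∈ Pi, ‖c P‖ ≤ 1) (S : Finset X)
    (hS : ∀ x ∈ S, M.Val x ∧ GP M q x ∧ Y ≤ M.q x ∧ M.q x ≤ B2 * Y)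
    (a : X → ℂ) (ha : ∀ x ∈ S, ‖a x‖ ≤ 1) :
    ∀ l : ℕ, ∃ (V : Finset X) (A : X → ℂ),
      (∀ x ∈ V, M.Val x ∧ Z ^ l * Y ≤ M.q x ∧ M.q x ≤ B1 ^ l * B2 * (Z ^ l * Y) ∧
        GP M q x ∧ ‖A x‖ ≤ (om M Pi x : ℝ) ^ l / (Z ^ l * Y)) ∧
      ∀ w : Ω, (∑ P ∈ Pi, c P / (M.p P : ℂ) * cw w P) ^ l *
        ((1 / (Y : ℂ)) * ∑ x ∈ S, a x * χ w x) = ∑ x ∈ V, A x * χ w x := by
  classical
  intro l
  induction l with
  | zero =>
    refine ⟨S, fun x => a x / (Y : ℂ), ?_, ?_⟩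
    · intro x hx
      obtain ⟨h1, h2, h3, h4⟩ := hS x hx
      refine ⟨h1, by simpa using h3, by simpa using h4, h2, ?_⟩
      rw [norm_div, Complex.norm_real, Real.norm_of_nonneg hY.le]
      simp only [pow_zero, one_mul]
      exact div_le_div_of_nonneg_right (ha x hx) hY.le
    · intro w
      rw [pow_zero, one_mul, Finset.mul_sum]
      apply Finset.sum_congr rfl
      intro m _
      ring
  | succ l ih =>
    obtain ⟨V, A, hV, hA⟩ := ih
    set V' : Finset X := (Pi ×ˢ V).image (fun x => M.m x.1 x.2) with hV'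
    set A' : X → ℂ := fun y => ∑ x ∈ (Pi ×ˢ V).filter (fun x => M.m x.1 x.2 = y),
      c x.1 / (M.p x.1 : ℂ) * A x.2 with hA'
    refine ⟨V', A', ?_, ?_⟩
    · intro y hy
      obtain ⟨⟨P, v⟩, hx, hpv⟩ := Finset.mem_image.1 hy
      simp only at hpv
      obtain ⟨hp, hv⟩ := Finset.mem_product.1 hx
      simp only at hp hv
      obtain ⟨v1, v2, v3, v4, v5⟩ := hV v hv
      have hpp := hPi P hp
      have hqv := h.qpos v v1
      refine ⟨?_, ?_, ?_, ?_, ?_⟩
      · rw [← hpv]; exact h.mval P hp v v1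
      · rw [← hpv, h.mq P hp v v1, pow_succ]
        calc Z ^ l * Z * Y = Z * (Z ^ l * Y) := by ring
          _ ≤ (M.p P : ℝ) * M.q v :=
            mul_le_mul hpp.1 v2 (by positivity) (le_trans hZ.le hpp.1)
      · rw [← hpv, h.mq P hp v v1, pow_succ, pow_succ]
        calc (M.p P : ℝ) * M.q v ≤ (B1 * Z) * (B1 ^ l * B2 * (Z ^ l * Y)) :=
              mul_le_mul hpp.2 v3 hqv.le (by positivity)
          _ = _ := by ring
      · rw [← hpv]; exact gp_m h hq hp v1 v4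
      · have hcard : (((Pi ×ˢ V).filter (fun x => M.m x.1 x.2 = y)).card : ℝ) ≤ om M Pi y := by
          norm_cast
          unfold om
          apply Finset.card_le_card_of_injOn (fun x => x.1)
          · intro x hx'
            obtain ⟨hx1, hx2⟩ := Finset.mem_filter.1 hx'
            rw [Finset.mem_coe, Finset.mem_filter]
            exact ⟨(Finset.mem_product.1 hx1).1, ⟨x.2, (hV x.2 (Finset.mem_product.1 hx1).2).1,
              hx2.symm⟩⟩
          · intro x hx' z hz' hxz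
            obtain ⟨hx1, hx2⟩ := Finset.mem_filter.1 hx'
            obtain ⟨hz1, hz2⟩ := Finset.mem_filter.1 hz'
            simp only at hxz
            refine Prod.ext hxz ?_
            apply h.minj x.1 (Finset.mem_product.1 hx1).1 x.2 z.2
              (hV x.2 (Finset.mem_product.1 hx1).2).1 (hV z.2 (Finset.mem_product.1 hz1).2).1
            rw [hx2, hxz, hz2]
        have hterm : ∀ x ∈ (Pi ×ˢ V).filter (fun x => M.m x.1 x.2 = y),
            ‖c x.1 / (M.p x.1 : ℂ) * A x.2‖ ≤ (om M Pi y : ℝ) ^ l / (Z ^ (l + 1) * Y) := by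
          intro x hx'
          obtain ⟨hx1, hx2⟩ := Finset.mem_filter.1 hx'
          obtain ⟨hx3, hx4⟩ := Finset.mem_product.1 hx1
          obtain ⟨w1, w2, w3, w4, w5⟩ := hV x.2 hx4
          have hxp := hPi x.1 hx3
          have hn0 : (0 : ℝ) < M.p x.1 := by exact_mod_cast (h.prime x.1 hx3).pos
          rw [norm_mul, norm_div, Complex.norm_natCast]
          have e1 : ‖c x.1‖ / (M.p x.1 : ℝ) ≤ 1 / Z := by
            calc ‖c x.1‖ / (M.p x.1 : ℝ) ≤ 1 / (M.p x.1 : ℝ) :=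
                  div_le_div_of_nonneg_right (hc x.1 hx3) hn0.le
              _ ≤ 1 / Z := one_div_le_one_div_of_le hZ hxp.1
          have e2 : (om M Pi x.2 : ℝ) ≤ om M Pi y := by
            have := om_le h hx3 w1
            rw [hx2] at this
            exact_mod_cast this
          have e3 : ‖A x.2‖ ≤ (om M Pi y : ℝ) ^ l / (Z ^ l * Y) := by
            refine le_trans w5 ?_
            apply div_le_div_of_nonneg_right _ (by positivity)
            exact pow_le_pow_left₀ (by positivity) e2 l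
          calc ‖c x.1‖ / (M.p x.1 : ℝ) * ‖A x.2‖ ≤
                (1 / Z) * ((om M Pi y : ℝ) ^ l / (Z ^ l * Y)) :=
                mul_le_mul e1 e3 (norm_nonneg _) (by positivity)
            _ = _ := by
                rw [pow_succ]
                field_simp
        calc ‖A' y‖ ≤ ∑ x ∈ (Pi ×ˢ V).filter (fun x => M.m x.1 x.2 = y),
              ‖c x.1 / (M.p x.1 : ℂ) * A x.2‖ := norm_sum_le _ _
          _ ≤ ∑ x ∈ (Pi ×ˢ V).filter (fun x => M.m x.1 x.2 = y),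
              (om M Pi y : ℝ) ^ l / (Z ^ (l + 1) * Y) := Finset.sum_le_sum hterm
          _ = ((Pi ×ˢ V).filter (fun x => M.m x.1 x.2 = y)).card *
              ((om M Pi y : ℝ) ^ l / (Z ^ (l + 1) * Y)) := by
              rw [Finset.sum_const, nsmul_eq_mul]
          _ ≤ (om M Pi y : ℝ) * ((om M Pi y : ℝ) ^ l / (Z ^ (l + 1) * Y)) :=
              mul_le_mul_of_nonneg_right hcard (by positivity)
          _ = (om M Pi y : ℝ) ^ (l + 1) / (Z ^ (l + 1) * Y) := by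
              rw [pow_succ (om M Pi y : ℝ)]; ring
    · intro w
      rw [pow_succ', mul_assoc, hA w, Finset.sum_mul_sum, ← Finset.sum_product']
      have h1 : ∀ x ∈ Pi ×ˢ V, (fun x : ι × X => M.m x.1 x.2) x ∈ V' :=
        fun x hx => Finset.mem_image_of_mem _ hx
      rw [← Finset.sum_fiberwise_of_maps_to h1]
      apply Finset.sum_congr rfl
      intro y _
      rw [hA']
      simp only
      rw [Finset.sum_mul]
      apply Finset.sum_congr rfl
      intro x hx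
      obtain ⟨hx1, hx2⟩ := Finset.mem_filter.1 hx
      obtain ⟨hx3, hx4⟩ := Finset.mem_product.1 hx1
      rw [← hx2, hχ w x.1 hx3 x.2 (hV x.2 hx4).1]
      ring

theorem prod_one_add_le (h : M.Ax Pi) :
    ∏ P ∈ Pi, (1 + (1 / 10) / (M.p P : ℝ)) ≤ Real.exp (∑ P ∈ Pi, 1 / (M.p P : ℝ)) := by
  have _ := h
  rw [Real.exp_sum]
  apply Finset.prod_le_prod
  · intro p _
    positivity
  · intro P _
    have h1 : (0 : ℝ) ≤ 1 / (M.p P : ℝ) := by positivity
    calc 1 + (1 / 10) / (M.p P : ℝ) = (1 / 10) * (1 / (M.p P : ℝ)) + 1 := by ring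
      _ ≤ (1 / (M.p P : ℝ)) + 1 := by linarith
      _ ≤ Real.exp (1 / (M.p P : ℝ)) := Real.add_one_le_exp _

/-- the large sieve for the characters `χ` -/
def LSA (M : MSys X ι) {Ω : Type} (χ : Ω → X → ℂ) (FJ : Finset Ω) (J C : ℝ) : Prop :=
  ∀ (S : Finset X) (N B : ℝ) (a : X → ℂ), 1 ≤ N → 1 ≤ B →
  (∀ x ∈ S, M.Val x ∧ N ≤ M.q x ∧ M.q x ≤ B * N) →
  ∑ w ∈ FJ, ‖∑ x ∈ S, a x * χ w x‖ ^ 2 ≤
    C * B ^ 2 * ∑ x ∈ S, ‖a x‖ ^ 2 * (N + (J + 1) * (M.g x : ℝ))

/-- MOM: moments of `Q ^ l R` -/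
theorem mom_abs (h : M.Ax Pi) {Ω : Type} (χ : Ω → X → ℂ) (cw : Ω → ι → ℂ)
    (hχ : ∀ w, ∀ P ∈ Pi, ∀ x, M.Val x → χ w (M.m P x) = cw w P * χ w x)
    (FJ : Finset Ω) {J C : ℝ} (hJ : 0 ≤ J) (hC : 0 ≤ C) (hLS : LSA M χ FJ J C)
    (q : Finset ℕ) (hqp : ∀ r ∈ q, r.Prime) (hq : ∀ P ∈ Pi, M.p P ∈ q)
    (Z B1 Y B2 : ℝ) (hZ : 1 ≤ Z) (hY : 1 ≤ Y) (hB1 : 1 ≤ B1) (hB2 : 1 ≤ B2)
    (hPi : ∀ P ∈ Pi, Z ≤ (M.p P : ℝ) ∧ (M.p P : ℝ) ≤ B1 * Z)
    (c : ι → ℂ) (hc : ∀ P ∈ Pi, ‖c P‖ ≤ 1) (S : Finset X)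
    (hS : ∀ x ∈ S, M.Val x ∧ GP M q x ∧ Y ≤ M.q x ∧ M.q x ≤ B2 * Y)
    (a : X → ℂ) (ha : ∀ x ∈ S, ‖a x‖ ≤ 1) (l : ℕ) :
    ∑ w ∈ FJ, ‖(∑ P ∈ Pi, c P / (M.p P : ℂ) * cw w P) ^ l *
        ((1 / (Y : ℂ)) * ∑ x ∈ S, a x * χ w x)‖ ^ 2 ≤
      2 * M.C0 * C * (B1 ^ l * B2) ^ 3 * (121 ^ l * ((2 * l).factorial : ℝ)) *
        (1 + J / (Z ^ l * Y)) *
        Real.exp (∑ P ∈ Pi, 1 / (M.p P : ℝ) + 4 * ∑ r ∈ q, 1 / (r : ℝ)) := by
  classical
  obtain ⟨V, A, hV, hA⟩ := rep h χ cw hχ q hq Z B1 Y B2 (by linarith) (by linarith) (by linarith)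
    (by linarith) hPi c hc S hS a ha l
  have hZ0 : (0 : ℝ) < Z := by linarith
  have hc0 := h.c0
  have hW : (1 : ℝ) ≤ Z ^ l * Y := by
    have h1 : (1 : ℝ) ≤ Z ^ l := one_le_pow₀ hZ
    nlinarith
  set W : ℝ := Z ^ l * Y with hWd
  have hB : (1 : ℝ) ≤ B1 ^ l * B2 := by
    have h1 : (1 : ℝ) ≤ B1 ^ l := one_le_pow₀ hB1
    nlinarith
  set B : ℝ := B1 ^ l * B2 with hBd
  have hls := hLS V W B A hW hB (fun v hv => ⟨(hV v hv).1, (hV v hv).2.1, (hV v hv).2.2.1⟩)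
  have hsum := sum_g h q hqp V (B * W) (by positivity)
    (fun v hv => ⟨(hV v hv).1, (hV v hv).2.2.1, (hV v hv).2.2.2.1⟩)
  have hprod1 := prod_one_add_le h
  have hprod2 := MRS16b.prod_inv_le q (fun r hr => (hqp r hr).two_le)
  set E : ℝ := ∑ P ∈ Pi, 1 / (M.p P : ℝ) with hEd
  set G : ℝ := ∑ r ∈ q, 1 / (r : ℝ) with hGd
  have hprod : (∏ P ∈ Pi, (1 + (1 / 10) / (M.p P : ℝ))) *
      ∏ r ∈ q, (1 - (121 / 100) / (r : ℝ))⁻¹ ≤ Real.exp (E + 4 * G) := by
    rw [Real.exp_add]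
    apply mul_le_mul hprod1 hprod2 _ (Real.exp_pos _).le
    apply Finset.prod_nonneg
    intro p hp
    have h1 : (2 : ℝ) ≤ p := by exact_mod_cast (hqp p hp).two_le
    have h2 : (121 / 100 : ℝ) / p ≤ 121 / 200 := by
      rw [div_le_iff₀ (by linarith)]; linarith
    have h3 : (0 : ℝ) < 1 - (121 / 100) / p := by linarith
    positivity
  have hterm : ∀ v ∈ V, ‖A v‖ ^ 2 * (W + (J + 1) * (M.g v : ℝ)) ≤
      (121 ^ l * ((2 * l).factorial : ℝ) * (2 / W) * (1 + J / W)) *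
        ((11 / 10 : ℝ) ^ om M Pi v * (M.g v : ℝ)) := by
    intro v hv
    obtain ⟨v1, v2, v3, v4, v5⟩ := hV v hv
    have hg1 : (1 : ℝ) ≤ (M.g v : ℝ) := by
      have := Nat.pos_of_ne_zero (h.gpos v v1)
      exact_mod_cast this
    have e1 : ‖A v‖ ^ 2 ≤
        121 ^ l * ((2 * l).factorial : ℝ) * (11 / 10 : ℝ) ^ om M Pi v / W ^ 2 := by
      calc ‖A v‖ ^ 2 ≤ ((om M Pi v : ℝ) ^ l / W) ^ 2 :=
            pow_le_pow_left₀ (norm_nonneg (A v)) v5 2
        _ = (om M Pi v : ℝ) ^ (2 * l) / W ^ 2 := by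
            rw [div_pow, ← pow_mul, mul_comm l 2]
        _ ≤ _ := div_le_div_of_nonneg_right (MRS16b.pow_le_fact _ _) (by positivity)
    have e2 : W + (J + 1) * (M.g v : ℝ) ≤ 2 * W * (1 + J / W) * (M.g v : ℝ) := by
      have e4 : 2 * W * (1 + J / W) = 2 * W + 2 * J := by field_simp
      rw [e4]
      nlinarith
    have hgR : (0 : ℝ) ≤ W + (J + 1) * (M.g v : ℝ) := by positivity
    calc ‖A v‖ ^ 2 * (W + (J + 1) * (M.g v : ℝ))
        ≤ (121 ^ l * ((2 * l).factorial : ℝ) * (11 / 10 : ℝ) ^ om M Pi v / W ^ 2) *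
          (2 * W * (1 + J / W) * (M.g v : ℝ)) := mul_le_mul e1 e2 hgR (by positivity)
      _ = _ := by field_simp
  have hmain : ∑ v ∈ V, ‖A v‖ ^ 2 * (W + (J + 1) * (M.g v : ℝ)) ≤
      (121 ^ l * ((2 * l).factorial : ℝ) * (2 / W) * (1 + J / W)) *
        (M.C0 * (B * W) * Real.exp (E + 4 * G)) := by
    calc ∑ v ∈ V, ‖A v‖ ^ 2 * (W + (J + 1) * (M.g v : ℝ))
        ≤ ∑ v ∈ V, (121 ^ l * ((2 * l).factorial : ℝ) * (2 / W) * (1 + J / W)) *
          ((11 / 10 : ℝ) ^ om M Pi v * (M.g v : ℝ)) := Finset.sum_le_sum hterm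
      _ = (121 ^ l * ((2 * l).factorial : ℝ) * (2 / W) * (1 + J / W)) *
          ∑ v ∈ V, ((11 / 10 : ℝ) ^ om M Pi v * (M.g v : ℝ)) := by rw [Finset.mul_sum]
      _ ≤ _ := by
          apply mul_le_mul_of_nonneg_left _ (by positivity)
          calc ∑ v ∈ V, ((11 / 10 : ℝ) ^ om M Pi v * (M.g v : ℝ)) ≤ _ := hsum
            _ = M.C0 * (B * W) * ((∏ P ∈ Pi, (1 + (1 / 10) / (M.p P : ℝ))) *
                ∏ r ∈ q, (1 - (121 / 100) / (r : ℝ))⁻¹) := by ring
            _ ≤ _ := mul_le_mul_of_nonneg_left hprod (by positivity)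
  calc ∑ w ∈ FJ, ‖(∑ P ∈ Pi, c P / (M.p P : ℂ) * cw w P) ^ l *
        ((1 / (Y : ℂ)) * ∑ x ∈ S, a x * χ w x)‖ ^ 2
      = ∑ w ∈ FJ, ‖∑ v ∈ V, A v * χ w v‖ ^ 2 := by
        apply Finset.sum_congr rfl
        intro w _
        rw [hA w]
    _ ≤ C * B ^ 2 * ∑ v ∈ V, ‖A v‖ ^ 2 * (W + (J + 1) * (M.g v : ℝ)) := hls
    _ ≤ C * B ^ 2 * ((121 ^ l * ((2 * l).factorial : ℝ) * (2 / W) * (1 + J / W)) *
          (M.C0 * (B * W) * Real.exp (E + 4 * G))) :=
        mul_le_mul_of_nonneg_left hmain (by positivity)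
    _ = _ := by field_simp

end

end Pool.Agent.MRS16a
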