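import Pool.Agent.Lib.MP_a17b09_nt.MRS.XferC79

/-!
Project MRS: from the sum of two squares to all forms of discriminant `-4 m ^ 2`.
-/

set_option autoImplicit false

open Filter Topology Finset

namespace Pool.Agent.Lib.MP_a17b09_nt.CH

open PE MRS MRS.Glue90

namespace X79

theorem q_rel {Q : Form} {c : ℕ} {A : Mat} (h1 : Q.a = c * (A.a ^ 2 + A.c ^ 2))
    (h2 : Q.b = 2 * c * (A.a * A.b + A.c * A.d)) (h3 : Q.c = c * (A.b ^ 2 + A.d ^ 2)) (v : V) :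
    Q.q v = c * Q1.q (A.app v) := by
  unfold Form.q Q1 Mat.app
  rw [h1, h2, h3]
  simp only
  ring

theorem q1_smul (g : ℤ) (w : V) : Q1.q (g • w) = g ^ 2 * Q1.q w := by
  unfold Form.q Q1
  simp only [Prod.smul_fst, Prod.smul_snd, smul_eq_mul]
  ring

theorem tq1_smul (g : ℤ) (w : V) : tq Q1 (g • w) = (g : ℂ) * tq Q1 w := by
  rw [tq_Q1, tq_Q1, GaussianInt.toComplex_def, GaussianInt.toComplex_def]
  simp only [Prod.smul_fst, Prod.smul_snd, smul_eq_mul]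
  push_cast
  ring

open Classical in
/-- the coefficients -/
noncomputable def kap (A : Mat) (z : ℂ) (K K' c : ℕ) (α : ZMod K × ZMod K)
    (g : ℕ) (β : ZMod K' × ZMod K') : ℂ :=
  if ∃ v, Pc A K K' α g β v then z ^ ArithmeticFunction.cardFactors (c * g ^ 2) else 0

/-- the decomposition of the shell sums -/
theorem decomp {Q : Form} (hQ : Q.Pos) {c : ℕ} {A : Mat} (hc : 0 < c)
    (h1 : Q.a = c * (A.a ^ 2 + A.c ^ 2)) (h2 : Q.b = 2 * c * (A.a * A.b + A.c * A.d))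
    (h3 : Q.c = c * (A.b ^ 2 + A.d ^ 2)) {s : ℝ} {t : ℂ} (hs : 0 < s) (ht : ‖t‖ = 1)
    (htq : ∀ v : V, tq Q v = (s : ℂ) * (t * tq Q1 (A.app v)))
    {N : ℕ} (hN : (N : ℤ) = A.det) (hN0 : 0 < N) (z : ℂ) (K : ℕ) [NeZero K] [NeZero (N * N * K)]
    (α : ZMod K × ZMod K) (r1 r2 : ℝ) (hr2 : 0 < r2) (n : ℕ) (j : ℤ) :
    Msh Q (gc z Q K α) r1 r2 n j = ∑ p ∈ N.divisors ×ˢ (univ : Finset (ZMod (N * N * K) × ZMod (N * N * K))),
      kap A z K (N * N * K) c α p.1 p.2 * t ^ j *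
        Msh Q1 (gc z Q1 (N * N * K) p.2) (r1 / (c * p.1 ^ 2)) (r2 / (c * p.1 ^ 2)) n j := by
  classical
  have hcR : (0 : ℝ) < c := by exact_mod_cast hc
  have hdet : A.det ≠ 0 := by rw [← hN]; exact_mod_cast hN0.ne'
  unfold Msh
  simp only [mul_left_comm _ (1 / (n : ℂ))]
  rw [← Finset.mul_sum]
  congr 1
  -- the set of vectors
  set T : Finset V := ((Q.ball ⌊r2 * n⌋₊).filter (fun v => r1 * n < Q.q v)).filter
    (fun v => Prim v ∧ cl K v = α) with hT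
  have e1 : ∑ v ∈ (Q.ball ⌊r2 * n⌋₊).filter (fun v => r1 * n < Q.q v),
      gc z Q K α v * uv Q v ^ j = ∑ v ∈ T, gz z Q v * uv Q v ^ j := by
    rw [hT, Finset.sum_filter (fun v => Prim v ∧ cl K v = α)]
    apply Finset.sum_congr rfl
    intro v _
    unfold gc
    split_ifs with h
    · rfl
    · rw [zero_mul]
  rw [e1]
  -- gcd and direction
  have hgw : ∀ v : V, Prim v → ∃ (g : ℕ) (w : V), g ∈ N.divisors ∧ Prim w ∧ A.app v = (g : ℤ) • w := by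
    intro v hv
    set g : ℕ := Int.gcd (A.app v).1 (A.app v).2 with hg
    have hg0 : 0 < g := by
      rcases Nat.eq_zero_or_pos g with h | h
      · exfalso
        rw [hg, Int.gcd_eq_zero_iff] at h
        have h4 : A.app v = A.app 0 := by
          apply Prod.ext
          · rw [h.1]; simp [Mat.app]
          · rw [h.2]; simp [Mat.app]
        exact ne_zero_of_prim90 hv (app_inj hdet h4)
      · exact h
    obtain ⟨a, ha⟩ := Int.gcd_dvd_left (A.app v).1 (A.app v).2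
    obtain ⟨b, hb⟩ := Int.gcd_dvd_right (A.app v).1 (A.app v).2
    have hA : A.app v = (g : ℤ) • ((a, b) : V) := by
      apply Prod.ext
      · simp only [Prod.smul_fst, smul_eq_mul]; exact ha
      · simp only [Prod.smul_snd, smul_eq_mul]; exact hb
    refine ⟨g, (a, b), ?_, ?_, hA⟩
    · rw [Nat.mem_divisors]
      refine ⟨?_, hN0.ne'⟩
      have := g_dvd hv hA
      rw [← hN] at this
      exact_mod_cast this
    · have h5 : Int.gcd ((g : ℤ) * a) ((g : ℤ) * b) = g := by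
        rw [← ha, ← hb]
      rw [Int.gcd_mul_left, Int.natAbs_natCast] at h5
      have h6 : g * Int.gcd a b = g * 1 := by rw [mul_one]; exact h5
      exact Nat.eq_of_mul_eq_mul_left hg0 h6
  choose! G W hG hW hGW using hgw
  have hmaps : ∀ v ∈ T, (G v, cl (N * N * K) (W v)) ∈
      N.divisors ×ˢ (univ : Finset (ZMod (N * N * K) × ZMod (N * N * K))) := by
    intro v hv
    rw [hT, Finset.mem_filter] at hv
    rw [Finset.mem_product]
    exact ⟨hG v hv.2.1, Finset.mem_univ _⟩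
  rw [← Finset.sum_fiberwise_of_maps_to hmaps]
  apply Finset.sum_congr rfl
  rintro ⟨g, β⟩ hp
  rw [Finset.mem_product] at hp
  have hgN : g ∣ N := Nat.dvd_of_mem_divisors hp.1
  have hg0 : 0 < g := Nat.pos_of_dvd_of_pos hgN hN0
  have hgR : (0 : ℝ) < g := by exact_mod_cast hg0
  simp only
  unfold kap
  have hmem : ∀ v, v ∈ T.filter (fun v => (G v, cl (N * N * K) (W v)) = (g, β)) ↔
      (v ∈ (Q.ball ⌊r2 * n⌋₊).filter (fun v => r1 * n < Q.q v) ∧ Prim v ∧ cl K v = α) ∧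
        G v = g ∧ cl (N * N * K) (W v) = β := by
    intro v
    rw [Finset.mem_filter, hT, Finset.mem_filter]
    constructor
    · rintro ⟨a, b⟩
      exact ⟨a, congrArg Prod.fst b, congrArg Prod.snd b⟩
    · rintro ⟨a, b, b'⟩
      exact ⟨a, Prod.ext b b'⟩
  by_cases hex : ∃ v, Pc A K (N * N * K) α g β v
  · rw [if_pos hex]
    obtain ⟨v0, hv0⟩ := hex
    -- the sum over the sum of two squares
    have e2 : ∑ w ∈ (Q1.ball ⌊r2 / (c * (g : ℝ) ^ 2) * n⌋₊).filter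
        (fun w => r1 / (c * (g : ℝ) ^ 2) * n < Q1.q w), gc z Q1 (N * N * K) β w * uv Q1 w ^ j =
        ∑ w ∈ ((Q1.ball ⌊r2 / (c * (g : ℝ) ^ 2) * n⌋₊).filter
        (fun w => r1 / (c * (g : ℝ) ^ 2) * n < Q1.q w)).filter
          (fun w => Prim w ∧ cl (N * N * K) w = β), gz z Q1 w * uv Q1 w ^ j := by
      rw [Finset.sum_filter (fun w => Prim w ∧ cl (N * N * K) w = β)]
      apply Finset.sum_congr rfl
      intro v _
      unfold gc
      split_ifs with h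
      · rfl
      · rw [zero_mul]
    rw [e2, Finset.mul_sum]
    -- relations for a vector and its direction
    have hrel : ∀ v w : V, A.app v = (g : ℤ) • w → (Q.q v : ℝ) = c * (g : ℝ) ^ 2 * Q1.q w := by
      intro v w h
      rw [q_rel h1 h2 h3 v, h, q1_smul]
      push_cast
      ring
    have hball : ∀ v w : V, A.app v = (g : ℤ) • w →
        (v ∈ (Q.ball ⌊r2 * n⌋₊).filter (fun v => r1 * n < Q.q v) ↔
        w ∈ (Q1.ball ⌊r2 / (c * (g : ℝ) ^ 2) * n⌋₊).filter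
          (fun w => r1 / (c * (g : ℝ) ^ 2) * n < Q1.q w)) := by
      intro v w h
      have h4 := hrel v w h
      have hcg : (0 : ℝ) < c * (g : ℝ) ^ 2 := by positivity
      have hn : (0 : ℝ) ≤ n := Nat.cast_nonneg n
      rw [Finset.mem_filter, Finset.mem_filter, Form.mem_ball hQ, Form.mem_ball Q1_pos]
      have f1 : ∀ (P : Form) (hP : P.Pos) (u : V) (x : ℝ), 0 ≤ x →
          (P.q u ≤ ((⌊x⌋₊ : ℕ) : ℤ) ↔ (P.q u : ℝ) ≤ x) := by
        intro P hP u x hx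
        obtain ⟨m, hm⟩ := Int.eq_ofNat_of_zero_le (hP.q_nonneg u)
        rw [hm]
        rw [Int.ofNat_le, Nat.le_floor_iff hx]
        simp
      rw [f1 Q hQ v _ (by positivity), f1 Q1 Q1_pos w _ (by positivity), h4]
      have g1 : r2 / (c * (g : ℝ) ^ 2) * n = r2 * n / (c * (g : ℝ) ^ 2) := by ring
      have g2 : r1 / (c * (g : ℝ) ^ 2) * n = r1 * n / (c * (g : ℝ) ^ 2) := by ring
      rw [g1, g2, le_div_iff₀ hcg, div_lt_iff₀ hcg]
      constructor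
      · rintro ⟨a, b⟩; exact ⟨by linarith, by linarith⟩
      · rintro ⟨a, b⟩; exact ⟨by linarith, by linarith⟩
    apply Finset.sum_bij (fun v _ => W v)
    · -- membership
      intro v hv
      rw [hmem] at hv
      obtain ⟨⟨hb, hpv, hα⟩, hGv, hWv⟩ := hv
      have h5 := hGW v hpv
      rw [hGv] at h5
      rw [Finset.mem_filter]
      exact ⟨(hball v (W v) h5).1 hb, hW v hpv, hWv⟩
    · -- injectivity
      intro v hv v' hv' hvv
      rw [hmem] at hv hv'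
      have h5 := hGW v hv.1.2.1
      have h6 := hGW v' hv'.1.2.1
      rw [hv.2.1] at h5
      rw [hv'.2.1, ← hvv] at h6
      exact app_inj hdet (h5.trans h6.symm)
    · -- surjectivity
      intro w hw
      rw [Finset.mem_filter] at hw
      obtain ⟨hwb, hpw, hwβ⟩ := hw
      obtain ⟨v, hpv, hα, hAv⟩ := ext_cls hN hN0 hv0 hpw hwβ
      have h5 := hGW v hpv
      rw [hAv] at h5
      obtain ⟨h6, h7⟩ := smul_prim_inj hg0 hpw (hW v hpv) h5
      refine ⟨v, ?_, h7.symm⟩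
      rw [hmem]
      refine ⟨⟨(hball v w hAv).2 hwb, hpv, hα⟩, h6.symm, ?_⟩
      rw [← h7]; exact hwβ
    · -- values
      intro v hv
      rw [hmem] at hv
      obtain ⟨⟨hb, hpv, hα⟩, hGv, hWv⟩ := hv
      have h5 := hGW v hpv
      rw [hGv] at h5
      have hW0 : W v ≠ 0 := ne_zero_of_prim90 (hW v hpv)
      have hq0 : 0 < Q1.q (W v) := Q1_pos.q_pos hW0
      have h6 : (Q.q v).natAbs = (c * g ^ 2) * (Q1.q (W v)).natAbs := by
        rw [q_rel h1 h2 h3 v, h5, q1_smul, Int.natAbs_mul, Int.natAbs_mul, Int.natAbs_pow,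
          Int.natAbs_natCast, Int.natAbs_natCast, mul_assoc]
      have h7 : gz z Q v = z ^ ArithmeticFunction.cardFactors (c * g ^ 2) * gz z Q1 (W v) := by
        unfold gz
        rw [h6, ArithmeticFunction.cardFactors_mul (by positivity) (by
          exact Int.natAbs_ne_zero.2 hq0.ne'), pow_add]
      have h8 : tq Q v = ((s * g : ℝ) : ℂ) * (t * tq Q1 (W v)) := by
        rw [htq v, h5, tq1_smul]
        push_cast
        ring
      have h9 : uv Q v = t * uv Q1 (W v) := by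
        unfold uv
        rw [h8, norm_mul, norm_mul, ht, one_mul, Complex.norm_real,
          Real.norm_of_nonneg (by positivity)]
        have hsg : ((s * g : ℝ) : ℂ) ≠ 0 := by
          have : s * g ≠ 0 := by positivity
          exact_mod_cast this
        push_cast at hsg ⊢
        rw [mul_div_mul_left _ _ hsg, mul_div_assoc]
      rw [h7, h9, mul_zpow]
      ring
  · rw [if_neg hex, zero_mul, zero_mul]
    apply Finset.sum_eq_zero
    intro v hv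
    exfalso
    apply hex
    rw [hmem] at hv
    obtain ⟨⟨hb, hpv, hα⟩, hGv, hWv⟩ := hv
    have h5 := hGW v hpv
    rw [hGv] at h5
    exact ⟨v, hpv, hα, W v, hW v hpv, hWv, h5⟩

open Classical in
theorem kap_le {A : Mat} {z : ℂ} (hz : ‖z‖ = 1) (K K' c : ℕ) (α : ZMod K × ZMod K)
    (g : ℕ) (β : ZMod K' × ZMod K') : ‖kap A z K K' c α g β‖ ≤ 1 := by
  unfold kap
  split_ifs
  · rw [norm_pow, hz, one_pow]
  · rw [norm_zero]; exact zero_le_one

end X79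

open X79 in
/-- the interface for all forms of discriminant `-4 m ^ 2`, from the sum of two squares -/
theorem mrsQ_xfer79 {z : ℂ} (hz : ‖z‖ = 1) (h0 : ∀ K : ℕ, 0 < K → MrsQ Q1 z K) {Q : Form}
    (hQ : Q.Pos) (hm : ∃ m : ℤ, Q.D = 4 * m ^ 2) (K : ℕ) (hK : 0 < K) : MrsQ Q z K := by
  classical
  obtain ⟨c, A, hc, hdet, h1, h2, h3⟩ := X79.rep hQ hm
  obtain ⟨s, t, hs, ht, htq⟩ := X79.rot hQ hc hdet h1 h2 h3
  obtain ⟨N, hN⟩ : ∃ N : ℕ, (N : ℤ) = A.det := ⟨_, Int.toNat_of_nonneg hdet.le⟩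
  have hN0 : 0 < N := by
    rw [← hN] at hdet
    exact_mod_cast hdet
  have hK' : 0 < N * N * K := by positivity
  have : NeZero K := ⟨hK.ne'⟩
  have : NeZero (N * N * K) := ⟨hK'.ne'⟩
  have hcR : (0 : ℝ) < c := by exact_mod_cast hc
  intro α r1 r2 hr1 hr12 B hB ε hε
  set I : Finset (ℕ × (ZMod (N * N * K) × ZMod (N * N * K))) := N.divisors ×ˢ univ with hI
  have hIne : I.Nonempty := by
    refine ⟨(1, 0), ?_⟩
    rw [hI, Finset.mem_product]
    exact ⟨Nat.one_mem_divisors.2 hN0.ne', Finset.mem_univ _⟩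
  set M : ℝ := (I.card : ℝ) with hM
  have hM0 : 0 < M := by rw [hM]; exact_mod_cast hIne.card_pos
  have hε' : 0 < ε / M ^ 2 := by positivity
  have hp : ∀ p : ℕ × (ZMod (N * N * K) × ZMod (N * N * K)), ∃ L0 : ℝ, 1 ≤ L0 ∧ ∀ L : ℝ, L0 ≤ L →
      ∃ n0 : ℕ, ∀ n : ℕ, n0 ≤ n → p ∈ I →
      ∑ j ∈ Finset.Icc (-(⌊B * n / L⌋₊ : ℤ)) ⌊B * n / L⌋₊,
        ‖Msh Q1 (gc z Q1 (N * N * K) p.2) (r1 / (c * p.1 ^ 2)) (r2 / (c * p.1 ^ 2)) n j‖ ^ 2
          ≤ ε / M ^ 2 := by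
    intro p
    by_cases hpI : p ∈ I
    · have hg : 0 < p.1 := by
        rw [hI, Finset.mem_product] at hpI
        exact Nat.pos_of_dvd_of_pos (Nat.dvd_of_mem_divisors hpI.1) hN0
      have hgR : (0 : ℝ) < p.1 := by exact_mod_cast hg
      obtain ⟨L0, hL0, hL⟩ := h0 (N * N * K) hK' p.2 (r1 / (c * p.1 ^ 2)) (r2 / (c * p.1 ^ 2))
        (by positivity) (by gcongr) B hB (ε / M ^ 2) hε'
      refine ⟨L0, hL0, fun L hLL => ?_⟩
      obtain ⟨n0, hn0⟩ := hL L hLL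
      exact ⟨n0, fun n hn _ => hn0 n hn⟩
    · exact ⟨1, le_rfl, fun L _ => ⟨0, fun n _ h => absurd h hpI⟩⟩
  choose L0 hL0 hL using hp
  obtain ⟨p0, hp0⟩ := hIne
  refine ⟨I.sup' ⟨p0, hp0⟩ L0, (hL0 p0).trans (Finset.le_sup' L0 hp0), fun L hLL => ?_⟩
  have hLp : ∀ p ∈ I, L0 p ≤ L := fun p hpI => (Finset.le_sup' L0 hpI).trans hLL
  have hn : ∀ p, ∃ n0 : ℕ, ∀ n : ℕ, n0 ≤ n → p ∈ I →
      ∑ j ∈ Finset.Icc (-(⌊B * n / L⌋₊ : ℤ)) ⌊B * n / L⌋₊,
        ‖Msh Q1 (gc z Q1 (N * N * K) p.2) (r1 / (c * p.1 ^ 2)) (r2 / (c * p.1 ^ 2)) n j‖ ^ 2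
          ≤ ε / M ^ 2 := by
    intro p
    by_cases hpI : p ∈ I
    · exact hL p L (hLp p hpI)
    · exact ⟨0, fun n _ h => absurd h hpI⟩
  choose n0 hn0 using hn
  refine ⟨I.sup n0, fun n hnn => ?_⟩
  have hnp : ∀ p ∈ I, n0 p ≤ n := fun p hpI => (Finset.le_sup (f := n0) hpI).trans hnn
  -- one frequency
  have hj : ∀ j : ℤ, ‖Msh Q (gc z Q K α) r1 r2 n j‖ ^ 2 ≤ M * ∑ p ∈ I,
      ‖Msh Q1 (gc z Q1 (N * N * K) p.2) (r1 / (c * p.1 ^ 2)) (r2 / (c * p.1 ^ 2)) n j‖ ^ 2 := by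
    intro j
    rw [decomp hQ hc h1 h2 h3 hs ht htq hN hN0 z K α r1 r2 (hr1.trans hr12) n j]
    have h4 : ‖∑ p ∈ I, kap A z K (N * N * K) c α p.1 p.2 * t ^ j *
        Msh Q1 (gc z Q1 (N * N * K) p.2) (r1 / (c * p.1 ^ 2)) (r2 / (c * p.1 ^ 2)) n j‖ ≤
        ∑ p ∈ I, ‖Msh Q1 (gc z Q1 (N * N * K) p.2) (r1 / (c * p.1 ^ 2)) (r2 / (c * p.1 ^ 2)) n j‖ := by
      refine (norm_sum_le _ _).trans (Finset.sum_le_sum fun p _ => ?_)
      rw [norm_mul, norm_mul, norm_zpow, ht, one_zpow, mul_one]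
      exact mul_le_of_le_one_left (norm_nonneg _) (kap_le hz _ _ _ _ _ _)
    refine (pow_le_pow_left₀ (norm_nonneg _) h4 2).trans ?_
    have h5 := sq_sum_le_card_mul_sum_sq (s := I)
      (f := fun p => ‖Msh Q1 (gc z Q1 (N * N * K) p.2) (r1 / (c * p.1 ^ 2)) (r2 / (c * p.1 ^ 2)) n j‖)
    exact h5
  calc ∑ j ∈ Finset.Icc (-(⌊B * n / L⌋₊ : ℤ)) ⌊B * n / L⌋₊, ‖Msh Q (gc z Q K α) r1 r2 n j‖ ^ 2
      ≤ ∑ j ∈ Finset.Icc (-(⌊B * n / L⌋₊ : ℤ)) ⌊B * n / L⌋₊, M * ∑ p ∈ I,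
        ‖Msh Q1 (gc z Q1 (N * N * K) p.2) (r1 / (c * p.1 ^ 2)) (r2 / (c * p.1 ^ 2)) n j‖ ^ 2 :=
        Finset.sum_le_sum fun j _ => hj j
    _ = M * ∑ p ∈ I, ∑ j ∈ Finset.Icc (-(⌊B * n / L⌋₊ : ℤ)) ⌊B * n / L⌋₊,
        ‖Msh Q1 (gc z Q1 (N * N * K) p.2) (r1 / (c * p.1 ^ 2)) (r2 / (c * p.1 ^ 2)) n j‖ ^ 2 := by
        rw [← Finset.mul_sum, Finset.sum_comm]
    _ ≤ M * ∑ _p ∈ I, ε / M ^ 2 := by
        apply mul_le_mul_of_nonneg_left _ hM0.le
        exact Finset.sum_le_sum fun p hpI => hn0 p n (hnp p hpI) hpI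
    _ = ε := by
        rw [Finset.sum_const, nsmul_eq_mul, ← hM]
        field_simp

/-- Theorem E for all systems of discriminant `-4 m ^ 2` and all pairs of roots of unity different
from `(1, 1)` -/
theorem esFor_mrs79 (hCls : StCls) (hRed : PE.StRedS) {ι : Type} [Fintype ι] (S : System ι)
    (hS : ∃ m : ℤ, (S.d : ℤ) = 4 * m ^ 2) {z1 z2 : ℂ} {k : ℕ} (hk : 0 < k) (h1 : z1 ^ k = 1)
    (h2 : z2 ^ k = 1) (hne : z1 ≠ 1 ∨ z2 ≠ 1) : EsFor S z1 z2 := by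
  intro M K hK h4 om hom δ h hδ hT
  have hz1 : ‖z1‖ = 1 := Complex.norm_eq_one_of_pow_eq_one h1 hk.ne'
  have hz2 : ‖z2‖ = 1 := Complex.norm_eq_one_of_pow_eq_one h2 hk.ne'
  have hQ : ∀ i, ∃ m : ℤ, (S.Q i).D = 4 * m ^ 2 := by
    intro i
    obtain ⟨m, hm⟩ := hS
    exact ⟨m, by rw [S.disc i, hm]⟩
  have hcl : ∀ z : ℂ, z ^ k = 1 → z ≠ 1 → ∀ K : ℕ, 0 < K → MrsQ Q1 z K := by
    intro z hz hz' K hK
    have : NeZero K := ⟨hK.ne'⟩
    exact mrsQ_cls90 hCls hk hz hz' K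
  refine es_one90 hRed stPsv_28 S z1 z2 k hk h1 h2 ?_ M K hK h4 om hom δ h hδ hT
  intro M K _ h4 om hom B G1 G2 hG1 hG2
  refine psi_null90 M S hz1 hz2 K ?_ om hom B G1 G2 hG1 hG2
  rcases hne with hne | hne
  · left
    exact fun i => mrsQ_xfer79 hz1 (hcl z1 h1 hne) (S.pos i) (hQ i) K (NeZero.pos K)
  · right
    exact fun i => mrsQ_xfer79 hz2 (hcl z2 h2 hne) (S.pos i) (hQ i) K (NeZero.pos K)

end Pool.Agent.Lib.MP_a17b09_nt.CH
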