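import Pool.Agent.Lib.MP_a17b09_nt.MRS.EndJ90
import Pool.Agent.Lib.MP_a17b09_nt.MRS.Xfer79
import Pool.Agent.Lib.MP_a17b09_nt.CH.TopS64
import Pool.Agent.Lib.MP_a17b09_nt.CH.Fm77

/-!
Project CH / MRS, stages B and C: the final statement for all polynomials of a discriminant, from
Theorem E for the systems of this discriminant and all pairs of roots of unity.
-/

set_option autoImplicit false

open Filter Topology Finset

namespace Pool.Agent.Lib.MP_a17b09_nt.CH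

/-- the final statement for one polynomial: all classes have the same share -/
def Joint (a b c : ℤ) (h t₀ : ℕ) (α β : ℝ) : Prop :=
  ∃ κ : ℝ, 0 < κ ∧
    Tendsto (fun N : ℕ => (pairCount a b c h t₀ α β (fun _ _ => True) N : ℝ) / N) atTop
      (𝓝 κ) ∧
    ∀ k : ℕ, 0 < k →
      (∀ r s : ℕ,
        (∀ ε : ℝ, 0 < ε → LogNull {N | ε < |(pairCount a b c h t₀ α β (fun t d =>
          ArithmeticFunction.cardFactors d ≡ r [MOD k] ∧
          ArithmeticFunction.cardFactors ((a * (t : ℤ) ^ 2 + b * t + c).natAbs / d) ≡ s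
            [MOD k]) N : ℝ) / N - κ / k ^ 2|}) ∧
        (∃ η : ℝ, 0 < η ∧ ∀ᶠ N : ℕ in atTop, η * N ≤ pairCount a b c h t₀ α β (fun t d =>
          ArithmeticFunction.cardFactors d ≡ r [MOD k] ∧
          ArithmeticFunction.cardFactors ((a * (t : ℤ) ^ 2 + b * t + c).natAbs / d) ≡ s
            [MOD k]) N) ∧
        Tendsto (fun X : ℕ => pairSum a b c h t₀ α β (fun t d =>
          ArithmeticFunction.cardFactors d ≡ r [MOD k] ∧
          ArithmeticFunction.cardFactors ((a * (t : ℤ) ^ 2 + b * t + c).natAbs / d) ≡ s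
            [MOD k]) X / Real.log X) atTop (𝓝 (κ / k ^ 2))) ∧
      (∀ r : ℕ,
        (∀ ε : ℝ, 0 < ε → LogNull {N | ε < |(pairCount a b c h t₀ α β (fun t _ =>
          ArithmeticFunction.cardFactors (a * (t : ℤ) ^ 2 + b * t + c).natAbs ≡ r [MOD k])
            N : ℝ) / N - κ / k|}) ∧
        (∃ η : ℝ, 0 < η ∧ ∀ᶠ N : ℕ in atTop, η * N ≤ pairCount a b c h t₀ α β (fun t _ =>
          ArithmeticFunction.cardFactors (a * (t : ℤ) ^ 2 + b * t + c).natAbs ≡ r [MOD k])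
            N) ∧
        Tendsto (fun X : ℕ => pairSum a b c h t₀ α β (fun t _ =>
          ArithmeticFunction.cardFactors (a * (t : ℤ) ^ 2 + b * t + c).natAbs ≡ r [MOD k])
            X / Real.log X) atTop (𝓝 (κ / k)))

/-- Theorem A for all systems of discriminant `-d` and all pairs, from Theorem E for them -/
theorem aAll90 {d : ℕ} (hE : EsAll d) {ι : Type} [Fintype ι] (S : System ι) (hS : S.d = d)
    {z1 z2 : ℂ} {k : ℕ} (hk : 0 < k) (h1 : z1 ^ k = 1) (h2 : z2 ^ k = 1)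
    (hne : z1 ≠ 1 ∨ z2 ≠ 1) {K : ℕ} (hK : 0 < K) {om : ι → V → V → ℂ} (hom : Wt S K om)
    (M : LMean) : NullM M S.Q (kerT S z1 z2 om) :=
  am_98 F64.stC0_all (stDils_70 stLine_46 stLat_28) F64.stBs_all F64.stD_all stPri_40 stTel_18
    stMd_18 ι S z1 z2 k hk h1 h2 (hE ι S hS z1 z2 k hk h1 h2 hne) K hK om hom M

/-- the twisted theorem for all pairs -/
theorem twAll90 {d : ℕ} (hE : EsAll d) {a b c : ℤ} (ha : 0 < a) (hd : 4 * a * c - b ^ 2 = d)
    (hD : b ^ 2 - 4 * a * c < 0) {z1 z2 : ℂ} {k : ℕ} (hk : 0 < k) (h1 : z1 ^ k = 1)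
    (h2 : z2 ^ k = 1) (hne : z1 ≠ 1 ∨ z2 ≠ 1) {h : ℕ} (hh : 0 < h) (t0 : ℕ) {α β : ℝ}
    (hα : 0 < α) (hβ : α < β) (M : LMean) :
    M.E (fun N : ℕ => ‖TwN a b c α β h t0 z1 z2 N‖ / N) = 0 :=
  twJ90 (stFm_77 F64.stR_all) ha hD hk h1 h2 M
    (fun ι _ S hS K hK om hom => aAll90 hE S (by
      rw [hd] at hS
      exact_mod_cast hS) hk h1 h2 hne hK hom M) hh t0 hα hβ

/-- the final statement for all polynomials of discriminant `-d` -/
theorem endK90 {d : ℕ} (hE : EsAll d) {a b c : ℤ} (ha : 0 < a) (hd : 4 * a * c - b ^ 2 = d)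
    (hD : b ^ 2 - 4 * a * c < 0) {h : ℕ} (hh : 0 < h) (t₀ : ℕ) {α β : ℝ} (hα : 0 < α)
    (hαβ : α < β) : Joint a b c h t₀ α β :=
  endJ90 F64.stOn_all F64.stMainS_all stMeanU_70 stMean_70 a b c ha hD h t₀ hh α β hα hαβ
    (fun _ _ _ hk h1 h2 hne M => twAll90 hE ha hd hD hk h1 h2 hne hh t₀ hα hαβ M)

open Pool.Agent.Lib.MP_a17b09_nt.MRS in
/-- Theorem E for all systems of discriminant `-4 m²` -/
theorem esAll_sq90 (hCls : StCls) {d : ℕ} (hm : ∃ m : ℤ, (d : ℤ) = 4 * m ^ 2) : EsAll d := by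
  intro ι _ S hS z1 z2 k hk h1 h2 hne
  exact esFor_mrs79 hCls F64.stRedS_all S (by rw [hS]; exact hm) hk h1 h2 hne

open Pool.Agent.Lib.MP_a17b09_nt.MRS in
/-- stage B: the final statement for all polynomials with splitting field `ℚ(i)` -/
theorem endB90 (hCls : StCls) {a b c : ℤ} (ha : 0 < a) (hm : ∃ m : ℤ, 4 * a * c - b ^ 2 = 4 * m ^ 2)
    (hD : b ^ 2 - 4 * a * c < 0) {h : ℕ} (hh : 0 < h) (t₀ : ℕ) {α β : ℝ} (hα : 0 < α)
    (hαβ : α < β) : Joint a b c h t₀ α β := by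
  obtain ⟨d, hd⟩ : ∃ d : ℕ, 4 * a * c - b ^ 2 = (d : ℤ) :=
    ⟨_, (Int.toNat_of_nonneg (by linarith)).symm⟩
  refine endK90 (d := d) (esAll_sq90 hCls ?_) ha hd hD hh t₀ hα hαβ
  obtain ⟨m, hm⟩ := hm
  exact ⟨m, by rw [← hd, hm]⟩

end Pool.Agent.Lib.MP_a17b09_nt.CH
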