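import Mathlib

/-!
Project CH / MRS, glue: Fourier coefficients of continuous `2π`-periodic functions.
Parseval, Bessel, and the tail of a Lipschitz function.
-/

set_option autoImplicit false

open Filter Topology Finset MeasureTheory

namespace Pool.Agent.Lib.MP_a17b09_nt.MRS.Four90

/-- Fourier coefficient -/
noncomputable def fc (f : ℝ → ℂ) (j : ℤ) : ℂ :=
  (1 / (2 * Real.pi) : ℂ) * ∫ θ in (0 : ℝ)..(2 * Real.pi),
    Complex.exp (-((j : ℂ) * θ * Complex.I)) * f θ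

theorem fc_eq (f : ℝ → ℂ) (j : ℤ) :
    fourierCoeffOn (a := 0) (b := 2 * Real.pi) (by positivity) f j = fc f j := by
  rw [fourierCoeffOn_eq_integral]
  unfold fc
  rw [Complex.real_smul]
  congr 1
  · push_cast
    ring
  · apply intervalIntegral.integral_congr
    intro θ _
    show fourier (-j) (θ : AddCircle (2 * Real.pi - 0)) • f θ = _
    rw [fourier_coe_apply, smul_eq_mul]
    congr 2
    have hpi : (Real.pi : ℂ) ≠ 0 := by exact_mod_cast Real.pi_ne_zero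
    push_cast
    rw [sub_zero]
    field_simp

theorem exp_norm (j : ℤ) (θ : ℝ) : ‖Complex.exp (-((j : ℂ) * θ * Complex.I))‖ = 1 := by
  rw [show -((j : ℂ) * θ * Complex.I) = ((-(j * θ) : ℝ) : ℂ) * Complex.I by push_cast; ring]
  exact Complex.norm_exp_ofReal_mul_I _

theorem cont_exp (j : ℤ) : Continuous fun θ : ℝ => Complex.exp (-((j : ℂ) * θ * Complex.I)) := by
  fun_prop

theorem int_ex (f : ℝ → ℂ) (hf : Continuous f) (j : ℤ) (a b : ℝ) :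
    IntervalIntegrable (fun θ : ℝ => Complex.exp (-((j : ℂ) * θ * Complex.I)) * f θ) volume a b :=
  ((cont_exp j).mul hf).intervalIntegrable a b

/-- Parseval -/
theorem parseval (f : ℝ → ℂ) (hf : Continuous f) (C : ℝ) (hC : ∀ θ, ‖f θ‖ ≤ C) :
    HasSum (fun j : ℤ => ‖fc f j‖ ^ 2)
      (1 / (2 * Real.pi) * ∫ θ in (0 : ℝ)..(2 * Real.pi), ‖f θ‖ ^ 2) := by
  have hL2 : MemLp f 2 (volume.restrict (Set.Ioc 0 (2 * Real.pi))) :=
    MemLp.of_bound hf.aestronglyMeasurable C (Filter.Eventually.of_forall hC)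
  have h := hasSum_sq_fourierCoeffOn (a := 0) (b := 2 * Real.pi) (f := f) (by positivity) hL2
  simp only [fc_eq] at h
  have e : ((2 * Real.pi - 0)⁻¹ : ℝ) • ∫ x in (0 : ℝ)..(2 * Real.pi), ‖f x‖ ^ 2 =
      1 / (2 * Real.pi) * ∫ θ in (0 : ℝ)..(2 * Real.pi), ‖f θ‖ ^ 2 := by
    rw [smul_eq_mul, sub_zero, one_div]
  rw [e] at h
  exact h

theorem avg_le (f : ℝ → ℂ) (hf : Continuous f) (e : ℝ) (he : ∀ θ, ‖f θ‖ ≤ e) :
    1 / (2 * Real.pi) * ∫ θ in (0 : ℝ)..(2 * Real.pi), ‖f θ‖ ^ 2 ≤ e ^ 2 := by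
  have hpi := Real.pi_pos
  have h1 : ∫ θ in (0 : ℝ)..(2 * Real.pi), ‖f θ‖ ^ 2 ≤
      ∫ θ in (0 : ℝ)..(2 * Real.pi), e ^ 2 := by
    apply intervalIntegral.integral_mono_on (by positivity)
      ((hf.norm.pow 2).intervalIntegrable _ _) (continuous_const.intervalIntegrable _ _)
    intro θ _
    exact pow_le_pow_left₀ (norm_nonneg _) (he θ) 2
  rw [intervalIntegral.integral_const, smul_eq_mul, sub_zero] at h1
  calc 1 / (2 * Real.pi) * ∫ θ in (0 : ℝ)..(2 * Real.pi), ‖f θ‖ ^ 2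
      ≤ 1 / (2 * Real.pi) * (2 * Real.pi * e ^ 2) := mul_le_mul_of_nonneg_left h1 (by positivity)
    _ = e ^ 2 := by field_simp

/-- Bessel -/
theorem bessel (f : ℝ → ℂ) (hf : Continuous f) (e : ℝ) (he : ∀ θ, ‖f θ‖ ≤ e) (T : Finset ℤ) :
    ∑ j ∈ T, ‖fc f j‖ ^ 2 ≤ e ^ 2 :=
  (sum_le_hasSum T (fun _ _ => sq_nonneg _) (parseval f hf e he)).trans (avg_le f hf e he)

theorem fc_sub (f g : ℝ → ℂ) (hf : Continuous f) (hg : Continuous g) (j : ℤ) :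
    fc (fun θ => f θ - g θ) j = fc f j - fc g j := by
  unfold fc
  rw [← mul_sub, ← intervalIntegral.integral_sub (int_ex f hf j _ _) (int_ex g hg j _ _)]
  congr 1
  apply intervalIntegral.integral_congr
  intro θ _
  show _ * (f θ - g θ) = _
  ring

theorem fc_smul (c : ℂ) (f : ℝ → ℂ) (j : ℤ) : fc (fun θ => c * f θ) j = c * fc f j := by
  unfold fc
  have : (fun θ : ℝ => Complex.exp (-((j : ℂ) * θ * Complex.I)) * (c * f θ)) =
      fun θ : ℝ => c * (Complex.exp (-((j : ℂ) * θ * Complex.I)) * f θ) := by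
    funext θ; ring
  rw [this, intervalIntegral.integral_const_mul]
  ring

theorem fc_sum {ι : Type} (s : Finset ι) (f : ι → ℝ → ℂ) (hf : ∀ i ∈ s, Continuous (f i))
    (j : ℤ) : fc (fun θ => ∑ i ∈ s, f i θ) j = ∑ i ∈ s, fc (f i) j := by
  unfold fc
  rw [← Finset.mul_sum]
  congr 1
  rw [← intervalIntegral.integral_finsetSum fun i hi => int_ex (f i) (hf i hi) j _ _]
  apply intervalIntegral.integral_congr
  intro θ _
  show _ * ∑ i ∈ s, f i θ = _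
  rw [Finset.mul_sum]

/-- comparison of the coefficients of two close functions -/
theorem close (f g : ℝ → ℂ) (hf : Continuous f) (hg : Continuous g) (e : ℝ)
    (he : ∀ θ, ‖f θ - g θ‖ ≤ e) (T : Finset ℤ) :
    ∑ j ∈ T, ‖fc f j‖ ^ 2 ≤ 2 * ∑ j ∈ T, ‖fc g j‖ ^ 2 + 2 * e ^ 2 := by
  have h1 := bessel (fun θ => f θ - g θ) (hf.sub hg) e he T
  have h2 : ∀ j ∈ T, ‖fc f j‖ ^ 2 ≤ 2 * ‖fc g j‖ ^ 2 +
      2 * ‖fc (fun θ => f θ - g θ) j‖ ^ 2 := by
    intro j _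
    rw [fc_sub f g hf hg]
    have h3 : ‖fc f j‖ ≤ ‖fc g j‖ + ‖fc f j - fc g j‖ := by
      calc ‖fc f j‖ = ‖fc g j + (fc f j - fc g j)‖ := by congr 1; ring
        _ ≤ _ := norm_add_le _ _
    have h4 : ‖fc f j‖ ^ 2 ≤ (‖fc g j‖ + ‖fc f j - fc g j‖) ^ 2 :=
      pow_le_pow_left₀ (norm_nonneg _) h3 2
    nlinarith [sq_nonneg (‖fc g j‖ - ‖fc f j - fc g j‖)]
  calc ∑ j ∈ T, ‖fc f j‖ ^ 2 ≤ ∑ j ∈ T, (2 * ‖fc g j‖ ^ 2 +
      2 * ‖fc (fun θ => f θ - g θ) j‖ ^ 2) := Finset.sum_le_sum h2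
    _ = 2 * ∑ j ∈ T, ‖fc g j‖ ^ 2 + 2 * ∑ j ∈ T, ‖fc (fun θ => f θ - g θ) j‖ ^ 2 := by
        rw [Finset.sum_add_distrib, ← Finset.mul_sum, ← Finset.mul_sum]
    _ ≤ _ := by linarith

/-- coefficients of a shifted function -/
theorem fc_shift (f : ℝ → ℂ) (hp : ∀ θ, f (θ + 2 * Real.pi) = f θ) (h : ℝ) (j : ℤ) :
    fc (fun θ => f (θ + h)) j = Complex.exp ((j : ℂ) * h * Complex.I) * fc f j := by
  unfold fc
  have hper : Function.Periodic (fun θ : ℝ =>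
      Complex.exp (-((j : ℂ) * θ * Complex.I)) * f θ) (2 * Real.pi) := by
    intro θ
    show Complex.exp (-((j : ℂ) * ((θ + 2 * Real.pi : ℝ) : ℂ) * Complex.I)) *
      f (θ + 2 * Real.pi) = Complex.exp (-((j : ℂ) * θ * Complex.I)) * f θ
    rw [hp]
    congr 1
    have : -((j : ℂ) * ((θ + 2 * Real.pi : ℝ) : ℂ) * Complex.I) =
        -((j : ℂ) * θ * Complex.I) + ((-j : ℤ) : ℂ) * (2 * Real.pi * Complex.I) := by
      push_cast; ring
    rw [this, Complex.exp_add, Complex.exp_int_mul_two_pi_mul_I, mul_one]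
  have e1 : ∫ θ in (0 : ℝ)..(2 * Real.pi), Complex.exp (-((j : ℂ) * θ * Complex.I)) *
      f (θ + h) = Complex.exp ((j : ℂ) * h * Complex.I) *
      ∫ θ in (0 : ℝ)..(2 * Real.pi), Complex.exp (-((j : ℂ) * ((θ + h : ℝ) : ℂ) * Complex.I)) *
        f (θ + h) := by
    rw [← intervalIntegral.integral_const_mul]
    apply intervalIntegral.integral_congr
    intro θ _
    show Complex.exp (-((j : ℂ) * θ * Complex.I)) * f (θ + h) =
      Complex.exp ((j : ℂ) * h * Complex.I) *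
        (Complex.exp (-((j : ℂ) * ((θ + h : ℝ) : ℂ) * Complex.I)) * f (θ + h))
    rw [← mul_assoc, ← Complex.exp_add]
    congr 2
    push_cast
    ring
  rw [e1, intervalIntegral.integral_comp_add_right (fun θ : ℝ =>
    Complex.exp (-((j : ℂ) * θ * Complex.I)) * f θ) h]
  have e2 : ∫ θ in (0 + h)..(2 * Real.pi + h), Complex.exp (-((j : ℂ) * θ * Complex.I)) * f θ =
      ∫ θ in (0 : ℝ)..(2 * Real.pi), Complex.exp (-((j : ℂ) * θ * Complex.I)) * f θ := by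
    have := hper.intervalIntegral_add_eq (0 + h) 0
    rw [zero_add, zero_add] at this
    rw [zero_add, add_comm (2 * Real.pi) h]
    exact this
  rw [e2]
  ring

theorem exp_sub_one_ge (ξ : ℝ) (hξ : |ξ| ≤ Real.pi) :
    2 / Real.pi * |ξ| ≤ ‖Complex.exp ((ξ : ℂ) * Complex.I) - 1‖ := by
  rw [mul_comm (ξ : ℂ), Complex.norm_exp_I_mul_ofReal_sub_one, Real.norm_eq_abs, abs_mul,
    abs_of_pos (by norm_num : (0 : ℝ) < 2)]
  have h1 : |ξ / 2| ≤ Real.pi / 2 := by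
    rw [abs_div, abs_of_pos (by norm_num : (0 : ℝ) < 2)]
    linarith
  have h2 := Real.mul_abs_le_abs_sin h1
  rw [abs_div, abs_of_pos (by norm_num : (0 : ℝ) < 2)] at h2
  have h3 : 2 / Real.pi * |ξ| = 2 * (2 / Real.pi * (|ξ| / 2)) := by ring
  rw [h3]
  exact mul_le_mul_of_nonneg_left h2 (by norm_num)

/-- the derivative in mean square of a Lipschitz function -/
theorem deriv_sum (f : ℝ → ℂ) (hf : Continuous f) (hp : ∀ θ, f (θ + 2 * Real.pi) = f θ) (Λ : ℝ)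
    (hΛ : ∀ θ h, ‖f (θ + h) - f θ‖ ≤ Λ * |h|) (T : Finset ℤ) :
    ∑ j ∈ T, (j : ℝ) ^ 2 * ‖fc f j‖ ^ 2 ≤ 3 * Λ ^ 2 := by
  have hpi := Real.pi_pos
  -- a bound for the elements of T
  obtain ⟨R, hR0, hR⟩ : ∃ R : ℝ, 0 < R ∧ ∀ j ∈ T, |(j : ℝ)| ≤ R := by
    refine ⟨1 + ∑ j ∈ T, |(j : ℝ)|, by
      have := Finset.sum_nonneg (s := T) (f := fun j : ℤ => |(j : ℝ)|) fun j _ => abs_nonneg _
      linarith, fun j hj => ?_⟩
    have := Finset.single_le_sum (f := fun j : ℤ => |(j : ℝ)|) (fun j _ => abs_nonneg _) hj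
    linarith
  set h : ℝ := Real.pi / R with hh
  have hh0 : 0 < h := by positivity
  have hcont : Continuous (fun θ => f (θ + h)) := hf.comp (by fun_prop)
  have h1 := bessel (fun θ => f (θ + h) - f θ) (hcont.sub hf) (Λ * h) (fun θ => by
    have := hΛ θ h
    rwa [abs_of_pos hh0] at this) T
  have h2 : ∀ j ∈ T, (2 / Real.pi * (|(j : ℝ)| * h)) ^ 2 * ‖fc f j‖ ^ 2 ≤
      ‖fc (fun θ => f (θ + h) - f θ) j‖ ^ 2 := by
    intro j hj
    have e : fc (fun θ => f (θ + h) - f θ) j =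
        (Complex.exp ((j : ℂ) * h * Complex.I) - 1) * fc f j := by
      rw [fc_sub _ _ hcont hf, fc_shift f hp]
      ring
    rw [e, norm_mul, mul_pow (‖Complex.exp ((j : ℂ) * h * Complex.I) - 1‖)]
    apply mul_le_mul_of_nonneg_right _ (sq_nonneg _)
    apply pow_le_pow_left₀ (by positivity)
    have h3 := exp_sub_one_ge ((j : ℝ) * h) (by
      rw [abs_mul, abs_of_pos hh0, hh, mul_div_assoc', div_le_iff₀ hR0, mul_comm]
      exact mul_le_mul_of_nonneg_left (hR j hj) hpi.le)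
    rw [abs_mul, abs_of_pos hh0] at h3
    push_cast at h3
    exact h3
  have h4 : ∑ j ∈ T, (2 / Real.pi * (|(j : ℝ)| * h)) ^ 2 * ‖fc f j‖ ^ 2 ≤ (Λ * h) ^ 2 :=
    (Finset.sum_le_sum h2).trans h1
  have h5 : ∑ j ∈ T, (2 / Real.pi * (|(j : ℝ)| * h)) ^ 2 * ‖fc f j‖ ^ 2 =
      (2 / Real.pi * h) ^ 2 * ∑ j ∈ T, (j : ℝ) ^ 2 * ‖fc f j‖ ^ 2 := by
    rw [Finset.mul_sum]
    apply Finset.sum_congr rfl
    intro j _
    rw [← sq_abs (j : ℝ)]
    ring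
  rw [h5] at h4
  have h6 : (2 / Real.pi * h) ^ 2 * ∑ j ∈ T, (j : ℝ) ^ 2 * ‖fc f j‖ ^ 2 =
      h ^ 2 * (4 / Real.pi ^ 2 * ∑ j ∈ T, (j : ℝ) ^ 2 * ‖fc f j‖ ^ 2) := by
    field_simp
    ring
  have h7 : (Λ * h) ^ 2 = h ^ 2 * Λ ^ 2 := by ring
  rw [h6, h7] at h4
  have h8 : 4 / Real.pi ^ 2 * ∑ j ∈ T, (j : ℝ) ^ 2 * ‖fc f j‖ ^ 2 ≤ Λ ^ 2 :=
    le_of_mul_le_mul_left h4 (by positivity)
  have h9 : ∑ j ∈ T, (j : ℝ) ^ 2 * ‖fc f j‖ ^ 2 ≤ Real.pi ^ 2 / 4 * Λ ^ 2 := by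
    have e : ∑ j ∈ T, (j : ℝ) ^ 2 * ‖fc f j‖ ^ 2 = Real.pi ^ 2 / 4 *
        (4 / Real.pi ^ 2 * ∑ j ∈ T, (j : ℝ) ^ 2 * ‖fc f j‖ ^ 2) := by
      field_simp
    rw [e]
    exact mul_le_mul_of_nonneg_left h8 (by positivity)
  have h10 : Real.pi ^ 2 / 4 ≤ 3 := by
    have := Real.pi_lt_d2
    nlinarith
  exact h9.trans (mul_le_mul_of_nonneg_right h10 (sq_nonneg _))

/-- the mean square is concentrated on the small frequencies -/
theorem tail (f : ℝ → ℂ) (hf : Continuous f) (hp : ∀ θ, f (θ + 2 * Real.pi) = f θ) (C Λ : ℝ)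
    (hC : ∀ θ, ‖f θ‖ ≤ C) (hΛ : ∀ θ h, ‖f (θ + h) - f θ‖ ≤ Λ * |h|) (J : ℕ) :
    1 / (2 * Real.pi) * ∫ θ in (0 : ℝ)..(2 * Real.pi), ‖f θ‖ ^ 2 ≤
      ∑ j ∈ Finset.Icc (-(J : ℤ)) J, ‖fc f j‖ ^ 2 + 3 * Λ ^ 2 / ((J : ℝ) + 1) ^ 2 := by
  classical
  have hJ : (0 : ℝ) < (J : ℝ) + 1 := by positivity
  apply hasSum_le_of_sum_le (parseval f hf C hC)
  intro T
  rw [← Finset.sum_filter_add_sum_filter_not T (fun j => j ∈ Finset.Icc (-(J : ℤ)) J)]
  apply add_le_add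
  · apply Finset.sum_le_sum_of_subset_of_nonneg
    · intro j hj
      exact (Finset.mem_filter.1 hj).2
    · intro j _ _
      positivity
  · rw [le_div_iff₀ (by positivity), Finset.sum_mul]
    refine le_trans (Finset.sum_le_sum fun j hj => ?_)
      (deriv_sum f hf hp Λ hΛ (T.filter fun j => ¬ j ∈ Finset.Icc (-(J : ℤ)) J))
    have h1 := (Finset.mem_filter.1 hj).2
    rw [Finset.mem_Icc, not_and_or] at h1
    rw [mul_comm]
    apply mul_le_mul_of_nonneg_right _ (sq_nonneg _)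
    rw [← sq_abs (j : ℝ)]
    apply pow_le_pow_left₀ hJ.le
    have h2 : (J : ℤ) + 1 ≤ |j| := by
      rcases h1 with h1 | h1
      · have : j < 0 := by omega
        rw [abs_of_neg this]; omega
      · have : 0 < j := by omega
        rw [abs_of_pos this]; omega
    have h3 : (((J : ℤ) + 1 : ℤ) : ℝ) ≤ ((|j| : ℤ) : ℝ) := by exact_mod_cast h2
    push_cast at h3
    exact h3

end Pool.Agent.Lib.MP_a17b09_nt.MRS.Four90
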