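import Mathlib

/-!
Project MRSG: joint orthonormal eigenbasis of commuting unitary maps of a finite dimensional space.
-/

set_option autoImplicit false

open Module

namespace Pool.Agent.Lib.MP_a17b09_nt.MRSG

/-- a nonzero subspace invariant under commuting maps contains a joint eigenvector -/
theorem joint_eig {P E : Type*} [AddCommGroup E] [Module ℂ E] [FiniteDimensional ℂ E]
    (U : P → E →ₗ[ℂ] E) (hc : ∀ p q x, U p (U q x) = U q (U p x)) (n : ℕ) :
    ∀ W : Submodule ℂ E, finrank ℂ W = n → W ≠ ⊥ → (∀ p, ∀ x ∈ W, U p x ∈ W) →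
    ∃ v ∈ W, v ≠ 0 ∧ ∀ p, ∃ c : ℂ, U p v = c • v := by
  induction n using Nat.strong_induction_on with
  | _ n ih =>
    intro W hW hne hinv
    by_cases hs : ∀ p, ∃ c : ℂ, ∀ x ∈ W, U p x = c • x
    · obtain ⟨v, hv, hv0⟩ := Submodule.exists_mem_ne_zero_of_ne_bot hne
      exact ⟨v, hv, hv0, fun p => (hs p).imp fun c hc => hc v hv⟩
    · push_neg at hs
      obtain ⟨p, hp⟩ := hs
      haveI : Nontrivial W := Submodule.nontrivial_iff_ne_bot.mpr hne
      let f : End ℂ W := (U p).restrict (hinv p)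
      obtain ⟨μ, hμ⟩ := End.exists_eigenvalue f
      obtain ⟨w, hw⟩ := hμ.exists_hasEigenvector
      let W' : Submodule ℂ E := W ⊓ LinearMap.ker (U p - μ • LinearMap.id)
      have hmem : ∀ x, x ∈ W' ↔ x ∈ W ∧ U p x = μ • x := by
        intro x
        simp only [W', Submodule.mem_inf, LinearMap.mem_ker, LinearMap.sub_apply,
          LinearMap.smul_apply, LinearMap.id_apply, sub_eq_zero]
      have hw1 : (w : E) ∈ W' := by
        rw [hmem]
        refine ⟨w.2, ?_⟩
        have := congrArg Subtype.val hw.apply_eq_smul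
        simpa [f] using this
      have hw0 : (w : E) ≠ 0 := fun h => hw.2 (Subtype.ext h)
      have hne' : W' ≠ ⊥ := fun h => hw0 (by rw [h] at hw1; exact (Submodule.mem_bot ℂ).mp hw1)
      have hlt : W' < W := by
        refine lt_of_le_of_ne inf_le_left fun h => ?_
        obtain ⟨x, hx, hx'⟩ := hp μ
        rw [← h, hmem] at hx
        exact hx' hx.2
      obtain ⟨v, hv, hv0, hv'⟩ := ih (finrank ℂ W') (by
        rw [← hW]; exact Submodule.finrank_lt_finrank_of_lt hlt) W' rfl hne' (by
        intro q x hx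
        rw [hmem] at hx ⊢
        refine ⟨hinv q x hx.1, ?_⟩
        rw [hc, hx.2, map_smul])
      exact ⟨v, hlt.le hv, hv0, hv'⟩

section unitary

variable {P E : Type*} [NormedAddCommGroup E] [InnerProductSpace ℂ E] [FiniteDimensional ℂ E]

theorem norm_eig {T : E →ₗ[ℂ] E} (hT : ∀ x y, inner ℂ (T x) (T y) = inner ℂ x y) {v : E}
    (hv : v ≠ 0) {c : ℂ} (h : T v = c • v) : ‖c‖ = 1 := by
  have h1 : ‖T v‖ = ‖v‖ := by
    have := hT v v
    rw [inner_self_eq_norm_sq_to_K, inner_self_eq_norm_sq_to_K] at this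
    have h2 : ‖T v‖ ^ 2 = ‖v‖ ^ 2 := by exact_mod_cast this
    exact (sq_eq_sq₀ (norm_nonneg _) (norm_nonneg _)).mp h2
  rw [h, norm_smul] at h1
  have h3 : ‖v‖ ≠ 0 := norm_ne_zero_iff.mpr hv
  exact mul_right_cancel₀ h3 (by rw [h1, one_mul])

theorem orth_of_eig {T : E →ₗ[ℂ] E} (hT : ∀ x y, inner ℂ (T x) (T y) = inner ℂ x y) {v : E}
    (hv : v ≠ 0) {c : ℂ} (h : T v = c • v) {x : E} (hx : inner ℂ v x = 0) :
    inner ℂ v (T x) = 0 := by
  have h1 := hT v x
  rw [h, inner_smul_left, hx] at h1
  have h2 : (starRingEnd ℂ) c ≠ 0 := by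
    intro h3
    have h4 := norm_eig hT hv h
    rw [← RCLike.norm_conj, h3, norm_zero] at h4
    exact zero_ne_one h4
  exact (mul_eq_zero.mp h1).resolve_left h2

theorem exists_family (U : P → E →ₗ[ℂ] E) (hU : ∀ p x y, inner ℂ (U p x) (U p y) = inner ℂ x y)
    (hc : ∀ p q x, U p (U q x) = U q (U p x)) (n : ℕ) (hn : n ≤ finrank ℂ E) :
    ∃ v : Fin n → E, Orthonormal ℂ v ∧ ∀ k p, ∃ c : ℂ, U p (v k) = c • v k := by
  induction n with
  | zero => exact ⟨fun i => i.elim0, ⟨fun i => i.elim0, fun i => i.elim0⟩, fun i => i.elim0⟩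
  | succ n ih =>
    obtain ⟨v, hv, hv'⟩ := ih (by omega)
    let W : Submodule ℂ E := (Submodule.span ℂ (Set.range v))ᗮ
    have hmem : ∀ x, x ∈ W ↔ ∀ k, inner ℂ (v k) x = 0 := by
      intro x
      rw [Submodule.mem_orthogonal]
      constructor
      · intro h k
        exact h _ (Submodule.subset_span ⟨k, rfl⟩)
      · intro h y hy
        induction hy using Submodule.span_induction with
        | mem y hy => obtain ⟨k, rfl⟩ := hy; exact h k
        | zero => exact inner_zero_left _
        | add y z _ _ h1 h2 => rw [inner_add_left, h1, h2, add_zero]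
        | smul a y _ h1 => rw [inner_smul_left, h1, mul_zero]
    have hne : W ≠ ⊥ := by
      intro h
      have h1 := Submodule.finrank_add_finrank_orthogonal (Submodule.span ℂ (Set.range v))
      have h2 : finrank ℂ (Submodule.span ℂ (Set.range v)) ≤ n := by
        have := finrank_range_le_card (R := ℂ) v
        rwa [Fintype.card_fin] at this
      have h3 : finrank ℂ W = 0 := by rw [h]; exact finrank_bot ℂ E
      have h4 : finrank ℂ (↥(Submodule.span ℂ (Set.range v))ᗮ) = 0 := h3
      omega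
    obtain ⟨w, hwW, hw0, hw⟩ := joint_eig U hc _ W rfl hne (by
      intro p x hx
      rw [hmem] at hx ⊢
      intro k
      obtain ⟨c, hck⟩ := hv' k p
      exact orth_of_eig (hU p) (hv.ne_zero k) hck (hx k))
    have hwn : ‖w‖ ≠ 0 := norm_ne_zero_iff.mpr hw0
    let w' : E := ((‖w‖⁻¹ : ℝ) : ℂ) • w
    have hw'n : ‖w'‖ = 1 := by
      simp only [w', norm_smul, Complex.norm_real, norm_inv, norm_norm]
      exact inv_mul_cancel₀ hwn
    have hw'o : ∀ k, inner ℂ (v k) w' = 0 := by
      intro k
      simp only [w', inner_smul_right]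
      rw [(hmem w).mp hwW k, mul_zero]
    refine ⟨Fin.snoc v w', ⟨?_, ?_⟩, ?_⟩
    · intro i
      refine Fin.lastCases ?_ (fun j => ?_) i
      · rw [Fin.snoc_last]; exact hw'n
      · rw [Fin.snoc_castSucc]; exact hv.1 j
    · intro i j hij
      induction i using Fin.lastCases with
      | last =>
        induction j using Fin.lastCases with
        | last => exact absurd rfl hij
        | cast j =>
          rw [Fin.snoc_last, Fin.snoc_castSucc]
          rw [← inner_conj_symm, hw'o j, map_zero]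
      | cast i =>
        induction j using Fin.lastCases with
        | last => rw [Fin.snoc_last, Fin.snoc_castSucc]; exact hw'o i
        | cast j =>
          rw [Fin.snoc_castSucc, Fin.snoc_castSucc]
          exact hv.2 (fun h => hij (by rw [h]))
    · intro k p
      induction k using Fin.lastCases with
      | last =>
        rw [Fin.snoc_last]
        obtain ⟨c, hcw⟩ := hw p
        refine ⟨c, ?_⟩
        simp only [w']
        rw [map_smul, hcw, smul_comm]
      | cast k => rw [Fin.snoc_castSucc]; exact hv' k p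

/-- Joint orthonormal eigenbasis of commuting unitary maps. -/
theorem spec_17 (U : P → E →ₗ[ℂ] E) (hU : ∀ p x y, inner ℂ (U p x) (U p y) = inner ℂ x y)
    (hc : ∀ p q x, U p (U q x) = U q (U p x)) :
    ∃ (b : OrthonormalBasis (Fin (finrank ℂ E)) ℂ E) (c : P → Fin (finrank ℂ E) → ℂ),
      ∀ p k, ‖c p k‖ = 1 ∧ U p (b k) = c p k • b k := by
  obtain ⟨v, hv, hv'⟩ := exists_family U hU hc (finrank ℂ E) le_rfl
  have hsp : ⊤ ≤ Submodule.span ℂ (Set.range v) :=
    (hv.linearIndependent.span_eq_top_of_card_eq_finrank' (by rw [Fintype.card_fin])).ge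
  choose c hcv using hv'
  refine ⟨OrthonormalBasis.mk hv hsp, fun p k => c k p, fun p k => ?_⟩
  rw [OrthonormalBasis.coe_mk]
  exact ⟨norm_eig (hU p) (hv.ne_zero k) (hcv k p), hcv k p⟩

/-- Parseval for the joint eigenbasis. -/
theorem parseval_17 {n : ℕ} (b : OrthonormalBasis (Fin n) ℂ E) (x : E) :
    ∑ k, ‖inner ℂ (b k) x‖ ^ 2 = ‖x‖ ^ 2 := b.sum_sq_norm_inner_right x

end unitary

end Pool.Agent.Lib.MP_a17b09_nt.MRSG
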