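import Mathlib

/-!
MRS section 2: exponential sums over Gaussian integers. Statement.
-/

set_option autoImplicit false

namespace Pool.Agent.X67

open Finset Complex

/-- the Gaussian integer `a + i b` as a complex number -/
noncomputable def zz (m : ℤ × ℤ) : ℂ := (m.1 : ℂ) + (m.2 : ℂ) * I

/-- `S` is the set of all lattice points with norm in `[r1, r2]` in the class `(a0, b0)` mod `q` -/
def IsRing (r1 r2 : ℝ) (q : ℕ) (a0 b0 : ℤ) (S : Finset (ℤ × ℤ)) : Prop :=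
  ∀ m : ℤ × ℤ, m ∈ S ↔ (r1 ≤ (m.1 : ℝ) ^ 2 + (m.2 : ℝ) ^ 2 ∧ (m.1 : ℝ) ^ 2 + (m.2 : ℝ) ^ 2 ≤ r2 ∧
    m.1 ≡ a0 [ZMOD (q : ℤ)] ∧ m.2 ≡ b0 [ZMOD (q : ℤ)])

/-- exponential sums with the phase `h * arg m`, `0 < |h| ≤ Y ^ A`, over all lattice points `m`
with norm in an interval of `[.., Y]` in a class mod `q`, `q ≤ Y ^ c` -/
def StExp : Prop :=
  ∀ A : ℝ, 1 ≤ A → ∃ c C : ℝ, 0 < c ∧ 0 < C ∧
    ∀ (Y r1 r2 : ℝ) (h : ℤ) (q : ℕ) (a0 b0 : ℤ) (S : Finset (ℤ × ℤ)),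
      1 ≤ Y → r2 ≤ Y → h ≠ 0 → |(h : ℝ)| ≤ Y ^ A → 1 ≤ q → (q : ℝ) ≤ Y ^ c →
      IsRing r1 r2 q a0 b0 S →
      ‖∑ m ∈ S, (zz m / (‖zz m‖ : ℂ)) ^ h‖ ≤ C * Y ^ (1 - c)

end Pool.Agent.X67
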