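import Pool.Agent.Lib.MP_a17b09_nt.CH.StmtsE17
import Pool.Agent.Lib.MP_a17b09_nt.MRS.StmtsX67

/-!
Project MRS (Matomäki-Radziwiłł in thin sectors of `ℤ[i]`), statements.  Paper: /team-store/MRS_3.md.
`M` sums: multiplicative functions `z ^ Ω(|v|²) ψ(v) (v/|v|)^j` over shells of Gaussian integers.
-/

set_option autoImplicit false

open Filter Topology Finset

namespace Pool.Agent.Lib.MP_a17b09_nt.MRS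

/-! ### Gaussian integers -/

/-- norm as a natural number -/
def nm (v : GaussianInt) : ℕ := v.norm.natAbs

theorem nm_eq (v : GaussianInt) : (nm v : ℝ) = (v.re : ℝ) ^ 2 + (v.im : ℝ) ^ 2 := by
  unfold nm
  rw [GaussianInt.natAbs_norm_eq]
  push_cast
  rw [Nat.cast_natAbs, Nat.cast_natAbs]
  push_cast
  rw [abs_mul_abs_self, abs_mul_abs_self]
  ring

theorem nm_mul (v w : GaussianInt) : nm (v * w) = nm v * nm w := by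
  unfold nm
  rw [Zsqrtd.norm_mul, Int.natAbs_mul]

theorem nm_eq_zero {v : GaussianInt} : nm v = 0 ↔ v = 0 := by
  constructor
  · intro h
    have h1 := nm_eq v
    rw [h, Nat.cast_zero] at h1
    have h2 : (v.re : ℝ) = 0 := pow_eq_zero_iff (two_ne_zero) |>.1
      (le_antisymm (by linarith [sq_nonneg (v.im : ℝ)]) (sq_nonneg _))
    have h3 : (v.im : ℝ) = 0 := pow_eq_zero_iff (two_ne_zero) |>.1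
      (le_antisymm (by linarith [sq_nonneg (v.re : ℝ)]) (sq_nonneg _))
    exact Zsqrtd.ext (by exact_mod_cast h2) (by exact_mod_cast h3)
  · rintro rfl
    simp [nm]

/-- direction, a complex number of modulus `1` (for `v ≠ 0`) -/
noncomputable def ag (v : GaussianInt) : ℂ :=
  GaussianInt.toComplex v / (‖GaussianInt.toComplex v‖ : ℂ)

theorem ag_mul (v w : GaussianInt) : ag (v * w) = ag v * ag w := by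
  unfold ag
  rw [map_mul, norm_mul]
  push_cast
  rw [mul_div_mul_comm]

theorem toC_ne {v : GaussianInt} (h : v ≠ 0) : GaussianInt.toComplex v ≠ 0 := by
  intro h1
  apply h
  have h2 := GaussianInt.toComplex_eq_zero.1 h1
  exact h2

theorem norm_ag {v : GaussianInt} (h : v ≠ 0) : ‖ag v‖ = 1 := by
  unfold ag
  have h1 : ‖GaussianInt.toComplex v‖ ≠ 0 := norm_ne_zero_iff.2 (toC_ne h)
  rw [norm_div, Complex.norm_real, norm_norm, div_self h1]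

theorem ag_ne {v : GaussianInt} (h : v ≠ 0) : ag v ≠ 0 := by
  intro h1
  have := norm_ag h
  rw [h1, norm_zero] at this
  exact zero_ne_one this

/-- primitive -/
def Pv (v : GaussianInt) : Prop := Int.gcd v.re v.im = 1

instance : DecidablePred Pv := fun v => inferInstanceAs (Decidable (Int.gcd v.re v.im = 1))

/-- nonzero Gaussian integers with `a < |v|² ≤ b` -/
noncomputable def Sh (a b : ℝ) : Finset GaussianInt :=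
  ((Finset.Icc (-(⌈|b|⌉)) ⌈|b|⌉ ×ˢ Finset.Icc (-(⌈|b|⌉)) ⌈|b|⌉).image
    (fun p : ℤ × ℤ => (⟨p.1, p.2⟩ : GaussianInt))).filter
    (fun v => v ≠ 0 ∧ a < nm v ∧ (nm v : ℝ) ≤ b)

theorem mem_Sh {a b : ℝ} {v : GaussianInt} : v ∈ Sh a b ↔ v ≠ 0 ∧ a < nm v ∧ (nm v : ℝ) ≤ b := by
  unfold Sh
  rw [Finset.mem_filter, Finset.mem_image]
  refine ⟨fun h => h.2, fun h => ⟨⟨(v.re, v.im), ?_, rfl⟩, h⟩⟩
  have h1 := nm_eq v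
  have h2 := h.2.2
  have key : ∀ t : ℤ, (t : ℝ) ^ 2 ≤ b → t ∈ Finset.Icc (-(⌈|b|⌉)) ⌈|b|⌉ := by
    intro t ht
    have h3 : |(t : ℝ)| ≤ (t : ℝ) ^ 2 := by
      rcases eq_or_ne t 0 with h0 | h0
      · rw [h0]; simp
      · have h4 : (1 : ℝ) ≤ |(t : ℝ)| := by exact_mod_cast Int.one_le_abs h0
        rw [← sq_abs]; nlinarith
    have h5 : |(t : ℝ)| ≤ |b| := h3.trans (ht.trans (le_abs_self b))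
    have h6 : |(t : ℝ)| ≤ (⌈|b|⌉ : ℝ) := h5.trans (Int.le_ceil _)
    have h7 : |t| ≤ ⌈|b|⌉ := by exact_mod_cast h6
    rw [Finset.mem_Icc]
    exact abs_le.1 h7
  rw [Finset.mem_product]
  constructor
  · exact key v.re (by nlinarith [sq_nonneg (v.im : ℝ)])
  · exact key v.im (by nlinarith [sq_nonneg (v.re : ℝ)])

/-- characters modulo `K`, as functions on `ℤ[i]` -/
structure Chr (K : ℕ) (ψ : GaussianInt → ℂ) : Prop where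
  mul : ∀ x y, ψ (x * y) = ψ x * ψ y
  per : ∀ x y, ψ (x + (K : GaussianInt) * y) = ψ x
  nrm : ∀ x, IsCoprime x (K : GaussianInt) → ‖ψ x‖ = 1
  zer : ∀ x, ¬ IsCoprime x (K : GaussianInt) → ψ x = 0

/-- the multiplicative function `z ^ Ω(|v|²) ψ(v) (v/|v|)^j` -/
noncomputable def FF (z : ℂ) (ψ : GaussianInt → ℂ) (j : ℤ) (v : GaussianInt) : ℂ :=
  z ^ (ArithmeticFunction.cardFactors (nm v)) * ψ v * ag v ^ j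

theorem FF_mul {K : ℕ} {ψ : GaussianInt → ℂ} (hψ : Chr K ψ) (z : ℂ) (j : ℤ) {v w : GaussianInt}
    (hv : v ≠ 0) (hw : w ≠ 0) : FF z ψ j (v * w) = FF z ψ j v * FF z ψ j w := by
  unfold FF
  rw [nm_mul, ArithmeticFunction.cardFactors_mul (mt nm_eq_zero.1 hv) (mt nm_eq_zero.1 hw),
    hψ.mul, ag_mul, mul_zpow, pow_add]
  ring

/-- all Gaussian integers of the shell `(r1 N, r2 N]` -/
noncomputable def Ma (z : ℂ) (ψ : GaussianInt → ℂ) (r1 r2 N : ℝ) (j : ℤ) : ℂ :=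
  (1 / (N : ℂ)) * ∑ v ∈ Sh (r1 * N) (r2 * N), FF z ψ j v

/-- primitive Gaussian integers of the shell -/
noncomputable def Mp (z : ℂ) (ψ : GaussianInt → ℂ) (r1 r2 N : ℝ) (j : ℤ) : ℂ :=
  (1 / (N : ℂ)) * ∑ v ∈ (Sh (r1 * N) (r2 * N)).filter Pv, FF z ψ j v

/-- frequencies `|j| ≤ J` -/
noncomputable def js (J : ℕ) : Finset ℤ := Finset.Icc (-(J : ℤ)) J

/-- Gaussian primes of degree one, one of each class of associates, with norm in `[a, b)`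
(the norm is a prime, the prime lies in the open first quadrant; `1 + i` is included) -/
noncomputable def sl (a b : ℝ) : Finset GaussianInt :=
  (Sh 0 b).filter (fun v => 0 < v.re ∧ 0 < v.im ∧ (nm v).Prime ∧ a ≤ nm v ∧ (nm v : ℝ) < b)

/-- `∑ 1/|π|²` -/
noncomputable def LL (a b : ℝ) : ℝ := ∑ v ∈ sl a b, 1 / (nm v : ℝ)

/-- the slice polynomials -/
noncomputable def Qs (z : ℂ) (ψ : GaussianInt → ℂ) (h u : ℕ) (j : ℤ) : ℂ :=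
  ∑ v ∈ sl (Real.exp (u / h)) (Real.exp ((u + 1) / h)), FF z ψ j v / (nm v : ℂ)

/-- polynomials over primitive vectors -/
noncomputable def Rs (S : Finset GaussianInt) (Y : ℝ) (a : GaussianInt → ℂ) (j : ℤ) : ℂ :=
  (1 / (Y : ℂ)) * ∑ v ∈ S, a v * ag v ^ j

/-! ### Part 1: levels (captain 38) -/

/-- LS (19): large sieve; non primitive vectors are allowed, `|v|² ∈ [N, B N]` -/
def StLS : Prop := ∃ C : ℝ, 0 < C ∧ ∀ (N B : ℝ) (J : ℕ), 1 ≤ N → 1 ≤ B →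
  ∀ S : Finset GaussianInt, (∀ v ∈ S, N ≤ nm v ∧ (nm v : ℝ) ≤ B * N) → ∀ a : GaussianInt → ℂ,
  ∑ j ∈ js J, ‖∑ v ∈ S, a v * ag v ^ j‖ ^ 2 ≤
    C * B ^ 2 * ∑ v ∈ S, ‖a v‖ ^ 2 * (N + (J + 1) * Int.gcd v.re v.im)

/-- LSP (19): large sieve for primitive vectors of norm at most `X` (no lower bound) -/
def StLsp : Prop := ∃ C : ℝ, 0 < C ∧ ∀ (X : ℝ) (J : ℕ), 1 ≤ X →
  ∀ S : Finset GaussianInt, (∀ v ∈ S, Pv v ∧ (nm v : ℝ) ≤ X) → ∀ a : GaussianInt → ℂ,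
  ∑ j ∈ js J, ‖∑ v ∈ S, a v * ag v ^ j‖ ^ 2 ≤ C * (X + J) * ∑ v ∈ S, ‖a v‖ ^ 2

/-- MOM (16): moments of a slice times a polynomial over primitive vectors -/
def StMom : Prop := ∃ C : ℝ, 1 ≤ C ∧ ∀ (z : ℂ) (K : ℕ) (ψ : GaussianInt → ℂ), ‖z‖ = 1 → 0 < K →
  Chr K ψ → ∀ (h u l J : ℕ), 0 < h → h ≤ u → ∀ (B Y : ℝ) (S : Finset GaussianInt)
    (a : GaussianInt → ℂ), 1 ≤ B → 1 ≤ Y → (∀ v ∈ S, Pv v ∧ Y ≤ nm v ∧ (nm v : ℝ) ≤ B * Y) →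
    (∀ v, ‖a v‖ ≤ 1) → (J : ℝ) ≤ Real.exp (l * (u / h)) * Y →
  ∑ j ∈ js J, ‖Qs z ψ h u j ^ l * Rs S Y a j‖ ^ 2 ≤ C ^ (l + 1) * B ^ 2 * (l.factorial : ℝ) ^ 2

/-- CHEB: Chebyshev bound -/
def StCheb : Prop := ∃ C : ℝ, 0 < C ∧ ∀ y : ℝ, 2 ≤ y → LL y (2 * y) ≤ C / Real.log y

/-- MER: Mertens in `ℤ[i]` -/
def StMer : Prop := ∃ C : ℝ, 0 < C ∧ ∀ a b : ℝ, 2 ≤ a → a ≤ b →
  |LL a b - Real.log (Real.log b / Real.log a)| ≤ C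

open Classical in
/-- TK: Turan-Kubilius over a shell, dual (general coefficients) form -/
def StTK : Prop := ∀ r1 r2 : ℝ, 0 ≤ r1 → r1 < r2 → ∃ C : ℝ, 0 < C ∧ ∀ (N : ℝ), 1 ≤ N →
  ∀ (c : GaussianInt → ℂ) (y : ℝ), 1 ≤ y → y ≤ N ^ (1 / 8 : ℝ) →
  ∑ v ∈ Sh (r1 * N) (r2 * N), ‖∑ π ∈ sl 1 y, c π * ((if π ∣ v then 1 else 0) - 1 / (nm π : ℂ))‖ ^ 2
    ≤ C * N * ∑ π ∈ sl 1 y, ‖c π‖ ^ 2 / (nm π : ℝ)

/-- DEC: decomposition by slices (from StTK, StLsp, StCheb) -/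
def StDec : Prop := ∀ r1 r2 : ℝ, 0 < r1 → r1 < r2 → ∃ C : ℝ, 0 < C ∧ ∀ (z : ℂ) (K : ℕ)
  (ψ : GaussianInt → ℂ), ‖z‖ = 1 → 0 < K → Chr K ψ → ∀ h : ℕ, 0 < h → ∃ w0 : ℕ,
  ∀ (u0 u1 : ℕ) (N : ℝ), w0 ≤ u0 → u0 < u1 → Real.exp (u1 / h) ≤ N ^ (1 / 8 : ℝ) →
  1 ≤ LL (Real.exp (u0 / h)) (Real.exp (u1 / h)) → ∀ J : ℕ, (J : ℝ) ≤ N →
  ∑ j ∈ js J, ‖Mp z ψ r1 r2 N j - (1 / (LL (Real.exp (u0 / h)) (Real.exp (u1 / h)) : ℂ)) *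
    ∑ u ∈ Finset.Ico u0 u1, Qs z ψ h u j * Mp z ψ r1 r2 (N * Real.exp (-(u / h))) j‖ ^ 2 ≤
    C * (1 / LL (Real.exp (u0 / h)) (Real.exp (u1 / h)) + 1 / h + h / u0)

/-- LEV: all frequencies outside a small set `U` (from StDec, StMom, StLsp, StMer) -/
def StLev : Prop := ∀ (z : ℂ) (K : ℕ) (ψ : GaussianInt → ℂ), ‖z‖ = 1 → 0 < K → Chr K ψ →
  ∀ r1 r2 : ℝ, 0 < r1 → r1 < r2 → ∀ ε c : ℝ, 0 < ε → 0 < c → ∃ H0 : ℝ, 1 ≤ H0 ∧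
  ∀ H : ℝ, H0 ≤ H → ∃ N0 : ℝ, ∀ N : ℝ, N0 ≤ N → ∃ U ⊆ js ⌊N / H⌋₊, (U.card : ℝ) ≤ N ^ c ∧
  ∑ j ∈ js ⌊N / H⌋₊ \ U, ‖Mp z ψ r1 r2 N j‖ ^ 2 ≤ ε

/-! ### Part 2: the set `U` (captain 86) -/

/-- TKH: Turan-Kubilius and Halasz-Montgomery together (from StExp) -/
def StTkh : Prop := ∀ r1 r2 : ℝ, 0 ≤ r1 → r1 < r2 → ∃ c C : ℝ, 0 < c ∧ c ≤ 1 / 8 ∧ 0 < C ∧
  ∀ (z : ℂ) (K : ℕ) (ψ : GaussianInt → ℂ), ‖z‖ = 1 → 0 < K → Chr K ψ →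
  ∃ N0 : ℝ, 1 ≤ N0 ∧ ∀ N : ℝ, N0 ≤ N → ∀ U : Finset ℤ, (U.card : ℝ) ≤ N ^ c →
    (∀ j ∈ U, |(j : ℝ)| ≤ N ^ 2) →
    ∑ j ∈ U, ∑ π ∈ sl 3 (N ^ c), (1 / (nm π : ℝ)) *
      ‖Ma z ψ r1 r2 N j - FF z ψ j π * Ma z ψ r1 r2 (N / nm π) j‖ ^ 2 ≤ C

/-- HMU: Halasz-Montgomery on `U`, arbitrary coefficients (from StExp) -/
def StHmu : Prop := ∀ r1 r2 : ℝ, 0 ≤ r1 → r1 < r2 → ∃ c C : ℝ, 0 < c ∧ 0 < C ∧ ∃ N0 : ℝ, 1 ≤ N0 ∧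
  ∀ N : ℝ, N0 ≤ N → ∀ U : Finset ℤ, (U.card : ℝ) ≤ N ^ c → (∀ j ∈ U, |(j : ℝ)| ≤ N ^ 4) →
  ∀ a : GaussianInt → ℂ, (∀ v, ‖a v‖ ≤ 1) →
    ∑ j ∈ U, ‖(1 / (N : ℂ)) * ∑ v ∈ Sh (r1 * N) (r2 * N), a v * ag v ^ j‖ ^ 2 ≤ C

/-- the character comparing a prime and its conjugate -/
noncomputable def Psj (ψ : GaussianInt → ℂ) (j : ℤ) (v : GaussianInt) : ℂ :=
  ψ v * (starRingEnd ℂ) (ψ (star v)) * ag v ^ (2 * j)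

/-- DJ: the distance tends to infinity uniformly in `0 < |j| ≤ N²` (from StExp) -/
def StDj : Prop := ∀ (K : ℕ) (ψ : GaussianInt → ℂ), 0 < K → Chr K ψ → ∀ c B : ℝ, 0 < c →
  ∃ N0 : ℝ, 1 ≤ N0 ∧ ∀ N : ℝ, N0 ≤ N → ∀ j : ℤ, j ≠ 0 → |(j : ℝ)| ≤ N ^ 2 →
  ψ ⟨0, 1⟩ * Complex.I ^ j = 1 →
  B ≤ ∑ π ∈ (sl 3 (N ^ c)).filter (fun π => ψ π ≠ 0), (1 / (nm π : ℝ)) * ‖1 - Psj ψ j π‖ ^ 2

/-- UALL (from StTkh, StDj) -/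
def StUall : Prop := ∀ (z : ℂ) (K : ℕ) (ψ : GaussianInt → ℂ), ‖z‖ = 1 → 0 < K → Chr K ψ →
  ∀ r1 r2 : ℝ, 0 ≤ r1 → r1 < r2 → ∃ c : ℝ, 0 < c ∧ ∀ ε : ℝ, 0 < ε → ∃ N0 : ℝ, ∀ N : ℝ, N0 ≤ N →
  ∀ U : Finset ℤ, (U.card : ℝ) ≤ N ^ c → 0 ∉ U → (∀ j ∈ U, |(j : ℝ)| ≤ N ^ 2) →
    ∑ j ∈ U, ‖Ma z ψ r1 r2 N j‖ ^ 2 ≤ ε

/-- UPRIM (from StUall, StHmu) -/
def StUp : Prop := ∀ (z : ℂ) (K : ℕ) (ψ : GaussianInt → ℂ), ‖z‖ = 1 → 0 < K → Chr K ψ →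
  ∀ r1 r2 : ℝ, 0 ≤ r1 → r1 < r2 → ∃ c : ℝ, 0 < c ∧ ∀ ε : ℝ, 0 < ε → ∃ N0 : ℝ, ∀ N : ℝ, N0 ≤ N →
  ∀ U : Finset ℤ, (U.card : ℝ) ≤ N ^ c → 0 ∉ U → (∀ j ∈ U, |(j : ℝ)| ≤ N) →
    ∑ j ∈ U, ‖Mp z ψ r1 r2 N j‖ ^ 2 ≤ ε

/-! ### Part 3: frequency 0 (91) -/

/-- PW0 -/
def StPw0 : Prop := ∀ (z : ℂ) (k K : ℕ) (ψ : GaussianInt → ℂ), 0 < k → z ^ k = 1 → z ≠ 1 →
  0 < K → Chr K ψ → ∀ r1 r2 : ℝ, 0 ≤ r1 → r1 < r2 →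
  Tendsto (fun N : ℝ => Mp z ψ r1 r2 N 0) atTop (𝓝 0)

/-! ### Part 4: assembly and classes -/

/-- CORE (from StLev, StUp, StPw0) -/
def StCore : Prop := ∀ (z : ℂ) (k K : ℕ) (ψ : GaussianInt → ℂ), 0 < k → z ^ k = 1 → z ≠ 1 →
  0 < K → Chr K ψ → ∀ r1 r2 : ℝ, 0 < r1 → r1 < r2 → ∀ ε : ℝ, 0 < ε → ∃ H0 : ℝ, 1 ≤ H0 ∧
  ∀ H : ℝ, H0 ≤ H → ∃ N0 : ℝ, ∀ N : ℝ, N0 ≤ N →
  ∑ j ∈ js ⌊N / H⌋₊, ‖Mp z ψ r1 r2 N j‖ ^ 2 ≤ ε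

open Classical in
/-- one unit class modulo `K` (from StCore by orthogonality of characters) -/
def StUnitCl : Prop := ∀ (z : ℂ) (k K : ℕ), 0 < k → z ^ k = 1 → z ≠ 1 → 0 < K →
  ∀ a : GaussianInt, IsCoprime a (K : GaussianInt) → ∀ r1 r2 : ℝ, 0 < r1 → r1 < r2 →
  ∀ ε : ℝ, 0 < ε → ∃ H0 : ℝ, 1 ≤ H0 ∧ ∀ H : ℝ, H0 ≤ H → ∃ N0 : ℝ, ∀ N : ℝ, N0 ≤ N →
  ∑ j ∈ js ⌊N / H⌋₊, ‖(1 / (N : ℂ)) * ∑ v ∈ (Sh (r1 * N) (r2 * N)).filter (fun v => Pv v ∧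
    (K : GaussianInt) ∣ v - a), z ^ (ArithmeticFunction.cardFactors (nm v)) * ag v ^ j‖ ^ 2 ≤ ε

open Classical in
/-- every class modulo `K` (from StUnitCl, StLS) -/
def StCls : Prop := ∀ (z : ℂ) (k K : ℕ), 0 < k → z ^ k = 1 → z ≠ 1 → 0 < K →
  ∀ a : GaussianInt, ∀ r1 r2 : ℝ, 0 < r1 → r1 < r2 →
  ∀ ε : ℝ, 0 < ε → ∃ H0 : ℝ, 1 ≤ H0 ∧ ∀ H : ℝ, H0 ≤ H → ∃ N0 : ℝ, ∀ N : ℝ, N0 ≤ N →
  ∑ j ∈ js ⌊N / H⌋₊, ‖(1 / (N : ℂ)) * ∑ v ∈ (Sh (r1 * N) (r2 * N)).filter (fun v => Pv v ∧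
    (K : GaussianInt) ∣ v - a), z ^ (ArithmeticFunction.cardFactors (nm v)) * ag v ^ j‖ ^ 2 ≤ ε

end Pool.Agent.Lib.MP_a17b09_nt.MRS
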