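import Pool.Agent.Lib.MP_a17b09_nt.MRS.Glue90
import Pool.Agent.Lib.MP_a17b09_nt.MRS.Stmts3
import Pool.Agent.Lib.MP_a17b09_nt.CH.Sys68

/-!
Project CH / MRS, glue, second part: the statement `StCls` for Gaussian integers gives the interface
`MrsQ` for the form `x² + y²`, hence for all forms of discriminant `-4`, hence Theorem E for the system
of discriminant `-4` and all pairs of roots of unity different from `(1, 1)`.
-/

set_option autoImplicit false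

open Filter Topology Finset

namespace Pool.Agent.Lib.MP_a17b09_nt.MRS

open Pool.Agent.Lib.MP_a17b09_nt.CH Pool.Agent.Lib.MP_a17b09_nt.CH.PE

namespace Glue90

/-! ### equivalence of forms -/

theorem adj_app1 {γ : Mat} (h : γ.det = 1) (v : V) : γ.adj.app (γ.app v) = v := by
  rw [Mat.adj_app, h, one_smul]

theorem app_adj1 {γ : Mat} (h : γ.det = 1) (v : V) : γ.app (γ.adj.app v) = v := by
  rw [Mat.app_adj, h, one_smul]

theorem prim_app {γ : Mat} (h : γ.det = 1) {v : V} (hv : Prim v) : Prim (γ.app v) := by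
  obtain ⟨w, hw⟩ := exists_partner90 hv
  apply prim_of_wd90 (w := γ.app w)
  rw [Mat.wd_app, h, hw, one_mul]

theorem prim_app_iff {γ : Mat} (h : γ.det = 1) {v : V} : Prim (γ.app v) ↔ Prim v := by
  refine ⟨fun h1 => ?_, prim_app h⟩
  have h2 := prim_app (γ := γ.adj) (by rw [Mat.det_adj, h]) h1
  rwa [adj_app1 h] at h2

/-- `tq v * conj (tq w)` -/
theorem tq_mul_conj {Q : Form} (hQ : Q.Pos) (v w : V) : tq Q v * (starRingEnd ℂ) (tq Q w) =
    ⟨(Q.B v w : ℝ) / 2, -(√(Q.D : ℝ) / 2 * wd v w)⟩ := by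
  have h1 := tq_inner90 Q hQ v w
  have h2 := tq_det90 Q hQ v w
  apply Complex.ext
  · rw [Complex.mul_re, Complex.conj_re, Complex.conj_im]
    show _ = (Q.B v w : ℝ) / 2
    linarith
  · rw [Complex.mul_im, Complex.conj_re, Complex.conj_im]
    show _ = -(√(Q.D : ℝ) / 2 * wd v w)
    linarith

/-- the embeddings of equivalent forms differ by a rotation -/
theorem tq_comp {Q : Form} (hQ : Q.Pos) {γ : Mat} (h : γ.det = 1) : ∃ c : ℂ, ‖c‖ = 1 ∧
    ∀ v, tq (Q.comp γ) v = c * tq Q (γ.app v) := by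
  have hQ' : (Q.comp γ).Pos := Form.comp_Pos hQ (by rw [h]; norm_num)
  have hD : (Q.comp γ).D = Q.D := by rw [Form.comp_D, h]; ring
  have key : ∀ v w : V, tq (Q.comp γ) v * (starRingEnd ℂ) (tq (Q.comp γ) w) =
      tq Q (γ.app v) * (starRingEnd ℂ) (tq Q (γ.app w)) := by
    intro v w
    rw [tq_mul_conj hQ', tq_mul_conj hQ, Form.comp_B, hD, Mat.wd_app, h, one_mul]
  set w0 : V := (1, 0) with hw0
  have hw0' : w0 ≠ 0 := by
    rw [hw0]
    intro h0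
    have := congrArg Prod.fst h0
    simp at this
  have hb := Loc90.tq_ne hQ' hw0'
  have hγw : γ.app w0 ≠ 0 := by
    intro h0
    apply hw0'
    have := adj_app1 h w0
    rw [h0] at this
    rw [← this]
    unfold Mat.app
    simp
  have hb' := Loc90.tq_ne hQ hγw
  have hnorm : ‖tq (Q.comp γ) w0‖ = ‖tq Q (γ.app w0)‖ := by
    have h1 := key w0 w0
    rw [Complex.mul_conj, Complex.mul_conj, Complex.normSq_eq_norm_sq,
      Complex.normSq_eq_norm_sq] at h1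
    have h2 : ‖tq (Q.comp γ) w0‖ ^ 2 = ‖tq Q (γ.app w0)‖ ^ 2 := by exact_mod_cast h1
    exact (pow_left_inj₀ (norm_nonneg _) (norm_nonneg _) two_ne_zero).1 h2
  have hcb : (starRingEnd ℂ) (tq (Q.comp γ) w0) ≠ 0 := by
    rw [Ne, map_eq_zero]
    exact hb
  refine ⟨(starRingEnd ℂ) (tq Q (γ.app w0)) / (starRingEnd ℂ) (tq (Q.comp γ) w0), ?_, fun v => ?_⟩
  · rw [norm_div, Complex.norm_conj, Complex.norm_conj, hnorm,
      div_self (norm_ne_zero_iff.2 hb')]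
  · rw [div_mul_eq_mul_div, eq_div_iff hcb, key v w0]
    ring

theorem uv_comp {Q : Form} {γ : Mat} {c : ℂ} (hc : ‖c‖ = 1)
    (h : ∀ v, tq (Q.comp γ) v = c * tq Q (γ.app v)) (v : V) :
    uv (Q.comp γ) v = c * uv Q (γ.app v) := by
  unfold uv
  rw [h v, norm_mul, hc, one_mul, mul_div_assoc]

/-- the shell sums of equivalent forms -/
theorem msh_comp {Q : Form} (hQ : Q.Pos) {γ : Mat} (h : γ.det = 1) (z : ℂ) (K : ℕ)
    (α : ZMod K × ZMod K) (r1 r2 : ℝ) (n : ℕ) (j : ℤ) :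
    ‖Msh (Q.comp γ) (gc z (Q.comp γ) K α) r1 r2 n j‖ =
      ‖Msh Q (gc z Q K (az γ α)) r1 r2 n j‖ := by
  classical
  have hQ' : (Q.comp γ).Pos := Form.comp_Pos hQ (by rw [h]; norm_num)
  obtain ⟨c, hc, htq⟩ := tq_comp hQ h
  have hdet : ((γ.det : ℤ) : ZMod K) = 1 := by rw [h]; simp
  have hsum : ∑ v ∈ ((Q.comp γ).ball ⌊r2 * n⌋₊).filter (fun v => r1 * n < (Q.comp γ).q v),
      gc z (Q.comp γ) K α v * uv (Q.comp γ) v ^ j =
      ∑ v ∈ (Q.ball ⌊r2 * n⌋₊).filter (fun v => r1 * n < Q.q v),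
        c ^ j * (gc z Q K (az γ α) v * uv Q v ^ j) := by
    apply Finset.sum_nbij' (fun v => γ.app v) (fun v => γ.adj.app v)
    · intro v hv
      rw [Finset.mem_filter, Form.mem_ball hQ', Form.comp_q] at hv
      rw [Finset.mem_filter, Form.mem_ball hQ]
      exact hv
    · intro v hv
      rw [Finset.mem_filter, Form.mem_ball hQ] at hv
      rw [Finset.mem_filter, Form.mem_ball hQ', Form.comp_q, app_adj1 h]
      exact hv
    · intro v _
      exact adj_app1 h v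
    · intro v _
      exact app_adj1 h v
    · intro v _
      rw [uv_comp hc htq, mul_zpow]
      have hg : gc z (Q.comp γ) K α v = gc z Q K (az γ α) (γ.app v) := by
        have hiff : (Prim (γ.app v) ∧ cl K (γ.app v) = az γ α) ↔ (Prim v ∧ cl K v = α) := by
          rw [prim_app_iff h, cl_app]
          refine and_congr_right fun _ => ⟨fun h3 => ?_, fun h3 => by rw [h3]⟩
          rw [← adj_az γ hdet (cl K v), h3, adj_az γ hdet α]
        unfold gc gz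
        rw [Form.comp_q]
        by_cases h1 : Prim v ∧ cl K v = α
        · rw [if_pos h1, if_pos (hiff.2 h1)]
        · rw [if_neg h1, if_neg (fun h2 => h1 (hiff.1 h2))]
      rw [hg]
      ring
  unfold Msh
  rw [hsum, ← Finset.mul_sum, norm_mul, norm_mul, norm_mul, norm_zpow, hc, one_zpow, one_mul]

end Glue90

/-- the interface is invariant under equivalence of forms -/
theorem mrsQ_eqv90 {Q Q' : Form} (hQ : Q.Pos) (h : Eqv Q Q') {z : ℂ} {K : ℕ} (hM : MrsQ Q z K) :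
    MrsQ Q' z K := by
  obtain ⟨γ, h1, rfl⟩ := h
  intro α r1 r2 h0 h12 A hA ε hε
  obtain ⟨L0, hL0, h2⟩ := hM (az γ α) r1 r2 h0 h12 A hA ε hε
  refine ⟨L0, hL0, fun L hL => ?_⟩
  obtain ⟨n0, hn0⟩ := h2 L hL
  refine ⟨n0, fun n hn => ?_⟩
  have h3 := hn0 n hn
  simp only [Glue90.msh_comp hQ h1]
  exact h3

/-- the form `x² + y²` -/
def Q1 : Form := ⟨1, 0, 1⟩

theorem Q1_pos : Q1.Pos := by
  unfold Form.Pos Form.D Q1
  norm_num

theorem tq_Q1 (v : V) : tq Q1 v = GaussianInt.toComplex ⟨v.1, v.2⟩ := by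
  unfold tq Q1 Form.D
  rw [GaussianInt.toComplex_def]
  have h4 : √(4 : ℝ) = 2 := by
    rw [show (4 : ℝ) = 2 ^ 2 by norm_num, Real.sqrt_sq (by norm_num)]
  apply Complex.ext
  · simp
  · simp [h4]

theorem nm_Q1 (v : V) : ((nm ⟨v.1, v.2⟩ : ℕ) : ℤ) = Q1.q v := by
  have h1 := nm_eq ⟨v.1, v.2⟩
  have h2 : ((nm ⟨v.1, v.2⟩ : ℕ) : ℝ) = (Q1.q v : ℝ) := by
    rw [h1]
    unfold Q1 Form.q
    push_cast
    ring
  exact_mod_cast h2

theorem cl_iff90 {K : ℕ} [NeZero K] (α : ZMod K × ZMod K) (v : V) :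
    cl K v = α ↔ (K : GaussianInt) ∣ (⟨v.1, v.2⟩ : GaussianInt) - ⟨(α.1.val : ℤ), (α.2.val : ℤ)⟩ := by
  have h1 : (K : GaussianInt) = ((K : ℤ) : GaussianInt) := by push_cast; rfl
  rw [h1, Zsqrtd.intCast_dvd]
  have key : ∀ (x : ℤ) (a : ZMod K), (x : ZMod K) = a ↔ (K : ℤ) ∣ x - (a.val : ℤ) := by
    intro x a
    rw [← ZMod.intCast_zmod_eq_zero_iff_dvd]
    push_cast
    rw [ZMod.natCast_zmod_val, sub_eq_zero]
  unfold cl
  rw [Prod.ext_iff]
  show ((v.1 : ZMod K) = α.1 ∧ (v.2 : ZMod K) = α.2) ↔ _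
  rw [key, key]
  rfl

/-- the interface for the form `x² + y²` -/
theorem mrsQ_cls90 (hCls : StCls) {z : ℂ} {k : ℕ} (hk : 0 < k) (hz : z ^ k = 1) (hz1 : z ≠ 1)
    (K : ℕ) [NeZero K] : MrsQ Q1 z K := by
  classical
  intro α r1 r2 h0 h12 A hA ε hε
  obtain ⟨H0, hH0, h1⟩ := hCls z k K hk hz hz1 (Nat.pos_of_ne_zero (NeZero.ne K))
    ⟨(α.1.val : ℤ), (α.2.val : ℤ)⟩ r1 r2 h0 h12 ε hε
  refine ⟨max 1 (A * H0), le_max_left _ _, fun L hL => ?_⟩
  have hL1 : 1 ≤ L := (le_max_left _ _).trans hL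
  have hL2 : A * H0 ≤ L := (le_max_right _ _).trans hL
  have hL0 : 0 < L := by linarith
  obtain ⟨N0, hN0⟩ := h1 (L / A) (by rw [le_div_iff₀ hA]; linarith)
  obtain ⟨n0, hn0⟩ := exists_nat_ge N0
  refine ⟨max n0 1, fun n hn => ?_⟩
  have hn1 : (N0 : ℝ) ≤ n := hn0.trans (by exact_mod_cast (le_max_left _ _).trans hn)
  have hn2 : 1 ≤ n := (le_max_right _ _).trans hn
  have hn3 : (0 : ℝ) < n := by exact_mod_cast hn2
  have h2 := hN0 n hn1
  have h3 : (n : ℝ) / (L / A) = A * n / L := by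
    field_simp
  rw [h3] at h2
  unfold js at h2
  refine le_trans (le_of_eq ?_) h2
  apply Finset.sum_congr rfl
  intro j _
  congr 2
  unfold Msh
  congr 1
  -- the class
  have h4 : ∑ v ∈ (Q1.ball ⌊r2 * n⌋₊).filter (fun v => r1 * n < Q1.q v),
      gc z Q1 K α v * uv Q1 v ^ j =
      ∑ v ∈ ((Q1.ball ⌊r2 * n⌋₊).filter (fun v => r1 * n < Q1.q v)).filter
        (fun v => Prim v ∧ cl K v = α), gz z Q1 v * uv Q1 v ^ j := by
    rw [Finset.sum_filter (fun v => Prim v ∧ cl K v = α)]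
    apply Finset.sum_congr rfl
    intro v _
    unfold gc
    split_ifs with h
    · rfl
    · rw [zero_mul]
  rw [h4]
  apply Finset.sum_nbij' (fun v : V => (⟨v.1, v.2⟩ : GaussianInt)) (fun v => ((v.re, v.im) : V))
  · intro v hv
    rw [Finset.mem_filter, Finset.mem_filter, Form.mem_ball Q1_pos] at hv
    obtain ⟨⟨a1, a2⟩, a3, a4⟩ := hv
    rw [Finset.mem_filter, mem_Sh]
    have hnm : ((nm ⟨v.1, v.2⟩ : ℕ) : ℝ) = (Q1.q v : ℝ) := by exact_mod_cast nm_Q1 v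
    refine ⟨⟨?_, ?_, ?_⟩, a3, (cl_iff90 α v).1 a4⟩
    · intro h5
      apply ne_zero_of_prim90 a3
      have h6 := congrArg Zsqrtd.re h5
      have h7 := congrArg Zsqrtd.im h5
      exact Prod.ext h6 h7
    · rw [hnm]; exact a2
    · rw [hnm]
      have : (Q1.q v : ℝ) ≤ ((⌊r2 * (n : ℝ)⌋₊ : ℕ) : ℝ) := by exact_mod_cast a1
      exact this.trans (Nat.floor_le (by nlinarith))
  · intro v hv
    rw [Finset.mem_filter, mem_Sh] at hv
    obtain ⟨⟨a0, a1, a2⟩, a3, a4⟩ := hv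
    have hnm : ((nm v : ℕ) : ℤ) = Q1.q (v.re, v.im) := nm_Q1 (v.re, v.im)
    have hnm' : ((nm v : ℕ) : ℝ) = (Q1.q (v.re, v.im) : ℝ) := by exact_mod_cast hnm
    rw [Finset.mem_filter, Finset.mem_filter, Form.mem_ball Q1_pos]
    refine ⟨⟨?_, ?_⟩, a3, (cl_iff90 α (v.re, v.im)).2 a4⟩
    · rw [← hnm]
      exact_mod_cast Nat.le_floor a2
    · rw [← hnm']; exact a1
  · intro v _
    rfl
  · intro v _
    rfl
  · intro v hv
    show gz z Q1 v * uv Q1 v ^ j = z ^ (ArithmeticFunction.cardFactors (nm ⟨v.1, v.2⟩)) *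
      ag ⟨v.1, v.2⟩ ^ j
    have h5 : (Q1.q v).natAbs = nm ⟨v.1, v.2⟩ := by
      rw [← nm_Q1 v, Int.natAbs_natCast]
    unfold gz uv ag
    rw [h5, tq_Q1]

/-- every form of discriminant `-4` is equivalent to `x² + y²` -/
theorem eqv_Q1 {Q : Form} (hQ : Q.Pos) (hD : Q.D = 4) : Eqv Q1 Q := by
  obtain ⟨n, hn⟩ : ∃ n : ℕ, Q.a = n := ⟨_, (Int.toNat_of_nonneg hQ.1.le).symm⟩
  obtain ⟨Q', hE, hP, hb, hc⟩ := exists_reduced n Q hQ hn
  have hD' : Q'.D = 4 := by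
    obtain ⟨γ, h1, rfl⟩ := hE
    rw [Form.comp_D, h1, hD]; ring
  have ha := hP.1
  have hD2 : 4 * Q'.a * Q'.c - Q'.b ^ 2 = 4 := hD'
  have hb1 := abs_le.1 hb
  have hb2 : Q'.b ^ 2 ≤ Q'.a ^ 2 := by
    rw [← sq_abs Q'.b]; exact pow_le_pow_left₀ (abs_nonneg _) hb 2
  have hac : Q'.a * Q'.a ≤ Q'.a * Q'.c := mul_le_mul_of_nonneg_left hc ha.le
  have h3 : 3 * Q'.a ^ 2 ≤ 4 := by nlinarith
  have ha1 : Q'.a = 1 := by nlinarith
  have hb0 : Q'.b = 0 := by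
    rw [ha1] at hb1 hD2
    obtain ⟨h5, h6⟩ := hb1
    have h7 : Q'.b = -1 ∨ Q'.b = 0 ∨ Q'.b = 1 := by omega
    rcases h7 with h7 | h7 | h7
    · rw [h7] at hD2; omega
    · exact h7
    · rw [h7] at hD2; omega
  have hc1 : Q'.c = 1 := by
    rw [ha1, hb0] at hD2
    linarith
  have h8 : Q' = Q1 := by
    apply Form.ext'
    · rw [ha1]; rfl
    · rw [hb0]; rfl
    · rw [hc1]; rfl
  rw [h8] at hE
  exact hE.symm

/-- Theorem E for all systems of discriminant `-4` and all pairs of roots of unity different from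
`(1, 1)` -/
theorem esFor_mrs90 (hCls : StCls) (hRed : PE.StRedS) {ι : Type} [Fintype ι] (S : System ι)
    (hS : S.d = 4) {z1 z2 : ℂ} {k : ℕ} (hk : 0 < k) (h1 : z1 ^ k = 1) (h2 : z2 ^ k = 1)
    (hne : z1 ≠ 1 ∨ z2 ≠ 1) : EsFor S z1 z2 := by
  intro M K hK h4 om hom δ h hδ hT
  have hz1 : ‖z1‖ = 1 := Complex.norm_eq_one_of_pow_eq_one h1 hk.ne'
  have hz2 : ‖z2‖ = 1 := Complex.norm_eq_one_of_pow_eq_one h2 hk.ne'
  have hQ : ∀ i, Eqv Q1 (S.Q i) := by
    intro i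
    apply eqv_Q1 (S.pos i)
    rw [S.disc i, hS]
    rfl
  refine es_one90 hRed stPsv_28 S z1 z2 k hk h1 h2 ?_ M K hK h4 om hom δ h hδ hT
  intro M K _ h4 om hom B G1 G2 hG1 hG2
  refine psi_null90 M S hz1 hz2 K ?_ om hom B G1 G2 hG1 hG2
  rcases hne with hne | hne
  · left
    exact fun i => mrsQ_eqv90 Q1_pos (hQ i) (mrsQ_cls90 hCls hk h1 hne K)
  · right
    exact fun i => mrsQ_eqv90 Q1_pos (hQ i) (mrsQ_cls90 hCls hk h2 hne K)

end Pool.Agent.Lib.MP_a17b09_nt.MRS
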