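import Pool.Agent.Lib.MP_325d88_nt.PNTAP

/-!
MRS (MP_a17b09_nt), section 4: lower bound for the number of Gaussian primes of degree one in the
dyadic window `(y, 2 y]`.
-/

set_option autoImplicit false

open Filter Topology Finset

namespace Pool.Agent.Lib.MP_a17b09_nt.MRS

/-- the primes `p = 1 mod 4` with `y < p ≤ 2 y` -/
def pw71 (y : ℕ) : Finset ℕ :=
  (Finset.Ioc y (2 * y)).filter (fun p => p.Prime ∧ p % 4 = 1)

/-- Chebyshev lower bound for the primes `1 mod 4` in dyadic windows -/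
theorem cheb71 : ∀ᶠ y : ℕ in atTop, (y : ℝ) / (8 * Real.log y) ≤ ((pw71 y).card : ℝ) := by
  have h0 := Pool.Agent.MP_325d88_nt.theta_ap 4 (by norm_num) 1 (by norm_num)
  have ht : (Nat.totient 4 : ℝ) = 2 := by
    rw [show (4 : ℕ) = 2 ^ 2 by norm_num, Nat.totient_prime_pow Nat.prime_two (by norm_num)]
    norm_num
  rw [ht] at h0
  set th : ℕ → ℝ := fun x => ∑ p ∈ Pool.Agent.MP_325d88_nt.primesAP 4 1 x, Real.log p with hth
  have h1 : ∀ᶠ x : ℕ in atTop, |th x / x - 1 / 2| < 1 / 100 := by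
    have := (Metric.tendsto_atTop.1 h0) (1 / 100) (by norm_num)
    obtain ⟨N, hN⟩ := this
    filter_upwards [eventually_ge_atTop N] with x hx
    have := hN x hx
    rwa [Real.dist_eq] at this
  have h2 : ∀ᶠ x : ℕ in atTop, |th (2 * x) / ((2 * x : ℕ) : ℝ) - 1 / 2| < 1 / 100 := by
    have h3 : Tendsto (fun x : ℕ => 2 * x) atTop atTop :=
      tendsto_id.const_mul_atTop' (by norm_num)
    exact h3.eventually h1
  filter_upwards [h1, h2, eventually_ge_atTop 3] with y hy1 hy2 hy3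
  have hy0 : (0 : ℝ) < y := by positivity
  have hy3' : (3 : ℝ) ≤ y := by exact_mod_cast hy3
  have e1 : th y ≤ 51 / 100 * y := by
    rw [abs_lt] at hy1
    have := hy1.2
    have h4 : th y / y < 51 / 100 := by linarith
    rw [div_lt_iff₀ hy0] at h4
    exact h4.le
  have e2 : 98 / 100 * (y : ℝ) ≤ th (2 * y) := by
    rw [abs_lt] at hy2
    have := hy2.1
    have h4 : 49 / 100 < th (2 * y) / ((2 * y : ℕ) : ℝ) := by linarith
    rw [lt_div_iff₀ (by push_cast; positivity)] at h4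
    push_cast at h4
    linarith
  have e3 : th (2 * y) ≤ th y + ((pw71 y).card : ℝ) * (2 * Real.log y) := by
    have h5 : Pool.Agent.MP_325d88_nt.primesAP 4 1 (2 * y) ⊆
        Pool.Agent.MP_325d88_nt.primesAP 4 1 y ∪ pw71 y := by
      intro p hp
      unfold Pool.Agent.MP_325d88_nt.primesAP at hp ⊢
      unfold pw71
      rw [Finset.mem_filter, Finset.mem_range] at hp
      rw [Finset.mem_union, Finset.mem_filter, Finset.mem_range, Finset.mem_filter,
        Finset.mem_Ioc]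
      rcases le_or_gt p y with h | h
      · exact Or.inl ⟨by omega, hp.2⟩
      · refine Or.inr ⟨⟨h, by omega⟩, hp.2.1, ?_⟩
        have := hp.2.2
        unfold Nat.ModEq at this
        omega
    have h6 : ∀ p : ℕ, 0 ≤ Real.log p := fun p => Real.log_natCast_nonneg p
    calc th (2 * y) ≤ ∑ p ∈ Pool.Agent.MP_325d88_nt.primesAP 4 1 y ∪ pw71 y, Real.log p :=
          Finset.sum_le_sum_of_subset_of_nonneg h5 fun p _ _ => h6 p
      _ ≤ th y + ∑ p ∈ pw71 y, Real.log p := by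
          rw [← Finset.sum_union_inter]
          have : 0 ≤ ∑ p ∈ Pool.Agent.MP_325d88_nt.primesAP 4 1 y ∩ pw71 y, Real.log p :=
            Finset.sum_nonneg fun p _ => h6 p
          linarith
      _ ≤ th y + ((pw71 y).card : ℝ) * (2 * Real.log y) := by
          have h7 : ∑ p ∈ pw71 y, Real.log p ≤ ∑ p ∈ pw71 y, (2 * Real.log y) := by
            refine Finset.sum_le_sum fun p hp => ?_
            unfold pw71 at hp
            rw [Finset.mem_filter, Finset.mem_Ioc] at hp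
            have h8 : (p : ℝ) ≤ y ^ 2 := by
              have h9 : (p : ℝ) ≤ 2 * y := by exact_mod_cast hp.1.2
              nlinarith
            have hp0 : (0 : ℝ) < p := by
              have := hp.2.1.pos
              exact_mod_cast this
            calc Real.log p ≤ Real.log ((y : ℝ) ^ 2) := Real.log_le_log hp0 h8
              _ = 2 * Real.log y := by rw [Real.log_pow]; norm_num
          rw [Finset.sum_const, nsmul_eq_mul] at h7
          linarith
  have hl : 0 < Real.log y := Real.log_pos (by linarith)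
  rw [div_le_iff₀ (by positivity)]
  nlinarith

/-- Mertens lower bound in windows `(e ^ u, e ^ (u + κ)]` for primes in a progression -/
theorem cheb_ap71 (q : ℕ) (hq : 0 < q) (a : ℕ) (ha : Nat.Coprime a q) (κ : ℝ) (hκ : 0 < κ) :
    ∃ c : ℝ, 0 < c ∧ ∃ U0 : ℝ, 0 < U0 ∧ ∀ u : ℝ, U0 ≤ u → ∀ S : Finset ℕ,
      (∀ p : ℕ, p ∈ S ↔ (p.Prime ∧ p ≡ a [MOD q] ∧ Real.exp u < p ∧ (p : ℝ) ≤ Real.exp (u + κ))) →
      c / u ≤ ∑ p ∈ S, (1 : ℝ) / p := by
  have h0 := Pool.Agent.MP_325d88_nt.theta_ap q hq a ha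
  set th : ℕ → ℝ := fun x => ∑ p ∈ Pool.Agent.MP_325d88_nt.primesAP q a x, Real.log p with hth
  have hphi : (0 : ℝ) < Nat.totient q := by
    have := Nat.totient_pos.2 hq
    exact_mod_cast this
  set φ : ℝ := 1 / (Nat.totient q : ℝ) with hφ
  have hφ0 : 0 < φ := by positivity
  set E : ℝ := Real.exp κ with hE
  have hE1 : 1 < E := by
    rw [hE]
    exact Real.one_lt_exp_iff.2 hκ
  -- the density of the window
  set δ : ℝ := φ * (E - 1) with hδ
  have hδ0 : 0 < δ := mul_pos hφ0 (by linarith)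
  set τ : ℝ := δ / (4 * (E + 1)) with hτ
  have hτ0 : 0 < τ := by positivity
  obtain ⟨N, hN⟩ := (Metric.tendsto_atTop.1 h0) τ hτ0
  -- real version
  have h1 : ∀ x : ℝ, (N : ℝ) + 1 ≤ x → φ * x - τ * x - φ ≤ th ⌊x⌋₊ ∧ th ⌊x⌋₊ ≤ φ * x + τ * x := by
    intro x hx
    have hx0 : 0 ≤ x := by
      have : (0 : ℝ) ≤ N := Nat.cast_nonneg _
      linarith
    have h2 : N + 1 ≤ ⌊x⌋₊ := Nat.le_floor (by push_cast; exact hx)
    have h3 := hN ⌊x⌋₊ (by omega)
    rw [Real.dist_eq, abs_lt] at h3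
    have h4 : (0 : ℝ) < (⌊x⌋₊ : ℝ) := by
      have : 0 < ⌊x⌋₊ := by omega
      exact_mod_cast this
    have h5 := Nat.floor_le hx0
    have h6 := Nat.lt_floor_add_one x
    have h7 : (φ - τ) * (⌊x⌋₊ : ℝ) ≤ th ⌊x⌋₊ := by
      have : φ - τ < th ⌊x⌋₊ / (⌊x⌋₊ : ℝ) := by linarith [h3.1]
      rw [lt_div_iff₀ h4] at this
      exact this.le
    have h8 : th ⌊x⌋₊ ≤ (φ + τ) * (⌊x⌋₊ : ℝ) := by
      have : th ⌊x⌋₊ / (⌊x⌋₊ : ℝ) < φ + τ := by linarith [h3.2]
      rw [div_lt_iff₀ h4] at this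
      exact this.le
    constructor
    · nlinarith
    · nlinarith
  have hEτ : τ * (E + 1) = δ / 4 := by
    rw [hτ]
    field_simp
  refine ⟨δ / (8 * E * (1 + κ)), by positivity, max 1 (max (Real.log (N + 1))
    (Real.log (4 * φ / δ + 1))), lt_max_of_lt_left one_pos, ?_⟩
  intro u hu S hS
  have hu1 : 1 ≤ u := le_trans (le_max_left _ _) hu
  have hu0 : 0 < u := by linarith
  have hu2 : (N : ℝ) + 1 ≤ Real.exp u := by
    have h2 : Real.log (N + 1) ≤ u := le_trans ((le_max_left _ _).trans (le_max_right _ _)) hu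
    have h3 : (0 : ℝ) < N + 1 := by positivity
    calc (N : ℝ) + 1 = Real.exp (Real.log (N + 1)) := (Real.exp_log h3).symm
      _ ≤ Real.exp u := Real.exp_le_exp.2 h2
  have hu3 : 4 * φ / δ + 1 ≤ Real.exp u := by
    have h2 : Real.log (4 * φ / δ + 1) ≤ u :=
      le_trans ((le_max_right _ _).trans (le_max_right _ _)) hu
    have h3 : (0 : ℝ) < 4 * φ / δ + 1 := by positivity
    calc 4 * φ / δ + 1 = Real.exp (Real.log (4 * φ / δ + 1)) := (Real.exp_log h3).symm
      _ ≤ Real.exp u := Real.exp_le_exp.2 h2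
  set X : ℝ := Real.exp u with hX
  have hX0 : 0 < X := Real.exp_pos u
  have hXE : Real.exp (u + κ) = X * E := by rw [Real.exp_add]
  have hXE1 : X ≤ X * E := by nlinarith
  obtain ⟨-, e1⟩ := h1 X hu2
  obtain ⟨e2, -⟩ := h1 (X * E) (hu2.trans hXE1)
  have e3 : th ⌊X * E⌋₊ ≤ th ⌊X⌋₊ + ∑ p ∈ S, Real.log p := by
    have h6 : ∀ p : ℕ, 0 ≤ Real.log p := fun p => Real.log_natCast_nonneg p
    have h5 : Pool.Agent.MP_325d88_nt.primesAP q a ⌊X * E⌋₊ ⊆
        Pool.Agent.MP_325d88_nt.primesAP q a ⌊X⌋₊ ∪ S := by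
      intro p hp
      unfold Pool.Agent.MP_325d88_nt.primesAP at hp ⊢
      rw [Finset.mem_filter, Finset.mem_range] at hp
      rw [Finset.mem_union, Finset.mem_filter, Finset.mem_range, hS]
      have h7 : (p : ℝ) ≤ X * E := by
        have h8 : p ≤ ⌊X * E⌋₊ := by omega
        exact (Nat.le_floor_iff (by positivity)).1 h8
      rcases le_or_gt (p : ℝ) X with h | h
      · refine Or.inl ⟨?_, hp.2⟩
        have := Nat.le_floor h
        omega
      · exact Or.inr ⟨hp.2.1, hp.2.2, h, by rw [hXE]; exact h7⟩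
    calc th ⌊X * E⌋₊ ≤ ∑ p ∈ Pool.Agent.MP_325d88_nt.primesAP q a ⌊X⌋₊ ∪ S, Real.log p :=
          Finset.sum_le_sum_of_subset_of_nonneg h5 fun p _ _ => h6 p
      _ ≤ th ⌊X⌋₊ + ∑ p ∈ S, Real.log p := by
          rw [← Finset.sum_union_inter]
          have : 0 ≤ ∑ p ∈ Pool.Agent.MP_325d88_nt.primesAP q a ⌊X⌋₊ ∩ S, Real.log p :=
            Finset.sum_nonneg fun p _ => h6 p
          linarith
  -- each term
  have e4 : ∑ p ∈ S, Real.log p ≤ (X * E * (u + κ)) * ∑ p ∈ S, (1 : ℝ) / p := by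
    rw [Finset.mul_sum]
    refine Finset.sum_le_sum fun p hp => ?_
    rw [hS] at hp
    have hp0 : (0 : ℝ) < p := hX0.trans hp.2.2.1
    have h7 : Real.log p ≤ u + κ := by
      rw [Real.log_le_iff_le_exp hp0]
      exact hp.2.2.2
    have h8 : (p : ℝ) ≤ X * E := by rw [← hXE]; exact hp.2.2.2
    rw [mul_one_div, le_div_iff₀ hp0]
    have h9 : 0 ≤ Real.log p := Real.log_natCast_nonneg p
    calc Real.log p * p ≤ (u + κ) * (X * E) := mul_le_mul h7 h8 hp0.le (by linarith)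
      _ = X * E * (u + κ) := by ring
  have e5 : δ / 2 * X ≤ ∑ p ∈ S, Real.log p := by
    have h7 : φ * (X * E) - τ * (X * E) - φ ≤ φ * X + τ * X + ∑ p ∈ S, Real.log p := by linarith
    have h8 : φ ≤ δ / 4 * X := by
      have h9 : 4 * φ / δ ≤ X := by linarith
      rw [div_le_iff₀ hδ0] at h9
      linarith
    have h10 : δ / 4 * X = τ * (X * E) + τ * X := by rw [← hEτ]; ring
    have h11 : δ * X = φ * (X * E) - φ * X := by rw [hδ]; ring
    linarith
  have e6 : δ / 2 * X ≤ (X * E * (u + κ)) * ∑ p ∈ S, (1 : ℝ) / p := e5.trans e4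
  have e7 : 0 ≤ ∑ p ∈ S, (1 : ℝ) / p := Finset.sum_nonneg fun p _ => by positivity
  have e8 : u + κ ≤ u * (1 + κ) := by nlinarith
  have e9 : δ / 2 ≤ (E * (u * (1 + κ))) * ∑ p ∈ S, (1 : ℝ) / p := by
    have h7 : (X * E * (u + κ)) * ∑ p ∈ S, (1 : ℝ) / p ≤
        X * ((E * (u * (1 + κ))) * ∑ p ∈ S, (1 : ℝ) / p) := by
      have h8 : X * E * (u + κ) ≤ X * (E * (u * (1 + κ))) := by
        have : X * E * (u + κ) ≤ X * E * (u * (1 + κ)) :=
          mul_le_mul_of_nonneg_left e8 (by positivity)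
        linarith
      calc (X * E * (u + κ)) * ∑ p ∈ S, (1 : ℝ) / p ≤ (X * (E * (u * (1 + κ)))) *
            ∑ p ∈ S, (1 : ℝ) / p := mul_le_mul_of_nonneg_right h8 e7
        _ = _ := by ring
    have h9 : X * (δ / 2) ≤ X * ((E * (u * (1 + κ))) * ∑ p ∈ S, (1 : ℝ) / p) := by linarith
    exact le_of_mul_le_mul_left h9 hX0
  rw [div_div, div_le_iff₀ (by positivity)]
  nlinarith

end Pool.Agent.Lib.MP_a17b09_nt.MRS
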