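import Mathlib

/-!
# MRSG (MP_a17b09_nt), frequency 0: the group part of the principal genus argument
-/

set_option autoImplicit false

namespace Pool.Agent.MRS1.F3

/-- the primes which split -/
def Good (d K p : ℕ) : Prop := p.Prime ∧ p.Coprime (2 * d * K) ∧ jacobiSym (-(d : ℤ)) p = 1

section
variable (G : ℕ → Prop) (c1 c2 : ℕ → ℂ)

/-- a prime together with one of its two values -/
def Val (x : ℕ × ℂ) : Prop := G x.1 ∧ (x.2 = c1 x.1 ∨ x.2 = c2 x.1)

/-- values of products of norm `1` modulo `q` -/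
def A0 (q : ℕ) : Set ℂ := {x | ∃ s : Multiset (ℕ × ℂ), (∀ e ∈ s, Val G c1 c2 e) ∧
  (s.map Prod.fst).prod ≡ 1 [MOD q] ∧ x = (s.map Prod.snd).prod}

variable {G c1 c2} {q : ℕ}

lemma one_mem : (1 : ℂ) ∈ A0 G c1 c2 q :=
  ⟨0, by simp, by simp [Nat.ModEq.refl], by simp⟩

lemma mul_mem {x y : ℂ} (hx : x ∈ A0 G c1 c2 q) (hy : y ∈ A0 G c1 c2 q) :
    x * y ∈ A0 G c1 c2 q := by
  obtain ⟨s, h1, h2, rfl⟩ := hx
  obtain ⟨t, h3, h4, rfl⟩ := hy
  refine ⟨s + t, ?_, ?_, ?_⟩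
  · intro e he
    rcases Multiset.mem_add.1 he with h | h
    · exact h1 e h
    · exact h3 e h
  · rw [Multiset.map_add, Multiset.prod_add]
    exact (h2.mul h4).trans (by rw [mul_one])
  · rw [Multiset.map_add, Multiset.prod_add]

/-- the ratio of the two values is a square in `A0` -/
lemma ratio {ω : ℂ}
    (hii : ∀ p p', G p → G p' → p * p' ≡ 1 [MOD q] → c1 p * c2 p * (c1 p' * c2 p') = 1)
    (hiv : ∀ p, G p → ∃ p', G p' ∧ p * p' ≡ 1 [MOD q] ∧ c1 p' = ω ∧ c2 p' = ω)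
    {p : ℕ} {v w : ℂ} (hp : G p) (hv : v = c1 p ∨ v = c2 p) (hw : w = c1 p ∨ w = c2 p) :
    w ≠ 0 ∧ ∃ y ∈ A0 G c1 c2 q, v = y ^ 2 * w := by
  obtain ⟨p', hp', hm, e1, e2⟩ := hiv p hp
  have h1 := hii p p' hp hp' hm
  rw [e1, e2] at h1
  have hw0 : w ≠ 0 := by
    rintro rfl
    rcases hw with h | h
    · rw [← h] at h1; simp at h1
    · rw [← h] at h1; simp at h1
  refine ⟨hw0, ?_⟩
  have key : v = w ∨ v * w * (ω * ω) = 1 := by
    rcases hv with rfl | rfl <;> rcases hw with rfl | rfl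
    · exact Or.inl rfl
    · exact Or.inr h1
    · right; rw [← h1]; ring
    · exact Or.inl rfl
  rcases key with h | h
  · exact ⟨1, one_mem, by rw [h]; ring⟩
  · refine ⟨v * ω, ⟨{(p, v), (p', ω)}, ?_, ?_, ?_⟩, ?_⟩
    · intro e he
      rw [Multiset.insert_eq_cons, Multiset.mem_cons, Multiset.mem_singleton] at he
      rcases he with rfl | rfl
      · exact ⟨hp, hv⟩
      · exact ⟨hp', Or.inl e1.symm⟩
    · simpa using hm
    · simp
    · linear_combination (-v) * h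

/-- two lifts of the same multiset of primes -/
lemma lifts {ω : ℂ}
    (hii : ∀ p p', G p → G p' → p * p' ≡ 1 [MOD q] → c1 p * c2 p * (c1 p' * c2 p') = 1)
    (hiv : ∀ p, G p → ∃ p', G p' ∧ p * p' ≡ 1 [MOD q] ∧ c1 p' = ω ∧ c2 p' = ω)
    (s : Multiset (ℕ × ℂ)) : ∀ t : Multiset (ℕ × ℂ), s.map Prod.fst = t.map Prod.fst →
      (∀ e ∈ s, Val G c1 c2 e) → (∀ e ∈ t, Val G c1 c2 e) →
      (t.map Prod.snd).prod ≠ 0 ∧
        ∃ y ∈ A0 G c1 c2 q, (s.map Prod.snd).prod = y ^ 2 * (t.map Prod.snd).prod := by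
  classical
  induction s using Multiset.induction_on with
  | empty =>
    intro t ht _ _
    rw [Multiset.map_zero] at ht
    have : t = 0 := Multiset.map_eq_zero.1 ht.symm
    subst this
    exact ⟨by simp, 1, one_mem, by simp⟩
  | cons a s ih =>
    intro t ht hs h't
    rw [Multiset.map_cons] at ht
    obtain ⟨b, hb, hba, hrest⟩ := (Multiset.map_eq_cons _ _ _ _).2 ht.symm
    have ht2 : t = b ::ₘ t.erase b := (Multiset.cons_erase hb).symm
    obtain ⟨h1, y, hy, e1⟩ := ih (t.erase b) hrest.symm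
      (fun e he => hs e (Multiset.mem_cons_of_mem he))
      (fun e he => h't e (Multiset.mem_of_mem_erase he))
    have hVa := hs a (Multiset.mem_cons_self a s)
    have hVb := h't b hb
    have hVb' : b.2 = c1 a.1 ∨ b.2 = c2 a.1 := by rw [← hba]; exact hVb.2
    obtain ⟨h2, z, hz, e2⟩ := ratio hii hiv hVa.1 hVa.2 hVb'
    rw [ht2, Multiset.map_cons, Multiset.prod_cons, Multiset.map_cons, Multiset.prod_cons]
    refine ⟨mul_ne_zero h2 h1, z * y, mul_mem hz hy, ?_⟩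
    rw [e1, e2]
    ring

/-- **F3**, abstract form -/
theorem main (ω : ℂ) (M : ℕ) (hM : 0 < M)
    (hpr : ∀ p, G p → p.Prime)
    (hi : ∀ m, 0 < m → m ≡ 1 [MOD q] → (∀ p, p.Prime → p ∣ m → G p) →
      ∃ n, 0 < n ∧ ∃ L L' : List (ℕ × ℂ), (∀ x ∈ L, Val G c1 c2 x) ∧ (∀ x ∈ L', Val G c1 c2 x) ∧
        (L.map Prod.fst).Perm (m * n ^ 2).primeFactorsList ∧
        (L'.map Prod.fst).Perm (n ^ 2).primeFactorsList ∧
        (L.map Prod.snd).prod = (L'.map Prod.snd).prod)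
    (hii1 : ∀ p, G p → p ≡ 1 [MOD q] → c1 p * c2 p = 1)
    (hii : ∀ p p', G p → G p' → p * p' ≡ 1 [MOD q] → c1 p * c2 p * (c1 p' * c2 p') = 1)
    (hiii : ∀ p, G p → c1 p ^ M = 1 ∧ c2 p ^ M = 1)
    (hiv1 : ∃ p, G p ∧ p ≡ 1 [MOD q] ∧ c1 p = ω ∧ c2 p = ω)
    (hiv : ∀ p, G p → ∃ p', G p' ∧ p * p' ≡ 1 [MOD q] ∧ c1 p' = ω ∧ c2 p' = ω) : ω = 1 := by
  classical
  obtain ⟨p0, hp0, hm0, e1, e2⟩ := hiv1
  have hω2 : ω * ω = 1 := by rw [← hii1 p0 hp0 hm0, e1, e2]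
  have hωA : ω ∈ A0 G c1 c2 q :=
    ⟨{(p0, ω)}, by simpa [Val] using ⟨hp0, Or.inl e1.symm⟩, by simpa using hm0, by simp⟩
  -- every element of `A0` is the square of an element of `A0`
  have hsq : ∀ x ∈ A0 G c1 c2 q, ∃ y ∈ A0 G c1 c2 q, x = y ^ 2 := by
    rintro x ⟨s, hs, hsq, rfl⟩
    set m : ℕ := (s.map Prod.fst).prod with hm
    have hm1 : 0 < m := by
      rw [hm]
      refine Nat.pos_of_ne_zero (Multiset.prod_ne_zero ?_)
      intro h0
      obtain ⟨e, he, he0⟩ := Multiset.mem_map.1 h0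
      exact (hpr _ (hs e he).1).ne_zero he0
    have hmG : ∀ p, p.Prime → p ∣ m → G p := by
      intro p hp hd
      obtain ⟨a, ha, hpa⟩ := Prime.exists_mem_multiset_dvd hp.prime (hm ▸ hd)
      obtain ⟨e, he, rfl⟩ := Multiset.mem_map.1 ha
      rw [(Nat.prime_dvd_prime_iff_eq hp (hpr _ (hs e he).1)).1 hpa]
      exact (hs e he).1
    obtain ⟨n, hn, L, L', hL, hL', hp1, hp2, hprod⟩ := hi m hm1 hsq hmG
    have hpf : (m.primeFactorsList : Multiset ℕ) = s.map Prod.fst := by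
      have := Nat.primeFactorsList_unique (n := m) (l := (s.map Prod.fst).toList) (by
        rw [Multiset.prod_toList]) (by
        intro p hp
        rw [Multiset.mem_toList] at hp
        obtain ⟨e, he, rfl⟩ := Multiset.mem_map.1 hp
        exact hpr _ (hs e he).1)
      rw [← Multiset.coe_eq_coe.2 this, Multiset.coe_toList]
    have hperm : ((s + (L' : Multiset (ℕ × ℂ))).map Prod.fst) =
        ((L : Multiset (ℕ × ℂ)).map Prod.fst) := by
      rw [Multiset.map_add, Multiset.map_coe, Multiset.map_coe, Multiset.coe_eq_coe.2 hp1,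
        Multiset.coe_eq_coe.2 hp2, ← hpf, Multiset.coe_add]
      exact Multiset.coe_eq_coe.2 (Nat.perm_primeFactorsList_mul hm1.ne'
        (pow_ne_zero 2 hn.ne')).symm
    obtain ⟨h1, y, hy, e⟩ := lifts hii hiv (s + (L' : Multiset (ℕ × ℂ))) L hperm (by
      intro x hx
      rcases Multiset.mem_add.1 hx with h | h
      · exact hs x h
      · exact hL' x (Multiset.mem_coe.1 h)) (fun x hx => hL x (Multiset.mem_coe.1 hx))
    refine ⟨y, hy, ?_⟩
    rw [Multiset.map_add, Multiset.prod_add, Multiset.map_coe, Multiset.prod_coe,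
      Multiset.map_coe, Multiset.prod_coe, hprod] at e
    rw [Multiset.map_coe, Multiset.prod_coe, hprod] at h1
    exact mul_right_cancel₀ h1 e
  -- iterated squares
  have hit : ∀ k : ℕ, ∀ x ∈ A0 G c1 c2 q, ∃ y ∈ A0 G c1 c2 q, x = y ^ (2 ^ k) := by
    intro k
    induction k with
    | zero => exact fun x hx => ⟨x, hx, by simp⟩
    | succ k ih =>
      intro x hx
      obtain ⟨y, hy, rfl⟩ := ih x hx
      obtain ⟨z, hz, rfl⟩ := hsq y hy
      exact ⟨z, hz, by rw [← pow_mul, pow_succ, mul_comm]⟩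
  -- roots of unity
  have hroot : ∀ x ∈ A0 G c1 c2 q, x ^ M = 1 := by
    rintro x ⟨s, hs, -, rfl⟩
    rw [← Multiset.prod_map_pow]
    refine Multiset.prod_eq_one ?_
    intro a ha
    obtain ⟨e, he, rfl⟩ := Multiset.mem_map.1 ha
    obtain ⟨h1, h2 | h2⟩ := hs e he
    · rw [h2]; exact (hiii _ h1).1
    · rw [h2]; exact (hiii _ h1).2
  obtain ⟨k, m', hodd, hMk⟩ := Nat.exists_eq_two_pow_mul_odd hM.ne'
  obtain ⟨y, hy, hyω⟩ := hit k ω hωA
  have h1 : ω ^ m' = 1 := by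
    rw [hyω, ← pow_mul, ← hMk]
    exact hroot y hy
  obtain ⟨j, hj⟩ := hodd
  rw [hj, pow_succ, pow_mul, sq, hω2, one_pow, one_mul] at h1
  exact h1

end

lemma jac_inv {d : ℕ} {p a q : ℕ} (h4 : 4 * d ∣ q) (hp : p % 2 = 1) (ha : a % 2 = 1)
    (hm : p * a ≡ 1 [MOD q]) (hj : jacobiSym (-(d : ℤ)) p = 1) :
    jacobiSym (-(d : ℤ)) a = 1 := by
  have hodd : Odd (p * a) := (Nat.odd_iff.2 hp).mul (Nat.odd_iff.2 ha)
  have h1 : jacobiSym (-(d : ℤ)) (p * a) = 1 := by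
    rw [jacobiSym.mod_right _ hodd]
    have h2 : p * a ≡ 1 [MOD 4 * (-(d : ℤ)).natAbs] := by
      rw [Int.natAbs_neg, Int.natAbs_natCast]
      exact hm.of_dvd h4
    rw [h2, ← jacobiSym.mod_right _ odd_one, jacobiSym.one_right]
  have hp0 : NeZero p := ⟨by omega⟩
  have ha0 : NeZero a := ⟨by omega⟩
  rw [jacobiSym.mul_right, hj, one_mul] at h1
  exact h1

/-- **F3** (general principal genus argument, group part) -/
theorem f3 (d K q : ℕ) (h4 : 4 * d ∣ q) (hKq : K ∣ q) (hq : 0 < q)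
    (hqd : ∀ p : ℕ, p.Prime → p.Coprime (2 * d * K) → p.Coprime q)
    (c1 c2 : ℕ → ℂ) (ω : ℂ) (M : ℕ) (hM : 0 < M)
    (hi : ∀ m, 0 < m → m ≡ 1 [MOD q] → (∀ p, p.Prime → p ∣ m → Good d K p) →
      ∃ n, 0 < n ∧ ∃ L L' : List (ℕ × ℂ), (∀ x ∈ L, Val (Good d K) c1 c2 x) ∧
        (∀ x ∈ L', Val (Good d K) c1 c2 x) ∧
        (L.map Prod.fst).Perm (m * n ^ 2).primeFactorsList ∧
        (L'.map Prod.fst).Perm (n ^ 2).primeFactorsList ∧
        (L.map Prod.snd).prod = (L'.map Prod.snd).prod)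
    (hii : ∀ L : List ℕ, (∀ p ∈ L, Good d K p) → L.prod ≡ 1 [MOD K] →
      (L.map (fun p => c1 p * c2 p)).prod = 1)
    (hiii : ∀ p, Good d K p → c1 p ^ M = 1 ∧ c2 p ^ M = 1)
    (hiv : ∀ a : ℕ, a.Coprime q → jacobiSym (-(d : ℤ)) a = 1 →
      ∃ p, Good d K p ∧ p ≡ a [MOD q] ∧ c1 p = ω ∧ c2 p = ω) : ω = 1 := by
  refine main (G := Good d K) (c1 := c1) (c2 := c2) (q := q) ω M hM (fun p hp => hp.1) hi
    ?_ ?_ hiii ?_ ?_
  · intro p hp hm
    have := hii [p] (by simpa using hp) (by simpa using hm.of_dvd hKq)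
    simpa using this
  · intro p p' hp hp' hm
    have := hii [p, p'] (by simpa using ⟨hp, hp'⟩) (by simpa using hm.of_dvd hKq)
    simpa using this
  · exact hiv 1 (Nat.coprime_one_left _) (jacobiSym.one_right _)
  · intro p hp
    have hcop := hqd p hp.1 hp.2.1
    have h2q : 2 ∣ q := (Dvd.intro (2 * d) (by ring)).trans h4
    have hq1 : 1 < q := by
      have := Nat.le_of_dvd hq h4
      omega
    obtain ⟨a, -, ha⟩ := Nat.exists_mul_mod_eq_one_of_coprime hcop hq1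
    have hm : p * a ≡ 1 [MOD q] := by
      rw [Nat.ModEq, ha, Nat.mod_eq_of_lt hq1]
    have hac : a.Coprime q := Nat.coprime_of_mul_modEq_one p (by rw [mul_comm]; exact hm)
    have hp2 : p % 2 = 1 := by
      rw [← Nat.odd_iff, ← Nat.coprime_two_right]
      exact hcop.coprime_dvd_right h2q
    have ha2 : a % 2 = 1 := by
      rw [← Nat.odd_iff, ← Nat.coprime_two_right]
      exact hac.coprime_dvd_right h2q
    obtain ⟨p', hp', hpa, e1, e2⟩ := hiv a hac (jac_inv h4 hp2 ha2 hm hp.2.2)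
    exact ⟨p', hp', (Nat.ModEq.mul_left p hpa).trans hm, e1, e2⟩

end Pool.Agent.MRS1.F3
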