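import Mathlib

/-!
# MRS (MP_a17b09_nt): no character of the Gaussian integers modulo `K`, other than 1, is nearly
constant on the primes: the algebraic part

`alg1`: for a character `ψ` of `Z[i]` modulo `K`, trivial on `i`, and `ω ≠ 1`, there is a residue
class `a` modulo `4 K`, prime to `4 K`, `a = 1` modulo `4`, such that no Gaussian integer `v` with
`N v = a` modulo `4 K` has `ψ v = ψ (conj v) = ω`.
-/

set_option autoImplicit false

namespace Pool.Agent.MRS1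

/-- `ψ` is a character of the Gaussian integers modulo `K`, trivial on `i` -/
structure IsChar (K : ℕ) (ψ : GaussianInt → ℂ) : Prop where
  mul : ∀ x y : GaussianInt, ψ (x * y) = ψ x * ψ y
  per : ∀ x y : GaussianInt, ψ (x + (K : GaussianInt) * y) = ψ x
  unit : ψ ⟨0, 1⟩ = 1
  ne : ∀ x : GaussianInt, IsCoprime x.norm (K : ℤ) → ψ x ≠ 0

namespace Alg

lemma pm_of_sq {z : ℂ} (h : z ^ 2 = 1) : z = 1 ∨ z = -1 := by
  have h1 : (z - 1) * (z + 1) = 0 := by linear_combination h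
  rcases mul_eq_zero.1 h1 with h2 | h2
  · exact Or.inl (by linear_combination h2)
  · exact Or.inr (by linear_combination h2)

lemma nrm (v : GaussianInt) : v.norm = v.re ^ 2 + v.im ^ 2 := by
  rw [Zsqrtd.norm_def]; ring

/-- Hilbert 90 modulo `K`, by hand -/
theorem h90 (K : ℕ) (hK : 0 < K) (v : GaussianInt) (s : ℤ) (hs : v.norm = 1 + 4 * K * s)
    (h2 : ∃ y', v.im = 2 * y') (h4 : (v.re + v.im) % 4 = 1) :
    ∃ u z : GaussianInt, IsCoprime u.norm (K : ℤ) ∧ u.norm % 4 = 1 ∧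
      v * u = star u + (K : GaussianInt) * z := by
  classical
  obtain ⟨y', hy⟩ := h2
  obtain ⟨x, y⟩ := v
  rw [nrm] at hs
  simp only at hs hy h4
  obtain ⟨x', hx⟩ : ∃ x', x = 2 * x' - 1 := ⟨(x + 1) / 2, by omega⟩
  set F : Finset ℕ := K.primeFactors.filter
    (fun l => l ≠ 2 ∧ ¬ ((l : ℤ) ∣ 1 + x ∧ (l : ℤ) ∣ y)) with hF
  set t : ℤ := ∏ l ∈ F, (l : ℤ) with ht
  have hodd : (x' + y') % 2 = 1 := by omega
  have hs' : x' ^ 2 - x' + y' ^ 2 = K * s := by
    rw [hx, hy] at hs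
    linarith [hs, sq x']
  set a : ℤ := x' - 2 * t * y with ha
  set b : ℤ := -y' + 2 * t * (1 - x) with hb
  have E1 : x * a - y * b = a + (K : ℤ) * (2 * s) := by
    rw [ha, hb, hx, hy]; linear_combination 2 * hs'
  have E2 : x * b + y * a = -b + (K : ℤ) * (-(8 * t * s)) := by
    rw [ha, hb, hx, hy]; linear_combination (-8 * t) * hs'
  have hN4 : (a ^ 2 + b ^ 2) % 4 = 1 := by
    have h1 : a ^ 2 + b ^ 2 = (x' + y') ^ 2 - 2 * (x' * y') +
        4 * (-(2 * x' * t * y') + 4 * t ^ 2 * y' ^ 2 - 2 * y' * t * (1 - x') +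
          4 * t ^ 2 * (1 - x') ^ 2) := by
      rw [ha, hb, hx, hy]; ring
    obtain ⟨k, hk⟩ : ∃ k, x' + y' = 2 * k + 1 := ⟨(x' + y') / 2, by omega⟩
    have h3 : (x' + y') ^ 2 = 4 * (k ^ 2 + k) + 1 := by rw [hk]; ring
    have h4 : x' * y' % 2 = 0 := by
      rcases Int.emod_two_eq_zero_or_one x' with h | h
      · rw [Int.mul_emod, h]; simp
      · have : y' % 2 = 0 := by omega
        rw [Int.mul_emod, this]; simp
    omega
  refine ⟨⟨a, b⟩, ⟨2 * s, -(8 * t * s)⟩, ?_, ?_, ?_⟩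
  · rw [Int.isCoprime_iff_gcd_eq_one]
    by_contra hg
    obtain ⟨l, hl, hlg⟩ := Nat.exists_prime_and_dvd hg
    have hlK : (l : ℤ) ∣ (K : ℤ) := (Int.natCast_dvd_natCast.2 hlg).trans (Int.gcd_dvd_right _ _)
    have hlN := (Int.natCast_dvd_natCast.2 hlg).trans (Int.gcd_dvd_left
      (Zsqrtd.norm (⟨a, b⟩ : GaussianInt)) (K : ℤ))
    rw [nrm] at hlN
    simp only at hlN
    have hlp : Prime (l : ℤ) := Nat.prime_iff_prime_int.1 hl
    rcases eq_or_ne l 2 with h2' | h2'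
    · subst h2'
      obtain ⟨k, hk⟩ := hlN
      push_cast at hk
      omega
    -- odd prime
    have hl2 : ¬ (l : ℤ) ∣ 2 := by
      intro h
      have := Int.natCast_dvd_natCast.1 (by exact_mod_cast h : (l : ℤ) ∣ ((2 : ℕ) : ℤ))
      exact h2' ((Nat.prime_dvd_prime_iff_eq hl Nat.prime_two).1 this)
    -- the relation `v u = conj u` modulo `l`
    obtain ⟨k, hk⟩ := hlK
    have hd1 : (l : ℤ) ∣ a ^ 2 - b ^ 2 := by
      have h1 : a ^ 2 - b ^ 2 = x * (a ^ 2 + b ^ 2) -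
          (l : ℤ) * (k * (2 * s * a + -(8 * t * s) * b)) := by
        have h3 : (l : ℤ) * (k * (2 * s * a + -(8 * t * s) * b)) =
          (K : ℤ) * (2 * s * a + -(8 * t * s) * b) := by rw [hk]; ring
        rw [h3]
        linear_combination (-a) * E1 - b * E2
      rw [h1]
      exact dvd_sub (hlN.mul_left _) (dvd_mul_right _ _)
    have hda : (l : ℤ) ∣ a := by
      have h1 : (l : ℤ) ∣ 2 * a ^ 2 := by
        have := dvd_add hlN hd1
        have h3 : a ^ 2 + b ^ 2 + (a ^ 2 - b ^ 2) = 2 * a ^ 2 := by ring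
        rwa [h3] at this
      exact hlp.dvd_of_dvd_pow ((hlp.dvd_or_dvd h1).resolve_left hl2)
    have hdb : (l : ℤ) ∣ b := by
      have h1 : (l : ℤ) ∣ 2 * b ^ 2 := by
        have := dvd_sub hlN hd1
        have h3 : a ^ 2 + b ^ 2 - (a ^ 2 - b ^ 2) = 2 * b ^ 2 := by ring
        rwa [h3] at this
      exact hlp.dvd_of_dvd_pow ((hlp.dvd_or_dvd h1).resolve_left hl2)
    have hx2 : 1 + x = 2 * a + 2 * y * 2 * t := by rw [ha, hx]; ring
    have hy2 : y = -(2 * b) + 4 * (1 - x) * t := by rw [hb, hy]; ring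
    by_cases hf : (l : ℤ) ∣ 1 + x ∧ (l : ℤ) ∣ y
    · have hlt : (l : ℤ) ∣ t := by
        have h1 : (l : ℤ) ∣ 2 * (2 * (2 * t)) := by
          have h3 : 2 * (2 * (2 * t)) = y + 2 * b + 4 * t * (1 + x) := by
            rw [hb]; linear_combination -hy
          rw [h3]
          exact dvd_add (dvd_add hf.2 (hdb.mul_left _)) (hf.1.mul_left _)
        exact (hlp.dvd_or_dvd ((hlp.dvd_or_dvd ((hlp.dvd_or_dvd h1).resolve_left
          hl2)).resolve_left hl2)).resolve_left hl2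
      rw [ht, hlp.dvd_finsetProd_iff] at hlt
      obtain ⟨l', hl', hd⟩ := hlt
      rw [hF, Finset.mem_filter] at hl'
      have h1 : l = l' := (Nat.prime_dvd_prime_iff_eq hl
        (Nat.prime_of_mem_primeFactors hl'.1)).1 (Int.natCast_dvd_natCast.1 hd)
      rw [← h1] at hl'
      exact hl'.2.2 hf
    · have hlF : l ∈ F := by
        rw [hF, Finset.mem_filter]
        refine ⟨Nat.mem_primeFactors.2 ⟨hl, ?_, hK.ne'⟩, h2', hf⟩
        exact Int.natCast_dvd_natCast.1 ⟨k, hk⟩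
      have hlt : (l : ℤ) ∣ t := by
        rw [ht]
        exact Finset.dvd_prod_of_mem (fun l : ℕ => (l : ℤ)) hlF
      refine hf ⟨?_, ?_⟩
      · rw [hx2]
        exact dvd_add (hda.mul_left _) (hlt.mul_left _)
      · rw [hy2]
        exact dvd_add ((hdb.mul_left 2).neg_right) (hlt.mul_left _)
  · rw [nrm]; exact hN4
  · ext
    · simp
      linarith [E1]
    · simp
      linarith [E2]

section
variable {K : ℕ} {ψ : GaussianInt → ℂ}

lemma per' (h : IsChar K ψ) {x y z : GaussianInt} (e : x = y + (K : GaussianInt) * z) :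
    ψ x = ψ y := by rw [e, h.per]

lemma one (h : IsChar K ψ) : ψ 1 = 1 := by
  have h1 : ψ 1 ≠ 0 := h.ne 1 (by simp [Zsqrtd.norm_one, isCoprime_one_left])
  have h2 := h.mul 1 1
  rw [mul_one] at h2
  exact (mul_left_cancel₀ h1 (by rw [← h2, mul_one])).symm

lemma neg (h : IsChar K ψ) (v : GaussianInt) : ψ (-v) = ψ v := by
  have h1 : ψ (-1) = 1 := by
    have h2 := h.mul ⟨0, 1⟩ ⟨0, 1⟩
    rw [h.unit, one_mul] at h2
    have h3 : (⟨0, 1⟩ * ⟨0, 1⟩ : GaussianInt) = -1 := by ext <;> simp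
    rwa [h3] at h2
  have h2 := h.mul (-1) v
  rwa [neg_one_mul, h1, one_mul] at h2

lemma mulI (h : IsChar K ψ) (v : GaussianInt) : ψ (⟨0, 1⟩ * v) = ψ v := by
  rw [h.mul, h.unit, one_mul]

lemma cop_mul {x y : GaussianInt} (hx : IsCoprime x.norm (K : ℤ)) (hy : IsCoprime y.norm (K : ℤ)) :
    IsCoprime (x * y).norm (K : ℤ) := by
  rw [Zsqrtd.norm_mul]
  exact hx.mul_left hy

lemma cop_star {x : GaussianInt} (hx : IsCoprime x.norm (K : ℤ)) :
    IsCoprime (star x).norm (K : ℤ) := by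
  rwa [Zsqrtd.norm_conj]

lemma cop_pow {x : GaussianInt} (hx : IsCoprime x.norm (K : ℤ)) (n : ℕ) :
    IsCoprime (x ^ n).norm (K : ℤ) := by
  induction n with
  | zero => rw [pow_zero, Zsqrtd.norm_one]; exact isCoprime_one_left
  | succ n ih => rw [pow_succ]; exact cop_mul ih hx

lemma pow (h : IsChar K ψ) (x : GaussianInt) (n : ℕ) : ψ (x ^ n) = ψ x ^ n := by
  induction n with
  | zero => rw [pow_zero, pow_zero, one h]
  | succ n ih => rw [pow_succ, pow_succ, h.mul, ih]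

/-- a common exponent of all the values -/
lemma exists_exp (hK : 0 < K) (h : IsChar K ψ) :
    ∃ m : ℕ, 0 < m ∧ ∀ x : GaussianInt, IsCoprime x.norm (K : ℤ) → ψ x ^ m = 1 := by
  refine ⟨(K * K).factorial, Nat.factorial_pos _, fun x hx => ?_⟩
  have : NeZero K := ⟨hK.ne'⟩
  have hcard : Fintype.card (ZMod K × ZMod K) < Fintype.card (Fin (K * K + 1)) := by
    rw [Fintype.card_prod, ZMod.card, Fintype.card_fin]; omega
  obtain ⟨i, j, hij, he⟩ := Fintype.exists_ne_map_eq_of_card_lt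
    (fun i : Fin (K * K + 1) => (((x ^ (i : ℕ)).re : ZMod K), ((x ^ (i : ℕ)).im : ZMod K))) hcard
  wlog hlt : i < j generalizing i j with H
  · exact H j i hij.symm he.symm (lt_of_le_of_ne (not_lt.1 hlt) hij.symm)
  simp only [Prod.mk.injEq] at he
  obtain ⟨c1, e1⟩ := (ZMod.intCast_eq_intCast_iff_dvd_sub _ _ K).1 he.1
  obtain ⟨c2, e2⟩ := (ZMod.intCast_eq_intCast_iff_dvd_sub _ _ K).1 he.2
  have e : x ^ (j : ℕ) = x ^ (i : ℕ) + (K : GaussianInt) * ⟨c1, c2⟩ := by
    ext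
    · simp; linarith
    · simp; linarith
  have h1 := per' h e
  rw [pow h, pow h] at h1
  have hlt' : (i : ℕ) < (j : ℕ) := hlt
  have h2 : ψ x ^ (i : ℕ) * ψ x ^ ((j : ℕ) - (i : ℕ)) = ψ x ^ (i : ℕ) * 1 := by
    rw [← pow_add, mul_one]
    rwa [Nat.add_sub_cancel' hlt'.le]
  have h3 := mul_left_cancel₀ (pow_ne_zero _ (h.ne x hx)) h2
  obtain ⟨c, hc⟩ : (j : ℕ) - (i : ℕ) ∣ (K * K).factorial :=
    Nat.dvd_factorial (by omega) (by have := j.2; omega)
  rw [hc, pow_mul, h3, one_pow]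

/-- values at `v` with `N v = 1` modulo `4 K` -/
theorem val_one (hK : 0 < K) (h : IsChar K ψ)
    (hr : ∀ x : GaussianInt, IsCoprime x.norm (K : ℤ) → x.norm % 4 = 1 → ψ (star x) = ψ x)
    (v : GaussianInt) (s : ℤ) (hs : v.norm = 1 + 4 * K * s) : ψ v = 1 := by
  have key : ∀ v : GaussianInt, v.norm = 1 + 4 * K * s → (∃ y', v.im = 2 * y') →
      (v.re + v.im) % 4 = 1 → ψ v = 1 := by
    intro v hv h2 h4
    obtain ⟨u, z, hu, hu4, e⟩ := h90 K hK v s hv h2 h4
    have h1 := per' h e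
    rw [h.mul, hr u hu hu4] at h1
    exact mul_right_cancel₀ (h.ne u hu) (by rw [h1, one_mul])
  have key2 : ∀ v : GaussianInt, v.norm = 1 + 4 * K * s → (∃ y', v.im = 2 * y') → ψ v = 1 := by
    intro v hv h2
    obtain ⟨y', hy⟩ := h2
    have hn := hv
    rw [nrm] at hn
    have hodd : v.re % 2 = 1 := by
      rcases Int.emod_two_eq_zero_or_one v.re with h0 | h0
      · exfalso
        obtain ⟨k, hk⟩ := Int.dvd_of_emod_eq_zero h0
        rw [hy, hk] at hn
        have : (2 * k) ^ 2 + (2 * y') ^ 2 = 4 * (k ^ 2 + y' ^ 2) := by ring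
        rw [this] at hn
        have h5 : 4 * (K : ℤ) * s = 4 * (K * s) := by ring
        rw [h5] at hn
        omega
      · exact h0
    have h4 : (v.re + v.im) % 4 = 1 ∨ (v.re + v.im) % 4 = 3 := by omega
    rcases h4 with h4 | h4
    · exact key v hv ⟨y', hy⟩ h4
    · rw [← neg h]
      refine key (-v) ?_ ⟨-y', ?_⟩ ?_
      · rw [nrm, ← hv, nrm]; simp
      · simp [hy]
      · simp; omega
  rcases Int.emod_two_eq_zero_or_one v.im with h0 | h0
  · exact key2 v hs ⟨v.im / 2, by omega⟩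
  · rw [← mulI h]
    have hn := hs
    rw [nrm] at hn
    have hev : v.re % 2 = 0 := by
      rcases Int.emod_two_eq_zero_or_one v.re with h1 | h1
      · exact h1
      · exfalso
        obtain ⟨k, hk⟩ : ∃ k, v.re = 2 * k + 1 := ⟨v.re / 2, by omega⟩
        obtain ⟨k', hk'⟩ : ∃ k, v.im = 2 * k + 1 := ⟨v.im / 2, by omega⟩
        rw [hk, hk'] at hn
        have : (2 * k + 1) ^ 2 + (2 * k' + 1) ^ 2 = 4 * (k ^ 2 + k + k' ^ 2 + k') + 2 := by ring
        rw [this] at hn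
        have h5 : 4 * (K : ℤ) * s = 4 * (K * s) := by ring
        rw [h5] at hn
        omega
    refine key2 _ ?_ ⟨v.re / 2, ?_⟩
    · rw [nrm, ← hs, nrm]; simp; ring
    · simp; omega

lemma powChar (h : IsChar K ψ) (k : ℕ) : IsChar K (fun x => ψ x ^ k) where
  mul x y := by
    rw [h.mul, mul_pow]
  per x y := by
    rw [h.per]
  unit := by
    rw [h.unit, one_pow]
  ne x hx := pow_ne_zero _ (h.ne x hx)

/-- the value only depends on the norm modulo `4 K` -/
theorem val_norm (hK : 0 < K) (h : IsChar K ψ)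
    (hr : ∀ x : GaussianInt, IsCoprime x.norm (K : ℤ) → x.norm % 4 = 1 → ψ (star x) = ψ x)
    {v v0 : GaussianInt} (hv0 : IsCoprime v0.norm (4 * K : ℤ))
    (hd : (4 * K : ℤ) ∣ v.norm - v0.norm) : ψ v = ψ v0 := by
  obtain ⟨n, b, hn⟩ := hv0
  obtain ⟨c, hc⟩ := hd
  set w : GaussianInt := star v0 * (n : GaussianInt) with hw
  have hwn : w.norm = v0.norm * n ^ 2 := by
    rw [hw, Zsqrtd.norm_mul, Zsqrtd.norm_conj, Zsqrtd.norm_intCast]; ring
  have h0 : ψ (v0 * w) = 1 := by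
    refine val_one hK h hr _ (b ^ 2 * (4 * K) - 2 * b) ?_
    rw [Zsqrtd.norm_mul, hwn]
    have : v0.norm * (v0.norm * n ^ 2) = (n * v0.norm) ^ 2 := by ring
    rw [this]
    have h5 : n * v0.norm = 1 - b * (4 * K) := by linarith
    rw [h5]; ring
  have h1 : ψ (v * w) = 1 := by
    refine val_one hK h hr _ (b ^ 2 * (4 * K) - 2 * b + c * v0.norm * n ^ 2) ?_
    rw [Zsqrtd.norm_mul, hwn]
    have h6 : v.norm = v0.norm + 4 * K * c := by linarith
    rw [h6]
    have : (v0.norm + 4 * K * c) * (v0.norm * n ^ 2) = (n * v0.norm) ^ 2 +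
      4 * K * c * v0.norm * n ^ 2 := by ring
    rw [this]
    have h5 : n * v0.norm = 1 - b * (4 * K) := by linarith
    rw [h5]; ring
  rw [h.mul] at h0 h1
  have hw0 : ψ w ≠ 0 := by
    intro h7
    rw [h7, mul_zero] at h0
    exact zero_ne_one h0
  exact mul_right_cancel₀ hw0 (by rw [h1, h0])

lemma norm_emod {v : GaussianInt} (h : v.norm % 2 = 1) : v.norm % 4 = 1 := by
  rw [nrm] at h ⊢
  rcases Int.emod_two_eq_zero_or_one v.re with h1 | h1 <;>
  rcases Int.emod_two_eq_zero_or_one v.im with h2 | h2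
  · obtain ⟨k, hk⟩ := Int.dvd_of_emod_eq_zero h1
    obtain ⟨k', hk'⟩ := Int.dvd_of_emod_eq_zero h2
    rw [hk, hk'] at h
    have : (2 * k) ^ 2 + (2 * k') ^ 2 = 4 * (k ^ 2 + k' ^ 2) := by ring
    omega
  · obtain ⟨k, hk⟩ := Int.dvd_of_emod_eq_zero h1
    obtain ⟨k', hk'⟩ : ∃ k, v.im = 2 * k + 1 := ⟨v.im / 2, by omega⟩
    rw [hk, hk']
    have : (2 * k) ^ 2 + (2 * k' + 1) ^ 2 = 4 * (k ^ 2 + k' ^ 2 + k') + 1 := by ring
    omega
  · obtain ⟨k', hk'⟩ := Int.dvd_of_emod_eq_zero h2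
    obtain ⟨k, hk⟩ : ∃ k, v.re = 2 * k + 1 := ⟨v.re / 2, by omega⟩
    rw [hk, hk']
    have : (2 * k + 1) ^ 2 + (2 * k') ^ 2 = 4 * (k ^ 2 + k + k' ^ 2) + 1 := by ring
    omega
  · obtain ⟨k, hk⟩ : ∃ k, v.re = 2 * k + 1 := ⟨v.re / 2, by omega⟩
    obtain ⟨k', hk'⟩ : ∃ k, v.im = 2 * k + 1 := ⟨v.im / 2, by omega⟩
    rw [hk, hk'] at h
    have : (2 * k + 1) ^ 2 + (2 * k' + 1) ^ 2 = 4 * (k ^ 2 + k + k' ^ 2 + k') + 2 := by ring
    omega

lemma cop4 {n : ℤ} (h1 : IsCoprime n (K : ℤ)) (h2 : n % 2 = 1) : IsCoprime n (4 * K : ℤ) := by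
  have h3 : IsCoprime n 2 := ⟨1, -(n / 2), by omega⟩
  have h4 : IsCoprime n 4 := by
    have := h3.mul_right h3
    norm_num at this
    exact this
  exact h4.mul_right h1

/-- an element with odd norm in each class modulo `K` -/
lemma odd_rep (x : GaussianInt) (hx : IsCoprime x.norm (K : ℤ)) :
    ∃ z : GaussianInt, (x + (K : GaussianInt) * z).norm % 2 = 1 ∧
      IsCoprime (x + (K : GaussianInt) * z).norm (K : ℤ) := by
  rcases Int.emod_two_eq_zero_or_one x.norm with h0 | h0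
  · have hKo : (K : ℤ) % 2 = 1 := by
      rcases Int.emod_two_eq_zero_or_one (K : ℤ) with h1 | h1
      · exfalso
        obtain ⟨a, b, hab⟩ := hx
        obtain ⟨k, hk⟩ := Int.dvd_of_emod_eq_zero h0
        obtain ⟨k', hk'⟩ := Int.dvd_of_emod_eq_zero h1
        rw [hk, hk'] at hab
        have : a * (2 * k) + b * (2 * k') = 2 * (a * k + b * k') := by ring
        omega
      · exact h1
    have e : (x + (K : GaussianInt) * 1).norm = x.norm + K * (2 * x.re + K) := by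
      rw [nrm, nrm]; simp; ring
    refine ⟨1, ?_, ?_⟩
    · rw [e]
      obtain ⟨k, hk⟩ := Int.dvd_of_emod_eq_zero h0
      obtain ⟨k', hk'⟩ : ∃ k, (K : ℤ) = 2 * k + 1 := ⟨(K : ℤ) / 2, by omega⟩
      rw [hk, hk']
      have : 2 * k + (2 * k' + 1) * (2 * x.re + (2 * k' + 1)) =
        2 * (k + k' * (2 * x.re + (2 * k' + 1)) + x.re + k') + 1 := by ring
      omega
    · rw [e]
      exact IsCoprime.add_mul_left_left hx _
  · refine ⟨0, ?_, ?_⟩
    · rw [mul_zero, add_zero]; exact h0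
    · rw [mul_zero, add_zero]; exact hx

/-- **The algebraic part**: `ψ = ω` at both prime factors is impossible in a suitable class -/
theorem alg1 (hK : 0 < K) (h : IsChar K ψ) (ω : ℂ) (hω : ω ≠ 1) :
    ∃ a : ℕ, a % 4 = 1 ∧ Nat.Coprime a (4 * K) ∧
      ∀ v : GaussianInt, (4 * K : ℤ) ∣ v.norm - a → ψ v ≠ ω ∨ ψ (star v) ≠ ω := by
  classical
  have hmulstar : ∀ v : GaussianInt, ψ v * ψ (star v) = ψ ((v.norm : ℤ) : GaussianInt) := by
    intro v
    rw [← h.mul, ← Zsqrtd.norm_eq_mul_conj]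
  by_cases hA : ∃ a : ℕ, a % 4 = 1 ∧ Nat.Coprime a (4 * K) ∧ ψ (a : GaussianInt) ≠ ω ^ 2
  · obtain ⟨a, ha4, hac, hne⟩ := hA
    refine ⟨a, ha4, hac, fun v hv => ?_⟩
    by_contra hcon
    push Not at hcon
    obtain ⟨c, hc⟩ := hv
    have h1 := hmulstar v
    rw [hcon.1, hcon.2] at h1
    have e : ((v.norm : ℤ) : GaussianInt) = (a : GaussianInt) + (K : GaussianInt) *
        ((4 * c : ℤ) : GaussianInt) := by
      have h2 : v.norm = a + K * (4 * c) := by linarith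
      rw [h2]; push_cast; ring
    rw [per' h e] at h1
    exact hne (by rw [← h1]; ring)
  push Not at hA
  have hω2 : ω ^ 2 = 1 := by
    have := hA 1 rfl (Nat.coprime_one_left _)
    rw [Nat.cast_one, one h] at this
    exact this.symm
  have hωm : ω = -1 := (pm_of_sq hω2).resolve_left hω
  rw [hω2] at hA
  -- inverse of the value at the conjugate
  have hinv : ∀ x : GaussianInt, IsCoprime x.norm (K : ℤ) → x.norm % 4 = 1 →
      ψ x * ψ (star x) = 1 := by
    intro x hx h4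
    have hx0 : 0 ≤ x.norm := by rw [nrm]; positivity
    obtain ⟨a, ha⟩ := Int.eq_ofNat_of_zero_le hx0
    rw [hmulstar, ha, Int.cast_natCast]
    refine hA a (by omega) ?_
    have h1 := cop4 hx (by omega)
    rw [ha] at h1
    exact_mod_cast (Nat.isCoprime_iff_coprime.1 (by exact_mod_cast h1))
  have hex := exists_exp hK h
  set m := Nat.find hex with hm
  obtain ⟨hm0, hmx⟩ := Nat.find_spec hex
  rw [← hm] at hm0 hmx
  have hcop1 : ∀ v : GaussianInt, (4 * K : ℤ) ∣ v.norm - 1 → IsCoprime v.norm (K : ℤ) := by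
    rintro v ⟨c, hc⟩
    have : v.norm = 1 + K * (4 * c) := by linarith
    rw [this]
    exact IsCoprime.add_mul_left_left isCoprime_one_left _
  rcases Nat.even_or_odd m with hev | hodd
  swap
  · refine ⟨1, rfl, Nat.coprime_one_left _, fun v hv => Or.inl ?_⟩
    intro h1
    have h2 := hmx v (hcop1 v (by exact_mod_cast hv))
    rw [h1, hωm, hodd.neg_one_pow] at h2
    norm_num at h2
  obtain ⟨k, hk⟩ := hev
  have hk2 : m = k * 2 := by omega
  have hk0 : 0 < k := by omega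
  have hlt : k < m := by omega
  obtain ⟨v0, hv0, hv0k⟩ : ∃ v0 : GaussianInt, IsCoprime v0.norm (K : ℤ) ∧ ψ v0 ^ k ≠ 1 := by
    by_contra hcon
    push Not at hcon
    exact Nat.find_min hex hlt ⟨hk0, hcon⟩
  have hρ := powChar h k
  have hpm : ∀ x : GaussianInt, IsCoprime x.norm (K : ℤ) → ψ x ^ k = 1 ∨ ψ x ^ k = -1 := by
    intro x hx
    have h1 := hmx x hx
    rw [hk2, pow_mul] at h1
    exact pm_of_sq h1
  have hstar : ∀ x : GaussianInt, IsCoprime x.norm (K : ℤ) → x.norm % 4 = 1 →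
      ψ (star x) ^ k = ψ x ^ k := by
    intro x hx h4
    have h1 := congrArg (fun c => c ^ k) (hinv x hx h4)
    simp only [mul_pow, one_pow] at h1
    rcases hpm x hx with h2 | h2
    · rw [h2, one_mul] at h1
      rw [h1, h2]
    · rw [h2, neg_one_mul] at h1
      rw [h2, ← h1, neg_neg]
  rcases Nat.even_or_odd k with hkev | hkodd
  swap
  · refine ⟨1, rfl, Nat.coprime_one_left _, fun v hv => Or.inl ?_⟩
    intro h1
    obtain ⟨c, hc⟩ := hv
    have h2 := val_one hK hρ hstar v c (by push_cast at hc; linarith)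
    rw [h1, hωm, hkodd.neg_one_pow] at h2
    norm_num at h2
  -- the class of `v0`
  obtain ⟨z, hz2, hzc⟩ := odd_rep v0 hv0
  set v1 : GaussianInt := v0 + (K : GaussianInt) * z with hv1
  have hz4 := norm_emod hz2
  have hx0 : 0 ≤ v1.norm := by rw [nrm]; positivity
  obtain ⟨a, ha⟩ := Int.eq_ofNat_of_zero_le hx0
  have hc4 := cop4 hzc hz2
  refine ⟨a, by omega, ?_, fun v hv => Or.inl ?_⟩
  · have h1 := hc4
    rw [ha] at h1
    exact_mod_cast (Nat.isCoprime_iff_coprime.1 (by exact_mod_cast h1))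
  · intro h1
    rw [← ha] at hv
    have h2 := val_norm hK hρ hstar hc4 hv
    rw [h1, hωm, hkev.neg_one_pow, h.per] at h2
    exact hv0k h2.symm

end

end Alg

open Alg in
/-- `alg1` with plain hypotheses -/
theorem alg1_plain (K : ℕ) (hK : 0 < K) (ψ : GaussianInt → ℂ)
    (hmul : ∀ x y : GaussianInt, ψ (x * y) = ψ x * ψ y)
    (hper : ∀ x y : GaussianInt, ψ (x + (K : GaussianInt) * y) = ψ x)
    (hi : ψ ⟨0, 1⟩ = 1) (hne : ∀ x : GaussianInt, IsCoprime x.norm (K : ℤ) → ψ x ≠ 0)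
    (ω : ℂ) (hω : ω ≠ 1) :
    ∃ a : ℕ, a ≡ 1 [MOD 4] ∧ Nat.Coprime a (4 * K) ∧
      ∀ x : GaussianInt, x.norm ≡ a [ZMOD ((4 * K : ℕ) : ℤ)] →
        ¬ (ψ x = ω ∧ ψ (star x) = ω) := by
  obtain ⟨a, ha4, hac, h⟩ := alg1 hK ⟨hmul, hper, hi, hne⟩ ω hω
  refine ⟨a, ha4, hac, fun x hx hcon => ?_⟩
  have h1 := h x (by
    have := hx.symm.dvd
    push_cast at this
    exact this)
  rcases h1 with h1 | h1
  · exact h1 hcon.1
  · exact h1 hcon.2

open Alg in
/-- the values are roots of unity of bounded order -/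
theorem exp_plain (K : ℕ) (hK : 0 < K) (ψ : GaussianInt → ℂ) (h : IsChar K ψ) :
    ∃ m : ℕ, 0 < m ∧ ∀ x : GaussianInt, IsCoprime x.norm (K : ℤ) → ψ x ^ m = 1 :=
  exists_exp hK h

end Pool.Agent.MRS1
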