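import Pool.Agent.Lib.MP_a17b09_nt.MRS.Stmts3
import Pool.Agent.Lib.MP_973905_nt.PrimeSum

/-!
Project MRS, part 1: Chebyshev and Mertens for the Gaussian primes of degree one,
`stCheb_7 : StCheb`, `stMer_7 : StMer`.
-/

set_option autoImplicit false

open Filter Topology Finset

namespace Pool.Agent.Lib.MP_a17b09_nt.MRS.H7

/-! ### Abel summation -/

theorem abel_id (c f : ℕ → ℝ) (a : ℕ) : ∀ b : ℕ, a ≤ b →
    ∑ m ∈ Ioc a b, c m * f m = (∑ m ∈ Ioc a b, c m) * f (b + 1) +
      ∑ m ∈ Ioc a b, (∑ k ∈ Ioc a m, c k) * (f m - f (m + 1)) := by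
  intro b hab
  induction b, hab using Nat.le_induction with
  | base => simp
  | succ b hab ih =>
    rw [Finset.sum_Ioc_succ_top hab, Finset.sum_Ioc_succ_top hab, Finset.sum_Ioc_succ_top hab, ih,
      Finset.sum_Ioc_succ_top hab]
    ring

theorem tel (f : ℕ → ℝ) (a : ℕ) : ∀ b : ℕ, a ≤ b →
    ∑ m ∈ Ioc a b, (f m - f (m + 1)) = f (a + 1) - f (b + 1) := by
  intro b hab
  induction b, hab using Nat.le_induction with
  | base => simp
  | succ b hab ih =>
    rw [Finset.sum_Ioc_succ_top hab, ih]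
    ring

theorem abel (c f : ℕ → ℝ) (B : ℝ) (a : ℕ) (hB : ∀ n, a ≤ n → |∑ m ∈ Ioc a n, c m| ≤ B)
    (h0 : ∀ m, a < m → 0 ≤ f m) (hf : ∀ m, a < m → f (m + 1) ≤ f m) (b : ℕ) (hab : a ≤ b) :
    |∑ m ∈ Ioc a b, c m * f m| ≤ B * f (a + 1) := by
  rw [abel_id c f a b hab]
  have h1 : |(∑ m ∈ Ioc a b, c m) * f (b + 1)| ≤ B * f (b + 1) := by
    rw [abs_mul, abs_of_nonneg (h0 (b + 1) (by omega))]
    exact mul_le_mul_of_nonneg_right (hB b hab) (h0 (b + 1) (by omega))
  have h2 : |∑ m ∈ Ioc a b, (∑ k ∈ Ioc a m, c k) * (f m - f (m + 1))| ≤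
      B * (f (a + 1) - f (b + 1)) := by
    rw [← tel f a b hab, Finset.mul_sum]
    refine (Finset.abs_sum_le_sum_abs _ _).trans (Finset.sum_le_sum fun m hm => ?_)
    rw [Finset.mem_Ioc] at hm
    have h3 : 0 ≤ f m - f (m + 1) := by linarith [hf m hm.1]
    rw [abs_mul, abs_of_nonneg h3]
    exact mul_le_mul_of_nonneg_right (hB m hm.1.le) h3
  calc _ ≤ |(∑ m ∈ Ioc a b, c m) * f (b + 1)| +
        |∑ m ∈ Ioc a b, (∑ k ∈ Ioc a m, c k) * (f m - f (m + 1))| := abs_add_le _ _
    _ ≤ B * f (b + 1) + B * (f (a + 1) - f (b + 1)) := add_le_add h1 h2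
    _ = B * f (a + 1) := by ring

/-! ### the character modulo 4 -/

/-- the character modulo `4` -/
noncomputable def ch (n : ℕ) : ℝ := ((ZMod.χ₄ (n : ZMod 4) : ℤ) : ℝ)

theorem ch_mul (m n : ℕ) : ch (m * n) = ch m * ch n := by
  unfold ch
  push_cast
  rw [map_mul]
  push_cast
  rfl

theorem ch_val (n : ℕ) : ch n = if n % 2 = 0 then 0 else if n % 4 = 1 then 1 else -1 := by
  unfold ch
  rw [ZMod.χ₄_nat_eq_if_mod_four]
  split_ifs <;> simp

theorem ch_abs (n : ℕ) : |ch n| ≤ 1 := by
  rw [ch_val]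
  split_ifs <;> simp

theorem sum_ch0 (n : ℕ) : ∑ m ∈ Ioc 0 n, ch m = if n % 4 = 1 ∨ n % 4 = 2 then 1 else 0 := by
  induction n with
  | zero => simp
  | succ n ih =>
    rw [Finset.sum_Ioc_succ_top (by omega), ih, ch_val]
    have h4 : n % 4 = 0 ∨ n % 4 = 1 ∨ n % 4 = 2 ∨ n % 4 = 3 := by omega
    rcases h4 with h | h | h | h
    · rw [if_neg (by omega), if_neg (by omega), if_pos (by omega), if_pos (by omega)]
      norm_num
    · rw [if_pos (by omega), if_pos (by omega), if_pos (by omega)]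
      norm_num
    · rw [if_pos (by omega), if_neg (by omega), if_neg (by omega), if_neg (by omega)]
      norm_num
    · rw [if_neg (by omega), if_pos (by omega), if_neg (by omega)]
      norm_num

theorem sum_ch (a n : ℕ) (h : a ≤ n) : |∑ m ∈ Ioc a n, ch m| ≤ 1 := by
  have h1 : ∑ m ∈ Ioc a n, ch m = ∑ m ∈ Ioc 0 n, ch m - ∑ m ∈ Ioc 0 a, ch m := by
    rw [← Finset.sum_Ioc_consecutive ch (Nat.zero_le a) h]
    ring
  rw [h1, sum_ch0, sum_ch0]
  split_ifs <;> norm_num

/-- `∑_{m ≤ n} χ(m)/m` -/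
noncomputable def T (n : ℕ) : ℝ := ∑ m ∈ Ioc 0 n, ch m / m

theorem T_sub (a b : ℕ) (h : a ≤ b) : |T b - T a| ≤ 1 / ((a : ℝ) + 1) := by
  have h1 : T b - T a = ∑ m ∈ Ioc a b, ch m * (1 / (m : ℝ)) := by
    unfold T
    rw [← Finset.sum_Ioc_consecutive (fun m : ℕ => ch m / (m : ℝ)) (Nat.zero_le a) h]
    rw [add_sub_cancel_left]
    refine Finset.sum_congr rfl fun m _ => ?_
    ring
  rw [h1]
  have h2 := abel ch (fun m : ℕ => 1 / (m : ℝ)) 1 a (fun n hn => sum_ch a n hn)
    (fun m _ => by positivity) (fun m hm => by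
      apply one_div_le_one_div_of_le
      · have : 0 < m := by omega
        exact_mod_cast this
      · push_cast; linarith) b h
  simpa using h2

theorem T_ge (n : ℕ) (hn : 1 ≤ n) : 2 / 3 ≤ T n := by
  rcases Nat.lt_or_ge n 2 with h | h
  · have h1 : n = 1 := by omega
    subst h1
    have h2 : ch 1 = 1 := by rw [ch_val]; norm_num
    unfold T
    rw [Finset.sum_Ioc_succ_top (by norm_num)]
    norm_num [h2]
  · have h1 := T_sub 2 n h
    have h2 : T 2 = 1 := by
      have e1 : ch 1 = 1 := by rw [ch_val]; norm_num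
      have e2 : ch 2 = 0 := by rw [ch_val]; norm_num
      unfold T
      rw [Finset.sum_Ioc_succ_top (by norm_num), Finset.sum_Ioc_succ_top (by norm_num)]
      norm_num [e1, e2]
    rw [h2] at h1
    have := (abs_le.1 h1).1
    norm_num at this
    linarith

/-- `∑ χ(n) log n / n` is bounded -/
theorem sum_ch_log (n : ℕ) : |∑ m ∈ Ioc 0 n, ch m * (Real.log m / m)| ≤ 1 := by
  rcases Nat.lt_or_ge n 2 with h | h
  · have h1 : ∑ m ∈ Ioc 0 n, ch m * (Real.log m / m) = 0 := by
      refine Finset.sum_eq_zero fun m hm => ?_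
      rw [Finset.mem_Ioc] at hm
      have h2 : m = 1 := by omega
      subst h2
      simp
    rw [h1]
    norm_num
  · have h1 : ∑ m ∈ Ioc 0 n, ch m * (Real.log m / m) =
        ∑ m ∈ Ioc 2 n, ch m * (Real.log m / m) := by
      rw [← Finset.sum_Ioc_consecutive (fun m : ℕ => ch m * (Real.log m / m)) (Nat.zero_le 2) h]
      have e2 : ch 2 = 0 := by rw [ch_val]; norm_num
      rw [Finset.sum_Ioc_succ_top (by norm_num), Finset.sum_Ioc_succ_top (by norm_num)]
      norm_num [e2]
    rw [h1]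
    have h2 := abel ch (fun m : ℕ => Real.log m / (m : ℝ)) 1 2 (fun n hn => sum_ch 2 n hn)
      (fun m _ => div_nonneg (Real.log_natCast_nonneg m) (Nat.cast_nonneg m)) (fun m hm => by
        have hm3 : (3 : ℝ) ≤ m := by exact_mod_cast hm
        have he : Real.exp 1 ≤ (m : ℝ) := by
          have := Real.exp_one_lt_d9
          linarith
        have := Real.log_div_self_antitoneOn he (show Real.exp 1 ≤ ((m + 1 : ℕ) : ℝ) by
          push_cast; linarith) (show (m : ℝ) ≤ ((m + 1 : ℕ) : ℝ) by push_cast; linarith)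
        exact this) n h
    refine h2.trans ?_
    have h3 : Real.log 3 ≤ 3 - 1 := Real.log_le_sub_one_of_pos (by norm_num)
    norm_num
    linarith

open ArithmeticFunction in
/-- the exchange of the summations -/
theorem exch (n : ℕ) : ∑ m ∈ Ioc 0 n, ch m * (Real.log m / m) =
    ∑ d ∈ Ioc 0 n, (vonMangoldt d * (ch d / d)) * T (n / d) := by
  set F : ArithmeticFunction ℝ := ⟨fun d => vonMangoldt d * (ch d / d), by simp⟩ with hF
  set G : ArithmeticFunction ℝ := ⟨fun m => ch m / m, by simp⟩ with hG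
  have h1 := sum_Ioc_mul_eq_sum_sum F G n
  have h2 : ∀ m ∈ Ioc 0 n, ch m * (Real.log m / m) = (F * G) m := by
    intro m hm
    rw [Finset.mem_Ioc] at hm
    rw [ArithmeticFunction.mul_apply]
    have h3 : ∀ x ∈ m.divisorsAntidiagonal, F x.1 * G x.2 = ch m / m * vonMangoldt x.1 := by
      intro x hx
      rw [Nat.mem_divisorsAntidiagonal] at hx
      have h4 : (m : ℝ) = x.1 * x.2 := by rw [← hx.1]; push_cast; ring
      have h5 : ch m = ch x.1 * ch x.2 := by rw [← hx.1, ch_mul]
      have h6 : (x.1 : ℝ) ≠ 0 := by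
        intro h0
        apply hx.2
        have : (m : ℝ) = 0 := by rw [h4, h0, zero_mul]
        exact_mod_cast this
      have h7 : (x.2 : ℝ) ≠ 0 := by
        intro h0
        apply hx.2
        have : (m : ℝ) = 0 := by rw [h4, h0, mul_zero]
        exact_mod_cast this
      change (vonMangoldt x.1 * (ch x.1 / x.1)) * (ch x.2 / x.2) = _
      rw [h4, h5]
      field_simp
    rw [Finset.sum_congr rfl h3, ← Finset.mul_sum,
      Nat.sum_divisorsAntidiagonal (fun i _ => vonMangoldt i), vonMangoldt_sum]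
    ring
  rw [Finset.sum_congr rfl h2, h1]
  rfl

theorem psi_nat (n : ℕ) : ∑ d ∈ Ioc 0 n, ArithmeticFunction.vonMangoldt d ≤ 6 * (n : ℝ) := by
  have h1 := Chebyshev.psi_le_const_mul_self (x := (n : ℝ)) (Nat.cast_nonneg n)
  have h2 : Chebyshev.psi (n : ℝ) = ∑ d ∈ Ioc 0 n, ArithmeticFunction.vonMangoldt d := by
    unfold Chebyshev.psi
    rw [Nat.floor_natCast]
  rw [h2] at h1
  have h3 : Real.log 4 + 4 ≤ 6 := by
    rw [show (4 : ℝ) = 2 ^ 2 by norm_num, Real.log_pow]
    have := Real.log_two_lt_d9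
    push_cast; linarith
  exact h1.trans (mul_le_mul_of_nonneg_right h3 (Nat.cast_nonneg n))

/-- `∑_{d ≤ n} Λ(d) χ(d) / d` is bounded -/
theorem sum_vm (n : ℕ) :
    |∑ d ∈ Ioc 0 n, ArithmeticFunction.vonMangoldt d * (ch d / d)| ≤ 11 := by
  rcases Nat.eq_zero_or_pos n with h0 | h0
  · subst h0; simp
  have hn0 : (0 : ℝ) < n := by exact_mod_cast h0
  have h1 := sum_ch_log n
  rw [exch n] at h1
  set S : ℝ := ∑ d ∈ Ioc 0 n, ArithmeticFunction.vonMangoldt d * (ch d / d) with hS
  have h2 : |S * T n - ∑ d ∈ Ioc 0 n, (ArithmeticFunction.vonMangoldt d * (ch d / d)) * T (n / d)|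
      ≤ 6 := by
    rw [hS, Finset.sum_mul, ← Finset.sum_sub_distrib]
    refine (Finset.abs_sum_le_sum_abs _ _).trans ?_
    calc ∑ d ∈ Ioc 0 n, |ArithmeticFunction.vonMangoldt d * (ch d / d) * T n -
          ArithmeticFunction.vonMangoldt d * (ch d / d) * T (n / d)|
        ≤ ∑ d ∈ Ioc 0 n, ArithmeticFunction.vonMangoldt d * (1 / n) := by
          refine Finset.sum_le_sum fun d hd => ?_
          rw [Finset.mem_Ioc] at hd
          have hd0 : (0 : ℝ) < d := by exact_mod_cast hd.1
          rw [← mul_sub, mul_assoc, abs_mul, abs_of_nonneg ArithmeticFunction.vonMangoldt_nonneg]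
          apply mul_le_mul_of_nonneg_left _ ArithmeticFunction.vonMangoldt_nonneg
          rw [abs_mul, abs_div, abs_of_pos hd0]
          have h3 := T_sub (n / d) n (Nat.div_le_self n d)
          have h4 : (n : ℝ) ≤ ((n / d : ℕ) + 1) * d := by
            have := Nat.lt_div_mul_add (a := n) (b := d) hd.1
            have h5 : (n : ℝ) < (n / d : ℕ) * d + d := by exact_mod_cast this
            linarith
          calc |ch d| / d * |T n - T (n / d)| ≤ 1 / d * (1 / ((n / d : ℕ) + 1)) :=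
                mul_le_mul (div_le_div_of_nonneg_right (ch_abs d) hd0.le) h3 (abs_nonneg _)
                  (by positivity)
            _ = 1 / (((n / d : ℕ) + 1) * d) := by
                rw [one_div_mul_one_div, mul_comm]
            _ ≤ 1 / n := one_div_le_one_div_of_le hn0 h4
      _ = (∑ d ∈ Ioc 0 n, ArithmeticFunction.vonMangoldt d) * (1 / n) := by rw [Finset.sum_mul]
      _ ≤ (6 * n) * (1 / n) := mul_le_mul_of_nonneg_right (psi_nat n) (by positivity)
      _ = 6 := by field_simp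
  have h3 : |S * T n| ≤ 7 := by
    have := abs_sub_abs_le_abs_sub (S * T n)
      (∑ d ∈ Ioc 0 n, (ArithmeticFunction.vonMangoldt d * (ch d / d)) * T (n / d))
    linarith
  have h4 := T_ge n h0
  rw [abs_mul, abs_of_pos (show 0 < T n by linarith)] at h3
  have h5 : |S| * (2 / 3) ≤ 7 := (mul_le_mul_of_nonneg_left h4 (abs_nonneg S)).trans h3
  linarith

open ArithmeticFunction in
/-- `∑ Λ(d)/d ≤ log n + 6` -/
theorem sum_vm_div (n : ℕ) (hn : 1 ≤ n) :
    ∑ d ∈ Ioc 0 n, vonMangoldt d / d ≤ Real.log n + 6 := by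
  have hn0 : (0 : ℝ) < n := by exact_mod_cast hn
  have h1 := sum_Ioc_mul_zeta_eq_sum vonMangoldt n
  have h2 : ∑ m ∈ Ioc 0 n, (vonMangoldt * (zeta : ArithmeticFunction ℝ)) m ≤ n * Real.log n := by
    rw [vonMangoldt_mul_zeta]
    calc ∑ m ∈ Ioc 0 n, log m ≤ ∑ m ∈ Ioc 0 n, Real.log n := by
          refine Finset.sum_le_sum fun m hm => ?_
          rw [Finset.mem_Ioc] at hm
          change Real.log m ≤ _
          apply Real.log_le_log
          · exact_mod_cast hm.1
          · exact_mod_cast hm.2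
      _ = n * Real.log n := by rw [Finset.sum_const, Nat.card_Ioc, nsmul_eq_mul, Nat.sub_zero]
  have h3 : n * (∑ d ∈ Ioc 0 n, vonMangoldt d / d) - ∑ d ∈ Ioc 0 n, vonMangoldt d ≤
      ∑ d ∈ Ioc 0 n, vonMangoldt d * ((n / d : ℕ) : ℝ) := by
    rw [Finset.mul_sum, ← Finset.sum_sub_distrib]
    refine Finset.sum_le_sum fun d hd => ?_
    rw [Finset.mem_Ioc] at hd
    have hd0 : (0 : ℝ) < d := by exact_mod_cast hd.1
    have h4 : (n : ℝ) / d - 1 ≤ ((n / d : ℕ) : ℝ) := by
      have := Nat.lt_div_mul_add (a := n) (b := d) hd.1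
      have h5 : (n : ℝ) < (n / d : ℕ) * d + d := by exact_mod_cast this
      have h6 : (n : ℝ) / d < (n / d : ℕ) + 1 := by
        rw [div_lt_iff₀ hd0]
        linarith
      linarith
    have h5 := mul_le_mul_of_nonneg_left h4 (vonMangoldt_nonneg (n := d))
    calc (n : ℝ) * (vonMangoldt d / d) - vonMangoldt d = vonMangoldt d * ((n : ℝ) / d - 1) := by
          ring
      _ ≤ _ := h5
  have h4 := psi_nat n
  have h5 : n * (∑ d ∈ Ioc 0 n, vonMangoldt d / d) ≤ n * (Real.log n + 6) := by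
    rw [← h1] at h3
    linarith
  exact le_of_mul_le_mul_left h5 hn0

/-- the coefficients `χ(p) log p / p` -/
noncomputable def cp (m : ℕ) : ℝ := if m.Prime then ch m * (Real.log m / m) else 0

theorem sum_cp0 (n : ℕ) : |∑ m ∈ Ioc 0 n, cp m| ≤ 22 := by
  rcases Nat.eq_zero_or_pos n with h0 | h0
  · subst h0; simp
  have h1 := sum_vm n
  have h2 : |∑ d ∈ Ioc 0 n, ArithmeticFunction.vonMangoldt d * (ch d / d) -
      ∑ m ∈ Ioc 0 n, cp m| ≤ 11 := by
    rw [← Finset.sum_sub_distrib]
    refine (Finset.abs_sum_le_sum_abs _ _).trans ?_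
    calc ∑ d ∈ Ioc 0 n, |ArithmeticFunction.vonMangoldt d * (ch d / d) - cp d|
        ≤ ∑ d ∈ Ioc 0 n, (ArithmeticFunction.vonMangoldt d / d -
            if d.Prime then Real.log d / d else 0) := by
          refine Finset.sum_le_sum fun d hd => ?_
          rw [Finset.mem_Ioc] at hd
          have hd0 : (0 : ℝ) < d := by exact_mod_cast hd.1
          unfold cp
          split_ifs with hp
          · rw [ArithmeticFunction.vonMangoldt_apply_prime hp]
            have e1 : Real.log d * (ch d / d) - ch d * (Real.log d / d) = 0 := by ring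
            rw [e1]
            simp
          · rw [sub_zero, sub_zero, abs_mul, abs_of_nonneg ArithmeticFunction.vonMangoldt_nonneg,
              abs_div, abs_of_pos hd0]
            calc ArithmeticFunction.vonMangoldt d * (|ch d| / d) ≤
                ArithmeticFunction.vonMangoldt d * (1 / d) :=
                  mul_le_mul_of_nonneg_left (div_le_div_of_nonneg_right (ch_abs d) hd0.le)
                    ArithmeticFunction.vonMangoldt_nonneg
              _ = _ := by ring
      _ = ∑ d ∈ Ioc 0 n, ArithmeticFunction.vonMangoldt d / d -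
            ∑ d ∈ Ioc 0 n, if d.Prime then Real.log d / d else 0 := by
          rw [Finset.sum_sub_distrib]
      _ ≤ 11 := by
          have h3 := sum_vm_div n h0
          have h4 := MP_973905_nt.PrimeSum.A_bound (n : ℝ) (by exact_mod_cast h0)
          unfold MP_973905_nt.PrimeSum.A at h4
          rw [Nat.floor_natCast, Finset.sum_filter] at h4
          have h5 := (abs_le.1 h4).1
          have h6 : Finset.Icc 1 n = Finset.Ioc 0 n := by
            ext x
            simp only [Finset.mem_Icc, Finset.mem_Ioc]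
            omega
          rw [h6] at h5
          linarith
  have h3 := abs_sub_abs_le_abs_sub (∑ m ∈ Ioc 0 n, cp m)
    (∑ d ∈ Ioc 0 n, ArithmeticFunction.vonMangoldt d * (ch d / d))
  rw [abs_sub_comm] at h2
  linarith

theorem sum_cp (a n : ℕ) (h : a ≤ n) : |∑ m ∈ Ioc a n, cp m| ≤ 44 := by
  have h1 : ∑ m ∈ Ioc a n, cp m = ∑ m ∈ Ioc 0 n, cp m - ∑ m ∈ Ioc 0 a, cp m := by
    rw [← Finset.sum_Ioc_consecutive cp (Nat.zero_le a) h]
    ring
  rw [h1]
  have h2 := sum_cp0 n
  have h3 := sum_cp0 a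
  have h4 := abs_sub (∑ m ∈ Ioc 0 n, cp m) (∑ m ∈ Ioc 0 a, cp m)
  linarith

/-- `∑ χ(p)/p` is bounded -/
theorem sum_chp (a b : ℕ) (ha : 1 ≤ a) (hab : a ≤ b) :
    |∑ p ∈ (Ioc a b).filter Nat.Prime, ch p / p| ≤ 100 := by
  have h1 : ∑ p ∈ (Ioc a b).filter Nat.Prime, ch p / p =
      ∑ m ∈ Ioc a b, cp m * (1 / Real.log m) := by
    rw [Finset.sum_filter]
    refine Finset.sum_congr rfl fun m _ => ?_
    unfold cp
    split_ifs with hp
    · have h2 : Real.log m ≠ 0 := (Real.log_pos (by exact_mod_cast hp.one_lt)).ne'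
      field_simp
    · simp
  rw [h1]
  have hl : ∀ m : ℕ, a < m → 0 < Real.log m := fun m hm =>
    Real.log_pos (by exact_mod_cast (show 1 < m by omega))
  have h2 := abel cp (fun m : ℕ => 1 / Real.log m) 44 a (fun n hn => sum_cp a n hn)
    (fun m hm => by have := hl m hm; positivity)
    (fun m hm => by
      apply one_div_le_one_div_of_le (hl m hm)
      apply Real.log_le_log
      · exact_mod_cast (show 0 < m by omega)
      · push_cast; linarith) b hab
  refine h2.trans ?_
  have h3 : Real.log 2 ≤ Real.log ((a + 1 : ℕ) : ℝ) := by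
    apply Real.log_le_log (by norm_num)
    exact_mod_cast (show 2 ≤ a + 1 by omega)
  have h4 := Real.log_two_gt_d9
  have h5 : 1 / Real.log ((a + 1 : ℕ) : ℝ) ≤ 1 / (1 / 2) :=
    one_div_le_one_div_of_le (by norm_num) (by linarith)
  change 44 * (1 / Real.log ((a + 1 : ℕ) : ℝ)) ≤ 100
  linarith

/-! ### primes as sums of two squares -/

theorem uniq {p : ℕ} (hp : p.Prime) {x y u v : ℤ} (hx : 0 < x) (hy : 0 < y) (hu : 0 < u)
    (hv : 0 < v) (h1 : x ^ 2 + y ^ 2 = p) (h2 : u ^ 2 + v ^ 2 = p) :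
    (x = u ∧ y = v) ∨ (x = v ∧ y = u) := by
  have hp0 : (0 : ℤ) < p := by exact_mod_cast hp.pos
  have hd : (p : ℤ) ∣ (x * v - y * u) * (x * v + y * u) :=
    ⟨x ^ 2 - u ^ 2, by linear_combination x ^ 2 * h2 - u ^ 2 * h1⟩
  rcases (Nat.prime_iff_prime_int.1 hp).dvd_or_dvd hd with h | h
  · left
    have e1 : (x * v - y * u) ^ 2 + (x * u + y * v) ^ 2 = (p : ℤ) ^ 2 := by
      linear_combination (u ^ 2 + v ^ 2) * h1 + (p : ℤ) * h2
    have e2 : 0 < x * u + y * v := by positivity
    have e3 : |x * v - y * u| < p := by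
      apply abs_lt_of_sq_lt_sq _ hp0.le
      nlinarith
    have e4 : x * v - y * u = 0 := Int.eq_zero_of_abs_lt_dvd h e3
    have e5 : x * u + y * v = p := by
      rw [e4] at e1
      have : (x * u + y * v) ^ 2 = (p : ℤ) ^ 2 := by linarith
      exact (pow_left_inj₀ e2.le hp0.le (by norm_num)).1 this
    constructor
    · apply mul_left_cancel₀ hp0.ne'
      linear_combination (-x) * e5 + u * h1 + y * e4
    · apply mul_left_cancel₀ hp0.ne'
      linear_combination (-y) * e5 + v * h1 - x * e4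
  · right
    have e1 : (x * u - y * v) ^ 2 + (x * v + y * u) ^ 2 = (p : ℤ) ^ 2 := by
      linear_combination (u ^ 2 + v ^ 2) * h1 + (p : ℤ) * h2
    have e2 : 0 < x * v + y * u := by positivity
    have e3 : (p : ℤ) ≤ x * v + y * u := Int.le_of_dvd e2 h
    have e4 : x * v + y * u ≤ p := by
      apply le_of_sq_le_sq _ hp0.le
      nlinarith [sq_nonneg (x * u - y * v)]
    have e5 : x * v + y * u = p := le_antisymm e4 e3
    have e6 : x * u - y * v = 0 := by
      rw [e5] at e1
      have : (x * u - y * v) ^ 2 = 0 := by linarith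
      exact pow_eq_zero_iff (two_ne_zero) |>.1 this
    constructor
    · apply mul_left_cancel₀ hp0.ne'
      linear_combination (-x) * e5 + v * h1 + y * e6
    · apply mul_left_cancel₀ hp0.ne'
      linear_combination (-y) * e5 + u * h1 - x * e6

theorem nm_int (v : GaussianInt) : (nm v : ℤ) = v.re ^ 2 + v.im ^ 2 := by
  unfold nm
  rw [Int.natAbs_of_nonneg (GaussianInt.norm_nonneg v), Zsqrtd.norm_def]
  ring

/-- the elements of norm `p` in the open first quadrant -/
noncomputable def fib (p : ℕ) : Finset GaussianInt :=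
  (Sh 0 p).filter (fun v => 0 < v.re ∧ 0 < v.im ∧ nm v = p)

theorem mem_fib {p : ℕ} (hp : 0 < p) {v : GaussianInt} :
    v ∈ fib p ↔ 0 < v.re ∧ 0 < v.im ∧ v.re ^ 2 + v.im ^ 2 = (p : ℤ) := by
  unfold fib
  rw [Finset.mem_filter, mem_Sh]
  constructor
  · rintro ⟨-, h1, h2, h3⟩
    refine ⟨h1, h2, ?_⟩
    rw [← nm_int, h3]
  · rintro ⟨h1, h2, h3⟩
    have h4 : nm v = p := by
      rw [← nm_int] at h3
      exact_mod_cast h3
    refine ⟨⟨?_, ?_, ?_⟩, h1, h2, h4⟩
    · rintro rfl
      simp at h1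
    · rw [h4]
      exact_mod_cast hp
    · rw [h4]

theorem card_fib {p : ℕ} (hp : p.Prime) : ((fib p).card : ℝ) = 1 + ch p := by
  have hcases : p = 2 ∨ p % 4 = 1 ∨ p % 4 = 3 := by
    rcases hp.eq_two_or_odd with h | h
    · exact Or.inl h
    · omega
  rcases hcases with h | h | h
  · subst h
    have h1 : fib 2 = {⟨1, 1⟩} := by
      ext v
      rw [mem_fib (by norm_num), Finset.mem_singleton]
      constructor
      · rintro ⟨h1, h2, h3⟩
        push_cast at h3
        have h4 : v.re = 1 := by nlinarith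
        have h5 : v.im = 1 := by nlinarith
        exact Zsqrtd.ext h4 h5
      · rintro rfl
        norm_num
    have e2 : ch 2 = 0 := by rw [ch_val]; norm_num
    rw [h1, Finset.card_singleton, e2]
    norm_num
  · have : Fact p.Prime := ⟨hp⟩
    obtain ⟨a, b, hab⟩ := Nat.Prime.sq_add_sq (p := p) (by omega)
    have ha : a ≠ 0 := by
      rintro rfl
      have : b ^ 2 = p := by simpa using hab
      rw [← this] at hp
      exact Nat.Prime.not_prime_pow (le_refl 2) hp
    have hb : b ≠ 0 := by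
      rintro rfl
      have : a ^ 2 = p := by simpa using hab
      rw [← this] at hp
      exact Nat.Prime.not_prime_pow (le_refl 2) hp
    have hne : a ≠ b := by
      rintro rfl
      have : p % 2 = 0 := by
        rw [← hab, ← two_mul]
        omega
      omega
    have ha' : (0 : ℤ) < a := by omega
    have hb' : (0 : ℤ) < b := by omega
    have hab' : (a : ℤ) ^ 2 + (b : ℤ) ^ 2 = p := by exact_mod_cast hab
    have h1 : fib p = {⟨a, b⟩, ⟨b, a⟩} := by
      ext v
      rw [mem_fib hp.pos, Finset.mem_insert, Finset.mem_singleton]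
      constructor
      · rintro ⟨h1, h2, h3⟩
        rcases uniq hp h1 h2 ha' hb' h3 hab' with ⟨h4, h5⟩ | ⟨h4, h5⟩
        · exact Or.inl (Zsqrtd.ext h4 h5)
        · exact Or.inr (Zsqrtd.ext h4 h5)
      · rintro (rfl | rfl)
        · exact ⟨ha', hb', hab'⟩
        · exact ⟨hb', ha', by rw [add_comm]; exact hab'⟩
    have e1 : ch p = 1 := by
      rw [ch_val, if_neg (by omega), if_pos h]
    rw [h1, Finset.card_pair, e1]
    · norm_num
    · intro h2
      apply hne
      have := congrArg Zsqrtd.re h2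
      simp only at this
      exact_mod_cast this
  · have h1 : fib p = ∅ := by
      rw [Finset.eq_empty_iff_forall_notMem]
      intro v hv
      rw [mem_fib hp.pos] at hv
      have h2 := hv.2.2
      have h3 : ((p : ℤ)) % 4 = 3 := by exact_mod_cast (by omega : ((p % 4 : ℕ) : ℤ) = 3)
      rw [← h2] at h3
      have h4 : ∀ t : ℤ, t ^ 2 % 4 = 0 ∨ t ^ 2 % 4 = 1 := by
        intro t
        rcases Int.even_or_odd' t with ⟨s, hs | hs⟩
        · left
          rw [hs, show (2 * s) ^ 2 = 4 * s ^ 2 by ring]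
          omega
        · right
          rw [hs, show (2 * s + 1) ^ 2 = 4 * (s ^ 2 + s) + 1 by ring]
          omega
      rcases h4 v.re with h5 | h5 <;> rcases h4 v.im with h6 | h6 <;> omega
    have e1 : ch p = -1 := by
      rw [ch_val, if_neg (by omega), if_neg (by omega)]
    rw [h1, Finset.card_empty, e1]
    norm_num

/-- the primes in `[a, b)` -/
noncomputable def PR (a b : ℝ) : Finset ℕ :=
  (Finset.range ⌈b⌉₊).filter (fun p => p.Prime ∧ a ≤ p)

theorem mem_PR {a b : ℝ} {p : ℕ} : p ∈ PR a b ↔ p.Prime ∧ a ≤ p ∧ (p : ℝ) < b := by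
  unfold PR
  rw [Finset.mem_filter, Finset.mem_range, Nat.lt_ceil]
  tauto

theorem LL_eq (a b : ℝ) : LL a b = ∑ p ∈ PR a b, (1 + ch p) / p := by
  unfold LL
  rw [← Finset.sum_fiberwise_of_maps_to (s := sl a b) (t := PR a b) (g := nm)]
  · refine Finset.sum_congr rfl fun p hp => ?_
    rw [mem_PR] at hp
    have h1 : (sl a b).filter (fun v => nm v = p) = fib p := by
      ext v
      rw [Finset.mem_filter, mem_fib hp.1.pos]
      unfold sl
      rw [Finset.mem_filter, mem_Sh]
      constructor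
      · rintro ⟨⟨-, h1, h2, -⟩, h3⟩
        refine ⟨h1, h2, ?_⟩
        rw [← nm_int, h3]
      · rintro ⟨h1, h2, h3⟩
        have h4 : nm v = p := by
          rw [← nm_int] at h3
          exact_mod_cast h3
        refine ⟨⟨⟨?_, ?_, ?_⟩, h1, h2, ?_, ?_, ?_⟩, h4⟩
        · rintro rfl
          simp at h1
        · rw [h4]
          exact_mod_cast hp.1.pos
        · rw [h4]; exact hp.2.2.le
        · rw [h4]; exact hp.1
        · rw [h4]; exact hp.2.1
        · rw [h4]; exact hp.2.2
    rw [h1]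
    have h2 : ∀ v ∈ fib p, 1 / (nm v : ℝ) = 1 / p := by
      intro v hv
      unfold fib at hv
      rw [Finset.mem_filter] at hv
      rw [hv.2.2.2]
    rw [Finset.sum_congr rfl h2, Finset.sum_const, nsmul_eq_mul, card_fib hp.1]
    ring
  · intro v hv
    unfold sl at hv
    rw [Finset.mem_filter] at hv
    rw [mem_PR]
    exact ⟨hv.2.2.2.1, hv.2.2.2.2.1, hv.2.2.2.2.2⟩

theorem G_nonneg (p : ℕ) : 0 ≤ (1 + ch p) / p := by
  have := (abs_le.1 (ch_abs p)).1
  apply div_nonneg _ (Nat.cast_nonneg p)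
  linarith

theorem G_le (p : ℕ) : (1 + ch p) / p ≤ 2 / p := by
  have := (abs_le.1 (ch_abs p)).2
  apply div_le_div_of_nonneg_right _ (Nat.cast_nonneg p)
  linarith

theorem G_one (p : ℕ) (hp : 2 ≤ p) : (1 + ch p) / p ≤ 1 := by
  refine (G_le p).trans ?_
  have : (2 : ℝ) ≤ p := by exact_mod_cast hp
  rw [div_le_one (by linarith)]
  exact this

end Pool.Agent.Lib.MP_a17b09_nt.MRS.H7

namespace Pool.Agent.Lib.MP_a17b09_nt.MRS

open H7

/-- Chebyshev bound for the Gaussian primes of degree one -/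
theorem stCheb_7 : StCheb := by
  refine ⟨4 * Real.log 4, by have := Real.log_pos (show (1 : ℝ) < 4 by norm_num); positivity,
    fun y hy => ?_⟩
  have hy0 : 0 < y := by linarith
  have hl : 0 < Real.log y := Real.log_pos (by linarith)
  rw [LL_eq]
  have h1 : ∀ p ∈ PR y (2 * y), (1 + ch p) / p ≤ (2 / (y * Real.log y)) * Real.log p := by
    intro p hp
    rw [mem_PR] at hp
    have hp0 : (0 : ℝ) < p := by linarith [hp.2.1]
    have h2 : Real.log y ≤ Real.log p := Real.log_le_log hy0 hp.2.1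
    refine (G_le p).trans ?_
    rw [div_mul_eq_mul_div, div_le_div_iff₀ hp0 (by positivity)]
    have h3 : y * Real.log y ≤ p * Real.log p := mul_le_mul hp.2.1 h2 hl.le hp0.le
    nlinarith
  calc ∑ p ∈ PR y (2 * y), (1 + ch p) / p
      ≤ ∑ p ∈ PR y (2 * y), (2 / (y * Real.log y)) * Real.log p := Finset.sum_le_sum h1
    _ = (2 / (y * Real.log y)) * ∑ p ∈ PR y (2 * y), Real.log p := by rw [Finset.mul_sum]
    _ ≤ (2 / (y * Real.log y)) * (Real.log 4 * (2 * y)) := by
        apply mul_le_mul_of_nonneg_left _ (by positivity)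
        refine le_trans ?_ (Chebyshev.theta_le_log4_mul_x (x := 2 * y) (by positivity))
        unfold Chebyshev.theta
        apply Finset.sum_le_sum_of_subset_of_nonneg
        · intro p hp
          rw [mem_PR] at hp
          rw [Finset.mem_filter, Finset.mem_Ioc]
          exact ⟨⟨hp.1.pos, Nat.le_floor hp.2.2.le⟩, hp.1⟩
        · intro p _ _
          exact Real.log_natCast_nonneg p
    _ = 4 * Real.log 4 / Real.log y := by
        field_simp
        ring

/-- Mertens for the Gaussian primes of degree one -/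
theorem stMer_7 : StMer := by
  refine ⟨121, by norm_num, fun a b ha hab => ?_⟩
  rw [LL_eq]
  have hb : 2 ≤ b := ha.trans hab
  set A : ℕ := ⌊a⌋₊ with hA
  set B : ℕ := ⌊b⌋₊ with hB
  have hA2 : 2 ≤ A := Nat.le_floor (by simpa using ha)
  have hAB : A ≤ B := Nat.floor_mono hab
  set P : Finset ℕ := (Ioc A B).filter Nat.Prime with hP
  have h1 : |∑ p ∈ P, (1 : ℝ) / p - Real.log (Real.log b / Real.log a)| ≤ 20 := by
    have h2 := MP_973905_nt.PrimeSum.range_bound a b ha hab
    have h3 : Real.log 2 ≤ Real.log a := Real.log_le_log (by norm_num) ha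
    have h4 := Real.log_two_gt_d9
    refine h2.trans ?_
    rw [div_le_iff₀ (by linarith)]
    linarith
  have h2 := sum_chp A B (by omega) hAB
  have h3 : |∑ p ∈ P, (1 + ch p) / p - Real.log (Real.log b / Real.log a)| ≤ 120 := by
    have h4 : ∑ p ∈ P, (1 + ch p) / p = ∑ p ∈ P, (1 : ℝ) / p + ∑ p ∈ P, ch p / p := by
      rw [← Finset.sum_add_distrib]
      refine Finset.sum_congr rfl fun p _ => ?_
      ring
    rw [h4]
    have h5 := abs_add_le (∑ p ∈ P, (1 : ℝ) / p - Real.log (Real.log b / Real.log a))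
      (∑ p ∈ P, ch p / p)
    rw [show ∑ p ∈ P, (1 : ℝ) / p - Real.log (Real.log b / Real.log a) + ∑ p ∈ P, ch p / p =
      ∑ p ∈ P, (1 : ℝ) / p + ∑ p ∈ P, ch p / p - Real.log (Real.log b / Real.log a) by ring] at h5
    linarith
  have h6 : ∑ p ∈ PR a b, (1 + ch p) / p ≤ ∑ p ∈ P, (1 + ch p) / p + 1 := by
    have h7 : PR a b ⊆ insert A P := by
      intro p hp
      rw [mem_PR] at hp
      rw [Finset.mem_insert, hP, Finset.mem_filter, Finset.mem_Ioc]
      have h8 : A ≤ p := by
        rw [hA]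
        exact Nat.floor_le_of_le hp.2.1
      have h9 : p ≤ B := Nat.le_floor hp.2.2.le
      rcases h8.eq_or_lt with h10 | h10
      · exact Or.inl h10.symm
      · exact Or.inr ⟨⟨h10, h9⟩, hp.1⟩
    have h8 : A ∉ P := by
      rw [hP, Finset.mem_filter, Finset.mem_Ioc]
      omega
    calc ∑ p ∈ PR a b, (1 + ch p) / p ≤ ∑ p ∈ insert A P, (1 + ch p) / p :=
          Finset.sum_le_sum_of_subset_of_nonneg h7 fun p _ _ => G_nonneg p
      _ = (1 + ch A) / A + ∑ p ∈ P, (1 + ch p) / p := Finset.sum_insert h8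
      _ ≤ _ := by linarith [G_one A hA2]
  have h7 : ∑ p ∈ P, (1 + ch p) / p ≤ ∑ p ∈ PR a b, (1 + ch p) / p + 1 := by
    have h8 : P ⊆ PR a b ∪ {B} := by
      intro p hp
      rw [hP, Finset.mem_filter, Finset.mem_Ioc] at hp
      rw [Finset.mem_union, Finset.mem_singleton, mem_PR]
      have h9 : a < p := (Nat.floor_lt (by linarith)).1 hp.1.1
      rcases hp.1.2.eq_or_lt with h10 | h10
      · exact Or.inr h10
      · left
        refine ⟨hp.2, h9.le, ?_⟩
        calc (p : ℝ) < B := by exact_mod_cast h10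
          _ ≤ b := Nat.floor_le (by linarith)
    calc ∑ p ∈ P, (1 + ch p) / p ≤ ∑ p ∈ PR a b ∪ {B}, (1 + ch p) / p :=
          Finset.sum_le_sum_of_subset_of_nonneg h8 fun p _ _ => G_nonneg p
      _ ≤ ∑ p ∈ PR a b, (1 + ch p) / p + ∑ p ∈ {B}, (1 + ch p) / p := by
          rw [← Finset.sum_union_inter]
          have : 0 ≤ ∑ p ∈ PR a b ∩ {B}, (1 + ch p) / p :=
            Finset.sum_nonneg fun p _ => G_nonneg p
          linarith
      _ ≤ _ := by
          rw [Finset.sum_singleton]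
          linarith [G_one B (hA2.trans hAB)]
  rw [abs_le] at h3 ⊢
  constructor <;> linarith [h3.1, h3.2]

end Pool.Agent.Lib.MP_a17b09_nt.MRS
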