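import Pool.Agent.Lib.MP_a17b09_nt.MRS.Stmts3

/-!
Project MRS: every class modulo `K` from the unit classes (helper68).
-/

set_option autoImplicit false

open Filter Topology Finset

namespace Pool.Agent.Lib.MP_a17b09_nt.MRS

namespace C68

/-! ### Functions small in mean square -/

/-- small in mean square over the frequencies `|j| ≤ N / H` -/
def Sml (F : ℝ → ℤ → ℂ) : Prop := ∀ ε : ℝ, 0 < ε → ∃ H0 : ℝ, 1 ≤ H0 ∧ ∀ H : ℝ, H0 ≤ H →
  ∃ N0 : ℝ, ∀ N : ℝ, N0 ≤ N → ∑ j ∈ js ⌊N / H⌋₊, ‖F N j‖ ^ 2 ≤ ε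

theorem sq_add (x y : ℂ) : ‖x + y‖ ^ 2 ≤ 2 * ‖x‖ ^ 2 + 2 * ‖y‖ ^ 2 := by
  have h := norm_add_le x y
  nlinarith [norm_nonneg x, norm_nonneg y, norm_nonneg (x + y), sq_nonneg (‖x‖ - ‖y‖)]

theorem Sml.add {F G : ℝ → ℤ → ℂ} (hF : Sml F) (hG : Sml G) : Sml (fun N j => F N j + G N j) := by
  intro ε hε
  obtain ⟨H1, h1, k1⟩ := hF (ε / 4) (by positivity)
  obtain ⟨H2, h2, k2⟩ := hG (ε / 4) (by positivity)
  refine ⟨max H1 H2, h1.trans (le_max_left _ _), fun H hH => ?_⟩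
  obtain ⟨N1, n1⟩ := k1 H ((le_max_left _ _).trans hH)
  obtain ⟨N2, n2⟩ := k2 H ((le_max_right _ _).trans hH)
  refine ⟨max N1 N2, fun N hN => ?_⟩
  have e1 := n1 N ((le_max_left _ _).trans hN)
  have e2 := n2 N ((le_max_right _ _).trans hN)
  have e3 : ∑ j ∈ js ⌊N / H⌋₊, ‖F N j + G N j‖ ^ 2 ≤
      ∑ j ∈ js ⌊N / H⌋₊, (2 * ‖F N j‖ ^ 2 + 2 * ‖G N j‖ ^ 2) :=
    Finset.sum_le_sum fun j _ => sq_add _ _
  rw [Finset.sum_add_distrib, ← Finset.mul_sum, ← Finset.mul_sum] at e3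
  linarith

theorem Sml.zero : Sml (fun _ _ => 0) := by
  intro ε hε
  refine ⟨1, le_rfl, fun H _ => ⟨0, fun N _ => ?_⟩⟩
  simp [hε.le]

theorem Sml.sum {ι : Type*} (T : Finset ι) (F : ι → ℝ → ℤ → ℂ) (h : ∀ t ∈ T, Sml (F t)) :
    Sml (fun N j => ∑ t ∈ T, F t N j) := by
  classical
  induction T using Finset.induction_on with
  | empty => simpa using Sml.zero
  | insert a T ha ih =>
    simp only [Finset.sum_insert ha]
    exact (h a (Finset.mem_insert_self _ _)).add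
      (ih fun t ht => h t (Finset.mem_insert_of_mem ht))

theorem Sml.approx {F : ℝ → ℤ → ℂ} (h : ∀ ε : ℝ, 0 < ε → ∃ G : ℝ → ℤ → ℂ, Sml G ∧ ∃ N1 : ℝ,
    ∀ N : ℝ, N1 ≤ N → ∀ J : ℕ, (J : ℝ) ≤ N → ∑ j ∈ js J, ‖F N j - G N j‖ ^ 2 ≤ ε) : Sml F := by
  intro ε hε
  obtain ⟨G, hG, N1, hN1⟩ := h (ε / 4) (by positivity)
  obtain ⟨H1, h1, k1⟩ := hG (ε / 4) (by positivity)
  refine ⟨H1, h1, fun H hH => ?_⟩
  obtain ⟨N2, n2⟩ := k1 H hH
  refine ⟨max 0 (max N1 N2), fun N hN => ?_⟩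
  have hN0 : 0 ≤ N := (le_max_left _ _).trans hN
  have hN' := (le_max_right _ _).trans hN
  have e2 := n2 N ((le_max_right _ _).trans hN')
  have e1 := hN1 N ((le_max_left _ _).trans hN') ⌊N / H⌋₊ (by
    refine (Nat.floor_le (div_nonneg hN0 (by linarith))).trans ?_
    exact div_le_self hN0 (h1.trans hH))
  have e3 : ∑ j ∈ js ⌊N / H⌋₊, ‖F N j‖ ^ 2 ≤
      ∑ j ∈ js ⌊N / H⌋₊, (2 * ‖F N j - G N j‖ ^ 2 + 2 * ‖G N j‖ ^ 2) :=
    Finset.sum_le_sum fun j _ => by
      have := sq_add (F N j - G N j) (G N j)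
      rwa [sub_add_cancel] at this
  rw [Finset.sum_add_distrib, ← Finset.mul_sum, ← Finset.mul_sum] at e3
  linarith

theorem Sml.dil {F : ℝ → ℤ → ℂ} (hF : Sml F) {m : ℝ} (hm : 1 ≤ m) (c : ℤ → ℂ)
    (hc : ∀ j, ‖c j‖ ≤ 1) : Sml (fun N j => c j * F (N / m) j) := by
  intro ε hε
  obtain ⟨H1, h1, k1⟩ := hF ε hε
  have hm0 : 0 < m := by linarith
  refine ⟨H1 * m, by nlinarith, fun H hH => ?_⟩
  obtain ⟨N2, n2⟩ := k1 (H / m) (by rwa [le_div_iff₀ hm0])
  refine ⟨N2 * m, fun N hN => ?_⟩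
  have e2 := n2 (N / m) (by rwa [le_div_iff₀ hm0])
  have e4 : N / m / (H / m) = N / H := by field_simp
  rw [e4] at e2
  refine le_trans (Finset.sum_le_sum fun j _ => ?_) e2
  rw [norm_mul]
  refine pow_le_pow_left₀ (by positivity) ?_ 2
  exact mul_le_of_le_one_left (norm_nonneg _) (hc j)

/-! ### Residues -/

/-- representatives of the classes -/
noncomputable def RR (K : ℕ) : Finset GaussianInt :=
  (Finset.Ico (0 : ℤ) K ×ˢ Finset.Ico (0 : ℤ) K).image (fun p : ℤ × ℤ => (⟨p.1, p.2⟩ : GaussianInt))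

/-- the representative of the class of `v` -/
def cl (K : ℕ) (v : GaussianInt) : GaussianInt := ⟨v.re % K, v.im % K⟩

theorem dvd_iff (K : ℕ) (v : GaussianInt) :
    (K : GaussianInt) ∣ v ↔ (K : ℤ) ∣ v.re ∧ (K : ℤ) ∣ v.im := by
  have h := Zsqrtd.intCast_dvd (K : ℤ) v
  rwa [Int.cast_natCast] at h

theorem cl_mem {K : ℕ} (hK : 0 < K) (v : GaussianInt) : cl K v ∈ RR K := by
  have hK' : (0 : ℤ) < K := by exact_mod_cast hK
  unfold RR cl
  rw [Finset.mem_image]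
  refine ⟨(v.re % K, v.im % K), ?_, rfl⟩
  rw [Finset.mem_product, Finset.mem_Ico, Finset.mem_Ico]
  exact ⟨⟨Int.emod_nonneg _ hK'.ne', Int.emod_lt_of_pos _ hK'⟩,
    ⟨Int.emod_nonneg _ hK'.ne', Int.emod_lt_of_pos _ hK'⟩⟩

theorem cl_dvd (K : ℕ) (v : GaussianInt) : (K : GaussianInt) ∣ v - cl K v := by
  rw [dvd_iff]
  unfold cl
  rw [Zsqrtd.re_sub, Zsqrtd.im_sub]
  exact ⟨Int.dvd_self_sub_emod, Int.dvd_self_sub_emod⟩

theorem cl_uniq {K : ℕ} {v a : GaussianInt} (ha : a ∈ RR K) :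
    cl K v = a ↔ (K : GaussianInt) ∣ v - a := by
  constructor
  · rintro rfl
    exact cl_dvd K v
  · intro h
    unfold RR at ha
    rw [Finset.mem_image] at ha
    obtain ⟨p, hp, rfl⟩ := ha
    rw [Finset.mem_product, Finset.mem_Ico, Finset.mem_Ico] at hp
    rw [dvd_iff, Zsqrtd.re_sub, Zsqrtd.im_sub] at h
    unfold cl
    have e1 : v.re % K = p.1 := by
      have h4 : v.re % K = p.1 % K :=
        Int.emod_eq_emod_iff_emod_sub_eq_zero.2 (Int.emod_eq_zero_of_dvd h.1)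
      rw [h4]
      exact Int.emod_eq_of_lt hp.1.1 hp.1.2
    have e2 : v.im % K = p.2 := by
      have h4 : v.im % K = p.2 % K :=
        Int.emod_eq_emod_iff_emod_sub_eq_zero.2 (Int.emod_eq_zero_of_dvd h.2)
      rw [h4]
      exact Int.emod_eq_of_lt hp.2.1 hp.2.2
    exact Zsqrtd.ext e1 e2

/-! ### Primitive vectors -/

theorem pv_iff (v : GaussianInt) : Pv v ↔ ∀ p : ℕ, p.Prime → ¬ (p : GaussianInt) ∣ v := by
  unfold Pv
  constructor
  · intro h p hp hd
    rw [dvd_iff] at hd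
    have := Int.dvd_coe_gcd hd.1 hd.2
    rw [h] at this
    have h2 : p ∣ 1 := by exact_mod_cast this
    exact hp.one_lt.ne' (Nat.dvd_one.1 h2)
  · intro h
    by_contra hne
    obtain ⟨p, hp, hd⟩ := Nat.exists_prime_and_dvd hne
    refine h p hp ?_
    rw [dvd_iff]
    exact ⟨(Int.natCast_dvd_natCast.2 hd).trans (Int.gcd_dvd_left _ _),
      (Int.natCast_dvd_natCast.2 hd).trans (Int.gcd_dvd_right _ _)⟩

theorem pv_of_mul {g w : GaussianInt} (h : Pv (g * w)) : Pv g := by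
  rw [pv_iff] at h ⊢
  exact fun p hp hd => h p hp (hd.mul_right w)

theorem pv_mul {K : ℕ} {g w : GaussianInt} (hg : g ∣ (K : GaussianInt))
    (hw : IsCoprime w (K : GaussianInt)) (hP : Pv g) : Pv (g * w) ↔ Pv w := by
  rw [pv_iff] at hP
  rw [pv_iff, pv_iff]
  constructor
  · intro h p hp hd
    exact h p hp (hd.mul_left g)
  · intro h p hp hd
    by_cases hpK : p ∣ K
    · have h1 : (p : GaussianInt) ∣ (K : GaussianInt) :=
        map_dvd (Nat.castRingHom GaussianInt) hpK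
      have h2 : IsCoprime (p : GaussianInt) w := (hw.of_isCoprime_of_dvd_right h1).symm
      exact hP p hp (h2.dvd_of_dvd_mul_right hd)
    · have h1 : IsCoprime (p : GaussianInt) (K : GaussianInt) := by
        have h3 : Nat.Coprime p K := (Nat.Prime.coprime_iff_not_dvd hp).2 hpK
        exact h3.cast
      have h2 : IsCoprime (p : GaussianInt) g := h1.of_isCoprime_of_dvd_right hg
      exact h p hp (h2.dvd_of_dvd_mul_left hd)

/-! ### Counting -/

theorem card_Sh {X : ℝ} (hX : 0 ≤ X) : ((Sh 0 X).card : ℝ) ≤ 9 * X := by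
  rcases lt_or_ge X 1 with h1 | h1
  · have : Sh 0 X = ∅ := by
      apply Finset.eq_empty_of_forall_notMem
      intro v hv
      rw [mem_Sh] at hv
      have h2 : 1 ≤ nm v := Nat.one_le_iff_ne_zero.2 (mt nm_eq_zero.1 hv.1)
      have h3 : (1 : ℝ) ≤ nm v := by exact_mod_cast h2
      linarith [hv.2.2]
    rw [this]
    simpa using hX
  · set s : ℕ := ⌊√X⌋₊ with hs
    have hs1 : 1 ≤ s := by
      rw [hs, Nat.one_le_floor_iff]
      exact Real.one_le_sqrt.2 h1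
    have hs2 : (s : ℝ) ≤ √X := Nat.floor_le (Real.sqrt_nonneg _)
    have key : ∀ t : ℤ, (t : ℝ) ^ 2 ≤ X → t ∈ Finset.Icc (-(s : ℤ)) s := by
      intro t ht
      have h3 : |(t : ℝ)| ≤ √X := Real.abs_le_sqrt ht
      have h4 : ((t.natAbs : ℕ) : ℝ) ≤ √X := by
        rw [Nat.cast_natAbs]
        push_cast
        exact h3
      have h5 : t.natAbs ≤ s := Nat.le_floor h4
      rw [Finset.mem_Icc]
      omega
    have h6 : (Sh 0 X).card ≤ (Finset.Icc (-(s : ℤ)) s ×ˢ Finset.Icc (-(s : ℤ)) s).card := by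
      refine Finset.card_le_card_of_injOn (fun v => (v.re, v.im)) ?_ ?_
      · intro v hv
        rw [Finset.mem_coe, mem_Sh] at hv
        have h7 := nm_eq v
        have h8 := hv.2.2
        rw [Finset.mem_coe, Finset.mem_product]
        exact ⟨key _ (by nlinarith [sq_nonneg (v.im : ℝ)]), key _ (by nlinarith [sq_nonneg (v.re : ℝ)])⟩
      · intro v _ w _ h
        simp only [Prod.mk.injEq] at h
        exact Zsqrtd.ext h.1 h.2
    rw [Finset.card_product, Int.card_Icc] at h6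
    have h7 : ((s : ℤ) + 1 - -(s : ℤ)).toNat = 2 * s + 1 := by omega
    rw [h7] at h6
    have h8 : ((Sh 0 X).card : ℝ) ≤ (2 * s + 1) * (2 * s + 1) := by exact_mod_cast h6
    have h9 : (1 : ℝ) ≤ s := by exact_mod_cast hs1
    have h10 : (s : ℝ) ^ 2 ≤ X := by
      have := pow_le_pow_left₀ (by positivity) hs2 2
      rwa [Real.sq_sqrt hX] at this
    nlinarith

/-- multiples of `g` in a shell -/
theorem mem_mul {a b : ℝ} {g w : GaussianInt} (hg : g ≠ 0) :
    g * w ∈ Sh a b ↔ w ∈ Sh (a / nm g) (b / nm g) := by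
  have h0 : (0 : ℝ) < nm g := by
    have : 0 < nm g := Nat.pos_of_ne_zero (mt nm_eq_zero.1 hg)
    exact_mod_cast this
  rw [mem_Sh, mem_Sh, nm_mul, div_lt_iff₀ h0, le_div_iff₀ h0]
  push_cast
  constructor
  · rintro ⟨h1, h2, h3⟩
    exact ⟨right_ne_zero_of_mul h1, by rwa [mul_comm], by rwa [mul_comm]⟩
  · rintro ⟨h1, h2, h3⟩
    exact ⟨mul_ne_zero hg h1, by rwa [mul_comm], by rwa [mul_comm]⟩

open Classical in
theorem card_dvd {a b : ℝ} (ha : 0 ≤ a) (hb : 0 ≤ b) {g : GaussianInt} (hg : g ≠ 0) :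
    (((Sh a b).filter (fun v => g ∣ v)).card : ℝ) ≤ 9 * (b / nm g) := by
  have h0 : (0 : ℝ) < nm g := by
    have : 0 < nm g := Nat.pos_of_ne_zero (mt nm_eq_zero.1 hg)
    exact_mod_cast this
  refine le_trans ?_ (card_Sh (by positivity))
  have h1 : (Sh a b).filter (fun v => g ∣ v) ⊆ (Sh 0 (b / nm g)).image (fun w => g * w) := by
    intro v hv
    rw [Finset.mem_filter] at hv
    obtain ⟨h2, w, rfl⟩ := hv
    rw [Finset.mem_image]
    refine ⟨w, ?_, rfl⟩
    rw [mem_mul hg, mem_Sh] at h2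
    rw [mem_Sh]
    exact ⟨h2.1, lt_of_le_of_lt (by positivity) h2.2.1, h2.2.2⟩
  exact_mod_cast (Finset.card_le_card h1).trans Finset.card_image_le

/-! ### Good classes -/

/-- no high prime power divides `v`, primes dividing `K` -/
def Good (K M : ℕ) (v : GaussianInt) : Prop :=
  ∀ π : GaussianInt, Prime π → π ∣ (K : GaussianInt) → ¬ π ^ (M + 1) ∣ v

theorem cop {K M : ℕ} (hK : 0 < K) {a b : GaussianInt} (hG : Good K M a)
    (hb : ((K ^ (M + 1) : ℕ) : GaussianInt) ∣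
      EuclideanDomain.gcd a ((K ^ (M + 1) : ℕ) : GaussianInt) * b - a) :
    IsCoprime b ((K ^ (M + 1) : ℕ) : GaussianInt) := by
  have hK0 : ((K ^ (M + 1) : ℕ) : GaussianInt) ≠ 0 := by
    have : K ^ (M + 1) ≠ 0 := pow_ne_zero _ hK.ne'
    exact_mod_cast this
  refine isCoprime_of_prime_dvd (fun h => hK0 h.2) fun π hπ h1 h2 => ?_
  set g := EuclideanDomain.gcd a ((K ^ (M + 1) : ℕ) : GaussianInt) with hg
  have hga : g ∣ a := EuclideanDomain.gcd_dvd_left _ _
  have hgK : g ∣ ((K ^ (M + 1) : ℕ) : GaussianInt) := EuclideanDomain.gcd_dvd_right _ _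
  have h3 : π ∣ (K : GaussianInt) := by
    push_cast at h2
    exact hπ.dvd_of_dvd_pow h2
  obtain ⟨h, hh⟩ := hgK
  have hg0 : g ≠ 0 := by
    intro h0
    rw [h0, zero_mul] at hh
    exact hK0 hh
  have h4 : π ∣ h := by
    by_contra hne
    have h5 : π ^ (M + 1) ∣ g * h := by
      rw [← hh]
      push_cast
      exact pow_dvd_pow_of_dvd h3 _
    exact hG π hπ h3 ((hπ.pow_dvd_of_dvd_mul_right _ hne h5).trans hga)
  have h5 : π * g ∣ ((K ^ (M + 1) : ℕ) : GaussianInt) := by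
    rw [hh, mul_comm g h]
    exact mul_dvd_mul_right h4 g
  have h6 : π * g ∣ a := by
    have h7 : π * g ∣ g * b := by
      rw [mul_comm g b]
      exact mul_dvd_mul_right h1 g
    exact (dvd_sub_right h7).1 (h5.trans hb)
  have h7 : π * g ∣ g := EuclideanDomain.dvd_gcd h6 h5
  obtain ⟨s, hs⟩ := h7
  have h8 : π * s = 1 := by
    apply mul_left_cancel₀ hg0
    rw [mul_one, ← mul_assoc, mul_comm g π]
    exact hs.symm
  exact hπ.not_isUnit (IsUnit.of_mul_eq_one _ h8)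

open Classical in
/-- the sums of the statement -/
noncomputable def AA (z : ℂ) (K : ℕ) (a : GaussianInt) (r1 r2 N : ℝ) (j : ℤ) : ℂ :=
  (1 / (N : ℂ)) * ∑ v ∈ (Sh (r1 * N) (r2 * N)).filter (fun v => Pv v ∧
    (K : GaussianInt) ∣ v - a), z ^ (ArithmeticFunction.cardFactors (nm v)) * ag v ^ j

theorem nm_pow (v : GaussianInt) (n : ℕ) : nm (v ^ n) = nm v ^ n := by
  induction n with
  | zero => simp [nm]
  | succ n ih => rw [pow_succ, nm_mul, ih, pow_succ]

theorem two_le_nm {π : GaussianInt} (hπ : Prime π) : 2 ≤ nm π := by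
  have h1 : nm π ≠ 0 := mt nm_eq_zero.1 hπ.ne_zero
  have h2 : nm π ≠ 1 := fun h => hπ.not_isUnit (Zsqrtd.norm_eq_one_iff.1 h)
  omega

theorem nm_nat (K : ℕ) : nm (K : GaussianInt) = K ^ 2 := by
  unfold nm
  rw [Zsqrtd.norm_natCast]
  have : ((K : ℤ) * K) = ((K ^ 2 : ℕ) : ℤ) := by push_cast; ring
  rw [this, Int.natAbs_natCast]

theorem good_congr {K M : ℕ} {v w : GaussianInt}
    (h : ((K ^ (M + 1) : ℕ) : GaussianInt) ∣ v - w) : Good K M v ↔ Good K M w := by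
  have key : ∀ π : GaussianInt, π ∣ (K : GaussianInt) → (π ^ (M + 1) ∣ v ↔ π ^ (M + 1) ∣ w) := by
    intro π hπ
    have h1 : π ^ (M + 1) ∣ v - w := by
      refine dvd_trans ?_ h
      push_cast
      exact pow_dvd_pow_of_dvd hπ _
    exact ⟨fun h2 => (dvd_sub_right h2).1 h1, fun h2 => (dvd_sub_left h2).1 h1⟩
  constructor
  · intro hv π hπ hd hp
    exact hv π hπ hd ((key π hd).2 hp)
  · intro hv π hπ hd hp
    exact hv π hπ hd ((key π hd).1 hp)

open Classical in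
/-- the good part is a sum over good classes modulo `K ^ (M + 1)` -/
theorem split (z : ℂ) {K : ℕ} (hK : 0 < K) (M : ℕ) (a : GaussianInt) (r1 r2 N : ℝ) (j : ℤ) :
    (1 / (N : ℂ)) * ∑ v ∈ (Sh (r1 * N) (r2 * N)).filter (fun v => (Pv v ∧
      (K : GaussianInt) ∣ v - a) ∧ Good K M v),
      z ^ (ArithmeticFunction.cardFactors (nm v)) * ag v ^ j =
    ∑ a' ∈ (RR (K ^ (M + 1))).filter (fun a' => (K : GaussianInt) ∣ a' - a ∧ Good K M a'),
      AA z (K ^ (M + 1)) a' r1 r2 N j := by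
  have hK' : 0 < K ^ (M + 1) := pow_pos hK _
  have hKK : (K : GaussianInt) ∣ ((K ^ (M + 1) : ℕ) : GaussianInt) :=
    map_dvd (Nat.castRingHom GaussianInt) (dvd_pow_self K (Nat.succ_ne_zero M))
  have h0 : ∀ v w : GaussianInt, ((K ^ (M + 1) : ℕ) : GaussianInt) ∣ v - w →
      ((K : GaussianInt) ∣ v - a ↔ (K : GaussianInt) ∣ w - a) := by
    intro v w h
    have h1 := hKK.trans h
    have e : v - a = (v - w) + (w - a) := by ring
    rw [e]
    exact dvd_add_right h1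
  unfold AA
  rw [← Finset.mul_sum]
  congr 1
  rw [← Finset.sum_fiberwise_of_maps_to (g := cl (K ^ (M + 1)))
    (t := (RR (K ^ (M + 1))).filter (fun a' => (K : GaussianInt) ∣ a' - a ∧ Good K M a'))]
  · refine Finset.sum_congr rfl fun a' ha' => ?_
    rw [Finset.mem_filter] at ha'
    refine Finset.sum_congr ?_ fun _ _ => rfl
    ext v
    simp only [Finset.mem_filter]
    rw [cl_uniq ha'.1]
    constructor
    · rintro ⟨⟨h1, ⟨h2, h3⟩, h4⟩, h5⟩
      exact ⟨h1, h2, h5⟩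
    · rintro ⟨h1, h2, h5⟩
      exact ⟨⟨h1, ⟨h2, (h0 _ _ h5).2 ha'.2.1⟩, (good_congr h5).2 ha'.2.2⟩, h5⟩
  · intro v hv
    rw [Finset.mem_filter] at hv
    rw [Finset.mem_filter]
    have h5 := cl_dvd (K ^ (M + 1)) v
    exact ⟨cl_mem hK' v, (h0 _ _ h5).1 hv.2.1.2, (good_congr h5).1 hv.2.2⟩

open Classical in
/-- one good class: divide by the gcd -/
theorem divide (z : ℂ) {K : ℕ} (hK : 0 < K) {M : ℕ} {a : GaussianInt} (hG : Good K M a)
    (hP : Pv (EuclideanDomain.gcd a ((K ^ (M + 1) : ℕ) : GaussianInt)))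
    (r1 r2 N : ℝ) (j : ℤ) :
    AA z (K ^ (M + 1)) a r1 r2 N j =
    ∑ b ∈ (RR (K ^ (M + 1))).filter (fun b => ((K ^ (M + 1) : ℕ) : GaussianInt) ∣
      EuclideanDomain.gcd a ((K ^ (M + 1) : ℕ) : GaussianInt) * b - a),
      (z ^ (ArithmeticFunction.cardFactors
        (nm (EuclideanDomain.gcd a ((K ^ (M + 1) : ℕ) : GaussianInt)))) *
        ag (EuclideanDomain.gcd a ((K ^ (M + 1) : ℕ) : GaussianInt)) ^ j *
        (1 / (nm (EuclideanDomain.gcd a ((K ^ (M + 1) : ℕ) : GaussianInt)) : ℂ))) *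
      AA z (K ^ (M + 1)) b r1 r2
        (N / nm (EuclideanDomain.gcd a ((K ^ (M + 1) : ℕ) : GaussianInt))) j := by
  have hK' : 0 < K ^ (M + 1) := pow_pos hK _
  have hK0 : ((K ^ (M + 1) : ℕ) : GaussianInt) ≠ 0 := by
    have : K ^ (M + 1) ≠ 0 := hK'.ne'
    exact_mod_cast this
  have hcop := fun b => cop (b := b) hK hG
  have hga : EuclideanDomain.gcd a ((K ^ (M + 1) : ℕ) : GaussianInt) ∣ a :=
    EuclideanDomain.gcd_dvd_left _ _
  have hgK : EuclideanDomain.gcd a ((K ^ (M + 1) : ℕ) : GaussianInt) ∣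
      ((K ^ (M + 1) : ℕ) : GaussianInt) := EuclideanDomain.gcd_dvd_right _ _
  generalize EuclideanDomain.gcd a ((K ^ (M + 1) : ℕ) : GaussianInt) = g at *
  generalize K ^ (M + 1) = L at *
  have hg0 : g ≠ 0 := by
    rintro rfl
    exact hK0 (zero_dvd_iff.1 hgK)
  have hn0 : nm g ≠ 0 := mt nm_eq_zero.1 hg0
  have hn0' : (nm g : ℂ) ≠ 0 := by exact_mod_cast hn0
  unfold AA
  have e1 : (Sh (r1 * N) (r2 * N)).filter (fun v => Pv v ∧ (L : GaussianInt) ∣ v - a) =
      ((Sh (r1 * (N / nm g)) (r2 * (N / nm g))).filter (fun w => Pv w ∧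
        (L : GaussianInt) ∣ g * w - a)).image (fun w => g * w) := by
    ext v
    simp only [Finset.mem_filter, Finset.mem_image]
    rw [← mul_div_assoc, ← mul_div_assoc]
    constructor
    · rintro ⟨h1, h2, h3⟩
      have h4 : g ∣ v := by
        have h5 := hgK.trans h3
        exact (dvd_sub_left hga).1 h5
      obtain ⟨w, rfl⟩ := h4
      refine ⟨w, ⟨(mem_mul hg0).1 h1, ?_, h3⟩, rfl⟩
      exact (pv_mul hgK (hcop w h3) hP).1 h2
    · rintro ⟨w, ⟨h1, h2, h3⟩, rfl⟩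
      exact ⟨(mem_mul hg0).2 h1, (pv_mul hgK (hcop w h3) hP).2 h2, h3⟩
  rw [e1, Finset.sum_image (fun x _ y _ h => mul_left_cancel₀ hg0 h)]
  rw [← Finset.sum_fiberwise_of_maps_to (g := cl L)
    (t := (RR L).filter (fun b => (L : GaussianInt) ∣ g * b - a)), Finset.mul_sum]
  · refine Finset.sum_congr rfl fun b hb => ?_
    rw [Finset.mem_filter] at hb
    have e2 : ((Sh (r1 * (N / nm g)) (r2 * (N / nm g))).filter (fun w => Pv w ∧
        (L : GaussianInt) ∣ g * w - a)).filter (fun w => cl L w = b) =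
        (Sh (r1 * (N / nm g)) (r2 * (N / nm g))).filter (fun v => Pv v ∧
          (L : GaussianInt) ∣ v - b) := by
      ext w
      simp only [Finset.mem_filter]
      rw [cl_uniq hb.1]
      constructor
      · rintro ⟨⟨h1, h2, h3⟩, h4⟩
        exact ⟨h1, h2, h4⟩
      · rintro ⟨h1, h2, h4⟩
        refine ⟨⟨h1, h2, ?_⟩, h4⟩
        have e : g * w - a = g * (w - b) + (g * b - a) := by ring
        rw [e]
        exact dvd_add (h4.mul_left g) hb.2
    rw [e2]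
    have e3 : ∀ w ∈ (Sh (r1 * (N / nm g)) (r2 * (N / nm g))).filter (fun v => Pv v ∧
          (L : GaussianInt) ∣ v - b),
        z ^ (ArithmeticFunction.cardFactors (nm (g * w))) * ag (g * w) ^ j =
        (z ^ (ArithmeticFunction.cardFactors (nm g)) * ag g ^ j) *
          (z ^ (ArithmeticFunction.cardFactors (nm w)) * ag w ^ j) := by
      intro w hw
      rw [Finset.mem_filter, mem_Sh] at hw
      rw [nm_mul, ArithmeticFunction.cardFactors_mul hn0 (mt nm_eq_zero.1 hw.1.1), ag_mul,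
        mul_zpow, pow_add]
      ring
    rw [Finset.sum_congr rfl e3, ← Finset.mul_sum]
    push_cast
    field_simp
  · intro w hw
    rw [Finset.mem_filter] at hw
    rw [Finset.mem_filter]
    refine ⟨cl_mem hK' w, ?_⟩
    have h5 := cl_dvd L w
    have e : g * cl L w - a = (g * w - a) - g * (w - cl L w) := by ring
    rw [e]
    exact dvd_sub hw.2.2 (h5.mul_left g)

open Classical in
/-- a good class is small -/
theorem good_small (hU : StUnitCl) {z : ℂ} {k K : ℕ} (hk : 0 < k) (hz : z ^ k = 1) (hz1 : z ≠ 1)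
    (hK : 0 < K) {M : ℕ} {a : GaussianInt} (hG : Good K M a) {r1 r2 : ℝ} (h1 : 0 < r1)
    (h2 : r1 < r2) : Sml (AA z (K ^ (M + 1)) a r1 r2) := by
  have hK' : 0 < K ^ (M + 1) := pow_pos hK _
  by_cases hP : Pv (EuclideanDomain.gcd a ((K ^ (M + 1) : ℕ) : GaussianInt))
  · have e := fun N j => divide z hK hG hP r1 r2 N j
    have e' : AA z (K ^ (M + 1)) a r1 r2 = fun N j => _ := funext fun N => funext fun j => e N j
    rw [e']
    refine Sml.sum _ _ fun b hb => ?_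
    rw [Finset.mem_filter] at hb
    have hcop := cop hK hG hb.2
    have hb1 : Sml (AA z (K ^ (M + 1)) b r1 r2) := hU z k _ hk hz hz1 hK' b hcop r1 r2 h1 h2
    have hg0 : EuclideanDomain.gcd a ((K ^ (M + 1) : ℕ) : GaussianInt) ≠ 0 := by
      intro h0
      have h3 := EuclideanDomain.gcd_dvd_right a ((K ^ (M + 1) : ℕ) : GaussianInt)
      rw [h0] at h3
      have h4 := zero_dvd_iff.1 h3
      have h5 : K ^ (M + 1) ≠ 0 := hK'.ne'
      exact h5 (by exact_mod_cast h4)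
    have hn0 : 0 < nm (EuclideanDomain.gcd a ((K ^ (M + 1) : ℕ) : GaussianInt)) :=
      Nat.pos_of_ne_zero (mt nm_eq_zero.1 hg0)
    have hn1 : (1 : ℝ) ≤ nm (EuclideanDomain.gcd a ((K ^ (M + 1) : ℕ) : GaussianInt)) := by
      exact_mod_cast hn0
    refine hb1.dil hn1 _ fun j => ?_
    rw [norm_mul, norm_mul, norm_pow, norm_zpow, norm_ag hg0, Complex.norm_eq_one_of_pow_eq_one hz
      hk.ne', one_pow, one_zpow, one_mul, one_mul, norm_div, norm_one, Complex.norm_natCast]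
    exact div_le_one_of_le₀ hn1 (by positivity)
  · have e' : AA z (K ^ (M + 1)) a r1 r2 = fun _ _ => 0 := by
      funext N j
      unfold AA
      have : (Sh (r1 * N) (r2 * N)).filter (fun v => Pv v ∧
          ((K ^ (M + 1) : ℕ) : GaussianInt) ∣ v - a) = ∅ := by
        apply Finset.eq_empty_of_forall_notMem
        intro v hv
        rw [Finset.mem_filter] at hv
        have h5 := (EuclideanDomain.gcd_dvd_right a
          ((K ^ (M + 1) : ℕ) : GaussianInt)).trans hv.2.2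
        obtain ⟨w, hw⟩ := (dvd_sub_left (EuclideanDomain.gcd_dvd_left a _)).1 h5
        rw [hw] at hv
        exact hP (pv_of_mul hv.2.1)
      rw [this, Finset.sum_empty, mul_zero]
    rw [e']
    exact Sml.zero

open Classical in
/-- the number of bad vectors -/
theorem card_bad {K : ℕ} (hK : 0 < K) (M : ℕ) {a b : ℝ} (ha : 0 ≤ a) (hb : 0 ≤ b)
    (P : GaussianInt → Prop) :
    (((Sh a b).filter (fun v => P v ∧ ¬ Good K M v)).card : ℝ) ≤
      ((Sh 0 ((K : ℝ) ^ 2)).card : ℝ) * (9 * (b / 2 ^ (M + 1))) := by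
  have h1 : (Sh a b).filter (fun v => P v ∧ ¬ Good K M v) ⊆
      ((Sh 0 ((K : ℝ) ^ 2)).filter (fun π => Prime π)).biUnion
        (fun π => (Sh a b).filter (fun v => π ^ (M + 1) ∣ v)) := by
    intro v hv
    rw [Finset.mem_filter] at hv
    unfold Good at hv
    push Not at hv
    obtain ⟨h3, -, π, hπ, hd, hp⟩ := hv
    rw [Finset.mem_biUnion]
    refine ⟨π, ?_, by rw [Finset.mem_filter]; exact ⟨h3, hp⟩⟩
    rw [Finset.mem_filter, mem_Sh]
    refine ⟨⟨hπ.ne_zero, ?_, ?_⟩, hπ⟩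
    · have := two_le_nm hπ
      exact_mod_cast (by omega : 0 < nm π)
    · obtain ⟨w, hw⟩ := hd
      have h4 := nm_nat K
      rw [hw, nm_mul] at h4
      have h5 : nm π ≤ K ^ 2 := Nat.le_of_dvd (pow_pos hK 2) (Dvd.intro _ h4)
      exact_mod_cast h5
  have h2 : (((Sh a b).filter (fun v => P v ∧ ¬ Good K M v)).card : ℝ) ≤
      ∑ π ∈ (Sh 0 ((K : ℝ) ^ 2)).filter (fun π => Prime π),
        (((Sh a b).filter (fun v => π ^ (M + 1) ∣ v)).card : ℝ) := by
    exact_mod_cast (Finset.card_le_card h1).trans Finset.card_biUnion_le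
  refine h2.trans ?_
  have h3 : ∀ π ∈ (Sh 0 ((K : ℝ) ^ 2)).filter (fun π => Prime π),
      (((Sh a b).filter (fun v => π ^ (M + 1) ∣ v)).card : ℝ) ≤ 9 * (b / 2 ^ (M + 1)) := by
    intro π hπ
    rw [Finset.mem_filter] at hπ
    refine (card_dvd ha hb (pow_ne_zero _ hπ.2.ne_zero)).trans ?_
    refine mul_le_mul_of_nonneg_left ?_ (by norm_num)
    refine div_le_div_of_nonneg_left hb (by positivity) ?_
    rw [nm_pow]
    push_cast
    refine pow_le_pow_left₀ (by norm_num) ?_ _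
    exact_mod_cast two_le_nm hπ.2
  refine (Finset.sum_le_sum h3).trans ?_
  rw [Finset.sum_const, nsmul_eq_mul]
  refine mul_le_mul_of_nonneg_right ?_ (by positivity)
  exact_mod_cast Finset.card_filter_le _ _

open Classical in
/-- the difference is the sum over the bad vectors -/
theorem diff (z : ℂ) {K : ℕ} (hK : 0 < K) (M : ℕ) (a : GaussianInt) (r1 r2 N : ℝ) (j : ℤ) :
    AA z K a r1 r2 N j - ∑ a' ∈ (RR (K ^ (M + 1))).filter
      (fun a' => (K : GaussianInt) ∣ a' - a ∧ Good K M a'), AA z (K ^ (M + 1)) a' r1 r2 N j =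
      (1 / (N : ℂ)) * ∑ v ∈ (Sh (r1 * N) (r2 * N)).filter (fun v => (Pv v ∧
        (K : GaussianInt) ∣ v - a) ∧ ¬ Good K M v),
        z ^ (ArithmeticFunction.cardFactors (nm v)) * ag v ^ j := by
  rw [← split z hK M a r1 r2 N j]
  unfold AA
  rw [← mul_sub]
  congr 1
  have hS := Finset.sum_filter_add_sum_filter_not ((Sh (r1 * N) (r2 * N)).filter
    (fun v => Pv v ∧ (K : GaussianInt) ∣ v - a)) (fun v => Good K M v)
    (fun v => z ^ (ArithmeticFunction.cardFactors (nm v)) * ag v ^ j)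
  rw [Finset.filter_filter, Finset.filter_filter] at hS
  rw [← hS]
  ring

open Classical in
/-- the bad vectors in mean square -/
theorem bad_le (hL : StLsp) {z : ℂ} (hz : ‖z‖ = 1) {K : ℕ} (hK : 0 < K) {r1 r2 : ℝ} (h1 : 0 < r1)
    (h2 : r1 < r2) : ∃ D : ℝ, 0 ≤ D ∧ ∀ (M : ℕ) (P : GaussianInt → Prop) (N : ℝ), 1 ≤ N →
    1 ≤ r2 * N → (∀ v, P v → Pv v) → ∀ J : ℕ, (J : ℝ) ≤ N →
    ∑ j ∈ js J, ‖(1 / (N : ℂ)) * ∑ v ∈ (Sh (r1 * N) (r2 * N)).filter (fun v => P v ∧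
      ¬ Good K M v), z ^ (ArithmeticFunction.cardFactors (nm v)) * ag v ^ j‖ ^ 2 ≤
      D * (1 / 2) ^ M := by
  obtain ⟨C, hC, hL⟩ := hL
  have hr2 : 0 < r2 := h1.trans h2
  refine ⟨C * (r2 + 1) * ((Sh 0 ((K : ℝ) ^ 2)).card * (9 * r2)), by positivity,
    fun M P N hN1 hN2 hP J hJ => ?_⟩
  have hN0 : 0 < N := by linarith
  have e5 := card_bad hK M (a := r1 * N) (b := r2 * N) (by positivity) (by positivity) P
  have e3 := hL (r2 * N) J hN2 ((Sh (r1 * N) (r2 * N)).filter (fun v => P v ∧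
      ¬ Good K M v)) (fun v hv => by
    rw [Finset.mem_filter, mem_Sh] at hv
    exact ⟨hP v hv.2.1, hv.1.2.2⟩) (fun v => z ^ (ArithmeticFunction.cardFactors (nm v)))
  generalize (Sh (r1 * N) (r2 * N)).filter (fun v => P v ∧ ¬ Good K M v) = B at *
  have e2 : ∀ j : ℤ, ‖(1 / (N : ℂ)) * ∑ v ∈ B, z ^ (ArithmeticFunction.cardFactors (nm v)) *
      ag v ^ j‖ ^ 2 = (1 / N ^ 2) * ‖∑ v ∈ B, z ^ (ArithmeticFunction.cardFactors (nm v)) *
      ag v ^ j‖ ^ 2 := by
    intro j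
    rw [norm_mul, mul_pow, norm_div, norm_one, Complex.norm_real, Real.norm_eq_abs,
      abs_of_pos hN0, div_pow, one_pow]
  rw [Finset.sum_congr rfl fun j _ => e2 j, ← Finset.mul_sum]
  have e4 : ∑ v ∈ B, ‖z ^ (ArithmeticFunction.cardFactors (nm v))‖ ^ 2 = B.card := by
    rw [Finset.sum_congr rfl fun v _ => by rw [norm_pow, hz, one_pow, one_pow]]
    simp
  rw [e4] at e3
  calc (1 / N ^ 2) * ∑ j ∈ js J, ‖∑ v ∈ B, z ^ (ArithmeticFunction.cardFactors (nm v)) *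
        ag v ^ j‖ ^ 2 ≤ (1 / N ^ 2) * (C * (r2 * N + J) * B.card) :=
        mul_le_mul_of_nonneg_left e3 (by positivity)
    _ ≤ (1 / N ^ 2) * (C * (r2 * N + N) * (((Sh 0 ((K : ℝ) ^ 2)).card : ℝ) *
        (9 * (r2 * N / 2 ^ (M + 1))))) := by
        refine mul_le_mul_of_nonneg_left ?_ (by positivity)
        refine mul_le_mul ?_ e5 (by positivity) (by positivity)
        exact mul_le_mul_of_nonneg_left (by linarith) hC.le
    _ = C * (r2 + 1) * ((Sh 0 ((K : ℝ) ^ 2)).card * (9 * r2)) * (1 / 2) ^ M * (1 / 2) := by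
        rw [pow_succ, one_div_pow]
        field_simp
        ring
    _ ≤ C * (r2 + 1) * ((Sh 0 ((K : ℝ) ^ 2)).card * (9 * r2)) * (1 / 2) ^ M := by
        have : 0 ≤ C * (r2 + 1) * ((Sh 0 ((K : ℝ) ^ 2)).card * (9 * r2)) * (1 / 2) ^ M := by
          positivity
        linarith

end C68

open C68 in
/-- every class from the unit classes -/
theorem stCls_68 (hU : StUnitCl) (hL : StLsp) : StCls := by
  classical
  intro z k K hk hz hz1 hK a r1 r2 h1 h2
  have hr2 : 0 < r2 := h1.trans h2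
  have hzn : ‖z‖ = 1 := Complex.norm_eq_one_of_pow_eq_one hz hk.ne'
  suffices h : Sml (AA z K a r1 r2) by
    intro ε hε
    obtain ⟨H0, a1, a2⟩ := h ε hε
    refine ⟨H0, a1, fun H hH => ?_⟩
    obtain ⟨N0, a3⟩ := a2 H hH
    refine ⟨N0, fun N hN => ?_⟩
    have a4 := a3 N hN
    unfold AA at a4
    convert a4
  obtain ⟨D, hD0, hD⟩ := bad_le hL hzn hK h1 h2
  apply Sml.approx
  intro ε hε
  obtain ⟨M, hM⟩ := exists_pow_lt_of_lt_one (show 0 < ε / (D + 1) by positivity)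
    (show (1 / 2 : ℝ) < 1 by norm_num)
  refine ⟨fun N j => ∑ a' ∈ (RR (K ^ (M + 1))).filter (fun a' => (K : GaussianInt) ∣ a' - a ∧
    Good K M a'), AA z (K ^ (M + 1)) a' r1 r2 N j, ?_, max 1 (1 / r2), fun N hN J hJ => ?_⟩
  · refine Sml.sum _ _ fun a' ha' => ?_
    rw [Finset.mem_filter] at ha'
    exact good_small hU hk hz hz1 hK ha'.2.2 h1 h2
  have hN1 : 1 ≤ N := (le_max_left _ _).trans hN
  have hN2 : 1 ≤ r2 * N := by
    have := (le_max_right _ _).trans hN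
    rw [div_le_iff₀ hr2] at this
    linarith
  have e6 := hD M (fun v => Pv v ∧ (K : GaussianInt) ∣ v - a) N hN1 hN2 (fun v hv => hv.1) J hJ
  rw [Finset.sum_congr rfl fun j _ => by rw [diff z hK M a r1 r2 N j]]
  refine le_trans (le_of_eq ?_) (e6.trans ?_)
  · congr!
  calc D * (1 / 2) ^ M ≤ (D + 1) * (1 / 2) ^ M := by
        have : (0 : ℝ) ≤ (1 / 2) ^ M := by positivity
        linarith
    _ ≤ (D + 1) * (ε / (D + 1)) := mul_le_mul_of_nonneg_left hM.le (by positivity)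
    _ = ε := by field_simp

end Pool.Agent.Lib.MP_a17b09_nt.MRS
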