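import Pool.Agent.Lib.MP_a17b09_nt.MRS.Stmts3

/-! MRS: assembly of levels, the set `U` and frequency `0`. -/

set_option autoImplicit false

open Filter Topology Finset

namespace Pool.Agent.Lib.MP_a17b09_nt.MRS

theorem stCore_3 (h1 : StLev) (h2 : StUp) (h3 : StPw0) : StCore := by
  intro z k K ψ hk hz hz1 hK hψ r1 r2 hr1 hr2 ε hε
  have hzn : ‖z‖ = 1 := by
    have : ‖z‖ ^ k = 1 := by rw [← norm_pow, hz, norm_one]
    exact (pow_eq_one_iff_of_nonneg (norm_nonneg z) hk.ne').1 this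
  obtain ⟨c, hc, hup⟩ := h2 z K ψ hzn hK hψ r1 r2 hr1.le hr2
  obtain ⟨N1, hN1⟩ := hup (ε / 3) (by positivity)
  obtain ⟨H0, hH0, hlev⟩ := h1 z K ψ hzn hK hψ r1 r2 hr1 hr2 (ε / 3) c (by positivity) hc
  have h0 := h3 z k K ψ hk hz hz1 hK hψ r1 r2 hr1.le hr2
  have h0' : ∀ᶠ N : ℝ in atTop, ‖Mp z ψ r1 r2 N 0‖ ^ 2 < ε / 3 := by
    have : Tendsto (fun N : ℝ => ‖Mp z ψ r1 r2 N 0‖ ^ 2) atTop (𝓝 0) := by
      have := (h0.norm).pow 2
      simpa using this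
    exact this.eventually (gt_mem_nhds (by positivity))
  obtain ⟨N2, hN2⟩ := eventually_atTop.1 h0'
  refine ⟨H0, hH0, fun H hH => ?_⟩
  obtain ⟨N0, hN0⟩ := hlev H hH
  refine ⟨max (max N0 1) (max N1 N2), fun N hN => ?_⟩
  have hNa : N0 ≤ N := (le_max_left _ _).trans ((le_max_left _ _).trans hN)
  have hNb : 1 ≤ N := (le_max_right _ _).trans ((le_max_left _ _).trans hN)
  have hNc : N1 ≤ N := (le_max_left _ _).trans ((le_max_right _ _).trans hN)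
  have hNd : N2 ≤ N := (le_max_right _ _).trans ((le_max_right _ _).trans hN)
  obtain ⟨U, hU, hUc, hlevU⟩ := hN0 N hNa
  have hH : 1 ≤ H := hH0.trans hH
  have hUs : ∀ j ∈ U.erase 0, |(j : ℝ)| ≤ N := by
    intro j hj
    have h4 := hU (Finset.mem_of_mem_erase hj)
    unfold js at h4
    rw [Finset.mem_Icc] at h4
    have h5 : |j| ≤ (⌊N / H⌋₊ : ℤ) := abs_le.2 h4
    have h6 : |(j : ℝ)| ≤ ((⌊N / H⌋₊ : ℕ) : ℝ) := by exact_mod_cast h5
    refine h6.trans ((Nat.floor_le (by positivity)).trans ?_)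
    rw [div_le_iff₀ (by positivity)]
    nlinarith
  have h7 := hN1 N hNc (U.erase 0) (le_trans (by exact_mod_cast Finset.card_erase_le) hUc)
    (Finset.notMem_erase _ _) hUs
  have h8 := (hN2 N hNd).le
  calc ∑ j ∈ js ⌊N / H⌋₊, ‖Mp z ψ r1 r2 N j‖ ^ 2
      = ∑ j ∈ js ⌊N / H⌋₊ \ U, ‖Mp z ψ r1 r2 N j‖ ^ 2 + ∑ j ∈ U, ‖Mp z ψ r1 r2 N j‖ ^ 2 :=
        (Finset.sum_sdiff hU).symm
    _ ≤ ε / 3 + (ε / 3 + ε / 3) := by
        refine add_le_add hlevU ?_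
        by_cases h9 : (0 : ℤ) ∈ U
        · rw [← Finset.sum_erase_add _ _ h9]
          exact add_le_add h7 h8
        · rw [Finset.erase_eq_of_notMem h9] at h7
          linarith [sq_nonneg ‖Mp z ψ r1 r2 N 0‖, h7]
    _ = ε := by ring

end Pool.Agent.Lib.MP_a17b09_nt.MRS
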