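import Pool.Agent.Lib.MP_a17b09_nt.MRS.Tk84

/-!
MRS (MP_a17b09_nt): the sums of a completely multiplicative, unit invariant function over the
Gaussian integers of norm `n` form a multiplicative function of `n`; its values at prime powers.
-/

set_option autoImplicit false

open Finset

namespace Pool.Agent.Lib.MP_a17b09_nt.MRS.Rec86

open Tk84

/-- Gaussian integers of norm `n` -/
noncomputable def sph (n : ℕ) : Finset GaussianInt := (gball n).filter fun v => nm v = n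

theorem mem_sph {n : ℕ} {v : GaussianInt} : v ∈ sph n ↔ nm v = n := by
  unfold sph
  rw [Finset.mem_filter, mem_gball]
  exact ⟨fun h => h.2, fun h => ⟨h.le, h⟩⟩

/-- `(1/4) ∑_{|v|² = n} Ψ(v)` -/
noncomputable def an (Ψ : GaussianInt → ℂ) (n : ℕ) : ℂ :=
  (1 / 4) * ∑ v ∈ (gball n).filter (fun v => nm v = n), Ψ v

theorem an_eq (Ψ : GaussianInt → ℂ) (n : ℕ) : an Ψ n = (1 / 4) * ∑ v ∈ sph n, Ψ v := rfl

theorem nm_star (v : GaussianInt) : nm (star v) = nm v := by
  have h1 := nm_coe (star v)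
  have h2 := nm_coe v
  rw [Zsqrtd.re_star, Zsqrtd.im_star, neg_sq] at h1
  exact_mod_cast h1.trans h2.symm

theorem mul_star_eq (v : GaussianInt) : v * star v = ((nm v : ℕ) : GaussianInt) := by
  refine Zsqrtd.ext ?_ ?_
  · have h := nm_coe v
    rw [Zsqrtd.re_mul, Zsqrtd.re_star, Zsqrtd.im_star, Zsqrtd.re_natCast, h]
    ring
  · rw [Zsqrtd.im_mul, Zsqrtd.re_star, Zsqrtd.im_star, Zsqrtd.im_natCast]
    ring

theorem nm_nat (n : ℕ) : nm (n : GaussianInt) = n * n := by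
  have h := nm_coe (n : GaussianInt)
  rw [Zsqrtd.re_natCast, Zsqrtd.im_natCast] at h
  have h1 : ((nm (n : GaussianInt) : ℕ) : ℤ) = ((n * n : ℕ) : ℤ) := by
    rw [h]; push_cast; ring
  exact_mod_cast h1

theorem prime_of_nm {v : GaussianInt} (h : (nm v).Prime) : Prime v := by
  rw [← irreducible_iff_prime]
  constructor
  · intro hu
    have : nm v = 1 := Zsqrtd.norm_eq_one_iff.2 hu
    rw [this] at h
    exact Nat.not_prime_one h
  · intro a b hab
    have h1 : nm v = nm a * nm b := by rw [hab, nm_mul]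
    rw [h1] at h
    rcases Nat.prime_mul_iff.1 h with ⟨_, h2⟩ | ⟨_, h2⟩
    · right
      exact Zsqrtd.norm_eq_one_iff.1 h2
    · left
      exact Zsqrtd.norm_eq_one_iff.1 h2

open Classical in
/-- multiples of `d` in a sphere -/
theorem sum_dvd (Ψ : GaussianInt → ℂ) (hm : ∀ v w, Ψ (v * w) = Ψ v * Ψ w) {n : ℕ}
    {d : GaussianInt} (hd : d ≠ 0) (hn : nm d ∣ n) :
    ∑ v ∈ (sph n).filter (fun v => d ∣ v), Ψ v = Ψ d * ∑ v ∈ sph (n / nm d), Ψ v := by
  have hpos := nm_pos.2 hd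
  rw [Finset.mul_sum]
  symm
  refine Finset.sum_nbij (fun m => d * m) ?_ ?_ ?_ ?_
  · intro m hm'
    rw [mem_sph] at hm'
    rw [Finset.mem_filter, mem_sph, nm_mul, hm']
    exact ⟨Nat.mul_div_cancel' hn, Dvd.intro _ rfl⟩
  · intro x _ y _ h
    exact mul_left_cancel₀ hd h
  · intro v hv
    rw [Finset.mem_coe, Finset.mem_filter, mem_sph] at hv
    obtain ⟨m, rfl⟩ := hv.2
    refine ⟨m, ?_, rfl⟩
    rw [Finset.mem_coe, mem_sph]
    have h1 := hv.1
    rw [nm_mul] at h1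
    rw [← h1, Nat.mul_div_cancel_left _ hpos]
  · intro m _
    exact (hm d m).symm

open Classical in
/-- no multiples of `d` in a sphere if `nm d ∤ n` -/
theorem sum_dvd' (Ψ : GaussianInt → ℂ) {n : ℕ} {d : GaussianInt} (hn : ¬ nm d ∣ n) :
    ∑ v ∈ (sph n).filter (fun v => d ∣ v), Ψ v = 0 := by
  refine Finset.sum_eq_zero fun v hv => ?_
  exfalso
  rw [Finset.mem_filter, mem_sph] at hv
  obtain ⟨m, rfl⟩ := hv.2
  apply hn
  rw [← hv.1, nm_mul]
  exact Dvd.intro _ rfl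

/-- existence of a Gaussian prime -/
theorem exists_gp {p : ℕ} (hp : p.Prime) (h3 : p % 4 ≠ 3) : ∃ π : GaussianInt, nm π = p := by
  have : Fact p.Prime := ⟨hp⟩
  obtain ⟨a, b, hab⟩ := Nat.Prime.sq_add_sq h3
  refine ⟨⟨a, b⟩, ?_⟩
  have h := nm_coe (⟨a, b⟩ : GaussianInt)
  simp only at h
  have h1 : ((nm (⟨(a : ℤ), (b : ℤ)⟩ : GaussianInt) : ℕ) : ℤ) = (p : ℤ) := by
    rw [h, ← hab]; push_cast; ring
  exact_mod_cast h1

/-- `π` does not divide its conjugate if the norm is an odd prime -/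
theorem not_dvd_star {p : ℕ} (hp : p.Prime) (h2 : p ≠ 2) {π : GaussianInt} (hπ : nm π = p) :
    ¬ π ∣ star π := by
  intro hd
  have h1 : π ∣ π + star π := dvd_add dvd_rfl hd
  obtain ⟨m, hm⟩ := h1
  have h3 : nm (π + star π) = p * nm m := by rw [hm, nm_mul, hπ]
  have h4 : ((nm (π + star π) : ℕ) : ℤ) = 4 * π.re ^ 2 := by
    rw [nm_coe, Zsqrtd.re_add, Zsqrtd.im_add, Zsqrtd.re_star, Zsqrtd.im_star]
    ring
  have h5 : (p : ℤ) ∣ 4 * π.re ^ 2 := by
    rw [← h4, h3]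
    push_cast
    exact Dvd.intro _ rfl
  have hpI : Prime (p : ℤ) := Nat.prime_iff_prime_int.1 hp
  have h6 : (p : ℤ) ∣ π.re := by
    rcases hpI.dvd_or_dvd h5 with h7 | h7
    · exfalso
      have h8 : (p : ℤ) ∣ 2 := by
        have : (4 : ℤ) = 2 ^ 2 := by norm_num
        rw [this] at h7
        exact hpI.dvd_of_dvd_pow h7
      have h9 : p ∣ 2 := by exact_mod_cast h8
      exact h2 ((Nat.prime_dvd_prime_iff_eq hp Nat.prime_two).1 h9)
    · exact hpI.dvd_of_dvd_pow h7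
  have h7 : π.re ^ 2 + π.im ^ 2 = (p : ℤ) := by rw [← nm_coe, hπ]
  obtain ⟨t, ht⟩ := h6
  have hp1 : (1 : ℤ) < p := by exact_mod_cast hp.one_lt
  have h8 : π.re = 0 := by
    by_contra h0
    have ht0 : t ≠ 0 := by
      rintro rfl
      exact h0 (by rw [ht, mul_zero])
    have ht1 : 1 ≤ t ^ 2 := by
      have := Int.one_le_abs ht0
      rw [← sq_abs]
      nlinarith
    have h9 : (p : ℤ) ^ 2 ≤ π.re ^ 2 := by
      rw [ht, mul_pow]
      nlinarith [sq_nonneg (p : ℤ)]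
    nlinarith [sq_nonneg π.im]
  rw [h8] at h7
  have h10 : (p : ℤ) = π.im * π.im := by linarith
  have h11 : p = π.im.natAbs * π.im.natAbs := by
    have := congrArg Int.natAbs h10
    rw [Int.natAbs_mul, Int.natAbs_natCast] at this
    exact this
  exact (Nat.not_prime_mul (a := π.im.natAbs) (b := π.im.natAbs)
    (fun h => by rw [h] at h11; rw [h11] at hp; exact Nat.not_prime_one hp)
    (fun h => by rw [h] at h11; rw [h11] at hp; exact Nat.not_prime_one hp)) (h11 ▸ hp)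

/-- the recursion at a split prime -/
theorem rec_split (Ψ : GaussianInt → ℂ) (hm : ∀ v w, Ψ (v * w) = Ψ v * Ψ w) {p : ℕ}
    (hp : p.Prime) (h2 : p ≠ 2) {π : GaussianInt} (hπ : nm π = p) (n : ℕ) :
    an Ψ (p * n) = (Ψ π + Ψ (star π)) * an Ψ n -
      Ψ π * Ψ (star π) * (if p ∣ n then an Ψ (n / p) else 0) := by
  classical
  have hπp : Prime π := prime_of_nm (hπ ▸ hp)
  have hπ' : nm (star π) = p := by rw [nm_star, hπ]
  have hsp : Prime (star π) := prime_of_nm (hπ' ▸ hp)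
  have hp0 : 0 < p := hp.pos
  have hd1 : ∑ v ∈ (sph (p * n)).filter (fun v => π ∣ v), Ψ v = Ψ π * ∑ v ∈ sph n, Ψ v := by
    rw [sum_dvd Ψ hm hπp.ne_zero (by rw [hπ]; exact Dvd.intro _ rfl), hπ,
      Nat.mul_div_cancel_left _ hp0]
  have hd2 : ∑ v ∈ (sph (p * n)).filter (fun v => star π ∣ v), Ψ v =
      Ψ (star π) * ∑ v ∈ sph n, Ψ v := by
    rw [sum_dvd Ψ hm hsp.ne_zero (by rw [hπ']; exact Dvd.intro _ rfl), hπ',
      Nat.mul_div_cancel_left _ hp0]
  have hmm : π * star π = (p : GaussianInt) := by rw [mul_star_eq, hπ]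
  have hnmp : nm (π * star π) = p * p := by rw [nm_mul, hπ, hπ']
  have hd3 : ∑ v ∈ (sph (p * n)).filter (fun v => π * star π ∣ v), Ψ v =
      Ψ π * Ψ (star π) * (if p ∣ n then ∑ v ∈ sph (n / p), Ψ v else 0) := by
    by_cases hpn : p ∣ n
    · rw [if_pos hpn, sum_dvd Ψ hm (mul_ne_zero hπp.ne_zero hsp.ne_zero)
        (by rw [hnmp]; exact Nat.mul_dvd_mul_left p hpn), hnmp, hm,
        Nat.mul_div_mul_left _ _ hp0]
    · rw [if_neg hpn, mul_zero]
      refine sum_dvd' Ψ ?_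
      rw [hnmp]
      intro h
      exact hpn (Nat.dvd_of_mul_dvd_mul_left hp0 h)
  -- the sphere is the union of the two sets
  have hcover : sph (p * n) = (sph (p * n)).filter (fun v => π ∣ v) ∪
      (sph (p * n)).filter (fun v => star π ∣ v) := by
    ext v
    rw [Finset.mem_union, Finset.mem_filter, Finset.mem_filter]
    refine ⟨fun hv => ?_, fun h => h.elim (fun h => h.1) (fun h => h.1)⟩
    have h1 : π ∣ v * star v := by
      rw [mul_star_eq, mem_sph.1 hv]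
      push_cast
      rw [← hmm]
      exact (Dvd.intro _ rfl : π ∣ π * star π).mul_right _
    rcases hπp.dvd_or_dvd h1 with h | h
    · exact Or.inl ⟨hv, h⟩
    · right
      refine ⟨hv, ?_⟩
      obtain ⟨w, hw⟩ := h
      refine ⟨star w, ?_⟩
      rw [← star_star v, hw, star_mul, mul_comm]
  have hinter : (sph (p * n)).filter (fun v => π ∣ v) ∩
      (sph (p * n)).filter (fun v => star π ∣ v) =
      (sph (p * n)).filter (fun v => π * star π ∣ v) := by
    ext v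
    rw [Finset.mem_inter, Finset.mem_filter, Finset.mem_filter, Finset.mem_filter]
    constructor
    · rintro ⟨⟨h0, h1⟩, _, h3⟩
      refine ⟨h0, ?_⟩
      obtain ⟨w, rfl⟩ := h1
      rcases hsp.dvd_or_dvd h3 with h | h
      · exfalso
        have h4 := not_dvd_star hp h2 hπ'
        rw [star_star] at h4
        exact h4 h
      · exact mul_dvd_mul_left π h
    · rintro ⟨h0, h1⟩
      exact ⟨⟨h0, (Dvd.intro _ rfl).trans h1⟩, h0, (Dvd.intro_left _ rfl).trans h1⟩
  have hsum := Finset.sum_union_inter (s₁ := (sph (p * n)).filter (fun v => π ∣ v))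
    (s₂ := (sph (p * n)).filter (fun v => star π ∣ v)) (f := Ψ)
  rw [← hcover, hinter, hd1, hd2, hd3] at hsum
  rw [an_eq, an_eq]
  by_cases hpn : p ∣ n
  · rw [if_pos hpn] at hsum ⊢
    rw [an_eq]
    linear_combination (1 / 4) * hsum
  · rw [if_neg hpn] at hsum ⊢
    linear_combination (1 / 4) * hsum

/-- the recursion at an inert prime -/
theorem rec_inert (Ψ : GaussianInt → ℂ) (hm : ∀ v w, Ψ (v * w) = Ψ v * Ψ w) {q : ℕ}
    (hq : q.Prime) (h3 : q % 4 = 3) (n : ℕ) :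
    an Ψ (q * n) = Ψ (q : GaussianInt) * (if q ∣ n then an Ψ (n / q) else 0) := by
  classical
  have : Fact q.Prime := ⟨hq⟩
  have hqp : Prime (q : GaussianInt) := GaussianInt.prime_of_nat_prime_of_mod_four_eq_three q h3
  have hq0 : 0 < q := hq.pos
  have hcover : sph (q * n) = (sph (q * n)).filter (fun v => (q : GaussianInt) ∣ v) := by
    ext v
    rw [Finset.mem_filter]
    refine ⟨fun hv => ⟨hv, ?_⟩, fun h => h.1⟩
    have h1 : (q : GaussianInt) ∣ v * star v := by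
      rw [mul_star_eq, mem_sph.1 hv]
      push_cast
      exact Dvd.intro _ rfl
    rcases hqp.dvd_or_dvd h1 with h | h
    · exact h
    · obtain ⟨w, hw⟩ := h
      refine ⟨star w, ?_⟩
      have h2 : star ((q : GaussianInt)) = (q : GaussianInt) := by simp
      rw [← star_star v, hw, star_mul, h2, mul_comm]
  rw [an_eq, hcover]
  by_cases hqn : q ∣ n
  · rw [if_pos hqn, an_eq, sum_dvd Ψ hm hqp.ne_zero
      (by rw [nm_nat]; exact Nat.mul_dvd_mul_left q hqn), nm_nat,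
      Nat.mul_div_mul_left _ _ hq0]
    ring
  · rw [if_neg hqn, mul_zero, sum_dvd', mul_zero]
    rw [nm_nat]
    intro h
    exact hqn (Nat.dvd_of_mul_dvd_mul_left hq0 h)

/-- the recursion at `2` -/
theorem rec_two (Ψ : GaussianInt → ℂ) (hm : ∀ v w, Ψ (v * w) = Ψ v * Ψ w) (n : ℕ) :
    an Ψ (2 * n) = Ψ ⟨1, 1⟩ * an Ψ n := by
  classical
  have hnm : nm (⟨1, 1⟩ : GaussianInt) = 2 := by
    have h := nm_coe (⟨1, 1⟩ : GaussianInt)
    simp only at h
    have : ((nm (⟨1, 1⟩ : GaussianInt) : ℕ) : ℤ) = 2 := by rw [h]; norm_num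
    exact_mod_cast this
  have hpr : Prime (⟨1, 1⟩ : GaussianInt) := prime_of_nm (by rw [hnm]; exact Nat.prime_two)
  have hcover : sph (2 * n) = (sph (2 * n)).filter (fun v => (⟨1, 1⟩ : GaussianInt) ∣ v) := by
    ext v
    rw [Finset.mem_filter]
    refine ⟨fun hv => ⟨hv, ?_⟩, fun h => h.1⟩
    have h0 : (⟨1, 1⟩ : GaussianInt) ∣ 2 := ⟨⟨1, -1⟩, by decide⟩
    have h1 : (⟨1, 1⟩ : GaussianInt) ∣ v * star v := by
      rw [mul_star_eq, mem_sph.1 hv]
      push_cast
      exact h0.trans (Dvd.intro _ rfl)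
    rcases hpr.dvd_or_dvd h1 with h | h
    · exact h
    · obtain ⟨w, hw⟩ := h
      refine ⟨⟨0, -1⟩ * star w, ?_⟩
      rw [← star_star v, hw, star_mul]
      have h2 : star (⟨1, 1⟩ : GaussianInt) = ⟨1, 1⟩ * ⟨0, -1⟩ := by decide
      rw [h2]
      ring
  rw [an_eq, hcover, sum_dvd Ψ hm hpr.ne_zero (by rw [hnm]; exact Dvd.intro _ rfl), hnm,
    Nat.mul_div_cancel_left _ (by norm_num : 0 < 2), an_eq]
  ring

/-- R1 -/
theorem an_one (Ψ : GaussianInt → ℂ) (hm : ∀ v w, Ψ (v * w) = Ψ v * Ψ w) (h1 : Ψ 1 = 1)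
    (hi : Ψ ⟨0, 1⟩ = 1) : an Ψ 1 = 1 := by
  classical
  have hs : sph 1 = {(1 : GaussianInt), -1, ⟨0, 1⟩, ⟨0, -1⟩} := by
    ext v
    rw [mem_sph]
    simp only [Finset.mem_insert, Finset.mem_singleton]
    constructor
    · intro h
      have h2 : v.re ^ 2 + v.im ^ 2 = 1 := by rw [← nm_coe, h]; rfl
      have hr : v.re = 0 ∨ v.re = 1 ∨ v.re = -1 := by
        have : v.re ^ 2 ≤ 1 := by nlinarith [sq_nonneg v.im]
        have h3 : |v.re| ≤ 1 := abs_le_one_iff_mul_self_le_one.2 (by nlinarith)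
        rw [abs_le] at h3
        omega
      have hi' : v.im = 0 ∨ v.im = 1 ∨ v.im = -1 := by
        have : v.im ^ 2 ≤ 1 := by nlinarith [sq_nonneg v.re]
        have h3 : |v.im| ≤ 1 := abs_le_one_iff_mul_self_le_one.2 (by nlinarith)
        rw [abs_le] at h3
        omega
      rcases hr with hr | hr | hr <;> rcases hi' with hi' | hi' | hi' <;> rw [hr, hi'] at h2 <;>
        norm_num at h2
      · right; right; left; exact Zsqrtd.ext hr hi'
      · right; right; right; exact Zsqrtd.ext hr hi'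
      · left; exact Zsqrtd.ext hr hi'
      · right; left; exact Zsqrtd.ext hr hi'
    · have key : ∀ w : GaussianInt, w.re ^ 2 + w.im ^ 2 = 1 → nm w = 1 := by
        intro w hw
        have := nm_coe w
        rw [hw] at this
        exact_mod_cast this
      rintro (rfl | rfl | rfl | rfl)
      · exact key _ (by decide)
      · exact key _ (by decide)
      · exact key _ (by decide)
      · exact key _ (by decide)
  have e1 : Ψ (-1) = 1 := by
    have : (-1 : GaussianInt) = ⟨0, 1⟩ * ⟨0, 1⟩ := by decide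
    rw [this, hm, hi, one_mul]
  have e2 : Ψ ⟨0, -1⟩ = 1 := by
    have : (⟨0, -1⟩ : GaussianInt) = -1 * ⟨0, 1⟩ := by decide
    rw [this, hm, e1, hi, one_mul]
  rw [an_eq, hs, Finset.sum_insert (by decide), Finset.sum_insert (by decide),
    Finset.sum_insert (by decide), Finset.sum_singleton, h1, e1, hi, e2]
  norm_num

/-- the recursion at an arbitrary prime -/
theorem rec_any (Ψ : GaussianInt → ℂ) (hm : ∀ v w, Ψ (v * w) = Ψ v * Ψ w) {p : ℕ}
    (hp : p.Prime) : ∃ α β : ℂ, ∀ n : ℕ,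
      an Ψ (p * n) = α * an Ψ n - β * (if p ∣ n then an Ψ (n / p) else 0) := by
  by_cases h2 : p = 2
  · subst h2
    exact ⟨Ψ ⟨1, 1⟩, 0, fun n => by rw [rec_two Ψ hm n]; ring⟩
  · by_cases h3 : p % 4 = 3
    · exact ⟨0, -Ψ (p : GaussianInt), fun n => by rw [rec_inert Ψ hm hp h3 n]; ring⟩
    · obtain ⟨π, hπ⟩ := exists_gp hp h3
      exact ⟨_, _, fun n => rec_split Ψ hm hp h2 hπ n⟩

/-- R2: multiplicativity -/
theorem an_mul (Ψ : GaussianInt → ℂ) (hm : ∀ v w, Ψ (v * w) = Ψ v * Ψ w) (h1 : Ψ 1 = 1)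
    (hi : Ψ ⟨0, 1⟩ = 1) (m n : ℕ) (hm0 : 0 < m) (_hn0 : 0 < n) (hc : Nat.Coprime m n) :
    an Ψ (m * n) = an Ψ m * an Ψ n := by
  induction m using Nat.strong_induction_on with
  | _ m ih =>
    rcases Nat.lt_or_ge 1 m with hm1 | hm1
    · obtain ⟨p, hp, hpm⟩ := Nat.exists_prime_and_dvd hm1.ne'
      obtain ⟨m', rfl⟩ := hpm
      have hm'0 : 0 < m' := Nat.pos_of_mul_pos_left hm0 |> fun _ => by
        rcases Nat.eq_zero_or_pos m' with h | h
        · rw [h, mul_zero] at hm0; exact absurd hm0 (lt_irrefl 0)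
        · exact h
      have hlt : m' < p * m' := by
        calc m' = 1 * m' := (one_mul _).symm
          _ < p * m' := Nat.mul_lt_mul_of_pos_right hp.one_lt hm'0
      have hc' : Nat.Coprime m' n := Nat.Coprime.coprime_mul_left hc
      have hpn : ¬ p ∣ n := by
        intro h
        have h4 : p ∣ Nat.gcd (p * m') n := Nat.dvd_gcd (Dvd.intro _ rfl) h
        rw [hc] at h4
        exact hp.one_lt.ne' (Nat.dvd_one.1 h4)
      obtain ⟨α, β, hrec⟩ := rec_any Ψ hm hp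
      have e1 := ih m' hlt hm'0 hc'
      rw [mul_assoc, hrec, hrec m', e1]
      by_cases hpm' : p ∣ m'
      · obtain ⟨k, hk⟩ := hpm'
        have hk0 : 0 < k := by
          rcases Nat.eq_zero_or_pos k with h | h
          · rw [h, mul_zero] at hk; omega
          · exact h
        have hklt : k < p * m' := by
          have : k ≤ m' := by rw [hk]; exact Nat.le_mul_of_pos_left k hp.pos
          omega
        have hck : Nat.Coprime k n := by
          rw [hk] at hc'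
          exact Nat.Coprime.coprime_mul_left hc'
        rw [if_pos (Dvd.dvd.mul_right (Dvd.intro k hk.symm) n), if_pos (Dvd.intro k hk.symm)]
        have e2 : m' * n / p = k * n := by
          rw [hk, mul_assoc, Nat.mul_div_cancel_left _ hp.pos]
        have e3 : m' / p = k := by rw [hk, Nat.mul_div_cancel_left _ hp.pos]
        rw [e2, e3, ih k hklt hk0 hck]
        ring
      · rw [if_neg hpm', if_neg (fun h => (hp.dvd_mul.1 h).elim hpm' hpn)]
        ring
    · have : m = 1 := le_antisymm hm1 hm0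
      rw [this, one_mul, an_one Ψ hm h1 hi, one_mul]

/-- R3 -/
theorem an_split_one (Ψ : GaussianInt → ℂ) (hm : ∀ v w, Ψ (v * w) = Ψ v * Ψ w) (h1 : Ψ 1 = 1)
    (hi : Ψ ⟨0, 1⟩ = 1) {p : ℕ} (hp : p.Prime) (h4 : p % 4 = 1) {π : GaussianInt}
    (hπ : nm π = p) : an Ψ p = Ψ π + Ψ (star π) := by
  have h2 : p ≠ 2 := by rintro rfl; omega
  have h := rec_split Ψ hm hp h2 hπ 1
  rw [mul_one, an_one Ψ hm h1 hi, if_neg (fun h => hp.one_lt.ne' (Nat.dvd_one.1 h))] at h
  rw [h]; ring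

/-- R3 -/
theorem an_split_pow (Ψ : GaussianInt → ℂ) (hm : ∀ v w, Ψ (v * w) = Ψ v * Ψ w) {p : ℕ}
    (hp : p.Prime) (h4 : p % 4 = 1) {π : GaussianInt} (hπ : nm π = p) (k : ℕ) :
    an Ψ (p ^ (k + 2)) = (Ψ π + Ψ (star π)) * an Ψ (p ^ (k + 1)) -
      Ψ π * Ψ (star π) * an Ψ (p ^ k) := by
  have h2 : p ≠ 2 := by rintro rfl; omega
  have e : p ^ (k + 2) = p * p ^ (k + 1) := by ring
  have e1 : p ^ (k + 1) / p = p ^ k := by
    rw [pow_succ, Nat.mul_div_cancel _ hp.pos]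
  rw [e, rec_split Ψ hm hp h2 hπ, if_pos (dvd_pow_self p (by omega)), e1]

/-- R4 -/
theorem an_inert (Ψ : GaussianInt → ℂ) (hm : ∀ v w, Ψ (v * w) = Ψ v * Ψ w) (h1 : Ψ 1 = 1)
    (hi : Ψ ⟨0, 1⟩ = 1) {q : ℕ} (hq : q.Prime) (h3 : q % 4 = 3) (k : ℕ) :
    an Ψ (q ^ (2 * k)) = Ψ (q : GaussianInt) ^ k ∧ an Ψ (q ^ (2 * k + 1)) = 0 := by
  have hstep : ∀ j : ℕ, an Ψ (q ^ (j + 2)) = Ψ (q : GaussianInt) * an Ψ (q ^ j) := by
    intro j
    have e : q ^ (j + 2) = q * q ^ (j + 1) := by ring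
    have e1 : q ^ (j + 1) / q = q ^ j := by
      rw [pow_succ, Nat.mul_div_cancel _ hq.pos]
    rw [e, rec_inert Ψ hm hq h3, if_pos (dvd_pow_self q (by omega)), e1]
  induction k with
  | zero =>
    refine ⟨by rw [mul_zero, pow_zero, pow_zero, an_one Ψ hm h1 hi], ?_⟩
    have h := rec_inert Ψ hm hq h3 1
    rw [if_neg (fun h => hq.one_lt.ne' (Nat.dvd_one.1 h)), mul_zero, mul_one] at h
    rw [mul_zero, zero_add, pow_one, h]
  | succ k ih =>
    have e1 : 2 * (k + 1) = 2 * k + 2 := by ring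
    have e2 : 2 * (k + 1) + 1 = (2 * k + 1) + 2 := by ring
    rw [e2, e1, hstep, hstep, ih.1, ih.2, mul_zero]
    exact ⟨by ring, rfl⟩

/-- R5 -/
theorem an_two (Ψ : GaussianInt → ℂ) (hm : ∀ v w, Ψ (v * w) = Ψ v * Ψ w) (h1 : Ψ 1 = 1)
    (hi : Ψ ⟨0, 1⟩ = 1) (k : ℕ) : an Ψ (2 ^ k) = Ψ ⟨1, 1⟩ ^ k := by
  induction k with
  | zero => rw [pow_zero, pow_zero, an_one Ψ hm h1 hi]
  | succ k ih => rw [pow_succ', rec_two Ψ hm, ih, pow_succ']

end Pool.Agent.Lib.MP_a17b09_nt.MRS.Rec86
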