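import Pool.Agent.Lib.MP_a17b09_nt.MRS.DJ71
import Pool.Agent.Lib.MP_a17b09_nt.MRS.Rec86

/-!
MRS (MP_a17b09_nt): `StDj` from `StExp` alone.
-/

set_option autoImplicit false

namespace Pool.Agent.Lib.MP_a17b09_nt.DJ71

open MRS.Rec71

theorem stRec_71 : StRec := by
  intro Ψ hm h1 hi
  exact ⟨MRS.Rec86.an_one Ψ hm h1 hi,
    fun m n hm0 hn0 hc => MRS.Rec86.an_mul Ψ hm h1 hi m n hm0 hn0 hc,
    fun p π hp h4 hπ => ⟨MRS.Rec86.an_split_one Ψ hm h1 hi hp h4 hπ,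
      fun k => MRS.Rec86.an_split_pow Ψ hm hp h4 hπ k⟩,
    fun q hq h3 k => MRS.Rec86.an_inert Ψ hm h1 hi hq h3 k,
    fun k => MRS.Rec86.an_two Ψ hm h1 hi k⟩

/-- **DJ** from the exponential sums -/
theorem stDj_full (hE : X67.StExp) : MRS.StDj := stDj_71 hE stRec_71

end Pool.Agent.Lib.MP_a17b09_nt.DJ71
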