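import Pool.Agent.Lib.MP_a17b09_nt.MRS.Stmts3
import Pool.Agent.Lib.MP_a17b09_nt.MRS.LSB19

/-! MRS: the large sieve inequalities of the statement file (from the abstract ones of helper19). -/

set_option autoImplicit false

open Filter Topology Finset

namespace Pool.Agent.Lib.MP_a17b09_nt.MRS.LS3

/-- pair -/
def pp (v : GaussianInt) : ℤ × ℤ := (v.re, v.im)

theorem toC_eq (v : GaussianInt) : GaussianInt.toComplex v = MRS19.zc (pp v) := by
  rw [GaussianInt.toComplex_def]
  rfl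

theorem ag_eq (v : GaussianInt) : ag v = MRS19.dir (pp v) := by
  unfold ag MRS19.dir
  rw [toC_eq]

theorem pp_ne {v : GaussianInt} (h : v ≠ 0) : pp v ≠ 0 := by
  intro h1
  apply h
  unfold pp at h1
  exact Zsqrtd.ext (congrArg Prod.fst h1) (congrArg Prod.snd h1)

theorem nz_of {v : GaussianInt} {N : ℝ} (hN : 1 ≤ N) (h : N ≤ nm v) : v ≠ 0 := by
  rintro rfl
  have : nm (0 : GaussianInt) = 0 := nm_eq_zero.2 rfl
  rw [this, Nat.cast_zero] at h
  linarith

theorem nrm_sq (v : GaussianInt) : ‖MRS19.zc (pp v)‖ ^ 2 = nm v := by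
  rw [MRS19.norm_zc_sq, nm_eq]
  rfl

/-- the wedge, bounded by the distance of the directions -/
theorem wedge {v w : GaussianInt} {N B : ℝ} (hN : 1 ≤ N) (hv : N ≤ nm v) (hw : N ≤ nm w)
    (hv2 : (nm v : ℝ) ≤ B * N) (hw2 : (nm w : ℝ) ≤ B * N) {φ : ℝ} (h : ‖ag v - ag w‖ ≤ φ) :
    |((v.re * w.im - v.im * w.re : ℤ) : ℝ)| ≤ B * N * φ := by
  have h1 := MRS19.wedge_le (pp_ne (nz_of hN hv)) (pp_ne (nz_of hN hw))
  rw [← ag_eq, ← ag_eq] at h1
  have h3 : ‖MRS19.zc (pp v)‖ * ‖MRS19.zc (pp w)‖ ≤ B * N := by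
    have e1 := nrm_sq v
    have e2 := nrm_sq w
    nlinarith [sq_nonneg (‖MRS19.zc (pp v)‖ - ‖MRS19.zc (pp w)‖)]
  have h4 : (0 : ℝ) ≤ B * N := le_trans (by positivity) hv2
  exact h1.trans (mul_le_mul h3 h (norm_nonneg _) h4)

/-- collinear case: the quotient is an integer over the greatest common divisor -/
theorem ray {v u : GaussianInt} (hd : v.re * u.im - v.im * u.re = 0) :
    ∃ k : ℤ, (v.re * u.re + v.im * u.im) * (Int.gcd v.re v.im : ℤ) = (nm v : ℤ) * k ∧
      (k = 0 → v ≠ 0 → u = 0) := by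
  have hn : (nm v : ℤ) = v.re * v.re + v.im * v.im := by
    unfold nm
    rw [GaussianInt.natAbs_norm_eq]
    push_cast
    rw [abs_mul_abs_self, abs_mul_abs_self]
  have hg := Int.gcd_eq_gcd_ab v.re v.im
  refine ⟨u.re * Int.gcdA v.re v.im + u.im * Int.gcdB v.re v.im, ?_, ?_⟩
  · rw [hg, hn]
    linear_combination (-(u.im * v.re * Int.gcdA v.re v.im * 0) +
      (v.im * Int.gcdA v.re v.im - v.re * Int.gcdB v.re v.im)) * hd
  · intro hk hv
    have hnp : (nm v : ℤ) ≠ 0 := by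
      have := mt nm_eq_zero.1 hv
      exact_mod_cast this
    have hg0 : (Int.gcd v.re v.im : ℤ) ≠ 0 := by
      intro h0
      have h1 : Int.gcd v.re v.im = 0 := by exact_mod_cast h0
      rw [Int.gcd_eq_zero_iff] at h1
      exact hv (Zsqrtd.ext h1.1 h1.2)
    have hx : (v.re * u.re + v.im * u.im) * (Int.gcd v.re v.im : ℤ) = 0 := by
      have : (v.re * u.re + v.im * u.im) * (Int.gcd v.re v.im : ℤ) = (nm v : ℤ) *
          (u.re * Int.gcdA v.re v.im + u.im * Int.gcdB v.re v.im) := by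
        rw [hg, hn]
        linear_combination ((v.im * Int.gcdA v.re v.im - v.re * Int.gcdB v.re v.im)) * hd
      rw [this, hk, mul_zero]
    have hx0 : v.re * u.re + v.im * u.im = 0 := by
      rcases mul_eq_zero.1 hx with h1 | h1
      · exact h1
      · exact absurd h1 hg0
    have h1 : (nm v : ℤ) * u.re = 0 := by
      rw [hn]; linear_combination v.re * hx0 - v.im * hd
    have h2 : (nm v : ℤ) * u.im = 0 := by
      rw [hn]; linear_combination v.im * hx0 + v.re * hd
    exact Zsqrtd.ext ((mul_eq_zero.1 h1).resolve_left hnp) ((mul_eq_zero.1 h2).resolve_left hnp)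

/-- counting -/
theorem cnt {N B : ℝ} (hN : 1 ≤ N) (hB : 1 ≤ B) (S : Finset GaussianInt)
    (hS : ∀ w ∈ S, N ≤ nm w ∧ (nm w : ℝ) ≤ B * N) {v : GaussianInt} (hv : v ∈ S) {φ : ℝ}
    (hφ : 0 < φ) : ((S.filter (fun w => ‖ag v - ag w‖ ≤ φ)).card : ℝ) ≤
      8 * B ^ 2 * ((Int.gcd v.re v.im : ℝ) + N * φ) := by
  classical
  have hvS := hS v hv
  have hv0 : v ≠ 0 := nz_of hN hvS.1
  set g : ℕ := Int.gcd v.re v.im with hg
  have hgp : 0 < g := by
    rw [Nat.pos_iff_ne_zero]
    intro h0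
    rw [hg, Int.gcd_eq_zero_iff] at h0
    exact hv0 (Zsqrtd.ext h0.1 h0.2)
  have hgR : (1 : ℝ) ≤ g := by exact_mod_cast hgp
  have hnR : (0 : ℝ) < nm v := by linarith [hvS.1]
  set T : ℤ := ⌊B * N * φ / g⌋ with hT
  set R : ℤ := ⌊B * g⌋ with hR
  have hBN : (0 : ℝ) ≤ B * N := by positivity
  have hT0 : 0 ≤ T := Int.floor_nonneg.2 (by positivity)
  have hR0 : 0 ≤ R := Int.floor_nonneg.2 (by positivity)
  set f : GaussianInt → ℤ × ℤ := fun w => ((v.re * w.im - v.im * w.re) / (g : ℤ),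
    ⌊(((v.re * w.re + v.im * w.im : ℤ) : ℝ) * g) / nm v⌋) with hf
  have hdvd : ∀ w : GaussianInt, (g : ℤ) ∣ v.re * w.im - v.im * w.re := fun w =>
    dvd_sub ((Int.gcd_dvd_left _ _).mul_right _) ((Int.gcd_dvd_right _ _).mul_right _)
  have hmaps : ∀ w ∈ S.filter (fun w => ‖ag v - ag w‖ ≤ φ),
      f w ∈ Finset.Icc (-T) T ×ˢ Finset.Icc (-(R + 1)) R := by
    intro w hw
    rw [Finset.mem_filter] at hw
    have hwS := hS w hw.1
    rw [Finset.mem_product, Finset.mem_Icc, Finset.mem_Icc]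
    constructor
    · obtain ⟨t, ht⟩ := hdvd w
      have h1 := wedge hN hvS.1 hwS.1 hvS.2 hwS.2 hw.2
      have h2 : (f w).1 = t := by
        simp only [hf]
        rw [ht, Int.mul_ediv_cancel_left _ (by exact_mod_cast hgp.ne')]
      rw [h2]
      have h3 : |(t : ℝ)| ≤ B * N * φ / g := by
        rw [ht] at h1
        push_cast at h1
        rw [abs_mul, Nat.abs_cast] at h1
        rw [le_div_iff₀ (by linarith)]
        linarith
      have h4 : |t| ≤ T := by
        rw [hT, Int.le_floor]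
        push_cast
        exact h3
      exact abs_le.1 h4
    · have h1 : |((v.re * w.re + v.im * w.im : ℤ) : ℝ)| ≤ B * N := by
        have e1 := nm_eq v
        have e2 := nm_eq w
        push_cast
        have h5 : ((v.re : ℝ) * w.re + v.im * w.im) ^ 2 ≤ nm v * nm w := by
          rw [e1, e2]
          nlinarith [sq_nonneg ((v.re : ℝ) * w.im - v.im * w.re)]
        have h6 : (nm v : ℝ) * nm w ≤ (B * N) ^ 2 := by
          rw [sq]
          exact mul_le_mul hvS.2 hwS.2 (by positivity) hBN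
        exact abs_le_of_sq_le_sq (h5.trans h6) hBN
      have h2 : |(((v.re * w.re + v.im * w.im : ℤ) : ℝ) * g) / nm v| ≤ B * g := by
        rw [abs_div, abs_mul, Nat.abs_cast, Nat.abs_cast, div_le_iff₀ hnR]
        calc |((v.re * w.re + v.im * w.im : ℤ) : ℝ)| * g ≤ B * N * g :=
              mul_le_mul_of_nonneg_right h1 (by positivity)
          _ = B * g * N := by ring
          _ ≤ B * g * nm v := mul_le_mul_of_nonneg_left hvS.1 (by positivity)
      have h3 := abs_le.1 h2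
      have h7 : (B * g : ℝ) < R + 1 := Int.lt_floor_add_one _
      constructor
      · rw [Int.le_floor, Int.cast_neg, Int.cast_add, Int.cast_one]
        linarith
      · exact Int.floor_mono h3.2
  have hinj : Set.InjOn f (S.filter (fun w => ‖ag v - ag w‖ ≤ φ)) := by
    intro w _ w' _ heq
    have h1 : (v.re * w.im - v.im * w.re) / (g : ℤ) = (v.re * w'.im - v.im * w'.re) / (g : ℤ) :=
      congrArg Prod.fst heq
    have h2 : ⌊(((v.re * w.re + v.im * w.im : ℤ) : ℝ) * g) / nm v⌋ =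
        ⌊(((v.re * w'.re + v.im * w'.im : ℤ) : ℝ) * g) / nm v⌋ := congrArg Prod.snd heq
    have h3 : v.re * w.im - v.im * w.re = v.re * w'.im - v.im * w'.re := by
      rw [← Int.mul_ediv_cancel' (hdvd w), h1, Int.mul_ediv_cancel' (hdvd w')]
    have h4 : v.re * (w - w').im - v.im * (w - w').re = 0 := by
      rw [Zsqrtd.im_sub, Zsqrtd.re_sub]
      linear_combination h3
    obtain ⟨k, hk, hk0⟩ := ray h4
    have h5 : |(((v.re * w.re + v.im * w.im : ℤ) : ℝ) * g) / nm v -
        (((v.re * w'.re + v.im * w'.im : ℤ) : ℝ) * g) / nm v| < 1 := Int.abs_sub_lt_one_of_floor_eq_floor h2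
    have h6 : (((v.re * w.re + v.im * w.im : ℤ) : ℝ) * g) / nm v -
        (((v.re * w'.re + v.im * w'.im : ℤ) : ℝ) * g) / nm v = k := by
      rw [← sub_div, div_eq_iff hnR.ne', ← sub_mul]
      have h7 : ((v.re * w.re + v.im * w.im) - (v.re * w'.re + v.im * w'.im)) * (g : ℤ) =
          (nm v : ℤ) * k := by
        rw [← hk, Zsqrtd.im_sub, Zsqrtd.re_sub]
        ring
      have h8 := congrArg (fun t : ℤ => (t : ℝ)) h7
      push_cast at h8
      push_cast
      linarith
    rw [h6] at h5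
    have h9 : k = 0 := by
      have : |k| < 1 := by exact_mod_cast h5
      exact Int.abs_lt_one_iff.1 this
    exact sub_eq_zero.1 (hk0 h9 hv0)
  have hcard := Finset.card_le_card_of_injOn f hmaps hinj
  rw [Finset.card_product, Int.card_Icc, Int.card_Icc] at hcard
  have hc1 : ((T + 1 - -T).toNat : ℝ) ≤ 2 * (B * N * φ / g) + 1 := by
    have h1 : (((T + 1 - -T).toNat : ℤ) : ℝ) = 2 * T + 1 := by
      rw [Int.toNat_of_nonneg (by omega)]
      push_cast; ring
    have h2 : (((T + 1 - -T).toNat : ℕ) : ℝ) = 2 * T + 1 := by exact_mod_cast h1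
    rw [h2]
    have h3 : (T : ℝ) ≤ B * N * φ / g := Int.floor_le _
    linarith
  have hc2 : ((R + 1 - -(R + 1)).toNat : ℝ) ≤ 4 * (B * g) := by
    have h1 : (((R + 1 - -(R + 1)).toNat : ℤ) : ℝ) = 2 * R + 2 := by
      rw [Int.toNat_of_nonneg (by omega)]
      push_cast; ring
    have h2 : (((R + 1 - -(R + 1)).toNat : ℕ) : ℝ) = 2 * R + 2 := by exact_mod_cast h1
    rw [h2]
    have h3 : (R : ℝ) ≤ B * g := Int.floor_le _
    have h4 : (1 : ℝ) ≤ B * g := by nlinarith
    linarith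
  calc ((S.filter (fun w => ‖ag v - ag w‖ ≤ φ)).card : ℝ)
      ≤ (((T + 1 - -T).toNat * (R + 1 - -(R + 1)).toNat : ℕ) : ℝ) := by exact_mod_cast hcard
    _ = ((T + 1 - -T).toNat : ℝ) * ((R + 1 - -(R + 1)).toNat : ℝ) := by push_cast; ring
    _ ≤ (2 * (B * N * φ / g) + 1) * (4 * (B * g)) :=
        mul_le_mul hc1 hc2 (by positivity) (by positivity)
    _ = 8 * B ^ 2 * (N * φ) + 4 * B * g := by field_simp; ring
    _ ≤ 8 * B ^ 2 * ((g : ℝ) + N * φ) := by
        have h1 : B ≤ B ^ 2 := by nlinarith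
        have h2 : B * g ≤ B ^ 2 * g := mul_le_mul_of_nonneg_right h1 (by linarith)
        nlinarith [h2]

end LS3

open LS3

theorem stLS_3 : StLS := by
  refine ⟨1600, by norm_num, fun N B J hN hB S hS a => ?_⟩
  have h := MRS19.ls_abs S ag (fun v hv => norm_ag (nz_of hN (hS v hv).1)) (8 * B ^ 2) N
    (fun v => (Int.gcd v.re v.im : ℝ)) (by positivity) (by linarith) (fun v _ => by positivity)
    (fun v hv φ hφ => cnt hN hB S hS hv hφ) J a
  refine h.trans (le_of_eq ?_)
  ring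

theorem stLsp_3 : StLsp := by
  refine ⟨1600, by norm_num, fun X J hX S hS a => ?_⟩
  have hco : ∀ v ∈ S, IsCoprime (pp v).1 (pp v).2 := fun v hv => Int.isCoprime_iff_gcd_eq_one.2 (hS v hv).1
  have hnX : ∀ v ∈ S, ((pp v).1 : ℝ) ^ 2 + ((pp v).2 : ℝ) ^ 2 ≤ X := by
    intro v hv
    have := (hS v hv).2
    rw [nm_eq] at this
    exact this
  have h := MRS19.ls_sep S ag (fun v hv => by
      rw [ag_eq]; exact MRS19.norm_dir (MRS19.prim_ne_zero (hco v hv))) (1 / X) (by positivity)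
    (fun v hv w hw hne => by
      rw [ag_eq, ag_eq]
      refine MRS19.dir_sep (hco v hv) (hco w hw) X hX (hnX v hv) (hnX w hw) ?_
      intro h1
      exact hne (Zsqrtd.ext (congrArg Prod.fst h1) (congrArg Prod.snd h1))) J a
  rw [one_div_one_div] at h
  refine h.trans ?_
  refine mul_le_mul_of_nonneg_right ?_ (by positivity)
  have : (0 : ℝ) ≤ J := by positivity
  linarith

end Pool.Agent.Lib.MP_a17b09_nt.MRS
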