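import Pool.Agent.Lib.MP_a17b09_nt.MRS.Stmts3

/-!
MRS, levels: the covering of the frequencies by the levels (helper38).
-/

set_option autoImplicit false

open Filter Topology Finset

namespace Pool.Agent.Lib.MP_a17b09_nt.MRS

namespace Lev38

open Classical in
/-- first good level -/
theorem cover (S : Finset ℤ) (good : ℕ → ℤ → Prop) (J : ℕ) (f : ℤ → ℝ) (hf : ∀ j, 0 ≤ f j) :
    ∑ j ∈ S.filter (fun j => ∃ i ≤ J, good i j), f j ≤
      ∑ j ∈ S.filter (fun j => good 0 j), f j +
      ∑ i ∈ Finset.range J, ∑ j ∈ S.filter (fun j => good (i + 1) j ∧ ¬ good i j), f j := by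
  simp only [Finset.sum_filter]
  rw [Finset.sum_comm, ← Finset.sum_add_distrib]
  refine Finset.sum_le_sum fun j _ => ?_
  have h2 : 0 ≤ ∑ i ∈ Finset.range J, (if good (i + 1) j ∧ ¬ good i j then f j else 0) :=
    Finset.sum_nonneg fun i _ => by split_ifs <;> [exact hf j; exact le_rfl]
  by_cases hex : ∃ i, i ≤ J ∧ good i j
  · have hex' : ∃ i ≤ J, good i j := hex
    rw [if_pos hex']
    obtain ⟨hle, hg⟩ := Nat.find_spec hex
    have hmin := fun m => @Nat.find_min _ _ hex m
    rcases Nat.eq_zero_or_pos (Nat.find hex) with h0 | h0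
    · rw [h0] at hg
      rw [if_pos hg]
      linarith
    · obtain ⟨m, hm⟩ := Nat.exists_eq_succ_of_ne_zero h0.ne'
      have h3 : f j ≤ ∑ i ∈ Finset.range J, (if good (i + 1) j ∧ ¬ good i j then f j else 0) := by
        have h4 := Finset.single_le_sum (f := fun i => if good (i + 1) j ∧ ¬ good i j then f j else 0)
          (s := Finset.range J) (fun i _ => by
            split_ifs <;> [exact hf j; exact le_rfl]) (a := m) (by rw [mem_range]; omega)
        rwa [if_pos ⟨by rw [hm] at hg; exact hg, fun hgm => hmin m (by omega) ⟨by omega, hgm⟩⟩] at h4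
      have h5 : 0 ≤ (if good 0 j then f j else 0) := by split_ifs <;> [exact hf j; exact le_rfl]
      linarith
  · have hex' : ¬ ∃ i ≤ J, good i j := hex
    rw [if_neg hex']
    have h5 : 0 ≤ (if good 0 j then f j else 0) := by split_ifs <;> [exact hf j; exact le_rfl]
    linarith

end Lev38

end Pool.Agent.Lib.MP_a17b09_nt.MRS
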