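import Pool.Agent.Lib.MP_a17b09_nt.MRS.StmtsL38
import Pool.Agent.Lib.MP_a17b09_nt.MRS.Cov38

/-!
MRS, levels: assembly of `StLev` (helper38; schedule of helper27).
-/

set_option autoImplicit false

open Filter Topology Finset

namespace Pool.Agent.Lib.MP_a17b09_nt.MRS

namespace Lev38

/-- one level -/
theorem lvl (S T : Finset ℤ) (hTS : T ⊆ S) (M X : ℤ → ℂ) (L E B : ℝ) (hL : 1 ≤ L)
    (hE : ∑ j ∈ S, ‖M j - (1 / (L : ℂ)) * X j‖ ^ 2 ≤ E) (hB : ∑ j ∈ T, ‖X j‖ ^ 2 ≤ B) :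
    ∑ j ∈ T, ‖M j‖ ^ 2 ≤ 2 * E + 2 * B := by
  have h1 : ∀ j, ‖M j‖ ^ 2 ≤ 2 * ‖M j - (1 / (L : ℂ)) * X j‖ ^ 2 + 2 * ‖X j‖ ^ 2 := by
    intro j
    have h2 : ‖M j‖ ≤ ‖M j - (1 / (L : ℂ)) * X j‖ + ‖X j‖ := by
      have h3 : M j = (M j - (1 / (L : ℂ)) * X j) + (1 / (L : ℂ)) * X j := by ring
      have h4 : ‖(1 / (L : ℂ)) * X j‖ ≤ ‖X j‖ := by
        rw [norm_mul, norm_div, norm_one, Complex.norm_real, Real.norm_of_nonneg (by linarith)]
        have h5 : 1 / L ≤ 1 := by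
          rw [div_le_one (by linarith)]; exact hL
        calc 1 / L * ‖X j‖ ≤ 1 * ‖X j‖ := mul_le_mul_of_nonneg_right h5 (norm_nonneg _)
          _ = ‖X j‖ := one_mul _
      calc ‖M j‖ = ‖(M j - (1 / (L : ℂ)) * X j) + (1 / (L : ℂ)) * X j‖ := by rw [← h3]
        _ ≤ ‖M j - (1 / (L : ℂ)) * X j‖ + ‖(1 / (L : ℂ)) * X j‖ := norm_add_le _ _
        _ ≤ _ := by linarith
    have h6 := norm_nonneg (M j)
    have h7 := norm_nonneg (M j - (1 / (L : ℂ)) * X j)
    have h8 := norm_nonneg (X j)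
    nlinarith [sq_nonneg (‖M j - (1 / (L : ℂ)) * X j‖ - ‖X j‖)]
  calc ∑ j ∈ T, ‖M j‖ ^ 2
      ≤ ∑ j ∈ T, (2 * ‖M j - (1 / (L : ℂ)) * X j‖ ^ 2 + 2 * ‖X j‖ ^ 2) :=
        Finset.sum_le_sum fun j _ => h1 j
    _ = 2 * ∑ j ∈ T, ‖M j - (1 / (L : ℂ)) * X j‖ ^ 2 + 2 * ∑ j ∈ T, ‖X j‖ ^ 2 := by
        rw [Finset.sum_add_distrib, ← Finset.mul_sum, ← Finset.mul_sum]
    _ ≤ 2 * ∑ j ∈ S, ‖M j - (1 / (L : ℂ)) * X j‖ ^ 2 + 2 * ∑ j ∈ T, ‖X j‖ ^ 2 := by
        have := Finset.sum_le_sum_of_subset_of_nonneg (f := fun j => ‖M j - (1 / (L : ℂ)) * X j‖ ^ 2)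
          hTS (fun j _ _ => by positivity)
        linarith
    _ ≤ 2 * E + 2 * B := by linarith

open Classical in
/-- `StLev` -/
theorem lev (hDec : StDec2) (hMer : StMer) (hSch : StSch) (hT1 : StLevT1) (hT : StLevT)
    (hU : StLevU) : StLev := by
  intro z K ψ hz hK hψ r1 r2 h1 h2 ε c hε hc
  obtain ⟨CD, ND, hCD, hND, hDec'⟩ := hDec r1 r2 h1 h2 z K ψ hz hK hψ
  obtain ⟨CM, hCM, hMer'⟩ := hMer
  obtain ⟨C1, hC1, hT1'⟩ := hT1 r1 r2 h1 h2
  obtain ⟨CT, hCT, hT'⟩ := hT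
  obtain ⟨CU, hCU, hU'⟩ := hU
  set C : ℝ := 2 * CD + CM + 2 * C1 + CT + CU with hC
  have hr : 0 < r2 ^ 3 / r1 := by
    have : 0 < r2 := h1.trans h2
    positivity
  set ρ : ℝ := r2 ^ 3 / r1 with hρ
  have hε' : 0 < ε / (2 + 2 * ρ) := by positivity
  obtain ⟨H0, hH0, hS⟩ := hSch C r1 (ε / (2 + 2 * ρ)) c (by linarith) h1 hε' hc
  set ε' : ℝ := ε / (2 + 2 * ρ) with hε'def
  refine ⟨H0, hH0, fun H hH => ?_⟩
  obtain ⟨N0, hN0, hS'⟩ := hS H hH
  refine ⟨max N0 (max ND ((1 / r1) ^ 8)), fun N hN => ?_⟩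
  have hNN0 : N0 ≤ N := (le_max_left _ _).trans hN
  have hNND : ND ≤ N := ((le_max_left _ _).trans (le_max_right _ _)).trans hN
  have hNr : (1 / r1) ^ 8 ≤ N := ((le_max_right _ _).trans (le_max_right _ _)).trans hN
  have hN1 : 1 ≤ N := hN0.trans hNN0
  obtain ⟨n, h, u0, u1, α, hα, hlv, he0, hsum, hl0, hl1, hlU⟩ := hS' N hNN0
  have hH1 : 1 ≤ H := hH0.trans hH
  have hHp : 0 < H := by linarith
  set J : ℕ := ⌊N / H⌋₊ with hJ
  have hJle : (J : ℝ) ≤ N / H := Nat.floor_le (by positivity)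
  have hJN : (J : ℝ) ≤ N := hJle.trans (div_le_self (by linarith) hH1)
  have hrH : 1 ≤ r1 * H := (Real.one_le_exp (by positivity)).trans he0
  have hJr : (J : ℝ) ≤ r1 * N := by
    refine hJle.trans ?_
    rw [div_le_iff₀ hHp]
    nlinarith
  -- the windows are short compared to `N`
  set t : ℝ := N ^ (1 / 8 : ℝ) with ht
  have ht8 : t ^ 8 = N := by
    rw [ht, ← Real.rpow_natCast, ← Real.rpow_mul (by linarith)]
    norm_num
  have ht1 : 1 ≤ t := Real.one_le_rpow hN1 (by norm_num)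
  have htr : 1 / r1 ≤ t := by
    have := pow_le_pow_left₀ (by positivity) hNr
    by_contra hcon
    push Not at hcon
    have h3 : t ^ 8 < (1 / r1) ^ 8 := pow_lt_pow_left₀ hcon (by linarith) (by norm_num)
    rw [ht8] at h3
    linarith
  have hexp : ∀ i ≤ n, 1 ≤ r1 * (N * Real.exp (-(u1 i / h i))) := by
    intro i hi
    have h3 := (hlv i hi).2.2.2.2.1
    have h4 : 1 ≤ r1 * t := by
      rw [div_le_iff₀ h1] at htr
      linarith
    have h5 : (0 : ℝ) < Real.exp (u1 i / h i) := Real.exp_pos _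
    rw [Real.exp_neg]
    have h6 : 1 ≤ r1 * N * (Real.exp (u1 i / h i))⁻¹ := by
      rw [← div_eq_mul_inv, one_le_div h5]
      refine h3.trans ?_
      rw [← ht8]
      have h7 : (1 : ℝ) ≤ t ^ 6 := one_le_pow₀ ht1
      calc t = 1 * t := (one_mul t).symm
        _ ≤ (r1 * t) * t := by nlinarith
        _ = (r1 * t) * t * 1 := by ring
        _ ≤ (r1 * t) * t * t ^ 6 := by
          refine mul_le_mul_of_nonneg_left h7 (by positivity)
        _ = r1 * t ^ 8 := by ring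
    calc 1 ≤ r1 * N * (Real.exp (u1 i / h i))⁻¹ := h6
      _ = _ := by ring
  -- the set `U`
  set gd : ℕ → ℤ → Prop := fun i j => Gd z ψ (h i) (u0 i) (u1 i) (α i) j with hgd
  refine ⟨(js J).filter (fun j => ∀ i ≤ n, ¬ gd i j), Finset.filter_subset _ _, ?_, ?_⟩
  · -- the number of elements of `U`
    have hu1 : (0 : ℝ) < u1 n := by
      have := (hlv n le_rfl).2.2.1
      exact_mod_cast (Nat.zero_le _).trans_lt this
    have h3 : (((js J).filter (fun j => ¬ Gd z ψ (h n) (u0 n) (u1 n) (α n) j)).card : ℝ) ≤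
        u1 n * (N ^ c / u1 n) := by
      refine hU' z K ψ hz hK hψ (h n) (u0 n) (u1 n) J (α n) N (N ^ c / u1 n) (hlv n le_rfl).1
        (hlv n le_rfl).2.1 (hlv n le_rfl).2.2.1 (hα n) (by positivity) hJN fun s hs => ?_
      obtain ⟨l, hl, hl'⟩ := hlU s hs
      refine ⟨l, hl, ?_⟩
      rw [le_div_iff₀ hu1]
      refine le_trans ?_ hl'
      rw [mul_comm]
      refine mul_le_mul_of_nonneg_left ?_ hu1.le
      refine mul_le_mul_of_nonneg_left ?_ (Real.exp_pos _).le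
      refine mul_le_mul_of_nonneg_right ?_ (by positivity)
      exact pow_le_pow_left₀ (by linarith) (by rw [hC]; linarith) _
    rw [mul_div_cancel₀ _ hu1.ne'] at h3
    refine le_trans ?_ h3
    exact_mod_cast Finset.card_le_card fun j hj => by
      rw [mem_filter] at hj ⊢
      exact ⟨hj.1, hj.2 n le_rfl⟩
  · -- the sum
    have hset : js J \ (js J).filter (fun j => ∀ i ≤ n, ¬ gd i j) =
        (js J).filter (fun j => ∃ i ≤ n, gd i j) := by
      ext j
      rw [Finset.mem_sdiff, mem_filter, mem_filter]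
      constructor
      · rintro ⟨h3, h4⟩
        refine ⟨h3, ?_⟩
        by_contra hcon
        push Not at hcon
        exact h4 ⟨h3, hcon⟩
      · rintro ⟨h3, i, hi, h4⟩
        exact ⟨h3, fun h5 => h5.2 i hi h4⟩
    rw [hset]
    refine (cover (js J) gd n (fun j => ‖Mp z ψ r1 r2 N j‖ ^ 2) fun j => by positivity).trans ?_
    -- the error of a level
    have hLLge : ∀ i ≤ n, 1 ≤ LL (Real.exp (u0 i / h i)) (Real.exp (u1 i / h i)) ∧
        Real.log (u1 i / u0 i) - C ≤ LL (Real.exp (u0 i / h i)) (Real.exp (u1 i / h i)) ∧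
        1 ≤ Real.log (u1 i / u0 i) - C := by
      intro i hi
      obtain ⟨a1, a2, a3, a4, a5, a6⟩ := hlv i hi
      have hh : (0 : ℝ) < h i := by exact_mod_cast a1
      have hu : (3 : ℝ) ≤ u0 i / h i := by
        rw [le_div_iff₀ hh]
        exact_mod_cast a2
      have hu' : (u0 i : ℝ) / h i ≤ u1 i / h i :=
        div_le_div_of_nonneg_right (by exact_mod_cast a3.le) hh.le
      have h3 := hMer' (Real.exp (u0 i / h i)) (Real.exp (u1 i / h i)) (by
        have := Real.add_one_le_exp ((u0 i : ℝ) / h i)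
        linarith) (Real.exp_le_exp.2 hu')
      rw [Real.log_exp, Real.log_exp, div_div_div_cancel_right₀ hh.ne'] at h3
      have h4 := (abs_le.1 h3).1
      have h5 : CM ≤ C := by rw [hC]; linarith
      exact ⟨by linarith, by linarith, by linarith⟩
    have herr : ∀ i ≤ n, ∑ j ∈ js J, ‖Mp z ψ r1 r2 N j - (1 / (LL (Real.exp (u0 i / h i))
        (Real.exp (u1 i / h i)) : ℂ)) * ∑ u ∈ Finset.Ico (u0 i) (u1 i), Qs z ψ (h i) u j *
          Mp z ψ r1 r2 (N * Real.exp (-(u / h i))) j‖ ^ 2 ≤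
        CD * (1 / (Real.log (u1 i / u0 i) - C) + 1 / h i + h i / u0 i) := by
      intro i hi
      obtain ⟨a1, a2, a3, a4, a5, a6⟩ := hlv i hi
      obtain ⟨b1, b2, b3⟩ := hLLge i hi
      refine (hDec' (h i) (u0 i) (u1 i) N a1 a2 a3 hNND a4 a5 b1 J hJN).trans ?_
      refine mul_le_mul_of_nonneg_left ?_ hCD.le
      have := one_div_le_one_div_of_le (by linarith : 0 < Real.log (u1 i / u0 i) - C) b2
      linarith
    have hecmp : ∀ i ≤ n, 2 * (CD * (1 / (Real.log (u1 i / u0 i) - C) + 1 / h i + h i / u0 i)) ≤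
        C * (1 / (Real.log (u1 i / u0 i) - C) + 1 / h i + h i / u0 i) := by
      intro i hi
      obtain ⟨b1, b2, b3⟩ := hLLge i hi
      rw [← mul_assoc]
      refine mul_le_mul_of_nonneg_right (by rw [hC]; linarith) ?_
      have : 0 < 1 / (Real.log (u1 i / u0 i) - C) := by
        apply one_div_pos.2; linarith
      positivity
    -- level 0
    have hL0 : ∑ j ∈ (js J).filter (fun j => gd 0 j), ‖Mp z ψ r1 r2 N j‖ ^ 2 ≤
        C * (1 / (Real.log (u1 0 / u0 0) - C) + 1 / h 0 + h 0 / u0 0) + ε' := by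
      obtain ⟨a1, a2, a3, a4, a5, a6⟩ := hlv 0 (Nat.zero_le _)
      have h3 := hT1' z K ψ hz hK hψ (h 0) (u0 0) (u1 0) J (α 0) N a1 a2 a3 (hα 0)
        (hexp 0 (Nat.zero_le _)) (by
          calc (J : ℝ) * Real.exp (u1 0 / h 0) ≤ (N / H) * (r1 * H) :=
                mul_le_mul hJle he0 (Real.exp_pos _).le (by positivity)
            _ = r1 * N := by field_simp)
      have h4 := lvl (js J) ((js J).filter (fun j => gd 0 j)) (Finset.filter_subset _ _)
        (fun j => Mp z ψ r1 r2 N j) (fun j => ∑ u ∈ Finset.Ico (u0 0) (u1 0), Qs z ψ (h 0) u j *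
          Mp z ψ r1 r2 (N * Real.exp (-(u / h 0))) j) _ _ _ (hLLge 0 (Nat.zero_le _)).1
        (herr 0 (Nat.zero_le _)) h3
      refine h4.trans ?_
      have h5 := hecmp 0 (Nat.zero_le _)
      have h6 : 2 * (C1 * (u1 0 : ℝ) ^ 2 * Real.exp (-(2 * α 0 * (u0 0 / h 0)))) ≤ ε' := by
        refine le_trans ?_ hl0
        rw [← mul_assoc, ← mul_assoc]
        refine mul_le_mul_of_nonneg_right ?_ (Real.exp_pos _).le
        refine mul_le_mul_of_nonneg_right (by rw [hC]; linarith) (by positivity)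
      linarith
    -- the other levels
    have hL1 : ∀ i ∈ Finset.range n, ∑ j ∈ (js J).filter (fun j => gd (i + 1) j ∧ ¬ gd i j),
        ‖Mp z ψ r1 r2 N j‖ ^ 2 ≤
        C * (1 / (Real.log (u1 (i + 1) / u0 (i + 1)) - C) + 1 / h (i + 1) +
          h (i + 1) / u0 (i + 1)) + 2 * ρ * ε' * (1 / 2) ^ (i + 1) := by
      intro i hi
      rw [mem_range] at hi
      obtain ⟨a1, a2, a3, a4, a5, a6⟩ := hlv (i + 1) (by omega)
      obtain ⟨b1, b2, b3, b4, b5, b6⟩ := hlv i (by omega)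
      have hp1 : (0 : ℝ) < u1 (i + 1) := by exact_mod_cast (Nat.zero_le _).trans_lt a3
      have hp2 : (0 : ℝ) < u1 i := by exact_mod_cast (Nat.zero_le _).trans_lt b3
      have hp3 : (0 : ℝ) < (u1 (i + 1) : ℝ) ^ 2 * u1 i := by positivity
      have h3 := hT' r1 r2 h1 h2 z K ψ hz hK hψ (h (i + 1)) (u0 (i + 1)) (u1 (i + 1)) (h i) (u0 i)
        (u1 i) J (α (i + 1)) (α i) N (ε' * (1 / 2) ^ (i + 1) / ((u1 (i + 1) : ℝ) ^ 2 * u1 i))
        a1 a2 a3 b1 b2 b3 (hα _) (hα _) (by positivity) (hexp (i + 1) (by omega)) hJr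
        (fun u hu s hs => by
          obtain ⟨l, hl, hl'⟩ := hl1 i hi u hu s hs
          refine ⟨l, hl, ?_⟩
          rw [le_div_iff₀ hp3]
          refine le_trans ?_ hl'
          rw [mul_comm]
          refine mul_le_mul_of_nonneg_left ?_ hp3.le
          refine mul_le_mul_of_nonneg_left ?_ (Real.exp_pos _).le
          refine mul_le_mul_of_nonneg_right ?_ (by positivity)
          exact pow_le_pow_left₀ (by linarith) (by rw [hC]; linarith) _)
      rw [mul_div_cancel₀ _ hp3.ne'] at h3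
      have h4 := lvl (js J) ((js J).filter (fun j => gd (i + 1) j ∧ ¬ gd i j))
        (Finset.filter_subset _ _)
        (fun j => Mp z ψ r1 r2 N j) (fun j => ∑ u ∈ Finset.Ico (u0 (i + 1)) (u1 (i + 1)),
          Qs z ψ (h (i + 1)) u j * Mp z ψ r1 r2 (N * Real.exp (-(u / h (i + 1)))) j) _ _ _
        (hLLge (i + 1) (by omega)).1 (herr (i + 1) (by omega)) h3
      refine h4.trans ?_
      have h5 := hecmp (i + 1) (by omega)
      have h6 : 2 * (ρ * (ε' * (1 / 2) ^ (i + 1))) = 2 * ρ * ε' * (1 / 2) ^ (i + 1) := by ring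
      linarith
    have hgeo : ∑ i ∈ Finset.range n, ((1 : ℝ) / 2) ^ (i + 1) ≤ 1 := by
      have h3 : ∀ m : ℕ, ∑ i ∈ Finset.range m, ((1 : ℝ) / 2) ^ (i + 1) = 1 - (1 / 2) ^ m := by
        intro m
        induction m with
        | zero => simp
        | succ m ih => rw [Finset.sum_range_succ, ih, pow_succ]; ring
      rw [h3]
      have : (0 : ℝ) < (1 / 2) ^ n := by positivity
      linarith
    have h7 := Finset.sum_le_sum hL1
    rw [Finset.sum_add_distrib] at h7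
    rw [Finset.sum_range_succ'] at hsum
    have h8 : ∑ i ∈ Finset.range n, 2 * ρ * ε' * ((1 : ℝ) / 2) ^ (i + 1) ≤ 2 * ρ * ε' := by
      rw [← Finset.mul_sum]
      have : 0 ≤ 2 * ρ * ε' := by positivity
      nlinarith
    have h9 : ε' * (2 + 2 * ρ) = ε := by
      rw [hε'def]; field_simp
    linarith

end Lev38

/-- **LEV** -/
theorem stLev_38 (hDec : StDec2) (hMer : StMer) (hSch : StSch) (hT1 : StLevT1) (hT : StLevT)
    (hU : StLevU) : StLev := Lev38.lev hDec hMer hSch hT1 hT hU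

end Pool.Agent.Lib.MP_a17b09_nt.MRS
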