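import Pool.Agent.Lib.MP_a17b09_nt.MRS.StmtsL38

/-!
Project MRS, levels: the main term of the first level (from `StLsp`).
-/

set_option autoImplicit false

open Filter Topology Finset

namespace Pool.Agent.Lib.MP_a17b09_nt.MRS

/-- the norm of a nonzero Gaussian integer is at least `1` -/
theorem one_le_nm {v : GaussianInt} (hv : v ≠ 0) : (1 : ℝ) ≤ nm v := by
  exact_mod_cast Nat.one_le_iff_ne_zero.2 (mt nm_eq_zero.1 hv)

/-- the number of lattice points of a disc -/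
theorem card_Sh {a b : ℝ} (hb : 0 < b) : ((Sh a b).card : ℝ) ≤ 9 * b := by
  rcases lt_or_ge b 1 with h1 | h1
  · have h2 : Sh a b = ∅ := by
      rw [Finset.eq_empty_iff_forall_notMem]
      intro v hv
      obtain ⟨h3, -, h4⟩ := mem_Sh.1 hv
      linarith [one_le_nm h3]
    rw [h2, Finset.card_empty, Nat.cast_zero]
    positivity
  · set n : ℕ := ⌊√b⌋₊ with hn
    have hsb : 1 ≤ √b := by rw [Real.one_le_sqrt]; exact h1
    have h2 : (Sh a b).card ≤ (Finset.Icc (-(n : ℤ)) n ×ˢ Finset.Icc (-(n : ℤ)) n).card := by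
      refine Finset.card_le_card_of_injOn (fun v => (v.re, v.im)) ?_ ?_
      · intro v hv
        obtain ⟨-, -, h3⟩ := mem_Sh.1 hv
        rw [nm_eq] at h3
        have key : ∀ t : ℤ, (t : ℝ) ^ 2 ≤ b → t ∈ Finset.Icc (-(n : ℤ)) n := by
          intro t ht
          have h4 : |(t : ℝ)| ≤ √b := Real.abs_le_sqrt ht
          have h5 : ((t.natAbs : ℕ) : ℝ) ≤ √b := by
            rw [Nat.cast_natAbs]; push_cast; exact h4
          have h6 : t.natAbs ≤ n := Nat.le_floor h5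
          rw [Finset.mem_Icc]
          omega
        rw [Finset.coe_product, Set.mem_prod]
        exact ⟨key _ (by nlinarith [sq_nonneg (v.im : ℝ)]), key _ (by nlinarith [sq_nonneg (v.re : ℝ)])⟩
      · intro v _ w _ hvw
        simp only [Prod.mk.injEq] at hvw
        exact Zsqrtd.ext hvw.1 hvw.2
    have h3 : (Finset.Icc (-(n : ℤ)) n ×ˢ Finset.Icc (-(n : ℤ)) n).card =
        (2 * n + 1) * (2 * n + 1) := by
      rw [Finset.card_product, Int.card_Icc]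
      have : ((n : ℤ) + 1 - (-(n : ℤ))).toNat = 2 * n + 1 := by omega
      rw [this]
    have h4 : ((Sh a b).card : ℝ) ≤ (2 * n + 1) * (2 * n + 1) := by
      have := h2.trans h3.le
      exact_mod_cast this
    have h5 : (n : ℝ) ≤ √b := Nat.floor_le (Real.sqrt_nonneg b)
    have h6 : √b * √b = b := Real.mul_self_sqrt (by linarith)
    have h7 : (2 * (n : ℝ) + 1) ≤ 3 * √b := by linarith
    have h8 : (0 : ℝ) ≤ 2 * n + 1 := by positivity
    calc ((Sh a b).card : ℝ) ≤ (2 * n + 1) * (2 * n + 1) := h4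
      _ ≤ (3 * √b) * (3 * √b) := mul_le_mul h7 h7 h8 (by positivity)
      _ = 9 * (√b * √b) := by ring
      _ = 9 * b := by rw [h6]

theorem norm_psi_le {K : ℕ} {ψ : GaussianInt → ℂ} (hψ : Chr K ψ) (v : GaussianInt) : ‖ψ v‖ ≤ 1 := by
  by_cases h : IsCoprime v (K : GaussianInt)
  · exact (hψ.nrm v h).le
  · rw [hψ.zer v h, norm_zero]; exact zero_le_one

/-- the coefficient of `FF` -/
noncomputable def cf (z : ℂ) (ψ : GaussianInt → ℂ) (v : GaussianInt) : ℂ :=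
  z ^ (ArithmeticFunction.cardFactors (nm v)) * ψ v

theorem norm_cf_le {z : ℂ} (hz : ‖z‖ = 1) {K : ℕ} {ψ : GaussianInt → ℂ} (hψ : Chr K ψ)
    (v : GaussianInt) : ‖cf z ψ v‖ ≤ 1 := by
  unfold cf
  rw [norm_mul, norm_pow, hz, one_pow, one_mul]
  exact norm_psi_le hψ v

/-- mean square of the primitive sums -/
theorem mpLs_11 (hL : StLsp) : ∀ r1 r2 : ℝ, 0 < r2 → ∃ C : ℝ, 0 < C ∧ ∀ (z : ℂ) (K : ℕ)
    (ψ : GaussianInt → ℂ), ‖z‖ = 1 → Chr K ψ → ∀ (N : ℝ) (J : ℕ), 0 < N →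
    ∑ j ∈ js J, ‖Mp z ψ r1 r2 N j‖ ^ 2 ≤ C * (1 + J / N) := by
  intro r1 r2 hr2
  obtain ⟨C, hC, hC2⟩ := hL
  refine ⟨9 * C * r2 * (r2 + 1), by positivity, fun z K ψ hz hψ N J hN => ?_⟩
  rcases lt_or_ge (r2 * N) 1 with h1 | h1
  · have h2 : Sh (r1 * N) (r2 * N) = ∅ := by
      rw [Finset.eq_empty_iff_forall_notMem]
      intro v hv
      obtain ⟨h3, -, h4⟩ := mem_Sh.1 hv
      linarith [one_le_nm h3]
    have h3 : ∀ j ∈ js J, ‖Mp z ψ r1 r2 N j‖ ^ 2 = 0 := by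
      intro j _
      unfold Mp
      rw [h2]
      simp
    rw [Finset.sum_eq_zero h3]
    positivity
  · have h2 := hC2 (r2 * N) J h1 ((Sh (r1 * N) (r2 * N)).filter Pv)
      (fun v hv => ⟨(Finset.mem_filter.1 hv).2, (mem_Sh.1 (Finset.mem_filter.1 hv).1).2.2⟩)
      (cf z ψ)
    have h3 : ∑ v ∈ (Sh (r1 * N) (r2 * N)).filter Pv, ‖cf z ψ v‖ ^ 2 ≤ 9 * (r2 * N) := by
      calc ∑ v ∈ (Sh (r1 * N) (r2 * N)).filter Pv, ‖cf z ψ v‖ ^ 2
          ≤ ∑ v ∈ (Sh (r1 * N) (r2 * N)).filter Pv, (1 : ℝ) :=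
            Finset.sum_le_sum fun v _ => pow_le_one₀ (norm_nonneg _) (norm_cf_le hz hψ v)
        _ = (((Sh (r1 * N) (r2 * N)).filter Pv).card : ℝ) := by
            rw [Finset.sum_const, nsmul_eq_mul, mul_one]
        _ ≤ ((Sh (r1 * N) (r2 * N)).card : ℝ) := by
            exact_mod_cast Finset.card_filter_le _ _
        _ ≤ 9 * (r2 * N) := card_Sh (by positivity)
    have h4 : ∀ j ∈ js J, ‖Mp z ψ r1 r2 N j‖ ^ 2 = (1 / N ^ 2) *
        ‖∑ v ∈ (Sh (r1 * N) (r2 * N)).filter Pv, cf z ψ v * ag v ^ j‖ ^ 2 := by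
      intro j _
      unfold Mp
      rw [norm_mul, mul_pow]
      congr 1
      rw [norm_div, norm_one, Complex.norm_real, Real.norm_of_nonneg hN.le, div_pow, one_pow]
    rw [Finset.sum_congr rfl h4, ← Finset.mul_sum]
    have hJ : (0 : ℝ) ≤ J := Nat.cast_nonneg J
    calc (1 / N ^ 2) * ∑ j ∈ js J,
          ‖∑ v ∈ (Sh (r1 * N) (r2 * N)).filter Pv, cf z ψ v * ag v ^ j‖ ^ 2
        ≤ (1 / N ^ 2) * (C * (r2 * N + J) * (9 * (r2 * N))) := by
          refine mul_le_mul_of_nonneg_left (h2.trans ?_) (by positivity)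
          exact mul_le_mul_of_nonneg_left h3 (by positivity)
      _ = 9 * C * r2 * (r2 + J / N) := by
          field_simp
      _ ≤ 9 * C * r2 * ((r2 + 1) * (1 + J / N)) := by
          refine mul_le_mul_of_nonneg_left ?_ (by positivity)
          have h5 : 0 ≤ (J : ℝ) / N := by positivity
          nlinarith [mul_nonneg hr2.le h5]
      _ = 9 * C * r2 * (r2 + 1) * (1 + J / N) := by ring

/-- the main term of a level on a set where all slices are small, for slices of norm at most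
`r N / J` (from the large sieve) -/
theorem levT1_core (hL : StLsp) : ∀ r1 r2 : ℝ, 0 < r1 → r1 < r2 → ∃ C : ℝ, 0 < C ∧ ∀ (z : ℂ) (K : ℕ)
    (ψ : GaussianInt → ℂ), ‖z‖ = 1 → Chr K ψ →
    ∀ (h u0 u1 J : ℕ) (α r N : ℝ) (T : Finset ℤ), 0 < h → 0 ≤ α → 0 ≤ r → 0 < N →
    (J : ℝ) * Real.exp (u1 / h) ≤ r * N →
    T ⊆ js J → (∀ j ∈ T, ∀ u ∈ Finset.Ico u0 u1, ‖Qs z ψ h u j‖ ≤ Real.exp (-(α * (u / h)))) →
    ∑ j ∈ T, ‖∑ u ∈ Finset.Ico u0 u1,
      Qs z ψ h u j * Mp z ψ r1 r2 (N * Real.exp (-(u / h))) j‖ ^ 2 ≤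
      C * (1 + r) * (u1 : ℝ) ^ 2 * Real.exp (-(2 * α * (u0 / h))) := by
  intro r1 r2 hr1 hr12
  obtain ⟨C, hC, hC2⟩ := mpLs_11 hL r1 r2 (hr1.trans hr12)
  refine ⟨C, hC, fun z K ψ hz hψ h u0 u1 J α r N T hh hα hr hN hJ hT hQ => ?_⟩
  have hhR : (0 : ℝ) < h := by exact_mod_cast hh
  -- one frequency
  have h1 : ∀ j ∈ T, ‖∑ u ∈ Finset.Ico u0 u1,
      Qs z ψ h u j * Mp z ψ r1 r2 (N * Real.exp (-(u / h))) j‖ ^ 2 ≤
      u1 * ∑ u ∈ Finset.Ico u0 u1, Real.exp (-(2 * α * (u0 / h))) *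
        ‖Mp z ψ r1 r2 (N * Real.exp (-(u / h))) j‖ ^ 2 := by
    intro j hj
    have h2 : ‖∑ u ∈ Finset.Ico u0 u1,
        Qs z ψ h u j * Mp z ψ r1 r2 (N * Real.exp (-(u / h))) j‖ ≤
        ∑ u ∈ Finset.Ico u0 u1, Real.exp (-(α * (u0 / h))) *
          ‖Mp z ψ r1 r2 (N * Real.exp (-(u / h))) j‖ := by
      refine (norm_sum_le _ _).trans (Finset.sum_le_sum fun u hu => ?_)
      rw [norm_mul]
      refine mul_le_mul_of_nonneg_right ((hQ j hj u hu).trans ?_) (norm_nonneg _)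
      apply Real.exp_le_exp.2
      have h4 : (u0 : ℝ) ≤ u := by exact_mod_cast (Finset.mem_Ico.1 hu).1
      have h5 : (u0 : ℝ) / h ≤ u / h := div_le_div_of_nonneg_right h4 hhR.le
      linarith [mul_le_mul_of_nonneg_left h5 hα]
    have h3 : ‖∑ u ∈ Finset.Ico u0 u1,
        Qs z ψ h u j * Mp z ψ r1 r2 (N * Real.exp (-(u / h))) j‖ ^ 2 ≤
        (∑ u ∈ Finset.Ico u0 u1, Real.exp (-(α * (u0 / h))) *
          ‖Mp z ψ r1 r2 (N * Real.exp (-(u / h))) j‖) ^ 2 :=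
      pow_le_pow_left₀ (norm_nonneg _) h2 2
    refine h3.trans ?_
    have h4 := sq_sum_le_card_mul_sum_sq (s := Finset.Ico u0 u1)
      (f := fun u : ℕ => Real.exp (-(α * (u0 / h))) *
        ‖Mp z ψ r1 r2 (N * Real.exp (-(u / h))) j‖)
    refine h4.trans ?_
    have h5 : (((Finset.Ico u0 u1).card : ℕ) : ℝ) ≤ u1 := by
      rw [Nat.card_Ico]
      exact_mod_cast Nat.sub_le _ _
    have h6 : ∑ u ∈ Finset.Ico u0 u1, (Real.exp (-(α * (u0 / h))) *
        ‖Mp z ψ r1 r2 (N * Real.exp (-(u / h))) j‖) ^ 2 =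
        ∑ u ∈ Finset.Ico u0 u1, Real.exp (-(2 * α * (u0 / h))) *
          ‖Mp z ψ r1 r2 (N * Real.exp (-(u / h))) j‖ ^ 2 := by
      refine Finset.sum_congr rfl fun u _ => ?_
      rw [mul_pow, ← Real.exp_nat_mul]
      congr 2
      push_cast
      ring
    rw [h6]
    exact mul_le_mul_of_nonneg_right h5 (Finset.sum_nonneg fun u _ => by positivity)
  -- sum over the frequencies
  have h2 : ∀ u ∈ Finset.Ico u0 u1, ∑ j ∈ T,
      ‖Mp z ψ r1 r2 (N * Real.exp (-(u / h))) j‖ ^ 2 ≤ C * (1 + r) := by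
    intro u hu
    have h3 : ∑ j ∈ T, ‖Mp z ψ r1 r2 (N * Real.exp (-(u / h))) j‖ ^ 2 ≤
        ∑ j ∈ js J, ‖Mp z ψ r1 r2 (N * Real.exp (-(u / h))) j‖ ^ 2 :=
      Finset.sum_le_sum_of_subset_of_nonneg hT fun _ _ _ => by positivity
    refine h3.trans ((hC2 z K ψ hz hψ (N * Real.exp (-(u / h))) J (by positivity)).trans ?_)
    refine mul_le_mul_of_nonneg_left ?_ hC.le
    have h4 : (J : ℝ) / (N * Real.exp (-(u / h))) ≤ r := by
      rw [div_le_iff₀ (by positivity)]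
      have h5 : (u : ℝ) ≤ u1 := by exact_mod_cast (Finset.mem_Ico.1 hu).2.le
      have h6 : Real.exp ((u : ℝ) / h) ≤ Real.exp (u1 / h) :=
        Real.exp_le_exp.2 (div_le_div_of_nonneg_right h5 hhR.le)
      have h7 : (J : ℝ) * Real.exp (u / h) ≤ r * N :=
        (mul_le_mul_of_nonneg_left h6 (Nat.cast_nonneg J)).trans hJ
      have h8 : (J : ℝ) = (J : ℝ) * Real.exp (u / h) * Real.exp (-(u / h)) := by
        rw [mul_assoc, ← Real.exp_add, add_neg_cancel, Real.exp_zero, mul_one]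
      rw [h8]
      calc (J : ℝ) * Real.exp (u / h) * Real.exp (-(u / h))
          ≤ (r * N) * Real.exp (-(u / h)) :=
            mul_le_mul_of_nonneg_right h7 (Real.exp_pos _).le
        _ = r * (N * Real.exp (-(u / h))) := by ring
    linarith
  calc ∑ j ∈ T, ‖∑ u ∈ Finset.Ico u0 u1,
        Qs z ψ h u j * Mp z ψ r1 r2 (N * Real.exp (-(u / h))) j‖ ^ 2
      ≤ ∑ j ∈ T, (u1 * ∑ u ∈ Finset.Ico u0 u1, Real.exp (-(2 * α * (u0 / h))) *
        ‖Mp z ψ r1 r2 (N * Real.exp (-(u / h))) j‖ ^ 2) := Finset.sum_le_sum h1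
    _ = u1 * ∑ u ∈ Finset.Ico u0 u1, Real.exp (-(2 * α * (u0 / h))) *
        ∑ j ∈ T, ‖Mp z ψ r1 r2 (N * Real.exp (-(u / h))) j‖ ^ 2 := by
        rw [← Finset.mul_sum, Finset.sum_comm]
        congr 1
        exact Finset.sum_congr rfl fun u _ => by rw [Finset.mul_sum]
    _ ≤ u1 * ∑ u ∈ Finset.Ico u0 u1, Real.exp (-(2 * α * (u0 / h))) * (C * (1 + r)) := by
        refine mul_le_mul_of_nonneg_left ?_ (Nat.cast_nonneg u1)
        exact Finset.sum_le_sum fun u hu =>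
          mul_le_mul_of_nonneg_left (h2 u hu) (Real.exp_pos _).le
    _ = u1 * (((Finset.Ico u0 u1).card : ℝ) * (Real.exp (-(2 * α * (u0 / h))) * (C * (1 + r)))) := by
        rw [Finset.sum_const, nsmul_eq_mul]
    _ ≤ u1 * ((u1 : ℝ) * (Real.exp (-(2 * α * (u0 / h))) * (C * (1 + r)))) := by
        refine mul_le_mul_of_nonneg_left ?_ (Nat.cast_nonneg u1)
        refine mul_le_mul_of_nonneg_right ?_ (by positivity)
        rw [Nat.card_Ico]
        exact_mod_cast Nat.sub_le _ _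
    _ = C * (1 + r) * (u1 : ℝ) ^ 2 * Real.exp (-(2 * α * (u0 / h))) := by ring

/-- LEVT1 -/
theorem stLevT1_11 (hL : StLsp) : StLevT1 := by
  intro r1 r2 hr1 hr12
  obtain ⟨C, hC, hC2⟩ := levT1_core hL r1 r2 hr1 hr12
  refine ⟨C * (1 + r1) + 1, by nlinarith, ?_⟩
  intro z K ψ hz hK hψ h u0 u1 J α N hh _ _ hα hN hJ
  have hN0 : 0 < N := by
    by_contra hneg
    push Not at hneg
    have h1 : r1 * (N * Real.exp (-(u1 / h))) ≤ 0 :=
      mul_nonpos_of_nonneg_of_nonpos hr1.le (mul_nonpos_of_nonpos_of_nonneg hneg (Real.exp_pos _).le)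
    linarith
  have key : ∀ T : Finset ℤ, T ⊆ js J → (∀ j ∈ T, Gd z ψ h u0 u1 α j) →
      ∑ j ∈ T, ‖∑ u ∈ Finset.Ico u0 u1,
        Qs z ψ h u j * Mp z ψ r1 r2 (N * Real.exp (-(u / h))) j‖ ^ 2 ≤
      (C * (1 + r1) + 1) * (u1 : ℝ) ^ 2 * Real.exp (-(2 * α * (u0 / h))) := by
    intro T hT hG
    refine (hC2 z K ψ hz hψ h u0 u1 J α r1 N T hh hα hr1.le hN0 hJ hT hG).trans ?_
    have h1 : 0 ≤ (u1 : ℝ) ^ 2 * Real.exp (-(2 * α * (u0 / h))) := by positivity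
    nlinarith
  refine key _ (fun j hj => ?_) (fun j hj => ?_)
  · exact ((@Finset.mem_filter _ _ (fun a => Classical.propDecidable _) _ _).1 hj).1
  · exact ((@Finset.mem_filter _ _ (fun a => Classical.propDecidable _) _ _).1 hj).2

end Pool.Agent.Lib.MP_a17b09_nt.MRS
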