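import Pool.Agent.Lib.MP_a17b09_nt.MRS.Stmts3
import Pool.Agent.Lib.MP_a17b09_nt.MRS.MomB16

/-! MRS: the moments in the form of the statement file (helper16). -/

set_option autoImplicit false

namespace Pool.Agent.Lib.MP_a17b09_nt.MRS

open Finset

/-- MOM with the third power of the ratio -/
def StMomB : Prop := ∃ C : ℝ, 1 ≤ C ∧ ∀ (z : ℂ) (K : ℕ) (ψ : GaussianInt → ℂ), ‖z‖ = 1 → 0 < K →
  Chr K ψ → ∀ (h u l J : ℕ), 0 < h → h ≤ u → ∀ (B Y : ℝ) (S : Finset GaussianInt)
    (a : GaussianInt → ℂ), 1 ≤ B → 1 ≤ Y → (∀ v ∈ S, Pv v ∧ Y ≤ nm v ∧ (nm v : ℝ) ≤ B * Y) →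
    (∀ v, ‖a v‖ ≤ 1) → (J : ℝ) ≤ Real.exp (l * (u / h)) * Y →
  ∑ j ∈ js J, ‖Qs z ψ h u j ^ l * Rs S Y a j‖ ^ 2 ≤ C ^ (l + 1) * B ^ 3 * (l.factorial : ℝ) ^ 2

theorem nm_cast16 (v : GaussianInt) : (nm v : ℝ) = (v.norm : ℝ) := by
  unfold nm
  rw [Nat.cast_natAbs, abs_of_nonneg (GaussianInt.norm_nonneg v)]

theorem prime_of_nm16 {v : GaussianInt} (h : (nm v).Prime) : Prime v := by
  have h1 : Irreducible v := by
    rw [irreducible_iff]
    constructor
    · intro hu
      have h2 := (Zsqrtd.norm_eq_one_iff).2 hu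
      unfold nm at h
      rw [h2] at h
      exact Nat.not_prime_one h
    · intro a b hab
      have h2 : nm v = nm a * nm b := by rw [hab, nm_mul]
      rw [h2, Nat.prime_mul_iff] at h
      rcases h with ⟨_, h3⟩ | ⟨_, h3⟩
      · right
        exact (Zsqrtd.norm_eq_one_iff).1 h3
      · left
        exact (Zsqrtd.norm_eq_one_iff).1 h3
  exact h1.prime

theorem assoc_quadrant16 {v w : GaussianInt} (h1 : 0 < v.re) (h2 : 0 < v.im) (h3 : 0 < w.re)
    (h4 : 0 < w.im) (h : Associated v w) : v = w := by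
  obtain ⟨u, hu⟩ := h
  have hn : (u : GaussianInt).norm.natAbs = 1 := (Zsqrtd.norm_eq_one_iff).2 u.isUnit
  have hn' : (u : GaussianInt).norm = 1 := by
    have := GaussianInt.norm_nonneg (u : GaussianInt)
    omega
  have hn2 : (u : GaussianInt).re * (u : GaussianInt).re +
      (u : GaussianInt).im * (u : GaussianInt).im = 1 := by
    have := hn'
    rw [Zsqrtd.norm_def] at this
    linarith
  set x := (u : GaussianInt).re with hx
  set y := (u : GaussianInt).im with hy
  have hre : w.re = v.re * x - v.im * y := by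
    rw [← hu, Zsqrtd.re_mul]; ring
  have him : w.im = v.re * y + v.im * x := by
    rw [← hu, Zsqrtd.im_mul]
  have hx1 : x ≤ 1 := by nlinarith
  have hx2 : -1 ≤ x := by nlinarith
  have hy1 : y ≤ 1 := by nlinarith
  have hy2 : -1 ≤ y := by nlinarith
  have hxc : x = -1 ∨ x = 0 ∨ x = 1 := by omega
  have hyc : y = -1 ∨ y = 0 ∨ y = 1 := by omega
  rcases hxc with e | e | e <;> rcases hyc with f | f | f <;> rw [e, f] at hn2 hre him
  all_goals first
    | (exfalso; omega)
    | skip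
  all_goals first
    | (exfalso; linarith)
    | (apply Zsqrtd.ext <;> linarith)

theorem pset_sl16 (a b : ℝ) : MRS16b.PSet (sl a b) where
  prime := by
    intro p hp
    unfold sl at hp
    exact prime_of_nm16 (Finset.mem_filter.1 hp).2.2.2.1
  nass := by
    intro p hp p' hp' h
    unfold sl at hp hp'
    exact assoc_quadrant16 (Finset.mem_filter.1 hp).2.1 (Finset.mem_filter.1 hp).2.2.1
      (Finset.mem_filter.1 hp').2.1 (Finset.mem_filter.1 hp').2.2.1 h

theorem chr_le16 {K : ℕ} {ψ : GaussianInt → ℂ} (h : Chr K ψ) (v : GaussianInt) : ‖ψ v‖ ≤ 1 := by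
  by_cases hv : IsCoprime v (K : GaussianInt)
  · exact (h.nrm v hv).le
  · rw [h.zer v hv, norm_zero]; exact zero_le_one

theorem stMomB_16 (hLS : StLS) : StMomB := by
  obtain ⟨C, hC, hLS⟩ := hLS
  -- the large sieve in the form of the module
  have hG : MRS16b.LSG C := by
    intro S N B J a hN hB hS
    have h1 := hLS N B J hN hB S (fun v hv => by rw [nm_cast16]; exact hS v hv) a
    exact h1
  refine ⟨2 * 18 * C * Real.exp (5 * 30) + 1 + Real.exp 3 * 121 * 4 *
    (2 * 18 * C * Real.exp (5 * 30) + 1), ?_, ?_⟩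
  · have h1 : 0 < Real.exp (5 * 30) := Real.exp_pos _
    have h2 : 0 < Real.exp 3 := Real.exp_pos _
    have h3 : 0 ≤ 2 * 18 * C * Real.exp (5 * 30) := by positivity
    have h4 : 0 ≤ Real.exp 3 * 121 * 4 * (2 * 18 * C * Real.exp (5 * 30) + 1) := by positivity
    linarith
  intro z K ψ hz hK hψ h u l J hh hhu B Y S a hB hY hS ha hJ
  have hhR : (0 : ℝ) < h := by exact_mod_cast hh
  have huh : (1 : ℝ) ≤ (u : ℝ) / h := by
    rw [le_div_iff₀ hhR]; rw [one_mul]; exact_mod_cast hhu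
  set P : ℝ := Real.exp (u / h) with hP
  set B1 : ℝ := Real.exp (1 / h) with hB1
  have hP2 : 2 ≤ P := by
    have h1 : Real.exp 1 ≤ P := Real.exp_le_exp.2 huh
    have h2 := Real.exp_one_gt_d9
    linarith
  have hB11 : 1 ≤ B1 := Real.one_le_exp (by positivity)
  have hB1e : B1 ≤ Real.exp 1 := by
    apply Real.exp_le_exp.2
    rw [div_le_iff₀ hhR, one_mul]
    exact_mod_cast hh
  have hPB : Real.exp (((u : ℝ) + 1) / h) = B1 * P := by
    rw [hB1, hP, ← Real.exp_add]; congr 1; field_simp; ring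
  set Pi := sl (Real.exp (u / h)) (Real.exp ((u + 1) / h)) with hPi
  have hmem : ∀ p ∈ Pi, P ≤ (p.norm : ℝ) ∧ (p.norm : ℝ) ≤ B1 * P := by
    intro p hp
    rw [hPi] at hp
    unfold sl at hp
    have h1 := (Finset.mem_filter.1 hp).2
    rw [← nm_cast16]
    exact ⟨h1.2.2.2.1, by rw [← hPB]; exact h1.2.2.2.2.le⟩
  have hprime : ∀ p ∈ Pi, (p.norm.natAbs).Prime := by
    intro p hp
    rw [hPi] at hp
    unfold sl at hp
    exact (Finset.mem_filter.1 hp).2.2.2.1
  have hps : MRS16b.PSet Pi := pset_sl16 _ _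
  have key := MRS16b.mom hC.le hG Pi hps hprime P B1 Y B hP2 hY hB11 hB hmem
    (fun v => z ^ (ArithmeticFunction.cardFactors (nm v)) * ψ v)
    (by
      intro p _
      rw [norm_mul, norm_pow, hz, one_pow, one_mul]
      exact chr_le16 hψ p) S
    (by
      intro m hm
      obtain ⟨h1, h2, h3⟩ := hS m hm
      rw [← nm_cast16]
      exact ⟨h1, h2, h3⟩) a (fun m _ => ha m) l J
  have hQ : ∀ j : ℤ, ∑ p ∈ Pi, (z ^ (ArithmeticFunction.cardFactors (nm p)) * ψ p) /
      ((p.norm : ℝ) : ℂ) * MRS16b.zd p ^ j = Qs z ψ h u j := by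
    intro j
    unfold Qs
    apply Finset.sum_congr rfl
    intro p _
    have h1 : MRS16b.zd p = ag p := rfl
    have h2 : ((p.norm : ℝ) : ℂ) = (nm p : ℂ) := by
      rw [← nm_cast16]; push_cast; rfl
    rw [h1, h2]
    unfold FF
    ring
  have hR : ∀ j : ℤ, (1 / (Y : ℂ)) * ∑ m ∈ S, a m * MRS16b.zd m ^ j = Rs S Y a j := fun j => rfl
  have hE : ∑ p ∈ Pi, 1 / (p.norm : ℝ) ≤ 30 := by
    have hP0 : 0 < P := Real.exp_pos _
    have h1 : ∀ p ∈ Pi, 1 / (p.norm : ℝ) ≤ 1 / P := fun p hp =>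
      one_div_le_one_div_of_le hP0 (hmem p hp).1
    have h2 : (Pi.card : ℝ) ≤ 9 * (B1 * P) := by
      apply MRS16b.card_ball Pi (B1 * P) (by positivity)
      intro p hp
      exact ⟨(hps.prime p hp).ne_zero, (hmem p hp).2⟩
    have h3 := Real.exp_one_lt_d9
    calc ∑ p ∈ Pi, 1 / (p.norm : ℝ) ≤ ∑ _p ∈ Pi, 1 / P := Finset.sum_le_sum h1
      _ = Pi.card * (1 / P) := by rw [Finset.sum_const, nsmul_eq_mul]
      _ ≤ (9 * (B1 * P)) * (1 / P) := mul_le_mul_of_nonneg_right h2 (by positivity)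
      _ = 9 * B1 := by field_simp
      _ ≤ 30 := by nlinarith
  have hW : (0 : ℝ) < P ^ l * Y := by positivity
  have hJW : 1 + (J : ℝ) / (P ^ l * Y) ≤ 2 := by
    have h1 : Real.exp (l * (u / h)) = P ^ l := by rw [hP, ← Real.exp_nat_mul]
    rw [h1] at hJ
    have h2 : (J : ℝ) / (P ^ l * Y) ≤ 1 := by
      rw [div_le_one hW]; exact hJ
    linarith
  have hfac : ((2 * l).factorial : ℝ) ≤ 4 ^ l * (l.factorial : ℝ) ^ 2 := by
    have h1 : (2 * l).factorial = Nat.centralBinom l * (l.factorial * l.factorial) := by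
      have h2 := Nat.choose_mul_factorial_mul_factorial (show l ≤ 2 * l by omega)
      have h3 : 2 * l - l = l := by omega
      rw [h3] at h2
      rw [Nat.centralBinom_eq_two_mul_choose, ← h2]
      ring
    have h2 : Nat.centralBinom l ≤ 4 ^ l := by
      have h3 := Nat.sum_range_choose (2 * l)
      have h4 : Nat.choose (2 * l) l ≤ ∑ m ∈ Finset.range (2 * l + 1), Nat.choose (2 * l) m :=
        Finset.single_le_sum (f := fun m => Nat.choose (2 * l) m) (fun _ _ => Nat.zero_le _)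
          (Finset.mem_range.2 (by omega))
      rw [h3] at h4
      rw [Nat.centralBinom_eq_two_mul_choose]
      calc Nat.choose (2 * l) l ≤ 2 ^ (2 * l) := h4
        _ = 4 ^ l := by rw [pow_mul]; norm_num
    have h3 : (2 * l).factorial ≤ 4 ^ l * (l.factorial * l.factorial) := by
      rw [h1]; exact Nat.mul_le_mul_right _ h2
    have h4 : ((2 * l).factorial : ℝ) ≤ ((4 ^ l * (l.factorial * l.factorial) : ℕ) : ℝ) := by
      exact_mod_cast h3
    push_cast at h4
    rw [pow_two]; exact h4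
  set G : ℝ := 2 * 18 * C * Real.exp (5 * 30) + 1 with hGd
  have hG1 : 1 ≤ G := by
    have h3 : 0 ≤ 2 * 18 * C * Real.exp (5 * 30) := by positivity
    linarith
  have hlhs : ∑ j ∈ js J, ‖Qs z ψ h u j ^ l * Rs S Y a j‖ ^ 2 =
      ∑ j ∈ Finset.Icc (-(J : ℤ)) J, ‖(∑ p ∈ Pi, (z ^ (ArithmeticFunction.cardFactors (nm p)) *
        ψ p) / ((p.norm : ℝ) : ℂ) * MRS16b.zd p ^ j) ^ l *
        ((1 / (Y : ℂ)) * ∑ m ∈ S, a m * MRS16b.zd m ^ j)‖ ^ 2 := by
    unfold js
    apply Finset.sum_congr rfl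
    intro j _
    rw [hQ j, hR j]
  rw [hlhs]
  refine le_trans key ?_
  have hB1l : (B1 ^ l * B) ^ 3 ≤ (Real.exp 3) ^ l * B ^ 3 := by
    rw [mul_pow, ← pow_mul, mul_comm l 3, pow_mul]
    apply mul_le_mul_of_nonneg_right _ (by positivity)
    apply pow_le_pow_left₀ (by positivity)
    calc B1 ^ 3 ≤ (Real.exp 1) ^ 3 := pow_le_pow_left₀ (by positivity) hB1e 3
      _ = Real.exp 3 := by rw [← Real.exp_nat_mul]; norm_num
  have hexp : Real.exp (5 * ∑ p ∈ Pi, 1 / (p.norm : ℝ)) ≤ Real.exp (5 * 30) := by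
    apply Real.exp_le_exp.2
    linarith
  calc 18 * C * (B1 ^ l * B) ^ 3 * (121 ^ l * ((2 * l).factorial : ℝ)) *
        (1 + J / (P ^ l * Y)) * Real.exp (5 * ∑ p ∈ Pi, 1 / (p.norm : ℝ))
      ≤ 18 * C * ((Real.exp 3) ^ l * B ^ 3) * (121 ^ l * (4 ^ l * (l.factorial : ℝ) ^ 2)) *
        2 * Real.exp (5 * 30) := by
        apply mul_le_mul _ hexp (Real.exp_pos _).le (by positivity)
        apply mul_le_mul _ hJW (by positivity) (by positivity)
        apply mul_le_mul _ _ (by positivity) (by positivity)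
        · apply mul_le_mul_of_nonneg_left hB1l (by positivity)
        · apply mul_le_mul_of_nonneg_left hfac (by positivity)
    _ = (2 * 18 * C * Real.exp (5 * 30)) * ((Real.exp 3 * 121 * 4) ^ l) * (B ^ 3 *
          (l.factorial : ℝ) ^ 2) := by
        rw [mul_pow, mul_pow]; ring
    _ ≤ G * ((Real.exp 3 * 121 * 4 * G) ^ l) * (B ^ 3 * (l.factorial : ℝ) ^ 2) := by
        apply mul_le_mul_of_nonneg_right _ (by positivity)
        apply mul_le_mul
        · rw [hGd]; linarith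
        · apply pow_le_pow_left₀ (by positivity)
          have h2 : 0 < Real.exp 3 * 121 * 4 := by positivity
          nlinarith
        · positivity
        · linarith
    _ ≤ (G + Real.exp 3 * 121 * 4 * G) * ((G + Real.exp 3 * 121 * 4 * G) ^ l) *
          (B ^ 3 * (l.factorial : ℝ) ^ 2) := by
        have h2 : 0 < Real.exp 3 * 121 * 4 := by positivity
        have h3 : 0 < G := by linarith
        apply mul_le_mul_of_nonneg_right _ (by positivity)
        apply mul_le_mul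
        · have : 0 ≤ Real.exp 3 * 121 * 4 * G := by positivity
          linarith
        · apply pow_le_pow_left₀ (by positivity)
          linarith
        · positivity
        · positivity
    _ = (G + Real.exp 3 * 121 * 4 * G) ^ (l + 1) * B ^ 3 * (l.factorial : ℝ) ^ 2 := by
        rw [pow_succ']; ring

end Pool.Agent.Lib.MP_a17b09_nt.MRS
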