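import Pool.Agent.Lib.MP_a17b09_nt.MRS.StmtsL38
import Pool.Agent.Lib.MP_a17b09_nt.MRS.StMom16

/-!
Project MRS, levels: the frequencies which are small at one level and large at the level before
(helper72).
-/

set_option autoImplicit false

open Finset

namespace Pool.Agent.Lib.MP_a17b09_nt.MRS

namespace LevT72

/-- the coefficient of `FF` -/
noncomputable def cf (z : ℂ) (ψ : GaussianInt → ℂ) (v : GaussianInt) : ℂ :=
  z ^ (ArithmeticFunction.cardFactors (nm v)) * ψ v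

theorem norm_cf_le {z : ℂ} (hz : ‖z‖ = 1) {K : ℕ} {ψ : GaussianInt → ℂ} (hψ : Chr K ψ)
    (v : GaussianInt) : ‖cf z ψ v‖ ≤ 1 := by
  unfold cf
  rw [norm_mul, norm_pow, hz, one_pow, one_mul]
  exact chr_le16 hψ v

/-- the primitive sum as a polynomial over primitive vectors -/
theorem Mp_eq (z : ℂ) (ψ : GaussianInt → ℂ) (r1 r2 N : ℝ) (hr1 : 0 < r1) (j : ℤ) :
    Mp z ψ r1 r2 N j = (r1 : ℂ) * Rs ((Sh (r1 * N) (r2 * N)).filter Pv) (r1 * N) (cf z ψ) j := by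
  unfold Mp Rs
  have h1 : (r1 : ℂ) ≠ 0 := by exact_mod_cast hr1.ne'
  rw [← mul_assoc]
  congr 1
  rw [Complex.ofReal_mul]
  field_simp

/-- the moments of a slice times the primitive sum -/
theorem mom (C : ℝ) (z : ℂ) (K : ℕ) (ψ : GaussianInt → ℂ) (hz : ‖z‖ = 1) (hψ : Chr K ψ)
    (h s l J : ℕ) (r1 r2 N : ℝ) (hr1 : 0 < r1) (hr12 : r1 < r2) (hN : 1 ≤ r1 * N)
    (hM : ∀ (B Y : ℝ) (S : Finset GaussianInt)
      (a : GaussianInt → ℂ), 1 ≤ B → 1 ≤ Y → (∀ v ∈ S, Pv v ∧ Y ≤ nm v ∧ (nm v : ℝ) ≤ B * Y) →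
      (∀ v, ‖a v‖ ≤ 1) → (J : ℝ) ≤ Real.exp (l * (s / h)) * Y →
      ∑ j ∈ js J, ‖Qs z ψ h s j ^ l * Rs S Y a j‖ ^ 2 ≤ C ^ (l + 1) * B ^ 3 * (l.factorial : ℝ) ^ 2)
    (hJ : (J : ℝ) ≤ Real.exp (l * (s / h)) * (r1 * N)) :
    ∑ j ∈ js J, ‖Qs z ψ h s j ^ l * Mp z ψ r1 r2 N j‖ ^ 2 ≤
      r2 ^ 3 / r1 * (C ^ (l + 1) * (l.factorial : ℝ) ^ 2) := by
  have h1 : ∀ j ∈ js J, ‖Qs z ψ h s j ^ l * Mp z ψ r1 r2 N j‖ ^ 2 = r1 ^ 2 *
      ‖Qs z ψ h s j ^ l * Rs ((Sh (r1 * N) (r2 * N)).filter Pv) (r1 * N) (cf z ψ) j‖ ^ 2 := by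
    intro j _
    rw [Mp_eq z ψ r1 r2 N hr1 j]
    rw [mul_left_comm, norm_mul, mul_pow, Complex.norm_real, Real.norm_eq_abs, sq_abs]
  rw [Finset.sum_congr rfl h1, ← Finset.mul_sum]
  have h2 := hM (r2 / r1) (r1 * N) ((Sh (r1 * N) (r2 * N)).filter Pv) (cf z ψ)
    (by rw [one_le_div hr1]; exact hr12.le) hN
    (by
      intro v hv
      rw [Finset.mem_filter, mem_Sh] at hv
      refine ⟨hv.2, hv.1.2.1.le, ?_⟩
      have : r2 / r1 * (r1 * N) = r2 * N := by field_simp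
      rw [this]
      exact hv.1.2.2)
    (norm_cf_le hz hψ) hJ
  calc _ ≤ r1 ^ 2 * (C ^ (l + 1) * (r2 / r1) ^ 3 * (l.factorial : ℝ) ^ 2) :=
        mul_le_mul_of_nonneg_left h2 (by positivity)
    _ = _ := by field_simp

/-- one frequency, one window of the new level: the large window of the level before is inserted -/
theorem point {Q : ℕ → ℂ} {m : ℂ} (v0 v1 h' : ℕ) (α' : ℝ) (l : ℕ → ℕ)
    (hex : ∃ s ∈ Finset.Ico v0 v1, Real.exp (-(α' * (s / h'))) < ‖Q s‖) :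
    ‖m‖ ^ 2 ≤ ∑ s ∈ Finset.Ico v0 v1,
      Real.exp (2 * l s * α' * (s / h')) * ‖Q s ^ (l s) * m‖ ^ 2 := by
  obtain ⟨s, hs, hsQ⟩ := hex
  refine le_trans ?_ (Finset.single_le_sum (f := fun s : ℕ =>
    Real.exp (2 * l s * α' * (s / h')) * ‖Q s ^ (l s) * m‖ ^ 2)
    (fun s _ => by positivity) hs)
  have h1 : Real.exp (-(2 * l s * α' * (s / h'))) ≤ ‖Q s ^ (l s)‖ ^ 2 := by
    rw [norm_pow, ← pow_mul]
    have h2 : Real.exp (-(2 * l s * α' * (s / h'))) = Real.exp (-(α' * (s / h'))) ^ (l s * 2) := by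
      rw [← Real.exp_nat_mul]
      congr 1
      push_cast
      ring
    rw [h2]
    exact pow_le_pow_left₀ (Real.exp_pos _).le hsQ.le _
  show ‖m‖ ^ 2 ≤ Real.exp (2 * l s * α' * (s / h')) * ‖Q s ^ (l s) * m‖ ^ 2
  rw [norm_mul, mul_pow, ← mul_assoc]
  refine le_mul_of_one_le_left (by positivity) ?_
  calc (1 : ℝ) = Real.exp (2 * l s * α' * (s / h')) * Real.exp (-(2 * l s * α' * (s / h'))) := by
        rw [← Real.exp_add, add_neg_cancel, Real.exp_zero]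
    _ ≤ _ := mul_le_mul_of_nonneg_left h1 (Real.exp_pos _).le

/-- one frequency: Cauchy's inequality over the windows of the new level -/
theorem cs {Q m : ℕ → ℂ} (h u0 u1 : ℕ) (α : ℝ)
    (hQ : ∀ u ∈ Finset.Ico u0 u1, ‖Q u‖ ≤ Real.exp (-(α * (u / h)))) :
    ‖∑ u ∈ Finset.Ico u0 u1, Q u * m u‖ ^ 2 ≤
      u1 * ∑ u ∈ Finset.Ico u0 u1, Real.exp (-(2 * α * (u / h))) * ‖m u‖ ^ 2 := by
  have h1 : ‖∑ u ∈ Finset.Ico u0 u1, Q u * m u‖ ≤
      ∑ u ∈ Finset.Ico u0 u1, Real.exp (-(α * (u / h))) * ‖m u‖ := by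
    refine (norm_sum_le _ _).trans (Finset.sum_le_sum fun u hu => ?_)
    rw [norm_mul]
    exact mul_le_mul_of_nonneg_right (hQ u hu) (norm_nonneg _)
  refine (pow_le_pow_left₀ (norm_nonneg _) h1 2).trans ?_
  refine sq_sum_le_card_mul_sum_sq.trans ?_
  have h5 : (((Finset.Ico u0 u1).card : ℕ) : ℝ) ≤ u1 := by
    rw [Nat.card_Ico]
    exact_mod_cast Nat.sub_le _ _
  have h6 : ∑ u ∈ Finset.Ico u0 u1, (Real.exp (-(α * (u / h))) * ‖m u‖) ^ 2 =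
      ∑ u ∈ Finset.Ico u0 u1, Real.exp (-(2 * α * (u / h))) * ‖m u‖ ^ 2 := by
    refine Finset.sum_congr rfl fun u _ => ?_
    rw [mul_pow, ← Real.exp_nat_mul]
    congr 2
    push_cast
    ring
  rw [h6]
  exact mul_le_mul_of_nonneg_right h5 (Finset.sum_nonneg fun u _ => by positivity)

/-- the estimate for an arbitrary set of frequencies -/
theorem core (C : ℝ) (r1 r2 : ℝ) (hr1 : 0 < r1) (hr12 : r1 < r2) (z : ℂ) (K : ℕ)
    (ψ : GaussianInt → ℂ) (hz : ‖z‖ = 1) (hψ : Chr K ψ)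
    (h u0 u1 h' v0 v1 J : ℕ) (α α' N M : ℝ) (hM0 : 0 ≤ M)
    (hM : ∀ (s l : ℕ), v0 ≤ s → ∀ (B Y : ℝ) (S : Finset GaussianInt)
      (a : GaussianInt → ℂ), 1 ≤ B → 1 ≤ Y → (∀ v ∈ S, Pv v ∧ Y ≤ nm v ∧ (nm v : ℝ) ≤ B * Y) →
      (∀ v, ‖a v‖ ≤ 1) → (J : ℝ) ≤ Real.exp (l * (s / h')) * Y →
      ∑ j ∈ js J, ‖Qs z ψ h' s j ^ l * Rs S Y a j‖ ^ 2 ≤
        C ^ (l + 1) * B ^ 3 * (l.factorial : ℝ) ^ 2)
    (hh : 0 < h) (hN : 1 ≤ r1 * (N * Real.exp (-(u1 / h)))) (hJ : (J : ℝ) ≤ r1 * N)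
    (hl : ∀ u ∈ Finset.Ico u0 u1, ∀ s ∈ Finset.Ico v0 v1, ∃ l : ℕ, (u / h : ℝ) ≤ l * (s / h') ∧
      Real.exp (2 * l * α' * (s / h') - 2 * α * (u / h)) *
        (C ^ (l + 1) * (l.factorial : ℝ) ^ 2) ≤ M)
    (T : Finset ℤ) (hT : T ⊆ js J)
    (hg : ∀ j ∈ T, ∀ u ∈ Finset.Ico u0 u1, ‖Qs z ψ h u j‖ ≤ Real.exp (-(α * (u / h))))
    (hb : ∀ j ∈ T, ∃ s ∈ Finset.Ico v0 v1, Real.exp (-(α' * (s / h'))) < ‖Qs z ψ h' s j‖) :
    ∑ j ∈ T, ‖∑ u ∈ Finset.Ico u0 u1,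
      Qs z ψ h u j * Mp z ψ r1 r2 (N * Real.exp (-(u / h))) j‖ ^ 2 ≤
      r2 ^ 3 / r1 * ((u1 : ℝ) ^ 2 * v1 * M) := by
  classical
  have hr2 : 0 < r2 := hr1.trans hr12
  have hhR : (0 : ℝ) < h := by exact_mod_cast hh
  -- choice of `l`
  have hl' : ∀ u s : ℕ, ∃ l : ℕ, u ∈ Finset.Ico u0 u1 → s ∈ Finset.Ico v0 v1 →
      (u / h : ℝ) ≤ l * (s / h') ∧ Real.exp (2 * l * α' * (s / h') - 2 * α * (u / h)) *
        (C ^ (l + 1) * (l.factorial : ℝ) ^ 2) ≤ M := by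
    intro u s
    by_cases hu : u ∈ Finset.Ico u0 u1
    · by_cases hs : s ∈ Finset.Ico v0 v1
      · obtain ⟨l, hl1⟩ := hl u hu s hs
        exact ⟨l, fun _ _ => hl1⟩
      · exact ⟨0, fun _ h2 => absurd h2 hs⟩
    · exact ⟨0, fun h2 => absurd h2 hu⟩
  choose l hl1 using hl'
  -- one frequency
  have h1 : ∀ j ∈ T, ‖∑ u ∈ Finset.Ico u0 u1,
      Qs z ψ h u j * Mp z ψ r1 r2 (N * Real.exp (-(u / h))) j‖ ^ 2 ≤
      u1 * ∑ u ∈ Finset.Ico u0 u1, ∑ s ∈ Finset.Ico v0 v1,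
        Real.exp (2 * l u s * α' * (s / h') - 2 * α * (u / h)) *
        ‖Qs z ψ h' s j ^ (l u s) * Mp z ψ r1 r2 (N * Real.exp (-(u / h))) j‖ ^ 2 := by
    intro j hj
    refine (cs (m := fun u => Mp z ψ r1 r2 (N * Real.exp (-(u / h))) j) h u0 u1 α (hg j hj)).trans ?_
    refine mul_le_mul_of_nonneg_left ?_ (Nat.cast_nonneg u1)
    refine Finset.sum_le_sum fun u _ => ?_
    refine (mul_le_mul_of_nonneg_left (point (Q := fun s => Qs z ψ h' s j) v0 v1 h' α' (l u)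
      (hb j hj)) (Real.exp_pos _).le).trans ?_
    rw [Finset.mul_sum]
    refine le_of_eq (Finset.sum_congr rfl fun s _ => ?_)
    rw [← mul_assoc, ← Real.exp_add]
    congr 2
    ring
  -- one pair of windows
  have h2 : ∀ u ∈ Finset.Ico u0 u1, ∀ s ∈ Finset.Ico v0 v1,
      Real.exp (2 * l u s * α' * (s / h') - 2 * α * (u / h)) * ∑ j ∈ T,
        ‖Qs z ψ h' s j ^ (l u s) * Mp z ψ r1 r2 (N * Real.exp (-(u / h))) j‖ ^ 2 ≤
      r2 ^ 3 / r1 * M := by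
    intro u hu s hs
    obtain ⟨h3, h4⟩ := hl1 u s hu hs
    rw [Finset.mem_Ico] at hu hs
    have huR : (u : ℝ) / h ≤ u1 / h :=
      div_le_div_of_nonneg_right (by exact_mod_cast hu.2.le) hhR.le
    have hN0 : 0 < N := by
      by_contra hN0
      rw [not_lt] at hN0
      have : r1 * (N * Real.exp (-(u1 / h))) ≤ 0 :=
        mul_nonpos_of_nonneg_of_nonpos hr1.le
          (mul_nonpos_of_nonpos_of_nonneg hN0 (Real.exp_pos _).le)
      linarith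
    have hN' : 1 ≤ r1 * (N * Real.exp (-(u / h))) := by
      refine hN.trans ?_
      refine mul_le_mul_of_nonneg_left ?_ hr1.le
      refine mul_le_mul_of_nonneg_left ?_ hN0.le
      exact Real.exp_le_exp.2 (by linarith)
    have hJ' : (J : ℝ) ≤ Real.exp (l u s * (s / h')) * (r1 * (N * Real.exp (-(u / h)))) := by
      refine hJ.trans ?_
      have h5 : Real.exp (u / h) ≤ Real.exp (l u s * (s / h')) := Real.exp_le_exp.2 h3
      calc r1 * N = Real.exp (u / h) * (r1 * (N * Real.exp (-(u / h)))) := by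
            have h6 : Real.exp ((u : ℝ) / h) * Real.exp (-(u / h)) = 1 := by
              rw [← Real.exp_add, add_neg_cancel, Real.exp_zero]
            calc r1 * N = r1 * N * 1 := (mul_one _).symm
              _ = r1 * N * (Real.exp ((u : ℝ) / h) * Real.exp (-(u / h))) := by rw [h6]
              _ = _ := by ring
        _ ≤ _ := mul_le_mul_of_nonneg_right h5 (by linarith)
    have h5 := mom C z K ψ hz hψ h' s (l u s) J r1 r2 (N * Real.exp (-(u / h))) hr1 hr12 hN'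
      (hM s (l u s) hs.1) hJ'
    have h6 : ∑ j ∈ T, ‖Qs z ψ h' s j ^ (l u s) * Mp z ψ r1 r2 (N * Real.exp (-(u / h))) j‖ ^ 2 ≤
        r2 ^ 3 / r1 * (C ^ (l u s + 1) * ((l u s).factorial : ℝ) ^ 2) :=
      (Finset.sum_le_sum_of_subset_of_nonneg hT fun _ _ _ => by positivity).trans h5
    calc _ ≤ Real.exp (2 * l u s * α' * (s / h') - 2 * α * (u / h)) *
          (r2 ^ 3 / r1 * (C ^ (l u s + 1) * ((l u s).factorial : ℝ) ^ 2)) :=
          mul_le_mul_of_nonneg_left h6 (Real.exp_pos _).le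
      _ = r2 ^ 3 / r1 * (Real.exp (2 * l u s * α' * (s / h') - 2 * α * (u / h)) *
          (C ^ (l u s + 1) * ((l u s).factorial : ℝ) ^ 2)) := by ring
      _ ≤ _ := mul_le_mul_of_nonneg_left h4 (by positivity)
  -- the sum
  have h7 : ((Finset.Ico u0 u1).card : ℝ) ≤ u1 := by
    rw [Nat.card_Ico]
    exact_mod_cast Nat.sub_le _ _
  have h8 : ((Finset.Ico v0 v1).card : ℝ) ≤ v1 := by
    rw [Nat.card_Ico]
    exact_mod_cast Nat.sub_le _ _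
  have hM1 : 0 ≤ r2 ^ 3 / r1 * M := by positivity
  calc _ ≤ ∑ j ∈ T, (u1 * ∑ u ∈ Finset.Ico u0 u1, ∑ s ∈ Finset.Ico v0 v1,
        Real.exp (2 * l u s * α' * (s / h') - 2 * α * (u / h)) *
        ‖Qs z ψ h' s j ^ (l u s) * Mp z ψ r1 r2 (N * Real.exp (-(u / h))) j‖ ^ 2) :=
        Finset.sum_le_sum h1
    _ = u1 * ∑ u ∈ Finset.Ico u0 u1, ∑ s ∈ Finset.Ico v0 v1,
        Real.exp (2 * l u s * α' * (s / h') - 2 * α * (u / h)) * ∑ j ∈ T,
        ‖Qs z ψ h' s j ^ (l u s) * Mp z ψ r1 r2 (N * Real.exp (-(u / h))) j‖ ^ 2 := by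
        rw [← Finset.mul_sum, Finset.sum_comm]
        congr 1
        refine Finset.sum_congr rfl fun u _ => ?_
        rw [Finset.sum_comm]
        refine Finset.sum_congr rfl fun s _ => ?_
        rw [Finset.mul_sum]
    _ ≤ u1 * ∑ u ∈ Finset.Ico u0 u1, ∑ s ∈ Finset.Ico v0 v1, r2 ^ 3 / r1 * M := by
        refine mul_le_mul_of_nonneg_left ?_ (Nat.cast_nonneg u1)
        exact Finset.sum_le_sum fun u hu => Finset.sum_le_sum fun s hs => h2 u hu s hs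
    _ = u1 * (((Finset.Ico u0 u1).card : ℝ) * (((Finset.Ico v0 v1).card : ℝ) *
        (r2 ^ 3 / r1 * M))) := by
        simp only [Finset.sum_const, nsmul_eq_mul]
    _ ≤ u1 * ((u1 : ℝ) * ((v1 : ℝ) * (r2 ^ 3 / r1 * M))) := by
        gcongr
    _ = _ := by ring

end LevT72

open Classical in
/-- LEVT -/
theorem stLevT_72 (hMom : StMomB) : StLevT := by
  obtain ⟨C, hC, hM⟩ := hMom
  refine ⟨C, hC, fun r1 r2 hr1 hr12 z K ψ hz hK hψ h u0 u1 h' v0 v1 J α α' N M hh hu0 hu01 hh' hv0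
    hv01 hα hα' hM0 hN hJ hl => ?_⟩
  refine LevT72.core C r1 r2 hr1 hr12 z K ψ hz hψ h u0 u1 h' v0 v1 J α α' N M hM0
    (fun s l hs => hM z K ψ hz hK hψ h' s l J hh' (by omega)) hh hN hJ hl _
    (Finset.filter_subset _ _) (fun j hj => (Finset.mem_filter.1 hj).2.1) (fun j hj => ?_)
  have h1 := (Finset.mem_filter.1 hj).2.2
  unfold Gd at h1
  push Not at h1
  exact h1

end Pool.Agent.Lib.MP_a17b09_nt.MRS
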