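import Pool.Agent.Lib.MP_a17b09_nt.MRS.StmtsL38
import Pool.Agent.Lib.MP_a17b09_nt.MRS.StMom16

/-!
Project MRS: the number of frequencies which are large in the last level (helper40).
-/

set_option autoImplicit false

open Finset

namespace Pool.Agent.Lib.MP_a17b09_nt.MRS

namespace LevU40

theorem ag_one : ag 1 = 1 := by
  unfold ag
  simp

theorem nm_one : nm 1 = 1 := by
  unfold nm
  simp

/-- the trivial polynomial -/
theorem Rs_one (j : ℤ) : Rs {1} 1 (fun _ => 1) j = 1 := by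
  unfold Rs
  rw [Finset.sum_singleton, ag_one]
  simp

/-- Chebyshev for one slice -/
theorem one (z : ℂ) (ψ : GaussianInt → ℂ) (h s l J : ℕ) (t M : ℝ) (ht : 0 < t)
    (hM : ∑ j ∈ js J, ‖Qs z ψ h s j ^ l * Rs {1} 1 (fun _ => 1) j‖ ^ 2 ≤ M) (V : Finset ℤ)
    (hV : V ⊆ js J) (hVt : ∀ j ∈ V, t < ‖Qs z ψ h s j‖) :
    (V.card : ℝ) * t ^ (2 * l) ≤ M := by
  refine le_trans ?_ hM
  calc (V.card : ℝ) * t ^ (2 * l) = ∑ j ∈ V, t ^ (2 * l) := by
        rw [Finset.sum_const, nsmul_eq_mul]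
    _ ≤ ∑ j ∈ V, ‖Qs z ψ h s j ^ l * Rs {1} 1 (fun _ => 1) j‖ ^ 2 := by
        refine Finset.sum_le_sum fun j hj => ?_
        rw [Rs_one, mul_one, norm_pow, ← pow_mul, mul_comm l 2]
        exact pow_le_pow_left₀ ht.le (hVt j hj).le _
    _ ≤ _ := Finset.sum_le_sum_of_subset_of_nonneg hV fun _ _ _ => by positivity

end LevU40

open LevU40 in
open Classical in
/-- the count from any moment bound with a power `B ^ p` -/
theorem levU_core (p : ℕ) (hM : ∃ C : ℝ, 1 ≤ C ∧ ∀ (z : ℂ) (K : ℕ) (ψ : GaussianInt → ℂ), ‖z‖ = 1 →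
    0 < K → Chr K ψ → ∀ (h u l J : ℕ), 0 < h → 3 * h ≤ u → ∀ (B Y : ℝ) (S : Finset GaussianInt)
    (a : GaussianInt → ℂ), 1 ≤ B → 1 ≤ Y → (∀ v ∈ S, Pv v ∧ Y ≤ nm v ∧ (nm v : ℝ) ≤ B * Y) →
    (∀ v, ‖a v‖ ≤ 1) → (J : ℝ) ≤ Real.exp (l * (u / h)) * Y →
    ∑ j ∈ js J, ‖Qs z ψ h u j ^ l * Rs S Y a j‖ ^ 2 ≤
      C ^ (l + 1) * B ^ p * (l.factorial : ℝ) ^ 2) : StLevU := by
  obtain ⟨C, hC, hM⟩ := hM
  refine ⟨C, hC, fun z K ψ hz hK hψ h v0 v1 J α N M hh hv hv01 _ hM0 hJ hl => ?_⟩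
  set U : Finset ℤ := (js J).filter (fun j => ¬ Gd z ψ h v0 v1 α j) with hU
  -- one slice
  have key : ∀ s ∈ Finset.Ico v0 v1,
      ((U.filter (fun j => Real.exp (-(α * (s / h))) < ‖Qs z ψ h s j‖)).card : ℝ) ≤ M := by
    intro s hs
    obtain ⟨l, hl1, hl2⟩ := hl s hs
    rw [Finset.mem_Ico] at hs
    have h1 := hM z K ψ hz hK hψ h s l J hh (by omega) 1 1 {1} (fun _ => 1) le_rfl le_rfl
      (by
        intro v hv
        rw [Finset.mem_singleton] at hv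
        subst hv
        refine ⟨by unfold Pv; simp, ?_, ?_⟩
        · rw [nm_one]; simp
        · rw [nm_one]; simp)
      (by intro v; simp)
      (by rw [mul_one]; exact hJ.trans hl1)
    have h2 := one z ψ h s l J (Real.exp (-(α * (s / h)))) _ (Real.exp_pos _) h1
      (U.filter (fun j => Real.exp (-(α * (s / h))) < ‖Qs z ψ h s j‖))
      ((Finset.filter_subset _ _).trans (Finset.filter_subset _ _))
      (fun j hj => (Finset.mem_filter.1 hj).2)
    have h3 : Real.exp (-(α * (s / h))) ^ (2 * l) = Real.exp (-(2 * l * α * (s / h))) := by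
      rw [← Real.exp_nat_mul]
      congr 1
      push_cast
      ring
    rw [h3, Real.exp_neg (2 * l * α * (s / h)), ← div_eq_mul_inv,
      div_le_iff₀ (Real.exp_pos _)] at h2
    refine le_trans ?_ hl2
    calc _ ≤ C ^ (l + 1) * 1 ^ p * (l.factorial : ℝ) ^ 2 * Real.exp (2 * l * α * (s / h)) := h2
      _ = _ := by rw [one_pow]; ring
  have h5 : U ⊆ (Finset.Ico v0 v1).biUnion
      (fun s => U.filter (fun j => Real.exp (-(α * (s / h))) < ‖Qs z ψ h s j‖)) := by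
    intro j hj
    have hj1 := (Finset.mem_filter.1 hj).2
    unfold Gd at hj1
    push Not at hj1
    obtain ⟨s, hs, hsj⟩ := hj1
    rw [Finset.mem_biUnion]
    exact ⟨s, hs, Finset.mem_filter.2 ⟨hj, hsj⟩⟩
  have h6 : (U.card : ℝ) ≤ ∑ s ∈ Finset.Ico v0 v1, M := by
    calc (U.card : ℝ) ≤ (((Finset.Ico v0 v1).biUnion
          (fun s => U.filter (fun j => Real.exp (-(α * (s / h))) < ‖Qs z ψ h s j‖))).card : ℝ) := by
          exact_mod_cast Finset.card_le_card h5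
      _ ≤ ∑ s ∈ Finset.Ico v0 v1,
          ((U.filter (fun j => Real.exp (-(α * (s / h))) < ‖Qs z ψ h s j‖)).card : ℝ) := by
          exact_mod_cast Finset.card_biUnion_le
      _ ≤ _ := Finset.sum_le_sum key
  rw [Finset.sum_const, nsmul_eq_mul, Nat.card_Ico] at h6
  refine h6.trans ?_
  have h7 : ((v1 - v0 : ℕ) : ℝ) ≤ v1 := by exact_mod_cast Nat.sub_le _ _
  exact mul_le_mul_of_nonneg_right h7 hM0

theorem stLevU_40 (h : StMomB) : StLevU := by
  obtain ⟨C, hC, h⟩ := h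
  exact levU_core 3 ⟨C, hC, fun z K ψ hz hK hψ h' u l J hh hu =>
    h z K ψ hz hK hψ h' u l J hh (by omega)⟩

end Pool.Agent.Lib.MP_a17b09_nt.MRS
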