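import Pool.Agent.Lib.MP_a17b09_nt.MRS.Tk84

/-!
MRS (MP_a17b09_nt): averages of completely multiplicative functions over the Gaussian integers,
consequences of the inequality of Turan and Kubilius (PWT), and the Lipschitz property (LIP).
-/

set_option autoImplicit false

open Finset

namespace Pool.Agent.Lib.MP_a17b09_nt.MRS.Tk84

/-- average over the punctured disc -/
noncomputable def Mav (F : GaussianInt → ℂ) (x : ℝ) : ℂ :=
  (1 / (x : ℂ)) * ∑ v ∈ (gball ⌊x⌋₊).erase 0, F v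

theorem nm_cast (v : GaussianInt) : ((nm v : ℕ) : ℝ) = ((Zsqrtd.norm v : ℤ) : ℝ) := by
  have h : ((nm v : ℕ) : ℤ) = Zsqrtd.norm v := by
    unfold nm
    exact Int.natAbs_of_nonneg (GaussianInt.norm_nonneg v)
  rw [← h]
  push_cast
  rfl

open scoped Classical in
theorem sum_mult (F : GaussianInt → ℂ) (hF : ∀ a b, F (a * b) = F a * F b) (x : ℝ) (hx : 0 < x)
    (p : GaussianInt) (hp : p ≠ 0) :
    (1 / (x : ℂ)) * ∑ v ∈ ((gball ⌊x⌋₊).erase 0).filter (fun v => p ∣ v), F v =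
      (1 / (nm p : ℂ)) * (F p * Mav F (x / nm p)) := by
  have hN : (0 : ℝ) < nm p := by exact_mod_cast nm_pos.2 hp
  have h1 : ∑ v ∈ ((gball ⌊x⌋₊).erase 0).filter (fun v => p ∣ v), F v =
      ∑ m ∈ (gball ⌊x / nm p⌋₊).erase 0, F (p * m) := by
    symm
    apply Finset.sum_nbij (fun m => p * m)
    · intro m hm
      rw [Finset.mem_erase, mem_gball] at hm
      rw [Finset.mem_filter, Finset.mem_erase, mem_gball, nm_mul]
      refine ⟨⟨mul_ne_zero hp hm.1, ?_⟩, Dvd.intro _ rfl⟩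
      have h2 : (nm m : ℝ) ≤ x / nm p := (Nat.le_floor_iff (by positivity)).1 hm.2
      apply Nat.le_floor
      push_cast
      rw [le_div_iff₀ hN] at h2
      linarith [mul_comm (nm p : ℝ) (nm m : ℝ)]
    · intro a _ b _ h
      exact mul_left_cancel₀ hp h
    · intro v hv
      rw [Finset.mem_coe, Finset.mem_filter, Finset.mem_erase, mem_gball] at hv
      obtain ⟨m, rfl⟩ := hv.2
      refine ⟨m, ?_, rfl⟩
      rw [Finset.mem_coe, Finset.mem_erase, mem_gball]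
      refine ⟨fun h => hv.1.1 (by rw [h, mul_zero]), ?_⟩
      have h2 := hv.1.2
      rw [nm_mul] at h2
      have h3 : ((nm p * nm m : ℕ) : ℝ) ≤ x := (Nat.le_floor_iff hx.le).1 h2
      push_cast at h3
      apply Nat.le_floor
      rw [le_div_iff₀ hN]
      linarith [mul_comm (nm p : ℝ) (nm m : ℝ)]
    · intro m _
      rfl
  rw [h1]
  unfold Mav
  have hx' : (x : ℂ) ≠ 0 := by exact_mod_cast hx.ne'
  have hN' : ((nm p : ℕ) : ℂ) ≠ 0 := by
    have : nm p ≠ 0 := (nm_pos.2 hp).ne'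
    exact_mod_cast this
  simp only [hF]
  rw [← Finset.mul_sum]
  push_cast
  field_simp

/-- (PWT) -/
theorem pwt (F : GaussianInt → ℂ) (hF : ∀ a b, F (a * b) = F a * F b) (hF1 : ∀ a, ‖F a‖ ≤ 1)
    (x : ℝ) (hx : 1 ≤ x) (P : Finset GaussianInt) (hP : ∀ p ∈ P, Prime p)
    (hna : ∀ p ∈ P, ∀ r ∈ P, p ≠ r → ¬ Associated p r) (hN : ∀ p ∈ P, (nm p : ℝ) ^ 2 ≤ x) :
    ∑ p ∈ P, (1 / (nm p : ℝ)) * ‖Mav F x - F p * Mav F (x / nm p)‖ ≤
      10000 * (1 + √(∑ p ∈ P, 1 / (nm p : ℝ))) := by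
  classical
  have hx0 : 0 < x := by linarith
  have hP0 : ∀ p ∈ P, p ≠ 0 := fun p hp => (hP p hp).ne_zero
  set D : GaussianInt → ℂ := fun p => Mav F x - F p * Mav F (x / nm p) with hD
  -- phases
  have hph : ∀ z : ℂ, ∃ w : ℂ, ‖w‖ ≤ 1 ∧ w * z = (‖z‖ : ℂ) := by
    intro z
    rcases eq_or_ne z 0 with h0 | h0
    · refine ⟨0, by simp, by rw [h0]; simp⟩
    · have hz : (‖z‖ : ℂ) ≠ 0 := by exact_mod_cast (norm_ne_zero_iff.2 h0)
      refine ⟨(starRingEnd ℂ) z / ‖z‖, ?_, ?_⟩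
      · rw [norm_div, Complex.norm_conj, Complex.norm_real, norm_norm, div_self]
        exact norm_ne_zero_iff.2 h0
      · have h1 : (starRingEnd ℂ) z * z = (‖z‖ : ℂ) ^ 2 := by
          rw [mul_comm, Complex.mul_conj, Complex.normSq_eq_norm_sq]
          push_cast
          rfl
        rw [div_mul_eq_mul_div, h1]
        field_simp
  choose w hw1 hw2 using hph
  set c : GaussianInt → ℂ := fun p => w (D p) with hc
  set L : ℝ := ∑ p ∈ P, 1 / (nm p : ℝ) with hL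
  have hL0 : 0 ≤ L := Finset.sum_nonneg fun _ _ => by positivity
  set S : ℝ := ∑ p ∈ P, (1 / (nm p : ℝ)) * ‖D p‖ with hS
  have hS0 : 0 ≤ S := Finset.sum_nonneg fun _ _ => by positivity
  -- identity
  have hid : (S : ℂ) = - ((1 / (x : ℂ)) * ∑ v ∈ (gball ⌊x⌋₊).erase 0,
      F v * ∑ p ∈ P, c p * (dv p v : ℂ)) := by
    have h1 : ∀ p ∈ P, c p * ((1 / (x : ℂ)) * ∑ v ∈ (gball ⌊x⌋₊).erase 0, F v * (dv p v : ℂ)) =
        - (((1 / (nm p : ℝ)) * ‖D p‖ : ℝ) : ℂ) := by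
      intro p hp
      have h2 : (1 / (x : ℂ)) * ∑ v ∈ (gball ⌊x⌋₊).erase 0, F v * (dv p v : ℂ) =
          - ((1 / (nm p : ℂ)) * D p) := by
        have h3 : ∑ v ∈ (gball ⌊x⌋₊).erase 0, F v * (dv p v : ℂ) =
            ∑ v ∈ ((gball ⌊x⌋₊).erase 0).filter (fun v => p ∣ v), F v -
              (1 / (nm p : ℂ)) * ∑ v ∈ (gball ⌊x⌋₊).erase 0, F v := by
          rw [Finset.sum_filter, Finset.mul_sum, ← Finset.sum_sub_distrib]
          refine Finset.sum_congr rfl fun v _ => ?_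
          unfold dv
          split_ifs <;> push_cast <;> ring
        rw [h3, mul_sub, sum_mult F hF x hx0 p (hP0 p hp), hD]
        unfold Mav
        ring
      rw [h2]
      push_cast
      rw [← hw2 (D p)]
      rw [hc]
      ring
    rw [hS]
    push_cast
    have h4 : ∑ p ∈ P, (1 / (nm p : ℂ)) * (‖D p‖ : ℂ) =
        - ∑ p ∈ P, c p * ((1 / (x : ℂ)) *
          ∑ v ∈ (gball ⌊x⌋₊).erase 0, F v * (dv p v : ℂ)) := by
      rw [← Finset.sum_neg_distrib]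
      refine Finset.sum_congr rfl fun p hp => ?_
      rw [h1 p hp]
      push_cast
      ring
    rw [h4]
    congr 1
    simp only [Finset.mul_sum]
    rw [Finset.sum_comm]
    refine Finset.sum_congr rfl fun v _ => Finset.sum_congr rfl fun p _ => ?_
    ring
  -- Cauchy - Schwarz
  have hfl : (⌊x⌋₊ : ℝ) ≤ x := Nat.floor_le hx0.le
  have hfl1 : 1 ≤ ⌊x⌋₊ := Nat.le_floor (by simpa using hx)
  have htk := tk ⌊x⌋₊ P hP hna (fun p hp => Nat.le_floor (by push_cast; exact hN p hp)) c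
    (fun p _ => hw1 _)
  have hSx : S * x ≤ ∑ v ∈ gball ⌊x⌋₊, 1 * ‖∑ p ∈ P, c p * (dv p v : ℂ)‖ := by
    have h1 : S = ‖(S : ℂ)‖ := by rw [Complex.norm_real, Real.norm_of_nonneg hS0]
    rw [h1, hid, norm_neg, norm_mul]
    have h2 : ‖(1 / (x : ℂ))‖ = 1 / x := by
      rw [norm_div, norm_one, Complex.norm_real, Real.norm_of_nonneg hx0.le]
    rw [h2]
    calc 1 / x * ‖∑ v ∈ (gball ⌊x⌋₊).erase 0, F v * ∑ p ∈ P, c p * (dv p v : ℂ)‖ * x
        = ‖∑ v ∈ (gball ⌊x⌋₊).erase 0, F v * ∑ p ∈ P, c p * (dv p v : ℂ)‖ := by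
          field_simp
      _ ≤ ∑ v ∈ (gball ⌊x⌋₊).erase 0, ‖F v * ∑ p ∈ P, c p * (dv p v : ℂ)‖ := norm_sum_le _ _
      _ ≤ ∑ v ∈ gball ⌊x⌋₊, ‖F v * ∑ p ∈ P, c p * (dv p v : ℂ)‖ :=
          Finset.sum_le_sum_of_subset_of_nonneg (Finset.erase_subset _ _)
            fun _ _ _ => norm_nonneg _
      _ ≤ _ := by
          refine Finset.sum_le_sum fun v _ => ?_
          rw [norm_mul]
          exact mul_le_mul_of_nonneg_right (hF1 v) (norm_nonneg _)
  have hcs := Finset.sum_mul_sq_le_sq_mul_sq (gball ⌊x⌋₊) (fun _ => (1 : ℝ))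
    (fun v => ‖∑ p ∈ P, c p * (dv p v : ℂ)‖)
  have hcard : ∑ v ∈ gball ⌊x⌋₊, (1 : ℝ) ^ 2 ≤ 24 * x := by
    have h1 := card_le ⌊x⌋₊ hfl1
    simp only [one_pow, Finset.sum_const, nsmul_eq_mul, mul_one]
    linarith
  have h5 : (S * x) ^ 2 ≤ (24 * x) * (1000000 * x * (1 + L)) := by
    calc (S * x) ^ 2 ≤ (∑ v ∈ gball ⌊x⌋₊, 1 * ‖∑ p ∈ P, c p * (dv p v : ℂ)‖) ^ 2 :=
          pow_le_pow_left₀ (by positivity) hSx 2
      _ ≤ (∑ v ∈ gball ⌊x⌋₊, (1 : ℝ) ^ 2) *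
            ∑ v ∈ gball ⌊x⌋₊, ‖∑ p ∈ P, c p * (dv p v : ℂ)‖ ^ 2 := hcs
      _ ≤ (24 * x) * (1000000 * ⌊x⌋₊ * (1 + L)) := by
          apply mul_le_mul hcard htk (Finset.sum_nonneg fun _ _ => by positivity)
            (by positivity)
      _ ≤ (24 * x) * (1000000 * x * (1 + L)) := by gcongr
  have h6 : S ^ 2 ≤ 24000000 * (1 + L) := by
    have h7 : S ^ 2 * x ^ 2 ≤ 24000000 * (1 + L) * x ^ 2 := by nlinarith
    exact le_of_mul_le_mul_right h7 (by positivity)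
  have h7 : S ^ 2 ≤ (10000 * (1 + √L)) ^ 2 := by
    have h8 : L = √L ^ 2 := (Real.sq_sqrt hL0).symm
    have h9 : 0 ≤ √L := Real.sqrt_nonneg _
    nlinarith
  exact (abs_le_of_sq_le_sq' h7 (by positivity)).2

theorem Mav_le (F : GaussianInt → ℂ) (hF1 : ∀ a, ‖F a‖ ≤ 1) (x : ℝ) : ‖Mav F x‖ ≤ 24 := by
  rcases lt_or_ge x 1 with h | h
  · unfold Mav
    have h1 : ⌊x⌋₊ = 0 := by
      rw [Nat.floor_eq_zero]; exact h
    rw [h1]
    have : (gball 0).erase 0 = ∅ := by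
      rw [Finset.eq_empty_iff_forall_notMem]
      intro v hv
      rw [Finset.mem_erase, mem_gball] at hv
      exact hv.1 (nm_eq_zero.1 (Nat.le_zero.1 hv.2))
    rw [this]
    simp
  · have hx0 : 0 < x := by linarith
    unfold Mav
    rw [norm_mul, norm_div, norm_one, Complex.norm_real, Real.norm_of_nonneg hx0.le,
      one_div_mul_eq_div, div_le_iff₀ hx0]
    have hfl : (⌊x⌋₊ : ℝ) ≤ x := Nat.floor_le hx0.le
    have hfl1 : 1 ≤ ⌊x⌋₊ := Nat.le_floor (by simpa using h)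
    calc _ ≤ ∑ v ∈ (gball ⌊x⌋₊).erase 0, ‖F v‖ := norm_sum_le _ _
      _ ≤ ∑ v ∈ (gball ⌊x⌋₊).erase 0, (1 : ℝ) := Finset.sum_le_sum fun v _ => hF1 v
      _ ≤ ((gball ⌊x⌋₊).card : ℝ) := by
          rw [Finset.sum_const, nsmul_eq_mul, mul_one]
          exact_mod_cast Finset.card_le_card (Finset.erase_subset _ _)
      _ ≤ 24 * ⌊x⌋₊ := card_le _ hfl1
      _ ≤ 24 * x := by gcongr

theorem lip_aux (F : GaussianInt → ℂ) (hF1 : ∀ a, ‖F a‖ ≤ 1) (x y : ℝ) (hy : 1 ≤ y)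
    (hxy : y ≤ x) : ‖Mav F x - Mav F y‖ ≤ 100 * (Real.log (x / y) + 1 / √y) := by
  classical
  have hy0 : 0 < y := by linarith
  have hx0 : 0 < x := by linarith
  have hsub : (gball ⌊y⌋₊).erase 0 ⊆ (gball ⌊x⌋₊).erase 0 := by
    intro v hv
    rw [Finset.mem_erase, mem_gball] at hv ⊢
    exact ⟨hv.1, hv.2.trans (Nat.floor_le_floor hxy)⟩
  have hx' : (x : ℂ) ≠ 0 := by exact_mod_cast hx0.ne'
  have hy' : (y : ℂ) ≠ 0 := by exact_mod_cast hy0.ne'
  have hid : Mav F x - Mav F y = (1 / (x : ℂ)) *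
      ∑ v ∈ (gball ⌊x⌋₊).erase 0 \ (gball ⌊y⌋₊).erase 0, F v +
      ((y : ℂ) / x - 1) * Mav F y := by
    unfold Mav
    rw [← Finset.sum_sdiff hsub]
    field_simp
    ring
  rw [hid]
  have hM := Mav_le F hF1 y
  have hcard : (((gball ⌊x⌋₊).erase 0 \ (gball ⌊y⌋₊).erase 0).card : ℝ) ≤
      Real.pi * (x - y) + 50 * √x := by
    have hm0 : ∀ t : ℕ, (0 : GaussianInt) ∈ gball t := fun t => by
      rw [mem_gball, (nm_eq_zero.2 rfl : nm 0 = 0)]
      exact Nat.zero_le t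
    have h1 : ((gball ⌊x⌋₊).erase 0 \ (gball ⌊y⌋₊).erase 0).card =
        (gball ⌊x⌋₊).card - (gball ⌊y⌋₊).card := by
      rw [Finset.card_sdiff_of_subset hsub, Finset.card_erase_of_mem (hm0 _),
        Finset.card_erase_of_mem (hm0 _)]
      have h2 : 0 < (gball ⌊y⌋₊).card := Finset.card_pos.2 ⟨0, hm0 _⟩
      omega
    rw [h1, Nat.cast_sub (Finset.card_le_card (fun v hv => by
      rw [mem_gball] at hv ⊢; exact hv.trans (Nat.floor_le_floor hxy)))]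
    have e1 := card_circ ⌊x⌋₊
    have e2 := card_circ ⌊y⌋₊
    rw [abs_le] at e1 e2
    have f1 : (⌊x⌋₊ : ℝ) ≤ x := Nat.floor_le hx0.le
    have f2 : (⌊y⌋₊ : ℝ) ≤ y := Nat.floor_le hy0.le
    have f3 : y - 1 ≤ (⌊y⌋₊ : ℝ) := (Nat.sub_one_lt_floor y).le
    have g1 : √(⌊x⌋₊ : ℝ) ≤ √x := Real.sqrt_le_sqrt f1
    have g2 : √(⌊y⌋₊ : ℝ) ≤ √x := Real.sqrt_le_sqrt (f2.trans hxy)
    have g3 : 1 ≤ √x := by rw [Real.one_le_sqrt]; linarith
    have hpi := Real.pi_pos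
    have hpi4 := Real.pi_le_four
    nlinarith [mul_le_mul_of_nonneg_left f1 hpi.le, mul_le_mul_of_nonneg_left f3 hpi.le]
  have hlog : (x - y) / x ≤ Real.log (x / y) := by
    have h1 := Real.one_sub_inv_le_log_of_pos (show 0 < x / y by positivity)
    have h2 : (x - y) / x = 1 - (x / y)⁻¹ := by
      field_simp
    rw [h2]
    exact h1
  have hd0 : 0 ≤ (x - y) / x := div_nonneg (by linarith) hx0.le
  have n1 : ‖(1 / (x : ℂ)) * ∑ v ∈ (gball ⌊x⌋₊).erase 0 \ (gball ⌊y⌋₊).erase 0, F v‖ ≤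
      4 * ((x - y) / x) + 50 * (1 / √y) := by
    rw [norm_mul, norm_div, norm_one, Complex.norm_real, Real.norm_of_nonneg hx0.le,
      one_div_mul_eq_div]
    calc _ ≤ (Real.pi * (x - y) + 50 * √x) / x := by
          gcongr
          calc _ ≤ ∑ v ∈ (gball ⌊x⌋₊).erase 0 \ (gball ⌊y⌋₊).erase 0, ‖F v‖ := norm_sum_le _ _
            _ ≤ ∑ v ∈ (gball ⌊x⌋₊).erase 0 \ (gball ⌊y⌋₊).erase 0, (1 : ℝ) :=
                Finset.sum_le_sum fun v _ => hF1 v
            _ = _ := by rw [Finset.sum_const, nsmul_eq_mul, mul_one]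
            _ ≤ _ := hcard
      _ = Real.pi * ((x - y) / x) + 50 * (√x / x) := by ring
      _ ≤ 4 * ((x - y) / x) + 50 * (1 / √y) := by
          have h1 : √x / x = 1 / √x := by
            rw [div_eq_div_iff hx0.ne' (Real.sqrt_pos.2 hx0).ne', one_mul,
              Real.mul_self_sqrt hx0.le]
          rw [h1]
          gcongr
          exact Real.pi_le_four
  have n2 : ‖((y : ℂ) / x - 1) * Mav F y‖ ≤ 24 * ((x - y) / x) := by
    rw [norm_mul]
    have h1 : ‖(y : ℂ) / x - 1‖ = (x - y) / x := by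
      have h2 : (y : ℂ) / x - 1 = (((y - x) / x : ℝ) : ℂ) := by
        push_cast
        field_simp
      rw [h2, Complex.norm_real, Real.norm_eq_abs, abs_div, abs_of_pos hx0,
        abs_of_nonpos (by linarith)]
      ring
    rw [h1, mul_comm]
    exact mul_le_mul_of_nonneg_right hM hd0
  refine (norm_add_le _ _).trans ?_
  have h3 : 0 ≤ 1 / √y := by positivity
  linarith

/-- (LIP) -/
theorem lip (F : GaussianInt → ℂ) (hF1 : ∀ a, ‖F a‖ ≤ 1) (x y : ℝ) (hx : 1 ≤ x) (hy : 1 ≤ y) :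
    ‖Mav F x - Mav F y‖ ≤ 100 * (|Real.log (x / y)| + 1 / √(min x y)) := by
  rcases le_total y x with h | h
  · rw [min_eq_right h]
    refine (lip_aux F hF1 x y hy h).trans ?_
    have := le_abs_self (Real.log (x / y))
    linarith
  · rw [min_eq_left h, norm_sub_rev]
    refine (lip_aux F hF1 y x hx h).trans ?_
    have h1 : Real.log (y / x) = - Real.log (x / y) := by
      rw [← Real.log_inv, inv_div]
    rw [h1]
    have := neg_le_abs (Real.log (x / y))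
    linarith

end Pool.Agent.Lib.MP_a17b09_nt.MRS.Tk84
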