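import Mathlib

/-!
MRS (MP_a17b09_nt), section 4, `j = 0`: the abstract two scale argument.

`M` is a bounded slowly varying function (the mean value of a completely multiplicative function),
`z * w1 p`, `z * w2 p` are the values at the two Gaussian primes above `p`.  Turan-Kubilius, the
algebra of the characters and primes in windows imply that `M` tends to zero.
-/

set_option autoImplicit false

open Finset Filter Topology

namespace Pool.Agent.Lib.MP_a17b09_nt.MRS91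

/-- the primes `≡ a` mod `q` in the window `(e^u, e^(u+κ)]` -/
noncomputable def win (q a : ℕ) (κ u : ℝ) : Finset ℕ :=
  (Finset.Icc 1 ⌊Real.exp (u + κ)⌋₊).filter
    (fun p => p.Prime ∧ p ≡ a [MOD q] ∧ Real.exp u < p)

theorem mem_win {q a : ℕ} {κ u : ℝ} {p : ℕ} : p ∈ win q a κ u ↔
    p.Prime ∧ p ≡ a [MOD q] ∧ Real.exp u < p ∧ (p : ℝ) ≤ Real.exp (u + κ) := by
  unfold win
  rw [Finset.mem_filter, Finset.mem_Icc]
  constructor
  · rintro ⟨⟨-, h2⟩, h3, h4, h5⟩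
    exact ⟨h3, h4, h5, (Nat.le_floor_iff (Real.exp_pos _).le).1 h2⟩
  · rintro ⟨h1, h2, h3, h4⟩
    exact ⟨⟨h1.one_lt.le, (Nat.le_floor_iff (Real.exp_pos _).le).2 h4⟩, h1, h2, h3⟩

/-- distinct `m`-th roots of unity have a gap -/
theorem gap (m : ℕ) (hm : 0 < m) : ∃ g : ℝ, 0 < g ∧ ∀ a b : ℂ, a ^ m = 1 → b ^ m = 1 →
    ‖a - b‖ < g → a = b := by
  classical
  set S : Finset ℂ := Polynomial.nthRootsFinset m (1 : ℂ) with hS
  have hmem : ∀ a : ℂ, a ∈ S ↔ a ^ m = 1 := fun a => by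
    rw [hS, Polynomial.mem_nthRootsFinset hm]
  by_cases hne : (S.offDiag).Nonempty
  · obtain ⟨p, hp, hmin⟩ := Finset.exists_min_image S.offDiag (fun p => ‖p.1 - p.2‖) hne
    rw [Finset.mem_offDiag] at hp
    refine ⟨‖p.1 - p.2‖, norm_pos_iff.2 (sub_ne_zero.2 hp.2.2), fun a b ha hb hab => ?_⟩
    by_contra hne2
    have := hmin (a, b) (by
      rw [Finset.mem_offDiag]
      exact ⟨(hmem a).2 ha, (hmem b).2 hb, hne2⟩)
    exact absurd hab (not_lt.2 this)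
  · refine ⟨1, one_pos, fun a b ha hb _ => ?_⟩
    by_contra hne2
    exact hne ⟨(a, b), by
      rw [Finset.mem_offDiag]
      exact ⟨(hmem a).2 ha, (hmem b).2 hb, hne2⟩⟩

/-- uniformity over a finite set of classes -/
theorem unif {α : Type} (A : Finset α) (S : α → ℝ → ℝ)
    (h : ∀ a ∈ A, ∃ c : ℝ, 0 < c ∧ ∃ U0 : ℝ, ∀ u : ℝ, U0 ≤ u → c / u ≤ S a u) :
    ∃ c : ℝ, 0 < c ∧ ∃ U0 : ℝ, 1 ≤ U0 ∧ ∀ a ∈ A, ∀ u : ℝ, U0 ≤ u → c / u ≤ S a u := by
  classical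
  induction A using Finset.induction_on with
  | empty => exact ⟨1, one_pos, 1, le_rfl, fun a ha => absurd ha (Finset.notMem_empty a)⟩
  | insert b A hb ih =>
    obtain ⟨c, hc, U, hU, h1⟩ := ih (fun a ha => h a (Finset.mem_insert_of_mem ha))
    obtain ⟨c', hc', U', h2⟩ := h b (Finset.mem_insert_self b A)
    refine ⟨min c c', lt_min hc hc', max U U', hU.trans (le_max_left _ _), fun a ha u hu => ?_⟩
    have hu1 : U ≤ u := (le_max_left _ _).trans hu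
    have hu2 : U' ≤ u := (le_max_right _ _).trans hu
    have hu0 : 0 < u := by linarith
    rcases Finset.mem_insert.1 ha with rfl | ha
    · exact (div_le_div_of_nonneg_right (min_le_right _ _) hu0.le).trans (h2 u hu2)
    · exact (div_le_div_of_nonneg_right (min_le_left _ _) hu0.le).trans (h1 a ha u hu1)

/-- divergence of the harmonic series -/
theorem harm (I : ℕ) (B : ℝ) : ∃ J : ℕ, I ≤ J ∧ B < ∑ i ∈ Finset.Ico I J, 1 / (i : ℝ) := by
  have h1 : Tendsto (fun n : ℕ => ∑ i ∈ Finset.range n, 1 / (i : ℝ)) atTop atTop := by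
    rw [← not_summable_iff_tendsto_nat_atTop_of_nonneg (fun n => by positivity)]
    exact Real.not_summable_one_div_natCast
  obtain ⟨J, hJ⟩ := ((h1.eventually_gt_atTop (B + ∑ i ∈ Finset.range I, 1 / (i : ℝ))).and
    (eventually_ge_atTop I)).exists
  refine ⟨J, hJ.2, ?_⟩
  have h2 := Finset.sum_range_add_sum_Ico (fun i : ℕ => 1 / (i : ℝ)) hJ.2
  linarith [hJ.1]

section

variable (M : ℝ → ℂ) (w1 w2 : ℕ → ℂ) (z : ℂ) (q : ℕ)

/-- the Turan-Kubilius defect at `p` -/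
noncomputable def dfc (x : ℝ) (p : ℕ) : ℝ :=
  ‖M x - z * w1 p * M (x / p)‖ + ‖M x - z * w2 p * M (x / p)‖

/-- the classes -/
def cls : Finset ℕ := (Finset.range q).filter (fun a => a ≡ 1 [MOD 4] ∧ a.Coprime q)

/-- a good window -/
def Good (κ τ x : ℝ) (i : ℕ) : Prop :=
  ∀ a ∈ cls q, ∃ p ∈ win q a κ (κ * i), dfc M w1 w2 z x p ≤ τ

end

/-- good windows give the relation between the two scales -/
theorem rel (M : ℝ → ℂ) (w1 w2 : ℕ → ℂ) (z : ℂ) (q m : ℕ) (hz : ‖z‖ = 1) (h4 : 4 ∣ q)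
    (hq : 0 < q)
    (hw1 : ∀ p : ℕ, p.Prime → p.Coprime q → w1 p ^ m = 1)
    (hw2 : ∀ p : ℕ, p.Prime → p.Coprime q → w2 p ^ m = 1) (hm : 0 < m)
    (hA : ∀ ω : ℂ, ω ≠ 1 → ∃ a : ℕ, a ≡ 1 [MOD 4] ∧ a.Coprime q ∧
      ∀ p : ℕ, p.Prime → p ≡ a [MOD q] → ¬ (w1 p = ω ∧ w2 p = ω))
    (C : ℝ) (hC : 1 ≤ C)
    (hL : ∀ x y : ℝ, 1 ≤ x → x ≤ y → ‖M x - M y‖ ≤ C * (Real.log (y / x) + 1 / √x))
    (g : ℝ) (hg0 : 0 < g) (hg : ∀ a b : ℂ, a ^ m = 1 → b ^ m = 1 → ‖a - b‖ < g → a = b)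
    (η τ κ : ℝ) (hτ : 0 < τ) (hκ : 0 < κ) (hκτ : 2 * C * κ ≤ τ)
    (hτ1 : 32 * τ ≤ g * η) (hτ2 : 16 * τ ≤ η) (x : ℝ) (i : ℕ)
    (hx : Real.exp (κ * i + κ) * (1 + 1 / κ ^ 2) ≤ x)
    (hMx : η / 2 ≤ ‖M x‖) (hgood : Good M w1 w2 z q κ τ x i) :
    ‖M x - z * M (x * Real.exp (-(κ * i)))‖ ≤ 2 * τ := by
  set X : ℝ := x * Real.exp (-(κ * i)) with hX
  have hq4 : 4 ≤ q := Nat.le_of_dvd hq h4
  have hK : (1 : ℝ) ≤ 1 + 1 / κ ^ 2 := by
    have : 0 ≤ 1 / κ ^ 2 := by positivity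
    linarith
  -- the comparison of the arguments
  have key1 : ∀ a : ℕ, ∀ p ∈ win q a κ (κ * i), ‖M (x / p) - M X‖ ≤ τ := by
    intro a p hp
    rw [mem_win] at hp
    obtain ⟨hpp, -, hp1, hp2⟩ := hp
    have hp0 : (0 : ℝ) < p := by exact_mod_cast hpp.pos
    have h1 : (p : ℝ) * (1 + 1 / κ ^ 2) ≤ x :=
      (mul_le_mul_of_nonneg_right hp2 (by positivity)).trans hx
    have h2 : 1 + 1 / κ ^ 2 ≤ x / p := by
      rw [le_div_iff₀ hp0]; linarith [mul_comm (p : ℝ) (1 + 1 / κ ^ 2)]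
    have hx0 : 0 < x := lt_of_lt_of_le (by positivity) h1
    have h3 : x / p ≤ X := by
      rw [hX, Real.exp_neg, ← div_eq_mul_inv]
      exact div_le_div_of_nonneg_left hx0.le (Real.exp_pos _) hp1.le
    have h4' : X / (x / p) = p * Real.exp (-(κ * i)) := by
      rw [hX]; field_simp
    have h5 : Real.log (X / (x / p)) ≤ κ := by
      rw [h4', Real.log_mul hp0.ne' (Real.exp_pos _).ne', Real.log_exp]
      have := Real.log_le_log hp0 hp2
      rw [Real.log_exp] at this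
      linarith
    have h6 : 1 / √(x / p) ≤ κ := by
      have h7 : 1 / κ ≤ √(x / p) := by
        apply Real.le_sqrt_of_sq_le
        rw [div_pow, one_pow]
        linarith
      rw [div_le_iff₀ (lt_of_lt_of_le (by positivity) h7)]
      rw [div_le_iff₀ hκ] at h7
      linarith [mul_comm κ (√(x / p))]
    calc ‖M (x / p) - M X‖ ≤ C * (Real.log (X / (x / p)) + 1 / √(x / p)) :=
          hL _ _ (hK.trans h2) h3
      _ ≤ C * (κ + κ) := mul_le_mul_of_nonneg_left (add_le_add h5 h6) (by linarith)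
      _ ≤ τ := by linarith
  have hcop : ∀ a : ℕ, a.Coprime q → ∀ p : ℕ, p ≡ a [MOD q] → p.Coprime q := by
    intro a ha p hp
    have := hp.gcd_eq
    unfold Nat.Coprime at *
    rw [this, ha]
  -- good primes
  have key2 : ∀ a ∈ cls q, ∃ p ∈ win q a κ (κ * i), w1 p = w2 p ∧ w1 p ^ m = 1 ∧
      ‖M x - z * w1 p * M X‖ ≤ 2 * τ ∧ 3 * η / 8 ≤ ‖M X‖ := by
    intro a ha
    obtain ⟨p, hp, hd⟩ := hgood a ha
    have ha2 := (Finset.mem_filter.1 ha).2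
    have hp' := mem_win.1 hp
    have hcp := hcop a ha2.2 p hp'.2.1
    have e1 := hw1 p hp'.1 hcp
    have e2 := hw2 p hp'.1 hcp
    have n1 : ‖w1 p‖ = 1 := Complex.norm_eq_one_of_pow_eq_one e1 hm.ne'
    have n2 : ‖w2 p‖ = 1 := Complex.norm_eq_one_of_pow_eq_one e2 hm.ne'
    unfold dfc at hd
    have d1 : ‖M x - z * w1 p * M (x / p)‖ ≤ τ := by
      linarith [norm_nonneg (M x - z * w2 p * M (x / p))]
    have d2 : ‖M x - z * w2 p * M (x / p)‖ ≤ τ := by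
      linarith [norm_nonneg (M x - z * w1 p * M (x / p))]
    have n3 : ‖z * w1 p * M (x / p)‖ = ‖M (x / p)‖ := by
      rw [norm_mul, norm_mul, hz, n1]; ring
    have b1 : η / 2 - τ ≤ ‖M (x / p)‖ := by
      have := norm_sub_norm_le (M x) (z * w1 p * M (x / p))
      rw [n3] at this
      linarith
    have k1 := key1 a p hp
    have b2 : 3 * η / 8 ≤ ‖M X‖ := by
      have := norm_sub_norm_le (M (x / p)) (M X)
      linarith
    refine ⟨p, hp, ?_, e1, ?_, b2⟩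
    · apply hg _ _ e1 e2
      by_contra hcon
      push Not at hcon
      have h1 : ‖w1 p - w2 p‖ * ‖M (x / p)‖ ≤ 2 * τ := by
        have e3 : z * ((w1 p - w2 p) * M (x / p)) =
            (M x - z * w2 p * M (x / p)) - (M x - z * w1 p * M (x / p)) := by ring
        have e4 : ‖w1 p - w2 p‖ * ‖M (x / p)‖ = ‖z * ((w1 p - w2 p) * M (x / p))‖ := by
          rw [norm_mul, norm_mul, hz, one_mul]
        rw [e4, e3]
        exact (norm_sub_le _ _).trans (by linarith)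
      have h2 : g * (η / 2 - τ) ≤ ‖w1 p - w2 p‖ * ‖M (x / p)‖ :=
        mul_le_mul hcon b1 (by linarith) (norm_nonneg _)
      nlinarith [mul_le_mul_of_nonneg_left hτ2 hg0.le]
    · have e3 : M x - z * w1 p * M X = (M x - z * w1 p * M (x / p)) +
          z * w1 p * (M (x / p) - M X) := by ring
      rw [e3]
      refine (norm_add_le _ _).trans ?_
      rw [norm_mul, norm_mul, hz, n1]
      linarith
  have h1cls : 1 ∈ cls q := by
    unfold cls
    rw [Finset.mem_filter, Finset.mem_range]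
    exact ⟨by omega, rfl, Nat.coprime_one_left q⟩
  obtain ⟨p0, hp0, e0, r0, c0, b0⟩ := key2 1 h1cls
  have hone : w1 p0 = 1 := by
    by_contra hne
    obtain ⟨a, ha1, ha2, ha3⟩ := hA (w1 p0) hne
    have hacls : a % q ∈ cls q := by
      unfold cls
      rw [Finset.mem_filter, Finset.mem_range]
      refine ⟨Nat.mod_lt _ hq, ?_, ?_⟩
      · exact ((Nat.mod_modEq a q).of_dvd h4).trans ha1
      · have := (Nat.mod_modEq a q).gcd_eq
        unfold Nat.Coprime at *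
        rw [this, ha2]
    obtain ⟨p, hp, e, r, c, -⟩ := key2 (a % q) hacls
    have hp' := mem_win.1 hp
    have heq : w1 p = w1 p0 := by
      apply hg _ _ r r0
      by_contra hcon
      push Not at hcon
      have h1 : ‖w1 p - w1 p0‖ * ‖M X‖ ≤ 4 * τ := by
        have e3 : z * ((w1 p - w1 p0) * M X) =
            (M x - z * w1 p0 * M X) - (M x - z * w1 p * M X) := by ring
        have e4 : ‖w1 p - w1 p0‖ * ‖M X‖ = ‖z * ((w1 p - w1 p0) * M X)‖ := by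
          rw [norm_mul, norm_mul, hz, one_mul]
        rw [e4, e3]
        exact (norm_sub_le _ _).trans (by linarith)
      have h2 : g * (3 * η / 8) ≤ ‖w1 p - w1 p0‖ * ‖M X‖ :=
        mul_le_mul hcon b0 (by linarith) (norm_nonneg _)
      nlinarith
    refine ha3 p hp'.1 (hp'.2.1.trans (Nat.mod_modEq a q)) ⟨heq, ?_⟩
    rw [← e, heq]
  rw [hone, mul_one] at c0
  exact c0

/-- the harmonic mass of the bad windows is bounded -/
theorem bad_mass (M : ℝ → ℂ) (w1 w2 : ℕ → ℂ) (z : ℂ) (q : ℕ) (h4 : 4 ∣ q)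
    (C : ℝ) (hC : 1 ≤ C)
    (hT : ∀ x : ℝ, 1 ≤ x → ∀ P : Finset ℕ,
      (∀ p ∈ P, p.Prime ∧ p ≡ 1 [MOD 4] ∧ p.Coprime q ∧ (p : ℝ) ^ 2 ≤ x) →
      ∑ p ∈ P, 1 / (p : ℝ) * dfc M w1 w2 z x p ≤ C * (1 + √(∑ p ∈ P, 1 / (p : ℝ))))
    (τ κ : ℝ) (hτ : 0 < τ) (hκ : 0 < κ) (c U0 : ℝ) (hc : 0 < c)
    (hwin : ∀ a ∈ cls q, ∀ u : ℝ, U0 ≤ u → c / u ≤ ∑ p ∈ win q a κ u, 1 / (p : ℝ)) :
    ∃ B0 : ℝ, 0 < B0 ∧ ∀ (I1 I2 : ℕ), U0 ≤ κ * I1 → ∀ x : ℝ, Real.exp (κ * I2) ^ 2 ≤ x →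
      ∀ S : Finset ℕ, S ⊆ Finset.Ico I1 I2 → (∀ i ∈ S, ¬ Good M w1 w2 z q κ τ x i) →
      ∑ i ∈ S, 1 / (i : ℝ) ≤ B0 := by
  classical
  set W0 : ℝ := max 1 ((2 * C / τ) ^ 2) with hW0
  have hW1 : 1 ≤ W0 := le_max_left _ _
  refine ⟨κ * W0 / c, by positivity, fun I1 I2 hI x hx S hS hbad => ?_⟩
  have hx1 : 1 ≤ x := by
    refine le_trans ?_ hx
    have : 1 ≤ Real.exp (κ * I2) := Real.one_le_exp (by positivity)
    nlinarith
  -- choose bad classes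
  have h1 : ∀ i : ℕ, ∃ a : ℕ, i ∈ S → a ∈ cls q ∧
      ∀ p ∈ win q a κ (κ * i), τ < dfc M w1 w2 z x p := by
    intro i
    by_cases hi : i ∈ S
    · have := hbad i hi
      unfold Good at this
      push Not at this
      obtain ⟨a, ha, h⟩ := this
      exact ⟨a, fun _ => ⟨ha, h⟩⟩
    · exact ⟨0, fun h => absurd h hi⟩
  choose a ha using h1
  set P : Finset ℕ := S.biUnion (fun i => win q (a i) κ (κ * i)) with hP
  have hdisj : ∀ i ∈ S, ∀ j ∈ S, i ≠ j →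
      Disjoint (win q (a i) κ (κ * i)) (win q (a j) κ (κ * j)) := by
    have aux : ∀ i j : ℕ, i < j →
        Disjoint (win q (a i) κ (κ * i)) (win q (a j) κ (κ * j)) := by
      intro i j hij
      rw [Finset.disjoint_left]
      intro p hp hp'
      have h1 := (mem_win.1 hp).2.2.2
      have h2 := (mem_win.1 hp').2.2.1
      have h3 : κ * i + κ ≤ κ * j := by
        have : (i : ℝ) + 1 ≤ j := by exact_mod_cast hij
        nlinarith
      have h4 := Real.exp_le_exp.2 h3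
      linarith
    intro i _ j _ hij
    rcases lt_or_gt_of_ne hij with h | h
    · exact aux i j h
    · exact (aux j i h).symm
  have hmemP : ∀ p ∈ P, p.Prime ∧ p ≡ 1 [MOD 4] ∧ p.Coprime q ∧ (p : ℝ) ^ 2 ≤ x := by
    intro p hp
    rw [hP, Finset.mem_biUnion] at hp
    obtain ⟨i, hi, hp⟩ := hp
    obtain ⟨ha1, -⟩ := ha i hi
    have ha2 := (Finset.mem_filter.1 ha1).2
    have hp' := mem_win.1 hp
    refine ⟨hp'.1, (hp'.2.1.of_dvd h4).trans ha2.1, ?_, ?_⟩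
    · have := hp'.2.1.gcd_eq
      have h2 := ha2.2
      unfold Nat.Coprime at *
      rw [this, h2]
    · have hi2 := (Finset.mem_Ico.1 (hS hi)).2
      have h3 : κ * i + κ ≤ κ * I2 := by
        have : (i : ℝ) + 1 ≤ I2 := by exact_mod_cast hi2
        nlinarith
      have h5 : (p : ℝ) ≤ Real.exp (κ * I2) := hp'.2.2.2.trans (Real.exp_le_exp.2 h3)
      exact (pow_le_pow_left₀ (Nat.cast_nonneg p) h5 2).trans hx
  have hT1 := hT x hx1 P hmemP
  set W : ℝ := ∑ p ∈ P, 1 / (p : ℝ) with hW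
  have hWn : 0 ≤ W := Finset.sum_nonneg fun p _ => by positivity
  have h2 : τ * W ≤ ∑ p ∈ P, 1 / (p : ℝ) * dfc M w1 w2 z x p := by
    rw [hW, Finset.mul_sum]
    refine Finset.sum_le_sum fun p hp => ?_
    rw [hP, Finset.mem_biUnion] at hp
    obtain ⟨i, hi, hp⟩ := hp
    have := (ha i hi).2 p hp
    rw [mul_comm]
    exact mul_le_mul_of_nonneg_left this.le (by positivity)
  have h3 : W ≤ W0 := by
    by_contra hcon
    push Not at hcon
    have h4' : 1 < W := lt_of_le_of_lt hW1 hcon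
    have h5 : 1 ≤ √W := by
      rw [Real.one_le_sqrt]; exact h4'.le
    have h6 : τ * W ≤ 2 * C * √W := by
      calc τ * W ≤ C * (1 + √W) := h2.trans hT1
        _ ≤ 2 * C * √W := by nlinarith
    have h7 : √W * √W = W := Real.mul_self_sqrt hWn
    have h8 : √W ≤ 2 * C / τ := by
      rw [le_div_iff₀ hτ]
      by_contra h9
      push Not at h9
      nlinarith
    have h9 : W ≤ (2 * C / τ) ^ 2 := by
      rw [← h7, sq]
      exact mul_self_le_mul_self (by linarith) h8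
    exact absurd (h9.trans (le_max_right _ _)) (not_le.2 hcon)
  have h4' : ∑ i ∈ S, c / (κ * i) ≤ W := by
    rw [hW, hP, Finset.sum_biUnion hdisj]
    refine Finset.sum_le_sum fun i hi => hwin _ (ha i hi).1 _ ?_
    have := (Finset.mem_Ico.1 (hS hi)).1
    have h5 : (I1 : ℝ) ≤ i := by exact_mod_cast this
    exact hI.trans (mul_le_mul_of_nonneg_left h5 hκ.le)
  have h5 : ∑ i ∈ S, c / (κ * i) = c / κ * ∑ i ∈ S, 1 / (i : ℝ) := by
    rw [Finset.mul_sum]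
    refine Finset.sum_congr rfl fun i _ => ?_
    rw [div_mul_div_comm, mul_one]
  rw [h5] at h4'
  have h6 : c / κ * ∑ i ∈ S, 1 / (i : ℝ) ≤ W0 := h4'.trans h3
  rw [le_div_iff₀ hc]
  rw [div_mul_eq_mul_div, div_le_iff₀ hκ] at h6
  linarith

/-- **The two scale argument.** -/
theorem two_scale (M : ℝ → ℂ) (w1 w2 : ℕ → ℂ) (z : ℂ) (q m : ℕ) (hz : ‖z‖ = 1) (hz1 : z ≠ 1)
    (h4 : 4 ∣ q) (hq : 0 < q) (hm : 0 < m)
    (hw1 : ∀ p : ℕ, p.Prime → p.Coprime q → w1 p ^ m = 1)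
    (hw2 : ∀ p : ℕ, p.Prime → p.Coprime q → w2 p ^ m = 1)
    (hA : ∀ ω : ℂ, ω ≠ 1 → ∃ a : ℕ, a ≡ 1 [MOD 4] ∧ a.Coprime q ∧
      ∀ p : ℕ, p.Prime → p ≡ a [MOD q] → ¬ (w1 p = ω ∧ w2 p = ω))
    (C : ℝ)
    (hT : ∀ x : ℝ, 1 ≤ x → ∀ P : Finset ℕ,
      (∀ p ∈ P, p.Prime ∧ p ≡ 1 [MOD 4] ∧ p.Coprime q ∧ (p : ℝ) ^ 2 ≤ x) →
      ∑ p ∈ P, 1 / (p : ℝ) * dfc M w1 w2 z x p ≤ C * (1 + √(∑ p ∈ P, 1 / (p : ℝ))))
    (hL : ∀ x y : ℝ, 1 ≤ x → x ≤ y → ‖M x - M y‖ ≤ C * (Real.log (y / x) + 1 / √x))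
    (hCh : ∀ a : ℕ, a.Coprime q → ∀ κ : ℝ, 0 < κ → ∃ c : ℝ, 0 < c ∧ ∃ U0 : ℝ, ∀ u : ℝ,
      U0 ≤ u → c / u ≤ ∑ p ∈ win q a κ u, 1 / (p : ℝ)) :
    Tendsto M atTop (𝓝 0) := by
  classical
  -- enlarge `C`
  obtain ⟨C', hC', hT', hL'⟩ : ∃ C' : ℝ, 1 ≤ C' ∧ (∀ x : ℝ, 1 ≤ x → ∀ P : Finset ℕ,
      (∀ p ∈ P, p.Prime ∧ p ≡ 1 [MOD 4] ∧ p.Coprime q ∧ (p : ℝ) ^ 2 ≤ x) →
      ∑ p ∈ P, 1 / (p : ℝ) * dfc M w1 w2 z x p ≤ C' * (1 + √(∑ p ∈ P, 1 / (p : ℝ)))) ∧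
      (∀ x y : ℝ, 1 ≤ x → x ≤ y → ‖M x - M y‖ ≤ C' * (Real.log (y / x) + 1 / √x)) := by
    refine ⟨max C 1, le_max_right _ _, fun x hx P hP => (hT x hx P hP).trans ?_,
      fun x y hx hy => (hL x y hx hy).trans ?_⟩
    · exact mul_le_mul_of_nonneg_right (le_max_left _ _) (by positivity)
    · refine mul_le_mul_of_nonneg_right (le_max_left _ _) ?_
      have : 0 ≤ Real.log (y / x) := Real.log_nonneg (by
        rw [le_div_iff₀ (by linarith)]; linarith)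
      positivity
  rw [NormedAddGroup.tendsto_nhds_zero]
  intro η hη
  by_contra hcon
  have hfreq : ∀ X : ℝ, ∃ x : ℝ, X ≤ x ∧ η ≤ ‖M x‖ := by
    intro X
    by_contra h
    push Not at h
    exact hcon ((eventually_ge_atTop X).mono fun x hx => h x hx)
  obtain ⟨g, hg0, hg⟩ := gap m hm
  have hz2 : 0 < ‖1 - z‖ := norm_pos_iff.2 (sub_ne_zero.2 (Ne.symm hz1))
  have hz3 : ‖1 - z‖ ≤ 2 := by
    refine (norm_sub_le _ _).trans ?_
    rw [norm_one, hz]; norm_num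
  set τ : ℝ := min g ‖1 - z‖ * η / 128 with hτ
  have hmin : 0 < min g ‖1 - z‖ := lt_min hg0 hz2
  have hτ0 : 0 < τ := by positivity
  have t1 : 128 * τ ≤ g * η := by
    rw [hτ]
    have := mul_le_mul_of_nonneg_right (min_le_left g ‖1 - z‖) hη.le
    linarith
  have t2 : 128 * τ ≤ ‖1 - z‖ * η := by
    rw [hτ]
    have := mul_le_mul_of_nonneg_right (min_le_right g ‖1 - z‖) hη.le
    linarith
  have t3 : 64 * τ ≤ η := by nlinarith
  set κ : ℝ := τ / (2 * C') with hκ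
  have hκ0 : 0 < κ := by positivity
  have hκτ : 2 * C' * κ ≤ τ := by
    rw [hκ]; field_simp; exact le_rfl
  obtain ⟨c, hc, U0, hU0, hwin⟩ := unif (cls q) (fun a u => ∑ p ∈ win q a κ u, 1 / (p : ℝ))
    (fun a ha => hCh a (Finset.mem_filter.1 ha).2.2 κ hκ0)
  obtain ⟨B0, hB0, hB⟩ := bad_mass M w1 w2 z q h4 C' hC' hT' τ κ hτ0 hκ0 c U0 hc hwin
  obtain ⟨I1, hI1⟩ := exists_nat_ge (U0 / κ)
  have hI1' : U0 ≤ κ * I1 := by
    rw [div_le_iff₀ hκ0] at hI1; linarith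
  have hI1pos : 0 < I1 := by
    rcases Nat.eq_zero_or_pos I1 with h | h
    · rw [h] at hI1'; simp at hI1'; linarith
    · exact h
  obtain ⟨I2, hI12, hs1⟩ := harm I1 B0
  obtain ⟨I3, hI23, hs2⟩ := harm I2 (3 * B0)
  have hI2pos : 0 < I2 := hI1pos.trans_le hI12
  obtain ⟨x, hx, hMx⟩ := hfreq (Real.exp (4 * (κ * (I2 + I3 + 1))) * (1 + 1 / κ ^ 2))
  have hKge : (1 : ℝ) ≤ 1 + 1 / κ ^ 2 := by
    have : 0 ≤ 1 / κ ^ 2 := by positivity
    linarith
  have hexp : ∀ t : ℝ, t ≤ 4 * (κ * (I2 + I3 + 1)) → Real.exp t * (1 + 1 / κ ^ 2) ≤ x :=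
    fun t ht => (mul_le_mul_of_nonneg_right (Real.exp_le_exp.2 ht) (by linarith)).trans hx
  have hexp1 : ∀ t : ℝ, t ≤ 4 * (κ * (I2 + I3 + 1)) → Real.exp t ≤ x := by
    intro t ht
    exact (le_mul_of_one_le_right (Real.exp_pos _).le hKge).trans (hexp t ht)
  have k2 : (0 : ℝ) ≤ κ * I2 := by positivity
  have k3 : (0 : ℝ) ≤ κ * I3 := by positivity
  -- the first scale
  obtain ⟨i1, hi1, hg1⟩ : ∃ i1 ∈ Finset.Ico I1 I2, Good M w1 w2 z q κ τ x i1 := by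
    by_contra h
    push Not at h
    have := hB I1 I2 hI1' x (by
      rw [← Real.exp_nat_mul]
      apply hexp1
      push_cast
      linarith) (Finset.Ico I1 I2) (Finset.Subset.refl _) h
    linarith
  have hi1' := Finset.mem_Ico.1 hi1
  have hi1R : (i1 : ℝ) ≤ I2 := by exact_mod_cast hi1'.2.le
  have k1 : κ * i1 ≤ κ * I2 := mul_le_mul_of_nonneg_left hi1R hκ0.le
  set x1 : ℝ := x * Real.exp (-(κ * i1)) with hx1
  have hrel : ∀ (y : ℝ) (i : ℕ), Real.exp (κ * i + κ) * (1 + 1 / κ ^ 2) ≤ y →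
      η / 2 ≤ ‖M y‖ → Good M w1 w2 z q κ τ y i →
      ‖M y - z * M (y * Real.exp (-(κ * i)))‖ ≤ 2 * τ := fun y i h1 h2 h3 =>
    rel M w1 w2 z q m hz h4 hq hw1 hw2 hm hA C' hC' hL' g hg0 hg η τ κ hτ0 hκ0 hκτ
      (by linarith) (by linarith) y i h1 h2 h3
  have r1 := hrel x i1 (hexp _ (by linarith)) (by linarith) hg1
  have hnz : ∀ y : ℝ, ‖z * M y‖ = ‖M y‖ := fun y => by rw [norm_mul, hz, one_mul]
  have hMx1 : η / 2 ≤ ‖M x1‖ := by
    have := norm_sub_norm_le (M x) (z * M x1)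
    rw [hnz] at this
    linarith
  have hexpx1 : ∀ t : ℝ, t + κ * i1 ≤ 4 * (κ * (I2 + I3 + 1)) →
      Real.exp t * (1 + 1 / κ ^ 2) ≤ x1 := by
    intro t ht
    have h1 := hexp _ ht
    rw [Real.exp_add] at h1
    rw [hx1, Real.exp_neg, ← div_eq_mul_inv, le_div_iff₀ (Real.exp_pos _)]
    linarith
  -- the second scale
  obtain ⟨i, hi, hgx1, hgx⟩ : ∃ i ∈ Finset.Ico I2 I3, Good M w1 w2 z q κ τ x1 i ∧
      Good M w1 w2 z q κ τ x (i + i1) := by
    by_contra h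
    push Not at h
    set S1 := (Finset.Ico I2 I3).filter (fun i => ¬ Good M w1 w2 z q κ τ x1 i) with hS1
    set S2 := (Finset.Ico I2 I3).filter (fun i => ¬ Good M w1 w2 z q κ τ x (i + i1)) with hS2
    have hcov : Finset.Ico I2 I3 ⊆ S1 ∪ S2 := by
      intro i hi
      rw [Finset.mem_union, hS1, hS2, Finset.mem_filter, Finset.mem_filter]
      by_cases hgi : Good M w1 w2 z q κ τ x1 i
      · exact Or.inr ⟨hi, h i hi hgi⟩
      · exact Or.inl ⟨hi, hgi⟩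
    have hsum : ∑ i ∈ Finset.Ico I2 I3, 1 / (i : ℝ) ≤
        ∑ i ∈ S1, 1 / (i : ℝ) + ∑ i ∈ S2, 1 / (i : ℝ) := by
      calc ∑ i ∈ Finset.Ico I2 I3, 1 / (i : ℝ) ≤ ∑ i ∈ S1 ∪ S2, 1 / (i : ℝ) :=
            Finset.sum_le_sum_of_subset_of_nonneg hcov (fun _ _ _ => by positivity)
        _ ≤ ∑ i ∈ S1 ∪ S2, 1 / (i : ℝ) + ∑ i ∈ S1 ∩ S2, 1 / (i : ℝ) := by
            have : 0 ≤ ∑ i ∈ S1 ∩ S2, 1 / (i : ℝ) := Finset.sum_nonneg fun _ _ => by positivity
            linarith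
        _ = _ := Finset.sum_union_inter
    have m1 : ∑ i ∈ S1, 1 / (i : ℝ) ≤ B0 := by
      refine hB I2 I3 (hI1'.trans (mul_le_mul_of_nonneg_left (by exact_mod_cast hI12) hκ0.le))
        x1 ?_ S1 (Finset.filter_subset _ _) (fun i hi => (Finset.mem_filter.1 hi).2)
      rw [← Real.exp_nat_mul]
      have := hexpx1 ((2 : ℕ) * (κ * I3)) (by push_cast; linarith)
      exact (le_mul_of_one_le_right (Real.exp_pos _).le hKge).trans this
    have m2 : ∑ i ∈ S2, 1 / (i : ℝ) ≤ 2 * B0 := by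
      have e1 : ∑ i ∈ S2, 1 / (i : ℝ) ≤ ∑ i ∈ S2, 2 * (1 / ((i + i1 : ℕ) : ℝ)) := by
        refine Finset.sum_le_sum fun i hi => ?_
        have hi' := Finset.mem_Ico.1 (Finset.mem_filter.1 hi).1
        have hip : (0 : ℝ) < i := by exact_mod_cast hI2pos.trans_le hi'.1
        have hle : (i1 : ℝ) ≤ i := by exact_mod_cast (hi1'.2.le.trans hi'.1)
        push_cast
        rw [mul_one_div, div_le_div_iff₀ hip (by positivity)]
        linarith
      have e2 : ∑ i ∈ S2, 2 * (1 / ((i + i1 : ℕ) : ℝ)) =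
          2 * ∑ j ∈ S2.image (fun i => i + i1), 1 / (j : ℝ) := by
        rw [Finset.sum_image (fun a _ b _ h => by simpa using h), Finset.mul_sum]
      rw [e2] at e1
      refine e1.trans (mul_le_mul_of_nonneg_left ?_ (by norm_num))
      refine hB I2 (I3 + I2)
        (hI1'.trans (mul_le_mul_of_nonneg_left (by exact_mod_cast hI12) hκ0.le)) x ?_ _ ?_ ?_
      · rw [← Real.exp_nat_mul]
        apply hexp1
        push_cast
        linarith
      · intro j hj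
        rw [Finset.mem_image] at hj
        obtain ⟨i, hi, rfl⟩ := hj
        have hi' := Finset.mem_Ico.1 (Finset.mem_filter.1 hi).1
        rw [Finset.mem_Ico]
        omega
      · intro j hj
        rw [Finset.mem_image] at hj
        obtain ⟨i, hi, rfl⟩ := hj
        exact (Finset.mem_filter.1 hi).2
    linarith
  have hi' := Finset.mem_Ico.1 hi
  have hiR : (i : ℝ) ≤ I3 := by exact_mod_cast hi'.2.le
  have ki : κ * i ≤ κ * I3 := mul_le_mul_of_nonneg_left hiR hκ0.le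
  have r2 := hrel x1 i (hexpx1 _ (by linarith)) hMx1 hgx1
  have r3 := hrel x (i + i1) (hexp _ (by push_cast; linarith)) (by linarith) hgx
  have hy : x1 * Real.exp (-(κ * i)) = x * Real.exp (-(κ * ((i + i1 : ℕ) : ℝ))) := by
    rw [hx1, mul_assoc, ← Real.exp_add]
    congr 2
    push_cast
    ring
  rw [hy] at r2
  set y : ℝ := x * Real.exp (-(κ * ((i + i1 : ℕ) : ℝ))) with hyd
  have b1 : η / 2 ≤ ‖M y‖ := by
    have := norm_sub_norm_le (M x) (z * M y)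
    rw [hnz] at this
    linarith
  have b2 : ‖1 - z‖ * ‖M y‖ ≤ 6 * τ := by
    have e1 : z * ((1 - z) * M y) = (M x - z * M x1) + z * (M x1 - z * M y) -
        (M x - z * M y) := by ring
    have e2 : ‖1 - z‖ * ‖M y‖ = ‖z * ((1 - z) * M y)‖ := by
      rw [norm_mul, norm_mul, hz, one_mul]
    rw [e2, e1]
    refine (norm_sub_le _ _).trans ?_
    have h1 := norm_add_le (M x - z * M x1) (z * (M x1 - z * M y))
    have h2 : ‖z * (M x1 - z * M y)‖ = ‖M x1 - z * M y‖ := by rw [norm_mul, hz, one_mul]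
    rw [h2] at h1
    linarith
  have b3 : ‖1 - z‖ * (η / 2) ≤ ‖1 - z‖ * ‖M y‖ := mul_le_mul_of_nonneg_left b1 hz2.le
  linarith

end Pool.Agent.Lib.MP_a17b09_nt.MRS91
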