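import Pool.Agent.Lib.MP_a17b09_nt.MRS.Stmts3
import Pool.Agent.Lib.MP_a17b09_nt.MRS.Pwt84
import Pool.Agent.Lib.MP_a17b09_nt.MRS.Alg1
import Pool.Agent.Lib.MP_a17b09_nt.MRS.TwoScale91
import Pool.Agent.Lib.MP_a17b09_nt.MRS.Cheb71

/-!
MRS (MP_a17b09): frequency `0` (`StPw0`).  The averages of `z ^ Ω(|v|²) ψ(v)` over Gaussian
integers, over primitive Gaussian integers and over shells tend to `0`.
-/

set_option autoImplicit false

open Filter Topology Finset

namespace Pool.Agent.Lib.MP_a17b09_nt.MRS91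

open MRS (FF Chr Pv Sh Mp ag)
open MRS.Tk84 (nm gball Mav mem_gball nm_mul nm_pos nm_eq_zero pwt lip sum_mult Mav_le)

/-- the completely multiplicative function, with value `0` at `0` -/
noncomputable def F0 (z : ℂ) (ψ : GaussianInt → ℂ) (v : GaussianInt) : ℂ :=
  if v = 0 then 0 else z ^ (ArithmeticFunction.cardFactors (nm v)) * ψ v

theorem F0_mul (z : ℂ) (ψ : GaussianInt → ℂ) (hmul : ∀ x y, ψ (x * y) = ψ x * ψ y)
    (a b : GaussianInt) : F0 z ψ (a * b) = F0 z ψ a * F0 z ψ b := by
  unfold F0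
  by_cases ha : a = 0
  · simp [ha]
  by_cases hb : b = 0
  · simp [hb]
  rw [if_neg ha, if_neg hb, if_neg (mul_ne_zero ha hb), nm_mul,
    ArithmeticFunction.cardFactors_mul (nm_pos.2 ha).ne' (nm_pos.2 hb).ne', hmul, pow_add]
  ring

theorem F0_le {z : ℂ} {ψ : GaussianInt → ℂ} (hz : ‖z‖ = 1) (hψ : ∀ v, ‖ψ v‖ ≤ 1)
    (v : GaussianInt) : ‖F0 z ψ v‖ ≤ 1 := by
  unfold F0
  split_ifs
  · simp
  · rw [norm_mul, norm_pow, hz, one_pow, one_mul]
    exact hψ v

theorem exists_gp (p : ℕ) (hp : p.Prime) (h4 : p % 4 = 1) : ∃ π : GaussianInt, π.norm = p := by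
  have := Fact.mk hp
  obtain ⟨a, b, hab⟩ := Nat.Prime.sq_add_sq (p := p) (by omega)
  refine ⟨⟨a, b⟩, ?_⟩
  rw [Zsqrtd.norm_def, ← hab]
  push_cast
  ring

open scoped Classical in
/-- a Gaussian integer of norm `p` -/
noncomputable def gp (p : ℕ) : GaussianInt :=
  if h : ∃ π : GaussianInt, π.norm = p then h.choose else 0

theorem norm_gp (p : ℕ) (hp : p.Prime) (h4 : p % 4 = 1) : (gp p).norm = p := by
  have h := exists_gp p hp h4
  unfold gp
  rw [dif_pos h]
  exact h.choose_spec

theorem prime_of_norm (π : GaussianInt) (p : ℕ) (hp : p.Prime) (h : π.norm = p) : Prime π := by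
  rw [← irreducible_iff_prime]
  have h1 : π.norm.natAbs = p := by rw [h]; simp
  refine ⟨fun hu => ?_, fun {a b} hab => ?_⟩
  · have := Zsqrtd.norm_eq_one_iff.2 hu
    rw [h1] at this
    exact hp.one_lt.ne' this
  · have h2 : a.norm.natAbs * b.norm.natAbs = p := by
      rw [← Int.natAbs_mul, ← Zsqrtd.norm_mul, ← hab, h1]
    rcases (Nat.dvd_prime hp).1 (Dvd.intro _ h2) with h3 | h3
    · left
      exact Zsqrtd.norm_eq_one_iff.1 h3
    · right
      apply Zsqrtd.norm_eq_one_iff.1
      rw [h3] at h2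
      exact Nat.eq_of_mul_eq_mul_left hp.pos (by rw [h2, mul_one])

theorem not_assoc (π : GaussianInt) (p : ℕ) (hp : p.Prime) (h4 : p % 4 = 1) (h : π.norm = p) :
    ¬ Associated π (star π) := by
  rintro ⟨u, hu⟩
  have hun : (u : GaussianInt).norm = 1 := by
    have := Zsqrtd.norm_eq_one_iff.2 u.isUnit
    have h0 := GaussianInt.norm_nonneg (u : GaussianInt)
    omega
  rw [Zsqrtd.norm_def] at hun h
  have e1 := congrArg Zsqrtd.re hu
  have e2 := congrArg Zsqrtd.im hu
  simp only [Zsqrtd.re_mul, Zsqrtd.im_mul, Zsqrtd.re_star, Zsqrtd.im_star] at e1 e2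
  set c := (u : GaussianInt).re
  set d := (u : GaussianInt).im
  set a := π.re
  set b := π.im
  have hsq : ∀ n : ℤ, n * n ≠ p := by
    intro n hn
    have h1 : n.natAbs ^ 2 = p := by
      have : ((n.natAbs ^ 2 : ℕ) : ℤ) = p := by
        push_cast
        rw [sq_abs, ← hn]
        ring
      exact_mod_cast this
    exact Nat.Prime.not_prime_pow (le_refl 2) (h1 ▸ hp)
  have hev : ∀ n : ℤ, 2 * n ≠ p := by
    intro n hn
    omega
  have hc : c = 0 ∨ c = 1 ∨ c = -1 := by
    have h1 : c ≤ 1 := by nlinarith [mul_self_nonneg d]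
    have h2 : -1 ≤ c := by nlinarith [mul_self_nonneg d]
    omega
  rcases hc with hc | hc | hc
  · have hd : d = 1 ∨ d = -1 := by
      have h1 : (d - 1) * (d + 1) = 0 := by
        rw [hc] at hun
        linarith
      rcases mul_eq_zero.1 h1 with h2 | h2
      · left; linarith
      · right; linarith
    rcases hd with hd | hd
    · rw [hc, hd] at e1
      have : b = -a := by linarith
      apply hev (a * a)
      rw [← h, this]
      ring
    · rw [hc, hd] at e1
      have : b = a := by linarith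
      apply hev (a * a)
      rw [← h, this]
      ring
  · have hd : d = 0 := by
      rw [hc] at hun
      have : d * d = 0 := by linarith
      exact mul_self_eq_zero.1 this
    rw [hc, hd] at e2
    have : b = 0 := by linarith
    apply hsq a
    rw [← h, this]
    ring
  · have hd : d = 0 := by
      rw [hc] at hun
      have : d * d = 0 := by linarith
      exact mul_self_eq_zero.1 this
    rw [hc, hd] at e1
    have : a = 0 := by linarith
    apply hsq b
    rw [← h, this]
    ring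

theorem cop_of_norm {x : GaussianInt} {K : ℕ} (h : IsCoprime x.norm (K : ℤ)) :
    IsCoprime x (K : GaussianInt) := by
  obtain ⟨a, b, hab⟩ := h
  refine ⟨(a : GaussianInt) * star x, (b : GaussianInt), ?_⟩
  have h1 : ((x.norm : ℤ) : GaussianInt) = x * star x := Zsqrtd.norm_eq_mul_conj x
  have h2 := congrArg (fun t : ℤ => (t : GaussianInt)) hab
  push_cast at h2
  rw [h1] at h2
  linear_combination h2

theorem F0_prime (z : ℂ) (ψ : GaussianInt → ℂ) (π : GaussianInt) (p : ℕ) (hp : p.Prime)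
    (h : π.norm = p) : F0 z ψ π = z * ψ π := by
  have h1 : nm π = p := by
    unfold nm
    rw [h]
    simp
  have h0 : π ≠ 0 := nm_pos.1 (h1 ▸ hp.pos)
  unfold F0
  rw [if_neg h0, h1, ArithmeticFunction.cardFactors_apply_prime hp, pow_one]

/-- averages over all Gaussian integers -/
theorem full_pw0 (z : ℂ) (k K : ℕ) (ψ : GaussianInt → ℂ) (hk : 0 < k) (hzk : z ^ k = 1)
    (hz1 : z ≠ 1) (hK : 0 < K) (hψ : Chr K ψ) : Tendsto (Mav (F0 z ψ)) atTop (𝓝 0) := by
  classical
  have hz : ‖z‖ = 1 := Complex.norm_eq_one_of_pow_eq_one hzk hk.ne'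
  have hψ1 : ∀ v, ‖ψ v‖ ≤ 1 := by
    intro v
    by_cases h : IsCoprime v (K : GaussianInt)
    · exact (hψ.nrm v h).le
    · rw [hψ.zer v h]; simp
  have hFm := F0_mul z ψ hψ.mul
  have hF1 := F0_le hz hψ1
  by_cases hi : ψ ⟨0, 1⟩ = 1
  · have hne : ∀ x : GaussianInt, IsCoprime x.norm (K : ℤ) → ψ x ≠ 0 := by
      intro x hx h0
      have := hψ.nrm x (cop_of_norm hx)
      rw [h0, norm_zero] at this
      exact zero_ne_one this
    have hchar : MRS1.IsChar K ψ := ⟨hψ.mul, hψ.per, hi, hne⟩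
    obtain ⟨m, hm, hroot⟩ := MRS1.exp_plain K hK ψ hchar
    have hcopK : ∀ p : ℕ, p.Coprime (4 * K) → IsCoprime (p : ℤ) (K : ℤ) := by
      intro p hp
      exact Nat.isCoprime_iff_coprime.2 (Nat.Coprime.coprime_mul_left_right hp)
    refine two_scale (Mav (F0 z ψ)) (fun p => if p % 4 = 1 then ψ (gp p) else 1)
      (fun p => if p % 4 = 1 then ψ (star (gp p)) else 1) z (4 * K) m hz hz1 (Dvd.intro _ rfl)
      (by positivity) hm ?_ ?_ ?_ 20000 ?_ ?_ ?_
    · intro p hp hc
      by_cases h4 : p % 4 = 1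
      · simp only [h4, if_true]
        apply hroot
        rw [norm_gp p hp h4]
        exact hcopK p hc
      · simp only [h4, if_false, one_pow]
    · intro p hp hc
      by_cases h4 : p % 4 = 1
      · simp only [h4, if_true]
        apply hroot
        rw [Zsqrtd.norm_conj, norm_gp p hp h4]
        exact hcopK p hc
      · simp only [h4, if_false, one_pow]
    · intro ω hω
      obtain ⟨a, ha4, hac, ha⟩ := MRS1.alg1_plain K hK ψ hψ.mul hψ.per hi hne ω hω
      refine ⟨a, ha4, hac, fun p hp hpa => ?_⟩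
      have h4 : p % 4 = 1 := by
        have h1 : p ≡ a [MOD 4] := hpa.of_mul_right K
        have h2 := h1.trans ha4
        unfold Nat.ModEq at h2
        omega
      simp only [h4, if_true]
      apply ha (gp p)
      rw [norm_gp p hp h4]
      exact (Int.natCast_modEq_iff).2 hpa
    · intro x hx P hP
      have hPn : ∀ p ∈ P, (gp p).norm = p := by
        intro p hp
        refine norm_gp p (hP p hp).1 ?_
        have := (hP p hp).2.1
        unfold Nat.ModEq at this
        omega
      have hP4 : ∀ p ∈ P, p % 4 = 1 := by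
        intro p hp
        have := (hP p hp).2.1
        unfold Nat.ModEq at this
        omega
      have hnm : ∀ p ∈ P, nm (gp p) = p := by
        intro p hp
        unfold nm
        rw [hPn p hp]; simp
      have hnm2 : ∀ p ∈ P, nm (star (gp p)) = p := by
        intro p hp
        unfold nm
        rw [Zsqrtd.norm_conj, hPn p hp]; simp
      have hass : ∀ a b : GaussianInt, Associated a b → nm a = nm b := by
        rintro a b ⟨u, rfl⟩
        have hu : nm (u : GaussianInt) = 1 := Zsqrtd.norm_eq_one_iff.2 u.isUnit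
        rw [nm_mul, hu, mul_one]
      set f1 : ℕ → GaussianInt := fun p => gp p with hf1
      set f2 : ℕ → GaussianInt := fun p => star (gp p) with hf2
      have hinj1 : ∀ a ∈ P, ∀ b ∈ P, f1 a = f1 b → a = b := by
        intro a ha b hb hab
        rw [← hnm a ha, ← hnm b hb]
        exact congrArg nm hab
      have hinj2 : ∀ a ∈ P, ∀ b ∈ P, f2 a = f2 b → a = b := by
        intro a ha b hb hab
        rw [← hnm2 a ha, ← hnm2 b hb]
        exact congrArg nm hab
      have hna : ∀ a ∈ P, ∀ b ∈ P, ¬ Associated (f1 a) (f2 b) := by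
        intro a ha b hb hab
        have h1 : a = b := by
          rw [← hnm a ha, ← hnm2 b hb]
          exact hass _ _ hab
        subst h1
        exact not_assoc (gp a) a (hP a ha).1 (hP4 a ha) (hPn a ha) hab
      have hdisj : Disjoint (P.image f1) (P.image f2) := by
        rw [Finset.disjoint_left]
        intro v hv1 hv2
        obtain ⟨a, ha, rfl⟩ := Finset.mem_image.1 hv1
        obtain ⟨b, hb, hab⟩ := Finset.mem_image.1 hv2
        exact hna a ha b hb (by rw [hab])
      have hsum : ∀ g : GaussianInt → ℝ, ∑ v ∈ P.image f1 ∪ P.image f2, g v =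
          ∑ p ∈ P, g (gp p) + ∑ p ∈ P, g (star (gp p)) := by
        intro g
        rw [Finset.sum_union hdisj, Finset.sum_image hinj1, Finset.sum_image hinj2]
      have key := pwt (F0 z ψ) hFm hF1 x hx (P.image f1 ∪ P.image f2) (by
          intro v hv
          rcases Finset.mem_union.1 hv with hv | hv
          · obtain ⟨a, ha, rfl⟩ := Finset.mem_image.1 hv
            exact prime_of_norm _ a (hP a ha).1 (hPn a ha)
          · obtain ⟨a, ha, rfl⟩ := Finset.mem_image.1 hv
            exact prime_of_norm _ a (hP a ha).1 (by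
              rw [hf2]
              simp only
              rw [Zsqrtd.norm_conj]; exact hPn a ha))
        (by
          intro v hv r hr hvr
          rcases Finset.mem_union.1 hv with hv | hv <;> rcases Finset.mem_union.1 hr with hr | hr
          · obtain ⟨a, ha, rfl⟩ := Finset.mem_image.1 hv
            obtain ⟨b, hb, rfl⟩ := Finset.mem_image.1 hr
            intro hab
            apply hvr
            have h1 : a = b := by
              rw [← hnm a ha, ← hnm b hb]
              exact hass _ _ hab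
            rw [h1]
          · obtain ⟨a, ha, rfl⟩ := Finset.mem_image.1 hv
            obtain ⟨b, hb, rfl⟩ := Finset.mem_image.1 hr
            exact hna a ha b hb
          · obtain ⟨a, ha, rfl⟩ := Finset.mem_image.1 hv
            obtain ⟨b, hb, rfl⟩ := Finset.mem_image.1 hr
            exact fun hab => hna b hb a ha hab.symm
          · obtain ⟨a, ha, rfl⟩ := Finset.mem_image.1 hv
            obtain ⟨b, hb, rfl⟩ := Finset.mem_image.1 hr
            intro hab
            apply hvr
            have h1 : a = b := by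
              rw [← hnm2 a ha, ← hnm2 b hb]
              exact hass _ _ hab
            rw [h1])
        (by
          intro v hv
          rcases Finset.mem_union.1 hv with hv | hv
          · obtain ⟨a, ha, rfl⟩ := Finset.mem_image.1 hv
            have : nm (f1 a) = a := hnm a ha
            rw [this]
            exact (hP a ha).2.2.2
          · obtain ⟨a, ha, rfl⟩ := Finset.mem_image.1 hv
            have : nm (f2 a) = a := hnm2 a ha
            rw [this]
            exact (hP a ha).2.2.2)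
      rw [hsum, hsum] at key
      have e1 : ∑ p ∈ P, 1 / ((nm (gp p) : ℕ) : ℝ) = ∑ p ∈ P, 1 / (p : ℝ) :=
        Finset.sum_congr rfl fun p hp => by rw [hnm p hp]
      have e2 : ∑ p ∈ P, 1 / ((nm (star (gp p)) : ℕ) : ℝ) = ∑ p ∈ P, 1 / (p : ℝ) :=
        Finset.sum_congr rfl fun p hp => by rw [hnm2 p hp]
      rw [e1, e2, ← Finset.sum_add_distrib] at key
      set L : ℝ := ∑ p ∈ P, 1 / (p : ℝ) with hL
      have hL0 : 0 ≤ L := Finset.sum_nonneg fun _ _ => by positivity
      have hsq : √(L + L) ≤ 2 * √L := by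
        rw [Real.sqrt_le_left (by positivity)]
        rw [mul_pow, Real.sq_sqrt hL0]
        linarith
      refine le_trans (le_of_eq ?_) (key.trans (by linarith [Real.sqrt_nonneg L]))
      refine Finset.sum_congr rfl fun p hp => ?_
      have hp4 := hP4 p hp
      unfold dfc
      simp only [hp4, if_true]
      rw [hnm p hp, hnm2 p hp, F0_prime z ψ _ p (hP p hp).1 (hPn p hp),
        F0_prime z ψ _ p (hP p hp).1 (by rw [Zsqrtd.norm_conj]; exact hPn p hp)]
      ring
    · intro x y hx hxy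
      have h1 := lip (F0 z ψ) hF1 x y hx (hx.trans hxy)
      have hx0 : 0 < x := by linarith
      have hy0 : 0 < y := by linarith
      have h2 : 0 ≤ Real.log (y / x) := Real.log_nonneg (by
        rw [le_div_iff₀ hx0]; linarith)
      have h3 : Real.log (x / y) = - Real.log (y / x) := by
        rw [← Real.log_inv, inv_div]
      rw [h3, abs_neg, abs_of_nonneg h2, min_eq_left hxy] at h1
      have h4 : 0 ≤ 1 / √x := by positivity
      linarith
    · intro a ha κ hκ
      obtain ⟨c, hc, U0, -, h⟩ := MRS.cheb_ap71 (4 * K) (by positivity) a ha κ hκ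
      exact ⟨c, hc, U0, fun u hu => h u hu _ fun p => mem_win⟩
  · have h0 : Mav (F0 z ψ) = fun _ => 0 := by
      funext x
      unfold Mav
      have hnI : nm (⟨0, 1⟩ : GaussianInt) = 1 := by
        unfold nm
        rw [Zsqrtd.norm_def]
        simp
      have hI0 : (⟨0, 1⟩ : GaussianInt) ≠ 0 := nm_pos.1 (by rw [hnI]; norm_num)
      have hII : (⟨0, 1⟩ : GaussianInt) * ⟨0, -1⟩ = 1 := by
        rw [Zsqrtd.ext_iff]
        simp
      have hFI : F0 z ψ ⟨0, 1⟩ = ψ ⟨0, 1⟩ := by
        unfold F0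
        rw [if_neg hI0, hnI]
        simp
      have hS : ∑ v ∈ (gball ⌊x⌋₊).erase 0, F0 z ψ v =
          ψ ⟨0, 1⟩ * ∑ v ∈ (gball ⌊x⌋₊).erase 0, F0 z ψ v := by
        rw [Finset.mul_sum]
        symm
        refine Finset.sum_nbij (fun v => ⟨0, 1⟩ * v) ?_ ?_ ?_ ?_
        · intro v hv
          rw [Finset.mem_erase, mem_gball] at hv ⊢
          rw [nm_mul, hnI, one_mul]
          exact ⟨mul_ne_zero hI0 hv.1, hv.2⟩
        · intro a _ b _ hab
          exact mul_left_cancel₀ hI0 hab
        · intro v hv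
          rw [Finset.mem_coe, Finset.mem_erase, mem_gball] at hv
          refine ⟨⟨0, -1⟩ * v, ?_, ?_⟩
          · rw [Finset.mem_coe, Finset.mem_erase, mem_gball]
            have hJ0 : (⟨0, -1⟩ : GaussianInt) ≠ 0 := by
              intro h
              rw [h, mul_zero] at hII
              exact zero_ne_one hII
            have hnJ : nm (⟨0, -1⟩ : GaussianInt) = 1 := by
              unfold nm
              rw [Zsqrtd.norm_def]
              simp
            rw [nm_mul, hnJ, one_mul]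
            exact ⟨mul_ne_zero hJ0 hv.1, hv.2⟩
          · show (⟨0, 1⟩ : GaussianInt) * (⟨0, -1⟩ * v) = v
            rw [← mul_assoc, hII, one_mul]
        · intro v _
          show ψ ⟨0, 1⟩ * F0 z ψ v = F0 z ψ (⟨0, 1⟩ * v)
          rw [hFm, hFI]
      have h1 : (1 - ψ ⟨0, 1⟩) * ∑ v ∈ (gball ⌊x⌋₊).erase 0, F0 z ψ v = 0 := by
        rw [sub_mul, one_mul, ← hS, sub_self]
      rcases mul_eq_zero.1 h1 with h2 | h2
      · exact absurd (sub_eq_zero.1 h2).symm hi
      · rw [h2, mul_zero]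
    rw [h0]
    exact tendsto_const_nhds

/-! ### primitive Gaussian integers -/

theorem nm_nat (d : ℕ) : nm (d : GaussianInt) = d ^ 2 := by
  unfold nm
  rw [Zsqrtd.norm_natCast, Int.natAbs_mul, Int.natAbs_natCast, sq]

theorem natCast_dvd_iff (d : ℕ) (v : GaussianInt) :
    (d : GaussianInt) ∣ v ↔ d ∣ Int.gcd v.re v.im := by
  have h1 : ((d : ℤ) : GaussianInt) = (d : GaussianInt) := by push_cast; rfl
  rw [← h1, Zsqrtd.intCast_dvd, Int.gcd_eq_natAbs, Nat.dvd_gcd_iff, Int.natCast_dvd,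
    Int.natCast_dvd]

open scoped Classical in
/-- Moebius inversion -/
theorem moeb (v : GaussianInt) (hv : v ≠ 0) (n : ℕ) (hn : nm v ≤ n) :
    ∑ d ∈ (Finset.Icc 1 n).filter (fun d : ℕ => (d : GaussianInt) ∣ v),
      ((ArithmeticFunction.moebius d : ℤ) : ℂ) = if Pv v then 1 else 0 := by
  have hg0 : Int.gcd v.re v.im ≠ 0 := by
    intro h
    rw [Int.gcd_eq_zero_iff] at h
    exact hv (Zsqrtd.ext h.1 h.2)
  have hset : (Finset.Icc 1 n).filter (fun d : ℕ => (d : GaussianInt) ∣ v) =
      (Int.gcd v.re v.im).divisors := by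
    ext d
    rw [Finset.mem_filter, Finset.mem_Icc, Nat.mem_divisors, natCast_dvd_iff]
    refine ⟨fun h => ⟨h.2, hg0⟩, fun h => ⟨⟨Nat.pos_of_ne_zero ?_, ?_⟩, h.1⟩⟩
    · rintro rfl
      exact hg0 (zero_dvd_iff.1 h.1)
    · obtain ⟨w, hw⟩ := (natCast_dvd_iff d v).2 h.1
      have h1 : nm v = d ^ 2 * nm w := by rw [hw, nm_mul, nm_nat]
      have hw0 : w ≠ 0 := by
        rintro rfl
        rw [mul_zero] at hw
        exact hv hw
      have h2 := nm_pos.2 hw0
      have h3 : d ≤ d ^ 2 := Nat.le_self_pow two_ne_zero d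
      calc d ≤ d ^ 2 := h3
        _ ≤ d ^ 2 * nm w := Nat.le_mul_of_pos_right _ h2
        _ = nm v := h1.symm
        _ ≤ n := hn
  rw [hset]
  have h1 : ∑ d ∈ (Int.gcd v.re v.im).divisors, (ArithmeticFunction.moebius d : ℤ) =
      if Int.gcd v.re v.im = 1 then 1 else 0 := by
    have h2 := ArithmeticFunction.coe_mul_zeta_apply (f := ArithmeticFunction.moebius)
      (x := Int.gcd v.re v.im)
    rw [← h2, ArithmeticFunction.moebius_mul_coe_zeta, ArithmeticFunction.one_apply]
  rw [← Int.cast_sum, h1]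
  unfold Pv
  split_ifs <;> simp

open scoped Classical in
/-- averages over primitive Gaussian integers -/
noncomputable def Pav (F : GaussianInt → ℂ) (x : ℝ) : ℂ :=
  (1 / (x : ℂ)) * ∑ v ∈ ((gball ⌊x⌋₊).erase 0).filter Pv, F v

theorem prim_id (F : GaussianInt → ℂ) (hF : ∀ a b, F (a * b) = F a * F b) (x : ℝ) (hx : 0 < x) :
    Pav F x = ∑ d ∈ Finset.Icc 1 ⌊x⌋₊, ((ArithmeticFunction.moebius d : ℤ) : ℂ) *
      ((1 / ((d : ℂ) ^ 2)) * (F d * Mav F (x / (d : ℝ) ^ 2))) := by
  classical
  have h1 : ∀ d ∈ Finset.Icc 1 ⌊x⌋₊, ((ArithmeticFunction.moebius d : ℤ) : ℂ) *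
      ((1 / ((d : ℂ) ^ 2)) * (F d * Mav F (x / (d : ℝ) ^ 2))) =
      (1 / (x : ℂ)) * (((ArithmeticFunction.moebius d : ℤ) : ℂ) *
        ∑ v ∈ ((gball ⌊x⌋₊).erase 0).filter (fun v => (d : GaussianInt) ∣ v), F v) := by
    intro d hd
    rw [Finset.mem_Icc] at hd
    have hd0 : (d : GaussianInt) ≠ 0 := nm_pos.1 (by rw [nm_nat]; exact pow_pos (by omega) 2)
    have h2 := sum_mult F hF x hx (d : GaussianInt) hd0
    rw [nm_nat] at h2
    push_cast at h2
    rw [← h2]
    ring
  rw [Finset.sum_congr rfl h1, ← Finset.mul_sum]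
  unfold Pav
  congr 1
  have h3 : ∑ d ∈ Finset.Icc 1 ⌊x⌋₊, ((ArithmeticFunction.moebius d : ℤ) : ℂ) *
      ∑ v ∈ ((gball ⌊x⌋₊).erase 0).filter (fun v => (d : GaussianInt) ∣ v), F v =
      ∑ d ∈ Finset.Icc 1 ⌊x⌋₊, ∑ v ∈ (gball ⌊x⌋₊).erase 0,
        if (d : GaussianInt) ∣ v then ((ArithmeticFunction.moebius d : ℤ) : ℂ) * F v else 0 := by
    refine Finset.sum_congr rfl fun d _ => ?_
    rw [Finset.sum_filter, Finset.mul_sum]
    refine Finset.sum_congr rfl fun v _ => ?_
    split_ifs <;> simp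
  rw [h3, Finset.sum_comm, Finset.sum_filter]
  refine Finset.sum_congr rfl fun v hv => ?_
  rw [Finset.mem_erase, mem_gball] at hv
  have h4 := moeb v hv.1 ⌊x⌋₊ hv.2
  rw [← Finset.sum_filter, ← Finset.sum_mul, h4]
  split_ifs <;> simp

/-- from all to primitive -/
theorem prim_tendsto (F : GaussianInt → ℂ) (hF : ∀ a b, F (a * b) = F a * F b)
    (hF1 : ∀ a, ‖F a‖ ≤ 1) (h : Tendsto (Mav F) atTop (𝓝 0)) : Tendsto (Pav F) atTop (𝓝 0) := by
  set T : ℝ → ℕ → ℂ := fun x d => ((ArithmeticFunction.moebius d : ℤ) : ℂ) *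
      ((1 / ((d : ℂ) ^ 2)) * (F d * Mav F (x / (d : ℝ) ^ 2))) with hT
  have hsum : Summable (fun d : ℕ => 24 * (1 / (d : ℝ) ^ 2)) :=
    (Real.summable_one_div_nat_pow.2 one_lt_two).mul_left 24
  have hmu : ∀ d : ℕ, ‖((ArithmeticFunction.moebius d : ℤ) : ℂ)‖ ≤ 1 := by
    intro d
    rw [Complex.norm_intCast]
    have := ArithmeticFunction.abs_moebius_le_one (n := d)
    exact_mod_cast this
  have h1 : Tendsto (fun x => ∑' d, T x d) atTop (𝓝 (∑' _d : ℕ, (0 : ℂ))) := by
    refine tendsto_tsum_of_dominated_convergence hsum ?_ ?_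
    · intro d
      rcases Nat.eq_zero_or_pos d with hd | hd
      · subst hd
        simp only [hT]
        simp
      · have hd' : (0 : ℝ) < (d : ℝ) ^ 2 := by positivity
        have h2 : Tendsto (fun x : ℝ => x / (d : ℝ) ^ 2) atTop atTop :=
          tendsto_id.atTop_div_const hd'
        have h3 := h.comp h2
        have h4 := ((h3.const_mul (F d)).const_mul (1 / ((d : ℂ) ^ 2))).const_mul
          ((ArithmeticFunction.moebius d : ℤ) : ℂ)
        rw [mul_zero, mul_zero, mul_zero] at h4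
        exact h4
    · refine Eventually.of_forall fun x d => ?_
      simp only [hT]
      rw [norm_mul, norm_mul, norm_mul]
      have h5 : ‖(1 / ((d : ℂ) ^ 2))‖ = 1 / (d : ℝ) ^ 2 := by
        rw [norm_div, norm_one, norm_pow, Complex.norm_natCast]
      rw [h5]
      have h6 := Mav_le F hF1 (x / (d : ℝ) ^ 2)
      calc _ ≤ 1 * (1 / (d : ℝ) ^ 2 * (1 * 24)) := by
            gcongr
            · exact hmu d
            · exact hF1 _
        _ = _ := by ring
  rw [tsum_zero] at h1
  refine h1.congr' ?_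
  filter_upwards [eventually_gt_atTop 0] with x hx
  rw [prim_id F hF x hx]
  apply tsum_eq_sum
  intro d hd
  simp only [hT]
  rcases Nat.eq_zero_or_pos d with hd0 | hd0
  · subst hd0
    simp
  · have h2 : ⌊x⌋₊ < d := by
      by_contra hcon
      push Not at hcon
      exact hd (Finset.mem_Icc.2 ⟨hd0, hcon⟩)
    have h3 : x < d := (Nat.floor_lt hx.le).1 h2
    have hd1 : (1 : ℝ) ≤ d := by exact_mod_cast hd0
    have h4 : x / (d : ℝ) ^ 2 < 1 := by
      rw [div_lt_one (by positivity)]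
      nlinarith
    have h5 : Mav F (x / (d : ℝ) ^ 2) = 0 := by
      unfold Mav
      have h6 : ⌊x / (d : ℝ) ^ 2⌋₊ = 0 := by
        rw [Nat.floor_eq_zero]; exact h4
      rw [h6]
      have : (gball 0).erase 0 = ∅ := by
        rw [Finset.eq_empty_iff_forall_notMem]
        intro v hv
        rw [Finset.mem_erase, mem_gball] at hv
        exact hv.1 (nm_eq_zero.1 (Nat.le_zero.1 hv.2))
      rw [this]
      simp
    rw [h5]
    simp

/-- shells -/
theorem shell_id (z : ℂ) (ψ : GaussianInt → ℂ) (r1 r2 N : ℝ) (h1 : 0 ≤ r1) (h2 : r1 < r2)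
    (hN : 0 < N) : Mp z ψ r1 r2 N 0 =
      (r2 : ℂ) * Pav (F0 z ψ) (r2 * N) - (r1 : ℂ) * Pav (F0 z ψ) (r1 * N) := by
  classical
  have hr2 : 0 < r2 := lt_of_le_of_lt h1 h2
  have hN' : (N : ℂ) ≠ 0 := by exact_mod_cast hN.ne'
  have hset : (Sh (r1 * N) (r2 * N)).filter Pv =
      ((gball ⌊r2 * N⌋₊).erase 0).filter Pv \ ((gball ⌊r1 * N⌋₊).erase 0).filter Pv := by
    ext v
    rw [Finset.mem_sdiff, Finset.mem_filter, Finset.mem_filter, Finset.mem_filter, MRS.mem_Sh,
      Finset.mem_erase, Finset.mem_erase, mem_gball, mem_gball,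
      Nat.le_floor_iff (by positivity), Nat.le_floor_iff (by positivity)]
    have e : MRS.nm v = nm v := rfl
    rw [e]
    constructor
    · rintro ⟨⟨a, b, c⟩, d⟩
      exact ⟨⟨⟨a, c⟩, d⟩, fun h => absurd h.1.2 (not_le.2 b)⟩
    · rintro ⟨⟨⟨a, c⟩, d⟩, h⟩
      refine ⟨⟨a, ?_, c⟩, d⟩
      by_contra hcon
      push Not at hcon
      exact h ⟨⟨a, hcon⟩, d⟩
  have hsub : ((gball ⌊r1 * N⌋₊).erase 0).filter Pv ⊆ ((gball ⌊r2 * N⌋₊).erase 0).filter Pv := by
    intro v hv
    rw [Finset.mem_filter, Finset.mem_erase, mem_gball] at hv ⊢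
    exact ⟨⟨hv.1.1, hv.1.2.trans (Nat.floor_le_floor (by nlinarith))⟩, hv.2⟩
  have hFF : ∀ v ∈ (Sh (r1 * N) (r2 * N)).filter Pv, FF z ψ 0 v = F0 z ψ v := by
    intro v hv
    rw [Finset.mem_filter, MRS.mem_Sh] at hv
    unfold FF F0
    rw [if_neg hv.1.1, zpow_zero, mul_one]
    rfl
  unfold Mp
  rw [Finset.sum_congr rfl hFF, hset, Finset.sum_sdiff_eq_sub hsub]
  have hP2 : (r2 : ℂ) * Pav (F0 z ψ) (r2 * N) =
      (1 / (N : ℂ)) * ∑ v ∈ ((gball ⌊r2 * N⌋₊).erase 0).filter Pv, F0 z ψ v := by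
    unfold Pav
    have : (r2 : ℂ) ≠ 0 := by exact_mod_cast hr2.ne'
    push_cast
    field_simp
  have hP1 : (r1 : ℂ) * Pav (F0 z ψ) (r1 * N) =
      (1 / (N : ℂ)) * ∑ v ∈ ((gball ⌊r1 * N⌋₊).erase 0).filter Pv, F0 z ψ v := by
    rcases h1.eq_or_lt with h0 | h0
    · rw [← h0]
      have : ((gball ⌊(0 : ℝ) * N⌋₊).erase 0).filter Pv = ∅ := by
        rw [Finset.eq_empty_iff_forall_notMem]
        intro v hv
        rw [Finset.mem_filter, Finset.mem_erase, mem_gball, zero_mul, Nat.floor_zero] at hv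
        exact hv.1.1 (nm_eq_zero.1 (Nat.le_zero.1 hv.1.2))
      rw [this]
      simp
    · unfold Pav
      have : (r1 : ℂ) ≠ 0 := by exact_mod_cast h0.ne'
      push_cast
      field_simp
  rw [hP1, hP2]
  ring

end Pool.Agent.Lib.MP_a17b09_nt.MRS91

namespace Pool.Agent.Lib.MP_a17b09_nt.MRS

open MRS91

/-- **Frequency 0.** -/
theorem pw0_91 : StPw0 := by
  intro z k K ψ hk hzk hz1 hK hψ r1 r2 hr1 hr2
  have hz : ‖z‖ = 1 := Complex.norm_eq_one_of_pow_eq_one hzk hk.ne'
  have hψ1 : ∀ v, ‖ψ v‖ ≤ 1 := by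
    intro v
    by_cases h : IsCoprime v (K : GaussianInt)
    · exact (hψ.nrm v h).le
    · rw [hψ.zer v h]; simp
  have hfull := full_pw0 z k K ψ hk hzk hz1 hK hψ
  have hP := prim_tendsto (F0 z ψ) (F0_mul z ψ hψ.mul) (F0_le hz hψ1) hfull
  have hterm : ∀ r : ℝ, 0 ≤ r →
      Tendsto (fun N : ℝ => (r : ℂ) * Pav (F0 z ψ) (r * N)) atTop (𝓝 0) := by
    intro r hr
    rcases hr.eq_or_lt with h0 | h0
    · rw [← h0]
      simp
    · have h1 : Tendsto (fun N : ℝ => r * N) atTop atTop := tendsto_id.const_mul_atTop h0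
      have h2 := (hP.comp h1).const_mul (r : ℂ)
      simpa using h2
  have h3 := (hterm r2 (by linarith)).sub (hterm r1 hr1)
  rw [sub_zero] at h3
  refine h3.congr' ?_
  filter_upwards [eventually_gt_atTop 0] with N hN
  exact (shell_id z ψ r1 r2 N hr1 hr2 hN).symm

end Pool.Agent.Lib.MP_a17b09_nt.MRS
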