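import Pool.Agent.Lib.MP_a17b09_nt.MRS.Circ84

/-!
MRS (MP_a17b09_nt): the inequality of Turan and Kubilius for Gaussian integers, and its
consequence for the averages of completely multiplicative functions.
-/

set_option autoImplicit false

open Finset

namespace Pool.Agent.Lib.MP_a17b09_nt.MRS.Tk84

open Circ84

/-- the norm as a natural number -/
def nm (v : GaussianInt) : ℕ := (Zsqrtd.norm v).natAbs

theorem nm_coe (v : GaussianInt) : ((nm v : ℕ) : ℤ) = v.re ^ 2 + v.im ^ 2 := by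
  unfold nm
  rw [Int.natAbs_of_nonneg (GaussianInt.norm_nonneg v), Zsqrtd.norm_def]
  ring

theorem nm_mul (v w : GaussianInt) : nm (v * w) = nm v * nm w := by
  unfold nm
  rw [Zsqrtd.norm_mul, Int.natAbs_mul]

theorem nm_eq_zero {v : GaussianInt} : nm v = 0 ↔ v = 0 := by
  unfold nm
  rw [Int.natAbs_eq_zero]
  exact GaussianInt.norm_eq_zero

theorem nm_pos {v : GaussianInt} : 0 < nm v ↔ v ≠ 0 := by
  rw [Nat.pos_iff_ne_zero, Ne, nm_eq_zero]

/-- Gaussian integers of norm at most `x` -/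
noncomputable def gball (x : ℕ) : Finset GaussianInt :=
  (disc x).image fun v => (⟨v.1, v.2⟩ : GaussianInt)

theorem mem_gball {x : ℕ} {v : GaussianInt} : v ∈ gball x ↔ nm v ≤ x := by
  unfold gball
  rw [Finset.mem_image]
  constructor
  · rintro ⟨w, hw, rfl⟩
    rw [mem_disc] at hw
    have h := nm_coe (⟨w.1, w.2⟩ : GaussianInt)
    simp only at h
    have : ((nm (⟨w.1, w.2⟩ : GaussianInt) : ℕ) : ℤ) ≤ x := by rw [h]; exact hw
    exact_mod_cast this
  · intro h
    refine ⟨(v.re, v.im), ?_, rfl⟩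
    rw [mem_disc, ← nm_coe]
    exact_mod_cast h

theorem card_gball (x : ℕ) : (gball x).card = (disc x).card := by
  unfold gball
  rw [Finset.card_image_of_injective]
  intro v w h
  rw [Zsqrtd.ext_iff] at h
  exact Prod.ext h.1 h.2

/-- lattice points in the disc -/
theorem card_circ (x : ℕ) : |((gball x).card : ℝ) - Real.pi * x| ≤ 10 * (√(x : ℝ) + 1) := by
  rw [card_gball]
  exact circ x

open scoped Classical in
/-- multiples of `d` of norm at most `x` -/
theorem card_mult (x : ℕ) (d : GaussianInt) (hd : d ≠ 0) :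
    ((gball x).filter fun v => d ∣ v).card = (gball (x / nm d)).card := by
  symm
  apply Finset.card_nbij (fun m => d * m)
  · intro m hm
    rw [Finset.mem_coe, mem_gball] at hm
    rw [Finset.mem_coe, Finset.mem_filter, mem_gball, nm_mul]
    refine ⟨?_, Dvd.intro _ rfl⟩
    rw [Nat.le_div_iff_mul_le (nm_pos.2 hd)] at hm
    linarith [mul_comm (nm d) (nm m)]
  · intro a _ b _ h
    exact mul_left_cancel₀ hd h
  · intro v hv
    rw [Finset.mem_coe, Finset.mem_filter, mem_gball] at hv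
    obtain ⟨m, rfl⟩ := hv.2
    refine ⟨m, ?_, rfl⟩
    rw [Finset.mem_coe, mem_gball, Nat.le_div_iff_mul_le (nm_pos.2 hd)]
    have := hv.1
    rw [nm_mul] at this
    linarith [mul_comm (nm d) (nm m)]

open scoped Classical in
/-- the count of multiples -/
theorem mult_bd (x : ℕ) (d : GaussianInt) (hd : d ≠ 0) :
    |(((gball x).filter fun v => d ∣ v).card : ℝ) - Real.pi * (x / nm d)| ≤
      10 * √((x : ℝ) / nm d) + 14 := by
  rw [card_mult x d hd]
  have h1 := card_circ (x / nm d)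
  have hN : (0 : ℝ) < nm d := by exact_mod_cast nm_pos.2 hd
  have h2 : (((x / nm d : ℕ) : ℝ)) ≤ (x : ℝ) / nm d := Nat.cast_div_le
  have h3 : (x : ℝ) / nm d - 1 ≤ ((x / nm d : ℕ) : ℝ) := by
    have h4 : (x : ℝ) / nm d < ((x / nm d : ℕ) : ℝ) + 1 := by
      rw [div_lt_iff₀ hN]
      have h5 := Nat.lt_div_mul_add (a := x) (nm_pos.2 hd)
      have h6 : (x : ℝ) < (x / nm d : ℕ) * nm d + nm d := by exact_mod_cast h5
      linarith
    linarith
  have h4 : √(((x / nm d : ℕ) : ℝ)) ≤ √((x : ℝ) / nm d) := Real.sqrt_le_sqrt h2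
  have hpi := Real.pi_pos
  have hpi4 := Real.pi_le_four
  rw [abs_le] at h1 ⊢
  constructor
  · nlinarith [h1.1, mul_le_mul_of_nonneg_left h3 hpi.le]
  · nlinarith [h1.2, mul_le_mul_of_nonneg_left h2 hpi.le]

/-- crude bound -/
theorem card_le (x : ℕ) (hx : 1 ≤ x) : ((gball x).card : ℝ) ≤ 24 * x := by
  have h1 := card_circ x
  rw [abs_le] at h1
  have hx' : (1 : ℝ) ≤ x := by exact_mod_cast hx
  have h2 : √(x : ℝ) ≤ x := by
    rw [Real.sqrt_le_left (by linarith)]
    nlinarith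
  nlinarith [h1.2, Real.pi_le_four]

/-- `∑ N(v) ^ (-1/2)` over the disc -/
theorem sum_inv_sqrt (y : ℕ) :
    ∑ v ∈ (gball y).erase 0, 1 / √((nm v : ℕ) : ℝ) ≤ 96 * √(y : ℝ) := by
  induction y using Nat.strong_induction_on with
  | _ y ih =>
    rcases Nat.eq_zero_or_pos y with h0 | h0
    · rw [h0]
      have : (gball 0).erase 0 = ∅ := by
        rw [Finset.eq_empty_iff_forall_notMem]
        intro v hv
        rw [Finset.mem_erase, mem_gball] at hv
        exact hv.1 (nm_eq_zero.1 (Nat.le_zero.1 hv.2))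
      rw [this]
      simp
    · have hlt : y / 4 < y := Nat.div_lt_self h0 (by norm_num)
      have h1 := ih (y / 4) hlt
      have hy : (0 : ℝ) < y := by exact_mod_cast h0
      have hsub : (gball (y / 4)).erase 0 ⊆ (gball y).erase 0 := by
        intro v hv
        rw [Finset.mem_erase, mem_gball] at hv ⊢
        exact ⟨hv.1, hv.2.trans hlt.le⟩
      rw [← Finset.sum_sdiff hsub]
      have h2 : √(((y / 4 : ℕ) : ℝ)) ≤ √(y : ℝ) / 2 := by
        rw [Real.sqrt_le_left (by positivity), div_pow, Real.sq_sqrt hy.le]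
        have : (((y / 4 : ℕ) : ℝ)) ≤ (y : ℝ) / (4 : ℕ) := Nat.cast_div_le
        norm_num at this ⊢
        exact this
      have h3 : ∑ v ∈ (gball y).erase 0 \ (gball (y / 4)).erase 0, 1 / √((nm v : ℕ) : ℝ) ≤
          48 * √(y : ℝ) := by
        calc _ ≤ ∑ v ∈ (gball y).erase 0 \ (gball (y / 4)).erase 0, 2 / √(y : ℝ) := by
              refine Finset.sum_le_sum fun v hv => ?_
              rw [Finset.mem_sdiff, Finset.mem_erase, Finset.mem_erase, mem_gball, mem_gball]
                at hv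
              have h4 : y / 4 < nm v := by
                by_contra hcon
                push Not at hcon
                exact hv.2 ⟨hv.1.1, hcon⟩
              have h5 : (y : ℝ) / 4 ≤ nm v := by
                have h6 : y < (nm v) * 4 := by
                  rw [Nat.div_lt_iff_lt_mul (by norm_num)] at h4
                  exact h4
                have h7 : (y : ℝ) < nm v * 4 := by exact_mod_cast h6
                linarith
              have h8 : √(y : ℝ) / 2 ≤ √((nm v : ℕ) : ℝ) := by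
                apply Real.le_sqrt_of_sq_le
                rw [div_pow, Real.sq_sqrt hy.le]
                linarith
              have h9 : 0 < √(y : ℝ) := Real.sqrt_pos.2 hy
              rw [div_le_div_iff₀ (by linarith) h9]
              linarith
          _ ≤ ((gball y).card : ℝ) * (2 / √(y : ℝ)) := by
              rw [Finset.sum_const, nsmul_eq_mul]
              apply mul_le_mul_of_nonneg_right _ (by positivity)
              exact_mod_cast Finset.card_le_card
                (Finset.sdiff_subset.trans (Finset.erase_subset _ _))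
          _ ≤ (24 * y) * (2 / √(y : ℝ)) :=
              mul_le_mul_of_nonneg_right (card_le y h0) (by positivity)
          _ = 48 * √(y : ℝ) := by
              have h9 : √(y : ℝ) ≠ 0 := (Real.sqrt_pos.2 hy).ne'
              field_simp
              rw [Real.sq_sqrt hy.le]
              ring
      linarith

/-- the deviation -/
noncomputable def dv (p v : GaussianInt) : ℝ :=
  (open Classical in if p ∣ v then (1 : ℝ) else 0) - 1 / nm p

theorem dv_corr (x : ℕ) (p r : GaussianInt) (hp : p ≠ 0) (hr : r ≠ 0)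
    (hcop : IsCoprime p r) (hx : nm p * nm r ≤ x) :
    |∑ v ∈ gball x, dv p v * dv r v| ≤ 96 * √((x : ℝ) / (nm p * nm r)) := by
  classical
  set a : ℝ := ((nm p : ℕ) : ℝ) with ha
  set b : ℝ := ((nm r : ℕ) : ℝ) with hb
  have hap : 1 ≤ a := by
    rw [ha]; exact_mod_cast nm_pos.2 hp
  have hbp : 1 ≤ b := by
    rw [hb]; exact_mod_cast nm_pos.2 hr
  have hxx : a * b ≤ x := by
    rw [ha, hb]; exact_mod_cast hx
  have hsum : ∑ v ∈ gball x, dv p v * dv r v =
      (((gball x).filter fun v => p * r ∣ v).card : ℝ) -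
      (((gball x).filter fun v => p ∣ v).card : ℝ) / b -
      (((gball x).filter fun v => r ∣ v).card : ℝ) / a + ((gball x).card : ℝ) / (a * b) := by
    have h1 : ∀ v ∈ gball x, dv p v * dv r v = (if p * r ∣ v then (1 : ℝ) else 0) -
        (if p ∣ v then (1 : ℝ) else 0) / b - (if r ∣ v then (1 : ℝ) else 0) / a +
        1 / (a * b) := by
      intro v _
      unfold dv
      rw [← ha, ← hb]
      have h2 : p * r ∣ v ↔ p ∣ v ∧ r ∣ v :=
        ⟨fun h => ⟨(Dvd.intro _ rfl).trans h, (Dvd.intro_left _ rfl).trans h⟩,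
          fun h => hcop.mul_dvd h.1 h.2⟩
      by_cases hpv : p ∣ v <;> by_cases hrv : r ∣ v <;> simp only [h2, hpv, hrv, and_true,
        and_false, if_true, if_false, true_and, false_and] <;> field_simp <;> ring
    rw [Finset.sum_congr rfl h1, Finset.sum_add_distrib, Finset.sum_sub_distrib,
      Finset.sum_sub_distrib, ← Finset.sum_div, ← Finset.sum_div]
    simp only [Finset.sum_ite, Finset.sum_const_zero, add_zero, Finset.sum_const, nsmul_eq_mul,
      mul_one]
    ring
  rw [hsum]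
  have e0 := mult_bd x (p * r) (mul_ne_zero hp hr)
  have e1 := mult_bd x p hp
  have e2 := mult_bd x r hr
  have e3 := card_circ x
  rw [nm_mul, Nat.cast_mul, ← ha, ← hb] at e0
  rw [← ha] at e1
  rw [← hb] at e2
  set s : ℝ := √((x : ℝ) / (a * b)) with hs
  have hs1 : 1 ≤ s := by
    rw [hs, Real.one_le_sqrt, le_div_iff₀ (by positivity)]
    linarith
  have hx0 : (0 : ℝ) ≤ x := Nat.cast_nonneg x
  have k1 : √((x : ℝ) / a) / b ≤ s := by
    rw [div_le_iff₀ (by positivity), hs]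
    have h5 : √((x : ℝ) / (a * b)) * b = √((x : ℝ) / (a * b) * b ^ 2) := by
      rw [Real.sqrt_mul (by positivity), Real.sqrt_sq (by positivity)]
    rw [h5]
    apply Real.sqrt_le_sqrt
    have : (x : ℝ) / (a * b) * b ^ 2 = x / a * b := by field_simp
    rw [this]
    have h6 : 0 ≤ (x : ℝ) / a := by positivity
    nlinarith
  have k2 : √((x : ℝ) / b) / a ≤ s := by
    rw [div_le_iff₀ (by positivity), hs]
    have h5 : √((x : ℝ) / (a * b)) * a = √((x : ℝ) / (a * b) * a ^ 2) := by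
      rw [Real.sqrt_mul (by positivity), Real.sqrt_sq (by positivity)]
    rw [h5]
    apply Real.sqrt_le_sqrt
    have : (x : ℝ) / (a * b) * a ^ 2 = x / b * a := by field_simp
    rw [this]
    have h6 : 0 ≤ (x : ℝ) / b := by positivity
    nlinarith
  have k3 : √(x : ℝ) / (a * b) ≤ s := by
    rw [div_le_iff₀ (by positivity), hs]
    have h5 : √((x : ℝ) / (a * b)) * (a * b) = √((x : ℝ) / (a * b) * (a * b) ^ 2) := by
      rw [Real.sqrt_mul (by positivity), Real.sqrt_sq (by positivity)]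
    rw [h5]
    apply Real.sqrt_le_sqrt
    have : (x : ℝ) / (a * b) * (a * b) ^ 2 = x * (a * b) := by field_simp
    rw [this]
    have h6 : 1 ≤ a * b := by nlinarith
    nlinarith
  have l1 : 1 / b ≤ 1 := by rw [div_le_one (by positivity)]; exact hbp
  have l2 : 1 / a ≤ 1 := by rw [div_le_one (by positivity)]; exact hap
  have l3 : 1 / (a * b) ≤ 1 := by
    rw [div_le_one (by positivity)]
    nlinarith
  set A0 : ℝ := (((gball x).filter fun v => p * r ∣ v).card : ℝ)
  set A1 : ℝ := (((gball x).filter fun v => p ∣ v).card : ℝ)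
  set A2 : ℝ := (((gball x).filter fun v => r ∣ v).card : ℝ)
  set A3 : ℝ := ((gball x).card : ℝ)
  have hid : A0 - A1 / b - A2 / a + A3 / (a * b) =
      (A0 - Real.pi * (x / (a * b))) - (A1 - Real.pi * (x / a)) / b -
      (A2 - Real.pi * (x / b)) / a + (A3 - Real.pi * x) / (a * b) := by
    field_simp
    ring
  rw [hid]
  have m1 : |(A1 - Real.pi * (x / a)) / b| ≤ 24 * s := by
    rw [abs_div, abs_of_pos (show (0 : ℝ) < b by linarith)]
    calc _ ≤ (10 * √((x : ℝ) / a) + 14) / b := by gcongr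
      _ = 10 * (√((x : ℝ) / a) / b) + 14 * (1 / b) := by ring
      _ ≤ 10 * s + 14 * 1 := by gcongr
      _ ≤ 24 * s := by linarith
  have m2 : |(A2 - Real.pi * (x / b)) / a| ≤ 24 * s := by
    rw [abs_div, abs_of_pos (show (0 : ℝ) < a by linarith)]
    calc _ ≤ (10 * √((x : ℝ) / b) + 14) / a := by gcongr
      _ = 10 * (√((x : ℝ) / b) / a) + 14 * (1 / a) := by ring
      _ ≤ 10 * s + 14 * 1 := by gcongr
      _ ≤ 24 * s := by linarith
  have m3 : |(A3 - Real.pi * x) / (a * b)| ≤ 20 * s := by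
    have hab : 0 < a * b := by positivity
    rw [abs_div, abs_of_pos hab]
    calc _ ≤ (10 * (√(x : ℝ) + 1)) / (a * b) := by gcongr
      _ = 10 * (√(x : ℝ) / (a * b)) + 10 * (1 / (a * b)) := by ring
      _ ≤ 10 * s + 10 * 1 := by gcongr
      _ ≤ 20 * s := by linarith
  have m0 : |A0 - Real.pi * (x / (a * b))| ≤ 24 * s := by
    refine e0.trans ?_
    linarith
  calc _ ≤ |A0 - Real.pi * (x / (a * b))| + |(A1 - Real.pi * (x / a)) / b| +
        |(A2 - Real.pi * (x / b)) / a| + |(A3 - Real.pi * x) / (a * b)| := by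
        refine (abs_add_le _ _).trans (add_le_add ((abs_sub _ _).trans
          (add_le_add (abs_sub _ _) le_rfl)) le_rfl)
    _ ≤ 96 * s := by linarith

theorem dv_diag (x : ℕ) (p : GaussianInt) (hp : p ≠ 0) (hx : nm p ≤ x) :
    ∑ v ∈ gball x, dv p v * dv p v ≤ 96 * ((x : ℝ) / nm p) := by
  classical
  set a : ℝ := ((nm p : ℕ) : ℝ) with ha
  have hap : 1 ≤ a := by
    rw [ha]; exact_mod_cast nm_pos.2 hp
  have hxa : a ≤ x := by rw [ha]; exact_mod_cast hx
  have hx1 : 1 ≤ x := (nm_pos.2 hp).trans_le hx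
  have h1 : ∀ v ∈ gball x, dv p v * dv p v ≤ (if p ∣ v then (1 : ℝ) else 0) + 1 / a ^ 2 := by
    intro v _
    unfold dv
    rw [← ha]
    have h2 : 0 < 1 / a := by positivity
    have h3 : 1 / a ^ 2 = (1 / a) * (1 / a) := by ring
    rw [h3]
    split_ifs
    · nlinarith
    · nlinarith
  refine (Finset.sum_le_sum h1).trans ?_
  rw [Finset.sum_add_distrib, Finset.sum_const, nsmul_eq_mul, Finset.sum_ite,
    Finset.sum_const_zero, add_zero, Finset.sum_const, nsmul_eq_mul, mul_one]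
  have e1 := mult_bd x p hp
  rw [← ha, abs_le] at e1
  have e2 := card_le x hx1
  have hxa1 : 1 ≤ (x : ℝ) / a := by rw [le_div_iff₀ (by positivity)]; linarith
  have h4 : √((x : ℝ) / a) ≤ x / a := by
    rw [Real.sqrt_le_left (by linarith)]
    nlinarith
  have h5 : ((gball x).card : ℝ) * (1 / a ^ 2) ≤ 24 * (x / a) := by
    calc _ ≤ (24 * x) * (1 / a ^ 2) := by gcongr
      _ = 24 * (x / a) * (1 / a) := by field_simp
      _ ≤ 24 * (x / a) * 1 := by
          gcongr
          rw [div_le_one (by positivity)]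
          exact hap
      _ = _ := by ring
  have h6 : Real.pi * (x / a) ≤ 4 * (x / a) :=
    mul_le_mul_of_nonneg_right Real.pi_le_four (by linarith)
  linarith [e1.2]

/-- **Turan and Kubilius for Gaussian integers** -/
theorem tk (x : ℕ) (P : Finset GaussianInt) (hP : ∀ p ∈ P, Prime p)
    (hna : ∀ p ∈ P, ∀ r ∈ P, p ≠ r → ¬ Associated p r)
    (hN : ∀ p ∈ P, nm p ^ 2 ≤ x) (c : GaussianInt → ℂ) (hc : ∀ p ∈ P, ‖c p‖ ≤ 1) :
    ∑ v ∈ gball x, ‖∑ p ∈ P, c p * (dv p v : ℂ)‖ ^ 2 ≤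
      1000000 * x * (1 + ∑ p ∈ P, 1 / (nm p : ℝ)) := by
  classical
  rcases P.eq_empty_or_nonempty with h0 | ⟨p0, hp0⟩
  · rw [h0]
    simp
  have hP0 : ∀ p ∈ P, p ≠ 0 := fun p hp => (hP p hp).ne_zero
  have hx1 : 1 ≤ x := by
    have h1 := hN p0 hp0
    have h2 : 0 < nm p0 := nm_pos.2 (hP0 p0 hp0)
    exact (Nat.pow_pos h2).trans_le h1
  -- expand the square
  have hexp : ∑ v ∈ gball x, ‖∑ p ∈ P, c p * (dv p v : ℂ)‖ ^ 2 ≤
      ∑ p ∈ P, ∑ r ∈ P, |∑ v ∈ gball x, dv p v * dv r v| := by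
    have h1 : ((∑ v ∈ gball x, ‖∑ p ∈ P, c p * (dv p v : ℂ)‖ ^ 2 : ℝ) : ℂ) =
        ∑ p ∈ P, ∑ r ∈ P, c p * (starRingEnd ℂ) (c r) *
          ((∑ v ∈ gball x, dv p v * dv r v : ℝ) : ℂ) := by
      push_cast
      have h2 : ∀ v ∈ gball x, ((‖∑ p ∈ P, c p * (dv p v : ℂ)‖ : ℂ)) ^ 2 =
          ∑ p ∈ P, ∑ r ∈ P, c p * (starRingEnd ℂ) (c r) * ((dv p v : ℂ) * (dv r v : ℂ)) := by
        intro v _
        have h3 : ((‖∑ p ∈ P, c p * (dv p v : ℂ)‖ : ℂ)) ^ 2 =
            (∑ p ∈ P, c p * (dv p v : ℂ)) *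
              (starRingEnd ℂ) (∑ p ∈ P, c p * (dv p v : ℂ)) := by
          rw [Complex.mul_conj, Complex.normSq_eq_norm_sq]
          push_cast
          ring
        rw [h3, map_sum, Finset.sum_mul_sum]
        refine Finset.sum_congr rfl fun p _ => Finset.sum_congr rfl fun r _ => ?_
        rw [map_mul, Complex.conj_ofReal]
        ring
      rw [Finset.sum_congr rfl h2, Finset.sum_comm]
      refine Finset.sum_congr rfl fun p _ => ?_
      rw [Finset.sum_comm]
      refine Finset.sum_congr rfl fun r _ => ?_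
      exact (Finset.mul_sum _ _ _).symm
    have h4 : 0 ≤ ∑ v ∈ gball x, ‖∑ p ∈ P, c p * (dv p v : ℂ)‖ ^ 2 :=
      Finset.sum_nonneg fun v _ => by positivity
    have h5 : ∑ v ∈ gball x, ‖∑ p ∈ P, c p * (dv p v : ℂ)‖ ^ 2 =
        ‖((∑ v ∈ gball x, ‖∑ p ∈ P, c p * (dv p v : ℂ)‖ ^ 2 : ℝ) : ℂ)‖ := by
      rw [Complex.norm_real, Real.norm_of_nonneg h4]
    rw [h5, h1]
    refine (norm_sum_le _ _).trans (Finset.sum_le_sum fun p hp => ?_)
    refine (norm_sum_le _ _).trans (Finset.sum_le_sum fun r hr => ?_)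
    rw [norm_mul, norm_mul, Complex.norm_conj, Complex.norm_real, Real.norm_eq_abs]
    calc ‖c p‖ * ‖c r‖ * |∑ v ∈ gball x, dv p v * dv r v|
        ≤ 1 * 1 * |∑ v ∈ gball x, dv p v * dv r v| := by
          gcongr
          · exact hc p hp
          · exact hc r hr
      _ = _ := by ring
  -- bound of the terms
  have hterm : ∀ p ∈ P, ∀ r ∈ P, |∑ v ∈ gball x, dv p v * dv r v| ≤
      (if p = r then 96 * ((x : ℝ) / nm p) else 0) +
        96 * √(x : ℝ) * ((1 / √((nm p : ℕ) : ℝ)) * (1 / √((nm r : ℕ) : ℝ))) := by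
    intro p hp r hr
    by_cases hpr : p = r
    · subst hpr
      rw [if_pos rfl]
      have h1 : nm p ≤ x := by
        have h2 := hN p hp
        have h3 : 0 < nm p := nm_pos.2 (hP0 p hp)
        nlinarith
      have h2 := dv_diag x p (hP0 p hp) h1
      rw [abs_of_nonneg (Finset.sum_nonneg fun v _ => mul_self_nonneg _)]
      have h3 : 0 ≤ 96 * √(x : ℝ) * ((1 / √((nm p : ℕ) : ℝ)) * (1 / √((nm p : ℕ) : ℝ))) := by
        positivity
      linarith
    · rw [if_neg hpr, zero_add]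
      have hcop : IsCoprime p r := by
        rw [(hP p hp).irreducible.coprime_iff_not_dvd]
        intro h
        exact (hna p hp r hr hpr) ((hP p hp).associated_of_dvd (hP r hr) h)
      have hx2 : nm p * nm r ≤ x := by
        have h2 := hN p hp
        have h3 := hN r hr
        nlinarith [sq_nonneg ((nm p : ℤ) - nm r), Nat.zero_le (nm p), Nat.zero_le (nm r),
          two_mul_le_add_sq (nm p) (nm r)]
      refine (dv_corr x p r (hP0 p hp) (hP0 r hr) hcop hx2).trans (le_of_eq ?_)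
      rw [Real.sqrt_div (Nat.cast_nonneg x), Real.sqrt_mul (Nat.cast_nonneg _)]
      ring
  refine hexp.trans ((Finset.sum_le_sum fun p hp => Finset.sum_le_sum fun r hr =>
    hterm p hp r hr).trans ?_)
  simp only [Finset.sum_add_distrib]
  have d1 : ∑ p ∈ P, ∑ r ∈ P, (if p = r then 96 * ((x : ℝ) / nm p) else 0) =
      96 * x * ∑ p ∈ P, 1 / (nm p : ℝ) := by
    rw [Finset.mul_sum]
    refine Finset.sum_congr rfl fun p hp => ?_
    rw [Finset.sum_ite_eq, if_pos hp]
    ring
  have d2 : ∑ p ∈ P, ∑ r ∈ P,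
      96 * √(x : ℝ) * ((1 / √((nm p : ℕ) : ℝ)) * (1 / √((nm r : ℕ) : ℝ))) =
      96 * √(x : ℝ) * (∑ p ∈ P, 1 / √((nm p : ℕ) : ℝ)) ^ 2 := by
    rw [pow_two, Finset.sum_mul_sum, Finset.mul_sum]
    refine Finset.sum_congr rfl fun p _ => ?_
    rw [Finset.mul_sum]
  have hsub : P ⊆ (gball (Nat.sqrt x)).erase 0 := by
    intro p hp
    rw [Finset.mem_erase, mem_gball]
    refine ⟨hP0 p hp, ?_⟩
    rw [Nat.le_sqrt']
    exact hN p hp
  have d3 : ∑ p ∈ P, 1 / √((nm p : ℕ) : ℝ) ≤ 96 * √((Nat.sqrt x : ℕ) : ℝ) :=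
    (Finset.sum_le_sum_of_subset_of_nonneg hsub fun _ _ _ => by positivity).trans
      (sum_inv_sqrt _)
  have d4 : (∑ p ∈ P, 1 / √((nm p : ℕ) : ℝ)) ^ 2 ≤ 96 ^ 2 * √(x : ℝ) := by
    have h1 : (∑ p ∈ P, 1 / √((nm p : ℕ) : ℝ)) ^ 2 ≤ (96 * √((Nat.sqrt x : ℕ) : ℝ)) ^ 2 :=
      pow_le_pow_left₀ (Finset.sum_nonneg fun _ _ => by positivity) d3 2
    rw [mul_pow, Real.sq_sqrt (Nat.cast_nonneg _)] at h1
    have h2 : (Nat.sqrt x : ℝ) ≤ √(x : ℝ) := by
      apply Real.le_sqrt_of_sq_le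
      exact_mod_cast Nat.sqrt_le' x
    nlinarith
  rw [d1, d2]
  have hL : 0 ≤ ∑ p ∈ P, 1 / (nm p : ℝ) := Finset.sum_nonneg fun _ _ => by positivity
  have hx0 : (0 : ℝ) ≤ x := Nat.cast_nonneg x
  have d5 : 96 * √(x : ℝ) * (∑ p ∈ P, 1 / √((nm p : ℕ) : ℝ)) ^ 2 ≤ 884736 * x := by
    calc _ ≤ 96 * √(x : ℝ) * (96 ^ 2 * √(x : ℝ)) := by gcongr
      _ = 884736 * (√(x : ℝ) * √(x : ℝ)) := by ring
      _ = 884736 * x := by rw [Real.mul_self_sqrt hx0]
  nlinarith [mul_nonneg hx0 hL]

end Pool.Agent.Lib.MP_a17b09_nt.MRS.Tk84
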