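import Pool.Agent.Lib.MP_a17b09_nt.MRS.Stmts3
import Pool.Agent.Lib.MP_a17b09_nt.MRS.Tk84

/-!
MRS: the inequality of Turan and Kubilius over a shell of Gaussian integers, with general
coefficients.
-/

set_option autoImplicit false

open Filter Topology Finset

namespace Pool.Agent.Lib.MP_a17b09_nt.MRS

/-- a Gaussian integer of prime norm is prime -/
theorem prime_of_nm28 {p : GaussianInt} (h : (nm p).Prime) : Prime p := by
  have hirr : Irreducible p := by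
    constructor
    · intro hu
      have h1 : nm p = 1 := Zsqrtd.norm_eq_one_iff.2 hu
      rw [h1] at h
      exact Nat.not_prime_one h
    · intro a b hab
      have h1 : nm p = nm a * nm b := by rw [hab, nm_mul]
      rw [h1] at h
      rcases (Nat.prime_mul_iff.1 h) with h2 | h2
      · right
        exact Zsqrtd.norm_eq_one_iff.1 h2.2
      · left
        exact Zsqrtd.norm_eq_one_iff.1 h2.2
  exact hirr.prime

/-- two different Gaussian integers in the open first quadrant are not associated -/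
theorem not_assoc28 {p r : GaussianInt} (hp1 : 0 < p.re) (hp2 : 0 < p.im) (hr1 : 0 < r.re)
    (hr2 : 0 < r.im) (hne : p ≠ r) : ¬ Associated p r := by
  rintro ⟨u, hu⟩
  have h1 : (u : GaussianInt).norm.natAbs = 1 := Zsqrtd.norm_eq_one_iff.2 u.isUnit
  have h2 : (u : GaussianInt).re ^ 2 + (u : GaussianInt).im ^ 2 = 1 := by
    have h3 := GaussianInt.norm_nonneg (u : GaussianInt)
    have h4 : (u : GaussianInt).norm = 1 := by omega
    rw [Zsqrtd.norm_def] at h4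
    linarith
  have e1 : r.re = p.re * (u : GaussianInt).re - p.im * (u : GaussianInt).im := by
    rw [← hu, Zsqrtd.re_mul]
    ring
  have e2 : r.im = p.re * (u : GaussianInt).im + p.im * (u : GaussianInt).re := by
    rw [← hu, Zsqrtd.im_mul]
  set a := (u : GaussianInt).re
  set b := (u : GaussianInt).im
  have ha : a ^ 2 ≤ 1 := by nlinarith [sq_nonneg b]
  have hb : b ^ 2 ≤ 1 := by nlinarith [sq_nonneg a]
  have ha1 : -1 ≤ a := by nlinarith
  have ha2 : a ≤ 1 := by nlinarith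
  have hb1 : -1 ≤ b := by nlinarith
  have hb2 : b ≤ 1 := by nlinarith
  have hcases : (a = 1 ∧ b = 0) ∨ (a = -1 ∧ b = 0) ∨ (a = 0 ∧ b = 1) ∨ (a = 0 ∧ b = -1) := by
    have : a = -1 ∨ a = 0 ∨ a = 1 := by omega
    have : b = -1 ∨ b = 0 ∨ b = 1 := by omega
    rcases ‹a = -1 ∨ a = 0 ∨ a = 1› with h | h | h <;>
      rcases ‹b = -1 ∨ b = 0 ∨ b = 1› with h' | h' | h' <;> rw [h, h'] at h2 <;>
      simp at h2 <;> simp [h, h']
  rcases hcases with ⟨ha, hb⟩ | ⟨ha, hb⟩ | ⟨ha, hb⟩ | ⟨ha, hb⟩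
  · apply hne
    rw [ha, hb] at e1 e2
    apply Zsqrtd.ext
    · linarith
    · linarith
  · rw [ha, hb] at e1
    linarith
  · rw [ha, hb] at e1
    linarith
  · rw [ha, hb] at e2
    linarith

theorem mem_sl28 {a b : ℝ} {v : GaussianInt} : v ∈ sl a b ↔
    0 < v.re ∧ 0 < v.im ∧ (nm v).Prime ∧ a ≤ nm v ∧ (nm v : ℝ) < b := by
  unfold sl
  rw [mem_filter, mem_Sh]
  constructor
  · intro h
    exact h.2
  · intro h
    refine ⟨⟨?_, ?_, h.2.2.2.2.le⟩, h⟩
    · rintro rfl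
      have h1 := h.1
      simp at h1
    · exact_mod_cast h.2.2.1.pos

/-- the slices consist of pairwise coprime primes -/
theorem coprime_sl28 {a b : ℝ} {p r : GaussianInt} (hp : p ∈ sl a b) (hr : r ∈ sl a b)
    (hne : p ≠ r) : IsCoprime p r := by
  rw [mem_sl28] at hp hr
  have h1 := prime_of_nm28 hp.2.2.1
  have h2 := prime_of_nm28 hr.2.2.1
  rw [h1.irreducible.coprime_iff_not_dvd]
  intro h
  exact not_assoc28 hp.1 hp.2.1 hr.1 hr.2.1 hne (h1.associated_of_dvd h2 h)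

/-- TK -/
theorem stTK_28 : StTK := by
  classical
  intro r1 r2 hr1 hr2
  refine ⟨2400 * (r2 + 2), by linarith, ?_⟩
  intro N hN c y hy hyN
  have hr2' : 0 < r2 := lt_of_le_of_lt hr1 hr2
  have hN0 : 0 < N := by linarith
  set X : ℕ := ⌈(r2 + 1) * N⌉₊ with hX
  have hX1 : (r2 + 1) * N ≤ X := Nat.le_ceil _
  have hX2 : (X : ℝ) ≤ (r2 + 2) * N := by
    have := (Nat.ceil_lt_add_one (show 0 ≤ (r2 + 1) * N by positivity)).le
    rw [← hX] at this
    linarith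
  have hNX : N ≤ X := by nlinarith
  have hX0 : (1 : ℝ) ≤ X := hN.trans hNX
  set P : Finset GaussianInt := sl 1 y with hP
  -- norms of the primes
  have hy8 : y ^ 8 ≤ N := by
    calc y ^ 8 ≤ (N ^ (1 / 8 : ℝ)) ^ 8 := pow_le_pow_left₀ (by linarith) hyN 8
      _ = N := by
          rw [← Real.rpow_natCast, ← Real.rpow_mul hN0.le]
          norm_num
  have hy2 : y ^ 2 ≤ N := by
    refine le_trans (pow_le_pow_right₀ hy (by norm_num : 2 ≤ 8)) hy8
  have hnm : ∀ p ∈ P, (1 : ℝ) ≤ nm p ∧ (nm p : ℝ) ≤ y := by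
    intro p hp
    rw [hP, mem_sl28] at hp
    exact ⟨hp.2.2.2.1, hp.2.2.2.2.le⟩
  have hP0 : ∀ p ∈ P, p ≠ 0 := by
    intro p hp h0
    have h1 := (hnm p hp).1
    rw [h0] at h1
    have h2 : nm (0 : GaussianInt) = 0 := nm_eq_zero.2 rfl
    rw [h2] at h1
    norm_num at h1
  -- to the ball
  have hsub : Sh (r1 * N) (r2 * N) ⊆ Tk84.gball X := by
    intro v hv
    rw [mem_Sh] at hv
    rw [Tk84.mem_gball]
    have h1 : (nm v : ℝ) ≤ X := by
      refine hv.2.2.trans (le_trans ?_ hX1)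
      nlinarith
    exact_mod_cast h1
  have hstep : ∑ v ∈ Sh (r1 * N) (r2 * N), ‖∑ π ∈ P, c π *
      ((if π ∣ v then 1 else 0) - 1 / (nm π : ℂ))‖ ^ 2 ≤
      ∑ v ∈ Tk84.gball X, ‖∑ p ∈ P, c p * (Tk84.dv p v : ℂ)‖ ^ 2 := by
    refine (sum_le_sum_of_subset_of_nonneg hsub fun _ _ _ => by positivity).trans (le_of_eq ?_)
    apply sum_congr rfl
    intro v _
    congr 2
    apply sum_congr rfl
    intro p _
    congr 1
    unfold Tk84.dv
    by_cases h : p ∣ v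
    · simp only [h, if_true]
      push_cast
      rfl
    · simp only [h, if_false]
      push_cast
      rfl
  refine hstep.trans ?_
  -- expand the square
  have hexp : ∑ v ∈ Tk84.gball X, ‖∑ p ∈ P, c p * (Tk84.dv p v : ℂ)‖ ^ 2 ≤
      ∑ p ∈ P, ∑ r ∈ P, ‖c p‖ * ‖c r‖ * |∑ v ∈ Tk84.gball X, Tk84.dv p v * Tk84.dv r v| := by
    have h1 : ((∑ v ∈ Tk84.gball X, ‖∑ p ∈ P, c p * (Tk84.dv p v : ℂ)‖ ^ 2 : ℝ) : ℂ) =
        ∑ p ∈ P, ∑ r ∈ P, c p * (starRingEnd ℂ) (c r) *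
          ((∑ v ∈ Tk84.gball X, Tk84.dv p v * Tk84.dv r v : ℝ) : ℂ) := by
      push_cast
      have h2 : ∀ v ∈ Tk84.gball X, ((‖∑ p ∈ P, c p * (Tk84.dv p v : ℂ)‖ : ℂ)) ^ 2 =
          ∑ p ∈ P, ∑ r ∈ P, c p * (starRingEnd ℂ) (c r) *
            ((Tk84.dv p v : ℂ) * (Tk84.dv r v : ℂ)) := by
        intro v _
        have h3 : ((‖∑ p ∈ P, c p * (Tk84.dv p v : ℂ)‖ : ℂ)) ^ 2 =
            (∑ p ∈ P, c p * (Tk84.dv p v : ℂ)) *
              (starRingEnd ℂ) (∑ p ∈ P, c p * (Tk84.dv p v : ℂ)) := by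
          rw [Complex.mul_conj, Complex.normSq_eq_norm_sq]
          push_cast
          ring
        rw [h3, map_sum, Finset.sum_mul_sum]
        refine Finset.sum_congr rfl fun p _ => Finset.sum_congr rfl fun r _ => ?_
        rw [map_mul, Complex.conj_ofReal]
        ring
      rw [Finset.sum_congr rfl h2, Finset.sum_comm]
      refine Finset.sum_congr rfl fun p _ => ?_
      rw [Finset.sum_comm]
      refine Finset.sum_congr rfl fun r _ => ?_
      exact (Finset.mul_sum _ _ _).symm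
    have h4 : 0 ≤ ∑ v ∈ Tk84.gball X, ‖∑ p ∈ P, c p * (Tk84.dv p v : ℂ)‖ ^ 2 :=
      Finset.sum_nonneg fun v _ => by positivity
    have h5 : ∑ v ∈ Tk84.gball X, ‖∑ p ∈ P, c p * (Tk84.dv p v : ℂ)‖ ^ 2 =
        ‖((∑ v ∈ Tk84.gball X, ‖∑ p ∈ P, c p * (Tk84.dv p v : ℂ)‖ ^ 2 : ℝ) : ℂ)‖ := by
      rw [Complex.norm_real, Real.norm_of_nonneg h4]
    rw [h5, h1]
    refine (norm_sum_le _ _).trans (Finset.sum_le_sum fun p hp => ?_)
    refine (norm_sum_le _ _).trans (Finset.sum_le_sum fun r hr => ?_)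
    rw [norm_mul, norm_mul, Complex.norm_conj, Complex.norm_real, Real.norm_eq_abs]
  -- the terms
  have hterm : ∀ p ∈ P, ∀ r ∈ P, ‖c p‖ * ‖c r‖ *
      |∑ v ∈ Tk84.gball X, Tk84.dv p v * Tk84.dv r v| ≤
      (if p = r then 96 * X * (‖c p‖ ^ 2 / nm p) else 0) +
        96 * √(X : ℝ) * ((‖c p‖ / √((nm p : ℕ) : ℝ)) * (‖c r‖ / √((nm r : ℕ) : ℝ))) := by
    intro p hp r hr
    obtain ⟨hp1, hp2⟩ := hnm p hp
    obtain ⟨hr1', hr2'⟩ := hnm r hr
    have hnn : 0 ≤ 96 * √(X : ℝ) * ((‖c p‖ / √((nm p : ℕ) : ℝ)) *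
        (‖c r‖ / √((nm r : ℕ) : ℝ))) := by positivity
    by_cases hpr : p = r
    · subst hpr
      rw [if_pos rfl]
      have h1 : nm p ≤ X := by
        have : (nm p : ℝ) ≤ X := by nlinarith
        exact_mod_cast this
      have h2 := Tk84.dv_diag X p (hP0 p hp) h1
      rw [abs_of_nonneg (Finset.sum_nonneg fun v _ => mul_self_nonneg _)]
      have h3 : ‖c p‖ * ‖c p‖ * ∑ v ∈ Tk84.gball X, Tk84.dv p v * Tk84.dv p v ≤
          ‖c p‖ * ‖c p‖ * (96 * ((X : ℝ) / nm p)) := mul_le_mul_of_nonneg_left h2 (by positivity)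
      have h4 : ‖c p‖ * ‖c p‖ * (96 * ((X : ℝ) / nm p)) = 96 * X * (‖c p‖ ^ 2 / nm p) := by
        field_simp
      linarith
    · rw [if_neg hpr, zero_add]
      have hcop : IsCoprime p r := coprime_sl28 hp hr hpr
      have hx2 : Tk84.nm p * Tk84.nm r ≤ X := by
        have h3 : (nm p : ℝ) * nm r ≤ X := by
          have h4 : (nm p : ℝ) * nm r ≤ y * y := mul_le_mul hp2 hr2' (by linarith) (by linarith)
          nlinarith
        exact_mod_cast h3
      have h5 := Tk84.dv_corr X p r (hP0 p hp) (hP0 r hr) hcop hx2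
      have h6 : √((X : ℝ) / ((Tk84.nm p : ℝ) * Tk84.nm r)) =
          √(X : ℝ) * ((1 / √((nm p : ℕ) : ℝ)) * (1 / √((nm r : ℕ) : ℝ))) := by
        rw [Real.sqrt_div (Nat.cast_nonneg X), Real.sqrt_mul (Nat.cast_nonneg _)]
        have e1 : Tk84.nm p = nm p := rfl
        have e2 : Tk84.nm r = nm r := rfl
        rw [e1, e2]
        ring
      rw [h6] at h5
      calc ‖c p‖ * ‖c r‖ * |∑ v ∈ Tk84.gball X, Tk84.dv p v * Tk84.dv r v|
          ≤ ‖c p‖ * ‖c r‖ * (96 * (√(X : ℝ) * ((1 / √((nm p : ℕ) : ℝ)) *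
            (1 / √((nm r : ℕ) : ℝ))))) := mul_le_mul_of_nonneg_left h5 (by positivity)
        _ = _ := by ring
  refine hexp.trans ((Finset.sum_le_sum fun p hp => Finset.sum_le_sum fun r hr =>
    hterm p hp r hr).trans ?_)
  simp only [Finset.sum_add_distrib]
  have d1 : ∑ p ∈ P, ∑ r ∈ P, (if p = r then 96 * X * (‖c p‖ ^ 2 / nm p) else 0) =
      96 * X * ∑ p ∈ P, ‖c p‖ ^ 2 / (nm p : ℝ) := by
    rw [Finset.mul_sum]
    refine Finset.sum_congr rfl fun p hp => ?_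
    rw [Finset.sum_ite_eq, if_pos hp]
  have d2 : ∑ p ∈ P, ∑ r ∈ P,
      96 * √(X : ℝ) * ((‖c p‖ / √((nm p : ℕ) : ℝ)) * (‖c r‖ / √((nm r : ℕ) : ℝ))) =
      96 * √(X : ℝ) * (∑ p ∈ P, ‖c p‖ / √((nm p : ℕ) : ℝ)) ^ 2 := by
    rw [pow_two, Finset.sum_mul_sum, Finset.mul_sum]
    refine Finset.sum_congr rfl fun p _ => ?_
    rw [Finset.mul_sum]
  set S : ℝ := ∑ p ∈ P, ‖c p‖ ^ 2 / (nm p : ℝ) with hS
  have hS0 : 0 ≤ S := Finset.sum_nonneg fun _ _ => by positivity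
  have d3 : (∑ p ∈ P, ‖c p‖ / √((nm p : ℕ) : ℝ)) ^ 2 ≤ P.card * S := by
    have h1 := sq_sum_le_card_mul_sum_sq (s := P) (f := fun p => ‖c p‖ / √((nm p : ℕ) : ℝ))
    refine h1.trans (le_of_eq ?_)
    congr 1
    rw [hS]
    apply sum_congr rfl
    intro p hp
    rw [div_pow, Real.sq_sqrt (Nat.cast_nonneg _)]
  -- the number of primes
  have hcard : (P.card : ℝ) ≤ 24 * y := by
    have hsub : P ⊆ Tk84.gball ⌊y⌋₊ := by
      intro p hp
      rw [Tk84.mem_gball]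
      exact Nat.le_floor (hnm p hp).2
    have h1 : (P.card : ℝ) ≤ ((Tk84.gball ⌊y⌋₊).card : ℝ) := by
      exact_mod_cast Finset.card_le_card hsub
    have h2 := Tk84.card_le ⌊y⌋₊ (Nat.le_floor (by exact_mod_cast hy))
    have h3 : ((⌊y⌋₊ : ℕ) : ℝ) ≤ y := Nat.floor_le (by linarith)
    linarith
  have hyX : y ≤ √(X : ℝ) := by
    apply Real.le_sqrt_of_sq_le
    linarith
  have d4 : 96 * √(X : ℝ) * (∑ p ∈ P, ‖c p‖ / √((nm p : ℕ) : ℝ)) ^ 2 ≤ 2304 * X * S := by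
    calc _ ≤ 96 * √(X : ℝ) * (P.card * S) := mul_le_mul_of_nonneg_left d3 (by positivity)
      _ ≤ 96 * √(X : ℝ) * ((24 * √(X : ℝ)) * S) := by
          apply mul_le_mul_of_nonneg_left _ (by positivity)
          apply mul_le_mul_of_nonneg_right _ hS0
          linarith
      _ = 2304 * (√(X : ℝ) * √(X : ℝ)) * S := by ring
      _ = 2304 * X * S := by rw [Real.mul_self_sqrt (Nat.cast_nonneg X)]
  rw [d1, d2]
  have d5 : 96 * X * S + 2304 * X * S ≤ 2400 * (r2 + 2) * N * S := by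
    have : 96 * X * S + 2304 * X * S = 2400 * (X * S) := by ring
    rw [this]
    have h1 : (X : ℝ) * S ≤ (r2 + 2) * N * S := mul_le_mul_of_nonneg_right hX2 hS0
    linarith
  linarith

end Pool.Agent.Lib.MP_a17b09_nt.MRS
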