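import Pool.Agent.Lib.MP_a17b09_nt.MRS.Tkh12
import Pool.Agent.Lib.MP_a17b09_nt.MRS.Stmts3

/-!
MRS (MP_a17b09_nt), module TKH: Turan - Kubilius and Halasz - Montgomery together. helper12.
-/

set_option autoImplicit false

open Finset

namespace Pool.Agent.Lib.MP_a17b09_nt.MRS.TkhS12

open Tkh12
open Tk84 (dv gball mem_gball)

/-- abstract form on any finite set of non-zero Gaussian integers -/
theorem tkh_abs (S P : Finset GaussianInt) (hS0 : (0 : GaussianInt) ∉ S)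
    (Q : ℝ) (hQ0 : 0 ≤ Q) (hQ : ∀ p ∈ P, ((nm p : ℕ) : ℝ) ≤ Q) (U : Finset ℤ) (G0 G1 E : ℝ)
    (hG0 : 0 ≤ G0) (hG1 : 0 ≤ G1) (hE0 : 0 ≤ E)
    (h0 : ∀ p ∈ P, ∀ r ∈ P, p ≠ r → √((nm p : ℕ) : ℝ) * √((nm r : ℕ) : ℝ) *
      |∑ v ∈ S, dv p v * dv r v| ≤ G0)
    (h1 : ∀ p ∈ P, √((nm p : ℕ) : ℝ) * √((nm p : ℕ) : ℝ) *
      |∑ v ∈ S, dv p v * dv p v| ≤ G1)
    (h2 : ∀ j ∈ U, ∀ k ∈ U, j ≠ k → ∀ p ∈ P, ∀ r ∈ P,
      ‖∑ v ∈ S, ((dv p v * dv r v : ℝ) : ℂ) * ag v ^ (j - k)‖ ≤ 4 * E)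
    (g : GaussianInt → ℂ) (hg : ∀ v, ‖g v‖ ≤ 1) :
    ∑ j ∈ U, ∑ p ∈ P, ((nm p : ℕ) : ℝ) *
        ‖∑ v ∈ S, (dv p v : ℂ) * (g v * ag v ^ j)‖ ^ 2 ≤
      S.card * (G1 + P.card * G0 + U.card * (P.card * (4 * Q * E))) := by
  classical
  set G : ℝ := G1 + P.card * G0 + U.card * (P.card * (4 * Q * E)) with hG
  have hGn : 0 ≤ G := by positivity
  let φ : ℤ × GaussianInt → GaussianInt → ℂ :=
    fun i v => ((√((nm i.2 : ℕ) : ℝ) * dv i.2 v : ℝ) : ℂ) * ag v ^ i.1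
  have hrow : ∀ i ∈ U ×ˢ P, ∑ k ∈ U ×ˢ P, ‖∑ v ∈ S,
      ((1 : ℝ) : ℂ) * (φ i v * (starRingEnd ℂ) (φ k v))‖ ≤ G := by
    rintro ⟨j, p⟩ hjp
    rw [mem_product] at hjp
    obtain ⟨hj, hp⟩ := hjp
    simp only at hj hp
    have hterm : ∀ k ∈ U, ∀ r ∈ P, ‖∑ v ∈ S,
        ((1 : ℝ) : ℂ) * (φ (j, p) v * (starRingEnd ℂ) (φ (k, r) v))‖ ≤
        (if k = j then (if r = p then G1 else 0) + G0 else 0) + 4 * Q * E := by
      intro k hk r hr
      have e1 : ∑ v ∈ S,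
          ((1 : ℝ) : ℂ) * (φ (j, p) v * (starRingEnd ℂ) (φ (k, r) v)) =
          ((√((nm p : ℕ) : ℝ) * √((nm r : ℕ) : ℝ) : ℝ) : ℂ) *
            ∑ v ∈ S, ((dv p v * dv r v : ℝ) : ℂ) * ag v ^ (j - k) := by
        rw [mul_sum]
        refine sum_congr rfl (fun v hv => ?_)
        have hv0 : v ≠ 0 := fun h => hS0 (h ▸ hv)
        simp only [φ]
        have e9 : ag v ^ (j - k) = ag v ^ j * (starRingEnd ℂ) (ag v ^ k) :=
          (conj_ee_zpow hv0 j k).symm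
        rw [e9, map_mul, Complex.conj_ofReal]
        push_cast
        ring
      rw [e1, norm_mul, Complex.norm_real, Real.norm_of_nonneg (by positivity)]
      have h4 : 0 ≤ 4 * Q * E := by positivity
      by_cases hkj : k = j
      · subst hkj
        rw [if_pos rfl, sub_self]
        have e2 : ∑ v ∈ S, ((dv p v * dv r v : ℝ) : ℂ) * ag v ^ (0 : ℤ) =
            ((∑ v ∈ S, dv p v * dv r v : ℝ) : ℂ) := by
          push_cast
          refine sum_congr rfl (fun v _ => ?_)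
          rw [zpow_zero, mul_one]
        rw [e2, Complex.norm_real, Real.norm_eq_abs]
        by_cases hrp : r = p
        · subst hrp
          rw [if_pos rfl]
          have := h1 r hr
          linarith
        · rw [if_neg hrp]
          have := h0 p hp r hr (Ne.symm hrp)
          linarith
      · rw [if_neg hkj]
        have h5 := h2 j hj k hk (Ne.symm hkj) p hp r hr
        have h6 : √((nm p : ℕ) : ℝ) * √((nm r : ℕ) : ℝ) ≤ Q := by
          rw [← Real.sqrt_mul (by positivity)]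
          apply Real.sqrt_le_iff.2
          refine ⟨hQ0, ?_⟩
          rw [sq]
          exact mul_le_mul (hQ p hp) (hQ r hr) (Nat.cast_nonneg _) hQ0
        calc √((nm p : ℕ) : ℝ) * √((nm r : ℕ) : ℝ) *
            ‖∑ v ∈ S, ((dv p v * dv r v : ℝ) : ℂ) * ag v ^ (j - k)‖
            ≤ Q * (4 * E) := mul_le_mul h6 h5 (norm_nonneg _) hQ0
          _ = 0 + 4 * Q * E := by ring
    rw [sum_product]
    refine (sum_le_sum fun k hk => sum_le_sum fun r hr => hterm k hk r hr).trans ?_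
    have e3 : ∀ k ∈ U, ∑ r ∈ P, ((if k = j then (if r = p then G1 else 0) +
        G0 else 0) + 4 * Q * E) =
        (if k = j then G1 + P.card * G0 else 0) +
          P.card * (4 * Q * E) := by
      intro k _
      rw [sum_add_distrib, sum_const, nsmul_eq_mul]
      congr 1
      split_ifs
      · rw [sum_add_distrib, sum_ite_eq' P p, if_pos hp, sum_const, nsmul_eq_mul]
      · rw [sum_const_zero]
    rw [sum_congr rfl e3, sum_add_distrib, sum_ite_eq' U j, if_pos hj, sum_const, nsmul_eq_mul,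
      hG]
  have hmain := hm_96 S (U ×ˢ P) (fun _ => (1 : ℝ)) (fun _ _ => zero_le_one)
    φ g G hGn hrow
  rw [sum_product] at hmain
  have hS : ∑ v ∈ S, (1 : ℝ) * ‖g v‖ ^ 2 ≤ S.card := by
    calc ∑ v ∈ S, (1 : ℝ) * ‖g v‖ ^ 2
        ≤ ∑ v ∈ S, (1 : ℝ) := by
          refine sum_le_sum fun v _ => ?_
          rw [one_mul]
          exact pow_le_one₀ (norm_nonneg _) (hg v)
      _ = (S.card : ℝ) := by rw [sum_const, nsmul_eq_mul, mul_one]
  refine le_trans (le_of_eq ?_) (hmain.trans (mul_le_mul_of_nonneg_right hS hGn))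
  refine sum_congr rfl (fun j _ => sum_congr rfl (fun p _ => ?_))
  have e4 : ∑ v ∈ S, ((1 : ℝ) : ℂ) * g v * φ (j, p) v =
      ((√((nm p : ℕ) : ℝ) : ℝ) : ℂ) * ∑ v ∈ S, (dv p v : ℂ) * (g v * ag v ^ j) := by
    rw [mul_sum]
    refine sum_congr rfl (fun v _ => ?_)
    simp only [φ]
    push_cast
    ring
  rw [e4, norm_mul, Complex.norm_real, Real.norm_of_nonneg (by positivity), mul_pow,
    Real.sq_sqrt (by positivity)]

open scoped Classical in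
/-- off-diagonal terms with a non-zero frequency -/
theorem off_freq' (S : Finset GaussianInt) (p r : GaussianInt) (hp : Prime p) (hr : Prime r)
    (hpr : p = r ∨ IsCoprime p r) (h : ℤ) (E : ℝ)
    (hE : ∀ d : GaussianInt, d ≠ 0 → ‖∑ v ∈ S, (if d ∣ v then ag v ^ h else 0)‖ ≤ E) :
    ‖∑ v ∈ S, ((dv p v * dv r v : ℝ) : ℂ) * ag v ^ h‖ ≤ 4 * E := by
  have hp0 := hp.ne_zero
  have hr0 := hr.ne_zero
  have b4 : ‖∑ v ∈ S, ag v ^ h‖ ≤ E := by
    have := hE 1 one_ne_zero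
    have e : ∀ v ∈ S, (if (1 : GaussianInt) ∣ v then ag v ^ h else 0) = ag v ^ h := by
      intro v _
      rw [if_pos (one_dvd v)]
    rwa [sum_congr rfl e] at this
  have hE0 : 0 ≤ E := (norm_nonneg _).trans b4
  obtain ⟨l, hl0, hl⟩ : ∃ l : GaussianInt, l ≠ 0 ∧ ∀ v, (p ∣ v ∧ r ∣ v ↔ l ∣ v) := by
    rcases hpr with hpr | hpr
    · exact ⟨p, hp0, fun v => by rw [← hpr]; tauto⟩
    · refine ⟨p * r, mul_ne_zero hp0 hr0, fun v => ⟨fun hv => hpr.mul_dvd hv.1 hv.2, fun hv =>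
        ⟨(dvd_mul_right p r).trans hv, (dvd_mul_left r p).trans hv⟩⟩⟩
  have hNp : (1 : ℝ) ≤ Tk84.nm p := by exact_mod_cast Tk84.nm_pos.2 hp0
  have hNr : (1 : ℝ) ≤ Tk84.nm r := by exact_mod_cast Tk84.nm_pos.2 hr0
  have key : ∀ v : GaussianInt, ((dv p v * dv r v : ℝ) : ℂ) * ag v ^ h =
      (if l ∣ v then ag v ^ h else 0) - (1 / (Tk84.nm r : ℂ)) * (if p ∣ v then ag v ^ h else 0)
        - (1 / (Tk84.nm p : ℂ)) * (if r ∣ v then ag v ^ h else 0)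
        + (1 / (Tk84.nm p : ℂ)) * (1 / (Tk84.nm r : ℂ)) * ag v ^ h := by
    intro v
    unfold dv
    by_cases h1 : p ∣ v
    · by_cases h2 : r ∣ v
      · rw [if_pos h1, if_pos h2, if_pos ((hl v).1 ⟨h1, h2⟩), if_pos h1, if_pos h2]
        push_cast
        ring
      · rw [if_pos h1, if_neg h2, if_neg (fun h3 => h2 ((hl v).2 h3).2), if_pos h1, if_neg h2]
        push_cast
        ring
    · by_cases h2 : r ∣ v
      · rw [if_neg h1, if_pos h2, if_neg (fun h3 => h1 ((hl v).2 h3).1), if_neg h1, if_pos h2]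
        push_cast
        ring
      · rw [if_neg h1, if_neg h2, if_neg (fun h3 => h1 ((hl v).2 h3).1), if_neg h1, if_neg h2]
        push_cast
        ring
  rw [sum_congr rfl (fun v _ => key v), sum_add_distrib, sum_sub_distrib, sum_sub_distrib,
    ← mul_sum, ← mul_sum, ← mul_sum]
  have b1 := hE l hl0
  have b2 := hE p hp0
  have b3 := hE r hr0
  have c1 : ‖(1 / (Tk84.nm p : ℂ))‖ ≤ 1 := by
    rw [norm_div, norm_one, Complex.norm_natCast]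
    exact (div_le_one (by linarith)).2 hNp
  have c2 : ‖(1 / (Tk84.nm r : ℂ))‖ ≤ 1 := by
    rw [norm_div, norm_one, Complex.norm_natCast]
    exact (div_le_one (by linarith)).2 hNr
  refine (norm_add_le _ _).trans ?_
  refine (add_le_add (norm_sub_le _ _) le_rfl).trans ?_
  refine (add_le_add (add_le_add (norm_sub_le _ _) le_rfl) le_rfl).trans ?_
  rw [norm_mul, norm_mul, norm_mul, norm_mul]
  have d2 : ‖(1 / (Tk84.nm r : ℂ))‖ * ‖∑ v ∈ S, (if p ∣ v then ag v ^ h else 0)‖ ≤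
      1 * E := mul_le_mul c2 b2 (norm_nonneg _) (by norm_num)
  have d3 : ‖(1 / (Tk84.nm p : ℂ))‖ * ‖∑ v ∈ S, (if r ∣ v then ag v ^ h else 0)‖ ≤
      1 * E := mul_le_mul c1 b3 (norm_nonneg _) (by norm_num)
  have d4 : ‖(1 / (Tk84.nm p : ℂ))‖ * ‖(1 / (Tk84.nm r : ℂ))‖ * ‖∑ v ∈ S, ag v ^ h‖ ≤
      1 * 1 * E := mul_le_mul (mul_le_mul c1 c2 (norm_nonneg _) (by norm_num)) b4
        (norm_nonneg _) (by norm_num)
  linarith

open scoped Classical in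
/-- multiples of `d` in a shell -/
theorem sum_mult_sh (a b : ℝ) (d : GaussianInt) (hd : d ≠ 0) (G : GaussianInt → ℂ) :
    ∑ v ∈ Sh a b, (if d ∣ v then G v else 0) =
      ∑ m ∈ Sh (a / nm d) (b / nm d), G (d * m) := by
  have hN : (0 : ℝ) < nm d := by exact_mod_cast Tk84.nm_pos.2 hd
  rw [← sum_filter]
  symm
  apply Finset.sum_nbij (fun m => d * m)
  · intro m hm
    rw [mem_Sh, div_lt_iff₀ hN, le_div_iff₀ hN] at hm
    rw [mem_filter, mem_Sh, nm_mul]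
    push_cast
    refine ⟨⟨mul_ne_zero hd hm.1, ?_, ?_⟩, Dvd.intro _ rfl⟩
    · linarith [hm.2.1, mul_comm ((nm d : ℕ) : ℝ) (nm m)]
    · linarith [hm.2.2, mul_comm ((nm d : ℕ) : ℝ) (nm m)]
  · intro a _ b _ h
    exact mul_left_cancel₀ hd h
  · intro v hv
    rw [mem_coe, mem_filter, mem_Sh] at hv
    obtain ⟨⟨hv0, hva, hvb⟩, m, rfl⟩ := hv
    refine ⟨m, ?_, rfl⟩
    rw [mem_coe, mem_Sh, div_lt_iff₀ hN, le_div_iff₀ hN]
    rw [nm_mul] at hva hvb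
    push_cast at hva hvb
    refine ⟨fun h => hv0 (by rw [h, mul_zero]), ?_, ?_⟩
    · linarith [mul_comm ((nm d : ℕ) : ℝ) (nm m)]
    · linarith [mul_comm ((nm d : ℕ) : ℝ) (nm m)]
  · intro m _
    rfl

/-- shells as differences of balls -/
theorem sh_eq (a b : ℝ) (ha : 0 ≤ a) (hab : a ≤ b) :
    Sh a b = gball ⌊b⌋₊ \ gball ⌊a⌋₊ := by
  ext v
  rw [mem_Sh, mem_sdiff, mem_gball, mem_gball, Nat.le_floor_iff (ha.trans hab), not_le,
    Nat.floor_lt ha]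
  constructor
  · rintro ⟨_, h2, h3⟩
    exact ⟨h3, h2⟩
  · rintro ⟨h1, h2⟩
    refine ⟨?_, h2, h1⟩
    rintro rfl
    have : Tk84.nm 0 = 0 := Tk84.nm_eq_zero.2 rfl
    rw [this, Nat.cast_zero] at h2
    linarith

theorem sum_sh_abs (a b : ℝ) (ha : 0 ≤ a) (hab : a ≤ b) (f : GaussianInt → ℝ) :
    |∑ v ∈ Sh a b, f v| ≤ |∑ v ∈ gball ⌊b⌋₊, f v| + |∑ v ∈ gball ⌊a⌋₊, f v| := by
  have hsub : gball ⌊a⌋₊ ⊆ gball ⌊b⌋₊ := by
    intro v hv
    rw [mem_gball] at hv ⊢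
    exact hv.trans (Nat.floor_mono hab)
  have h1 := sum_sdiff (f := f) hsub
  rw [sh_eq a b ha hab]
  have h2 : ∑ v ∈ gball ⌊b⌋₊ \ gball ⌊a⌋₊, f v =
      ∑ v ∈ gball ⌊b⌋₊, f v - ∑ v ∈ gball ⌊a⌋₊, f v := by
    rw [← h1]
    ring
  rw [h2]
  exact abs_sub _ _

/-- a Gaussian integer whose norm is a prime number is prime -/
theorem prime_of_nm {p : GaussianInt} (h : (nm p).Prime) : Prime p := by
  rw [← irreducible_iff_prime]
  refine ⟨fun hu => ?_, fun a b hab => ?_⟩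
  · have h1 : nm p = 1 := Zsqrtd.norm_eq_one_iff.2 hu
    rw [h1] at h
    exact Nat.not_prime_one h
  · have h1 : nm p = nm a * nm b := by rw [hab, nm_mul]
    rw [h1] at h
    rcases Nat.prime_mul_iff.1 h with ⟨_, h2⟩ | ⟨_, h2⟩
    · exact Or.inr (Zsqrtd.norm_eq_one_iff.1 h2)
    · exact Or.inl (Zsqrtd.norm_eq_one_iff.1 h2)

/-- associates in the open first quadrant are equal -/
theorem quad {p r : GaussianInt} (hp1 : 0 < p.re) (hp2 : 0 < p.im) (hr1 : 0 < r.re)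
    (hr2 : 0 < r.im) (h : Associated p r) : p = r := by
  obtain ⟨u, hu⟩ := h
  have hn : (u : GaussianInt).norm = 1 := by
    have h1 := Zsqrtd.norm_eq_one_iff.2 u.isUnit
    have h2 := GaussianInt.norm_nonneg (u : GaussianInt)
    omega
  rw [Zsqrtd.norm_def] at hn
  set a := (u : GaussianInt).re with ha
  set b := (u : GaussianInt).im with hb
  have hre : r.re = p.re * a - p.im * b := by
    rw [← hu, Zsqrtd.re_mul]
    ring
  have him : r.im = p.re * b + p.im * a := by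
    rw [← hu, Zsqrtd.im_mul]
  have hab : a * a + b * b = 1 := by linarith
  have ha1 : a ≤ 1 := by nlinarith
  have ha2 : -1 ≤ a := by nlinarith
  have hb1 : b ≤ 1 := by nlinarith
  have hb2 : -1 ≤ b := by nlinarith
  have hcase : (a = 1 ∧ b = 0) ∨ (a = -1 ∧ b = 0) ∨ (a = 0 ∧ b = 1) ∨ (a = 0 ∧ b = -1) := by
    have : a = -1 ∨ a = 0 ∨ a = 1 := by omega
    have : b = -1 ∨ b = 0 ∨ b = 1 := by omega
    rcases ‹a = -1 ∨ a = 0 ∨ a = 1› with h1 | h1 | h1 <;>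
      rcases ‹b = -1 ∨ b = 0 ∨ b = 1› with h2 | h2 | h2 <;> rw [h1, h2] at hab <;>
        first | (exfalso; omega) | tauto
  rcases hcase with ⟨h1, h2⟩ | ⟨h1, h2⟩ | ⟨h1, h2⟩ | ⟨h1, h2⟩
  · rw [h1, h2] at hre him
    exact Zsqrtd.ext (by linarith) (by linarith)
  · rw [h1, h2] at hre
    exfalso
    linarith
  · rw [h1, h2] at hre
    exfalso
    linarith
  · rw [h1, h2] at him
    exfalso
    linarith

theorem gball_zero : gball 0 = {0} := by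
  ext v
  rw [mem_gball, mem_singleton, Nat.le_zero]
  exact Tk84.nm_eq_zero

theorem dv_zero_abs (p r : GaussianInt) (hp : Prime p) (hr : Prime r) :
    |dv p 0 * dv r 0| ≤ 1 := by
  have hNp : (1 : ℝ) ≤ Tk84.nm p := by exact_mod_cast Tk84.nm_pos.2 hp.ne_zero
  have hNr : (1 : ℝ) ≤ Tk84.nm r := by exact_mod_cast Tk84.nm_pos.2 hr.ne_zero
  unfold dv
  rw [if_pos (dvd_zero p), if_pos (dvd_zero r), abs_mul]
  have e1 : (0 : ℝ) < 1 / Tk84.nm p := by positivity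
  have e2 : (1 : ℝ) / Tk84.nm p ≤ 1 := (div_le_one (by linarith)).2 hNp
  have e3 : (0 : ℝ) < 1 / Tk84.nm r := by positivity
  have e4 : (1 : ℝ) / Tk84.nm r ≤ 1 := (div_le_one (by linarith)).2 hNr
  have f1 : |(1 : ℝ) - 1 / Tk84.nm p| ≤ 1 := abs_le.2 ⟨by linarith, by linarith⟩
  have f2 : |(1 : ℝ) - 1 / Tk84.nm r| ≤ 1 := abs_le.2 ⟨by linarith, by linarith⟩
  calc |(1 : ℝ) - 1 / Tk84.nm p| * |(1 : ℝ) - 1 / Tk84.nm r| ≤ 1 * 1 :=
        mul_le_mul f1 f2 (abs_nonneg _) (by norm_num)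
    _ = 1 := by norm_num

theorem ball_off (x : ℕ) (p r : GaussianInt) (hp : Prime p) (hr : Prime r)
    (hpr : ¬ Associated p r) (hx : x = 0 ∨ nm p * nm r ≤ x) :
    |∑ v ∈ gball x, dv p v * dv r v| ≤ 96 * √((x : ℝ) / (nm p * nm r)) + 1 := by
  rcases hx with hx | hx
  · subst hx
    rw [gball_zero, sum_singleton]
    have := dv_zero_abs p r hp hr
    have h2 : 0 ≤ 96 * √((((0 : ℕ) : ℝ)) / (nm p * nm r)) := by positivity
    linarith
  · have := Tk84.dv_corr x p r hp.ne_zero hr.ne_zero (prime_cop hp hr hpr) hx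
    exact this.trans (by
      have h3 : (96 : ℝ) * √((x : ℝ) / (nm p * nm r)) ≤ 96 * √((x : ℝ) / (nm p * nm r)) + 1 := by
        linarith
      exact h3)

theorem ball_diag (x : ℕ) (p : GaussianInt) (hp : Prime p) (hx : x = 0 ∨ nm p ≤ x) :
    |∑ v ∈ gball x, dv p v * dv p v| ≤ 96 * ((x : ℝ) / nm p) + 1 := by
  rcases hx with hx | hx
  · subst hx
    rw [gball_zero, sum_singleton]
    have := dv_zero_abs p p hp hp
    have h2 : 0 ≤ 96 * ((((0 : ℕ) : ℝ)) / nm p) := by positivity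
    linarith
  · have := Tk84.dv_diag x p hp.ne_zero hx
    rw [abs_of_nonneg (sum_nonneg fun v _ => mul_self_nonneg _)]
    exact this.trans (by
      have h3 : (96 : ℝ) * ((x : ℝ) / nm p) ≤ 96 * ((x : ℝ) / nm p) + 1 := by linarith
      exact h3)

theorem sh_off (a b : ℝ) (ha : 0 ≤ a) (hab : a ≤ b) (p r : GaussianInt) (hp : Prime p)
    (hr : Prime r) (hpr : ¬ Associated p r) (hxa : ⌊a⌋₊ = 0 ∨ nm p * nm r ≤ ⌊a⌋₊)
    (hxb : nm p * nm r ≤ ⌊b⌋₊) :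
    √((nm p : ℕ) : ℝ) * √((nm r : ℕ) : ℝ) * |∑ v ∈ Sh a b, dv p v * dv r v| ≤ 194 * √b := by
  have hb0 : 0 ≤ b := ha.trans hab
  have hp1 : (1 : ℝ) ≤ nm p := by exact_mod_cast Tk84.nm_pos.2 hp.ne_zero
  have hr1 : (1 : ℝ) ≤ nm r := by exact_mod_cast Tk84.nm_pos.2 hr.ne_zero
  have h1 := sum_sh_abs a b ha hab (fun v => dv p v * dv r v)
  have h2 := ball_off ⌊b⌋₊ p r hp hr hpr (Or.inr hxb)
  have h3 := ball_off ⌊a⌋₊ p r hp hr hpr hxa
  have hfb : ((⌊b⌋₊ : ℕ) : ℝ) ≤ b := Nat.floor_le hb0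
  have hfa : ((⌊a⌋₊ : ℕ) : ℝ) ≤ b := (Nat.floor_le ha).trans hab
  have h0 : 0 ≤ √((nm p : ℕ) : ℝ) * √((nm r : ℕ) : ℝ) := by positivity
  have key : ∀ y : ℝ, 0 ≤ y → y ≤ b → √((nm p : ℕ) : ℝ) * √((nm r : ℕ) : ℝ) *
      √(y / (nm p * nm r)) ≤ √b := by
    intro y hy hyb
    rw [← Real.sqrt_mul (by positivity), ← Real.sqrt_mul (by positivity)]
    apply Real.sqrt_le_sqrt
    have : ((nm p : ℕ) : ℝ) * nm r * (y / (nm p * nm r)) = y := by field_simp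
    rw [this]
    exact hyb
  have k1 := key _ (Nat.cast_nonneg _) hfb
  have k2 := key _ (Nat.cast_nonneg _) hfa
  have k3 : √((nm p : ℕ) : ℝ) * √((nm r : ℕ) : ℝ) ≤ √b := by
    rw [← Real.sqrt_mul (by positivity)]
    apply Real.sqrt_le_sqrt
    have : ((nm p * nm r : ℕ) : ℝ) ≤ ((⌊b⌋₊ : ℕ) : ℝ) := by exact_mod_cast hxb
    push_cast at this
    linarith
  have h4 : |∑ v ∈ Sh a b, dv p v * dv r v| ≤
      (96 * √((⌊b⌋₊ : ℝ) / (nm p * nm r)) + 1) + (96 * √((⌊a⌋₊ : ℝ) / (nm p * nm r)) + 1) :=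
    h1.trans (add_le_add h2 h3)
  have h5 := mul_le_mul_of_nonneg_left h4 h0
  refine h5.trans ?_
  have h6 : √((nm p : ℕ) : ℝ) * √((nm r : ℕ) : ℝ) *
      ((96 * √((⌊b⌋₊ : ℝ) / (nm p * nm r)) + 1) + (96 * √((⌊a⌋₊ : ℝ) / (nm p * nm r)) + 1)) =
      96 * (√((nm p : ℕ) : ℝ) * √((nm r : ℕ) : ℝ) * √((⌊b⌋₊ : ℝ) / (nm p * nm r))) +
      96 * (√((nm p : ℕ) : ℝ) * √((nm r : ℕ) : ℝ) * √((⌊a⌋₊ : ℝ) / (nm p * nm r))) +
      2 * (√((nm p : ℕ) : ℝ) * √((nm r : ℕ) : ℝ)) := by ring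
  rw [h6]
  linarith

theorem sh_diag (a b : ℝ) (ha : 0 ≤ a) (hab : a ≤ b) (p : GaussianInt) (hp : Prime p)
    (hxa : ⌊a⌋₊ = 0 ∨ nm p ≤ ⌊a⌋₊) (hxb : nm p ≤ ⌊b⌋₊) :
    √((nm p : ℕ) : ℝ) * √((nm p : ℕ) : ℝ) * |∑ v ∈ Sh a b, dv p v * dv p v| ≤ 194 * b := by
  have hb0 : 0 ≤ b := ha.trans hab
  have hp1 : (1 : ℝ) ≤ nm p := by exact_mod_cast Tk84.nm_pos.2 hp.ne_zero
  have h1 := sum_sh_abs a b ha hab (fun v => dv p v * dv p v)
  have h2 := ball_diag ⌊b⌋₊ p hp (Or.inr hxb)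
  have h3 := ball_diag ⌊a⌋₊ p hp hxa
  have hfb : ((⌊b⌋₊ : ℕ) : ℝ) ≤ b := Nat.floor_le hb0
  have hfa : ((⌊a⌋₊ : ℕ) : ℝ) ≤ b := (Nat.floor_le ha).trans hab
  have hpb : ((nm p : ℕ) : ℝ) ≤ b := by
    have : ((nm p : ℕ) : ℝ) ≤ ((⌊b⌋₊ : ℕ) : ℝ) := by exact_mod_cast hxb
    linarith
  rw [Real.mul_self_sqrt (by positivity)]
  have h4 : |∑ v ∈ Sh a b, dv p v * dv p v| ≤
      (96 * ((⌊b⌋₊ : ℝ) / nm p) + 1) + (96 * ((⌊a⌋₊ : ℝ) / nm p) + 1) :=
    h1.trans (add_le_add h2 h3)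
  have h5 := mul_le_mul_of_nonneg_left h4 (show (0 : ℝ) ≤ nm p by positivity)
  refine h5.trans ?_
  have h6 : ((nm p : ℕ) : ℝ) *
      ((96 * ((⌊b⌋₊ : ℝ) / nm p) + 1) + (96 * ((⌊a⌋₊ : ℝ) / nm p) + 1)) =
      96 * ⌊b⌋₊ + 96 * ⌊a⌋₊ + 2 * nm p := by
    field_simp
    ring
  rw [h6]
  linarith

open scoped Classical in
/-- exponential sums over the multiples of `d` in a shell, from `StExp` -/
theorem exp_sh {c' C' A : ℝ} (hc' : 0 < c')
    (H : ∀ (Y r1 r2 : ℝ) (h : ℤ) (q : ℕ) (a0 b0 : ℤ) (S : Finset (ℤ × ℤ)),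
      1 ≤ Y → r2 ≤ Y → h ≠ 0 → |(h : ℝ)| ≤ Y ^ A → 1 ≤ q → (q : ℝ) ≤ Y ^ c' →
      Pool.Agent.X67.IsRing r1 r2 q a0 b0 S →
      ‖∑ m ∈ S, (Pool.Agent.X67.zz m / (‖Pool.Agent.X67.zz m‖ : ℂ)) ^ h‖ ≤ C' * Y ^ (1 - c'))
    (Y a b : ℝ) (ha : 0 ≤ a) (hY : 1 ≤ Y) (hb0 : 0 ≤ b) (hb : b ≤ Y) (h : ℤ) (hh : h ≠ 0)
    (hhY : |(h : ℝ)| ≤ Y ^ A) (d : GaussianInt) (hd : d ≠ 0) :
    ‖∑ v ∈ Sh a b, (if d ∣ v then ag v ^ h else 0)‖ ≤ C' * Y ^ (1 - c') := by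
  have hN1 : (1 : ℝ) ≤ nm d := by exact_mod_cast Tk84.nm_pos.2 hd
  rw [sum_mult_sh a b d hd (fun v => ag v ^ h)]
  have e1 : ∑ m ∈ Sh (a / nm d) (b / nm d), ag (d * m) ^ h =
      ag d ^ h * ∑ m ∈ Sh (a / nm d) (b / nm d), ag m ^ h := by
    rw [mul_sum]
    refine sum_congr rfl (fun m _ => ?_)
    rw [ag_mul, mul_zpow]
  rw [e1, norm_mul, norm_zpow, norm_ag hd, one_zpow, one_mul]
  set a' := a / nm d with ha'
  set b' := b / nm d with hb'
  have ha0 : 0 ≤ a' := by positivity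
  let S' : Finset (ℤ × ℤ) := (Sh a' b').image (fun v => (v.re, v.im))
  have hinj : Set.InjOn (fun v : GaussianInt => (v.re, v.im)) (Sh a' b' : Set GaussianInt) := by
    intro v _ w _ hvw
    simp only [Prod.mk.injEq] at hvw
    exact Zsqrtd.ext hvw.1 hvw.2
  have hring : Pool.Agent.X67.IsRing ((⌊a'⌋ : ℝ) + 1) b' 1 0 0 S' := by
    intro m
    rw [mem_image]
    constructor
    · rintro ⟨v, hv, rfl⟩
      rw [mem_Sh, nm_eq] at hv
      refine ⟨?_, hv.2.2, Int.modEq_one, Int.modEq_one⟩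
      have h1 : a' < ((v.re ^ 2 + v.im ^ 2 : ℤ) : ℝ) := by
        push_cast
        exact hv.2.1
      have h2 : ⌊a'⌋ + 1 ≤ v.re ^ 2 + v.im ^ 2 := Int.floor_lt.2 h1
      exact_mod_cast h2
    · rintro ⟨h1, h2, _, _⟩
      refine ⟨⟨m.1, m.2⟩, ?_, rfl⟩
      rw [mem_Sh, nm_eq]
      have h3 : (⌊a'⌋ + 1 : ℤ) ≤ m.1 ^ 2 + m.2 ^ 2 := by exact_mod_cast h1
      have h4 : a' < ((m.1 ^ 2 + m.2 ^ 2 : ℤ) : ℝ) := Int.floor_lt.1 h3
      push_cast at h4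
      refine ⟨?_, h4, h2⟩
      intro h0
      have h5 := congrArg Zsqrtd.re h0
      have h6 := congrArg Zsqrtd.im h0
      simp only [Zsqrtd.re_zero, Zsqrtd.im_zero] at h5 h6
      rw [h5, h6] at h4
      norm_num at h4
      linarith
  have hb'Y : b' ≤ Y := by
    have : b' ≤ b := div_le_self hb0 hN1
    linarith
  have hq : ((1 : ℕ) : ℝ) ≤ Y ^ c' := by
    rw [Nat.cast_one]
    exact Real.one_le_rpow hY hc'.le
  have hfin := H Y ((⌊a'⌋ : ℝ) + 1) b' h 1 0 0 S' hY hb'Y hh hhY le_rfl hq hring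
  refine le_trans (le_of_eq ?_) hfin
  congr 1
  simp only [S']
  rw [sum_image hinj]
  refine sum_congr rfl (fun v _ => ?_)
  have e2 : Pool.Agent.X67.zz (v.re, v.im) = GaussianInt.toComplex v := by
    rw [GaussianInt.toComplex_def]
    rfl
  rw [e2]
  rfl

/-- size of a set of Gaussian integers of bounded norm -/
theorem card_bd (S : Finset GaussianInt) (b : ℝ) (hb : 1 ≤ b) (h : ∀ v ∈ S, (nm v : ℝ) ≤ b) :
    (S.card : ℝ) ≤ 24 * b := by
  have hsub : S ⊆ gball ⌊b⌋₊ := by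
    intro v hv
    rw [mem_gball]
    exact Nat.le_floor (h v hv)
  have h1 : (S.card : ℝ) ≤ ((gball ⌊b⌋₊).card : ℝ) := by exact_mod_cast card_le_card hsub
  have h2 : 1 ≤ ⌊b⌋₊ := Nat.le_floor (by exact_mod_cast hb)
  have h3 := Tk84.card_le ⌊b⌋₊ h2
  have h4 : ((⌊b⌋₊ : ℕ) : ℝ) ≤ b := Nat.floor_le (by linarith)
  linarith

/-- the basic identity -/
theorem ma_id {K : ℕ} {ψ : GaussianInt → ℂ} (hψ : Chr K ψ) (z : ℂ) (r1 r2 N : ℝ) (hN : 0 < N)
    (j : ℤ) (p : GaussianInt) (hp : p ≠ 0) :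
    Ma z ψ r1 r2 N j - FF z ψ j p * Ma z ψ r1 r2 (N / nm p) j =
      -((nm p : ℂ) / (N : ℂ)) * ∑ v ∈ Sh (r1 * N) (r2 * N), (dv p v : ℂ) *
        ((z ^ (ArithmeticFunction.cardFactors (nm v)) * ψ v) * ag v ^ j) := by
  classical
  have hn : (0 : ℝ) < nm p := by exact_mod_cast Tk84.nm_pos.2 hp
  have hnC : (nm p : ℂ) ≠ 0 := by exact_mod_cast hn.ne'
  have hNC : (N : ℂ) ≠ 0 := by exact_mod_cast hN.ne'
  have h1 := sum_mult_sh (r1 * N) (r2 * N) p hp (fun v => FF z ψ j v)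
  have h2 : ∑ m ∈ Sh (r1 * N / nm p) (r2 * N / nm p), FF z ψ j (p * m) =
      FF z ψ j p * ∑ m ∈ Sh (r1 * N / nm p) (r2 * N / nm p), FF z ψ j m := by
    rw [mul_sum]
    refine sum_congr rfl (fun m hm => ?_)
    rw [mem_Sh] at hm
    exact FF_mul hψ z j hp hm.1
  rw [h2] at h1
  unfold Ma
  rw [← mul_div_assoc, ← mul_div_assoc]
  have h3 : ∑ v ∈ Sh (r1 * N) (r2 * N), (dv p v : ℂ) *
        ((z ^ (ArithmeticFunction.cardFactors (nm v)) * ψ v) * ag v ^ j) =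
      (∑ v ∈ Sh (r1 * N) (r2 * N), (if p ∣ v then FF z ψ j v else 0)) -
        (1 / (nm p : ℂ)) * ∑ v ∈ Sh (r1 * N) (r2 * N), FF z ψ j v := by
    rw [mul_sum, ← sum_sub_distrib]
    refine sum_congr rfl (fun v _ => ?_)
    have e : (Tk84.nm p : ℂ) = (nm p : ℂ) := rfl
    unfold dv FF
    split_ifs
    · push_cast
      rw [e]
      ring
    · push_cast
      rw [e]
      ring
  rw [h3, h1]
  push_cast
  field_simp
  ring

theorem num1 (u p n e e' : ℝ) (hu0 : 0 ≤ u) (hu : u ≤ n) (hp0 : 0 ≤ p) (hp : p ≤ 24 * n)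
    (he0 : 0 ≤ e) (he : e ≤ e') :
    u * (p * (4 * n * e)) ≤ n * ((24 * n) * (4 * n * e')) := by
  have hn : 0 ≤ n := hu0.trans hu
  have h1 : 4 * n * e ≤ 4 * n * e' := mul_le_mul_of_nonneg_left he (by positivity)
  have h2 : p * (4 * n * e) ≤ (24 * n) * (4 * n * e') :=
    mul_le_mul hp h1 (by positivity) (by positivity)
  exact mul_le_mul hu h2 (by positivity) hn

theorem num2 (X n N : ℝ) (hN : 0 < N) (hn : 0 < n) :
    1 / n * (n / N * X) ^ 2 = 1 / N ^ 2 * (n * X ^ 2) := by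
  field_simp

theorem num3 (C N : ℝ) (hN : 0 < N) : (1 / N ^ 2) * (C * N ^ 2) = C := by
  field_simp

end Pool.Agent.Lib.MP_a17b09_nt.MRS.TkhS12

namespace Pool.Agent.Lib.MP_a17b09_nt.MRS

open TkhS12 Tkh12
open Tk84 (dv)

/-- module TKH -/
theorem stTkh_12 (hExp : Pool.Agent.X67.StExp) : StTkh := by
  classical
  intro r1 r2 hr1 hr12
  obtain ⟨c', C', hc', hC', H⟩ := hExp 3 (by norm_num)
  have hr2 : 0 < r2 := lt_of_le_of_lt hr1 hr12
  set c : ℝ := min (1 / 16) (c' / 4) with hc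
  have hc0 : 0 < c := lt_min (by norm_num) (by positivity)
  have hc1 : c ≤ 1 / 16 := min_le_left _ _
  have hc2 : c ≤ c' / 4 := min_le_right _ _
  set C : ℝ := 24 * r2 * (194 * r2 + 24 * (194 * √r2) + 24 * (4 * (C' * (r2 + 1)))) with hC
  refine ⟨c, C, hc0, by linarith, by positivity, ?_⟩
  intro z K ψ hz hK hψ
  set ρ : ℝ := if r1 = 0 then r2 else r1 with hρ
  have hρ0 : 0 < ρ := by
    rw [hρ]
    split_ifs with h
    · exact hr2
    · exact lt_of_le_of_ne hr1 (Ne.symm h)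
  have hρ2 : ρ ≤ r2 := by
    rw [hρ]
    split_ifs
    · exact le_rfl
    · exact hr12.le
  refine ⟨max 2 ((2 / ρ) ^ 2), le_trans (by norm_num) (le_max_left _ _), ?_⟩
  intro N hN U hU hUj
  have hN2 : 2 ≤ N := (le_max_left _ _).trans hN
  have hNρ : (2 / ρ) ^ 2 ≤ N := (le_max_right _ _).trans hN
  have hN0 : 0 < N := by linarith
  have hN1 : 1 ≤ N := by linarith
  have hsq : 2 / ρ ≤ √N := Real.le_sqrt_of_sq_le hNρ
  have hsq1 : 1 ≤ √N := Real.one_le_sqrt.2 hN1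
  have hsqN : √N * √N = N := Real.mul_self_sqrt hN0.le
  have hρN : 2 * √N ≤ ρ * N := by
    have h1 : 2 ≤ √N * ρ := by rwa [div_le_iff₀ hρ0] at hsq
    calc 2 * √N ≤ (√N * ρ) * √N := mul_le_mul_of_nonneg_right h1 (by positivity)
      _ = ρ * (√N * √N) := by ring
      _ = ρ * N := by rw [hsqN]
  have hNc : 1 ≤ N ^ c := Real.one_le_rpow hN1 hc0.le
  have hNc2 : N ^ c * N ^ c ≤ √N := by
    rw [← Real.rpow_add hN0, Real.sqrt_eq_rpow]
    exact Real.rpow_le_rpow_of_exponent_le hN1 (by linarith)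
  have hNc1 : N ^ c ≤ √N := by nlinarith
  -- the primes
  set P : Finset GaussianInt := sl 3 (N ^ c) with hP
  have hmem : ∀ p ∈ P, 0 < p.re ∧ 0 < p.im ∧ (nm p).Prime ∧ (nm p : ℝ) < N ^ c := by
    intro p hp
    rw [hP] at hp
    unfold sl at hp
    rw [mem_filter] at hp
    exact ⟨hp.2.1, hp.2.2.1, hp.2.2.2.1, hp.2.2.2.2.2⟩
  have hPp : ∀ p ∈ P, Prime p := fun p hp => prime_of_nm (hmem p hp).2.2.1
  have hna : ∀ p ∈ P, ∀ r ∈ P, p ≠ r → ¬ Associated p r := fun p hp r hr hpr h =>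
    hpr (quad (hmem p hp).1 (hmem p hp).2.1 (hmem r hr).1 (hmem r hr).2.1 h)
  have hcard : (P.card : ℝ) ≤ 24 * N ^ c := card_bd P _ hNc (fun v hv => (hmem v hv).2.2.2.le)
  -- the shell
  set S : Finset GaussianInt := Sh (r1 * N) (r2 * N) with hS
  have ha0 : 0 ≤ r1 * N := by positivity
  have hab : r1 * N ≤ r2 * N := mul_le_mul_of_nonneg_right hr12.le hN0.le
  have hb2 : 2 * √N ≤ r2 * N := hρN.trans (mul_le_mul_of_nonneg_right hρ2 hN0.le)
  have hb1 : 1 ≤ r2 * N := by linarith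
  have hS0 : (0 : GaussianInt) ∉ S := by
    rw [hS, mem_Sh]
    intro h
    exact h.1 rfl
  have hScard : (S.card : ℝ) ≤ 24 * (r2 * N) := card_bd S _ hb1 (fun v hv => by
    rw [hS, mem_Sh] at hv
    exact hv.2.2)
  have hfl : ∀ n : ℕ, (n : ℝ) ≤ √N → ∀ t : ℝ, 2 * √N ≤ t → n ≤ ⌊t⌋₊ := by
    intro n hn t ht
    exact Nat.le_floor (by linarith)
  have hprod : ∀ p ∈ P, ∀ r ∈ P, ((nm p * nm r : ℕ) : ℝ) ≤ √N := by
    intro p hp r hr
    push_cast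
    calc ((nm p : ℕ) : ℝ) * nm r ≤ N ^ c * N ^ c :=
          mul_le_mul (hmem p hp).2.2.2.le (hmem r hr).2.2.2.le (Nat.cast_nonneg _)
            (by linarith)
      _ ≤ √N := hNc2
  have hlow : ∀ n : ℕ, (n : ℝ) ≤ √N → ⌊r1 * N⌋₊ = 0 ∨ n ≤ ⌊r1 * N⌋₊ := by
    intro n hn
    by_cases h : r1 = 0
    · left
      rw [h, zero_mul, Nat.floor_zero]
    · right
      have h2 : ρ = r1 := by rw [hρ, if_neg h]
      rw [h2] at hρN
      exact hfl n hn _ hρN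
  -- exponential sums
  set Y : ℝ := (r2 + 1) * N with hY
  have hY1 : 1 ≤ Y := by
    rw [hY]
    nlinarith
  set E : ℝ := C' * Y ^ (1 - c') with hE
  have hE0 : 0 ≤ E := by positivity
  have hexp : ∀ j ∈ U, ∀ k ∈ U, j ≠ k → ∀ d : GaussianInt, d ≠ 0 →
      ‖∑ v ∈ S, (if d ∣ v then ag v ^ (j - k) else 0)‖ ≤ E := by
    intro j hj k hk hjk d hd
    apply exp_sh hc' H Y (r1 * N) (r2 * N) ha0 hY1 (by linarith) _ (j - k) (sub_ne_zero.2 hjk) _
      d hd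
    · rw [hY]
      nlinarith
    · have h1 := hUj j hj
      have h2 := hUj k hk
      have h3 : |((j - k : ℤ) : ℝ)| ≤ 2 * N ^ 2 := by
        push_cast
        refine (abs_sub _ _).trans ?_
        linarith
      have h4 : (2 : ℝ) * N ^ 2 ≤ Y ^ (3 : ℝ) := by
        have e1 : Y ^ (3 : ℝ) = Y ^ 3 := by
          rw [← Real.rpow_natCast]
          norm_num
        rw [e1]
        have h5 : N ≤ Y := by
          rw [hY]
          nlinarith
        calc (2 : ℝ) * N ^ 2 ≤ N * N ^ 2 := mul_le_mul_of_nonneg_right hN2 (by positivity)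
          _ = N ^ 3 := by ring
          _ ≤ Y ^ 3 := pow_le_pow_left₀ hN0.le h5 3
      exact h3.trans h4
  have hg : ∀ v, ‖z ^ (ArithmeticFunction.cardFactors (nm v)) * ψ v‖ ≤ 1 := by
    intro v
    rw [norm_mul, norm_pow, hz, one_pow, one_mul]
    by_cases h : IsCoprime v (K : GaussianInt)
    · rw [hψ.nrm v h]
    · rw [hψ.zer v h, norm_zero]
      exact zero_le_one
  have hmain := tkh_abs S P hS0 (N ^ c) (by linarith) (fun p hp => (hmem p hp).2.2.2.le) U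
    (194 * √(r2 * N)) (194 * (r2 * N)) E (by positivity) (by positivity) hE0
    (fun p hp r hr hpr => sh_off _ _ ha0 hab p r (hPp p hp) (hPp r hr) (hna p hp r hr hpr)
      (hlow _ (hprod p hp r hr)) (hfl _ (hprod p hp r hr) _ hb2))
    (fun p hp => sh_diag _ _ ha0 hab p (hPp p hp)
      (hlow _ ((hmem p hp).2.2.2.le.trans hNc1)) (hfl _ ((hmem p hp).2.2.2.le.trans hNc1) _ hb2))
    (fun j hj k hk hjk p hp r hr => off_freq' S p r (hPp p hp) (hPp r hr)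
      (by
        by_cases h : p = r
        · exact Or.inl h
        · exact Or.inr (prime_cop (hPp p hp) (hPp r hr) (hna p hp r hr h))) (j - k) E
      (hexp j hj k hk hjk))
    (fun v => z ^ (ArithmeticFunction.cardFactors (nm v)) * ψ v) hg
  -- the terms
  have hterm : ∀ j ∈ U, ∀ p ∈ P, (1 / (nm p : ℝ)) *
      ‖Ma z ψ r1 r2 N j - FF z ψ j p * Ma z ψ r1 r2 (N / nm p) j‖ ^ 2 =
      (1 / N ^ 2) * (((nm p : ℕ) : ℝ) * ‖∑ v ∈ S, (dv p v : ℂ) *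
        ((z ^ (ArithmeticFunction.cardFactors (nm v)) * ψ v) * ag v ^ j)‖ ^ 2) := by
    intro j _ p hp
    have hn : (0 : ℝ) < nm p := by exact_mod_cast Tk84.nm_pos.2 (hPp p hp).ne_zero
    rw [ma_id hψ z r1 r2 N hN0 j p (hPp p hp).ne_zero, norm_mul, norm_neg, norm_div,
      Complex.norm_natCast, Complex.norm_real, Real.norm_of_nonneg hN0.le]
    exact num2 _ _ _ hN0 hn
  rw [sum_congr rfl (fun j hj => sum_congr rfl (fun p hp => hterm j hj p hp))]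
  have hpull : ∑ j ∈ U, ∑ p ∈ P, (1 / N ^ 2) * (((nm p : ℕ) : ℝ) * ‖∑ v ∈ S, (dv p v : ℂ) *
        ((z ^ (ArithmeticFunction.cardFactors (nm v)) * ψ v) * ag v ^ j)‖ ^ 2) =
      (1 / N ^ 2) * ∑ j ∈ U, ∑ p ∈ P, (((nm p : ℕ) : ℝ) * ‖∑ v ∈ S, (dv p v : ℂ) *
        ((z ^ (ArithmeticFunction.cardFactors (nm v)) * ψ v) * ag v ^ j)‖ ^ 2) := by
    rw [mul_sum]
    exact sum_congr rfl (fun j _ => (mul_sum _ _ _).symm)
  rw [hpull]
  -- numerical bounds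
  have b1 : (P.card : ℝ) * (194 * √(r2 * N)) ≤ 24 * (194 * √r2) * N := by
    rw [Real.sqrt_mul hr2.le]
    calc (P.card : ℝ) * (194 * (√r2 * √N)) ≤ (24 * √N) * (194 * (√r2 * √N)) :=
          mul_le_mul_of_nonneg_right (hcard.trans (by linarith)) (by positivity)
      _ = 24 * (194 * √r2) * (√N * √N) := by ring
      _ = 24 * (194 * √r2) * N := by rw [hsqN]
  have b2 : (U.card : ℝ) * ((P.card : ℝ) * (4 * N ^ c * E)) ≤
      24 * (4 * (C' * (r2 + 1))) * N := by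
    have e1 : Y ^ (1 - c') ≤ (r2 + 1) * N ^ (1 - c') := by
      rw [hY, Real.mul_rpow (by linarith) hN0.le]
      apply mul_le_mul_of_nonneg_right _ (by positivity)
      calc (r2 + 1) ^ (1 - c') ≤ (r2 + 1) ^ (1 : ℝ) :=
            Real.rpow_le_rpow_of_exponent_le (by linarith) (by linarith)
        _ = r2 + 1 := Real.rpow_one _
    have e2 : E ≤ C' * ((r2 + 1) * N ^ (1 - c')) := mul_le_mul_of_nonneg_left e1 hC'.le
    have e3 : N ^ c * N ^ c * N ^ c * N ^ (1 - c') ≤ N := by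
      rw [← Real.rpow_add hN0, ← Real.rpow_add hN0, ← Real.rpow_add hN0]
      calc N ^ (c + c + c + (1 - c')) ≤ N ^ (1 : ℝ) :=
            Real.rpow_le_rpow_of_exponent_le hN1 (by linarith)
        _ = N := Real.rpow_one _
    have hNc0 : 0 ≤ N ^ c := by linarith
    calc (U.card : ℝ) * ((P.card : ℝ) * (4 * N ^ c * E))
        ≤ N ^ c * ((24 * N ^ c) * (4 * N ^ c * (C' * ((r2 + 1) * N ^ (1 - c'))))) :=
          num1 _ _ _ _ _ (Nat.cast_nonneg _) hU (Nat.cast_nonneg _) hcard hE0 e2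
      _ = 24 * (4 * (C' * (r2 + 1))) * (N ^ c * N ^ c * N ^ c * N ^ (1 - c')) := by ring
      _ ≤ 24 * (4 * (C' * (r2 + 1))) * N :=
          mul_le_mul_of_nonneg_left e3 (by positivity)
  have b3 : 194 * (r2 * N) + (P.card : ℝ) * (194 * √(r2 * N)) +
      (U.card : ℝ) * ((P.card : ℝ) * (4 * N ^ c * E)) ≤
      (194 * r2 + 24 * (194 * √r2) + 24 * (4 * (C' * (r2 + 1)))) * N := by
    linarith
  have b4 : (S.card : ℝ) * (194 * (r2 * N) + (P.card : ℝ) * (194 * √(r2 * N)) +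
      (U.card : ℝ) * ((P.card : ℝ) * (4 * N ^ c * E))) ≤ C * N ^ 2 := by
    calc (S.card : ℝ) * (194 * (r2 * N) + (P.card : ℝ) * (194 * √(r2 * N)) +
        (U.card : ℝ) * ((P.card : ℝ) * (4 * N ^ c * E)))
        ≤ (24 * (r2 * N)) *
          ((194 * r2 + 24 * (194 * √r2) + 24 * (4 * (C' * (r2 + 1)))) * N) :=
          mul_le_mul hScard b3 (by positivity) (by positivity)
      _ = C * N ^ 2 := by rw [hC]; ring
  calc (1 / N ^ 2) * ∑ j ∈ U, ∑ p ∈ P, (((nm p : ℕ) : ℝ) * ‖∑ v ∈ S, (dv p v : ℂ) *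
        ((z ^ (ArithmeticFunction.cardFactors (nm v)) * ψ v) * ag v ^ j)‖ ^ 2)
      ≤ (1 / N ^ 2) * (C * N ^ 2) :=
        mul_le_mul_of_nonneg_left (hmain.trans b4) (by positivity)
    _ = C := num3 C N hN0

end Pool.Agent.Lib.MP_a17b09_nt.MRS
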