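import Pool.Agent.Lib.MP_a17b09_nt.MRS.Stmts3

/-!
MRS, StUall: the mean values on a small set of nonzero frequencies, by comparison of a prime with
its conjugate.
-/

set_option autoImplicit false

open Filter Topology Finset

namespace Pool.Agent.Lib.MP_a17b09_nt.MRS

namespace Uall39

/-- the unit `i` -/
def ii : GaussianInt := ⟨0, 1⟩

theorem toC_ii : GaussianInt.toComplex ii = Complex.I := by
  rw [ii, GaussianInt.toComplex_def']
  simp

theorem nm_ii : nm ii = 1 := by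
  have h := nm_eq ii
  have h1 : (nm ii : ℝ) = ((1 : ℕ) : ℝ) := by
    rw [h]
    simp [ii]
  exact_mod_cast h1

theorem ii_ne : ii ≠ 0 := by
  intro h
  have h1 := nm_ii
  rw [h] at h1
  simp [nm] at h1

theorem ag_ii : ag ii = Complex.I := by
  unfold ag
  rw [toC_ii, Complex.norm_I]
  simp

theorem ag_star (v : GaussianInt) : ag (star v) = (starRingEnd ℂ) (ag v) := by
  unfold ag
  rw [GaussianInt.toComplex_star, Complex.norm_conj, map_div₀, Complex.conj_ofReal]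

/-- `i` times the conjugate -/
def fl (v : GaussianInt) : GaussianInt := ⟨v.im, v.re⟩

theorem fl_eq (v : GaussianInt) : fl v = ii * star v := by
  apply Zsqrtd.ext
  · simp [fl, ii]
  · simp [fl, ii]

theorem fl_fl (v : GaussianInt) : fl (fl v) = v := by
  apply Zsqrtd.ext
  · rfl
  · rfl

theorem nm_fl (v : GaussianInt) : nm (fl v) = nm v := by
  have h : (nm (fl v) : ℝ) = nm v := by
    rw [nm_eq, nm_eq]
    simp only [fl]
    ring
  exact_mod_cast h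

theorem FF_ii (z : ℂ) (ψ : GaussianInt → ℂ) (j : ℤ) : FF z ψ j ii = ψ ⟨0, 1⟩ * Complex.I ^ j := by
  unfold FF
  rw [nm_ii, ag_ii, ArithmeticFunction.cardFactors_one, pow_zero, one_mul]
  rfl

/-- The sum vanishes unless the function is invariant under the units. -/
theorem sum_unit {K : ℕ} {ψ : GaussianInt → ℂ} (hψ : Chr K ψ) (z : ℂ) (j : ℤ)
    (h : ψ ⟨0, 1⟩ * Complex.I ^ j ≠ 1) (a b : ℝ) : ∑ v ∈ Sh a b, FF z ψ j v = 0 := by
  have h1 : ∑ v ∈ Sh a b, FF z ψ j (ii * v) = ∑ v ∈ Sh a b, FF z ψ j v := by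
    have hi4 : ii * (-ii) = 1 := by
      apply Zsqrtd.ext
      · simp [ii]
      · simp [ii]
    have hi5 : (-ii) * ii = 1 := by rw [mul_comm, hi4]
    have hnm : ∀ v, nm (-ii * v) = nm v := by
      intro v
      have e1 : nm (ii * (-ii * v)) = nm (-ii * v) := by rw [nm_mul, nm_ii, one_mul]
      rw [← e1, ← mul_assoc, hi4, one_mul]
    have hnm' : ∀ v, nm (ii * v) = nm v := fun v => by rw [nm_mul, nm_ii, one_mul]
    refine Finset.sum_nbij' (fun v => ii * v) (fun v => -ii * v) ?_ ?_ ?_ ?_ ?_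
    · intro v hv
      rw [mem_Sh] at hv ⊢
      rw [hnm']
      exact ⟨mul_ne_zero ii_ne hv.1, hv.2⟩
    · intro v hv
      rw [mem_Sh] at hv ⊢
      rw [hnm]
      exact ⟨mul_ne_zero (neg_ne_zero.2 ii_ne) hv.1, hv.2⟩
    · intro v _
      show -ii * (ii * v) = v
      rw [← mul_assoc, hi5, one_mul]
    · intro v _
      show ii * (-ii * v) = v
      rw [← mul_assoc, hi4, one_mul]
    · intro v _
      rfl
  have h2 : ∑ v ∈ Sh a b, FF z ψ j (ii * v) = (ψ ⟨0, 1⟩ * Complex.I ^ j) *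
      ∑ v ∈ Sh a b, FF z ψ j v := by
    rw [Finset.mul_sum]
    refine Finset.sum_congr rfl fun v hv => ?_
    rw [FF_mul hψ z j ii_ne (mem_Sh.1 hv).1, FF_ii]
  rw [h2] at h1
  have h3 : (ψ ⟨0, 1⟩ * Complex.I ^ j - 1) * ∑ v ∈ Sh a b, FF z ψ j v = 0 := by
    rw [sub_mul, h1, one_mul, sub_self]
  exact (mul_eq_zero.1 h3).resolve_left (sub_ne_zero.2 h)

theorem mem_sl {a b : ℝ} {v : GaussianInt} : v ∈ sl a b ↔ 0 < v.re ∧ 0 < v.im ∧
    (nm v).Prime ∧ a ≤ nm v ∧ (nm v : ℝ) < b := by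
  unfold sl
  rw [Finset.mem_filter, mem_Sh]
  refine ⟨fun h => h.2, fun h => ⟨⟨?_, ?_, h.2.2.2.2.le⟩, h⟩⟩
  · intro h0
    have := h.1
    rw [h0] at this
    simp at this
  · exact_mod_cast h.2.2.1.pos

theorem fl_mem {a b : ℝ} {v : GaussianInt} (h : v ∈ sl a b) : fl v ∈ sl a b := by
  rw [mem_sl] at h ⊢
  rw [nm_fl]
  exact ⟨h.2.1, h.1, h.2.2⟩

theorem coprime_star {K : ℕ} {v : GaussianInt} (h : IsCoprime v (K : GaussianInt)) :
    IsCoprime (star v) (K : GaussianInt) := by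
  obtain ⟨a, b, hab⟩ := h
  refine ⟨star a, star b, ?_⟩
  have h1 := congrArg star hab
  rw [star_add, star_mul, star_mul, star_one, star_natCast] at h1
  rw [mul_comm (star a), mul_comm (star b)]
  exact h1

/-- `F(π) conj F(i conj π) = Psj π` and the moduli are `1`. -/
theorem FF_fl {K : ℕ} {ψ : GaussianInt → ℂ} (hψ : Chr K ψ) {z : ℂ} (hz : ‖z‖ = 1) (j : ℤ)
    (hu : ψ ⟨0, 1⟩ * Complex.I ^ j = 1) {v : GaussianInt} (hv : v ≠ 0) (hψv : ψ v ≠ 0) :
    ‖FF z ψ j v‖ = 1 ∧ ‖FF z ψ j (fl v)‖ = 1 ∧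
      FF z ψ j v * (starRingEnd ℂ) (FF z ψ j (fl v)) = Psj ψ j v := by
  have hc : IsCoprime v (K : GaussianInt) := by
    by_contra hc
    exact hψv (hψ.zer v hc)
  have hc' := coprime_star hc
  have hsv : star v ≠ 0 := star_ne_zero.2 hv
  have e1 : FF z ψ j (fl v) = z ^ (ArithmeticFunction.cardFactors (nm v)) * ψ (star v) *
      (starRingEnd ℂ) (ag v) ^ j := by
    rw [fl_eq, FF_mul hψ z j ii_ne hsv, FF_ii, hu, one_mul]
    unfold FF
    have e2 : nm (star v) = nm v := by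
      have h1 : nm (ii * star v) = nm (star v) := by rw [nm_mul, nm_ii, one_mul]
      rw [← h1, ← fl_eq, nm_fl]
    rw [e2, ag_star]
  have hzp : ∀ m : ℕ, ‖z ^ m‖ = 1 := fun m => by rw [norm_pow, hz, one_pow]
  have hagv : ‖ag v‖ = 1 := norm_ag hv
  refine ⟨?_, ?_, ?_⟩
  · unfold FF
    rw [norm_mul, norm_mul, hzp, hψ.nrm v hc, norm_zpow, hagv, one_zpow, one_mul, one_mul]
  · rw [e1, norm_mul, norm_mul, hzp, hψ.nrm _ hc', norm_zpow, RCLike.norm_conj, hagv, one_zpow,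
      one_mul, one_mul]
  · rw [e1]
    unfold FF Psj
    rw [map_mul, map_mul, map_zpow₀, Complex.conj_conj]
    have h2 : z ^ (ArithmeticFunction.cardFactors (nm v)) *
        (starRingEnd ℂ) (z ^ (ArithmeticFunction.cardFactors (nm v))) = 1 := by
      rw [Complex.mul_conj, Complex.normSq_eq_norm_sq, hzp]
      simp
    have h3 : ag v ^ (2 * j) = ag v ^ j * ag v ^ j := by
      rw [two_mul, zpow_add₀ (ag_ne hv)]
    rw [h3]
    linear_combination (ψ v * (starRingEnd ℂ) (ψ (star v)) * ag v ^ j * ag v ^ j) * h2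

/-- the comparison for one prime -/
theorem one_prime {M M' F F' P : ℂ} (hF : ‖F‖ = 1) (hF' : ‖F'‖ = 1)
    (hP : F * (starRingEnd ℂ) F' = P) :
    ‖M‖ ^ 2 * ‖1 - P‖ ^ 2 ≤ 2 * ‖M - F * M'‖ ^ 2 + 2 * ‖M - F' * M'‖ ^ 2 := by
  have hFF : F * (starRingEnd ℂ) F = 1 := by
    rw [Complex.mul_conj, Complex.normSq_eq_norm_sq, hF]
    simp
  have hFF' : F' * (starRingEnd ℂ) F' = 1 := by
    rw [Complex.mul_conj, Complex.normSq_eq_norm_sq, hF']
    simp
  have e1 : M * (1 - P) = (M - F * M') - F * (starRingEnd ℂ) F' * (M - F' * M') := by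
    rw [← hP]
    linear_combination (-(F * M')) * hFF'
  have e2 : ‖M * (1 - P)‖ ≤ ‖M - F * M'‖ + ‖M - F' * M'‖ := by
    rw [e1]
    refine (norm_sub_le _ _).trans ?_
    rw [norm_mul, norm_mul, hF, RCLike.norm_conj, hF', one_mul, one_mul]
  rw [← mul_pow, ← norm_mul]
  have e3 := pow_le_pow_left₀ (norm_nonneg _) e2 2
  nlinarith [sq_nonneg (‖M - F * M'‖ - ‖M - F' * M'‖)]

end Uall39

open Uall39 in
theorem stUall_39 (hT : StTkh) (hD : StDj) : StUall := by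
  classical
  intro z K ψ hz hK hψ r1 r2 hr1 hr12
  obtain ⟨c, C, hc0, hc1, hC0, hT1⟩ := hT r1 r2 hr1 hr12
  obtain ⟨N1, hN1, hT2⟩ := hT1 z K ψ hz hK hψ
  refine ⟨c, hc0, fun ε hε => ?_⟩
  obtain ⟨N2, hN2, hD2⟩ := hD K ψ hK hψ c (4 * C / ε) hc0
  refine ⟨max N1 N2, fun N hN U hU h0 hj => ?_⟩
  have hNN1 : N1 ≤ N := (le_max_left _ _).trans hN
  have hNN2 : N2 ≤ N := (le_max_right _ _).trans hN
  have key := hT2 N hNN1 U hU hj
  have hB0 : 0 < 4 * C / ε := by positivity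
  have main : ∀ j ∈ U, (4 * C / ε) * ‖Ma z ψ r1 r2 N j‖ ^ 2 ≤
      4 * ∑ π ∈ sl 3 (N ^ c), (1 / (nm π : ℝ)) *
        ‖Ma z ψ r1 r2 N j - FF z ψ j π * Ma z ψ r1 r2 (N / nm π) j‖ ^ 2 := by
    intro j hjU
    have hnn : ∀ π ∈ sl 3 (N ^ c), 0 ≤ (1 / (nm π : ℝ)) *
        ‖Ma z ψ r1 r2 N j - FF z ψ j π * Ma z ψ r1 r2 (N / nm π) j‖ ^ 2 := fun π _ =>
      mul_nonneg (by positivity) (sq_nonneg _)
    by_cases hu : ψ ⟨0, 1⟩ * Complex.I ^ j = 1
    · have hj0 : j ≠ 0 := fun h => h0 (h ▸ hjU)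
      have hDj := hD2 N hNN2 j hj0 (hj j hjU) hu
      obtain ⟨M, hM⟩ : ∃ M : ℂ, M = Ma z ψ r1 r2 N j := ⟨_, rfl⟩
      obtain ⟨X, hX⟩ : ∃ X : ℝ, X = N ^ c := ⟨_, rfl⟩
      rw [← hM] at hnn ⊢
      rw [← hX] at hnn hDj ⊢
      obtain ⟨e, he⟩ : ∃ e : GaussianInt → ℝ, e = fun π => (1 / (nm π : ℝ)) *
        ‖M - FF z ψ j π * Ma z ψ r1 r2 (N / nm π) j‖ ^ 2 := ⟨_, rfl⟩
      have hed : ∀ π, e π = (1 / (nm π : ℝ)) *
        ‖M - FF z ψ j π * Ma z ψ r1 r2 (N / nm π) j‖ ^ 2 := fun π => by rw [he]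
      have hen : ∀ π, 0 ≤ e π := fun π => by
        rw [hed]
        exact mul_nonneg (by positivity) (sq_nonneg _)
      have s1 : (4 * C / ε) * ‖M‖ ^ 2 ≤ ∑ π ∈ (sl 3 X).filter (fun π => ψ π ≠ 0),
          (2 * e π + 2 * e (fl π)) := by
        calc (4 * C / ε) * ‖M‖ ^ 2
            ≤ (∑ π ∈ (sl 3 X).filter (fun π => ψ π ≠ 0), (1 / (nm π : ℝ)) *
                ‖1 - Psj ψ j π‖ ^ 2) * ‖M‖ ^ 2 := mul_le_mul_of_nonneg_right hDj (sq_nonneg _)
          _ = ∑ π ∈ (sl 3 X).filter (fun π => ψ π ≠ 0), (1 / (nm π : ℝ)) *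
                ‖1 - Psj ψ j π‖ ^ 2 * ‖M‖ ^ 2 := by rw [Finset.sum_mul]
          _ ≤ _ := by
              refine Finset.sum_le_sum fun π hπ => ?_
              rw [Finset.mem_filter] at hπ
              have hπ0 : π ≠ 0 := by
                intro h00
                have := (mem_sl.1 hπ.1).1
                rw [h00] at this
                simp at this
              obtain ⟨g1, g2, g3⟩ := FF_fl hψ hz j hu hπ0 hπ.2
              have g4 := one_prime (M := M) (M' := Ma z ψ r1 r2 (N / nm π) j) g1 g2 g3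
              rw [hed, hed, nm_fl]
              have g5 : (0 : ℝ) ≤ 1 / (nm π : ℝ) := by positivity
              have g6 := mul_le_mul_of_nonneg_left g4 g5
              linarith
      have s2 : ∑ π ∈ (sl 3 X).filter (fun π => ψ π ≠ 0), (2 * e π + 2 * e (fl π)) ≤
          ∑ π ∈ sl 3 X, (2 * e π + 2 * e (fl π)) :=
        Finset.sum_le_sum_of_subset_of_nonneg (Finset.filter_subset _ _) fun π _ _ => by
          have := hen π
          have := hen (fl π)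
          linarith
      have s3 : ∑ π ∈ sl 3 X, e (fl π) = ∑ π ∈ sl 3 X, e π := by
        refine Finset.sum_nbij' fl fl (fun π h => fl_mem h) (fun π h => fl_mem h)
          (fun π _ => fl_fl π) (fun π _ => fl_fl π) (fun π _ => rfl)
      have s4 : ∑ π ∈ sl 3 X, (2 * e π + 2 * e (fl π)) = 4 * ∑ π ∈ sl 3 X, e π := by
        rw [Finset.sum_add_distrib, ← Finset.mul_sum, ← Finset.mul_sum, s3]
        ring
      have s5 : ∑ π ∈ sl 3 X, e π = ∑ π ∈ sl 3 X, (1 / (nm π : ℝ)) *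
          ‖M - FF z ψ j π * Ma z ψ r1 r2 (N / nm π) j‖ ^ 2 :=
        Finset.sum_congr rfl fun π _ => hed π
      rw [← s5, ← s4]
      exact s1.trans s2
    · have hM0 : Ma z ψ r1 r2 N j = 0 := by
        unfold Ma
        rw [sum_unit hψ z j hu, mul_zero]
      have h5 : (4 * C / ε) * ‖Ma z ψ r1 r2 N j‖ ^ 2 = 0 := by
        rw [hM0, norm_zero]
        ring
      rw [h5]
      exact mul_nonneg (by norm_num) (Finset.sum_nonneg hnn)
  have h6 : (4 * C / ε) * ∑ j ∈ U, ‖Ma z ψ r1 r2 N j‖ ^ 2 ≤ 4 * C := by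
    rw [Finset.mul_sum]
    calc ∑ j ∈ U, (4 * C / ε) * ‖Ma z ψ r1 r2 N j‖ ^ 2
        ≤ ∑ j ∈ U, 4 * ∑ π ∈ sl 3 (N ^ c), (1 / (nm π : ℝ)) *
          ‖Ma z ψ r1 r2 N j - FF z ψ j π * Ma z ψ r1 r2 (N / nm π) j‖ ^ 2 :=
          Finset.sum_le_sum main
      _ = 4 * ∑ j ∈ U, ∑ π ∈ sl 3 (N ^ c), (1 / (nm π : ℝ)) *
          ‖Ma z ψ r1 r2 N j - FF z ψ j π * Ma z ψ r1 r2 (N / nm π) j‖ ^ 2 := by
          rw [Finset.mul_sum]
      _ ≤ 4 * C := mul_le_mul_of_nonneg_left key (by norm_num)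
  have h7 : (4 * C / ε) * ∑ j ∈ U, ‖Ma z ψ r1 r2 N j‖ ^ 2 ≤ (4 * C / ε) * ε := by
    refine h6.trans (le_of_eq ?_)
    field_simp
  exact le_of_mul_le_mul_left h7 hB0

end Pool.Agent.Lib.MP_a17b09_nt.MRS
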