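import Pool.Agent.Lib.MP_a17b09_nt.MRS.Stmts3

/-!
MRS (MP_a17b09_nt): from characters modulo `K` to unit classes modulo `K`.
-/

set_option autoImplicit false

open Filter Topology Finset

namespace Pool.Agent.Lib.MP_a17b09_nt.MRS

namespace UnitCl84

variable (K1 : GaussianInt)

/-- the quotient ring -/
abbrev QR : Type := GaussianInt ⧸ Ideal.span ({K1} : Set GaussianInt)

/-- the quotient map -/
noncomputable def qmk : GaussianInt →+* QR K1 := Ideal.Quotient.mk _

theorem qmk_surj : Function.Surjective (qmk K1) := Ideal.Quotient.mk_surjective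

theorem qmk_eq (x y : GaussianInt) : qmk K1 x = qmk K1 y ↔ K1 ∣ x - y := by
  unfold qmk
  rw [Ideal.Quotient.eq, Ideal.mem_span_singleton]

theorem isUnit_iff (x : GaussianInt) : IsUnit (qmk K1 x) ↔ IsCoprime x K1 := by
  constructor
  · intro h
    obtain ⟨y, hy⟩ := h.exists_right_inv
    obtain ⟨w, rfl⟩ := qmk_surj K1 y
    rw [← map_mul, ← map_one (qmk K1), qmk_eq] at hy
    obtain ⟨t, ht⟩ := hy
    exact ⟨w, -t, by linear_combination ht⟩
  · rintro ⟨a, b, hab⟩
    have h3 : qmk K1 x * qmk K1 a = 1 := by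
      rw [← map_mul, ← map_one (qmk K1), qmk_eq]
      refine ⟨-b, ?_⟩
      linear_combination hab
    exact IsUnit.of_mul_eq_one _ h3

theorem finQR (K : ℕ) (hK : 0 < K) (hd : K1 ∣ (K : GaussianInt)) : Finite (QR K1) := by
  have hs : Function.Surjective (fun p : Fin K × Fin K => qmk K1 (⟨(p.1 : ℕ), (p.2 : ℕ)⟩ :
      GaussianInt)) := by
    intro z
    obtain ⟨x, rfl⟩ := qmk_surj K1 z
    have hKz : (0 : ℤ) < K := by exact_mod_cast hK
    have h1 : ∀ t : ℤ, ∃ s : Fin K, ∃ q : ℤ, t = (s : ℕ) + K * q := by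
      intro t
      have h2 := Int.emod_nonneg t hKz.ne'
      have h3 := Int.emod_lt_of_pos t hKz
      refine ⟨⟨(t % K).toNat, by omega⟩, t / K, ?_⟩
      have h4 := Int.emod_add_mul_ediv t K
      simp only
      rw [Int.toNat_of_nonneg h2]
      exact h4.symm
    obtain ⟨s1, q1, e1⟩ := h1 x.re
    obtain ⟨s2, q2, e2⟩ := h1 x.im
    refine ⟨(s1, s2), ?_⟩
    simp only
    rw [qmk_eq]
    refine hd.trans ⟨-(⟨q1, q2⟩ : GaussianInt), ?_⟩
    rw [Zsqrtd.ext_iff]
    simp only [Zsqrtd.re_sub, Zsqrtd.im_sub, Zsqrtd.re_mul, Zsqrtd.im_mul, Zsqrtd.re_neg,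
      Zsqrtd.im_neg, Zsqrtd.re_natCast, Zsqrtd.im_natCast]
    constructor
    · rw [e1]; ring
    · rw [e2]; ring
  exact Finite.of_surjective _ hs

/-- the characters of the unit group, extended by zero -/
noncomputable def psiK (χ : AddChar (Additive (QR K1)ˣ) ℂ) (v : GaussianInt) : ℂ :=
  open Classical in if h : IsUnit (qmk K1 v) then χ (Additive.ofMul h.unit) else 0

theorem psiK_mul (χ : AddChar (Additive (QR K1)ˣ) ℂ) (x y : GaussianInt) :
    psiK K1 χ (x * y) = psiK K1 χ x * psiK K1 χ y := by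
  unfold psiK
  by_cases hx : IsUnit (qmk K1 x)
  · by_cases hy : IsUnit (qmk K1 y)
    · have hxy : IsUnit (qmk K1 (x * y)) := by rw [map_mul]; exact hx.mul hy
      rw [dif_pos hx, dif_pos hy, dif_pos hxy, ← AddChar.map_add_eq_mul, ← ofMul_mul]
      congr 2
      ext
      simp
    · have hxy : ¬ IsUnit (qmk K1 (x * y)) := by
        rw [map_mul, IsUnit.mul_iff]
        exact fun h => hy h.2
      rw [dif_neg hy, dif_neg hxy, mul_zero]
  · have hxy : ¬ IsUnit (qmk K1 (x * y)) := by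
      rw [map_mul, IsUnit.mul_iff]
      exact fun h => hx h.1
    rw [dif_neg hx, dif_neg hxy, zero_mul]

theorem psiK_congr (χ : AddChar (Additive (QR K1)ˣ) ℂ) (x y : GaussianInt)
    (h : qmk K1 x = qmk K1 y) : psiK K1 χ x = psiK K1 χ y := by
  unfold psiK
  by_cases hx : IsUnit (qmk K1 x)
  · have hy : IsUnit (qmk K1 y) := by rw [← h]; exact hx
    rw [dif_pos hx, dif_pos hy]
    congr 2
    ext
    simp [h]
  · have hy : ¬ IsUnit (qmk K1 y) := by rw [← h]; exact hx
    rw [dif_neg hx, dif_neg hy]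

theorem psiK_chr (K : ℕ) (hK : 0 < K) (χ : AddChar (Additive (QR (K : GaussianInt))ˣ) ℂ) :
    Chr K (psiK (K : GaussianInt) χ) := by
  have := finQR (K : GaussianInt) K hK dvd_rfl
  refine ⟨psiK_mul _ χ, fun x y => ?_, fun x hx => ?_, fun x hx => ?_⟩
  · apply psiK_congr
    rw [qmk_eq]
    rw [add_sub_cancel_left]
    exact Dvd.intro _ rfl
  · have hu := (isUnit_iff (K : GaussianInt) x).2 hx
    unfold psiK
    rw [dif_pos hu]
    exact AddChar.norm_apply χ _
  · have hu := mt (isUnit_iff (K : GaussianInt) x).1 hx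
    unfold psiK
    rw [dif_neg hu]

/-- orthogonality -/
theorem ortho (K : ℕ) (hK : 0 < K) :
    ∃ (ι : Type) (_ : Fintype ι) (ψ : ι → GaussianInt → ℂ), 0 < Fintype.card ι ∧
      (∀ i, Chr K (ψ i)) ∧ ∀ a : GaussianInt, IsCoprime a (K : GaussianInt) → ∃ c : ι → ℂ,
        (∀ i, ‖c i‖ ≤ 1) ∧ ∀ v : GaussianInt,
          (open Classical in if (K : GaussianInt) ∣ v - a then (1 : ℂ) else 0) =
          (1 / (Fintype.card ι : ℂ)) * ∑ i, c i * ψ i v := by
  classical
  have := finQR (K : GaussianInt) K hK dvd_rfl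
  have : Fintype (QR (K : GaussianInt)) := Fintype.ofFinite _
  have hcard : Fintype.card (AddChar (Additive (QR (K : GaussianInt))ˣ) ℂ) =
      Fintype.card (Additive (QR (K : GaussianInt))ˣ) := AddChar.card_eq
  have hpos : 0 < Fintype.card (AddChar (Additive (QR (K : GaussianInt))ˣ) ℂ) := by
    rw [hcard]
    exact Fintype.card_pos
  refine ⟨AddChar (Additive (QR (K : GaussianInt))ˣ) ℂ, inferInstance, psiK (K : GaussianInt),
    hpos, psiK_chr K hK, ?_⟩
  intro a ha
  have hu : IsUnit (qmk (K : GaussianInt) a) := (isUnit_iff _ a).2 ha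
  refine ⟨fun χ => χ (-Additive.ofMul hu.unit), fun χ => (AddChar.norm_apply χ _).le, ?_⟩
  intro v
  by_cases hv : IsUnit (qmk (K : GaussianInt) v)
  · have h1 : ∀ χ : AddChar (Additive (QR (K : GaussianInt))ˣ) ℂ,
        χ (-Additive.ofMul hu.unit) * psiK (K : GaussianInt) χ v =
          χ (-Additive.ofMul hu.unit + Additive.ofMul hv.unit) := by
      intro χ
      unfold psiK
      rw [dif_pos hv, AddChar.map_add_eq_mul]
    simp only [h1]
    rw [AddChar.sum_apply_eq_ite]
    have h2 : (-Additive.ofMul hu.unit + Additive.ofMul hv.unit = 0) ↔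
        (K : GaussianInt) ∣ v - a := by
      rw [← qmk_eq, neg_add_eq_zero]
      constructor
      · intro h
        have h3 : hu.unit = hv.unit := h
        have h4 := congrArg (fun t : (QR (K : GaussianInt))ˣ => (t : QR (K : GaussianInt))) h3
        simp only [IsUnit.unit_spec] at h4
        exact h4.symm
      · intro h
        have h3 : hu.unit = hv.unit := by
          ext
          simp [h]
        rw [h3]
    by_cases h : (K : GaussianInt) ∣ v - a
    · rw [if_pos h, if_pos (h2.2 h), hcard]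
      have : (Fintype.card (Additive (QR (K : GaussianInt))ˣ) : ℂ) ≠ 0 := by
        rw [← hcard]
        exact_mod_cast hpos.ne'
      field_simp
    · rw [if_neg h, if_neg (fun h' => h (h2.1 h')), mul_zero]
  · have h : ¬ (K : GaussianInt) ∣ v - a := by
      rw [← qmk_eq]
      intro h
      exact hv (h ▸ hu)
    rw [if_neg h]
    have h1 : ∀ χ : AddChar (Additive (QR (K : GaussianInt))ˣ) ℂ,
        χ (-Additive.ofMul hu.unit) * psiK (K : GaussianInt) χ v = 0 := by
      intro χ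
      unfold psiK
      rw [dif_neg hv, mul_zero]
    simp only [h1]
    simp

end UnitCl84

open Classical in
theorem stUnitCl_84 (h : StCore) : StUnitCl := by
  intro z k K hk hz hz1 hK a ha r1 r2 hr1 hr2 ε hε
  obtain ⟨ι, hι, ψ, hcard, hchr, hort⟩ := UnitCl84.ortho K hK
  obtain ⟨c, hc, hid⟩ := hort a ha
  choose H0 hH0 hH using fun i => h z k K (ψ i) hk hz hz1 hK (hchr i) r1 r2 hr1 hr2 ε hε
  have hne : (Finset.univ : Finset ι).Nonempty := by
    rw [Finset.univ_nonempty_iff, ← Fintype.card_pos_iff]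
    exact hcard
  refine ⟨max 1 (∑ i, H0 i), le_max_left _ _, fun H hHH => ?_⟩
  have hHi : ∀ i, H0 i ≤ H := fun i =>
    (Finset.single_le_sum (f := H0) (fun i _ => zero_le_one.trans (hH0 i))
      (Finset.mem_univ i)).trans ((le_max_right _ _).trans hHH)
  choose N0 hN0 using fun i => hH i H (hHi i)
  refine ⟨∑ i, |N0 i|, fun N hN => ?_⟩
  have hNi : ∀ i, N0 i ≤ N := fun i =>
    (le_abs_self _).trans ((Finset.single_le_sum (f := fun i => |N0 i|)
      (fun i _ => abs_nonneg _) (Finset.mem_univ i)).trans hN)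
  have hm : (0 : ℝ) < Fintype.card ι := by exact_mod_cast hcard
  -- the identity
  have hsum : ∀ j : ℤ, (1 / (N : ℂ)) * ∑ v ∈ (Sh (r1 * N) (r2 * N)).filter (fun v => Pv v ∧
      (K : GaussianInt) ∣ v - a), z ^ (ArithmeticFunction.cardFactors (nm v)) * ag v ^ j =
      (1 / (Fintype.card ι : ℂ)) * ∑ i, c i * Mp z (ψ i) r1 r2 N j := by
    intro j
    have h1 : ∑ v ∈ (Sh (r1 * N) (r2 * N)).filter (fun v => Pv v ∧ (K : GaussianInt) ∣ v - a),
        z ^ (ArithmeticFunction.cardFactors (nm v)) * ag v ^ j =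
        ∑ v ∈ (Sh (r1 * N) (r2 * N)).filter Pv, (if (K : GaussianInt) ∣ v - a then (1 : ℂ) else 0) *
          (z ^ (ArithmeticFunction.cardFactors (nm v)) * ag v ^ j) := by
      rw [← Finset.filter_filter, Finset.sum_filter]
      refine Finset.sum_congr rfl fun v _ => ?_
      split_ifs <;> ring
    rw [h1]
    simp only [hid]
    unfold Mp FF
    simp only [Finset.mul_sum, Finset.sum_mul]
    rw [Finset.sum_comm]
    refine Finset.sum_congr rfl fun i _ => Finset.sum_congr rfl fun v _ => ?_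
    ring
  calc _ = ∑ j ∈ js ⌊N / H⌋₊, ‖(1 / (Fintype.card ι : ℂ)) *
        ∑ i, c i * Mp z (ψ i) r1 r2 N j‖ ^ 2 := by
        refine Finset.sum_congr rfl fun j _ => ?_
        rw [hsum]
    _ ≤ ∑ j ∈ js ⌊N / H⌋₊, (1 / (Fintype.card ι : ℝ)) * ∑ i, ‖Mp z (ψ i) r1 r2 N j‖ ^ 2 := by
        refine Finset.sum_le_sum fun j _ => ?_
        rw [norm_mul, mul_pow]
        have h2 : ‖(1 / (Fintype.card ι : ℂ))‖ = 1 / (Fintype.card ι : ℝ) := by
          rw [norm_div, norm_one, Complex.norm_natCast]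
        rw [h2]
        have h3 : ‖∑ i, c i * Mp z (ψ i) r1 r2 N j‖ ≤ ∑ i, ‖Mp z (ψ i) r1 r2 N j‖ := by
          refine (norm_sum_le _ _).trans (Finset.sum_le_sum fun i _ => ?_)
          rw [norm_mul]
          calc ‖c i‖ * ‖Mp z (ψ i) r1 r2 N j‖ ≤ 1 * ‖Mp z (ψ i) r1 r2 N j‖ := by
                gcongr
                exact hc i
            _ = _ := one_mul _
        have h4 : (∑ i, ‖Mp z (ψ i) r1 r2 N j‖) ^ 2 ≤
            (Fintype.card ι : ℝ) * ∑ i, ‖Mp z (ψ i) r1 r2 N j‖ ^ 2 := by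
          have := sq_sum_le_card_mul_sum_sq (s := (Finset.univ : Finset ι))
            (f := fun i => ‖Mp z (ψ i) r1 r2 N j‖)
          rwa [Finset.card_univ] at this
        calc (1 / (Fintype.card ι : ℝ)) ^ 2 * ‖∑ i, c i * Mp z (ψ i) r1 r2 N j‖ ^ 2
            ≤ (1 / (Fintype.card ι : ℝ)) ^ 2 *
              ((Fintype.card ι : ℝ) * ∑ i, ‖Mp z (ψ i) r1 r2 N j‖ ^ 2) := by
              gcongr
              exact (pow_le_pow_left₀ (norm_nonneg _) h3 2).trans h4
          _ = _ := by field_simp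
    _ = (1 / (Fintype.card ι : ℝ)) * ∑ i, ∑ j ∈ js ⌊N / H⌋₊, ‖Mp z (ψ i) r1 r2 N j‖ ^ 2 := by
        rw [← Finset.mul_sum, Finset.sum_comm]
    _ ≤ (1 / (Fintype.card ι : ℝ)) * ∑ _i : ι, ε := by
        gcongr with i
        exact hN0 i N (hNi i)
    _ = ε := by
        rw [Finset.sum_const, Finset.card_univ, nsmul_eq_mul]
        field_simp

end Pool.Agent.Lib.MP_a17b09_nt.MRS
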