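import Pool.Agent.Lib.MP_a17b09_nt.MRS.Stmts3
import Pool.Agent.Lib.MP_a17b09_nt.MRS.Exc70

/-!
Project MRS, helper70: (UPRIM) from all vectors to primitive vectors on the set `U`.
-/

set_option autoImplicit false

open Filter Topology Finset

namespace Pool.Agent.Lib.MP_a17b09_nt.MRS

namespace Up70

/-! ### elementary facts -/

theorem nm_nat (d : ℕ) : nm (d : GaussianInt) = d ^ 2 := by
  have h := nm_eq (d : GaussianInt)
  simp only [Zsqrtd.re_natCast, Zsqrtd.im_natCast, Int.cast_natCast, Int.cast_zero] at h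
  have h2 : (nm (d : GaussianInt) : ℝ) = ((d ^ 2 : ℕ) : ℝ) := by
    rw [h]
    push_cast
    ring
  exact_mod_cast h2

theorem chr_le {K : ℕ} {ψ : GaussianInt → ℂ} (hψ : Chr K ψ) (v : GaussianInt) : ‖ψ v‖ ≤ 1 := by
  by_cases h : IsCoprime v (K : GaussianInt)
  · rw [hψ.nrm v h]
  · rw [hψ.zer v h, norm_zero]
    exact zero_le_one

theorem FF_le {K : ℕ} {ψ : GaussianInt → ℂ} (hψ : Chr K ψ) {z : ℂ} (hz : ‖z‖ = 1) (j : ℤ)
    {v : GaussianInt} (hv : v ≠ 0) : ‖FF z ψ j v‖ ≤ 1 := by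
  unfold FF
  rw [norm_mul, norm_mul, norm_pow, hz, one_pow, one_mul, norm_zpow, norm_ag hv, one_zpow, mul_one]
  exact chr_le hψ v

theorem natCast_ne {d : ℕ} (hd : 0 < d) : (d : GaussianInt) ≠ 0 := by
  intro h
  have h1 := nm_nat d
  rw [h, nm_eq_zero.2 rfl] at h1
  have : 0 < d ^ 2 := by positivity
  omega

theorem natCast_dvd {d : ℕ} {v : GaussianInt} : (d : GaussianInt) ∣ v ↔ d ∣ Int.gcd v.re v.im := by
  have h1 : ((d : ℤ) : GaussianInt) ∣ v ↔ (d : ℤ) ∣ v.re ∧ (d : ℤ) ∣ v.im :=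
    Zsqrtd.intCast_dvd _ _
  rw [show ((d : ℤ) : GaussianInt) = (d : GaussianInt) by push_cast; rfl] at h1
  rw [h1]
  constructor
  · rintro ⟨h2, h3⟩
    have := Int.dvd_coe_gcd h2 h3
    exact_mod_cast this
  · intro h
    have h4 : (d : ℤ) ∣ (Int.gcd v.re v.im : ℤ) := by exact_mod_cast h
    exact ⟨h4.trans (Int.gcd_dvd_left _ _), h4.trans (Int.gcd_dvd_right _ _)⟩

/-- the shell and multiples of `d` -/
theorem sum_mult (a b : ℝ) {d : ℕ} (hd : 0 < d) (G : GaussianInt → ℂ) :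
    ∑ v ∈ (Sh a b).filter (fun v => d ∣ Int.gcd v.re v.im), G v =
      ∑ w ∈ Sh (a / (d : ℝ) ^ 2) (b / (d : ℝ) ^ 2), G ((d : GaussianInt) * w) := by
  have hd0 : (0 : ℝ) < (d : ℝ) ^ 2 := by positivity
  have hdn := natCast_ne hd
  have key : ∀ w : GaussianInt, (nm ((d : GaussianInt) * w) : ℝ) = (d : ℝ) ^ 2 * nm w := by
    intro w
    rw [nm_mul, nm_nat]
    push_cast
    ring
  symm
  refine Finset.sum_nbij (fun w => (d : GaussianInt) * w) ?_ ?_ ?_ ?_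
  · intro w hw
    rw [mem_Sh] at hw
    rw [Finset.mem_filter, mem_Sh, key]
    refine ⟨⟨mul_ne_zero hdn hw.1, ?_, ?_⟩, natCast_dvd.1 (dvd_mul_right _ _)⟩
    · rw [← div_lt_iff₀' hd0]
      exact hw.2.1
    · rw [← le_div_iff₀' hd0]
      exact hw.2.2
  · intro w _ w' _ h
    exact mul_left_cancel₀ hdn h
  · intro v hv
    rw [Finset.mem_coe, Finset.mem_filter, mem_Sh] at hv
    obtain ⟨⟨h1, h2, h3⟩, h4⟩ := hv
    obtain ⟨w, hw⟩ := natCast_dvd.2 h4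
    refine ⟨w, ?_, hw.symm⟩
    rw [Finset.mem_coe, mem_Sh]
    rw [hw, key] at h2 h3
    refine ⟨?_, ?_, ?_⟩
    · rintro rfl
      rw [mul_zero] at hw
      exact h1 hw
    · rw [div_lt_iff₀' hd0]
      exact h2
    · rw [le_div_iff₀' hd0]
      exact h3
  · intro w _
    rfl

/-- Moebius inversion -/
theorem mp_eq {K : ℕ} {ψ : GaussianInt → ℂ} (hψ : Chr K ψ) (z : ℂ) (r1 r2 N : ℝ) (j : ℤ)
    (hN : 0 < N) (D : ℕ) (hD : r2 * N ≤ D) :
    Mp z ψ r1 r2 N j = ∑ d ∈ Finset.Icc 1 D, (ArithmeticFunction.moebius d : ℂ) *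
      FF z ψ j (d : GaussianInt) * (1 / (d : ℂ) ^ 2) * Ma z ψ r1 r2 (N / (d : ℝ) ^ 2) j := by
  have e1 : ∀ v ∈ Sh (r1 * N) (r2 * N), (if Pv v then FF z ψ j v else 0) =
      ∑ d ∈ Finset.Icc 1 D, if d ∣ Int.gcd v.re v.im then
        (ArithmeticFunction.moebius d : ℂ) * FF z ψ j v else 0 := by
    intro v hv
    rw [mem_Sh] at hv
    set g := Int.gcd v.re v.im with hg
    have hg0 : 0 < g := by
      rw [hg, Int.gcd_pos_iff]
      by_contra h
      push Not at h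
      exact hv.1 (Zsqrtd.ext h.1 h.2)
    have hgD : g ≤ D := by
      have h1 : (g : ℕ) ∣ g := dvd_rfl
      obtain ⟨w, hw⟩ := natCast_dvd.2 h1
      have h2 : nm v = g ^ 2 * nm w := by
        conv_lhs => rw [hw]
        rw [nm_mul, nm_nat]
      have h3 : 0 < nm w := by
        rcases Nat.eq_zero_or_pos (nm w) with h | h
        · rw [h, mul_zero] at h2
          exact absurd (nm_eq_zero.1 h2) hv.1
        · exact h
      have h4 : g ≤ nm v := by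
        rw [h2]
        nlinarith
      have h5 : (nm v : ℝ) ≤ D := hv.2.2.trans hD
      have h6 : nm v ≤ D := by exact_mod_cast h5
      exact h4.trans h6
    have h7 : (Finset.Icc 1 D).filter (fun d => d ∣ g) = g.divisors := by
      ext d
      rw [Finset.mem_filter, Finset.mem_Icc, Nat.mem_divisors]
      constructor
      · rintro ⟨_, h⟩
        exact ⟨h, hg0.ne'⟩
      · rintro ⟨h, _⟩
        exact ⟨⟨Nat.pos_of_dvd_of_pos h hg0, (Nat.le_of_dvd hg0 h).trans hgD⟩, h⟩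
    rw [← Finset.sum_filter, h7, ← Finset.sum_mul]
    have h8 : ∑ d ∈ g.divisors, (ArithmeticFunction.moebius d : ℂ) = if g = 1 then 1 else 0 := by
      have h9 := congrArg (fun f : ArithmeticFunction ℤ => f g)
        (ArithmeticFunction.moebius_mul_coe_zeta)
      simp only [ArithmeticFunction.coe_mul_zeta_apply, ArithmeticFunction.one_apply] at h9
      have h10 : ((∑ d ∈ g.divisors, ArithmeticFunction.moebius d : ℤ) : ℂ) =
          ((if g = 1 then 1 else 0 : ℤ) : ℂ) := by rw [h9]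
      push_cast at h10
      exact h10
    rw [h8]
    have h11 : Pv v ↔ g = 1 := Iff.rfl
    simp only [h11]
    split_ifs
    · rw [one_mul]
    · rw [zero_mul]
  unfold Mp
  rw [Finset.sum_filter, Finset.sum_congr rfl e1, Finset.sum_comm, Finset.mul_sum]
  refine Finset.sum_congr rfl fun d hd => ?_
  have hd1 : 0 < d := (Finset.mem_Icc.1 hd).1
  have hd0 : (d : ℂ) ≠ 0 := by exact_mod_cast hd1.ne'
  have hN0 : (N : ℂ) ≠ 0 := by exact_mod_cast hN.ne'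
  rw [← Finset.sum_filter, sum_mult _ _ hd1]
  unfold Ma
  rw [mul_div_assoc, mul_div_assoc]
  have e2 : ∀ w ∈ Sh (r1 * (N / (d : ℝ) ^ 2)) (r2 * (N / (d : ℝ) ^ 2)),
      (ArithmeticFunction.moebius d : ℂ) * FF z ψ j ((d : GaussianInt) * w) =
      (ArithmeticFunction.moebius d : ℂ) * FF z ψ j (d : GaussianInt) * FF z ψ j w := by
    intro w hw
    rw [FF_mul hψ z j (natCast_ne hd1) (mem_Sh.1 hw).1, mul_assoc]
  rw [Finset.sum_congr rfl e2, ← Finset.mul_sum]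
  push_cast
  field_simp

/-- the norm of the sum over primitive vectors -/
theorem mp_le {K : ℕ} {ψ : GaussianInt → ℂ} (hψ : Chr K ψ) {z : ℂ} (hz : ‖z‖ = 1) (r1 r2 N : ℝ)
    (j : ℤ) (hN : 0 < N) (D : ℕ) (hD : r2 * N ≤ D) :
    ‖Mp z ψ r1 r2 N j‖ ≤ ∑ d ∈ Finset.Icc 1 D, (1 / (d : ℝ) ^ 2) *
      ‖Ma z ψ r1 r2 (N / (d : ℝ) ^ 2) j‖ := by
  rw [mp_eq hψ z r1 r2 N j hN D hD]
  refine (norm_sum_le _ _).trans (Finset.sum_le_sum fun d hd => ?_)
  have hd1 : 0 < d := (Finset.mem_Icc.1 hd).1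
  rw [norm_mul, norm_mul, norm_mul]
  have h1 : ‖(ArithmeticFunction.moebius d : ℂ)‖ ≤ 1 := by
    rcases ArithmeticFunction.moebius_eq_or d with h | h | h
    · rw [h]; simp
    · rw [h]; simp
    · rw [h]; simp
  have h2 := FF_le hψ hz j (natCast_ne hd1)
  have h3 : ‖(1 / (d : ℂ) ^ 2)‖ = 1 / (d : ℝ) ^ 2 := by
    rw [norm_div, norm_one, norm_pow, Complex.norm_natCast]
  rw [h3]
  refine mul_le_mul_of_nonneg_right ?_ (norm_nonneg _)
  refine mul_le_of_le_one_left (by positivity) ?_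
  exact mul_le_one₀ h1 (norm_nonneg _) h2

/-- number of vectors of norm at most `b` -/
theorem card_Sh {a b : ℝ} (hb : 0 ≤ b) : ((Sh a b).card : ℝ) ≤ 9 * b := by
  rcases lt_or_ge b 1 with h | h
  · have h1 : Sh a b = ∅ := by
      rw [Finset.eq_empty_iff_forall_notMem]
      intro v hv
      rw [mem_Sh] at hv
      have h2 : 1 ≤ nm v := Nat.one_le_iff_ne_zero.2 (mt nm_eq_zero.1 hv.1)
      have h3 : (1 : ℝ) ≤ nm v := by exact_mod_cast h2
      linarith [hv.2.2]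
    rw [h1, Finset.card_empty]
    push_cast
    positivity
  · set m := ⌊√b⌋₊ with hm
    have hmle : (m : ℝ) ≤ √b := Nat.floor_le (Real.sqrt_nonneg _)
    have h1 : (Sh a b).card ≤ (Finset.Icc (-(m : ℤ)) m ×ˢ Finset.Icc (-(m : ℤ)) m).card := by
      refine Finset.card_le_card_of_injOn (fun v => (v.re, v.im)) ?_ ?_
      · intro v hv
        rw [Finset.mem_coe, mem_Sh] at hv
        have key : ∀ t : ℤ, (t : ℝ) ^ 2 ≤ b → t ∈ Finset.Icc (-(m : ℤ)) m := by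
          intro t ht
          have h2 : ((t.natAbs : ℕ) : ℝ) ≤ √b := by
            apply Real.le_sqrt_of_sq_le
            rw [Nat.cast_natAbs, Int.cast_abs, sq_abs]
            exact ht
          have h3 : t.natAbs ≤ m := Nat.le_floor h2
          rw [Finset.mem_Icc]
          omega
        have h4 := nm_eq v
        rw [Finset.mem_coe, Finset.mem_product]
        constructor
        · exact key v.re (by nlinarith [sq_nonneg (v.im : ℝ), hv.2.2])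
        · exact key v.im (by nlinarith [sq_nonneg (v.re : ℝ), hv.2.2])
      · intro v _ w _ hvw
        simp only [Prod.mk.injEq] at hvw
        exact Zsqrtd.ext hvw.1 hvw.2
    rw [Finset.card_product, Int.card_Icc] at h1
    have h2 : ((m : ℤ) + 1 - -(m : ℤ)).toNat = 2 * m + 1 := by omega
    rw [h2] at h1
    have h3 : ((Sh a b).card : ℝ) ≤ (2 * m + 1) * (2 * m + 1) := by exact_mod_cast h1
    have h4 : (1 : ℝ) ≤ √b := by rw [Real.one_le_sqrt]; exact h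
    have h5 : √b * √b = b := Real.mul_self_sqrt hb
    have h6 : (2 * (m : ℝ) + 1) ≤ 3 * √b := by linarith
    have h7 : (0 : ℝ) ≤ 2 * m + 1 := by positivity
    calc ((Sh a b).card : ℝ) ≤ (2 * m + 1) * (2 * m + 1) := h3
      _ ≤ (3 * √b) * (3 * √b) := mul_le_mul h6 h6 h7 (by positivity)
      _ = 9 * b := by rw [mul_mul_mul_comm, h5]; norm_num

theorem ma_le {K : ℕ} {ψ : GaussianInt → ℂ} (hψ : Chr K ψ) {z : ℂ} (hz : ‖z‖ = 1) (r1 r2 N : ℝ)
    (j : ℤ) (hN : 0 < N) (hr : 0 ≤ r2) : ‖Ma z ψ r1 r2 N j‖ ≤ 9 * r2 := by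
  unfold Ma
  rw [norm_mul, norm_div, norm_one, Complex.norm_real, Real.norm_eq_abs, abs_of_pos hN]
  have h1 : ‖∑ v ∈ Sh (r1 * N) (r2 * N), FF z ψ j v‖ ≤ 9 * (r2 * N) := by
    refine (norm_sum_le _ _).trans ?_
    refine (Finset.sum_le_sum fun v hv => FF_le hψ hz j (mem_Sh.1 hv).1).trans ?_
    rw [Finset.sum_const, nsmul_eq_mul, mul_one]
    exact card_Sh (by positivity)
  calc 1 / N * ‖∑ v ∈ Sh (r1 * N) (r2 * N), FF z ψ j v‖ ≤ 1 / N * (9 * (r2 * N)) :=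
        mul_le_mul_of_nonneg_left h1 (by positivity)
    _ = 9 * r2 := by field_simp

theorem tail (m D : ℕ) (hm : 0 < m) :
    ∑ d ∈ Finset.Icc 1 D, (if m < d then (1 : ℝ) / (d : ℝ) ^ 2 else 0) ≤ (1 : ℝ) / m := by
  rw [← Finset.sum_filter]
  have h1 : (Finset.Icc 1 D).filter (fun d => m < d) ⊆ Finset.Ioc m (max m D) := by
    intro d hd
    rw [Finset.mem_filter, Finset.mem_Icc] at hd
    rw [Finset.mem_Ioc]
    exact ⟨hd.2, hd.1.2.trans (le_max_right _ _)⟩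
  have h2 := sum_Ioc_inv_sq_le_sub (α := ℝ) hm.ne' (le_max_left m D)
  calc ∑ d ∈ (Finset.Icc 1 D).filter (fun d => m < d), 1 / (d : ℝ) ^ 2 ≤
        ∑ d ∈ Finset.Ioc m (max m D), 1 / (d : ℝ) ^ 2 :=
        Finset.sum_le_sum_of_subset_of_nonneg h1 fun _ _ _ => by positivity
    _ = ∑ d ∈ Finset.Ioc m (max m D), ((d : ℝ) ^ 2)⁻¹ := by simp only [one_div]
    _ ≤ (m : ℝ)⁻¹ - ((max m D : ℕ) : ℝ)⁻¹ := h2
    _ ≤ 1 / m := by
        rw [one_div]
        have : (0 : ℝ) ≤ ((max m D : ℕ) : ℝ)⁻¹ := by positivity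
        linarith

theorem total (D : ℕ) : ∑ d ∈ Finset.Icc 1 D, (1 : ℝ) / (d : ℝ) ^ 2 ≤ 2 := by
  have h1 := tail 1 D one_pos
  have h2 : ∑ d ∈ Finset.Icc 1 D, 1 / (d : ℝ) ^ 2 ≤
      ∑ d ∈ Finset.Icc 1 D, ((if 1 < d then (1 : ℝ) / (d : ℝ) ^ 2 else 0) +
        if d = 1 then (1 : ℝ) else 0) := by
    refine Finset.sum_le_sum fun d hd => ?_
    have := (Finset.mem_Icc.1 hd).1
    rcases Nat.lt_or_ge 1 d with h | h
    · rw [if_pos h, if_neg (by omega)]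
      linarith
    · have h3 : d = 1 := by omega
      rw [h3]
      norm_num
  rw [Finset.sum_add_distrib] at h2
  have h3 : ∑ d ∈ Finset.Icc 1 D, (if d = 1 then (1 : ℝ) else 0) ≤ 1 := by
    rw [Finset.sum_ite_eq']
    split_ifs
    · exact le_rfl
    · exact zero_le_one
  have h4 : (1 : ℝ) / ((1 : ℕ) : ℝ) = 1 := by norm_num
  rw [h4] at h1
  linarith

end Up70

open Up70 in
theorem stUp_70 (hU : StUall) (hH : StHmu) : StUp := by
  intro z K ψ hz hK hψ r1 r2 hr1 hr2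
  have hr20 : 0 < r2 := lt_of_le_of_lt hr1 hr2
  obtain ⟨cu, hcu, hUa⟩ := hU z K ψ hz hK hψ r1 r2 hr1 hr2
  obtain ⟨ch, C, hch, hC, N1, hN1, hHm⟩ := hH r1 r2 hr1 hr2
  refine ⟨min (min (cu / 2) (ch / 2)) (1 / 8), by positivity, fun ε hε => ?_⟩
  set c := min (min (cu / 2) (ch / 2)) (1 / 8 : ℝ) with hc
  have hc1 : c ≤ cu / 2 := (min_le_left _ _).trans (min_le_left _ _)
  have hc2 : c ≤ ch / 2 := (min_le_left _ _).trans (min_le_right _ _)
  have hc3 : c ≤ 1 / 8 := min_le_right _ _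
  obtain ⟨N2, hN2⟩ := hUa (ε / 16) (by positivity)
  obtain ⟨D0, hD0⟩ := exists_nat_gt (16 * C / ε)
  have hD00 : (0 : ℝ) < D0 := lt_trans (by positivity) hD0
  have hD0n : 0 < D0 := by exact_mod_cast hD00
  have hCD : C / D0 ≤ ε / 16 := by
    rw [div_lt_iff₀ hε] at hD0
    rw [div_le_iff₀ hD00]
    linarith
  have hev : ∀ᶠ N : ℝ in atTop, max N1 N2 ≤ N ^ (1 / 2 : ℝ) ∧ (D0 : ℝ) ≤ N ^ (1 / 4 : ℝ) ∧
      1 ≤ N ∧ 2 * (81 * r2 ^ 2) * 16 / ε ≤ N ^ (1 / 8 : ℝ) := by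
    have t1 := (tendsto_rpow_atTop (show (0 : ℝ) < 1 / 2 by norm_num)).eventually_ge_atTop
      (max N1 N2)
    have t2 := (tendsto_rpow_atTop (show (0 : ℝ) < 1 / 4 by norm_num)).eventually_ge_atTop
      (D0 : ℝ)
    have t3 := (tendsto_rpow_atTop (show (0 : ℝ) < 1 / 8 by norm_num)).eventually_ge_atTop
      (2 * (81 * r2 ^ 2) * 16 / ε)
    filter_upwards [t1, t2, t3, eventually_ge_atTop (1 : ℝ)] with N a1 a2 a3 a4
    exact ⟨a1, a2, a4, a3⟩
  obtain ⟨N0, hN0⟩ := eventually_atTop.1 hev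
  refine ⟨N0, fun N hN U hUc h0 hUj => ?_⟩
  obtain ⟨g1, g2, g3, g4⟩ := hN0 N hN
  have hNp : 0 < N := by linarith
  set E := ⌊N ^ (1 / 4 : ℝ)⌋₊ with hE
  have hE1 : (E : ℝ) ≤ N ^ (1 / 4 : ℝ) := Nat.floor_le (by positivity)
  have h14 : 1 ≤ N ^ (1 / 4 : ℝ) := Real.one_le_rpow g3 (by norm_num)
  have hE2 : N ^ (1 / 4 : ℝ) / 2 ≤ E := by
    have h1 : N ^ (1 / 4 : ℝ) < E + 1 := Nat.lt_floor_add_one _
    have h2 : (1 : ℝ) ≤ E := by
      have : 1 ≤ E := Nat.le_floor (by exact_mod_cast h14)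
      exact_mod_cast this
    linarith
  have hE0 : (0 : ℝ) < E := lt_of_lt_of_le (by positivity) hE2
  have hEn : 0 < E := by exact_mod_cast hE0
  -- small `d`
  have hsq : N ^ (1 / 4 : ℝ) * N ^ (1 / 4 : ℝ) = N ^ (1 / 2 : ℝ) := by
    rw [← Real.rpow_add hNp]
    norm_num
  have hsq2 : N ^ (1 / 2 : ℝ) * N ^ (1 / 2 : ℝ) = N := by
    rw [← Real.rpow_add hNp]
    norm_num
  have hsmall : ∀ d : ℕ, 1 ≤ d → d ≤ E → N ^ (1 / 2 : ℝ) ≤ N / (d : ℝ) ^ 2 := by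
    intro d hd1 hd2
    have hd0 : (0 : ℝ) < d := by exact_mod_cast hd1
    have h1 : (d : ℝ) ≤ N ^ (1 / 4 : ℝ) := le_trans (by exact_mod_cast hd2) hE1
    rw [le_div_iff₀ (by positivity)]
    calc N ^ (1 / 2 : ℝ) * (d : ℝ) ^ 2 ≤ N ^ (1 / 2 : ℝ) * N ^ (1 / 2 : ℝ) := by
          refine mul_le_mul_of_nonneg_left ?_ (by positivity)
          rw [sq, ← hsq]
          exact mul_le_mul h1 h1 hd0.le (by positivity)
      _ = N := hsq2
  have h12 : 1 ≤ N ^ (1 / 2 : ℝ) := Real.one_le_rpow g3 (by norm_num)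
  have hpow : ∀ x : ℝ, N ^ (1 / 2 : ℝ) ≤ x → ∀ e : ℝ, 0 < e → c ≤ e / 2 →
      (U.card : ℝ) ≤ x ^ e := by
    intro x hx e he hce
    calc (U.card : ℝ) ≤ N ^ c := hUc
      _ ≤ N ^ (e / 2) := Real.rpow_le_rpow_of_exponent_le g3 hce
      _ = (N ^ (1 / 2 : ℝ)) ^ e := by
          rw [← Real.rpow_mul hNp.le]
          congr 1
          ring
      _ ≤ x ^ e := Real.rpow_le_rpow (by positivity) hx he.le
  set S : ℕ → ℝ := fun d => ∑ j ∈ U, ‖Ma z ψ r1 r2 (N / (d : ℝ) ^ 2) j‖ ^ 2 with hS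
  have hS0 : ∀ d, 0 ≤ S d := fun d => Finset.sum_nonneg fun _ _ => by positivity
  -- the three ranges
  have hS1 : ∀ d : ℕ, 1 ≤ d → d ≤ D0 → S d ≤ ε / 16 := by
    intro d hd1 hd2
    have hdE : d ≤ E := hd2.trans (Nat.le_floor g2)
    have h1 := hsmall d hd1 hdE
    refine hN2 _ (((le_max_right _ _).trans g1).trans h1) U (hpow _ h1 cu hcu hc1) h0 ?_
    intro j hj
    refine (hUj j hj).trans ?_
    calc N = N ^ (1 / 2 : ℝ) * N ^ (1 / 2 : ℝ) := hsq2.symm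
      _ ≤ (N / (d : ℝ) ^ 2) * (N / (d : ℝ) ^ 2) := mul_le_mul h1 h1 (by positivity)
          (by positivity)
      _ = (N / (d : ℝ) ^ 2) ^ 2 := by ring
  have hS2 : ∀ d : ℕ, 1 ≤ d → d ≤ E → S d ≤ C := by
    intro d hd1 hdE
    have h1 := hsmall d hd1 hdE
    have h2 : 1 ≤ N / (d : ℝ) ^ 2 := h12.trans h1
    have h3 := hHm _ (((le_max_left _ _).trans g1).trans h1) U (hpow _ h1 ch hch hc2)
      (fun j hj => by
        refine (hUj j hj).trans ?_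
        calc N = N ^ (1 / 2 : ℝ) * N ^ (1 / 2 : ℝ) := hsq2.symm
          _ ≤ (N / (d : ℝ) ^ 2) * (N / (d : ℝ) ^ 2) := mul_le_mul h1 h1 (by positivity)
              (by positivity)
          _ = (N / (d : ℝ) ^ 2) ^ 2 := by ring
          _ ≤ (N / (d : ℝ) ^ 2) ^ 4 := pow_le_pow_right₀ h2 (by norm_num))
      (fun v => z ^ (ArithmeticFunction.cardFactors (nm v)) * ψ v)
      (fun v => by
        rw [norm_mul, norm_pow, hz, one_pow, one_mul]
        exact chr_le hψ v)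
    refine le_trans (le_of_eq ?_) h3
    rw [hS]
    rfl
  have hS3 : ∀ d : ℕ, 1 ≤ d → S d ≤ N ^ (1 / 8 : ℝ) * (81 * r2 ^ 2) := by
    intro d hd1
    have hd0 : (0 : ℝ) < d := by exact_mod_cast hd1
    calc S d ≤ ∑ j ∈ U, (9 * r2) ^ 2 := Finset.sum_le_sum fun j _ =>
          pow_le_pow_left₀ (norm_nonneg _) (ma_le hψ hz r1 r2 _ j (by positivity) hr20.le) 2
      _ = (U.card : ℝ) * (81 * r2 ^ 2) := by
          rw [Finset.sum_const, nsmul_eq_mul]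
          ring
      _ ≤ N ^ (1 / 8 : ℝ) * (81 * r2 ^ 2) := by
          refine mul_le_mul_of_nonneg_right ?_ (by positivity)
          exact hUc.trans (Real.rpow_le_rpow_of_exponent_le g3 hc3)
  -- the sum
  set D := ⌈r2 * N⌉₊ with hDd
  have hDle : r2 * N ≤ D := Nat.le_ceil _
  have hterm : ∀ d ∈ Finset.Icc 1 D, (1 / (d : ℝ) ^ 2) * S d ≤ (1 / (d : ℝ) ^ 2) * (ε / 16) +
      (if D0 < d then 1 / (d : ℝ) ^ 2 else 0) * C +
      (if E < d then 1 / (d : ℝ) ^ 2 else 0) * (N ^ (1 / 8 : ℝ) * (81 * r2 ^ 2)) := by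
    intro d hd
    have hd1 := (Finset.mem_Icc.1 hd).1
    have hd0 : (0 : ℝ) < d := by exact_mod_cast hd1
    have p1 : 0 ≤ (1 / (d : ℝ) ^ 2) * (ε / 16) := by positivity
    have p2 : 0 ≤ (if D0 < d then 1 / (d : ℝ) ^ 2 else 0) * C := by
      split_ifs
      · positivity
      · rw [zero_mul]
    have p3 : 0 ≤ (if E < d then 1 / (d : ℝ) ^ 2 else 0) * (N ^ (1 / 8 : ℝ) * (81 * r2 ^ 2)) := by
      split_ifs
      · positivity
      · rw [zero_mul]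
    rcases Nat.lt_or_ge D0 d with h1 | h1
    · rcases Nat.lt_or_ge E d with h2 | h2
      · rw [if_pos h2] at p3 ⊢
        have := mul_le_mul_of_nonneg_left (hS3 d hd1) (show 0 ≤ 1 / (d : ℝ) ^ 2 by positivity)
        linarith
      · rw [if_pos h1] at p2 ⊢
        have := mul_le_mul_of_nonneg_left (hS2 d hd1 h2) (show 0 ≤ 1 / (d : ℝ) ^ 2 by positivity)
        linarith
    · have := mul_le_mul_of_nonneg_left (hS1 d hd1 h1) (show 0 ≤ 1 / (d : ℝ) ^ 2 by positivity)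
      linarith
  have hsum : ∑ d ∈ Finset.Icc 1 D, (1 / (d : ℝ) ^ 2) * S d ≤ ε / 2 := by
    refine (Finset.sum_le_sum hterm).trans ?_
    rw [Finset.sum_add_distrib, Finset.sum_add_distrib, ← Finset.sum_mul, ← Finset.sum_mul,
      ← Finset.sum_mul]
    have q1 := mul_le_mul_of_nonneg_right (total D) (show 0 ≤ ε / 16 by positivity)
    have q2 : (∑ d ∈ Finset.Icc 1 D, if D0 < d then 1 / (d : ℝ) ^ 2 else 0) * C ≤ ε / 16 := by
      have := mul_le_mul_of_nonneg_right (tail D0 D hD0n) hC.le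
      refine this.trans (le_trans (le_of_eq ?_) hCD)
      ring
    have q3 : (∑ d ∈ Finset.Icc 1 D, if E < d then 1 / (d : ℝ) ^ 2 else 0) *
        (N ^ (1 / 8 : ℝ) * (81 * r2 ^ 2)) ≤ ε / 16 := by
      have := mul_le_mul_of_nonneg_right (tail E D hEn)
        (show 0 ≤ N ^ (1 / 8 : ℝ) * (81 * r2 ^ 2) by positivity)
      refine this.trans ?_
      have h1 : (1 : ℝ) / E ≤ 2 / N ^ (1 / 4 : ℝ) := by
        rw [div_le_div_iff₀ hE0 (by positivity)]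
        linarith
      have h2 : N ^ (1 / 8 : ℝ) * N ^ (1 / 8 : ℝ) = N ^ (1 / 4 : ℝ) := by
        rw [← Real.rpow_add hNp]
        norm_num
      have h3 : (0 : ℝ) < N ^ (1 / 8 : ℝ) := by positivity
      calc 1 / (E : ℝ) * (N ^ (1 / 8 : ℝ) * (81 * r2 ^ 2)) ≤
            2 / N ^ (1 / 4 : ℝ) * (N ^ (1 / 8 : ℝ) * (81 * r2 ^ 2)) :=
            mul_le_mul_of_nonneg_right h1 (by positivity)
        _ = 2 * (81 * r2 ^ 2) / N ^ (1 / 8 : ℝ) := by
            rw [← h2]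
            field_simp
        _ ≤ ε / 16 := by
            rw [div_le_div_iff₀ h3 (by norm_num)]
            rw [div_le_iff₀ hε] at g4
            linarith
    linarith
  -- Cauchy-Schwarz
  have hj : ∀ j ∈ U, ‖Mp z ψ r1 r2 N j‖ ^ 2 ≤ 2 * ∑ d ∈ Finset.Icc 1 D, (1 / (d : ℝ) ^ 2) *
      ‖Ma z ψ r1 r2 (N / (d : ℝ) ^ 2) j‖ ^ 2 := by
    intro j _
    have h1 := mp_le hψ hz r1 r2 N j hNp D hDle
    have h2 := Exc70.cs (Finset.Icc 1 D) (fun d : ℕ => 1 / (d : ℝ) ^ 2)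
      (fun d : ℕ => ‖Ma z ψ r1 r2 (N / (d : ℝ) ^ 2) j‖) (fun d _ => by positivity)
    calc ‖Mp z ψ r1 r2 N j‖ ^ 2 ≤ (∑ d ∈ Finset.Icc 1 D, (1 / (d : ℝ) ^ 2) *
          ‖Ma z ψ r1 r2 (N / (d : ℝ) ^ 2) j‖) ^ 2 := pow_le_pow_left₀ (norm_nonneg _) h1 2
      _ ≤ (∑ d ∈ Finset.Icc 1 D, 1 / (d : ℝ) ^ 2) * ∑ d ∈ Finset.Icc 1 D, (1 / (d : ℝ) ^ 2) *
          ‖Ma z ψ r1 r2 (N / (d : ℝ) ^ 2) j‖ ^ 2 := h2
      _ ≤ _ := mul_le_mul_of_nonneg_right (total D)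
          (Finset.sum_nonneg fun _ _ => by positivity)
  calc ∑ j ∈ U, ‖Mp z ψ r1 r2 N j‖ ^ 2 ≤ ∑ j ∈ U, 2 * ∑ d ∈ Finset.Icc 1 D,
        (1 / (d : ℝ) ^ 2) * ‖Ma z ψ r1 r2 (N / (d : ℝ) ^ 2) j‖ ^ 2 := Finset.sum_le_sum hj
    _ = 2 * ∑ d ∈ Finset.Icc 1 D, (1 / (d : ℝ) ^ 2) * S d := by
        rw [← Finset.mul_sum, Finset.sum_comm]
        congr 1
        refine Finset.sum_congr rfl fun d _ => ?_
        rw [hS, Finset.mul_sum]
    _ ≤ 2 * (ε / 2) := mul_le_mul_of_nonneg_left hsum (by norm_num)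
    _ = ε := by ring

end Pool.Agent.Lib.MP_a17b09_nt.MRS
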