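import Pool.Agent.Lib.MP_a17b09_nt.MRS.Exp67
import Pool.Agent.Lib.MP_a17b09_nt.MRS.StMom16
import Pool.Agent.Lib.MP_a17b09_nt.MRS.Cheb7
import Pool.Agent.Lib.MP_a17b09_nt.MRS.TK28
import Pool.Agent.Lib.MP_a17b09_nt.MRS.LevT1_11
import Pool.Agent.Lib.MP_a17b09_nt.MRS.LevT72
import Pool.Agent.Lib.MP_a17b09_nt.MRS.LevU40
import Pool.Agent.Lib.MP_a17b09_nt.MRS.Lev38
import Pool.Agent.Lib.MP_a17b09_nt.MRS.Sch27
import Pool.Agent.Lib.MP_a17b09_nt.MRS.Dec2_97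
import Pool.Agent.Lib.MP_a17b09_nt.MRS.TkhS12
import Pool.Agent.Lib.MP_a17b09_nt.MRS.DJF71
import Pool.Agent.Lib.MP_a17b09_nt.MRS.Uall39
import Pool.Agent.Lib.MP_a17b09_nt.MRS.Up70
import Pool.Agent.Lib.MP_a17b09_nt.MRS.PW0_91
import Pool.Agent.Lib.MP_a17b09_nt.MRS.Core3
import Pool.Agent.Lib.MP_a17b09_nt.MRS.UnitCl84
import Pool.Agent.Lib.MP_a17b09_nt.MRS.Cls68
import Pool.Agent.Lib.MP_a17b09_nt.MRS.LS3
import Pool.Agent.Lib.MP_a17b09_nt.MRS.Hmu3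

/-!
MRS: the theorem on thin sectors of the Gaussian integers (every class modulo `K`), without
hypotheses: assembly of the rows of `Stmts3`.
-/

set_option autoImplicit false

namespace Pool.Agent.Lib.MP_a17b09_nt.MRS

theorem stLev_all : StLev :=
  stLev_38 (stDec2_97 stTK_28 stLsp_3) stMer_7 stSch_27 (stLevT1_11 stLsp_3)
    (stLevT_72 (stMomB_16 stLS_3)) (stLevU_40 (stMomB_16 stLS_3))

theorem stUp_all : StUp :=
  stUp_70 (stUall_39 (stTkh_12 X67.stExp) (DJ71.stDj_full X67.stExp)) (stHmu_3 X67.stExp)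

theorem stCore_all : StCore := stCore_3 stLev_all stUp_all pw0_91

theorem stCls_all : StCls := stCls_68 (stUnitCl_84 stCore_all) stLsp_3

end Pool.Agent.Lib.MP_a17b09_nt.MRS
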