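import Pool.Agent.Lib.MP_a17b09_nt.MRS.Cnt67

/-!
MRS section 2: averaging over shifts.
-/

set_option autoImplicit false

namespace Pool.Agent.X67

open Finset Complex

/-- shift in the first coordinate -/
def sh (q t : ℕ) (m : ℤ × ℤ) : ℤ × ℤ := (m.1 + (q : ℤ) * (t : ℤ), m.2)

/-- backward shift -/
def shb (q t : ℕ) (m : ℤ × ℤ) : ℤ × ℤ := (m.1 - (q : ℤ) * (t : ℤ), m.2)

theorem sh_shb (q t : ℕ) (m : ℤ × ℤ) : sh q t (shb q t m) = m := by
  unfold sh shb
  exact Prod.ext (by simp) rfl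

theorem shb_sh (q t : ℕ) (m : ℤ × ℤ) : shb q t (sh q t m) = m := by
  unfold sh shb
  exact Prod.ext (by simp) rfl

theorem zz_sh (q t : ℕ) (m : ℤ × ℤ) : zz (sh q t m) = zz m + (q : ℂ) * (t : ℂ) := by
  unfold sh zz
  push_cast
  ring

open Classical in
/-- all the points some shift of which is in `S` -/
noncomputable def BB (S : Finset (ℤ × ℤ)) (q M : ℕ) : Finset (ℤ × ℤ) :=
  (range M).biUnion (fun t => S.image (shb q t))

theorem mem_BB (S : Finset (ℤ × ℤ)) (q M : ℕ) (m : ℤ × ℤ) :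
    m ∈ BB S q M ↔ ∃ t, t < M ∧ sh q t m ∈ S := by
  classical
  unfold BB
  rw [Finset.mem_biUnion]
  constructor
  · rintro ⟨t, ht, hm⟩
    rw [Finset.mem_image] at hm
    obtain ⟨n, hn, rfl⟩ := hm
    exact ⟨t, Finset.mem_range.1 ht, by rw [sh_shb]; exact hn⟩
  · rintro ⟨t, ht, hm⟩
    exact ⟨t, Finset.mem_range.2 ht, Finset.mem_image.2 ⟨sh q t m, hm, shb_sh q t m⟩⟩

open Classical in
theorem shift_avg (S : Finset (ℤ × ℤ)) (f : ℤ × ℤ → ℂ) (q M : ℕ) :
    (M : ℂ) * ∑ m ∈ S, f m =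
      ∑ m ∈ BB S q M, ∑ t ∈ range M, if sh q t m ∈ S then f (sh q t m) else 0 := by
  rw [Finset.sum_comm]
  have h1 : ∀ t ∈ range M, ∑ m ∈ BB S q M, (if sh q t m ∈ S then f (sh q t m) else 0) =
      ∑ m ∈ S, f m := by
    intro t ht
    rw [← Finset.sum_filter]
    apply Finset.sum_bij' (fun m _ => sh q t m) (fun m _ => shb q t m)
    · intro m hm
      exact (Finset.mem_filter.1 hm).2
    · intro m hm
      rw [Finset.mem_filter, mem_BB, sh_shb]
      exact ⟨⟨t, Finset.mem_range.1 ht, by rw [sh_shb]; exact hm⟩, hm⟩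
    · intro m _
      exact shb_sh q t m
    · intro m _
      exact sh_shb q t m
    · intro m _
      rfl
  rw [Finset.sum_congr rfl h1, Finset.sum_const, card_range, nsmul_eq_mul]

open Classical in
theorem avg_bound (S : Finset (ℤ × ℤ)) (f : ℤ × ℤ → ℂ) (q M : ℕ) (hM : 1 ≤ M) (ε : ℝ)
    (hε : 0 ≤ ε) (Good : ℤ × ℤ → Prop) (hf : ∀ m, ‖f m‖ ≤ 1)
    (hg : ∀ m ∈ S, Good m → (∀ t, t < M → sh q t m ∈ S) →
      ‖∑ t ∈ range M, f (sh q t m)‖ ≤ M * ε) :
    ‖∑ m ∈ S, f m‖ ≤ ε * S.card +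
      (((BB S q M).filter (fun m => ∃ t, t < M ∧ sh q t m ∉ S)).card : ℝ) +
      ((S.filter (fun m => ¬ Good m)).card : ℝ) := by
  have hM' : (0 : ℝ) < M := by exact_mod_cast hM
  set B2 := (BB S q M).filter (fun m => ∃ t, t < M ∧ sh q t m ∉ S) with hB2
  set B3 := S.filter (fun m => ¬ Good m) with hB3
  set F : ℤ × ℤ → ℂ := fun m => ∑ t ∈ range M, if sh q t m ∈ S then f (sh q t m) else 0 with hF
  have hFM : ∀ m, ‖F m‖ ≤ M := by
    intro m
    rw [hF]
    refine (norm_sum_le _ _).trans ?_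
    have h1 : ∀ t ∈ range M, ‖(if sh q t m ∈ S then f (sh q t m) else 0)‖ ≤ (1 : ℝ) := by
      intro t _
      split_ifs
      · exact hf _
      · rw [norm_zero]; exact zero_le_one
    refine (Finset.sum_le_sum h1).trans ?_
    rw [Finset.sum_const, card_range, nsmul_eq_mul, mul_one]
  have h0 := shift_avg S f q M
  have h1 : (M : ℝ) * ‖∑ m ∈ S, f m‖ ≤ ∑ m ∈ BB S q M, ‖F m‖ := by
    have h2 : (M : ℝ) * ‖∑ m ∈ S, f m‖ = ‖(M : ℂ) * ∑ m ∈ S, f m‖ := by
      rw [norm_mul, Complex.norm_natCast]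
    rw [h2, h0]
    exact norm_sum_le _ _
  have h2 : ∀ m ∈ BB S q M, ‖F m‖ ≤ (if m ∈ S then (M : ℝ) * ε else 0) +
      (if m ∈ B2 then (M : ℝ) else 0) + (if m ∈ B3 then (M : ℝ) else 0) := by
    intro m hm
    have n1 : (0 : ℝ) ≤ if m ∈ S then (M : ℝ) * ε else 0 := by
      split_ifs
      · positivity
      · exact le_rfl
    have n2 : (0 : ℝ) ≤ if m ∈ B2 then (M : ℝ) else 0 := by
      split_ifs
      · positivity
      · exact le_rfl
    have n3 : (0 : ℝ) ≤ if m ∈ B3 then (M : ℝ) else 0 := by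
      split_ifs
      · positivity
      · exact le_rfl
    by_cases c2 : m ∈ B2
    · have := hFM m
      rw [if_pos c2]
      linarith
    · have hall : ∀ t, t < M → sh q t m ∈ S := by
        intro t ht
        by_contra hc
        exact c2 (Finset.mem_filter.2 ⟨hm, t, ht, hc⟩)
      have hmS : m ∈ S := by
        have := hall 0 (by omega)
        have e : sh q 0 m = m := by
          unfold sh
          exact Prod.ext (by simp) rfl
        rwa [e] at this
      by_cases c3 : Good m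
      · have e : F m = ∑ t ∈ range M, f (sh q t m) := by
          rw [hF]
          refine Finset.sum_congr rfl fun t ht => ?_
          rw [if_pos (hall t (Finset.mem_range.1 ht))]
        have := hg m hmS c3 hall
        rw [← e] at this
        rw [if_pos hmS]
        linarith
      · have := hFM m
        rw [if_pos (show m ∈ B3 from Finset.mem_filter.2 ⟨hmS, c3⟩)]
        linarith
  have h3 := h1.trans (Finset.sum_le_sum h2)
  rw [Finset.sum_add_distrib, Finset.sum_add_distrib] at h3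
  have cnt : ∀ (U : Finset (ℤ × ℤ)) (c : ℝ), 0 ≤ c →
      ∑ m ∈ BB S q M, (if m ∈ U then c else 0) ≤ U.card * c := by
    intro U c hc
    rw [← Finset.sum_filter, Finset.sum_const, nsmul_eq_mul]
    have : ((BB S q M).filter (fun m => m ∈ U)).card ≤ U.card := by
      apply Finset.card_le_card
      intro m hm
      exact (Finset.mem_filter.1 hm).2
    have h5 : (((BB S q M).filter (fun m => m ∈ U)).card : ℝ) ≤ U.card := by exact_mod_cast this
    exact mul_le_mul_of_nonneg_right h5 hc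
  have c1 := cnt S (M * ε) (by positivity)
  have c2 := cnt B2 M hM'.le
  have c3 := cnt B3 M hM'.le
  have h4 : (M : ℝ) * ‖∑ m ∈ S, f m‖ ≤ M * (ε * S.card + B2.card + B3.card) := by
    linarith
  exact le_of_mul_le_mul_left h4 hM'

/-- the points of the boundary are in two thin rings -/
theorem card_bdry (r1 r2 : ℝ) (q : ℕ) (a0 b0 : ℤ) (S : Finset (ℤ × ℤ)) (M : ℕ) (R : ℝ)
    (hS : IsRing r1 r2 q a0 b0 S) (h1 : ((q : ℝ) * M) ^ 2 ≤ r1) (h2 : r2 ≤ R ^ 2) (hR : 0 ≤ R) (h12 : r1 ≤ r2)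
    (B2 : Finset (ℤ × ℤ)) (hB : ∀ m ∈ B2, (∃ t, t < M ∧ sh q t m ∈ S) ∧ ∃ t, t < M ∧ sh q t m ∉ S) :
    (B2.card : ℝ) ≤ 2 * ((2 * (R + q * M) + 1) * (4 * Real.sqrt (R * (q * M)) + 2)) := by
  classical
  have hqM : (0 : ℝ) ≤ (q : ℝ) * M := by positivity
  have hr1 : 0 ≤ r1 := le_trans (by positivity) h1
  have hr2 : 0 ≤ r2 := hr1.trans h12
  set w : ℝ := (q : ℝ) * M with hw
  have s1 : w ≤ Real.sqrt r1 := Real.le_sqrt_of_sq_le h1
  have s2 : Real.sqrt r1 ≤ Real.sqrt r2 := Real.sqrt_le_sqrt h12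
  have s3 : Real.sqrt r2 ≤ R := by
    rw [← Real.sqrt_sq hR]; exact Real.sqrt_le_sqrt h2
  have hdist : ∀ (m : ℤ × ℤ) (t : ℕ), t < M → |‖zz (sh q t m)‖ - ‖zz m‖| ≤ w := by
    intro m t ht
    refine (abs_norm_sub_norm_le _ _).trans ?_
    rw [zz_sh, add_sub_cancel_left, norm_mul, Complex.norm_natCast, Complex.norm_natCast, hw]
    have : (t : ℝ) ≤ M := by exact_mod_cast ht.le
    gcongr
  have key : ∀ m ∈ B2, |‖zz m‖ - Real.sqrt r1| ≤ w ∨ |‖zz m‖ - Real.sqrt r2| ≤ w := by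
    intro m hm
    obtain ⟨⟨t, ht, htS⟩, s, hs, hsS⟩ := hB m hm
    have hin := (hS _).1 htS
    have hnot : ¬ (r1 ≤ ‖zz (sh q s m)‖ ^ 2 ∧ ‖zz (sh q s m)‖ ^ 2 ≤ r2) := by
      intro hcon
      apply hsS
      rw [hS, ← zz_sq]
      refine ⟨hcon.1, hcon.2, ?_, ?_⟩
      · have h3 := hin.2.2.1
        have e1 : (sh q s m).1 = (sh q t m).1 + (q : ℤ) * ((s : ℤ) - t) := by
          unfold sh
          simp only
          ring
        rw [e1]
        calc (sh q t m).1 + (q : ℤ) * ((s : ℤ) - t) ≡ (sh q t m).1 + 0 [ZMOD q] :=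
              Int.ModEq.add_left _ (Int.modEq_zero_iff_dvd.2 (Dvd.intro _ rfl))
          _ = (sh q t m).1 := by ring
          _ ≡ a0 [ZMOD q] := h3
      · exact hin.2.2.2
    have h5 : Real.sqrt r1 ≤ ‖zz (sh q t m)‖ := by
      rw [← Real.sqrt_sq (norm_nonneg (zz (sh q t m)))]
      apply Real.sqrt_le_sqrt
      rw [zz_sq]; exact hin.1
    have h6 : ‖zz (sh q t m)‖ ≤ Real.sqrt r2 := by
      apply Real.le_sqrt_of_sq_le
      rw [zz_sq]; exact hin.2.1
    have d1 := abs_le.1 (hdist m t ht)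
    have d2 := abs_le.1 (hdist m s hs)
    rw [not_and_or, not_le, not_le] at hnot
    rcases hnot with h7 | h7
    · left
      have h8 : ‖zz (sh q s m)‖ ≤ Real.sqrt r1 := Real.le_sqrt_of_sq_le h7.le
      rw [abs_le]
      constructor <;> linarith [d1.1, d1.2, d2.1, d2.2]
    · right
      have h8 : Real.sqrt r2 ≤ ‖zz (sh q s m)‖ := by
        rw [← Real.sqrt_sq (norm_nonneg (zz (sh q s m)))]
        exact Real.sqrt_le_sqrt h7.le
      rw [abs_le]
      constructor <;> linarith [d1.1, d1.2, d2.1, d2.2]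
  have hsub : B2 ⊆ (B2.filter (fun m => |‖zz m‖ - Real.sqrt r1| ≤ w)) ∪
      (B2.filter (fun m => |‖zz m‖ - Real.sqrt r2| ≤ w)) := by
    intro m hm
    rw [Finset.mem_union, Finset.mem_filter, Finset.mem_filter]
    rcases key m hm with h | h
    · exact Or.inl ⟨hm, h⟩
    · exact Or.inr ⟨hm, h⟩
  have hc := (Finset.card_le_card hsub).trans (Finset.card_union_le _ _)
  have c1 := card_ring (B2.filter (fun m => |‖zz m‖ - Real.sqrt r1| ≤ w)) (Real.sqrt r1) w hqM s1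
    (fun m hm => (Finset.mem_filter.1 hm).2)
  have c2 := card_ring (B2.filter (fun m => |‖zz m‖ - Real.sqrt r2| ≤ w)) (Real.sqrt r2) w hqM
    (s1.trans s2) (fun m hm => (Finset.mem_filter.1 hm).2)
  have m1 : ∀ ρ : ℝ, 0 ≤ ρ → ρ ≤ R → (2 * (ρ + w) + 1) * (4 * Real.sqrt (ρ * w) + 2) ≤
      (2 * (R + w) + 1) * (4 * Real.sqrt (R * w) + 2) := by
    intro ρ h0 hρ
    gcongr
  have c3 := m1 (Real.sqrt r1) (Real.sqrt_nonneg _) (s2.trans s3)
  have c4 := m1 (Real.sqrt r2) (Real.sqrt_nonneg _) s3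
  have hc' : (B2.card : ℝ) ≤ ((B2.filter (fun m => |‖zz m‖ - Real.sqrt r1| ≤ w)).card : ℝ) +
      ((B2.filter (fun m => |‖zz m‖ - Real.sqrt r2| ≤ w)).card : ℝ) := by exact_mod_cast hc
  linarith

end Pool.Agent.X67
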