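import Mathlib

/-!
MRS section 2: small numerical facts.
-/

set_option autoImplicit false

namespace Pool.Agent.X67

/-! small numerical facts -/

theorem nf1 (A B : ℝ) (hA : 1 ≤ A) (hB : 0 ≤ B) : 1 ≤ A * (2 + B) := by nlinarith

theorem nf2 (c r : ℝ) (hc : 0 < c) (hr : 1 ≤ r) (h : c * (r + 1) ≤ 1 / 192) : c ≤ 1 / 384 := by
  nlinarith

theorem nf3 (t r : ℝ) (ht : 2 ≤ t) (hr : 1 ≤ r) : 48 * r ≤ 96 * t * (r + 1) := by nlinarith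

theorem nf4 (r : ℝ) (hr : 1 ≤ r) : 1 * (8 * (2 * r * (2 * r + 1))) ≤ (2 * r - 1) * (48 * r) := by
  nlinarith

theorem nf5 (r : ℝ) : (2 * r + 1) * (16 * r) ≤ 1 * (8 * (2 * r * (2 * r + 1))) :=
  le_of_eq (by ring)

theorem nf6 (M x s Y : ℝ) (h1 : M ≤ x) (h2 : x ≤ s) (h3 : 1 ≤ s) (h4 : s ^ 2 = Y) : M ≤ Y := by
  nlinarith

theorem nf7 (L l P r : ℝ) (h1 : L ≤ 1 + l) (h2 : l ≤ P * (96 * r)) (h3 : 1 ≤ P) :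
    L ≤ (1 + 96 * r) * P := by nlinarith

theorem nf8 (P r : ℝ) (h3 : 1 ≤ P) (hr : 1 ≤ r) : 1 ≤ (1 + 96 * r) * P := by nlinarith

theorem nf9 (t r : ℝ) (ht : 0 < t) (hr : 1 ≤ r) : 96 * t ≤ 96 * (2 * t) * (r + 1) := by nlinarith

theorem nf10 (a s : ℝ) (h : a ≤ 2 * s ^ 2) : a ≤ (2 * s) ^ 2 := by nlinarith [sq_nonneg s]

theorem nf11 (a s Y r : ℝ) (h : a ≤ (s / 2) ^ 2) (h1 : s ^ 2 = Y) (h2 : Y ≤ r) : a ≤ r := by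
  nlinarith [sq_nonneg s]

theorem nf12 (s Y r : ℝ) (h1 : s ^ 2 = Y) (h2 : r ≤ 2 * Y) : r ≤ (2 * s) ^ 2 := by
  nlinarith [sq_nonneg s]

theorem nf13 (s P : ℝ) : 2 * s ^ 2 * (P * P) ≤ (3 / 2 * (s * P)) ^ 2 := by
  nlinarith [mul_nonneg (sq_nonneg s) (mul_self_nonneg P)]

end Pool.Agent.X67
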