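import Pool.Agent.Lib.MP_a17b09_nt.MRS.Big67
import Pool.Agent.Lib.MP_a17b09_nt.MRS.BifN67

/-!
MRS section 2: large frequencies, the final bound.
-/

set_option autoImplicit false

namespace Pool.Agent.X67

open Finset Complex Pool.Agent.MR36

/-- large frequencies for Gaussian integers -/
theorem big_main (r : ℕ) (hr : 1 ≤ r) (c : ℝ) (hc : c = 1 / (96 * 2 ^ r * (r + 1)))
    (Y0 : ℝ) (hY0 : Y0 = (2 * (r.factorial : ℝ)) ^ 24)
    (K : ℝ) (hK : K = CC36 (r - 1) * (2 + 20 * 4 ^ r * (1 + 96 * r) ^ r))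
    (Y r1 r2 : ℝ) (h q : ℕ) (a0 b0 : ℤ) (S : Finset (ℤ × ℤ)) (hY : 1 ≤ Y) (hYY : Y0 ≤ Y)
    (h1 : Y ≤ r1) (h2 : r2 ≤ 2 * Y) (hh1 : Y ^ ((2 * r - 1) / 8 : ℝ) ≤ h)
    (hh2 : (h : ℝ) ≤ Y ^ ((2 * r + 1) / 8 : ℝ)) (hq : 1 ≤ q) (hqc : (q : ℝ) ≤ Y ^ c)
    (hS : IsRing r1 r2 q a0 b0 S) :
    ‖∑ m ∈ S, uu (zz m) ^ h‖ ≤ (25 * (2 + K) + 112 + 15 * r) * Y ^ (1 - c) := by
  classical
  have hr' : (1 : ℝ) ≤ r := by exact_mod_cast hr
  have hY00 : 0 < Y := by linarith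
  have hC1 : 1 ≤ CC36 (r - 1) := CC_ge36 _
  have hK1 : 1 ≤ K := by
    rw [hK]
    exact nf1 _ _ hC1 (by positivity)
  -- the exponent
  have h2r : (1 : ℝ) ≤ 2 ^ r := one_le_pow₀ (by norm_num)
  have h2r2 : (2 : ℝ) ≤ 2 ^ r := by
    calc (2 : ℝ) = 2 ^ 1 := by norm_num
      _ ≤ 2 ^ r := pow_le_pow_right₀ (by norm_num) hr
  have hc0 : 0 < c := by rw [hc]; positivity
  have hcr : c * (r + 1) = 1 / (96 * 2 ^ r) := by
    rw [hc]; field_simp
  have hcr1 : c * (r + 1) ≤ 1 / 192 := by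
    rw [hcr]
    apply one_div_le_one_div_of_le (by norm_num)
    linarith
  have hc1 : c ≤ 1 / 384 := nf2 c r hc0 hr' hcr1
  have hc48 : c ≤ 1 / (48 * r) := by
    rw [hc]
    apply one_div_le_one_div_of_le (by positivity)
    exact nf3 _ _ h2r2 hr'
  have mono : ∀ a b : ℝ, a ≤ b → Y ^ a ≤ Y ^ b := fun a b hab =>
    Real.rpow_le_rpow_of_exponent_le hY hab
  have addp : ∀ a b : ℝ, Y ^ a * Y ^ b = Y ^ (a + b) := fun a b =>
    (Real.rpow_add hY00 a b).symm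
  have powp : ∀ (a : ℝ) (k : ℕ), (Y ^ a) ^ k = Y ^ (a * k) := fun a k =>
    (Real.rpow_mul_natCast hY00.le a k).symm
  have posp : ∀ a : ℝ, 0 < Y ^ a := fun a => Real.rpow_pos_of_pos hY00 a
  have onep : ∀ a : ℝ, 0 ≤ a → 1 ≤ Y ^ a := fun a ha => Real.one_le_rpow hY ha
  have invp : ∀ a : ℝ, (Y ^ a)⁻¹ = Y ^ (-a) := fun a => (Real.rpow_neg hY00.le a).symm
  -- theta
  set n : ℕ := 2 * r * (2 * r + 1) with hn
  have hn0 : n ≠ 0 := by
    rw [hn]; positivity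
  have hnr : (n : ℝ) = 2 * r * (2 * r + 1) := by rw [hn]; push_cast; ring
  set θ : ℝ := (h : ℝ) ^ ((n : ℝ)⁻¹) with hθd
  have hθn : θ ^ n = h := Real.rpow_inv_natCast_pow (Nat.cast_nonneg h) hn0
  have hninv : (0 : ℝ) ≤ (n : ℝ)⁻¹ := by positivity
  have hθlo : Y ^ (1 / (48 * r) : ℝ) ≤ θ := by
    have h3 : (Y ^ ((2 * r - 1) / 8 : ℝ)) ^ ((n : ℝ)⁻¹) ≤ θ :=
      Real.rpow_le_rpow (posp _).le hh1 hninv
    refine le_trans ?_ h3
    rw [← Real.rpow_mul hY00.le]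
    apply mono
    rw [hnr, ← div_eq_mul_inv, div_div, div_le_div_iff₀ (by positivity) (by positivity)]
    exact nf4 r hr'
  have hθhi : θ ≤ Y ^ (1 / (16 * r) : ℝ) := by
    have h3 : θ ≤ (Y ^ ((2 * r + 1) / 8 : ℝ)) ^ ((n : ℝ)⁻¹) :=
      Real.rpow_le_rpow (Nat.cast_nonneg h) hh2 hninv
    refine h3.trans ?_
    rw [← Real.rpow_mul hY00.le]
    apply mono
    rw [hnr, ← div_eq_mul_inv, div_div, div_le_div_iff₀ (by positivity) (by positivity)]
    exact nf5 r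
  have hθ1 : 1 ≤ θ := (onep _ (by positivity)).trans hθlo
  have hθ0 : 0 < θ := by linarith
  have lowk : ∀ k : ℕ, Y ^ ((1 / (48 * r) : ℝ) * ((k * r : ℕ) : ℝ)) ≤ θ ^ (k * r) := by
    intro k
    rw [← powp]
    exact pow_le_pow_left₀ (posp _).le hθlo _
  have hik : ∀ k : ℕ, θ ^ (k * r) ≤ Y ^ ((1 / (16 * r) : ℝ) * ((k * r : ℕ) : ℝ)) := by
    intro k
    rw [← powp]
    exact pow_le_pow_left₀ hθ0.le hθhi _
  have lo1 : Y ^ (1 / 48 : ℝ) ≤ θ ^ r := by
    have := lowk 1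
    rw [one_mul] at this
    refine le_trans (le_of_eq ?_) this
    congr 1
    field_simp
  have lo2 : Y ^ (1 / 24 : ℝ) ≤ θ ^ (2 * r) := by
    refine le_trans (le_of_eq ?_) (lowk 2)
    congr 1
    push_cast
    field_simp
    norm_num
  have lo4 : Y ^ (1 / 12 : ℝ) ≤ θ ^ (4 * r) := by
    refine le_trans (le_of_eq ?_) (lowk 4)
    congr 1
    push_cast
    field_simp
    norm_num
  have hi4 : θ ^ (4 * r) ≤ Y ^ (1 / 4 : ℝ) := by
    refine (hik 4).trans (le_of_eq ?_)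
    congr 1
    push_cast
    field_simp
    norm_num
  have hi6 : θ ^ (6 * r) ≤ Y ^ (3 / 8 : ℝ) := by
    refine (hik 6).trans (le_of_eq ?_)
    congr 1
    push_cast
    field_simp
    norm_num
  have hθ8 : θ ≤ Y ^ (1 / 8 : ℝ) := by
    refine hθhi.trans (mono _ _ ?_)
    rw [div_le_div_iff₀ (by positivity) (by positivity)]
    linarith
  -- h and q
  have hh0 : 1 ≤ h := by
    have h3 : (1 : ℝ) ≤ h := (onep _ (by
      have : (0 : ℝ) ≤ 2 * r - 1 := by linarith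
      positivity)).trans hh1
    exact_mod_cast h3
  have hq' : (1 : ℝ) ≤ q := by exact_mod_cast hq
  -- s and M
  set s : ℝ := Real.sqrt Y with hsd
  have hsY : s = Y ^ (1 / 2 : ℝ) := Real.sqrt_eq_rpow Y
  have hs : 1 ≤ s := Real.one_le_sqrt.2 hY
  have hs0 : 0 < s := by linarith
  have hssq : s ^ 2 = Y := Real.sq_sqrt hY00.le
  set x : ℝ := s / θ ^ (4 * r) with hx
  have hx1 : Y ^ (1 / 4 : ℝ) ≤ x := by
    rw [hx, le_div_iff₀ (by positivity)]
    calc Y ^ (1 / 4 : ℝ) * θ ^ (4 * r) ≤ Y ^ (1 / 4 : ℝ) * Y ^ (1 / 4 : ℝ) := by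
          gcongr
      _ = s := by rw [addp, hsY]; norm_num
  have hx0 : 1 ≤ x := (onep _ (by norm_num)).trans hx1
  set M : ℕ := ⌊x⌋₊ with hMd
  have hM : 1 ≤ M := Nat.le_floor (by exact_mod_cast hx0)
  have hM' : (1 : ℝ) ≤ M := by exact_mod_cast hM
  have hM1 : (M : ℝ) ≤ x := Nat.floor_le (by linarith)
  have hM2 : x ≤ 2 * M := by
    have := Nat.lt_floor_add_one x
    rw [← hMd] at this
    linarith
  -- Y is large
  have hbig : 2 * (r.factorial : ℝ) ≤ Y ^ (1 / 24 : ℝ) := by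
    have h3 : (0 : ℝ) ≤ 2 * (r.factorial : ℝ) := by positivity
    have h4 := Real.rpow_le_rpow (by positivity) (hY0 ▸ hYY : (2 * (r.factorial : ℝ)) ^ 24 ≤ Y)
      (show (0 : ℝ) ≤ 1 / 24 by norm_num)
    have h5 : ((2 * (r.factorial : ℝ)) ^ 24) ^ (1 / 24 : ℝ) = 2 * r.factorial := by
      rw [← Real.rpow_natCast, ← Real.rpow_mul h3]
      norm_num
    rwa [h5] at h4
  have hfac : (1 : ℝ) ≤ r.factorial := by exact_mod_cast Nat.factorial_pos r
  have hfac2 : ((r - 1).factorial : ℝ) ≤ r.factorial := by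
    exact_mod_cast Nat.factorial_le (by omega)
  have hqθ : (q : ℝ) / θ ^ (4 * r) ≤ Y ^ (c - 1 / 12) := by
    rw [div_le_iff₀ (by positivity)]
    calc (q : ℝ) ≤ Y ^ c := hqc
      _ = Y ^ (c - 1 / 12) * Y ^ (1 / 12 : ℝ) := by rw [addp]; congr 1; ring
      _ ≤ Y ^ (c - 1 / 12) * θ ^ (4 * r) := by
        have := posp (c - 1 / 12)
        gcongr
  have hqθ2 : (q : ℝ) / θ ^ (4 * r) ≤ 1 / 2 := by
    refine hqθ.trans ((mono _ (-(1 / 24)) (by linarith)).trans ?_)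
    rw [← invp, show (1 : ℝ) / 2 = 2⁻¹ by norm_num]
    apply inv_anti₀ (by norm_num)
    linarith
  have hqθ3 : (q : ℝ) / θ ^ (4 * r) ≤ Y ^ (-(2 * c)) := hqθ.trans (mono _ _ (by linarith))
  have hqr : ∀ k : ℕ, k ≤ r + 1 → (q : ℝ) ^ k ≤ Y ^ (1 / 192 : ℝ) := by
    intro k hk
    calc (q : ℝ) ^ k ≤ (q : ℝ) ^ (r + 1) := pow_le_pow_right₀ hq' hk
      _ ≤ (Y ^ c) ^ (r + 1) := pow_le_pow_left₀ (by linarith) hqc _
      _ = Y ^ (c * ((r + 1 : ℕ) : ℝ)) := powp _ _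
      _ ≤ Y ^ (1 / 192 : ℝ) := by
        apply mono
        push_cast
        exact hcr1
  have hsm : ((r - 1).factorial : ℝ) * (q : ℝ) ^ r * θ ^ (6 * r) / s ≤ 1 := by
    rw [div_le_one hs0]
    calc ((r - 1).factorial : ℝ) * (q : ℝ) ^ r * θ ^ (6 * r)
        ≤ Y ^ (1 / 24 : ℝ) * Y ^ (1 / 192 : ℝ) * Y ^ (3 / 8 : ℝ) := by
          have h3 := hqr r (by omega)
          have h4 : ((r - 1).factorial : ℝ) ≤ Y ^ (1 / 24 : ℝ) := by linarith
          gcongr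
      _ = Y ^ (1 / 24 + 1 / 192 + 3 / 8 : ℝ) := by rw [addp, addp]
      _ ≤ s := by rw [hsY]; apply mono; norm_num
  -- the harmonic sum
  set L : ℝ := ∑ h ∈ Icc 1 M, 1 / (h : ℝ) with hL
  have hL0 : 0 ≤ L := Finset.sum_nonneg fun _ _ => by positivity
  have hLb : L ^ (r - 1) ≤ (1 + 96 * r) ^ r * Y ^ (1 / 96 : ℝ) := by
    have hMY : (M : ℝ) ≤ Y := by
      have h3 : x ≤ s := by
        rw [hx]
        apply div_le_self hs0.le
        exact one_le_pow₀ hθ1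
      exact nf6 _ _ _ _ hM1 h3 hs hssq
    have h3 := harm36 M Y hM hMY
    have h4 : Real.log Y ≤ Y ^ (1 / (96 * r) : ℝ) / (1 / (96 * r)) :=
      Real.log_le_rpow_div hY00.le (by positivity)
    have h5 : (1 : ℝ) ≤ Y ^ (1 / (96 * r) : ℝ) := onep _ (by positivity)
    rw [div_div_eq_mul_div, div_one] at h4
    have h6 : L ≤ (1 + 96 * r) * Y ^ (1 / (96 * r) : ℝ) := nf7 _ _ _ _ h3 h4 h5
    have h7 : (1 : ℝ) ≤ (1 + 96 * r) * Y ^ (1 / (96 * r) : ℝ) := nf8 _ _ h5 hr'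
    calc L ^ (r - 1) ≤ ((1 + 96 * r) * Y ^ (1 / (96 * r) : ℝ)) ^ (r - 1) :=
          pow_le_pow_left₀ hL0 h6 _
      _ ≤ ((1 + 96 * r) * Y ^ (1 / (96 * r) : ℝ)) ^ r := pow_le_pow_right₀ h7 (by omega)
      _ = (1 + 96 * r) ^ r * Y ^ (1 / 96 : ℝ) := by
        rw [mul_pow, powp]
        congr 2
        field_simp
  -- the two errors
  have he1 : 2 * (q : ℝ) ^ (r + 1) / θ ^ (2 * r) ≤ 2 * Y ^ (-c) := by
    rw [div_le_iff₀ (by positivity)]
    calc 2 * (q : ℝ) ^ (r + 1) ≤ 2 * Y ^ (1 / 192 : ℝ) := by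
          have := hqr (r + 1) le_rfl
          linarith
      _ ≤ 2 * (Y ^ (-c) * Y ^ (1 / 24 : ℝ)) := by
        rw [addp]
        have := mono (1 / 192) (-c + 1 / 24) (by linarith)
        linarith
      _ ≤ 2 * (Y ^ (-c) * θ ^ (2 * r)) := by
        have := posp (-c)
        gcongr
      _ = 2 * Y ^ (-c) * θ ^ (2 * r) := by ring
  have he2 : CC36 (r - 1) * (1 / M + 20 * 4 ^ r / θ ^ r * L ^ (r - 1)) ≤
      K * Y ^ (-(1 / 96) : ℝ) := by
    have h3 : 1 / (M : ℝ) ≤ 2 * Y ^ (-(1 / 96) : ℝ) := by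
      rw [div_le_iff₀ (by linarith)]
      have h4 : Y ^ (-(1 / 96) : ℝ) * Y ^ (1 / 4 : ℝ) ≤ Y ^ (-(1 / 96) : ℝ) * (2 * M) := by
        have := posp (-(1 / 96))
        have : Y ^ (1 / 4 : ℝ) ≤ 2 * M := by linarith
        gcongr
      rw [addp] at h4
      have h5 : (1 : ℝ) ≤ Y ^ (-(1 / 96) + 1 / 4 : ℝ) := onep _ (by norm_num)
      linarith
    have h4 : 20 * 4 ^ r / θ ^ r * L ^ (r - 1) ≤
        20 * 4 ^ r * (1 + 96 * r) ^ r * Y ^ (-(1 / 96) : ℝ) := by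
      rw [div_mul_eq_mul_div, div_le_iff₀ (by positivity)]
      calc 20 * 4 ^ r * L ^ (r - 1) ≤ 20 * 4 ^ r * ((1 + 96 * r) ^ r * Y ^ (1 / 96 : ℝ)) := by
            gcongr
        _ = 20 * 4 ^ r * (1 + 96 * r) ^ r * (Y ^ (-(1 / 96) : ℝ) * Y ^ (1 / 48 : ℝ)) := by
          rw [addp]
          rw [show (-(1 / 96) + 1 / 48 : ℝ) = 1 / 96 by norm_num]
          ring
        _ ≤ 20 * 4 ^ r * (1 + 96 * r) ^ r * (Y ^ (-(1 / 96) : ℝ) * θ ^ r) := by
          have := posp (-(1 / 96))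
          gcongr
        _ = _ := by ring
    rw [hK]
    have h5 : (0 : ℝ) ≤ CC36 (r - 1) := by linarith
    calc CC36 (r - 1) * (1 / M + 20 * 4 ^ r / θ ^ r * L ^ (r - 1))
        ≤ CC36 (r - 1) * (2 * Y ^ (-(1 / 96) : ℝ) +
            20 * 4 ^ r * (1 + 96 * r) ^ r * Y ^ (-(1 / 96) : ℝ)) := by gcongr
      _ = _ := by ring
  have he3 : (K * Y ^ (-(1 / 96) : ℝ)) ^ (1 / 2 ^ (r - 1) : ℝ) ≤ K * Y ^ (-c) := by
    rw [Real.mul_rpow (by linarith) (posp _).le, ← Real.rpow_mul hY00.le]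
    have h3 : K ^ (1 / 2 ^ (r - 1) : ℝ) ≤ K := by
      have h4 : (1 : ℝ) / 2 ^ (r - 1) ≤ 1 := by
        rw [div_le_one (by positivity)]
        exact one_le_pow₀ (by norm_num)
      calc K ^ (1 / 2 ^ (r - 1) : ℝ) ≤ K ^ (1 : ℝ) := Real.rpow_le_rpow_of_exponent_le hK1 h4
        _ = K := Real.rpow_one K
    have h4 : Y ^ (-(1 / 96) * (1 / 2 ^ (r - 1)) : ℝ) ≤ Y ^ (-c) := by
      apply mono
      have h5 : (2 : ℝ) ^ r = 2 * 2 ^ (r - 1) := by
        rw [← pow_succ']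
        congr 1
        omega
      have h6 : c ≤ 1 / (96 * 2 ^ (r - 1)) := by
        rw [hc]
        apply one_div_le_one_div_of_le (by positivity)
        rw [h5]
        exact nf9 _ _ (by positivity) hr'
      have h7 : (-(1 / 96) * (1 / 2 ^ (r - 1)) : ℝ) = -(1 / (96 * 2 ^ (r - 1))) := by
        field_simp
      rw [h7]
      linarith
    have h5 := posp (-(1 / 96) * (1 / 2 ^ (r - 1)))
    have h6 := posp (-c)
    have h7 : (0 : ℝ) ≤ K := by linarith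
    gcongr
  -- averaging
  have hf : ∀ m : ℤ × ℤ, ‖uu (zz m) ^ h‖ ≤ 1 := by
    intro m
    rw [norm_pow]
    exact pow_le_one₀ (norm_nonneg _) (uu_norm_le _)
  have hSn : ∀ m ∈ S, s ≤ ‖zz m‖ ∧ ‖zz m‖ ^ 2 ≤ 2 * s ^ 2 := by
    intro m hm
    have h3 := (hS m).1 hm
    rw [← zz_sq] at h3
    refine ⟨?_, by linarith [h3.2.1]⟩
    rw [hsd]
    apply Real.sqrt_le_iff.2
    exact ⟨norm_nonneg _, by linarith [h3.1]⟩
  set ε : ℝ := (2 + K) * Y ^ (-c) with hε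
  have hε0 : 0 ≤ ε := by
    have := posp (-c)
    have : (0 : ℝ) ≤ K := by linarith
    positivity
  have hav := avg_bound S (fun m => uu (zz m) ^ h) q M hM ε hε0 (fun m => Far r (s / θ) (zz m)) hf
    (by
      intro m hm hg _
      have h3 := hSn m hm
      have h4 := block_par r hr h q M s θ (2 * Y ^ (-c)) (K * Y ^ (-(1 / 96) : ℝ)) hs hθ1 hθn.symm
        hh0 hq hM hM1 hM2 (zz m) h3.1 h3.2 hqθ2 hsm hg he1 he2
      have h5 : ∀ t ∈ range M, uu (zz (sh q t m)) ^ h = uu (zz m + (q : ℂ) * (t : ℂ)) ^ h := by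
        intro t _
        rw [zz_sh]
      rw [Finset.sum_congr rfl h5]
      refine h4.trans ?_
      have h6 : (0 : ℝ) ≤ M := by linarith
      apply mul_le_mul_of_nonneg_left _ h6
      rw [hε]
      linarith)
  refine hav.trans ?_
  -- counting
  have hYc : Y * Y ^ (-c) = Y ^ (1 - c) := by
    rw [show (1 : ℝ) - c = 1 + -c by ring, Real.rpow_add hY00, Real.rpow_one]
  have hcS := card_triv Y r1 r2 q a0 b0 S hY h2 hS
  have t1 : ε * S.card ≤ 25 * (2 + K) * Y ^ (1 - c) := by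
    calc ε * S.card ≤ ε * (25 * Y) := by gcongr
      _ = 25 * (2 + K) * (Y * Y ^ (-c)) := by rw [hε]; ring
      _ = _ := by rw [hYc]
  have t3 : ((S.filter (fun m => ¬ Far r (s / θ) (zz m))).card : ℝ) ≤ 15 * r * Y ^ (1 - c) := by
    have h3 := card_bad (S.filter (fun m => ¬ Far r (s / θ) (zz m))) r hr (2 * s) (s / θ)
      (by positivity) (by positivity) (by
        intro m hm
        have h4 := (hSn m (Finset.mem_filter.1 hm).1).2
        have h5 : ‖zz m‖ ^ 2 ≤ (2 * s) ^ 2 := nf10 _ _ h4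
        exact (le_abs_self _).trans (abs_le_of_sq_le_sq h5 (by positivity)))
      (fun m hm => (Finset.mem_filter.1 hm).2)
    refine h3.trans ?_
    have h4 : 1 ≤ s / θ := by
      rw [le_div_iff₀ hθ0, one_mul, hsY]
      exact hθ8.trans (mono _ _ (by norm_num))
    have h5 : s / θ ≤ s * Y ^ (-c) := by
      rw [div_eq_mul_inv]
      apply mul_le_mul_of_nonneg_left _ hs0.le
      rw [← invp]
      apply inv_anti₀ (posp _)
      exact (mono _ _ hc48).trans hθlo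
    calc (r : ℝ) * ((2 * (2 * s) + 1) * (2 * (s / θ) + 1))
        ≤ r * ((5 * s) * (3 * (s * Y ^ (-c)))) := by
          have h6 : 2 * (2 * s) + 1 ≤ 5 * s := by linarith
          have h7 : 2 * (s / θ) + 1 ≤ 3 * (s * Y ^ (-c)) := by linarith
          gcongr
      _ = 15 * r * (s ^ 2 * Y ^ (-c)) := by ring
      _ = 15 * r * Y ^ (1 - c) := by rw [hssq, hYc]
  have t2 : (((BB S q M).filter (fun m => ∃ t, t < M ∧ sh q t m ∉ S)).card : ℝ) ≤
      112 * Y ^ (1 - c) := by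
    by_cases h12 : r1 ≤ r2
    · have hqM : (q : ℝ) * M ≤ s * (q / θ ^ (4 * r)) := by
        calc (q : ℝ) * M ≤ q * x := by gcongr
          _ = s * (q / θ ^ (4 * r)) := by rw [hx]; ring
      have hqM2 : (q : ℝ) * M ≤ s / 2 := by
        refine hqM.trans ?_
        rw [div_eq_mul_one_div s 2]
        gcongr
      have h3 := card_bdry r1 r2 q a0 b0 S M (2 * s) hS (by
          have h33 : ((q : ℝ) * M) ^ 2 ≤ (s / 2) ^ 2 := pow_le_pow_left₀ (by positivity) hqM2 2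
          exact nf11 _ _ _ _ h33 hssq h1) (nf12 _ _ _ hssq h2) (by positivity) h12
        ((BB S q M).filter (fun m => ∃ t, t < M ∧ sh q t m ∉ S)) (by
          intro m hm
          rw [Finset.mem_filter, mem_BB] at hm
          exact hm)
      refine h3.trans ?_
      have h4 : Real.sqrt (2 * s * (q * M)) ≤ 3 / 2 * (s * Y ^ (-c)) := by
        apply Real.sqrt_le_iff.2
        refine ⟨by have := posp (-c); positivity, ?_⟩
        calc 2 * s * (q * M) ≤ 2 * s * (s * (q / θ ^ (4 * r))) := by gcongr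
          _ ≤ 2 * s * (s * Y ^ (-(2 * c))) := by gcongr
          _ = 2 * s ^ 2 * (Y ^ (-c) * Y ^ (-c)) := by
            rw [addp]
            rw [show -c + -c = -(2 * c) by ring]
            ring
          _ ≤ (3 / 2 * (s * Y ^ (-c))) ^ 2 := nf13 _ _
      have h5 : 1 ≤ s * Y ^ (-c) := by
        rw [hsY, addp]
        exact onep _ (by linarith)
      calc 2 * ((2 * (2 * s + q * M) + 1) * (4 * Real.sqrt (2 * s * (q * M)) + 2))
          ≤ 2 * ((7 * s) * (8 * (s * Y ^ (-c)))) := by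
            have h6 : 2 * (2 * s + q * M) + 1 ≤ 7 * s := by linarith
            have h7 : 4 * Real.sqrt (2 * s * (q * M)) + 2 ≤ 8 * (s * Y ^ (-c)) := by linarith
            have h8 : (0 : ℝ) ≤ 4 * Real.sqrt (2 * s * (q * M)) + 2 := by positivity
            have h9 : (0 : ℝ) ≤ 7 * s := by positivity
            gcongr
        _ = 112 * (s ^ 2 * Y ^ (-c)) := by ring
        _ = 112 * Y ^ (1 - c) := by rw [hssq, hYc]
    · have hSe : S = ∅ := by
        rw [Finset.eq_empty_iff_forall_notMem]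
        intro m hm
        have h3 := (hS m).1 hm
        exact h12 (h3.1.trans h3.2.1)
      have hBe : BB S q M = ∅ := by
        rw [Finset.eq_empty_iff_forall_notMem]
        intro m hm
        rw [mem_BB] at hm
        obtain ⟨t, _, h3⟩ := hm
        rw [hSe] at h3
        exact absurd h3 (Finset.notMem_empty _)
      rw [hBe, Finset.filter_empty, Finset.card_empty]
      have := posp (1 - c)
      push_cast
      positivity
  have e : (25 * (2 + K) + 112 + 15 * r) * Y ^ (1 - c) =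
      25 * (2 + K) * Y ^ (1 - c) + 112 * Y ^ (1 - c) + 15 * r * Y ^ (1 - c) := by ring
  rw [e]
  exact add_le_add (add_le_add t1 t2) t3

end Pool.Agent.X67
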