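import Pool.Agent.Lib.MP_a17b09_nt.MRS.Avg67

/-!
MRS section 2: large frequencies.
-/

set_option autoImplicit false

namespace Pool.Agent.X67

open Finset Complex Pool.Agent.MR36

/-- trivial bound for the number of terms -/
theorem card_triv (Y r1 r2 : ℝ) (q : ℕ) (a0 b0 : ℤ) (S : Finset (ℤ × ℤ)) (hY : 1 ≤ Y)
    (h2 : r2 ≤ 2 * Y) (hS : IsRing r1 r2 q a0 b0 S) : (S.card : ℝ) ≤ 25 * Y := by
  have hs : 1 ≤ Real.sqrt Y := Real.one_le_sqrt.2 hY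
  have hsq : Real.sqrt Y ^ 2 = Y := Real.sq_sqrt (by linarith)
  have h := card_disc S (2 * Real.sqrt Y) (by positivity) (fun m hm => by
    have h3 := ((hS m).1 hm).2.1
    rw [← zz_sq] at h3
    have h4 : ‖zz m‖ ^ 2 ≤ (2 * Real.sqrt Y) ^ 2 := by nlinarith
    exact (le_abs_self _).trans (abs_le_of_sq_le_sq h4 (by positivity)))
  nlinarith

theorem sum_triv (S : Finset (ℤ × ℤ)) (h : ℕ) : ‖∑ m ∈ S, uu (zz m) ^ h‖ ≤ S.card := by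
  refine (norm_sum_le _ _).trans ?_
  have h1 : ∀ m ∈ S, ‖uu (zz m) ^ h‖ ≤ (1 : ℝ) := by
    intro m _
    rw [norm_pow]
    exact pow_le_one₀ (norm_nonneg _) (uu_norm_le _)
  refine (Finset.sum_le_sum h1).trans ?_
  rw [Finset.sum_const, nsmul_eq_mul, mul_one]

/-- the bound for one block in terms of `s = √Y` and `θ` -/
theorem block_par (r : ℕ) (hr : 1 ≤ r) (h q M : ℕ) (s θ e1 e2 : ℝ) (hs : 1 ≤ s) (hθ : 1 ≤ θ)
    (hh : (h : ℝ) = θ ^ (2 * r * (2 * r + 1))) (hh1 : 1 ≤ h) (hq : 1 ≤ q) (hM : 1 ≤ M)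
    (hM1 : (M : ℝ) ≤ s / θ ^ (4 * r)) (hM2 : s / θ ^ (4 * r) ≤ 2 * M) (z : ℂ)
    (hz1 : s ≤ ‖z‖) (hz2 : ‖z‖ ^ 2 ≤ 2 * s ^ 2)
    (hqθ : (q : ℝ) / θ ^ (4 * r) ≤ 1 / 2)
    (hsm : ((r - 1).factorial : ℝ) * (q : ℝ) ^ r * θ ^ (6 * r) / s ≤ 1)
    (hgood : Far r (s / θ) z)
    (he1 : 2 * (q : ℝ) ^ (r + 1) / θ ^ (2 * r) ≤ e1)
    (he2 : CC36 (r - 1) * (1 / M + 20 * 4 ^ r / θ ^ r *
      (∑ h ∈ Icc 1 M, 1 / (h : ℝ)) ^ (r - 1)) ≤ e2) :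
    ‖∑ t ∈ range M, uu (z + (q : ℂ) * (t : ℂ)) ^ h‖ ≤
      M * (e1 + e2 ^ (1 / 2 ^ (r - 1) : ℝ)) := by
  have hθ0 : 0 < θ := by linarith
  have hs0 : 0 < s := by linarith
  have hz0 : 0 < ‖z‖ := by linarith
  have hz : z ≠ 0 := norm_pos_iff.1 hz0
  have hM' : (1 : ℝ) ≤ M := by exact_mod_cast hM
  have hq' : (1 : ℝ) ≤ q := by exact_mod_cast hq
  have hh' : (1 : ℝ) ≤ h := by exact_mod_cast hh1
  have a1 : (q : ℝ) * M / ‖z‖ ≤ q / θ ^ (4 * r) := by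
    rw [div_le_div_iff₀ hz0 (by positivity)]
    have h1 : (M : ℝ) * θ ^ (4 * r) ≤ s := by
      rwa [le_div_iff₀ (by positivity)] at hM1
    calc (q : ℝ) * M * θ ^ (4 * r) = q * (M * θ ^ (4 * r)) := by ring
      _ ≤ q * s := by gcongr
      _ ≤ q * ‖z‖ := by gcongr
  have a2 : (h : ℝ) * (r - 1).factorial * ((q : ℝ) / ‖z‖) ^ r * (M : ℝ) ^ (r - 1) ≤ Real.pi := by
    have hp := Real.pi_gt_three
    have h1 : (h : ℝ) * (r - 1).factorial * ((q : ℝ) / ‖z‖) ^ r * (M : ℝ) ^ (r - 1) ≤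
        θ ^ (2 * r * (2 * r + 1)) * (r - 1).factorial * ((q : ℝ) / s) ^ r *
          (s / θ ^ (4 * r)) ^ (r - 1) := by
      rw [hh]
      gcongr
    have h2 : θ ^ (2 * r * (2 * r + 1)) * ((r - 1).factorial : ℝ) * ((q : ℝ) / s) ^ r *
          (s / θ ^ (4 * r)) ^ (r - 1) = ((r - 1).factorial : ℝ) * (q : ℝ) ^ r * θ ^ (6 * r) / s := by
      obtain ⟨k, rfl⟩ : ∃ k, r = k + 1 := ⟨r - 1, by omega⟩
      rw [Nat.add_sub_cancel, div_pow, div_pow, ← pow_mul]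
      have e1 : θ ^ (2 * (k + 1) * (2 * (k + 1) + 1)) =
          θ ^ (6 * (k + 1)) * θ ^ (4 * (k + 1) * k) := by
        rw [← pow_add]; congr 1; ring
      rw [e1]
      field_simp
      ring
    linarith
  have b0 := block_raw r h q M hr hh1 hq hM z hz (s / θ) (a1.trans hqθ) (by positivity) hgood a2
  refine b0.trans ?_
  have hM0 : (0 : ℝ) ≤ M := by linarith
  rw [mul_add (M : ℝ) e1]
  have hL0 : 0 ≤ (∑ h ∈ Icc 1 M, 1 / (h : ℝ)) := Finset.sum_nonneg fun _ _ => by positivity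
  have hC0 : (0 : ℝ) ≤ CC36 (r - 1) := le_trans zero_le_one (CC_ge36 _)
  have c1 : 2 * (h : ℝ) * ((q : ℝ) * M / ‖z‖) ^ (r + 1) ≤ e1 := by
    refine le_trans ?_ he1
    calc 2 * (h : ℝ) * ((q : ℝ) * M / ‖z‖) ^ (r + 1)
        ≤ 2 * θ ^ (2 * r * (2 * r + 1)) * (q / θ ^ (4 * r)) ^ (r + 1) := by
          rw [hh]; gcongr
      _ = 2 * (q : ℝ) ^ (r + 1) / θ ^ (2 * r) := by
        rw [div_pow, ← pow_mul]
        have e1 : θ ^ (4 * r * (r + 1)) = θ ^ (2 * r * (2 * r + 1)) * θ ^ (2 * r) := by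
          rw [← pow_add]; congr 1; ring
        rw [e1]
        field_simp
  have c2 : CC36 (r - 1) * (1 / M + 20 * ‖z‖ ^ (2 * r) / (h * (s / θ) ^ r * (M : ℝ) ^ r) *
        (∑ h ∈ Icc 1 M, 1 / (h : ℝ)) ^ (r - 1)) ≤ e2 := by
    refine le_trans ?_ he2
    have h1 : 20 * ‖z‖ ^ (2 * r) / (h * (s / θ) ^ r * (M : ℝ) ^ r) ≤ 20 * 4 ^ r / θ ^ r := by
      have h2 : ‖z‖ ^ (2 * r) ≤ (2 * s ^ 2) ^ r := by
        rw [pow_mul]
        exact pow_le_pow_left₀ (by positivity) hz2 r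
      have h3 : (s / (2 * θ ^ (4 * r))) ^ r ≤ (M : ℝ) ^ r := by
        apply pow_le_pow_left₀ (by positivity)
        rw [div_le_iff₀ (by positivity)] at hM2 ⊢
        linarith
      calc 20 * ‖z‖ ^ (2 * r) / (h * (s / θ) ^ r * (M : ℝ) ^ r)
          ≤ 20 * (2 * s ^ 2) ^ r / (θ ^ (2 * r * (2 * r + 1)) * (s / θ) ^ r *
              (s / (2 * θ ^ (4 * r))) ^ r) := by
            rw [hh]; gcongr
        _ = 20 * 4 ^ r / θ ^ r := by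
          rw [mul_pow, div_pow, div_pow, mul_pow, ← pow_mul, ← pow_mul]
          have e1 : θ ^ (2 * r * (2 * r + 1)) = θ ^ (4 * r * r) * θ ^ r * θ ^ r := by
            rw [← pow_add, ← pow_add]; congr 1; ring
          have e2 : s ^ (2 * r) = s ^ r * s ^ r := by rw [← pow_add]; congr 1; ring
          have e3 : (4 : ℝ) ^ r = 2 ^ r * 2 ^ r := by rw [← mul_pow]; norm_num
          rw [e1, e2, e3]
          field_simp
    gcongr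
  have c3 : (CC36 (r - 1) * (1 / M + 20 * ‖z‖ ^ (2 * r) / (h * (s / θ) ^ r * (M : ℝ) ^ r) *
        (∑ h ∈ Icc 1 M, 1 / (h : ℝ)) ^ (r - 1))) ^ (1 / 2 ^ (r - 1) : ℝ) ≤
      e2 ^ (1 / 2 ^ (r - 1) : ℝ) := by
    apply Real.rpow_le_rpow _ c2 (by positivity)
    positivity
  exact add_le_add (mul_le_mul_of_nonneg_left c1 hM0) (mul_le_mul_of_nonneg_left c3 hM0)

end Pool.Agent.X67
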