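import Pool.Agent.Lib.MP_a17b09_nt.MRS.Wey67

/-!
MRS section 2: sums over one block.
-/

set_option autoImplicit false

namespace Pool.Agent.X67

open Finset Complex Pool.Agent.MR36

/-- `z` is far from the lines with `z ^ r` real -/
def Far (r : ℕ) (Δ : ℝ) (z : ℂ) : Prop :=
  ∀ ζ ∈ Polynomial.nthRootsFinset r (1 : ℂ), Δ ≤ ‖z - ζ * (starRingEnd ℂ) z‖

theorem im_pow_ge (r : ℕ) (hr : 1 ≤ r) (z : ℂ) (Δ : ℝ) (hΔ : 0 ≤ Δ) (h : Far r Δ z) :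
    Δ ^ r / 2 ≤ |(z ^ r).im| := by
  have hp := Complex.isPrimitiveRoot_exp r (by omega)
  have h1 := hp.pow_sub_pow_eq_prod_sub_mul (x := z) (y := (starRingEnd ℂ) z) (by omega)
  have h2 : ‖z ^ r - (starRingEnd ℂ) z ^ r‖ = 2 * |(z ^ r).im| := by
    rw [← map_pow, Complex.sub_conj, norm_mul, Complex.norm_I, mul_one, Complex.norm_real,
      Real.norm_eq_abs, abs_mul, abs_of_pos (by norm_num : (0:ℝ) < 2)]
  have h3 : Δ ^ r ≤ ‖z ^ r - (starRingEnd ℂ) z ^ r‖ := by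
    rw [h1, norm_prod]
    have h4 := Finset.prod_le_prod (s := Polynomial.nthRootsFinset r (1 : ℂ))
      (f := fun _ => Δ) (g := fun ζ => ‖z - ζ * (starRingEnd ℂ) z‖) (fun _ _ => hΔ) h
    rw [Finset.prod_const, hp.card_nthRootsFinset] at h4
    exact h4
  linarith

theorem im_inv_pow (r q : ℕ) (z : ℂ) (hz : z ≠ 0) :
    |((((q : ℂ) / z)) ^ r).im| = (q : ℝ) ^ r * |(z ^ r).im| / ‖z‖ ^ (2 * r) := by
  have h1 : ((q : ℂ) / z) ^ r = (((q : ℝ) ^ r / ‖z‖ ^ (2 * r) : ℝ) : ℂ) * (starRingEnd ℂ) (z ^ r) := by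
    have h2 : (z ^ r) * (starRingEnd ℂ) (z ^ r) = ((‖z‖ ^ (2 * r) : ℝ) : ℂ) := by
      rw [Complex.mul_conj, Complex.normSq_eq_norm_sq, norm_pow]
      congr 1
      ring
    have h3 : ((‖z‖ ^ (2 * r) : ℝ) : ℂ) ≠ 0 := by
      rw [Complex.ofReal_ne_zero]
      exact pow_ne_zero _ (norm_ne_zero_iff.2 hz)
    have h4 : z ^ r ≠ 0 := pow_ne_zero _ hz
    rw [div_pow]
    rw [Complex.ofReal_div, div_mul_eq_mul_div, div_eq_div_iff h4 h3, ← h2]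
    push_cast
    ring
  rw [h1, Complex.im_ofReal_mul, Complex.conj_im, abs_mul, abs_neg, abs_of_nonneg (by positivity)]
  ring

/-- the sum over one block -/
theorem block_raw (r h q M : ℕ) (hr : 1 ≤ r) (hh : 1 ≤ h) (hq : 1 ≤ q) (hM : 1 ≤ M) (z : ℂ)
    (hz : z ≠ 0) (Δ : ℝ) (hqM : (q : ℝ) * M / ‖z‖ ≤ 1 / 2) (hΔ : 0 < Δ) (hgood : Far r Δ z)
    (hsm : (h : ℝ) * (r - 1).factorial * ((q : ℝ) / ‖z‖) ^ r * (M : ℝ) ^ (r - 1) ≤ Real.pi) :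
    ‖∑ t ∈ range M, uu (z + (q : ℂ) * (t : ℂ)) ^ h‖ ≤
      M * (2 * h * ((q : ℝ) * M / ‖z‖) ^ (r + 1)) +
      M * (CC36 (r - 1) * (1 / M + 20 * ‖z‖ ^ (2 * r) / (h * Δ ^ r * (M : ℝ) ^ r) *
        (∑ h ∈ Icc 1 M, 1 / (h : ℝ)) ^ (r - 1))) ^ (1 / 2 ^ (r - 1) : ℝ) := by
  obtain ⟨k, rfl⟩ : ∃ k, r = k + 1 := ⟨r - 1, by omega⟩
  rw [Nat.add_sub_cancel] at hsm ⊢
  have hz0 : 0 < ‖z‖ := norm_pos_iff.2 hz
  have hh' : (1 : ℝ) ≤ h := by exact_mod_cast hh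
  have hq' : (1 : ℝ) ≤ q := by exact_mod_cast hq
  have hM' : (1 : ℝ) ≤ M := by exact_mod_cast hM
  set v : ℂ := (q : ℂ) / z with hv
  set φ : ℤ → ℝ := fun t => h * tp (k + 1) (v * t) with hφ
  have e1 : ∀ t ∈ range M, uu (z + (q : ℂ) * (t : ℂ)) ^ h = uu z ^ h * uu (1 + v * t) ^ h := by
    intro t _
    rw [← mul_pow, ← uu_mul]
    congr 2
    rw [hv]
    field_simp
  have e2 : ∀ t ∈ range M, ‖uu (1 + v * t) ^ h - exp (I * ((φ (t : ℤ) : ℝ) : ℂ))‖ ≤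
      2 * h * ((q : ℝ) * M / ‖z‖) ^ (k + 1 + 1) := by
    intro t ht
    rw [Finset.mem_range] at ht
    have h1 : ‖v * (t : ℂ)‖ ≤ (q : ℝ) * M / ‖z‖ := by
      rw [hv, norm_mul, norm_div, Complex.norm_natCast, Complex.norm_natCast]
      have : (t : ℝ) ≤ M := by exact_mod_cast ht.le
      rw [div_mul_eq_mul_div]
      gcongr
    have h2 := uu_taylor (k + 1) h (v * t) (h1.trans hqM)
    have h3 : (h : ℝ) * tp (k + 1) (v * t) = φ (t : ℤ) := by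
      rw [hφ]; simp
    rw [h3] at h2
    refine h2.trans ?_
    gcongr
  have e3 : ‖∑ t ∈ range M, uu (z + (q : ℂ) * (t : ℂ)) ^ h‖ ≤
      M * (2 * h * ((q : ℝ) * M / ‖z‖) ^ (k + 1 + 1)) +
      ‖∑ t ∈ range M, exp (I * ((φ (t : ℤ) : ℝ) : ℂ))‖ := by
    rw [Finset.sum_congr rfl e1, ← Finset.mul_sum, norm_mul, norm_pow, uu_norm hz, one_pow, one_mul]
    have h1 : ∑ t ∈ range M, uu (1 + v * t) ^ h =
        ∑ t ∈ range M, (uu (1 + v * t) ^ h - exp (I * ((φ (t : ℤ) : ℝ) : ℂ))) +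
        ∑ t ∈ range M, exp (I * ((φ (t : ℤ) : ℝ) : ℂ)) := by
      rw [← Finset.sum_add_distrib]
      refine Finset.sum_congr rfl fun t _ => ?_
      ring
    rw [h1]
    refine (norm_add_le _ _).trans ?_
    gcongr
    refine (norm_sum_le _ _).trans ((Finset.sum_le_sum e2).trans (le_of_eq ?_))
    rw [Finset.sum_const, card_range, nsmul_eq_mul]
  refine e3.trans ?_
  gcongr
  -- the Weyl sum
  set c : ℕ → ℝ := fun j => h * ((-1 : ℝ) ^ (j + 1) * (v ^ j).im / j) with hc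
  have hφ2 : φ = fun t : ℤ => ∑ j ∈ range (k + 1 + 1), c j * (t : ℝ) ^ j := by
    funext t
    rw [hφ]
    simp only
    rw [tp_poly, Finset.mul_sum]
    refine Finset.sum_congr rfl fun j _ => ?_
    rw [hc]
    ring
  set β : ℝ := c (k + 1) * (k + 1).factorial with hβd
  have hdd : ∀ n, dd36 (k + 1) φ n = β := by
    intro n
    rw [hφ2]
    exact dd_poly (k + 1) c n
  have hβ1 : |β| = h * k.factorial * ((q : ℝ) ^ (k + 1) * |(z ^ (k + 1)).im| / ‖z‖ ^ (2 * (k + 1))) := by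
    rw [← im_inv_pow (k + 1) q z hz, ← hv, hβd, hc]
    simp only
    rw [abs_mul, abs_mul, abs_div, abs_mul, abs_pow, abs_neg, abs_one, one_pow, one_mul,
      Nat.abs_cast, Nat.abs_cast, Nat.abs_cast, Nat.factorial_succ]
    push_cast
    have : (0 : ℝ) < (k : ℝ) + 1 := by positivity
    have h2 : |(k : ℝ) + 1| = (k : ℝ) + 1 := abs_of_pos this
    try rw [h2]
    field_simp
  have hlow : h * Δ ^ (k + 1) / (2 * ‖z‖ ^ (2 * (k + 1))) ≤ |β| := by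
    rw [hβ1]
    have h1 := im_pow_ge (k + 1) (by omega) z Δ hΔ.le hgood
    have h2 : (1 : ℝ) ≤ k.factorial := by exact_mod_cast Nat.factorial_pos k
    have h3 : (1 : ℝ) ≤ (q : ℝ) ^ (k + 1) := one_le_pow₀ hq'
    calc h * Δ ^ (k + 1) / (2 * ‖z‖ ^ (2 * (k + 1)))
        = h * 1 * (1 * (Δ ^ (k + 1) / 2) / ‖z‖ ^ (2 * (k + 1))) := by
          field_simp
      _ ≤ _ := by gcongr
  have hup : |β| * (M : ℝ) ^ k ≤ Real.pi := by
    refine le_trans ?_ hsm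
    rw [hβ1]
    have h1 : |(z ^ (k + 1)).im| ≤ ‖z‖ ^ (k + 1) := by
      rw [← norm_pow]; exact Complex.abs_im_le_norm _
    have h2 : (q : ℝ) ^ (k + 1) * |(z ^ (k + 1)).im| / ‖z‖ ^ (2 * (k + 1)) ≤
        ((q : ℝ) / ‖z‖) ^ (k + 1) := by
      rw [div_pow, div_le_div_iff₀ (by positivity) (by positivity)]
      calc (q : ℝ) ^ (k + 1) * |(z ^ (k + 1)).im| * ‖z‖ ^ (k + 1)
          ≤ (q : ℝ) ^ (k + 1) * ‖z‖ ^ (k + 1) * ‖z‖ ^ (k + 1) := by gcongr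
        _ = (q : ℝ) ^ (k + 1) * ‖z‖ ^ (2 * (k + 1)) := by ring
    gcongr
  have hβ0 : 0 < |β| := lt_of_lt_of_le (by positivity) hlow
  have hw := wey k φ β M hM hdd hβ0 hup
  set X := ‖∑ t ∈ range M, exp (I * ((φ (t : ℤ) : ℝ) : ℂ))‖ with hX
  set L := ∑ h ∈ Icc 1 M, 1 / (h : ℝ) with hL
  have hL0 : 0 ≤ L := Finset.sum_nonneg fun _ _ => by positivity
  have hC0 : (0 : ℝ) ≤ CC36 k := le_trans zero_le_one (CC_ge36 k)
  have h5 : 10 / (M * |β|) * (L / M) ^ k ≤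
      20 * ‖z‖ ^ (2 * (k + 1)) / (h * Δ ^ (k + 1) * (M : ℝ) ^ (k + 1)) * L ^ k := by
    have h6 : 10 / (M * |β|) ≤ 10 / (M * (h * Δ ^ (k + 1) / (2 * ‖z‖ ^ (2 * (k + 1))))) := by
      gcongr
    calc 10 / (M * |β|) * (L / M) ^ k
        ≤ 10 / (M * (h * Δ ^ (k + 1) / (2 * ‖z‖ ^ (2 * (k + 1))))) * (L / M) ^ k := by gcongr
      _ = _ := by
        rw [div_pow]
        field_simp
        try ring
  have h7 : (X / M) ^ (2 ^ k) ≤ CC36 k * (1 / M + 20 * ‖z‖ ^ (2 * (k + 1)) /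
      (h * Δ ^ (k + 1) * (M : ℝ) ^ (k + 1)) * L ^ k) := by
    refine hw.trans ?_
    gcongr
  have hX0 : 0 ≤ X := norm_nonneg _
  have h8 : X / M ≤ (CC36 k * (1 / M + 20 * ‖z‖ ^ (2 * (k + 1)) /
      (h * Δ ^ (k + 1) * (M : ℝ) ^ (k + 1)) * L ^ k)) ^ (1 / 2 ^ k : ℝ) := by
    have h9 := Real.rpow_le_rpow (by positivity) h7 (show (0 : ℝ) ≤ 1 / 2 ^ k by positivity)
    have h10 : ((X / M) ^ (2 ^ k)) ^ (1 / 2 ^ k : ℝ) = X / M := by
      rw [← Real.rpow_natCast, ← Real.rpow_mul (by positivity)]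
      push_cast
      rw [mul_one_div_cancel (by positivity), Real.rpow_one]
    rwa [h10] at h9
  rw [div_le_iff₀ (by linarith)] at h8
  linarith

end Pool.Agent.X67
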