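import Pool.Agent.Lib.MP_a17b09_nt.MRS.StmtsX67
import Pool.Agent.Lib.MP_a17b09_nt.MR.VCa63

/-!
MRS: the statement `StExp` from the statement `StVC` (dyadic decomposition).
-/

set_option autoImplicit false

open Finset

namespace Pool.Agent.Lib.MP_a17b09_nt.MRS18

open Pool.Agent.Lib.MP_a17b09_nt.LP Pool.Agent.X67

theorem zz_eq_zc (m : ℤ × ℤ) : zz m = zc m := by
  unfold zz zc
  rfl

/-- lattice points of a class in a disc -/
def IsDisc (x : ℝ) (q : ℕ) (a0 b0 : ℤ) (S : Finset (ℤ × ℤ)) : Prop :=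
  ∀ m : ℤ × ℤ, m ∈ S ↔ ((m.1 : ℝ) ^ 2 + (m.2 : ℝ) ^ 2 ≤ x ∧
    m.1 ≡ a0 [ZMOD (q : ℤ)] ∧ m.2 ≡ b0 [ZMOD (q : ℤ)])

theorem exists_disc (x : ℝ) (q : ℕ) (a0 b0 : ℤ) : ∃ S, IsDisc x q a0 b0 S := by
  classical
  refine ⟨((Finset.Icc (-⌈|x|⌉) ⌈|x|⌉) ×ˢ (Finset.Icc (-⌈|x|⌉) ⌈|x|⌉)).filter (fun m =>
    (m.1 : ℝ) ^ 2 + (m.2 : ℝ) ^ 2 ≤ x ∧ m.1 ≡ a0 [ZMOD (q : ℤ)] ∧ m.2 ≡ b0 [ZMOD (q : ℤ)]), ?_⟩
  intro m
  rw [Finset.mem_filter, Finset.mem_product, Finset.mem_Icc, Finset.mem_Icc]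
  refine ⟨fun h => h.2, fun h => ⟨?_, h⟩⟩
  have key : ∀ t : ℤ, (t : ℝ) ^ 2 ≤ x → -⌈|x|⌉ ≤ t ∧ t ≤ ⌈|x|⌉ := by
    intro t ht
    have h1 : |(t : ℝ)| ≤ |x| := by
      have h2 : |(t : ℝ)| ≤ (t : ℝ) ^ 2 := by
        rcases eq_or_ne t 0 with h0 | h0
        · rw [h0]; simp
        · have h3 : (1 : ℝ) ≤ |(t : ℝ)| := by exact_mod_cast Int.one_le_abs h0
          rw [← sq_abs]
          nlinarith
      exact (h2.trans ht).trans (le_abs_self x)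
    have h4 : |(t : ℝ)| ≤ (⌈|x|⌉ : ℝ) := h1.trans (Int.le_ceil _)
    rw [abs_le] at h4
    constructor
    · have : ((-⌈|x|⌉ : ℤ) : ℝ) ≤ t := by push_cast; exact h4.1
      exact_mod_cast this
    · exact_mod_cast h4.2
  have h5 := h.1
  exact ⟨key m.1 (by nlinarith [sq_nonneg (m.2 : ℝ)]), key m.2 (by nlinarith [sq_nonneg (m.1 : ℝ)])⟩

theorem card_disc {x : ℝ} (hx : 0 ≤ x) {q : ℕ} {a0 b0 : ℤ} {S : Finset (ℤ × ℤ)}
    (hS : IsDisc x q a0 b0 S) : (S.card : ℝ) ≤ (2 * √x + 1) ^ 2 := by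
  set r : ℕ := ⌊√x⌋₊ with hr
  have hsub : S ⊆ (Finset.Icc (-(r : ℤ)) r) ×ˢ (Finset.Icc (-(r : ℤ)) r) := by
    intro m hm
    have h5 := ((hS m).1 hm).1
    have key : ∀ t : ℤ, (t : ℝ) ^ 2 ≤ x → t ∈ Finset.Icc (-(r : ℤ)) r := by
      intro t ht
      have h1 : |(t : ℝ)| ≤ √x := Real.abs_le_sqrt ht
      have h2 : t.natAbs ≤ r := by
        apply Nat.le_floor
        rw [Nat.cast_natAbs]
        push_cast
        exact h1
      rw [Finset.mem_Icc]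
      omega
    rw [Finset.mem_product]
    exact ⟨key m.1 (by nlinarith [sq_nonneg (m.2 : ℝ)]),
      key m.2 (by nlinarith [sq_nonneg (m.1 : ℝ)])⟩
  have h1 : (S.card : ℝ) ≤ ((2 * r + 1 : ℕ) : ℝ) ^ 2 := by
    have h2 := Finset.card_le_card hsub
    rw [Finset.card_product, Int.card_Icc] at h2
    have h3 : ((r : ℤ) + 1 - -(r : ℤ)).toNat = 2 * r + 1 := by omega
    rw [h3] at h2
    have h4 : S.card ≤ (2 * r + 1) ^ 2 := by rw [sq]; exact h2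
    exact_mod_cast h4
  refine h1.trans ?_
  have h2 : (r : ℝ) ≤ √x := Nat.floor_le (Real.sqrt_nonneg x)
  push_cast
  have h3 : (0 : ℝ) ≤ r := Nat.cast_nonneg r
  nlinarith

theorem norm_unit_le (m : ℤ × ℤ) (h : ℤ) (hh : h ≠ 0) : ‖(zz m / (‖zz m‖ : ℂ)) ^ h‖ ≤ 1 := by
  rw [norm_zpow, norm_div, Complex.norm_real, norm_norm]
  by_cases h0 : ‖zz m‖ = 0
  · rw [h0, div_zero, zero_zpow h hh]
    exact zero_le_one
  · rw [div_self h0, one_zpow]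

theorem norm_sum_card (S : Finset (ℤ × ℤ)) (h : ℤ) (hh : h ≠ 0) :
    ‖∑ m ∈ S, (zz m / (‖zz m‖ : ℂ)) ^ h‖ ≤ S.card := by
  refine (norm_sum_le _ _).trans ((Finset.sum_le_sum fun m _ => norm_unit_le m h hh).trans ?_)
  rw [Finset.sum_const, nsmul_eq_mul, mul_one]

/-- discs -/
theorem disc_bound {c0 C0 B : ℝ} (hc0 : 0 < c0) (hc1 : c0 ≤ 1 / 2) (hC0 : 0 < C0) (hB : 1 ≤ B)
    {q : ℕ} (hq : 0 < q) {h : ℤ} (hh : h ≠ 0) (a0 b0 : ℤ)
    (H : ∀ Y : ℝ, B ≤ Y → ∀ S : Finset (ℤ × ℤ),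
      (∀ v : ℤ × ℤ, v ∈ S ↔ (q : ℤ) ∣ v.1 - a0 ∧ (q : ℤ) ∣ v.2 - b0 ∧
        Y < (v.1 : ℝ) ^ 2 + (v.2 : ℝ) ^ 2 ∧ (v.1 : ℝ) ^ 2 + (v.2 : ℝ) ^ 2 ≤ 2 * Y) →
      ‖∑ v ∈ S, (zz v / (‖zz v‖ : ℂ)) ^ h‖ ≤ C0 * Y ^ (1 - c0)) :
    ∀ n : ℕ, ∀ x : ℝ, 0 ≤ x → x ≤ 2 ^ n → ∀ S, IsDisc x q a0 b0 S →
      ‖∑ m ∈ S, (zz m / (‖zz m‖ : ℂ)) ^ h‖ ≤ 18 * B + 4 * C0 * x ^ (1 - c0) := by
  classical
  intro n
  induction n with
  | zero =>
    intro x hx hx1 S hS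
    rw [pow_zero] at hx1
    refine (norm_sum_card S h hh).trans ((card_disc hx hS).trans ?_)
    have h1 : √x ≤ 1 := by rw [Real.sqrt_le_one]; exact hx1
    have h2 : 0 ≤ √x := Real.sqrt_nonneg x
    have h3 : 0 ≤ x ^ (1 - c0) := Real.rpow_nonneg hx _
    nlinarith [mul_nonneg hC0.le h3]
  | succ n ih =>
    intro x hx hx1 S hS
    rcases lt_or_ge x (2 * B) with hxB | hxB
    · refine (norm_sum_card S h hh).trans ((card_disc hx hS).trans ?_)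
      have h3 : 0 ≤ x ^ (1 - c0) := Real.rpow_nonneg hx _
      have h4 : √x * √x = x := Real.mul_self_sqrt hx
      have h2 : 0 ≤ √x := Real.sqrt_nonneg x
      have h5 : √x ≤ √x * √x + 1 := by nlinarith [sq_nonneg (√x - 1)]
      nlinarith [mul_nonneg hC0.le h3]
    · obtain ⟨S1, hS1⟩ := exists_disc (x / 2) q a0 b0
      have hx2 : x / 2 ≤ 2 ^ n := by
        rw [pow_succ] at hx1
        linarith
      have h1 := ih (x / 2) (by linarith) hx2 S1 hS1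
      have hsub : S1 ⊆ S := by
        intro m hm
        have := (hS1 m).1 hm
        exact (hS m).2 ⟨this.1.trans (by linarith), this.2⟩
      have h2 := H (x / 2) (by linarith) (S \ S1) (fun v => by
        rw [Finset.mem_sdiff, hS v, hS1 v]
        constructor
        · rintro ⟨⟨h3, h4, h5⟩, h6⟩
          refine ⟨h4.symm.dvd, h5.symm.dvd, ?_, by linarith⟩
          by_contra h7
          exact h6 ⟨not_lt.1 h7, h4, h5⟩
        · rintro ⟨h3, h4, h5, h6⟩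
          have e1 : v.1 ≡ a0 [ZMOD (q : ℤ)] := (Int.modEq_iff_dvd.2 h3).symm
          have e2 : v.2 ≡ b0 [ZMOD (q : ℤ)] := (Int.modEq_iff_dvd.2 h4).symm
          exact ⟨⟨by linarith, e1, e2⟩, fun h7 => absurd h7.1 (not_le.2 h5)⟩)
      rw [← Finset.sum_sdiff hsub]
      refine (norm_add_le _ _).trans ?_
      have h3 : (x / 2) ^ (1 - c0) ≤ x ^ (1 - c0) * (3 / 4) := by
        rw [Real.div_rpow hx (by norm_num)]
        have h4 : (4 / 3 : ℝ) ≤ 2 ^ (1 - c0) := by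
          have h5 : (2 : ℝ) ^ (1 / 2 : ℝ) ≤ 2 ^ (1 - c0) :=
            Real.rpow_le_rpow_of_exponent_le (by norm_num) (by linarith)
          have h6 : (4 / 3 : ℝ) ≤ 2 ^ (1 / 2 : ℝ) := by
            rw [← Real.sqrt_eq_rpow]
            apply Real.le_sqrt_of_sq_le
            norm_num
          exact h6.trans h5
        rw [div_le_iff₀ (by linarith)]
        have h7 : 0 ≤ x ^ (1 - c0) := Real.rpow_nonneg hx _
        nlinarith
      have h4 : 0 ≤ x ^ (1 - c0) := Real.rpow_nonneg hx _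
      have h5 : 0 ≤ (x / 2) ^ (1 - c0) := Real.rpow_nonneg (by linarith) _
      have h6 : C0 * (x / 2) ^ (1 - c0) ≤ C0 * (x ^ (1 - c0) * (3 / 4)) :=
        mul_le_mul_of_nonneg_left h3 hC0.le
      nlinarith [mul_nonneg hC0.le h4]

/-- **the bridge** -/
theorem stExp_18 (hV : MR.StVC) : StExp := by
  classical
  intro A hA
  obtain ⟨c1, hc1, C1, hC1, HV⟩ := hV (1 / (4 * A)) (by positivity)
  set c0 : ℝ := min c1 (1 / 2) with hc0def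
  have hc0 : 0 < c0 := lt_min hc1 (by norm_num)
  have hc02 : c0 ≤ 1 / 2 := min_le_right _ _
  set c : ℝ := min c0 (1 / 8) with hcdef
  have hc : 0 < c := lt_min hc0 (by norm_num)
  have hc8 : c ≤ 1 / 8 := min_le_right _ _
  have hcc : c ≤ c0 := min_le_left _ _
  refine ⟨c, 2 * (18 + 4 * C1) + 1, hc, by positivity, ?_⟩
  intro Y r1 r2 h q a0 b0 S hY hr2 hh hhY hq hqY hS
  have hY0 : 0 < Y := by linarith
  set B : ℝ := Y ^ (1 / 2 : ℝ) with hBdef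
  have hB : 1 ≤ B := Real.one_le_rpow hY (by norm_num)
  have hq1 : (1 : ℝ) ≤ q := by exact_mod_cast hq
  have hT1 : (1 : ℝ) ≤ Y ^ A := Real.one_le_rpow hY (by linarith)
  have hTk : (Y ^ A) ^ (1 / (4 * A)) = Y ^ (1 / 4 : ℝ) := by
    rw [← Real.rpow_mul hY0.le]
    congr 1
    have : A ≠ 0 := by linarith
    field_simp
  have hqB : (q : ℝ) ^ 2 * (Y ^ A) ^ (1 / (4 * A)) ≤ B := by
    rw [hTk]
    have h1 : (q : ℝ) ^ 2 ≤ Y ^ (1 / 4 : ℝ) := by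
      have h2 : (q : ℝ) ≤ Y ^ (1 / 8 : ℝ) :=
        hqY.trans (Real.rpow_le_rpow_of_exponent_le hY hc8)
      calc (q : ℝ) ^ 2 ≤ (Y ^ (1 / 8 : ℝ)) ^ 2 := pow_le_pow_left₀ (by linarith) h2 2
        _ = Y ^ (1 / 4 : ℝ) := by
          rw [← Real.rpow_natCast, ← Real.rpow_mul hY0.le]
          congr 1
          norm_num
    calc (q : ℝ) ^ 2 * Y ^ (1 / 4 : ℝ) ≤ Y ^ (1 / 4 : ℝ) * Y ^ (1 / 4 : ℝ) :=
          mul_le_mul_of_nonneg_right h1 (by positivity)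
      _ = B := by
        rw [← Real.rpow_add hY0, hBdef]
        norm_num
  have H : ∀ X : ℝ, B ≤ X → ∀ S : Finset (ℤ × ℤ),
      (∀ v : ℤ × ℤ, v ∈ S ↔ (q : ℤ) ∣ v.1 - a0 ∧ (q : ℤ) ∣ v.2 - b0 ∧
        X < (v.1 : ℝ) ^ 2 + (v.2 : ℝ) ^ 2 ∧ (v.1 : ℝ) ^ 2 + (v.2 : ℝ) ^ 2 ≤ 2 * X) →
      ‖∑ v ∈ S, (zz v / (‖zz v‖ : ℂ)) ^ h‖ ≤ C1 * X ^ (1 - c0) := by
    intro X hX S' hS'
    have hX1 : 1 ≤ X := hB.trans hX
    have h1 := HV (Y ^ A) hT1 h hh hhY q (a0, b0) (by omega) X X (2 * X) (hqB.trans hX) le_rfl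
      (by linarith) le_rfl S' hS'
    have e1 : ∑ v ∈ S', (zz v / (‖zz v‖ : ℂ)) ^ h = ∑ v ∈ S', (zc v / (‖zc v‖ : ℂ)) ^ h :=
      Finset.sum_congr rfl fun v _ => by rw [zz_eq_zc]
    rw [e1]
    refine h1.trans (mul_le_mul_of_nonneg_left ?_ hC1.le)
    have hq2 : (1 : ℝ) ≤ (q : ℝ) ^ 2 := one_le_pow₀ hq1
    have h2 : X / (q : ℝ) ^ 2 ≤ X := div_le_self (by linarith) hq2
    have h3 : 1 ≤ X / (q : ℝ) ^ 2 := by
      rw [le_div_iff₀ (by linarith)]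
      have h4 : (q : ℝ) ^ 2 * (Y ^ A) ^ (1 / (4 * A)) ≤ X := hqB.trans hX
      have h5 : (1 : ℝ) ≤ (Y ^ A) ^ (1 / (4 * A)) := by
        rw [hTk]
        exact Real.one_le_rpow hY (by norm_num)
      nlinarith
    calc (X / (q : ℝ) ^ 2) ^ (1 - c1) ≤ (X / (q : ℝ) ^ 2) ^ (1 - c0) :=
          Real.rpow_le_rpow_of_exponent_le h3 (by linarith [min_le_left c1 (1 / 2)])
      _ ≤ X ^ (1 - c0) := Real.rpow_le_rpow (by linarith) h2 (by linarith)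
  have HD := disc_bound hc0 hc02 hC1 hB (by omega : 0 < q) hh a0 b0 H
  -- discs of radius at most `Y`
  have HD2 : ∀ x : ℝ, x ≤ Y → ∀ S, IsDisc x q a0 b0 S →
      ‖∑ m ∈ S, (zz m / (‖zz m‖ : ℂ)) ^ h‖ ≤ (18 + 4 * C1) * Y ^ (1 - c) := by
    intro x hxY S' hS'
    have hYc : 0 < Y ^ (1 - c) := Real.rpow_pos_of_pos hY0 _
    rcases lt_or_ge x 0 with hx | hx
    · have : S' = ∅ := by
        apply Finset.eq_empty_of_forall_notMem
        intro m hm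
        have := ((hS' m).1 hm).1
        nlinarith [sq_nonneg (m.1 : ℝ), sq_nonneg (m.2 : ℝ)]
      rw [this, Finset.sum_empty, norm_zero]
      positivity
    · obtain ⟨n, hn⟩ := pow_unbounded_of_one_lt x (by norm_num : (1 : ℝ) < 2)
      refine (HD n x hx hn.le S' hS').trans ?_
      have h1 : B ≤ Y ^ (1 - c) := Real.rpow_le_rpow_of_exponent_le hY (by linarith)
      have h2 : x ^ (1 - c0) ≤ Y ^ (1 - c) :=
        (Real.rpow_le_rpow hx hxY (by linarith)).trans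
          (Real.rpow_le_rpow_of_exponent_le hY (by linarith))
      nlinarith [mul_le_mul_of_nonneg_left h2 hC1.le]
  have hYc : 0 < Y ^ (1 - c) := Real.rpow_pos_of_pos hY0 _
  rcases lt_or_ge r2 r1 with hr | hr
  · have : S = ∅ := by
      apply Finset.eq_empty_of_forall_notMem
      intro m hm
      have := (hS m).1 hm
      linarith [this.1, this.2.1]
    rw [this, Finset.sum_empty, norm_zero]
    positivity
  · obtain ⟨S2, hS2⟩ := exists_disc r2 q a0 b0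
    obtain ⟨S1, hS1⟩ := exists_disc ((⌈r1⌉ : ℝ) - 1) q a0 b0
    have hr1 : (⌈r1⌉ : ℝ) - 1 ≤ r2 := by
      have := Int.ceil_lt_add_one r1
      linarith
    have hsub : S1 ⊆ S2 := by
      intro m hm
      have := (hS1 m).1 hm
      exact (hS2 m).2 ⟨this.1.trans hr1, this.2⟩
    have hSe : S = S2 \ S1 := by
      ext m
      rw [Finset.mem_sdiff, hS m, hS1 m, hS2 m]
      have hint : ((m.1 ^ 2 + m.2 ^ 2 : ℤ) : ℝ) = (m.1 : ℝ) ^ 2 + (m.2 : ℝ) ^ 2 := by push_cast; ring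
      have hiff : r1 ≤ (m.1 : ℝ) ^ 2 + (m.2 : ℝ) ^ 2 ↔
          ¬ ((m.1 : ℝ) ^ 2 + (m.2 : ℝ) ^ 2 ≤ (⌈r1⌉ : ℝ) - 1) := by
        rw [← hint, not_le, ← Int.ceil_le]
        constructor
        · intro h1
          have : (⌈r1⌉ : ℝ) ≤ ((m.1 ^ 2 + m.2 ^ 2 : ℤ) : ℝ) := by exact_mod_cast h1
          linarith
        · intro h1
          have h2 : ((⌈r1⌉ - 1 : ℤ) : ℝ) < ((m.1 ^ 2 + m.2 ^ 2 : ℤ) : ℝ) := by
            push_cast at h1 ⊢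
            exact h1
          have h3 : ⌈r1⌉ - 1 < m.1 ^ 2 + m.2 ^ 2 := by exact_mod_cast h2
          omega
      rw [hiff]
      constructor
      · rintro ⟨h1, h2, h3⟩
        exact ⟨⟨h2, h3⟩, fun h4 => h1 h4.1⟩
      · rintro ⟨⟨h1, h2⟩, h3⟩
        exact ⟨fun h4 => h3 ⟨h4, h2⟩, h1, h2⟩
    have e1 : ∑ m ∈ S, (zz m / (‖zz m‖ : ℂ)) ^ h =
        ∑ m ∈ S2, (zz m / (‖zz m‖ : ℂ)) ^ h - ∑ m ∈ S1, (zz m / (‖zz m‖ : ℂ)) ^ h := by
      rw [hSe, ← Finset.sum_sdiff hsub]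
      ring
    rw [e1]
    refine (norm_sub_le _ _).trans ?_
    have h1 := HD2 r2 hr2 S2 hS2
    have h2 := HD2 ((⌈r1⌉ : ℝ) - 1) (hr1.trans hr2) S1 hS1
    linarith

end Pool.Agent.Lib.MP_a17b09_nt.MRS18
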