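import Mathlib

/-!
# MRS, step (3c): the windows with a large prime sum

`Q u j` is the sum over the primes of the window `u`, `R u j` the sum over the cofactors.
-/

namespace MRS.C39

open Finset

variable {ι : Type*} [DecidableEq ι]

theorem cs_weight (I : Finset ℕ) (w : ℕ → ℝ) (hw : ∀ u ∈ I, 0 ≤ w u) (x : ℕ → ℝ) :
    (∑ u ∈ I, w u * x u) ^ 2 ≤ (∑ u ∈ I, w u) * ∑ u ∈ I, w u * x u ^ 2 := by
  have h := Finset.sum_mul_sq_le_sq_mul_sq I (fun u => Real.sqrt (w u))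
    (fun u => Real.sqrt (w u) * x u)
  have e1 : ∑ u ∈ I, Real.sqrt (w u) * (Real.sqrt (w u) * x u) = ∑ u ∈ I, w u * x u :=
    Finset.sum_congr rfl fun u hu => by rw [← mul_assoc, Real.mul_self_sqrt (hw u hu)]
  have e2 : ∑ u ∈ I, Real.sqrt (w u) ^ 2 = ∑ u ∈ I, w u :=
    Finset.sum_congr rfl fun u hu => Real.sq_sqrt (hw u hu)
  have e3 : ∑ u ∈ I, (Real.sqrt (w u) * x u) ^ 2 = ∑ u ∈ I, w u * x u ^ 2 :=
    Finset.sum_congr rfl fun u hu => by rw [mul_pow, Real.sq_sqrt (hw u hu)]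
  rwa [e1, e2, e3] at h

/-- (3c): outside a small set of frequencies the sum over the windows is small in mean square. -/
theorem main (U : Finset ι) (I : Finset ℕ) (hI : ∀ u ∈ I, 1 ≤ u) (Q R : ℕ → ι → ℂ)
    (C₁ C₂ C₃ η : ℝ) (hη : 0 < η)
    (h1 : ∀ u ∈ I, ∀ j ∈ U, ‖Q u j‖ ≤ C₁ / u)
    (h2 : ∀ u ∈ I, ∑ j ∈ U, ‖R u j‖ ^ 2 ≤ C₂)
    (h3 : ∀ u ∈ I, ∑ j ∈ U, ((u : ℝ) * ‖Q u j‖) ^ 2 ≤ C₃) :
    ∃ V ⊆ U, η ^ 3 * (V.card : ℝ) ≤ C₃ * ∑ u ∈ I, 1 / (u : ℝ) ∧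
      ∑ j ∈ U \ V, ‖∑ u ∈ I, Q u j * R u j‖ ^ 2 ≤
        2 * C₂ * (η ^ 2 * (∑ u ∈ I, 1 / (u : ℝ)) ^ 2 + C₁ ^ 2 * η * ∑ u ∈ I, 1 / (u : ℝ)) := by
  classical
  obtain ⟨L, hL⟩ : ∃ L : ℝ, L = ∑ u ∈ I, 1 / (u : ℝ) := ⟨_, rfl⟩
  rw [← hL]
  have hupos : ∀ u ∈ I, (0 : ℝ) < u := fun u hu => by exact_mod_cast hI u hu
  have hw0 : ∀ u ∈ I, (0 : ℝ) ≤ 1 / u := fun u hu => (one_div_pos.2 (hupos u hu)).le
  have hL0 : 0 ≤ L := hL ▸ Finset.sum_nonneg hw0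
  obtain ⟨B, hB⟩ : ∃ B : ι → Finset ℕ, B = fun j => I.filter fun u => η / u ≤ ‖Q u j‖ := ⟨_, rfl⟩
  have hBd : ∀ j, B j = I.filter fun u => η / u ≤ ‖Q u j‖ := fun j => by rw [hB]
  obtain ⟨V, hV⟩ : ∃ V : Finset ι, V = U.filter fun j => η < ∑ u ∈ B j, 1 / (u : ℝ) := ⟨_, rfl⟩
  refine ⟨V, hV ▸ Finset.filter_subset _ _, ?_, ?_⟩
  · have e1 : (V.card : ℝ) * η ≤ ∑ j ∈ U, ∑ u ∈ B j, 1 / (u : ℝ) := by
      calc (V.card : ℝ) * η = ∑ _j ∈ V, η := by rw [Finset.sum_const, nsmul_eq_mul]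
        _ ≤ ∑ j ∈ V, ∑ u ∈ B j, 1 / (u : ℝ) := by
            refine Finset.sum_le_sum fun j hj => ?_
            rw [hV, Finset.mem_filter] at hj
            exact hj.2.le
        _ ≤ ∑ j ∈ U, ∑ u ∈ B j, 1 / (u : ℝ) := by
            refine Finset.sum_le_sum_of_subset_of_nonneg (hV ▸ Finset.filter_subset _ _) ?_
            intro j _ _
            refine Finset.sum_nonneg fun u hu => ?_
            rw [hBd, Finset.mem_filter] at hu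
            exact hw0 u hu.1
    have e2 : ∑ j ∈ U, ∑ u ∈ B j, 1 / (u : ℝ) =
        ∑ u ∈ I, ∑ j ∈ U, if η / u ≤ ‖Q u j‖ then 1 / (u : ℝ) else 0 := by
      rw [Finset.sum_comm]
      refine Finset.sum_congr rfl fun j _ => ?_
      rw [hBd, Finset.sum_filter]
    have e3 : ∀ u ∈ I, η ^ 2 * (∑ j ∈ U, if η / u ≤ ‖Q u j‖ then 1 / (u : ℝ) else 0) ≤
        C₃ * (1 / u) := by
      intro u hu
      have hu0 := hupos u hu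
      have e4 : ∀ j ∈ U, η ^ 2 * (if η / u ≤ ‖Q u j‖ then 1 / (u : ℝ) else 0) ≤
          ((u : ℝ) * ‖Q u j‖) ^ 2 * (1 / u) := by
        intro j _
        split_ifs with hc
        · have h5 : η ≤ u * ‖Q u j‖ := by
            rw [div_le_iff₀ hu0] at hc
            linarith
          have h6 : η ^ 2 ≤ ((u : ℝ) * ‖Q u j‖) ^ 2 := pow_le_pow_left₀ hη.le h5 2
          exact mul_le_mul_of_nonneg_right h6 (hw0 u hu)
        · rw [mul_zero]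
          exact mul_nonneg (sq_nonneg _) (hw0 u hu)
      calc η ^ 2 * (∑ j ∈ U, if η / u ≤ ‖Q u j‖ then 1 / (u : ℝ) else 0)
          = ∑ j ∈ U, η ^ 2 * (if η / u ≤ ‖Q u j‖ then 1 / (u : ℝ) else 0) := by
            rw [Finset.mul_sum]
        _ ≤ ∑ j ∈ U, ((u : ℝ) * ‖Q u j‖) ^ 2 * (1 / u) := Finset.sum_le_sum e4
        _ = (∑ j ∈ U, ((u : ℝ) * ‖Q u j‖) ^ 2) * (1 / u) := by rw [Finset.sum_mul]
        _ ≤ C₃ * (1 / u) := mul_le_mul_of_nonneg_right (h3 u hu) (hw0 u hu)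
    have e5 : η ^ 2 * ∑ j ∈ U, ∑ u ∈ B j, 1 / (u : ℝ) ≤ C₃ * L := by
      rw [e2, Finset.mul_sum, hL, Finset.mul_sum]
      exact Finset.sum_le_sum e3
    have e6 : η ^ 2 * ((V.card : ℝ) * η) ≤ η ^ 2 * ∑ j ∈ U, ∑ u ∈ B j, 1 / (u : ℝ) :=
      mul_le_mul_of_nonneg_left e1 (sq_nonneg η)
    calc η ^ 3 * (V.card : ℝ) = η ^ 2 * ((V.card : ℝ) * η) := by ring
      _ ≤ _ := e6.trans e5
  · have key : ∀ j ∈ U \ V, ‖∑ u ∈ I, Q u j * R u j‖ ^ 2 ≤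
        2 * (η ^ 2 * L + C₁ ^ 2 * η) * ∑ u ∈ I, 1 / (u : ℝ) * ‖R u j‖ ^ 2 := by
      intro j hj
      rw [Finset.mem_sdiff] at hj
      obtain ⟨hjU, hjV⟩ := hj
      have hjB : ∑ u ∈ B j, 1 / (u : ℝ) ≤ η := by
        by_contra hcon
        push Not at hcon
        exact hjV (by rw [hV, Finset.mem_filter]; exact ⟨hjU, hcon⟩)
      obtain ⟨S, hS⟩ : ∃ S : ℝ, S = ∑ u ∈ I, 1 / (u : ℝ) * ‖R u j‖ ^ 2 := ⟨_, rfl⟩
      rw [← hS]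
      have hS0 : 0 ≤ S := hS ▸ Finset.sum_nonneg fun u hu =>
        mul_nonneg (hw0 u hu) (sq_nonneg _)
      -- the two parts
      have p1 : (∑ u ∈ I \ B j, ‖Q u j‖ * ‖R u j‖) ^ 2 ≤ η ^ 2 * L * S := by
        have q1 : ∑ u ∈ I \ B j, ‖Q u j‖ * ‖R u j‖ ≤ ∑ u ∈ I, 1 / (u : ℝ) * (η * ‖R u j‖) := by
          refine (Finset.sum_le_sum (g := fun u : ℕ => 1 / (u : ℝ) * (η * ‖R u j‖)) ?_).trans
            (Finset.sum_le_sum_of_subset_of_nonneg Finset.sdiff_subset ?_)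
          · intro u hu
            rw [Finset.mem_sdiff, hBd, Finset.mem_filter] at hu
            have q2 : ‖Q u j‖ ≤ η / u := by
              by_contra hcon
              push Not at hcon
              exact hu.2 ⟨hu.1, hcon.le⟩
            calc ‖Q u j‖ * ‖R u j‖ ≤ η / u * ‖R u j‖ :=
                  mul_le_mul_of_nonneg_right q2 (norm_nonneg _)
              _ = _ := by ring
          · intro u hu _
            exact mul_nonneg (hw0 u hu) (mul_nonneg hη.le (norm_nonneg _))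
        have q0 : 0 ≤ ∑ u ∈ I \ B j, ‖Q u j‖ * ‖R u j‖ :=
          Finset.sum_nonneg fun u _ => mul_nonneg (norm_nonneg _) (norm_nonneg _)
        have q3 := cs_weight I (fun u : ℕ => 1 / (u : ℝ)) hw0 (fun u => η * ‖R u j‖)
        have q4 : ∑ u ∈ I, 1 / (u : ℝ) * (η * ‖R u j‖) ^ 2 = η ^ 2 * S := by
          rw [hS, Finset.mul_sum]
          exact Finset.sum_congr rfl fun u _ => by ring
        rw [q4, ← hL] at q3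
        calc (∑ u ∈ I \ B j, ‖Q u j‖ * ‖R u j‖) ^ 2
            ≤ (∑ u ∈ I, 1 / (u : ℝ) * (η * ‖R u j‖)) ^ 2 := pow_le_pow_left₀ q0 q1 2
          _ ≤ L * (η ^ 2 * S) := q3
          _ = _ := by ring
      have p2 : (∑ u ∈ B j, ‖Q u j‖ * ‖R u j‖) ^ 2 ≤ C₁ ^ 2 * η * S := by
        have hBI : B j ⊆ I := by rw [hBd]; exact Finset.filter_subset _ _
        have q1 : ∑ u ∈ B j, ‖Q u j‖ * ‖R u j‖ ≤ ∑ u ∈ B j, 1 / (u : ℝ) * (C₁ * ‖R u j‖) := by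
          refine Finset.sum_le_sum fun u hu => ?_
          calc ‖Q u j‖ * ‖R u j‖ ≤ C₁ / u * ‖R u j‖ :=
                mul_le_mul_of_nonneg_right (h1 u (hBI hu) j hjU) (norm_nonneg _)
            _ = _ := by ring
        have q0 : 0 ≤ ∑ u ∈ B j, ‖Q u j‖ * ‖R u j‖ :=
          Finset.sum_nonneg fun u _ => mul_nonneg (norm_nonneg _) (norm_nonneg _)
        have q3 := cs_weight (B j) (fun u : ℕ => 1 / (u : ℝ)) (fun u hu => hw0 u (hBI hu))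
          (fun u => C₁ * ‖R u j‖)
        have q5 : ∑ u ∈ B j, 1 / (u : ℝ) * (C₁ * ‖R u j‖) ^ 2 ≤ C₁ ^ 2 * S := by
          calc ∑ u ∈ B j, 1 / (u : ℝ) * (C₁ * ‖R u j‖) ^ 2
              = C₁ ^ 2 * ∑ u ∈ B j, 1 / (u : ℝ) * ‖R u j‖ ^ 2 := by
                rw [Finset.mul_sum]
                exact Finset.sum_congr rfl fun u _ => by ring
            _ ≤ C₁ ^ 2 * S := by
                refine mul_le_mul_of_nonneg_left ?_ (sq_nonneg _)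
                rw [hS]
                exact Finset.sum_le_sum_of_subset_of_nonneg hBI fun u hu _ =>
                  mul_nonneg (hw0 u hu) (sq_nonneg _)
        have q6 : 0 ≤ ∑ u ∈ B j, 1 / (u : ℝ) * (C₁ * ‖R u j‖) ^ 2 :=
          Finset.sum_nonneg fun u hu => mul_nonneg (hw0 u (hBI hu)) (sq_nonneg _)
        calc (∑ u ∈ B j, ‖Q u j‖ * ‖R u j‖) ^ 2
            ≤ (∑ u ∈ B j, 1 / (u : ℝ) * (C₁ * ‖R u j‖)) ^ 2 := pow_le_pow_left₀ q0 q1 2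
          _ ≤ (∑ u ∈ B j, 1 / (u : ℝ)) * ∑ u ∈ B j, 1 / (u : ℝ) * (C₁ * ‖R u j‖) ^ 2 := q3
          _ ≤ η * (C₁ ^ 2 * S) := mul_le_mul hjB q5 q6 hη.le
          _ = _ := by ring
      have p3 : ‖∑ u ∈ I, Q u j * R u j‖ ≤
          (∑ u ∈ I \ B j, ‖Q u j‖ * ‖R u j‖) + ∑ u ∈ B j, ‖Q u j‖ * ‖R u j‖ := by
        have hBI : B j ⊆ I := by rw [hBd]; exact Finset.filter_subset _ _
        rw [Finset.sum_sdiff hBI]
        refine (norm_sum_le _ _).trans (Finset.sum_le_sum fun u _ => ?_)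
        rw [norm_mul]
      obtain ⟨a, ha⟩ : ∃ a : ℝ, a = ∑ u ∈ I \ B j, ‖Q u j‖ * ‖R u j‖ := ⟨_, rfl⟩
      obtain ⟨b, hb⟩ : ∃ b : ℝ, b = ∑ u ∈ B j, ‖Q u j‖ * ‖R u j‖ := ⟨_, rfl⟩
      rw [← ha] at p1 p3
      rw [← hb] at p2 p3
      have p4 : ‖∑ u ∈ I, Q u j * R u j‖ ^ 2 ≤ (a + b) ^ 2 :=
        pow_le_pow_left₀ (norm_nonneg _) p3 2
      nlinarith [sq_nonneg (a - b)]
    calc ∑ j ∈ U \ V, ‖∑ u ∈ I, Q u j * R u j‖ ^ 2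
        ≤ ∑ j ∈ U \ V, 2 * (η ^ 2 * L + C₁ ^ 2 * η) * ∑ u ∈ I, 1 / (u : ℝ) * ‖R u j‖ ^ 2 :=
          Finset.sum_le_sum key
      _ = 2 * (η ^ 2 * L + C₁ ^ 2 * η) * ∑ u ∈ I, 1 / (u : ℝ) * ∑ j ∈ U \ V, ‖R u j‖ ^ 2 := by
          rw [← Finset.mul_sum, Finset.sum_comm]
          congr 1
          exact Finset.sum_congr rfl fun u _ => by rw [Finset.mul_sum]
      _ ≤ 2 * (η ^ 2 * L + C₁ ^ 2 * η) * ∑ u ∈ I, 1 / (u : ℝ) * C₂ := by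
          refine mul_le_mul_of_nonneg_left (Finset.sum_le_sum fun u hu => ?_) (by positivity)
          refine mul_le_mul_of_nonneg_left (le_trans ?_ (h2 u hu)) (hw0 u hu)
          exact Finset.sum_le_sum_of_subset_of_nonneg Finset.sdiff_subset fun j _ _ =>
            sq_nonneg _
      _ = 2 * (η ^ 2 * L + C₁ ^ 2 * η) * (L * C₂) := by rw [← Finset.sum_mul, ← hL]
      _ = _ := by ring

/-- (3c) with the error term and a uniform bound on the exceptional frequencies. -/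
theorem main' (U : Finset ι) (I : Finset ℕ) (hI : ∀ u ∈ I, 1 ≤ u) (Q R : ℕ → ι → ℂ)
    (C₁ C₂ C₃ η E₀ μ : ℝ) (hη : 0 < η)
    (h1 : ∀ u ∈ I, ∀ j ∈ U, ‖Q u j‖ ≤ C₁ / u)
    (h2 : ∀ u ∈ I, ∑ j ∈ U, ‖R u j‖ ^ 2 ≤ C₂)
    (h3 : ∀ u ∈ I, ∑ j ∈ U, ((u : ℝ) * ‖Q u j‖) ^ 2 ≤ C₃)
    (M E : ι → ℂ) (hM : ∀ j ∈ U, M j = (∑ u ∈ I, Q u j * R u j) + E j)
    (hE : ∑ j ∈ U, ‖E j‖ ^ 2 ≤ E₀) (hμ : ∀ j ∈ U, ‖M j‖ ≤ μ) :
    ∑ j ∈ U, ‖M j‖ ^ 2 ≤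
      4 * C₂ * (η ^ 2 * (∑ u ∈ I, 1 / (u : ℝ)) ^ 2 + C₁ ^ 2 * η * ∑ u ∈ I, 1 / (u : ℝ)) +
        2 * E₀ + C₃ * (∑ u ∈ I, 1 / (u : ℝ)) / η ^ 3 * μ ^ 2 := by
  classical
  obtain ⟨V, hVU, hV, hs⟩ := main U I hI Q R C₁ C₂ C₃ η hη h1 h2 h3
  obtain ⟨L, hL⟩ : ∃ L : ℝ, L = ∑ u ∈ I, 1 / (u : ℝ) := ⟨_, rfl⟩
  rw [← hL] at hV hs ⊢
  have hη3 : 0 < η ^ 3 := by positivity
  have a1 : ∑ j ∈ U, ‖M j‖ ^ 2 = ∑ j ∈ U \ V, ‖M j‖ ^ 2 + ∑ j ∈ V, ‖M j‖ ^ 2 :=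
    (Finset.sum_sdiff hVU).symm
  have a2 : ∑ j ∈ V, ‖M j‖ ^ 2 ≤ C₃ * L / η ^ 3 * μ ^ 2 := by
    calc ∑ j ∈ V, ‖M j‖ ^ 2 ≤ ∑ _j ∈ V, μ ^ 2 :=
          Finset.sum_le_sum fun j hj => pow_le_pow_left₀ (norm_nonneg _) (hμ j (hVU hj)) 2
      _ = V.card * μ ^ 2 := by rw [Finset.sum_const, nsmul_eq_mul]
      _ ≤ _ := by
          refine mul_le_mul_of_nonneg_right ?_ (sq_nonneg _)
          rw [le_div_iff₀ hη3]
          linarith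
  have a3 : ∑ j ∈ U \ V, ‖M j‖ ^ 2 ≤
      2 * (∑ j ∈ U \ V, ‖∑ u ∈ I, Q u j * R u j‖ ^ 2) + 2 * ∑ j ∈ U \ V, ‖E j‖ ^ 2 := by
    rw [Finset.mul_sum, Finset.mul_sum, ← Finset.sum_add_distrib]
    refine Finset.sum_le_sum fun j hj => ?_
    rw [hM j (Finset.sdiff_subset hj)]
    have b1 := norm_add_le (∑ u ∈ I, Q u j * R u j) (E j)
    have b2 := pow_le_pow_left₀ (norm_nonneg _) b1 2
    nlinarith [sq_nonneg (‖∑ u ∈ I, Q u j * R u j‖ - ‖E j‖)]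
  have a4 : ∑ j ∈ U \ V, ‖E j‖ ^ 2 ≤ E₀ :=
    (Finset.sum_le_sum_of_subset_of_nonneg Finset.sdiff_subset fun j _ _ => sq_nonneg _).trans hE
  rw [a1]
  linarith

end MRS.C39
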