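import Pool.Agent.Lib.MP_a17b09_nt.MRS.StmtsX67

/-!
Project MRS (MP_a17b09_nt), section 2: small frequencies, by comparison with the integral over cells.
-/

set_option autoImplicit false

open Finset Complex MeasureTheory

namespace Pool.Agent.Lib.MP_a17b09_nt.MRS18

open Pool.Agent.X67

/-- the unit vector to the power `h` -/
noncomputable def F (h : ℤ) (z : ℂ) : ℂ := (z / (‖z‖ : ℂ)) ^ h

theorem norm_unit_le (z : ℂ) : ‖z / (‖z‖ : ℂ)‖ ≤ 1 := by
  rcases eq_or_ne z 0 with h | h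
  · rw [h]; simp
  · rw [norm_div, Complex.norm_real, norm_norm, div_self (norm_ne_zero_iff.2 h)]

theorem norm_unit {z : ℂ} (h : z ≠ 0) : ‖z / (‖z‖ : ℂ)‖ = 1 := by
  rw [norm_div, Complex.norm_real, norm_norm, div_self (norm_ne_zero_iff.2 h)]

theorem norm_F_le (h : ℤ) (z : ℂ) : ‖F h z‖ ≤ 1 := by
  unfold F
  rcases eq_or_ne z 0 with hz | hz
  · rw [hz, zero_div]
    rcases eq_or_ne h 0 with h0 | h0
    · rw [h0]; simp
    · rw [zero_zpow _ h0]; simp
  · rw [norm_zpow, norm_unit hz, one_zpow]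

theorem pow_sub_le {u v : ℂ} (hu : ‖u‖ ≤ 1) (hv : ‖v‖ ≤ 1) (n : ℕ) :
    ‖u ^ n - v ^ n‖ ≤ n * ‖u - v‖ := by
  induction n with
  | zero => simp
  | succ n ih =>
    have e : u ^ (n + 1) - v ^ (n + 1) = u ^ n * (u - v) + (u ^ n - v ^ n) * v := by ring
    rw [e]
    refine (norm_add_le _ _).trans ?_
    rw [norm_mul, norm_mul, norm_pow]
    have h1 : ‖u‖ ^ n ≤ 1 := pow_le_one₀ (norm_nonneg _) hu
    have h2 := norm_nonneg (u - v)
    have h3 := norm_nonneg (u ^ n - v ^ n)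
    push_cast
    nlinarith [mul_le_mul_of_nonneg_right h1 h2, mul_le_mul_of_nonneg_left hv h3]

theorem zpow_sub_le {u v : ℂ} (hu : ‖u‖ = 1) (hv : ‖v‖ = 1) (h : ℤ) :
    ‖u ^ h - v ^ h‖ ≤ |(h : ℝ)| * ‖u - v‖ := by
  rcases Int.eq_nat_or_neg h with ⟨n, hn | hn⟩
  · rw [hn, zpow_natCast, zpow_natCast]
    refine (pow_sub_le hu.le hv.le n).trans (le_of_eq ?_)
    congr 1
    rw [abs_of_nonneg (by positivity)]
    push_cast
    rfl
  · rw [hn, zpow_neg, zpow_neg, zpow_natCast, zpow_natCast]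
    have hu0 : u ≠ 0 := by intro h0; rw [h0, norm_zero] at hu; exact zero_ne_one hu
    have hv0 : v ≠ 0 := by intro h0; rw [h0, norm_zero] at hv; exact zero_ne_one hv
    have hun : u ^ n ≠ 0 := pow_ne_zero _ hu0
    have hvn : v ^ n ≠ 0 := pow_ne_zero _ hv0
    have e : (u ^ n)⁻¹ - (v ^ n)⁻¹ = -((u ^ n - v ^ n) * (u ^ n)⁻¹ * (v ^ n)⁻¹) := by
      field_simp
      ring
    rw [e, norm_neg, norm_mul, norm_mul, norm_inv, norm_inv, norm_pow, norm_pow, hu, hv, one_pow,
      inv_one, mul_one, mul_one]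
    refine (pow_sub_le hu.le hv.le n).trans (le_of_eq ?_)
    congr 1
    push_cast
    rw [abs_neg, abs_of_nonneg (by positivity)]

theorem unit_sub_le {z w : ℂ} (hz : z ≠ 0) (hw : w ≠ 0) :
    ‖w / (‖w‖ : ℂ) - z / (‖z‖ : ℂ)‖ ≤ 2 * ‖w - z‖ / ‖z‖ := by
  have hz' : (0 : ℝ) < ‖z‖ := norm_pos_iff.2 hz
  have hw' : (0 : ℝ) < ‖w‖ := norm_pos_iff.2 hw
  have hzc : (‖z‖ : ℂ) ≠ 0 := by exact_mod_cast hz'.ne'
  have hwc : (‖w‖ : ℂ) ≠ 0 := by exact_mod_cast hw'.ne'
  have e : w / (‖w‖ : ℂ) - z / (‖z‖ : ℂ) =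
      ((w - z) + (w / (‖w‖ : ℂ)) * ((‖z‖ - ‖w‖ : ℝ) : ℂ)) / (‖z‖ : ℂ) := by
    push_cast
    field_simp
    ring
  rw [e, norm_div, Complex.norm_real, norm_norm]
  refine div_le_div_of_nonneg_right ?_ hz'.le
  refine (norm_add_le _ _).trans ?_
  rw [norm_mul, norm_unit hw, one_mul, Complex.norm_real, Real.norm_eq_abs]
  have := abs_norm_sub_norm_le z w
  rw [norm_sub_rev] at this
  linarith

theorem F_sub_le (h : ℤ) {z w : ℂ} (hz : z ≠ 0) (hw : w ≠ 0) :
    ‖F h w - F h z‖ ≤ |(h : ℝ)| * (2 * ‖w - z‖ / ‖z‖) := by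
  unfold F
  refine (zpow_sub_le (norm_unit hw) (norm_unit hz) h).trans ?_
  exact mul_le_mul_of_nonneg_left (unit_sub_le hz hw) (abs_nonneg _)

/-- the half open square with corner `m` and side `q` -/
def cell (q : ℕ) (m : ℤ × ℤ) : Set ℂ :=
  Set.Ico (m.1 : ℝ) (m.1 + q) ×ℂ Set.Ico (m.2 : ℝ) (m.2 + q)

theorem mem_cell {q : ℕ} {m : ℤ × ℤ} {z : ℂ} : z ∈ cell q m ↔
    ((m.1 : ℝ) ≤ z.re ∧ z.re < m.1 + q) ∧ ((m.2 : ℝ) ≤ z.im ∧ z.im < m.2 + q) := by
  unfold cell
  rw [Complex.mem_reProdIm, Set.mem_Ico, Set.mem_Ico]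

theorem measurable_cell (q : ℕ) (m : ℤ × ℤ) : MeasurableSet (cell q m) :=
  (measurableSet_Ico.preimage measurable_re).inter (measurableSet_Ico.preimage measurable_im)

theorem volume_cell (q : ℕ) (m : ℤ × ℤ) : volume (cell q m) = ENNReal.ofReal ((q : ℝ) ^ 2) := by
  have h1 : cell q m = Complex.measurableEquivRealProd ⁻¹'
      (Set.Ico (m.1 : ℝ) (m.1 + q) ×ˢ Set.Ico (m.2 : ℝ) (m.2 + q)) := by
    ext z
    rw [mem_cell]
    simp [Complex.measurableEquivRealProd]
  rw [h1, Complex.volume_preserving_equiv_real_prod.measure_preimage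
    (measurableSet_Ico.prod measurableSet_Ico).nullMeasurableSet]
  rw [Measure.volume_eq_prod, Measure.prod_prod, Real.volume_Ico, Real.volume_Ico,
    add_sub_cancel_left, add_sub_cancel_left, ← ENNReal.ofReal_mul (by positivity)]
  congr 1
  ring

/-- the lattice point of the class whose cell contains `z` -/
noncomputable def corner (q : ℕ) (a0 b0 : ℤ) (z : ℂ) : ℤ × ℤ :=
  (a0 + q * ⌊(z.re - a0) / q⌋, b0 + q * ⌊(z.im - b0) / q⌋)

theorem corner_mem {q : ℕ} (hq : 0 < q) (a0 b0 : ℤ) (z : ℂ) : z ∈ cell q (corner q a0 b0 z) := by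
  have hq' : (0 : ℝ) < q := by exact_mod_cast hq
  rw [mem_cell]
  unfold corner
  push_cast
  have h1 := Int.floor_le ((z.re - a0) / q)
  have h2 := Int.lt_floor_add_one ((z.re - a0) / q)
  have h3 := Int.floor_le ((z.im - b0) / q)
  have h4 := Int.lt_floor_add_one ((z.im - b0) / q)
  rw [le_div_iff₀ hq'] at h1 h3
  rw [div_lt_iff₀ hq'] at h2 h4
  refine ⟨⟨by linarith, by linarith⟩, ⟨by linarith, by linarith⟩⟩

theorem corner_modEq (q : ℕ) (a0 b0 : ℤ) (z : ℂ) :
    (corner q a0 b0 z).1 ≡ a0 [ZMOD (q : ℤ)] ∧ (corner q a0 b0 z).2 ≡ b0 [ZMOD (q : ℤ)] := by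
  unfold corner
  constructor
  · exact (Int.modEq_iff_dvd.2 ⟨-⌊(z.re - a0) / q⌋, by ring⟩)
  · exact (Int.modEq_iff_dvd.2 ⟨-⌊(z.im - b0) / q⌋, by ring⟩)

theorem int_unique {q : ℕ} {a b : ℤ} {x : ℝ} (hab : a ≡ b [ZMOD (q : ℤ)]) (h1 : (a : ℝ) ≤ x)
    (h2 : x < a + q) (h3 : (b : ℝ) ≤ x) (h4 : x < b + q) : a = b := by
  obtain ⟨t, ht⟩ := Int.modEq_iff_dvd.1 hab
  have e1 : (b : ℝ) - a < q := by linarith
  have e2 : (a : ℝ) - b < q := by linarith
  have e1' : b - a < q := by exact_mod_cast e1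
  have e2' : a - b < q := by exact_mod_cast e2
  have hq : (0 : ℤ) ≤ q := Int.natCast_nonneg q
  have ht0 : t = 0 := by
    rcases lt_trichotomy t 0 with h | h | h
    · exfalso; nlinarith
    · exact h
    · exfalso; nlinarith
  rw [ht0] at ht
  omega

theorem corner_unique {q : ℕ} (hq : 0 < q) {a0 b0 : ℤ} {m : ℤ × ℤ} {z : ℂ}
    (h1 : m.1 ≡ a0 [ZMOD (q : ℤ)]) (h2 : m.2 ≡ b0 [ZMOD (q : ℤ)]) (hz : z ∈ cell q m) :
    m = corner q a0 b0 z := by
  have h3 := corner_mem hq a0 b0 z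
  obtain ⟨h4, h5⟩ := corner_modEq q a0 b0 z
  rw [mem_cell] at hz h3
  refine Prod.ext ?_ ?_
  · exact int_unique (h1.trans h4.symm) hz.1.1 hz.1.2 h3.1.1 h3.1.2
  · exact int_unique (h2.trans h5.symm) hz.2.1 hz.2.2 h3.2.1 h3.2.2

theorem cell_dist {q : ℕ} {m : ℤ × ℤ} {z : ℂ} (hz : z ∈ cell q m) : ‖zz m - z‖ ≤ 2 * q := by
  rw [mem_cell] at hz
  have h1 := Complex.norm_le_abs_re_add_abs_im (zz m - z)
  have e1 : (zz m - z).re = m.1 - z.re := by simp [zz]
  have e2 : (zz m - z).im = m.2 - z.im := by simp [zz]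
  rw [e1, e2] at h1
  have h2 : |(m.1 : ℝ) - z.re| ≤ q := by rw [abs_le]; constructor <;> linarith [hz.1.1, hz.1.2]
  have h3 : |(m.2 : ℝ) - z.im| ≤ q := by rw [abs_le]; constructor <;> linarith [hz.2.1, hz.2.2]
  linarith

theorem norm_zz_sq (m : ℤ × ℤ) : ‖zz m‖ ^ 2 = (m.1 : ℝ) ^ 2 + (m.2 : ℝ) ^ 2 := by
  rw [Complex.sq_norm, Complex.normSq_apply]
  simp [zz]
  ring

/-- the ring -/
def ring (r1 r2 : ℝ) : Set ℂ := {z | r1 ≤ ‖z‖ ^ 2 ∧ ‖z‖ ^ 2 ≤ r2}

theorem measurable_ring (r1 r2 : ℝ) : MeasurableSet (ring r1 r2) := by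
  have h : Measurable fun z : ℂ => ‖z‖ ^ 2 := by fun_prop
  exact (measurableSet_le measurable_const h).inter (measurableSet_le h measurable_const)

/-- the zone around a circle -/
def zone (R q : ℝ) : Set ℂ := {z | R - 2 * q ≤ ‖z‖ ∧ ‖z‖ ≤ R + 2 * q}

theorem measurable_zone (R q : ℝ) : MeasurableSet (zone R q) := by
  have h : Measurable fun z : ℂ => ‖z‖ := by fun_prop
  exact (measurableSet_le measurable_const h).inter (measurableSet_le h measurable_const)

theorem zone_sub (R q : ℝ) : zone R q ⊆ Metric.closedBall 0 (R + 2 * q) := fun z hz => by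
  rw [mem_closedBall_zero_iff]; exact hz.2

theorem vol_cb {R : ℝ} (hR : 0 ≤ R) : (volume (Metric.closedBall (0 : ℂ) R)).toReal =
    Real.pi * R ^ 2 := by
  rw [Complex.volume_closedBall]
  rw [ENNReal.toReal_mul, ENNReal.toReal_pow, ENNReal.toReal_ofReal hR]
  simp [mul_comm]

theorem vol_b {R : ℝ} (hR : 0 ≤ R) : (volume (Metric.ball (0 : ℂ) R)).toReal =
    Real.pi * R ^ 2 := by
  rw [Complex.volume_ball]
  rw [ENNReal.toReal_mul, ENNReal.toReal_pow, ENNReal.toReal_ofReal hR]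
  simp [mul_comm]

theorem vol_zone {R q : ℝ} (hR : 0 ≤ R) (hq : 0 ≤ q) :
    (volume (zone R q)).toReal ≤ Real.pi * (8 * R * q + 16 * q ^ 2) := by
  have hpi := Real.pi_pos
  have hfin : volume (Metric.closedBall (0 : ℂ) (R + 2 * q)) ≠ ⊤ := measure_closedBall_lt_top.ne
  rcases le_or_gt (2 * q) R with h | h
  · have h1 : zone R q ⊆ Metric.closedBall (0 : ℂ) (R + 2 * q) \ Metric.ball 0 (R - 2 * q) := by
      intro z hz
      refine ⟨zone_sub R q hz, ?_⟩
      rw [mem_ball_zero_iff, not_lt]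
      exact hz.1
    have h2 : (Metric.ball (0 : ℂ) (R - 2 * q)) ⊆ Metric.closedBall 0 (R + 2 * q) :=
      (Metric.ball_subset_closedBall).trans (Metric.closedBall_subset_closedBall (by linarith))
    calc (volume (zone R q)).toReal
        ≤ (volume (Metric.closedBall (0 : ℂ) (R + 2 * q) \ Metric.ball 0 (R - 2 * q))).toReal :=
          ENNReal.toReal_mono (ne_top_of_le_ne_top hfin (measure_mono Set.sdiff_subset))
            (measure_mono h1)
      _ = Real.pi * (R + 2 * q) ^ 2 - Real.pi * (R - 2 * q) ^ 2 := by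
          rw [measure_sdiff h2 measurableSet_ball.nullMeasurableSet
            (ne_top_of_le_ne_top hfin (measure_mono h2)),
            ENNReal.toReal_sub_of_le (measure_mono h2) hfin, vol_cb (by linarith),
            vol_b (by linarith)]
      _ ≤ _ := by nlinarith [mul_nonneg hpi.le (sq_nonneg q)]
  · calc (volume (zone R q)).toReal ≤ (volume (Metric.closedBall (0 : ℂ) (R + 2 * q))).toReal :=
          ENNReal.toReal_mono hfin (measure_mono (zone_sub R q))
      _ = Real.pi * (R + 2 * q) ^ 2 := vol_cb (by linarith)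
      _ ≤ _ := by
          refine mul_le_mul_of_nonneg_left ?_ hpi.le
          nlinarith [mul_nonneg hR hq]

theorem measurable_F (h : ℤ) : Measurable (F h) := by
  unfold F
  have h1 : Measurable fun z : ℂ => z / (‖z‖ : ℂ) := by fun_prop
  rcases Int.eq_nat_or_neg h with ⟨n, hn | hn⟩
  · rw [hn]
    simp only [zpow_natCast]
    exact h1.pow_const n
  · rw [hn]
    simp only [zpow_neg, zpow_natCast]
    exact (h1.pow_const n).inv

/-- step function of the class -/
noncomputable def G (h : ℤ) (q : ℕ) (S : Finset (ℤ × ℤ)) (z : ℂ) : ℂ :=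
  ∑ m ∈ S, (cell q m).indicator (fun _ => F h (zz m)) z

theorem G_eq {h : ℤ} {q : ℕ} (hq : 0 < q) {r1 r2 : ℝ} {a0 b0 : ℤ} {S : Finset (ℤ × ℤ)}
    (hS : IsRing r1 r2 q a0 b0 S) (z : ℂ) :
    G h q S z = if corner q a0 b0 z ∈ S then F h (zz (corner q a0 b0 z)) else 0 := by
  unfold G
  have h1 : ∀ m ∈ S, (cell q m).indicator (fun _ => F h (zz m)) z =
      if m = corner q a0 b0 z then F h (zz m) else 0 := by
    intro m hm
    have hm' := (hS m).1 hm
    by_cases hz : z ∈ cell q m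
    · rw [Set.indicator_of_mem hz, if_pos (corner_unique hq hm'.2.2.1 hm'.2.2.2 hz)]
    · rw [Set.indicator_of_notMem hz, if_neg]
      intro he
      apply hz
      rw [he]
      exact corner_mem hq a0 b0 z
  rw [Finset.sum_congr rfl h1, Finset.sum_ite_eq']

theorem integrable_ind {A : Set ℂ} (hA : MeasurableSet A) {R : ℝ}
    (hR : A ⊆ Metric.closedBall 0 R) {f : ℂ → ℂ} (hf : Measurable f) (hb : ∀ z, ‖f z‖ ≤ 1) :
    Integrable (A.indicator f) volume := by
  rw [integrable_indicator_iff hA]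
  have hfin : volume A ≠ ⊤ := by
    exact ne_top_of_le_ne_top measure_closedBall_lt_top.ne (measure_mono hR)
  exact Measure.integrableOn_of_bounded hfin hf.aestronglyMeasurable
    (Filter.Eventually.of_forall hb)

theorem cell_sub (q : ℕ) (m : ℤ × ℤ) : cell q m ⊆ Metric.closedBall 0 (‖zz m‖ + 2 * q) := by
  intro z hz
  rw [mem_closedBall_zero_iff]
  have h1 := cell_dist hz
  have h2 := norm_sub_norm_le z (zz m)
  rw [norm_sub_rev] at h1
  linarith

theorem int_G (h : ℤ) (q : ℕ) (S : Finset (ℤ × ℤ)) :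
    ∫ z, G h q S z = (q : ℂ) ^ 2 * ∑ m ∈ S, F h (zz m) := by
  unfold G
  rw [integral_finsetSum _ (fun m _ => integrable_ind (measurable_cell q m) (cell_sub q m)
    measurable_const (fun _ => norm_F_le h _))]
  rw [Finset.mul_sum]
  refine Finset.sum_congr rfl fun m _ => ?_
  rw [integral_indicator (measurable_cell q m), setIntegral_const, Measure.real, volume_cell,
    ENNReal.toReal_ofReal (by positivity), Complex.real_smul]
  push_cast
  rfl

/-- the cell lemma -/
theorem cell_lemma (h : ℤ) {q : ℕ} (hq : 0 < q) {r1 r2 ρ : ℝ} (hρ : 0 < ρ) (h1 : ρ ^ 2 ≤ r1)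
    (h12 : r1 ≤ r2) {a0 b0 : ℤ} {S : Finset (ℤ × ℤ)} (hS : IsRing r1 r2 q a0 b0 S) :
    ‖(q : ℂ) ^ 2 * ∑ m ∈ S, F h (zz m) - ∫ z, (ring r1 r2).indicator (F h) z‖ ≤
      |(h : ℝ)| * (4 * q / ρ) * (Real.pi * r2) +
        2 * (Real.pi * (8 * √r2 * q + 16 * (q : ℝ) ^ 2)) := by
  have hpi := Real.pi_pos
  have hq' : (0 : ℝ) < q := by exact_mod_cast hq
  have hr1 : 0 < r1 := lt_of_lt_of_le (by positivity) h1
  have hr2 : 0 < r2 := hr1.trans_le h12
  have hs1 : 0 < √r1 := Real.sqrt_pos.2 hr1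
  have hs2 : 0 < √r2 := Real.sqrt_pos.2 hr2
  have hs12 : √r1 ≤ √r2 := Real.sqrt_le_sqrt h12
  have hρ1 : ρ ≤ √r1 := Real.le_sqrt_of_sq_le h1
  have hringsub : ring r1 r2 ⊆ Metric.closedBall 0 (√r2) := by
    intro z hz
    rw [mem_closedBall_zero_iff]
    exact Real.le_sqrt_of_sq_le hz.2
  set E : ℂ → ℝ := fun z => (Metric.closedBall (0 : ℂ) (√r2)).indicator
      (fun _ => |(h : ℝ)| * (4 * q / ρ)) z + ((zone (√r1) q).indicator (fun _ => (1 : ℝ)) z +
        (zone (√r2) q).indicator (fun _ => (1 : ℝ)) z) with hE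
  -- pointwise bound
  have hpt : ∀ z, ‖G h q S z - (ring r1 r2).indicator (F h) z‖ ≤ E z := by
    intro z
    have hi1 : 0 ≤ (Metric.closedBall (0 : ℂ) (√r2)).indicator
      (fun _ => |(h : ℝ)| * (4 * q / ρ)) z := Set.indicator_nonneg (fun _ _ => by positivity) z
    have hi2 : 0 ≤ (zone (√r1) q).indicator (fun _ => (1 : ℝ)) z :=
      Set.indicator_nonneg (fun _ _ => zero_le_one) z
    have hi3 : 0 ≤ (zone (√r2) q).indicator (fun _ => (1 : ℝ)) z :=
      Set.indicator_nonneg (fun _ _ => zero_le_one) z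
    rw [G_eq hq hS]
    set m := corner q a0 b0 z with hm
    have hd := cell_dist (corner_mem hq a0 b0 z)
    rw [← hm] at hd
    have hn1 := norm_sub_norm_le (zz m) z
    have hn2 := norm_sub_norm_le z (zz m)
    rw [norm_sub_rev] at hn2
    obtain ⟨hc1, hc2⟩ := corner_modEq q a0 b0 z
    rw [← hm] at hc1 hc2
    by_cases hmS : m ∈ S
    · rw [if_pos hmS]
      have hmr := (hS m).1 hmS
      rw [← norm_zz_sq] at hmr
      have g1 : √r1 ≤ ‖zz m‖ := by
        rw [← Real.sqrt_sq (norm_nonneg (zz m))]; exact Real.sqrt_le_sqrt hmr.1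
      have g2 : ‖zz m‖ ≤ √r2 := Real.le_sqrt_of_sq_le hmr.2.1
      by_cases hz : z ∈ ring r1 r2
      · rw [Set.indicator_of_mem hz]
        have hzr : √r1 ≤ ‖z‖ := by
          rw [← Real.sqrt_sq (norm_nonneg z)]; exact Real.sqrt_le_sqrt hz.1
        have hz0 : z ≠ 0 := norm_pos_iff.1 (by linarith)
        have hm0 : zz m ≠ 0 := norm_pos_iff.1 (by linarith)
        have h3 := F_sub_le h hz0 hm0
        have h4 : |(h : ℝ)| * (2 * ‖zz m - z‖ / ‖z‖) ≤ |(h : ℝ)| * (4 * q / ρ) := by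
          refine mul_le_mul_of_nonneg_left ?_ (abs_nonneg _)
          exact div_le_div₀ (by positivity) (by linarith) hρ (by linarith)
        have h5 : (Metric.closedBall (0 : ℂ) (√r2)).indicator
            (fun _ => |(h : ℝ)| * (4 * q / ρ)) z = |(h : ℝ)| * (4 * q / ρ) :=
          Set.indicator_of_mem (hringsub hz) _
        simp only [hE]
        rw [h5]
        linarith
      · rw [Set.indicator_of_notMem hz, sub_zero]
        have h6 := norm_F_le h (zz m)
        have hz' : ¬ (r1 ≤ ‖z‖ ^ 2 ∧ ‖z‖ ^ 2 ≤ r2) := hz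
        rw [not_and_or, not_le, not_le] at hz'
        rcases hz' with hz' | hz'
        · have h7 : ‖z‖ < √r1 := (Real.lt_sqrt (norm_nonneg z)).2 hz'
          have h8 : z ∈ zone (√r1) q := ⟨by linarith, by linarith⟩
          have h9 : (zone (√r1) q).indicator (fun _ => (1 : ℝ)) z = 1 :=
            Set.indicator_of_mem h8 _
          simp only [hE]
          rw [h9]
          linarith
        · have h7 : √r2 < ‖z‖ := (Real.sqrt_lt' (by
            by_contra hcon
            have : ‖z‖ = 0 := le_antisymm (not_lt.1 hcon) (norm_nonneg z)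
            rw [this] at hz'
            norm_num at hz'
            linarith)).2 hz'
          have h8 : z ∈ zone (√r2) q := ⟨by linarith, by linarith⟩
          have h9 : (zone (√r2) q).indicator (fun _ => (1 : ℝ)) z = 1 :=
            Set.indicator_of_mem h8 _
          simp only [hE]
          rw [h9]
          linarith
    · rw [if_neg hmS]
      by_cases hz : z ∈ ring r1 r2
      · rw [Set.indicator_of_mem hz, zero_sub, norm_neg]
        have h6 := norm_F_le h z
        have hz1 : √r1 ≤ ‖z‖ := by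
          rw [← Real.sqrt_sq (norm_nonneg z)]; exact Real.sqrt_le_sqrt hz.1
        have hz2 : ‖z‖ ≤ √r2 := Real.le_sqrt_of_sq_le hz.2
        have hm' : ¬ (r1 ≤ ‖zz m‖ ^ 2 ∧ ‖zz m‖ ^ 2 ≤ r2) := by
          rintro ⟨g1, g2⟩
          apply hmS
          rw [hS m, ← norm_zz_sq]
          exact ⟨g1, g2, hc1, hc2⟩
        rw [not_and_or, not_le, not_le] at hm'
        rcases hm' with hm' | hm'
        · have h7 : ‖zz m‖ < √r1 := (Real.lt_sqrt (norm_nonneg _)).2 hm'
          have h8 : z ∈ zone (√r1) q := ⟨by linarith, by linarith⟩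
          have h9 : (zone (√r1) q).indicator (fun _ => (1 : ℝ)) z = 1 :=
            Set.indicator_of_mem h8 _
          simp only [hE]
          rw [h9]
          linarith
        · have h7 : √r2 < ‖zz m‖ := (Real.sqrt_lt' (by
            by_contra hcon
            have : ‖zz m‖ = 0 := le_antisymm (not_lt.1 hcon) (norm_nonneg _)
            rw [this] at hm'
            norm_num at hm'
            linarith)).2 hm'
          have h8 : z ∈ zone (√r2) q := ⟨by linarith, by linarith⟩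
          have h9 : (zone (√r2) q).indicator (fun _ => (1 : ℝ)) z = 1 :=
            Set.indicator_of_mem h8 _
          simp only [hE]
          rw [h9]
          linarith
      · rw [Set.indicator_of_notMem hz, sub_zero, norm_zero]
        simp only [hE]
        linarith
  -- integrability
  have hfin : ∀ R : ℝ, volume (Metric.closedBall (0 : ℂ) R) ≠ ⊤ := fun R =>
    measure_closedBall_lt_top.ne
  have iG : Integrable (G h q S) volume := by
    unfold G
    exact integrable_finsetSum _ (fun m _ => integrable_ind (measurable_cell q m) (cell_sub q m)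
      measurable_const (fun _ => norm_F_le h _))
  have iF : Integrable ((ring r1 r2).indicator (F h)) volume :=
    integrable_ind (measurable_ring r1 r2) hringsub (measurable_F h) (norm_F_le h)
  have iE1 : Integrable ((Metric.closedBall (0 : ℂ) (√r2)).indicator
      (fun _ => |(h : ℝ)| * (4 * q / ρ))) volume := by
    rw [integrable_indicator_iff measurableSet_closedBall]
    exact integrableOn_const (hfin _)
  have iE2 : ∀ R : ℝ, Integrable ((zone R q).indicator (fun _ => (1 : ℝ))) volume := fun R => by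
    rw [integrable_indicator_iff (measurable_zone _ _)]
    exact integrableOn_const (ne_top_of_le_ne_top (hfin _) (measure_mono (zone_sub _ _)))
  have iE : Integrable E volume := iE1.add ((iE2 _).add (iE2 _))
  rw [← int_G, ← integral_sub iG iF]
  refine (norm_integral_le_integral_norm _).trans ((integral_mono (iG.sub iF).norm iE hpt).trans ?_)
  have hEint : ∫ z, E z = |(h : ℝ)| * (4 * q / ρ) * (Real.pi * r2) +
      ((volume (zone (√r1) q)).toReal + (volume (zone (√r2) q)).toReal) := by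
    have e1 : ∫ z, E z = (∫ z, (Metric.closedBall (0 : ℂ) (√r2)).indicator
        (fun _ => |(h : ℝ)| * (4 * q / ρ)) z) + ((∫ z, (zone (√r1) q).indicator
          (fun _ => (1 : ℝ)) z) + ∫ z, (zone (√r2) q).indicator (fun _ => (1 : ℝ)) z) := by
      have iE23 : Integrable (fun z => (zone (√r1) q).indicator (fun _ => (1 : ℝ)) z +
          (zone (√r2) q).indicator (fun _ => (1 : ℝ)) z) volume := (iE2 _).add (iE2 _)
      rw [← integral_add (iE2 _) (iE2 _), ← integral_add iE1 iE23]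
    rw [e1, integral_indicator measurableSet_closedBall, integral_indicator (measurable_zone _ _),
      integral_indicator (measurable_zone _ _), setIntegral_const, setIntegral_const,
      setIntegral_const, Measure.real, Measure.real, Measure.real, vol_cb hs2.le, smul_eq_mul,
      smul_eq_mul, smul_eq_mul, mul_one, mul_one, Real.sq_sqrt hr2.le]
    ring
  rw [hEint]
  have z1 := vol_zone hs1.le hq'.le
  have z2 := vol_zone hs2.le hq'.le
  have z3 : Real.pi * (8 * √r1 * q + 16 * (q : ℝ) ^ 2) ≤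
      Real.pi * (8 * √r2 * q + 16 * (q : ℝ) ^ 2) := by
    refine mul_le_mul_of_nonneg_left ?_ hpi.le
    nlinarith
  linarith

/-- the integral over a ring vanishes -/
theorem int_ring_zero {h : ℤ} (hh : h ≠ 0) (r1 r2 : ℝ) :
    ∫ z, (ring r1 r2).indicator (F h) z = 0 := by
  have hh' : (h : ℂ) ≠ 0 := by exact_mod_cast hh
  set c : Circle := Circle.exp (Real.pi / h) with hc
  have hch : ((c : ℂ)) ^ h = -1 := by
    rw [hc, Circle.coe_exp, ← Complex.exp_int_mul]
    have : (h : ℂ) * (((Real.pi / h : ℝ) : ℂ) * I) = Real.pi * I := by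
      push_cast
      field_simp
    rw [this, Complex.exp_pi_mul_I]
  have hn : ∀ z : ℂ, ‖(c : ℂ) * z‖ = ‖z‖ := fun z => by
    rw [norm_mul, Circle.norm_coe, one_mul]
  have h1 : ∀ z : ℂ, (ring r1 r2).indicator (F h) (rotation c z) =
      -(ring r1 r2).indicator (F h) z := by
    intro z
    rw [rotation_apply]
    by_cases hz : z ∈ ring r1 r2
    · have hz' : (c : ℂ) * z ∈ ring r1 r2 := by
        show r1 ≤ ‖(c : ℂ) * z‖ ^ 2 ∧ ‖(c : ℂ) * z‖ ^ 2 ≤ r2
        rw [hn]; exact hz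
      rw [Set.indicator_of_mem hz, Set.indicator_of_mem hz']
      unfold F
      rw [hn, mul_div_assoc, mul_zpow, hch]
      ring
    · have hz' : (c : ℂ) * z ∉ ring r1 r2 := by
        intro h2
        apply hz
        have h3 : r1 ≤ ‖(c : ℂ) * z‖ ^ 2 ∧ ‖(c : ℂ) * z‖ ^ 2 ≤ r2 := h2
        rw [hn] at h3
        exact h3
      rw [Set.indicator_of_notMem hz, Set.indicator_of_notMem hz', neg_zero]
  have h2 := (rotation c).measurePreserving.integral_comp
    (rotation c).toHomeomorph.measurableEmbedding ((ring r1 r2).indicator (F h))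
  have h3 : ∫ z, (ring r1 r2).indicator (F h) (rotation c z) =
      -∫ z, (ring r1 r2).indicator (F h) z := by
    rw [← integral_neg]
    exact integral_congr_ae (Filter.Eventually.of_forall h1)
  have h4 : ∫ z, (ring r1 r2).indicator (F h) z = -∫ z, (ring r1 r2).indicator (F h) z :=
    h2.symm.trans h3
  exact self_eq_neg.1 h4

/-- crude count in a class -/
theorem count_le {q : ℕ} (hq : 0 < q) {ρ : ℝ} (hρ : 0 ≤ ρ) {a0 b0 : ℤ} {T : Finset (ℤ × ℤ)}
    (hT : ∀ m ∈ T, ‖zz m‖ ≤ ρ ∧ m.1 ≡ a0 [ZMOD (q : ℤ)] ∧ m.2 ≡ b0 [ZMOD (q : ℤ)]) :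
    (q : ℝ) ^ 2 * (T.card : ℝ) ≤ Real.pi * (ρ + 2 * q) ^ 2 := by
  have hq' : (0 : ℝ) < q := by exact_mod_cast hq
  have i1 : ∀ m ∈ T, Integrable ((cell q m).indicator (fun _ => (1 : ℝ))) volume := by
    intro m _
    rw [integrable_indicator_iff (measurable_cell q m)]
    refine integrableOn_const ?_
    rw [volume_cell]
    exact ENNReal.ofReal_ne_top
  have i2 : Integrable ((Metric.closedBall (0 : ℂ) (ρ + 2 * q)).indicator (fun _ => (1 : ℝ)))
      volume := by
    rw [integrable_indicator_iff measurableSet_closedBall]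
    exact integrableOn_const measure_closedBall_lt_top.ne
  have e1 : ∫ z, ∑ m ∈ T, (cell q m).indicator (fun _ => (1 : ℝ)) z = (q : ℝ) ^ 2 * T.card := by
    rw [integral_finsetSum _ i1]
    have : ∀ m ∈ T, ∫ z, (cell q m).indicator (fun _ => (1 : ℝ)) z = (q : ℝ) ^ 2 := by
      intro m _
      rw [integral_indicator (measurable_cell q m), setIntegral_const, Measure.real, volume_cell,
        ENNReal.toReal_ofReal (by positivity), smul_eq_mul, mul_one]
    rw [Finset.sum_congr rfl this, Finset.sum_const, nsmul_eq_mul]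
    ring
  have e2 : ∫ z, (Metric.closedBall (0 : ℂ) (ρ + 2 * q)).indicator (fun _ => (1 : ℝ)) z =
      Real.pi * (ρ + 2 * q) ^ 2 := by
    rw [integral_indicator measurableSet_closedBall, setIntegral_const, Measure.real,
      vol_cb (by positivity), smul_eq_mul, mul_one]
  rw [← e1, ← e2]
  refine integral_mono (integrable_finsetSum _ i1) i2 fun z => ?_
  have hval : ∑ m ∈ T, (cell q m).indicator (fun _ => (1 : ℝ)) z =
      if corner q a0 b0 z ∈ T then 1 else 0 := by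
    have h1 : ∀ m ∈ T, (cell q m).indicator (fun _ => (1 : ℝ)) z =
        if m = corner q a0 b0 z then 1 else 0 := by
      intro m hm
      have hm' := hT m hm
      by_cases hz : z ∈ cell q m
      · rw [Set.indicator_of_mem hz, if_pos (corner_unique hq hm'.2.1 hm'.2.2 hz)]
      · rw [Set.indicator_of_notMem hz, if_neg]
        intro he
        apply hz
        rw [he]
        exact corner_mem hq a0 b0 z
    rw [Finset.sum_congr rfl h1, Finset.sum_ite_eq']
  show ∑ m ∈ T, (cell q m).indicator (fun _ => (1 : ℝ)) z ≤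
    (Metric.closedBall (0 : ℂ) (ρ + 2 * q)).indicator (fun _ => (1 : ℝ)) z
  rw [hval]
  by_cases hc : corner q a0 b0 z ∈ T
  · rw [if_pos hc]
    have h1 := (hT _ hc).1
    have h2 := cell_sub q _ (corner_mem hq a0 b0 z)
    rw [mem_closedBall_zero_iff] at h2
    rw [Set.indicator_of_mem]
    rw [mem_closedBall_zero_iff]
    linarith
  · rw [if_neg hc]
    exact Set.indicator_nonneg (fun _ _ => zero_le_one) z

/-- small frequencies -/
theorem small_18 : ∃ C : ℝ, 0 < C ∧ ∀ (Y r1 r2 : ℝ) (h : ℤ) (q : ℕ) (a0 b0 : ℤ)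
    (S : Finset (ℤ × ℤ)), 1 ≤ Y → r2 ≤ Y → h ≠ 0 → |(h : ℝ)| ≤ Y ^ (1 / 4 : ℝ) → 1 ≤ q →
      (q : ℝ) ≤ √Y → IsRing r1 r2 q a0 b0 S →
      ‖∑ m ∈ S, (zz m / (‖zz m‖ : ℂ)) ^ h‖ ≤ C * Y ^ (5 / 6 : ℝ) := by
  refine ⟨61 * Real.pi, by positivity, fun Y r1 r2 h q a0 b0 S hY hr2 hh hhY hq hqY hS => ?_⟩
  have hpi := Real.pi_pos
  have hY0 : 0 < Y := by linarith
  have hq1 : (1 : ℝ) ≤ q := by exact_mod_cast hq
  have hq0 : (0 : ℝ) < q := by linarith
  set ρ : ℝ := Y ^ (5 / 12 : ℝ) with hρ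
  have hρ1 : 1 ≤ ρ := Real.one_le_rpow hY (by norm_num)
  have hρ0 : 0 < ρ := by linarith
  have hρ2 : ρ ^ 2 = Y ^ (5 / 6 : ℝ) := by
    rw [hρ, ← Real.rpow_natCast, ← Real.rpow_mul hY0.le]; norm_num
  set Z : ℝ := Y ^ (5 / 6 : ℝ) with hZ
  have hZ1 : 1 ≤ Z := Real.one_le_rpow hY (by norm_num)
  have hsY : √Y ≤ Z := by
    rw [Real.sqrt_eq_rpow]
    exact Real.rpow_le_rpow_of_exponent_le hY (by norm_num)
  have hYh : Y ^ (1 / 4 : ℝ) * Y = Z * ρ := by
    rw [hZ, hρ, ← Real.rpow_add hY0, ← Real.rpow_add_one hY0.ne']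
    norm_num
  change ‖∑ m ∈ S, F h (zz m)‖ ≤ _
  set S1 := S.filter (fun m => ρ ^ 2 ≤ (m.1 : ℝ) ^ 2 + (m.2 : ℝ) ^ 2) with hS1
  set S2 := S.filter (fun m => ¬ ρ ^ 2 ≤ (m.1 : ℝ) ^ 2 + (m.2 : ℝ) ^ 2) with hS2
  have hsplit : ∑ m ∈ S, F h (zz m) = ∑ m ∈ S1, F h (zz m) + ∑ m ∈ S2, F h (zz m) :=
    (Finset.sum_filter_add_sum_filter_not S _ _).symm
  -- the small vectors
  have hb2 : ‖∑ m ∈ S2, F h (zz m)‖ ≤ 9 * Real.pi * Z := by
    have h1 : ‖∑ m ∈ S2, F h (zz m)‖ ≤ (S2.card : ℝ) := by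
      refine (norm_sum_le _ _).trans ?_
      refine (Finset.sum_le_card_nsmul _ _ 1 fun m _ => norm_F_le h _).trans (le_of_eq ?_)
      rw [nsmul_eq_mul, mul_one]
    have h2 := count_le (q := q) (by omega) hρ0.le (a0 := a0) (b0 := b0) (T := S2) (fun m hm => by
      rw [hS2, Finset.mem_filter] at hm
      obtain ⟨g1, g2⟩ := hm
      have g3 := (hS m).1 g1
      refine ⟨?_, g3.2.2.1, g3.2.2.2⟩
      rw [← norm_zz_sq] at g2
      have g4 : ‖zz m‖ ^ 2 < ρ ^ 2 := not_le.1 g2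
      exact (lt_of_pow_lt_pow_left₀ 2 hρ0.le g4).le)
    have h3 : Real.pi * (ρ + 2 * q) ^ 2 ≤ (q : ℝ) ^ 2 * (9 * Real.pi * Z) := by
      have h4 : ρ + 2 * q ≤ 3 * (ρ * q) := by nlinarith
      have h5 : (ρ + 2 * q) ^ 2 ≤ (3 * (ρ * q)) ^ 2 := pow_le_pow_left₀ (by positivity) h4 2
      calc Real.pi * (ρ + 2 * q) ^ 2 ≤ Real.pi * (3 * (ρ * q)) ^ 2 := by gcongr
        _ = (q : ℝ) ^ 2 * (9 * Real.pi * ρ ^ 2) := by ring
        _ = _ := by rw [hρ2]
    have h4 : (S2.card : ℝ) ≤ 9 * Real.pi * Z :=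
      le_of_mul_le_mul_left (h2.trans h3) (by positivity)
    exact h1.trans h4
  -- the large vectors
  have hb1 : ‖∑ m ∈ S1, F h (zz m)‖ ≤ 52 * Real.pi * Z := by
    rcases lt_or_ge r2 (max r1 (ρ ^ 2)) with hlt | hge
    · have hemp : S1 = ∅ := by
        rw [Finset.eq_empty_iff_forall_notMem]
        intro m hm
        rw [hS1, Finset.mem_filter] at hm
        have g3 := (hS m).1 hm.1
        rcases lt_max_iff.1 hlt with g | g
        · linarith [g3.1, g3.2.1]
        · linarith [hm.2, g3.2.1]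
      rw [hemp, Finset.sum_empty, norm_zero]
      positivity
    · have hS1' : IsRing (max r1 (ρ ^ 2)) r2 q a0 b0 S1 := by
        intro m
        rw [hS1, Finset.mem_filter, hS m]
        constructor
        · rintro ⟨⟨g1, g2, g3, g4⟩, g5⟩
          exact ⟨max_le g1 g5, g2, g3, g4⟩
        · rintro ⟨g1, g2, g3, g4⟩
          exact ⟨⟨(le_max_left _ _).trans g1, g2, g3, g4⟩, (le_max_right _ _).trans g1⟩
      have h1 := cell_lemma h (q := q) (by omega) hρ0 (le_max_right r1 (ρ ^ 2)) hge hS1'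
      rw [int_ring_zero hh, sub_zero, norm_mul, norm_pow, Complex.norm_natCast] at h1
      have hr2p : 0 ≤ r2 := le_trans (by positivity) ((le_max_right r1 (ρ ^ 2)).trans hge)
      have h2 : |(h : ℝ)| * (4 * q / ρ) * (Real.pi * r2) +
          2 * (Real.pi * (8 * √r2 * q + 16 * (q : ℝ) ^ 2)) ≤ (q : ℝ) ^ 2 * (52 * Real.pi * Z) := by
        have g1 : |(h : ℝ)| * (4 * q / ρ) * (Real.pi * r2) ≤ (q : ℝ) ^ 2 * (4 * Real.pi * Z) := by
          calc |(h : ℝ)| * (4 * q / ρ) * (Real.pi * r2)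
              ≤ Y ^ (1 / 4 : ℝ) * (4 * q / ρ) * (Real.pi * Y) := by gcongr
            _ = (4 * Real.pi * q / ρ) * (Y ^ (1 / 4 : ℝ) * Y) := by ring
            _ = 4 * Real.pi * q * Z := by
                rw [hYh]
                field_simp
            _ ≤ (q : ℝ) ^ 2 * (4 * Real.pi * Z) := by
                have : (q : ℝ) ≤ (q : ℝ) ^ 2 := by nlinarith
                calc 4 * Real.pi * q * Z = (q : ℝ) * (4 * Real.pi * Z) := by ring
                  _ ≤ _ := by gcongr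
        have g2 : √r2 ≤ Z := (Real.sqrt_le_sqrt hr2).trans hsY
        have g3 : 8 * √r2 * q + 16 * (q : ℝ) ^ 2 ≤ (q : ℝ) ^ 2 * (24 * Z) := by
          have g4 : 8 * √r2 * q ≤ 8 * Z * (q : ℝ) ^ 2 := by
            have : (q : ℝ) ≤ (q : ℝ) ^ 2 := by nlinarith
            gcongr
          have g5 : 16 * (q : ℝ) ^ 2 ≤ 16 * (q : ℝ) ^ 2 * Z := by
            have : 0 ≤ 16 * (q : ℝ) ^ 2 := by positivity
            nlinarith
          calc _ ≤ 8 * Z * (q : ℝ) ^ 2 + 16 * (q : ℝ) ^ 2 * Z := add_le_add g4 g5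
            _ = _ := by ring
        calc _ ≤ (q : ℝ) ^ 2 * (4 * Real.pi * Z) + 2 * (Real.pi * ((q : ℝ) ^ 2 * (24 * Z))) := by
              gcongr
          _ = _ := by ring
      exact le_of_mul_le_mul_left (h1.trans h2) (by positivity)
  rw [hsplit]
  calc _ ≤ _ := norm_add_le _ _
    _ ≤ 52 * Real.pi * Z + 9 * Real.pi * Z := add_le_add hb1 hb2
    _ = 61 * Real.pi * Z := by ring

end Pool.Agent.Lib.MP_a17b09_nt.MRS18
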