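import Mathlib

/-!
MRS (MP_a17b09_nt): lattice points in the disc, `#{(a, b) : a ^ 2 + b ^ 2 ≤ t} = π t + O(√t + 1)`,
and Gaussian integers divisible by a given one.
-/

set_option autoImplicit false

open Finset MeasureTheory

namespace Pool.Agent.Lib.MP_a17b09_nt.MRS.Circ84

/-- the integral of `√(t - s ^ 2)` -/
theorem int_eq (t : ℝ) (ht : 0 ≤ t) :
    ∫ s in (0 : ℝ)..√t, √(t - s ^ 2) = Real.pi / 4 * t := by
  have h1 : ∫ u in (0 : ℝ)..1, √(1 - u ^ 2) = Real.pi / 4 := by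
    have h2 := integral_sqrt_one_sub_sq
    have h3 : ∫ u in (-1 : ℝ)..0, √(1 - u ^ 2) = ∫ u in (0 : ℝ)..1, √(1 - u ^ 2) := by
      have h4 := intervalIntegral.integral_comp_neg (a := (0 : ℝ)) (b := 1)
        (fun u : ℝ => √(1 - u ^ 2))
      simp only [neg_zero, even_two, Even.neg_pow] at h4
      exact h4.symm
    have hc : Continuous fun u : ℝ => √(1 - u ^ 2) := by fun_prop
    rw [← intervalIntegral.integral_add_adjacent_intervals (b := 0)
      (hc.intervalIntegrable _ _) (hc.intervalIntegrable _ _), h3] at h2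
    linarith
  rcases ht.lt_or_eq with h0 | h0
  · have hs : 0 < √t := Real.sqrt_pos.2 h0
    have h2 := intervalIntegral.integral_comp_mul_left (a := (0 : ℝ)) (b := 1)
      (fun s : ℝ => √(t - s ^ 2)) hs.ne'
    rw [mul_zero, mul_one] at h2
    have h3 : ∀ u : ℝ, √(t - (√t * u) ^ 2) = √t * √(1 - u ^ 2) := by
      intro u
      rw [mul_pow, Real.sq_sqrt ht, ← Real.sqrt_mul ht]
      congr 1
      ring
    simp only [h3, smul_eq_mul] at h2
    rw [intervalIntegral.integral_const_mul, h1] at h2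
    have h4 : (∫ s in (0 : ℝ)..√t, √(t - s ^ 2)) = √t * (√t * (Real.pi / 4)) := by
      rw [h2]
      field_simp
    rw [h4, ← mul_assoc, Real.mul_self_sqrt ht]
    ring
  · rw [← h0]
    simp

/-- the sum of `√(t - b ^ 2)` -/
theorem sum_bd (t B : ℕ) (hB : √(t : ℝ) ≤ B) :
    ∑ b ∈ Finset.range B, √((t : ℝ) - ((b + 1 : ℕ) : ℝ) ^ 2) ≤ Real.pi / 4 * t ∧
    Real.pi / 4 * t - √(t : ℝ) ≤ ∑ b ∈ Finset.range B, √((t : ℝ) - ((b + 1 : ℕ) : ℝ) ^ 2) := by
  set f : ℝ → ℝ := fun s => √((t : ℝ) - s ^ 2) with hf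
  have hanti : AntitoneOn f (Set.Icc (0 : ℝ) (0 + B)) := by
    intro x hx y hy hxy
    rw [hf]
    simp only
    apply Real.sqrt_le_sqrt
    have : x ^ 2 ≤ y ^ 2 := pow_le_pow_left₀ hx.1 hxy 2
    linarith
  have hc : Continuous f := by rw [hf]; fun_prop
  have hint : ∫ s in (0 : ℝ)..(0 + B), f s = Real.pi / 4 * t := by
    rw [zero_add]
    have h1 : ∫ s in (√(t : ℝ))..(B : ℝ), f s = 0 := by
      have h2 : ∀ s ∈ Set.uIcc (√(t : ℝ)) (B : ℝ), f s = 0 := by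
        intro s hs
        rw [Set.uIcc_of_le hB] at hs
        rw [hf]
        simp only
        apply Real.sqrt_eq_zero_of_nonpos
        have h3 : (√(t : ℝ)) ^ 2 ≤ s ^ 2 := pow_le_pow_left₀ (Real.sqrt_nonneg _) hs.1 2
        rw [Real.sq_sqrt (Nat.cast_nonneg t)] at h3
        linarith
      rw [intervalIntegral.integral_congr (g := fun _ => (0 : ℝ)) h2]
      simp
    rw [← intervalIntegral.integral_add_adjacent_intervals (b := √(t : ℝ))
      (hc.intervalIntegrable _ _) (hc.intervalIntegrable _ _), h1, add_zero,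
      int_eq _ (Nat.cast_nonneg t)]
  have h1 := hanti.sum_le_integral
  have h2 := hanti.integral_le_sum
  rw [hint] at h1 h2
  simp only [zero_add] at h1 h2
  refine ⟨h1, ?_⟩
  have h3 : ∑ i ∈ Finset.range B, f (i : ℝ) =
      ∑ b ∈ Finset.range B, f ((b + 1 : ℕ) : ℝ) + f ((0 : ℕ) : ℝ) - f ((B : ℕ) : ℝ) := by
    have h4 := Finset.sum_range_succ' (fun i : ℕ => f (i : ℝ)) B
    have h5 := Finset.sum_range_succ (fun i : ℕ => f (i : ℝ)) B
    linarith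
  rw [h3] at h2
  have h4 : f ((0 : ℕ) : ℝ) = √(t : ℝ) := by rw [hf]; simp
  have h5 : 0 ≤ f ((B : ℕ) : ℝ) := by rw [hf]; positivity
  rw [h4] at h2
  have h6 : ∑ b ∈ Finset.range B, f ((b + 1 : ℕ) : ℝ) =
      ∑ b ∈ Finset.range B, √((t : ℝ) - ((b + 1 : ℕ) : ℝ) ^ 2) := rfl
  rw [h6] at h2
  linarith

/-- integers with `a ^ 2 ≤ m` -/
theorem card_sq (t m : ℕ) (hm : m ≤ t) :
    (((Finset.Icc (-(t : ℤ)) t).filter fun a => a ^ 2 ≤ (m : ℤ)).card : ℤ) =
      2 * (Nat.sqrt m : ℤ) + 1 := by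
  have h1 : (Finset.Icc (-(t : ℤ)) t).filter (fun a => a ^ 2 ≤ (m : ℤ)) =
      Finset.Icc (-(Nat.sqrt m : ℤ)) (Nat.sqrt m) := by
    ext a
    rw [Finset.mem_filter, Finset.mem_Icc, Finset.mem_Icc]
    have hs : ((Nat.sqrt m : ℕ) : ℤ) ≤ t := by
      exact_mod_cast (Nat.sqrt_le_self m).trans hm
    have h2 : a ^ 2 ≤ (m : ℤ) ↔ |a| ≤ (Nat.sqrt m : ℤ) := by
      rw [← sq_abs]
      obtain ⟨k, hk⟩ := Int.eq_ofNat_of_zero_le (abs_nonneg a)
      rw [hk]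
      norm_cast
      rw [Nat.le_sqrt']
    rw [h2, abs_le]
    constructor
    · rintro ⟨_, h⟩; exact h
    · intro h
      exact ⟨⟨by linarith [h.1], by linarith [h.2]⟩, h⟩
  rw [h1, Int.card_Icc]
  have : (0 : ℤ) ≤ (Nat.sqrt m : ℤ) := Int.natCast_nonneg _
  omega

/-- the disc -/
noncomputable def disc (t : ℕ) : Finset (ℤ × ℤ) :=
  (Finset.Icc (-(t : ℤ)) t ×ˢ Finset.Icc (-(t : ℤ)) t).filter fun v => v.1 ^ 2 + v.2 ^ 2 ≤ (t : ℤ)

theorem mem_disc (t : ℕ) (v : ℤ × ℤ) : v ∈ disc t ↔ v.1 ^ 2 + v.2 ^ 2 ≤ (t : ℤ) := by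
  unfold disc
  rw [Finset.mem_filter, Finset.mem_product, Finset.mem_Icc, Finset.mem_Icc]
  refine ⟨fun h => h.2, fun h => ⟨?_, h⟩⟩
  have hM : ∀ s : ℤ, s ^ 2 ≤ t → -(t : ℤ) ≤ s ∧ s ≤ t := by
    intro s hs
    have h1 : |s| ≤ s ^ 2 := by
      rcases eq_or_ne s 0 with h0 | h0
      · rw [h0]; simp
      · have : 1 ≤ |s| := Int.one_le_abs h0
        rw [← sq_abs]; nlinarith
    exact abs_le.1 (h1.trans hs)
  exact ⟨hM _ (by nlinarith [sq_nonneg v.2]), hM _ (by nlinarith [sq_nonneg v.1])⟩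

/-- **lattice points in a disc** -/
theorem circ (t : ℕ) : |((disc t).card : ℝ) - Real.pi * t| ≤ 10 * (√(t : ℝ) + 1) := by
  have hcard : ((disc t).card : ℝ) = ∑ b ∈ (Finset.Icc (-(t : ℤ)) t).filter
      (fun b => b ^ 2 ≤ (t : ℤ)), (2 * (Nat.sqrt (t - b.natAbs ^ 2) : ℝ) + 1) := by
    have h1 : (disc t).card = ∑ b ∈ Finset.Icc (-(t : ℤ)) t,
        ((Finset.Icc (-(t : ℤ)) t).filter fun a => a ^ 2 + b ^ 2 ≤ (t : ℤ)).card := by
      unfold disc
      rw [Finset.card_filter, Finset.sum_product_right]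
      refine Finset.sum_congr rfl fun b _ => ?_
      rw [Finset.card_filter]
    rw [h1, Finset.sum_filter]
    push_cast
    refine Finset.sum_congr rfl fun b _ => ?_
    split_ifs with hb
    · have hb' : b.natAbs ^ 2 ≤ t := by
        have : ((b.natAbs ^ 2 : ℕ) : ℤ) ≤ t := by
          push_cast
          rw [sq_abs]
          exact hb
        exact_mod_cast this
      have h2 := card_sq t (t - b.natAbs ^ 2) (Nat.sub_le _ _)
      have h3 : ((Finset.Icc (-(t : ℤ)) t).filter fun a => a ^ 2 + b ^ 2 ≤ (t : ℤ)) =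
          (Finset.Icc (-(t : ℤ)) t).filter fun a => a ^ 2 ≤ ((t - b.natAbs ^ 2 : ℕ) : ℤ) := by
        ext a
        rw [Finset.mem_filter, Finset.mem_filter]
        rw [Nat.cast_sub hb']
        push_cast
        rw [sq_abs]
        constructor
        · rintro ⟨h, h'⟩; exact ⟨h, by linarith⟩
        · rintro ⟨h, h'⟩; exact ⟨h, by linarith⟩
      rw [h3]
      exact_mod_cast h2
    · have h3 : ((Finset.Icc (-(t : ℤ)) t).filter fun a => a ^ 2 + b ^ 2 ≤ (t : ℤ)) = ∅ := by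
        rw [Finset.filter_eq_empty_iff]
        intro a _ h
        apply hb
        nlinarith [sq_nonneg a]
      rw [h3]
      simp
  have hI : (Finset.Icc (-(t : ℤ)) t).filter (fun b => b ^ 2 ≤ (t : ℤ)) =
      Finset.Icc (-(Nat.sqrt t : ℤ)) (Nat.sqrt t) := by
    ext a
    rw [Finset.mem_filter, Finset.mem_Icc, Finset.mem_Icc]
    have hs : ((Nat.sqrt t : ℕ) : ℤ) ≤ t := by
      exact_mod_cast (Nat.sqrt_le_self t)
    have h2 : a ^ 2 ≤ (t : ℤ) ↔ |a| ≤ (Nat.sqrt t : ℤ) := by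
      rw [← sq_abs]
      obtain ⟨k, hk⟩ := Int.eq_ofNat_of_zero_le (abs_nonneg a)
      rw [hk]
      norm_cast
      rw [Nat.le_sqrt']
    rw [h2, abs_le]
    constructor
    · rintro ⟨_, h⟩; exact h
    · intro h
      exact ⟨⟨by linarith [h.1], by linarith [h.2]⟩, h⟩
  rw [hI] at hcard
  set F : ℤ → ℝ := fun b => 2 * (Nat.sqrt (t - b.natAbs ^ 2) : ℝ) + 1 with hF
  have hsplit : ∀ n : ℕ, ∑ b ∈ Finset.Icc (-(n : ℤ)) n, F b =
      F 0 + 2 * ∑ b ∈ Finset.range n, F ((b + 1 : ℕ) : ℤ) := by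
    intro n
    induction n with
    | zero => simp
    | succ n ih =>
      have h1 : Finset.Icc (-((n + 1 : ℕ) : ℤ)) ((n + 1 : ℕ) : ℤ) =
          insert (-((n + 1 : ℕ) : ℤ)) (insert ((n + 1 : ℕ) : ℤ) (Finset.Icc (-(n : ℤ)) n)) := by
        ext a
        simp only [Finset.mem_insert, Finset.mem_Icc]
        push_cast
        omega
      rw [h1, Finset.sum_insert, Finset.sum_insert, ih, Finset.sum_range_succ]
      · have h2 : F (-((n + 1 : ℕ) : ℤ)) = F ((n + 1 : ℕ) : ℤ) := by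
          rw [hF]
          simp only [Int.natAbs_neg]
        rw [h2]
        ring
      · simp only [Finset.mem_Icc]
        push_cast
        omega
      · simp only [Finset.mem_insert, Finset.mem_Icc]
        push_cast
        omega
  rw [hcard, hsplit]
  have hsq : ∀ m : ℕ, √(m : ℝ) - 1 ≤ (Nat.sqrt m : ℝ) ∧ (Nat.sqrt m : ℝ) ≤ √(m : ℝ) := by
    intro m
    constructor
    · have h1 : √(m : ℝ) ≤ (Nat.sqrt m : ℝ) + 1 := by
        rw [Real.sqrt_le_left (by positivity)]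
        have := Nat.lt_succ_sqrt' m
        have h2 : m ≤ (Nat.sqrt m + 1) ^ 2 := this.le
        exact_mod_cast h2
      linarith
    · apply Real.le_sqrt_of_sq_le
      exact_mod_cast Nat.sqrt_le' m
  have hB : √(t : ℝ) ≤ ((Nat.sqrt t + 1 : ℕ) : ℝ) := by
    push_cast
    linarith [(hsq t).1]
  obtain ⟨hs1, hs2⟩ := sum_bd t (Nat.sqrt t + 1) hB
  rw [Finset.sum_range_succ] at hs1 hs2
  have hlast : √((t : ℝ) - ((Nat.sqrt t + 1 : ℕ) : ℝ) ^ 2) = 0 := by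
    apply Real.sqrt_eq_zero_of_nonpos
    have h1 := pow_le_pow_left₀ (Real.sqrt_nonneg _) hB 2
    rw [Real.sq_sqrt (Nat.cast_nonneg t)] at h1
    linarith
  rw [hlast, add_zero] at hs1 hs2
  have hterm : ∀ b ∈ Finset.range (Nat.sqrt t),
      2 * √((t : ℝ) - ((b + 1 : ℕ) : ℝ) ^ 2) - 1 ≤ F ((b + 1 : ℕ) : ℤ) ∧
      F ((b + 1 : ℕ) : ℤ) ≤ 2 * √((t : ℝ) - ((b + 1 : ℕ) : ℝ) ^ 2) + 1 := by
    intro b hb
    rw [Finset.mem_range] at hb
    have h1 : (b + 1) ^ 2 ≤ t := by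
      have h2 : b + 1 ≤ Nat.sqrt t := hb
      rw [Nat.le_sqrt'] at h2
      exact h2
    have h2 : F ((b + 1 : ℕ) : ℤ) = 2 * (Nat.sqrt (t - (b + 1) ^ 2) : ℝ) + 1 := by
      rw [hF]
      simp only [Int.natAbs_natCast]
    have h3 := hsq (t - (b + 1) ^ 2)
    rw [Nat.cast_sub h1] at h3
    push_cast at h3 ⊢
    rw [show F ((b : ℤ) + 1) = F ((b + 1 : ℕ) : ℤ) by push_cast; rfl, h2]
    constructor
    · linarith [h3.1]
    · linarith [h3.2]
  have hup : ∑ b ∈ Finset.range (Nat.sqrt t), F ((b + 1 : ℕ) : ℤ) ≤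
      2 * ∑ b ∈ Finset.range (Nat.sqrt t), √((t : ℝ) - ((b + 1 : ℕ) : ℝ) ^ 2) + Nat.sqrt t := by
    rw [Finset.mul_sum]
    calc _ ≤ ∑ b ∈ Finset.range (Nat.sqrt t), (2 * √((t : ℝ) - ((b + 1 : ℕ) : ℝ) ^ 2) + 1) :=
          Finset.sum_le_sum fun b hb => (hterm b hb).2
      _ = _ := by rw [Finset.sum_add_distrib]; simp
  have hlo : 2 * ∑ b ∈ Finset.range (Nat.sqrt t), √((t : ℝ) - ((b + 1 : ℕ) : ℝ) ^ 2) -
      Nat.sqrt t ≤ ∑ b ∈ Finset.range (Nat.sqrt t), F ((b + 1 : ℕ) : ℤ) := by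
    rw [Finset.mul_sum]
    calc _ = ∑ b ∈ Finset.range (Nat.sqrt t), (2 * √((t : ℝ) - ((b + 1 : ℕ) : ℝ) ^ 2) - 1) := by
          rw [Finset.sum_sub_distrib]; simp
      _ ≤ _ := Finset.sum_le_sum fun b hb => (hterm b hb).1
  have hF0 : F 0 = 2 * (Nat.sqrt t : ℝ) + 1 := by
    rw [hF]
    simp
  rw [hF0, abs_le]
  have h5 := hsq t
  have h6 : 0 ≤ √(t : ℝ) := Real.sqrt_nonneg _
  constructor
  · linarith [h5.1, h5.2]
  · linarith [h5.1, h5.2]

end Pool.Agent.Lib.MP_a17b09_nt.MRS.Circ84
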