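import Pool.Agent.Lib.MP_a17b09_nt.MRS.Blk67

/-!
MRS section 2: counting lattice points in discs, strips and thin rings.
-/

set_option autoImplicit false

namespace Pool.Agent.X67

open Finset Complex

theorem zz_re (m : ℤ × ℤ) : (zz m).re = m.1 := by simp [zz]
theorem zz_im (m : ℤ × ℤ) : (zz m).im = m.2 := by simp [zz]

theorem zz_sq (m : ℤ × ℤ) : ‖zz m‖ ^ 2 = (m.1 : ℝ) ^ 2 + (m.2 : ℝ) ^ 2 := by
  rw [← Complex.normSq_eq_norm_sq, Complex.normSq_apply, zz_re, zz_im]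
  ring

theorem card_diam (T : Finset ℤ) (d : ℝ) (hd : 0 ≤ d)
    (h : ∀ a ∈ T, ∀ b ∈ T, |((a : ℝ) - b)| ≤ d) : (T.card : ℝ) ≤ d + 1 := by
  rcases T.eq_empty_or_nonempty with h0 | h0
  · rw [h0, Finset.card_empty]
    push_cast
    linarith
  · set a := T.min' h0 with ha
    have h1 : T ⊆ Icc a (a + ⌊d⌋) := by
      intro b hb
      rw [Finset.mem_Icc]
      refine ⟨T.min'_le b hb, ?_⟩
      have h2 := h b hb a (T.min'_mem h0)
      have h3 : ((b - a : ℤ) : ℝ) ≤ d := by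
        push_cast
        exact (le_abs_self _).trans h2
      have h4 := Int.le_floor.2 h3
      omega
    have h2 := Finset.card_le_card h1
    rw [Int.card_Icc] at h2
    have h3 : (0 : ℤ) ≤ ⌊d⌋ := Int.floor_nonneg.2 hd
    have h4 : ((T.card : ℤ) : ℝ) ≤ ((⌊d⌋ + 1 : ℤ) : ℝ) := by
      rw [Int.cast_le]
      omega
    have h5 := Int.floor_le d
    push_cast at h4
    linarith

/-- fibres of bounded diameter over a bounded coordinate -/
theorem card_fib (T : Finset (ℤ × ℤ)) (R d : ℝ) (hR : 0 ≤ R) (hd : 0 ≤ d)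
    (h1 : ∀ m ∈ T, |(m.2 : ℝ)| ≤ R)
    (h2 : ∀ m ∈ T, ∀ n ∈ T, m.2 = n.2 → |((m.1 : ℝ) - n.1)| ≤ d) :
    (T.card : ℝ) ≤ (2 * R + 1) * (d + 1) := by
  classical
  have e1 : T.card = ∑ b ∈ T.image Prod.snd, (T.filter (fun m => m.2 = b)).card :=
    Finset.card_eq_sum_card_image Prod.snd T
  have e2 : ∀ b ∈ T.image Prod.snd, ((T.filter (fun m => m.2 = b)).card : ℝ) ≤ d + 1 := by
    intro b _
    have e3 : (T.filter (fun m => m.2 = b)).card =
        ((T.filter (fun m => m.2 = b)).image Prod.fst).card := by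
      symm
      apply Finset.card_image_of_injOn
      intro m hm n hn hmn
      have hm' := Finset.mem_coe.1 hm
      have hn' := Finset.mem_coe.1 hn
      rw [Finset.mem_filter] at hm' hn'
      exact Prod.ext hmn (hm'.2.trans hn'.2.symm)
    rw [e3]
    apply card_diam _ d hd
    intro x hx y hy
    rw [Finset.mem_image] at hx hy
    obtain ⟨m, hm, rfl⟩ := hx
    obtain ⟨n, hn, rfl⟩ := hy
    rw [Finset.mem_filter] at hm hn
    exact h2 m hm.1 n hn.1 (hm.2.trans hn.2.symm)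
  have e3 : ((T.image Prod.snd).card : ℝ) ≤ 2 * R + 1 := by
    apply card_diam _ (2 * R) (by linarith)
    intro x hx y hy
    rw [Finset.mem_image] at hx hy
    obtain ⟨m, hm, rfl⟩ := hx
    obtain ⟨n, hn, rfl⟩ := hy
    have := abs_sub (m.2 : ℝ) (n.2 : ℝ)
    linarith [h1 m hm, h1 n hn]
  rw [e1]
  push_cast
  refine (Finset.sum_le_sum e2).trans ?_
  rw [Finset.sum_const, nsmul_eq_mul]
  exact mul_le_mul_of_nonneg_right e3 (by linarith)

theorem card_swap (T : Finset (ℤ × ℤ)) : (T.image Prod.swap).card = T.card :=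
  Finset.card_image_of_injective T Prod.swap_injective

theorem zz_bd1 (m : ℤ × ℤ) (R : ℝ) (h : ‖zz m‖ ≤ R) : |(m.1 : ℝ)| ≤ R := by
  rw [← zz_re]; exact (Complex.abs_re_le_norm _).trans h

theorem zz_bd2 (m : ℤ × ℤ) (R : ℝ) (h : ‖zz m‖ ≤ R) : |(m.2 : ℝ)| ≤ R := by
  rw [← zz_im]; exact (Complex.abs_im_le_norm _).trans h

/-- lattice points in a disc -/
theorem card_disc (T : Finset (ℤ × ℤ)) (R : ℝ) (hR : 0 ≤ R) (h : ∀ m ∈ T, ‖zz m‖ ≤ R) :
    (T.card : ℝ) ≤ (2 * R + 1) * (2 * R + 1) := by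
  apply card_fib T R (2 * R) hR (by linarith) (fun m hm => zz_bd2 m R (h m hm))
  intro m hm n hn _
  have := abs_sub (m.1 : ℝ) (n.1 : ℝ)
  linarith [zz_bd1 m R (h m hm), zz_bd1 n R (h n hn)]

/-- lattice points in a strip in a disc -/
theorem card_strip (T : Finset (ℤ × ℤ)) (R D : ℝ) (hR : 0 ≤ R) (hD : 0 ≤ D) (ζ : ℂ)
    (hζ : ‖ζ‖ = 1) (h : ∀ m ∈ T, ‖zz m‖ ≤ R)
    (h2 : ∀ m ∈ T, ‖zz m - ζ * (starRingEnd ℂ) (zz m)‖ ≤ D) :
    (T.card : ℝ) ≤ (2 * R + 1) * (2 * D + 1) := by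
  classical
  have key : ∀ m : ℤ × ℤ, zz m - ζ * (starRingEnd ℂ) (zz m) =
      (m.1 : ℂ) * (1 - ζ) + (m.2 : ℂ) * (I * (1 + ζ)) := by
    intro m
    have : (starRingEnd ℂ) (zz m) = (m.1 : ℂ) - (m.2 : ℂ) * I := by
      unfold zz
      rw [map_add, map_mul, Complex.conj_I]
      rw [show (starRingEnd ℂ) (m.1 : ℂ) = (m.1 : ℂ) from by simp,
        show (starRingEnd ℂ) (m.2 : ℂ) = (m.2 : ℂ) from by simp]
      ring
    rw [this]
    unfold zz
    ring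
  have hsum : ‖1 - ζ‖ ^ 2 + ‖1 + ζ‖ ^ 2 = 4 := by
    have h3 : ‖ζ‖ ^ 2 = 1 := by rw [hζ]; norm_num
    rw [← Complex.normSq_eq_norm_sq, Complex.normSq_apply] at h3 ⊢
    rw [← Complex.normSq_eq_norm_sq, Complex.normSq_apply]
    simp only [Complex.sub_re, Complex.sub_im, Complex.add_re, Complex.add_im, Complex.one_re,
      Complex.one_im]
    nlinarith
  by_cases hc : 1 ≤ ‖1 - ζ‖
  · apply card_fib T R (2 * D) hR (by linarith) (fun m hm => zz_bd2 m R (h m hm))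
    intro m hm n hn hmn
    have e1 : ((m.1 : ℂ) - n.1) * (1 - ζ) = (zz m - ζ * (starRingEnd ℂ) (zz m)) -
        (zz n - ζ * (starRingEnd ℂ) (zz n)) := by
      rw [key, key, hmn]
      ring
    have e2 : ‖((m.1 : ℂ) - n.1) * (1 - ζ)‖ ≤ 2 * D := by
      rw [e1]
      refine (norm_sub_le _ _).trans ?_
      linarith [h2 m hm, h2 n hn]
    rw [norm_mul] at e2
    have e3 : ‖(m.1 : ℂ) - n.1‖ = |((m.1 : ℝ) - n.1)| := by
      rw [← Real.norm_eq_abs, ← Complex.norm_real]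
      push_cast
      rfl
    rw [e3] at e2
    have : 0 ≤ |((m.1 : ℝ) - n.1)| := abs_nonneg _
    nlinarith
  · have hc2 : 1 ≤ ‖1 + ζ‖ := by
      rw [not_le] at hc
      have h3 : 0 ≤ ‖1 - ζ‖ := norm_nonneg _
      have h4 : 0 ≤ ‖1 + ζ‖ := norm_nonneg _
      nlinarith
    rw [← card_swap T]
    apply card_fib (T.image Prod.swap) R (2 * D) hR (by linarith)
    · intro m hm
      rw [Finset.mem_image] at hm
      obtain ⟨n, hn, rfl⟩ := hm
      exact zz_bd1 n R (h n hn)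
    · intro m' hm' n' hn' hmn
      rw [Finset.mem_image] at hm' hn'
      obtain ⟨m, hm, rfl⟩ := hm'
      obtain ⟨n, hn, rfl⟩ := hn'
      rw [Prod.snd_swap, Prod.snd_swap] at hmn
      rw [Prod.fst_swap, Prod.fst_swap]
      have e1 : ((m.2 : ℂ) - n.2) * (I * (1 + ζ)) = (zz m - ζ * (starRingEnd ℂ) (zz m)) -
          (zz n - ζ * (starRingEnd ℂ) (zz n)) := by
        rw [key, key, hmn]
        ring
      have e2 : ‖((m.2 : ℂ) - n.2) * (I * (1 + ζ))‖ ≤ 2 * D := by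
        rw [e1]
        refine (norm_sub_le _ _).trans ?_
        linarith [h2 m hm, h2 n hn]
      rw [norm_mul, norm_mul, Complex.norm_I, one_mul] at e2
      have e3 : ‖(m.2 : ℂ) - n.2‖ = |((m.2 : ℝ) - n.2)| := by
        rw [← Real.norm_eq_abs, ← Complex.norm_real]
        push_cast
        rfl
      rw [e3] at e2
      have : 0 ≤ |((m.2 : ℝ) - n.2)| := abs_nonneg _
      nlinarith

/-- lattice points close to some line where `z ^ r` is real -/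
theorem card_bad (T : Finset (ℤ × ℤ)) (r : ℕ) (hr : 1 ≤ r) (R D : ℝ) (hR : 0 ≤ R) (hD : 0 ≤ D)
    (h : ∀ m ∈ T, ‖zz m‖ ≤ R) (h2 : ∀ m ∈ T, ¬ Far r D (zz m)) :
    (T.card : ℝ) ≤ r * ((2 * R + 1) * (2 * D + 1)) := by
  classical
  have hp := Complex.isPrimitiveRoot_exp r (by omega)
  have h3 : T ⊆ (Polynomial.nthRootsFinset r (1 : ℂ)).biUnion (fun ζ =>
      T.filter (fun m => ‖zz m - ζ * (starRingEnd ℂ) (zz m)‖ ≤ D)) := by
    intro m hm
    have h4 := h2 m hm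
    unfold Far at h4
    push Not at h4
    obtain ⟨ζ, hζ, h5⟩ := h4
    rw [Finset.mem_biUnion]
    exact ⟨ζ, hζ, Finset.mem_filter.2 ⟨hm, h5.le⟩⟩
  have h4 : (T.card : ℝ) ≤ ∑ ζ ∈ Polynomial.nthRootsFinset r (1 : ℂ),
      ((T.filter (fun m => ‖zz m - ζ * (starRingEnd ℂ) (zz m)‖ ≤ D)).card : ℝ) := by
    have := (Finset.card_le_card h3).trans Finset.card_biUnion_le
    exact_mod_cast this
  refine h4.trans ?_
  have h5 : ∀ ζ ∈ Polynomial.nthRootsFinset r (1 : ℂ),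
      ((T.filter (fun m => ‖zz m - ζ * (starRingEnd ℂ) (zz m)‖ ≤ D)).card : ℝ) ≤
        (2 * R + 1) * (2 * D + 1) := by
    intro ζ hζ
    have hζ1 : ‖ζ‖ = 1 := by
      rw [Polynomial.mem_nthRootsFinset (by omega)] at hζ
      exact Complex.norm_eq_one_of_pow_eq_one hζ (by omega)
    apply card_strip _ R D hR hD ζ hζ1
    · intro m hm
      exact h m (Finset.mem_filter.1 hm).1
    · intro m hm
      exact (Finset.mem_filter.1 hm).2
  refine (Finset.sum_le_sum h5).trans ?_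
  rw [Finset.sum_const, hp.card_nthRootsFinset, nsmul_eq_mul]

/-- lattice points in a thin ring -/
theorem card_ring (T : Finset (ℤ × ℤ)) (ρ w : ℝ) (hw : 0 ≤ w) (hwρ : w ≤ ρ)
    (h : ∀ m ∈ T, |‖zz m‖ - ρ| ≤ w) :
    (T.card : ℝ) ≤ (2 * (ρ + w) + 1) * (4 * Real.sqrt (ρ * w) + 2) := by
  classical
  have hρ : 0 ≤ ρ := hw.trans hwρ
  have key : ∀ m ∈ T, ‖zz m‖ ≤ ρ + w ∧ ρ - w ≤ ‖zz m‖ := by
    intro m hm
    have := abs_le.1 (h m hm)
    constructor <;> linarith [this.1, this.2]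
  have sq : Real.sqrt (ρ * w) ^ 2 = ρ * w := Real.sq_sqrt (mul_nonneg hρ hw)
  have s0 : 0 ≤ Real.sqrt (ρ * w) := Real.sqrt_nonneg _
  have dsq : ∀ m ∈ T, ∀ n ∈ T, m.2 = n.2 → (m.1 : ℝ) ^ 2 - (n.1 : ℝ) ^ 2 ≤ 4 * (ρ * w) := by
    intro m hm n hn hmn
    have e1 := zz_sq m
    have e2 := zz_sq n
    have h1 := key m hm
    have h2 := key n hn
    have h3 : ‖zz m‖ ^ 2 ≤ (ρ + w) ^ 2 := pow_le_pow_left₀ (norm_nonneg _) h1.1 2
    have h4 : (ρ - w) ^ 2 ≤ ‖zz n‖ ^ 2 := pow_le_pow_left₀ (by linarith) h2.2 2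
    rw [hmn] at e1
    nlinarith
  have part : ∀ U : Finset (ℤ × ℤ), U ⊆ T →
      (∀ m ∈ U, ∀ n ∈ U, 0 ≤ (m.1 : ℝ) * n.1) →
      (U.card : ℝ) ≤ (2 * (ρ + w) + 1) * (2 * Real.sqrt (ρ * w) + 1) := by
    intro U hU hs
    apply card_fib U (ρ + w) (2 * Real.sqrt (ρ * w)) (by linarith) (by linarith)
      (fun m hm => zz_bd2 m _ (key m (hU hm)).1)
    intro m hm n hn hmn
    have h1 := dsq m (hU hm) n (hU hn) hmn
    have h2 := dsq n (hU hn) m (hU hm) hmn.symm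
    have h3 := hs m hm n hn
    apply abs_le_of_sq_le_sq _ (by linarith)
    rcases le_total ((n.1 : ℝ) ^ 2) ((m.1 : ℝ) ^ 2) with h4 | h4
    · nlinarith [abs_mul_abs_self (m.1 : ℝ), abs_mul_abs_self (n.1 : ℝ), sq_abs (m.1 : ℝ),
        sq_abs (n.1 : ℝ), abs_nonneg (m.1 : ℝ), abs_nonneg (n.1 : ℝ), sq_le_sq.1 h4,
        abs_mul (m.1 : ℝ) (n.1 : ℝ), abs_of_nonneg h3]
    · nlinarith [abs_mul_abs_self (m.1 : ℝ), abs_mul_abs_self (n.1 : ℝ), sq_abs (m.1 : ℝ),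
        sq_abs (n.1 : ℝ), abs_nonneg (m.1 : ℝ), abs_nonneg (n.1 : ℝ), sq_le_sq.1 h4,
        abs_mul (m.1 : ℝ) (n.1 : ℝ), abs_of_nonneg h3]
  have p1 := part (T.filter (fun m => 0 ≤ m.1)) (Finset.filter_subset _ _) (by
    intro m hm n hn
    rw [Finset.mem_filter] at hm hn
    have h1 : (0 : ℝ) ≤ m.1 := by exact_mod_cast hm.2
    have h2 : (0 : ℝ) ≤ n.1 := by exact_mod_cast hn.2
    positivity)
  have p2 := part (T.filter (fun m => ¬ 0 ≤ m.1)) (Finset.filter_subset _ _) (by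
    intro m hm n hn
    rw [Finset.mem_filter, not_le] at hm hn
    have h1 : (m.1 : ℝ) ≤ 0 := by exact_mod_cast hm.2.le
    have h2 : (n.1 : ℝ) ≤ 0 := by exact_mod_cast hn.2.le
    exact mul_nonneg_of_nonpos_of_nonpos h1 h2)
  have h5 : (T.card : ℝ) = ((T.filter (fun m => 0 ≤ m.1)).card : ℝ) +
      ((T.filter (fun m => ¬ 0 ≤ m.1)).card : ℝ) := by
    rw [← Nat.cast_add, Finset.card_filter_add_card_filter_not]
  rw [h5]
  linarith

end Pool.Agent.X67
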