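import Mathlib

/-!
# MRS (MP_a17b09_nt), StUp, module CONV: `r = a * b` and the finite Euler product
-/

set_option autoImplicit false

open Finset ArithmeticFunction

namespace Pool.Agent.MRS1.Conv

/-- the coefficients of `(1 - 2 c x + x^2) / (1 - x)^2` -/
def bco (c : ℝ) (k : ℕ) : ℝ := if k = 0 then 1 else 2 * (1 - c) * k

lemma bco_zero (c : ℝ) : bco c 0 = 1 := rfl

lemma bco_succ (c : ℝ) (k : ℕ) : bco c (k + 1) = 2 * (1 - c) * (k + 1) := by
  unfold bco; simp

lemma bco_nonneg {c : ℝ} (hc : |c| ≤ 1) (k : ℕ) : 0 ≤ bco c k := by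
  unfold bco
  split_ifs
  · exact zero_le_one
  · have := (abs_le.1 hc).2
    have h1 : 0 ≤ 1 - c := by linarith
    positivity

open PowerSeries in
/-- the local identity -/
theorem local_id (c : ℝ) (a : ℕ → ℝ) (h0 : a 0 = 1) (h1 : a 1 = 2 * c)
    (h2 : ∀ k, a (k + 2) = 2 * c * a (k + 1) - a k) (k : ℕ) :
    ∑ x ∈ antidiagonal k, a x.1 * bco c x.2 = k + 1 := by
  obtain ⟨e, he⟩ : ∃ e, e = 2 * c := ⟨_, rfl⟩
  rw [← he] at h1
  rw [← he] at h2
  set A : PowerSeries ℝ := PowerSeries.mk a with hA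
  set B : PowerSeries ℝ := PowerSeries.mk (bco c) with hB
  set R : PowerSeries ℝ := PowerSeries.mk (fun k => (k : ℝ) + 1) with hR
  set q : PowerSeries ℝ := 1 - PowerSeries.C e * X + X * X with hq
  have e1 : A * q = 1 := by
    rw [hq]
    have : A * (1 - PowerSeries.C e * X + X * X) =
      A - PowerSeries.C e * (A * X) + A * X * X := by ring
    rw [this]
    ext n
    rcases n with _ | _ | n
    · simp [hA, h0]
    · simp [hA, h0, h1, coeff_succ_mul_X, coeff_one]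
    · simp [hA, h2, coeff_succ_mul_X, coeff_one]
  have e2 : B * ((1 - X) * (1 - X)) = q := by
    rw [hq]
    have : B * ((1 - X) * (1 - X)) = B - PowerSeries.C 2 * (B * X) + B * X * X := by
      have h2 : (PowerSeries.C 2 : PowerSeries ℝ) = 2 := map_ofNat _ _
      rw [h2]; ring
    rw [this]
    ext n
    rcases n with _ | _ | _ | n
    · simp [hB, bco_zero]
    · simp [hB, he, bco_zero, bco_succ, coeff_succ_mul_X, coeff_one, coeff_X]
      ring
    · simp [hB, bco_zero, bco_succ, coeff_succ_mul_X, coeff_one, coeff_X]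
      ring
    · simp [hB, bco_succ, coeff_succ_mul_X, coeff_one, coeff_X]
      ring
  have e3 : R * ((1 - X) * (1 - X)) = 1 := by
    have : R * ((1 - X) * (1 - X)) = R - PowerSeries.C 2 * (R * X) + R * X * X := by
      have h2 : (PowerSeries.C 2 : PowerSeries ℝ) = 2 := map_ofNat _ _
      rw [h2]; ring
    rw [this]
    ext n
    rcases n with _ | _ | n
    · simp [hR]
    · simp [hR, coeff_succ_mul_X, coeff_one]
      norm_num
    · simp [hR, coeff_succ_mul_X, coeff_one]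
      ring
  have e4 : A * B = R := by
    have hne : ((1 - X) * (1 - X) : PowerSeries ℝ) ≠ 0 := by
      intro h
      rw [h, mul_zero] at e3
      exact zero_ne_one e3
    apply mul_right_cancel₀ hne
    rw [mul_assoc, e2, e1, e3]
  have e5 := congrArg (PowerSeries.coeff k) e4
  rw [PowerSeries.coeff_mul, hR, PowerSeries.coeff_mk] at e5
  simpa [hA, hB] using e5

section
variable (P : Set ℕ) (c : ℕ → ℝ)

open Classical in
/-- the local factor of `b` -/
noncomputable def bl (p k : ℕ) : ℝ := if p ∈ P then bco (c p) k else if k = 0 then 1 else 0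

lemma bl_zero (p : ℕ) : bl P c p 0 = 1 := by
  unfold bl; split_ifs
  · exact bco_zero _
  · rfl
  · omega

lemma bl_nonneg (hc : ∀ p, |c p| ≤ 1) (p k : ℕ) : 0 ≤ bl P c p k := by
  unfold bl
  split_ifs
  · exact bco_nonneg (hc p) k
  · exact zero_le_one
  · exact le_rfl

/-- the function `b` -/
noncomputable def bf : ArithmeticFunction ℝ :=
  ⟨fun n => if n = 0 then 0 else n.factorization.prod (bl P c), by simp⟩

lemma bf_apply {n : ℕ} (hn : n ≠ 0) : bf P c n = n.factorization.prod (bl P c) := by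
  change (if n = 0 then 0 else n.factorization.prod (bl P c)) = _
  rw [if_neg hn]

lemma bf_pow {p : ℕ} (hp : p.Prime) (k : ℕ) : bf P c (p ^ k) = bl P c p k := by
  rw [bf_apply P c (pow_ne_zero _ hp.ne_zero), hp.factorization_pow,
    Finsupp.prod_single_index (bl_zero P c p)]

lemma bf_mult : (bf P c).IsMultiplicative := by
  refine ⟨?_, ?_⟩
  · rw [bf_apply P c one_ne_zero]; simp
  · intro m n hmn
    rcases eq_or_ne m 0 with rfl | hm
    · simp
    rcases eq_or_ne n 0 with rfl | hn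
    · simp
    rw [bf_apply P c (mul_ne_zero hm hn), bf_apply P c hm, bf_apply P c hn,
      Nat.factorization_mul hm hn]
    refine Finsupp.prod_add_index_of_disjoint ?_ _
    rw [Nat.support_factorization, Nat.support_factorization]
    exact hmn.disjoint_primeFactors

lemma bf_nonneg (hc : ∀ p, |c p| ≤ 1) (n : ℕ) : 0 ≤ bf P c n := by
  rcases eq_or_ne n 0 with rfl | hn
  · simp
  · rw [bf_apply P c hn]
    exact Finset.prod_nonneg fun p _ => bl_nonneg P c hc p _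

/-- `r = a * b` -/
theorem conv_eq (a r : ArithmeticFunction ℝ) (ha : a.IsMultiplicative) (hr : r.IsMultiplicative)
    (h1 : ∀ p, p.Prime → p ∈ P → a p = 2 * c p)
    (h2 : ∀ p, p.Prime → p ∈ P → ∀ k, a (p ^ (k + 2)) = 2 * c p * a (p ^ (k + 1)) - a (p ^ k))
    (h3 : ∀ p, p.Prime → p ∈ P → ∀ k : ℕ, r (p ^ k) = k + 1)
    (h4 : ∀ p, p.Prime → p ∉ P → ∀ k, a (p ^ k) = r (p ^ k)) : r = a * bf P c := by
  rw [hr.eq_iff_eq_on_prime_powers r _ (ha.mul (bf_mult P c))]
  intro p k hp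
  rw [ArithmeticFunction.mul_apply, Nat.sum_divisorsAntidiagonal (fun x y => a x * bf P c y),
    Nat.sum_divisors_prime_pow hp]
  have h5 : ∀ i ∈ Finset.range (k + 1), a (p ^ i) * bf P c (p ^ k / p ^ i) =
      a (p ^ i) * bl P c p (k - i) := by
    intro i hi
    rw [Nat.pow_div (by rw [Finset.mem_range] at hi; omega) hp.pos, bf_pow P c hp]
  rw [Finset.sum_congr rfl h5]
  by_cases hpP : p ∈ P
  · rw [h3 p hp hpP]
    have h6 := local_id (c p) (fun i => a (p ^ i)) (by simp [ha.map_one])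
      (by simpa using h1 p hp hpP) (h2 p hp hpP) k
    rw [Finset.Nat.sum_antidiagonal_eq_sum_range_succ
      (fun i j => a (p ^ i) * bco (c p) j)] at h6
    rw [← h6]
    refine Finset.sum_congr rfl fun i _ => ?_
    unfold bl
    rw [if_pos hpP]
  · rw [← h4 p hp hpP, Finset.sum_eq_single_of_mem k (Finset.self_mem_range_succ k)]
    · rw [Nat.sub_self, bl_zero, mul_one]
    · intro i hi hik
      have : k - i ≠ 0 := by rw [Finset.mem_range] at hi; omega
      unfold bl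
      rw [if_neg hpP, if_neg this, mul_zero]

lemma hasSum_loc {c : ℝ} {r : ℝ} (hr : |r| < 1) :
    HasSum (fun k : ℕ => bco c k * r ^ k) (1 + 2 * (1 - c) * (r / (1 - r) ^ 2)) := by
  have h1 := (hasSum_coe_mul_geometric_of_norm_lt_one (by simpa using hr : ‖r‖ < 1)).mul_left
    (2 * (1 - c))
  have h2 := (hasSum_ite_eq (0 : ℕ) (1 : ℝ)).add h1
  convert h2 using 1
  funext k
  rcases k with _ | k
  · simp [bco_zero]
  · simp [bco_succ]
    ring

/-- the sum over `n ≤ Y` of `b n / n` is at most the finite Euler product -/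
theorem sum_bf_le (hc : ∀ p, |c p| ≤ 1) (Y : ℕ) :
    ∑ d ∈ Ioc 0 Y, bf P c d / d ≤
      ∏ p ∈ (Y + 1).primesBelow, ∑' k : ℕ, bl P c p k * ((p : ℝ)⁻¹) ^ k := by
  set f : ℕ → ℝ := fun n => bf P c n / n with hf
  have hf1 : f 1 = 1 := by simp [hf, (bf_mult P c).map_one]
  have hmul : ∀ {m n : ℕ}, Nat.Coprime m n → f (m * n) = f m * f n := by
    intro m n hmn
    simp only [hf]
    rw [(bf_mult P c).map_mul_of_coprime hmn]
    push_cast
    rw [mul_div_mul_comm]
  have hfp : ∀ {p : ℕ}, p.Prime → ∀ k, f (p ^ k) = bl P c p k * ((p : ℝ)⁻¹) ^ k := by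
    intro p hp k
    simp only [hf]
    rw [bf_pow P c hp]
    push_cast
    rw [inv_pow, div_eq_mul_inv]
  have hloc : ∀ {p : ℕ}, p.Prime → Summable (fun k => bl P c p k * ((p : ℝ)⁻¹) ^ k) := by
    intro p hp
    have hp2 : (2 : ℝ) ≤ p := by exact_mod_cast hp.two_le
    by_cases hpP : p ∈ P
    · have := (hasSum_loc (c := c p) (r := (p : ℝ)⁻¹) (by
        rw [abs_of_pos (by positivity)]
        exact inv_lt_one_of_one_lt₀ (by linarith))).summable
      refine this.congr fun k => ?_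
      unfold bl
      rw [if_pos hpP]
    · refine (hasSum_ite_eq (0 : ℕ) (1 : ℝ)).summable.congr fun k => ?_
      unfold bl
      rw [if_neg hpP]
      rcases k with _ | k <;> simp
  have hnn : ∀ n, 0 ≤ f n := fun n => div_nonneg (bf_nonneg P c hc n) (Nat.cast_nonneg _)
  have hE := EulerProduct.summable_and_hasSum_smoothNumbers_prod_primesBelow_tsum hf1 hmul
    (fun {p} hp => by
      refine (hloc hp).congr fun k => ?_
      rw [← hfp hp, Real.norm_of_nonneg (hnn _)]) (Y + 1)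
  have h2 := hE.2
  have h3 : ∏ p ∈ (Y + 1).primesBelow, ∑' k : ℕ, f (p ^ k) =
      ∏ p ∈ (Y + 1).primesBelow, ∑' k : ℕ, bl P c p k * ((p : ℝ)⁻¹) ^ k := by
    refine Finset.prod_congr rfl fun p hp => ?_
    exact tsum_congr fun k => hfp (Nat.prime_of_mem_primesBelow hp) k
  rw [h3] at h2
  rw [← h2.tsum_eq]
  have h4 : ∀ d : ℕ, d ∈ Ioc 0 Y → d ∈ Nat.smoothNumbers (Y + 1) := by
    intro d hd
    obtain ⟨h5, h6⟩ := Finset.mem_Ioc.1 hd
    exact Nat.mem_smoothNumbers_of_lt h5 (by omega)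
  set g : (Ioc 0 Y : Finset ℕ) → Nat.smoothNumbers (Y + 1) := fun d => ⟨d.1, h4 d.1 d.2⟩ with hg
  have h5 : ∑ d ∈ Ioc 0 Y, f d = ∑ d ∈ (Ioc 0 Y).attach.map ⟨g, fun x y h => by
      apply Subtype.ext
      exact congrArg (fun z : Nat.smoothNumbers (Y + 1) => (z : ℕ)) h⟩, f d := by
    rw [Finset.sum_map, ← Finset.sum_attach]
    rfl
  rw [h5]
  exact h2.summable.sum_le_tsum _ (fun i _ => hnn _)

/-- **CONV** -/
theorem conv_1 (a r : ArithmeticFunction ℝ) (ha : a.IsMultiplicative) (hr : r.IsMultiplicative)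
    (hc : ∀ p, |c p| ≤ 1)
    (h1 : ∀ p, p.Prime → p ∈ P → a p = 2 * c p)
    (h2 : ∀ p, p.Prime → p ∈ P → ∀ k, a (p ^ (k + 2)) = 2 * c p * a (p ^ (k + 1)) - a (p ^ k))
    (h3 : ∀ p, p.Prime → p ∈ P → ∀ k : ℕ, r (p ^ k) = k + 1)
    (h4 : ∀ p, p.Prime → p ∉ P → ∀ k, a (p ^ k) = r (p ^ k)) (Y : ℕ) (S : ℝ)
    (hS : ∀ Z ≤ Y, |∑ m ∈ Ioc 0 Z, a m / m| ≤ S) :
    ∑ n ∈ Ioc 0 Y, r n / n ≤
      S * ∏ p ∈ (Y + 1).primesBelow, ∑' k : ℕ, bl P c p k * ((p : ℝ)⁻¹) ^ k := by
  have e := conv_eq P c a r ha hr h1 h2 h3 h4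
  set a' : ArithmeticFunction ℝ := ⟨fun n => a n / n, by simp⟩ with ha'
  set b' : ArithmeticFunction ℝ := ⟨fun n => bf P c n / n, by simp⟩ with hb'
  have e2 : ∀ n, r n / n = (b' * a') n := by
    intro n
    rw [e, mul_comm a, ArithmeticFunction.mul_apply, ArithmeticFunction.mul_apply,
      Finset.sum_div]
    refine Finset.sum_congr rfl fun x hx => ?_
    have hx' := (Nat.mem_divisorsAntidiagonal.1 hx).1
    change bf P c x.1 * a x.2 / n = (bf P c x.1 / x.1) * (a x.2 / x.2)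
    rw [← hx']
    push_cast
    rw [mul_div_mul_comm]
  rw [Finset.sum_congr rfl fun n _ => e2 n, ArithmeticFunction.sum_Ioc_mul_eq_sum_sum]
  have hS0 : 0 ≤ S := (abs_nonneg _).trans (hS 0 (Nat.zero_le _))
  have hle : ∑ n ∈ Ioc 0 Y, b' n * ∑ m ∈ Ioc 0 (Y / n), a' m ≤ ∑ n ∈ Ioc 0 Y, b' n * S := by
    refine Finset.sum_le_sum fun n _ => mul_le_mul_of_nonneg_left ?_ ?_
    · exact (le_abs_self _).trans (hS _ (Nat.div_le_self _ _))
    · exact div_nonneg (bf_nonneg P c hc n) (Nat.cast_nonneg _)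
  refine hle.trans ?_
  rw [← Finset.sum_mul, mul_comm]
  exact mul_le_mul_of_nonneg_left (sum_bf_le P c hc Y) hS0

lemma sum_inv_sq (Y : ℕ) : ∑ p ∈ (Y + 1).primesBelow, ((p : ℝ)⁻¹) ^ 2 ≤ 2 := by
  have h1 := sum_Ioo_inv_sq_le (α := ℝ) 0 (Y + 1)
  norm_num at h1
  refine le_trans ?_ h1
  have h2 : ∀ p ∈ (Y + 1).primesBelow, ((p : ℝ)⁻¹) ^ 2 = ((p : ℝ) ^ 2)⁻¹ := by
    intro p _
    rw [inv_pow]
  rw [Finset.sum_congr rfl h2]
  refine Finset.sum_le_sum_of_subset_of_nonneg ?_ fun i _ _ => by positivity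
  intro p hp
  rw [Finset.mem_Ioo]
  exact ⟨(Nat.prime_of_mem_primesBelow hp).pos, Nat.lt_of_mem_primesBelow hp⟩

open Classical in
/-- the product is at most `exp (64 + ∑ 2 (1 - c p) / p)` -/
theorem prod_le (hc : ∀ p, |c p| ≤ 1) (Y : ℕ) :
    ∏ p ∈ (Y + 1).primesBelow, ∑' k : ℕ, bl P c p k * ((p : ℝ)⁻¹) ^ k ≤
      Real.exp (64 + ∑ p ∈ (Y + 1).primesBelow.filter (· ∈ P), 2 * (1 - c p) / p) := by
  have hfac : ∀ p ∈ (Y + 1).primesBelow, ∑' k : ℕ, bl P c p k * ((p : ℝ)⁻¹) ^ k ≤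
      Real.exp (32 * ((p : ℝ)⁻¹) ^ 2 + if p ∈ P then 2 * (1 - c p) / p else 0) := by
    intro p hp
    have hpp := Nat.prime_of_mem_primesBelow hp
    have hp2 : (2 : ℝ) ≤ p := by exact_mod_cast hpp.two_le
    set r : ℝ := (p : ℝ)⁻¹ with hr
    have hr0 : 0 < r := by positivity
    have hr2 : r ≤ 1 / 2 := by
      rw [hr, inv_eq_one_div]
      exact one_div_le_one_div_of_le (by norm_num) hp2
    by_cases hpP : p ∈ P
    · have h1 := (hasSum_loc (c := c p) (r := r) (by rw [abs_of_pos hr0]; linarith)).tsum_eq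
      have h2 : ∑' k : ℕ, bl P c p k * r ^ k = 1 + 2 * (1 - c p) * (r / (1 - r) ^ 2) := by
        rw [← h1]
        refine tsum_congr fun k => ?_
        unfold bl
        rw [if_pos hpP]
      rw [h2, if_pos hpP]
      have hc1 := abs_le.1 (hc p)
      have h3 : r / (1 - r) ^ 2 ≤ r + 8 * r ^ 2 := by
        rw [div_le_iff₀ (by nlinarith)]
        nlinarith [mul_pos hr0 hr0, mul_pos (mul_pos hr0 hr0) hr0]
      have h4 : 2 * (1 - c p) * (r / (1 - r) ^ 2) ≤ 32 * r ^ 2 + 2 * (1 - c p) / p := by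
        have h5 : 2 * (1 - c p) / p = 2 * (1 - c p) * r := by rw [hr, div_eq_mul_inv]
        rw [h5]
        have h6 : 0 ≤ 2 * (1 - c p) := by linarith
        nlinarith [mul_le_mul_of_nonneg_left h3 h6, sq_nonneg r, mul_pos hr0 hr0]
      have h7 := Real.add_one_le_exp (32 * r ^ 2 + 2 * (1 - c p) / p)
      linarith
    · rw [if_neg hpP, add_zero]
      have h2 : ∑' k : ℕ, bl P c p k * r ^ k = 1 := by
        rw [← (hasSum_ite_eq (0 : ℕ) (1 : ℝ)).tsum_eq]
        refine tsum_congr fun k => ?_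
        unfold bl
        rw [if_neg hpP]
        rcases k with _ | k <;> simp
      rw [h2]
      exact Real.one_le_exp (by positivity)
  have hnn : ∀ p ∈ (Y + 1).primesBelow, 0 ≤ ∑' k : ℕ, bl P c p k * ((p : ℝ)⁻¹) ^ k := by
    intro p _
    exact tsum_nonneg fun k => mul_nonneg (bl_nonneg P c hc p k) (by positivity)
  refine (Finset.prod_le_prod hnn hfac).trans ?_
  rw [← Real.exp_sum, Real.exp_le_exp, Finset.sum_add_distrib, ← Finset.mul_sum,
    Finset.sum_filter]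
  have := sum_inv_sq Y
  linarith

open Classical in
/-- **CONV**, final form: `∑ r n / n ≤ S exp (64 + ∑ 2 (1 - c p) / p)` -/
theorem conv_exp (a r : ArithmeticFunction ℝ) (ha : a.IsMultiplicative) (hr : r.IsMultiplicative)
    (hc : ∀ p, |c p| ≤ 1)
    (h1 : ∀ p, p.Prime → p ∈ P → a p = 2 * c p)
    (h2 : ∀ p, p.Prime → p ∈ P → ∀ k, a (p ^ (k + 2)) = 2 * c p * a (p ^ (k + 1)) - a (p ^ k))
    (h3 : ∀ p, p.Prime → p ∈ P → ∀ k : ℕ, r (p ^ k) = k + 1)
    (h4 : ∀ p, p.Prime → p ∉ P → ∀ k, a (p ^ k) = r (p ^ k)) (Y : ℕ) (S : ℝ)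
    (hS : ∀ Z ≤ Y, |∑ m ∈ Ioc 0 Z, a m / m| ≤ S) :
    ∑ n ∈ Ioc 0 Y, r n / n ≤
      S * Real.exp (64 + ∑ p ∈ (Y + 1).primesBelow.filter (· ∈ P), 2 * (1 - c p) / p) := by
  have hS0 : 0 ≤ S := (abs_nonneg _).trans (hS 0 (Nat.zero_le _))
  exact (conv_1 P c a r ha hr hc h1 h2 h3 h4 Y S hS).trans
    (mul_le_mul_of_nonneg_left (prod_le P c hc Y) hS0)

end

end Pool.Agent.MRS1.Conv
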