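import Pool.Agent.Lib.MP_a17b09_nt.MRS.Tk84
import Pool.Agent.Lib.MP_a17b09_nt.MRS.StmtsX67

/-!
MRS (MP_a17b09_nt): logarithmic sums over Gaussian integers (partial summation).
-/

set_option autoImplicit false

open Finset

namespace Pool.Agent.Lib.MP_a17b09_nt.MRS.Logs71

open Tk84

/-- Abel summation against `1 / n` -/
theorem abel (y0 : ℕ) (b : ℕ → ℂ) : ∀ Z : ℕ, y0 ≤ Z →
    ∑ n ∈ Ioc y0 Z, b n / (n : ℂ) = (∑ i ∈ Ioc y0 Z, b i) / ((Z : ℂ) + 1) +
      ∑ n ∈ Ioc y0 Z, (∑ i ∈ Ioc y0 n, b i) * (1 / (n : ℂ) - 1 / ((n : ℂ) + 1)) := by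
  intro Z hZ
  induction Z, hZ using Nat.le_induction with
  | base => simp
  | succ Z hZ ih =>
    have h1 : Ioc y0 (Z + 1) = insert (Z + 1) (Ioc y0 Z) := by
      ext i
      rw [mem_insert, mem_Ioc, mem_Ioc]
      omega
    have h2 : Z + 1 ∉ Ioc y0 Z := by
      rw [mem_Ioc]
      omega
    have h3 : ∑ i ∈ Ioc y0 (Z + 1), b i = b (Z + 1) + ∑ i ∈ Ioc y0 Z, b i := by
      rw [h1, sum_insert h2]
    have e1 : ∑ n ∈ Ioc y0 (Z + 1), b n / (n : ℂ) =
        b (Z + 1) / ((Z + 1 : ℕ) : ℂ) + ∑ n ∈ Ioc y0 Z, b n / (n : ℂ) := by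
      rw [h1, sum_insert h2]
    have e2 : ∑ n ∈ Ioc y0 (Z + 1), (∑ i ∈ Ioc y0 n, b i) * (1 / (n : ℂ) - 1 / ((n : ℂ) + 1)) =
        (∑ i ∈ Ioc y0 (Z + 1), b i) * (1 / ((Z + 1 : ℕ) : ℂ) - 1 / (((Z + 1 : ℕ) : ℂ) + 1)) +
        ∑ n ∈ Ioc y0 Z, (∑ i ∈ Ioc y0 n, b i) * (1 / (n : ℂ) - 1 / ((n : ℂ) + 1)) := by
      nth_rewrite 1 [h1]
      rw [sum_insert h2]
    rw [e1, e2, ih, h3]
    push_cast
    have h4 : (Z : ℂ) + 1 ≠ 0 := by exact_mod_cast Nat.succ_ne_zero Z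
    have h5 : (Z : ℂ) + 1 + 1 ≠ 0 := by exact_mod_cast Nat.succ_ne_zero (Z + 1)
    field_simp
    ring

theorem abel_bd (y0 Z : ℕ) (hZ : y0 ≤ Z) (b : ℕ → ℂ) (B : ℕ → ℝ)
    (hB : ∀ n, y0 ≤ n → ‖∑ i ∈ Ioc y0 n, b i‖ ≤ B n) :
    ‖∑ n ∈ Ioc y0 Z, b n / (n : ℂ)‖ ≤ B Z / ((Z : ℝ) + 1) +
      ∑ n ∈ Ioc y0 Z, B n / ((n : ℝ) * ((n : ℝ) + 1)) := by
  rw [abel y0 b Z hZ]
  refine (norm_add_le _ _).trans (add_le_add ?_ ((norm_sum_le _ _).trans (sum_le_sum ?_)))
  · rw [norm_div]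
    have h1 : ‖(Z : ℂ) + 1‖ = (Z : ℝ) + 1 := by
      have : (Z : ℂ) + 1 = ((Z + 1 : ℕ) : ℂ) := by push_cast; ring
      rw [this, Complex.norm_natCast]
      push_cast
      ring
    rw [h1]
    gcongr
    exact hB Z hZ
  · intro n hn
    rw [mem_Ioc] at hn
    have hn0 : (n : ℂ) ≠ 0 := by
      have : n ≠ 0 := by omega
      exact_mod_cast this
    have hn1 : (n : ℂ) + 1 ≠ 0 := by exact_mod_cast Nat.succ_ne_zero n
    have h1 : 1 / (n : ℂ) - 1 / ((n : ℂ) + 1) = 1 / ((n : ℂ) * ((n : ℂ) + 1)) := by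
      field_simp
      ring
    have h2 : ‖(n : ℂ) + 1‖ = (n : ℝ) + 1 := by
      have : (n : ℂ) + 1 = ((n + 1 : ℕ) : ℂ) := by push_cast; ring
      rw [this, Complex.norm_natCast]
      push_cast
      ring
    rw [h1, norm_mul, norm_div, norm_mul, norm_one, Complex.norm_natCast, h2, mul_one_div]
    gcongr
    exact hB n (by omega)

/-- nonzero Gaussian integers with norm in `(y, z]` -/
noncomputable def ann (y z : ℕ) : Finset GaussianInt := (gball z).filter fun v => y < nm v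

theorem mem_ann {y z : ℕ} {v : GaussianInt} : v ∈ ann y z ↔ y < nm v ∧ nm v ≤ z := by
  unfold ann
  rw [mem_filter, mem_gball]
  exact and_comm

/-- grouping by the norm -/
theorem sum_ann (y z : ℕ) (G : GaussianInt → ℂ) :
    ∑ v ∈ ann y z, G v = ∑ n ∈ Ioc y z, ∑ v ∈ (ann y z).filter (fun v => nm v = n), G v := by
  symm
  apply Finset.sum_fiberwise_of_maps_to
  intro v hv
  rw [mem_ann] at hv
  rw [mem_Ioc]
  exact hv

theorem ann_fib (y z n : ℕ) (hn : n ∈ Ioc y z) :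
    (ann y z).filter (fun v => nm v = n) = (gball n).filter (fun v => nm v = n) := by
  ext v
  rw [mem_Ioc] at hn
  rw [mem_filter, mem_filter, mem_ann, mem_gball]
  constructor
  · rintro ⟨h1, h2⟩
    exact ⟨h2.le, h2⟩
  · rintro ⟨h1, h2⟩
    exact ⟨⟨by omega, by omega⟩, h2⟩

theorem sum_ann' (y z : ℕ) (G : GaussianInt → ℂ) :
    ∑ v ∈ ann y z, G v = ∑ n ∈ Ioc y z, ∑ v ∈ (gball n).filter (fun v => nm v = n), G v := by
  rw [sum_ann]
  refine sum_congr rfl fun n hn => ?_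
  rw [ann_fib y z n hn]

theorem ann_abel (y z : ℕ) (hyz : y ≤ z) (G : GaussianInt → ℂ) (B : ℕ → ℝ)
    (hB : ∀ n, y ≤ n → ‖∑ v ∈ ann y n, G v‖ ≤ B n) :
    ‖∑ v ∈ ann y z, G v / (nm v : ℂ)‖ ≤ B z / ((z : ℝ) + 1) +
      ∑ n ∈ Ioc y z, B n / ((n : ℝ) * ((n : ℝ) + 1)) := by
  have h1 := abel_bd y z hyz (fun n => ∑ v ∈ (gball n).filter (fun v => nm v = n), G v) B
    (fun n hn => by rw [← sum_ann']; exact hB n hn)
  rw [sum_ann']
  refine le_of_eq_of_le (congrArg _ (sum_congr rfl fun n _ => ?_)) h1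
  rw [sum_div]
  refine sum_congr rfl fun v hv => ?_
  rw [mem_filter] at hv
  rw [hv.2]

theorem ann_card (y n : ℕ) (hn : 1 ≤ n) : ((ann y n).card : ℝ) ≤ 24 * n := by
  refine le_trans ?_ (card_le n hn)
  exact_mod_cast card_le_card (filter_subset _ _)

/-- the trivial bound -/
theorem triv (y z : ℕ) (hyz : y ≤ z) :
    ∑ v ∈ ann y z, (1 : ℝ) / (nm v : ℝ) ≤ 24 + 24 * Real.log (z + 1) := by
  have h1 := ann_abel 0 z (Nat.zero_le _) (fun _ => (1 : ℂ)) (fun n => 24 * n) (by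
    intro n _
    rcases Nat.eq_zero_or_pos n with h | h
    · subst h
      have : ann 0 0 = ∅ := by
        ext v
        rw [mem_ann]
        simp only [notMem_empty, iff_false]
        omega
      rw [this]
      simp
    · rw [sum_const, nsmul_eq_mul, mul_one, Complex.norm_natCast]
      exact ann_card 0 n h)
  have h2 : ∑ v ∈ ann y z, (1 : ℝ) / (nm v : ℝ) ≤ ∑ v ∈ ann 0 z, (1 : ℝ) / (nm v : ℝ) := by
    refine sum_le_sum_of_subset_of_nonneg ?_ (fun v _ _ => by positivity)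
    intro v hv
    rw [mem_ann] at hv ⊢
    exact ⟨by omega, hv.2⟩
  refine h2.trans ?_
  have h3 : ‖∑ v ∈ ann 0 z, (1 : ℂ) / (nm v : ℂ)‖ = ∑ v ∈ ann 0 z, (1 : ℝ) / (nm v : ℝ) := by
    have : ∑ v ∈ ann 0 z, (1 : ℂ) / (nm v : ℂ) =
        ((∑ v ∈ ann 0 z, (1 : ℝ) / (nm v : ℝ) : ℝ) : ℂ) := by
      push_cast
      rfl
    rw [this, Complex.norm_real, Real.norm_of_nonneg (sum_nonneg fun v _ => by positivity)]
  rw [← h3]
  refine h1.trans (add_le_add ?_ ?_)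
  · rw [div_le_iff₀ (by positivity)]
    nlinarith [(Nat.cast_nonneg z : (0 : ℝ) ≤ z)]
  · have h4 : ∀ m : ℕ, ∑ n ∈ Ioc 0 m, 24 * (n : ℝ) / ((n : ℝ) * ((n : ℝ) + 1)) ≤
        24 * Real.log (m + 1) := by
      intro m
      induction m with
      | zero => simp
      | succ m ih =>
        have h5 : Ioc 0 (m + 1) = insert (m + 1) (Ioc 0 m) := by
          ext i
          rw [mem_insert, mem_Ioc, mem_Ioc]
          omega
        rw [h5, sum_insert (by rw [mem_Ioc]; omega)]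
        have h6 : (0 : ℝ) < (m : ℝ) + 1 := by positivity
        have h7 : 1 / ((m : ℝ) + 1 + 1) ≤ Real.log ((m : ℝ) + 1 + 1) - Real.log ((m : ℝ) + 1) := by
          have h8 := Real.add_one_le_exp (Real.log (((m : ℝ) + 1) / ((m : ℝ) + 1 + 1)))
          have h9 : (0 : ℝ) < ((m : ℝ) + 1) / ((m : ℝ) + 1 + 1) := by positivity
          rw [Real.exp_log h9, Real.log_div (by positivity) (by positivity)] at h8
          have h10 : ((m : ℝ) + 1) / ((m : ℝ) + 1 + 1) = 1 - 1 / ((m : ℝ) + 1 + 1) := by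
            field_simp
            ring
          rw [h10] at h8
          linarith
        push_cast
        have h11 : 24 * ((m : ℝ) + 1) / (((m : ℝ) + 1) * ((m : ℝ) + 1 + 1)) =
            24 * (1 / ((m : ℝ) + 1 + 1)) := by
          field_simp
        rw [h11]
        linarith
    exact h4 z

/-- the phase -/
noncomputable def ph (h : ℤ) (v : GaussianInt) : ℂ :=
  (GaussianInt.toComplex v / (‖GaussianInt.toComplex v‖ : ℂ)) ^ h

theorem zz_eq (v : GaussianInt) : X67.zz (v.re, v.im) = GaussianInt.toComplex v := by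
  unfold X67.zz
  rw [GaussianInt.toComplex_def]

/-- exponential sums with periodic coefficients -/
theorem per_bd (hE : X67.StExp) (A : ℝ) (hA : 1 ≤ A) (K : ℕ) (hK : 0 < K) :
    ∃ c C : ℝ, 0 < c ∧ 0 < C ∧ ∀ (h : ℤ) (ρ : GaussianInt → ℂ), h ≠ 0 →
      (∀ x y : GaussianInt, ρ (x + (K : GaussianInt) * y) = ρ x) → (∀ x, ‖ρ x‖ ≤ 1) →
      ∀ y n : ℕ, 1 ≤ n → |(h : ℝ)| ≤ (n : ℝ) ^ A → (K : ℝ) ≤ (n : ℝ) ^ c →
        ‖∑ v ∈ ann y n, ρ v * ph h v‖ ≤ C * (n : ℝ) ^ (1 - c) := by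
  obtain ⟨c, C, hc, hC, hmain⟩ := hE A hA
  refine ⟨c, (K : ℝ) ^ 2 * C, hc, by positivity, ?_⟩
  intro h ρ hh hρ hρ1 y n hn hhn hKn
  classical
  have hKz : ((K : ℕ) : ℤ) ≠ 0 := by exact_mod_cast hK.ne'
  -- grouping by the class
  set cls : GaussianInt → ℤ × ℤ := fun v => (v.re % K, v.im % K) with hcls
  set T : Finset (ℤ × ℤ) := (Finset.Ico (0 : ℤ) K) ×ˢ (Finset.Ico (0 : ℤ) K) with hT
  have hmaps : ∀ v ∈ ann y n, cls v ∈ T := by
    intro v _
    rw [hT, mem_product, mem_Ico, mem_Ico]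
    have hK' : (0 : ℤ) < K := by exact_mod_cast hK
    exact ⟨⟨Int.emod_nonneg _ hKz, Int.emod_lt_of_pos _ hK'⟩,
      ⟨Int.emod_nonneg _ hKz, Int.emod_lt_of_pos _ hK'⟩⟩
  rw [← Finset.sum_fiberwise_of_maps_to hmaps]
  have hcard : (T.card : ℝ) = (K : ℝ) ^ 2 := by
    rw [hT, card_product, Int.card_Ico]
    simp
    ring
  have hone : ∀ t ∈ T, ‖∑ v ∈ (ann y n).filter (fun v => cls v = t), ρ v * ph h v‖ ≤
      C * (n : ℝ) ^ (1 - c) := by
    intro t ht
    rw [hT, mem_product, mem_Ico, mem_Ico] at ht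
    have h1 : ∀ v ∈ (ann y n).filter (fun v => cls v = t), ρ v = ρ ⟨t.1, t.2⟩ := by
      intro v hv
      rw [mem_filter, hcls] at hv
      have h2 : v.re % K = t.1 := congrArg Prod.fst hv.2
      have h3 : v.im % K = t.2 := congrArg Prod.snd hv.2
      have h4 : v = (⟨t.1, t.2⟩ : GaussianInt) + (K : GaussianInt) * ⟨v.re / K, v.im / K⟩ := by
        rw [Zsqrtd.ext_iff]
        constructor
        · simp only [Zsqrtd.re_add, Zsqrtd.re_mul, Zsqrtd.re_natCast, Zsqrtd.im_natCast]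
          have := Int.emod_add_mul_ediv v.re K
          rw [h2] at this
          linarith
        · simp only [Zsqrtd.im_add, Zsqrtd.im_mul, Zsqrtd.re_natCast, Zsqrtd.im_natCast]
          have := Int.emod_add_mul_ediv v.im K
          rw [h3] at this
          linarith
      conv_lhs => rw [h4]
      exact hρ _ _
    have h2 : ∑ v ∈ (ann y n).filter (fun v => cls v = t), ρ v * ph h v =
        ρ ⟨t.1, t.2⟩ * ∑ v ∈ (ann y n).filter (fun v => cls v = t), ph h v := by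
      rw [mul_sum]
      exact sum_congr rfl fun v hv => by rw [h1 v hv]
    rw [h2, norm_mul]
    set S : Finset (ℤ × ℤ) :=
      ((ann y n).filter (fun v => cls v = t)).image (fun v => (v.re, v.im)) with hS
    have h3 : ∑ v ∈ (ann y n).filter (fun v => cls v = t), ph h v =
        ∑ m ∈ S, (X67.zz m / (‖X67.zz m‖ : ℂ)) ^ h := by
      rw [hS, sum_image]
      · exact sum_congr rfl fun v _ => by rw [zz_eq]; rfl
      · intro v _ w _ hvw
        rw [Zsqrtd.ext_iff]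
        exact ⟨congrArg Prod.fst hvw, congrArg Prod.snd hvw⟩
    have h4 : X67.IsRing ((y : ℝ) + 1) n K t.1 t.2 S := by
      intro m
      rw [hS, mem_image]
      have e1 : ∀ v : GaussianInt, ((v.re : ℝ)) ^ 2 + (v.im : ℝ) ^ 2 = (nm v : ℝ) := by
        intro v
        have := nm_coe v
        have h5 : (((nm v : ℕ) : ℤ) : ℝ) = ((v.re ^ 2 + v.im ^ 2 : ℤ) : ℝ) := by rw [this]
        push_cast at h5
        exact h5.symm
      have e2 : ∀ a b : ℤ, 0 ≤ b → b < K → (a % K = b ↔ a ≡ b [ZMOD K]) := by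
        intro a b hb0 hb1
        unfold Int.ModEq
        rw [Int.emod_eq_of_lt hb0 hb1]
      constructor
      · rintro ⟨v, hv, rfl⟩
        rw [mem_filter, mem_ann, hcls] at hv
        have h5 : v.re % K = t.1 := congrArg Prod.fst hv.2
        have h6 : v.im % K = t.2 := congrArg Prod.snd hv.2
        simp only
        rw [e1]
        refine ⟨by exact_mod_cast hv.1.1, by exact_mod_cast hv.1.2,
          (e2 _ _ ht.1.1 ht.1.2).1 h5, (e2 _ _ ht.2.1 ht.2.2).1 h6⟩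
      · rintro ⟨h5, h6, h7, h8⟩
        refine ⟨⟨m.1, m.2⟩, ?_, rfl⟩
        have h9 := e1 ⟨m.1, m.2⟩
        simp only at h9
        rw [h9] at h5 h6
        rw [mem_filter, mem_ann, hcls]
        refine ⟨⟨?_, by exact_mod_cast h6⟩, Prod.ext ?_ ?_⟩
        · have : y + 1 ≤ nm (⟨m.1, m.2⟩ : GaussianInt) := by exact_mod_cast h5
          omega
        · exact (e2 _ _ ht.1.1 ht.1.2).2 h7
        · exact (e2 _ _ ht.2.1 ht.2.2).2 h8
    have h5 := hmain n ((y : ℝ) + 1) n h K t.1 t.2 S (by exact_mod_cast hn) le_rfl hh hhn hK hKn h4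
    rw [h3]
    calc ‖ρ ⟨t.1, t.2⟩‖ * ‖∑ m ∈ S, (X67.zz m / (‖X67.zz m‖ : ℂ)) ^ h‖
        ≤ 1 * (C * (n : ℝ) ^ (1 - c)) :=
          mul_le_mul (hρ1 _) h5 (norm_nonneg _) zero_le_one
      _ = _ := one_mul _
  calc ‖∑ t ∈ T, ∑ v ∈ (ann y n).filter (fun v => cls v = t), ρ v * ph h v‖
      ≤ ∑ t ∈ T, ‖∑ v ∈ (ann y n).filter (fun v => cls v = t), ρ v * ph h v‖ := norm_sum_le _ _
    _ ≤ ∑ t ∈ T, C * (n : ℝ) ^ (1 - c) := sum_le_sum hone
    _ = (K : ℝ) ^ 2 * C * (n : ℝ) ^ (1 - c) := by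
        rw [sum_const, nsmul_eq_mul, hcard]
        ring

/-- **LOGS1**: logarithmic sums of a nontrivial angular character are small -/
theorem logs1 (hE : X67.StExp) : ∃ C0 : ℝ, 0 < C0 ∧ ∀ A : ℝ, 0 < A → ∀ K : ℕ, 0 < K →
    ∀ β : ℝ, 0 < β → ∃ C1 : ℝ, 0 < C1 ∧ ∀ N : ℝ, 1 ≤ N → ∀ (h : ℤ) (ρ : GaussianInt → ℂ), h ≠ 0 →
      |(h : ℝ)| ≤ N ^ A → (∀ x y : GaussianInt, ρ (x + (K : GaussianInt) * y) = ρ x) →
      (∀ x, ‖ρ x‖ ≤ 1) → ∀ Z : ℕ,
        ‖∑ v ∈ ann 0 Z, ρ v * ph h v / (nm v : ℂ)‖ ≤ C0 * β * Real.log N + C1 := by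
  refine ⟨24, by norm_num, ?_⟩
  intro A hA K hK β hβ
  set A' : ℝ := max (A / β) 1 with hA'
  obtain ⟨c, C, hc, hC, hper⟩ := per_bd hE A' (le_max_right _ _) K hK
  set T : ℝ := ∑' n : ℕ, (n : ℝ) ^ (-(1 + c)) with hT
  have hsum : Summable fun n : ℕ => (n : ℝ) ^ (-(1 + c)) :=
    Real.summable_nat_rpow.2 (by linarith)
  have hT0 : 0 ≤ T := tsum_nonneg fun n => by positivity
  set Kc : ℝ := (K : ℝ) ^ (1 / c) with hKc
  have hKc0 : 0 ≤ Kc := by positivity
  have hlog0 : 0 ≤ Real.log (Kc + 4) := Real.log_nonneg (by linarith)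
  refine ⟨24 + 24 * Real.log (Kc + 4) + C + C * T, by positivity, ?_⟩
  intro N hN h ρ hh hhN hρ hρ1 Z
  have hph : ∀ v, ‖ρ v * ph h v‖ ≤ 1 := by
    intro v
    rw [norm_mul]
    refine mul_le_one₀ (hρ1 v) (norm_nonneg _) ?_
    unfold ph
    rw [norm_zpow, norm_div, Complex.norm_real, Real.norm_of_nonneg (norm_nonneg _)]
    rcases eq_or_ne (GaussianInt.toComplex v) 0 with h0 | h0
    · rw [h0, norm_zero, div_zero, zero_zpow _ hh]
      exact zero_le_one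
    · rw [div_self (norm_ne_zero_iff.2 h0), one_zpow]
  have hNβ : 1 ≤ N ^ β := Real.one_le_rpow hN hβ.le
  set y0 : ℕ := max ⌈N ^ β⌉₊ ⌈Kc⌉₊ with hy0
  have hy01 : 1 ≤ y0 := le_trans (Nat.one_le_ceil_iff.2 (by linarith)) (le_max_left _ _)
  have hlogy : Real.log ((y0 : ℝ) + 1) ≤ β * Real.log N + Real.log (Kc + 4) := by
    have h1 : (y0 : ℝ) + 1 ≤ N ^ β * (Kc + 4) := by
      have h2 : ((⌈N ^ β⌉₊ : ℕ) : ℝ) < N ^ β + 1 := Nat.ceil_lt_add_one (by linarith)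
      have h3 : ((⌈Kc⌉₊ : ℕ) : ℝ) < Kc + 1 := Nat.ceil_lt_add_one hKc0
      have h4 : (y0 : ℝ) ≤ ((⌈N ^ β⌉₊ : ℕ) : ℝ) + ((⌈Kc⌉₊ : ℕ) : ℝ) := by
        have : y0 ≤ ⌈N ^ β⌉₊ + ⌈Kc⌉₊ := by
          rw [hy0]
          omega
        exact_mod_cast this
      nlinarith
    calc Real.log ((y0 : ℝ) + 1) ≤ Real.log (N ^ β * (Kc + 4)) :=
          Real.log_le_log (by positivity) h1
      _ = β * Real.log N + Real.log (Kc + 4) := by
          rw [Real.log_mul (by positivity) (by positivity), Real.log_rpow (by linarith)]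
  -- the trivial bound
  have htriv : ∀ z : ℕ, z ≤ y0 → ‖∑ v ∈ ann 0 z, ρ v * ph h v / (nm v : ℂ)‖ ≤
      24 * β * Real.log N + (24 + 24 * Real.log (Kc + 4)) := by
    intro z hz
    have h1 : ‖∑ v ∈ ann 0 z, ρ v * ph h v / (nm v : ℂ)‖ ≤ ∑ v ∈ ann 0 z, (1 : ℝ) / (nm v : ℝ) := by
      refine (norm_sum_le _ _).trans (sum_le_sum fun v _ => ?_)
      rw [norm_div, Complex.norm_natCast]
      gcongr
      exact hph v
    have h2 := triv 0 z (Nat.zero_le _)
    have h3 : Real.log ((z : ℝ) + 1) ≤ Real.log ((y0 : ℝ) + 1) := by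
      apply Real.log_le_log (by positivity)
      have : (z : ℝ) ≤ y0 := by exact_mod_cast hz
      linarith
    linarith
  have hCT : 0 ≤ C + C * T := by positivity
  rcases le_or_gt Z y0 with hZ | hZ
  · have := htriv Z hZ
    linarith
  · -- splitting
    have hsplit : ann 0 Z = ann 0 y0 ∪ ann y0 Z := by
      ext v
      rw [mem_union, mem_ann, mem_ann, mem_ann]
      omega
    have hdisj : Disjoint (ann 0 y0) (ann y0 Z) := by
      rw [disjoint_left]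
      intro v h1 h2
      rw [mem_ann] at h1 h2
      omega
    rw [hsplit, sum_union hdisj]
    have h1 := htriv y0 le_rfl
    have h2 := ann_abel y0 Z hZ.le (fun v => ρ v * ph h v) (fun n => C * (n : ℝ) ^ (1 - c)) (by
      intro n hn
      have hn1 : 1 ≤ n := hy01.trans hn
      have hnr : (1 : ℝ) ≤ n := by exact_mod_cast hn1
      have hn2 : N ^ β ≤ n := by
        have h3 : N ^ β ≤ ((⌈N ^ β⌉₊ : ℕ) : ℝ) := Nat.le_ceil _
        have h4 : ((⌈N ^ β⌉₊ : ℕ) : ℝ) ≤ n := by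
          exact_mod_cast (le_max_left _ _).trans hn
        linarith
      have hn3 : Kc ≤ n := by
        have h3 : Kc ≤ ((⌈Kc⌉₊ : ℕ) : ℝ) := Nat.le_ceil _
        have h4 : ((⌈Kc⌉₊ : ℕ) : ℝ) ≤ n := by
          exact_mod_cast (le_max_right _ _).trans hn
        linarith
      refine hper h ρ hh hρ hρ1 y0 n hn1 ?_ ?_
      · calc |(h : ℝ)| ≤ N ^ A := hhN
          _ = (N ^ β) ^ (A / β) := by
              rw [← Real.rpow_mul (by linarith)]
              congr 1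
              field_simp
          _ ≤ (n : ℝ) ^ (A / β) := Real.rpow_le_rpow (by positivity) hn2 (by positivity)
          _ ≤ (n : ℝ) ^ A' := Real.rpow_le_rpow_of_exponent_le hnr (le_max_left _ _)
      · calc (K : ℝ) = Kc ^ c := by
              rw [hKc, ← Real.rpow_mul (Nat.cast_nonneg _), one_div_mul_cancel hc.ne',
                Real.rpow_one]
          _ ≤ (n : ℝ) ^ c := Real.rpow_le_rpow hKc0 hn3 hc.le)
    have hZ1 : (1 : ℝ) ≤ Z := by exact_mod_cast (hy01.trans hZ.le)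
    have h3 : C * (Z : ℝ) ^ (1 - c) / ((Z : ℝ) + 1) ≤ C := by
      rw [div_le_iff₀ (by positivity)]
      have h4 : (Z : ℝ) ^ (1 - c) ≤ (Z : ℝ) ^ (1 : ℝ) :=
        Real.rpow_le_rpow_of_exponent_le hZ1 (by linarith)
      rw [Real.rpow_one] at h4
      nlinarith
    have h4 : ∑ n ∈ Ioc y0 Z, C * (n : ℝ) ^ (1 - c) / ((n : ℝ) * ((n : ℝ) + 1)) ≤ C * T := by
      have h5 : ∀ n ∈ Ioc y0 Z, C * (n : ℝ) ^ (1 - c) / ((n : ℝ) * ((n : ℝ) + 1)) ≤
          C * (n : ℝ) ^ (-(1 + c)) := by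
        intro n hn
        rw [mem_Ioc] at hn
        have hn0 : (0 : ℝ) < n := by
          have : 0 < n := by omega
          exact_mod_cast this
        rw [mul_div_assoc]
        apply mul_le_mul_of_nonneg_left _ hC.le
        have h6 : (n : ℝ) ^ (-(1 + c)) = (n : ℝ) ^ (1 - c) / ((n : ℝ) * n) := by
          have h7 : (n : ℝ) * n = (n : ℝ) ^ (2 : ℝ) := by
            rw [Real.rpow_two]
            ring
          rw [h7, ← Real.rpow_sub hn0]
          congr 1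
          ring
        rw [h6]
        apply div_le_div_of_nonneg_left (by positivity) (by positivity)
        nlinarith
      refine (sum_le_sum h5).trans ?_
      rw [← mul_sum]
      apply mul_le_mul_of_nonneg_left _ hC.le
      exact hsum.sum_le_tsum _ fun n _ => by positivity
    refine (norm_add_le _ _).trans ?_
    linarith

/-- **LOGS2**: the logarithmic sum over the Gaussian integers prime to `K` -/
theorem logs2 (K : ℕ) (hK : 0 < K) : ∃ cK : ℝ, 0 < cK ∧ ∃ Y0 : ℕ, ∀ Y : ℕ, Y0 ≤ Y →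
    ∀ S : Finset GaussianInt, (∀ v : GaussianInt, 0 < nm v → nm v ≤ Y →
      IsCoprime (Zsqrtd.norm v) (K : ℤ) → v ∈ S) →
      cK * Real.log Y ≤ ∑ v ∈ S, (1 : ℝ) / (nm v : ℝ) := by
  have hKr : (1 : ℝ) ≤ K := by exact_mod_cast hK
  refine ⟨1 / (20 * (K : ℝ) ^ 2), by positivity, (5 * K ^ 2) ^ 2, ?_⟩
  intro Y hY S hS
  set D : ℕ := 5 * K ^ 2 with hD
  have hD0 : 0 < D := by positivity
  set R : ℕ := Nat.sqrt (Y / D) with hR
  have hR1 : R * R ≤ Y / D := Nat.sqrt_le _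
  have hR2 : D * (R * R) ≤ Y := by
    calc D * (R * R) ≤ D * (Y / D) := Nat.mul_le_mul_left _ hR1
      _ ≤ Y := Nat.mul_div_le _ _
  have hR3 : Y < D * ((R + 1) * (R + 1)) := by
    have h1 : Y / D < (R + 1) * (R + 1) := Nat.lt_succ_sqrt _
    rw [Nat.div_lt_iff_lt_mul hD0] at h1
    linarith [mul_comm D ((R + 1) * (R + 1))]
  -- the injection
  set P : Finset (ℕ × ℕ) := ((Icc 1 R) ×ˢ (range R)).filter (fun t => t.2 < t.1) with hP
  set φ : ℕ × ℕ → GaussianInt := fun t => ⟨1 + K * t.1, K * t.2⟩ with hφ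
  have hnm : ∀ t : ℕ × ℕ, (nm (φ t) : ℤ) = (1 + K * t.1) ^ 2 + (K * t.2) ^ 2 := by
    intro t
    rw [nm_coe, hφ]
  have hinj : Set.InjOn φ P := by
    intro s _ t _ hst
    rw [hφ, Zsqrtd.ext_iff] at hst
    simp only at hst
    have hK' : (K : ℤ) ≠ 0 := by exact_mod_cast hK.ne'
    have h1 : (K : ℤ) * s.1 = K * t.1 := by linarith [hst.1]
    have h2 := mul_left_cancel₀ hK' h1
    have h3 := mul_left_cancel₀ hK' hst.2
    exact Prod.ext (by exact_mod_cast h2) (by exact_mod_cast h3)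
  have hbd : ∀ t ∈ P, (nm (φ t) : ℝ) ≤ D * ((t.1 : ℝ) * t.1) ∧ 0 < nm (φ t) ∧ nm (φ t) ≤ Y := by
    intro t ht
    rw [hP, mem_filter, mem_product, mem_Icc, mem_range] at ht
    obtain ⟨⟨⟨h1, h2⟩, h3⟩, h4⟩ := ht
    have e1 : (nm (φ t) : ℤ) ≤ D * (t.1 * t.1) := by
      rw [hnm, hD]
      push_cast
      have h5 : (1 : ℤ) ≤ K * t.1 := by
        have : 1 ≤ K * t.1 := Nat.mul_pos hK h1
        exact_mod_cast this
      have h6 : (0 : ℤ) ≤ K * t.2 := by positivity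
      have h7 : (K : ℤ) * t.2 ≤ K * t.1 := by
        have : K * t.2 ≤ K * t.1 := Nat.mul_le_mul_left _ h4.le
        exact_mod_cast this
      nlinarith
    have e2 : nm (φ t) ≤ D * (t.1 * t.1) := by exact_mod_cast e1
    refine ⟨by exact_mod_cast e1, ?_, e2.trans ((Nat.mul_le_mul_left _
      (Nat.mul_le_mul h2 h2)).trans hR2)⟩
    have : (0 : ℤ) < nm (φ t) := by
      rw [hnm]
      positivity
    exact_mod_cast this
  have hsub : P.image φ ⊆ S := by
    intro v hv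
    rw [mem_image] at hv
    obtain ⟨t, ht, rfl⟩ := hv
    obtain ⟨-, h2, h3⟩ := hbd t ht
    refine hS _ h2 h3 ⟨1, -(2 * t.1 + K * (t.1 ^ 2 + t.2 ^ 2)), ?_⟩
    rw [Zsqrtd.norm_def, hφ]
    simp only
    ring
  have h1 : ∑ v ∈ P.image φ, (1 : ℝ) / (nm v : ℝ) ≤ ∑ v ∈ S, (1 : ℝ) / (nm v : ℝ) :=
    sum_le_sum_of_subset_of_nonneg hsub fun v _ _ => by positivity
  rw [sum_image hinj] at h1
  have h2 : ∑ t ∈ P, 1 / ((D : ℝ) * ((t.1 : ℝ) * t.1)) ≤ ∑ t ∈ P, (1 : ℝ) / (nm (φ t) : ℝ) := by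
    refine sum_le_sum fun t ht => ?_
    obtain ⟨e1, e2, -⟩ := hbd t ht
    exact one_div_le_one_div_of_le (by exact_mod_cast e2) e1
  have h3 : ∑ t ∈ P, 1 / ((D : ℝ) * ((t.1 : ℝ) * t.1)) = ∑ a ∈ Icc 1 R, 1 / ((D : ℝ) * a) := by
    rw [hP, sum_filter, sum_product]
    refine sum_congr rfl fun a ha => ?_
    rw [mem_Icc] at ha
    simp only
    rw [← sum_filter, sum_const, nsmul_eq_mul]
    have : (range R).filter (fun b => b < a) = range a := by
      ext b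
      rw [mem_filter, mem_range, mem_range]
      omega
    rw [this, card_range]
    have ha0 : (0 : ℝ) < a := by
      have : 0 < a := ha.1
      exact_mod_cast this
    field_simp
  have h4 : ∀ m : ℕ, Real.log ((m : ℝ) + 1) ≤ ∑ a ∈ Icc 1 m, 1 / (a : ℝ) := by
    intro m
    induction m with
    | zero => simp
    | succ m ih =>
      rw [sum_Icc_succ_top (by omega)]
      push_cast
      have h5 : (0 : ℝ) < (m : ℝ) + 1 := by positivity
      have h6 : Real.log (((m : ℝ) + 1 + 1) / ((m : ℝ) + 1)) ≤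
          ((m : ℝ) + 1 + 1) / ((m : ℝ) + 1) - 1 := Real.log_le_sub_one_of_pos (by positivity)
      rw [Real.log_div (by positivity) (by positivity)] at h6
      have h7 : ((m : ℝ) + 1 + 1) / ((m : ℝ) + 1) - 1 = 1 / ((m : ℝ) + 1) := by
        field_simp
        ring
      linarith
  have h5 : ∑ a ∈ Icc 1 R, 1 / ((D : ℝ) * a) = (1 / (D : ℝ)) * ∑ a ∈ Icc 1 R, 1 / (a : ℝ) := by
    rw [mul_sum]
    exact sum_congr rfl fun a _ => by rw [one_div_mul_one_div]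
  have hDr : (0 : ℝ) < D := by exact_mod_cast hD0
  have hYr : (0 : ℝ) < Y := by
    have : 0 < Y := lt_of_lt_of_le (by positivity) hY
    exact_mod_cast this
  have h6 : Real.log Y / 4 ≤ Real.log ((R : ℝ) + 1) := by
    have h7 : (Y : ℝ) < D * (((R : ℝ) + 1) * ((R : ℝ) + 1)) := by exact_mod_cast hR3
    have h8 : ((D : ℝ)) ^ 2 ≤ Y := by exact_mod_cast hY
    have h9 : Real.log Y ≤ Real.log D + 2 * Real.log ((R : ℝ) + 1) := by
      calc Real.log Y ≤ Real.log (D * (((R : ℝ) + 1) * ((R : ℝ) + 1))) :=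
            Real.log_le_log hYr h7.le
        _ = _ := by
            rw [Real.log_mul (by positivity) (by positivity), Real.log_mul (by positivity)
              (by positivity)]
            ring
    have h10 : 2 * Real.log D ≤ Real.log Y := by
      calc 2 * Real.log D = Real.log ((D : ℝ) ^ 2) := by rw [Real.log_pow]; norm_num
        _ ≤ Real.log Y := Real.log_le_log (by positivity) h8
    linarith
  have h7 := h4 R
  have h8 : 1 / (20 * (K : ℝ) ^ 2) * Real.log Y = (1 / (D : ℝ)) * (Real.log Y / 4) := by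
    rw [hD]
    push_cast
    field_simp
    ring
  rw [h8]
  have h9 : (1 / (D : ℝ)) * (Real.log Y / 4) ≤ (1 / (D : ℝ)) * ∑ a ∈ Icc 1 R, 1 / (a : ℝ) :=
    mul_le_mul_of_nonneg_left (h6.trans h7) (by positivity)
  linarith

end Pool.Agent.Lib.MP_a17b09_nt.MRS.Logs71
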