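import Pool.Agent.Lib.MP_a17b09_nt.MRS.Tk84

/-!
MRS (MP_a17b09_nt), for StDj: the coefficients of the Dirichlet series of a multiplicative
function on the Gaussian integers.  Statement.
-/

set_option autoImplicit false

open Finset

namespace Pool.Agent.Lib.MP_a17b09_nt.MRS.Rec71

open Tk84

/-- `a(n) = (1/4) ∑_{|v|² = n} Ψ(v)` -/
noncomputable def an (Ψ : GaussianInt → ℂ) (n : ℕ) : ℂ :=
  (1 / 4 : ℂ) * ∑ v ∈ (gball n).filter (fun v => nm v = n), Ψ v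

/-- REC: multiplicativity and the values at prime powers -/
def StRec : Prop := ∀ Ψ : GaussianInt → ℂ, (∀ v w, Ψ (v * w) = Ψ v * Ψ w) → Ψ 1 = 1 →
  Ψ ⟨0, 1⟩ = 1 →
  an Ψ 1 = 1 ∧
  (∀ m n : ℕ, 0 < m → 0 < n → Nat.Coprime m n → an Ψ (m * n) = an Ψ m * an Ψ n) ∧
  (∀ (p : ℕ) (π : GaussianInt), p.Prime → p % 4 = 1 → nm π = p →
    an Ψ p = Ψ π + Ψ (star π) ∧
    ∀ k : ℕ, an Ψ (p ^ (k + 2)) =
      (Ψ π + Ψ (star π)) * an Ψ (p ^ (k + 1)) - Ψ π * Ψ (star π) * an Ψ (p ^ k)) ∧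
  (∀ q : ℕ, q.Prime → q % 4 = 3 → ∀ k : ℕ,
    an Ψ (q ^ (2 * k)) = Ψ (q : GaussianInt) ^ k ∧ an Ψ (q ^ (2 * k + 1)) = 0) ∧
  (∀ k : ℕ, an Ψ (2 ^ k) = Ψ ⟨1, 1⟩ ^ k)

end Pool.Agent.Lib.MP_a17b09_nt.MRS.Rec71
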