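import Pool.Agent.Lib.MP_a17b09_nt.MRS.Stmts3
import Pool.Agent.Lib.MP_a17b09_nt.MRS.Logs71
import Pool.Agent.Lib.MP_a17b09_nt.MRS.StmtsRec71
import Pool.Agent.Lib.MP_a17b09_nt.MRS.Conv1
import Pool.Agent.Lib.MP_a17b09_nt.MRS.PW0_91

/-!
MRS (MP_a17b09_nt): `StDj`, the distance of `Ψ_j` from `1` tends to infinity.
-/

set_option autoImplicit false

open Finset

namespace Pool.Agent.Lib.MP_a17b09_nt.DJ71

open MRS (Chr Psj ag ag_mul norm_ag sl StDj)
open MRS.Tk84 (nm gball mem_gball nm_mul nm_pos nm_eq_zero nm_coe)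
open MRS.Rec71

theorem chr_one {K : ℕ} {ψ : GaussianInt → ℂ} (h : Chr K ψ) : ψ 1 = 1 := by
  have h1 := h.nrm 1 isCoprime_one_left
  have h2 := h.mul 1 1
  rw [mul_one] at h2
  have h3 : ψ 1 ≠ 0 := by
    intro h0
    rw [h0, norm_zero] at h1
    exact zero_ne_one h1
  exact mul_left_cancel₀ h3 (by rw [mul_one, ← h2])

theorem ag_one : ag (1 : GaussianInt) = 1 := by
  unfold MRS.ag
  rw [map_one, norm_one]
  simp

theorem ag_I : ag (⟨0, 1⟩ : GaussianInt) = Complex.I := by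
  unfold MRS.ag
  rw [GaussianInt.toComplex_def']
  simp

theorem ag_star (v : GaussianInt) : ag (star v) = (starRingEnd ℂ) (ag v) := by
  unfold MRS.ag
  rw [GaussianInt.toComplex_star, map_div₀, Complex.conj_ofReal, Complex.norm_conj]

theorem ag_zero : ag (0 : GaussianInt) = 0 := by
  unfold MRS.ag
  rw [map_zero, zero_div]

theorem ag_nat (n : ℕ) (hn : 0 < n) : ag (n : GaussianInt) = 1 := by
  unfold MRS.ag
  have h1 : GaussianInt.toComplex (n : GaussianInt) = (n : ℂ) := by simp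
  rw [h1, Complex.norm_natCast]
  have : (n : ℂ) ≠ 0 := by exact_mod_cast hn.ne'
  push_cast
  exact div_self this

theorem psj_mul {K : ℕ} {ψ : GaussianInt → ℂ} (h : Chr K ψ) (j : ℤ) (v w : GaussianInt) :
    Psj ψ j (v * w) = Psj ψ j v * Psj ψ j w := by
  unfold MRS.Psj
  rw [h.mul, star_mul, mul_comm (star w), h.mul, map_mul, ag_mul, mul_zpow]
  ring

theorem psj_one {K : ℕ} {ψ : GaussianInt → ℂ} (h : Chr K ψ) (j : ℤ) : Psj ψ j 1 = 1 := by
  unfold MRS.Psj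
  rw [star_one, chr_one h, ag_one, map_one, one_zpow]
  ring

theorem psj_zero {ψ : GaussianInt → ℂ} {j : ℤ} (hj : j ≠ 0) : Psj ψ j 0 = 0 := by
  unfold MRS.Psj
  rw [ag_zero, zero_zpow _ (by omega), mul_zero]

theorem cop_star {K : ℕ} {v : GaussianInt} (h : IsCoprime v (K : GaussianInt)) :
    IsCoprime (star v) (K : GaussianInt) := by
  obtain ⟨a, b, hab⟩ := h
  refine ⟨star a, star b, ?_⟩
  have h1 := congrArg star hab
  rw [star_add, star_mul, star_mul, star_one, star_natCast] at h1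
  rw [← h1]
  ring

theorem cop_star_iff {K : ℕ} {v : GaussianInt} :
    IsCoprime (star v) (K : GaussianInt) ↔ IsCoprime v (K : GaussianInt) :=
  ⟨fun h => by have := cop_star h; rwa [star_star] at this, cop_star⟩

theorem psj_star {ψ : GaussianInt → ℂ} (j : ℤ) (v : GaussianInt) :
    Psj ψ j (star v) = (starRingEnd ℂ) (Psj ψ j v) := by
  unfold MRS.Psj
  rw [star_star, ag_star, map_mul, map_mul, map_zpow₀, Complex.conj_conj]
  ring

theorem psj_norm {K : ℕ} {ψ : GaussianInt → ℂ} (h : Chr K ψ) (j : ℤ) {v : GaussianInt}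
    (hv : v ≠ 0) (hc : IsCoprime v (K : GaussianInt)) : ‖Psj ψ j v‖ = 1 := by
  unfold MRS.Psj
  rw [norm_mul, norm_mul, Complex.norm_conj, h.nrm v hc, h.nrm _ (cop_star hc), norm_zpow,
    norm_ag hv, one_zpow]
  norm_num

theorem psj_ncop {K : ℕ} {ψ : GaussianInt → ℂ} (h : Chr K ψ) (j : ℤ) {v : GaussianInt}
    (hc : ¬ IsCoprime v (K : GaussianInt)) : Psj ψ j v = 0 := by
  unfold MRS.Psj
  rw [h.zer v hc]
  ring

theorem psj_mul_star {K : ℕ} {ψ : GaussianInt → ℂ} (h : Chr K ψ) (j : ℤ) {v : GaussianInt}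
    (hv : v ≠ 0) (hc : IsCoprime v (K : GaussianInt)) : Psj ψ j v * Psj ψ j (star v) = 1 := by
  rw [psj_star, Complex.mul_conj, Complex.normSq_eq_norm_sq, psj_norm h j hv hc]
  norm_num

/-- the value at `i` of a unit invariant function -/
theorem chr_I {K : ℕ} {ψ : GaussianInt → ℂ} (h : Chr K ψ) : ‖ψ ⟨0, 1⟩‖ = 1 ∧
    ψ ⟨0, -1⟩ = (ψ ⟨0, 1⟩)⁻¹ := by
  have h1 : IsCoprime (⟨0, 1⟩ : GaussianInt) (K : GaussianInt) := by
    refine ⟨⟨0, -1⟩, 0, ?_⟩
    rw [zero_mul, add_zero, Zsqrtd.ext_iff]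
    simp
  have h2 := h.nrm _ h1
  refine ⟨h2, ?_⟩
  have h3 := h.mul ⟨0, -1⟩ ⟨0, 1⟩
  have h4 : (⟨0, -1⟩ : GaussianInt) * ⟨0, 1⟩ = 1 := by
    rw [Zsqrtd.ext_iff]
    simp
  rw [h4, chr_one h] at h3
  exact eq_inv_of_mul_eq_one_left h3.symm

theorem I_zpow_four (j : ℤ) : Complex.I ^ (4 * j) = 1 := by
  rw [zpow_mul]
  have : Complex.I ^ (4 : ℤ) = 1 := by
    rw [show (4 : ℤ) = ((4 : ℕ) : ℤ) by norm_num, zpow_natCast]
    exact Complex.I_pow_four
  rw [this, one_zpow]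

theorem psj_I {K : ℕ} {ψ : GaussianInt → ℂ} (h : Chr K ψ) (j : ℤ)
    (hj : ψ ⟨0, 1⟩ * Complex.I ^ j = 1) : Psj ψ j ⟨0, 1⟩ = 1 := by
  obtain ⟨h1, h2⟩ := chr_I h
  have hI : Complex.I ^ j ≠ 0 := zpow_ne_zero _ Complex.I_ne_zero
  have h3 : ψ ⟨0, 1⟩ = (Complex.I ^ j)⁻¹ := eq_inv_of_mul_eq_one_left hj
  have h4 : ψ ⟨0, -1⟩ = Complex.I ^ j := by rw [h2, h3, inv_inv]
  have h5 : star (⟨0, 1⟩ : GaussianInt) = ⟨0, -1⟩ := rfl
  have h6 : (starRingEnd ℂ) (Complex.I ^ j) = (Complex.I ^ j)⁻¹ := by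
    rw [map_zpow₀, Complex.conj_I, ← inv_zpow, Complex.inv_I]
  unfold MRS.Psj
  rw [h5, h4, h6, h3, ag_I, two_mul, zpow_add₀ Complex.I_ne_zero]
  field_simp

theorem psj_two {K : ℕ} {ψ : GaussianInt → ℂ} (h : Chr K ψ) (j : ℤ)
    (hj : ψ ⟨0, 1⟩ * Complex.I ^ j = 1) (hc : IsCoprime (⟨1, 1⟩ : GaussianInt) (K : GaussianInt)) :
    Psj ψ j ⟨1, 1⟩ = 1 := by
  obtain ⟨h1, h2⟩ := chr_I h
  have hI : Complex.I ^ j ≠ 0 := zpow_ne_zero _ Complex.I_ne_zero
  have h3 : ψ ⟨0, 1⟩ = (Complex.I ^ j)⁻¹ := eq_inv_of_mul_eq_one_left hj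
  have h4 : ψ ⟨0, -1⟩ = Complex.I ^ j := by rw [h2, h3, inv_inv]
  have h5 : star (⟨1, 1⟩ : GaussianInt) = ⟨0, -1⟩ * ⟨1, 1⟩ := by
    rw [Zsqrtd.ext_iff]
    simp
  have h6 : (starRingEnd ℂ) (Complex.I ^ j) = (Complex.I ^ j)⁻¹ := by
    rw [map_zpow₀, Complex.conj_I, ← inv_zpow, Complex.inv_I]
  have h7 : ag (⟨1, 1⟩ : GaussianInt) ^ (2 * j) = Complex.I ^ j := by
    rw [zpow_mul]
    congr 1
    unfold MRS.ag
    rw [GaussianInt.toComplex_def']
    have e1 : ‖((1 : ℤ) : ℂ) + ((1 : ℤ) : ℂ) * Complex.I‖ ^ 2 = 2 := by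
      rw [← Complex.normSq_eq_norm_sq, Complex.normSq_apply]
      simp
      norm_num
    rw [show (2 : ℤ) = ((2 : ℕ) : ℤ) by norm_num, zpow_natCast, div_pow, ← Complex.ofReal_pow, e1]
    push_cast
    have : ((1 : ℂ) + 1 * Complex.I) ^ 2 = 2 * Complex.I := by
      ring_nf
      rw [Complex.I_sq]
      ring
    rw [this]
    field_simp
  unfold MRS.Psj
  rw [h5, h.mul, h4, map_mul, h6, h7]
  have h8 : ψ ⟨1, 1⟩ * (starRingEnd ℂ) (ψ ⟨1, 1⟩) = 1 := by
    rw [Complex.mul_conj, Complex.normSq_eq_norm_sq, h.nrm _ hc]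
    norm_num
  calc ψ ⟨1, 1⟩ * ((Complex.I ^ j)⁻¹ * (starRingEnd ℂ) (ψ ⟨1, 1⟩)) * Complex.I ^ j
      = (ψ ⟨1, 1⟩ * (starRingEnd ℂ) (ψ ⟨1, 1⟩)) * ((Complex.I ^ j)⁻¹ * Complex.I ^ j) := by ring
    _ = 1 := by rw [h8, inv_mul_cancel₀ hI, mul_one]

theorem psj_nat {K : ℕ} {ψ : GaussianInt → ℂ} (h : Chr K ψ) (j : ℤ) (q : ℕ) (hq : 0 < q)
    (hc : IsCoprime (q : GaussianInt) (K : GaussianInt)) : Psj ψ j (q : GaussianInt) = 1 := by
  unfold MRS.Psj
  rw [star_natCast, ag_nat q hq, one_zpow, mul_one, Complex.mul_conj, Complex.normSq_eq_norm_sq,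
    h.nrm _ hc]
  norm_num

theorem rho_per {K : ℕ} {ψ : GaussianInt → ℂ} (h : Chr K ψ) (x y : GaussianInt) :
    ψ (x + (K : GaussianInt) * y) * (starRingEnd ℂ) (ψ (star (x + (K : GaussianInt) * y))) =
      ψ x * (starRingEnd ℂ) (ψ (star x)) := by
  rw [star_add, star_mul, star_natCast, mul_comm (star y), h.per, h.per]

theorem chr_le {K : ℕ} {ψ : GaussianInt → ℂ} (h : Chr K ψ) (x : GaussianInt) : ‖ψ x‖ ≤ 1 := by
  by_cases hx : IsCoprime x (K : GaussianInt)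
  · exact (h.nrm x hx).le
  · rw [h.zer x hx, norm_zero]
    exact zero_le_one

/-! ### the trivial character -/

open scoped Classical in
/-- the trivial character mod `K`, `0` at `0` -/
noncomputable def P0 (K : ℕ) (v : GaussianInt) : ℂ :=
  if v ≠ 0 ∧ IsCoprime v (K : GaussianInt) then 1 else 0

theorem P0_mul (K : ℕ) (v w : GaussianInt) : P0 K (v * w) = P0 K v * P0 K w := by
  unfold P0
  by_cases h : v ≠ 0 ∧ IsCoprime v (K : GaussianInt)
  · by_cases h' : w ≠ 0 ∧ IsCoprime w (K : GaussianInt)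
    · rw [if_pos h, if_pos h', if_pos ⟨mul_ne_zero h.1 h'.1, h.2.mul_left h'.2⟩, mul_one]
    · rw [if_neg h', mul_zero, if_neg]
      rintro ⟨h1, h2⟩
      exact h' ⟨right_ne_zero_of_mul h1, h2.of_mul_left_right⟩
  · rw [if_neg h, zero_mul, if_neg]
    rintro ⟨h1, h2⟩
    exact h ⟨left_ne_zero_of_mul h1, h2.of_mul_left_left⟩

theorem P0_one (K : ℕ) : P0 K 1 = 1 := by
  unfold P0
  rw [if_pos ⟨one_ne_zero, isCoprime_one_left⟩]

theorem P0_I (K : ℕ) : P0 K ⟨0, 1⟩ = 1 := by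
  unfold P0
  rw [if_pos]
  constructor
  · intro h
    have := congrArg Zsqrtd.im h
    simp at this
  · refine ⟨⟨0, -1⟩, 0, ?_⟩
    rw [zero_mul, add_zero, Zsqrtd.ext_iff]
    simp

theorem P0_zero (K : ℕ) : P0 K 0 = 0 := by
  unfold P0
  rw [if_neg]
  rintro ⟨h, -⟩
  exact h rfl

theorem P0_star (K : ℕ) (v : GaussianInt) : P0 K (star v) = (starRingEnd ℂ) (P0 K v) := by
  unfold P0
  by_cases h : v ≠ 0 ∧ IsCoprime v (K : GaussianInt)
  · rw [if_pos h, if_pos ⟨star_ne_zero.2 h.1, cop_star h.2⟩, map_one]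
  · rw [if_neg h, map_zero, if_neg]
    rintro ⟨h1, h2⟩
    exact h ⟨star_ne_zero.1 h1, cop_star_iff.1 h2⟩

/-! ### the arithmetic functions -/

theorem nm_star (v : GaussianInt) : nm (star v) = nm v := by
  have h : ((nm (star v) : ℕ) : ℤ) = ((nm v : ℕ) : ℤ) := by
    rw [nm_coe, nm_coe, Zsqrtd.re_star, Zsqrtd.im_star, neg_sq]
  exact_mod_cast h

theorem an_real (Ψ : GaussianInt → ℂ) (hs : ∀ v, Ψ (star v) = (starRingEnd ℂ) (Ψ v)) (n : ℕ) :
    (((an Ψ n).re : ℝ) : ℂ) = an Ψ n := by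
  rw [← Complex.conj_eq_iff_re]
  unfold an
  rw [map_mul, map_sum]
  congr 1
  · rw [map_div₀, map_one, Complex.conj_ofNat]
  · refine Finset.sum_bij' (fun v _ => star v) (fun v _ => star v) ?_ ?_ ?_ ?_ ?_
    · intro v hv
      rw [mem_filter, mem_gball] at hv ⊢
      rw [nm_star]
      exact hv
    · intro v hv
      rw [mem_filter, mem_gball] at hv ⊢
      rw [nm_star]
      exact hv
    · intro v _
      exact star_star v
    · intro v _
      exact star_star v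
    · intro v _
      rw [hs]

theorem an_zero (Ψ : GaussianInt → ℂ) (h0 : Ψ 0 = 0) : an Ψ 0 = 0 := by
  unfold an
  rw [sum_eq_zero, mul_zero]
  intro v hv
  rw [mem_filter, nm_eq_zero] at hv
  rw [hv.2, h0]

/-- the real arithmetic function -/
noncomputable def aR (Ψ : GaussianInt → ℂ) (h0 : Ψ 0 = 0) : ArithmeticFunction ℝ :=
  ⟨fun n => (an Ψ n).re, by rw [an_zero Ψ h0]; rfl⟩

theorem aR_apply (Ψ : GaussianInt → ℂ) (h0 : Ψ 0 = 0) (n : ℕ) : aR Ψ h0 n = (an Ψ n).re := rfl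

theorem aR_coe (Ψ : GaussianInt → ℂ) (h0 : Ψ 0 = 0)
    (hs : ∀ v, Ψ (star v) = (starRingEnd ℂ) (Ψ v)) (n : ℕ) : ((aR Ψ h0 n : ℝ) : ℂ) = an Ψ n :=
  an_real Ψ hs n

theorem aR_mult (hR : StRec) (Ψ : GaussianInt → ℂ) (h0 : Ψ 0 = 0)
    (hs : ∀ v, Ψ (star v) = (starRingEnd ℂ) (Ψ v)) (hm : ∀ v w, Ψ (v * w) = Ψ v * Ψ w)
    (h1 : Ψ 1 = 1) (hI : Ψ ⟨0, 1⟩ = 1) : (aR Ψ h0).IsMultiplicative := by
  obtain ⟨e1, e2, -⟩ := hR Ψ hm h1 hI
  rw [ArithmeticFunction.IsMultiplicative.iff_ne_zero]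
  constructor
  · rw [aR_apply, e1]
    rfl
  · intro m n hm0 hn0 hc
    have := e2 m n (Nat.pos_of_ne_zero hm0) (Nat.pos_of_ne_zero hn0) hc
    rw [← aR_coe Ψ h0 hs, ← aR_coe Ψ h0 hs, ← aR_coe Ψ h0 hs] at this
    exact_mod_cast this

/-- logarithmic sums -/
theorem sum_an (Ψ : GaussianInt → ℂ) (Z : ℕ) :
    ∑ n ∈ Ioc 0 Z, an Ψ n / (n : ℂ) =
      (1 / 4 : ℂ) * ∑ v ∈ MRS.Logs71.ann 0 Z, Ψ v / (nm v : ℂ) := by
  rw [MRS.Logs71.sum_ann', mul_sum]
  refine sum_congr rfl fun n _ => ?_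
  unfold an
  rw [mul_div_assoc, sum_div]
  congr 1
  refine sum_congr rfl fun v hv => ?_
  rw [mem_filter] at hv
  rw [hv.2]

theorem sum_aR (Ψ : GaussianInt → ℂ) (h0 : Ψ 0 = 0)
    (hs : ∀ v, Ψ (star v) = (starRingEnd ℂ) (Ψ v)) (Z : ℕ) :
    ((∑ n ∈ Ioc 0 Z, aR Ψ h0 n / (n : ℝ) : ℝ) : ℂ) =
      (1 / 4 : ℂ) * ∑ v ∈ MRS.Logs71.ann 0 Z, Ψ v / (nm v : ℂ) := by
  rw [← sum_an]
  push_cast
  refine sum_congr rfl fun n _ => ?_
  rw [aR_coe Ψ h0 hs]

/-! ### representatives of the primes -/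

theorem exists_qp (p : ℕ) (hp : p.Prime) (h4 : p % 4 = 1) :
    ∃ π : GaussianInt, nm π = p ∧ 0 < π.re ∧ 0 < π.im := by
  have := Fact.mk hp
  obtain ⟨a, b, hab⟩ := Nat.Prime.sq_add_sq (p := p) (by omega)
  have hsq : ∀ n : ℕ, n ^ 2 ≠ p := fun n hn => Nat.Prime.not_prime_pow (le_refl 2) (hn ▸ hp)
  have ha : 0 < a := by
    rcases Nat.eq_zero_or_pos a with h | h
    · exfalso
      apply hsq b
      rw [← hab, h]
      ring
    · exact h
  have hb : 0 < b := by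
    rcases Nat.eq_zero_or_pos b with h | h
    · exfalso
      apply hsq a
      rw [← hab, h]
      ring
    · exact h
  refine ⟨⟨a, b⟩, ?_, Int.natCast_pos.2 ha, Int.natCast_pos.2 hb⟩
  have : ((nm (⟨a, b⟩ : GaussianInt) : ℕ) : ℤ) = p := by
    rw [nm_coe, ← hab]
    push_cast
    ring
  exact_mod_cast this

open scoped Classical in
/-- a Gaussian prime of norm `p` in the first quadrant -/
noncomputable def qp (p : ℕ) : GaussianInt :=
  if h : ∃ π : GaussianInt, nm π = p ∧ 0 < π.re ∧ 0 < π.im then h.choose else 0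

theorem qp_spec (p : ℕ) (hp : p.Prime) (h4 : p % 4 = 1) :
    nm (qp p) = p ∧ 0 < (qp p).re ∧ 0 < (qp p).im := by
  have h := exists_qp p hp h4
  unfold qp
  rw [dif_pos h]
  exact h.choose_spec

theorem nm_int (v : GaussianInt) : ((nm v : ℕ) : ℤ) = v.norm := by
  unfold MRS.Tk84.nm
  exact Int.natAbs_of_nonneg (GaussianInt.norm_nonneg v)

theorem cop_of_nm {v : GaussianInt} {K : ℕ} (h : Nat.Coprime (nm v) K) :
    IsCoprime v (K : GaussianInt) := by
  apply MRS91.cop_of_norm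
  rw [← nm_int]
  exact Nat.isCoprime_iff_coprime.2 h

theorem ncop_of_nm {v : GaussianInt} {K : ℕ} {p : ℕ} (hp : p.Prime) (hv : nm v = p) (hpK : p ∣ K) :
    ¬ IsCoprime v (K : GaussianInt) := by
  intro h
  have h1 : v ∣ (K : GaussianInt) := by
    have h2 : ((v.norm : ℤ) : GaussianInt) = v * star v := Zsqrtd.norm_eq_mul_conj v
    have h3 : v ∣ (p : GaussianInt) := by
      refine ⟨star v, ?_⟩
      rw [← h2, ← nm_int, hv]
      push_cast
      rfl
    obtain ⟨k, hk⟩ := hpK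
    rw [hk]
    push_cast
    exact h3.mul_right _
  have h2 : IsUnit v := h.isUnit_of_dvd' (dvd_refl v) h1
  have h3 := Zsqrtd.norm_eq_one_iff.2 h2
  have h4 : nm v = 1 := h3
  rw [hv] at h4
  exact hp.one_lt.ne' h4

/-- the primes used -/
def PS (K : ℕ) : Set ℕ := {p | p.Prime ∧ p % 4 = 1 ∧ Nat.Coprime p K}

open scoped Classical in
/-- real parts -/
noncomputable def cc (K : ℕ) (ψ : GaussianInt → ℂ) (j : ℤ) (p : ℕ) : ℝ :=
  if p ∈ PS K then (Psj ψ j (qp p)).re else 0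

theorem cop_qp {K p : ℕ} (hp : p ∈ PS K) : IsCoprime (qp p) (K : GaussianInt) := by
  apply cop_of_nm
  rw [(qp_spec p hp.1 hp.2.1).1]
  exact hp.2.2

theorem qp_ne {K p : ℕ} (hp : p ∈ PS K) : qp p ≠ 0 := by
  rw [← nm_pos, (qp_spec p hp.1 hp.2.1).1]
  exact hp.1.pos

theorem cc_abs {K : ℕ} {ψ : GaussianInt → ℂ} (h : Chr K ψ) (j : ℤ) (p : ℕ) :
    |cc K ψ j p| ≤ 1 := by
  unfold cc
  split_ifs with hp
  · refine (Complex.abs_re_le_norm _).trans ?_
    rw [psj_norm h j (qp_ne hp) (cop_qp hp)]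
  · simp

/-- the local facts -/
theorem local_a (hR : StRec) {K : ℕ} {ψ : GaussianInt → ℂ} (h : Chr K ψ) {j : ℤ} (hj : j ≠ 0)
    (hI : ψ ⟨0, 1⟩ * Complex.I ^ j = 1) {p : ℕ} (hp : p ∈ PS K) :
    aR (Psj ψ j) (psj_zero hj) p = 2 * cc K ψ j p ∧
    ∀ k, aR (Psj ψ j) (psj_zero hj) (p ^ (k + 2)) =
      2 * cc K ψ j p * aR (Psj ψ j) (psj_zero hj) (p ^ (k + 1)) -
        aR (Psj ψ j) (psj_zero hj) (p ^ k) := by
  obtain ⟨-, -, e3, -⟩ := hR (Psj ψ j) (psj_mul h j) (psj_one h j) (psj_I h j hI)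
  obtain ⟨h1, -⟩ := qp_spec p hp.1 hp.2.1
  obtain ⟨e4, e5⟩ := e3 p (qp p) hp.1 hp.2.1 h1
  have h2 : Psj ψ j (qp p) + Psj ψ j (star (qp p)) = ((2 * cc K ψ j p : ℝ) : ℂ) := by
    rw [psj_star, Complex.add_conj]
    unfold cc
    rw [if_pos hp]
  have h3 := psj_mul_star h j (qp_ne hp) (cop_qp hp)
  rw [h2] at e4 e5
  rw [h3] at e5
  have hs := psj_star (ψ := ψ) j
  constructor
  · rw [← aR_coe _ (psj_zero hj) hs] at e4
    exact_mod_cast e4
  · intro k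
    have := e5 k
    rw [← aR_coe _ (psj_zero hj) hs, ← aR_coe _ (psj_zero hj) hs, ← aR_coe _ (psj_zero hj) hs,
      one_mul] at this
    exact_mod_cast this

theorem local_r (hR : StRec) {K : ℕ} {p : ℕ} (hp : p ∈ PS K) :
    ∀ k : ℕ, aR (P0 K) (P0_zero K) (p ^ k) = k + 1 := by
  obtain ⟨e1, -, e3, -⟩ := hR (P0 K) (P0_mul K) (P0_one K) (P0_I K)
  obtain ⟨h1, -⟩ := qp_spec p hp.1 hp.2.1
  obtain ⟨e4, e5⟩ := e3 p (qp p) hp.1 hp.2.1 h1
  have h2 : P0 K (qp p) = 1 := by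
    unfold P0
    rw [if_pos ⟨qp_ne hp, cop_qp hp⟩]
  have h3 : P0 K (star (qp p)) = 1 := by
    rw [P0_star, h2, map_one]
  rw [h2, h3] at e4 e5
  have hs := P0_star K
  have f1 : aR (P0 K) (P0_zero K) 1 = 1 := by
    rw [← aR_coe _ (P0_zero K) hs] at e1
    exact_mod_cast e1
  have f2 : aR (P0 K) (P0_zero K) p = 2 := by
    rw [← aR_coe _ (P0_zero K) hs, one_add_one_eq_two] at e4
    exact_mod_cast e4
  have f3 : ∀ k, aR (P0 K) (P0_zero K) (p ^ (k + 2)) =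
      2 * aR (P0 K) (P0_zero K) (p ^ (k + 1)) - aR (P0 K) (P0_zero K) (p ^ k) := by
    intro k
    have := e5 k
    rw [← aR_coe _ (P0_zero K) hs, ← aR_coe _ (P0_zero K) hs, ← aR_coe _ (P0_zero K) hs,
      one_mul, one_mul, one_add_one_eq_two] at this
    exact_mod_cast this
  have key : ∀ k : ℕ, aR (P0 K) (P0_zero K) (p ^ k) = k + 1 ∧
      aR (P0 K) (P0_zero K) (p ^ (k + 1)) = k + 1 + 1 := by
    intro k
    induction k with
    | zero =>
      refine ⟨?_, ?_⟩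
      · rw [pow_zero, f1]
        simp
      · rw [zero_add, pow_one, f2]
        norm_num
    | succ k ih =>
      obtain ⟨i1, i2⟩ := ih
      refine ⟨?_, ?_⟩
      · rw [i2]
        push_cast
        ring
      · rw [show k + 1 + 1 = k + 2 by ring, f3, i2, i1]
        push_cast
        ring
  exact fun k => (key k).1

theorem local_other (hR : StRec) {K : ℕ} {ψ : GaussianInt → ℂ} (h : Chr K ψ) {j : ℤ} (hj : j ≠ 0)
    (hI : ψ ⟨0, 1⟩ * Complex.I ^ j = 1) {p : ℕ} (hpp : p.Prime) (hp : p ∉ PS K) (k : ℕ) :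
    aR (Psj ψ j) (psj_zero hj) (p ^ k) = aR (P0 K) (P0_zero K) (p ^ k) := by
  obtain ⟨a1, -, a3, a4, a5⟩ := hR (Psj ψ j) (psj_mul h j) (psj_one h j) (psj_I h j hI)
  obtain ⟨b1, -, b3, b4, b5⟩ := hR (P0 K) (P0_mul K) (P0_one K) (P0_I K)
  suffices hh : an (Psj ψ j) (p ^ k) = an (P0 K) (p ^ k) by
    rw [aR_apply, aR_apply, hh]
  rcases Nat.Prime.eq_two_or_odd hpp with h2 | h2
  · subst h2
    rw [a5, b5]
    congr 1
    by_cases hc : IsCoprime (⟨1, 1⟩ : GaussianInt) (K : GaussianInt)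
    · rw [psj_two h j hI hc]
      unfold P0
      rw [if_pos]
      refine ⟨?_, hc⟩
      intro h0
      have := congrArg Zsqrtd.im h0
      simp at this
    · rw [psj_ncop h j hc]
      unfold P0
      rw [if_neg]
      rintro ⟨-, h'⟩
      exact hc h'
  · have h4 : p % 4 = 1 ∨ p % 4 = 3 := by omega
    rcases h4 with h4 | h4
    · -- split, not coprime to K
      have hpK : p ∣ K := by
        by_contra hc
        exact hp ⟨hpp, h4, (Nat.Prime.coprime_iff_not_dvd hpp).2 hc⟩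
      obtain ⟨h1, -⟩ := qp_spec p hpp h4
      have hn1 := ncop_of_nm hpp h1 hpK
      have hn2 : ¬ IsCoprime (star (qp p)) (K : GaussianInt) := by
        rw [cop_star_iff]
        exact hn1
      obtain ⟨c4, c5⟩ := a3 p (qp p) hpp h4 h1
      obtain ⟨d4, d5⟩ := b3 p (qp p) hpp h4 h1
      have z1 := psj_ncop h j hn1
      have z2 := psj_ncop h j hn2
      have z3 : P0 K (qp p) = 0 := by
        unfold P0
        rw [if_neg]
        rintro ⟨-, h'⟩
        exact hn1 h'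
      have z4 : P0 K (star (qp p)) = 0 := by
        rw [P0_star, z3, map_zero]
      rw [z1, z2] at c4 c5
      rw [z3, z4] at d4 d5
      rcases k with _ | _ | k
      · rw [pow_zero, a1, b1]
      · rw [zero_add, pow_one, c4, d4]
      · rw [show k + 1 + 1 = k + 2 by ring, c5, d5]
        ring
    · -- inert
      have hq : Psj ψ j (p : GaussianInt) = P0 K (p : GaussianInt) := by
        by_cases hc : IsCoprime (p : GaussianInt) (K : GaussianInt)
        · rw [psj_nat h j p hpp.pos hc]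
          unfold P0
          rw [if_pos ⟨Nat.cast_ne_zero.2 hpp.ne_zero, hc⟩]
        · rw [psj_ncop h j hc]
          unfold P0
          rw [if_neg]
          rintro ⟨-, h'⟩
          exact hc h'
      rcases Nat.even_or_odd' k with ⟨m, hm | hm⟩
      · rw [hm, (a4 p hpp h4 m).1, (b4 p hpp h4 m).1, hq]
      · rw [hm, (a4 p hpp h4 m).2, (b4 p hpp h4 m).2]

theorem sum_r_ge (K : ℕ) (cK : ℝ) (Y : ℕ)
    (hY : ∀ S : Finset GaussianInt, (∀ v : GaussianInt, 0 < nm v → nm v ≤ Y →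
      IsCoprime (Zsqrtd.norm v) (K : ℤ) → v ∈ S) →
      cK * Real.log Y ≤ ∑ v ∈ S, (1 : ℝ) / (nm v : ℝ)) :
    cK / 4 * Real.log Y ≤ ∑ n ∈ Ioc 0 Y, aR (P0 K) (P0_zero K) n / (n : ℝ) := by
  classical
  have h1 := sum_aR (P0 K) (P0_zero K) (P0_star K) Y
  set S : Finset GaussianInt := (MRS.Logs71.ann 0 Y).filter
    (fun v => IsCoprime v (K : GaussianInt)) with hS
  have h2 : ∑ v ∈ MRS.Logs71.ann 0 Y, P0 K v / (nm v : ℂ) =
      ((∑ v ∈ S, (1 : ℝ) / (nm v : ℝ) : ℝ) : ℂ) := by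
    rw [hS, sum_filter]
    push_cast
    refine sum_congr rfl fun v hv => ?_
    rw [MRS.Logs71.mem_ann] at hv
    have hv0 : v ≠ 0 := nm_pos.1 hv.1
    unfold P0
    by_cases hc : IsCoprime v (K : GaussianInt)
    · rw [if_pos ⟨hv0, hc⟩, if_pos hc]
      push_cast
      rfl
    · rw [if_neg (fun h' => hc h'.2), if_neg hc, zero_div, Complex.ofReal_zero]
  have h3 := hY S (by
    intro v hv1 hv2 hv3
    rw [hS, mem_filter, MRS.Logs71.mem_ann]
    exact ⟨⟨hv1, hv2⟩, MRS91.cop_of_norm hv3⟩)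
  rw [h2] at h1
  have h4 : ∑ n ∈ Ioc 0 Y, aR (P0 K) (P0_zero K) n / (n : ℝ) =
      1 / 4 * ∑ v ∈ S, (1 : ℝ) / (nm v : ℝ) := by
    apply Complex.ofReal_injective
    rw [h1, Complex.ofReal_mul]
    congr 1
    norm_num
  rw [h4]
  linarith

/-- **DJ**, from the exponential sums -/
theorem stDj_71 (hE : X67.StExp) (hR : StRec) : StDj := by
  classical
  intro K ψ hK hψ c B hc
  obtain ⟨C0, hC0, hl⟩ := MRS.Logs71.logs1 hE
  obtain ⟨cK, hcK, Y0, hY⟩ := MRS.Logs71.logs2 K hK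
  set E : ℝ := Real.exp (-(64 + B)) with hEE
  have hE0 : 0 < E := Real.exp_pos _
  set β : ℝ := cK * c * E / (4 * C0) with hβ
  have hβ0 : 0 < β := by positivity
  obtain ⟨C1, hC1, hmain⟩ := hl 3 (by norm_num) K hK β hβ0
  have hev : ∀ᶠ N : ℝ in Filter.atTop, 2 ≤ N ∧ (Y0 : ℝ) + 1 ≤ N ^ c ∧ 2 ≤ N ^ (c / 2) ∧
      4 * C1 / (cK * c * E) < Real.log N := by
    filter_upwards [Filter.eventually_ge_atTop 2,
      (tendsto_rpow_atTop hc).eventually_ge_atTop ((Y0 : ℝ) + 1),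
      (tendsto_rpow_atTop (half_pos hc)).eventually_ge_atTop 2,
      Real.tendsto_log_atTop.eventually_gt_atTop (4 * C1 / (cK * c * E))] with N h1 h2 h3 h4
    exact ⟨h1, h2, h3, h4⟩
  obtain ⟨N1, hN1⟩ := Filter.eventually_atTop.1 hev
  refine ⟨max N1 1, le_max_right _ _, ?_⟩
  intro N hN j hj hjN hI
  obtain ⟨n1, n2, n3, n4⟩ := hN1 N (le_trans (le_max_left _ _) hN)
  have hN0 : 0 < N := by linarith
  set x : ℝ := N ^ c with hx
  have hx1 : 1 ≤ x := by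
    have : (0 : ℝ) ≤ Y0 := Nat.cast_nonneg _
    linarith
  set Y : ℕ := ⌈x⌉₊ - 1 with hYd
  have hceil : 1 ≤ ⌈x⌉₊ := Nat.one_le_ceil_iff.2 (by linarith)
  have hYr : (Y : ℝ) = (⌈x⌉₊ : ℝ) - 1 := by
    rw [hYd]
    push_cast [Nat.cast_sub hceil]
    ring
  have hYlt : (Y : ℝ) < x := by
    rw [hYr]
    have := Nat.ceil_lt_add_one (show 0 ≤ x by linarith)
    linarith
  have hYge : x - 1 ≤ Y := by
    rw [hYr]
    have := Nat.le_ceil x
    linarith
  have hY0 : Y0 ≤ Y := by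
    have : (Y0 : ℝ) ≤ Y := by linarith
    exact_mod_cast this
  have hlogY : c / 2 * Real.log N ≤ Real.log Y := by
    have h1 : N ^ (c / 2) ≤ (Y : ℝ) := by
      have h2 : x = N ^ (c / 2) * N ^ (c / 2) := by
        rw [hx, ← Real.rpow_add hN0]
        congr 1
        ring
      nlinarith
    calc c / 2 * Real.log N = Real.log (N ^ (c / 2)) := (Real.log_rpow hN0 _).symm
      _ ≤ Real.log Y := Real.log_le_log (by positivity) h1
  -- the two arithmetic functions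
  have hs := psj_star (ψ := ψ) j
  have ha := aR_mult hR (Psj ψ j) (psj_zero hj) hs (psj_mul hψ j) (psj_one hψ j) (psj_I hψ j hI)
  have hr := aR_mult hR (P0 K) (P0_zero K) (P0_star K) (P0_mul K) (P0_one K) (P0_I K)
  set S : ℝ := 1 / 4 * (C0 * β * Real.log N + C1) with hS
  have hSb : ∀ Z ≤ Y, |∑ m ∈ Ioc 0 Z, aR (Psj ψ j) (psj_zero hj) m / (m : ℝ)| ≤ S := by
    intro Z _
    have h1 := sum_aR (Psj ψ j) (psj_zero hj) hs Z
    have h2 : |∑ m ∈ Ioc 0 Z, aR (Psj ψ j) (psj_zero hj) m / (m : ℝ)| =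
        ‖(1 / 4 : ℂ) * ∑ v ∈ MRS.Logs71.ann 0 Z, Psj ψ j v / (nm v : ℂ)‖ := by
      rw [← h1, Complex.norm_real, Real.norm_eq_abs]
    rw [h2, norm_mul]
    have h3 : ‖(1 / 4 : ℂ)‖ = 1 / 4 := by norm_num
    rw [h3, hS]
    apply mul_le_mul_of_nonneg_left _ (by norm_num)
    have h4 := hmain N (by linarith) (2 * j) (fun v => ψ v * (starRingEnd ℂ) (ψ (star v)))
      (by omega) (by
        push_cast
        rw [abs_mul]
        have e1 : |(2 : ℝ)| = 2 := by norm_num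
        have e2 : N ^ (3 : ℝ) = N ^ 3 := by
          rw [show (3 : ℝ) = ((3 : ℕ) : ℝ) by norm_num, Real.rpow_natCast]
        rw [e1, e2]
        have e3 : (0 : ℝ) ≤ N ^ 2 := by positivity
        nlinarith) (rho_per hψ) (by
        intro v
        rw [norm_mul, Complex.norm_conj]
        exact mul_le_one₀ (chr_le hψ v) (norm_nonneg _) (chr_le hψ _)) Z
    exact h4
  have hconv := Pool.Agent.MRS1.Conv.conv_exp (PS K) (cc K ψ j) _ _ ha hr (cc_abs hψ j)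
    (fun p _ hp => (local_a hR hψ hj hI hp).1) (fun p _ hp => (local_a hR hψ hj hI hp).2)
    (fun p _ hp => local_r hR hp)
    (fun p hpp hp k => local_other hR hψ hj hI hpp hp k) Y S hSb
  have hrge := sum_r_ge K cK Y (hY Y hY0)
  -- the sum over the primes
  set SD : ℝ := ∑ π ∈ (sl 3 x).filter (fun π => ψ π ≠ 0),
    (1 / (MRS.nm π : ℝ)) * ‖1 - Psj ψ j π‖ ^ 2 with hSD
  have hT : ∑ p ∈ (Y + 1).primesBelow.filter (· ∈ PS K), 2 * (1 - cc K ψ j p) / (p : ℝ) ≤ SD := by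
    have hmem : ∀ p ∈ (Y + 1).primesBelow.filter (· ∈ PS K),
        qp p ∈ (sl 3 x).filter (fun π => ψ π ≠ 0) := by
      intro p hp
      rw [mem_filter, Nat.mem_primesBelow] at hp
      obtain ⟨⟨hp1, hp2⟩, hp3⟩ := hp
      obtain ⟨h1, h2, h3⟩ := qp_spec p hp3.1 hp3.2.1
      have h1' : MRS.nm (qp p) = p := h1
      have hpx : (p : ℝ) < x := by
        have : (p : ℝ) ≤ Y := by exact_mod_cast (by omega : p ≤ Y)
        linarith
      rw [mem_filter]
      unfold MRS.sl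
      rw [mem_filter, MRS.mem_Sh, h1']
      refine ⟨⟨⟨qp_ne hp3, by exact_mod_cast hp2.pos, hpx.le⟩, h2, h3, hp2, ?_, hpx⟩, ?_⟩
      · have : 3 ≤ p := by
          have h5 := hp2.two_le
          have h6 := hp3.2.1
          omega
        exact_mod_cast this
      · intro h0
        have := hψ.nrm _ (cop_qp hp3)
        rw [h0, norm_zero] at this
        exact zero_ne_one this
    have hinj : Set.InjOn qp ((Y + 1).primesBelow.filter (· ∈ PS K)) := by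
      intro p hp q hq hpq
      rw [mem_coe, mem_filter] at hp hq
      have h1 := (qp_spec p hp.2.1 hp.2.2.1).1
      have h2 := (qp_spec q hq.2.1 hq.2.2.1).1
      rw [← h1, ← h2, hpq]
    have h1 : ∑ p ∈ (Y + 1).primesBelow.filter (· ∈ PS K), 2 * (1 - cc K ψ j p) / (p : ℝ) =
        ∑ π ∈ ((Y + 1).primesBelow.filter (· ∈ PS K)).image qp,
          (1 / (MRS.nm π : ℝ)) * ‖1 - Psj ψ j π‖ ^ 2 := by
      rw [sum_image hinj]
      refine sum_congr rfl fun p hp => ?_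
      rw [mem_filter] at hp
      have h2 : MRS.nm (qp p) = p := (qp_spec p hp.2.1 hp.2.2.1).1
      have h3 := psj_norm hψ j (qp_ne hp.2) (cop_qp hp.2)
      have h4 : ‖1 - Psj ψ j (qp p)‖ ^ 2 = 2 * (1 - cc K ψ j p) := by
        unfold cc
        rw [if_pos hp.2, ← Complex.normSq_eq_norm_sq, Complex.normSq_sub, map_one,
          Complex.normSq_eq_norm_sq, h3, one_mul, Complex.conj_re]
        ring
      rw [h2, h4]
      ring
    rw [h1, hSD]
    refine sum_le_sum_of_subset_of_nonneg ?_ (fun v _ _ => by positivity)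
    intro v hv
    rw [mem_image] at hv
    obtain ⟨p, hp, rfl⟩ := hv
    exact hmem p hp
  by_contra hcon
  rw [not_le] at hcon
  have hlogN : 0 < Real.log N := Real.log_pos (by linarith)
  have hS0 : 0 ≤ S := by positivity
  have h1 : cK / 4 * Real.log Y ≤ S * Real.exp (64 + B) := by
    refine hrge.trans (hconv.trans ?_)
    apply mul_le_mul_of_nonneg_left _ hS0
    apply Real.exp_le_exp.2
    linarith
  have h2 : E * Real.exp (64 + B) = 1 := by
    rw [hEE, ← Real.exp_add]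
    simp
  have h3 : cK / 4 * Real.log Y * E ≤ S := by
    calc cK / 4 * Real.log Y * E ≤ (S * Real.exp (64 + B)) * E :=
          mul_le_mul_of_nonneg_right h1 hE0.le
      _ = S * (E * Real.exp (64 + B)) := by ring
      _ = S := by rw [h2, mul_one]
  have h4 : cK / 4 * (c / 2 * Real.log N) * E ≤ S := by
    refine le_trans ?_ h3
    apply mul_le_mul_of_nonneg_right _ hE0.le
    exact mul_le_mul_of_nonneg_left hlogY (by positivity)
  have h5 : C0 * β = cK * c * E / 4 := by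
    rw [hβ]
    field_simp
  rw [hS, h5] at h4
  have h6 : 0 < cK * c * E := by positivity
  rw [div_lt_iff₀ h6] at n4
  nlinarith

end Pool.Agent.Lib.MP_a17b09_nt.DJ71
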