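import Pool.Agent.Lib.MP_a17b09_nt.MRS.Stmts3

/-!
Project MRS, levels (part 1): the exact forms used by the assembly of `StLev`
(helper27; schedule with one parameter, see /team-store/MRS27.md).
-/

set_option autoImplicit false

open Filter Topology Finset

namespace Pool.Agent.Lib.MP_a17b09_nt.MRS

/-- DEC2: decomposition by slices, uniform in the number `h` of slices per unit -/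
def StDec2 : Prop := ∀ r1 r2 : ℝ, 0 < r1 → r1 < r2 → ∀ (z : ℂ) (K : ℕ)
  (ψ : GaussianInt → ℂ), ‖z‖ = 1 → 0 < K → Chr K ψ → ∃ C N0 : ℝ, 0 < C ∧ 1 ≤ N0 ∧
  ∀ (h u0 u1 : ℕ) (N : ℝ), 0 < h → 3 * h ≤ u0 → u0 < u1 → N0 ≤ N →
  (h : ℝ) ≤ N ^ (1 / 8 : ℝ) → Real.exp (u1 / h) ≤ N ^ (1 / 8 : ℝ) →
  1 ≤ LL (Real.exp (u0 / h)) (Real.exp (u1 / h)) → ∀ J : ℕ, (J : ℝ) ≤ N →
  ∑ j ∈ js J, ‖Mp z ψ r1 r2 N j - (1 / (LL (Real.exp (u0 / h)) (Real.exp (u1 / h)) : ℂ)) *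
    ∑ u ∈ Finset.Ico u0 u1, Qs z ψ h u j * Mp z ψ r1 r2 (N * Real.exp (-(u / h))) j‖ ^ 2 ≤
    C * (1 / LL (Real.exp (u0 / h)) (Real.exp (u1 / h)) + 1 / h + h / u0)

/-- MOM2: `StMom` for windows of norm at least `e ^ 3` (`l = 0` is allowed) -/
def StMom2 : Prop := ∃ C : ℝ, 1 ≤ C ∧ ∀ (z : ℂ) (K : ℕ) (ψ : GaussianInt → ℂ), ‖z‖ = 1 → 0 < K →
  Chr K ψ → ∀ (h u l J : ℕ), 0 < h → 3 * h ≤ u → ∀ (B Y : ℝ) (S : Finset GaussianInt)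
    (a : GaussianInt → ℂ), 1 ≤ B → 1 ≤ Y → (∀ v ∈ S, Pv v ∧ Y ≤ nm v ∧ (nm v : ℝ) ≤ B * Y) →
    (∀ v, ‖a v‖ ≤ 1) → (J : ℝ) ≤ Real.exp (l * (u / h)) * Y →
  ∑ j ∈ js J, ‖Qs z ψ h u j ^ l * Rs S Y a j‖ ^ 2 ≤ C ^ (l + 1) * B ^ 2 * (l.factorial : ℝ) ^ 2

/-- SCH: the schedule (levels `0, …, n`; level `i` has the windows `u ∈ [u0 i, u1 i)`, `h i` of them
per unit, and the threshold exponent `α i`) -/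
def StSch : Prop := ∀ C r ε c : ℝ, 1 ≤ C → 0 < r → 0 < ε → 0 < c → ∃ H0 : ℝ, 1 ≤ H0 ∧
  ∀ H : ℝ, H0 ≤ H → ∃ N0 : ℝ, 1 ≤ N0 ∧ ∀ N : ℝ, N0 ≤ N →
  ∃ (n : ℕ) (h u0 u1 : ℕ → ℕ) (α : ℕ → ℝ),
    (∀ i, 0 ≤ α i) ∧
    (∀ i ≤ n, 0 < h i ∧ 3 * h i ≤ u0 i ∧ u0 i < u1 i ∧ (h i : ℝ) ≤ N ^ (1 / 8 : ℝ) ∧
      Real.exp (u1 i / h i) ≤ N ^ (1 / 8 : ℝ) ∧ C + 1 ≤ Real.log (u1 i / u0 i)) ∧
    Real.exp (u1 0 / h 0) ≤ r * H ∧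
    ∑ i ∈ Finset.range (n + 1), C * (1 / (Real.log (u1 i / u0 i) - C) + 1 / h i + h i / u0 i) ≤ ε ∧
    C * (u1 0 : ℝ) ^ 2 * Real.exp (-(2 * α 0 * (u0 0 / h 0))) ≤ ε ∧
    (∀ i < n, ∀ u ∈ Finset.Ico (u0 (i + 1)) (u1 (i + 1)), ∀ s ∈ Finset.Ico (u0 i) (u1 i), ∃ l : ℕ,
      (u / h (i + 1) : ℝ) ≤ l * (s / h i) ∧
      (u1 (i + 1) : ℝ) ^ 2 * u1 i * (Real.exp (2 * l * α i * (s / h i) -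
        2 * α (i + 1) * (u / h (i + 1))) * (C ^ (l + 1) * (l.factorial : ℝ) ^ 2)) ≤
        ε * (1 / 2) ^ (i + 1)) ∧
    (∀ s ∈ Finset.Ico (u0 n) (u1 n), ∃ l : ℕ, N ≤ Real.exp (l * (s / h n)) ∧
      (u1 n : ℝ) * (Real.exp (2 * l * α n * (s / h n)) * (C ^ (l + 1) * (l.factorial : ℝ) ^ 2)) ≤
        N ^ c)

end Pool.Agent.Lib.MP_a17b09_nt.MRS
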