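import Pool.Agent.Lib.MP_a17b09_nt.MRS.DecB21
import Pool.Agent.Lib.MP_a17b09_nt.MRS.StmtsL27

/-!
MRS, decomposition by slices: `stDec2_21`.
-/

set_option autoImplicit false

open Finset

namespace Pool.Agent.Lib.MP_a17b09_nt.MRS.Dec21

/-! ### slices -/

/-- the index of the slice of a prime -/
noncomputable def usl (h : ℕ) (π : GaussianInt) : ℕ := ⌊(h : ℝ) * Real.log (nm π)⌋₊

theorem exp_le_iff {h : ℕ} (hh : 0 < h) {π : GaussianInt} (hπ : 0 < nm π) (u : ℕ) :
    Real.exp (u / h) ≤ nm π ↔ u ≤ usl h π := by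
  have hh0 : (0 : ℝ) < h := by exact_mod_cast hh
  have hp0 : (0 : ℝ) < nm π := by exact_mod_cast hπ
  have hp1 : (1 : ℝ) ≤ nm π := by exact_mod_cast hπ
  unfold usl
  rw [← Real.le_log_iff_exp_le hp0, div_le_iff₀ hh0,
    Nat.le_floor_iff (mul_nonneg hh0.le (Real.log_nonneg hp1)), mul_comm]

theorem mem_slice {h : ℕ} (hh : 0 < h) (u0 u1 : ℕ) {π : GaussianInt} :
    π ∈ sl (Real.exp (u0 / h)) (Real.exp (u1 / h)) ↔
      (0 < π.re ∧ 0 < π.im ∧ (nm π).Prime) ∧ u0 ≤ usl h π ∧ usl h π < u1 := by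
  rw [mem_sl]
  constructor
  · rintro ⟨h1, h2, h3, h4, h5⟩
    refine ⟨⟨h1, h2, h3⟩, (exp_le_iff hh h3.pos u0).1 h4, ?_⟩
    by_contra hcon
    rw [not_lt, ← exp_le_iff hh h3.pos] at hcon
    linarith
  · rintro ⟨⟨h1, h2, h3⟩, h4, h5⟩
    refine ⟨h1, h2, h3, (exp_le_iff hh h3.pos u0).2 h4, ?_⟩
    by_contra hcon
    rw [not_lt, exp_le_iff hh h3.pos] at hcon
    omega

theorem mem_slice1 {h : ℕ} (hh : 0 < h) (u : ℕ) {π : GaussianInt} :
    π ∈ sl (Real.exp (u / h)) (Real.exp ((u + 1) / h)) ↔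
      (0 < π.re ∧ 0 < π.im ∧ (nm π).Prime) ∧ usl h π = u := by
  have h1 := mem_slice hh u (u + 1) (π := π)
  push_cast at h1
  rw [h1]
  constructor
  · rintro ⟨h2, h3, h4⟩
    exact ⟨h2, by omega⟩
  · rintro ⟨h2, h3⟩
    exact ⟨h2, by omega, by omega⟩

/-! ### the weights of the pairs -/

/-- the weight of the pair `(π, m)` in the main term -/
noncomputable def bw (h : ℕ) (r1 r2 N : ℝ) (π m : GaussianInt) : ℝ :=
  if r1 * (N * Real.exp (-(usl h π / h))) < nm m ∧
    (nm m : ℝ) ≤ r2 * (N * Real.exp (-(usl h π / h))) then Real.exp (usl h π / h) / nm π else 0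

/-- the weight `e^(u/h) / |π|²` -/
theorem wt {h : ℕ} (hh : 0 < h) {π : GaussianInt} (hπ : 0 < nm π) :
    Real.exp (-(1 / h)) ≤ Real.exp (usl h π / h) / nm π ∧
      Real.exp (usl h π / h) / nm π ≤ 1 := by
  have hh0 : (0 : ℝ) < h := by exact_mod_cast hh
  have hp0 : (0 : ℝ) < nm π := by exact_mod_cast hπ
  constructor
  · rw [le_div_iff₀ hp0]
    have h1 : (nm π : ℝ) < Real.exp ((usl h π + 1) / h) := by
      by_contra hcon
      rw [not_lt] at hcon
      have h2 := (exp_le_iff hh hπ (usl h π + 1)).1 (by push_cast; exact hcon)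
      omega
    have h3 : Real.exp ((usl h π + 1) / h) = Real.exp (usl h π / h) * Real.exp (1 / h) := by
      rw [← Real.exp_add]
      congr 1
      ring
    rw [h3] at h1
    have h4 : Real.exp (-(1 / (h : ℝ))) * Real.exp (1 / h) = 1 := by
      rw [← Real.exp_add, neg_add_cancel, Real.exp_zero]
    have h5 : 0 < Real.exp (-(1 / (h : ℝ))) := Real.exp_pos _
    calc Real.exp (-(1 / (h : ℝ))) * nm π
        ≤ Real.exp (-(1 / (h : ℝ))) * (Real.exp (usl h π / h) * Real.exp (1 / h)) :=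
          mul_le_mul_of_nonneg_left h1.le h5.le
      _ = (Real.exp (-(1 / (h : ℝ))) * Real.exp (1 / h)) * Real.exp (usl h π / h) := by ring
      _ = Real.exp (usl h π / h) := by rw [h4, one_mul]
  · rw [div_le_one hp0]
    exact (exp_le_iff hh hπ _).2 le_rfl

theorem bw_bd {h : ℕ} (hh : 0 < h) (r1 r2 N : ℝ) {π : GaussianInt} (hπ : 0 < nm π)
    (m : GaussianInt) : 0 ≤ bw h r1 r2 N π m ∧ bw h r1 r2 N π m ≤ 1 := by
  unfold bw
  split_ifs
  · exact ⟨by positivity, (wt hh hπ).2⟩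
  · exact ⟨le_rfl, zero_le_one⟩

/-- the norm of `π m` -/
theorem bw_nm {h : ℕ} (hh : 0 < h) (r1 r2 N : ℝ) {π : GaussianInt} (hπ : 0 < nm π)
    (m : GaussianInt) (hb : bw h r1 r2 N π m ≠ 0) : (nm m : ℝ) ≤
      r2 * (N * Real.exp (-(usl h π / h))) ∧ (nm (π * m) : ℝ) ≤ Real.exp (1 / h) * (r2 * N) := by
  have hp0 : (0 : ℝ) < nm π := by exact_mod_cast hπ
  unfold bw at hb
  have h1 : r1 * (N * Real.exp (-(usl h π / h))) < nm m ∧
    (nm m : ℝ) ≤ r2 * (N * Real.exp (-(usl h π / h))) := by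
    by_contra hcon
    rw [if_neg hcon] at hb
    exact hb rfl
  refine ⟨h1.2, ?_⟩
  have h2 := (wt hh hπ).1
  rw [le_div_iff₀ hp0] at h2
  have h4 : Real.exp (-(1 / (h : ℝ))) * Real.exp (1 / h) = 1 := by
    rw [← Real.exp_add, neg_add_cancel, Real.exp_zero]
  have h5 : Real.exp (-(usl h π / h : ℝ)) * Real.exp (usl h π / h) = 1 := by
    rw [← Real.exp_add, neg_add_cancel, Real.exp_zero]
  have h6 : (nm π : ℝ) ≤ Real.exp (usl h π / h) * Real.exp (1 / h) := by
    calc (nm π : ℝ) = (Real.exp (-(1 / (h : ℝ))) * nm π) * Real.exp (1 / h) := by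
          rw [mul_right_comm, h4, one_mul]
      _ ≤ _ := mul_le_mul_of_nonneg_right h2 (Real.exp_pos _).le
  rw [nm_mul]
  push_cast
  have h7 : (0 : ℝ) ≤ nm m := Nat.cast_nonneg _
  calc (nm π : ℝ) * nm m ≤ (Real.exp (usl h π / h) * Real.exp (1 / h)) * nm m :=
        mul_le_mul_of_nonneg_right h6 h7
    _ ≤ (Real.exp (usl h π / h) * Real.exp (1 / h)) *
        (r2 * (N * Real.exp (-(usl h π / h)))) :=
        mul_le_mul_of_nonneg_left h1.2 (by positivity)
    _ = (Real.exp (-(usl h π / h : ℝ)) * Real.exp (usl h π / h)) *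
        (Real.exp (1 / h) * (r2 * N)) := by ring
    _ = Real.exp (1 / h) * (r2 * N) := by rw [h5, one_mul]

/-- comparison of the weight with the indicator of the shell -/
theorem bw_cmp {h : ℕ} (hh : 0 < h) {r1 r2 N : ℝ} (hr1 : 0 < r1) (hr : r1 < r2) (hN : 0 < N)
    {π : GaussianInt} (hπ : 0 < nm π) (m : GaussianInt) :
    |(if r1 * N < nm (π * m) ∧ (nm (π * m) : ℝ) ≤ r2 * N then (1 : ℝ) else 0) -
      bw h r1 r2 N π m| ≤ 1 / h +
      (if (r1 * N < nm (π * m) ∧ (nm (π * m) : ℝ) ≤ r1 * N * Real.exp (1 / h)) ∨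
        (r2 * N < nm (π * m) ∧ (nm (π * m) : ℝ) ≤ r2 * N * Real.exp (1 / h)) then 1 else 0) := by
  have hh0 : (0 : ℝ) < h := by exact_mod_cast hh
  have hp0 : (0 : ℝ) < nm π := by exact_mod_cast hπ
  obtain ⟨hw1, hw2⟩ := wt hh hπ
  obtain ⟨hb0, hb1⟩ := bw_bd hh r1 r2 N hπ m
  set w : ℝ := Real.exp (usl h π / h) / nm π with hw
  have hw0 : 0 < w := by positivity
  have h4 : Real.exp (-(1 / (h : ℝ))) * Real.exp (1 / h) = 1 := by
    rw [← Real.exp_add, neg_add_cancel, Real.exp_zero]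
  have h5 : Real.exp (-(usl h π / h : ℝ)) * Real.exp (usl h π / h) = 1 := by
    rw [← Real.exp_add, neg_add_cancel, Real.exp_zero]
  have hE : (0 : ℝ) < Real.exp (usl h π / h) := Real.exp_pos _
  have hE1 : (0 : ℝ) < Real.exp (1 / h) := Real.exp_pos _
  have hx : (nm m : ℝ) * Real.exp (usl h π / h) = w * nm (π * m) := by
    rw [nm_mul, hw]
    push_cast
    field_simp
  have hc1 : ∀ r : ℝ, (nm m : ℝ) ≤ r * (N * Real.exp (-(usl h π / h))) ↔
      w * nm (π * m) ≤ r * N := by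
    intro r
    rw [← hx]
    have e : r * (N * Real.exp (-(usl h π / h : ℝ))) * Real.exp (usl h π / h) = r * N := by
      calc _ = r * N * (Real.exp (-(usl h π / h : ℝ)) * Real.exp (usl h π / h)) := by ring
        _ = r * N := by rw [h5, mul_one]
    rw [← mul_le_mul_iff_left₀ hE, e]
  have hbw : bw h r1 r2 N π m = if r1 * N < w * nm (π * m) ∧ w * nm (π * m) ≤ r2 * N then w
      else 0 := by
    unfold bw
    congr 1
    rw [← not_le, hc1 r1, hc1 r2, not_le]
  have h1h : 1 - w ≤ 1 / h := by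
    have h1 : 1 - 1 / (h : ℝ) ≤ Real.exp (-(1 / h)) := by
      have := Real.add_one_le_exp (-(1 / (h : ℝ)))
      linarith
    linarith
  have hx0 : (0 : ℝ) ≤ nm (π * m) := Nat.cast_nonneg _
  have hwx : w * nm (π * m) ≤ nm (π * m) := mul_le_of_le_one_left hx0 hw2
  have hbig : ∀ r : ℝ, r * N * Real.exp (1 / h) < nm (π * m) → r * N < w * nm (π * m) := by
    intro r h1
    calc r * N = Real.exp (-(1 / (h : ℝ))) * (r * N * Real.exp (1 / h)) := by
          rw [mul_comm (r * N), ← mul_assoc, h4, one_mul]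
      _ < Real.exp (-(1 / (h : ℝ))) * nm (π * m) :=
          mul_lt_mul_of_pos_left h1 (Real.exp_pos _)
      _ ≤ w * nm (π * m) := mul_le_mul_of_nonneg_right hw1 hx0
  have h1h0 : (0 : ℝ) < 1 / h := by positivity
  split_ifs with hS hT hT
  · rw [abs_le]
    constructor <;> linarith
  · -- in the shell, not thin
    rw [not_or, not_and, not_and, not_le] at hT
    have hb : bw h r1 r2 N π m = w := by
      rw [hbw, if_pos]
      exact ⟨hbig r1 (hT.1 hS.1), hwx.trans hS.2⟩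
    rw [hb, abs_of_nonneg (by linarith)]
    linarith
  · rw [abs_le]
    constructor <;> linarith
  · rw [not_or, not_and, not_and, not_le, not_le] at hT
    have hb : bw h r1 r2 N π m = 0 := by
      rw [hbw, if_neg]
      rintro ⟨h1, h2⟩
      apply hS
      have h3 : r1 * N < nm (π * m) := h1.trans_le hwx
      refine ⟨h3, ?_⟩
      by_contra hcon
      rw [not_le] at hcon
      linarith [hbig r2 (hT.2 hcon)]
    rw [hb, sub_zero, abs_zero]
    linarith

end Pool.Agent.Lib.MP_a17b09_nt.MRS.Dec21
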