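import Pool.Agent.Lib.MP_a17b09_nt.MRS.Dec97

/-!
Project MRS, decomposition by slices (97): `stDec2_97 : StTK → StLsp → StDec2`.
-/

set_option autoImplicit false

open Filter Topology Finset

namespace Pool.Agent.Lib.MP_a17b09_nt.MRS

namespace D97

open Classical in
theorem tk_use {r1 r2 C1 N : ℝ} {P Q : ℝ} (hN : 0 < N)
    (TK : ∀ c : GaussianInt → ℂ, ∑ v ∈ Sh (r1 * N) (r2 * N), ‖∑ π ∈ sl 1 Q,
      c π * ((if π ∣ v then 1 else 0) - 1 / (nm π : ℂ))‖ ^ 2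
      ≤ C1 * N * ∑ π ∈ sl 1 Q, ‖c π‖ ^ 2 / (nm π : ℝ))
    (hP : 1 ≤ P) (hW : 0 < LL P Q) :
    ∑ v ∈ Sh (r1 * N) (r2 * N), (1 - om P Q v / LL P Q) ^ 2 ≤ C1 * N / LL P Q := by
  have hsub : (sl 1 Q).filter (fun π => π ∈ sl P Q) = sl P Q := by
    ext π
    rw [Finset.mem_filter]
    refine ⟨fun h => h.2, fun h => ⟨?_, h⟩⟩
    rw [mem_sl] at h ⊢
    exact ⟨h.1, h.2.1, h.2.2.1, hP.trans h.2.2.2.1, h.2.2.2.2⟩
  have h1 := TK (fun π => if π ∈ sl P Q then 1 else 0)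
  have h2 : ∑ π ∈ sl 1 Q, ‖(if π ∈ sl P Q then (1 : ℂ) else 0)‖ ^ 2 / (nm π : ℝ) = LL P Q := by
    unfold LL
    conv_rhs => rw [← hsub, Finset.sum_filter]
    refine Finset.sum_congr rfl fun π _ => ?_
    split_ifs <;> simp
  rw [h2] at h1
  have h3 : ∀ v : GaussianInt, ∑ π ∈ sl 1 Q, (if π ∈ sl P Q then (1 : ℂ) else 0) *
      ((if π ∣ v then 1 else 0) - 1 / (nm π : ℂ)) = ((om P Q v - LL P Q : ℝ) : ℂ) := by
    intro v
    have h4 : ∑ π ∈ sl 1 Q, (if π ∈ sl P Q then (1 : ℂ) else 0) *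
        ((if π ∣ v then 1 else 0) - 1 / (nm π : ℂ)) =
        ∑ π ∈ sl P Q, ((if π ∣ v then (1 : ℂ) else 0) - 1 / (nm π : ℂ)) := by
      conv_rhs => rw [← hsub, Finset.sum_filter]
      refine Finset.sum_congr rfl fun π _ => ?_
      split_ifs <;> simp
    rw [h4]
    unfold om LL
    rw [← Finset.sum_sub_distrib]
    push_cast
    refine Finset.sum_congr rfl fun π _ => ?_
    split_ifs <;> simp
  have h5 : ∀ v : GaussianInt, (1 - om P Q v / LL P Q) ^ 2 =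
      1 / LL P Q ^ 2 * ‖∑ π ∈ sl 1 Q, (if π ∈ sl P Q then (1 : ℂ) else 0) *
      ((if π ∣ v then 1 else 0) - 1 / (nm π : ℂ))‖ ^ 2 := by
    intro v
    rw [h3, Complex.norm_real, Real.norm_eq_abs, sq_abs]
    field_simp
    ring
  rw [Finset.sum_congr rfl (fun v _ => h5 v), ← Finset.mul_sum]
  calc 1 / LL P Q ^ 2 * ∑ v ∈ Sh (r1 * N) (r2 * N), ‖∑ π ∈ sl 1 Q,
        (if π ∈ sl P Q then (1 : ℂ) else 0) * ((if π ∣ v then 1 else 0) - 1 / (nm π : ℂ))‖ ^ 2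
      ≤ 1 / LL P Q ^ 2 * (C1 * N * LL P Q) := mul_le_mul_of_nonneg_left h1 (by positivity)
    _ = C1 * N / LL P Q := by
        field_simp

/-- first coefficient -/
noncomputable def aa (z : ℂ) (ψ : GaussianInt → ℂ) (r1 r2 : ℝ) (h u0 u1 : ℕ) (N W : ℝ)
    (v : GaussianInt) : ℂ :=
  gg z ψ v / N * (((if (nm v : ℝ) ≤ r2 * N then (1 : ℝ) else 0) -
    ss r1 r2 h u0 u1 N v / W : ℝ) : ℂ)

open Classical in
/-- second coefficient -/
noncomputable def bb (z : ℂ) (ψ : GaussianInt → ℂ) (r1 r2 : ℝ) (h u0 u1 : ℕ) (N W : ℝ)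
    (v : GaussianInt) : ℂ :=
  ∑ x ∈ ((II r1 r2 h u0 u1 N).filter (fun x => ¬ Pv (x.1 * x.2))).filter
      (fun x => cf x = v), gg z ψ (x.1 * x.2) / ((W : ℂ) * N * lam h x.1)

theorem exp_div_le {h : ℕ} (hh : 0 < h) : Real.exp (1 / h) ≤ Real.exp 1 := by
  rw [Real.exp_le_exp, div_le_one (by exact_mod_cast hh)]
  exact_mod_cast hh

theorem decomp (z : ℂ) {K : ℕ} {ψ : GaussianInt → ℂ} (hψ : Chr K ψ) {h u0 u1 : ℕ}
    (hh : 0 < h) {N : ℝ} (hN : 0 < N) {r1 r2 : ℝ} (hr1 : 0 < r1) (hr2 : 0 < r2) (j : ℤ)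
    {W : ℝ} (hW : 0 < W) :
    Mp z ψ r1 r2 N j - (1 / (W : ℂ)) * ∑ u ∈ Finset.Ico u0 u1,
      Qs z ψ h u j * Mp z ψ r1 r2 (N * Real.exp (-(u / h))) j =
    ∑ v ∈ (Sh (r1 * N) (Real.exp 1 * r2 * N)).filter Pv,
      aa z ψ r1 r2 h u0 u1 N W v * ag v ^ j -
    ∑ v ∈ (Sh 0 (Real.exp 1 * r2 * N)).filter Pv, bb z ψ r1 r2 h u0 u1 N W v * ag v ^ j := by
  classical
  have hexp1 : 1 ≤ Real.exp 1 := Real.one_le_exp (by norm_num)
  have hr2N : 0 < r2 * N := by positivity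
  have hr1N : 0 < r1 * N := by positivity
  rw [main_id z hψ hh hN hr2.le j (W : ℂ),
    ← Finset.sum_filter_add_sum_filter_not (II r1 r2 h u0 u1 N) (fun x => Pv (x.1 * x.2))]
  -- primitive products
  have hA : ∑ x ∈ (II r1 r2 h u0 u1 N).filter (fun x => Pv (x.1 * x.2)),
      gg z ψ (x.1 * x.2) / ((W : ℂ) * N * lam h x.1) * ag (x.1 * x.2) ^ j =
      ∑ v ∈ (Sh (r1 * N) (Real.exp 1 * r2 * N)).filter Pv,
        gg z ψ v / (W * N) * (ss r1 r2 h u0 u1 N v : ℂ) * ag v ^ j := by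
    rw [← Finset.sum_fiberwise_of_maps_to (g := fun x => x.1 * x.2)
      (t := (Sh (r1 * N) (Real.exp 1 * r2 * N)).filter Pv)]
    · refine Finset.sum_congr rfl fun v hv => ?_
      rw [Finset.mem_filter, mem_Sh] at hv
      rw [← fiberA z ψ hN hr2.le (W : ℂ) hv.1.1 hv.2, Finset.sum_mul]
      refine Finset.sum_congr rfl fun x hx => ?_
      rw [(Finset.mem_filter.1 hx).2]
    · intro x hx
      rw [Finset.mem_filter, II, Finset.mem_filter, Finset.mem_product] at hx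
      obtain ⟨⟨⟨h1, h2⟩, h3, h4, h5⟩, h6⟩ := hx
      have hp := (mem_sl.1 h1).2.2.1
      have hp' : (0 : ℝ) < nm x.1 := by exact_mod_cast hp.pos
      have hl := lam_bds hh hp.one_lt.le
      have hx0 : x.1 ≠ 0 := ne_zero_of_nm hp.pos
      have hy0 : x.2 ≠ 0 := (mem_Sh.1 h2).1
      rw [Finset.mem_filter, mem_Sh]
      have hnm : (nm (x.1 * x.2) : ℝ) = nm x.1 * nm x.2 := by rw [nm_mul]; push_cast; ring
      refine ⟨⟨mul_ne_zero hx0 hy0, ?_, ?_⟩, h6⟩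
      · rw [hnm]
        have h7 : r1 * N * lam h x.1 < nm x.1 * nm x.2 := by
          unfold lam
          nlinarith
        nlinarith [hl.1]
      · rw [hnm]
        have h7 : (nm x.1 : ℝ) * nm x.2 ≤ r2 * N * lam h x.1 := by
          unfold lam
          nlinarith
        have h8 := exp_div_le hh
        nlinarith [hl.2]
  -- conjugate pairs
  have hB : ∑ x ∈ (II r1 r2 h u0 u1 N).filter (fun x => ¬ Pv (x.1 * x.2)),
      gg z ψ (x.1 * x.2) / ((W : ℂ) * N * lam h x.1) * ag (x.1 * x.2) ^ j =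
      ∑ v ∈ (Sh 0 (Real.exp 1 * r2 * N)).filter Pv, bb z ψ r1 r2 h u0 u1 N W v * ag v ^ j := by
    rw [← Finset.sum_fiberwise_of_maps_to (g := cf)
      (t := (Sh 0 (Real.exp 1 * r2 * N)).filter Pv)]
    · refine Finset.sum_congr rfl fun v _ => ?_
      unfold bb
      rw [Finset.sum_mul]
      refine Finset.sum_congr rfl fun x hx => ?_
      rw [Finset.mem_filter] at hx
      have h1 := (cf_spec hx.1).1
      have hp : (nm x.1).Prime := by
        have h2 := hx.1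
        rw [Finset.mem_filter, II, Finset.mem_filter, Finset.mem_product] at h2
        exact (mem_sl.1 h2.1.1.1).2.2.1
      have h3 : ag (x.1 * x.2) = ag v := by
        conv_lhs => rw [h1]
        rw [ag_conj hp, hx.2]
      rw [h3]
    · intro x hx
      have h1 := cf_spec hx
      have h2 := cf_bound hr2.le hh hN hx
      rw [Finset.mem_filter, II, Finset.mem_filter, Finset.mem_product] at hx
      have hp := (mem_sl.1 hx.1.1.1).2.2.1
      have hp' : (1 : ℝ) ≤ nm x.1 := by exact_mod_cast hp.one_lt.le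
      rw [Finset.mem_filter, mem_Sh]
      refine ⟨⟨h1.2.2, by exact_mod_cast nm_pos h1.2.2, ?_⟩, h1.2.1⟩
      have h3 : (nm (cf x) : ℝ) ≤ (nm x.1 : ℝ) ^ 2 * nm (cf x) := by
        have : (1 : ℝ) ≤ (nm x.1 : ℝ) ^ 2 := one_le_pow₀ hp'
        nlinarith [Nat.cast_nonneg (α := ℝ) (nm (cf x))]
      linarith
  -- the sum itself
  have hM : Mp z ψ r1 r2 N j = ∑ v ∈ (Sh (r1 * N) (Real.exp 1 * r2 * N)).filter Pv,
      gg z ψ v / N * (if (nm v : ℝ) ≤ r2 * N then (1 : ℂ) else 0) * ag v ^ j := by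
    unfold Mp
    have hset : (Sh (r1 * N) (r2 * N)).filter Pv =
        ((Sh (r1 * N) (Real.exp 1 * r2 * N)).filter Pv).filter
          (fun v => (nm v : ℝ) ≤ r2 * N) := by
      ext v
      rw [Finset.mem_filter, Finset.mem_filter, Finset.mem_filter, mem_Sh, mem_Sh]
      constructor
      · rintro ⟨⟨h1, h2, h3⟩, h4⟩
        exact ⟨⟨⟨h1, h2, by nlinarith⟩, h4⟩, h3⟩
      · rintro ⟨⟨⟨h1, h2, h3⟩, h4⟩, h5⟩
        exact ⟨⟨h1, h2, h5⟩, h4⟩
    rw [hset, Finset.sum_filter, Finset.mul_sum]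
    refine Finset.sum_congr rfl fun v _ => ?_
    rw [FF_eq]
    split_ifs
    · ring
    · ring
  rw [hA, hB, hM, ← sub_sub, ← Finset.sum_sub_distrib]
  congr 1
  refine Finset.sum_congr rfl fun v _ => ?_
  unfold aa
  have h3 : (N : ℂ) ≠ 0 := by exact_mod_cast hN.ne'
  have h4 : (W : ℂ) ≠ 0 := by exact_mod_cast hW.ne'
  push_cast
  split_ifs
  · field_simp
    push_cast
    ring
  · field_simp
    push_cast
    ring

theorem coA {r1 r2 : ℝ} (hr1 : 0 < r1) (hr2 : 0 < r2) {z : ℂ} (hz : ‖z‖ = 1) {K : ℕ}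
    {ψ : GaussianInt → ℂ} (hψ : Chr K ψ) {h u0 u1 : ℕ} (hh : 0 < h) {N C1 E W : ℝ} (hN : 1 ≤ N)
    (hhN : (h : ℝ) ≤ N ^ (1 / 8 : ℝ)) (hE0 : 0 < E) (hW : 0 < W)
    (tk : ∑ v ∈ Sh (r1 * N) (E * N), (1 - om (Real.exp (u0 / h)) (Real.exp (u1 / h)) v / W) ^ 2 ≤
      C1 * N / W) :
    ∑ v ∈ (Sh (r1 * N) (E * N)).filter Pv, ‖aa z ψ r1 r2 h u0 u1 N W v‖ ^ 2 ≤
      1 / N * (15 * C1 / W + (144 * E + 24 * ((12 * r1 + 60 * (r1 + 1) + 24) +
        (12 * r2 + 60 * (r2 + 1) + 24))) / h) := by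
  classical
  have hNp : 0 < N := by linarith
  have hh' : (1 : ℝ) ≤ h := by exact_mod_cast hh
  have hhp : (0 : ℝ) < h := by linarith
  set SA := (Sh (r1 * N) (E * N)).filter Pv with hSA
  have h1 : ∀ v ∈ SA, ‖aa z ψ r1 r2 h u0 u1 N W v‖ ^ 2 ≤ 1 / N ^ 2 *
      (15 * (1 - om (Real.exp (u0 / h)) (Real.exp (u1 / h)) v / W) ^ 2 + 6 / h +
        24 * (if v ∈ Lay r1 r2 h N then 1 else 0)) := by
    intro v hv
    rw [hSA, Finset.mem_filter, mem_Sh] at hv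
    have h2 := coeff_bd (r2 := r2) (u0 := u0) (u1 := u1) hr1 hh hNp hW hv.1.1 hv.1.2.1
    unfold aa
    rw [norm_mul, norm_div, Complex.norm_real, Complex.norm_real, Real.norm_of_nonneg hNp.le,
      mul_pow, Real.norm_eq_abs, sq_abs]
    have h3 := norm_gg hz hψ v
    have h4 : (‖gg z ψ v‖ / N) ^ 2 ≤ 1 / N ^ 2 := by
      rw [div_pow]
      apply div_le_div_of_nonneg_right _ (by positivity)
      exact pow_le_one₀ (norm_nonneg _) h3
    exact mul_le_mul h4 h2 (sq_nonneg _) (by positivity)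
  refine (Finset.sum_le_sum h1).trans ?_
  rw [← Finset.mul_sum, Finset.sum_add_distrib, Finset.sum_add_distrib, ← Finset.mul_sum,
    ← Finset.mul_sum]
  have h2 : ∑ v ∈ SA, (1 - om (Real.exp (u0 / h)) (Real.exp (u1 / h)) v / W) ^ 2 ≤ C1 * N / W :=
    (Finset.sum_le_sum_of_subset_of_nonneg (Finset.filter_subset _ _)
      (fun v _ _ => sq_nonneg _)).trans tk
  have h3 : ∑ _v ∈ SA, 6 / (h : ℝ) ≤ 144 * E * (N / h) := by
    rw [Finset.sum_const, nsmul_eq_mul]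
    have h4 : (SA.card : ℝ) ≤ 24 * (E * N) := by
      refine le_trans ?_ (card_Sh_zero (by positivity))
      apply Nat.cast_le.2
      apply Finset.card_le_card
      intro v hv
      rw [hSA, Finset.mem_filter, mem_Sh] at hv
      rw [mem_Sh]
      exact ⟨hv.1.1, by exact_mod_cast nm_pos hv.1.1, hv.1.2.2⟩
    calc (SA.card : ℝ) * (6 / h) ≤ 24 * (E * N) * (6 / h) :=
          mul_le_mul_of_nonneg_right h4 (by positivity)
      _ = 144 * E * (N / h) := by ring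
  have h5 : ∑ v ∈ SA, (if v ∈ Lay r1 r2 h N then (1 : ℝ) else 0) ≤
      ((12 * r1 + 60 * (r1 + 1) + 24) + (12 * r2 + 60 * (r2 + 1) + 24)) * (N / h) := by
    rw [Finset.sum_ite_mem, Finset.sum_const, nsmul_eq_mul, mul_one]
    have h6 : ((SA ∩ Lay r1 r2 h N).card : ℝ) ≤
        ((Sh (r1 * N) (r1 * N * Real.exp (1 / h))).card : ℝ) +
          (Sh (r2 * N) (r2 * N * Real.exp (1 / h))).card := by
      have h7 := Finset.card_le_card (Finset.inter_subset_right (s₁ := SA)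
        (s₂ := Lay r1 r2 h N))
      have h8 := Finset.card_union_le (Sh (r1 * N) (r1 * N * Real.exp (1 / h)))
        (Sh (r2 * N) (r2 * N * Real.exp (1 / h)))
      exact_mod_cast h7.trans h8
    have h7 := card_layer hr1 hh hN hhN
    have h8 := card_layer hr2 hh hN hhN
    calc ((SA ∩ Lay r1 r2 h N).card : ℝ) ≤ _ := h6
      _ ≤ (12 * r1 + 60 * (r1 + 1) + 24) * (N / h) +
          (12 * r2 + 60 * (r2 + 1) + 24) * (N / h) := add_le_add h7 h8
      _ = _ := by ring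
  set S1 := ∑ v ∈ SA, (1 - om (Real.exp (u0 / h)) (Real.exp (u1 / h)) v / W) ^ 2
  set S3 := ∑ v ∈ SA, (if v ∈ Lay r1 r2 h N then (1 : ℝ) else 0)
  set k := (12 * r1 + 60 * (r1 + 1) + 24) + (12 * r2 + 60 * (r2 + 1) + 24)
  calc 1 / N ^ 2 * (15 * S1 + ∑ _v ∈ SA, 6 / (h : ℝ) + 24 * S3)
      ≤ 1 / N ^ 2 * (15 * (C1 * N / W) + 144 * E * (N / h) + 24 * (k * (N / h))) := by
        apply mul_le_mul_of_nonneg_left _ (by positivity)
        linarith
    _ = 1 / N * (15 * C1 / W + (144 * E + 24 * k) / h) := by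
        field_simp
        ring

theorem coB {r1 r2 : ℝ} (hr2 : 0 < r2) {z : ℂ} (hz : ‖z‖ = 1) {K : ℕ}
    {ψ : GaussianInt → ℂ} (hψ : Chr K ψ) {h u0 u1 : ℕ} (hh : 0 < h) {N : ℝ} (hN : 1 ≤ N)
    (hW : 0 < LL (Real.exp (u0 / h)) (Real.exp (u1 / h))) :
    ∑ v ∈ (Sh 0 (Real.exp 1 * r2 * N)).filter Pv,
      ‖bb z ψ r1 r2 h u0 u1 N (LL (Real.exp (u0 / h)) (Real.exp (u1 / h))) v‖ ^ 2 ≤
      1 / N * (1152 * (Real.exp 1 * r2) / LL (Real.exp (u0 / h)) (Real.exp (u1 / h))) := by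
  classical
  have hNp : 0 < N := by linarith
  have he0 : 0 < Real.exp 1 := Real.exp_pos 1
  set P := Real.exp (u0 / h)
  set Q := Real.exp (u1 / h)
  have h1 : ∀ v ∈ (Sh 0 (Real.exp 1 * r2 * N)).filter Pv,
      ‖bb z ψ r1 r2 h u0 u1 N (LL P Q) v‖ ^ 2 ≤ (1 / (LL P Q * N)) ^ 2 *
      TT P Q (r2 * Real.exp 1 * N) v ^ 2 := by
    intro v _
    have h2 := fiberB (r1 := r1) (u0 := u0) (u1 := u1) hz hψ hh hNp hr2.le hW v
    rw [← mul_pow]
    exact pow_le_pow_left₀ (norm_nonneg _) h2 2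
  refine (Finset.sum_le_sum h1).trans ?_
  rw [← Finset.mul_sum]
  have h2 : ∑ v ∈ (Sh 0 (Real.exp 1 * r2 * N)).filter Pv, TT P Q (r2 * Real.exp 1 * N) v ^ 2 ≤
      1152 * (r2 * Real.exp 1 * N) * LL P Q := by
    refine sum_TT (by positivity) _ ?_
    intro v hv
    rw [Finset.mem_filter, mem_Sh] at hv
    exact hv.1.1
  refine (mul_le_mul_of_nonneg_left h2 (by positivity)).trans (le_of_eq ?_)
  field_simp

end D97

open D97 in
theorem stDec2_97 (hTK : StTK) (hLS : StLsp) : StDec2 := by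
  intro r1 r2 hr1 hr12 z K ψ hz hK hψ
  have hr2 : 0 < r2 := hr1.trans hr12
  have hexp1 : 1 ≤ Real.exp 1 := Real.one_le_exp (by norm_num)
  have he0 : 0 < Real.exp 1 := Real.exp_pos 1
  obtain ⟨C1, hC1, TK⟩ := hTK r1 (Real.exp 1 * r2) hr1.le (by nlinarith)
  obtain ⟨C2, hC2, LS⟩ := hLS
  have hE0 : 0 < Real.exp 1 * r2 := by positivity
  obtain ⟨E, hE⟩ : ∃ E, E = Real.exp 1 * r2 := ⟨_, rfl⟩
  obtain ⟨c3, hc3⟩ : ∃ c3, c3 = 144 * E + 24 * ((12 * r1 + 60 * (r1 + 1) + 24) +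
    (12 * r2 + 60 * (r2 + 1) + 24)) := ⟨_, rfl⟩
  rw [← hE] at hE0
  have hc30 : 0 < c3 := by rw [hc3]; positivity
  refine ⟨2 * (C2 * (E + 1)) * (15 * C1 + c3 + 1152 * E) + 1, max 1 (1 / E), by positivity,
    le_max_left _ _, ?_⟩
  intro h u0 u1 N hh h3u hu hN0 hhN hQN hW1 J hJ
  have hN : 1 ≤ N := (le_max_left _ _).trans hN0
  have hNp : 0 < N := by linarith
  have hEN : 1 ≤ E * N := by
    have h1 : 1 / E ≤ N := (le_max_right _ _).trans hN0
    rw [div_le_iff₀ hE0] at h1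
    linarith
  have hW : 0 < LL (Real.exp (u0 / h)) (Real.exp (u1 / h)) := by linarith
  have hP : 1 ≤ Real.exp ((u0 : ℝ) / h) := Real.one_le_exp (by positivity)
  have hQ : 1 ≤ Real.exp ((u1 : ℝ) / h) := Real.one_le_exp (by positivity)
  have tk := tk_use hNp (fun c => TK N hN c _ hQ hQN) hP hW
  have hcoA := coA hr1 hr2 hz hψ hh hN hhN (by rw [← hE]; exact hE0) hW tk
  have hcoB := coB (r1 := r1) hr2 hz hψ hh hN hW
  have hdec := fun j => decomp z hψ (u0 := u0) (u1 := u1) hh hNp hr1 hr2 j hW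
  rw [← hE] at hcoA hcoB hdec
  rw [← hc3] at hcoA
  generalize LL (Real.exp (u0 / h)) (Real.exp (u1 / h)) = W at *
  generalize aa z ψ r1 r2 h u0 u1 N W = a at *
  generalize bb z ψ r1 r2 h u0 u1 N W = b at *
  -- large sieve
  have hXJ : E * N + J ≤ (E + 1) * N := by linarith
  have lsA := LS (E * N) J hEN ((Sh (r1 * N) (E * N)).filter Pv) (by
    intro v hv
    rw [Finset.mem_filter, mem_Sh] at hv
    exact ⟨hv.2, hv.1.2.2⟩) a
  have lsB := LS (E * N) J hEN ((Sh 0 (E * N)).filter Pv) (by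
    intro v hv
    rw [Finset.mem_filter, mem_Sh] at hv
    exact ⟨hv.2, hv.1.2.2⟩) b
  generalize (Sh (r1 * N) (E * N)).filter Pv = SA at *
  generalize (Sh 0 (E * N)).filter Pv = SB at *
  have hA2 : ∑ j ∈ js J, ‖∑ v ∈ SA, a v * ag v ^ j‖ ^ 2 ≤
      C2 * (E + 1) * (15 * C1 / W + c3 / h) := by
    refine lsA.trans ?_
    calc C2 * (E * N + J) * ∑ v ∈ SA, ‖a v‖ ^ 2
        ≤ C2 * ((E + 1) * N) * (1 / N * (15 * C1 / W + c3 / h)) := by
          apply mul_le_mul _ hcoA (Finset.sum_nonneg fun v _ => sq_nonneg _) (by positivity)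
          exact mul_le_mul_of_nonneg_left hXJ hC2.le
      _ = C2 * (E + 1) * (15 * C1 / W + c3 / h) := by
          field_simp
  have hB2 : ∑ j ∈ js J, ‖∑ v ∈ SB, b v * ag v ^ j‖ ^ 2 ≤ C2 * (E + 1) * (1152 * E / W) := by
    refine lsB.trans ?_
    calc C2 * (E * N + J) * ∑ v ∈ SB, ‖b v‖ ^ 2
        ≤ C2 * ((E + 1) * N) * (1 / N * (1152 * E / W)) := by
          apply mul_le_mul _ hcoB (Finset.sum_nonneg fun v _ => sq_nonneg _) (by positivity)
          exact mul_le_mul_of_nonneg_left hXJ hC2.le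
      _ = C2 * (E + 1) * (1152 * E / W) := by
          field_simp
  have hstep : ∀ j ∈ js J, ‖Mp z ψ r1 r2 N j - (1 / (W : ℂ)) * ∑ u ∈ Finset.Ico u0 u1,
      Qs z ψ h u j * Mp z ψ r1 r2 (N * Real.exp (-(u / h))) j‖ ^ 2 ≤
      2 * ‖∑ v ∈ SA, a v * ag v ^ j‖ ^ 2 + 2 * ‖∑ v ∈ SB, b v * ag v ^ j‖ ^ 2 := by
    intro j _
    rw [hdec j]
    have h1 := norm_sub_le (∑ v ∈ SA, a v * ag v ^ j) (∑ v ∈ SB, b v * ag v ^ j)
    have h2 := pow_le_pow_left₀ (norm_nonneg _) h1 2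
    refine h2.trans ?_
    have h3 := sq_nonneg (‖∑ v ∈ SA, a v * ag v ^ j‖ - ‖∑ v ∈ SB, b v * ag v ^ j‖)
    linarith
  refine (Finset.sum_le_sum hstep).trans ?_
  rw [Finset.sum_add_distrib, ← Finset.mul_sum, ← Finset.mul_sum]
  have hh' : (1 : ℝ) ≤ h := by exact_mod_cast hh
  have hhp : (0 : ℝ) < h := by linarith
  have e5 : 0 ≤ 1 / W + 1 / h + h / u0 := by positivity
  have e1 : 15 * C1 / W + c3 / h + 1152 * E / W ≤
      (15 * C1 + c3 + 1152 * E) * (1 / W + 1 / h + h / u0) := by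
    have p1 : 0 ≤ c3 * (1 / W) := by positivity
    have p2 : 0 ≤ (15 * C1 + 1152 * E) * (1 / h) := by positivity
    have p3 : 0 ≤ (15 * C1 + c3 + 1152 * E) * (h / u0) := by positivity
    have e6 : (15 * C1 + c3 + 1152 * E) * (1 / W + 1 / h + h / u0) =
        (15 * C1 / W + c3 / h + 1152 * E / W) + c3 * (1 / W) +
        (15 * C1 + 1152 * E) * (1 / h) + (15 * C1 + c3 + 1152 * E) * (h / u0) := by ring
    rw [e6]
    linarith
  calc 2 * ∑ j ∈ js J, ‖∑ v ∈ SA, a v * ag v ^ j‖ ^ 2 +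
        2 * ∑ j ∈ js J, ‖∑ v ∈ SB, b v * ag v ^ j‖ ^ 2
      ≤ 2 * (C2 * (E + 1)) * (15 * C1 / W + c3 / h + 1152 * E / W) := by linarith
    _ ≤ 2 * (C2 * (E + 1)) * ((15 * C1 + c3 + 1152 * E) * (1 / W + 1 / h + h / u0)) :=
        mul_le_mul_of_nonneg_left e1 (by positivity)
    _ ≤ (2 * (C2 * (E + 1)) * (15 * C1 + c3 + 1152 * E) + 1) * (1 / W + 1 / h + h / u0) := by
        linarith

end Pool.Agent.Lib.MP_a17b09_nt.MRS
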