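import Pool.Agent.Lib.MP_a17b09_nt.MRS.DecB97

/-!
Project MRS, decomposition by slices (97): `StDec2` from `StTK` and `StLsp`.
-/

set_option autoImplicit false

open Filter Topology Finset

namespace Pool.Agent.Lib.MP_a17b09_nt.MRS

namespace D97

/-- pairs: order them by norm -/
theorem card_sq_le {α : Type} [DecidableEq α] (F : Finset α) (f : α → ℝ) :
    (F.card : ℝ) ^ 2 ≤ 2 * ∑ b ∈ F, ((F.filter (fun a => f a ≤ f b)).card : ℝ) := by
  classical
  have h1 : (F.card : ℝ) ^ 2 = ∑ b ∈ F, ∑ _a ∈ F, (1 : ℝ) := by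
    simp only [Finset.sum_const, nsmul_eq_mul, mul_one]
    ring
  have h2 : ∀ b, ((F.filter (fun a => f a ≤ f b)).card : ℝ) =
      ∑ a ∈ F, if f a ≤ f b then (1 : ℝ) else 0 := by
    intro b
    rw [Finset.card_filter]
    push_cast
    rfl
  have h3 : ∑ b ∈ F, ∑ a ∈ F, (if f a ≤ f b then (1 : ℝ) else 0) =
      ∑ b ∈ F, ∑ a ∈ F, (if f b ≤ f a then (1 : ℝ) else 0) := Finset.sum_comm
  have h4 : ∑ b ∈ F, ∑ _a ∈ F, (1 : ℝ) ≤
      ∑ b ∈ F, ∑ a ∈ F, ((if f a ≤ f b then (1 : ℝ) else 0) +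
        (if f b ≤ f a then (1 : ℝ) else 0)) := by
    refine Finset.sum_le_sum fun b _ => Finset.sum_le_sum fun a _ => ?_
    rcases le_total (f a) (f b) with h | h
    · rw [if_pos h]
      split_ifs <;> norm_num
    · rw [if_pos h]
      split_ifs <;> norm_num
  simp only [Finset.sum_add_distrib] at h4
  rw [← h3] at h4
  simp only [h2]
  rw [h1]
  linarith

theorem sum_TT {P Q R : ℝ} (hR : 0 ≤ R) (S : Finset GaussianInt) (hS : ∀ v ∈ S, v ≠ 0) :
    ∑ v ∈ S, TT P Q R v ^ 2 ≤ 1152 * R * LL P Q := by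
  classical
  have h1 : ∀ v ∈ S, TT P Q R v ^ 2 ≤ 2 * ∑ b ∈ sl P Q,
      if (nm b : ℝ) ^ 2 * nm v ≤ R then 24 * (nm b : ℝ) else 0 := by
    intro v _
    unfold TT
    refine (card_sq_le _ (fun a => (nm a : ℝ))).trans ?_
    refine mul_le_mul_of_nonneg_left ?_ (by norm_num)
    rw [← Finset.sum_filter]
    refine Finset.sum_le_sum fun b hb => ?_
    have h2 : ((((sl P Q).filter (fun π => (nm π : ℝ) ^ 2 * nm v ≤ R)).filter
        (fun a => (nm a : ℝ) ≤ nm b)).card : ℝ) ≤ (Sh 0 (nm b)).card := by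
      have : ((sl P Q).filter (fun π => (nm π : ℝ) ^ 2 * nm v ≤ R)).filter
        (fun a => (nm a : ℝ) ≤ nm b) ⊆ Sh 0 (nm b) := by
        intro a ha
        rw [Finset.mem_filter, Finset.mem_filter] at ha
        have hp := (mem_sl.1 ha.1.1).2.2.1
        rw [mem_Sh]
        exact ⟨ne_zero_of_nm hp.pos, by exact_mod_cast hp.pos, ha.2⟩
      exact Nat.cast_le.2 (Finset.card_le_card this)
    exact h2.trans (card_Sh_zero (Nat.cast_nonneg _))
  refine (Finset.sum_le_sum h1).trans ?_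
  rw [← Finset.mul_sum, Finset.sum_comm]
  have h3 : ∀ b ∈ sl P Q, ∑ v ∈ S, (if (nm b : ℝ) ^ 2 * nm v ≤ R then 24 * (nm b : ℝ) else 0) ≤
      576 * R * (1 / (nm b : ℝ)) := by
    intro b hb
    have hp := (mem_sl.1 hb).2.2.1
    have hp' : (0 : ℝ) < nm b := by exact_mod_cast hp.pos
    rw [← Finset.sum_filter, Finset.sum_const, nsmul_eq_mul]
    have h4 : (((S.filter (fun v => (nm b : ℝ) ^ 2 * nm v ≤ R)).card : ℕ) : ℝ) ≤
        24 * (R / (nm b : ℝ) ^ 2) := by
      refine le_trans ?_ (card_Sh_zero (by positivity : 0 ≤ R / (nm b : ℝ) ^ 2))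
      have : S.filter (fun v => (nm b : ℝ) ^ 2 * nm v ≤ R) ⊆ Sh 0 (R / (nm b : ℝ) ^ 2) := by
        intro v hv
        rw [Finset.mem_filter] at hv
        rw [mem_Sh]
        refine ⟨hS v hv.1, by exact_mod_cast nm_pos (hS v hv.1), ?_⟩
        rw [le_div_iff₀ (by positivity)]
        linarith [hv.2]
      exact Nat.cast_le.2 (Finset.card_le_card this)
    calc (((S.filter (fun v => (nm b : ℝ) ^ 2 * nm v ≤ R)).card : ℕ) : ℝ) * (24 * (nm b : ℝ))
        ≤ 24 * (R / (nm b : ℝ) ^ 2) * (24 * (nm b : ℝ)) :=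
          mul_le_mul_of_nonneg_right h4 (by positivity)
      _ = 576 * R * (1 / (nm b : ℝ)) := by
          field_simp
          ring
  have h5 := Finset.sum_le_sum h3
  rw [← Finset.mul_sum] at h5
  unfold LL
  linarith

/-- the layers near the boundary -/
noncomputable def Lay (r1 r2 : ℝ) (h : ℕ) (N : ℝ) : Finset GaussianInt :=
  Sh (r1 * N) (r1 * N * Real.exp (1 / h)) ∪ Sh (r2 * N) (r2 * N * Real.exp (1 / h))

open Classical in
/-- the pointwise bound of the coefficients -/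
theorem coeff_bd {r1 r2 : ℝ} (hr1 : 0 < r1) {h u0 u1 : ℕ} (hh : 0 < h) {N : ℝ}
    (hN : 0 < N) {W : ℝ} (hW : 0 < W) {v : GaussianInt} (hv0 : v ≠ 0)
    (hv1 : r1 * N < nm v) :
    ((if (nm v : ℝ) ≤ r2 * N then 1 else 0) - ss r1 r2 h u0 u1 N v / W) ^ 2 ≤
      15 * (1 - om (Real.exp (u0 / h)) (Real.exp (u1 / h)) v / W) ^ 2 + 6 / h +
        24 * (if v ∈ Lay r1 r2 h N then 1 else 0) := by
  set P := Real.exp (u0 / h)
  set Q := Real.exp (u1 / h)
  have hh' : (1 : ℝ) ≤ h := by exact_mod_cast hh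
  have hom : om P Q v = (((sl P Q).filter (fun π => π ∣ v)).card : ℝ) := by
    unfold om
    rw [Finset.card_filter]
    push_cast
    rfl
  have hω : 0 ≤ om P Q v := by rw [hom]; positivity
  set ω := om P Q v
  set s := ss r1 r2 h u0 u1 N v with hs
  -- bounds of s
  have hlam : ∀ π ∈ sl P Q, 1 ≤ lam h π ∧ lam h π < Real.exp (1 / h) := by
    intro π hπ
    exact lam_bds hh (mem_sl.1 hπ).2.2.1.one_lt.le
  have hs0 : 0 ≤ s := by
    rw [hs]
    unfold ss
    refine Finset.sum_nonneg fun π hπ => ?_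
    have := (hlam π (Finset.mem_filter.1 hπ).1).1
    positivity
  have hs1 : s ≤ ω := by
    rw [hs, hom]
    unfold ss
    have h1 : ∑ π ∈ (sl P Q).filter (fun π => π ∣ v ∧ r1 * N * lam h π < nm v ∧
        (nm v : ℝ) ≤ r2 * N * lam h π), 1 / lam h π ≤
        ∑ π ∈ (sl P Q).filter (fun π => π ∣ v ∧ r1 * N * lam h π < nm v ∧
        (nm v : ℝ) ≤ r2 * N * lam h π), (1 : ℝ) := by
      refine Finset.sum_le_sum fun π hπ => ?_
      have := (hlam π (Finset.mem_filter.1 hπ).1).1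
      rw [div_le_one (by linarith)]
      exact this
    refine h1.trans ?_
    rw [Finset.sum_const, nsmul_eq_mul, mul_one]
    have : (sl P Q).filter (fun π => π ∣ v ∧ r1 * N * lam h π < nm v ∧
        (nm v : ℝ) ≤ r2 * N * lam h π) ⊆ (sl P Q).filter (fun π => π ∣ v) := by
      intro π hπ
      rw [Finset.mem_filter] at hπ ⊢
      exact ⟨hπ.1, hπ.2.1⟩
    exact_mod_cast Finset.card_le_card this
  have hi0 : (0 : ℝ) ≤ 1 / h := by positivity
  have hi1 : 1 / (h : ℝ) ≤ 1 := by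
    rw [div_le_one (by linarith)]
    exact hh'
  have hdiv : 6 / (h : ℝ) = 6 * (1 / h) := by ring
  rw [hdiv]
  by_cases hL : v ∈ Lay r1 r2 h N
  · rw [if_pos hL]
    -- |ind - s/W| ≤ 1 + ω/W
    have h1 : 0 ≤ s / W := by positivity
    have h2 : s / W ≤ ω / W := div_le_div_of_nonneg_right hs1 hW.le
    have h3 : ((if (nm v : ℝ) ≤ r2 * N then (1 : ℝ) else 0) - s / W) ^ 2 ≤ (1 + ω / W) ^ 2 := by
      apply sq_le_sq'
      · split_ifs <;> linarith
      · split_ifs <;> linarith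
    nlinarith [sq_nonneg (1 - ω / W), sq_nonneg (1 + (1 - ω / W))]
  · rw [if_neg hL]
    unfold Lay at hL
    rw [Finset.mem_union, mem_Sh, mem_Sh] at hL
    push Not at hL
    obtain ⟨hL1, hL2⟩ := hL
    have hL3 := hL1 hv0 hv1
    by_cases hc : (nm v : ℝ) ≤ r2 * N
    · rw [if_pos hc]
      -- core: all primes count
      have hset : (sl P Q).filter (fun π => π ∣ v ∧ r1 * N * lam h π < nm v ∧
          (nm v : ℝ) ≤ r2 * N * lam h π) = (sl P Q).filter (fun π => π ∣ v) := by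
        ext π
        rw [Finset.mem_filter, Finset.mem_filter]
        refine ⟨fun hx => ⟨hx.1, hx.2.1⟩, fun hx => ⟨hx.1, hx.2, ?_, ?_⟩⟩
        · have h1 := (hlam π hx.1).2
          have h2 : 0 < r1 * N := by positivity
          nlinarith
        · have h1 := (hlam π hx.1).1
          have h2 : 0 ≤ r2 * N := by
            have := Nat.cast_nonneg (α := ℝ) (nm v)
            linarith
          nlinarith
      have hs2 : ω * (1 - 1 / h) ≤ s := by
        rw [hs, hom]
        unfold ss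
        rw [hset]
        have h1 : ∑ π ∈ (sl P Q).filter (fun π => π ∣ v), (1 - 1 / (h : ℝ)) ≤
            ∑ π ∈ (sl P Q).filter (fun π => π ∣ v), 1 / lam h π := by
          refine Finset.sum_le_sum fun π hπ => ?_
          obtain ⟨h2, h3⟩ := hlam π (Finset.mem_filter.1 hπ).1
          have h4 : 1 - 1 / (h : ℝ) ≤ Real.exp (-(1 / h)) := by
            have := Real.add_one_le_exp (-(1 / (h : ℝ)))
            linarith
          refine h4.trans ?_
          rw [Real.exp_neg, one_div (lam h π)]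
          exact inv_anti₀ (by linarith) h3.le
        rw [Finset.sum_const, nsmul_eq_mul] at h1
        exact h1
      have h1 : s / W ≤ ω / W := div_le_div_of_nonneg_right hs1 hW.le
      have h2 : ω / W * (1 - 1 / h) ≤ s / W := by
        rw [div_mul_eq_mul_div]
        exact div_le_div_of_nonneg_right hs2 hW.le
      have h3 : 0 ≤ ω / W := by positivity
      set t := ω / W
      set q := s / W
      set i := 1 / (h : ℝ)
      -- 1 - q = (1 - t) + (t - q), 0 ≤ t - q ≤ t i
      have h4 : 0 ≤ t - q := by linarith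
      have h5 : t - q ≤ t * i := by nlinarith
      have h6 : (t - q) ^ 2 ≤ t ^ 2 * i := by
        have h7 : (t - q) ^ 2 ≤ (t * i) ^ 2 := by
          apply sq_le_sq'
          · nlinarith
          · exact h5
        have h8 : (t * i) ^ 2 ≤ t ^ 2 * i := by
          have : i ^ 2 ≤ i := by nlinarith
          nlinarith [sq_nonneg t]
        linarith
      have h9 : (1 - q) ^ 2 ≤ 2 * (1 - t) ^ 2 + 2 * (t - q) ^ 2 := by
        nlinarith [sq_nonneg ((1 - t) - (t - q))]
      have h10 : t ^ 2 ≤ 2 + 2 * (1 - t) ^ 2 := by nlinarith [sq_nonneg (2 - t)]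
      have h11 : t ^ 2 * i ≤ (2 + 2 * (1 - t) ^ 2) * i := mul_le_mul_of_nonneg_right h10 hi0
      have h12 : (1 - t) ^ 2 * i ≤ (1 - t) ^ 2 := mul_le_of_le_one_right (sq_nonneg _) hi1
      have h13 : (2 + 2 * (1 - t) ^ 2) * i = 2 * i + 2 * ((1 - t) ^ 2 * i) := by ring
      rw [h13] at h11
      linarith [sq_nonneg (1 - t)]
    · rw [if_neg hc]
      push Not at hc
      have hL4 := hL2 hv0 hc
      have hset : (sl P Q).filter (fun π => π ∣ v ∧ r1 * N * lam h π < nm v ∧
          (nm v : ℝ) ≤ r2 * N * lam h π) = ∅ := by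
        rw [Finset.filter_eq_empty_iff]
        rintro π hπ ⟨_, _, h3⟩
        have h1 := hlam π hπ
        rcases le_or_gt (r2 * N) 0 with h4 | h4
        · have h5 : r2 * N * lam h π ≤ 0 := mul_nonpos_of_nonpos_of_nonneg h4 (by linarith)
          have h6 : (1 : ℝ) ≤ nm v := by exact_mod_cast nm_pos hv0
          linarith
        · nlinarith
      have hs2 : s = 0 := by
        rw [hs]
        unfold ss
        rw [hset, Finset.sum_empty]
      rw [hs2]
      have : (0 - 0 / W : ℝ) ^ 2 = 0 := by simp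
      rw [this]
      positivity

theorem exp_layer {h : ℕ} (hh : 0 < h) : Real.exp (1 / h) - 1 ≤ 3 / h := by
  have hh' : (1 : ℝ) ≤ h := by exact_mod_cast hh
  have h0 : (0 : ℝ) ≤ 1 / h := by positivity
  have h1 : 1 / (h : ℝ) ≤ 1 := by
    rw [div_le_one (by linarith)]
    exact hh'
  have h2 : Real.exp (1 / h) - 1 ≤ (1 / h) * Real.exp (1 / h) := by
    have h3 := Real.add_one_le_exp (-(1 / (h : ℝ)))
    have h4 := Real.exp_pos (1 / (h : ℝ))
    have h5 : Real.exp (-(1 / (h : ℝ))) * Real.exp (1 / h) = 1 := by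
      rw [← Real.exp_add]; simp
    nlinarith
  have h3 : Real.exp (1 / (h : ℝ)) ≤ 3 := by
    have := Real.exp_le_exp.2 h1
    have h4 := Real.exp_one_lt_d9
    linarith
  have h5 : (3 : ℝ) / h = 1 / h * 3 := by ring
  rw [h5]
  nlinarith

theorem card_layer {r : ℝ} (hr : 0 < r) {h : ℕ} (hh : 0 < h) {N : ℝ} (hN : 1 ≤ N)
    (hhN : (h : ℝ) ≤ N ^ (1 / 8 : ℝ)) :
    ((Sh (r * N) (r * N * Real.exp (1 / h))).card : ℝ) ≤ (12 * r + 60 * (r + 1) + 24) * (N / h) := by
  have hh' : (1 : ℝ) ≤ h := by exact_mod_cast hh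
  have hN0 : 0 < N := by linarith
  have hrN : 0 < r * N := by positivity
  have h1 := exp_layer hh
  have hexp1 : 1 ≤ Real.exp (1 / (h : ℝ)) := Real.one_le_exp (by positivity)
  have h2 := card_Sh_thin (a := r * N) (b := r * N * Real.exp (1 / h)) hrN.le (by nlinarith)
  have h3 : Real.exp (1 / (h : ℝ)) ≤ 3 := by
    have h4 : 3 / (h : ℝ) ≤ 3 := by
      rw [div_le_iff₀ (by linarith)]
      linarith
    have h0 : 1 / (h : ℝ) ≤ 1 := by
      rw [div_le_one (by linarith)]
      exact hh'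
    have := Real.exp_le_exp.2 h0
    have h4 := Real.exp_one_lt_d9
    linarith
  -- √N ≤ N / h
  have h4 : N ^ (1 / 8 : ℝ) ≤ √N := by
    rw [Real.sqrt_eq_rpow]
    exact Real.rpow_le_rpow_of_exponent_le hN (by norm_num)
  have h5 : √N ≤ N / h := by
    rw [le_div_iff₀ (by linarith)]
    have h6 : (h : ℝ) ≤ √N := hhN.trans h4
    have h7 := Real.sqrt_nonneg N
    nlinarith [Real.mul_self_sqrt hN0.le]
  have h1N : 1 ≤ N / h := by
    refine le_trans ?_ h5
    rw [show (1 : ℝ) = √1 by simp]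
    exact Real.sqrt_le_sqrt hN
  have h8 : √(r * N * Real.exp (1 / h)) ≤ 3 * (r + 1) * √N := by
    rw [Real.sqrt_le_left (by positivity)]
    rw [mul_pow, Real.sq_sqrt hN0.le]
    have h9 : r * N * Real.exp (1 / h) ≤ 3 * (r * N) := by nlinarith
    nlinarith [mul_pos hr hN0]
  have h9 : r * N * Real.exp (1 / h) - r * N ≤ 3 * r * (N / h) := by
    have : r * N * Real.exp (1 / h) - r * N = r * N * (Real.exp (1 / h) - 1) := by ring
    rw [this]
    have h10 : r * N * (Real.exp (1 / h) - 1) ≤ r * N * (3 / h) :=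
      mul_le_mul_of_nonneg_left h1 hrN.le
    have h11 : r * N * (3 / h) = 3 * r * (N / h) := by ring
    linarith
  have h12 : 3 * (r + 1) * √N ≤ 3 * (r + 1) * (N / h) :=
    mul_le_mul_of_nonneg_left h5 (by positivity)
  nlinarith

end D97

end Pool.Agent.Lib.MP_a17b09_nt.MRS
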