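import Pool.Agent.Lib.MP_a17b09_nt.MRS.StmtsL27
import Pool.Agent.Lib.MP_a17b09_nt.MRS.Tk84

/-!
Project MRS, decomposition by slices (97), first part: counts, the window of a prime, the main sum
as a sum over pairs.
-/

set_option autoImplicit false

open Filter Topology Finset

namespace Pool.Agent.Lib.MP_a17b09_nt.MRS

namespace D97

theorem mem_sl {a b : ℝ} {v : GaussianInt} : v ∈ sl a b ↔
    0 < v.re ∧ 0 < v.im ∧ (nm v).Prime ∧ a ≤ nm v ∧ (nm v : ℝ) < b := by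
  unfold sl
  rw [Finset.mem_filter, mem_Sh]
  refine ⟨fun h => h.2, fun h => ⟨⟨?_, ?_, h.2.2.2.2.le⟩, h⟩⟩
  · intro h0
    rw [h0] at h
    exact absurd h.1 (by simp)
  · exact_mod_cast h.2.2.1.pos

theorem nm_pos {v : GaussianInt} (h : v ≠ 0) : 0 < nm v := Nat.pos_of_ne_zero (mt nm_eq_zero.1 h)

theorem ne_zero_of_nm {v : GaussianInt} (h : 0 < nm v) : v ≠ 0 := by
  rintro rfl
  simp [nm] at h

theorem card_Sh_zero {b : ℝ} (hb : 0 ≤ b) : ((Sh 0 b).card : ℝ) ≤ 24 * b := by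
  rcases lt_or_ge b 1 with h | h
  · have h1 : Sh 0 b = ∅ := by
      rw [Finset.eq_empty_iff_forall_notMem]
      intro v hv
      rw [mem_Sh] at hv
      have h1 : 0 < nm v := nm_pos hv.1
      have h2 : (1 : ℝ) ≤ nm v := by exact_mod_cast h1
      linarith [hv.2.2]
    rw [h1, Finset.card_empty, Nat.cast_zero]
    positivity
  · have h1 : Sh 0 b ⊆ Tk84.gball ⌊b⌋₊ := by
      intro v hv
      rw [mem_Sh] at hv
      rw [Tk84.mem_gball]
      exact Nat.le_floor hv.2.2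
    have h2 := Finset.card_le_card h1
    have h3 := Tk84.card_le ⌊b⌋₊ (Nat.le_floor (by simpa using h))
    have h4 : ((⌊b⌋₊ : ℕ) : ℝ) ≤ b := Nat.floor_le (by linarith)
    have h5 : ((Sh 0 b).card : ℝ) ≤ (Tk84.gball ⌊b⌋₊).card := by exact_mod_cast h2
    linarith

theorem card_Sh_thin {a b : ℝ} (ha : 0 ≤ a) (hab : a ≤ b) :
    ((Sh a b).card : ℝ) ≤ 4 * (b - a + 1) + 20 * (√b + 1) := by
  have hb : 0 ≤ b := ha.trans hab
  have h1 : Sh a b ⊆ Tk84.gball ⌊b⌋₊ \ Tk84.gball ⌊a⌋₊ := by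
    intro v hv
    rw [mem_Sh] at hv
    rw [Finset.mem_sdiff, Tk84.mem_gball, Tk84.mem_gball]
    refine ⟨Nat.le_floor hv.2.2, ?_⟩
    rw [not_le]
    exact (Nat.floor_lt ha).2 hv.2.1
  have h2 : Tk84.gball ⌊a⌋₊ ⊆ Tk84.gball ⌊b⌋₊ := by
    intro v hv
    rw [Tk84.mem_gball] at hv ⊢
    exact hv.trans (Nat.floor_le_floor hab)
  have h3 := Finset.card_le_card h1
  rw [Finset.card_sdiff_of_subset h2] at h3
  have h4 := Finset.card_le_card h2
  have h5 : ((Sh a b).card : ℝ) ≤ ((Tk84.gball ⌊b⌋₊).card : ℝ) - (Tk84.gball ⌊a⌋₊).card := by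
    rw [← Nat.cast_sub h4]
    exact_mod_cast h3
  have h6 := abs_le.1 (Tk84.card_circ ⌊b⌋₊)
  have h7 := abs_le.1 (Tk84.card_circ ⌊a⌋₊)
  have h8 : ((⌊b⌋₊ : ℕ) : ℝ) ≤ b := Nat.floor_le hb
  have h9 : a - 1 < ((⌊a⌋₊ : ℕ) : ℝ) := Nat.sub_one_lt_floor a
  have h9' : ((⌊a⌋₊ : ℕ) : ℝ) ≤ b := (Nat.floor_le ha).trans hab
  have h10 : √((⌊b⌋₊ : ℕ) : ℝ) ≤ √b := Real.sqrt_le_sqrt h8
  have h11 : √((⌊a⌋₊ : ℕ) : ℝ) ≤ √b := Real.sqrt_le_sqrt h9'
  have hpi := Real.pi_pos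
  have hpi4 := Real.pi_le_four
  have h12 : Real.pi * ((⌊b⌋₊ : ℕ) : ℝ) - Real.pi * ((⌊a⌋₊ : ℕ) : ℝ) ≤ 4 * (b - a + 1) := by
    have : ((⌊b⌋₊ : ℕ) : ℝ) - ((⌊a⌋₊ : ℕ) : ℝ) ≤ b - a + 1 := by linarith
    have h0 : 0 ≤ b - a + 1 := by linarith
    nlinarith
  linarith [h6.2, h7.1]

/-- the number of the window of a prime -/
noncomputable def uh (h : ℕ) (v : GaussianInt) : ℕ := ⌊(h : ℝ) * Real.log (nm v)⌋₊

/-- the norm divided by the lower end of its window -/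
noncomputable def lam (h : ℕ) (v : GaussianInt) : ℝ := nm v * Real.exp (-(uh h v / h))

theorem lam_bds {h : ℕ} (hh : 0 < h) {v : GaussianInt} (hv : 1 ≤ nm v) :
    1 ≤ lam h v ∧ lam h v < Real.exp (1 / h) := by
  have hh' : (0 : ℝ) < h := by exact_mod_cast hh
  have hv' : (1 : ℝ) ≤ nm v := by exact_mod_cast hv
  have hp : (0 : ℝ) < nm v := by linarith
  have h0 : 0 ≤ (h : ℝ) * Real.log (nm v) := mul_nonneg hh'.le (Real.log_nonneg hv')
  have h1 : (uh h v : ℝ) ≤ h * Real.log (nm v) := Nat.floor_le h0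
  have h2 : (h : ℝ) * Real.log (nm v) < uh h v + 1 := Nat.lt_floor_add_one _
  have h3 : lam h v = Real.exp (Real.log (nm v) - uh h v / h) := by
    unfold lam
    rw [sub_eq_add_neg, Real.exp_add, Real.exp_log hp]
  rw [h3]
  constructor
  · apply Real.one_le_exp
    rw [sub_nonneg, div_le_iff₀ hh']
    linarith
  · rw [Real.exp_lt_exp, sub_lt_iff_lt_add, ← add_div, lt_div_iff₀ hh']
    linarith

theorem uh_iff {h : ℕ} (hh : 0 < h) {v : GaussianInt} (hv : 1 ≤ nm v) (u : ℕ) :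
    uh h v = u ↔ Real.exp (u / h) ≤ nm v ∧ (nm v : ℝ) < Real.exp ((u + 1) / h) := by
  have hh' : (0 : ℝ) < h := by exact_mod_cast hh
  have hv' : (1 : ℝ) ≤ nm v := by exact_mod_cast hv
  have hp : (0 : ℝ) < nm v := by linarith
  have h0 : 0 ≤ (h : ℝ) * Real.log (nm v) := mul_nonneg hh'.le (Real.log_nonneg hv')
  unfold uh
  rw [Nat.floor_eq_iff h0, ← Real.le_log_iff_exp_le hp, ← Real.log_lt_iff_lt_exp hp,
    div_le_iff₀ hh', lt_div_iff₀ hh', mul_comm (Real.log _)]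

/-- the coefficient function -/
noncomputable def gg (z : ℂ) (ψ : GaussianInt → ℂ) (v : GaussianInt) : ℂ :=
  z ^ (ArithmeticFunction.cardFactors (nm v)) * ψ v

theorem FF_eq (z : ℂ) (ψ : GaussianInt → ℂ) (j : ℤ) (v : GaussianInt) :
    FF z ψ j v = gg z ψ v * ag v ^ j := rfl

theorem norm_gg {z : ℂ} (hz : ‖z‖ = 1) {K : ℕ} {ψ : GaussianInt → ℂ} (hψ : Chr K ψ)
    (v : GaussianInt) : ‖gg z ψ v‖ ≤ 1 := by
  unfold gg
  rw [norm_mul, norm_pow, hz, one_pow, one_mul]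
  by_cases h : IsCoprime v (K : GaussianInt)
  · rw [hψ.nrm v h]
  · rw [hψ.zer v h, norm_zero]
    exact zero_le_one

/-- the set of pairs -/
noncomputable def II (r1 r2 : ℝ) (h u0 u1 : ℕ) (N : ℝ) : Finset (GaussianInt × GaussianInt) :=
  (sl (Real.exp (u0 / h)) (Real.exp (u1 / h)) ×ˢ Sh 0 (r2 * N)).filter (fun x => Pv x.2 ∧
    r1 * N * Real.exp (-(uh h x.1 / h)) < nm x.2 ∧
    (nm x.2 : ℝ) ≤ r2 * N * Real.exp (-(uh h x.1 / h)))

theorem slice_eq {h u0 u1 u : ℕ} (hh : 0 < h) (hu : u ∈ Finset.Ico u0 u1) :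
    (sl (Real.exp (u0 / h)) (Real.exp (u1 / h))).filter (fun v => uh h v = u) =
      sl (Real.exp (u / h)) (Real.exp ((u + 1) / h)) := by
  have hh' : (0 : ℝ) < h := by exact_mod_cast hh
  rw [Finset.mem_Ico] at hu
  ext v
  rw [Finset.mem_filter, mem_sl, mem_sl]
  constructor
  · rintro ⟨⟨h1, h2, h3, h4, h5⟩, h6⟩
    rw [uh_iff hh h3.one_lt.le] at h6
    exact ⟨h1, h2, h3, h6.1, h6.2⟩
  · rintro ⟨h1, h2, h3, h4, h5⟩
    refine ⟨⟨h1, h2, h3, ?_, ?_⟩, ?_⟩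
    · refine le_trans ?_ h4
      rw [Real.exp_le_exp]
      gcongr
      exact_mod_cast hu.1
    · refine lt_of_lt_of_le h5 ?_
      rw [Real.exp_le_exp]
      gcongr
      exact_mod_cast hu.2
    · rw [uh_iff hh h3.one_lt.le]
      exact ⟨h4, h5⟩

theorem uh_mem {h u0 u1 : ℕ} (hh : 0 < h) {v : GaussianInt}
    (hv : v ∈ sl (Real.exp (u0 / h)) (Real.exp (u1 / h))) : uh h v ∈ Finset.Ico u0 u1 := by
  have hh' : (0 : ℝ) < h := by exact_mod_cast hh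
  rw [mem_sl] at hv
  obtain ⟨h1, h2, h3, h4, h5⟩ := hv
  have hv' : (1 : ℝ) ≤ nm v := by exact_mod_cast h3.one_lt.le
  have hp : (0 : ℝ) < nm v := by linarith
  have h0 : 0 ≤ (h : ℝ) * Real.log (nm v) := mul_nonneg hh'.le (Real.log_nonneg hv')
  rw [← Real.le_log_iff_exp_le hp, div_le_iff₀ hh'] at h4
  rw [← Real.log_lt_iff_lt_exp hp, lt_div_iff₀ hh'] at h5
  rw [Finset.mem_Ico]
  unfold uh
  constructor
  · refine Nat.le_floor ?_
    linarith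
  · rw [Nat.floor_lt h0]
    linarith

theorem main_id (z : ℂ) {K : ℕ} {ψ : GaussianInt → ℂ} (hψ : Chr K ψ) {h u0 u1 : ℕ}
    (hh : 0 < h) {N : ℝ} (hN : 0 < N) {r1 r2 : ℝ} (hr2 : 0 ≤ r2) (j : ℤ) (W : ℂ) :
    (1 / W) * ∑ u ∈ Finset.Ico u0 u1,
      Qs z ψ h u j * Mp z ψ r1 r2 (N * Real.exp (-(u / h))) j =
    ∑ x ∈ II r1 r2 h u0 u1 N, gg z ψ (x.1 * x.2) / (W * N * lam h x.1) * ag (x.1 * x.2) ^ j := by
  have hh' : (0 : ℝ) < h := by exact_mod_cast hh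
  -- slices
  have e1 : ∑ u ∈ Finset.Ico u0 u1, Qs z ψ h u j * Mp z ψ r1 r2 (N * Real.exp (-(u / h))) j =
      ∑ π ∈ sl (Real.exp (u0 / h)) (Real.exp (u1 / h)),
        FF z ψ j π / (nm π : ℂ) * Mp z ψ r1 r2 (N * Real.exp (-(uh h π / h))) j := by
    rw [← Finset.sum_fiberwise_of_maps_to (fun v hv => uh_mem hh hv)]
    refine Finset.sum_congr rfl fun u hu => ?_
    rw [slice_eq hh hu]
    unfold Qs
    rw [Finset.sum_mul]
    refine Finset.sum_congr rfl fun π hπ => ?_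
    have : uh h π = u := by
      rw [← slice_eq hh hu, Finset.mem_filter] at hπ
      exact hπ.2
    rw [this]
  rw [e1]
  unfold II
  rw [Finset.sum_filter, Finset.sum_product, Finset.mul_sum]
  refine Finset.sum_congr rfl fun π hπ => ?_
  have hπ' := mem_sl.1 hπ
  have hπ0 : π ≠ 0 := ne_zero_of_nm hπ'.2.2.1.pos
  set ε : ℝ := Real.exp (-(uh h π / h)) with hε
  have hε0 : 0 < ε := Real.exp_pos _
  have hε1 : ε ≤ 1 := by
    rw [hε, Real.exp_le_one_iff, neg_nonpos]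
    positivity
  simp only
  rw [← Finset.sum_filter]
  have hset : (Sh 0 (r2 * N)).filter (fun m => Pv m ∧ r1 * N * ε < nm m ∧
      (nm m : ℝ) ≤ r2 * N * ε) = (Sh (r1 * (N * ε)) (r2 * (N * ε))).filter Pv := by
    ext m
    rw [Finset.mem_filter, Finset.mem_filter, mem_Sh, mem_Sh]
    constructor
    · rintro ⟨⟨h1, h2, h3⟩, h4, h5, h6⟩
      exact ⟨⟨h1, by linarith, by linarith⟩, h4⟩
    · rintro ⟨⟨h1, h2, h3⟩, h4⟩
      refine ⟨⟨h1, ?_, ?_⟩, h4, by linarith, by linarith⟩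
      · exact_mod_cast nm_pos h1
      · have : r2 * (N * ε) ≤ r2 * N := by
          have : N * ε ≤ N := by nlinarith
          nlinarith
        linarith
  rw [hset]
  unfold Mp
  rw [Finset.mul_sum, Finset.mul_sum, Finset.mul_sum]
  refine Finset.sum_congr rfl fun m hm => ?_
  rw [Finset.mem_filter, mem_Sh] at hm
  have hm0 := hm.1.1
  have e2 : FF z ψ j π * FF z ψ j m = gg z ψ (π * m) * ag (π * m) ^ j := by
    rw [← FF_mul hψ z j hπ0 hm0]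
    rfl
  have e3 : ((lam h π : ℝ) : ℂ) = (nm π : ℂ) * (ε : ℂ) := by
    rw [hε]
    unfold lam
    push_cast
    rfl
  have e4 : gg z ψ (π * m) / (W * N * ((nm π : ℂ) * (ε : ℂ))) * ag (π * m) ^ j =
      FF z ψ j π * FF z ψ j m / (W * N * ((nm π : ℂ) * (ε : ℂ))) := by
    rw [e2]
    ring
  rw [e3, e4, Complex.ofReal_mul]
  have h1 : (nm π : ℂ) ≠ 0 := by exact_mod_cast hπ'.2.2.1.ne_zero
  have h2 : (ε : ℂ) ≠ 0 := by exact_mod_cast hε0.ne'
  have h3 : (N : ℂ) ≠ 0 := by exact_mod_cast hN.ne'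
  rcases eq_or_ne W 0 with h4 | h4
  · rw [h4]; simp
  field_simp

end D97

end Pool.Agent.Lib.MP_a17b09_nt.MRS
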