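import Pool.Agent.Lib.MP_a17b09_nt.MRS.Stmts3
import Pool.Agent.Lib.MP_a17b09_nt.MRS.Tk84

/-!
MRS (MP_a17b09_nt): exponential sums and counts over shells of Gaussian integers, in the language
of `Stmts3` (from `X67.StExp` and `Tk84`).
-/

set_option autoImplicit false

open Finset

namespace Pool.Agent.Lib.MP_a17b09_nt.MRS.E86

open Classical in
/-- change of variable: the multiples of `d` in a shell -/
theorem sum_mult (a b : ℝ) {d : GaussianInt} (hd : d ≠ 0) {M : Type} [AddCommMonoid M]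
    (f : GaussianInt → M) :
    ∑ v ∈ (Sh a b).filter (fun v => d ∣ v), f v = ∑ m ∈ Sh (a / nm d) (b / nm d), f (d * m) := by
  have hN : (0 : ℝ) < nm d := by
    have h1 : nm d ≠ 0 := mt nm_eq_zero.1 hd
    exact_mod_cast Nat.pos_of_ne_zero h1
  symm
  refine Finset.sum_nbij (fun m => d * m) ?_ ?_ ?_ ?_
  · intro m hm
    rw [mem_Sh] at hm
    rw [Finset.mem_filter, mem_Sh, nm_mul]
    push_cast
    rw [div_lt_iff₀ hN, le_div_iff₀ hN] at hm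
    exact ⟨⟨mul_ne_zero hd hm.1, by linarith [hm.2.1], by linarith [hm.2.2]⟩, Dvd.intro _ rfl⟩
  · intro x _ y _ h
    exact mul_left_cancel₀ hd h
  · intro v hv
    rw [Finset.mem_coe, Finset.mem_filter, mem_Sh] at hv
    obtain ⟨m, rfl⟩ := hv.2
    refine ⟨m, ?_, rfl⟩
    rw [Finset.mem_coe, mem_Sh, div_lt_iff₀ hN, le_div_iff₀ hN]
    have h1 := hv.1
    rw [nm_mul] at h1
    push_cast at h1
    exact ⟨right_ne_zero_of_mul h1.1, by linarith [h1.2.1], by linarith [h1.2.2]⟩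
  · intro m _
    rfl

theorem zz_eq (v : GaussianInt) : X67.zz (v.re, v.im) = GaussianInt.toComplex v := by
  unfold X67.zz
  rw [GaussianInt.toComplex_def]

open Classical in
/-- the class sum over a shell -/
theorem class_sum (a b : ℝ) (q : ℕ) (a0 b0 : ℤ) (h : ℤ) :
    ∃ S : Finset (ℤ × ℤ), X67.IsRing (max ((⌊a⌋ : ℝ) + 1) 1) b q a0 b0 S ∧
      ∑ v ∈ (Sh a b).filter (fun v => v.re ≡ a0 [ZMOD (q : ℤ)] ∧ v.im ≡ b0 [ZMOD (q : ℤ)]),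
        ag v ^ h = ∑ m ∈ S, (X67.zz m / (‖X67.zz m‖ : ℂ)) ^ h := by
  set T := (Sh a b).filter (fun v => v.re ≡ a0 [ZMOD (q : ℤ)] ∧ v.im ≡ b0 [ZMOD (q : ℤ)]) with hT
  refine ⟨T.image (fun v => (v.re, v.im)), ?_, ?_⟩
  · intro m
    rw [Finset.mem_image]
    constructor
    · rintro ⟨v, hv, rfl⟩
      rw [hT, Finset.mem_filter, mem_Sh] at hv
      obtain ⟨⟨h0, h1, h2⟩, h3, h4⟩ := hv
      have e := nm_eq v
      refine ⟨?_, by simpa only using e ▸ h2, h3, h4⟩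
      rw [← e, max_le_iff]
      have h5 : 0 < nm v := Nat.pos_of_ne_zero (mt nm_eq_zero.1 h0)
      refine ⟨?_, by exact_mod_cast h5⟩
      have h6 : ⌊a⌋ < (nm v : ℤ) := by
        rw [Int.floor_lt]
        exact_mod_cast h1
      have h7 : ⌊a⌋ + 1 ≤ (nm v : ℤ) := h6
      exact_mod_cast h7
    · rintro ⟨h1, h2, h3, h4⟩
      refine ⟨⟨m.1, m.2⟩, ?_, rfl⟩
      have e := nm_eq (⟨m.1, m.2⟩ : GaussianInt)
      simp only at e
      rw [hT, Finset.mem_filter, mem_Sh, e]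
      rw [max_le_iff] at h1
      refine ⟨⟨?_, ?_, h2⟩, h3, h4⟩
      · intro h0
        have h5 : nm (⟨m.1, m.2⟩ : GaussianInt) = 0 := nm_eq_zero.2 h0
        rw [h5, Nat.cast_zero] at e
        linarith [h1.2]
      · linarith [h1.1, Int.lt_floor_add_one a]
  · rw [Finset.sum_image]
    · refine Finset.sum_congr rfl fun v _ => ?_
      rw [zz_eq]
      rfl
    · intro x _ y _ h
      exact Zsqrtd.ext (Prod.ext_iff.1 h).1 (Prod.ext_iff.1 h).2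

/-- (c) exponential sums over one class of a shell -/
theorem expC86 (hE : X67.StExp) (A : ℝ) (hA : 1 ≤ A) : ∃ c C : ℝ, 0 < c ∧ c ≤ 1 / 2 ∧ 0 < C ∧
    ∀ (Y a b : ℝ) (h : ℤ) (q : ℕ) (a0 b0 : ℤ), 1 ≤ Y → b ≤ Y → h ≠ 0 → |(h : ℝ)| ≤ Y ^ A →
      1 ≤ q → (q : ℝ) ≤ Y ^ c →
      ‖∑ v ∈ (Sh a b).filter (fun v => v.re ≡ a0 [ZMOD (q : ℤ)] ∧ v.im ≡ b0 [ZMOD (q : ℤ)]),
        ag v ^ h‖ ≤ C * Y ^ (1 - c) := by
  obtain ⟨c, C, hc, hC, H⟩ := hE A hA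
  refine ⟨min c (1 / 2), C, by positivity, min_le_right _ _, hC, ?_⟩
  intro Y a b h q a0 b0 hY hb hh hhA hq hqY
  obtain ⟨S, hS, hsum⟩ := class_sum a b q a0 b0 h
  have h1 : (q : ℝ) ≤ Y ^ c :=
    hqY.trans (Real.rpow_le_rpow_of_exponent_le hY (min_le_left _ _))
  have h2 := H Y _ b h q a0 b0 S hY hb hh hhA hq h1 hS
  have h3 : ‖∑ v ∈ (Sh a b).filter (fun v => v.re ≡ a0 [ZMOD (q : ℤ)] ∧
      v.im ≡ b0 [ZMOD (q : ℤ)]), ag v ^ h‖ = ‖∑ m ∈ S, (X67.zz m / (‖X67.zz m‖ : ℂ)) ^ h‖ := by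
    rw [← hsum]
  rw [h3]
  refine h2.trans ?_
  have h4 : Y ^ (1 - c) ≤ Y ^ (1 - min c (1 / 2)) :=
    Real.rpow_le_rpow_of_exponent_le hY (by linarith [min_le_left c (1 / 2 : ℝ)])
  gcongr

/-- (a) exponential sums over a shell -/
theorem expS86 (hE : X67.StExp) (A : ℝ) (hA : 1 ≤ A) : ∃ c C : ℝ, 0 < c ∧ c ≤ 1 / 2 ∧ 0 < C ∧
    ∀ (Y a b : ℝ) (h : ℤ), 1 ≤ Y → b ≤ Y → h ≠ 0 → |(h : ℝ)| ≤ Y ^ A →
      ‖∑ v ∈ Sh a b, ag v ^ h‖ ≤ C * Y ^ (1 - c) := by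
  obtain ⟨c, C, hc, hc2, hC, H⟩ := expC86 hE A hA
  refine ⟨c, C, hc, hc2, hC, ?_⟩
  intro Y a b h hY hb hh hhA
  have h1 := H Y a b h 1 0 0 hY hb hh hhA le_rfl (by
    rw [Nat.cast_one]
    exact Real.one_le_rpow hY hc.le)
  rw [Finset.filter_true_of_mem] at h1
  · exact h1
  · intro v _
    exact ⟨by simpa using Int.modEq_one, by simpa using Int.modEq_one⟩

open Classical in
/-- (b) exponential sums over the multiples of `d` in a shell -/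
theorem expM86 (hE : X67.StExp) (A : ℝ) (hA : 1 ≤ A) : ∃ c C : ℝ, 0 < c ∧ c ≤ 1 / 2 ∧ 0 < C ∧
    ∀ (Y a b : ℝ) (h : ℤ) (d : GaussianInt), d ≠ 0 → (nm d : ℝ) ≤ Y → b ≤ Y → h ≠ 0 →
      |(h : ℝ)| ≤ (Y / nm d) ^ A →
      ‖∑ v ∈ (Sh a b).filter (fun v => d ∣ v), ag v ^ h‖ ≤ C * (Y / nm d) ^ (1 - c) := by
  obtain ⟨c, C, hc, hc2, hC, H⟩ := expS86 hE A hA
  refine ⟨c, C, hc, hc2, hC, ?_⟩
  intro Y a b h d hd hdY hb hh hhA
  have hN : (0 : ℝ) < nm d := by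
    have h1 : nm d ≠ 0 := mt nm_eq_zero.1 hd
    exact_mod_cast Nat.pos_of_ne_zero h1
  rw [sum_mult a b hd]
  have h1 : ∀ m ∈ Sh (a / nm d) (b / nm d), ag (d * m) ^ h = ag d ^ h * ag m ^ h := by
    intro m _
    rw [ag_mul, mul_zpow]
  rw [Finset.sum_congr rfl h1, ← Finset.mul_sum, norm_mul, norm_zpow, norm_ag hd, one_zpow,
    one_mul]
  exact H _ _ _ h (by rwa [one_le_div hN]) (by gcongr) hh hhA

open Classical in
/-- (b') the same, uniformly for `nm d ≤ Y ^ (1/2)`: frequencies up to `Y ^ A` -/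
theorem expM86' (hE : X67.StExp) (A : ℝ) (hA : 1 ≤ A) : ∃ c C : ℝ, 0 < c ∧ c ≤ 1 / 2 ∧ 0 < C ∧
    ∀ (Y a b : ℝ) (h : ℤ) (d : GaussianInt), 1 ≤ Y → d ≠ 0 → (nm d : ℝ) ≤ Y ^ (1 / 2 : ℝ) →
      b ≤ Y → h ≠ 0 → |(h : ℝ)| ≤ Y ^ A →
      ‖∑ v ∈ (Sh a b).filter (fun v => d ∣ v), ag v ^ h‖ ≤ C * (Y / nm d) ^ (1 - c) := by
  obtain ⟨c, C, hc, hc2, hC, H⟩ := expM86 hE (2 * A) (by linarith)
  refine ⟨c, C, hc, hc2, hC, ?_⟩
  intro Y a b h d hY hd hdY hb hh hhA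
  have hN : (0 : ℝ) < nm d := by
    have h1 : nm d ≠ 0 := mt nm_eq_zero.1 hd
    exact_mod_cast Nat.pos_of_ne_zero h1
  have hY0 : 0 < Y := by linarith
  have h1 : Y ^ (1 / 2 : ℝ) ≤ Y := by
    calc Y ^ (1 / 2 : ℝ) ≤ Y ^ (1 : ℝ) := Real.rpow_le_rpow_of_exponent_le hY (by norm_num)
      _ = Y := Real.rpow_one Y
  refine H Y a b h d hd (hdY.trans h1) hb hh (hhA.trans ?_)
  have h2 : Y ^ (1 / 2 : ℝ) ≤ Y / nm d := by
    rw [le_div_iff₀ hN]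
    calc Y ^ (1 / 2 : ℝ) * nm d ≤ Y ^ (1 / 2 : ℝ) * Y ^ (1 / 2 : ℝ) := by gcongr
      _ = Y := by
          rw [← Real.rpow_add hY0]
          norm_num
  calc Y ^ A = (Y ^ (1 / 2 : ℝ)) ^ (2 * A) := by
        rw [← Real.rpow_mul hY0.le]
        congr 1
        ring
    _ ≤ (Y / nm d) ^ (2 * A) := by gcongr

/-- representatives mod `q` -/
theorem class_split (a b : ℝ) (q : ℕ) (hq : 1 ≤ q) (ρ : GaussianInt → ℂ)
    (hρ : ∀ x y : GaussianInt, ρ (x + (q : GaussianInt) * y) = ρ x) (h : ℤ) :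
    ∑ v ∈ Sh a b, ρ v * ag v ^ h = ∑ r ∈ Finset.range q ×ˢ Finset.range q,
      ρ ⟨(r.1 : ℤ), (r.2 : ℤ)⟩ * ∑ v ∈ (Sh a b).filter
        (fun v => v.re ≡ (r.1 : ℤ) [ZMOD (q : ℤ)] ∧ v.im ≡ (r.2 : ℤ) [ZMOD (q : ℤ)]),
        ag v ^ h := by
  have hq0 : (0 : ℤ) < q := by exact_mod_cast hq
  set cl : GaussianInt → ℕ × ℕ := fun v => ((v.re % (q : ℤ)).toNat, (v.im % (q : ℤ)).toNat)
    with hcl
  have hmem : ∀ v ∈ Sh a b, cl v ∈ Finset.range q ×ˢ Finset.range q := by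
    intro v _
    rw [hcl, Finset.mem_product, Finset.mem_range, Finset.mem_range]
    have h1 := Int.emod_nonneg v.re hq0.ne'
    have h2 := Int.emod_lt_of_pos v.re hq0
    have h3 := Int.emod_nonneg v.im hq0.ne'
    have h4 := Int.emod_lt_of_pos v.im hq0
    simp only
    omega
  rw [← Finset.sum_fiberwise_of_maps_to hmem]
  refine Finset.sum_congr rfl fun r hr => ?_
  rw [Finset.mem_product, Finset.mem_range, Finset.mem_range] at hr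
  have hfil : (Sh a b).filter (fun v => cl v = r) = (Sh a b).filter
      (fun v => v.re ≡ (r.1 : ℤ) [ZMOD (q : ℤ)] ∧ v.im ≡ (r.2 : ℤ) [ZMOD (q : ℤ)]) := by
    refine Finset.filter_congr fun v _ => ?_
    have h1 := Int.emod_nonneg v.re hq0.ne'
    have h3 := Int.emod_nonneg v.im hq0.ne'
    have e1 : (r.1 : ℤ) % (q : ℤ) = r.1 := Int.emod_eq_of_lt (by positivity) (by exact_mod_cast hr.1)
    have e2 : (r.2 : ℤ) % (q : ℤ) = r.2 := Int.emod_eq_of_lt (by positivity) (by exact_mod_cast hr.2)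
    rw [hcl, Prod.ext_iff]
    unfold Int.ModEq
    rw [e1, e2]
    simp only
    constructor
    · rintro ⟨h5, h6⟩
      omega
    · rintro ⟨h5, h6⟩
      omega
  rw [hfil, Finset.mul_sum]
  refine Finset.sum_congr rfl fun v hv => ?_
  rw [Finset.mem_filter] at hv
  obtain ⟨_, h1, h2⟩ := hv
  obtain ⟨s, hs⟩ := h1.symm.dvd
  obtain ⟨t, ht⟩ := h2.symm.dvd
  congr 1
  rw [← hρ ⟨(r.1 : ℤ), (r.2 : ℤ)⟩ ⟨s, t⟩]
  congr 1
  refine Zsqrtd.ext ?_ ?_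
  · simp
    linarith
  · simp
    linarith

/-- (c') exponential sums with a periodic weight -/
theorem expR86 (hE : X67.StExp) (A : ℝ) (hA : 1 ≤ A) : ∃ c C : ℝ, 0 < c ∧ c ≤ 1 / 2 ∧ 0 < C ∧
    ∀ (Y a b : ℝ) (h : ℤ) (q : ℕ) (ρ : GaussianInt → ℂ), 1 ≤ Y → b ≤ Y → h ≠ 0 →
      |(h : ℝ)| ≤ Y ^ A → 1 ≤ q → (q : ℝ) ≤ Y ^ c →
      (∀ x y : GaussianInt, ρ (x + (q : GaussianInt) * y) = ρ x) → (∀ x, ‖ρ x‖ ≤ 1) →
      ‖∑ v ∈ Sh a b, ρ v * ag v ^ h‖ ≤ C * (q : ℝ) ^ 2 * Y ^ (1 - c) := by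
  obtain ⟨c, C, hc, hc2, hC, H⟩ := expC86 hE A hA
  refine ⟨c, C, hc, hc2, hC, ?_⟩
  intro Y a b h q ρ hY hb hh hhA hq hqY hρ hρ1
  rw [class_split a b q hq ρ hρ h]
  refine (norm_sum_le _ _).trans ?_
  have h1 : ∀ r ∈ Finset.range q ×ˢ Finset.range q,
      ‖ρ ⟨(r.1 : ℤ), (r.2 : ℤ)⟩ * ∑ v ∈ (Sh a b).filter
        (fun v => v.re ≡ (r.1 : ℤ) [ZMOD (q : ℤ)] ∧ v.im ≡ (r.2 : ℤ) [ZMOD (q : ℤ)]),
        ag v ^ h‖ ≤ C * Y ^ (1 - c) := by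
    intro r _
    rw [norm_mul]
    have h2 := H Y a b h q r.1 r.2 hY hb hh hhA hq hqY
    calc _ ≤ 1 * (C * Y ^ (1 - c)) := by
          refine mul_le_mul (hρ1 _) ?_ (norm_nonneg _) zero_le_one
          exact h2
      _ = _ := one_mul _
  refine (Finset.sum_le_sum h1).trans ?_
  rw [Finset.sum_const, Finset.card_product, Finset.card_range, nsmul_eq_mul]
  push_cast
  exact le_of_eq (by ring)

/-! ### counting -/

theorem sh_eq (a b : ℝ) (ha : 0 ≤ a) (hb : 0 ≤ b) :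
    Sh a b = Tk84.gball ⌊b⌋₊ \ Tk84.gball ⌊a⌋₊ := by
  ext v
  rw [mem_Sh, Finset.mem_sdiff, Tk84.mem_gball, Tk84.mem_gball]
  change v ≠ 0 ∧ a < nm v ∧ (nm v : ℝ) ≤ b ↔ nm v ≤ ⌊b⌋₊ ∧ ¬ nm v ≤ ⌊a⌋₊
  rw [Nat.le_floor_iff hb, Nat.le_floor_iff ha, not_le]
  constructor
  · rintro ⟨_, h2, h3⟩
    exact ⟨h3, h2⟩
  · rintro ⟨h3, h2⟩
    refine ⟨?_, h2, h3⟩
    rintro rfl
    rw [nm_eq_zero.2 rfl, Nat.cast_zero] at h2
    linarith

/-- (d) the number of points of a shell -/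
theorem card_sh (a b : ℝ) (ha : 0 ≤ a) (hab : a ≤ b) :
    |((Sh a b).card : ℝ) - Real.pi * (b - a)| ≤ 20 * √b + 28 := by
  have hb : 0 ≤ b := ha.trans hab
  rw [sh_eq a b ha hb]
  have hsub : Tk84.gball ⌊a⌋₊ ⊆ Tk84.gball ⌊b⌋₊ := by
    intro v hv
    rw [Tk84.mem_gball] at hv ⊢
    exact hv.trans (Nat.floor_le_floor hab)
  rw [Finset.card_sdiff_of_subset hsub, Nat.cast_sub (Finset.card_le_card hsub)]
  have h1 := Tk84.card_circ ⌊a⌋₊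
  have h2 := Tk84.card_circ ⌊b⌋₊
  have h3 := Nat.floor_le ha
  have h4 := Nat.floor_le hb
  have h5 := Nat.lt_floor_add_one a
  have h6 := Nat.lt_floor_add_one b
  have h7 : √(⌊a⌋₊ : ℝ) ≤ √b := Real.sqrt_le_sqrt (by linarith)
  have h8 : √(⌊b⌋₊ : ℝ) ≤ √b := Real.sqrt_le_sqrt (by linarith)
  have hpi := Real.pi_pos
  have hpi4 := Real.pi_le_four
  rw [abs_le] at h1 h2 ⊢
  constructor
  · nlinarith [h1.1, h1.2, h2.1, h2.2]
  · nlinarith [h1.1, h1.2, h2.1, h2.2]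

open Classical in
/-- (d') multiples of `d` in a shell -/
theorem card_mult (a b : ℝ) (ha : 0 ≤ a) (hab : a ≤ b) {d : GaussianInt} (hd : d ≠ 0) :
    |(((Sh a b).filter (fun v => d ∣ v)).card : ℝ) - Real.pi * ((b - a) / nm d)| ≤
      20 * √(b / nm d) + 28 := by
  have hN : (0 : ℝ) < nm d := by
    have h1 : nm d ≠ 0 := mt nm_eq_zero.1 hd
    exact_mod_cast Nat.pos_of_ne_zero h1
  have h1 : ((Sh a b).filter (fun v => d ∣ v)).card = (Sh (a / nm d) (b / nm d)).card := by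
    rw [Finset.card_eq_sum_ones, Finset.card_eq_sum_ones]
    exact sum_mult a b hd (fun _ => 1)
  rw [h1]
  have h2 := card_sh (a / nm d) (b / nm d) (by positivity) (by gcongr)
  rw [sub_div]
  exact h2

/-- a crude count: `#{v : 0 < |v|² ≤ b} ≤ 60 b` -/
theorem card_le (a b : ℝ) (ha : 0 ≤ a) : ((Sh a b).card : ℝ) ≤ 60 * b ∨ (Sh a b) = ∅ := by
  by_cases hb : b < 1
  · right
    rw [Finset.eq_empty_iff_forall_notMem]
    intro v hv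
    rw [mem_Sh] at hv
    have h1 : 0 < nm v := Nat.pos_of_ne_zero (mt nm_eq_zero.1 hv.1)
    have h2 : (1 : ℝ) ≤ nm v := by exact_mod_cast h1
    linarith [hv.2.2]
  · left
    push Not at hb
    have h0 : (Sh a b).card ≤ (Sh 0 b).card := by
      refine Finset.card_le_card fun v hv => ?_
      rw [mem_Sh] at hv ⊢
      exact ⟨hv.1, by linarith [hv.2.1], hv.2.2⟩
    have h1 := card_sh 0 b le_rfl (by linarith)
    rw [abs_le] at h1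
    have h2 : √b ≤ b := by
      rw [Real.sqrt_le_left (by linarith)]
      nlinarith
    have h3 : ((Sh a b).card : ℝ) ≤ (Sh 0 b).card := by exact_mod_cast h0
    nlinarith [h1.2, Real.pi_le_four, Real.pi_pos]

end Pool.Agent.Lib.MP_a17b09_nt.MRS.E86
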