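import Pool.Agent.Lib.MP_a17b09_nt.MRS.DecC21
import Pool.Agent.Lib.MP_a17b09_nt.MRS.ExpS86

/-!
MRS, decomposition by slices: squares of the number of prime divisors on discs and thin shells.
-/

set_option autoImplicit false

open Finset

namespace Pool.Agent.Lib.MP_a17b09_nt.MRS.Dec21

open Classical in
/-- the number of elements of `P` dividing `v` -/
noncomputable def omg (P : Finset GaussianInt) (v : GaussianInt) : ℝ :=
  ∑ π ∈ P, if π ∣ v then 1 else 0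

theorem omg_nonneg (P : Finset GaussianInt) (v : GaussianInt) : 0 ≤ omg P v := by
  unfold omg
  refine Finset.sum_nonneg fun π _ => ?_
  split_ifs <;> norm_num

/-- Turan-Kubilius for a set of primes -/
theorem tkP (hT : StTK) (r : ℝ) (hr : 0 < r) : ∃ C : ℝ, 0 < C ∧ ∀ N : ℝ, 1 ≤ N →
    ∀ (y : ℝ) (P : Finset GaussianInt), 1 ≤ y → y ≤ N ^ (1 / 8 : ℝ) → P ⊆ sl 1 y →
    ∑ v ∈ Sh 0 (r * N), (omg P v - ∑ π ∈ P, 1 / (nm π : ℝ)) ^ 2 ≤
      C * N * ∑ π ∈ P, 1 / (nm π : ℝ) := by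
  classical
  obtain ⟨C, hC, h⟩ := hT 0 r le_rfl hr
  refine ⟨C, hC, ?_⟩
  intro N hN y P hy hyN hP
  have h1 := h N hN (fun π => if π ∈ P then 1 else 0) y hy hyN
  rw [zero_mul] at h1
  have e1 : ∀ v : GaussianInt, ‖∑ π ∈ sl 1 y, (if π ∈ P then (1 : ℂ) else 0) *
      ((if π ∣ v then 1 else 0) - 1 / (nm π : ℂ))‖ ^ 2 =
      (omg P v - ∑ π ∈ P, 1 / (nm π : ℝ)) ^ 2 := by
    intro v
    have e2 : ∑ π ∈ sl 1 y, (if π ∈ P then (1 : ℂ) else 0) *
        ((if π ∣ v then 1 else 0) - 1 / (nm π : ℂ)) =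
        ((omg P v - ∑ π ∈ P, 1 / (nm π : ℝ) : ℝ) : ℂ) := by
      simp only [ite_mul, one_mul, zero_mul]
      rw [Finset.sum_ite_mem, Finset.inter_eq_right.2 hP, Finset.sum_sub_distrib]
      unfold omg
      push_cast
      congr 1
      refine Finset.sum_congr rfl fun π _ => ?_
      split_ifs <;> simp
    rw [e2, Complex.norm_real, Real.norm_eq_abs, sq_abs]
  have e3 : ∑ π ∈ sl 1 y, ‖(if π ∈ P then (1 : ℂ) else 0)‖ ^ 2 / (nm π : ℝ) =
      ∑ π ∈ P, 1 / (nm π : ℝ) := by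
    have e4 : ∀ π : GaussianInt, ‖(if π ∈ P then (1 : ℂ) else 0)‖ ^ 2 / (nm π : ℝ) =
        if π ∈ P then 1 / (nm π : ℝ) else 0 := by
      intro π
      split_ifs <;> simp
    rw [Finset.sum_congr rfl fun π _ => e4 π, Finset.sum_ite_mem, Finset.inter_eq_right.2 hP]
  rw [Finset.sum_congr rfl fun v _ => e1 v, e3] at h1
  exact h1

/-- squares of the number of divisors -/
theorem sum_sq {A L : ℝ} (P T U : Finset GaussianInt) (hTU : T ⊆ U)
    (h : ∑ v ∈ U, (omg P v - L) ^ 2 ≤ A) :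
    ∑ v ∈ T, omg P v ^ 2 ≤ 2 * A + 2 * L ^ 2 * T.card := by
  have h1 : ∑ v ∈ T, (omg P v - L) ^ 2 ≤ A :=
    (Finset.sum_le_sum_of_subset_of_nonneg hTU fun v _ _ => sq_nonneg _).trans h
  calc ∑ v ∈ T, omg P v ^ 2 ≤ ∑ v ∈ T, (2 * (omg P v - L) ^ 2 + 2 * L ^ 2) :=
        Finset.sum_le_sum fun v _ => by nlinarith [sq_nonneg (omg P v - 2 * L)]
    _ = 2 * ∑ v ∈ T, (omg P v - L) ^ 2 + 2 * L ^ 2 * T.card := by
        rw [Finset.sum_add_distrib, ← Finset.mul_sum, Finset.sum_const, nsmul_eq_mul]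
        ring
    _ ≤ _ := by linarith

theorem rpow_le_sqrt {N : ℝ} (hN : 1 ≤ N) : N ^ (1 / 8 : ℝ) ≤ √N := by
  rw [Real.sqrt_eq_rpow]
  exact Real.rpow_le_rpow_of_exponent_le hN (by norm_num)

/-- `√N ≤ N / h` -/
theorem sqrt_le_div {N : ℝ} (hN : 1 ≤ N) {h : ℕ} (hh : 0 < h) (hhN : (h : ℝ) ≤ N ^ (1 / 8 : ℝ)) :
    √N ≤ N / h := by
  have hh0 : (0 : ℝ) < h := by exact_mod_cast hh
  rw [le_div_iff₀ hh0]
  calc √N * h ≤ √N * √N :=
        mul_le_mul_of_nonneg_left (hhN.trans (rpow_le_sqrt hN)) (Real.sqrt_nonneg _)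
    _ = N := Real.mul_self_sqrt (by linarith)

/-- the number of vectors in a thin shell -/
theorem card_thin (r : ℝ) (hr : 0 < r) : ∃ C : ℝ, 0 < C ∧ ∀ (N : ℝ) (h : ℕ), 1 ≤ N → 0 < h →
    (h : ℝ) ≤ N ^ (1 / 8 : ℝ) →
    ((Sh (r * N) (r * N * Real.exp (1 / h))).card : ℝ) ≤ C * (N / h) := by
  refine ⟨8 * r + 20 * √(3 * r) + 28, by positivity, ?_⟩
  intro N h hN hh hhN
  have hh1 : (1 : ℝ) ≤ h := by exact_mod_cast hh
  have hh0 : (0 : ℝ) < h := by linarith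
  have hN0 : (0 : ℝ) < N := by linarith
  have hx0 : (0 : ℝ) < 1 / h := by positivity
  have hx1 : (1 : ℝ) / h ≤ 1 := by
    rw [div_le_one hh0]
    exact hh1
  have he1 : Real.exp (1 / h) - 1 ≤ 2 * (1 / h) := by
    have h1 := Real.abs_exp_sub_one_le (x := (1 : ℝ) / h) (by rw [abs_of_pos hx0]; exact hx1)
    rw [abs_of_pos hx0] at h1
    exact (le_abs_self _).trans h1
  have he0 : 1 ≤ Real.exp (1 / h) := Real.one_le_exp hx0.le
  have he3 : Real.exp (1 / h) ≤ 3 := by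
    have h1 : Real.exp (1 / h) ≤ Real.exp 1 := Real.exp_le_exp.2 hx1
    linarith [Real.exp_one_lt_d9]
  have hrN : 0 ≤ r * N := by positivity
  have h1 := E86.card_sh (r * N) (r * N * Real.exp (1 / h)) hrN (le_mul_of_one_le_right hrN he0)
  have h2 : √(r * N * Real.exp (1 / h)) ≤ √(3 * r) * √N := by
    rw [← Real.sqrt_mul (by positivity)]
    apply Real.sqrt_le_sqrt
    nlinarith
  have h3 := sqrt_le_div hN hh hhN
  have h4 : (1 : ℝ) ≤ N / h := by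
    have : (1 : ℝ) ≤ √N := Real.one_le_sqrt.2 hN
    linarith
  have h5 : Real.pi * (r * N * Real.exp (1 / h) - r * N) ≤ 8 * r * (N / h) := by
    have e : Real.pi * (r * N * Real.exp (1 / h) - r * N) =
        Real.pi * (r * N * (Real.exp (1 / h) - 1)) := by ring
    rw [e]
    calc Real.pi * (r * N * (Real.exp (1 / h) - 1)) ≤ 4 * (r * N * (2 * (1 / h))) := by
          apply mul_le_mul Real.pi_le_four _ _ (by norm_num)
          · exact mul_le_mul_of_nonneg_left he1 hrN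
          · exact mul_nonneg hrN (by linarith)
      _ = 8 * r * (N / h) := by ring
  have h6 : 20 * √(r * N * Real.exp (1 / h)) ≤ 20 * √(3 * r) * (N / h) := by
    have : √(3 * r) * √N ≤ √(3 * r) * (N / h) := mul_le_mul_of_nonneg_left h3 (Real.sqrt_nonneg _)
    linarith
  have h7 := (abs_le.1 h1).2
  calc ((Sh (r * N) (r * N * Real.exp (1 / h))).card : ℝ)
      ≤ Real.pi * (r * N * Real.exp (1 / h) - r * N) + (20 * √(r * N * Real.exp (1 / h)) + 28) := by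
        linarith
    _ ≤ 8 * r * (N / h) + (20 * √(3 * r) * (N / h) + 28 * (N / h)) := by linarith
    _ = _ := by ring

/-- the large sieve for primitive vectors of norm at most `B N`, normalized -/
theorem lsN (hL : StLsp) (B : ℝ) (hB : 1 ≤ B) : ∃ C : ℝ, 0 < C ∧ ∀ (N : ℝ), 1 ≤ N →
    ∀ J : ℕ, (J : ℝ) ≤ N → ∀ V : Finset GaussianInt, (∀ v ∈ V, Pv v ∧ (nm v : ℝ) ≤ B * N) →
    ∀ a : GaussianInt → ℂ,
    ∑ j ∈ js J, ‖(1 / (N : ℂ)) * ∑ v ∈ V, a v * ag v ^ j‖ ^ 2 ≤ C / N * ∑ v ∈ V, ‖a v‖ ^ 2 := by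
  obtain ⟨C1, hC1, hls⟩ := hL
  refine ⟨2 * B * C1, by positivity, ?_⟩
  intro N hN J hJ V hV a
  have hN0 : (0 : ℝ) < N := by linarith
  have hBN : 1 ≤ B * N := by nlinarith
  have hmain := hls (B * N) J hBN V hV a
  have hS : 0 ≤ ∑ v ∈ V, ‖a v‖ ^ 2 := Finset.sum_nonneg fun v _ => by positivity
  calc ∑ j ∈ js J, ‖(1 / (N : ℂ)) * ∑ v ∈ V, a v * ag v ^ j‖ ^ 2
      = (1 / N) ^ 2 * ∑ j ∈ js J, ‖∑ v ∈ V, a v * ag v ^ j‖ ^ 2 := by
        rw [Finset.mul_sum]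
        refine Finset.sum_congr rfl fun j _ => ?_
        rw [norm_mul, mul_pow, norm_div, norm_one, Complex.norm_real,
          Real.norm_of_nonneg hN0.le]
    _ ≤ (1 / N) ^ 2 * (C1 * (B * N + J) * ∑ v ∈ V, ‖a v‖ ^ 2) :=
        mul_le_mul_of_nonneg_left hmain (by positivity)
    _ ≤ (1 / N) ^ 2 * (C1 * (B * N + B * N) * ∑ v ∈ V, ‖a v‖ ^ 2) := by
        apply mul_le_mul_of_nonneg_left _ (by positivity)
        apply mul_le_mul_of_nonneg_right _ hS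
        apply mul_le_mul_of_nonneg_left _ hC1.le
        nlinarith
    _ = 2 * B * C1 / N * ∑ v ∈ V, ‖a v‖ ^ 2 := by
        field_simp
        ring

end Pool.Agent.Lib.MP_a17b09_nt.MRS.Dec21
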