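import Pool.Agent.Lib.MP_a17b09_nt.MRS.DecA97

/-!
Project MRS, decomposition by slices (97), second part: primitive products, conjugate pairs,
the fibres of the product.
-/

set_option autoImplicit false

open Filter Topology Finset

namespace Pool.Agent.Lib.MP_a17b09_nt.MRS

namespace D97

theorem pv_iff {v : GaussianInt} :
    Pv v ↔ ∀ q : ℕ, q.Prime → ¬ (((q : ℤ) : GaussianInt) ∣ v) := by
  unfold Pv
  constructor
  · intro h q hq hd
    rw [Zsqrtd.intCast_dvd] at hd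
    have h1 : (q : ℤ) ∣ (Int.gcd v.re v.im : ℤ) := Int.dvd_coe_gcd hd.1 hd.2
    rw [h] at h1
    have h2 : q ∣ 1 := by exact_mod_cast h1
    exact hq.one_lt.ne' (Nat.dvd_one.1 h2)
  · intro h
    by_contra hne
    obtain ⟨q, hq, hd⟩ := Nat.exists_prime_and_dvd hne
    apply h q hq
    rw [Zsqrtd.intCast_dvd]
    have h1 : (q : ℤ) ∣ (Int.gcd v.re v.im : ℤ) := by exact_mod_cast hd
    exact ⟨h1.trans (Int.gcd_dvd_left _ _), h1.trans (Int.gcd_dvd_right _ _)⟩

theorem pv_right {a m : GaussianInt} (h : Pv (a * m)) : Pv m := by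
  rw [pv_iff] at h ⊢
  intro q hq hd
  exact h q hq (Dvd.dvd.mul_left hd a)

theorem mul_star' (π : GaussianInt) : π * star π = (((nm π : ℕ) : ℤ) : GaussianInt) := by
  rw [← Zsqrtd.norm_eq_mul_conj]
  congr 1
  unfold nm
  rw [Int.natAbs_of_nonneg (GaussianInt.norm_nonneg π)]

theorem nm_star (π : GaussianInt) : nm (star π) = nm π := by
  unfold nm
  rw [Zsqrtd.norm_conj]

/-- pairs with a product that is not primitive -/
theorem conj_dvd {π m : GaussianInt} (hπ : (nm π).Prime) (hm : Pv m) (h : ¬ Pv (π * m)) :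
    ∃ w, m = star π * w ∧ Pv w := by
  have h0 : π ≠ 0 := ne_zero_of_nm hπ.pos
  have hd : star π ∣ m := by
    rw [pv_iff] at h
    push Not at h
    obtain ⟨q, hq, hd⟩ := h
    rcases eq_or_ne q (nm π) with h1 | h1
    · rw [h1, ← mul_star'] at hd
      exact (mul_dvd_mul_iff_left h0).1 hd
    · exfalso
      have h2 : Nat.Coprime q (nm π) := (Nat.coprime_primes hq hπ).2 h1
      have h3 : IsCoprime (q : ℤ) ((nm π : ℕ) : ℤ) := Nat.isCoprime_iff_coprime.2 h2
      have h4 : IsCoprime (((q : ℤ) : GaussianInt)) (((nm π : ℕ) : ℤ) : GaussianInt) :=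
        h3.map (Int.castRingHom GaussianInt)
      have h5 : ((q : ℤ) : GaussianInt) ∣ (((nm π : ℕ) : ℤ) : GaussianInt) * m := by
        rw [← mul_star', mul_comm π (star π), mul_assoc]
        exact Dvd.dvd.mul_left hd _
      exact (pv_iff.1 hm) q hq (h4.dvd_of_dvd_mul_left h5)
  obtain ⟨w, rfl⟩ := hd
  exact ⟨w, rfl, pv_right hm⟩

theorem ag_nat {n : ℕ} (hn : 0 < n) : ag (((n : ℕ) : ℤ) : GaussianInt) = 1 := by
  unfold ag
  rw [map_intCast]
  have h1 : (0 : ℝ) < n := by exact_mod_cast hn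
  have h2 : ‖(((n : ℕ) : ℤ) : ℂ)‖ = n := by
    rw [Int.cast_natCast, Complex.norm_natCast]
  rw [h2, Int.cast_natCast, Complex.ofReal_natCast, div_self]
  exact_mod_cast h1.ne'

theorem ag_conj {π w : GaussianInt} (hπ : (nm π).Prime) :
    ag (π * (star π * w)) = ag w := by
  rw [← mul_assoc, mul_star', ag_mul, ag_nat hπ.pos, one_mul]

open Classical in
/-- the number of primes of the windows dividing `v` -/
noncomputable def om (P Q : ℝ) (v : GaussianInt) : ℝ := ∑ π ∈ sl P Q, if π ∣ v then 1 else 0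

open Classical in
/-- the coefficient of `v` -/
noncomputable def ss (r1 r2 : ℝ) (h u0 u1 : ℕ) (N : ℝ) (v : GaussianInt) : ℝ :=
  ∑ π ∈ (sl (Real.exp (u0 / h)) (Real.exp (u1 / h))).filter (fun π => π ∣ v ∧
    r1 * N * lam h π < nm v ∧ (nm v : ℝ) ≤ r2 * N * lam h π), 1 / lam h π

theorem fiberA (z : ℂ) (ψ : GaussianInt → ℂ) {h u0 u1 : ℕ} {N : ℝ} (hN : 0 < N)
    {r1 r2 : ℝ} (hr2 : 0 ≤ r2) (W : ℂ) {v : GaussianInt}
    (hv0 : v ≠ 0) (hv : Pv v) :
    ∑ x ∈ ((II r1 r2 h u0 u1 N).filter (fun x => Pv (x.1 * x.2))).filter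
      (fun x => x.1 * x.2 = v), gg z ψ (x.1 * x.2) / (W * N * lam h x.1) =
    gg z ψ v / (W * N) * (ss r1 r2 h u0 u1 N v : ℂ) := by
  classical
  unfold ss
  rw [Complex.ofReal_sum, Finset.mul_sum]
  refine Finset.sum_bij (fun x _ => x.1) ?_ ?_ ?_ ?_
  · intro x hx
    rw [Finset.mem_filter, Finset.mem_filter, II, Finset.mem_filter, Finset.mem_product] at hx
    obtain ⟨⟨⟨⟨h1, _⟩, h3, h4, h5⟩, h6⟩, h7⟩ := hx
    rw [Finset.mem_filter]
    have hp := (mem_sl.1 h1).2.2.1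
    have hp' : (0 : ℝ) < nm x.1 := by exact_mod_cast hp.pos
    have hnm : (nm v : ℝ) = nm x.1 * nm x.2 := by rw [← h7, nm_mul]; push_cast; ring
    refine ⟨h1, Dvd.intro _ h7, ?_, ?_⟩
    · rw [hnm]
      unfold lam
      nlinarith
    · rw [hnm]
      unfold lam
      nlinarith
  · intro x hx y hy hxy
    rw [Finset.mem_filter, Finset.mem_filter, II, Finset.mem_filter, Finset.mem_product] at hx hy
    have h1 := hx.2
    have h2 := hy.2
    have hp := (mem_sl.1 hx.1.1.1.1).2.2.1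
    have h0 : x.1 ≠ 0 := ne_zero_of_nm hp.pos
    have hxy : x.1 = y.1 := hxy
    rw [← h1, ← hxy] at h2
    exact Prod.ext hxy (mul_left_cancel₀ h0 h2).symm
  · intro π hπ
    rw [Finset.mem_filter] at hπ
    obtain ⟨h1, ⟨m, hm⟩, h3, h4⟩ := hπ
    have hp := (mem_sl.1 h1).2.2.1
    have hp' : (0 : ℝ) < nm π := by exact_mod_cast hp.pos
    have hnm : (nm v : ℝ) = nm π * nm m := by rw [hm, nm_mul]; push_cast; ring
    have hm0 : m ≠ 0 := by
      rintro rfl
      exact hv0 (by rw [hm, mul_zero])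
    have hε1 : Real.exp (-(uh h π / h)) ≤ 1 := by
      rw [Real.exp_le_one_iff, neg_nonpos]
      positivity
    rw [hnm] at h3 h4
    unfold lam at h3 h4
    have h5 : r1 * N * Real.exp (-(uh h π / h)) < nm m := by
      by_contra hc
      push Not at hc
      nlinarith
    have h6 : (nm m : ℝ) ≤ r2 * N * Real.exp (-(uh h π / h)) := by
      by_contra hc
      push Not at hc
      nlinarith
    refine ⟨(π, m), ?_, rfl⟩
    rw [Finset.mem_filter, Finset.mem_filter, II, Finset.mem_filter, Finset.mem_product]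
    refine ⟨⟨⟨⟨h1, ?_⟩, pv_right (a := π) (hm ▸ hv), h5, h6⟩, ?_⟩, hm.symm⟩
    · rw [mem_Sh]
      refine ⟨hm0, by exact_mod_cast nm_pos hm0, h6.trans ?_⟩
      have : 0 ≤ r2 * N := by positivity
      nlinarith
    · simp only
      rw [← hm]
      exact hv
  · intro x hx
    rw [Finset.mem_filter] at hx
    rw [hx.2]
    push_cast
    rw [div_mul_div_comm, mul_one]

/-- the cofactor of a conjugate pair -/
noncomputable def cf (x : GaussianInt × GaussianInt) : GaussianInt := x.2 / star x.1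

theorem cf_spec {r1 r2 : ℝ} {h u0 u1 : ℕ} {N : ℝ} {x : GaussianInt × GaussianInt}
    (hx : x ∈ (II r1 r2 h u0 u1 N).filter (fun x => ¬ Pv (x.1 * x.2))) :
    x.2 = star x.1 * cf x ∧ Pv (cf x) ∧ cf x ≠ 0 := by
  rw [Finset.mem_filter, II, Finset.mem_filter, Finset.mem_product] at hx
  obtain ⟨⟨⟨h1, h2⟩, h3, _, _⟩, h6⟩ := hx
  have hp := (mem_sl.1 h1).2.2.1
  obtain ⟨w, hw, hw2⟩ := conj_dvd hp h3 h6
  have h0 : star x.1 ≠ 0 := by
    apply ne_zero_of_nm
    rw [nm_star]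
    exact hp.pos
  have h7 : cf x = w := by
    unfold cf
    rw [hw]
    exact mul_div_cancel_left₀ w h0
  rw [h7]
  refine ⟨hw, hw2, ?_⟩
  rintro rfl
  rw [mul_zero] at hw
  exact (mem_Sh.1 h2).1 hw

open Classical in
/-- the number of primes whose square is at most `R / |v|²` -/
noncomputable def TT (P Q R : ℝ) (v : GaussianInt) : ℝ :=
  (((sl P Q).filter (fun π => (nm π : ℝ) ^ 2 * nm v ≤ R)).card : ℝ)

theorem cf_bound {r1 r2 : ℝ} (hr2 : 0 ≤ r2) {h u0 u1 : ℕ} (hh : 0 < h) {N : ℝ} (hN : 0 < N)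
    {x : GaussianInt × GaussianInt}
    (hx : x ∈ (II r1 r2 h u0 u1 N).filter (fun x => ¬ Pv (x.1 * x.2))) :
    (nm x.1 : ℝ) ^ 2 * nm (cf x) ≤ r2 * Real.exp 1 * N := by
  have h1 := (cf_spec hx).1
  rw [Finset.mem_filter, II, Finset.mem_filter, Finset.mem_product] at hx
  obtain ⟨⟨⟨h2, _⟩, _, _, h5⟩, _⟩ := hx
  have hp := (mem_sl.1 h2).2.2.1
  have hp' : (0 : ℝ) < nm x.1 := by exact_mod_cast hp.pos
  have h6 : (nm x.2 : ℝ) = nm x.1 * nm (cf x) := by
    conv_lhs => rw [h1]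
    rw [nm_mul, nm_star]
    push_cast
    ring
  rw [h6] at h5
  have h7 := (lam_bds hh hp.one_lt.le).2
  have h8 : Real.exp (1 / h) ≤ Real.exp 1 := by
    rw [Real.exp_le_exp, div_le_one (by exact_mod_cast hh)]
    exact_mod_cast hh
  have h9 : (nm x.1 : ℝ) ^ 2 * nm (cf x) ≤ r2 * N * lam h x.1 := by
    unfold lam
    nlinarith
  have h10 : 0 ≤ r2 * N := by positivity
  nlinarith

theorem fiberB {z : ℂ} (hz : ‖z‖ = 1) {K : ℕ} {ψ : GaussianInt → ℂ} (hψ : Chr K ψ)
    {h u0 u1 : ℕ} (hh : 0 < h) {N : ℝ} (hN : 0 < N) {r1 r2 : ℝ} (hr2 : 0 ≤ r2) {W : ℝ}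
    (hW : 0 < W) (v : GaussianInt) :
    ‖∑ x ∈ ((II r1 r2 h u0 u1 N).filter (fun x => ¬ Pv (x.1 * x.2))).filter
      (fun x => cf x = v), gg z ψ (x.1 * x.2) / ((W : ℂ) * N * lam h x.1)‖ ≤
    1 / (W * N) * TT (Real.exp (u0 / h)) (Real.exp (u1 / h)) (r2 * Real.exp 1 * N) v := by
  classical
  set F := ((II r1 r2 h u0 u1 N).filter (fun x => ¬ Pv (x.1 * x.2))).filter
      (fun x => cf x = v) with hF
  have hc : F.card ≤ ((sl (Real.exp (u0 / h)) (Real.exp (u1 / h))).filter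
      (fun π => (nm π : ℝ) ^ 2 * nm v ≤ r2 * Real.exp 1 * N)).card := by
    refine Finset.card_le_card_of_injOn (fun x => x.1) ?_ ?_
    · intro x hx
      rw [Finset.mem_coe, hF, Finset.mem_filter] at hx
      rw [Finset.mem_coe, Finset.mem_filter]
      have h1 := cf_bound hr2 hh hN hx.1
      rw [hx.2] at h1
      refine ⟨?_, h1⟩
      have h2 := hx.1
      rw [Finset.mem_filter, II, Finset.mem_filter, Finset.mem_product] at h2
      exact h2.1.1.1
    · intro x hx y hy hxy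
      rw [Finset.mem_coe, hF, Finset.mem_filter] at hx hy
      simp only at hxy
      have h1 := (cf_spec hx.1).1
      have h2 := (cf_spec hy.1).1
      rw [hx.2] at h1
      rw [hy.2, ← hxy, ← h1] at h2
      exact Prod.ext hxy h2.symm
  have hb : ∀ x ∈ F, ‖gg z ψ (x.1 * x.2) / ((W : ℂ) * N * lam h x.1)‖ ≤ 1 / (W * N) := by
    intro x hx
    rw [hF, Finset.mem_filter, Finset.mem_filter, II, Finset.mem_filter,
      Finset.mem_product] at hx
    have hp := (mem_sl.1 hx.1.1.1.1).2.2.1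
    have hl := (lam_bds hh hp.one_lt.le).1
    rw [norm_div, norm_mul, norm_mul, Complex.norm_real, Complex.norm_real, Complex.norm_real,
      Real.norm_of_nonneg hW.le, Real.norm_of_nonneg hN.le, Real.norm_of_nonneg (by linarith)]
    have hWN : 0 < W * N := by positivity
    rw [div_le_div_iff₀ (by positivity) hWN]
    have := norm_gg hz hψ (x.1 * x.2)
    nlinarith [norm_nonneg (gg z ψ (x.1 * x.2))]
  calc ‖∑ x ∈ F, gg z ψ (x.1 * x.2) / ((W : ℂ) * N * lam h x.1)‖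
      ≤ ∑ x ∈ F, ‖gg z ψ (x.1 * x.2) / ((W : ℂ) * N * lam h x.1)‖ := norm_sum_le _ _
    _ ≤ ∑ x ∈ F, 1 / (W * N) := Finset.sum_le_sum hb
    _ = F.card * (1 / (W * N)) := by rw [Finset.sum_const, nsmul_eq_mul]
    _ ≤ _ := by
        unfold TT
        rw [mul_comm]
        have : (F.card : ℝ) ≤ (((sl (Real.exp (u0 / h)) (Real.exp (u1 / h))).filter
          (fun π => (nm π : ℝ) ^ 2 * nm v ≤ r2 * Real.exp 1 * N)).card : ℝ) := by
          exact_mod_cast hc
        have h2 : 0 ≤ 1 / (W * N) := by positivity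
        exact mul_le_mul_of_nonneg_left this h2

end D97

end Pool.Agent.Lib.MP_a17b09_nt.MRS
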