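import Mathlib

/-! MRS, module MOM (helper16): moments of `Q^l R` with collinear vectors. -/

set_option autoImplicit false

namespace Pool.Agent.MRS16

open Finset GaussianInt

/-- direction of a Gaussian integer -/
noncomputable def zd (v : GaussianInt) : ℂ := (v : ℂ) / (‖(v : ℂ)‖ : ℂ)

theorem zd_mul (v w : GaussianInt) : zd (v * w) = zd v * zd w := by
  unfold zd
  rw [toComplex_mul, norm_mul]
  push_cast
  rw [mul_div_mul_comm]

/-- the large sieve for directions, with explicit ring ratio and the weight of the gcd -/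
def LSG (C : ℝ) : Prop := ∀ (S : Finset GaussianInt) (N B : ℝ) (J : ℕ) (a : GaussianInt → ℂ),
  1 ≤ N → 1 ≤ B → (∀ v ∈ S, N ≤ (v.norm : ℝ) ∧ (v.norm : ℝ) ≤ B * N) →
  ∑ j ∈ Finset.Icc (-(J : ℤ)) J, ‖∑ v ∈ S, a v * zd v ^ j‖ ^ 2 ≤
    C * B * ∑ v ∈ S, ‖a v‖ ^ 2 * (N + (J + 1) * (Int.gcd v.re v.im : ℝ))

open Classical in
/-- number of elements of `Pi` dividing `v` -/
noncomputable def om (Pi : Finset GaussianInt) (v : GaussianInt) : ℕ :=
  (Pi.filter (fun p => p ∣ v)).card

theorem om_le_of_dvd (Pi : Finset GaussianInt) {v w : GaussianInt} (h : v ∣ w) :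
    om Pi v ≤ om Pi w := by
  classical
  unfold om
  apply Finset.card_le_card
  intro p hp
  rw [Finset.mem_filter] at hp ⊢
  exact ⟨hp.1, hp.2.trans h⟩

theorem norm_pos_real {v : GaussianInt} (h : v ≠ 0) : (0 : ℝ) < (v.norm : ℝ) := by
  have := norm_pos.2 h
  exact_mod_cast this

theorem norm_one_le {v : GaussianInt} (h : v ≠ 0) : (1 : ℝ) ≤ (v.norm : ℝ) := by
  have := norm_pos.2 h
  exact_mod_cast this

theorem norm_mul_real (v w : GaussianInt) : ((v * w).norm : ℝ) = (v.norm : ℝ) * (w.norm : ℝ) := by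
  rw [Zsqrtd.norm_mul]; push_cast; rfl

/-- counting Gaussian integers -/
theorem card_ball (U : Finset GaussianInt) (T : ℝ) (hT : 0 ≤ T)
    (hU : ∀ u ∈ U, u ≠ 0 ∧ (u.norm : ℝ) ≤ T) : (U.card : ℝ) ≤ 9 * T := by
  classical
  rcases U.eq_empty_or_nonempty with h | ⟨u0, hu0⟩
  · rw [h]; simp; linarith
  have hT1 : 1 ≤ T := le_trans (norm_one_le (hU u0 hu0).1) (hU u0 hu0).2
  set n : ℕ := ⌊Real.sqrt T⌋₊ with hn
  have hsq : ∀ x : ℤ, ((x : ℝ)) ^ 2 ≤ T → -(n : ℤ) ≤ x ∧ x ≤ n := by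
    intro x hx
    have h1 : |(x : ℝ)| ≤ Real.sqrt T := Real.abs_le_sqrt hx
    have h2 : x.natAbs ≤ n := by
      rw [hn]
      apply Nat.le_floor
      rw [Nat.cast_natAbs]
      push_cast
      exact h1
    omega
  have hinj : U.card ≤ ((Finset.Icc (-(n : ℤ)) n) ×ˢ (Finset.Icc (-(n : ℤ)) n)).card := by
    apply Finset.card_le_card_of_injOn (fun u => (u.re, u.im))
    · intro u hu
      have h1 := (hU u hu).2
      have h2 : (u.norm : ℝ) = (u.re : ℝ) ^ 2 + (u.im : ℝ) ^ 2 := by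
        rw [Zsqrtd.norm_def]; push_cast; ring
      rw [h2] at h1
      have h3 := hsq u.re (by nlinarith [sq_nonneg (u.im : ℝ)])
      have h4 := hsq u.im (by nlinarith [sq_nonneg (u.re : ℝ)])
      simp only [Finset.coe_product, Finset.coe_Icc, Set.mem_prod, Set.mem_Icc]
      exact ⟨h3, h4⟩
    · intro u _ v _ h
      simp only [Prod.mk.injEq] at h
      exact Zsqrtd.ext h.1 h.2
  rw [Finset.card_product, Int.card_Icc] at hinj
  have h5 : ((n : ℤ) + 1 - -(n : ℤ)).toNat = 2 * n + 1 := by omega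
  rw [h5] at hinj
  have h6 : (n : ℝ) ≤ Real.sqrt T := Nat.floor_le (Real.sqrt_nonneg T)
  have h7 : (1 : ℝ) ≤ Real.sqrt T := by
    rw [show (1 : ℝ) = Real.sqrt 1 by simp]
    exact Real.sqrt_le_sqrt hT1
  have h8 : (U.card : ℝ) ≤ (2 * n + 1) * (2 * n + 1) := by exact_mod_cast hinj
  have h9 : Real.sqrt T * Real.sqrt T = T := Real.mul_self_sqrt hT
  have h10 : (2 * (n : ℝ) + 1) ≤ 3 * Real.sqrt T := by linarith
  have h11 : (0 : ℝ) ≤ 2 * n + 1 := by positivity
  calc (U.card : ℝ) ≤ (2 * n + 1) * (2 * n + 1) := h8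
    _ ≤ (3 * Real.sqrt T) * (3 * Real.sqrt T) := by
        apply mul_le_mul h10 h10 h11 (by positivity)
    _ = 9 * (Real.sqrt T * Real.sqrt T) := by ring
    _ = 9 * T := by rw [h9]

/-- counting multiples -/
theorem card_mult (U : Finset GaussianInt) (T : ℝ) (hT : 0 ≤ T)
    (hU : ∀ u ∈ U, u ≠ 0 ∧ (u.norm : ℝ) ≤ T) (D : GaussianInt) (hD : D ≠ 0)
    (hdvd : ∀ u ∈ U, D ∣ u) : (U.card : ℝ) ≤ 9 * (T / (D.norm : ℝ)) := by
  classical
  have hDn := norm_pos_real hD
  have h : ∀ u : GaussianInt, ∃ w, u ∈ U → u = D * w := by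
    intro u
    by_cases hu : u ∈ U
    · obtain ⟨w, hw⟩ := hdvd u hu
      exact ⟨w, fun _ => hw⟩
    · exact ⟨0, fun h => absurd h hu⟩
  choose f hf using h
  have hinj : Set.InjOn f U := by
    intro u hu v hv huv
    rw [hf u hu, hf v hv, huv]
  rw [← Finset.card_image_of_injOn hinj]
  apply card_ball _ _ (by positivity)
  intro w hw
  obtain ⟨u, hu, rfl⟩ := Finset.mem_image.1 hw
  have h1 := hf u hu
  have h2 := hU u hu
  constructor
  · intro h0
    rw [h0, mul_zero] at h1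
    exact h2.1 h1
  · have h3 : (u.norm : ℝ) = (D.norm : ℝ) * ((f u).norm : ℝ) := by
      conv_lhs => rw [h1]
      exact norm_mul_real _ _
    rw [le_div_iff₀ hDn]
    rw [h3] at h2
    linarith [h2.2]

/-- admissible sets of primes -/
structure PSet (Pi : Finset GaussianInt) : Prop where
  prime : ∀ p ∈ Pi, Prime p
  nass : ∀ p ∈ Pi, ∀ p' ∈ Pi, Associated p p' → p = p'

theorem PSet.coprime {Pi : Finset GaussianInt} (h : PSet Pi) {p p' : GaussianInt} (hp : p ∈ Pi)
    (hp' : p' ∈ Pi) (hne : p ≠ p') : IsCoprime p p' := by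
  have h1 := (h.prime p hp).irreducible
  rw [h1.coprime_iff_not_dvd]
  intro h2
  exact hne (h.nass p hp p' hp'
    ((h.prime p hp).irreducible.associated_of_dvd (h.prime p' hp').irreducible h2))

/-- the weighted count -/
theorem sum_three_pow {Pi : Finset GaussianInt} (h : PSet Pi) (U : Finset GaussianInt) (T : ℝ)
    (hT : 0 ≤ T) (hU : ∀ u ∈ U, u ≠ 0 ∧ (u.norm : ℝ) ≤ T) :
    ∑ u ∈ U, (3 : ℝ) ^ om Pi u ≤ 9 * T * ∏ p ∈ Pi, (1 + 2 / (p.norm : ℝ)) := by
  classical
  have h1 : ∀ u, (3 : ℝ) ^ om Pi u =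
      ∑ t ∈ Pi.powerset, ∏ p ∈ t, (if p ∣ u then (2 : ℝ) else 0) := by
    intro u
    rw [← Finset.prod_one_add]
    unfold om
    rw [← Finset.prod_const, Finset.prod_filter]
    apply Finset.prod_congr rfl
    intro p _
    split_ifs <;> norm_num
  have h2 : ∀ t ∈ Pi.powerset, ∑ u ∈ U, ∏ p ∈ t, (if p ∣ u then (2 : ℝ) else 0) ≤
      9 * T * ∏ p ∈ t, (2 / (p.norm : ℝ)) := by
    intro t ht
    have htP := Finset.mem_powerset.1 ht
    have h3 : ∀ u, ∏ p ∈ t, (if p ∣ u then (2 : ℝ) else 0) =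
        if (∀ p ∈ t, p ∣ u) then (2 : ℝ) ^ t.card else 0 := by
      intro u
      split_ifs with h4
      · rw [← Finset.prod_const]
        apply Finset.prod_congr rfl
        intro p hp
        rw [if_pos (h4 p hp)]
      · push Not at h4
        obtain ⟨p, hp, hpu⟩ := h4
        apply Finset.prod_eq_zero hp
        rw [if_neg hpu]
    have hne : (∏ p ∈ t, p) ≠ 0 := by
      rw [Finset.prod_ne_zero_iff]
      intro p hp
      exact (h.prime p (htP hp)).ne_zero
    have hnorm : ∀ s : Finset GaussianInt,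
        (((∏ p ∈ s, p).norm : ℤ) : ℝ) = ∏ p ∈ s, (p.norm : ℝ) := by
      intro s
      induction s using Finset.induction_on with
      | empty => simp
      | insert a s has ih =>
        rw [Finset.prod_insert has, Finset.prod_insert has, norm_mul_real, ih]
    calc ∑ u ∈ U, ∏ p ∈ t, (if p ∣ u then (2 : ℝ) else 0)
        = ∑ u ∈ U, if (∀ p ∈ t, p ∣ u) then (2 : ℝ) ^ t.card else 0 :=
          Finset.sum_congr rfl (fun u _ => h3 u)
      _ = (U.filter (fun u => ∀ p ∈ t, p ∣ u)).card * (2 : ℝ) ^ t.card := by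
          rw [← Finset.sum_filter, Finset.sum_const, nsmul_eq_mul]
      _ ≤ (9 * (T / ((∏ p ∈ t, p).norm : ℝ))) * (2 : ℝ) ^ t.card := by
          apply mul_le_mul_of_nonneg_right _ (by positivity)
          apply card_mult _ T hT _ _ hne
          · intro u hu
            have h5 := (Finset.mem_filter.1 hu).2
            apply Finset.prod_dvd_of_coprime
            · intro p hp p' hp' hne'
              exact h.coprime (htP hp) (htP hp') hne'
            · exact h5
          · intro u hu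
            exact hU u (Finset.mem_filter.1 hu).1
      _ = 9 * T * ∏ p ∈ t, (2 / (p.norm : ℝ)) := by
          rw [Finset.prod_div_distrib, Finset.prod_const, hnorm]
          ring
  calc ∑ u ∈ U, (3 : ℝ) ^ om Pi u
      = ∑ u ∈ U, ∑ t ∈ Pi.powerset, ∏ p ∈ t, (if p ∣ u then (2 : ℝ) else 0) :=
        Finset.sum_congr rfl (fun u _ => h1 u)
    _ = ∑ t ∈ Pi.powerset, ∑ u ∈ U, ∏ p ∈ t, (if p ∣ u then (2 : ℝ) else 0) :=
        Finset.sum_comm
    _ ≤ ∑ t ∈ Pi.powerset, 9 * T * ∏ p ∈ t, (2 / (p.norm : ℝ)) := Finset.sum_le_sum h2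
    _ = 9 * T * ∏ p ∈ Pi, (1 + 2 / (p.norm : ℝ)) := by
        rw [← Finset.mul_sum, Finset.prod_one_add]

/-- smooth sums over rational integers -/
theorem sum_smooth (q : Finset ℕ) (hq : ∀ p ∈ q, p.Prime) (h18 : ∀ p ∈ q, 18 ≤ p) :
    ∀ (G : Finset ℕ), (∀ g ∈ G, g ≠ 0 ∧ ∀ p, p.Prime → p ∣ g → p ∈ q) →
    ∑ g ∈ G, (9 : ℝ) ^ (g.primeFactorsList.length) / g ≤ ∏ p ∈ q, (1 - 9 / (p : ℝ))⁻¹ := by
  classical
  induction q using Finset.induction_on with
  | empty =>
    intro G hG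
    have h1 : G ⊆ {1} := by
      intro g hg
      rw [Finset.mem_singleton]
      by_contra hne
      obtain ⟨p, hp, hpg⟩ := Nat.exists_prime_and_dvd hne
      exact absurd ((hG g hg).2 p hp hpg) (Finset.notMem_empty p)
    calc ∑ g ∈ G, (9 : ℝ) ^ (g.primeFactorsList.length) / g
        ≤ ∑ g ∈ ({1} : Finset ℕ), (9 : ℝ) ^ (g.primeFactorsList.length) / g :=
          Finset.sum_le_sum_of_subset_of_nonneg h1 (fun _ _ _ => by positivity)
      _ = 1 := by simp
      _ ≤ _ := by simp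
  | insert r q hrq ih =>
    intro G hG
    have hr : r.Prime := hq r (Finset.mem_insert_self r q)
    have hr18 : 18 ≤ r := h18 r (Finset.mem_insert_self r q)
    set F : ℕ → ℝ := fun g => (9 : ℝ) ^ (g.primeFactorsList.length) / g with hF
    have hF0 : ∀ g, 0 ≤ F g := fun g => by positivity
    -- decomposition
    have hdec : ∀ g ∈ G, F g = (9 / (r : ℝ)) ^ (g.factorization r) * F (g / r ^ (g.factorization r)) := by
      intro g hg
      have hg0 := (hG g hg).1
      have h1 : r ^ (g.factorization r) * (g / r ^ (g.factorization r)) = g :=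
        Nat.ordProj_mul_ordCompl_eq_self g r
      have h2 : g / r ^ (g.factorization r) ≠ 0 := by
        intro h0
        rw [h0, mul_zero] at h1
        exact hg0 h1.symm
      have h3 : (r ^ (g.factorization r)) ≠ 0 := pow_ne_zero _ hr.ne_zero
      have hr0 : (r : ℝ) ≠ 0 := by exact_mod_cast hr.ne_zero
      have h4 : g.primeFactorsList.length = g.factorization r +
          (g / r ^ (g.factorization r)).primeFactorsList.length := by
        conv_lhs => rw [← h1]
        rw [(Nat.perm_primeFactorsList_mul h3 h2).length_eq, List.length_append,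
          hr.primeFactorsList_pow, List.length_replicate]
      have h5 : (g : ℝ) = (r : ℝ) ^ (g.factorization r) *
          ((g / r ^ (g.factorization r) : ℕ) : ℝ) := by
        exact_mod_cast h1.symm
      rw [hF]
      simp only
      rw [h4, pow_add]
      conv_lhs => rw [h5]
      rw [div_pow, mul_div_mul_comm]
    set K : ℕ := (G.sup (fun g => g.factorization r)) + 1 with hK
    set G' : Finset ℕ := G.image (fun g => g / r ^ (g.factorization r)) with hG'
    have hsub : ∑ g ∈ G, (9 / (r : ℝ)) ^ (g.factorization r) *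
        F (g / r ^ (g.factorization r)) ≤
        ∑ x ∈ (Finset.range K) ×ˢ G', (9 / (r : ℝ)) ^ x.1 * F x.2 := by
      have hinj : Set.InjOn (fun g : ℕ => (g.factorization r, g / r ^ (g.factorization r))) G := by
        intro g hg g' hg' hgg
        simp only [Prod.mk.injEq] at hgg
        have h1 := Nat.ordProj_mul_ordCompl_eq_self g r
        have h2 := Nat.ordProj_mul_ordCompl_eq_self g' r
        rw [← h1, ← h2, hgg.2, hgg.1]
      calc ∑ g ∈ G, (9 / (r : ℝ)) ^ (g.factorization r) * F (g / r ^ (g.factorization r))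
          = ∑ x ∈ G.image (fun g : ℕ => (g.factorization r, g / r ^ (g.factorization r))),
            (9 / (r : ℝ)) ^ x.1 * F x.2 := by
            rw [Finset.sum_image hinj]
        _ ≤ _ := by
            apply Finset.sum_le_sum_of_subset_of_nonneg
            · intro x hx
              obtain ⟨g, hg, rfl⟩ := Finset.mem_image.1 hx
              rw [Finset.mem_product, Finset.mem_range]
              refine ⟨?_, Finset.mem_image_of_mem _ hg⟩
              have := Finset.le_sup (f := fun g : ℕ => g.factorization r) hg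
              simp only at this ⊢
              omega
            · intro x _ _
              have := hF0 x.2
              positivity
    have hr9 : (9 : ℝ) / r ≤ 1 / 2 := by
      have : (18 : ℝ) ≤ r := by exact_mod_cast hr18
      rw [div_le_iff₀ (by linarith)]
      linarith
    have hr0 : (0 : ℝ) ≤ 9 / r := by positivity
    have hgeo : ∑ k ∈ Finset.range K, (9 / (r : ℝ)) ^ k ≤ (1 - 9 / (r : ℝ))⁻¹ := by
      have h1 := geom_sum_eq (x := 9 / (r : ℝ)) (by linarith) K
      rw [h1]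
      have h2 : (0 : ℝ) < 1 - 9 / r := by linarith
      rw [show ((9 / (r : ℝ)) ^ K - 1) / (9 / (r : ℝ) - 1) =
        (1 - (9 / (r : ℝ)) ^ K) / (1 - 9 / (r : ℝ)) by
          rw [← neg_sub, ← neg_sub (1 : ℝ) (9 / (r : ℝ)), neg_div_neg_eq]]
      rw [div_eq_mul_inv]
      have h3 : (0 : ℝ) ≤ (9 / (r : ℝ)) ^ K := by positivity
      have h4 : 0 ≤ (1 - 9 / (r : ℝ))⁻¹ := by positivity
      nlinarith
    have hih := ih (fun p hp => hq p (Finset.mem_insert_of_mem hp))
      (fun p hp => h18 p (Finset.mem_insert_of_mem hp)) G' (by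
        intro g' hg'
        obtain ⟨g, hg, rfl⟩ := Finset.mem_image.1 hg'
        have h1 := Nat.ordProj_mul_ordCompl_eq_self g r
        refine ⟨?_, ?_⟩
        · intro h0
          rw [h0, mul_zero] at h1
          exact (hG g hg).1 h1.symm
        · intro p hp hpg
          have h2 : p ∣ g := hpg.trans (Nat.ordCompl_dvd g r)
          have h3 := (hG g hg).2 p hp h2
          rcases Finset.mem_insert.1 h3 with h4 | h4
          · exfalso
            subst h4
            exact Nat.not_dvd_ordCompl hp (hG g hg).1 hpg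
          · exact h4)
    calc ∑ g ∈ G, F g = ∑ g ∈ G, (9 / (r : ℝ)) ^ (g.factorization r) *
          F (g / r ^ (g.factorization r)) := Finset.sum_congr rfl hdec
      _ ≤ ∑ x ∈ (Finset.range K) ×ˢ G', (9 / (r : ℝ)) ^ x.1 * F x.2 := hsub
      _ = (∑ k ∈ Finset.range K, (9 / (r : ℝ)) ^ k) * ∑ g ∈ G', F g := by
          rw [Finset.sum_product, Finset.sum_mul_sum]
      _ ≤ (1 - 9 / (r : ℝ))⁻¹ * ∏ p ∈ q, (1 - 9 / (p : ℝ))⁻¹ := by
          apply mul_le_mul hgeo hih (Finset.sum_nonneg (fun g _ => hF0 g))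
          have : (0 : ℝ) < 1 - 9 / r := by linarith
          positivity
      _ = ∏ p ∈ insert r q, (1 - 9 / (p : ℝ))⁻¹ := by rw [Finset.prod_insert hrq]

/-- the gcd of the coordinates -/
def gg (v : GaussianInt) : ℕ := Int.gcd v.re v.im

theorem gg_dvd (v : GaussianInt) : ((gg v : ℤ) : GaussianInt) ∣ v := by
  rw [Zsqrtd.intCast_dvd]
  exact ⟨Int.gcd_dvd_left .., Int.gcd_dvd_right ..⟩

theorem natCast_dvd_iff (n : ℕ) (v : GaussianInt) : ((n : ℤ) : GaussianInt) ∣ v ↔ n ∣ gg v := by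
  rw [Zsqrtd.intCast_dvd]
  unfold gg
  constructor
  · rintro ⟨h1, h2⟩
    exact Int.natCast_dvd_natCast.1 (by
      have := Int.dvd_coe_gcd h1 h2
      exact this)
  · intro h
    have h' : (n : ℤ) ∣ ((Int.gcd v.re v.im : ℕ) : ℤ) := Int.natCast_dvd_natCast.2 h
    exact ⟨h'.trans (Int.gcd_dvd_left ..), h'.trans (Int.gcd_dvd_right ..)⟩

theorem gg_pos {v : GaussianInt} (h : v ≠ 0) : gg v ≠ 0 := by
  intro h0
  unfold gg at h0
  rw [Int.gcd_eq_zero_iff] at h0
  exact h (Zsqrtd.ext h0.1 h0.2)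

/-- all rational primes dividing `v` lie in `q` -/
def GP (q : Finset ℕ) (v : GaussianInt) : Prop := ∀ p : ℕ, p.Prime → p ∣ gg v → p ∈ q

theorem norm_natCast (g : ℕ) : (((g : ℤ) : GaussianInt)).norm = (g : ℤ) ^ 2 := by
  rw [Zsqrtd.norm_def]; simp; ring

theorem om_natCast_le {Pi : Finset GaussianInt} (h : PSet Pi)
    (hN : ∀ p ∈ Pi, (p.norm.natAbs).Prime) (g : ℕ) (hg : g ≠ 0) :
    om Pi ((g : ℤ) : GaussianInt) ≤ 2 * g.primeFactorsList.length := by
  classical
  unfold om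
  set t := Pi.filter (fun p => p ∣ ((g : ℤ) : GaussianInt)) with ht
  have h1 : (∏ p ∈ t, p) ∣ ((g : ℤ) : GaussianInt) := by
    apply Finset.prod_dvd_of_coprime
    · intro p hp p' hp' hne
      exact h.coprime (Finset.mem_filter.1 hp).1 (Finset.mem_filter.1 hp').1 hne
    · intro p hp
      exact (Finset.mem_filter.1 hp).2
  have h2 : ∀ s : Finset GaussianInt, (∏ p ∈ s, p).norm.natAbs = ∏ p ∈ s, p.norm.natAbs := by
    intro s
    induction s using Finset.induction_on with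
    | empty => simp
    | insert a s has ih =>
      rw [Finset.prod_insert has, Finset.prod_insert has, Zsqrtd.norm_mul, Int.natAbs_mul, ih]
  have h3 : ∏ p ∈ t, p.norm.natAbs ∣ g ^ 2 := by
    rw [← h2]
    obtain ⟨w, hw⟩ := h1
    have h4 := congrArg Zsqrtd.norm hw
    rw [Zsqrtd.norm_mul, norm_natCast] at h4
    have h5 := congrArg Int.natAbs h4
    rw [Int.natAbs_mul, Int.natAbs_pow] at h5
    exact ⟨w.norm.natAbs, by simpa using h5⟩
  have h6 : (∏ p ∈ t, p.norm.natAbs).primeFactorsList.length = t.card := by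
    have key : ∀ s ⊆ t, (∏ p ∈ s, p.norm.natAbs).primeFactorsList.length = s.card := by
      intro s
      induction s using Finset.induction_on with
      | empty => simp
      | insert a s has ih =>
        intro hs
        have ha : a.norm.natAbs.Prime := hN a (Finset.mem_filter.1 (hs (Finset.mem_insert_self a s))).1
        have hs' : s ⊆ t := fun x hx => hs (Finset.mem_insert_of_mem hx)
        have hne : (∏ p ∈ s, p.norm.natAbs) ≠ 0 := by
          rw [Finset.prod_ne_zero_iff]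
          intro p hp
          exact (hN p (Finset.mem_filter.1 (hs' hp)).1).ne_zero
        rw [Finset.prod_insert has, (Nat.perm_primeFactorsList_mul ha.ne_zero hne).length_eq,
          List.length_append, ih hs', Nat.primeFactorsList_prime ha, Finset.card_insert_of_notMem has]
        simp [add_comm]
    exact key t (Finset.Subset.refl t)
  have h7 : g ^ 2 ≠ 0 := pow_ne_zero 2 hg
  have h8 : (g ^ 2).primeFactorsList.length = 2 * g.primeFactorsList.length := by
    rw [pow_two, (Nat.perm_primeFactorsList_mul hg hg).length_eq, List.length_append]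
    ring
  rw [← h6, ← h8]
  exact (Nat.primeFactorsList_sublist_of_dvd h3 h7).length_le

/-- the rational primes below `Pi` -/
noncomputable def nset (Pi : Finset GaussianInt) : Finset ℕ := Pi.image (fun p => p.norm.natAbs)

/-- the weighted count with the gcd -/
theorem sum_gcd {Pi : Finset GaussianInt} (h : PSet Pi)
    (hN : ∀ p ∈ Pi, (p.norm.natAbs).Prime) (h18 : ∀ p ∈ Pi, 18 ≤ p.norm.natAbs)
    (V : Finset GaussianInt) (X : ℝ) (hX : 0 ≤ X)
    (hV : ∀ v ∈ V, v ≠ 0 ∧ (v.norm : ℝ) ≤ X ∧ GP (nset Pi) v) :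
    ∑ v ∈ V, (3 : ℝ) ^ om Pi v * (gg v : ℝ) ≤
      9 * X * (∏ p ∈ Pi, (1 + 2 / (p.norm : ℝ))) *
        ∏ p ∈ nset Pi, (1 - 9 / (p : ℝ))⁻¹ := by
  classical
  set q := nset Pi with hq
  have hqp : ∀ p ∈ q, p.Prime := by
    intro p hp
    obtain ⟨a, ha, rfl⟩ := Finset.mem_image.1 hp
    exact hN a ha
  have hq18 : ∀ p ∈ q, 18 ≤ p := by
    intro p hp
    obtain ⟨a, ha, rfl⟩ := Finset.mem_image.1 hp
    exact h18 a ha
  set A : ℝ := ∏ p ∈ Pi, (1 + 2 / (p.norm : ℝ)) with hA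
  have hA0 : 0 ≤ A := Finset.prod_nonneg (fun p hp => by
    have := norm_pos_real (h.prime p hp).ne_zero
    positivity)
  -- fibres of the gcd
  have hfib : ∀ g ∈ V.image gg, ∑ v ∈ V.filter (fun v => gg v = g), (3 : ℝ) ^ om Pi v * (gg v : ℝ)
      ≤ ((9 : ℝ) ^ (g.primeFactorsList.length) / g) * (9 * X * A) := by
    intro g hg
    have hg0 : g ≠ 0 := by
      obtain ⟨v, hv, rfl⟩ := Finset.mem_image.1 hg
      exact gg_pos (hV v hv).1
    have hgR : (0 : ℝ) < g := by exact_mod_cast Nat.pos_of_ne_zero hg0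
    have hex : ∀ v : GaussianInt, ∃ w, (v ∈ V.filter (fun v => gg v = g)) →
        v = ((g : ℤ) : GaussianInt) * w := by
      intro v
      by_cases hv : v ∈ V.filter (fun v => gg v = g)
      · have h1 := (Finset.mem_filter.1 hv).2
        have h2 := gg_dvd v
        rw [h1] at h2
        obtain ⟨w, hw⟩ := h2
        exact ⟨w, fun _ => hw⟩
      · exact ⟨0, fun h => absurd h hv⟩
    choose f hf using hex
    have hinj : Set.InjOn f (V.filter (fun v => gg v = g)) := by
      intro u hu v hv huv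
      rw [hf u hu, hf v hv, huv]
    have hgne : ((g : ℤ) : GaussianInt) ≠ 0 := by
      intro h0
      have h1 := norm_natCast g
      rw [h0, Zsqrtd.norm_zero] at h1
      have h2 : ((g : ℤ)) = 0 := pow_eq_zero_iff (two_ne_zero) |>.1 h1.symm
      exact hg0 (by exact_mod_cast h2)
    calc ∑ v ∈ V.filter (fun v => gg v = g), (3 : ℝ) ^ om Pi v * (gg v : ℝ)
        ≤ ∑ v ∈ V.filter (fun v => gg v = g),
          ((9 : ℝ) ^ (g.primeFactorsList.length) * g) * (3 : ℝ) ^ om Pi (f v) := by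
          apply Finset.sum_le_sum
          intro v hv
          have h1 := (Finset.mem_filter.1 hv).2
          rw [h1]
          have h2 : om Pi v ≤ 2 * g.primeFactorsList.length + om Pi (f v) := by
            have h3 : om Pi v ≤ om Pi ((g : ℤ) : GaussianInt) + om Pi (f v) := by
              unfold om
              rw [← Finset.card_union_add_card_inter]
              refine le_trans (Finset.card_le_card ?_) (Nat.le_add_right _ _)
              intro p hp
              obtain ⟨hp1, hp2⟩ := Finset.mem_filter.1 hp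
              rw [Finset.mem_union, Finset.mem_filter, Finset.mem_filter]
              rw [hf v hv] at hp2
              rcases (h.prime p hp1).dvd_or_dvd hp2 with h4 | h4
              · left; exact ⟨hp1, h4⟩
              · right; exact ⟨hp1, h4⟩
            have h4 := om_natCast_le h hN g hg0
            omega
          have h5 : (3 : ℝ) ^ om Pi v ≤ (9 : ℝ) ^ (g.primeFactorsList.length) *
              (3 : ℝ) ^ om Pi (f v) := by
            calc (3 : ℝ) ^ om Pi v ≤ (3 : ℝ) ^ (2 * g.primeFactorsList.length + om Pi (f v)) :=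
                  pow_le_pow_right₀ (by norm_num) h2
              _ = _ := by rw [pow_add, pow_mul]; norm_num
          calc (3 : ℝ) ^ om Pi v * (g : ℝ) ≤ ((9 : ℝ) ^ (g.primeFactorsList.length) *
              (3 : ℝ) ^ om Pi (f v)) * g := mul_le_mul_of_nonneg_right h5 hgR.le
            _ = _ := by ring
      _ = ((9 : ℝ) ^ (g.primeFactorsList.length) * g) *
          ∑ w ∈ (V.filter (fun v => gg v = g)).image f, (3 : ℝ) ^ om Pi w := by
          rw [← Finset.mul_sum, Finset.sum_image hinj]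
      _ ≤ ((9 : ℝ) ^ (g.primeFactorsList.length) * g) * (9 * (X / (g : ℝ) ^ 2) * A) := by
          apply mul_le_mul_of_nonneg_left _ (by positivity)
          apply sum_three_pow h _ _ (by positivity)
          intro w hw
          obtain ⟨v, hv, rfl⟩ := Finset.mem_image.1 hw
          have h1 := hf v hv
          have h2 := hV v (Finset.mem_filter.1 hv).1
          constructor
          · intro h0
            rw [h0, mul_zero] at h1
            exact h2.1 h1
          · have h3 : (v.norm : ℝ) = (g : ℝ) ^ 2 * ((f v).norm : ℝ) := by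
              conv_lhs => rw [h1]
              rw [norm_mul_real, norm_natCast]
              push_cast
              ring
            rw [le_div_iff₀ (by positivity)]
            have h4 := h2.2.1
            rw [h3] at h4
            linarith
      _ = ((9 : ℝ) ^ (g.primeFactorsList.length) / g) * (9 * X * A) := by
          field_simp
  calc ∑ v ∈ V, (3 : ℝ) ^ om Pi v * (gg v : ℝ)
      = ∑ g ∈ V.image gg, ∑ v ∈ V.filter (fun v => gg v = g), (3 : ℝ) ^ om Pi v * (gg v : ℝ) := by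
        rw [Finset.sum_fiberwise_of_maps_to (fun v hv => Finset.mem_image_of_mem gg hv)]
    _ ≤ ∑ g ∈ V.image gg, ((9 : ℝ) ^ (g.primeFactorsList.length) / g) * (9 * X * A) :=
        Finset.sum_le_sum hfib
    _ = (∑ g ∈ V.image gg, ((9 : ℝ) ^ (g.primeFactorsList.length) / g)) * (9 * X * A) := by
        rw [Finset.sum_mul]
    _ ≤ (∏ p ∈ q, (1 - 9 / (p : ℝ))⁻¹) * (9 * X * A) := by
        apply mul_le_mul_of_nonneg_right _ (by positivity)
        apply sum_smooth q hqp hq18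
        intro g hg
        obtain ⟨v, hv, rfl⟩ := Finset.mem_image.1 hg
        exact ⟨gg_pos (hV v hv).1, (hV v hv).2.2⟩
    _ = _ := by ring

theorem gp_mul {Pi : Finset GaussianInt} (h : PSet Pi)
    (hN : ∀ p ∈ Pi, (p.norm.natAbs).Prime) {a v : GaussianInt} (ha : a ∈ Pi)
    (hv : GP (nset Pi) v) : GP (nset Pi) (a * v) := by
  classical
  intro p hp hpg
  by_contra hnot
  have h1 : ((p : ℤ) : GaussianInt) ∣ a * v := (natCast_dvd_iff p _).2 hpg
  have h2 : ¬ a ∣ ((p : ℤ) : GaussianInt) := by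
    intro h3
    obtain ⟨w, hw⟩ := h3
    have h4 := congrArg Zsqrtd.norm hw
    rw [Zsqrtd.norm_mul, norm_natCast] at h4
    have h5 := congrArg Int.natAbs h4
    rw [Int.natAbs_mul, Int.natAbs_pow] at h5
    have h6 : a.norm.natAbs ∣ p ^ 2 := ⟨w.norm.natAbs, by simpa using h5⟩
    have h7 : a.norm.natAbs ∣ p := (hN a ha).dvd_of_dvd_pow h6
    have h8 : a.norm.natAbs = p := (Nat.prime_dvd_prime_iff_eq (hN a ha) hp).1 h7
    exact hnot (Finset.mem_image.2 ⟨a, ha, h8⟩)
  have h3 : IsCoprime a ((p : ℤ) : GaussianInt) :=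
    ((h.prime a ha).irreducible.coprime_iff_not_dvd).2 h2
  have h4 : ((p : ℤ) : GaussianInt) ∣ v := h3.symm.dvd_of_dvd_mul_left h1
  exact hnot (hv p hp ((natCast_dvd_iff p v).1 h4))

/-- `Q ^ l R` as one sum over vectors -/
theorem rep {Pi : Finset GaussianInt} (h : PSet Pi)
    (hN : ∀ p ∈ Pi, (p.norm.natAbs).Prime) (P B1 Y B2 : ℝ) (hP : 0 < P) (hY : 0 < Y)
    (hB1 : 0 ≤ B1) (_hB2 : 0 ≤ B2)
    (hPi : ∀ p ∈ Pi, P ≤ (p.norm : ℝ) ∧ (p.norm : ℝ) ≤ B1 * P)
    (c : GaussianInt → ℂ) (hc : ∀ p ∈ Pi, ‖c p‖ ≤ 1)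
    (S : Finset GaussianInt)
    (hS : ∀ m ∈ S, gg m = 1 ∧ Y ≤ (m.norm : ℝ) ∧ (m.norm : ℝ) ≤ B2 * Y)
    (a : GaussianInt → ℂ) (ha : ∀ m ∈ S, ‖a m‖ ≤ 1) :
    ∀ l : ℕ, ∃ (V : Finset GaussianInt) (A : GaussianInt → ℂ),
      (∀ v ∈ V, v ≠ 0 ∧ P ^ l * Y ≤ (v.norm : ℝ) ∧ (v.norm : ℝ) ≤ B1 ^ l * B2 * (P ^ l * Y) ∧
        GP (nset Pi) v ∧ ‖A v‖ ≤ (om Pi v : ℝ) ^ l / (P ^ l * Y)) ∧
      ∀ j : ℤ, (∑ p ∈ Pi, c p / ((p.norm : ℝ) : ℂ) * zd p ^ j) ^ l *
        ((1 / (Y : ℂ)) * ∑ m ∈ S, a m * zd m ^ j) = ∑ v ∈ V, A v * zd v ^ j := by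
  classical
  intro l
  induction l with
  | zero =>
    refine ⟨S, fun m => a m / (Y : ℂ), ?_, ?_⟩
    · intro v hv
      obtain ⟨h1, h2, h3⟩ := hS v hv
      refine ⟨?_, by simpa using h2, by simpa using h3, ?_, ?_⟩
      · intro h0
        rw [h0, Zsqrtd.norm_zero] at h2
        simp at h2
        linarith
      · intro p hp hpg
        rw [h1] at hpg
        exact absurd (Nat.dvd_one.1 hpg) hp.one_lt.ne'
      · rw [norm_div, Complex.norm_real, Real.norm_of_nonneg hY.le]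
        simp only [pow_zero, one_mul]
        exact div_le_div_of_nonneg_right (ha v hv) hY.le
    · intro j
      rw [pow_zero, one_mul, Finset.mul_sum]
      apply Finset.sum_congr rfl
      intro m _
      ring
  | succ l ih =>
    obtain ⟨V, A, hV, hA⟩ := ih
    set V' : Finset GaussianInt := (Pi ×ˢ V).image (fun x => x.1 * x.2) with hV'
    set A' : GaussianInt → ℂ := fun w => ∑ x ∈ (Pi ×ˢ V).filter (fun x => x.1 * x.2 = w),
      c x.1 / ((x.1.norm : ℝ) : ℂ) * A x.2 with hA'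
    refine ⟨V', A', ?_, ?_⟩
    · intro w hw
      obtain ⟨⟨p, v⟩, hx, hpv⟩ := Finset.mem_image.1 hw
      simp only at hpv
      obtain ⟨hp, hv⟩ := Finset.mem_product.1 hx
      simp only at hp hv
      obtain ⟨v1, v2, v3, v4, v5⟩ := hV v hv
      have hp0 := (h.prime p hp).ne_zero
      have hpp := hPi p hp
      refine ⟨?_, ?_, ?_, ?_, ?_⟩
      · rw [← hpv]; exact mul_ne_zero hp0 v1
      · rw [← hpv, norm_mul_real, pow_succ]
        calc P ^ l * P * Y = P * (P ^ l * Y) := by ring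
          _ ≤ (p.norm : ℝ) * (v.norm : ℝ) :=
            mul_le_mul hpp.1 v2 (by positivity) (le_trans hP.le hpp.1)
      · rw [← hpv, norm_mul_real, pow_succ, pow_succ]
        calc (p.norm : ℝ) * (v.norm : ℝ) ≤ (B1 * P) * (B1 ^ l * B2 * (P ^ l * Y)) :=
              mul_le_mul hpp.2 v3 (norm_pos_real v1).le (by positivity)
          _ = _ := by ring
      · rw [← hpv]; exact gp_mul h hN hp v4
      · have hcard : (((Pi ×ˢ V).filter (fun x => x.1 * x.2 = w)).card : ℝ) ≤ om Pi w := by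
          norm_cast
          unfold om
          apply Finset.card_le_card_of_injOn (fun x => x.1)
          · intro x hx'
            obtain ⟨hx1, hx2⟩ := Finset.mem_filter.1 hx'
            rw [Finset.mem_coe, Finset.mem_filter]
            exact ⟨(Finset.mem_product.1 hx1).1, ⟨x.2, hx2.symm⟩⟩
          · intro x hx' y hy' hxy
            obtain ⟨hx1, hx2⟩ := Finset.mem_filter.1 hx'
            obtain ⟨hy1, hy2⟩ := Finset.mem_filter.1 hy'
            simp only at hxy
            have hx0 : x.1 ≠ 0 := (h.prime _ (Finset.mem_product.1 hx1).1).ne_zero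
            have h2 : x.1 * x.2 = x.1 * y.2 := by rw [hx2, hxy, hy2]
            exact Prod.ext hxy (mul_left_cancel₀ hx0 h2)
        have hterm : ∀ x ∈ (Pi ×ˢ V).filter (fun x => x.1 * x.2 = w),
            ‖c x.1 / ((x.1.norm : ℝ) : ℂ) * A x.2‖ ≤ (om Pi w : ℝ) ^ l / (P ^ (l + 1) * Y) := by
          intro x hx'
          obtain ⟨hx1, hx2⟩ := Finset.mem_filter.1 hx'
          obtain ⟨hx3, hx4⟩ := Finset.mem_product.1 hx1
          obtain ⟨w1, w2, w3, w4, w5⟩ := hV x.2 hx4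
          have hxp := hPi x.1 hx3
          have hn0 := norm_pos_real (h.prime x.1 hx3).ne_zero
          rw [norm_mul, norm_div, Complex.norm_real, Real.norm_of_nonneg hn0.le]
          have e1 : ‖c x.1‖ / (x.1.norm : ℝ) ≤ 1 / P := by
            calc ‖c x.1‖ / (x.1.norm : ℝ) ≤ 1 / (x.1.norm : ℝ) :=
                  div_le_div_of_nonneg_right (hc x.1 hx3) hn0.le
              _ ≤ 1 / P := one_div_le_one_div_of_le hP hxp.1
          have e2 : (om Pi x.2 : ℝ) ≤ om Pi w := by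
            have := om_le_of_dvd Pi (show x.2 ∣ w from ⟨x.1, by rw [← hx2]; ring⟩)
            exact_mod_cast this
          have e3 : ‖A x.2‖ ≤ (om Pi w : ℝ) ^ l / (P ^ l * Y) := by
            refine le_trans w5 ?_
            apply div_le_div_of_nonneg_right _ (by positivity)
            exact pow_le_pow_left₀ (by positivity) e2 l
          calc ‖c x.1‖ / (x.1.norm : ℝ) * ‖A x.2‖ ≤ (1 / P) * ((om Pi w : ℝ) ^ l / (P ^ l * Y)) :=
                mul_le_mul e1 e3 (norm_nonneg _) (by positivity)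
            _ = _ := by
                rw [pow_succ]
                field_simp
        calc ‖A' w‖ ≤ ∑ x ∈ (Pi ×ˢ V).filter (fun x => x.1 * x.2 = w),
              ‖c x.1 / ((x.1.norm : ℝ) : ℂ) * A x.2‖ := norm_sum_le _ _
          _ ≤ ∑ x ∈ (Pi ×ˢ V).filter (fun x => x.1 * x.2 = w),
              (om Pi w : ℝ) ^ l / (P ^ (l + 1) * Y) := Finset.sum_le_sum hterm
          _ = ((Pi ×ˢ V).filter (fun x => x.1 * x.2 = w)).card *
              ((om Pi w : ℝ) ^ l / (P ^ (l + 1) * Y)) := by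
              rw [Finset.sum_const, nsmul_eq_mul]
          _ ≤ (om Pi w : ℝ) * ((om Pi w : ℝ) ^ l / (P ^ (l + 1) * Y)) :=
              mul_le_mul_of_nonneg_right hcard (by positivity)
          _ = (om Pi w : ℝ) ^ (l + 1) / (P ^ (l + 1) * Y) := by
              rw [pow_succ (om Pi w : ℝ)]; ring
    · intro j
      rw [pow_succ', mul_assoc, hA j, Finset.sum_mul_sum, ← Finset.sum_product']
      have h1 : ∀ x ∈ Pi ×ˢ V, (fun x : GaussianInt × GaussianInt => x.1 * x.2) x ∈ V' :=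
        fun x hx => Finset.mem_image_of_mem _ hx
      rw [← Finset.sum_fiberwise_of_maps_to h1]
      apply Finset.sum_congr rfl
      intro w _
      rw [hA']
      simp only
      rw [Finset.sum_mul]
      apply Finset.sum_congr rfl
      intro x hx
      rw [← (Finset.mem_filter.1 hx).2, zd_mul, mul_zpow]
      ring

theorem pow_le_fact (n k : ℕ) : (n : ℝ) ^ (2 * k) ≤ ((2 * k).factorial : ℝ) * (3 : ℝ) ^ n := by
  have h1 := Real.pow_div_factorial_le_exp (n : ℝ) (Nat.cast_nonneg n) (2 * k)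
  have h2 : Real.exp (n : ℝ) ≤ (3 : ℝ) ^ n := by
    have h3 : Real.exp (n : ℝ) = (Real.exp 1) ^ n := by
      rw [← Real.exp_nat_mul, mul_one]
    rw [h3]
    apply pow_le_pow_left₀ (Real.exp_pos 1).le
    have := Real.exp_one_lt_d9
    linarith
  have h4 : (0 : ℝ) < ((2 * k).factorial : ℝ) := by exact_mod_cast Nat.factorial_pos _
  rw [div_le_iff₀ h4] at h1
  calc (n : ℝ) ^ (2 * k) ≤ Real.exp n * ((2 * k).factorial : ℝ) := h1
    _ ≤ (3 : ℝ) ^ n * ((2 * k).factorial : ℝ) := mul_le_mul_of_nonneg_right h2 h4.le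
    _ = _ := by ring

theorem prod_inv_le (q : Finset ℕ) (h18 : ∀ p ∈ q, 18 ≤ p) :
    ∏ p ∈ q, (1 - 9 / (p : ℝ))⁻¹ ≤ Real.exp (18 * ∑ p ∈ q, 1 / (p : ℝ)) := by
  rw [Finset.mul_sum, Real.exp_sum]
  apply Finset.prod_le_prod
  · intro p hp
    have h1 : (18 : ℝ) ≤ p := by exact_mod_cast h18 p hp
    have h2 : (9 : ℝ) / p ≤ 1 / 2 := by
      rw [div_le_iff₀ (by linarith)]; linarith
    have h3 : (0 : ℝ) < 1 - 9 / p := by linarith
    positivity
  · intro p hp
    have h1 : (18 : ℝ) ≤ p := by exact_mod_cast h18 p hp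
    have h2 : (9 : ℝ) / p ≤ 1 / 2 := by
      rw [div_le_iff₀ (by linarith)]; linarith
    have h3 : (0 : ℝ) < 1 - 9 / p := by linarith
    have h4 : (0 : ℝ) ≤ 9 / p := by positivity
    have h5 : (1 - 9 / (p : ℝ))⁻¹ ≤ 1 + 2 * (9 / p) := by
      rw [inv_le_iff_one_le_mul₀ h3]
      nlinarith
    calc (1 - 9 / (p : ℝ))⁻¹ ≤ 2 * (9 / p) + 1 := by linarith
      _ ≤ Real.exp (2 * (9 / p)) := Real.add_one_le_exp _
      _ = Real.exp (18 * (1 / (p : ℝ))) := by congr 1; ring

theorem prod_one_add_le (Pi : Finset GaussianInt) (h : ∀ p ∈ Pi, p ≠ 0) :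
    ∏ p ∈ Pi, (1 + 2 / (p.norm : ℝ)) ≤ Real.exp (2 * ∑ p ∈ Pi, 1 / (p.norm : ℝ)) := by
  rw [Finset.mul_sum, Real.exp_sum]
  apply Finset.prod_le_prod
  · intro p hp
    have := norm_pos_real (h p hp)
    positivity
  · intro p _
    calc 1 + 2 / (p.norm : ℝ) = 2 * (1 / (p.norm : ℝ)) + 1 := by ring
      _ ≤ Real.exp (2 * (1 / (p.norm : ℝ))) := Real.add_one_le_exp _

/-- MOM: moments of `Q ^ l R` -/
theorem mom {C : ℝ} (hC : 0 ≤ C) (hLS : LSG C) (Pi : Finset GaussianInt) (h : PSet Pi)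
    (hN : ∀ p ∈ Pi, (p.norm.natAbs).Prime) (P B1 Y B2 : ℝ) (hP : 18 ≤ P) (hY : 1 ≤ Y)
    (hB1 : 1 ≤ B1) (hB2 : 1 ≤ B2)
    (hPi : ∀ p ∈ Pi, P ≤ (p.norm : ℝ) ∧ (p.norm : ℝ) ≤ B1 * P)
    (c : GaussianInt → ℂ) (hc : ∀ p ∈ Pi, ‖c p‖ ≤ 1)
    (S : Finset GaussianInt)
    (hS : ∀ m ∈ S, gg m = 1 ∧ Y ≤ (m.norm : ℝ) ∧ (m.norm : ℝ) ≤ B2 * Y)
    (a : GaussianInt → ℂ) (ha : ∀ m ∈ S, ‖a m‖ ≤ 1) (l J : ℕ) :
    ∑ j ∈ Finset.Icc (-(J : ℤ)) J, ‖(∑ p ∈ Pi, c p / ((p.norm : ℝ) : ℂ) * zd p ^ j) ^ l *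
        ((1 / (Y : ℂ)) * ∑ m ∈ S, a m * zd m ^ j)‖ ^ 2 ≤
      18 * C * (B1 ^ l * B2) ^ 2 * ((2 * l).factorial : ℝ) * (1 + J / (P ^ l * Y)) *
        Real.exp (20 * ∑ p ∈ Pi, 1 / (p.norm : ℝ)) := by
  classical
  obtain ⟨V, A, hV, hA⟩ := rep h hN P B1 Y B2 (by linarith) (by linarith) (by linarith)
    (by linarith) hPi c hc S hS a ha l
  have hP0 : (0 : ℝ) < P := by linarith
  have hW : (1 : ℝ) ≤ P ^ l * Y := by
    have h1 : (1 : ℝ) ≤ P ^ l := one_le_pow₀ (by linarith)
    nlinarith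
  set W : ℝ := P ^ l * Y with hWd
  have hB : (1 : ℝ) ≤ B1 ^ l * B2 := by
    have h1 : (1 : ℝ) ≤ B1 ^ l := one_le_pow₀ hB1
    nlinarith
  set B : ℝ := B1 ^ l * B2 with hBd
  have hls := hLS V W B J A hW hB (fun v hv => ⟨(hV v hv).2.1, (hV v hv).2.2.1⟩)
  have h18 : ∀ p ∈ Pi, 18 ≤ p.norm.natAbs := by
    intro p hp
    have h1 : (18 : ℝ) ≤ (p.norm : ℝ) := le_trans hP (hPi p hp).1
    have h2 : (18 : ℤ) ≤ p.norm := by exact_mod_cast h1
    omega
  have hsum := sum_gcd h hN h18 V (B * W) (by positivity)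
    (fun v hv => ⟨(hV v hv).1, (hV v hv).2.2.1, (hV v hv).2.2.2.1⟩)
  have hn18 : ∀ p ∈ nset Pi, 18 ≤ p := by
    intro p hp
    obtain ⟨x, hx, rfl⟩ := Finset.mem_image.1 hp
    exact h18 x hx
  have hprod1 := prod_one_add_le Pi (fun p hp => (h.prime p hp).ne_zero)
  have hprod2 := prod_inv_le (nset Pi) hn18
  have hnsum : ∑ p ∈ nset Pi, 1 / (p : ℝ) ≤ ∑ p ∈ Pi, 1 / (p.norm : ℝ) := by
    unfold nset
    have h1 : ∑ p ∈ Pi, 1 / (p.norm : ℝ) =
        ∑ p ∈ Pi, 1 / ((p.norm.natAbs : ℕ) : ℝ) := by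
      apply Finset.sum_congr rfl
      intro p _
      congr 1
      rw [Nat.cast_natAbs, abs_of_nonneg (GaussianInt.norm_nonneg p)]
    rw [h1]
    exact Finset.sum_image_le_of_nonneg (fun p _ => by positivity)
  have hE0 : 0 ≤ ∑ p ∈ Pi, 1 / (p.norm : ℝ) := Finset.sum_nonneg (fun p hp => by
    have := norm_pos_real (h.prime p hp).ne_zero
    positivity)
  set E : ℝ := ∑ p ∈ Pi, 1 / (p.norm : ℝ) with hEd
  have hprod : (∏ p ∈ Pi, (1 + 2 / (p.norm : ℝ))) * ∏ p ∈ nset Pi, (1 - 9 / (p : ℝ))⁻¹ ≤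
      Real.exp (20 * E) := by
    calc (∏ p ∈ Pi, (1 + 2 / (p.norm : ℝ))) * ∏ p ∈ nset Pi, (1 - 9 / (p : ℝ))⁻¹
        ≤ Real.exp (2 * E) * Real.exp (18 * ∑ p ∈ nset Pi, 1 / (p : ℝ)) := by
          apply mul_le_mul hprod1 hprod2 _ (Real.exp_pos _).le
          apply Finset.prod_nonneg
          intro p hp
          have h1 : (18 : ℝ) ≤ p := by exact_mod_cast hn18 p hp
          have h2 : (9 : ℝ) / p ≤ 1 / 2 := by
            rw [div_le_iff₀ (by linarith)]; linarith
          have h3 : (0 : ℝ) < 1 - 9 / p := by linarith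
          positivity
      _ ≤ Real.exp (2 * E) * Real.exp (18 * E) := by
          apply mul_le_mul_of_nonneg_left _ (Real.exp_pos _).le
          apply Real.exp_le_exp.2
          linarith
      _ = Real.exp (20 * E) := by rw [← Real.exp_add]; congr 1; ring
  have hterm : ∀ v ∈ V, ‖A v‖ ^ 2 * (W + (J + 1) * (Int.gcd v.re v.im : ℝ)) ≤
      (((2 * l).factorial : ℝ) * (2 / W) * (1 + J / W)) * ((3 : ℝ) ^ om Pi v * (gg v : ℝ)) := by
    intro v hv
    obtain ⟨v1, v2, v3, v4, v5⟩ := hV v hv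
    have hg1 : (1 : ℝ) ≤ (gg v : ℝ) := by
      have := Nat.pos_of_ne_zero (gg_pos v1)
      exact_mod_cast this
    have e1 : ‖A v‖ ^ 2 ≤ ((2 * l).factorial : ℝ) * (3 : ℝ) ^ om Pi v / W ^ 2 := by
      calc ‖A v‖ ^ 2 ≤ ((om Pi v : ℝ) ^ l / W) ^ 2 :=
            pow_le_pow_left₀ (_root_.norm_nonneg (A v)) v5 2
        _ = (om Pi v : ℝ) ^ (2 * l) / W ^ 2 := by
            rw [div_pow, ← pow_mul, mul_comm l 2]
        _ ≤ _ := div_le_div_of_nonneg_right (pow_le_fact _ _) (by positivity)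
    have e2 : W + (J + 1) * (Int.gcd v.re v.im : ℝ) ≤ 2 * W * (1 + J / W) * (gg v : ℝ) := by
      have e3 : ((Int.gcd v.re v.im : ℕ) : ℝ) = (gg v : ℝ) := rfl
      rw [e3]
      have e4 : 2 * W * (1 + J / W) = 2 * W + 2 * J := by field_simp
      rw [e4]
      have hJ : (0 : ℝ) ≤ J := Nat.cast_nonneg J
      nlinarith
    have hgR : (0 : ℝ) ≤ W + (J + 1) * (Int.gcd v.re v.im : ℝ) := by positivity
    calc ‖A v‖ ^ 2 * (W + (J + 1) * (Int.gcd v.re v.im : ℝ))
        ≤ (((2 * l).factorial : ℝ) * (3 : ℝ) ^ om Pi v / W ^ 2) *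
          (2 * W * (1 + J / W) * (gg v : ℝ)) := mul_le_mul e1 e2 hgR (by positivity)
      _ = _ := by field_simp
  have hmain : ∑ v ∈ V, ‖A v‖ ^ 2 * (W + (J + 1) * (Int.gcd v.re v.im : ℝ)) ≤
      (((2 * l).factorial : ℝ) * (2 / W) * (1 + J / W)) * (9 * (B * W) * Real.exp (20 * E)) := by
    calc ∑ v ∈ V, ‖A v‖ ^ 2 * (W + (J + 1) * (Int.gcd v.re v.im : ℝ))
        ≤ ∑ v ∈ V, (((2 * l).factorial : ℝ) * (2 / W) * (1 + J / W)) *
          ((3 : ℝ) ^ om Pi v * (gg v : ℝ)) := Finset.sum_le_sum hterm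
      _ = (((2 * l).factorial : ℝ) * (2 / W) * (1 + J / W)) *
          ∑ v ∈ V, ((3 : ℝ) ^ om Pi v * (gg v : ℝ)) := by rw [Finset.mul_sum]
      _ ≤ _ := by
          apply mul_le_mul_of_nonneg_left _ (by positivity)
          calc ∑ v ∈ V, ((3 : ℝ) ^ om Pi v * (gg v : ℝ)) ≤ _ := hsum
            _ = 9 * (B * W) * ((∏ p ∈ Pi, (1 + 2 / (p.norm : ℝ))) *
                ∏ p ∈ nset Pi, (1 - 9 / (p : ℝ))⁻¹) := by ring
            _ ≤ _ := mul_le_mul_of_nonneg_left hprod (by positivity)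
  calc ∑ j ∈ Finset.Icc (-(J : ℤ)) J, ‖(∑ p ∈ Pi, c p / ((p.norm : ℝ) : ℂ) * zd p ^ j) ^ l *
        ((1 / (Y : ℂ)) * ∑ m ∈ S, a m * zd m ^ j)‖ ^ 2
      = ∑ j ∈ Finset.Icc (-(J : ℤ)) J, ‖∑ v ∈ V, A v * zd v ^ j‖ ^ 2 := by
        apply Finset.sum_congr rfl
        intro j _
        rw [hA j]
    _ ≤ C * B * ∑ v ∈ V, ‖A v‖ ^ 2 * (W + (J + 1) * (Int.gcd v.re v.im : ℝ)) := hls
    _ ≤ C * B * ((((2 * l).factorial : ℝ) * (2 / W) * (1 + J / W)) *
          (9 * (B * W) * Real.exp (20 * E))) :=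
        mul_le_mul_of_nonneg_left hmain (by positivity)
    _ = _ := by field_simp; ring

end Pool.Agent.MRS16
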