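import Pool.Agent.Lib.MP_a17b09_nt.MRS.Stmts3
import Pool.Agent.Lib.MP_a17b09_nt.MRS.Mom16

/-!
MRS, decomposition by slices: the pairs `(π, m)` with `m` primitive and `π m` not primitive.
-/

set_option autoImplicit false

open Finset

namespace Pool.Agent.Lib.MP_a17b09_nt.MRS.Dec21

theorem nm_norm (v : GaussianInt) : (nm v : ℝ) = (v.norm : ℝ) := by
  have h1 : ((nm v : ℕ) : ℤ) = v.norm := by
    unfold nm
    exact Int.natAbs_of_nonneg (GaussianInt.norm_nonneg v)
  exact_mod_cast h1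

theorem nm_star (v : GaussianInt) : nm (star v) = nm v := by
  unfold nm
  rw [Zsqrtd.norm_conj]

theorem mul_star21 (v : GaussianInt) : v * star v = (((nm v : ℕ) : ℤ) : GaussianInt) := by
  rw [← Zsqrtd.norm_eq_mul_conj]
  congr 1
  unfold nm
  exact (Int.natAbs_of_nonneg (GaussianInt.norm_nonneg v)).symm

theorem ag_nat {p : ℕ} (hp : 0 < p) : ag ((p : ℤ) : GaussianInt) = 1 := by
  unfold ag
  have h1 : GaussianInt.toComplex ((p : ℤ) : GaussianInt) = ((p : ℝ) : ℂ) := by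
    simp
  rw [h1, Complex.norm_real, Real.norm_of_nonneg (Nat.cast_nonneg p)]
  exact div_self (by exact_mod_cast hp.ne')

theorem ag_conj {π : GaussianInt} (hp : 0 < nm π) (w : GaussianInt) :
    ag (π * (star π * w)) = ag w := by
  rw [← mul_assoc, mul_star21, ag_mul, ag_nat hp, one_mul]

theorem nm_conj (π w : GaussianInt) : nm (π * (star π * w)) = nm π ^ 2 * nm w := by
  rw [nm_mul, nm_mul, nm_star]
  ring

theorem pv_ne {v : GaussianInt} (h : Pv v) : v ≠ 0 := by
  rintro rfl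
  unfold Pv at h
  simp at h

theorem pv_of_dvd {v w : GaussianInt} (hv : Pv v) (h : w ∣ v) : Pv w := by
  have h1 : ((MRS16.gg w : ℤ) : GaussianInt) ∣ v := (MRS16.gg_dvd w).trans h
  rw [MRS16.natCast_dvd_iff] at h1
  have h2 : MRS16.gg v = 1 := hv
  rw [h2, Nat.dvd_one] at h1
  exact h1

/-- if `m` is primitive and `π m` is not, then the conjugate of `π` divides `m` -/
theorem conj_dvd {π m : GaussianInt} (hp : (nm π).Prime) (hm : Pv m) (h : ¬ Pv (π * m)) :
    ∃ w, m = star π * w ∧ Pv w := by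
  have hg : MRS16.gg (π * m) ≠ 1 := h
  obtain ⟨q, hq, hqg⟩ := Nat.exists_prime_and_dvd hg
  have h1 : ((q : ℤ) : GaussianInt) ∣ π * m := (MRS16.natCast_dvd_iff q _).2 hqg
  have hπ0 : π ≠ 0 := by
    rintro rfl
    have : nm (0 : GaussianInt) = 0 := nm_eq_zero.2 rfl
    rw [this] at hp
    exact Nat.not_prime_zero hp
  have h2 : ((q : ℤ) : GaussianInt) ∣ (((nm π : ℕ) : ℤ) : GaussianInt) * m := by
    have e : (((nm π : ℕ) : ℤ) : GaussianInt) * m = star π * (π * m) := by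
      rw [← mul_star21]
      ring
    rw [e]
    exact h1.mul_left _
  have hqp : q = nm π := by
    by_contra hne
    have hco : IsCoprime (q : ℤ) ((nm π : ℕ) : ℤ) := by
      rw [Nat.isCoprime_iff_coprime]
      exact (Nat.coprime_primes hq hp).2 hne
    have h3 : ((q : ℤ) : GaussianInt) ∣ m := by
      rw [Zsqrtd.intCast_dvd] at h2 ⊢
      obtain ⟨ha, hb⟩ := h2
      rw [Zsqrtd.re_smul] at ha
      rw [Zsqrtd.im_smul] at hb
      exact ⟨hco.dvd_of_dvd_mul_left ha, hco.dvd_of_dvd_mul_left hb⟩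
    rw [MRS16.natCast_dvd_iff] at h3
    have h4 : MRS16.gg m = 1 := hm
    rw [h4, Nat.dvd_one] at h3
    exact hq.one_lt.ne' h3
  rw [hqp, ← mul_star21] at h1
  obtain ⟨w, hw⟩ := (mul_dvd_mul_iff_left hπ0).1 h1
  exact ⟨w, hw, pv_of_dvd hm (Dvd.intro_left _ hw.symm)⟩

/-- the pointwise inequality -/
theorem sq_le (P : Finset GaussianInt) (hP : ∀ π ∈ P, π ≠ 0) (x : GaussianInt → ℝ)
    (hx : ∀ π, x π = 0 ∨ x π = 1) :
    (∑ π ∈ P, x π) ^ 2 ≤ 18 * ∑ π ∈ P, x π * nm π := by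
  classical
  have hx0 : ∀ π, 0 ≤ x π := by
    intro π
    rcases hx π with h | h <;> rw [h] <;> norm_num
  have h1 : ∀ π ∈ P, ∀ π' ∈ P, x π * x π' ≤
      x π * (if nm π' ≤ nm π then 1 else 0) + x π' * (if nm π ≤ nm π' then 1 else 0) := by
    intro π _ π' _
    rcases hx π with h | h <;> rcases hx π' with h' | h' <;> (rw [h, h']; split_ifs) <;>
      first | (exfalso; omega) | norm_num
  have hK : ∀ π ∈ P, (∑ π' ∈ P, (if nm π' ≤ nm π then (1 : ℝ) else 0)) ≤ 9 * nm π := by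
    intro π _
    rw [Finset.sum_ite, Finset.sum_const_zero, add_zero, Finset.sum_const, nsmul_eq_mul, mul_one]
    refine MRS16.card_ball _ (nm π) (Nat.cast_nonneg _) ?_
    intro u hu
    rw [Finset.mem_filter] at hu
    refine ⟨hP u hu.1, ?_⟩
    rw [← nm_norm]
    exact_mod_cast hu.2
  calc (∑ π ∈ P, x π) ^ 2 = ∑ π ∈ P, ∑ π' ∈ P, x π * x π' := by
        rw [sq, Finset.sum_mul_sum]
    _ ≤ ∑ π ∈ P, ∑ π' ∈ P, (x π * (if nm π' ≤ nm π then 1 else 0) +
          x π' * (if nm π ≤ nm π' then 1 else 0)) :=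
        Finset.sum_le_sum fun π hπ => Finset.sum_le_sum fun π' hπ' => h1 π hπ π' hπ'
    _ = 2 * ∑ π ∈ P, x π * ∑ π' ∈ P, (if nm π' ≤ nm π then (1 : ℝ) else 0) := by
        simp only [Finset.sum_add_distrib]
        have e : ∑ π ∈ P, ∑ π' ∈ P, x π' * (if nm π ≤ nm π' then (1 : ℝ) else 0) =
            ∑ π ∈ P, ∑ π' ∈ P, x π * (if nm π' ≤ nm π then (1 : ℝ) else 0) :=
          Finset.sum_comm
        rw [e]
        simp only [← Finset.mul_sum]
        ring
    _ ≤ 2 * ∑ π ∈ P, x π * (9 * nm π) := by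
        apply mul_le_mul_of_nonneg_left _ (by norm_num)
        exact Finset.sum_le_sum fun π hπ => mul_le_mul_of_nonneg_left (hK π hπ) (hx0 π)
    _ = 18 * ∑ π ∈ P, x π * nm π := by
        rw [Finset.mul_sum, Finset.mul_sum]
        refine Finset.sum_congr rfl fun π _ => ?_
        ring

theorem mem_sl {a b : ℝ} {v : GaussianInt} : v ∈ sl a b ↔
    0 < v.re ∧ 0 < v.im ∧ (nm v).Prime ∧ a ≤ nm v ∧ (nm v : ℝ) < b := by
  unfold sl
  rw [Finset.mem_filter, mem_Sh]
  constructor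
  · exact fun h => h.2
  · intro h
    have h0 : v ≠ 0 := by
      rintro rfl
      exact absurd h.1 (by simp)
    refine ⟨⟨h0, ?_, h.2.2.2.2.le⟩, h⟩
    exact_mod_cast h.2.2.1.pos

/-- **pairs with `π m` not primitive** -/
theorem conj_21 (hL : StLsp) (B : ℝ) (hB : 1 ≤ B) : ∃ C : ℝ, 0 < C ∧ ∀ (N : ℝ), 1 ≤ N →
    ∀ (b : ℝ) (P : Finset GaussianInt), P ⊆ sl 1 b → ∀ J : ℕ, (J : ℝ) ≤ N →
    ∀ S : Finset GaussianInt, (∀ m ∈ S, Pv m) → ∀ c : GaussianInt → GaussianInt → ℂ,
    (∀ π m, ‖c π m‖ ≤ 1) →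
    (∀ π ∈ P, ∀ m ∈ S, c π m ≠ 0 → ¬ Pv (π * m) ∧ (nm (π * m) : ℝ) ≤ B * N) →
    ∑ j ∈ js J, ‖(1 / (N : ℂ)) * ∑ π ∈ P, ∑ m ∈ S, c π m * ag (π * m) ^ j‖ ^ 2 ≤
      C * ∑ π ∈ P, 1 / (nm π : ℝ) := by
  classical
  obtain ⟨C1, hC1, hls⟩ := hL
  refine ⟨324 * B ^ 2 * C1, by positivity, ?_⟩
  intro N hN b P hPb J hJ S hS c hc1 hc
  have hN0 : (0 : ℝ) < N := by linarith
  have hBN : 1 ≤ B * N := by nlinarith
  have hPp : ∀ π ∈ P, (nm π).Prime := fun π hπ => (mem_sl.1 (hPb hπ)).2.2.1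
  have hP0 : ∀ π ∈ P, π ≠ 0 := by
    intro π hπ h0
    have := hPp π hπ
    rw [nm_eq_zero.2 h0] at this
    exact Nat.not_prime_zero this
  obtain ⟨V, hVmem⟩ : ∃ V : Finset GaussianInt, ∀ w, w ∈ V ↔ Pv w ∧ (nm w : ℝ) ≤ B * N := by
    refine ⟨(Sh 0 (B * N)).filter Pv, fun w => ?_⟩
    rw [Finset.mem_filter, mem_Sh]
    constructor
    · rintro ⟨⟨_, _, h⟩, h'⟩
      exact ⟨h', h⟩
    · rintro ⟨h, h'⟩
      refine ⟨⟨pv_ne h, ?_, h'⟩, h⟩
      have : nm w ≠ 0 := mt nm_eq_zero.1 (pv_ne h)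
      exact_mod_cast Nat.pos_of_ne_zero this
  set e : GaussianInt → ℂ := fun w => ∑ π ∈ P, if star π * w ∈ S then c π (star π * w) else 0
    with he
  -- regrouping
  have hkey : ∀ π ∈ P, ∀ j : ℤ, ∑ m ∈ S, c π m * ag (π * m) ^ j =
      ∑ w ∈ V, (if star π * w ∈ S then c π (star π * w) else 0) * ag w ^ j := by
    intro π hπ j
    have hpos : 0 < nm π := (hPp π hπ).pos
    have hs0 : star π ≠ 0 := by
      intro h
      exact hP0 π hπ (star_eq_zero.1 h)
    have h1 : ∑ w ∈ V, (if star π * w ∈ S then c π (star π * w) else 0) * ag w ^ j =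
        ∑ w ∈ V.filter (fun w => star π * w ∈ S),
          c π (star π * w) * ag (π * (star π * w)) ^ j := by
      rw [Finset.sum_filter]
      refine Finset.sum_congr rfl fun w _ => ?_
      rw [ag_conj hpos]
      split_ifs
      · rfl
      · rw [zero_mul]
    have h2 : ∑ w ∈ V.filter (fun w => star π * w ∈ S),
          c π (star π * w) * ag (π * (star π * w)) ^ j =
        ∑ m ∈ (V.filter (fun w => star π * w ∈ S)).image (fun w => star π * w),
          c π m * ag (π * m) ^ j := by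
      rw [Finset.sum_image]
      intro x _ y _ hxy
      exact mul_left_cancel₀ hs0 hxy
    rw [h1, h2]
    symm
    apply Finset.sum_subset
    · intro m hm
      obtain ⟨w, hw, rfl⟩ := Finset.mem_image.1 hm
      exact (Finset.mem_filter.1 hw).2
    · intro m hm hnot
      by_cases h0 : c π m = 0
      · rw [h0, zero_mul]
      · exfalso
        apply hnot
        obtain ⟨hnp, hle⟩ := hc π hπ m hm h0
        obtain ⟨w, rfl, hw⟩ := conj_dvd (hPp π hπ) (hS m hm) hnp
        rw [Finset.mem_image]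
        refine ⟨w, ?_, rfl⟩
        rw [Finset.mem_filter, hVmem]
        refine ⟨⟨hw, ?_⟩, hm⟩
        rw [nm_conj] at hle
        push_cast at hle
        have h3 : (1 : ℝ) ≤ (nm π : ℝ) ^ 2 := by
          have : (1 : ℝ) ≤ nm π := by exact_mod_cast hpos
          nlinarith
        have h4 : (0 : ℝ) ≤ nm w := Nat.cast_nonneg _
        nlinarith
  have hsum : ∀ j : ℤ, ∑ π ∈ P, ∑ m ∈ S, c π m * ag (π * m) ^ j = ∑ w ∈ V, e w * ag w ^ j := by
    intro j
    rw [Finset.sum_congr rfl fun π hπ => hkey π hπ j, Finset.sum_comm]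
    refine Finset.sum_congr rfl fun w _ => ?_
    rw [he, Finset.sum_mul]
  -- the coefficients
  set x : GaussianInt → GaussianInt → ℝ := fun w π =>
    if (nm π : ℝ) ^ 2 * nm w ≤ B * N then 1 else 0 with hx
  have hex : ∀ w, ‖e w‖ ≤ ∑ π ∈ P, x w π := by
    intro w
    rw [he]
    refine (norm_sum_le _ _).trans (Finset.sum_le_sum fun π hπ => ?_)
    rw [hx]
    simp only
    have hx0 : (0 : ℝ) ≤ if (nm π : ℝ) ^ 2 * nm w ≤ B * N then 1 else 0 := by
      split_ifs <;> norm_num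
    by_cases hm : star π * w ∈ S
    · rw [if_pos hm]
      by_cases h0 : c π (star π * w) = 0
      · rw [h0, norm_zero]
        exact hx0
      · have h1 := (hc π hπ _ hm h0).2
        rw [nm_conj] at h1
        push_cast at h1
        rw [if_pos h1]
        exact hc1 _ _
    · rw [if_neg hm, norm_zero]
      exact hx0
  have hE : ∑ w ∈ V, ‖e w‖ ^ 2 ≤ 162 * B * N * ∑ π ∈ P, 1 / (nm π : ℝ) := by
    calc ∑ w ∈ V, ‖e w‖ ^ 2 ≤ ∑ w ∈ V, (∑ π ∈ P, x w π) ^ 2 :=
          Finset.sum_le_sum fun w _ => pow_le_pow_left₀ (norm_nonneg _) (hex w) 2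
      _ ≤ ∑ w ∈ V, 18 * ∑ π ∈ P, x w π * nm π := by
          refine Finset.sum_le_sum fun w _ => sq_le P hP0 (x w) fun π => ?_
          rw [hx]
          simp only
          split_ifs
          · right; rfl
          · left; rfl
      _ = 18 * ∑ π ∈ P, (∑ w ∈ V, x w π) * nm π := by
          rw [← Finset.mul_sum, Finset.sum_comm]
          congr 1
          refine Finset.sum_congr rfl fun π _ => ?_
          rw [Finset.sum_mul]
      _ ≤ 18 * ∑ π ∈ P, (9 * (B * N / (nm π : ℝ) ^ 2)) * nm π := by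
          apply mul_le_mul_of_nonneg_left _ (by norm_num)
          refine Finset.sum_le_sum fun π hπ => ?_
          have hpos : (0 : ℝ) < nm π := by exact_mod_cast (hPp π hπ).pos
          refine mul_le_mul_of_nonneg_right ?_ hpos.le
          rw [hx]
          simp only
          rw [Finset.sum_ite, Finset.sum_const_zero, add_zero, Finset.sum_const, nsmul_eq_mul,
            mul_one]
          refine MRS16.card_ball _ _ (by positivity) ?_
          intro u hu
          rw [Finset.mem_filter, hVmem] at hu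
          refine ⟨pv_ne hu.1.1, ?_⟩
          rw [← nm_norm, le_div_iff₀ (by positivity)]
          linarith [hu.2]
      _ = 162 * B * N * ∑ π ∈ P, 1 / (nm π : ℝ) := by
          rw [Finset.mul_sum, Finset.mul_sum]
          refine Finset.sum_congr rfl fun π hπ => ?_
          have hpos : (0 : ℝ) < nm π := by exact_mod_cast (hPp π hπ).pos
          field_simp
          ring
  have hmain := hls (B * N) J hBN V (fun w hw => (hVmem w).1 hw) e
  have hW : 0 ≤ ∑ π ∈ P, 1 / (nm π : ℝ) := Finset.sum_nonneg fun π _ => by positivity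
  calc ∑ j ∈ js J, ‖(1 / (N : ℂ)) * ∑ π ∈ P, ∑ m ∈ S, c π m * ag (π * m) ^ j‖ ^ 2
      = (1 / N) ^ 2 * ∑ j ∈ js J, ‖∑ w ∈ V, e w * ag w ^ j‖ ^ 2 := by
        rw [Finset.mul_sum]
        refine Finset.sum_congr rfl fun j _ => ?_
        rw [hsum j, norm_mul, mul_pow, norm_div, norm_one, Complex.norm_real,
          Real.norm_of_nonneg hN0.le]
    _ ≤ (1 / N) ^ 2 * (C1 * (B * N + J) * ∑ w ∈ V, ‖e w‖ ^ 2) :=
        mul_le_mul_of_nonneg_left hmain (by positivity)
    _ ≤ (1 / N) ^ 2 * (C1 * (B * N + B * N) * (162 * B * N * ∑ π ∈ P, 1 / (nm π : ℝ))) := by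
        apply mul_le_mul_of_nonneg_left _ (by positivity)
        apply mul_le_mul _ hE (Finset.sum_nonneg fun w _ => by positivity) (by positivity)
        apply mul_le_mul_of_nonneg_left _ hC1.le
        nlinarith
    _ = 324 * B ^ 2 * C1 * ∑ π ∈ P, 1 / (nm π : ℝ) := by
        field_simp
        ring

end Pool.Agent.Lib.MP_a17b09_nt.MRS.Dec21
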