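import Pool.Agent.Lib.MP_a17b09_nt.MRS.Dec21

/-!
MRS, decomposition by slices: the identity and the final estimate, `stDec2_21`.
-/

set_option autoImplicit false

open Finset

namespace Pool.Agent.Lib.MP_a17b09_nt.MRS.Dec21

/-- the coefficient -/
noncomputable def cf (z : ℂ) (ψ : GaussianInt → ℂ) (v : GaussianInt) : ℂ :=
  z ^ (ArithmeticFunction.cardFactors (nm v)) * ψ v

theorem FF_cf (z : ℂ) (ψ : GaussianInt → ℂ) (j : ℤ) (v : GaussianInt) :
    FF z ψ j v = cf z ψ v * ag v ^ j := rfl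

theorem norm_cf {z : ℂ} (hz : ‖z‖ = 1) {K : ℕ} {ψ : GaussianInt → ℂ} (hψ : Chr K ψ)
    (v : GaussianInt) : ‖cf z ψ v‖ ≤ 1 := by
  unfold cf
  rw [norm_mul, norm_pow, hz, one_pow, one_mul]
  by_cases h : IsCoprime v (K : GaussianInt)
  · exact (hψ.nrm v h).le
  · rw [hψ.zer v h, norm_zero]
    exact zero_le_one

/-- the main term as a sum over pairs -/
theorem pairs (z : ℂ) {K : ℕ} {ψ : GaussianInt → ℂ} (hψ : Chr K ψ) {r1 r2 : ℝ} (hr1 : 0 < r1)
    (hr : r1 < r2) {h : ℕ} (hh : 0 < h) (u0 u1 : ℕ) {N : ℝ} (hN : 0 < N) (j : ℤ)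
    (G : Finset GaussianInt) (hG : ∀ m, m ∈ G ↔ Pv m ∧ (nm m : ℝ) ≤ r2 * N) :
    ∑ u ∈ Finset.Ico u0 u1, Qs z ψ h u j * Mp z ψ r1 r2 (N * Real.exp (-(u / h))) j =
      (1 / (N : ℂ)) * ∑ π ∈ sl (Real.exp (u0 / h)) (Real.exp (u1 / h)), ∑ m ∈ G,
        (bw h r1 r2 N π m : ℂ) * FF z ψ j (π * m) := by
  classical
  have hh0 : (0 : ℝ) < h := by exact_mod_cast hh
  set P := sl (Real.exp (u0 / h)) (Real.exp (u1 / h)) with hP
  have hslice : ∀ u ∈ Finset.Ico u0 u1, sl (Real.exp (u / h)) (Real.exp ((u + 1) / h)) =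
      P.filter (fun π => usl h π = u) := by
    intro u hu
    rw [Finset.mem_Ico] at hu
    ext π
    rw [Finset.mem_filter, hP, mem_slice1 hh, mem_slice hh]
    constructor
    · rintro ⟨h1, h2⟩
      exact ⟨⟨h1, by omega, by omega⟩, h2⟩
    · rintro ⟨⟨h1, _⟩, h2⟩
      exact ⟨h1, h2⟩
  have hmaps : ∀ π ∈ P, usl h π ∈ Finset.Ico u0 u1 := by
    intro π hπ
    rw [hP, mem_slice hh] at hπ
    exact Finset.mem_Ico.2 hπ.2
  have h1 : ∑ u ∈ Finset.Ico u0 u1, Qs z ψ h u j * Mp z ψ r1 r2 (N * Real.exp (-(u / h))) j =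
      ∑ π ∈ P, FF z ψ j π / (nm π : ℂ) *
        Mp z ψ r1 r2 (N * Real.exp (-(usl h π / h))) j := by
    rw [← Finset.sum_fiberwise_of_maps_to hmaps]
    refine Finset.sum_congr rfl fun u hu => ?_
    unfold Qs
    rw [hslice u hu, Finset.sum_mul]
    refine Finset.sum_congr rfl fun π hπ => ?_
    rw [(Finset.mem_filter.1 hπ).2]
  rw [h1, Finset.mul_sum]
  refine Finset.sum_congr rfl fun π hπ => ?_
  have hπ' := hπ
  rw [hP, mem_slice hh] at hπ'
  have hpos : 0 < nm π := hπ'.1.2.2.pos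
  have hπ0 : π ≠ 0 := by
    intro h0
    rw [nm_eq_zero.2 h0] at hpos
    exact lt_irrefl _ hpos
  set Nu : ℝ := N * Real.exp (-(usl h π / h)) with hNu
  have hNu0 : 0 < Nu := by positivity
  have hNuN : Nu ≤ N := by
    rw [hNu]
    apply mul_le_of_le_one_right hN.le
    rw [Real.exp_le_one_iff, neg_nonpos]
    positivity
  have hset : (Sh (r1 * Nu) (r2 * Nu)).filter Pv =
      G.filter (fun m => r1 * Nu < nm m ∧ (nm m : ℝ) ≤ r2 * Nu) := by
    ext m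
    rw [Finset.mem_filter, Finset.mem_filter, mem_Sh, hG]
    constructor
    · rintro ⟨⟨_, h2, h3⟩, h4⟩
      exact ⟨⟨h4, h3.trans (mul_le_mul_of_nonneg_left hNuN (by linarith))⟩, h2, h3⟩
    · rintro ⟨⟨h2, _⟩, h3, h4⟩
      exact ⟨⟨pv_ne h2, h3, h4⟩, h2⟩
  unfold Mp
  rw [hset, Finset.sum_filter, Finset.mul_sum, Finset.mul_sum, Finset.mul_sum]
  refine Finset.sum_congr rfl fun m hm => ?_
  have hm0 : m ≠ 0 := pv_ne ((hG m).1 hm).1
  rw [FF_mul hψ z j hπ0 hm0]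
  have hb : (bw h r1 r2 N π m : ℂ) = if r1 * Nu < nm m ∧ (nm m : ℝ) ≤ r2 * Nu then
      ((Real.exp (usl h π / h) / nm π : ℝ) : ℂ) else 0 := by
    unfold bw
    split_ifs <;> simp
  rw [hb]
  have h5 : Real.exp (-(usl h π / h : ℝ)) * Real.exp (usl h π / h) = 1 := by
    rw [← Real.exp_add, neg_add_cancel, Real.exp_zero]
  have hN1 : (1 : ℂ) / (Nu : ℂ) = (1 / (N : ℂ)) * ((Real.exp (usl h π / h) : ℝ) : ℂ) := by
    have h6 : (Nu : ℂ) ≠ 0 := by exact_mod_cast hNu0.ne'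
    have h7 : (N : ℂ) ≠ 0 := by exact_mod_cast hN.ne'
    have h8 : (N : ℂ) = (Nu : ℂ) * ((Real.exp (usl h π / h) : ℝ) : ℂ) := by
      rw [← Complex.ofReal_mul, hNu, mul_assoc, h5, mul_one]
    rw [div_eq_iff h6]
    have h9 : (1 / (N : ℂ)) * ((Real.exp (usl h π / h) : ℝ) : ℂ) * (Nu : ℂ) =
        (1 / (N : ℂ)) * ((Nu : ℂ) * ((Real.exp (usl h π / h) : ℝ) : ℂ)) := by ring
    rw [h9, ← h8, one_div_mul_cancel h7]
  rw [hN1]
  split_ifs
  · rw [Complex.ofReal_div, Complex.ofReal_natCast]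
    ring
  · ring

/-- regrouping the pairs with `π m` primitive -/
theorem regroup {r1 r2 : ℝ} {h : ℕ} (hh : 0 < h) {N B : ℝ}
    (hN : 0 < N) (hr2 : 0 < r2) (hB : Real.exp (1 / h) * r2 ≤ B)
    (G V : Finset GaussianInt) (hG : ∀ m, m ∈ G ↔ Pv m ∧ (nm m : ℝ) ≤ r2 * N)
    (hV : ∀ v, v ∈ V ↔ Pv v ∧ (nm v : ℝ) ≤ B * N) {π : GaussianInt} (hπ : 0 < nm π)
    (F : GaussianInt → ℂ) :
    ∑ m ∈ G, ((if Pv (π * m) then bw h r1 r2 N π m else 0 : ℝ) : ℂ) * F (π * m) =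
      ∑ v ∈ V, (((open Classical in if π ∣ v then bw h r1 r2 N π (v / π) else 0) : ℝ) : ℂ) * F v
      := by
  classical
  have hπ0 : π ≠ 0 := by
    intro h0
    rw [nm_eq_zero.2 h0] at hπ
    exact lt_irrefl _ hπ
  have hdiv : ∀ m : GaussianInt, π * m / π = m := fun m => mul_div_cancel_left₀ m hπ0
  have key : ∀ m, (if Pv (π * m) then bw h r1 r2 N π m else 0) ≠ 0 →
      Pv (π * m) ∧ bw h r1 r2 N π m ≠ 0 := by
    intro m hm
    by_cases h1 : Pv (π * m)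
    · rw [if_pos h1] at hm
      exact ⟨h1, hm⟩
    · rw [if_neg h1] at hm
      exact absurd rfl hm
  refine Finset.sum_bij_ne_zero (fun m _ _ => π * m) ?_ ?_ ?_ ?_
  · intro m _ hm
    obtain ⟨h1, h2⟩ := key m (by
      intro h0
      apply hm
      rw [h0, Complex.ofReal_zero, zero_mul])
    rw [hV]
    refine ⟨h1, ((bw_nm hh r1 r2 N hπ m h2).2).trans ?_⟩
    rw [← mul_assoc]
    exact mul_le_mul_of_nonneg_right hB hN.le
  · intro m _ _ m' _ _ hmm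
    exact mul_left_cancel₀ hπ0 hmm
  · intro v hv hv0
    have hd : π ∣ v := by
      by_contra hcon
      apply hv0
      rw [if_neg hcon, Complex.ofReal_zero, zero_mul]
    obtain ⟨m, rfl⟩ := hd
    rw [if_pos (dvd_mul_right π m), hdiv] at hv0
    have hb : bw h r1 r2 N π m ≠ 0 := by
      intro h0
      apply hv0
      rw [h0, Complex.ofReal_zero, zero_mul]
    have hpv := ((hV _).1 hv).1
    have hmG : m ∈ G := by
      rw [hG]
      refine ⟨pv_of_dvd hpv (dvd_mul_left m π), (bw_nm hh r1 r2 N hπ m hb).1.trans ?_⟩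
      apply mul_le_mul_of_nonneg_left _ hr2.le
      apply mul_le_of_le_one_right hN.le
      rw [Real.exp_le_one_iff, neg_nonpos]
      positivity
    refine ⟨m, hmG, ?_, rfl⟩
    rw [if_pos hpv]
    exact hv0
  · intro m _ hm
    obtain ⟨h1, h2⟩ := key m (by
      intro h0
      apply hm
      rw [h0, Complex.ofReal_zero, zero_mul])
    rw [if_pos h1, if_pos (dvd_mul_right π m), hdiv]

end Pool.Agent.Lib.MP_a17b09_nt.MRS.Dec21
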