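import Pool.Agent.Lib.MP_a17b09_nt.MRS.DecF21

/-!
MRS, decomposition by slices: the final estimate, `stDec2_21`.
-/

set_option autoImplicit false

open Finset

namespace Pool.Agent.Lib.MP_a17b09_nt.MRS.Dec21

/-- the thin shells -/
def Thin (r1 r2 N : ℝ) (h : ℕ) (x : ℕ) : Prop :=
  (r1 * N < x ∧ (x : ℝ) ≤ r1 * N * Real.exp (1 / h)) ∨
    (r2 * N < x ∧ (x : ℝ) ≤ r2 * N * Real.exp (1 / h))

open Classical in
/-- the coefficient of `v` in the main term -/
noncomputable def beta (h : ℕ) (r1 r2 N : ℝ) (P : Finset GaussianInt) (v : GaussianInt) : ℝ :=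
  ∑ π ∈ P, if π ∣ v then bw h r1 r2 N π (v / π) else 0

open Classical in
theorem beta_cmp {h : ℕ} (hh : 0 < h) {r1 r2 N : ℝ} (hr1 : 0 < r1) (hr : r1 < r2) (hN : 0 < N)
    (P : Finset GaussianInt) (hP : ∀ π ∈ P, (nm π).Prime) (v : GaussianInt) :
    |(if r1 * N < nm v ∧ (nm v : ℝ) ≤ r2 * N then omg P v else 0) - beta h r1 r2 N P v| ≤
      omg P v * (1 / h + if Thin r1 r2 N h (nm v) then 1 else 0) := by
  have e1 : (if r1 * N < nm v ∧ (nm v : ℝ) ≤ r2 * N then omg P v else 0) -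
      beta h r1 r2 N P v = ∑ π ∈ P, if π ∣ v then
        (if r1 * N < nm v ∧ (nm v : ℝ) ≤ r2 * N then 1 else 0) - bw h r1 r2 N π (v / π)
        else 0 := by
    have e2 : (if r1 * N < nm v ∧ (nm v : ℝ) ≤ r2 * N then omg P v else 0) =
        ∑ π ∈ P, if π ∣ v then
          (if r1 * N < nm v ∧ (nm v : ℝ) ≤ r2 * N then (1 : ℝ) else 0) else 0 := by
      by_cases h1 : r1 * N < nm v ∧ (nm v : ℝ) ≤ r2 * N
      · simp only [if_pos h1]
        rfl
      · simp only [if_neg h1]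
        simp
    rw [e2]
    unfold beta
    rw [← Finset.sum_sub_distrib]
    refine Finset.sum_congr rfl fun π _ => ?_
    by_cases h1 : π ∣ v
    · simp only [if_pos h1]
    · simp only [if_neg h1, sub_zero]
  rw [e1]
  refine (Finset.abs_sum_le_sum_abs _ _).trans ?_
  have e3 : omg P v * (1 / h + if Thin r1 r2 N h (nm v) then 1 else 0) =
      ∑ π ∈ P, if π ∣ v then (1 / (h : ℝ) + if Thin r1 r2 N h (nm v) then 1 else 0) else 0 := by
    unfold omg
    rw [Finset.sum_mul]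
    refine Finset.sum_congr rfl fun π _ => ?_
    by_cases h1 : π ∣ v
    · simp only [if_pos h1, one_mul]
    · simp only [if_neg h1, zero_mul]
  rw [e3]
  refine Finset.sum_le_sum fun π hπ => ?_
  by_cases h1 : π ∣ v
  · rw [if_pos h1, if_pos h1]
    obtain ⟨m, rfl⟩ := h1
    have hpos : 0 < nm π := (hP π hπ).pos
    have hπ0 : π ≠ 0 := by
      intro h0
      rw [nm_eq_zero.2 h0] at hpos
      exact lt_irrefl _ hpos
    rw [mul_div_cancel_left₀ m hπ0]
    have h5 := bw_cmp hh hr1 hr hN hpos m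
    have e5 : (if Thin r1 r2 N h (nm (π * m)) then (1 : ℝ) else 0) =
        if (r1 * N < nm (π * m) ∧ (nm (π * m) : ℝ) ≤ r1 * N * Real.exp (1 / h)) ∨
        (r2 * N < nm (π * m) ∧ (nm (π * m) : ℝ) ≤ r2 * N * Real.exp (1 / h)) then 1 else 0 :=
      if_congr Iff.rfl rfl rfl
    rw [e5]
    exact h5
  · rw [if_neg h1, if_neg h1, abs_zero]

/-- three terms -/
theorem three (a b c : ℂ) : ‖a + b - c‖ ^ 2 ≤ 3 * (‖a‖ ^ 2 + ‖b‖ ^ 2 + ‖c‖ ^ 2) := by
  have h1 : ‖a + b - c‖ ≤ ‖a‖ + ‖b‖ + ‖c‖ :=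
    (norm_sub_le _ _).trans (add_le_add_left (norm_add_le _ _) _)
  have h2 := pow_le_pow_left₀ (norm_nonneg _) h1 2
  nlinarith [sq_nonneg (‖a‖ - ‖b‖), sq_nonneg (‖b‖ - ‖c‖), sq_nonneg (‖a‖ - ‖c‖)]

/-- **DEC2** -/
theorem stDec2_21 (hT : StTK) (hL : StLsp) : StDec2 := by
  classical
  intro r1 r2 hr1 hr z K ψ hz hK hψ
  have hr2 : 0 < r2 := hr1.trans hr
  obtain ⟨B, hB⟩ : ∃ B : ℝ, B = 3 * r2 + 1 := ⟨_, rfl⟩
  have hB0 : 0 < B := by rw [hB]; linarith
  have hB1 : 1 ≤ B := by rw [hB]; linarith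
  obtain ⟨CT, hCT, tk2⟩ := tkP hT r2 hr2
  obtain ⟨CB, hCB, tkB⟩ := tkP hT B hB0
  obtain ⟨Ca, hCa, th1⟩ := card_thin r1 hr1
  obtain ⟨Cb, hCb, th2⟩ := card_thin r2 hr2
  obtain ⟨CA, hCA, ls⟩ := lsN hL B hB1
  obtain ⟨CC, hCC, cj⟩ := conj_21 hL B hB1
  refine ⟨3 * (CA * CT + CC + CA * (4 * CB) + CA * (4 * CB + 36 * B + 4 * (Ca + Cb))), 1,
    by positivity, le_rfl, ?_⟩
  intro h u0 u1 N hh hu0 hu01 hN hhN hyN hLL J hJ
  have hh1 : (1 : ℝ) ≤ h := by exact_mod_cast hh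
  have hh0 : (0 : ℝ) < h := by linarith
  have hN0 : (0 : ℝ) < N := by linarith
  have hx0 : (0 : ℝ) < 1 / h := by positivity
  have hx1 : (1 : ℝ) / h ≤ 1 := by
    rw [div_le_one hh0]
    exact hh1
  have he3 : Real.exp (1 / h) ≤ 3 := by
    have h1 : Real.exp (1 / h) ≤ Real.exp 1 := Real.exp_le_exp.2 hx1
    linarith [Real.exp_one_lt_d9]
  set P := sl (Real.exp (u0 / h)) (Real.exp (u1 / h)) with hP
  set y := Real.exp (u1 / h) with hy
  have hy1 : 1 ≤ y := Real.one_le_exp (by positivity)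
  have hP1 : P ⊆ sl 1 y := by
    intro π hπ
    rw [hP, mem_sl] at hπ
    rw [mem_sl]
    exact ⟨hπ.1, hπ.2.1, hπ.2.2.1, (Real.one_le_exp (by positivity)).trans hπ.2.2.2.1,
      hπ.2.2.2.2⟩
  have hPp : ∀ π ∈ P, (nm π).Prime := fun π hπ => (mem_sl.1 (hP1 hπ)).2.2.1
  have hLdef : LL (Real.exp (u0 / h)) y = ∑ π ∈ P, 1 / (nm π : ℝ) := rfl
  set L := LL (Real.exp (u0 / h)) y with hLset
  have hL0 : 0 < L := by linarith
  -- the sets
  obtain ⟨G, hG⟩ : ∃ G : Finset GaussianInt, ∀ m, m ∈ G ↔ Pv m ∧ (nm m : ℝ) ≤ r2 * N := by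
    refine ⟨(Sh 0 (r2 * N)).filter Pv, fun w => ?_⟩
    rw [Finset.mem_filter, mem_Sh]
    constructor
    · rintro ⟨⟨_, _, h⟩, h'⟩
      exact ⟨h', h⟩
    · rintro ⟨h, h'⟩
      refine ⟨⟨pv_ne h, ?_, h'⟩, h⟩
      have : nm w ≠ 0 := mt nm_eq_zero.1 (pv_ne h)
      exact_mod_cast Nat.pos_of_ne_zero this
  obtain ⟨V, hV⟩ : ∃ V : Finset GaussianInt, ∀ w, w ∈ V ↔ Pv w ∧ (nm w : ℝ) ≤ B * N := by
    refine ⟨(Sh 0 (B * N)).filter Pv, fun w => ?_⟩
    rw [Finset.mem_filter, mem_Sh]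
    constructor
    · rintro ⟨⟨_, _, h⟩, h'⟩
      exact ⟨h', h⟩
    · rintro ⟨h, h'⟩
      refine ⟨⟨pv_ne h, ?_, h'⟩, h⟩
      have : nm w ≠ 0 := mt nm_eq_zero.1 (pv_ne h)
      exact_mod_cast Nat.pos_of_ne_zero this
  have hVSh : V ⊆ Sh 0 (B * N) := by
    intro v hv
    rw [hV] at hv
    rw [mem_Sh]
    refine ⟨pv_ne hv.1, ?_, hv.2⟩
    have : nm v ≠ 0 := mt nm_eq_zero.1 (pv_ne hv.1)
    exact_mod_cast Nat.pos_of_ne_zero this
  have hS : (Sh (r1 * N) (r2 * N)).filter Pv =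
      V.filter (fun v => r1 * N < nm v ∧ (nm v : ℝ) ≤ r2 * N) := by
    ext v
    rw [Finset.mem_filter, Finset.mem_filter, mem_Sh, hV]
    constructor
    · rintro ⟨⟨_, h2, h3⟩, h4⟩
      refine ⟨⟨h4, h3.trans ?_⟩, h2, h3⟩
      apply mul_le_mul_of_nonneg_right _ hN0.le
      rw [hB]
      linarith
    · rintro ⟨⟨h2, _⟩, h3, h4⟩
      exact ⟨⟨pv_ne h2, h3, h4⟩, h2⟩
  -- the coefficients
  set s1 : GaussianInt → ℝ := fun v =>
    if r1 * N < nm v ∧ (nm v : ℝ) ≤ r2 * N then 1 - omg P v / L else 0 with hs1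
  set s2 : GaussianInt → ℝ := fun v =>
    (if r1 * N < nm v ∧ (nm v : ℝ) ≤ r2 * N then omg P v else 0) - beta h r1 r2 N P v with hs2
  set s3 : GaussianInt → GaussianInt → ℝ := fun π m =>
    if Pv (π * m) then 0 else bw h r1 r2 N π m with hs3
  set X1 : ℤ → ℂ := fun j => (1 / (N : ℂ)) * ∑ v ∈ V, ((s1 v : ℂ) * cf z ψ v) * ag v ^ j with hX1
  set X2 : ℤ → ℂ := fun j => (1 / (N : ℂ)) * ∑ v ∈ V, ((s2 v : ℂ) * cf z ψ v) * ag v ^ j with hX2
  set X3 : ℤ → ℂ := fun j => (1 / (N : ℂ)) * ∑ π ∈ P, ∑ m ∈ G,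
    ((s3 π m : ℂ) * cf z ψ (π * m)) * ag (π * m) ^ j with hX3
  have hid : ∀ j : ℤ, Mp z ψ r1 r2 N j - (1 / (L : ℂ)) * ∑ u ∈ Finset.Ico u0 u1,
      Qs z ψ h u j * Mp z ψ r1 r2 (N * Real.exp (-(u / h))) j =
      X1 j + (1 / (L : ℂ)) * X2 j - (1 / (L : ℂ)) * X3 j := by
    intro j
    rw [pairs z hψ hr1 hr hh u0 u1 hN0 j G hG]
    have hsplit : ∑ π ∈ P, ∑ m ∈ G, (bw h r1 r2 N π m : ℂ) * FF z ψ j (π * m) =
        ∑ v ∈ V, (beta h r1 r2 N P v : ℂ) * FF z ψ j v +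
          ∑ π ∈ P, ∑ m ∈ G, ((s3 π m : ℂ) * cf z ψ (π * m)) * ag (π * m) ^ j := by
      have h1 : ∀ π ∈ P, ∑ m ∈ G, (bw h r1 r2 N π m : ℂ) * FF z ψ j (π * m) =
          ∑ v ∈ V, (((if π ∣ v then bw h r1 r2 N π (v / π) else 0) : ℝ) : ℂ) * FF z ψ j v +
          ∑ m ∈ G, ((s3 π m : ℂ) * cf z ψ (π * m)) * ag (π * m) ^ j := by
        intro π hπ
        rw [← regroup hh hN0 hr2 (by rw [hB]; nlinarith) G V hG hV (hPp π hπ).pos
          (FF z ψ j), ← Finset.sum_add_distrib]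
        refine Finset.sum_congr rfl fun m _ => ?_
        rw [hs3, FF_cf]
        simp only
        by_cases hp : Pv (π * m)
        · rw [if_pos hp, if_pos hp, Complex.ofReal_zero]
          ring
        · rw [if_neg hp, if_neg hp, Complex.ofReal_zero]
          ring
      rw [Finset.sum_congr rfl h1, Finset.sum_add_distrib, Finset.sum_comm]
      congr 1
      refine Finset.sum_congr rfl fun v _ => ?_
      rw [← Finset.sum_mul]
      unfold beta
      rw [Complex.ofReal_sum]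
    rw [hsplit]
    have hM : Mp z ψ r1 r2 N j = (1 / (N : ℂ)) * ∑ v ∈ V,
        (((if r1 * N < nm v ∧ (nm v : ℝ) ≤ r2 * N then 1 else 0 : ℝ)) : ℂ) * FF z ψ j v := by
      unfold Mp
      rw [hS, Finset.sum_filter]
      congr 1
      refine Finset.sum_congr rfl fun v _ => ?_
      split_ifs <;> simp
    rw [hM, hX1, hX2, hX3]
    simp only
    have hLc : (L : ℂ) ≠ 0 := by exact_mod_cast hL0.ne'
    have hsum : ∑ v ∈ V, ((s1 v : ℂ) * cf z ψ v) * ag v ^ j +
        (1 / (L : ℂ)) * ∑ v ∈ V, ((s2 v : ℂ) * cf z ψ v) * ag v ^ j =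
        ∑ v ∈ V, (((if r1 * N < nm v ∧ (nm v : ℝ) ≤ r2 * N then 1 else 0 : ℝ)) : ℂ) *
          FF z ψ j v - (1 / (L : ℂ)) * ∑ v ∈ V, (beta h r1 r2 N P v : ℂ) * FF z ψ j v := by
      rw [Finset.mul_sum, Finset.mul_sum, ← Finset.sum_add_distrib, ← Finset.sum_sub_distrib]
      refine Finset.sum_congr rfl fun v _ => ?_
      rw [hs1, hs2, FF_cf]
      simp only
      by_cases hc : r1 * N < nm v ∧ (nm v : ℝ) ≤ r2 * N
      · rw [if_pos hc, if_pos hc, if_pos hc]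
        push_cast
        field_simp
        ring
      · rw [if_neg hc, if_neg hc, if_neg hc]
        push_cast
        ring
    linear_combination (-(1 / (N : ℂ))) * hsum
  -- the bounds
  have hcf := norm_cf hz hψ
  have hLs : ∀ s : GaussianInt → ℝ, ∑ j ∈ js J, ‖(1 / (N : ℂ)) *
      ∑ v ∈ V, ((s v : ℂ) * cf z ψ v) * ag v ^ j‖ ^ 2 ≤ CA / N * ∑ v ∈ V, s v ^ 2 := by
    intro s
    refine (ls N hN J hJ V (fun v hv => (hV v).1 hv) (fun v => (s v : ℂ) * cf z ψ v)).trans ?_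
    apply mul_le_mul_of_nonneg_left _ (by positivity)
    refine Finset.sum_le_sum fun v _ => ?_
    rw [norm_mul, Complex.norm_real, mul_pow, Real.norm_eq_abs, sq_abs]
    apply mul_le_of_le_one_right (sq_nonneg _)
    exact pow_le_one₀ (norm_nonneg _) (hcf v)
  have b1 : ∑ j ∈ js J, ‖X1 j‖ ^ 2 ≤ CA * CT / L := by
    refine (hLs s1).trans ?_
    have h1 : ∑ v ∈ V, s1 v ^ 2 ≤ (1 / L ^ 2) * (CT * N * L) := by
      have h2 := tk2 N hN y P hy1 hyN hP1
      rw [← hLdef] at h2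
      calc ∑ v ∈ V, s1 v ^ 2 = ∑ v ∈ V.filter (fun v => r1 * N < nm v ∧ (nm v : ℝ) ≤ r2 * N),
            (1 - omg P v / L) ^ 2 := by
            rw [Finset.sum_filter]
            refine Finset.sum_congr rfl fun v _ => ?_
            rw [hs1]
            simp only
            split_ifs <;> simp
        _ ≤ ∑ v ∈ Sh 0 (r2 * N), (1 - omg P v / L) ^ 2 := by
            apply Finset.sum_le_sum_of_subset_of_nonneg
            · intro v hv
              rw [Finset.mem_filter] at hv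
              have h3 := hVSh hv.1
              rw [mem_Sh] at h3 ⊢
              exact ⟨h3.1, h3.2.1, hv.2.2⟩
            · intro v _ _
              exact sq_nonneg _
        _ = (1 / L ^ 2) * ∑ v ∈ Sh 0 (r2 * N), (omg P v - L) ^ 2 := by
            rw [Finset.mul_sum]
            refine Finset.sum_congr rfl fun v _ => ?_
            field_simp
            ring
        _ ≤ (1 / L ^ 2) * (CT * N * L) := mul_le_mul_of_nonneg_left h2 (by positivity)
    calc CA / N * ∑ v ∈ V, s1 v ^ 2 ≤ CA / N * ((1 / L ^ 2) * (CT * N * L)) :=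
          mul_le_mul_of_nonneg_left h1 (by positivity)
      _ = CA * CT / L := by
          field_simp
  have b2 : ∑ j ∈ js J, ‖X2 j‖ ^ 2 ≤ CA / N * ((2 / (h : ℝ) ^ 2) * (2 * (CB * N * L) +
      2 * L ^ 2 * (9 * (B * N))) + 2 * (2 * (CB * N * L) +
      2 * L ^ 2 * ((Ca + Cb) * (N / h)))) := by
    refine (hLs s2).trans ?_
    apply mul_le_mul_of_nonneg_left _ (by positivity)
    have htk := tkB N hN y P hy1 hyN hP1
    rw [← hLdef] at htk
    set T := V.filter (fun v => Thin r1 r2 N h (nm v)) with hTdef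
    have hpt : ∀ v, s2 v ^ 2 ≤ (2 / (h : ℝ) ^ 2) * omg P v ^ 2 +
        2 * (if Thin r1 r2 N h (nm v) then omg P v ^ 2 else 0) := by
      intro v
      have h1 := beta_cmp hh hr1 hr hN0 P hPp v
      have h2 : s2 v ^ 2 ≤ (omg P v * (1 / h + if Thin r1 r2 N h (nm v) then 1 else 0)) ^ 2 := by
        rw [← sq_abs (s2 v)]
        exact pow_le_pow_left₀ (abs_nonneg _) h1 2
      refine h2.trans ?_
      have h3 : (2 : ℝ) / (h : ℝ) ^ 2 = 2 * (1 / h) ^ 2 := by ring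
      rw [h3]
      split_ifs
      · nlinarith [mul_nonneg (sq_nonneg (omg P v)) (sq_nonneg (1 / (h : ℝ) - 1))]
      · nlinarith [mul_nonneg (sq_nonneg (omg P v)) (sq_nonneg (1 / (h : ℝ)))]
    have hcV : (V.card : ℝ) ≤ 9 * (B * N) := by
      refine MRS16.card_ball _ _ (by positivity) ?_
      intro u hu
      rw [hV] at hu
      exact ⟨pv_ne hu.1, by rw [← nm_norm]; exact hu.2⟩
    have hcT : (T.card : ℝ) ≤ (Ca + Cb) * (N / h) := by
      have h1 : T ⊆ Sh (r1 * N) (r1 * N * Real.exp (1 / h)) ∪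
          Sh (r2 * N) (r2 * N * Real.exp (1 / h)) := by
        intro v hv
        rw [hTdef, Finset.mem_filter, hV] at hv
        rw [Finset.mem_union, mem_Sh, mem_Sh]
        rcases hv.2 with h2 | h2
        · left
          exact ⟨pv_ne hv.1.1, h2.1, h2.2⟩
        · right
          exact ⟨pv_ne hv.1.1, h2.1, h2.2⟩
      have h2 : (T.card : ℝ) ≤ (Sh (r1 * N) (r1 * N * Real.exp (1 / h))).card +
          (Sh (r2 * N) (r2 * N * Real.exp (1 / h))).card := by
        exact_mod_cast (Finset.card_le_card h1).trans (Finset.card_union_le _ _)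
      have h3 := th1 N h hN hh hhN
      have h4 := th2 N h hN hh hhN
      nlinarith
    have hsV := sum_sq P V (Sh 0 (B * N)) hVSh htk
    have hsT := sum_sq P T (Sh 0 (B * N)) ((Finset.filter_subset _ _).trans hVSh) htk
    calc ∑ v ∈ V, s2 v ^ 2 ≤ ∑ v ∈ V, ((2 / (h : ℝ) ^ 2) * omg P v ^ 2 +
          2 * (if Thin r1 r2 N h (nm v) then omg P v ^ 2 else 0)) :=
          Finset.sum_le_sum fun v _ => hpt v
      _ = (2 / (h : ℝ) ^ 2) * ∑ v ∈ V, omg P v ^ 2 + 2 * ∑ v ∈ T, omg P v ^ 2 := by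
          rw [Finset.sum_add_distrib, ← Finset.mul_sum, ← Finset.mul_sum, hTdef,
            Finset.sum_filter]
      _ ≤ (2 / (h : ℝ) ^ 2) * (2 * (CB * N * L) + 2 * L ^ 2 * (9 * (B * N))) +
          2 * (2 * (CB * N * L) + 2 * L ^ 2 * ((Ca + Cb) * (N / h))) := by
          apply add_le_add
          · apply mul_le_mul_of_nonneg_left _ (by positivity)
            refine hsV.trans ?_
            have : 2 * L ^ 2 * (V.card : ℝ) ≤ 2 * L ^ 2 * (9 * (B * N)) :=
              mul_le_mul_of_nonneg_left hcV (by positivity)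
            linarith
          · apply mul_le_mul_of_nonneg_left _ (by norm_num)
            refine hsT.trans ?_
            have : 2 * L ^ 2 * (T.card : ℝ) ≤ 2 * L ^ 2 * ((Ca + Cb) * (N / h)) :=
              mul_le_mul_of_nonneg_left hcT (by positivity)
            linarith
  have b3 : ∑ j ∈ js J, ‖X3 j‖ ^ 2 ≤ CC * L := by
    rw [hLdef]
    refine cj N hN y P hP1 J hJ G (fun m hm => ((hG m).1 hm).1)
      (fun π m => if π ∈ P then (s3 π m : ℂ) * cf z ψ (π * m) else 0) ?_ ?_ |>.trans' ?_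
    · intro π m
      split_ifs with hπ
      · rw [norm_mul, Complex.norm_real, Real.norm_eq_abs]
        have h1 : |s3 π m| ≤ 1 := by
          rw [hs3]
          simp only
          obtain ⟨h2, h3⟩ := bw_bd hh r1 r2 N (hPp π hπ).pos m
          split_ifs
          · rw [abs_zero]
            exact zero_le_one
          · rw [abs_of_nonneg h2]
            exact h3
        calc |s3 π m| * ‖cf z ψ (π * m)‖ ≤ 1 * 1 :=
              mul_le_mul h1 (hcf _) (norm_nonneg _) zero_le_one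
          _ = 1 := one_mul 1
      · rw [norm_zero]
        exact zero_le_one
    · intro π hπ m _ hne
      rw [if_pos hπ] at hne
      have h1 : s3 π m ≠ 0 := by
        intro h0
        apply hne
        rw [h0, Complex.ofReal_zero, zero_mul]
      rw [hs3] at h1
      simp only at h1
      have h2 : ¬ Pv (π * m) := by
        intro hp
        rw [if_pos hp] at h1
        exact h1 rfl
      rw [if_neg h2] at h1
      refine ⟨h2, ((bw_nm hh r1 r2 N (hPp π hπ).pos m h1).2).trans ?_⟩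
      rw [← mul_assoc]
      apply mul_le_mul_of_nonneg_right _ hN0.le
      rw [hB]
      nlinarith
    · apply le_of_eq
      refine Finset.sum_congr rfl fun j _ => ?_
      rw [hX3]
      simp only
      congr 3
      refine Finset.sum_congr rfl fun π hπ => Finset.sum_congr rfl fun m _ => ?_
      rw [if_pos hπ]
  -- the end
  have hLn : ‖(1 / (L : ℂ))‖ ^ 2 = 1 / L ^ 2 := by
    rw [norm_div, norm_one, Complex.norm_real, Real.norm_of_nonneg hL0.le, div_pow, one_pow]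
  have hu0' : (0 : ℝ) ≤ (h : ℝ) / u0 := by positivity
  have hLi : 0 ≤ 1 / L := by positivity
  calc ∑ j ∈ js J, ‖Mp z ψ r1 r2 N j - (1 / (L : ℂ)) * ∑ u ∈ Finset.Ico u0 u1,
        Qs z ψ h u j * Mp z ψ r1 r2 (N * Real.exp (-(u / h))) j‖ ^ 2
      ≤ ∑ j ∈ js J, 3 * (‖X1 j‖ ^ 2 + (1 / L ^ 2) * ‖X2 j‖ ^ 2 +
          (1 / L ^ 2) * ‖X3 j‖ ^ 2) := by
        refine Finset.sum_le_sum fun j _ => ?_
        rw [hid j]
        refine (three _ _ _).trans (le_of_eq ?_)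
        have e1 : ‖(1 / (L : ℂ)) * X2 j‖ ^ 2 = 1 / L ^ 2 * ‖X2 j‖ ^ 2 := by
          rw [norm_mul, mul_pow, hLn]
        have e2 : ‖(1 / (L : ℂ)) * X3 j‖ ^ 2 = 1 / L ^ 2 * ‖X3 j‖ ^ 2 := by
          rw [norm_mul, mul_pow, hLn]
        rw [e1, e2]
    _ = 3 * (∑ j ∈ js J, ‖X1 j‖ ^ 2 + (1 / L ^ 2) * ∑ j ∈ js J, ‖X2 j‖ ^ 2 +
          (1 / L ^ 2) * ∑ j ∈ js J, ‖X3 j‖ ^ 2) := by
        rw [← Finset.mul_sum, Finset.sum_add_distrib, Finset.sum_add_distrib, ← Finset.mul_sum,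
          ← Finset.mul_sum]
    _ ≤ 3 * (CA * CT / L + (1 / L ^ 2) * (CA / N * ((2 / (h : ℝ) ^ 2) * (2 * (CB * N * L) +
          2 * L ^ 2 * (9 * (B * N))) + 2 * (2 * (CB * N * L) +
          2 * L ^ 2 * ((Ca + Cb) * (N / h))))) + (1 / L ^ 2) * (CC * L)) := by
        apply mul_le_mul_of_nonneg_left _ (by norm_num)
        apply add_le_add (add_le_add b1 _)
        · exact mul_le_mul_of_nonneg_left b3 (by positivity)
        · exact mul_le_mul_of_nonneg_left b2 (by positivity)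
    _ = 3 * (CA * CT * (1 / L) + CA * ((1 / (h : ℝ)) ^ 2 * (4 * CB * (1 / L)) +
          (1 / (h : ℝ)) ^ 2 * (36 * B) + 4 * CB * (1 / L) + 4 * (Ca + Cb) * (1 / h)) +
          CC * (1 / L)) := by
        field_simp
        ring
    _ ≤ 3 * (CA * CT * (1 / L) + CA * ((1 / (h : ℝ)) * (4 * CB) +
          (1 / (h : ℝ)) * (36 * B) + 4 * CB * (1 / L) + 4 * (Ca + Cb) * (1 / h)) +
          CC * (1 / L)) := by
        have hLi1 : 1 / L ≤ 1 := by
          rw [div_le_one hL0]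
          exact hLL
        have hsq : (1 / (h : ℝ)) ^ 2 ≤ 1 / h := by nlinarith
        have h1 : (1 / (h : ℝ)) ^ 2 * (4 * CB * (1 / L)) ≤ (1 / (h : ℝ)) * (4 * CB) := by
          apply mul_le_mul hsq _ (by positivity) hx0.le
          exact mul_le_of_le_one_right (by positivity) hLi1
        have h2 : (1 / (h : ℝ)) ^ 2 * (36 * B) ≤ (1 / (h : ℝ)) * (36 * B) :=
          mul_le_mul_of_nonneg_right hsq (by positivity)
        have h3 : CA * ((1 / (h : ℝ)) ^ 2 * (4 * CB * (1 / L)) +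
          (1 / (h : ℝ)) ^ 2 * (36 * B) + 4 * CB * (1 / L) + 4 * (Ca + Cb) * (1 / h)) ≤
          CA * ((1 / (h : ℝ)) * (4 * CB) +
          (1 / (h : ℝ)) * (36 * B) + 4 * CB * (1 / L) + 4 * (Ca + Cb) * (1 / h)) :=
          mul_le_mul_of_nonneg_left (by linarith) hCA.le
        linarith
    _ ≤ _ := by
        have e1 : 0 ≤ CA * CT := by positivity
        have e2 : 0 ≤ CA * (4 * CB) := by positivity
        have e3 : 0 ≤ CA * (4 * CB + 36 * B + 4 * (Ca + Cb)) := by positivity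
        have e4 : 0 ≤ (3 * (CA * CT + CC + CA * (4 * CB) +
          CA * (4 * CB + 36 * B + 4 * (Ca + Cb)))) * (h / u0) := by positivity
        have e5 := mul_nonneg e1 hx0.le
        have e6 := mul_nonneg hCC.le hx0.le
        have e7 := mul_nonneg e2 hx0.le
        have e8 := mul_nonneg e3 hLi
        nlinarith

end Pool.Agent.Lib.MP_a17b09_nt.MRS.Dec21
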