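import Pool.Agent.Lib.MP_a17b09_nt.MRS.Sma67

/-!
MRS section 2: small frequencies, the bound.
-/

set_option autoImplicit false

namespace Pool.Agent.X67

open Finset Complex MeasureTheory

theorem small_raw (s r1 r2 : ℝ) (h q : ℕ) (a0 b0 : ℤ) (S : Finset (ℤ × ℤ))
    (hs : 1 ≤ s) (h1 : s ^ 2 ≤ r1) (h2 : r2 ≤ 2 * s ^ 2) (hh : 1 ≤ h) (hq : 1 ≤ q)
    (hq2 : 2 * (q : ℝ) ≤ s) (hS : IsRing r1 r2 q a0 b0 S) :
    ‖∑ m ∈ S, uu (zz m) ^ h‖ ≤ S.card * (h * (4 * q / s)) +
      4 * ((2 * (2 * s + 2 * q) + 1) * (4 * Real.sqrt (2 * s * (2 * q)) + 2)) := by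
  classical
  have hq' : (1 : ℝ) ≤ q := by exact_mod_cast hq
  have hs0 : 0 < s := by linarith
  by_cases h12 : r1 ≤ r2
  swap
  · have hSe : S = ∅ := by
      rw [Finset.eq_empty_iff_forall_notMem]
      intro m hm
      have h3 := (hS m).1 hm
      exact h12 (h3.1.trans h3.2.1)
    rw [hSe, Finset.sum_empty, norm_zero, Finset.card_empty]
    push_cast
    positivity
  set δ : ℝ := h * (4 * q / s) with hδ
  have hδ0 : 0 ≤ δ := by positivity
  set A := Ann r1 r2 with hA
  set B := Bx (2 * s + 2 * q) q a0 b0 with hB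
  set F : ℂ → ℂ := fun z => uu z ^ h with hF
  have hAn : ∀ z ∈ A, s ≤ ‖z‖ ∧ ‖z‖ ≤ 2 * s := by
    intro z hz
    have hz1 : r1 ≤ ‖z‖ ^ 2 := hz.1
    have hz2 : ‖z‖ ^ 2 ≤ r2 := hz.2
    constructor
    · have : s ^ 2 ≤ ‖z‖ ^ 2 := h1.trans hz1
      exact (le_abs_self _).trans (abs_le_of_sq_le_sq this (norm_nonneg _))
    · have : ‖z‖ ^ 2 ≤ (2 * s) ^ 2 := by nlinarith [sq_nonneg s]
      exact (le_abs_self _).trans (abs_le_of_sq_le_sq this (by positivity))
  have hSA : ∀ m : ℤ × ℤ, m ∈ S ↔ zz m ∈ A ∧ m.1 ≡ a0 [ZMOD (q : ℤ)] ∧ m.2 ≡ b0 [ZMOD (q : ℤ)] := by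
    intro m
    rw [hS, ← zz_sq]
    constructor
    · intro h3
      exact ⟨⟨h3.1, h3.2.1⟩, h3.2.2⟩
    · intro h3
      exact ⟨h3.1.1, h3.1.2, h3.2⟩
  have hSB : S ⊆ B := by
    intro m hm
    have h3 := (hSA m).1 hm
    rw [hB, mem_Bx]
    exact ⟨by linarith [(hAn _ h3.1).2], h3.2⟩
  -- the boundary
  set Bd := B.filter (fun m => (∃ z ∈ Cell q m, z ∈ A) ∧ ∃ z ∈ Cell q m, z ∉ A) with hBd
  have hring : ∀ m ∈ Bd, |‖zz m‖ - Real.sqrt r1| ≤ 2 * q ∨ |‖zz m‖ - Real.sqrt r2| ≤ 2 * q := by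
    intro m hm
    obtain ⟨_, ⟨z, hz, hzA⟩, w, hw, hwA⟩ := Finset.mem_filter.1 hm
    have d1 := (abs_norm_sub_norm_le z (zz m)).trans (cell_dist q m z hz)
    have d2 := (abs_norm_sub_norm_le w (zz m)).trans (cell_dist q m w hw)
    have d1 := abs_le.1 d1
    have d2 := abs_le.1 d2
    have hz1 : r1 ≤ ‖z‖ ^ 2 := hzA.1
    have hz2 : ‖z‖ ^ 2 ≤ r2 := hzA.2
    have h5 : Real.sqrt r1 ≤ ‖z‖ := by
      rw [← Real.sqrt_sq (norm_nonneg z)]
      exact Real.sqrt_le_sqrt hz1
    have h6 : ‖z‖ ≤ Real.sqrt r2 := Real.le_sqrt_of_sq_le hz2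
    have hnot : ¬ (r1 ≤ ‖w‖ ^ 2 ∧ ‖w‖ ^ 2 ≤ r2) := hwA
    rw [not_and_or, not_le, not_le] at hnot
    rcases hnot with h7 | h7
    · left
      have h8 : ‖w‖ ≤ Real.sqrt r1 := Real.le_sqrt_of_sq_le h7.le
      rw [abs_le]
      constructor <;> linarith [d1.1, d1.2, d2.1, d2.2]
    · right
      have h8 : Real.sqrt r2 ≤ ‖w‖ := by
        rw [← Real.sqrt_sq (norm_nonneg w)]
        exact Real.sqrt_le_sqrt h7.le
      rw [abs_le]
      constructor <;> linarith [d1.1, d1.2, d2.1, d2.2]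
  have hcBd : (Bd.card : ℝ) ≤
      2 * ((2 * (2 * s + 2 * q) + 1) * (4 * Real.sqrt (2 * s * (2 * q)) + 2)) := by
    apply card_two Bd r1 r2 (2 * q) (2 * s) (by positivity) _ h12 _ (by positivity) hring
    · have : (2 * (q : ℝ)) ^ 2 ≤ s ^ 2 := pow_le_pow_left₀ (by positivity) hq2 2
      linarith
    · nlinarith [sq_nonneg s]
  -- decomposition of the integral
  have hU : A = ⋃ m ∈ B, (A ∩ Cell q m) := by
    ext z
    rw [Set.mem_iUnion₂]
    constructor
    · intro hz
      obtain ⟨n1, c1, c2, c3⟩ := corner_ex q hq a0 z.re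
      obtain ⟨n2, c4, c5, c6⟩ := corner_ex q hq b0 z.im
      have hzc : z ∈ Cell q (n1, n2) := ⟨⟨c2, c3⟩, c5, c6⟩
      refine ⟨(n1, n2), ?_, hz, hzc⟩
      rw [hB, mem_Bx]
      refine ⟨?_, c1, c4⟩
      have h3 := (abs_norm_sub_norm_le z (zz (n1, n2))).trans (cell_dist q _ z hzc)
      have h4 := abs_le.1 h3
      linarith [(hAn z hz).2, h4.1]
    · rintro ⟨m, _, hz, _⟩
      exact hz
  have hint : ∀ T : Set ℂ, volume T < ⊤ → IntegrableOn F T := by
    intro T hT
    exact Measure.integrableOn_of_bounded hT.ne (uup_meas h).aestronglyMeasurable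
      (Filter.Eventually.of_forall (uup_le h))
  have hI : ∑ m ∈ B, ∫ z in A ∩ Cell q m, F z = 0 := by
    rw [← integral_biUnion_finset B (fun m _ => (ann_meas r1 r2).inter (cell_meas q m)),
      ← hU]
    · exact ann_int h hh r1 r2
    · intro m hm n hn hmn
      have hm' := (mem_Bx _ _ _ _ _).1 (Finset.mem_coe.1 hm)
      have hn' := (mem_Bx _ _ _ _ _).1 (Finset.mem_coe.1 hn)
      rw [Function.onFun, Set.disjoint_left]
      rintro z ⟨_, hz1⟩ ⟨_, hz2⟩
      apply hmn
      exact Prod.ext (corner_un q a0 _ _ z.re hm'.2.1 hn'.2.1 hz1.1 hz2.1)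
        (corner_un q b0 _ _ z.im hm'.2.2 hn'.2.2 hz1.2 hz2.2)
    · intro m _
      exact hint _ (lt_of_le_of_lt (measure_mono Set.inter_subset_right) (cell_fin q m))
  -- one cell
  have hcell : ∀ m ∈ B, ‖(if m ∈ S then ((q : ℂ) ^ 2) * F (zz m) else 0) -
      ∫ z in A ∩ Cell q m, F z‖ ≤
      (q : ℝ) ^ 2 * ((if m ∈ S then δ else 0) + (if m ∈ Bd then 2 else 0)) := by
    intro m hm
    have hmB := (mem_Bx _ _ _ _ _).1 hm
    have n1 : (0 : ℝ) ≤ if m ∈ S then δ else 0 := by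
      split_ifs
      · exact hδ0
      · exact le_rfl
    have n2 : (0 : ℝ) ≤ if m ∈ Bd then (2 : ℝ) else 0 := by
      split_ifs
      · norm_num
      · exact le_rfl
    by_cases c1 : m ∈ Bd
    · rw [if_pos c1]
      have h3 : ‖(if m ∈ S then ((q : ℂ) ^ 2) * F (zz m) else 0)‖ ≤ (q : ℝ) ^ 2 := by
        split_ifs
        · rw [norm_mul, norm_pow, Complex.norm_natCast]
          have := uup_le h (zz m)
          calc (q : ℝ) ^ 2 * ‖F (zz m)‖ ≤ (q : ℝ) ^ 2 * 1 := by gcongr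
            _ = (q : ℝ) ^ 2 := mul_one _
        · rw [norm_zero]; positivity
      have h4 : ‖∫ z in A ∩ Cell q m, F z‖ ≤ (q : ℝ) ^ 2 := by
        have h5 := norm_setIntegral_le_of_norm_le_const (μ := volume) (f := F)
          (lt_of_le_of_lt (measure_mono (Set.inter_subset_right (s := A))) (cell_fin q m))
          (fun z _ => uup_le h z)
        have h6 : volume.real (A ∩ Cell q m) ≤ volume.real (Cell q m) :=
          measureReal_mono Set.inter_subset_right (cell_fin q m).ne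
        rw [cell_volr] at h6
        linarith
      refine (norm_sub_le _ _).trans ?_
      have h7 : (0 : ℝ) ≤ (q : ℝ) ^ 2 := by positivity
      nlinarith
    · by_cases c2 : zz m ∈ A
      · have hmS : m ∈ S := (hSA m).2 ⟨c2, hmB.2⟩
        have hsub : Cell q m ⊆ A := by
          intro z hz
          by_contra hc
          exact c1 (Finset.mem_filter.2 ⟨hm, ⟨zz m, zz_mem_cell q hq m, c2⟩, z, hz, hc⟩)
        rw [if_pos hmS, if_neg c1, if_pos hmS, Set.inter_eq_right.2 hsub, add_zero]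
        have h3 : ((q : ℂ) ^ 2) * F (zz m) = ∫ _ in Cell q m, F (zz m) := by
          rw [setIntegral_const, cell_volr, Complex.real_smul]
          push_cast
          rfl
        have hconst : IntegrableOn (fun _ : ℂ => F (zz m)) (Cell q m) volume :=
          integrableOn_const (cell_fin q m).ne
        rw [h3, ← integral_sub hconst (hint _ (cell_fin q m))]
        have h4 := norm_setIntegral_le_of_norm_le_const (μ := volume)
          (f := fun z => F (zz m) - F z) (C := δ) (cell_fin q m) (by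
            intro z hz
            have h5 := (hAn _ c2).1
            have h6 := (hAn _ (hsub hz)).1
            have h7 := cell_dist q m z hz
            rw [norm_sub_rev] at h7
            have h8 := uup_var h (zz m) z (2 * q) (by linarith) (by
              intro hz0
              rw [hz0, norm_zero] at h6
              linarith) h7
            refine h8.trans ?_
            rw [hδ]
            have h9 : 2 * (2 * (q : ℝ)) / ‖zz m‖ ≤ 4 * q / s := by
              rw [show 2 * (2 * (q : ℝ)) = 4 * q by ring]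
              gcongr
            gcongr)
        rw [cell_volr] at h4
        linarith
      · have hmS : m ∉ S := fun hc => c2 ((hSA m).1 hc).1
        have hemp : A ∩ Cell q m = ∅ := by
          rw [Set.eq_empty_iff_forall_notMem]
          rintro z ⟨hz1, hz2⟩
          exact c1 (Finset.mem_filter.2 ⟨hm, ⟨z, hz2, hz1⟩, zz m, zz_mem_cell q hq m, c2⟩)
        rw [if_neg hmS, if_neg c1, if_neg hmS, hemp, Measure.restrict_empty, integral_zero_measure]
        simp
  -- summation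
  have hsum : ((q : ℂ) ^ 2) * ∑ m ∈ S, F (zz m) =
      ∑ m ∈ B, ((if m ∈ S then ((q : ℂ) ^ 2) * F (zz m) else 0) - ∫ z in A ∩ Cell q m, F z) := by
    rw [Finset.sum_sub_distrib, hI, sub_zero, ← Finset.sum_filter, Finset.mul_sum]
    apply Finset.sum_congr _ (fun _ _ => rfl)
    ext m
    rw [Finset.mem_filter]
    exact ⟨fun hm => ⟨hSB hm, hm⟩, fun hm => hm.2⟩
  have hn : ((q : ℝ) ^ 2) * ‖∑ m ∈ S, F (zz m)‖ ≤ ((q : ℝ) ^ 2) * (S.card * δ + Bd.card * 2) := by
    have h3 : ((q : ℝ) ^ 2) * ‖∑ m ∈ S, F (zz m)‖ = ‖((q : ℂ) ^ 2) * ∑ m ∈ S, F (zz m)‖ := by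
      rw [norm_mul, norm_pow, Complex.norm_natCast]
    rw [h3, hsum]
    refine (norm_sum_le _ _).trans ((Finset.sum_le_sum hcell).trans ?_)
    rw [← Finset.mul_sum, Finset.sum_add_distrib, ← Finset.sum_filter, ← Finset.sum_filter,
      Finset.sum_const, Finset.sum_const, nsmul_eq_mul, nsmul_eq_mul]
    have h4 : ((B.filter (fun m => m ∈ S)).card : ℝ) ≤ S.card := by
      have : (B.filter (fun m => m ∈ S)).card ≤ S.card :=
        Finset.card_le_card (fun m hm => (Finset.mem_filter.1 hm).2)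
      exact_mod_cast this
    have h5 : ((B.filter (fun m => m ∈ Bd)).card : ℝ) ≤ Bd.card := by
      have : (B.filter (fun m => m ∈ Bd)).card ≤ Bd.card :=
        Finset.card_le_card (fun m hm => (Finset.mem_filter.1 hm).2)
      exact_mod_cast this
    gcongr
  have hfin := le_of_mul_le_mul_left hn (by positivity)
  refine hfin.trans ?_
  linarith

end Pool.Agent.X67
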