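import Pool.Agent.Lib.MP_a17b09_nt.MRS.Bif67
import Pool.Agent.Lib.MP_a17b09_nt.MRS.Smf67

/-!
MRS section 2: exponential sums over Gaussian integers, the proof of `StExp`.
-/

set_option autoImplicit false

namespace Pool.Agent.X67

open Finset Complex

theorem card_triv2 (Y r1 r2 : ℝ) (q : ℕ) (a0 b0 : ℤ) (S : Finset (ℤ × ℤ)) (hY : 1 ≤ Y)
    (h2 : r2 ≤ Y) (hS : IsRing r1 r2 q a0 b0 S) : (S.card : ℝ) ≤ 25 * Y :=
  card_triv Y r1 r2 q a0 b0 S hY (by linarith) hS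

/-- small frequencies -/
theorem small_fin (Y r1 r2 : ℝ) (h q : ℕ) (a0 b0 : ℤ) (S : Finset (ℤ × ℤ)) (hY : 1 ≤ Y)
    (h1 : Y ≤ r1) (h2 : r2 ≤ 2 * Y) (hh : 1 ≤ h) (hhY : (h : ℝ) ≤ Y ^ (1 / 8 : ℝ)) (hq : 1 ≤ q)
    (hqc : (q : ℝ) ≤ Y ^ (1 / 8 : ℝ)) (hS : IsRing r1 r2 q a0 b0 S) :
    ‖∑ m ∈ S, uu (zz m) ^ h‖ ≤ 6400 * Y ^ (1 - 1 / 8 : ℝ) := by
  have hY00 : 0 < Y := by linarith
  have mono : ∀ a b : ℝ, a ≤ b → Y ^ a ≤ Y ^ b := fun a b hab =>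
    Real.rpow_le_rpow_of_exponent_le hY hab
  have addp : ∀ a b : ℝ, Y ^ a * Y ^ b = Y ^ (a + b) := fun a b =>
    (Real.rpow_add hY00 a b).symm
  have posp : ∀ a : ℝ, 0 < Y ^ a := fun a => Real.rpow_pos_of_pos hY00 a
  have onep : ∀ a : ℝ, 0 ≤ a → 1 ≤ Y ^ a := fun a ha => Real.one_le_rpow hY ha
  have hcS := card_triv Y r1 r2 q a0 b0 S hY h2 hS
  have hcs0 : (0 : ℝ) ≤ S.card := Nat.cast_nonneg _
  by_cases hb : Y < 256
  · have h3 := sum_triv S h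
    have h4 : Y ≤ 256 * Y ^ (1 - 1 / 8 : ℝ) := by
      have := onep (1 - 1 / 8) (by norm_num)
      linarith
    linarith
  · rw [not_lt] at hb
    set s : ℝ := Real.sqrt Y with hsd
    have hsY : s = Y ^ (1 / 2 : ℝ) := Real.sqrt_eq_rpow Y
    have hs : 1 ≤ s := Real.one_le_sqrt.2 hY
    have hs0 : 0 < s := by linarith
    have hssq : s ^ 2 = Y := Real.sq_sqrt hY00.le
    have hq' : (1 : ℝ) ≤ q := by exact_mod_cast hq
    have hh' : (1 : ℝ) ≤ h := by exact_mod_cast hh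
    have h2' : (2 : ℝ) ≤ Y ^ (1 / 8 : ℝ) := by
      have h3 := Real.rpow_le_rpow (by norm_num) hb (show (0 : ℝ) ≤ 1 / 8 by norm_num)
      have h4 : (256 : ℝ) ^ (1 / 8 : ℝ) = 2 := by
        rw [show (256 : ℝ) = 2 ^ (8 : ℕ) by norm_num, ← Real.rpow_natCast, ← Real.rpow_mul (by norm_num)]
        norm_num
      linarith
    have hq2 : 2 * (q : ℝ) ≤ Y ^ (1 / 4 : ℝ) := by
      calc 2 * (q : ℝ) ≤ Y ^ (1 / 8 : ℝ) * Y ^ (1 / 8 : ℝ) := by gcongr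
        _ = Y ^ (1 / 4 : ℝ) := by rw [addp]; norm_num
    have hq3 : 2 * (q : ℝ) ≤ s := by
      rw [hsY]
      exact hq2.trans (mono _ _ (by norm_num))
    have hraw := small_raw s r1 r2 h q a0 b0 S hs (by rw [hssq]; exact h1) (by rw [hssq]; exact h2)
      hh hq hq3 hS
    have t1 : (S.card : ℝ) * (h * (4 * q / s)) ≤ 100 * Y ^ (1 - 1 / 8 : ℝ) := by
      have h3 : (h : ℝ) * (4 * q / s) ≤ Y ^ (1 / 8 : ℝ) * (4 * Y ^ (1 / 8 : ℝ) / s) := by gcongr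
      calc (S.card : ℝ) * (h * (4 * q / s))
          ≤ (25 * Y) * (Y ^ (1 / 8 : ℝ) * (4 * Y ^ (1 / 8 : ℝ) / s)) := by gcongr
        _ = 100 * (s * Y ^ (1 / 8 : ℝ) * Y ^ (1 / 8 : ℝ)) := by
          rw [← hssq]
          field_simp
          ring
        _ = 100 * Y ^ (1 / 2 + 1 / 8 + 1 / 8 : ℝ) := by
          rw [hsY, addp, addp]
        _ ≤ 100 * Y ^ (1 - 1 / 8 : ℝ) := by
          have := mono (1 / 2 + 1 / 8 + 1 / 8) (1 - 1 / 8) (by norm_num)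
          linarith
    have t2 : 4 * ((2 * (2 * s + 2 * q) + 1) * (4 * Real.sqrt (2 * s * (2 * q)) + 2)) ≤
        300 * Y ^ (1 - 1 / 8 : ℝ) := by
      have h3 : Real.sqrt (2 * s * (2 * q)) ≤ 2 * Y ^ (3 / 8 : ℝ) := by
        apply Real.sqrt_le_iff.2
        refine ⟨by have := posp (3 / 8); positivity, ?_⟩
        calc 2 * s * (2 * q) ≤ 2 * s * Y ^ (1 / 4 : ℝ) := by gcongr
          _ = 2 * (Y ^ (3 / 8 : ℝ) * Y ^ (3 / 8 : ℝ)) := by
            rw [hsY, mul_assoc, addp, addp]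
            norm_num
          _ ≤ (2 * Y ^ (3 / 8 : ℝ)) ^ 2 := by nlinarith [posp (3 / 8)]
      have h4 : 1 ≤ Y ^ (3 / 8 : ℝ) := onep _ (by norm_num)
      have h5 : 2 * (2 * s + 2 * q) + 1 ≤ 7 * s := by linarith
      have h6 : 4 * Real.sqrt (2 * s * (2 * q)) + 2 ≤ 10 * Y ^ (3 / 8 : ℝ) := by linarith
      have h7 : (0 : ℝ) ≤ 4 * Real.sqrt (2 * s * (2 * q)) + 2 := by positivity
      calc 4 * ((2 * (2 * s + 2 * q) + 1) * (4 * Real.sqrt (2 * s * (2 * q)) + 2))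
          ≤ 4 * ((7 * s) * (10 * Y ^ (3 / 8 : ℝ))) := by gcongr
        _ = 280 * (s * Y ^ (3 / 8 : ℝ)) := by ring
        _ = 280 * Y ^ (1 - 1 / 8 : ℝ) := by
          rw [hsY, addp]
          norm_num
        _ ≤ 300 * Y ^ (1 - 1 / 8 : ℝ) := by
          have := posp (1 - 1 / 8)
          linarith
    have := posp (1 - 1 / 8)
    linarith

/-- dyadic rings, all frequencies up to a power -/
theorem ring_all (R : ℕ) : ∃ c C : ℝ, 0 < c ∧ c ≤ 1 / 8 ∧ 0 < C ∧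
    ∀ (Y r1 r2 : ℝ) (h q : ℕ) (a0 b0 : ℤ) (S : Finset (ℤ × ℤ)), 1 ≤ Y → Y ≤ r1 → r2 ≤ 2 * Y →
      1 ≤ h → (h : ℝ) ≤ Y ^ ((2 * R + 1) / 8 : ℝ) → 1 ≤ q → (q : ℝ) ≤ Y ^ c →
      IsRing r1 r2 q a0 b0 S → ‖∑ m ∈ S, uu (zz m) ^ h‖ ≤ C * Y ^ (1 - c) := by
  induction R with
  | zero =>
    refine ⟨1 / 8, 6400, by norm_num, le_rfl, by norm_num, ?_⟩
    intro Y r1 r2 h q a0 b0 S hY h1 h2 hh hhY hq hqc hS
    have e : ((2 * ((0 : ℕ) : ℝ) + 1) / 8 : ℝ) = 1 / 8 := by norm_num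
    rw [e] at hhY
    exact small_fin Y r1 r2 h q a0 b0 S hY h1 h2 hh hhY hq hqc hS
  | succ R ih =>
    obtain ⟨c, C, hc0, hc8, hC0, hP⟩ := ih
    set r : ℕ := R + 1 with hr
    obtain ⟨c', hc'⟩ : ∃ c' : ℝ, c' = 1 / (96 * 2 ^ r * (r + 1)) := ⟨_, rfl⟩
    obtain ⟨Y0, hY0⟩ : ∃ Y0 : ℝ, Y0 = (2 * (r.factorial : ℝ)) ^ 24 := ⟨_, rfl⟩
    obtain ⟨K, hK⟩ : ∃ K : ℝ, K = Pool.Agent.MR36.CC36 (r - 1) *
      (2 + 20 * 4 ^ r * (1 + 96 * r) ^ r) := ⟨_, rfl⟩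
    have hbig := big_main r (by omega) c' hc' Y0 hY0 K hK
    have hc'0 : 0 < c' := by rw [hc']; positivity
    have hK0 : 0 ≤ K := by
      rw [hK]
      have := Pool.Agent.MR36.CC_ge36 (r - 1)
      positivity
    have hY00 : 0 < Y0 := by
      rw [hY0]
      have : (0 : ℝ) < r.factorial := by exact_mod_cast Nat.factorial_pos r
      positivity
    refine ⟨min c c', C + 25 * Y0 + (25 * (2 + K) + 112 + 15 * r), lt_min hc0 hc'0,
      (min_le_left _ _).trans hc8, by positivity, ?_⟩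
    intro Y r1 r2 h q a0 b0 S hY h1 h2 hh hhY hq hqc hS
    have hYp : 0 < Y := by linarith
    have mono : ∀ a b : ℝ, a ≤ b → Y ^ a ≤ Y ^ b := fun a b hab =>
      Real.rpow_le_rpow_of_exponent_le hY hab
    have posp : ∀ a : ℝ, 0 < Y ^ a := fun a => Real.rpow_pos_of_pos hYp a
    have m1 : Y ^ (1 - c) ≤ Y ^ (1 - min c c') := mono _ _ (by linarith [min_le_left c c'])
    have m2 : Y ^ (1 - c') ≤ Y ^ (1 - min c c') := mono _ _ (by linarith [min_le_right c c'])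
    have hp := posp (1 - min c c')
    by_cases c1 : (h : ℝ) ≤ Y ^ ((2 * R + 1) / 8 : ℝ)
    · have h3 := hP Y r1 r2 h q a0 b0 S hY h1 h2 hh c1 hq
        (hqc.trans (mono _ _ (min_le_left _ _))) hS
      refine h3.trans ?_
      have e : (0 : ℝ) ≤ 25 * Y0 + (25 * (2 + K) + 112 + 15 * r) := by positivity
      calc C * Y ^ (1 - c) ≤ C * Y ^ (1 - min c c') := by gcongr
        _ ≤ (C + 25 * Y0 + (25 * (2 + K) + 112 + 15 * r)) * Y ^ (1 - min c c') := by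
          apply mul_le_mul_of_nonneg_right _ hp.le
          linarith
    · rw [not_le] at c1
      by_cases c2 : Y0 ≤ Y
      · have e1 : ((2 * (r : ℝ) - 1) / 8 : ℝ) = (2 * R + 1) / 8 := by
          rw [hr]; push_cast; ring
        have h3 := hbig Y r1 r2 h q a0 b0 S hY c2 h1 h2 (by rw [e1]; exact c1.le) hhY hq
          (hqc.trans (mono _ _ (min_le_right _ _))) hS
        refine h3.trans ?_
        calc (25 * (2 + K) + 112 + 15 * r) * Y ^ (1 - c')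
            ≤ (25 * (2 + K) + 112 + 15 * r) * Y ^ (1 - min c c') := by gcongr
          _ ≤ (C + 25 * Y0 + (25 * (2 + K) + 112 + 15 * r)) * Y ^ (1 - min c c') := by
            apply mul_le_mul_of_nonneg_right _ hp.le
            linarith
      · rw [not_le] at c2
        have h3 := (sum_triv S h).trans (card_triv Y r1 r2 q a0 b0 S hY h2 hS)
        refine h3.trans ?_
        have h4 : (1 : ℝ) ≤ Y ^ (1 - min c c') := by
          apply Real.one_le_rpow hY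
          linarith [min_le_left c c']
        have e : (0 : ℝ) ≤ C + (25 * (2 + K) + 112 + 15 * r) := by positivity
        calc 25 * Y ≤ 25 * Y0 * 1 := by linarith
          _ ≤ 25 * Y0 * Y ^ (1 - min c c') := by gcongr
          _ ≤ _ := by
            apply mul_le_mul_of_nonneg_right _ hp.le
            linarith

open Classical in
theorem ring_split (r1 r2 X : ℝ) (q : ℕ) (a0 b0 : ℤ) (S : Finset (ℤ × ℤ))
    (hS : IsRing r1 r2 q a0 b0 S) :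
    IsRing r1 (min r2 X) q a0 b0 (S.filter (fun m => (m.1 : ℝ) ^ 2 + (m.2 : ℝ) ^ 2 ≤ X)) ∧
    IsRing (max r1 (⌊X⌋ + 1)) r2 q a0 b0
      (S.filter (fun m => ¬ ((m.1 : ℝ) ^ 2 + (m.2 : ℝ) ^ 2 ≤ X))) := by
  constructor
  · intro m
    rw [Finset.mem_filter, hS m, le_min_iff]
    tauto
  · intro m
    rw [Finset.mem_filter, hS m, max_le_iff]
    have key : ¬ ((m.1 : ℝ) ^ 2 + (m.2 : ℝ) ^ 2 ≤ X) ↔
        ((⌊X⌋ : ℝ) + 1 ≤ (m.1 : ℝ) ^ 2 + (m.2 : ℝ) ^ 2) := by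
      rw [not_le]
      have e1 : (m.1 : ℝ) ^ 2 + (m.2 : ℝ) ^ 2 = ((m.1 ^ 2 + m.2 ^ 2 : ℤ) : ℝ) := by push_cast; ring
      rw [e1, ← Int.floor_lt]
      constructor
      · intro h
        have : ⌊X⌋ + 1 ≤ m.1 ^ 2 + m.2 ^ 2 := h
        exact_mod_cast this
      · intro h
        have : ⌊X⌋ + 1 ≤ m.1 ^ 2 + m.2 ^ 2 := by exact_mod_cast h
        exact this
    rw [key]
    tauto

theorem rp_half (c X : ℝ) (hc : c ≤ 1 / 2) (hX : 0 < X) :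
    5 * (X / 2) ^ (1 - c) ≤ 4 * X ^ (1 - c) := by
  rw [Real.div_rpow hX.le (by norm_num)]
  have h1 : (5 / 4 : ℝ) ≤ 2 ^ (1 - c) := by
    calc (5 / 4 : ℝ) ≤ 2 ^ (1 / 2 : ℝ) := by
          rw [← Real.sqrt_eq_rpow]
          apply Real.le_sqrt_of_sq_le
          norm_num
      _ ≤ 2 ^ (1 - c) := Real.rpow_le_rpow_of_exponent_le (by norm_num) (by linarith)
  have h2 : 0 < X ^ (1 - c) := Real.rpow_pos_of_pos hX _
  have h3 : (0 : ℝ) < 2 ^ (1 - c) := by linarith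
  rw [mul_div_assoc', div_le_iff₀ h3]
  nlinarith

/-- all rings by dyadic decomposition -/
theorem dyadic (c C B : ℝ) (hc8 : c ≤ 1 / 8) (hC : 0 < C) (hB : 0 ≤ B) (hc0 : 0 < c)
    (h q : ℕ) (hh : 1 ≤ h) (hq : 1 ≤ q)
    (hP : ∀ (Y r1 r2 : ℝ) (a0 b0 : ℤ) (S : Finset (ℤ × ℤ)), 1 ≤ Y → Y ≤ r1 → r2 ≤ 2 * Y →
      (h : ℝ) ≤ Y ^ B → (q : ℝ) ≤ Y ^ c →
      IsRing r1 r2 q a0 b0 S → ‖∑ m ∈ S, uu (zz m) ^ h‖ ≤ C * Y ^ (1 - c))
    (y0 : ℝ) (hy0 : 1 ≤ y0) (hhy : (h : ℝ) ≤ y0 ^ B) (hqy : (q : ℝ) ≤ y0 ^ c) :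
    ∀ (k : ℕ) (X r1 r2 : ℝ) (a0 b0 : ℤ) (S : Finset (ℤ × ℤ)), 1 ≤ X → X ≤ 2 ^ k * y0 → r2 ≤ X →
      IsRing r1 r2 q a0 b0 S → ‖∑ m ∈ S, uu (zz m) ^ h‖ ≤ 50 * y0 + 4 * C * X ^ (1 - c) := by
  classical
  intro k
  induction k with
  | zero =>
    intro X r1 r2 a0 b0 S hX1 hX hr2 hS
    rw [pow_zero, one_mul] at hX
    have h3 := (sum_triv S h).trans (card_triv2 X r1 r2 q a0 b0 S hX1 hr2 hS)
    have h4 : 0 < X ^ (1 - c) := Real.rpow_pos_of_pos (by linarith) _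
    have h5 : 0 ≤ 4 * C * X ^ (1 - c) := by positivity
    linarith
  | succ k ih =>
    intro X r1 r2 a0 b0 S hX1 hX hr2 hS
    have hX0 : 0 < X := by linarith
    have h4 : 0 < X ^ (1 - c) := Real.rpow_pos_of_pos hX0 _
    by_cases c1 : X ≤ 2 * y0
    · have h3 := (sum_triv S h).trans (card_triv2 X r1 r2 q a0 b0 S hX1 hr2 hS)
      have h5 : 0 ≤ 4 * C * X ^ (1 - c) := by positivity
      linarith
    · rw [not_le] at c1
      have hX2 : y0 ≤ X / 2 := by linarith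
      have hX21 : 1 ≤ X / 2 := hy0.trans hX2
      obtain ⟨s1, s2⟩ := ring_split r1 r2 (X / 2) q a0 b0 S hS
      have i1 := ih (X / 2) r1 (min r2 (X / 2)) a0 b0 _ hX21 (by
        rw [pow_succ] at hX
        linarith) (min_le_right _ _) s1
      have i2 := hP (X / 2) (max r1 (⌊X / 2⌋ + 1)) r2 a0 b0 _ hX21 (by
        refine le_trans ?_ (le_max_right _ _)
        exact (Int.lt_floor_add_one _).le) (by linarith)
        (hhy.trans (Real.rpow_le_rpow (by linarith) hX2 hB))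
        (hqy.trans (Real.rpow_le_rpow (by linarith) hX2 hc0.le)) s2
      have e1 : ∑ m ∈ S, uu (zz m) ^ h =
          ∑ m ∈ S.filter (fun m => (m.1 : ℝ) ^ 2 + (m.2 : ℝ) ^ 2 ≤ X / 2), uu (zz m) ^ h +
          ∑ m ∈ S.filter (fun m => ¬ ((m.1 : ℝ) ^ 2 + (m.2 : ℝ) ^ 2 ≤ X / 2)), uu (zz m) ^ h :=
        (Finset.sum_filter_add_sum_filter_not S _ _).symm
      rw [e1]
      refine (norm_add_le _ _).trans ?_
      have h5 := rp_half c X (by linarith) hX0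
      have h6 : C * (5 * (X / 2) ^ (1 - c)) ≤ C * (4 * X ^ (1 - c)) :=
        mul_le_mul_of_nonneg_left h5 hC.le
      linarith

theorem uu_zpow_neg (z : ℂ) (n : ℕ) (hn : 1 ≤ n) :
    uu z ^ (-(n : ℤ)) = (starRingEnd ℂ) (uu z ^ n) := by
  rw [zpow_neg, zpow_natCast]
  by_cases hz : z = 0
  · have : uu z = 0 := by unfold uu; rw [hz]; simp
    rw [this, zero_pow (by omega), inv_zero, map_zero]
  · have h1 := uu_norm hz
    have h2 : ‖uu z ^ n‖ = 1 := by rw [norm_pow, h1, one_pow]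
    exact (Complex.inv_eq_conj h2)

/-- exponential sums over Gaussian integers -/
theorem stExp : StExp := by
  intro A hA
  obtain ⟨R, hR⟩ := exists_nat_gt (8 * A)
  obtain ⟨c, C, hc0, hc8, hC0, hP⟩ := ring_all R
  refine ⟨c / 2, 50 + 4 * C, by positivity, by positivity, ?_⟩
  intro Y r1 r2 h q a0 b0 S hY hr2 hh hhY hq hqc hS
  have hY0 : 0 < Y := by linarith
  set n : ℕ := h.natAbs with hn
  have hn1 : 1 ≤ n := Int.natAbs_pos.2 hh
  have hnr : (n : ℝ) = |(h : ℝ)| := by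
    rw [hn, Nat.cast_natAbs, Int.cast_abs]
  have main : ‖∑ m ∈ S, uu (zz m) ^ n‖ ≤ (50 + 4 * C) * Y ^ (1 - c / 2) := by
    set y0 : ℝ := Y ^ (1 / 2 : ℝ) with hy
    have hy0 : 1 ≤ y0 := Real.one_le_rpow hY (by norm_num)
    have b1 : (n : ℝ) ≤ y0 ^ ((2 * R + 1) / 8 : ℝ) := by
      rw [hnr, hy, ← Real.rpow_mul hY0.le]
      refine hhY.trans (Real.rpow_le_rpow_of_exponent_le hY ?_)
      linarith
    have b2 : (q : ℝ) ≤ y0 ^ c := by
      rw [hy, ← Real.rpow_mul hY0.le]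
      refine hqc.trans (Real.rpow_le_rpow_of_exponent_le hY ?_)
      linarith
    obtain ⟨k, hk⟩ := pow_unbounded_of_one_lt Y (one_lt_two : (1 : ℝ) < 2)
    have h3 := dyadic c C ((2 * R + 1) / 8 : ℝ) hc8 hC0 (by positivity) hc0 n q hn1 hq
      (fun Y r1 r2 a0 b0 S g1 g2 g3 g4 g5 g6 => hP Y r1 r2 n q a0 b0 S g1 g2 g3 hn1 g4 hq g5 g6)
      y0 hy0 b1 b2 k Y r1 r2 a0 b0 S hY (by nlinarith) hr2 hS
    refine h3.trans ?_
    have h4 : y0 ≤ Y ^ (1 - c / 2) := Real.rpow_le_rpow_of_exponent_le hY (by linarith)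
    have h5 : Y ^ (1 - c) ≤ Y ^ (1 - c / 2) :=
      Real.rpow_le_rpow_of_exponent_le hY (by linarith)
    have h6 : 4 * C * Y ^ (1 - c) ≤ 4 * C * Y ^ (1 - c / 2) := by gcongr
    linarith
  have e0 : ∀ m : ℤ × ℤ, (zz m / (‖zz m‖ : ℂ)) ^ h = uu (zz m) ^ h := fun m => rfl
  simp only [e0]
  rcases Int.natAbs_eq h with h3 | h3
  · rw [h3]
    simp only [zpow_natCast]
    exact main
  · rw [h3]
    have e1 : ∑ m ∈ S, uu (zz m) ^ (-((h.natAbs : ℕ) : ℤ)) =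
        (starRingEnd ℂ) (∑ m ∈ S, uu (zz m) ^ n) := by
      rw [map_sum]
      exact Finset.sum_congr rfl fun m _ => uu_zpow_neg (zz m) n hn1
    rw [e1, RCLike.norm_conj]
    exact main

end Pool.Agent.X67
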