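import Pool.Agent.Lib.MP_a17b09_nt.MRS.HExp67

/-!
Exponential sums over balls of the cone of an indefinite binary form.
-/

set_option autoImplicit false

namespace Pool.Agent.XH67

open Finset Complex
open Pool.Agent.Lib.MP_a17b09_nt.CH Pool.Agent.Lib.MP_a17b09_nt.HY
open Pool.Agent.XR67 (card_fib2)

/-- size of the coordinates -/
theorem crd_bd {d : ℕ} {Q : Form} (h : Hyp d Q) {B : ℝ} :
    ∃ R : ℝ, 0 < R ∧ ∀ v : V, ∀ X : ℝ, Cn Q v → |ps Q v| ≤ B → (Q.q v : ℝ) ≤ X →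
      |(v.1 : ℝ)| ≤ R * √X ∧ |(v.2 : ℝ)| ≤ R * √X := by
  have hsa := h.sa
  have hsd := h.sd
  have hcB : 0 < Real.cosh B := Real.cosh_pos B
  refine ⟨(1 + |(Q.b : ℝ)| / √(d : ℝ)) * Real.cosh B / √(Q.a : ℝ) +
    2 * √(Q.a : ℝ) * Real.cosh B / √(d : ℝ), by positivity, ?_⟩
  intro v X hv hps hXle
  obtain ⟨e1, e2⟩ := polar h hv
  have hq : 0 < (Q.q v : ℝ) := by exact_mod_cast hv.q_pos h
  have hs : √(Q.q v : ℝ) ≤ √X := Real.sqrt_le_sqrt hXle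
  have hs0 : 0 ≤ √X := Real.sqrt_nonneg _
  have hc1 : Real.cosh (ps Q v) ≤ Real.cosh B := by
    rw [Real.cosh_le_cosh]
    exact hps.trans (le_abs_self B)
  have hXb : |hX Q v| ≤ Real.cosh B * √X := by
    rw [abs_of_pos hv.X_pos, e1]
    have h2 : √(Q.q v : ℝ) * Real.cosh (ps Q v) ≤ √X * Real.cosh B :=
      mul_le_mul hs hc1 (Real.cosh_pos _).le hs0
    linarith
  have hYb : |hY Q v| ≤ Real.cosh B * √X := by
    have h1 : |hY Q v| < hX Q v := hv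
    have h2 := le_abs_self (hX Q v)
    linarith
  have hv2 : |(v.2 : ℝ)| ≤ 2 * √(Q.a : ℝ) * Real.cosh B / √(d : ℝ) * √X := by
    have e3 : (v.2 : ℝ) = 2 * √(Q.a : ℝ) / √(d : ℝ) * hY Q v := by
      rw [h.hY_eq]
      field_simp
    rw [e3, abs_mul, abs_of_pos (by positivity : 0 < 2 * √(Q.a : ℝ) / √(d : ℝ))]
    calc 2 * √(Q.a : ℝ) / √(d : ℝ) * |hY Q v| ≤
        2 * √(Q.a : ℝ) / √(d : ℝ) * (Real.cosh B * √X) := by gcongr
      _ = _ := by ring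
  have hv1 : |(v.1 : ℝ)| ≤ (1 + |(Q.b : ℝ)| / √(d : ℝ)) * Real.cosh B / √(Q.a : ℝ) * √X := by
    have e3 : (v.1 : ℝ) = (hX Q v - (Q.b : ℝ) / √(d : ℝ) * hY Q v) / √(Q.a : ℝ) := by
      rw [h.hY_eq]
      unfold hX
      field_simp
      ring
    rw [e3, abs_div, abs_of_pos hsa, div_le_iff₀ hsa]
    have h3 : |hX Q v - (Q.b : ℝ) / √(d : ℝ) * hY Q v| ≤
        |hX Q v| + |(Q.b : ℝ)| / √(d : ℝ) * |hY Q v| := by
      refine (abs_sub _ _).trans ?_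
      rw [abs_mul, abs_div, abs_of_pos hsd]
    have h4 : |(Q.b : ℝ)| / √(d : ℝ) * |hY Q v| ≤
        |(Q.b : ℝ)| / √(d : ℝ) * (Real.cosh B * √X) := by gcongr
    have h5 : (1 + |(Q.b : ℝ)| / √(d : ℝ)) * Real.cosh B / √(Q.a : ℝ) * √X * √(Q.a : ℝ) =
        Real.cosh B * √X + |(Q.b : ℝ)| / √(d : ℝ) * (Real.cosh B * √X) := by
      field_simp
    rw [h5]
    linarith
  have p1 : 0 ≤ (1 + |(Q.b : ℝ)| / √(d : ℝ)) * Real.cosh B / √(Q.a : ℝ) * √X := by positivity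
  have p2 : 0 ≤ 2 * √(Q.a : ℝ) * Real.cosh B / √(d : ℝ) * √X := by positivity
  constructor <;> nlinarith

/-- counting in a class -/
theorem card_cls (q : ℕ) (hq : 0 < q) (a : V) (S : Finset V) (M : ℝ) (hM : 0 ≤ M)
    (hc : ∀ v ∈ S, (q : ℤ) ∣ v.1 - a.1 ∧ (q : ℤ) ∣ v.2 - a.2)
    (hb : ∀ v ∈ S, |(v.1 : ℝ)| ≤ M ∧ |(v.2 : ℝ)| ≤ M) :
    (S.card : ℝ) ≤ (2 * M / q + 1) ^ 2 := by
  classical
  have hqr : (0 : ℝ) < q := by exact_mod_cast hq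
  set g : V → ℤ × ℤ := fun v => ((v.1 - a.1) / (q : ℤ), (v.2 - a.2) / (q : ℤ)) with hg
  have hg1 : ∀ v ∈ S, (v.1 : ℝ) = q * ((g v).1 : ℝ) + a.1 ∧ (v.2 : ℝ) = q * ((g v).2 : ℝ) + a.2 := by
    intro v hv
    obtain ⟨h1, h2⟩ := hc v hv
    have e1 := Int.mul_ediv_cancel' h1
    have e2 := Int.mul_ediv_cancel' h2
    constructor
    · have : v.1 = q * (g v).1 + a.1 := by simp only [hg]; omega
      exact_mod_cast this
    · have : v.2 = q * (g v).2 + a.2 := by simp only [hg]; omega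
      exact_mod_cast this
  have hinj : Set.InjOn g (S : Set V) := by
    intro v hv w hw h
    have h1 := hg1 v hv
    have h2 := hg1 w hw
    rw [h] at h1
    ext
    · have : (v.1 : ℝ) = w.1 := by rw [h1.1, h2.1]
      exact_mod_cast this
    · have : (v.2 : ℝ) = w.2 := by rw [h1.2, h2.2]
      exact_mod_cast this
  rw [← Finset.card_image_of_injOn hinj]
  have key : ∀ x y u w : ℝ, |q * x + u| ≤ M → |q * y + u| ≤ M → |x - y| ≤ 2 * M / q := by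
    intro x y u _ h1 h2
    rw [le_div_iff₀ hqr]
    have e : |x - y| * q = |(q * x + u) - (q * y + u)| := by
      rw [← abs_of_pos hqr, ← abs_mul, abs_of_pos hqr]
      congr 1
      ring
    rw [e]
    refine (abs_sub _ _).trans ?_
    linarith
  have := card_fib2 (S.image g) (2 * M / q) (2 * M / q) (by positivity) (by positivity) ?_ ?_
  · rw [sq]
    exact this
  · intro m hm n hn
    obtain ⟨v, hv, rfl⟩ := Finset.mem_image.1 hm
    obtain ⟨w, hw, rfl⟩ := Finset.mem_image.1 hn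
    have h1 := (hb v hv).2
    have h2 := (hb w hw).2
    rw [(hg1 v hv).2] at h1
    rw [(hg1 w hw).2] at h2
    exact key _ _ _ 0 h1 h2
  · intro m hm n hn _
    obtain ⟨v, hv, rfl⟩ := Finset.mem_image.1 hm
    obtain ⟨w, hw, rfl⟩ := Finset.mem_image.1 hn
    have h1 := (hb v hv).1
    have h2 := (hb w hw).1
    rw [(hg1 v hv).1] at h1
    rw [(hg1 w hw).1] at h2
    exact key _ _ _ 0 h1 h2

theorem half_pow (c : ℝ) (hc : c ≤ 1 / 2) (x : ℝ) (hx : 0 ≤ x) :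
    (x / 2) ^ (1 - c) ≤ (3 / 4) * x ^ (1 - c) := by
  rw [Real.div_rpow hx (by norm_num)]
  have h5 : (2 : ℝ) ^ (1 / 2 : ℝ) ≤ 2 ^ (1 - c) :=
    Real.rpow_le_rpow_of_exponent_le (by norm_num) (by linarith)
  have h6 : (4 / 3 : ℝ) ≤ 2 ^ (1 / 2 : ℝ) := by
    rw [← Real.sqrt_eq_rpow]
    apply Real.le_sqrt_of_sq_le
    norm_num
  rw [div_le_iff₀ (by linarith)]
  have h7 : 0 ≤ x ^ (1 - c) := Real.rpow_nonneg hx _
  nlinarith

theorem norm_int_le (τ t0 t1 B : ℝ) (h0 : -B ≤ t0) (h01 : t0 ≤ t1) (h1 : t1 ≤ B) :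
    ‖∫ u in t0..t1, exp (I * ((τ * u : ℝ) : ℂ))‖ ≤ 2 * B := by
  refine (intervalIntegral.norm_integral_le_of_norm_le_const (C := 1) ?_).trans ?_
  · intro u _
    rw [mul_comm, Complex.norm_exp_ofReal_mul_I]
  · rw [abs_of_nonneg (by linarith), one_mul]
    linarith

theorem norm_sum_card (Q : Form) (τ : ℝ) (S : Finset V) :
    ‖∑ v ∈ S, exp (I * ((τ * ps Q v : ℝ) : ℂ))‖ ≤ S.card := by
  refine (norm_sum_le _ _).trans ?_
  rw [Finset.sum_congr rfl fun v _ => by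
    rw [mul_comm, Complex.norm_exp_ofReal_mul_I]]
  simp

/-- balls -/
theorem ball_bd {d : ℕ} {Q : Form} (hQ : Hyp d Q) (B κ : ℝ) (hB : 0 < B) (hκ : 0 < κ) :
    ∃ c C : ℝ, 0 < c ∧ c ≤ 1 / 2 ∧ 0 < C ∧ ∀ (T τ : ℝ) (q : ℕ) (a : V) (t0 t1 : ℝ),
      1 ≤ T → |τ| ≤ T → 0 < q → -B ≤ t0 → t0 ≤ t1 → t1 ≤ B →
      ∀ (n : ℕ) (r : ℝ) (S : Finset V), 0 ≤ r → r ≤ 2 ^ n → IsB Q q a t0 t1 0 r S →
      ‖∑ v ∈ S, exp (I * ((τ * ps Q v : ℝ) : ℂ)) -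
        ((r / (√(d : ℝ) * (q : ℝ) ^ 2) : ℝ) : ℂ) *
          ∫ u in t0..t1, exp (I * ((τ * u : ℝ) : ℂ))‖ ≤
        C * (r / (q : ℝ) ^ 2) ^ (1 - c) + C * T ^ κ := by
  classical
  obtain ⟨c1, C1, hc1, hC1, H⟩ := stVH d Q hQ B κ hB hκ
  obtain ⟨R, hR, HR⟩ := crd_bd hQ (B := B)
  have hsd := hQ.sd
  set c : ℝ := min c1 (1 / 2) with hc
  have hc0 : 0 < c := lt_min hc1 (by norm_num)
  have hc2 : c ≤ 1 / 2 := min_le_right _ _
  set D : ℝ := (4 * R + 1) ^ 2 + 4 * B / √(d : ℝ) with hD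
  have hD0 : 0 < D := by positivity
  refine ⟨c, 3 * C1 + D, hc0, hc2, by positivity, ?_⟩
  intro T τ q a t0 t1 hT hτ hq ht0 ht01 ht1
  have hqr : (0 : ℝ) < q := by exact_mod_cast hq
  have hTκ : 1 ≤ T ^ κ := Real.one_le_rpow hT hκ.le
  set J : ℂ := ∫ u in t0..t1, exp (I * ((τ * u : ℝ) : ℂ)) with hJ
  have hJn : ‖J‖ ≤ 2 * B := norm_int_le τ t0 t1 B ht0 ht01 ht1
  -- small balls
  have small : ∀ (r : ℝ) (S : Finset V), 0 ≤ r → r ≤ 2 * ((q : ℝ) ^ 2 * T ^ κ) →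
      IsB Q q a t0 t1 0 r S →
      ‖∑ v ∈ S, exp (I * ((τ * ps Q v : ℝ) : ℂ)) - ((r / (√(d : ℝ) * (q : ℝ) ^ 2) : ℝ) : ℂ) * J‖ ≤
        D * T ^ κ := by
    intro r S hr0 hr hS
    refine (norm_sub_le _ _).trans ?_
    have h1 : ((S.card : ℕ) : ℝ) ≤ (2 * (R * √r) / q + 1) ^ 2 := by
      refine card_cls q hq a S (R * √r) (by positivity) ?_ ?_
      · intro v hv
        have := (hS v).1 hv
        exact ⟨this.1, this.2.1⟩
      · intro v hv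
        obtain ⟨_, _, g3, g4, g5, g6, g7⟩ := (hS v).1 hv
        exact HR v r g3 (abs_le.2 ⟨by linarith, by linarith⟩) g7
    have hsr : √r ≤ 2 * (q * √(T ^ κ)) := by
      have e1 : √r ≤ √(4 * ((q : ℝ) ^ 2 * T ^ κ)) := by
        refine Real.sqrt_le_sqrt ?_
        have : 0 ≤ (q : ℝ) ^ 2 * T ^ κ := by positivity
        linarith
      have e2 : √(4 * ((q : ℝ) ^ 2 * T ^ κ)) = 2 * (q * √(T ^ κ)) := by
        rw [Real.sqrt_mul (by norm_num), Real.sqrt_mul (by positivity), Real.sqrt_sq hqr.le]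
        congr 1
        rw [show (4 : ℝ) = 2 ^ 2 by norm_num, Real.sqrt_sq (by norm_num)]
      rw [e2] at e1
      exact e1
    have hsT : 1 ≤ √(T ^ κ) := Real.one_le_sqrt.2 hTκ
    have h2 : 2 * (R * √r) / q + 1 ≤ (4 * R + 1) * √(T ^ κ) := by
      have e1 : 2 * (R * √r) / q ≤ 2 * (R * (2 * (q * √(T ^ κ)))) / q := by gcongr
      have e2 : 2 * (R * (2 * (q * √(T ^ κ)))) / q = 4 * R * √(T ^ κ) := by
        field_simp
        ring
      rw [e2] at e1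
      linear_combination e1 + hsT
    have h3 : (2 * (R * √r) / q + 1) ^ 2 ≤ (4 * R + 1) ^ 2 * T ^ κ := by
      have e1 : (2 * (R * √r) / q + 1) ^ 2 ≤ ((4 * R + 1) * √(T ^ κ)) ^ 2 :=
        pow_le_pow_left₀ (by positivity) h2 2
      rw [mul_pow, Real.sq_sqrt (by positivity)] at e1
      exact e1
    have h4 : ‖((r / (√(d : ℝ) * (q : ℝ) ^ 2) : ℝ) : ℂ) * J‖ ≤ 4 * B / √(d : ℝ) * T ^ κ := by
      rw [norm_mul, Complex.norm_real, Real.norm_eq_abs, abs_of_nonneg (by positivity)]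
      have e1 : r / (√(d : ℝ) * (q : ℝ) ^ 2) ≤ 2 * T ^ κ / √(d : ℝ) := by
        rw [div_le_div_iff₀ (by positivity) hsd]
        calc r * √(d : ℝ) ≤ 2 * ((q : ℝ) ^ 2 * T ^ κ) * √(d : ℝ) := by gcongr
          _ = _ := by ring
      calc r / (√(d : ℝ) * (q : ℝ) ^ 2) * ‖J‖ ≤ (2 * T ^ κ / √(d : ℝ)) * (2 * B) := by gcongr
        _ = _ := by ring
    have h5 := norm_sum_card Q τ S
    rw [hD]
    linarith
  intro n
  induction n with
  | zero =>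
    intro r S hr0 hr hS
    refine (small r S hr0 ?_ hS).trans ?_
    · have h1 : (1 : ℝ) ≤ (q : ℝ) ^ 2 := one_le_pow₀ (by exact_mod_cast hq)
      rw [pow_zero] at hr
      nlinarith
    · have h1 : 0 ≤ (3 * C1 + D) * (r / (q : ℝ) ^ 2) ^ (1 - c) := by positivity
      have h2 : D * T ^ κ ≤ (3 * C1 + D) * T ^ κ := by
        have : 0 ≤ 3 * C1 * T ^ κ := by positivity
        linarith
      linarith
  | succ n ih =>
    intro r S hr0 hr hS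
    rcases le_or_gt r (2 * ((q : ℝ) ^ 2 * T ^ κ)) with hsm | hbig
    · refine (small r S hr0 hsm hS).trans ?_
      have h1 : 0 ≤ (3 * C1 + D) * (r / (q : ℝ) ^ 2) ^ (1 - c) := by positivity
      have h2 : D * T ^ κ ≤ (3 * C1 + D) * T ^ κ := by
        have : 0 ≤ 3 * C1 * T ^ κ := by positivity
        linarith
      linarith
    · set S1 := S.filter (fun v => (Q.q v : ℝ) ≤ r / 2) with hS1
      set S2 := S.filter (fun v => ¬ (Q.q v : ℝ) ≤ r / 2) with hS2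
      have i1 : IsB Q q a t0 t1 0 (r / 2) S1 := by
        intro v
        rw [hS1, Finset.mem_filter, hS v]
        constructor
        · rintro ⟨⟨g1, g2, g3, g4, g5, g6, g7⟩, g8⟩
          exact ⟨g1, g2, g3, g4, g5, g6, g8⟩
        · rintro ⟨g1, g2, g3, g4, g5, g6, g7⟩
          exact ⟨⟨g1, g2, g3, g4, g5, g6, by linarith⟩, g7⟩
      have i2 : IsB Q q a t0 t1 (r / 2) r S2 := by
        intro v
        rw [hS2, Finset.mem_filter, hS v]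
        constructor
        · rintro ⟨⟨g1, g2, g3, g4, g5, g6, g7⟩, g8⟩
          exact ⟨g1, g2, g3, g4, g5, not_le.1 g8, g7⟩
        · rintro ⟨g1, g2, g3, g4, g5, g6, g7⟩
          exact ⟨⟨g1, g2, g3, g4, g5, by linarith, g7⟩, not_le.2 g6⟩
      have j1 := ih (r / 2) S1 (by linarith) (by rw [pow_succ] at hr; linarith) i1
      have j2 := H T τ q a (r / 2) (r / 2) r t0 t1 S2 hT hτ hq (by linarith) le_rfl (by linarith)
        (by linarith) ht0 ht01 ht1 i2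
      rw [← hJ] at j2
      have hq2 : (0 : ℝ) < (q : ℝ) ^ 2 := by positivity
      have e0 : ∑ v ∈ S, exp (I * ((τ * ps Q v : ℝ) : ℂ)) =
          ∑ v ∈ S1, exp (I * ((τ * ps Q v : ℝ) : ℂ)) + ∑ v ∈ S2, exp (I * ((τ * ps Q v : ℝ) : ℂ)) :=
        (Finset.sum_filter_add_sum_filter_not S _ _).symm
      have e1 : ∑ v ∈ S, exp (I * ((τ * ps Q v : ℝ) : ℂ)) -
          ((r / (√(d : ℝ) * (q : ℝ) ^ 2) : ℝ) : ℂ) * J =
          (∑ v ∈ S1, exp (I * ((τ * ps Q v : ℝ) : ℂ)) -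
            ((r / 2 / (√(d : ℝ) * (q : ℝ) ^ 2) : ℝ) : ℂ) * J) +
          (∑ v ∈ S2, exp (I * ((τ * ps Q v : ℝ) : ℂ)) -
            (((r - r / 2) / (√(d : ℝ) * (q : ℝ) ^ 2) : ℝ) : ℂ) * J) := by
        rw [e0]
        push_cast
        ring
      rw [e1]
      refine (norm_add_le _ _).trans ?_
      have hx1 : 1 ≤ r / 2 / (q : ℝ) ^ 2 := by
        rw [le_div_iff₀ hq2]
        have hx0 := le_mul_of_one_le_right hq2.le hTκ
        linarith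
      have hc3 : (r / 2 / (q : ℝ) ^ 2) ^ (1 - c1) ≤ (r / 2 / (q : ℝ) ^ 2) ^ (1 - c) :=
        Real.rpow_le_rpow_of_exponent_le hx1 (by linarith [min_le_left c1 (1 / 2)])
      have hhp : (r / 2 / (q : ℝ) ^ 2) ^ (1 - c) ≤ (3 / 4) * (r / (q : ℝ) ^ 2) ^ (1 - c) := by
        have := half_pow c hc2 (r / (q : ℝ) ^ 2) (by positivity)
        rwa [div_right_comm] at this
      have hP : 0 ≤ (r / (q : ℝ) ^ 2) ^ (1 - c) := by positivity
      have k1 : C1 * (r / 2 / (q : ℝ) ^ 2) ^ (1 - c1) ≤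
          C1 * ((3 / 4) * (r / (q : ℝ) ^ 2) ^ (1 - c)) :=
        mul_le_mul_of_nonneg_left (hc3.trans hhp) hC1.le
      have k2 : (3 * C1 + D) * (r / 2 / (q : ℝ) ^ 2) ^ (1 - c) ≤
          (3 * C1 + D) * ((3 / 4) * (r / (q : ℝ) ^ 2) ^ (1 - c)) :=
        mul_le_mul_of_nonneg_left hhp (by positivity)
      have k3 : 0 ≤ D * (r / (q : ℝ) ^ 2) ^ (1 - c) := by positivity
      linarith

/-- all shells inside a ball -/
theorem stVHB : StVHB := by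
  classical
  intro d Q hQ B κ hB hκ
  obtain ⟨c, C, hc, hc2, hC, H⟩ := ball_bd hQ B (κ / 2) hB (by linarith)
  refine ⟨c, 4 * C, hc, hc2, by positivity, ?_⟩
  intro T τ q a Y r1 r2 t0 t1 S hT hτ hq hY hr1 hr12 hr2 ht0 ht01 ht1 hS
  have hqr : (0 : ℝ) < q := by exact_mod_cast hq
  have hq2 : (0 : ℝ) < (q : ℝ) ^ 2 := by positivity
  have hTκ : 1 ≤ T ^ κ := Real.one_le_rpow hT hκ.le
  have hYq : T ^ κ ≤ Y / (q : ℝ) ^ 2 := by
    rw [le_div_iff₀ hq2]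
    linarith
  have hYq1 : 1 ≤ Y / (q : ℝ) ^ 2 := by linarith
  have hTh : T ^ (κ / 2) ≤ (Y / (q : ℝ) ^ 2) ^ (1 - c) := by
    have e1 : T ^ (κ / 2) = (T ^ κ) ^ (1 / 2 : ℝ) := by
      rw [← Real.rpow_mul (by linarith)]
      congr 1
      ring
    rw [e1]
    exact (Real.rpow_le_rpow (by positivity) hYq (by norm_num)).trans
      (Real.rpow_le_rpow_of_exponent_le hYq1 (by linarith))
  -- the ball of radius `r2` in the class
  obtain ⟨R, hR, HR⟩ := crd_bd hQ (B := B)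
  have hfin : Set.Finite {v : V | (q : ℤ) ∣ v.1 - a.1 ∧ (q : ℤ) ∣ v.2 - a.2 ∧ Cn Q v ∧
      t0 ≤ ps Q v ∧ ps Q v < t1 ∧ (0 : ℝ) < (Q.q v : ℝ) ∧ (Q.q v : ℝ) ≤ r2} := by
    set M : ℤ := ⌈R * √r2⌉ with hM
    refine Set.Finite.subset ((Set.finite_Icc (-M) M).prod (Set.finite_Icc (-M) M)) ?_
    rintro v ⟨_, _, g3, g4, g5, _, g7⟩
    obtain ⟨b1, b2⟩ := HR v r2 g3 (abs_le.2 ⟨by linarith, by linarith⟩) g7
    rw [abs_le] at b1 b2
    have hM' : R * √r2 ≤ M := Int.le_ceil _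
    refine ⟨⟨?_, ?_⟩, ⟨?_, ?_⟩⟩
    · have : (-(M : ℝ)) ≤ v.1 := by linarith
      exact_mod_cast this
    · have : (v.1 : ℝ) ≤ M := by linarith
      exact_mod_cast this
    · have : (-(M : ℝ)) ≤ v.2 := by linarith
      exact_mod_cast this
    · have : (v.2 : ℝ) ≤ M := by linarith
      exact_mod_cast this
  set S2 : Finset V := hfin.toFinset with hS2
  have i2 : IsB Q q a t0 t1 0 r2 S2 := by
    intro v
    rw [hS2, Set.Finite.mem_toFinset]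
    rfl
  set S1 := S2.filter (fun v => (Q.q v : ℝ) ≤ r1) with hS1
  have i1 : IsB Q q a t0 t1 0 r1 S1 := by
    intro v
    rw [hS1, Finset.mem_filter, i2 v]
    constructor
    · rintro ⟨⟨g1, g2, g3, g4, g5, g6, g7⟩, g8⟩
      exact ⟨g1, g2, g3, g4, g5, g6, g8⟩
    · rintro ⟨g1, g2, g3, g4, g5, g6, g7⟩
      exact ⟨⟨g1, g2, g3, g4, g5, g6, by linarith⟩, g7⟩
  have iS : S = S2.filter (fun v => ¬ (Q.q v : ℝ) ≤ r1) := by
    ext v
    rw [Finset.mem_filter, hS v, i2 v]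
    constructor
    · rintro ⟨g1, g2, g3, g4, g5, g6, g7⟩
      exact ⟨⟨g1, g2, g3, g4, g5, by linarith, g7⟩, not_le.2 g6⟩
    · rintro ⟨⟨g1, g2, g3, g4, g5, g6, g7⟩, g8⟩
      exact ⟨g1, g2, g3, g4, g5, not_le.1 g8, g7⟩
  have hr20 : 0 ≤ r2 := hr1.trans hr12
  obtain ⟨n, hn⟩ := pow_unbounded_of_one_lt r2 (by norm_num : (1 : ℝ) < 2)
  have j2 := H T τ q a t0 t1 hT hτ hq ht0 ht01 ht1 n r2 S2 hr20 hn.le i2
  have j1 := H T τ q a t0 t1 hT hτ hq ht0 ht01 ht1 n r1 S1 hr1 (hr12.trans hn.le) i1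
  set J : ℂ := ∫ u in t0..t1, exp (I * ((τ * u : ℝ) : ℂ)) with hJ
  have e0 : ∑ v ∈ S2, exp (I * ((τ * ps Q v : ℝ) : ℂ)) =
      ∑ v ∈ S1, exp (I * ((τ * ps Q v : ℝ) : ℂ)) + ∑ v ∈ S, exp (I * ((τ * ps Q v : ℝ) : ℂ)) := by
    rw [iS]
    exact (Finset.sum_filter_add_sum_filter_not S2 _ _).symm
  have e1 : ∑ v ∈ S, exp (I * ((τ * ps Q v : ℝ) : ℂ)) -
      (((r2 - r1) / (√(d : ℝ) * (q : ℝ) ^ 2) : ℝ) : ℂ) * J =
      (∑ v ∈ S2, exp (I * ((τ * ps Q v : ℝ) : ℂ)) -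
        ((r2 / (√(d : ℝ) * (q : ℝ) ^ 2) : ℝ) : ℂ) * J) -
      (∑ v ∈ S1, exp (I * ((τ * ps Q v : ℝ) : ℂ)) -
        ((r1 / (√(d : ℝ) * (q : ℝ) ^ 2) : ℝ) : ℂ) * J) := by
    rw [e0]
    push_cast
    ring
  rw [e1]
  refine (norm_sub_le _ _).trans ?_
  have m2 : (r2 / (q : ℝ) ^ 2) ^ (1 - c) ≤ (Y / (q : ℝ) ^ 2) ^ (1 - c) :=
    Real.rpow_le_rpow (by positivity) (by gcongr) (by linarith)
  have m1 : (r1 / (q : ℝ) ^ 2) ^ (1 - c) ≤ (Y / (q : ℝ) ^ 2) ^ (1 - c) :=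
    Real.rpow_le_rpow (by positivity) (by gcongr; linarith) (by linarith)
  have n2 := mul_le_mul_of_nonneg_left m2 hC.le
  have n1 := mul_le_mul_of_nonneg_left m1 hC.le
  have n3 := mul_le_mul_of_nonneg_left hTh hC.le
  linarith

end Pool.Agent.XH67
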