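import Pool.Agent.Lib.MP_a17b09_nt.MRS.RInt67

/-!
Exponential sums for indefinite forms: comparison with the integral.
-/

set_option autoImplicit false

namespace Pool.Agent.XR67

open Finset MeasureTheory Complex Pool.Agent.X67

/-- unit cell -/
def CellR (w : ℝ × ℝ) (n : ℤ × ℤ) : Set (ℝ × ℝ) :=
  Set.Ico (pt w n).1 ((pt w n).1 + 1) ×ˢ Set.Ico (pt w n).2 ((pt w n).2 + 1)

theorem cellR_meas (w : ℝ × ℝ) (n : ℤ × ℤ) : MeasurableSet (CellR w n) :=
  measurableSet_Ico.prod measurableSet_Ico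

theorem cellR_vol (w : ℝ × ℝ) (n : ℤ × ℤ) : volume (CellR w n) = 1 := by
  unfold CellR
  rw [Measure.volume_eq_prod, Measure.prod_prod, Real.volume_Ico, Real.volume_Ico,
    add_sub_cancel_left, add_sub_cancel_left]
  simp

theorem cellR_volr (w : ℝ × ℝ) (n : ℤ × ℤ) : volume.real (CellR w n) = 1 := by
  unfold Measure.real
  rw [cellR_vol]
  simp

theorem cellR_fin (w : ℝ × ℝ) (n : ℤ × ℤ) : volume (CellR w n) < ⊤ := by
  rw [cellR_vol]; exact ENNReal.one_lt_top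

theorem pt_mem (w : ℝ × ℝ) (n : ℤ × ℤ) : pt w n ∈ CellR w n :=
  ⟨⟨le_rfl, by linarith⟩, ⟨le_rfl, by linarith⟩⟩

theorem cellR_dist (w : ℝ × ℝ) (n : ℤ × ℤ) (p : ℝ × ℝ) (hp : p ∈ CellR w n) :
    |p.1 - (pt w n).1| ≤ 1 ∧ |p.2 - (pt w n).2| ≤ 1 := by
  obtain ⟨⟨h1, h2⟩, h3, h4⟩ := hp
  constructor
  · rw [abs_le]; constructor <;> linarith
  · rw [abs_le]; constructor <;> linarith

theorem cellR_ex (w : ℝ × ℝ) (p : ℝ × ℝ) : ∃ n : ℤ × ℤ, p ∈ CellR w n := by
  refine ⟨(⌊p.1 - w.1⌋, ⌊p.2 - w.2⌋), ⟨?_, ?_⟩, ?_, ?_⟩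
  · have := Int.floor_le (p.1 - w.1)
    show ((⌊p.1 - w.1⌋ : ℤ) : ℝ) + w.1 ≤ p.1
    linarith
  · have := Int.lt_floor_add_one (p.1 - w.1)
    show p.1 < ((⌊p.1 - w.1⌋ : ℤ) : ℝ) + w.1 + 1
    linarith
  · have := Int.floor_le (p.2 - w.2)
    show ((⌊p.2 - w.2⌋ : ℤ) : ℝ) + w.2 ≤ p.2
    linarith
  · have := Int.lt_floor_add_one (p.2 - w.2)
    show p.2 < ((⌊p.2 - w.2⌋ : ℤ) : ℝ) + w.2 + 1
    linarith

theorem cellR_un (w : ℝ × ℝ) (p : ℝ × ℝ) (m n : ℤ × ℤ) (hm : p ∈ CellR w m)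
    (hn : p ∈ CellR w n) : m = n := by
  have key : ∀ (a b : ℤ) (x u : ℝ), (a : ℝ) + u ≤ x → x < a + u + 1 → (b : ℝ) + u ≤ x →
      x < b + u + 1 → a = b := by
    intro a b x u h1 h2 h3 h4
    have h5 : (a : ℝ) < ((b + 1 : ℤ) : ℝ) := by push_cast; linarith
    have h6 : (b : ℝ) < ((a + 1 : ℤ) : ℝ) := by push_cast; linarith
    have h7 := Int.cast_lt.1 h5
    have h8 := Int.cast_lt.1 h6
    omega
  exact Prod.ext (key m.1 n.1 p.1 w.1 hm.1.1 hm.1.2 hn.1.1 hn.1.2)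
    (key m.2 n.2 p.2 w.2 hm.2.1 hm.2.2 hn.2.1 hn.2.2)

/-- lattice points in a box -/
noncomputable def BxR (w : ℝ × ℝ) (R : ℝ) : Finset (ℤ × ℤ) :=
  (Icc ⌈-R - w.1⌉ ⌊R - w.1⌋) ×ˢ (Icc ⌈-R - w.2⌉ ⌊R - w.2⌋)

theorem mem_BxR (w : ℝ × ℝ) (R : ℝ) (n : ℤ × ℤ) :
    n ∈ BxR w R ↔ (|(pt w n).1| ≤ R ∧ |(pt w n).2| ≤ R) := by
  unfold BxR pt
  rw [Finset.mem_product, Finset.mem_Icc, Finset.mem_Icc, Int.ceil_le, Int.le_floor, Int.ceil_le,
    Int.le_floor, abs_le, abs_le]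
  constructor
  · rintro ⟨⟨h1, h2⟩, h3, h4⟩
    refine ⟨⟨?_, ?_⟩, ?_, ?_⟩ <;> simp only <;> linarith
  · rintro ⟨⟨h1, h2⟩, h3, h4⟩
    simp only at h1 h2 h3 h4
    refine ⟨⟨?_, ?_⟩, ?_, ?_⟩ <;> linarith

theorem log_var (a b g d : ℝ) (hg : 0 < g) (ha : g ≤ a) (hb : g ≤ b) (h : |a - b| ≤ d) :
    |Real.log a - Real.log b| ≤ d / g := by
  have key : ∀ a b : ℝ, g ≤ a → g ≤ b → |a - b| ≤ d → Real.log a - Real.log b ≤ d / g := by
    intro a b ha hb h
    have ha0 : 0 < a := by linarith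
    have hb0 : 0 < b := by linarith
    rw [← Real.log_div ha0.ne' hb0.ne']
    have h1 := Real.log_le_sub_one_of_pos (show 0 < a / b by positivity)
    have h2 : a / b - 1 = (a - b) / b := by field_simp
    rw [h2] at h1
    refine h1.trans ?_
    have h3 : a - b ≤ d := (le_abs_self _).trans h
    have hd : 0 ≤ d := (abs_nonneg _).trans h
    calc (a - b) / b ≤ d / b := by gcongr
      _ ≤ d / g := by gcongr
  rw [abs_le]
  constructor
  · have := key b a hb ha (by rw [abs_sub_comm]; exact h)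
    linarith
  · exact key a b ha hb h

theorem ph_var (tau g1 g2 k1 k2 g d : ℝ) (hg : 0 < g) (h1 : g ≤ g1) (h2 : g ≤ g2) (h3 : g ≤ k1)
    (h4 : g ≤ k2) (e1 : |g1 - k1| ≤ d) (e2 : |g2 - k2| ≤ d) :
    ‖ph tau g1 g2 - ph tau k1 k2‖ ≤ |tau| * (2 * d / g) := by
  unfold ph
  refine (exp_diff _ _).trans ?_
  rw [← mul_sub, abs_mul]
  apply mul_le_mul_of_nonneg_left _ (abs_nonneg _)
  have p1 : 0 < g1 := by linarith
  have p2 : 0 < g2 := by linarith
  have p3 : 0 < k1 := by linarith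
  have p4 : 0 < k2 := by linarith
  rw [Real.log_div p1.ne' p2.ne', Real.log_div p3.ne' p4.ne']
  have e : Real.log g1 - Real.log g2 - (Real.log k1 - Real.log k2) =
      (Real.log g1 - Real.log k1) - (Real.log g2 - Real.log k2) := by ring
  rw [e]
  refine (abs_sub _ _).trans ?_
  have a1 := log_var g1 k1 g d hg h1 h3 e1
  have a2 := log_var g2 k2 g d hg h2 h4 e2
  have e3 : 2 * d / g = d / g + d / g := by ring
  linarith

/-- comparison with the integral -/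
theorem rsmall_raw {a1 b1 a2 b2 K : ℝ} (hd : Dat a1 b1 a2 b2 K) (s Y1 Y2 l1 l2 tau : ℝ)
    (w : ℝ × ℝ) (S : Finset (ℤ × ℤ)) (hs : 0 < s) (h1 : s ^ 2 ≤ Y1) (h2 : Y2 ≤ 2 * s ^ 2)
    (hl1 : 1 / K ≤ l1) (hl12 : l1 ≤ l2) (hl2 : l2 ≤ K) (hKs : 8 * K ^ 2 ≤ s)
    (hS : ∀ n, n ∈ S ↔ Reg a1 b1 a2 b2 Y1 Y2 l1 l2 (pt w n)) :
    ‖∑ n ∈ S, ph tau (ff a1 b1 (pt w n)) (ff a2 b2 (pt w n)) -
      ∫ p in RegS a1 b1 a2 b2 Y1 Y2 l1 l2, ph tau (ff a1 b1 p) (ff a2 b2 p)‖ ≤
      S.card * (|tau| * (4 * K ^ 2 / s)) +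
      2 * (2 * ((2 * (5 * K ^ 3 * s) + 1) * (2 * (Real.sqrt (2 * K * (40 * K ^ 2 * s)) + 1))) +
        2 * ((2 * (5 * K ^ 3 * s) + 1) * (4 * K ^ 2 * (12 * K ^ 2) + 1))) := by
  classical
  have hK := hd.hK
  have hK0 : 0 < K := by linarith
  set δ : ℝ := |tau| * (4 * K ^ 2 / s) with hδ
  have hδ0 : 0 ≤ δ := by positivity
  set A := RegS a1 b1 a2 b2 Y1 Y2 l1 l2 with hA
  set B := BxR w (5 * K ^ 3 * s) with hB
  set F : ℝ × ℝ → ℂ := fun p => ph tau (ff a1 b1 p) (ff a2 b2 p) with hF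
  have hF1 : ∀ p, ‖F p‖ ≤ 1 := fun p => (ph_norm _ _ _).le
  have hAr : ∀ p ∈ A, _ := fun p hp => reg_bd hd s Y1 Y2 l1 l2 hs h1 h2 hl1 hl2 p hp
  have hone : 1 ≤ K ^ 3 * s := by
    have i1 : 1 ≤ K ^ 3 := one_le_pow₀ hK
    have i2 : 1 ≤ K ^ 2 := one_le_pow₀ hK
    have i3 : 1 ≤ s := by linarith
    exact one_le_mul_of_one_le_of_one_le i1 i3
  have hSB : S ⊆ B := by
    intro n hn
    obtain ⟨_, _, q1, q2⟩ := hAr (pt w n) ((hS n).1 hn)
    rw [hB, mem_BxR]
    constructor <;> linarith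
  set Bd := B.filter (fun m => (∃ z ∈ CellR w m, z ∈ A) ∧ ∃ z ∈ CellR w m, z ∉ A) with hBd
  have hcr : ∀ m ∈ Bd, Bdr a1 b1 a2 b2 Y1 Y2 l1 l2 (40 * K ^ 2 * s) (12 * K ^ 2) (pt w m) ∧
      (|(pt w m).1| ≤ 5 * K ^ 3 * s ∧ |(pt w m).2| ≤ 5 * K ^ 3 * s) := by
    intro m hm
    obtain ⟨_, ⟨z, hz, hzA⟩, u, hu, huA⟩ := Finset.mem_filter.1 hm
    have d1 := cellR_dist w m z hz
    have d2 := cellR_dist w m u hu
    have := cross hd s Y1 Y2 l1 l2 1 hs h1 h2 hl1 hl12 hl2 zero_le_one (by linarith) (pt w m) z u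
      d1.1 d1.2 d2.1 d2.2 hzA huA
    rw [mul_one, mul_one] at this
    exact this
  have hcBd : (Bd.card : ℝ) ≤
      2 * ((2 * (5 * K ^ 3 * s) + 1) * (2 * (Real.sqrt (2 * K * (40 * K ^ 2 * s)) + 1))) +
        2 * ((2 * (5 * K ^ 3 * s) + 1) * (4 * K ^ 2 * (12 * K ^ 2) + 1)) :=
    card_bdr hd w Bd (5 * K ^ 3 * s) (40 * K ^ 2 * s) (12 * K ^ 2) Y1 Y2 l1 l2 (by positivity)
      (by positivity) (by positivity) (fun n hn => (hcr n hn).2) (fun n hn => (hcr n hn).1)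
  -- decomposition of the integral
  have hU : A = ⋃ m ∈ B, (A ∩ CellR w m) := by
    ext z
    rw [Set.mem_iUnion₂]
    constructor
    · intro hz
      obtain ⟨n, hn⟩ := cellR_ex w z
      refine ⟨n, ?_, hz, hn⟩
      obtain ⟨_, _, q1, q2⟩ := hAr z hz
      have d1 := cellR_dist w n z hn
      rw [hB, mem_BxR]
      constructor
      · have e : (pt w n).1 = z.1 - (z.1 - (pt w n).1) := by ring
        rw [e]
        refine (abs_sub _ _).trans ?_
        linarith [d1.1]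
      · have e : (pt w n).2 = z.2 - (z.2 - (pt w n).2) := by ring
        rw [e]
        refine (abs_sub _ _).trans ?_
        linarith [d1.2]
    · rintro ⟨m, _, hz, _⟩
      exact hz
  have hint : ∀ T : Set (ℝ × ℝ), volume T < ⊤ → IntegrableOn F T := by
    intro T hT
    exact Measure.integrableOn_of_bounded hT.ne (ph_meas a1 b1 a2 b2 tau).aestronglyMeasurable
      (Filter.Eventually.of_forall hF1)
  have hI : ∫ z in A, F z = ∑ m ∈ B, ∫ z in A ∩ CellR w m, F z := by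
    conv_lhs => rw [hU]
    rw [integral_biUnion_finset B
      (fun m _ => (RegS_meas a1 b1 a2 b2 Y1 Y2 l1 l2).inter (cellR_meas w m))]
    · intro m _ n _ hmn
      rw [Function.onFun, Set.disjoint_left]
      rintro z ⟨_, hz1⟩ ⟨_, hz2⟩
      exact hmn (cellR_un w z m n hz1 hz2)
    · intro m _
      exact hint _ (lt_of_le_of_lt (measure_mono Set.inter_subset_right) (cellR_fin w m))
  -- one cell
  have hcell : ∀ m ∈ B, ‖(if m ∈ S then F (pt w m) else 0) - ∫ z in A ∩ CellR w m, F z‖ ≤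
      (if m ∈ S then δ else 0) + (if m ∈ Bd then 2 else 0) := by
    intro m hm
    have n1 : (0 : ℝ) ≤ if m ∈ S then δ else 0 := by
      split_ifs
      · exact hδ0
      · exact le_rfl
    have n2 : (0 : ℝ) ≤ if m ∈ Bd then (2 : ℝ) else 0 := by
      split_ifs
      · norm_num
      · exact le_rfl
    by_cases c1 : m ∈ Bd
    · rw [if_pos c1]
      have h3 : ‖(if m ∈ S then F (pt w m) else 0)‖ ≤ 1 := by
        split_ifs
        · exact hF1 _
        · rw [norm_zero]; exact zero_le_one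
      have h4 : ‖∫ z in A ∩ CellR w m, F z‖ ≤ 1 := by
        have h5 := norm_setIntegral_le_of_norm_le_const (μ := volume) (f := F)
          (lt_of_le_of_lt (measure_mono (Set.inter_subset_right (s := A))) (cellR_fin w m))
          (fun z _ => hF1 z)
        have h6 : volume.real (A ∩ CellR w m) ≤ volume.real (CellR w m) :=
          measureReal_mono Set.inter_subset_right (cellR_fin w m).ne
        rw [cellR_volr] at h6
        linarith
      refine (norm_sub_le _ _).trans ?_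
      linarith
    · by_cases c2 : pt w m ∈ A
      · have hmS : m ∈ S := (hS m).2 c2
        have hsub : CellR w m ⊆ A := by
          intro z hz
          by_contra hc
          exact c1 (Finset.mem_filter.2 ⟨hm, ⟨pt w m, pt_mem w m, c2⟩, z, hz, hc⟩)
        rw [if_pos hmS, if_neg c1, if_pos hmS, Set.inter_eq_right.2 hsub, add_zero]
        have h3 : F (pt w m) = ∫ _ in CellR w m, F (pt w m) := by
          rw [setIntegral_const, cellR_volr, one_smul]
        have hconst : IntegrableOn (fun _ : ℝ × ℝ => F (pt w m)) (CellR w m) volume :=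
          integrableOn_const (cellR_fin w m).ne
        rw [h3, ← integral_sub hconst (hint _ (cellR_fin w m))]
        have h4 := norm_setIntegral_le_of_norm_le_const (μ := volume)
          (f := fun z => F (pt w m) - F z) (C := δ) (cellR_fin w m) (by
            intro z hz
            obtain ⟨⟨u1, u2⟩, _, _⟩ := hAr _ c2
            obtain ⟨⟨v1, v2⟩, _, _⟩ := hAr _ (hsub hz)
            have d1 := cellR_dist w m z hz
            have f1 := ff_diff hd.ha1 hd.hb1 (pt w m) z d1.1 d1.2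
            have f2 := ff_diff hd.ha2 hd.hb2 (pt w m) z d1.1 d1.2
            rw [abs_sub_comm, mul_one] at f1 f2
            have h8 := ph_var tau _ _ _ _ (s / K) (2 * K) (by positivity) u1 u2 v1 v2 f1 f2
            refine h8.trans (le_of_eq ?_)
            rw [hδ]
            congr 1
            field_simp
            ring)
        rw [cellR_volr, mul_one] at h4
        exact h4
      · have hmS : m ∉ S := fun hc => c2 ((hS m).1 hc)
        have hemp : A ∩ CellR w m = ∅ := by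
          rw [Set.eq_empty_iff_forall_notMem]
          rintro z ⟨hz1, hz2⟩
          exact c1 (Finset.mem_filter.2 ⟨hm, ⟨z, hz2, hz1⟩, pt w m, pt_mem w m, c2⟩)
        rw [if_neg hmS, if_neg c1, if_neg hmS, hemp, Measure.restrict_empty, integral_zero_measure]
        simp
  -- summation
  have hsum : ∑ n ∈ S, F (pt w n) - ∫ z in A, F z =
      ∑ m ∈ B, ((if m ∈ S then F (pt w m) else 0) - ∫ z in A ∩ CellR w m, F z) := by
    rw [Finset.sum_sub_distrib, ← hI, ← Finset.sum_filter]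
    congr 1
    apply Finset.sum_congr _ (fun _ _ => rfl)
    ext m
    rw [Finset.mem_filter]
    exact ⟨fun hm => ⟨hSB hm, hm⟩, fun hm => hm.2⟩
  rw [hsum]
  refine (norm_sum_le _ _).trans ((Finset.sum_le_sum hcell).trans ?_)
  rw [Finset.sum_add_distrib, ← Finset.sum_filter, ← Finset.sum_filter,
    Finset.sum_const, Finset.sum_const, nsmul_eq_mul, nsmul_eq_mul]
  have h4 : ((B.filter (fun m => m ∈ S)).card : ℝ) ≤ S.card := by
    have : (B.filter (fun m => m ∈ S)).card ≤ S.card :=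
      Finset.card_le_card (fun m hm => (Finset.mem_filter.1 hm).2)
    exact_mod_cast this
  have h5 : ((B.filter (fun m => m ∈ Bd)).card : ℝ) ≤ Bd.card := by
    have : (B.filter (fun m => m ∈ Bd)).card ≤ Bd.card :=
      Finset.card_le_card (fun m hm => (Finset.mem_filter.1 hm).2)
    exact_mod_cast this
  have h6 : ((B.filter (fun m => m ∈ S)).card : ℝ) * δ ≤ S.card * δ := by gcongr
  linarith

end Pool.Agent.XR67
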