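import Pool.Agent.Lib.MP_a17b09_nt.MRS.RBif67
import Pool.Agent.Lib.MP_a17b09_nt.MRS.RSma67

/-!
Exponential sums for indefinite forms: the proof of `StVR`.
-/

set_option autoImplicit false

namespace Pool.Agent.XR67

open Finset MeasureTheory Complex Pool.Agent.X67

/-- the main term -/
noncomputable def mt (a1 b1 a2 b2 tau Y1 Y2 l1 l2 : ℝ) : ℂ :=
  (((Y2 - Y1) / (2 * |a1 * b2 - a2 * b1|) : ℝ) : ℂ) *
    ∫ u in (Real.log l1)..(Real.log l2), exp (I * ((tau * u : ℝ) : ℂ))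

theorem dK {a1 b1 a2 b2 K : ℝ} (hd : Dat a1 b1 a2 b2 K) :
    0 < |a1 * b2 - a2 * b1| ∧ 1 / |a1 * b2 - a2 * b1| ≤ K := by
  have hK := hd.hK
  have h1 := hd.hdet
  have h2 : 0 < |a1 * b2 - a2 * b1| := by
    rcases (abs_nonneg (a1 * b2 - a2 * b1)).lt_or_eq with h | h
    · exact h
    · rw [← h] at h1
      linarith
  exact ⟨h2, by rw [div_le_iff₀ h2]; exact h1⟩

theorem mt_fac {a1 b1 a2 b2 K : ℝ} (hd : Dat a1 b1 a2 b2 K) (Y Y1 Y2 : ℝ) (hY : 0 ≤ Y)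
    (h1 : Y ≤ Y1) (h12 : Y1 ≤ Y2) (h2 : Y2 ≤ 2 * Y) :
    ‖(((Y2 - Y1) / (2 * |a1 * b2 - a2 * b1|) : ℝ) : ℂ)‖ ≤ K * Y / 2 := by
  obtain ⟨p1, p2⟩ := dK hd
  have hK := hd.hK
  rw [Complex.norm_real, Real.norm_eq_abs, abs_of_nonneg (div_nonneg (by linarith) (by positivity))]
  calc (Y2 - Y1) / (2 * |a1 * b2 - a2 * b1|)
      = (Y2 - Y1) * (1 / |a1 * b2 - a2 * b1|) / 2 := by field_simp
    _ ≤ Y * K / 2 := by
      have i1 : Y2 - Y1 ≤ Y := by linarith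
      have i2 : 0 ≤ 1 / |a1 * b2 - a2 * b1| := by positivity
      have : (Y2 - Y1) * (1 / |a1 * b2 - a2 * b1|) ≤ Y * K := mul_le_mul i1 p2 i2 hY
      linarith
    _ = K * Y / 2 := by ring

theorem mt_triv {a1 b1 a2 b2 K : ℝ} (hd : Dat a1 b1 a2 b2 K) (tau Y Y1 Y2 l1 l2 : ℝ)
    (hY : 0 ≤ Y) (h1 : Y ≤ Y1) (h12 : Y1 ≤ Y2) (h2 : Y2 ≤ 2 * Y) (hl1 : 1 / K ≤ l1)
    (hl12 : l1 ≤ l2) (hl2 : l2 ≤ K) : ‖mt a1 b1 a2 b2 tau Y1 Y2 l1 l2‖ ≤ K ^ 2 * Y := by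
  have hK := hd.hK
  have hK0 : 0 < K := by linarith
  have hl10 : 0 < l1 := lt_of_lt_of_le (by positivity) hl1
  have hl20 : 0 < l2 := by linarith
  unfold mt
  rw [norm_mul]
  have i1 := mt_fac hd Y Y1 Y2 hY h1 h12 h2
  have i2 : ‖∫ u in (Real.log l1)..(Real.log l2), exp (I * ((tau * u : ℝ) : ℂ))‖ ≤ 2 * K := by
    have h3 := intervalIntegral.norm_integral_le_of_norm_le_const (a := Real.log l1)
      (b := Real.log l2) (f := fun u : ℝ => exp (I * ((tau * u : ℝ) : ℂ))) (C := 1) (by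
        intro u _
        rw [mul_comm, Complex.norm_exp_ofReal_mul_I])
    refine h3.trans ?_
    rw [one_mul, abs_of_nonneg (by linarith [Real.log_le_log hl10 hl12])]
    have u1 : Real.log l2 ≤ Real.log K := Real.log_le_log hl20 hl2
    have u2 : -Real.log K ≤ Real.log l1 := by
      have := Real.log_le_log (by positivity) hl1
      rw [one_div, Real.log_inv] at this
      exact this
    have u3 : Real.log K ≤ K := (Real.log_le_sub_one_of_pos hK0).trans (by linarith)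
    linarith
  have i3 : 0 ≤ K * Y / 2 := by positivity
  calc _ ≤ K * Y / 2 * (2 * K) := mul_le_mul i1 i2 (norm_nonneg _) i3
    _ = K ^ 2 * Y := by ring

theorem mt_large {a1 b1 a2 b2 K : ℝ} (hd : Dat a1 b1 a2 b2 K) (tau Y Y1 Y2 l1 l2 : ℝ)
    (hY : 0 ≤ Y) (h1 : Y ≤ Y1) (h12 : Y1 ≤ Y2) (h2 : Y2 ≤ 2 * Y) (ht : 0 < |tau|) :
    ‖mt a1 b1 a2 b2 tau Y1 Y2 l1 l2‖ ≤ K * Y / |tau| := by
  have hK := hd.hK
  have hK0 : 0 < K := by linarith
  unfold mt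
  rw [norm_mul]
  have i1 := mt_fac hd Y Y1 Y2 hY h1 h12 h2
  have i2 : ‖∫ u in (Real.log l1)..(Real.log l2), exp (I * ((tau * u : ℝ) : ℂ))‖ ≤
      2 / |tau| := by
    have ht0 : tau ≠ 0 := abs_pos.1 ht
    have hc : (I * tau : ℂ) ≠ 0 := mul_ne_zero Complex.I_ne_zero (by exact_mod_cast ht0)
    have e : ∀ u : ℝ, exp (I * ((tau * u : ℝ) : ℂ)) = exp ((I * tau) * u) := by
      intro u
      congr 1
      push_cast
      ring
    simp only [e]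
    rw [integral_exp_mul_complex hc, norm_div, norm_mul, Complex.norm_I, one_mul,
      Complex.norm_real, Real.norm_eq_abs]
    apply div_le_div_of_nonneg_right _ ht.le
    refine (norm_sub_le _ _).trans ?_
    have key : ∀ x : ℝ, ‖exp ((I * tau) * x)‖ = 1 := by
      intro x
      rw [← e x, mul_comm, Complex.norm_exp_ofReal_mul_I]
    rw [key, key]
    norm_num
  have i3 : 0 ≤ K * Y / 2 := by positivity
  calc _ ≤ K * Y / 2 * (2 / |tau|) := mul_le_mul i1 i2 (norm_nonneg _) i3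
    _ = K * Y / |tau| := by ring

theorem rsum_triv {a1 b1 a2 b2 K : ℝ} (hd : Dat a1 b1 a2 b2 K) (tau Y Y1 Y2 l1 l2 : ℝ)
    (w : ℝ × ℝ) (S : Finset (ℤ × ℤ)) (hY : 1 ≤ Y) (h1 : Y ≤ Y1) (h2 : Y2 ≤ 2 * Y)
    (hl1 : 1 / K ≤ l1) (hl2 : l2 ≤ K)
    (hS : ∀ n, n ∈ S ↔ Reg a1 b1 a2 b2 Y1 Y2 l1 l2 (pt w n)) :
    ‖∑ n ∈ S, ph tau (ff a1 b1 (pt w n)) (ff a2 b2 (pt w n))‖ ≤ S.card ∧
      (S.card : ℝ) ≤ 81 * K ^ 6 * Y := by
  constructor
  · refine (norm_sum_le _ _).trans ?_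
    refine (Finset.sum_le_sum (fun n _ => (ph_norm tau _ _).le)).trans ?_
    rw [Finset.sum_const, nsmul_eq_mul, mul_one]
  · have hK := hd.hK
    have hs : 1 ≤ Real.sqrt Y := Real.one_le_sqrt.2 hY
    have hssq : Real.sqrt Y ^ 2 = Y := Real.sq_sqrt (by linarith)
    have h3 := card_all w S (4 * K ^ 3 * Real.sqrt Y) (by positivity) (fun n hn =>
      (reg_bd hd (Real.sqrt Y) Y1 Y2 l1 l2 (by linarith) (by rw [hssq]; exact h1)
        (by rw [hssq]; exact h2) hl1 hl2 (pt w n) ((hS n).1 hn)).2.2)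
    have h4 := ng1 K (Real.sqrt Y) hK hs
    refine h3.trans ?_
    calc (2 * (4 * K ^ 3 * Real.sqrt Y) + 1) * (2 * (4 * K ^ 3 * Real.sqrt Y) + 1)
        ≤ (9 * K ^ 3 * Real.sqrt Y) * (9 * K ^ 3 * Real.sqrt Y) := by gcongr
      _ = 81 * K ^ 6 * Real.sqrt Y ^ 2 := by ring
      _ = 81 * K ^ 6 * Y := by rw [hssq]

/-- small frequencies -/
theorem rsmall_fin {a1 b1 a2 b2 K : ℝ} (hd : Dat a1 b1 a2 b2 K) (tau Y Y1 Y2 l1 l2 : ℝ)
    (w : ℝ × ℝ) (S : Finset (ℤ × ℤ)) (hY : 1 ≤ Y) (h1 : Y ≤ Y1) (h12 : Y1 ≤ Y2)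
    (h2 : Y2 ≤ 2 * Y) (hl1 : 1 / K ≤ l1) (hl12 : l1 ≤ l2) (hl2 : l2 ≤ K)
    (ht : |tau| ≤ Y ^ (1 / 8 : ℝ))
    (hS : ∀ n, n ∈ S ↔ Reg a1 b1 a2 b2 Y1 Y2 l1 l2 (pt w n)) :
    ‖∑ n ∈ S, ph tau (ff a1 b1 (pt w n)) (ff a2 b2 (pt w n)) -
      mt a1 b1 a2 b2 tau Y1 Y2 l1 l2‖ ≤ 9000 * K ^ 10 * Y ^ (1 - 1 / 8 : ℝ) := by
  have hK := hd.hK
  have hK0 : 0 < K := by linarith
  have hY00 : 0 < Y := by linarith
  have mono : ∀ a b : ℝ, a ≤ b → Y ^ a ≤ Y ^ b := fun a b hab =>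
    Real.rpow_le_rpow_of_exponent_le hY hab
  have addp : ∀ a b : ℝ, Y ^ a * Y ^ b = Y ^ (a + b) := fun a b =>
    (Real.rpow_add hY00 a b).symm
  have posp : ∀ a : ℝ, 0 < Y ^ a := fun a => Real.rpow_pos_of_pos hY00 a
  have onep : ∀ a : ℝ, 0 ≤ a → 1 ≤ Y ^ a := fun a ha => Real.one_le_rpow hY ha
  obtain ⟨t1, t2⟩ := rsum_triv hd tau Y Y1 Y2 l1 l2 w S hY h1 h2 hl1 hl2 hS
  have t3 := mt_triv hd tau Y Y1 Y2 l1 l2 hY00.le h1 h12 h2 hl1 hl12 hl2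
  have k6 : K ^ 6 ≤ K ^ 10 := pow_le_pow_right₀ hK (by norm_num)
  have k7 : K ^ 7 ≤ K ^ 10 := pow_le_pow_right₀ hK (by norm_num)
  have k8 : K ^ 8 ≤ K ^ 10 := pow_le_pow_right₀ hK (by norm_num)
  have k2 : K ^ 2 ≤ K ^ 6 := pow_le_pow_right₀ hK (by norm_num)
  have hP := posp (1 - 1 / 8)
  set s : ℝ := Real.sqrt Y with hsd
  have hsY : s = Y ^ (1 / 2 : ℝ) := Real.sqrt_eq_rpow Y
  have hs : 1 ≤ s := Real.one_le_sqrt.2 hY
  have hs0 : 0 < s := by linarith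
  have hssq : s ^ 2 = Y := Real.sq_sqrt hY00.le
  by_cases hb : s < 8 * K ^ 2
  · have hY64 : Y ≤ 64 * K ^ 4 := by
      rw [← hssq]
      calc s ^ 2 ≤ (8 * K ^ 2) ^ 2 := pow_le_pow_left₀ hs0.le hb.le 2
        _ = 64 * K ^ 4 := by ring
    refine (norm_sub_le _ _).trans ?_
    have i1 : K ^ 2 * Y ≤ K ^ 6 * Y := by gcongr
    have i2 : 82 * K ^ 6 * Y ≤ 9000 * K ^ 10 * Y ^ (1 - 1 / 8 : ℝ) := by
      calc 82 * K ^ 6 * Y ≤ 82 * K ^ 6 * (64 * K ^ 4) := by gcongr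
        _ = 5248 * K ^ 10 * 1 := by ring
        _ ≤ 9000 * K ^ 10 * Y ^ (1 - 1 / 8 : ℝ) := by
          have := onep (1 - 1 / 8) (by norm_num)
          have h10 : (0 : ℝ) ≤ K ^ 10 := by positivity
          have : 5248 * K ^ 10 ≤ 9000 * K ^ 10 := by linarith
          gcongr
    have e : 82 * K ^ 6 * Y = 81 * K ^ 6 * Y + K ^ 6 * Y := by ring
    linarith
  · rw [not_lt] at hb
    have hdet : a1 * b2 - a2 * b1 ≠ 0 := abs_pos.1 (dK hd).1
    have hl10 : 0 < l1 := lt_of_lt_of_le (by positivity) hl1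
    have hraw := rsmall_raw hd s Y1 Y2 l1 l2 tau w S hs0 (by rw [hssq]; exact h1)
      (by rw [hssq]; exact h2) hl1 hl12 hl2 hb hS
    rw [reg_int hdet tau Y1 Y2 l1 l2 (by linarith) h12 hl10 hl12] at hraw
    refine hraw.trans ?_
    have q1 : (S.card : ℝ) * (|tau| * (4 * K ^ 2 / s)) ≤ 324 * K ^ 8 * Y ^ (1 - 1 / 8 : ℝ) := by
      calc (S.card : ℝ) * (|tau| * (4 * K ^ 2 / s))
          ≤ (81 * K ^ 6 * Y) * (Y ^ (1 / 8 : ℝ) * (4 * K ^ 2 / s)) := by gcongr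
        _ = 324 * K ^ 8 * (s * Y ^ (1 / 8 : ℝ)) := by
          rw [← hssq]
          field_simp
          ring
        _ = 324 * K ^ 8 * Y ^ (1 / 2 + 1 / 8 : ℝ) := by rw [hsY, addp]
        _ ≤ 324 * K ^ 8 * Y ^ (1 - 1 / 8 : ℝ) := by
          have := mono (1 / 2 + 1 / 8) (1 - 1 / 8) (by norm_num)
          gcongr
    have h4 := ng2 K s hK hs
    have h5 : Real.sqrt (2 * K * (40 * K ^ 2 * s)) + 1 ≤ 10 * K ^ 2 * Y ^ (1 / 4 : ℝ) := by
      have h6 : Real.sqrt (2 * K * (40 * K ^ 2 * s)) ≤ 9 * K ^ 2 * Y ^ (1 / 4 : ℝ) := by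
        apply Real.sqrt_le_iff.2
        refine ⟨by have := posp (1 / 4); positivity, ?_⟩
        calc 2 * K * (40 * K ^ 2 * s) = 80 * K ^ 3 * s := by ring
          _ ≤ 81 * K ^ 4 * s := by
            have i1 : K ^ 3 ≤ K ^ 4 := pow_le_pow_right₀ hK (by norm_num)
            have i2 : (0 : ℝ) ≤ K ^ 4 := by positivity
            have i3 : 80 * K ^ 3 ≤ 81 * K ^ 4 := by linarith
            gcongr
          _ = 81 * K ^ 4 * (Y ^ (1 / 4 : ℝ) * Y ^ (1 / 4 : ℝ)) := by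
            rw [addp, hsY]; norm_num
          _ = (9 * K ^ 2 * Y ^ (1 / 4 : ℝ)) ^ 2 := by ring
      have i1 : 1 ≤ K ^ 2 * Y ^ (1 / 4 : ℝ) :=
        one_le_mul_of_one_le_of_one_le (one_le_pow₀ hK) (onep _ (by norm_num))
      have e : 10 * K ^ 2 * Y ^ (1 / 4 : ℝ) =
          9 * K ^ 2 * Y ^ (1 / 4 : ℝ) + K ^ 2 * Y ^ (1 / 4 : ℝ) := by ring
      linarith
    have h8 : 4 * K ^ 2 * (12 * K ^ 2) + 1 ≤ 49 * K ^ 4 := by
      have i1 : 1 ≤ K ^ 4 := one_le_pow₀ hK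
      have e1 : 4 * K ^ 2 * (12 * K ^ 2) = 48 * K ^ 4 := by ring
      rw [e1]
      linarith
    have p1 : (0 : ℝ) ≤ Real.sqrt (2 * K * (40 * K ^ 2 * s)) + 1 := by positivity
    have p2 : (0 : ℝ) ≤ 4 * K ^ 2 * (12 * K ^ 2) + 1 := by positivity
    have q2 : 2 * (2 * ((2 * (5 * K ^ 3 * s) + 1) *
        (2 * (Real.sqrt (2 * K * (40 * K ^ 2 * s)) + 1))) +
        2 * ((2 * (5 * K ^ 3 * s) + 1) * (4 * K ^ 2 * (12 * K ^ 2) + 1))) ≤
        3036 * K ^ 7 * Y ^ (1 - 1 / 8 : ℝ) := by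
      calc 2 * (2 * ((2 * (5 * K ^ 3 * s) + 1) *
            (2 * (Real.sqrt (2 * K * (40 * K ^ 2 * s)) + 1))) +
            2 * ((2 * (5 * K ^ 3 * s) + 1) * (4 * K ^ 2 * (12 * K ^ 2) + 1)))
          ≤ 2 * (2 * ((11 * K ^ 3 * s) * (2 * (10 * K ^ 2 * Y ^ (1 / 4 : ℝ)))) +
            2 * ((11 * K ^ 3 * s) * (49 * K ^ 4))) := by gcongr
        _ = 880 * (K ^ 3 * K ^ 2) * (s * Y ^ (1 / 4 : ℝ)) + 2156 * K ^ 7 * s := by ring
        _ ≤ 880 * K ^ 7 * Y ^ (1 - 1 / 8 : ℝ) + 2156 * K ^ 7 * Y ^ (1 - 1 / 8 : ℝ) := by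
          have i1 := ng3 K hK
          have i2 : s * Y ^ (1 / 4 : ℝ) ≤ Y ^ (1 - 1 / 8 : ℝ) := by
            rw [hsY, addp]
            exact mono _ _ (by norm_num)
          have i3 : s ≤ Y ^ (1 - 1 / 8 : ℝ) := by
            rw [hsY]
            exact mono _ _ (by norm_num)
          have i4 := posp (1 / 4)
          gcongr
        _ = 3036 * K ^ 7 * Y ^ (1 - 1 / 8 : ℝ) := by ring
    have r1 : 324 * K ^ 8 * Y ^ (1 - 1 / 8 : ℝ) ≤ 324 * K ^ 10 * Y ^ (1 - 1 / 8 : ℝ) := by gcongr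
    have r2 : 3036 * K ^ 7 * Y ^ (1 - 1 / 8 : ℝ) ≤ 3036 * K ^ 10 * Y ^ (1 - 1 / 8 : ℝ) := by
      gcongr
    have r3 : 0 ≤ K ^ 10 * Y ^ (1 - 1 / 8 : ℝ) := by positivity
    linarith

/-- all frequencies up to a power, modulus one, arbitrary shift -/
theorem ring_allR {a1 b1 a2 b2 K : ℝ} (hd : Dat a1 b1 a2 b2 K) (R : ℕ) :
    ∃ c C : ℝ, 0 < c ∧ c ≤ 1 / 8 ∧ 0 < C ∧
    ∀ (tau Y Y1 Y2 l1 l2 : ℝ) (w : ℝ × ℝ) (S : Finset (ℤ × ℤ)), 1 ≤ Y → Y ≤ Y1 → Y1 ≤ Y2 →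
      Y2 ≤ 2 * Y → 1 / K ≤ l1 → l1 ≤ l2 → l2 ≤ K → |tau| ≤ Y ^ ((2 * R + 1) / 8 : ℝ) →
      (∀ n, n ∈ S ↔ Reg a1 b1 a2 b2 Y1 Y2 l1 l2 (pt w n)) →
      ‖∑ n ∈ S, ph tau (ff a1 b1 (pt w n)) (ff a2 b2 (pt w n)) -
        mt a1 b1 a2 b2 tau Y1 Y2 l1 l2‖ ≤ C * Y ^ (1 - c) := by
  have hK := hd.hK
  have hK0 : 0 < K := by linarith
  induction R with
  | zero =>
    refine ⟨1 / 8, 9000 * K ^ 10, by norm_num, le_rfl, by positivity, ?_⟩
    intro tau Y Y1 Y2 l1 l2 w S hY h1 h12 h2 hl1 hl12 hl2 ht hS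
    have e : ((2 * ((0 : ℕ) : ℝ) + 1) / 8 : ℝ) = 1 / 8 := by norm_num
    rw [e] at ht
    exact rsmall_fin hd tau Y Y1 Y2 l1 l2 w S hY h1 h12 h2 hl1 hl12 hl2 ht hS
  | succ R ih =>
    obtain ⟨c, C, hc0, hc8, hC0, hP⟩ := ih
    set r : ℕ := R + 1 with hr
    obtain ⟨c', hc'⟩ : ∃ c' : ℝ, c' = 1 / (96 * 2 ^ r * (r + 1)) := ⟨_, rfl⟩
    obtain ⟨Y0, hY0⟩ : ∃ Y0 : ℝ, Y0 = (8 * (r.factorial : ℝ) * K ^ (2 * r)) ^ 24 := ⟨_, rfl⟩
    obtain ⟨K2, hK2⟩ : ∃ K2 : ℝ, K2 = Pool.Agent.MR36.CC36 (r - 1) *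
      (2 + 10 * 4 ^ r * (1 + 96 * r) ^ r) := ⟨_, rfl⟩
    obtain ⟨CB, hCB⟩ : ∃ CB : ℝ, CB = 81 * K ^ 6 * (4 * K ^ (2 * (r + 1)) + K2) + 54 * K ^ 4 +
      1518 * K ^ 7 := ⟨_, rfl⟩
    have hbig := rbig_main hd r (by omega) c' hc' Y0 hY0 K2 hK2
    rw [← hCB] at hbig
    have hc'0 : 0 < c' := by rw [hc']; positivity
    have hK20 : 0 ≤ K2 := by
      rw [hK2]
      have := Pool.Agent.MR36.CC_ge36 (r - 1)
      positivity
    have hCB0 : 0 ≤ CB := by rw [hCB]; positivity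
    have hY00 : 0 < Y0 := by
      rw [hY0]
      have : (0 : ℝ) < r.factorial := by exact_mod_cast Nat.factorial_pos r
      positivity
    refine ⟨min c c', C + 81 * K ^ 6 * Y0 + CB + K, lt_min hc0 hc'0,
      (min_le_left _ _).trans hc8, by positivity, ?_⟩
    intro tau Y Y1 Y2 l1 l2 w S hY h1 h12 h2 hl1 hl12 hl2 ht hS
    have hYp : 0 < Y := by linarith
    have mono : ∀ a b : ℝ, a ≤ b → Y ^ a ≤ Y ^ b := fun a b hab =>
      Real.rpow_le_rpow_of_exponent_le hY hab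
    have posp : ∀ a : ℝ, 0 < Y ^ a := fun a => Real.rpow_pos_of_pos hYp a
    have m1 : Y ^ (1 - c) ≤ Y ^ (1 - min c c') := mono _ _ (by linarith [min_le_left c c'])
    have m2 : Y ^ (1 - c') ≤ Y ^ (1 - min c c') := mono _ _ (by linarith [min_le_right c c'])
    have m3 : Y ^ (1 - 1 / 8 : ℝ) ≤ Y ^ (1 - min c c') :=
      mono _ _ (by linarith [min_le_left c c'])
    have hp := posp (1 - min c c')
    by_cases c1 : |tau| ≤ Y ^ ((2 * R + 1) / 8 : ℝ)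
    · have h3 := hP tau Y Y1 Y2 l1 l2 w S hY h1 h12 h2 hl1 hl12 hl2 c1 hS
      refine h3.trans ?_
      have e : (0 : ℝ) ≤ 81 * K ^ 6 * Y0 + CB + K := by positivity
      calc C * Y ^ (1 - c) ≤ C * Y ^ (1 - min c c') := by gcongr
        _ ≤ _ := by
          apply mul_le_mul_of_nonneg_right _ hp.le
          linarith
    · rw [not_le] at c1
      have ht8 : Y ^ (1 / 8 : ℝ) ≤ |tau| := by
        refine (mono _ _ ?_).trans c1.le
        have : (0 : ℝ) ≤ R := Nat.cast_nonneg R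
        linarith
      have ht0 : 0 < |tau| := lt_of_lt_of_le (posp _) ht8
      have hmt : ‖mt a1 b1 a2 b2 tau Y1 Y2 l1 l2‖ ≤ K * Y ^ (1 - min c c') := by
        refine (mt_large hd tau Y Y1 Y2 l1 l2 hYp.le h1 h12 h2 ht0).trans ?_
        calc K * Y / |tau| ≤ K * Y / Y ^ (1 / 8 : ℝ) := by
              have := posp (1 / 8)
              gcongr
          _ = K * Y ^ (1 - 1 / 8 : ℝ) := by
            rw [Real.rpow_sub hYp, Real.rpow_one]
            ring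
          _ ≤ K * Y ^ (1 - min c c') := by gcongr
      have hsum : ‖∑ n ∈ S, ph tau (ff a1 b1 (pt w n)) (ff a2 b2 (pt w n))‖ ≤
          (81 * K ^ 6 * Y0 + CB) * Y ^ (1 - min c c') := by
        by_cases c2 : Y0 ≤ Y
        · have e1 : ((2 * (r : ℝ) - 1) / 8 : ℝ) = (2 * R + 1) / 8 := by
            rw [hr]; push_cast; ring
          have h3 := hbig Y Y1 Y2 l1 l2 tau w S hY c2 h1 h2 hl1 hl12 hl2
            (by rw [e1]; exact c1.le) ht hS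
          refine h3.trans ?_
          have e : (0 : ℝ) ≤ 81 * K ^ 6 * Y0 := by positivity
          calc CB * Y ^ (1 - c') ≤ CB * Y ^ (1 - min c c') := by gcongr
            _ ≤ _ := by
              apply mul_le_mul_of_nonneg_right _ hp.le
              linarith
        · rw [not_le] at c2
          obtain ⟨t1, t2⟩ := rsum_triv hd tau Y Y1 Y2 l1 l2 w S hY h1 h2 hl1 hl2 hS
          have h4 : (1 : ℝ) ≤ Y ^ (1 - min c c') := by
            apply Real.one_le_rpow hY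
            linarith [min_le_left c c']
          calc _ ≤ 81 * K ^ 6 * Y := t1.trans t2
            _ ≤ 81 * K ^ 6 * Y0 * 1 := by
              rw [mul_one]
              gcongr
            _ ≤ 81 * K ^ 6 * Y0 * Y ^ (1 - min c c') := by gcongr
            _ ≤ _ := by
              apply mul_le_mul_of_nonneg_right _ hp.le
              linarith
      refine (norm_sub_le _ _).trans ?_
      have e : (C + 81 * K ^ 6 * Y0 + CB + K) * Y ^ (1 - min c c') =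
          C * Y ^ (1 - min c c') + (81 * K ^ 6 * Y0 + CB) * Y ^ (1 - min c c') +
            K * Y ^ (1 - min c c') := by ring
      rw [e]
      have : 0 ≤ C * Y ^ (1 - min c c') := by positivity
      linarith

/-- exponential sums over sectors for an indefinite form -/
theorem stVR : StVR := by
  classical
  intro a1 b1 a2 b2 haa hdet Lam hLam kap hkap
  -- one constant
  obtain ⟨K, hKd⟩ : ∃ K : ℝ, K = 1 + |a1| + |b1| + |a2| + |b2| + 1 / |a1 * b2 - a2 * b1| +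
    1 / |a1 * a2| + Lam := ⟨_, rfl⟩
  have pd : 0 < |a1 * b2 - a2 * b1| := abs_pos.2 hdet
  have pa : 0 < |a1 * a2| := abs_pos.2 haa
  have n1 := abs_nonneg a1
  have n2 := abs_nonneg b1
  have n3 := abs_nonneg a2
  have n4 := abs_nonneg b2
  have n5 : 0 < 1 / |a1 * b2 - a2 * b1| := by positivity
  have n6 : 0 < 1 / |a1 * a2| := by positivity
  have hd : Dat a1 b1 a2 b2 K := by
    refine ⟨by linarith, by linarith, by linarith, by linarith, by linarith, ?_, ?_⟩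
    · have : 1 / |a1 * b2 - a2 * b1| ≤ K := by linarith
      rwa [div_le_iff₀ pd] at this
    · have : 1 / |a1 * a2| ≤ K := by linarith
      rwa [div_le_iff₀ pa] at this
  have hLK : Lam ≤ K := by linarith
  obtain ⟨R, hR⟩ := exists_nat_gt (8 / kap)
  obtain ⟨c, C, hc0, hc8, hC0, hP⟩ := ring_allR hd R
  refine ⟨c, C, hc0, hC0, ?_⟩
  intro T tau q a Y Y1 Y2 lam1 lam2 S hT htau hq hqY h1 h12 h2 hl1 hl12 hl2 hS
  have hq0 : (0 : ℝ) < q := by exact_mod_cast hq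
  have hqi : (q : ℤ) ≠ 0 := by exact_mod_cast hq.ne'
  set Z : ℝ := Y / (q : ℝ) ^ 2 with hZ
  have hTk : T ^ kap ≤ Z := by
    rw [hZ, le_div_iff₀ (by positivity)]
    linarith
  have hTk1 : 1 ≤ T ^ kap := Real.one_le_rpow hT hkap.le
  have hZ1 : 1 ≤ Z := hTk1.trans hTk
  set w : ℝ × ℝ := ((a.1 : ℝ) / q, (a.2 : ℝ) / q) with hw
  set em : ℤ × ℤ → ℤ × ℤ := fun n => (a.1 + q * n.1, a.2 + q * n.2) with hem
  have hff : ∀ (x y : ℝ) (n : ℤ × ℤ), lf x y (em n) = q * ff x y (pt w n) := by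
    intro x y n
    rw [hem, hw]
    unfold lf ff pt
    simp only
    push_cast
    field_simp
    ring
  set S' : Finset (ℤ × ℤ) := S.image (fun v => ((v.1 - a.1) / q, (v.2 - a.2) / q)) with hS'
  have hemS : ∀ v ∈ S, em ((v.1 - a.1) / q, (v.2 - a.2) / q) = v := by
    intro v hv
    obtain ⟨_, _, _, _, _, _, m1, m2⟩ := (hS v).1 hv
    have d1 : (q : ℤ) ∣ v.1 - a.1 := m1.symm.dvd
    have d2 : (q : ℤ) ∣ v.2 - a.2 := m2.symm.dvd
    rw [hem]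
    simp only
    rw [Int.mul_ediv_cancel' d1, Int.mul_ediv_cancel' d2]
    exact Prod.ext (by ring) (by ring)
  have hinv : ∀ n : ℤ × ℤ, (((em n).1 - a.1) / (q : ℤ), ((em n).2 - a.2) / (q : ℤ)) = n := by
    intro n
    rw [hem]
    simp only [add_sub_cancel_left]
    rw [Int.mul_ediv_cancel_left _ hqi, Int.mul_ediv_cancel_left _ hqi]
  have hmem : ∀ n, n ∈ S' ↔ em n ∈ S := by
    intro n
    rw [hS', Finset.mem_image]
    constructor
    · rintro ⟨v, hv, rfl⟩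
      rw [hemS v hv]
      exact hv
    · intro hn
      exact ⟨em n, hn, hinv n⟩
  have hreg : ∀ n, n ∈ S' ↔ Reg a1 b1 a2 b2 (Y1 / (q : ℝ) ^ 2) (Y2 / (q : ℝ) ^ 2) lam1 lam2
      (pt w n) := by
    intro n
    rw [hmem, hS (em n), hff, hff]
    unfold Reg
    set g1 := ff a1 b1 (pt w n)
    set g2 := ff a2 b2 (pt w n)
    have cl1 : (em n).1 ≡ a.1 [ZMOD (q : ℤ)] := by
      rw [hem]
      simp only
      calc a.1 + q * n.1 ≡ a.1 + 0 [ZMOD q] :=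
            Int.ModEq.add_left _ (Int.modEq_zero_iff_dvd.2 (Dvd.intro _ rfl))
        _ = a.1 := by ring
    have cl2 : (em n).2 ≡ a.2 [ZMOD (q : ℤ)] := by
      rw [hem]
      simp only
      calc a.2 + q * n.2 ≡ a.2 + 0 [ZMOD q] :=
            Int.ModEq.add_left _ (Int.modEq_zero_iff_dvd.2 (Dvd.intro _ rfl))
        _ = a.2 := by ring
    have e1 : (q : ℝ) * g1 * (q * g2) = (q : ℝ) ^ 2 * (g1 * g2) := by ring
    have hq2 : (0 : ℝ) < (q : ℝ) ^ 2 := by positivity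
    rw [e1]
    constructor
    · rintro ⟨u1, u2, u3, u4, u5, u6, _, _⟩
      refine ⟨(mul_pos_iff_of_pos_left hq0).1 u1, (mul_pos_iff_of_pos_left hq0).1 u2,
        ?_, ?_, ?_, ?_⟩
      · rw [div_lt_iff₀ hq2]; linarith
      · rw [le_div_iff₀ hq2]; linarith
      · have h5 : (q : ℝ) * (lam1 * g2) ≤ q * g1 := by linarith
        exact le_of_mul_le_mul_left h5 hq0
      · have h5 : (q : ℝ) * g1 < q * (lam2 * g2) := by linarith
        exact lt_of_mul_lt_mul_left h5 hq0.le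
    · rintro ⟨u1, u2, u3, u4, u5, u6⟩
      rw [div_lt_iff₀ hq2] at u3
      rw [le_div_iff₀ hq2] at u4
      refine ⟨by positivity, by positivity, by linarith, by linarith, ?_, ?_, cl1, cl2⟩
      · have : (q : ℝ) * (lam1 * g2) ≤ q * g1 := by gcongr
        linarith
      · have : (q : ℝ) * g1 < q * (lam2 * g2) := by gcongr
        linarith
  have hsumeq : ∑ v ∈ S, exp (I * ((tau * Real.log (lf a1 b1 v / lf a2 b2 v) : ℝ) : ℂ)) =
      ∑ n ∈ S', ph tau (ff a1 b1 (pt w n)) (ff a2 b2 (pt w n)) := by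
    symm
    apply Finset.sum_bij' (fun n _ => em n) (fun v _ => ((v.1 - a.1) / q, (v.2 - a.2) / q))
    · intro n hn
      exact (hmem n).1 hn
    · intro v hv
      exact Finset.mem_image.2 ⟨v, hv, rfl⟩
    · intro n _
      exact hinv n
    · intro v hv
      exact hemS v hv
    · intro n _
      unfold ph
      rw [hff, hff, mul_div_mul_left _ _ hq0.ne']
  have hmteq : (((Y2 - Y1) / (2 * |a1 * b2 - a2 * b1| * (q : ℝ) ^ 2) : ℝ) : ℂ) *
      ∫ u in (Real.log lam1)..(Real.log lam2), exp (I * ((tau * u : ℝ) : ℂ)) =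
      mt a1 b1 a2 b2 tau (Y1 / (q : ℝ) ^ 2) (Y2 / (q : ℝ) ^ 2) lam1 lam2 := by
    unfold mt
    congr 2
    field_simp
  rw [hsumeq, hmteq]
  apply hP tau Z (Y1 / (q : ℝ) ^ 2) (Y2 / (q : ℝ) ^ 2) lam1 lam2 w S' hZ1 _ _ _ _ hl12
    (hl2.trans hLK) _ hreg
  · rw [hZ]; gcongr
  · gcongr
  · rw [hZ, ← mul_div_assoc]; gcongr
  · refine le_trans ?_ hl1
    exact one_div_le_one_div_of_le (by linarith) hLK
  · refine htau.trans ?_
    have hT0 : 0 < T := by linarith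
    have e : T = (T ^ kap) ^ (1 / kap) := by
      rw [← Real.rpow_mul hT0.le, mul_one_div_cancel hkap.ne', Real.rpow_one]
    rw [e]
    calc (T ^ kap) ^ (1 / kap) ≤ Z ^ (1 / kap) :=
          Real.rpow_le_rpow (by positivity) hTk (by positivity)
      _ ≤ Z ^ ((2 * R + 1) / 8 : ℝ) := by
        apply Real.rpow_le_rpow_of_exponent_le hZ1
        have e2 : 8 / kap = 8 * (1 / kap) := by ring
        rw [e2] at hR
        linarith

end Pool.Agent.XR67
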