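import Pool.Agent.Lib.MP_a17b09_nt.MRS.StmtsH67
import Pool.Agent.Lib.MP_a17b09_nt.MRS.RExp67

/-!
Exponential sums over sectors of the cone of an indefinite binary form: proofs.
-/

set_option autoImplicit false

namespace Pool.Agent.XH67

open Finset Complex
open Pool.Agent.Lib.MP_a17b09_nt.CH Pool.Agent.Lib.MP_a17b09_nt.HY
open Pool.Agent.XR67 (lf IsSec stVR)

/-- coefficients of the two linear forms -/
noncomputable def cA (Q : Form) : ℝ := √(Q.a : ℝ)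
noncomputable def cP (d : ℕ) (Q : Form) : ℝ := (Q.b + √(d : ℝ)) / (2 * √(Q.a : ℝ))
noncomputable def cM (d : ℕ) (Q : Form) : ℝ := (Q.b - √(d : ℝ)) / (2 * √(Q.a : ℝ))

theorem lf_P {d : ℕ} {Q : Form} (h : Hyp d Q) (v : V) :
    lf (cA Q) (cP d Q) v = hX Q v + hY Q v := by
  have h1 := h.sa
  rw [h.hY_eq]
  unfold lf cA cP hX
  field_simp
  ring

theorem lf_M {d : ℕ} {Q : Form} (h : Hyp d Q) (v : V) :
    lf (cA Q) (cM d Q) v = hX Q v - hY Q v := by
  have h1 := h.sa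
  rw [h.hY_eq]
  unfold lf cA cM hX
  field_simp
  ring

theorem disc_lf {d : ℕ} {Q : Form} (h : Hyp d Q) :
    |cA Q * cM d Q - cA Q * cP d Q| = √(d : ℝ) := by
  have h1 := h.sa
  have h2 := h.sd
  have e : cA Q * cM d Q - cA Q * cP d Q = -√(d : ℝ) := by
    unfold cA cM cP
    field_simp
    ring
  rw [e, abs_neg, abs_of_pos h2]

theorem exp_ps {Q : Form} {v : V} (hv : Cn Q v) :
    hX Q v + hY Q v = Real.exp (2 * ps Q v) * (hX Q v - hY Q v) := by
  obtain ⟨h1, h2⟩ := (cn_iff Q v).1 hv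
  have e : 2 * ps Q v = Real.log ((hX Q v + hY Q v) / (hX Q v - hY Q v)) := by
    unfold ps; ring
  rw [e, Real.exp_log (div_pos h1 h2), div_mul_cancel₀ _ h2.ne']

theorem isSec_of {d : ℕ} {Q : Form} (h : Hyp d Q) {q : ℕ} {a : V} {t0 t1 r1 r2 : ℝ} {S : Finset V}
    (hS : IsB Q q a t0 t1 r1 r2 S) :
    IsSec (cA Q) (cP d Q) (cA Q) (cM d Q) r1 r2 (Real.exp (2 * t0)) (Real.exp (2 * t1)) q a S := by
  intro v
  rw [hS v, lf_P h, lf_M h]
  have eq : (hX Q v + hY Q v) * (hX Q v - hY Q v) = Q.q v := by rw [h.q_eq]; ring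
  rw [eq]
  have ec : ∀ x y : ℤ, x ≡ y [ZMOD (q : ℤ)] ↔ (q : ℤ) ∣ x - y := fun x y => by
    rw [Int.modEq_comm, Int.modEq_iff_dvd]
  rw [ec, ec]
  constructor
  · rintro ⟨c1, c2, c3, c4, c5, c6, c7⟩
    obtain ⟨h1, h2⟩ := (cn_iff Q v).1 c3
    refine ⟨h1, h2, c6, c7, ?_, ?_, c1, c2⟩
    · rw [exp_ps c3]
      exact mul_le_mul_of_nonneg_right (Real.exp_le_exp.2 (by linarith)) h2.le
    · rw [exp_ps c3]
      exact mul_lt_mul_of_pos_right (Real.exp_lt_exp.2 (by linarith)) h2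
  · rintro ⟨h1, h2, c6, c7, c8, c9, c1, c2⟩
    have c3 : Cn Q v := (cn_iff Q v).2 ⟨h1, h2⟩
    rw [exp_ps c3] at c8 c9
    have c8' := Real.exp_le_exp.1 (le_of_mul_le_mul_right c8 h2)
    have c9' := Real.exp_lt_exp.1 (lt_of_mul_lt_mul_right c9 h2.le)
    exact ⟨c1, c2, c3, by linarith, by linarith, c6, c7⟩

theorem int_half (τ t0 t1 : ℝ) :
    ∫ u in (2 * t0)..(2 * t1), exp (I * (((τ / 2) * u : ℝ) : ℂ)) =
      2 * ∫ u in t0..t1, exp (I * ((τ * u : ℝ) : ℂ)) := by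
  have h := intervalIntegral.integral_comp_mul_left
    (fun u : ℝ => exp (I * (((τ / 2) * u : ℝ) : ℂ))) (two_ne_zero' ℝ) (a := t0) (b := t1)
  have e : (fun x : ℝ => (fun u : ℝ => exp (I * (((τ / 2) * u : ℝ) : ℂ))) (2 * x)) =
      fun u : ℝ => exp (I * ((τ * u : ℝ) : ℂ)) := by
    funext x
    simp only
    congr 3
    ring
  rw [e] at h
  rw [h]
  rw [Complex.real_smul]
  push_cast
  ring

theorem stVH : StVH := by
  intro d Q hQ B κ hB hκ
  have hsa := hQ.sa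
  have hsd := hQ.sd
  have hne1 : cA Q * cA Q ≠ 0 := by unfold cA; positivity
  have hne2 : cA Q * cM d Q - cA Q * cP d Q ≠ 0 := by
    intro h0
    have := disc_lf hQ
    rw [h0, abs_zero] at this
    linarith
  obtain ⟨c, C, hc, hC, H⟩ := stVR (cA Q) (cP d Q) (cA Q) (cM d Q) hne1 hne2 (Real.exp (2 * B))
    (Real.one_le_exp (by linarith)) κ hκ
  refine ⟨c, C, hc, hC, ?_⟩
  intro T τ q a Y Y1 Y2 t0 t1 S hT hτ hq hY hY1 hY12 hY2 ht0 ht01 ht1 hS
  have hτ2 : |τ / 2| ≤ T := by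
    rw [abs_div, abs_of_pos (by norm_num : (0 : ℝ) < 2)]
    have := abs_nonneg τ
    linarith
  have h1 : 1 / Real.exp (2 * B) ≤ Real.exp (2 * t0) := by
    rw [one_div, ← Real.exp_neg]
    exact Real.exp_le_exp.2 (by linarith)
  have := H T (τ / 2) q a Y Y1 Y2 (Real.exp (2 * t0)) (Real.exp (2 * t1)) S hT hτ2 hq hY hY1 hY12
    hY2 h1 (Real.exp_le_exp.2 (by linarith)) (Real.exp_le_exp.2 (by linarith)) (isSec_of hQ hS)
  rw [Real.log_exp, Real.log_exp, int_half, disc_lf hQ] at this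
  refine le_trans (le_of_eq ?_) this
  congr 2
  · refine Finset.sum_congr rfl fun v hv => ?_
    rw [lf_P hQ, lf_M hQ]
    congr 3
    unfold ps
    ring
  · rw [← mul_assoc]
    congr 1
    push_cast
    have : ((√(d : ℝ) : ℝ) : ℂ) ≠ 0 := by exact_mod_cast hsd.ne'
    have hq' : ((q : ℝ) : ℂ) ≠ 0 := by
      have : (0 : ℝ) < q := by exact_mod_cast hq
      exact_mod_cast this.ne'
    push_cast at hq'
    field_simp

end Pool.Agent.XH67
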