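import Pool.Agent.Lib.MP_a17b09_nt.MRS.ExpS86
import Pool.Agent.Lib.MP_a17b09_nt.MRS.HM96

/-! MRS: Halasz-Montgomery on the set `U`. -/

set_option autoImplicit false

open Filter Topology Finset

namespace Pool.Agent.Lib.MP_a17b09_nt.MRS

theorem conj_ag3 {v : GaussianInt} (hv : v ≠ 0) (j k : ℤ) :
    ag v ^ j * (starRingEnd ℂ) (ag v ^ k) = ag v ^ (j - k) := by
  have h1 : (starRingEnd ℂ) (ag v) = (ag v)⁻¹ := by
    have h2 : ag v * (starRingEnd ℂ) (ag v) = 1 := by
      rw [Complex.mul_conj, Complex.normSq_eq_norm_sq, norm_ag hv]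
      simp
    exact eq_inv_of_mul_eq_one_right h2
  rw [map_zpow₀, h1, inv_zpow, ← div_eq_mul_inv, zpow_sub₀ (ag_ne hv)]

theorem stHmu_3 (hE : X67.StExp) : StHmu := by
  intro r1 r2 hr1 hr12
  obtain ⟨c, C, hc, hc2, hC, hexp⟩ := E86.expS86 hE 10 (by norm_num)
  set R : ℝ := max r2 1 with hR
  have hR1 : 1 ≤ R := le_max_right _ _
  have hR2 : r2 ≤ R := le_max_left _ _
  refine ⟨c / 2, 60 * R * (60 * R + C * R), by positivity, by positivity, 2, by norm_num, ?_⟩
  intro N hN U hU hUs a ha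
  have hN0 : (0 : ℝ) < N := by linarith
  have hY1 : 1 ≤ R * N := by nlinarith
  have hcard : ((Sh (r1 * N) (r2 * N)).card : ℝ) ≤ 60 * R * N := by
    rcases E86.card_le (r1 * N) (r2 * N) (by positivity) with h | h
    · calc ((Sh (r1 * N) (r2 * N)).card : ℝ) ≤ 60 * (r2 * N) := h
        _ ≤ 60 * (R * N) := by gcongr
        _ = 60 * R * N := by ring
    · rw [h]; simp; positivity
  have hG : ∀ j ∈ U, ∑ k ∈ U, ‖∑ v ∈ Sh (r1 * N) (r2 * N), (((fun _ => 1) v : ℝ) : ℂ) *
      (ag v ^ j * (starRingEnd ℂ) (ag v ^ k))‖ ≤ (60 * R + C * R) * N := by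
    intro j hj
    have h1 : ∀ k ∈ U, ‖∑ v ∈ Sh (r1 * N) (r2 * N), (((fun _ => 1) v : ℝ) : ℂ) *
        (ag v ^ j * (starRingEnd ℂ) (ag v ^ k))‖ ≤
        (if k = j then 60 * R * N else 0) + C * (R * N) ^ (1 - c) := by
      intro k hk
      have h2 : ∑ v ∈ Sh (r1 * N) (r2 * N), (((fun _ => 1) v : ℝ) : ℂ) *
          (ag v ^ j * (starRingEnd ℂ) (ag v ^ k)) = ∑ v ∈ Sh (r1 * N) (r2 * N), ag v ^ (j - k) := by
        refine Finset.sum_congr rfl fun v hv => ?_
        rw [mem_Sh] at hv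
        rw [conj_ag3 hv.1]
        simp
      rw [h2]
      by_cases hkj : k = j
      · rw [if_pos hkj, hkj, sub_self]
        have h3 : ‖∑ v ∈ Sh (r1 * N) (r2 * N), ag v ^ (0 : ℤ)‖ ≤ 60 * R * N := by
          simpa using hcard
        have h4 : 0 ≤ C * (R * N) ^ (1 - c) := by positivity
        linarith
      · rw [if_neg hkj, zero_add]
        refine hexp (R * N) (r1 * N) (r2 * N) (j - k) hY1 (by gcongr)
          (sub_ne_zero.2 (Ne.symm hkj)) ?_
        have h5 : |((j - k : ℤ) : ℝ)| ≤ N ^ 4 + N ^ 4 := by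
          push_cast
          exact (abs_sub _ _).trans (add_le_add (hUs j hj) (hUs k hk))
        refine h5.trans ?_
        have h6 : (R * N) ^ (10 : ℝ) = (R * N) ^ 10 := by
          rw [← Real.rpow_natCast]; norm_num
        rw [h6]
        have h7 : N ^ 10 ≤ (R * N) ^ 10 := pow_le_pow_left₀ hN0.le (by nlinarith) 10
        have h8 : N ^ 4 + N ^ 4 ≤ N ^ 10 := by
          have h9 : N ^ 10 = N ^ 4 * N ^ 6 := by ring
          have h10 : (2 : ℝ) ≤ N ^ 6 := by
            calc (2 : ℝ) ≤ 2 ^ 6 := by norm_num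
              _ ≤ N ^ 6 := pow_le_pow_left₀ (by norm_num) hN 6
          rw [h9]
          nlinarith [pow_pos hN0 4]
        linarith
    calc ∑ k ∈ U, ‖∑ v ∈ Sh (r1 * N) (r2 * N), (((fun _ => 1) v : ℝ) : ℂ) *
          (ag v ^ j * (starRingEnd ℂ) (ag v ^ k))‖
        ≤ ∑ k ∈ U, ((if k = j then 60 * R * N else 0) + C * (R * N) ^ (1 - c)) :=
          Finset.sum_le_sum h1
      _ = 60 * R * N + U.card * (C * (R * N) ^ (1 - c)) := by
          rw [Finset.sum_add_distrib, Finset.sum_ite_eq' U j, if_pos hj, Finset.sum_const,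
            nsmul_eq_mul]
      _ ≤ 60 * R * N + C * R * N := by
          have h2 : (R * N) ^ (1 - c) = R ^ (1 - c) * N ^ (1 - c) :=
            Real.mul_rpow (by linarith) hN0.le
          have h3 : R ^ (1 - c) ≤ R := by
            calc R ^ (1 - c) ≤ R ^ (1 : ℝ) := Real.rpow_le_rpow_of_exponent_le hR1 (by linarith)
              _ = R := Real.rpow_one R
          have h4 : N ^ (c / 2) * N ^ (1 - c) ≤ N := by
            rw [← Real.rpow_add hN0]
            calc N ^ (c / 2 + (1 - c)) ≤ N ^ (1 : ℝ) :=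
                  Real.rpow_le_rpow_of_exponent_le (by linarith) (by linarith)
              _ = N := Real.rpow_one N
          have h5 : (U.card : ℝ) * (C * (R * N) ^ (1 - c)) ≤ C * R * N := by
            calc (U.card : ℝ) * (C * (R * N) ^ (1 - c)) ≤ N ^ (c / 2) * (C * (R * N) ^ (1 - c)) :=
                  mul_le_mul_of_nonneg_right hU (by positivity)
              _ = C * R ^ (1 - c) * (N ^ (c / 2) * N ^ (1 - c)) := by rw [h2]; ring
              _ ≤ C * R * N := by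
                  refine mul_le_mul (mul_le_mul_of_nonneg_left h3 hC.le) h4 (by positivity)
                    (by positivity)
          linarith
      _ = (60 * R + C * R) * N := by ring
  have h := hm_96 (Sh (r1 * N) (r2 * N)) U (fun _ => 1) (fun _ _ => zero_le_one)
    (fun j v => ag v ^ j) a ((60 * R + C * R) * N) (by positivity) hG
  have h1 : ∀ j ∈ U, ‖(1 / (N : ℂ)) * ∑ v ∈ Sh (r1 * N) (r2 * N), a v * ag v ^ j‖ ^ 2 =
      (1 / N) ^ 2 * ‖∑ v ∈ Sh (r1 * N) (r2 * N), (((fun _ => 1) v : ℝ) : ℂ) * a v * ag v ^ j‖ ^ 2 := by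
    intro j _
    rw [norm_mul, mul_pow]
    congr 1
    · rw [norm_div, norm_one, Complex.norm_real, Real.norm_of_nonneg hN0.le]
    · congr 2
      refine Finset.sum_congr rfl fun v _ => ?_
      simp
  rw [Finset.sum_congr rfl h1, ← Finset.mul_sum]
  have h2 : ∑ v ∈ Sh (r1 * N) (r2 * N), ((fun _ => 1) v : ℝ) * ‖a v‖ ^ 2 ≤ 60 * R * N := by
    calc ∑ v ∈ Sh (r1 * N) (r2 * N), ((fun _ => 1) v : ℝ) * ‖a v‖ ^ 2
        ≤ ∑ v ∈ Sh (r1 * N) (r2 * N), (1 : ℝ) := by
          refine Finset.sum_le_sum fun v _ => ?_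
          have h3 : ‖a v‖ ^ 2 ≤ 1 := pow_le_one₀ (norm_nonneg _) (ha v)
          simpa using h3
      _ = ((Sh (r1 * N) (r2 * N)).card : ℝ) := by simp
      _ ≤ 60 * R * N := hcard
  calc (1 / N) ^ 2 * ∑ j ∈ U, ‖∑ v ∈ Sh (r1 * N) (r2 * N),
        (((fun _ => 1) v : ℝ) : ℂ) * a v * ag v ^ j‖ ^ 2
      ≤ (1 / N) ^ 2 * ((60 * R * N) * ((60 * R + C * R) * N)) := by
        refine mul_le_mul_of_nonneg_left (h.trans ?_) (by positivity)
        exact mul_le_mul_of_nonneg_right h2 (by positivity)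
    _ = 60 * R * (60 * R + C * R) := by field_simp

end Pool.Agent.Lib.MP_a17b09_nt.MRS
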