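import Pool.Agent.Lib.MP_60922f_co.MR.WEYL36

/-!
Project MRS (MP_a17b09_nt), section 2: the class `InC36` from derivatives, and the van der Corput
bound for phases with a derivative of fixed sign and size.
-/

set_option autoImplicit false

open Finset

namespace Pool.Agent.Lib.MP_a17b09_nt.MRS18

open Pool.Agent.MR36

/-- finite differences are values of the derivative -/
theorem dd_bd : ∀ (k : ℕ) (f : ℕ → ℝ → ℝ) (n : ℤ) (lo hi : ℝ),
    (∀ j < k, ∀ x : ℝ, (n : ℝ) ≤ x → x ≤ n + k → HasDerivAt (f j) (f (j + 1) x) x) →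
    (∀ x : ℝ, (n : ℝ) ≤ x → x ≤ n + k → lo ≤ f k x ∧ f k x ≤ hi) →
    lo ≤ dd36 k (fun m : ℤ => f 0 m) n ∧ dd36 k (fun m : ℤ => f 0 m) n ≤ hi := by
  intro k
  induction k with
  | zero =>
    intro f n lo hi _ h
    exact h n le_rfl (by simp)
  | succ k ih =>
    intro f n lo hi hd h
    set g : ℕ → ℝ → ℝ := fun j x => f j (x + 1) - f j x with hg
    have e1 : dd36 (k + 1) (fun m : ℤ => f 0 m) n = dd36 k (fun m : ℤ => g 0 m) n := by
      show dd36 k (fun m : ℤ => f 0 m) (n + 1) - dd36 k (fun m : ℤ => f 0 m) n = _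
      rw [← dd_shift36, ← dd_sub36]
      congr 1
      funext m
      simp only [hg]
      push_cast
      rfl
    rw [e1]
    refine ih g n lo hi (fun j hj x hx1 hx2 => ?_) (fun x hx1 hx2 => ?_)
    · have h1 := hd j (by omega) (x + 1) (by linarith) (by push_cast; linarith)
      have h2 := hd j (by omega) x hx1 (by push_cast; linarith)
      exact (h1.comp_add_const x 1).sub h2
    · obtain ⟨ξ, hξ, hξ2⟩ := exists_hasDerivAt_eq_slope (f k) (f (k + 1))
        (show x < x + 1 by linarith)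
        (fun y hy => (hd k (by omega) y (by linarith [hy.1])
          (by push_cast; linarith [hy.2])).continuousAt.continuousWithinAt)
        (fun y hy => hd k (by omega) y (by linarith [hy.1]) (by push_cast; linarith [hy.2]))
      have e2 : g k x = f (k + 1) ξ := by
        rw [hξ2, add_sub_cancel_left, div_one]
      rw [e2]
      exact h ξ (by linarith [hξ.1]) (by push_cast; linarith [hξ.2])

/-- upper bound only -/
theorem dd_bd' : ∀ (k : ℕ) (f : ℕ → ℝ → ℝ) (n : ℤ) (hi : ℝ),
    (∀ j < k, ∀ x : ℝ, (n : ℝ) ≤ x → x ≤ n + k → HasDerivAt (f j) (f (j + 1) x) x) →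
    (∀ x : ℝ, (n : ℝ) ≤ x → x ≤ n + k → f k x ≤ hi) →
    dd36 k (fun m : ℤ => f 0 m) n ≤ hi := by
  intro k
  induction k with
  | zero =>
    intro f n hi _ h
    exact h n le_rfl (by simp)
  | succ k ih =>
    intro f n hi hd h
    set g : ℕ → ℝ → ℝ := fun j x => f j (x + 1) - f j x with hg
    have e1 : dd36 (k + 1) (fun m : ℤ => f 0 m) n = dd36 k (fun m : ℤ => g 0 m) n := by
      show dd36 k (fun m : ℤ => f 0 m) (n + 1) - dd36 k (fun m : ℤ => f 0 m) n = _
      rw [← dd_shift36, ← dd_sub36]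
      congr 1
      funext m
      simp only [hg]
      push_cast
      rfl
    rw [e1]
    refine ih g n hi (fun j hj x hx1 hx2 => ?_) (fun x hx1 hx2 => ?_)
    · have h1 := hd j (by omega) (x + 1) (by linarith) (by push_cast; linarith)
      have h2 := hd j (by omega) x hx1 (by push_cast; linarith)
      exact (h1.comp_add_const x 1).sub h2
    · obtain ⟨ξ, hξ, hξ2⟩ := exists_hasDerivAt_eq_slope (f k) (f (k + 1))
        (show x < x + 1 by linarith)
        (fun y hy => (hd k (by omega) y (by linarith [hy.1])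
          (by push_cast; linarith [hy.2])).continuousAt.continuousWithinAt)
        (fun y hy => hd k (by omega) y (by linarith [hy.1]) (by push_cast; linarith [hy.2]))
      have e2 : g k x = f (k + 1) ξ := by
        rw [hξ2, add_sub_cancel_left, div_one]
      rw [e2]
      exact h ξ (by linarith [hξ.1]) (by push_cast; linarith [hξ.2])

/-- `InC36` from derivatives -/
theorem InC_deriv (k : ℕ) (f : ℕ → ℝ → ℝ) (a b : ℤ) (lo hi : ℝ)
    (hd : ∀ j < k + 2, ∀ x : ℝ, (a : ℝ) ≤ x → x ≤ b - 1 → HasDerivAt (f j) (f (j + 1) x) x)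
    (h1 : ∀ x : ℝ, (a : ℝ) ≤ x → x ≤ b - 1 → lo ≤ f (k + 1) x ∧ f (k + 1) x ≤ hi)
    (h2 : ∀ x : ℝ, (a : ℝ) ≤ x → x ≤ b - 1 → f (k + 2) x ≤ 0) :
    InC36 k lo hi (fun m : ℤ => f 0 m) a b := by
  refine ⟨fun n hn hn2 => ?_, fun n hn hn2 => ?_⟩
  · have hn' : (a : ℝ) ≤ n := by exact_mod_cast hn
    have hn2' : (n : ℝ) + k + 1 ≤ b - 1 := by
      have : n + k + 1 ≤ b - 1 := by omega
      exact_mod_cast this
    exact dd_bd (k + 1) f n lo hi
      (fun j hj x hx1 hx2 => hd j (by omega) x (by linarith) (by push_cast at hx2; linarith))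
      (fun x hx1 hx2 => h1 x (by linarith) (by push_cast at hx2; linarith))
  · have hn' : (a : ℝ) ≤ n := by exact_mod_cast hn
    have hn2' : (n : ℝ) + k + 2 ≤ b - 1 := by
      have : n + k + 2 ≤ b - 1 := by omega
      exact_mod_cast this
    have h3 : dd36 (k + 2) (fun m : ℤ => f 0 m) n ≤ 0 := by
      have h4 := dd_bd' (k + 2) f n 0
        (fun j hj x hx1 hx2 => hd j (by omega) x (by linarith) (by push_cast at hx2; linarith))
        (fun x hx1 hx2 => h2 x (by linarith) (by push_cast at hx2; linarith))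
      exact h4
    have h5 : dd36 (k + 2) (fun m : ℤ => f 0 m) n =
      dd36 (k + 1) (fun m : ℤ => f 0 m) (n + 1) - dd36 (k + 1) (fun m : ℤ => f 0 m) n := rfl
    linarith

end Pool.Agent.Lib.MP_a17b09_nt.MRS18
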