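import Mathlib

/-!
MRS (MP_a17b09): large sieve for directions (helper19).
`ls_abs` : abstract version (unimodular points with a counting hypothesis).
-/

namespace MRS19

open Finset

noncomputable section

/-- squared geometric kernel -/
def ker (M : ℕ) (z : ℂ) : ℝ := ‖∑ k ∈ range M, z ^ k‖ ^ 2

lemma ker_nonneg (M : ℕ) (z : ℂ) : 0 ≤ ker M z := by unfold ker; positivity

lemma ker_le_sq {M : ℕ} {z : ℂ} (hz : ‖z‖ = 1) : ker M z ≤ (M:ℝ)^2 := by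
  unfold ker
  have h : ‖∑ k ∈ range M, z ^ k‖ ≤ M := by
    calc ‖∑ k ∈ range M, z ^ k‖ ≤ ∑ k ∈ range M, ‖z ^ k‖ := norm_sum_le _ _
      _ = ∑ k ∈ range M, (1:ℝ) := by
        refine sum_congr rfl fun k _ => ?_
        rw [norm_pow, hz, one_pow]
      _ = M := by simp
  exact pow_le_pow_left₀ (norm_nonneg _) h 2

lemma ker_mul_le {M : ℕ} {z : ℂ} (hz : ‖z‖ = 1) : ker M z * ‖z - 1‖ ^ 2 ≤ 4 := by
  unfold ker
  rw [← mul_pow, ← norm_mul, geom_sum_mul]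
  have h : ‖z ^ M - 1‖ ≤ 2 := by
    calc ‖z ^ M - 1‖ ≤ ‖z ^ M‖ + ‖(1:ℂ)‖ := norm_sub_le _ _
      _ = 2 := by rw [norm_pow, hz, one_pow, norm_one]; norm_num
  calc ‖z ^ M - 1‖ ^ 2 ≤ 2 ^ 2 := pow_le_pow_left₀ (norm_nonneg _) h 2
    _ = 4 := by norm_num

lemma ker_conj (M : ℕ) (z : ℂ) : ker M ((starRingEnd ℂ) z) = ker M z := by
  unfold ker
  congr 1
  rw [← RCLike.norm_conj (∑ k ∈ range M, z ^ k)]
  congr 1
  rw [map_sum]
  refine sum_congr rfl fun k _ => ?_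
  rw [map_pow]

/-- expansion of the double mean square -/
lemma expand {ι : Type*} (s : Finset ι) (z : ι → ℂ) (hz : ∀ i ∈ s, ‖z i‖ = 1) (a : ι → ℂ) (M : ℕ) :
    ((∑ k ∈ range M, ∑ l ∈ range M, ‖∑ i ∈ s, a i * z i ^ ((k:ℤ) - (l:ℤ))‖ ^ 2 : ℝ) : ℂ)
      = ∑ i ∈ s, ∑ j ∈ s, a i * (starRingEnd ℂ) (a j) *
          ((ker M (z i * (starRingEnd ℂ) (z j)) : ℝ) : ℂ) := by
  have h1 : ∀ k l : ℕ, ((‖∑ i ∈ s, a i * z i ^ ((k:ℤ) - (l:ℤ))‖ ^ 2 : ℝ) : ℂ)
      = ∑ i ∈ s, ∑ j ∈ s, a i * (starRingEnd ℂ) (a j) *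
        ((z i * (starRingEnd ℂ) (z j)) ^ k * (starRingEnd ℂ) ((z i * (starRingEnd ℂ) (z j)) ^ l)) := by
    intro k l
    have h2 : ((‖∑ i ∈ s, a i * z i ^ ((k:ℤ) - (l:ℤ))‖ ^ 2 : ℝ) : ℂ)
        = (∑ i ∈ s, a i * z i ^ ((k:ℤ) - (l:ℤ))) *
          (starRingEnd ℂ) (∑ i ∈ s, a i * z i ^ ((k:ℤ) - (l:ℤ))) := by
      rw [Complex.mul_conj']; push_cast; rfl
    rw [h2, map_sum, sum_mul_sum]
    refine sum_congr rfl fun i hi => sum_congr rfl fun j hj => ?_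
    have hzi : z i ≠ 0 := by
      intro h; have := hz i hi; rw [h, norm_zero] at this; exact zero_ne_one this
    have hzj : z j ≠ 0 := by
      intro h; have := hz j hj; rw [h, norm_zero] at this; exact zero_ne_one this
    have ci : (starRingEnd ℂ) (z i) = (z i)⁻¹ := by
      rw [Complex.inv_def, Complex.normSq_eq_norm_sq, hz i hi]; simp
    have cj : (starRingEnd ℂ) (z j) = (z j)⁻¹ := by
      rw [Complex.inv_def, Complex.normSq_eq_norm_sq, hz j hj]; simp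
    simp only [zpow_sub₀ hzi, zpow_sub₀ hzj, zpow_natCast, map_mul, map_div₀, map_pow,
      Complex.conj_conj]
    rw [ci, cj]
    simp only [mul_pow, inv_pow]
    field_simp
  push_cast at h1 ⊢
  simp_rw [h1]
  rw [sum_congr rfl fun k _ => sum_comm]
  rw [sum_comm]
  refine sum_congr rfl fun i _ => ?_
  rw [sum_congr rfl fun k _ => sum_comm]
  rw [sum_comm]
  refine sum_congr rfl fun j _ => ?_
  have h3 : ((ker M (z i * (starRingEnd ℂ) (z j)) : ℝ) : ℂ)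
      = (∑ k ∈ range M, (z i * (starRingEnd ℂ) (z j)) ^ k) *
        (starRingEnd ℂ) (∑ l ∈ range M, (z i * (starRingEnd ℂ) (z j)) ^ l) := by
    unfold ker
    rw [Complex.mul_conj']; push_cast; rfl
  rw [h3, map_sum, sum_mul_sum, mul_sum]
  refine sum_congr rfl fun k _ => ?_
  rw [mul_sum]

/-- Schur bound from the counting hypothesis -/
lemma schur {ι : Type*} (s : Finset ι) (z : ι → ℂ) (hz : ∀ i ∈ s, ‖z i‖ = 1) (A N d : ℝ)
    (hA : 0 ≤ A) (hN : 0 ≤ N) (hd : 0 ≤ d) (i : ι) (hi : i ∈ s) (M : ℕ) (hM : 0 < M)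
    (hc : ∀ φ : ℝ, 0 < φ → ((s.filter (fun k => ‖z i - z k‖ ≤ φ)).card : ℝ) ≤ A * (d + N * φ)) :
    ∑ j ∈ s, ker M (z i * (starRingEnd ℂ) (z j)) ≤ A * (22 * (M:ℝ) ^ 2 * d + 32 * M * N) := by
  classical
  have hMr : (0:ℝ) < M := by exact_mod_cast hM
  obtain ⟨K, hK⟩ : ∃ K : ℕ, 2 * (M:ℝ) ≤ 2 ^ K := by
    obtain ⟨K, hK⟩ := pow_unbounded_of_one_lt (2 * (M:ℝ)) (by norm_num : (1:ℝ) < 2)
    exact ⟨K, hK.le⟩
  have hpt : ∀ j ∈ s, ker M (z i * (starRingEnd ℂ) (z j))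
      ≤ ∑ k ∈ range (K + 1), if ‖z i - z j‖ ≤ 2 ^ k / M then 16 * (M:ℝ) ^ 2 * (1/4) ^ k else 0 := by
    intro j hj
    have hζ : ‖z i * (starRingEnd ℂ) (z j)‖ = 1 := by
      rw [norm_mul, RCLike.norm_conj, hz i hi, hz j hj, one_mul]
    have hζ1 : ‖z i * (starRingEnd ℂ) (z j) - 1‖ = ‖z i - z j‖ := by
      have : z i * (starRingEnd ℂ) (z j) - 1 = (z i - z j) * (starRingEnd ℂ) (z j) := by
        rw [sub_mul, Complex.mul_conj', hz j hj]; simp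
      rw [this, norm_mul, RCLike.norm_conj, hz j hj, mul_one]
    have hx2 : ‖z i - z j‖ ≤ 2 := by
      calc ‖z i - z j‖ ≤ ‖z i‖ + ‖z j‖ := norm_sub_le _ _
        _ = 2 := by rw [hz i hi, hz j hj]; norm_num
    have hnn : ∀ k ∈ range (K+1), (0:ℝ) ≤
        if ‖z i - z j‖ ≤ 2 ^ k / M then 16 * (M:ℝ) ^ 2 * (1/4) ^ k else 0 := by
      intro k _; split_ifs <;> positivity
    have hex : ∃ k : ℕ, ‖z i - z j‖ ≤ 2 ^ k / M := by
      refine ⟨K, hx2.trans ?_⟩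
      rw [le_div_iff₀ hMr]; exact hK
    set k := Nat.find hex with hk
    have hk1 : ‖z i - z j‖ ≤ 2 ^ k / M := Nat.find_spec hex
    have hkK : k ≤ K := Nat.find_min' hex (hx2.trans (by rw [le_div_iff₀ hMr]; exact hK))
    have hmem : k ∈ range (K+1) := mem_range.mpr (by omega)
    refine le_trans ?_ (single_le_sum hnn hmem)
    simp only [hk1, if_true]
    rcases Nat.eq_zero_or_pos k with h0 | hpos
    · rw [h0, pow_zero, mul_one]
      have := ker_le_sq (M := M) hζ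
      nlinarith [sq_nonneg (M:ℝ)]
    · have hlt : ¬ ‖z i - z j‖ ≤ 2 ^ (k-1) / M := Nat.find_min hex (by omega)
      push Not at hlt
      have hpw : (0:ℝ) < 2 ^ (k-1) / M := by positivity
      have h4 := ker_mul_le (M := M) hζ
      rw [hζ1] at h4
      have hsq : (2 ^ (k-1) / (M:ℝ)) ^ 2 ≤ ‖z i - z j‖ ^ 2 := pow_le_pow_left₀ hpw.le hlt.le 2
      have h5 : ker M (z i * (starRingEnd ℂ) (z j)) * (2 ^ (k-1) / (M:ℝ)) ^ 2 ≤ 4 :=
        le_trans (mul_le_mul_of_nonneg_left hsq (ker_nonneg _ _)) h4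
      have h6 : (16 * (M:ℝ) ^ 2 * (1/4) ^ k) * (2 ^ (k-1) / (M:ℝ)) ^ 2 = 4 := by
        obtain ⟨m, hm⟩ : ∃ m, k = m + 1 := ⟨k - 1, by omega⟩
        rw [hm, Nat.add_sub_cancel]
        have h7 : ((1:ℝ)/4) ^ m * ((2:ℝ)^m)^2 = 1 := by
          rw [← pow_mul, mul_comm m 2, pow_mul, ← mul_pow]; norm_num
        have hM2 : (M:ℝ) ^ 2 ≠ 0 := by positivity
        calc 16 * (M:ℝ) ^ 2 * (1/4) ^ (m+1) * (2 ^ m / (M:ℝ)) ^ 2
            = 4 * (((1:ℝ)/4) ^ m * ((2:ℝ)^m)^2) * ((M:ℝ)^2 / (M:ℝ)^2) := by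
              rw [pow_succ ((1:ℝ)/4) m, div_pow ((2:ℝ)^m) (M:ℝ)]; generalize ((1:ℝ)/4) ^ m = q; ring
          _ = 4 := by rw [h7, div_self hM2]; norm_num
      have hpos2 : 0 < (2 ^ (k-1) / (M:ℝ)) ^ 2 := by positivity
      exact le_of_mul_le_mul_right (h5.trans h6.ge) hpos2
  calc ∑ j ∈ s, ker M (z i * (starRingEnd ℂ) (z j))
      ≤ ∑ j ∈ s, ∑ k ∈ range (K + 1),
          (if ‖z i - z j‖ ≤ 2 ^ k / M then 16 * (M:ℝ) ^ 2 * (1/4) ^ k else 0) := sum_le_sum hpt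
    _ = ∑ k ∈ range (K + 1), ((s.filter (fun j => ‖z i - z j‖ ≤ 2 ^ k / M)).card : ℝ)
          * (16 * (M:ℝ) ^ 2 * (1/4) ^ k) := by
        rw [sum_comm]
        refine sum_congr rfl fun k _ => ?_
        rw [← sum_filter, sum_const, nsmul_eq_mul]
    _ ≤ ∑ k ∈ range (K + 1), (A * (d + N * (2 ^ k / M))) * (16 * (M:ℝ) ^ 2 * (1/4) ^ k) := by
        refine sum_le_sum fun k _ => ?_
        exact mul_le_mul_of_nonneg_right (hc _ (by positivity)) (by positivity)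
    _ = A * (16 * (M:ℝ)^2 * d * ∑ k ∈ range (K+1), (1/4:ℝ) ^ k
          + 16 * M * N * ∑ k ∈ range (K+1), (1/2:ℝ) ^ k) := by
        rw [mul_sum, mul_sum, ← sum_add_distrib, mul_sum]
        refine sum_congr rfl fun k _ => ?_
        have : (2:ℝ) ^ k * (1/4) ^ k = (1/2) ^ k := by rw [← mul_pow]; norm_num
        rw [← this]
        field_simp
    _ ≤ A * (22 * (M:ℝ) ^ 2 * d + 32 * M * N) := by
        have h1 : ∑ k ∈ range (K+1), (1/4:ℝ) ^ k ≤ 4/3 := by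
          have := geom_sum_eq (by norm_num : (1/4:ℝ) ≠ 1) (K+1)
          rw [this]
          have hp : (0:ℝ) ≤ (1/4:ℝ) ^ (K+1) := by positivity
          rw [div_le_iff_of_neg (by norm_num)]
          linarith
        have h2 : ∑ k ∈ range (K+1), (1/2:ℝ) ^ k ≤ 2 := by
          have := geom_sum_eq (by norm_num : (1/2:ℝ) ≠ 1) (K+1)
          rw [this]
          have hp : (0:ℝ) ≤ (1/2:ℝ) ^ (K+1) := by positivity
          rw [div_le_iff_of_neg (by norm_num)]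
          linarith
        refine mul_le_mul_of_nonneg_left ?_ hA
        have e1 : 16 * (M:ℝ)^2 * d * ∑ k ∈ range (K+1), (1/4:ℝ) ^ k ≤ 16 * (M:ℝ)^2 * d * (4/3) :=
          mul_le_mul_of_nonneg_left h1 (by positivity)
        have e2 : 16 * (M:ℝ) * N * ∑ k ∈ range (K+1), (1/2:ℝ) ^ k ≤ 16 * M * N * 2 :=
          mul_le_mul_of_nonneg_left h2 (by positivity)
        have e3 : 0 ≤ (M:ℝ)^2 * d := by positivity
        nlinarith

/-- **Abstract large sieve.** -/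
theorem ls_abs {ι : Type*} (s : Finset ι) (z : ι → ℂ) (hz : ∀ i ∈ s, ‖z i‖ = 1) (A N : ℝ)
    (d : ι → ℝ) (hA : 0 ≤ A) (hN : 0 ≤ N) (hd : ∀ i ∈ s, 0 ≤ d i)
    (hc : ∀ i ∈ s, ∀ φ : ℝ, 0 < φ →
      ((s.filter (fun k => ‖z i - z k‖ ≤ φ)).card : ℝ) ≤ A * (d i + N * φ))
    (J : ℕ) (a : ι → ℂ) :
    ∑ j ∈ Finset.Icc (-(J:ℤ)) J, ‖∑ i ∈ s, a i * z i ^ j‖ ^ 2
      ≤ 200 * A * ∑ i ∈ s, ‖a i‖ ^ 2 * (N + (J + 1) * d i) := by
  classical
  set M := 3 * J + 1 with hM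
  have hMpos : 0 < M := by omega
  set S : ℤ → ℝ := fun j => ‖∑ i ∈ s, a i * z i ^ j‖ ^ 2 with hS
  have hSn : ∀ j, 0 ≤ S j := fun j => by rw [hS]; positivity
  -- lower bound
  have hlow : ((J:ℝ) + 1) * ∑ j ∈ Finset.Icc (-(J:ℤ)) J, S j
      ≤ ∑ k ∈ range M, ∑ l ∈ range M, S ((k:ℤ) - l) := by
    rw [sum_comm]
    have h1 : ∀ l ∈ Finset.Icc J (2*J), ∑ j ∈ Finset.Icc (-(J:ℤ)) J, S j
        ≤ ∑ k ∈ range M, S ((k:ℤ) - l) := by
      intro l hl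
      rw [Finset.mem_Icc] at hl
      have h2 : ∑ j ∈ Finset.Icc (-(J:ℤ)) J, S j
          = ∑ k ∈ (Finset.Icc (-(J:ℤ)) J).image (fun j : ℤ => (j + (l:ℤ)).toNat), S ((k:ℤ) - l) := by
        rw [sum_image]
        · refine sum_congr rfl fun j hj => ?_
          rw [Finset.mem_Icc] at hj
          congr 1
          rw [Int.toNat_of_nonneg (by omega)]; ring
        · intro x hx y hy hxy
          simp only [coe_Icc, Set.mem_Icc] at hx hy
          have hxy' : (x + (l:ℤ)).toNat = (y + (l:ℤ)).toNat := hxy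
          have := congrArg (fun n : ℕ => (n:ℤ)) hxy'
          rw [Int.toNat_of_nonneg (by omega), Int.toNat_of_nonneg (by omega)] at this
          omega
      rw [h2]
      refine sum_le_sum_of_subset_of_nonneg ?_ fun k _ _ => hSn _
      intro k hk
      rw [mem_image] at hk
      obtain ⟨j, hj, rfl⟩ := hk
      rw [Finset.mem_Icc] at hj
      rw [mem_range]
      omega
    calc ((J:ℝ) + 1) * ∑ j ∈ Finset.Icc (-(J:ℤ)) J, S j
        = ∑ l ∈ Finset.Icc J (2*J), ∑ j ∈ Finset.Icc (-(J:ℤ)) J, S j := by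
          rw [sum_const, nsmul_eq_mul, Nat.card_Icc]
          congr 1
          have : 2 * J + 1 - J = J + 1 := by omega
          rw [this]; push_cast; ring
      _ ≤ ∑ l ∈ Finset.Icc J (2*J), ∑ k ∈ range M, S ((k:ℤ) - l) := sum_le_sum h1
      _ ≤ ∑ l ∈ range M, ∑ k ∈ range M, S ((k:ℤ) - l) := by
          refine sum_le_sum_of_subset_of_nonneg ?_ fun l _ _ => sum_nonneg fun k _ => hSn _
          intro l hl
          rw [Finset.mem_Icc] at hl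
          rw [mem_range]; omega
  -- upper bound
  have hup : ∑ k ∈ range M, ∑ l ∈ range M, S ((k:ℤ) - l)
      ≤ ∑ i ∈ s, ‖a i‖ ^ 2 * (A * (22 * (M:ℝ) ^ 2 * d i + 32 * M * N)) := by
    have he := expand s z hz a M
    have h1 : ∑ k ∈ range M, ∑ l ∈ range M, S ((k:ℤ) - l)
        ≤ ∑ i ∈ s, ∑ j ∈ s, ‖a i‖ * ‖a j‖ * ker M (z i * (starRingEnd ℂ) (z j)) := by
      have h2 : ∑ k ∈ range M, ∑ l ∈ range M, S ((k:ℤ) - l)
          = ‖((∑ k ∈ range M, ∑ l ∈ range M, S ((k:ℤ) - l) : ℝ) : ℂ)‖ := by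
        rw [Complex.norm_real, Real.norm_of_nonneg]
        exact sum_nonneg fun k _ => sum_nonneg fun l _ => hSn _
      rw [h2]
      simp only [hS]
      rw [he]
      refine (norm_sum_le _ _).trans (sum_le_sum fun i _ => ?_)
      refine (norm_sum_le _ _).trans (sum_le_sum fun j _ => ?_)
      rw [norm_mul, norm_mul, RCLike.norm_conj, Complex.norm_real,
        Real.norm_of_nonneg (ker_nonneg _ _)]
    refine h1.trans ?_
    have hsym : ∀ i j, ker M (z i * (starRingEnd ℂ) (z j)) = ker M (z j * (starRingEnd ℂ) (z i)) := by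
      intro i j
      rw [← ker_conj M (z i * (starRingEnd ℂ) (z j)), map_mul, Complex.conj_conj, mul_comm]
    calc ∑ i ∈ s, ∑ j ∈ s, ‖a i‖ * ‖a j‖ * ker M (z i * (starRingEnd ℂ) (z j))
        ≤ ∑ i ∈ s, ∑ j ∈ s, ((‖a i‖^2 / 2) * ker M (z i * (starRingEnd ℂ) (z j))
            + (‖a j‖^2 / 2) * ker M (z i * (starRingEnd ℂ) (z j))) := by
          refine sum_le_sum fun i _ => sum_le_sum fun j _ => ?_
          rw [← add_mul]
          refine mul_le_mul_of_nonneg_right ?_ (ker_nonneg _ _)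
          nlinarith [sq_nonneg (‖a i‖ - ‖a j‖)]
      _ = ∑ i ∈ s, ‖a i‖ ^ 2 * ∑ j ∈ s, ker M (z i * (starRingEnd ℂ) (z j)) := by
          have e1 : ∑ i ∈ s, ∑ j ∈ s, ((‖a i‖^2 / 2) * ker M (z i * (starRingEnd ℂ) (z j))
            + (‖a j‖^2 / 2) * ker M (z i * (starRingEnd ℂ) (z j)))
            = ∑ i ∈ s, ∑ j ∈ s, (‖a i‖^2 / 2) * ker M (z i * (starRingEnd ℂ) (z j))
            + ∑ i ∈ s, ∑ j ∈ s, (‖a j‖^2 / 2) * ker M (z i * (starRingEnd ℂ) (z j)) := by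
            rw [← sum_add_distrib]
            exact sum_congr rfl fun i _ => sum_add_distrib
          have e2 : ∑ i ∈ s, ∑ j ∈ s, (‖a j‖^2 / 2) * ker M (z i * (starRingEnd ℂ) (z j))
            = ∑ i ∈ s, ∑ j ∈ s, (‖a i‖^2 / 2) * ker M (z i * (starRingEnd ℂ) (z j)) := by
            rw [sum_comm]
            exact sum_congr rfl fun i _ => sum_congr rfl fun j _ => by rw [hsym]
          rw [e1, e2, ← sum_add_distrib]
          refine sum_congr rfl fun i _ => ?_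
          rw [← mul_sum]; ring
      _ ≤ ∑ i ∈ s, ‖a i‖ ^ 2 * (A * (22 * (M:ℝ) ^ 2 * d i + 32 * M * N)) := by
          refine sum_le_sum fun i hi => ?_
          exact mul_le_mul_of_nonneg_left
            (schur s z hz A N (d i) hA hN (hd i hi) i hi M hMpos (hc i hi)) (by positivity)
  have hJ : (0:ℝ) < (J:ℝ) + 1 := by positivity
  have hMJ : (M:ℝ) ≤ 3 * ((J:ℝ) + 1) := by rw [hM]; push_cast; linarith
  have hfin : ((J:ℝ) + 1) * ∑ j ∈ Finset.Icc (-(J:ℤ)) J, S j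
      ≤ ((J:ℝ) + 1) * (200 * A * ∑ i ∈ s, ‖a i‖ ^ 2 * (N + (J + 1) * d i)) := by
    refine (hlow.trans hup).trans ?_
    rw [mul_sum, mul_sum]
    refine sum_le_sum fun i hi => ?_
    have hdi := hd i hi
    have hM0 : (0:ℝ) ≤ M := by positivity
    have e1 : (M:ℝ)^2 ≤ 9 * ((J:ℝ)+1)^2 := by nlinarith
    have e2 : 22 * (M:ℝ) ^ 2 * d i + 32 * M * N
        ≤ 200 * ((J:ℝ)+1) * (N + (J+1) * d i) := by
      have e3 : (M:ℝ)^2 * d i ≤ 9 * ((J:ℝ)+1)^2 * d i := mul_le_mul_of_nonneg_right e1 hdi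
      have e4 : (M:ℝ) * N ≤ 3 * ((J:ℝ)+1) * N := mul_le_mul_of_nonneg_right hMJ hN
      have e5 : 0 ≤ ((J:ℝ)+1) * N := by positivity
      have e6 : 0 ≤ ((J:ℝ)+1)^2 * d i := by positivity
      nlinarith
    calc ‖a i‖ ^ 2 * (A * (22 * (M:ℝ) ^ 2 * d i + 32 * M * N))
        ≤ ‖a i‖ ^ 2 * (A * (200 * ((J:ℝ)+1) * (N + (J+1) * d i))) :=
          mul_le_mul_of_nonneg_left (mul_le_mul_of_nonneg_left e2 hA) (by positivity)
      _ = ((J:ℝ) + 1) * (200 * A * (‖a i‖ ^ 2 * (N + (J + 1) * d i))) := by ring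
  exact le_of_mul_le_mul_left hfin hJ

end

end MRS19
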