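import Pool.Agent.Lib.MP_a17b09_nt.MRS.LSB19
import Pool.Agent.Lib.MP_a17b09_nt.MRS.Mom16

/-!
MRS (MP_a17b09): large sieve for directions in rings, weight `N + (J+1) gcd` (helper19).
-/

namespace MRS19

open Finset

noncomputable section

/-- integers in a window of real length `D` -/
lemma card_window {α : Type*} (F : Finset α) (t : α → ℤ) (ht : Set.InjOn t F) (D : ℝ) (hD : 0 ≤ D)
    (h : ∀ a ∈ F, ∀ b ∈ F, ((t a - t b : ℤ) : ℝ) ≤ D) : (F.card : ℝ) ≤ D + 1 := by
  classical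
  rcases F.eq_empty_or_nonempty with h0 | h0
  · rw [h0]; simp; linarith
  obtain ⟨b, hb, hmin⟩ := F.exists_min_image t h0
  have hmaps : ∀ a ∈ F, t a ∈ Finset.Icc (t b) (t b + ⌊D⌋) := by
    intro a ha
    rw [Finset.mem_Icc]
    refine ⟨hmin a ha, ?_⟩
    have h1 := h a ha b hb
    have h2 : t a - t b ≤ ⌊D⌋ := Int.le_floor.mpr h1
    omega
  have hc := Finset.card_le_card_of_injOn _ hmaps ht
  have h3 : (0:ℤ) ≤ ⌊D⌋ := Int.floor_nonneg.mpr hD
  rw [Int.card_Icc] at hc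
  have h4 : (t b + ⌊D⌋ + 1 - t b).toNat = (⌊D⌋ + 1).toNat := by congr 1; ring
  rw [h4] at hc
  have h5 : (((⌊D⌋ + 1).toNat : ℕ) : ℝ) = (⌊D⌋ : ℝ) + 1 := by
    rw [← Int.cast_natCast, Int.toNat_of_nonneg (by omega)]; push_cast; ring
  calc (F.card : ℝ) ≤ (((⌊D⌋ + 1).toNat : ℕ) : ℝ) := by exact_mod_cast hc
    _ = (⌊D⌋ : ℝ) + 1 := h5
    _ ≤ D + 1 := by linarith [Int.floor_le D]

/-- counting the lattice points of a ring in a narrow cone around a lattice vector -/
lemma cone_count (N B : ℝ) (hN : 1 ≤ N) (hB : 1 ≤ B) (S : Finset (ℤ × ℤ))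
    (hS : ∀ w ∈ S, N ≤ (w.1:ℝ)^2 + (w.2:ℝ)^2 ∧ (w.1:ℝ)^2 + (w.2:ℝ)^2 ≤ B * N)
    (v : ℤ × ℤ) (hv : v ∈ S) (φ : ℝ) (hφ : 0 < φ) :
    ((S.filter (fun w => ‖dir v - dir w‖ ≤ φ)).card : ℝ)
      ≤ 6 * B * ((Int.gcd v.1 v.2 : ℝ) + N * φ) := by
  classical
  have hNpos : 0 < N := by linarith
  have hne : ∀ w ∈ S, w ≠ 0 := by
    rintro w hw rfl
    have := (hS _ hw).1
    simp at this
    linarith
  have hv0 := hne v hv
  set g : ℝ := (Int.gcd v.1 v.2 : ℝ) with hg
  have hg1 : (1:ℝ) ≤ g := by rw [hg]; exact_mod_cast gcd_pos hv0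
  obtain ⟨e1, e2⟩ := eq_gcd_mul v
  set u := pr v with hu
  obtain ⟨x, y, hxy⟩ := pr_coprime hv0
  rw [← hu] at hxy
  set R := Real.sqrt (B * N) with hR
  have hBN : 0 < B * N := by positivity
  have hR2 : R ^ 2 = B * N := Real.sq_sqrt hBN.le
  have hRpos : 0 < R := Real.sqrt_pos.mpr hBN
  have hwR : ∀ w ∈ S, ‖zc w‖ ≤ R := by
    intro w hw
    rw [hR]
    apply Real.le_sqrt_of_sq_le
    rw [norm_zc_sq]; exact (hS w hw).2
  have hvpos : 0 < ‖zc v‖ := norm_pos_iff.mpr (zc_ne_zero hv0)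
  have hvN : N ≤ ‖zc v‖ ^ 2 := by rw [norm_zc_sq]; exact (hS v hv).1
  have hzu : ‖zc v‖ = g * ‖zc u‖ := by
    have h1 : zc v = ((g : ℝ) : ℂ) * zc u := by
      have f1 : (v.1:ℂ) = ((g : ℝ) : ℂ) * (u.1 : ℂ) := by rw [hg]; exact_mod_cast e1
      have f2 : (v.2:ℂ) = ((g : ℝ) : ℂ) * (u.2 : ℂ) := by rw [hg]; exact_mod_cast e2
      have f3 : zc v = (v.1:ℂ) + (v.2:ℂ) * Complex.I := rfl
      have f4 : zc u = (u.1:ℂ) + (u.2:ℂ) * Complex.I := rfl
      rw [f3, f4, f1, f2]; ring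
    rw [h1, norm_mul, Complex.norm_real, Real.norm_of_nonneg (by linarith)]
  have hupos : 0 < ‖zc u‖ := norm_pos_iff.mpr (zc_ne_zero (prim_ne_zero (pr_coprime hv0)))
  set F := S.filter (fun w => ‖dir v - dir w‖ ≤ φ) with hF
  set k : ℤ × ℤ → ℤ := fun w => u.1 * w.2 - u.2 * w.1 with hk
  set t : ℤ × ℤ → ℤ := fun w => x * w.1 + y * w.2 with ht
  -- recover `w`
  have hrec : ∀ w : ℤ × ℤ, w.1 = t w * u.1 - y * k w ∧ w.2 = t w * u.2 + x * k w := by
    intro w
    constructor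
    · simp only [hk, ht]; linear_combination (-w.1) * hxy
    · simp only [hk, ht]; linear_combination (-w.2) * hxy
  -- range of `k`
  set K := ‖zc v‖ * R * φ / g with hK
  have hK0 : 0 ≤ K := by positivity
  have hkK : ∀ w ∈ F, |((k w : ℤ) : ℝ)| ≤ K := by
    intro w hw
    rw [hF, mem_filter] at hw
    have h1 := wedge_le hv0 (hne w hw.1)
    have h2 : ((v.1 * w.2 - v.2 * w.1 : ℤ) : ℝ) = g * ((k w : ℤ) : ℝ) := by
      have f1 : (v.1:ℝ) = g * (u.1 : ℝ) := by rw [hg]; exact_mod_cast e1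
      have f2 : (v.2:ℝ) = g * (u.2 : ℝ) := by rw [hg]; exact_mod_cast e2
      simp only [hk]
      push_cast
      rw [f1, f2]; ring
    rw [h2, abs_mul, abs_of_pos (by linarith : (0:ℝ) < g)] at h1
    rw [hK, le_div_iff₀ (by linarith : (0:ℝ) < g), mul_comm]
    refine h1.trans ?_
    have h3 : ‖zc v‖ * ‖zc w‖ ≤ ‖zc v‖ * R := mul_le_mul_of_nonneg_left (hwR w hw.1) hvpos.le
    exact mul_le_mul h3 hw.2 (norm_nonneg _) (by positivity)
  -- number of values of `k`
  have himg : ((F.image k).card : ℝ) ≤ 2 * K + 1 := by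
    apply card_window (F.image k) id (fun _ _ _ _ h => h) (2 * K) (by linarith)
    intro a ha b hb
    rw [mem_image] at ha hb
    obtain ⟨a', ha', rfl⟩ := ha
    obtain ⟨b', hb', rfl⟩ := hb
    have h1 := (abs_le.mp (hkK a' ha')).2
    have h2 := (abs_le.mp (hkK b' hb')).1
    push_cast [id]
    linarith
  -- fibers
  set D := 2 * R / ‖zc u‖ with hD
  have hD0 : 0 ≤ D := by positivity
  have hfib : ∀ c ∈ F.image k, ((F.filter (fun w => k w = c)).card : ℝ) ≤ D + 1 := by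
    intro c _
    apply card_window _ t
    · intro a ha b hb hab
      simp only [coe_filter, Set.mem_ofPred_eq] at ha hb
      have ra := hrec a
      have rb := hrec b
      rw [ha.2] at ra
      rw [hb.2] at rb
      have hab' : t a = t b := hab
      rw [hab'] at ra
      exact Prod.ext (ra.1.trans rb.1.symm) (ra.2.trans rb.2.symm)
    · exact hD0
    · intro a ha b hb
      rw [mem_filter] at ha hb
      have haS := (mem_filter.mp (hF ▸ ha.1)).1
      have hbS := (mem_filter.mp (hF ▸ hb.1)).1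
      have ra := hrec a
      have rb := hrec b
      rw [ha.2] at ra
      rw [hb.2] at rb
      have h1 : zc a - zc b = (((t a - t b : ℤ) : ℝ) : ℂ) * zc u := by
        have f1 : (a.1:ℂ) = (t a : ℂ) * u.1 - y * c := by exact_mod_cast ra.1
        have f2 : (a.2:ℂ) = (t a : ℂ) * u.2 + x * c := by exact_mod_cast ra.2
        have f3 : (b.1:ℂ) = (t b : ℂ) * u.1 - y * c := by exact_mod_cast rb.1
        have f4 : (b.2:ℂ) = (t b : ℂ) * u.2 + x * c := by exact_mod_cast rb.2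
        have g1 : zc a = (a.1:ℂ) + (a.2:ℂ) * Complex.I := rfl
        have g2 : zc b = (b.1:ℂ) + (b.2:ℂ) * Complex.I := rfl
        have g3 : zc u = (u.1:ℂ) + (u.2:ℂ) * Complex.I := rfl
        rw [g1, g2, g3, f1, f2, f3, f4]; push_cast; ring
      have h2 : ‖zc a - zc b‖ ≤ 2 * R := by
        calc ‖zc a - zc b‖ ≤ ‖zc a‖ + ‖zc b‖ := norm_sub_le _ _
          _ ≤ 2 * R := by linarith [hwR a haS, hwR b hbS]
      rw [h1, norm_mul, Complex.norm_real, Real.norm_eq_abs] at h2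
      rw [hD, le_div_iff₀ hupos]
      exact (mul_le_mul_of_nonneg_right (le_abs_self _) hupos.le).trans h2
  -- total
  have htot : (F.card : ℝ) ≤ (D + 1) * (2 * K + 1) := by
    have h1 : F.card = ∑ c ∈ F.image k, (F.filter (fun w => k w = c)).card :=
      card_eq_sum_card_image k F
    rw [h1]
    push_cast
    calc ∑ c ∈ F.image k, ((F.filter (fun w => k w = c)).card : ℝ)
        ≤ ∑ c ∈ F.image k, (D + 1) := sum_le_sum hfib
      _ = (F.image k).card * (D + 1) := by rw [sum_const, nsmul_eq_mul]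
      _ ≤ (2 * K + 1) * (D + 1) := mul_le_mul_of_nonneg_right himg (by linarith)
      _ = (D + 1) * (2 * K + 1) := mul_comm _ _
  have hvR : ‖zc v‖ ≤ R := hwR v hv
  -- D K = 2 R^2 φ
  have hDK : D * K = 2 * (B * N) * φ := by
    rw [hD, hK, hzu, ← hR2]
    field_simp
  have hDb : D ≤ 2 * B * g := by
    rw [hD, div_le_iff₀ hupos]
    -- 2 R ≤ 2 B g ‖u‖ = 2 B ‖v‖
    have h1 : R ^ 2 ≤ (B * ‖zc v‖) ^ 2 := by
      rw [hR2, mul_pow]
      nlinarith [mul_le_mul_of_nonneg_left hvN (by positivity : (0:ℝ) ≤ B)]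
    have h2 : R ≤ B * ‖zc v‖ := (pow_le_pow_iff_left₀ hRpos.le (by positivity) two_ne_zero).mp h1
    rw [hzu] at h2
    nlinarith
  have hKb : K ≤ B * N * φ := by
    rw [hK, div_le_iff₀ (by linarith : (0:ℝ) < g)]
    have h1 : ‖zc v‖ * R ≤ B * N := by rw [← hR2, sq]; exact mul_le_mul_of_nonneg_right hvR hRpos.le
    have h2 : ‖zc v‖ * R * φ ≤ B * N * φ := mul_le_mul_of_nonneg_right h1 hφ.le
    have h3 : 0 ≤ B * N * φ := by positivity
    nlinarith
  have hBg : 1 ≤ B * g := by nlinarith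
  calc (F.card : ℝ) ≤ (D + 1) * (2 * K + 1) := htot
    _ = 2 * (D * K) + D + 2 * K + 1 := by ring
    _ ≤ 2 * (2 * (B * N) * φ) + 2 * B * g + 2 * (B * N * φ) + B * g := by
        rw [hDK]; linarith
    _ ≤ 6 * B * (g + N * φ) := by nlinarith

open Pool.Agent.MRS16 in
/-- **the large sieve used by the moment module** -/
theorem lsg_19 : ∃ C : ℝ, 0 ≤ C ∧ LSG C := by
  refine ⟨1200, by norm_num, ?_⟩
  intro S N B J a hN hB hS
  classical
  have hpos : ∀ v ∈ S, (v.norm : ℝ) = (v.re:ℝ)^2 + (v.im:ℝ)^2 := by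
    intro v _
    rw [Zsqrtd.norm_def]; push_cast; ring
  have hzd : ∀ v : GaussianInt, zd v = dir (v.re, v.im) := by
    intro v
    unfold zd dir zc
    rw [GaussianInt.toComplex_def]
  have hne : ∀ v ∈ S, ((v.re, v.im) : ℤ × ℤ) ≠ 0 := by
    intro v hv h
    have h1 := (hS v hv).1
    rw [hpos v hv] at h1
    rw [Prod.mk_eq_zero] at h
    rw [h.1, h.2] at h1
    norm_num at h1
    linarith
  have h := ls_abs S zd (fun v hv => by rw [hzd]; exact norm_dir (hne v hv)) (6 * B) N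
    (fun v => (Int.gcd v.re v.im : ℝ)) (by linarith) (by linarith) (fun v _ => by positivity)
    (by
      intro v hv φ hφ
      have h1 := cone_count N B hN hB (S.image (fun v => ((v.re, v.im) : ℤ × ℤ))) (by
        intro w hw
        rw [mem_image] at hw
        obtain ⟨v', hv', rfl⟩ := hw
        have := hS v' hv'
        rw [hpos v' hv'] at this
        exact this) (v.re, v.im) (mem_image_of_mem (fun v : GaussianInt => ((v.re, v.im) : ℤ × ℤ)) hv) φ hφ
      refine le_trans ?_ h1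
      have h2 : (S.filter (fun k => ‖zd v - zd k‖ ≤ φ)).card
          ≤ ((S.image (fun v => ((v.re, v.im) : ℤ × ℤ))).filter
            (fun w => ‖dir (v.re, v.im) - dir w‖ ≤ φ)).card := by
        apply Finset.card_le_card_of_injOn (fun v => ((v.re, v.im) : ℤ × ℤ))
        · intro k hk
          rw [coe_filter, Set.mem_ofPred_eq] at hk
          rw [mem_coe, mem_filter]
          refine ⟨mem_image_of_mem (fun v : GaussianInt => ((v.re, v.im) : ℤ × ℤ)) hk.1, ?_⟩
          rw [← hzd, ← hzd]; exact hk.2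
        · intro a _ b _ hab
          simp only [Prod.mk.injEq] at hab
          exact Zsqrtd.ext hab.1 hab.2
      exact_mod_cast h2) J a
  refine h.trans (le_of_eq ?_)
  ring

end

end MRS19
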