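import Pool.Agent.Lib.MP_a17b09_nt.MRS.LSG19
import Pool.Agent.Lib.MP_a17b09_nt.MRS.Stmts3

/-!
MRS (MP_a17b09): the two large sieves of `Stmts3` (helper19).
-/

namespace Pool.Agent.Lib.MP_a17b09_nt.MRS

open Finset

theorem zd_eq_ag19 (v : GaussianInt) : Pool.Agent.MRS16.zd v = ag v := rfl

theorem norm_real19 (v : GaussianInt) : (v.norm : ℝ) = (nm v : ℝ) := by
  rw [nm_eq, Zsqrtd.norm_def]; push_cast; ring

theorem stLS_19 : StLS := by
  obtain ⟨C, hC, h⟩ := MRS19.lsg_19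
  refine ⟨C + 1, by linarith, ?_⟩
  intro N B J hN hB S hS a
  have h1 := h S N B J a hN hB (fun v hv => by rw [norm_real19]; exact hS v hv)
  refine h1.trans ?_
  have h2 : 0 ≤ ∑ v ∈ S, ‖a v‖ ^ 2 * (N + (J + 1) * (Int.gcd v.re v.im : ℝ)) :=
    sum_nonneg fun v _ => by positivity
  refine mul_le_mul_of_nonneg_right ?_ h2
  have h3 : B ≤ B ^ 2 := by nlinarith
  calc C * B ≤ C * B ^ 2 := mul_le_mul_of_nonneg_left h3 hC
    _ ≤ (C + 1) * B ^ 2 := mul_le_mul_of_nonneg_right (by linarith) (by positivity)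

theorem ag_eq_dir19 (v : GaussianInt) : ag v = MRS19.dir (v.re, v.im) := by
  unfold ag MRS19.dir MRS19.zc
  rw [GaussianInt.toComplex_def]

theorem stLsp_19 : StLsp := by
  classical
  refine ⟨1600, by norm_num, ?_⟩
  intro X J hX S hS a
  set f : GaussianInt → ℤ × ℤ := fun v => (v.re, v.im) with hf
  have hinj : Set.InjOn f S := by
    intro x _ y _ hxy
    simp only [hf, Prod.mk.injEq] at hxy
    exact Zsqrtd.ext hxy.1 hxy.2
  have h := MRS19.ls_prim X hX (S.image f) (by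
    intro w hw
    rw [mem_image] at hw
    obtain ⟨v, hv, rfl⟩ := hw
    refine ⟨?_, ?_⟩
    · exact Int.isCoprime_iff_gcd_eq_one.mpr (hS v hv).1
    · have := (hS v hv).2
      rw [nm_eq] at this
      exact this) J (fun w => a ⟨w.1, w.2⟩)
  have h1 : ∀ j : ℤ, ∑ w ∈ S.image f, a ⟨w.1, w.2⟩ * MRS19.dir w ^ j = ∑ v ∈ S, a v * ag v ^ j := by
    intro j
    rw [sum_image hinj]
    exact sum_congr rfl fun v _ => by rw [ag_eq_dir19]
  have h2 : ∑ w ∈ S.image f, ‖a ⟨w.1, w.2⟩‖ ^ 2 = ∑ v ∈ S, ‖a v‖ ^ 2 := by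
    rw [sum_image hinj]
  simp_rw [h1] at h
  rw [h2] at h
  refine h.trans ?_
  have h3 : 0 ≤ ∑ v ∈ S, ‖a v‖ ^ 2 := sum_nonneg fun v _ => by positivity
  refine mul_le_mul_of_nonneg_right ?_ h3
  have h4 : (0:ℝ) ≤ J := by positivity
  linarith

end Pool.Agent.Lib.MP_a17b09_nt.MRS
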