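import Pool.Agent.Lib.MP_a17b09_nt.MRS.Circ84
import Pool.Agent.Lib.MP_a17b09_nt.CH.Defs

/-!
MRSG (MP_a17b09_nt): lattice points in ellipses: for a positive definite integral form `Q`,
`#{v : Q v ≤ t} = (2 π / √D) t + O_Q(√t + 1)`, and the same for the image of a similitude.
-/

set_option autoImplicit false

open Finset MeasureTheory

namespace Pool.Agent.Lib.MP_a17b09_nt.MRS.LatG84

open CH

/-- the integral of `√(t - β s ^ 2)` -/
theorem int_eq (t β : ℝ) (ht : 0 ≤ t) (hβ : 0 < β) :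
    ∫ s in (0 : ℝ)..√(t / β), √(t - β * s ^ 2) = Real.pi / 4 * t / √β := by
  have hs : 0 < √β := Real.sqrt_pos.2 hβ
  have h2 := intervalIntegral.integral_comp_mul_left (a := (0 : ℝ)) (b := √(t / β))
    (fun s : ℝ => √(t - s ^ 2)) hs.ne'
  rw [mul_zero] at h2
  have h3 : √β * √(t / β) = √t := by
    rw [← Real.sqrt_mul hβ.le]
    congr 1
    field_simp
  have h4 : ∀ u : ℝ, √(t - (√β * u) ^ 2) = √(t - β * u ^ 2) := by
    intro u
    rw [mul_pow, Real.sq_sqrt hβ.le]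
  rw [h3, Circ84.int_eq t ht, smul_eq_mul] at h2
  simp only [h4] at h2
  rw [h2]
  field_simp

/-- the sum of `√(t - β b ^ 2)` -/
theorem sum_bd (t : ℝ) (ht : 0 ≤ t) (β : ℝ) (hβ : 0 < β) (B : ℕ) (hB : √(t / β) ≤ B) :
    ∑ b ∈ Finset.range B, √(t - β * ((b + 1 : ℕ) : ℝ) ^ 2) ≤ Real.pi / 4 * t / √β ∧
    Real.pi / 4 * t / √β - √t ≤ ∑ b ∈ Finset.range B, √(t - β * ((b + 1 : ℕ) : ℝ) ^ 2) := by
  set f : ℝ → ℝ := fun s => √(t - β * s ^ 2) with hf
  have hanti : AntitoneOn f (Set.Icc (0 : ℝ) (0 + B)) := by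
    intro x hx y hy hxy
    rw [hf]
    simp only
    apply Real.sqrt_le_sqrt
    have : x ^ 2 ≤ y ^ 2 := pow_le_pow_left₀ hx.1 hxy 2
    nlinarith
  have hc : Continuous f := by rw [hf]; fun_prop
  have hint : ∫ s in (0 : ℝ)..(0 + B), f s = Real.pi / 4 * t / √β := by
    rw [zero_add]
    have h1 : ∫ s in (√(t / β))..(B : ℝ), f s = 0 := by
      have h2 : ∀ s ∈ Set.uIcc (√(t / β)) (B : ℝ), f s = 0 := by
        intro s hs
        rw [Set.uIcc_of_le hB] at hs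
        rw [hf]
        simp only
        apply Real.sqrt_eq_zero_of_nonpos
        have h3 : (√(t / β)) ^ 2 ≤ s ^ 2 := pow_le_pow_left₀ (Real.sqrt_nonneg _) hs.1 2
        rw [Real.sq_sqrt (by positivity), div_le_iff₀ hβ] at h3
        linarith
      rw [intervalIntegral.integral_congr (g := fun _ => (0 : ℝ)) h2]
      simp
    rw [← intervalIntegral.integral_add_adjacent_intervals (b := √(t / β))
      (hc.intervalIntegrable _ _) (hc.intervalIntegrable _ _), h1, add_zero, int_eq _ _ ht hβ]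
  have h1 := hanti.sum_le_integral
  have h2 := hanti.integral_le_sum
  rw [hint] at h1 h2
  simp only [zero_add] at h1 h2
  refine ⟨h1, ?_⟩
  have h3 : ∑ i ∈ Finset.range B, f (i : ℝ) =
      ∑ b ∈ Finset.range B, f ((b + 1 : ℕ) : ℝ) + f ((0 : ℕ) : ℝ) - f ((B : ℕ) : ℝ) := by
    have h4 := Finset.sum_range_succ' (fun i : ℕ => f (i : ℝ)) B
    have h5 := Finset.sum_range_succ (fun i : ℕ => f (i : ℝ)) B
    linarith
  rw [h3] at h2
  have h4 : f ((0 : ℕ) : ℝ) = √t := by rw [hf]; simp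
  have h5 : 0 ≤ f ((B : ℕ) : ℝ) := by rw [hf]; positivity
  rw [h4] at h2
  have h6 : ∑ b ∈ Finset.range B, f ((b + 1 : ℕ) : ℝ) =
      ∑ b ∈ Finset.range B, √(t - β * ((b + 1 : ℕ) : ℝ) ^ 2) := rfl
  rw [h6] at h2
  linarith

/-- integers in an interval -/
theorem card_int (S : Finset ℤ) (c r : ℝ) (hr : 0 ≤ r)
    (hS : ∀ x : ℤ, x ∈ S ↔ |(x : ℝ) - c| ≤ r) : |((S.card : ℕ) : ℝ) - 2 * r| ≤ 1 := by
  have h1 : S = Finset.Icc ⌈c - r⌉ ⌊c + r⌋ := by
    ext x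
    rw [hS, Finset.mem_Icc, Int.ceil_le, Int.le_floor, abs_le]
    constructor
    · rintro ⟨h, h'⟩; exact ⟨by linarith, by linarith⟩
    · rintro ⟨h, h'⟩; exact ⟨by linarith, by linarith⟩
  rw [h1, Int.card_Icc]
  have a1 := Int.ceil_lt_add_one (c - r)
  have a2 := Int.le_ceil (c - r)
  have a3 := Int.floor_le (c + r)
  have a4 := Int.lt_floor_add_one (c + r)
  have h2 : 0 ≤ ⌊c + r⌋ + 1 - ⌈c - r⌉ := by
    have h3 : ((⌈c - r⌉ : ℤ) : ℝ) < ((⌊c + r⌋ + 2 : ℤ) : ℝ) := by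
      push_cast
      linarith
    have h4 : ⌈c - r⌉ < ⌊c + r⌋ + 2 := by exact_mod_cast h3
    omega
  have h5 : (((⌊c + r⌋ + 1 - ⌈c - r⌉).toNat : ℕ) : ℝ) = (⌊c + r⌋ : ℝ) + 1 - (⌈c - r⌉ : ℝ) := by
    have h6 : (((⌊c + r⌋ + 1 - ⌈c - r⌉).toNat : ℕ) : ℤ) = ⌊c + r⌋ + 1 - ⌈c - r⌉ :=
      Int.toNat_of_nonneg h2
    have h7 := congrArg (fun t : ℤ => (t : ℝ)) h6
    push_cast at h7
    exact h7
  rw [h5, abs_le]
  constructor <;> linarith

/-- a line of the ellipse -/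
theorem line (Q : Form) (hQ : Q.Pos) (N : ℕ) (y : ℤ) :
    |(((Q.ball N).filter (fun v => v.2 = y)).card : ℝ) -
      2 * √(((N : ℝ) - (Q.D : ℝ) / (4 * Q.a) * (y : ℝ) ^ 2) / Q.a)| ≤ 1 := by
  classical
  have ha : (0 : ℝ) < Q.a := by exact_mod_cast hQ.1
  set β : ℝ := (Q.D : ℝ) / (4 * Q.a) with hβ
  set S : Finset ℤ := ((Q.ball N).filter (fun v => v.2 = y)).image Prod.fst with hS
  have hcard : ((Q.ball N).filter (fun v => v.2 = y)).card = S.card := by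
    rw [hS, Finset.card_image_of_injOn]
    intro v hv w hw h
    rw [Finset.mem_coe, Finset.mem_filter] at hv hw
    exact Prod.ext h (hv.2.trans hw.2.symm)
  have hmem : ∀ x : ℤ, x ∈ S ↔ Q.q (x, y) ≤ N := by
    intro x
    rw [hS, Finset.mem_image]
    constructor
    · rintro ⟨v, hv, rfl⟩
      rw [Finset.mem_filter, Form.mem_ball hQ] at hv
      rw [← hv.2]
      exact hv.1
    · intro h
      exact ⟨(x, y), by rw [Finset.mem_filter, Form.mem_ball hQ]; exact ⟨h, rfl⟩, rfl⟩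
  have hq : ∀ x : ℤ, ((Q.q (x, y) : ℤ) : ℝ) =
      Q.a * ((x : ℝ) - (-(Q.b * y) / (2 * Q.a))) ^ 2 + β * (y : ℝ) ^ 2 := by
    intro x
    rw [hβ]
    unfold Form.q Form.D
    push_cast
    field_simp
    ring
  rw [hcard]
  rcases le_or_gt (β * (y : ℝ) ^ 2) N with h | h
  · apply card_int S (-(Q.b * y) / (2 * Q.a)) _ (Real.sqrt_nonneg _)
    intro x
    rw [hmem]
    have h1 : (Q.q (x, y) ≤ (N : ℤ)) ↔ ((Q.q (x, y) : ℤ) : ℝ) ≤ (N : ℝ) := by
      constructor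
      · intro h2; exact_mod_cast h2
      · intro h2; exact_mod_cast h2
    rw [h1, hq, ← Real.sqrt_sq_eq_abs]
    rw [Real.sqrt_le_sqrt_iff (div_nonneg (by linarith) ha.le), le_div_iff₀ ha]
    constructor
    · intro h2; linarith
    · intro h2; linarith
  · have h2 : S = ∅ := by
      rw [Finset.eq_empty_iff_forall_notMem]
      intro x hx
      rw [hmem] at hx
      have h3 : ((Q.q (x, y) : ℤ) : ℝ) ≤ (N : ℝ) := by exact_mod_cast hx
      rw [hq] at h3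
      have h4 : 0 ≤ Q.a * ((x : ℝ) - (-(Q.b * y) / (2 * Q.a))) ^ 2 := by positivity
      linarith
    rw [h2]
    have h3 : √(((N : ℝ) - β * (y : ℝ) ^ 2) / Q.a) = 0 := by
      apply Real.sqrt_eq_zero_of_nonpos
      exact div_nonpos_of_nonpos_of_nonneg (by linarith) ha.le
    rw [h3]
    simp

/-- area of the unit ellipse -/
noncomputable def kap (Q : Form) : ℝ := 2 * Real.pi / √(Q.D : ℝ)

theorem kap_pos {Q : Form} (hQ : Q.Pos) : 0 < kap Q := by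
  unfold kap
  have : (0 : ℝ) < Q.D := by exact_mod_cast hQ.2
  positivity

/-- **lattice points in an ellipse**, explicit constant -/
theorem lat_ex (Q : Form) (hQ : Q.Pos) (N : ℕ) :
    |((Q.ball N).card : ℝ) - kap Q * N| ≤
      (3 + 2 / √((Q.D : ℝ) / (4 * Q.a)) + 10 / √(Q.a : ℝ)) * (√(N : ℝ) + 1) := by
  classical
  have ha : (0 : ℝ) < Q.a := by exact_mod_cast hQ.1
  have hD : (0 : ℝ) < Q.D := by exact_mod_cast hQ.2
  set β : ℝ := (Q.D : ℝ) / (4 * Q.a) with hβ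
  have hβ0 : 0 < β := by positivity
  have hN : (0 : ℝ) ≤ N := Nat.cast_nonneg N
  set Y : ℕ := ⌈√((N : ℝ) / β)⌉₊ with hY
  have hYle : √((N : ℝ) / β) ≤ Y := Nat.le_ceil _
  have hYlt : (Y : ℝ) < √((N : ℝ) / β) + 1 := Nat.ceil_lt_add_one (Real.sqrt_nonneg _)
  -- fibres
  have hfib : (Q.ball N).card = ∑ y ∈ Finset.Icc (-(Y : ℤ)) Y,
      ((Q.ball N).filter (fun v => v.2 = y)).card := by
    rw [← Finset.card_eq_sum_card_fiberwise]
    intro v hv
    rw [Finset.mem_coe, Form.mem_ball hQ] at hv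
    rw [Finset.mem_coe, Finset.mem_Icc]
    have h1 : 4 * (Q.a : ℝ) * ((Q.q v : ℤ) : ℝ) =
        (2 * Q.a * v.1 + Q.b * v.2) ^ 2 + Q.D * (v.2 : ℝ) ^ 2 := by
      unfold Form.q Form.D
      push_cast
      ring
    have h2 : ((Q.q v : ℤ) : ℝ) ≤ N := by exact_mod_cast hv
    have h3 : (v.2 : ℝ) ^ 2 ≤ (N : ℝ) / β := by
      rw [le_div_iff₀ hβ0, hβ, mul_div_assoc', div_le_iff₀ (by positivity)]
      nlinarith [sq_nonneg (2 * (Q.a : ℝ) * v.1 + Q.b * v.2)]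
    have h4 : |(v.2 : ℝ)| ≤ √((N : ℝ) / β) := Real.abs_le_sqrt h3
    have h5 : |(v.2 : ℝ)| ≤ Y := h4.trans hYle
    have h6 : |v.2| ≤ (Y : ℤ) := by exact_mod_cast h5
    exact abs_le.1 h6
  -- the sum of the main terms
  set f : ℤ → ℝ := fun y => 2 * √(((N : ℝ) - β * (y : ℝ) ^ 2) / Q.a) with hf
  have hsplit : ∀ n : ℕ, ∑ b ∈ Finset.Icc (-(n : ℤ)) n, f b =
      f 0 + 2 * ∑ b ∈ Finset.range n, f ((b + 1 : ℕ) : ℤ) := by
    intro n
    induction n with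
    | zero => simp
    | succ n ih =>
      have h1 : Finset.Icc (-((n + 1 : ℕ) : ℤ)) ((n + 1 : ℕ) : ℤ) =
          insert (-((n + 1 : ℕ) : ℤ)) (insert ((n + 1 : ℕ) : ℤ) (Finset.Icc (-(n : ℤ)) n)) := by
        ext a
        simp only [Finset.mem_insert, Finset.mem_Icc]
        push_cast
        omega
      rw [h1, Finset.sum_insert, Finset.sum_insert, ih, Finset.sum_range_succ]
      · have h2 : f (-((n + 1 : ℕ) : ℤ)) = f ((n + 1 : ℕ) : ℤ) := by
          rw [hf]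
          simp only
          push_cast
          rw [neg_sq]
        rw [h2]
        ring
      · simp only [Finset.mem_Icc]
        push_cast
        omega
      · simp only [Finset.mem_insert, Finset.mem_Icc]
        push_cast
        omega
  have hmain := hsplit Y
  obtain ⟨s1, s2⟩ := sum_bd (N : ℝ) hN β hβ0 Y hYle
  have hsa : 0 < √(Q.a : ℝ) := Real.sqrt_pos.2 ha
  have hf1 : ∀ b : ℕ, f ((b + 1 : ℕ) : ℤ) =
      2 / √(Q.a : ℝ) * √((N : ℝ) - β * ((b + 1 : ℕ) : ℝ) ^ 2) := by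
    intro b
    rw [hf]
    simp only
    rw [Real.sqrt_div' _ ha.le]
    push_cast
    ring
  have hf0 : f 0 = 2 / √(Q.a : ℝ) * √(N : ℝ) := by
    rw [hf]
    simp only
    rw [Real.sqrt_div' _ ha.le]
    push_cast
    simp
    ring
  simp only [hf1, ← Finset.mul_sum] at hmain
  rw [hf0] at hmain
  set T : ℝ := ∑ b ∈ Finset.range Y, √((N : ℝ) - β * ((b + 1 : ℕ) : ℝ) ^ 2) with hT
  have hkap : kap Q * N = 2 / √(Q.a : ℝ) * (2 * (Real.pi / 4 * N / √β)) * 1 := by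
    unfold kap
    have h1 : √(Q.D : ℝ) = 2 * (√(Q.a : ℝ) * √β) := by
      rw [← Real.sqrt_mul ha.le, hβ]
      have h2 : (Q.a : ℝ) * (Q.D / (4 * Q.a)) = Q.D / 2 ^ 2 := by field_simp; norm_num
      rw [h2, Real.sqrt_div' _ (by positivity), Real.sqrt_sq (by norm_num)]
      ring
    rw [h1]
    field_simp
    ring
  -- compare
  have hcmp : |((Q.ball N).card : ℝ) - ∑ b ∈ Finset.Icc (-(Y : ℤ)) Y, f b| ≤
      2 * Y + 1 := by
    rw [hfib]
    push_cast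
    rw [← Finset.sum_sub_distrib]
    calc _ ≤ ∑ y ∈ Finset.Icc (-(Y : ℤ)) Y,
          |(((Q.ball N).filter (fun v => v.2 = y)).card : ℝ) - f y| :=
          Finset.abs_sum_le_sum_abs _ _
      _ ≤ ∑ _y ∈ Finset.Icc (-(Y : ℤ)) Y, (1 : ℝ) :=
          Finset.sum_le_sum fun y _ => line Q hQ N y
      _ = 2 * Y + 1 := by
          rw [Finset.sum_const, Int.card_Icc, nsmul_eq_mul, mul_one]
          have h1 : ((Y : ℤ) + 1 - -(Y : ℤ)).toNat = 2 * Y + 1 := by omega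
          rw [h1]
          push_cast
          ring
  rw [hmain] at hcmp
  rw [hkap]
  rw [abs_le] at hcmp ⊢
  have hk : 0 < 2 / √(Q.a : ℝ) := by positivity
  have hsN : 0 ≤ √(N : ℝ) := Real.sqrt_nonneg _
  have hY2 : √((N : ℝ) / β) = √(N : ℝ) / √β := Real.sqrt_div hN β
  rw [hY2] at hYlt
  set A : ℝ := 2 / √(Q.a : ℝ) with hA
  set P : ℝ := Real.pi / 4 * N / √β with hP
  have h10 : 10 / √(Q.a : ℝ) = 5 * A := by rw [hA]; ring
  have h11 : √(N : ℝ) / √β = 1 / √β * √(N : ℝ) := by ring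
  have h12 : 2 / √β = 2 * (1 / √β) := by ring
  have h13 : 0 < 1 / √β := by
    have := Real.sqrt_pos.2 hβ0
    positivity
  rw [h10, h12]
  rw [h11] at hYlt
  set G : ℝ := 1 / √β with hG
  have e1 : A * T ≤ A * P := mul_le_mul_of_nonneg_left s1 hk.le
  have e2 : A * (P - √(N : ℝ)) ≤ A * T := mul_le_mul_of_nonneg_left s2 hk.le
  have e3 : 0 ≤ A * √(N : ℝ) := mul_nonneg hk.le hsN
  have e4 : 0 ≤ G * √(N : ℝ) := mul_nonneg h13.le hsN
  constructor
  · nlinarith [hcmp.1]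
  · nlinarith [hcmp.2]

/-- **lattice points in an ellipse** -/
theorem lat (Q : Form) (hQ : Q.Pos) : ∃ C : ℝ, 0 < C ∧ ∀ N : ℕ,
    |((Q.ball N).card : ℝ) - kap Q * N| ≤ C * (√(N : ℝ) + 1) := by
  have ha : (0 : ℝ) < Q.a := by exact_mod_cast hQ.1
  have hD : (0 : ℝ) < Q.D := by exact_mod_cast hQ.2
  exact ⟨3 + 2 / √((Q.D : ℝ) / (4 * Q.a)) + 10 / √(Q.a : ℝ), by positivity, lat_ex Q hQ⟩

/-- a similitude: `Q (A u) = m Q' u` -/
theorem card_img (Q Q' : Form) (hQ' : Q'.Pos) (A : Mat) (m : ℕ) (hm : 0 < m)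
    (hA : A.det ≠ 0) (hs : ∀ u, Q.q (A.app u) = m * Q'.q u) (S : Finset V) (N : ℕ)
    (hS : ∀ v, v ∈ S ↔ Q.q v ≤ N ∧ ∃ u, v = A.app u) : S.card = (Q'.ball (N / m)).card := by
  classical
  have key : ∀ u : V, Q.q (A.app u) ≤ N ↔ Q'.q u ≤ ((N / m : ℕ) : ℤ) := by
    intro u
    obtain ⟨k, hk⟩ := Int.eq_ofNat_of_zero_le (hQ'.q_nonneg u)
    rw [hs, hk]
    norm_cast
    rw [Nat.le_div_iff_mul_le hm, mul_comm]
  symm
  apply Finset.card_nbij A.app
  · intro u hu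
    rw [Finset.mem_coe, Form.mem_ball hQ'] at hu
    rw [Finset.mem_coe, hS]
    exact ⟨(key u).2 hu, u, rfl⟩
  · intro u _ w _ h
    unfold Mat.app at h
    rw [Prod.mk.injEq] at h
    have h1 : A.det * (u.1 - w.1) = 0 := by
      unfold Mat.det
      linear_combination A.d * h.1 - A.b * h.2
    have h2 : A.det * (u.2 - w.2) = 0 := by
      unfold Mat.det
      linear_combination A.a * h.2 - A.c * h.1
    have h3 : u.1 - w.1 = 0 := (mul_eq_zero.1 h1).resolve_left hA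
    have h4 : u.2 - w.2 = 0 := (mul_eq_zero.1 h2).resolve_left hA
    exact Prod.ext (by linarith) (by linarith)
  · intro v hv
    rw [Finset.mem_coe, hS] at hv
    obtain ⟨h1, u, rfl⟩ := hv
    refine ⟨u, ?_, rfl⟩
    rw [Finset.mem_coe, Form.mem_ball hQ']
    exact (key u).1 h1

/-- the count of the image of a similitude -/
theorem img_bd (Q Q' : Form) (hQ : Q.Pos) (hQ' : Q'.Pos) (hD : Q.D = Q'.D) (C : ℝ)
    (hC : ∀ N : ℕ, |((Q'.ball N).card : ℝ) - kap Q' * N| ≤ C * (√(N : ℝ) + 1))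
    (A : Mat) (m : ℕ) (hm : 0 < m)
    (hA : A.det ≠ 0) (hs : ∀ u, Q.q (A.app u) = m * Q'.q u) (S : Finset V) (N : ℕ)
    (hS : ∀ v, v ∈ S ↔ Q.q v ≤ N ∧ ∃ u, v = A.app u) :
    |(S.card : ℝ) - kap Q * (N / m)| ≤ |C| * (√((N : ℝ) / m) + 1) + kap Q := by
  rw [card_img Q Q' hQ' A m hm hA hs S N hS]
  have h1 := hC (N / m)
  have hkk : kap Q' = kap Q := by
    unfold kap
    rw [hD]
  rw [hkk] at h1
  have hk := kap_pos hQ
  have hmr : (0 : ℝ) < m := by exact_mod_cast hm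
  have h2 : (((N / m : ℕ) : ℝ)) ≤ (N : ℝ) / m := Nat.cast_div_le
  have h3 : (N : ℝ) / m - 1 ≤ ((N / m : ℕ) : ℝ) := by
    have h4 : (N : ℝ) / m < ((N / m : ℕ) : ℝ) + 1 := by
      rw [div_lt_iff₀ hmr]
      have h5 := Nat.lt_div_mul_add (a := N) hm
      have h6 : (N : ℝ) < (N / m : ℕ) * m + m := by exact_mod_cast h5
      linarith
    linarith
  have h4 : √(((N / m : ℕ) : ℝ)) ≤ √((N : ℝ) / m) := Real.sqrt_le_sqrt h2
  have h5 : C * (√(((N / m : ℕ) : ℝ)) + 1) ≤ |C| * (√((N : ℝ) / m) + 1) := by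
    have h6 : 0 ≤ √(((N / m : ℕ) : ℝ)) := Real.sqrt_nonneg _
    calc C * (√(((N / m : ℕ) : ℝ)) + 1) ≤ |C| * (√(((N / m : ℕ) : ℝ)) + 1) :=
          mul_le_mul_of_nonneg_right (le_abs_self C) (by linarith)
      _ ≤ _ := mul_le_mul_of_nonneg_left (by linarith) (abs_nonneg C)
  rw [abs_le] at h1 ⊢
  constructor
  · nlinarith [h1.1, mul_le_mul_of_nonneg_left h3 hk.le, mul_le_mul_of_nonneg_left h2 hk.le]
  · nlinarith [h1.2, mul_le_mul_of_nonneg_left h2 hk.le, mul_le_mul_of_nonneg_left h3 hk.le]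

end Pool.Agent.Lib.MP_a17b09_nt.MRS.LatG84
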