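import Pool.Agent.Lib.MP_a17b09_nt.MRS.Four90
import Pool.Agent.Lib.MP_a17b09_nt.CH.One26
import Pool.Agent.Lib.MP_a17b09_nt.CH.Mg28
import Pool.Agent.Lib.MP_a17b09_nt.CH.Svu28
import Pool.Agent.Lib.MP_a17b09_nt.CH.Red63
import Pool.Agent.Lib.MP_a17b09_nt.CH.Cl90

/-!
Project CH / MRS, glue: the mean square of a local sum over the angle is bounded by the mean square
of the shell sums over the small frequencies.
-/

set_option autoImplicit false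

open Filter Topology Finset

namespace Pool.Agent.Lib.MP_a17b09_nt.MRS

open Pool.Agent.Lib.MP_a17b09_nt.CH Pool.Agent.Lib.MP_a17b09_nt.CH.PE
open Pool.Agent.Lib.MP_a17b09_nt.CH.One26 Four90

/-- the unit vector of `v` -/
noncomputable def uv (Q : Form) (v : V) : ℂ := tq Q v / ((‖tq Q v‖ : ℝ) : ℂ)

/-- the shell sum -/
noncomputable def Msh (Q : Form) (g : V → ℂ) (r1 r2 : ℝ) (n : ℕ) (j : ℤ) : ℂ :=
  (1 / (n : ℂ)) * ∑ v ∈ (Q.ball ⌊r2 * n⌋₊).filter (fun v => r1 * n < Q.q v), g v * uv Q v ^ j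

namespace Loc90

/-- rotation, with the angle of the vector -/
theorem rot' {Q : Form} (hQ : Q.Pos) (G : ℝ → ℝ → ℝ) (L : ℝ) {x : ℝ} (hx : 0 < x) (v : V) (θ : ℝ) :
    lx Q x θ v = Q.nr x v * Real.cos (Complex.arg (tq Q v) - θ) ∧
    ly Q x θ v = x * Q.nr x v * Real.sin (Complex.arg (tq Q v) - θ) ∧
    G (lx Q x θ v) (ly Q x θ v / L) = H G L x (Q.nr x v) (Complex.arg (tq Q v) - θ) := by
  have hn : ‖tq Q v‖ = √(Q.q v : ℝ) := by
    rw [← Real.sqrt_sq (norm_nonneg (tq Q v)), Complex.sq_norm, Complex.normSq_apply,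
      ← tq_q70 hQ v]
    congr 1
    ring
  have hs : 0 < √x := Real.sqrt_pos.2 hx
  have hnr : Q.nr x v = √(Q.q v : ℝ) / √x := by
    unfold Form.nr
    rw [Real.sqrt_div']
    exact hx.le
  have hre : (tq Q v).re = √(Q.q v : ℝ) * Real.cos (Complex.arg (tq Q v)) := by
    rw [← hn, Complex.norm_mul_cos_arg]
  have him : (tq Q v).im = √(Q.q v : ℝ) * Real.sin (Complex.arg (tq Q v)) := by
    rw [← hn, Complex.norm_mul_sin_arg]
  have h1 : lx Q x θ v = Q.nr x v * Real.cos (Complex.arg (tq Q v) - θ) := by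
    rw [lx_eq90, hre, him, hnr, Real.cos_sub]
    field_simp
  have h2 : ly Q x θ v = x * Q.nr x v * Real.sin (Complex.arg (tq Q v) - θ) := by
    rw [ly_eq90, hre, him, hnr, Real.sin_sub]
    have hxx : x = √x * √x := (Real.mul_self_sqrt hx.le).symm
    have : x * (√(Q.q v : ℝ) / √x) = √x * √(Q.q v : ℝ) := by
      nth_rewrite 1 [hxx]
      field_simp
    rw [this]
    ring
  refine ⟨h1, h2, ?_⟩
  unfold H
  rw [h1, h2]

theorem H_per (G : ℝ → ℝ → ℝ) (L x ρ ψ : ℝ) : H G L x ρ (ψ + 2 * Real.pi) = H G L x ρ ψ := by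
  unfold H
  rw [Real.cos_add_two_pi, Real.sin_add_two_pi]

/-- the coefficient of the kernel -/
noncomputable def hc (G : ℝ → ℝ → ℝ) (L x ρ : ℝ) (j : ℤ) : ℂ :=
  (1 / (2 * Real.pi) : ℂ) * ∫ ψ in (-Real.pi)..Real.pi,
    Complex.exp ((j : ℂ) * ψ * Complex.I) * ((H G L x ρ ψ : ℝ) : ℂ)

theorem fc_H {G : ℝ → ℝ → ℝ} (L x ρ α : ℝ) (j : ℤ) :
    fc (fun θ => ((H G L x ρ (α - θ) : ℝ) : ℂ)) j =
      Complex.exp (-((j : ℂ) * α * Complex.I)) * hc G L x ρ j := by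
  unfold fc hc
  have hper : Function.Periodic (fun ψ : ℝ =>
      Complex.exp ((j : ℂ) * ψ * Complex.I) * ((H G L x ρ ψ : ℝ) : ℂ)) (2 * Real.pi) := by
    intro ψ
    show Complex.exp ((j : ℂ) * ((ψ + 2 * Real.pi : ℝ) : ℂ) * Complex.I) *
      ((H G L x ρ (ψ + 2 * Real.pi) : ℝ) : ℂ) = _
    rw [H_per]
    congr 1
    have : (j : ℂ) * ((ψ + 2 * Real.pi : ℝ) : ℂ) * Complex.I =
        (j : ℂ) * ψ * Complex.I + (j : ℂ) * (2 * Real.pi * Complex.I) := by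
      push_cast; ring
    rw [this, Complex.exp_add, Complex.exp_int_mul_two_pi_mul_I, mul_one]
  have e1 : ∫ θ in (0 : ℝ)..(2 * Real.pi), Complex.exp (-((j : ℂ) * θ * Complex.I)) *
      ((H G L x ρ (α - θ) : ℝ) : ℂ) = Complex.exp (-((j : ℂ) * α * Complex.I)) *
      ∫ θ in (0 : ℝ)..(2 * Real.pi), Complex.exp ((j : ℂ) * ((α - θ : ℝ) : ℂ) * Complex.I) *
        ((H G L x ρ (α - θ) : ℝ) : ℂ) := by
    rw [← intervalIntegral.integral_const_mul]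
    apply intervalIntegral.integral_congr
    intro θ _
    show Complex.exp (-((j : ℂ) * θ * Complex.I)) * ((H G L x ρ (α - θ) : ℝ) : ℂ) =
      Complex.exp (-((j : ℂ) * α * Complex.I)) *
      (Complex.exp ((j : ℂ) * ((α - θ : ℝ) : ℂ) * Complex.I) * ((H G L x ρ (α - θ) : ℝ) : ℂ))
    rw [← mul_assoc, ← Complex.exp_add]
    congr 2
    push_cast
    ring
  rw [e1, intervalIntegral.integral_comp_sub_left (fun ψ : ℝ =>
    Complex.exp ((j : ℂ) * ψ * Complex.I) * ((H G L x ρ ψ : ℝ) : ℂ)) α]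
  have e2 : ∫ ψ in (α - 2 * Real.pi)..(α - 0), Complex.exp ((j : ℂ) * ψ * Complex.I) *
      ((H G L x ρ ψ : ℝ) : ℂ) = ∫ ψ in (-Real.pi)..Real.pi,
      Complex.exp ((j : ℂ) * ψ * Complex.I) * ((H G L x ρ ψ : ℝ) : ℂ) := by
    have := hper.intervalIntegral_add_eq (α - 2 * Real.pi) (-Real.pi)
    rw [show α - 2 * Real.pi + 2 * Real.pi = α - 0 by ring,
      show -Real.pi + 2 * Real.pi = Real.pi by ring] at this
    exact this
  rw [e2]
  ring

/-- size of the coefficient of the kernel -/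
theorem hc_le {B : ℝ} {G : ℝ → ℝ → ℝ} (hB : 1 ≤ B) (hS : Sup B G) (hlip : Lip G) {M : ℝ}
    (hM : ∀ x y, |G x y| ≤ M) {L x ρ : ℝ} (hL : 1 ≤ L) (hx : B ^ 2 * L ≤ x) (hρ : 0 ≤ ρ)
    (j : ℤ) : ‖hc G L x ρ j‖ ≤ M * B ^ 2 * L / x := by
  have hpi := Real.pi_pos
  have hB0 : 0 < B := by linarith
  have hL0 : 0 < L := by linarith
  have hx0 : 0 < x := lt_of_lt_of_le (by positivity) hx
  have hM0 : 0 ≤ M := (abs_nonneg _).trans (hM 0 0)
  have ht : 2 * B ^ 2 * L / x ≤ 2 := by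
    rw [div_le_iff₀ hx0]
    linarith
  have hcont := H_cont hlip L x ρ
  have h1 := int_small (F := fun ψ => |H G L x ρ ψ|) hcont.abs (t := 2 * B ^ 2 * L / x) (M := M)
    (by positivity) (by linarith [Real.pi_gt_three])
    (fun θ _ => by rw [abs_abs]; exact hM _ _) (fun θ h1 h2 => by
      by_contra h3
      have h4 : H G L x ρ θ ≠ 0 := fun h0 => h3 (by show |H G L x ρ θ| = 0; rw [h0, abs_zero])
      have := (supp hB hS hL hx hρ h2 h4).1
      linarith)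
  have h2 : ‖∫ ψ in (-Real.pi)..Real.pi,
      Complex.exp ((j : ℂ) * ψ * Complex.I) * ((H G L x ρ ψ : ℝ) : ℂ)‖ ≤
      ∫ ψ in (-Real.pi)..Real.pi, |H G L x ρ ψ| := by
    refine (intervalIntegral.norm_integral_le_integral_norm (by linarith)).trans (le_of_eq ?_)
    apply intervalIntegral.integral_congr
    intro ψ _
    show ‖Complex.exp ((j : ℂ) * ψ * Complex.I) * ((H G L x ρ ψ : ℝ) : ℂ)‖ = |H G L x ρ ψ|
    rw [norm_mul, Complex.norm_real, Real.norm_eq_abs]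
    have h3 : ‖Complex.exp ((j : ℂ) * ψ * Complex.I)‖ = 1 := by
      rw [show (j : ℂ) * ψ * Complex.I = ((j * ψ : ℝ) : ℂ) * Complex.I by push_cast; ring]
      exact Complex.norm_exp_ofReal_mul_I _
    rw [h3, one_mul]
  unfold hc
  have h7 : ‖(1 / (2 * Real.pi) : ℂ)‖ = 1 / (2 * Real.pi) := by
    rw [norm_div, norm_one, norm_mul, Complex.norm_real, Real.norm_eq_abs, abs_of_pos hpi]
    simp
  rw [norm_mul, h7]
  have h3 := (le_abs_self _).trans h1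
  calc 1 / (2 * Real.pi) * ‖∫ ψ in (-Real.pi)..Real.pi,
      Complex.exp ((j : ℂ) * ψ * Complex.I) * ((H G L x ρ ψ : ℝ) : ℂ)‖
      ≤ 1 / (2 * Real.pi) * (M * (2 * (2 * B ^ 2 * L / x))) :=
        mul_le_mul_of_nonneg_left (h2.trans h3) (by positivity)
    _ = M * B ^ 2 * L / x * (2 / Real.pi) := by field_simp
    _ ≤ M * B ^ 2 * L / x * 1 := by
        apply mul_le_mul_of_nonneg_left _ (by positivity)
        rw [div_le_one hpi]
        linarith [Real.pi_gt_three]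
    _ = _ := mul_one _

theorem hc_zero {B : ℝ} {G : ℝ → ℝ → ℝ} (hB : 1 ≤ B) (hS : Sup B G) (L x : ℝ) (j : ℤ) :
    hc G L x 0 j = 0 := by
  have h0 : ∀ ψ, H G L x 0 ψ = 0 := by
    intro ψ
    unfold H
    by_contra h
    have := (hS _ _ h).1
    rw [zero_mul] at this
    have h1 : 0 < 1 / B := by positivity
    linarith
  unfold hc
  simp [h0]

/-- the index of the shell -/
noncomputable def idx (Q : Form) (κ x : ℝ) (v : V) : ℕ := ⌈Q.nr x v / κ⌉₊ - 1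

theorem nr_pos {Q : Form} (hQ : Q.Pos) {x : ℝ} (hx : 0 < x) {v : V} (hv : v ≠ 0) :
    0 < Q.nr x v := by
  unfold Form.nr
  apply Real.sqrt_pos.2
  apply div_pos _ hx
  exact_mod_cast hQ.q_pos hv

theorem idx_eq {Q : Form} (hQ : Q.Pos) {κ x : ℝ} (hκ : 0 < κ) (hx : 0 < x) {v : V} (hv : v ≠ 0)
    (i : ℕ) : idx Q κ x v = i ↔ (i : ℝ) * κ < Q.nr x v ∧ Q.nr x v ≤ ((i : ℝ) + 1) * κ := by
  have h0 : 0 < Q.nr x v / κ := div_pos (nr_pos hQ hx hv) hκ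
  have h1 : 0 < ⌈Q.nr x v / κ⌉₊ := Nat.ceil_pos.2 h0
  have h2 : idx Q κ x v = i ↔ ⌈Q.nr x v / κ⌉₊ = i + 1 := by
    unfold idx
    omega
  rw [h2, Nat.ceil_eq_iff (by omega)]
  push_cast
  rw [lt_div_iff₀ hκ, div_le_iff₀ hκ]

theorem idx_spec {Q : Form} (hQ : Q.Pos) {κ x : ℝ} (hκ : 0 < κ) (hx : 0 < x) {v : V} (hv : v ≠ 0) :
    (idx Q κ x v : ℝ) * κ < Q.nr x v ∧ Q.nr x v ≤ ((idx Q κ x v : ℝ) + 1) * κ :=
  (idx_eq hQ hκ hx hv _).1 rfl

theorem nr_sq {Q : Form} (hQ : Q.Pos) {x : ℝ} (hx : 0 < x) (v : V) :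
    Q.nr x v ^ 2 = (Q.q v : ℝ) / x := by
  unfold Form.nr
  rw [Real.sq_sqrt]
  apply div_nonneg _ hx.le
  exact_mod_cast hQ.q_nonneg v

/-- comparison of the kernels of close radii -/
theorem H_close {Q : Form} (hQ : Q.Pos) {B CG : ℝ} {G : ℝ → ℝ → ℝ} (hB : 1 ≤ B) (hS : Sup B G)
    (hCG : 0 ≤ CG) (hLip : ∀ x y x' y', |G x y - G x' y'| ≤ CG * (|x - x'| + |y - y'|))
    {L x κ : ℝ} (hL : 1 ≤ L) (hx : 0 < x) (hκ : 0 < κ) (hκB : κ ≤ 1 / B) {v : V} (hv : Prim v)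
    (θ : ℝ) :
    (v ∉ bx28 Q (2 * B) L x θ → H G L x (Q.nr x v) (Complex.arg (tq Q v) - θ) = 0 ∧
      H G L x ((idx Q κ x v : ℝ) * κ) (Complex.arg (tq Q v) - θ) = 0) ∧
    (v ∈ bx28 Q (2 * B) L x θ → |H G L x (Q.nr x v) (Complex.arg (tq Q v) - θ) -
      H G L x ((idx Q κ x v : ℝ) * κ) (Complex.arg (tq Q v) - θ)| ≤ CG * κ * (1 + 4 * B ^ 2)) := by
  have hB0 : 0 < B := by linarith
  have hL0 : 0 < L := by linarith
  have hv0 := ne_zero_of_prim90 hv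
  obtain ⟨e1, e2, -⟩ := rot' hQ G L hx v θ
  obtain ⟨i1, i2⟩ := idx_spec hQ hκ hx hv0
  have hρ0 := nr_pos hQ hx hv0
  set ρ := Q.nr x v with hρ
  set ρ' : ℝ := (idx Q κ x v : ℝ) * κ with hρ'
  set ψ := Complex.arg (tq Q v) - θ with hψ
  have hρ'0 : 0 ≤ ρ' := by positivity
  have i3 : ρ - ρ' ≤ κ := by rw [hρ']; linarith
  constructor
  · intro hnot
    constructor
    · by_contra h
      obtain ⟨h1, h2, h3⟩ := hS _ _ h
      apply hnot
      refine ⟨hv, ?_, ?_, ?_⟩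
      · rw [e1]
        have : 1 / (2 * B) ≤ 1 / B := by
          apply one_div_le_one_div_of_le hB0; linarith
        linarith
      · rw [e1]; linarith
      · rw [e2]
        rw [abs_div, abs_of_pos hL0, div_le_iff₀ hL0] at h3
        linarith only [h3, mul_pos hB0 hL0]
    · by_contra h
      obtain ⟨h1, h2, h3⟩ := hS _ _ h
      have hc0 : 0 < ρ' * Real.cos ψ := lt_of_lt_of_le (by positivity) h1
      have hρ'1 : 0 < ρ' := by
        rcases hρ'0.lt_or_eq with h4 | h4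
        · exact h4
        · rw [← h4] at hc0; simp at hc0
      have hc : 0 < Real.cos ψ := by
        by_contra hc
        push Not at hc
        linarith only [hc0, mul_nonneg hρ'0 (neg_nonneg.2 hc)]
      have hρ'2 : 1 / B ≤ ρ' := h1.trans (mul_le_of_le_one_right hρ'0 (Real.cos_le_one ψ))
      have hρ2 : ρ ≤ 2 * ρ' := by linarith
      apply hnot
      refine ⟨hv, ?_, ?_, ?_⟩
      · rw [e1]
        have : 1 / (2 * B) ≤ 1 / B := by
          apply one_div_le_one_div_of_le hB0; linarith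
        have h5 : ρ' * Real.cos ψ ≤ ρ * Real.cos ψ := mul_le_mul_of_nonneg_right i1.le hc.le
        linarith
      · rw [e1]
        have h5 : ρ * Real.cos ψ ≤ 2 * ρ' * Real.cos ψ := mul_le_mul_of_nonneg_right hρ2 hc.le
        linarith
      · rw [e2]
        rw [abs_div, abs_of_pos hL0, div_le_iff₀ hL0, abs_mul, abs_of_nonneg (by positivity)] at h3
        rw [abs_mul, abs_of_nonneg (by positivity)]
        have h5 : x * ρ * |Real.sin ψ| ≤ x * (2 * ρ') * |Real.sin ψ| := by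
          apply mul_le_mul_of_nonneg_right _ (abs_nonneg _)
          exact mul_le_mul_of_nonneg_left hρ2 hx.le
        linarith
  · rintro ⟨-, b1, b2, b3⟩
    rw [e1] at b1 b2
    rw [e2] at b3
    have hcρ : 0 < ρ * Real.cos ψ := lt_of_lt_of_le (by positivity) b1
    have hc : 0 < Real.cos ψ := by
      by_contra hc
      push Not at hc
      linarith only [hcρ, mul_nonneg hρ0.le (neg_nonneg.2 hc)]
    have hρ1 : 1 / (2 * B) ≤ ρ := b1.trans (mul_le_of_le_one_right hρ0.le (Real.cos_le_one ψ))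
    rw [abs_mul, abs_of_pos (by positivity : 0 < x * ρ)] at b3
    have hs : x * |Real.sin ψ| ≤ 4 * B ^ 2 * L := by
      have h5 : x * (1 / (2 * B)) * |Real.sin ψ| ≤ 2 * B * L := by
        refine le_trans ?_ b3
        apply mul_le_mul_of_nonneg_right _ (abs_nonneg _)
        exact mul_le_mul_of_nonneg_left hρ1 hx.le
      have h6 : x * (1 / (2 * B)) * |Real.sin ψ| = x * |Real.sin ψ| / (2 * B) := by ring
      rw [h6, div_le_iff₀ (by positivity)] at h5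
      linarith only [h5]
    unfold H
    refine (hLip _ _ _ _).trans ?_
    have i4 : |ρ - ρ'| ≤ κ := by rw [abs_of_pos (by linarith)]; exact i3
    have a1 : |ρ * Real.cos ψ - ρ' * Real.cos ψ| ≤ κ := by
      rw [← sub_mul, abs_mul]
      calc |ρ - ρ'| * |Real.cos ψ| ≤ κ * 1 :=
            mul_le_mul i4 (Real.abs_cos_le_one ψ) (abs_nonneg _) hκ.le
        _ = κ := mul_one _
    have a2 : |x * ρ * Real.sin ψ / L - x * ρ' * Real.sin ψ / L| ≤ κ * (4 * B ^ 2) := by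
      rw [show x * ρ * Real.sin ψ / L - x * ρ' * Real.sin ψ / L =
        (ρ - ρ') * (x * Real.sin ψ / L) by ring, abs_mul]
      apply mul_le_mul i4 _ (abs_nonneg _) hκ.le
      rw [abs_div, abs_of_pos hL0, div_le_iff₀ hL0, abs_mul, abs_of_pos hx]
      exact hs
    calc CG * (|ρ * Real.cos ψ - ρ' * Real.cos ψ| +
          |x * ρ * Real.sin ψ / L - x * ρ' * Real.sin ψ / L|)
        ≤ CG * (κ + κ * (4 * B ^ 2)) := mul_le_mul_of_nonneg_left (add_le_add a1 a2) hCG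
      _ = CG * κ * (1 + 4 * B ^ 2) := by ring

/-- Lipschitz constant of the local sums in the angle -/
theorem mm_lip {Q : Form} (hQ : Q.Pos) {B : ℝ} {G : ℝ → ℝ → ℝ} (hG : GT B G) : ∃ C : ℝ, 0 ≤ C ∧
    ∀ g : V → ℂ, Ug g → ∀ L x : ℝ, 1 ≤ L → L ≤ x → ∀ θ h : ℝ,
      ‖mm Q g G L x (θ + h) - mm Q g G L x θ‖ ≤ C * (x / L) * |h| := by
  have hB := hG.1
  have hS := hG.2.1
  have hB0 : 0 < B := by linarith
  obtain ⟨CG, hCG0, hLip, hbd⟩ := gt_bound28 hG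
  obtain ⟨C, hC⟩ := stCnt_28 Q hQ B hB
  have hC0 : 0 ≤ C := by
    have h1 := (hC 1 le_rfl 0 0).2
    have h2 : (0 : ℝ) ≤ (({v : V | Prim v ∧ 1 / B ≤ lx Q 0 0 v ∧ lx Q 0 0 v ≤ B ∧
      |ly Q 0 0 v| ≤ B * 1}.ncard : ℕ) : ℝ) := Nat.cast_nonneg _
    linarith
  refine ⟨2 * C * (CG * (4 * B)), by positivity, fun g hg L x hL hLx θ h => ?_⟩
  have hL0 : 0 < L := by linarith
  have hx0 : 0 < x := by linarith
  have hCb : ∀ x θ : ℝ, (bx28 Q B L x θ).Finite ∧ ((bx28 Q B L x θ).ncard : ℝ) ≤ C * L :=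
    fun x θ => hC L hL x θ
  -- sharp rotation estimate
  have hrot : ∀ (θ c : ℝ) (v : V), v ∈ bx28 Q B L x θ →
      |lx Q x (θ + c) v - lx Q x θ v| + |ly Q x (θ + c) v / L - ly Q x θ v / L| ≤
        4 * B * (x / L) * |c| := by
    intro θ c v hv
    obtain ⟨_, h1, h2, h3⟩ := hv
    have hlx : |lx Q x θ v| ≤ B := by
      rw [abs_le]
      have : 0 < 1 / B := by positivity
      constructor <;> linarith
    obtain ⟨e1, e2⟩ := (stCoord_90 Q hQ v v x θ hx0).2.2.2.1 c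
    have hcos := one_sub_cos28 c
    have hsin : |Real.sin c| ≤ |c| := Real.abs_sin_le_abs
    have hc0 := abs_nonneg c
    have a1 : |lx Q x (θ + c) v - lx Q x θ v| ≤ |c| * B + |c| * B := by
      have h4 : lx Q x (θ + c) v - lx Q x θ v =
          (Real.cos c - 1) * lx Q x θ v + Real.sin c * (ly Q x θ v / x) := by
        rw [e1]
        ring
      rw [h4]
      refine (abs_add_le _ _).trans ?_
      rw [abs_mul, abs_mul]
      have h5 : |ly Q x θ v / x| ≤ B := by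
        rw [abs_div, abs_of_pos hx0, div_le_iff₀ hx0]
        exact h3.trans (mul_le_mul_of_nonneg_left hLx hB0.le)
      exact add_le_add (mul_le_mul hcos hlx (abs_nonneg _) hc0)
        (mul_le_mul hsin h5 (abs_nonneg _) hc0)
    have a2 : |ly Q x (θ + c) v / L - ly Q x θ v / L| ≤ |c| * B + |c| * (B * (x / L)) := by
      have h4 : ly Q x (θ + c) v / L - ly Q x θ v / L =
          ((Real.cos c - 1) * ly Q x θ v - Real.sin c * (x * lx Q x θ v)) / L := by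
        rw [e2]
        ring
      rw [h4, abs_div, abs_of_pos hL0, div_le_iff₀ hL0]
      refine (abs_sub _ _).trans ?_
      rw [abs_mul, abs_mul, abs_mul, abs_of_pos hx0]
      have h5 : |Real.cos c - 1| * |ly Q x θ v| ≤ |c| * (B * L) :=
        mul_le_mul hcos h3 (abs_nonneg _) hc0
      have h6 : |Real.sin c| * (x * |lx Q x θ v|) ≤ |c| * (x * B) :=
        mul_le_mul hsin (mul_le_mul_of_nonneg_left hlx hx0.le) (by positivity) hc0
      have h7 : (|c| * B + |c| * (B * (x / L))) * L = |c| * (B * L) + |c| * (x * B) := by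
        field_simp
      rw [h7]
      linarith
    have hxL : 1 ≤ x / L := by rw [le_div_iff₀ hL0]; linarith
    have b1 : |c| * B ≤ |c| * (B * (x / L)) := by
      apply mul_le_mul_of_nonneg_left _ hc0
      exact le_mul_of_one_le_right hB0.le hxL
    linarith only [a1, a2, b1]
  have hη : 0 ≤ CG * (4 * B * (x / L) * |h|) := by positivity
  have h1 := mm_sub28 Q B C L hL hCb G hS g hg.2 1 hg.1 x (θ + h) x θ
    (CG * (4 * B * (x / L) * |h|)) hη (by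
      intro v hv
      rcases hv with hv | hv
      · have h2 := hrot (θ + h) (-h) v hv
        rw [show θ + h + -h = θ by ring, abs_neg, abs_sub_comm,
          abs_sub_comm (ly Q x θ v / L)] at h2
        refine (hLip _ _ _ _).trans ?_
        exact mul_le_mul_of_nonneg_left h2 hCG0
      · have h2 := hrot θ h v hv
        refine (hLip _ _ _ _).trans ?_
        exact mul_le_mul_of_nonneg_left h2 hCG0)
  refine h1.trans (le_of_eq ?_)
  ring

/-- the local sum with radii on a grid -/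
noncomputable def mt (Q : Form) (g : V → ℂ) (G : ℝ → ℝ → ℝ) (κ L x : ℝ) (N : ℕ) (θ : ℝ) : ℂ :=
  (1 / (L : ℂ)) * ∑ v ∈ Q.pball N,
    g v * ((H G L x ((idx Q κ x v : ℝ) * κ) (Complex.arg (tq Q v) - θ) : ℝ) : ℂ)

theorem cont_H {G : ℝ → ℝ → ℝ} (hlip : Lip G) (L x ρ α : ℝ) :
    Continuous fun θ : ℝ => ((H G L x ρ (α - θ) : ℝ) : ℂ) :=
  Complex.continuous_ofReal.comp ((H_cont hlip L x ρ).comp (by fun_prop))

theorem mt_cont (Q : Form) (g : V → ℂ) {G : ℝ → ℝ → ℝ} (hlip : Lip G) (κ L x : ℝ) (N : ℕ) :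
    Continuous (mt Q g G κ L x N) := by
  unfold mt
  apply Continuous.mul continuous_const
  apply continuous_finsetSum
  intro v _
  exact continuous_const.mul (cont_H hlip L x _ _)

/-- the local sum and its grid version are close -/
theorem mt_close {Q : Form} (hQ : Q.Pos) {B CG C : ℝ} {G : ℝ → ℝ → ℝ} (hG : GT B G)
    (hCG : 0 ≤ CG) (hLip : ∀ x y x' y', |G x y - G x' y'| ≤ CG * (|x - x'| + |y - y'|))
    {L x κ : ℝ} (hL : 1 ≤ L) (hx : 0 < x) (hκ : 0 < κ) (hκB : κ ≤ 1 / B)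
    (hC : ∀ x θ : ℝ, (bx28 Q (2 * B) L x θ).Finite ∧
      ((bx28 Q (2 * B) L x θ).ncard : ℝ) ≤ C * L)
    {N : ℕ} (hN : B ^ 2 * x + (B * L) ^ 2 / x ≤ N) (g : V → ℂ) (hg : Ug g) (θ : ℝ) :
    ‖mm Q g G L x θ - mt Q g G κ L x N θ‖ ≤ C * (CG * κ * (1 + 4 * B ^ 2)) := by
  classical
  have hL0 : 0 < L := by linarith
  have hB := hG.1
  have hB0 : 0 < B := by linarith
  rw [Red63.mm_eq hQ hG hg.2 θ hL0 hx hN]
  unfold mt
  rw [← mul_sub, ← Finset.sum_sub_distrib, norm_mul, norm_div, norm_one, Complex.norm_real,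
    Real.norm_eq_abs, abs_of_pos hL0]
  obtain ⟨hfin, hcard⟩ := hC x θ
  set D : ℝ := CG * κ * (1 + 4 * B ^ 2) with hD
  have hD0 : 0 ≤ D := by positivity
  have h1 : ∀ v ∈ Q.pball N, ‖((G (lx Q x θ v) (ly Q x θ v / L) : ℝ) : ℂ) * g v -
      g v * ((H G L x ((idx Q κ x v : ℝ) * κ) (Complex.arg (tq Q v) - θ) : ℝ) : ℂ)‖ ≤
      if v ∈ hfin.toFinset then D else 0 := by
    intro v hv
    have hvp : Prim v := by
      unfold Form.pball at hv
      exact (Finset.mem_filter.1 hv).2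
    obtain ⟨c1, c2⟩ := H_close hQ hB hG.2.1 hCG hLip hL hx hκ hκB hvp θ
    rw [(rot' hQ G L hx v θ).2.2, mul_comm (g v), ← sub_mul, ← Complex.ofReal_sub, norm_mul,
      Complex.norm_real, Real.norm_eq_abs]
    split_ifs with hc
    · calc _ ≤ D * 1 := mul_le_mul (c2 (hfin.mem_toFinset.1 hc)) (hg.1 v) (norm_nonneg _) hD0
        _ = D := mul_one _
    · obtain ⟨d1, d2⟩ := c1 (fun h => hc (hfin.mem_toFinset.2 h))
      rw [d1, d2]
      simp
  have h2 : ‖∑ v ∈ Q.pball N, (((G (lx Q x θ v) (ly Q x θ v / L) : ℝ) : ℂ) * g v -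
      g v * ((H G L x ((idx Q κ x v : ℝ) * κ) (Complex.arg (tq Q v) - θ) : ℝ) : ℂ))‖ ≤
      C * L * D := by
    refine (norm_sum_le _ _).trans ((Finset.sum_le_sum h1).trans ?_)
    rw [← Finset.sum_filter, Finset.sum_const, nsmul_eq_mul]
    apply mul_le_mul_of_nonneg_right _ hD0
    have h3 : ((Q.pball N).filter (fun v => v ∈ hfin.toFinset)).card ≤ hfin.toFinset.card :=
      Finset.card_le_card (fun v hv => (Finset.mem_filter.1 hv).2)
    rw [Set.ncard_eq_toFinset_card _ hfin] at hcard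
    exact le_trans (by exact_mod_cast h3) hcard
  calc 1 / L * ‖∑ v ∈ Q.pball N, (((G (lx Q x θ v) (ly Q x θ v / L) : ℝ) : ℂ) * g v -
      g v * ((H G L x ((idx Q κ x v : ℝ) * κ) (Complex.arg (tq Q v) - θ) : ℝ) : ℂ))‖
      ≤ 1 / L * (C * L * D) := mul_le_mul_of_nonneg_left h2 (by positivity)
    _ = C * D := by field_simp

theorem uv_eq {Q : Form} {v : V} (hv : tq Q v ≠ 0) :
    uv Q v = Complex.exp ((Complex.arg (tq Q v) : ℂ) * Complex.I) := by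
  unfold uv
  have hn : ((‖tq Q v‖ : ℝ) : ℂ) ≠ 0 := by exact_mod_cast norm_ne_zero_iff.2 hv
  rw [div_eq_iff hn, mul_comm]
  exact (Complex.norm_mul_exp_arg_mul_I (tq Q v)).symm

theorem uv_zpow {Q : Form} {v : V} (hv : tq Q v ≠ 0) (j : ℤ) :
    Complex.exp (-((j : ℂ) * (Complex.arg (tq Q v) : ℂ) * Complex.I)) = uv Q v ^ (-j) := by
  rw [uv_eq hv, ← Complex.exp_int_mul]
  congr 1
  push_cast
  ring

theorem tq_ne {Q : Form} (hQ : Q.Pos) {v : V} (hv : v ≠ 0) : tq Q v ≠ 0 := by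
  intro h0
  have h1 : Complex.normSq (tq Q v) = Q.q v := by
    have h := tq_inner90 Q hQ v v
    rw [Q.B_self] at h
    push_cast at h
    rw [Complex.normSq_apply]
    linarith
  rw [h0, Complex.normSq_zero] at h1
  have h2 := hQ.q_pos hv
  have h3 : (0 : ℝ) < Q.q v := by exact_mod_cast h2
  linarith

/-- the coefficients of the grid version -/
theorem fc_mt {Q : Form} (hQ : Q.Pos) {G : ℝ → ℝ → ℝ} (hlip : Lip G) (κ L x : ℝ) (N : ℕ)
    (g : V → ℂ) (j : ℤ) : fc (mt Q g G κ L x N) j =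
      (1 / (L : ℂ)) * ∑ v ∈ Q.pball N, (g v * uv Q v ^ (-j)) *
        hc G L x ((idx Q κ x v : ℝ) * κ) j := by
  have h1 : fc (mt Q g G κ L x N) j = (1 / (L : ℂ)) * fc (fun θ => ∑ v ∈ Q.pball N,
      g v * ((H G L x ((idx Q κ x v : ℝ) * κ) (Complex.arg (tq Q v) - θ) : ℝ) : ℂ)) j :=
    fc_smul _ _ _
  rw [h1, fc_sum (Q.pball N) (fun v θ => g v *
    ((H G L x ((idx Q κ x v : ℝ) * κ) (Complex.arg (tq Q v) - θ) : ℝ) : ℂ))
    (fun v _ => continuous_const.mul (cont_H hlip L x _ _))]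
  congr 1
  apply Finset.sum_congr rfl
  intro v hv
  have hv0 : v ≠ 0 := by
    unfold Form.pball at hv
    exact ne_zero_of_prim90 (Finset.mem_filter.1 hv).2
  rw [fc_smul, fc_H, uv_zpow (tq_ne hQ hv0)]
  ring

/-- the coefficients of the grid version are bounded by the shell sums -/
theorem fc_mt_le {Q : Form} (hQ : Q.Pos) {B : ℝ} {G : ℝ → ℝ → ℝ} (hG : GT B G) {M : ℝ}
    (hM : ∀ x y, |G x y| ≤ M) {L κ : ℝ} (hL : 1 ≤ L) (hκ : 0 < κ) {n : ℕ} (hn : B ^ 2 * L ≤ n)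
    {R : ℕ} (hR : 0 < R) (g : V → ℂ) (hg : Ug g) (j : ℤ) :
    ‖fc (mt Q g G κ L n ⌊((R : ℝ) * κ) ^ 2 * n⌋₊) j‖ ≤ M * B ^ 2 *
      ∑ i ∈ Finset.Ico 1 R, ‖Msh Q g (((i : ℝ) * κ) ^ 2) ((((i : ℝ) + 1) * κ) ^ 2) n (-j)‖ := by
  classical
  have hB := hG.1
  have hB0 : 0 < B := by linarith
  have hL0 : 0 < L := by linarith
  have hx0 : (0 : ℝ) < n := lt_of_lt_of_le (by positivity) hn
  have hM0 : 0 ≤ M := (abs_nonneg _).trans (hM 0 0)
  rw [fc_mt hQ hG.2.2]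
  set N : ℕ := ⌊((R : ℝ) * κ) ^ 2 * n⌋₊ with hN
  have hprim : ∀ v ∈ Q.pball N, Prim v ∧ Q.q v ≤ N := by
    intro v hv
    unfold Form.pball at hv
    rw [Finset.mem_filter, Form.mem_ball hQ] at hv
    exact ⟨hv.2, hv.1⟩
  have hmap : ∀ v ∈ Q.pball N, idx Q κ n v ∈ Finset.range R := by
    intro v hv
    obtain ⟨h1, h2⟩ := hprim v hv
    rw [Finset.mem_range]
    have h3 : (Q.q v : ℝ) ≤ ((R : ℝ) * κ) ^ 2 * n := by
      have : (Q.q v : ℝ) ≤ (N : ℝ) := by exact_mod_cast h2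
      exact this.trans (Nat.floor_le (by positivity))
    have h4 : Q.nr n v ^ 2 ≤ ((R : ℝ) * κ) ^ 2 := by
      rw [nr_sq hQ hx0, div_le_iff₀ hx0]
      exact h3
    have h5 : Q.nr n v ≤ (R : ℝ) * κ := by
      apply le_of_sq_le_sq h4 (by positivity)
    have h6 := (idx_spec hQ hκ hx0 (ne_zero_of_prim90 h1)).1
    have h7 : (idx Q κ n v : ℝ) * κ < R * κ := lt_of_lt_of_le h6 h5
    have h8 : (idx Q κ n v : ℝ) < R := lt_of_mul_lt_mul_right h7 hκ.le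
    exact_mod_cast h8
  rw [← Finset.sum_fiberwise_of_maps_to hmap]
  have hshell : ∀ i ∈ Finset.range R, 1 ≤ i →
      ∑ v ∈ (Q.pball N).filter (fun v => idx Q κ n v = i), (g v * uv Q v ^ (-j)) *
        hc G L n ((idx Q κ n v : ℝ) * κ) j =
      hc G L n ((i : ℝ) * κ) j * ((n : ℂ) *
        Msh Q g (((i : ℝ) * κ) ^ 2) ((((i : ℝ) + 1) * κ) ^ 2) n (-j)) := by
    intro i hi hi1
    rw [Finset.mem_range] at hi
    have h1 : ∑ v ∈ (Q.pball N).filter (fun v => idx Q κ n v = i), (g v * uv Q v ^ (-j)) *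
        hc G L n ((idx Q κ n v : ℝ) * κ) j =
        ∑ v ∈ (Q.pball N).filter (fun v => idx Q κ n v = i), (g v * uv Q v ^ (-j)) *
        hc G L n ((i : ℝ) * κ) j := by
      apply Finset.sum_congr rfl
      intro v hv
      rw [(Finset.mem_filter.1 hv).2]
    rw [h1, ← Finset.sum_mul, mul_comm]
    congr 1
    unfold Msh
    have hn' : (n : ℂ) ≠ 0 := by exact_mod_cast hx0.ne'
    rw [← mul_assoc, mul_one_div_cancel hn', one_mul]
    have key : ∀ v : V, Prim v → ((idx Q κ n v = i) ↔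
        (((i : ℝ) * κ) ^ 2 * n < Q.q v ∧ (Q.q v : ℝ) ≤ (((i : ℝ) + 1) * κ) ^ 2 * n)) := by
      intro v hv
      rw [idx_eq hQ hκ hx0 (ne_zero_of_prim90 hv), ← lt_div_iff₀ hx0, ← div_le_iff₀ hx0,
        ← nr_sq hQ hx0]
      have h0 := nr_pos hQ hx0 (ne_zero_of_prim90 hv)
      rw [pow_lt_pow_iff_left₀ (by positivity) h0.le two_ne_zero,
        pow_le_pow_iff_left₀ h0.le (by positivity) two_ne_zero]
    apply Finset.sum_subset
    · intro v hv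
      obtain ⟨hv1, hv2⟩ := Finset.mem_filter.1 hv
      obtain ⟨p1, p2⟩ := hprim v hv1
      obtain ⟨k1, k2⟩ := (key v p1).1 hv2
      rw [Finset.mem_filter, Form.mem_ball hQ]
      refine ⟨?_, k1⟩
      obtain ⟨m, hm⟩ := Int.eq_ofNat_of_zero_le (hQ.q_nonneg v)
      rw [hm] at k2 ⊢
      have : m ≤ ⌊(((i : ℝ) + 1) * κ) ^ 2 * (n : ℝ)⌋₊ := Nat.le_floor (by exact_mod_cast k2)
      exact_mod_cast this
    · intro v hv hv'
      rw [Finset.mem_filter, Form.mem_ball hQ] at hv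
      obtain ⟨k1, k2⟩ := hv
      by_cases hg0 : g v = 0
      · rw [hg0, zero_mul]
      · exfalso
        apply hv'
        have p1 := hg.2 v hg0
        have k3 : (Q.q v : ℝ) ≤ (((i : ℝ) + 1) * κ) ^ 2 * n := by
          have : (Q.q v : ℝ) ≤ ((⌊(((i : ℝ) + 1) * κ) ^ 2 * (n : ℝ)⌋₊ : ℕ) : ℝ) := by
            exact_mod_cast k1
          exact this.trans (Nat.floor_le (by positivity))
        rw [Finset.mem_filter]
        refine ⟨?_, (key v p1).2 ⟨k2, k3⟩⟩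
        unfold Form.pball
        rw [Finset.mem_filter, Form.mem_ball hQ]
        refine ⟨?_, p1⟩
        have h5 : (((i : ℝ) + 1) * κ) ^ 2 * (n : ℝ) ≤ ((R : ℝ) * κ) ^ 2 * n := by
          apply mul_le_mul_of_nonneg_right _ hx0.le
          apply pow_le_pow_left₀ (by positivity)
          apply mul_le_mul_of_nonneg_right _ hκ.le
          exact_mod_cast hi
        have h6 : ⌊(((i : ℝ) + 1) * κ) ^ 2 * (n : ℝ)⌋₊ ≤ N := Nat.floor_le_floor h5
        exact k1.trans (by exact_mod_cast h6)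
  rw [Finset.range_eq_Ico, Finset.sum_eq_sum_Ico_succ_bot hR]
  have hz : ∑ v ∈ (Q.pball N).filter (fun v => idx Q κ n v = 0), (g v * uv Q v ^ (-j)) *
      hc G L n ((idx Q κ n v : ℝ) * κ) j = 0 := by
    apply Finset.sum_eq_zero
    intro v hv
    rw [(Finset.mem_filter.1 hv).2, Nat.cast_zero, zero_mul, hc_zero hB hG.2.1, mul_zero]
  rw [hz, zero_add, zero_add, norm_mul, norm_div, norm_one, Complex.norm_real, Real.norm_eq_abs,
    abs_of_pos hL0]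
  have h8 : ‖∑ i ∈ Finset.Ico 1 R, ∑ v ∈ (Q.pball N).filter (fun v => idx Q κ n v = i),
      (g v * uv Q v ^ (-j)) * hc G L n ((idx Q κ n v : ℝ) * κ) j‖ ≤
      ∑ i ∈ Finset.Ico 1 R, M * B ^ 2 * L *
        ‖Msh Q g (((i : ℝ) * κ) ^ 2) ((((i : ℝ) + 1) * κ) ^ 2) n (-j)‖ := by
    refine (norm_sum_le _ _).trans (Finset.sum_le_sum fun i hi => ?_)
    rw [Finset.mem_Ico] at hi
    rw [hshell i (Finset.mem_range.2 hi.2) hi.1, norm_mul, norm_mul]
    have h9 := hc_le hB hG.2.1 hG.2.2 hM hL hn (by positivity : (0 : ℝ) ≤ (i : ℝ) * κ) j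
    have h10 : ‖(n : ℂ)‖ = n := by
      rw [Complex.norm_natCast]
    rw [h10]
    calc ‖hc G L n ((i : ℝ) * κ) j‖ * ((n : ℝ) *
          ‖Msh Q g (((i : ℝ) * κ) ^ 2) ((((i : ℝ) + 1) * κ) ^ 2) n (-j)‖)
        ≤ M * B ^ 2 * L / n * ((n : ℝ) *
          ‖Msh Q g (((i : ℝ) * κ) ^ 2) ((((i : ℝ) + 1) * κ) ^ 2) n (-j)‖) :=
          mul_le_mul_of_nonneg_right h9 (by positivity)
      _ = M * B ^ 2 * L *
          ‖Msh Q g (((i : ℝ) * κ) ^ 2) ((((i : ℝ) + 1) * κ) ^ 2) n (-j)‖ := by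
          field_simp
  rw [← Finset.mul_sum] at h8
  calc 1 / L * ‖∑ i ∈ Finset.Ico 1 R, ∑ v ∈ (Q.pball N).filter (fun v => idx Q κ n v = i),
      (g v * uv Q v ^ (-j)) * hc G L n ((idx Q κ n v : ℝ) * κ) j‖
      ≤ 1 / L * (M * B ^ 2 * L * ∑ i ∈ Finset.Ico 1 R,
        ‖Msh Q g (((i : ℝ) * κ) ^ 2) ((((i : ℝ) + 1) * κ) ^ 2) n (-j)‖) :=
        mul_le_mul_of_nonneg_left h8 (by positivity)
    _ = M * B ^ 2 * ∑ i ∈ Finset.Ico 1 R,
        ‖Msh Q g (((i : ℝ) * κ) ^ 2) ((((i : ℝ) + 1) * κ) ^ 2) n (-j)‖ := by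
      have h11 : 1 / L * L = 1 := by field_simp
      calc _ = (1 / L * L) * (M * B ^ 2 * ∑ i ∈ Finset.Ico 1 R,
        ‖Msh Q g (((i : ℝ) * κ) ^ 2) ((((i : ℝ) + 1) * κ) ^ 2) n (-j)‖) := by ring
        _ = _ := by rw [h11, one_mul]

end Loc90

open Loc90 in
/-- the mean square over the angle is bounded by the small frequencies of the shell sums -/
theorem loc90 {Q : Form} (hQ : Q.Pos) {B : ℝ} {G : ℝ → ℝ → ℝ} (hG : GT B G) :
    ∃ C : ℝ, 0 < C ∧ ∀ R : ℕ, 3 * B ^ 2 ≤ R → ∀ A : ℝ, 0 < A → ∀ L : ℝ, 1 ≤ L →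
    ∃ n0 : ℕ, ∀ n : ℕ, n0 ≤ n → ∀ g : V → ℂ, Ug g →
    1 / (2 * Real.pi) * ∫ θ in (0 : ℝ)..(2 * Real.pi), ‖mm Q g G L n θ‖ ^ 2 ≤
      C * R * ∑ i ∈ Finset.Ico 1 R,
        ∑ j ∈ Finset.Icc (-(⌊A * n / L⌋₊ : ℤ)) ⌊A * n / L⌋₊,
        ‖Msh Q g (((i : ℝ) * (3 * B / R)) ^ 2) ((((i : ℝ) + 1) * (3 * B / R)) ^ 2) n j‖ ^ 2 +
      C / (R : ℝ) ^ 2 + C / A ^ 2 := by
  classical
  have hB := hG.1
  have hB0 : 0 < B := by linarith
  obtain ⟨CG, hCG0, hLip, hbd⟩ := gt_bound28 hG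
  obtain ⟨Cc, hCc⟩ := stCnt_28 Q hQ (2 * B) (by linarith)
  obtain ⟨Cl, hCl0, hCl⟩ := mm_lip hQ hG
  obtain ⟨Cb, hCb0, hCb⟩ := mm_bd28 Q hQ B G hG
  set M : ℝ := CG * (2 * B + 1) with hM
  have hM0 : 0 ≤ M := by positivity
  set E : ℝ := Cc * (CG * (3 * B) * (1 + 4 * B ^ 2)) with hE
  set C : ℝ := 2 * (M * B ^ 2) ^ 2 + 2 * E ^ 2 + 3 * Cl ^ 2 + 1 with hC
  have hC0 : 0 < C := by positivity
  refine ⟨C, hC0, fun R hR A hA L hL => ?_⟩
  have hL0 : 0 < L := by linarith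
  obtain ⟨n0, hn0⟩ := exists_nat_ge (B ^ 2 * L)
  refine ⟨n0, fun n hn g hg => ?_⟩
  have hnB : B ^ 2 * L ≤ n := hn0.trans (by exact_mod_cast hn)
  have hB2 : 1 ≤ B ^ 2 := one_le_pow₀ hB
  have hnL : L ≤ n := (le_mul_of_one_le_left hL0.le hB2).trans hnB
  have hx1 : (1 : ℝ) ≤ n := hL.trans hnL
  have hx0 : (0 : ℝ) < n := by linarith
  have hRr : (0 : ℝ) < R := lt_of_lt_of_le (by positivity) hR
  have hR0 : 0 < R := by exact_mod_cast hRr
  set κ : ℝ := 3 * B / R with hκ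
  have hκ0 : 0 < κ := by positivity
  have hκB : κ ≤ 1 / B := by
    rw [hκ, div_le_div_iff₀ hRr hB0]
    linarith only [hR]
  have hRκ : (R : ℝ) * κ = 3 * B := by rw [hκ]; field_simp
  set N : ℕ := ⌊((R : ℝ) * κ) ^ 2 * n⌋₊ with hN
  have hNb : B ^ 2 * n + (B * L) ^ 2 / n ≤ N := by
    have h1 : ((R : ℝ) * κ) ^ 2 * n < (N : ℝ) + 1 := Nat.lt_floor_add_one _
    rw [hRκ] at h1
    have h2 : (B * L) ^ 2 / n ≤ B ^ 2 * n := by
      rw [div_le_iff₀ hx0]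
      have h3 : L ^ 2 ≤ (n : ℝ) ^ 2 := pow_le_pow_left₀ hL0.le hnL 2
      linarith only [mul_le_mul_of_nonneg_left h3 (sq_nonneg B)]
    linarith only [h1, h2, mul_le_mul hB2 hx1 zero_le_one (zero_le_one.trans hB2)]
  have hcont : Continuous (fun θ => mm Q g G L n θ) := cont_mm28 Q hQ B G hG g hg L hL n hx1
  have hper : ∀ θ, mm Q g G L n (θ + 2 * Real.pi) = mm Q g G L n θ :=
    (stMg_28 Q hQ B G hG g ⟨1, hg.1⟩ hg.2 L hL).per n
  set J : ℕ := ⌊A * n / L⌋₊ with hJ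
  have h1 := tail (fun θ => mm Q g G L n θ) hcont hper Cb (Cl * (n / L))
    (fun θ => hCb g hg L n θ hL) (fun θ h => hCl g hg L n hL hnL θ h) J
  have hmtc := mt_cont Q g hG.2.2 κ L n N
  have h2 := close (fun θ => mm Q g G L n θ) (mt Q g G κ L n N) hcont hmtc
    (Cc * (CG * κ * (1 + 4 * B ^ 2)))
    (fun θ => mt_close hQ hG hCG0 hLip hL hx0 hκ0 hκB (fun x θ => hCc L hL x θ) hNb g hg θ)
    (Finset.Icc (-(J : ℤ)) J)
  -- the grid version
  have h3 : ∀ j, ‖fc (mt Q g G κ L n N) j‖ ^ 2 ≤ (M * B ^ 2) ^ 2 * (R *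
      ∑ i ∈ Finset.Ico 1 R,
        ‖Msh Q g (((i : ℝ) * κ) ^ 2) ((((i : ℝ) + 1) * κ) ^ 2) n (-j)‖ ^ 2) := by
    intro j
    have h4 := fc_mt_le hQ hG hbd hL hκ0 hnB hR0 g hg j
    have h5 : ‖fc (mt Q g G κ L n N) j‖ ^ 2 ≤ (M * B ^ 2 * ∑ i ∈ Finset.Ico 1 R,
        ‖Msh Q g (((i : ℝ) * κ) ^ 2) ((((i : ℝ) + 1) * κ) ^ 2) n (-j)‖) ^ 2 :=
      pow_le_pow_left₀ (norm_nonneg _) h4 2
    refine h5.trans ?_
    rw [mul_pow]
    apply mul_le_mul_of_nonneg_left _ (sq_nonneg _)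
    refine (sq_sum_le_card_mul_sum_sq (s := Finset.Ico 1 R) (f := fun i : ℕ =>
      ‖Msh Q g (((i : ℝ) * κ) ^ 2) ((((i : ℝ) + 1) * κ) ^ 2) n (-j)‖)).trans ?_
    apply mul_le_mul_of_nonneg_right _ (Finset.sum_nonneg fun i _ => sq_nonneg _)
    rw [Nat.card_Ico]
    exact_mod_cast Nat.sub_le R 1
  have h6 : ∑ j ∈ Finset.Icc (-(J : ℤ)) J, ‖fc (mt Q g G κ L n N) j‖ ^ 2 ≤
      (M * B ^ 2) ^ 2 * (R * ∑ i ∈ Finset.Ico 1 R, ∑ j ∈ Finset.Icc (-(J : ℤ)) J,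
        ‖Msh Q g (((i : ℝ) * κ) ^ 2) ((((i : ℝ) + 1) * κ) ^ 2) n j‖ ^ 2) := by
    have h7 : ∑ j ∈ Finset.Icc (-(J : ℤ)) J, ‖fc (mt Q g G κ L n N) j‖ ^ 2 =
        ∑ j ∈ Finset.Icc (-(J : ℤ)) J, ‖fc (mt Q g G κ L n N) (-j)‖ ^ 2 := by
      apply Finset.sum_nbij' (fun j => -j) (fun j => -j)
      · intro j hj
        rw [Finset.mem_Icc] at hj ⊢
        omega
      · intro j hj
        rw [Finset.mem_Icc] at hj ⊢
        omega
      · intro j _; exact neg_neg j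
      · intro j _; exact neg_neg j
      · intro j _; rw [neg_neg]
    rw [h7]
    refine (Finset.sum_le_sum fun j _ => h3 (-j)).trans (le_of_eq ?_)
    simp only [neg_neg]
    rw [← Finset.mul_sum, ← Finset.mul_sum, Finset.sum_comm]
  -- the constants
  have hS0 : 0 ≤ (R : ℝ) * ∑ i ∈ Finset.Ico 1 R, ∑ j ∈ Finset.Icc (-(J : ℤ)) J,
        ‖Msh Q g (((i : ℝ) * κ) ^ 2) ((((i : ℝ) + 1) * κ) ^ 2) n j‖ ^ 2 :=
    mul_nonneg hRr.le (Finset.sum_nonneg fun i _ => Finset.sum_nonneg fun j _ => sq_nonneg _)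
  have e1 : 2 * (Cc * (CG * κ * (1 + 4 * B ^ 2))) ^ 2 = 2 * E ^ 2 / (R : ℝ) ^ 2 := by
    rw [hE, hκ]
    field_simp
  have e2 : 3 * (Cl * ((n : ℝ) / L)) ^ 2 / ((J : ℝ) + 1) ^ 2 ≤ 3 * Cl ^ 2 / A ^ 2 := by
    have hJ1 : A * n / L < (J : ℝ) + 1 := Nat.lt_floor_add_one _
    have hJ2 : (A * ((n : ℝ) / L)) ^ 2 ≤ ((J : ℝ) + 1) ^ 2 := by
      apply pow_le_pow_left₀ (by positivity)
      rw [← mul_div_assoc]
      exact hJ1.le
    rw [div_le_div_iff₀ (by positivity) (by positivity)]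
    calc 3 * (Cl * ((n : ℝ) / L)) ^ 2 * A ^ 2 = 3 * Cl ^ 2 * (A * ((n : ℝ) / L)) ^ 2 := by ring
      _ ≤ 3 * Cl ^ 2 * ((J : ℝ) + 1) ^ 2 := mul_le_mul_of_nonneg_left hJ2 (by positivity)
  have e3 : 2 * E ^ 2 / (R : ℝ) ^ 2 ≤ C / (R : ℝ) ^ 2 := by
    apply div_le_div_of_nonneg_right _ (by positivity)
    rw [hC]
    linarith only [sq_nonneg (M * B ^ 2), sq_nonneg Cl]
  have e4 : 3 * Cl ^ 2 / A ^ 2 ≤ C / A ^ 2 := by
    apply div_le_div_of_nonneg_right _ (by positivity)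
    rw [hC]
    linarith only [sq_nonneg (M * B ^ 2), sq_nonneg E]
  have e5 : 2 * ((M * B ^ 2) ^ 2 * (R * ∑ i ∈ Finset.Ico 1 R, ∑ j ∈ Finset.Icc (-(J : ℤ)) J,
        ‖Msh Q g (((i : ℝ) * κ) ^ 2) ((((i : ℝ) + 1) * κ) ^ 2) n j‖ ^ 2)) ≤
      C * (R * ∑ i ∈ Finset.Ico 1 R, ∑ j ∈ Finset.Icc (-(J : ℤ)) J,
        ‖Msh Q g (((i : ℝ) * κ) ^ 2) ((((i : ℝ) + 1) * κ) ^ 2) n j‖ ^ 2) := by
    rw [← mul_assoc]
    apply mul_le_mul_of_nonneg_right _ hS0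
    rw [hC]
    linarith only [sq_nonneg E, sq_nonneg Cl]
  have e6 : C * R * ∑ i ∈ Finset.Ico 1 R, ∑ j ∈ Finset.Icc (-(J : ℤ)) J,
        ‖Msh Q g (((i : ℝ) * κ) ^ 2) ((((i : ℝ) + 1) * κ) ^ 2) n j‖ ^ 2 =
      C * (R * ∑ i ∈ Finset.Ico 1 R, ∑ j ∈ Finset.Icc (-(J : ℤ)) J,
        ‖Msh Q g (((i : ℝ) * κ) ^ 2) ((((i : ℝ) + 1) * κ) ^ 2) n j‖ ^ 2) := mul_assoc _ _ _
  rw [e6]
  linarith

end Pool.Agent.Lib.MP_a17b09_nt.MRS
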