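import Pool.Agent.Lib.MP_a17b09_nt.CH.StmtsE17

/-!
Project MRS: the end product, in the notation of project CH.
-/

set_option autoImplicit false

open Filter Topology Finset

namespace Pool.Agent.Lib.MP_a17b09_nt.CH

open PE

/-- Local means of `z ^ Ω (Q v)` over primitive vectors in a class modulo `K`, in thin sectors
of length `L`, tend to zero in mean square. -/
def StMRF (Q : Form) : Prop := ∀ (z : ℂ) (k : ℕ), 0 < k → z ^ k = 1 → z ≠ 1 →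
  ∀ (K : ℕ), 0 < K → ∀ (α : ZMod K × ZMod K) (B : ℝ) (G : ℝ → ℝ → ℝ), GT B G →
  ∀ ε : ℝ, 0 < ε → ∃ L0 : ℝ, 1 ≤ L0 ∧ ∀ L : ℝ, L0 ≤ L → ∃ x0 : ℝ, 1 ≤ x0 ∧ ∀ x : ℝ, x0 ≤ x →
    ∫ θ in (0 : ℝ)..(2 * Real.pi), ‖mm Q (gc z Q K α) G L x θ‖ ^ 2 ≤ ε

/-- the sum of two squares -/
def Q0 : Form := ⟨1, 0, 1⟩

/-- (XFER) the Gaussian case gives all forms of discriminant `-4 m ^ 2` -/
def StXfer : Prop := StMRF Q0 → ∀ Q : Form, Q.Pos → (∃ m : ℤ, Q.D = 4 * m ^ 2) → StMRF Q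

end Pool.Agent.Lib.MP_a17b09_nt.CH
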