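import Pool.Agent.Lib.MP_a17b09_nt.MRS.GlueB90
import Pool.Agent.Lib.MP_a17b09_nt.MRS.Mrf79

/-!
Project CH / MRS: the end product `StMRF` for the form `x² + y²` from the statement `StCls` for
Gaussian integers.
-/

set_option autoImplicit false

open Filter Topology Finset

namespace Pool.Agent.Lib.MP_a17b09_nt.MRS

open Pool.Agent.Lib.MP_a17b09_nt.CH Pool.Agent.Lib.MP_a17b09_nt.CH.PE

/-- the end product from the interface -/
theorem stMRF_of90 {Q : Form} (hQ : Q.Pos) (hM : ∀ (z : ℂ) (k : ℕ), 0 < k → z ^ k = 1 → z ≠ 1 →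
    ∀ (K : ℕ) [NeZero K], MrsQ Q z K) : StMRF Q := by
  intro z k hk hz hz1 K hK α B G hG ε hε
  have : NeZero K := ⟨hK.ne'⟩
  have hzn : ‖z‖ = 1 := Complex.norm_eq_one_of_pow_eq_one hz hk.ne'
  have hpi := Real.pi_pos
  have hg := gc_Ug hzn Q K α
  obtain ⟨C, hC⟩ := stSvu_28 Q hQ B G hG
  obtain ⟨L0, hL0, h1⟩ := mm_null90 hQ hzn (hM z k hk hz hz1 K) hG α
    (by positivity : 0 < ε / (8 * Real.pi ^ 2))
  refine ⟨L0, hL0, fun L hL => ?_⟩
  have hL1 : 1 ≤ L := hL0.trans hL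
  obtain ⟨n0, hn0⟩ := h1 L hL
  obtain ⟨x1, hx1, h2⟩ := hC L hL1
  obtain ⟨n2, hn2⟩ := exists_nat_ge (max x1 (16 * Real.pi * C ^ 2 / ε))
  refine ⟨max 1 (max (n0 : ℝ) n2), le_max_left _ _, fun x hx => ?_⟩
  have hx1' : 1 ≤ x := (le_max_left _ _).trans hx
  have hxn0 : (n0 : ℝ) ≤ x := (le_max_left _ _).trans ((le_max_right _ _).trans hx)
  have hxn2 : (n2 : ℝ) ≤ x := (le_max_right _ _).trans ((le_max_right _ _).trans hx)
  set n : ℕ := ⌊x⌋₊ with hn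
  have hnx : (n : ℝ) ≤ x := Nat.floor_le (by linarith)
  have hxn : x < n + 1 := Nat.lt_floor_add_one x
  have hn1 : 1 ≤ n := Nat.le_floor (by exact_mod_cast hx1')
  have hn1' : (1 : ℝ) ≤ n := by exact_mod_cast hn1
  have hnn0 : n0 ≤ n := Nat.le_floor hxn0
  have hnn2 : n2 ≤ n := Nat.le_floor hxn2
  have hnn2' : (n2 : ℝ) ≤ n := by exact_mod_cast hnn2
  have hnx1 : x1 ≤ n := (le_max_left _ _).trans (hn2.trans hnn2')
  have hnC : 16 * Real.pi * C ^ 2 / ε ≤ n := (le_max_right _ _).trans (hn2.trans hnn2')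
  have h3 := hn0 n hnn0
  have hcn : Continuous (fun θ => mm Q (gc z Q K α) G L n θ) :=
    cont_mm28 Q hQ B G hG _ hg L hL1 n hn1'
  have hcx : Continuous (fun θ => mm Q (gc z Q K α) G L x θ) :=
    cont_mm28 Q hQ B G hG _ hg L hL1 x hx1'
  have hpt : ∀ θ, ‖mm Q (gc z Q K α) G L x θ‖ ^ 2 ≤
      2 * ‖mm Q (gc z Q K α) G L n θ‖ ^ 2 + 2 * C ^ 2 / n := by
    intro θ
    have h4 := h2 (gc z Q K α) hg n x θ hnx1 hnx
    have h5 : ‖mm Q (gc z Q K α) G L n θ - mm Q (gc z Q K α) G L x θ‖ ≤ |C| / n := by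
      refine h4.trans ?_
      apply div_le_div_of_nonneg_right _ (by linarith)
      calc C * (x - n) ≤ |C| * (x - n) := mul_le_mul_of_nonneg_right (le_abs_self C) (by linarith)
        _ ≤ |C| * 1 := mul_le_mul_of_nonneg_left (by linarith) (abs_nonneg C)
        _ = |C| := mul_one _
    have h6 : ‖mm Q (gc z Q K α) G L x θ‖ ≤ ‖mm Q (gc z Q K α) G L n θ‖ + |C| / n := by
      have := norm_sub_norm_le (mm Q (gc z Q K α) G L x θ) (mm Q (gc z Q K α) G L n θ)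
      rw [norm_sub_rev] at this
      linarith
    have h7 : (|C| / (n : ℝ)) ^ 2 ≤ C ^ 2 / n := by
      rw [div_pow, sq_abs, div_le_div_iff₀ (by positivity) (by positivity)]
      nlinarith [sq_nonneg C, mul_nonneg (sq_nonneg C) (by linarith : (0 : ℝ) ≤ n)]
    have h8 : ‖mm Q (gc z Q K α) G L x θ‖ ^ 2 ≤
        (‖mm Q (gc z Q K α) G L n θ‖ + |C| / n) ^ 2 := pow_le_pow_left₀ (norm_nonneg _) h6 2
    have h9 : 2 * C ^ 2 / (n : ℝ) = 2 * (C ^ 2 / n) := mul_div_assoc _ _ _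
    rw [h9]
    nlinarith [sq_nonneg (‖mm Q (gc z Q K α) G L n θ‖ - |C| / n)]
  have h10 : ∫ θ in (0 : ℝ)..(2 * Real.pi), ‖mm Q (gc z Q K α) G L x θ‖ ^ 2 ≤
      ∫ θ in (0 : ℝ)..(2 * Real.pi), (2 * ‖mm Q (gc z Q K α) G L n θ‖ ^ 2 + 2 * C ^ 2 / n) := by
    apply intervalIntegral.integral_mono_on (by positivity)
    · exact (hcx.norm.pow 2).intervalIntegrable _ _
    · exact ((continuous_const.mul (hcn.norm.pow 2)).add continuous_const).intervalIntegrable _ _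
    · exact fun θ _ => hpt θ
  have h11 : ∫ θ in (0 : ℝ)..(2 * Real.pi),
      (2 * ‖mm Q (gc z Q K α) G L n θ‖ ^ 2 + 2 * C ^ 2 / n) =
      2 * (∫ θ in (0 : ℝ)..(2 * Real.pi), ‖mm Q (gc z Q K α) G L n θ‖ ^ 2) +
      2 * Real.pi * (2 * C ^ 2 / n) := by
    have i1 : Continuous (fun θ => 2 * ‖mm Q (gc z Q K α) G L n θ‖ ^ 2) :=
      continuous_const.mul (hcn.norm.pow 2)
    have i2 : ∫ θ in (0 : ℝ)..(2 * Real.pi),
        (2 * ‖mm Q (gc z Q K α) G L n θ‖ ^ 2 + 2 * C ^ 2 / n) =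
        (∫ θ in (0 : ℝ)..(2 * Real.pi), 2 * ‖mm Q (gc z Q K α) G L n θ‖ ^ 2) +
        ∫ _ in (0 : ℝ)..(2 * Real.pi), 2 * C ^ 2 / (n : ℝ) :=
      intervalIntegral.integral_add (i1.intervalIntegrable _ _)
        (continuous_const.intervalIntegrable _ _)
    rw [i2, intervalIntegral.integral_const_mul, intervalIntegral.integral_const, smul_eq_mul,
      sub_zero]
  rw [h11] at h10
  refine h10.trans ?_
  have h12 : ∫ θ in (0 : ℝ)..(2 * Real.pi), ‖mm Q (gc z Q K α) G L n θ‖ ^ 2 ≤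
      ε / (4 * Real.pi) := by
    rw [div_mul_eq_mul_div, one_mul, div_le_iff₀ (by positivity)] at h3
    refine h3.trans (le_of_eq ?_)
    field_simp
    norm_num
  have h13 : ε / (4 * Real.pi) ≤ ε / 12 := by
    apply div_le_div_of_nonneg_left hε.le (by norm_num)
    linarith [Real.pi_gt_three]
  have h14 : 2 * Real.pi * (2 * C ^ 2 / n) ≤ ε / 2 := by
    rw [div_le_iff₀ hε] at hnC
    rw [mul_div_assoc', div_le_iff₀ (by linarith)]
    nlinarith
  linarith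

/-- the end product for `x² + y²` -/
theorem stMRF_90 (hCls : StCls) : StMRF Q0 :=
  stMRF_of90 (Q := Q0) Q1_pos fun _ _ hk hz hz1 K _ => mrsQ_cls90 hCls hk hz hz1 K

end Pool.Agent.Lib.MP_a17b09_nt.MRS
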