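import Pool.Agent.Lib.MP_a17b09_nt.MRS.Stmts3
import Pool.Agent.Lib.MP_a17b09_nt.MRS.Tk84

/-!
MRS (MP_a17b09_nt): primitive vectors from all vectors by Möbius inversion over rational divisors.
-/

set_option autoImplicit false

open Filter Topology Finset

namespace Pool.Agent.Lib.MP_a17b09_nt.MRS

namespace PrimPw84

theorem nm_nat (d : ℕ) : nm (d : GaussianInt) = d ^ 2 := by
  unfold nm
  rw [Zsqrtd.norm_natCast, Int.natAbs_mul, Int.natAbs_natCast]
  ring

theorem dvd_iff (d : ℕ) (v : GaussianInt) : (d : GaussianInt) ∣ v ↔ d ∣ Int.gcd v.re v.im := by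
  have h1 : ((d : ℕ) : GaussianInt) = ((d : ℤ) : GaussianInt) := by push_cast; rfl
  rw [h1, Zsqrtd.intCast_dvd, Int.dvd_gcd_iff]

/-- Möbius inversion over rational divisors -/
theorem moeb (S : Finset GaussianInt) (D : ℕ) (hS : ∀ v ∈ S, v ≠ 0 ∧ nm v < (D + 1) ^ 2)
    (F : GaussianInt → ℂ) :
    ∑ v ∈ S.filter Pv, F v = ∑ d ∈ Finset.range (D + 1), (ArithmeticFunction.moebius d : ℂ) *
      ∑ v ∈ S.filter (fun v => d ∣ Int.gcd v.re v.im), F v := by
  classical
  simp only [Finset.sum_filter, Finset.mul_sum]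
  rw [Finset.sum_comm]
  refine Finset.sum_congr rfl fun v hv => ?_
  obtain ⟨hv0, hvD⟩ := hS v hv
  set g := Int.gcd v.re v.im with hg
  have hg0 : g ≠ 0 := by
    intro h
    rw [hg, Int.gcd_eq_zero_iff] at h
    exact hv0 (Zsqrtd.ext h.1 h.2)
  have hgD : g < D + 1 := by
    have h1 : (g : GaussianInt) ∣ v := (dvd_iff g v).2 dvd_rfl
    obtain ⟨w, hw⟩ := h1
    have hw0 : w ≠ 0 := by
      intro h
      rw [h, mul_zero] at hw
      exact hv0 hw
    have h2 : nm v = g ^ 2 * nm w := by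
      conv_lhs => rw [hw]
      rw [nm_mul, nm_nat]
    have h3 : 1 ≤ nm w := Nat.one_le_iff_ne_zero.2 (mt nm_eq_zero.1 hw0)
    have h4 : g ^ 2 < (D + 1) ^ 2 := by
      calc g ^ 2 = g ^ 2 * 1 := (mul_one _).symm
        _ ≤ g ^ 2 * nm w := Nat.mul_le_mul_left _ h3
        _ = nm v := h2.symm
        _ < _ := hvD
    exact lt_of_pow_lt_pow_left₀ 2 (Nat.zero_le _) h4
  have h1 : ∑ d ∈ Finset.range (D + 1), (ArithmeticFunction.moebius d : ℂ) *
      (if d ∣ g then F v else 0) = (∑ d ∈ g.divisors, (ArithmeticFunction.moebius d : ℂ)) * F v := by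
    rw [Finset.sum_mul]
    have h2 : g.divisors = (Finset.range (D + 1)).filter (fun d => d ∣ g) := by
      ext d
      rw [Nat.mem_divisors, Finset.mem_filter, Finset.mem_range]
      constructor
      · rintro ⟨h3, _⟩
        exact ⟨(Nat.le_of_dvd (Nat.pos_of_ne_zero hg0) h3).trans_lt hgD, h3⟩
      · rintro ⟨_, h3⟩
        exact ⟨h3, hg0⟩
    rw [h2, Finset.sum_filter]
    refine Finset.sum_congr rfl fun d _ => ?_
    split_ifs <;> simp
  rw [h1]
  have h5 : ∑ d ∈ g.divisors, (ArithmeticFunction.moebius d : ℂ) = if g = 1 then 1 else 0 := by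
    have h6 := congrArg (fun f : ArithmeticFunction ℤ => f g)
      ArithmeticFunction.moebius_mul_coe_zeta
    rw [ArithmeticFunction.coe_mul_zeta_apply, ArithmeticFunction.one_apply] at h6
    have h7 : ((∑ i ∈ g.divisors, ArithmeticFunction.moebius i : ℤ) : ℂ) =
        ((if g = 1 then (1 : ℤ) else 0 : ℤ) : ℂ) := by rw [h6]
    push_cast at h7
    rw [h7]
  rw [h5]
  by_cases hp : Pv v
  · have hp' : g = 1 := hp
    rw [if_pos hp, if_pos hp', one_mul]
  · have hp' : ¬ g = 1 := hp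
    rw [if_neg hp, if_neg hp', zero_mul]

/-- multiples of `d` in a shell -/
theorem mult (z : ℂ) (K : ℕ) (ψ : GaussianInt → ℂ) (hψ : Chr K ψ) (j : ℤ) (a b : ℝ) (d : ℕ)
    (hd : 0 < d) :
    ∑ v ∈ (Sh a b).filter (fun v => d ∣ Int.gcd v.re v.im), FF z ψ j v =
      FF z ψ j d * ∑ v ∈ Sh (a / d ^ 2) (b / d ^ 2), FF z ψ j v := by
  classical
  have hd0 : (d : GaussianInt) ≠ 0 := by exact_mod_cast hd.ne'
  have hdr : (0 : ℝ) < (d : ℝ) ^ 2 := by positivity
  rw [Finset.mul_sum]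
  symm
  apply Finset.sum_nbij (fun m => (d : GaussianInt) * m)
  · intro m hm
    rw [mem_Sh] at hm
    rw [Finset.mem_filter, mem_Sh, ← dvd_iff, nm_mul, nm_nat]
    push_cast
    refine ⟨⟨mul_ne_zero hd0 hm.1, ?_, ?_⟩, Dvd.intro _ rfl⟩
    · have := hm.2.1
      rw [div_lt_iff₀ hdr] at this
      linarith
    · have := hm.2.2
      rw [le_div_iff₀ hdr] at this
      linarith
  · intro x _ y _ h
    exact mul_left_cancel₀ hd0 h
  · intro v hv
    rw [Finset.mem_coe, Finset.mem_filter, mem_Sh, ← dvd_iff] at hv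
    obtain ⟨m, rfl⟩ := hv.2
    refine ⟨m, ?_, rfl⟩
    rw [Finset.mem_coe, mem_Sh]
    have h1 := hv.1.2
    rw [nm_mul, nm_nat] at h1
    push_cast at h1
    refine ⟨fun h => hv.1.1 (by rw [h, mul_zero]), ?_, ?_⟩
    · rw [div_lt_iff₀ hdr]
      linarith [h1.1]
    · rw [le_div_iff₀ hdr]
      linarith [h1.2]
  · intro m hm
    rw [mem_Sh] at hm
    exact (FF_mul hψ z j hd0 hm.1).symm

/-- the identity -/
theorem ident (z : ℂ) (K : ℕ) (ψ : GaussianInt → ℂ) (hψ : Chr K ψ) (j : ℤ) (r1 r2 N : ℝ)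
    (hN : 0 < N) (D : ℕ) (hD : r2 * N < (D + 1) ^ 2) :
    Mp z ψ r1 r2 N j = ∑ d ∈ Finset.range (D + 1), (ArithmeticFunction.moebius d : ℂ) *
      FF z ψ j d * (1 / (d : ℂ) ^ 2) * Ma z ψ r1 r2 (N / d ^ 2) j := by
  unfold Mp
  rw [moeb (Sh (r1 * N) (r2 * N)) D ?_ (FF z ψ j), Finset.mul_sum]
  · refine Finset.sum_congr rfl fun d _ => ?_
    rcases Nat.eq_zero_or_pos d with h0 | h0
    · rw [h0]
      simp
    · rw [mult z K ψ hψ j _ _ d h0]
      unfold Ma
      have h1 : r1 * N / (d : ℝ) ^ 2 = r1 * (N / (d : ℝ) ^ 2) := by ring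
      have h2 : r2 * N / (d : ℝ) ^ 2 = r2 * (N / (d : ℝ) ^ 2) := by ring
      rw [h1, h2]
      have h3 : (N : ℂ) ≠ 0 := by exact_mod_cast hN.ne'
      have h4 : (d : ℂ) ≠ 0 := by exact_mod_cast h0.ne'
      push_cast
      field_simp
  · intro v hv
    rw [mem_Sh] at hv
    refine ⟨hv.1, ?_⟩
    have h1 : (nm v : ℝ) < ((D : ℝ) + 1) ^ 2 := hv.2.2.trans_lt hD
    exact_mod_cast h1

theorem FF_le (z : ℂ) (hz : ‖z‖ = 1) (K : ℕ) (ψ : GaussianInt → ℂ) (hψ : Chr K ψ) (j : ℤ)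
    (v : GaussianInt) (hv : v ≠ 0) : ‖FF z ψ j v‖ ≤ 1 := by
  unfold FF
  rw [norm_mul, norm_mul, norm_pow, hz, one_pow, one_mul, norm_zpow, norm_ag hv, one_zpow,
    mul_one]
  by_cases h : IsCoprime v (K : GaussianInt)
  · exact (hψ.nrm v h).le
  · rw [hψ.zer v h, norm_zero]
    exact zero_le_one

/-- number of points of a shell -/
theorem card_Sh (a b : ℝ) (hb : 0 ≤ b) : ((Sh a b).card : ℝ) ≤ 24 * b := by
  classical
  rcases lt_or_ge b 1 with h | h
  · have : Sh a b = ∅ := by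
      rw [Finset.eq_empty_iff_forall_notMem]
      intro v hv
      rw [mem_Sh] at hv
      have h1 : 1 ≤ nm v := Nat.one_le_iff_ne_zero.2 (mt nm_eq_zero.1 hv.1)
      have h2 : (1 : ℝ) ≤ nm v := by exact_mod_cast h1
      linarith [hv.2.2]
    rw [this]
    simp only [Finset.card_empty, Nat.cast_zero]
    linarith
  · have hsub : Sh a b ⊆ Tk84.gball ⌊b⌋₊ := by
      intro v hv
      rw [mem_Sh] at hv
      rw [Tk84.mem_gball]
      exact Nat.le_floor hv.2.2
    have h1 : ((Sh a b).card : ℝ) ≤ ((Tk84.gball ⌊b⌋₊).card : ℝ) := by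
      exact_mod_cast Finset.card_le_card hsub
    have h2 := Tk84.card_le ⌊b⌋₊ (Nat.le_floor (by simpa using h))
    have h3 : (⌊b⌋₊ : ℝ) ≤ b := Nat.floor_le hb
    linarith

theorem Ma_le (z : ℂ) (hz : ‖z‖ = 1) (K : ℕ) (ψ : GaussianInt → ℂ) (hψ : Chr K ψ) (j : ℤ)
    (r1 r2 N : ℝ) (hr2 : 0 ≤ r2) (hN : 0 ≤ N) : ‖Ma z ψ r1 r2 N j‖ ≤ 24 * r2 := by
  rcases hN.lt_or_eq with h0 | h0
  · unfold Ma
    rw [norm_mul, norm_div, norm_one, Complex.norm_real, Real.norm_of_nonneg hN,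
      one_div_mul_eq_div, div_le_iff₀ h0]
    calc _ ≤ ∑ v ∈ Sh (r1 * N) (r2 * N), ‖FF z ψ j v‖ := norm_sum_le _ _
      _ ≤ ∑ v ∈ Sh (r1 * N) (r2 * N), (1 : ℝ) := Finset.sum_le_sum fun v hv =>
          FF_le z hz K ψ hψ j v (mem_Sh.1 hv).1
      _ = ((Sh (r1 * N) (r2 * N)).card : ℝ) := by
          rw [Finset.sum_const, nsmul_eq_mul, mul_one]
      _ ≤ 24 * (r2 * N) := card_Sh _ _ (by positivity)
      _ = _ := by ring
  · unfold Ma
    rw [← h0]
    simp only [Complex.ofReal_zero, div_zero, zero_mul, norm_zero]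
    positivity

/-- **primitive vectors from all vectors**, frequency fixed -/
theorem prim_tendsto (z : ℂ) (hz : ‖z‖ = 1) (K : ℕ) (ψ : GaussianInt → ℂ) (hψ : Chr K ψ) (j : ℤ)
    (r1 r2 : ℝ) (hr2 : 0 ≤ r2) (h : Tendsto (fun N : ℝ => Ma z ψ r1 r2 N j) atTop (𝓝 0)) :
    Tendsto (fun N : ℝ => Mp z ψ r1 r2 N j) atTop (𝓝 0) := by
  set t : ℝ → ℕ → ℂ := fun N d => (ArithmeticFunction.moebius d : ℂ) *
      FF z ψ j d * (1 / (d : ℂ) ^ 2) * Ma z ψ r1 r2 (N / d ^ 2) j with ht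
  -- the tsum identity
  have hid : ∀ N : ℝ, 0 < N → Mp z ψ r1 r2 N j = ∑' d : ℕ, t N d := by
    intro N hN
    set D : ℕ := ⌈r2 * N⌉₊ with hD
    have hD' : r2 * N < ((D : ℝ) + 1) ^ 2 := by
      have h1 : r2 * N ≤ D := Nat.le_ceil _
      have h2 : (0 : ℝ) ≤ D := Nat.cast_nonneg D
      nlinarith
    rw [ident z K ψ hψ j r1 r2 N hN D hD']
    symm
    apply tsum_eq_sum
    intro d hd
    rw [Finset.mem_range, not_lt] at hd
    have hemp : Sh (r1 * (N / (d : ℝ) ^ 2)) (r2 * (N / (d : ℝ) ^ 2)) = ∅ := by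
      rw [Finset.eq_empty_iff_forall_notMem]
      intro v hv
      rw [mem_Sh] at hv
      have h1 : 1 ≤ nm v := Nat.one_le_iff_ne_zero.2 (mt nm_eq_zero.1 hv.1)
      have h2 : (1 : ℝ) ≤ nm v := by exact_mod_cast h1
      have hd1 : (D : ℝ) + 1 ≤ d := by exact_mod_cast hd
      have hdp : (0 : ℝ) < d := by
        have : (0 : ℝ) ≤ D := Nat.cast_nonneg D
        linarith
      have h3 : r2 * (N / (d : ℝ) ^ 2) < 1 := by
        rw [← mul_div_assoc, div_lt_one (by positivity)]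
        refine hD'.trans_le ?_
        exact pow_le_pow_left₀ (by positivity) hd1 2
      linarith [hv.2.2]
    rw [ht]
    simp only
    unfold Ma
    rw [hemp]
    simp
  have hlim : Tendsto (fun N : ℝ => ∑' d : ℕ, t N d) atTop (𝓝 (∑' _d : ℕ, (0 : ℂ))) := by
    apply tendsto_tsum_of_dominated_convergence (bound := fun d : ℕ => (24 * r2) * (1 / (d : ℝ) ^ 2))
    · exact (Real.summable_one_div_nat_pow.2 (by norm_num)).mul_left _
    · intro d
      rcases Nat.eq_zero_or_pos d with h0 | h0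
      · rw [ht]
        simp only [h0]
        simp
      · have h1 : Tendsto (fun N : ℝ => N / (d : ℝ) ^ 2) atTop atTop :=
          tendsto_id.atTop_div_const (by positivity)
        have h2 := (h.comp h1).const_mul ((ArithmeticFunction.moebius d : ℂ) *
          FF z ψ j d * (1 / (d : ℂ) ^ 2))
        rw [mul_zero] at h2
        exact h2
    · filter_upwards [eventually_gt_atTop (0 : ℝ)] with N hN d
      rcases Nat.eq_zero_or_pos d with h0 | h0
      · rw [ht]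
        simp only [h0]
        simp
      · rw [ht]
        simp only
        rw [norm_mul, norm_mul, norm_mul]
        have hd0 : (d : GaussianInt) ≠ 0 := by exact_mod_cast h0.ne'
        have e1 : ‖(ArithmeticFunction.moebius d : ℂ)‖ ≤ 1 := by
          rw [Complex.norm_intCast]
          exact_mod_cast ArithmeticFunction.abs_moebius_le_one
        have e2 := FF_le z hz K ψ hψ j (d : GaussianInt) hd0
        have e3 : ‖(1 / (d : ℂ) ^ 2)‖ = 1 / (d : ℝ) ^ 2 := by
          rw [norm_div, norm_one, norm_pow, Complex.norm_natCast]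
        have e4 := Ma_le z hz K ψ hψ j r1 r2 (N / (d : ℝ) ^ 2) hr2 (by positivity)
        rw [e3]
        calc _ ≤ 1 * 1 * (1 / (d : ℝ) ^ 2) * (24 * r2) := by gcongr
          _ = _ := by ring
  rw [tsum_zero] at hlim
  refine hlim.congr' ?_
  filter_upwards [eventually_gt_atTop (0 : ℝ)] with N hN
  exact (hid N hN).symm

end PrimPw84

end Pool.Agent.Lib.MP_a17b09_nt.MRS
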