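import Pool.Agent.Lib.MP_a17b09_nt.MRS.RBig67
import Pool.Agent.Lib.MP_a17b09_nt.MRS.BifN67

/-!
Exponential sums for indefinite forms: large frequencies, the final bound.
-/

set_option autoImplicit false

namespace Pool.Agent.XR67

open Finset Complex Pool.Agent.MR36 Pool.Agent.X67

theorem ng1 (K s : ℝ) (hK : 1 ≤ K) (hs : 1 ≤ s) : 2 * (4 * K ^ 3 * s) + 1 ≤ 9 * K ^ 3 * s := by
  have h1 : 1 ≤ K ^ 3 := one_le_pow₀ hK
  have h2 : 1 ≤ K ^ 3 * s := one_le_mul_of_one_le_of_one_le h1 hs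
  have e : 9 * K ^ 3 * s = 2 * (4 * K ^ 3 * s) + K ^ 3 * s := by ring
  linarith

theorem ng2 (K s : ℝ) (hK : 1 ≤ K) (hs : 1 ≤ s) : 2 * (5 * K ^ 3 * s) + 1 ≤ 11 * K ^ 3 * s := by
  have h1 : 1 ≤ K ^ 3 := one_le_pow₀ hK
  have h2 : 1 ≤ K ^ 3 * s := one_le_mul_of_one_le_of_one_le h1 hs
  have e : 11 * K ^ 3 * s = 2 * (5 * K ^ 3 * s) + K ^ 3 * s := by ring
  linarith

theorem ng3 (K : ℝ) (hK : 1 ≤ K) : K ^ 3 * K ^ 2 ≤ K ^ 7 := by
  have e : K ^ 3 * K ^ 2 = K ^ 5 := by ring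
  rw [e]
  exact pow_le_pow_right₀ hK (by norm_num)

theorem ng4 {K s M T2 T4 y : ℝ} (hK : 1 ≤ K) (hs : 1 ≤ s) (hM0 : 0 ≤ M) (hT2 : 0 < T2)
    (hT : T4 = T2 * T2) (hM1 : M ≤ s / T4) (hy : 0 < y) (i2r : 1 / T2 ≤ y) (i4r : 1 / T4 ≤ y)
    (hone : 1 ≤ s * y) :
    2 * ((2 * (5 * K ^ 3 * s) + 1) * (2 * (Real.sqrt (2 * K * (40 * K ^ 2 * s * M)) + 1))) +
      2 * ((2 * (5 * K ^ 3 * s) + 1) * (4 * K ^ 2 * (12 * K ^ 2 * M) + 1)) ≤
      1518 * K ^ 7 * (s ^ 2 * y) := by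
  have hKp : 0 < K := by linarith
  have hs0 : 0 < s := by linarith
  have hT4 : 0 < T4 := by rw [hT]; positivity
  have h4 := ng2 K s hK hs
  have h5 : Real.sqrt (2 * K * (40 * K ^ 2 * s * M)) ≤ 9 * K ^ 2 * (s * y) := by
    have h6 : Real.sqrt (2 * K * (40 * K ^ 2 * s * M)) ≤ 9 * K ^ 2 * (s * (1 / T2)) := by
      apply Real.sqrt_le_iff.2
      refine ⟨by positivity, ?_⟩
      calc 2 * K * (40 * K ^ 2 * s * M) ≤ 2 * K * (40 * K ^ 2 * s * (s / T4)) := by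
            gcongr
        _ = 80 * K ^ 3 * (s ^ 2 / T4) := by ring
        _ ≤ 81 * K ^ 4 * (s ^ 2 / T4) := by
          have i1 : K ^ 3 ≤ K ^ 4 := pow_le_pow_right₀ hK (by norm_num)
          have i2 : (0 : ℝ) ≤ K ^ 4 := by positivity
          have i3 : 80 * K ^ 3 ≤ 81 * K ^ 4 := by linarith
          gcongr
        _ = (9 * K ^ 2 * (s * (1 / T2))) ^ 2 := by
          rw [hT]
          field_simp
          ring
    refine h6.trans ?_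
    gcongr
  have h7 : Real.sqrt (2 * K * (40 * K ^ 2 * s * M)) + 1 ≤ 10 * K ^ 2 * (s * y) := by
    have i1 : 1 ≤ K ^ 2 * (s * y) :=
      one_le_mul_of_one_le_of_one_le (one_le_pow₀ hK) hone
    have e : 10 * K ^ 2 * (s * y) = 9 * K ^ 2 * (s * y) + K ^ 2 * (s * y) := by
      ring
    linarith
  have h8 : 4 * K ^ 2 * (12 * K ^ 2 * M) + 1 ≤ 49 * K ^ 4 * (s * y) := by
    have i1 : 1 ≤ K ^ 4 * (s * y) :=
      one_le_mul_of_one_le_of_one_le (one_le_pow₀ hK) hone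
    have i2 : M ≤ s * y := by
      calc M ≤ s / T4 := hM1
        _ = s * (1 / T4) := by ring
        _ ≤ s * y := by gcongr
    have i3 : 48 * K ^ 4 * M ≤ 48 * K ^ 4 * (s * y) := by gcongr
    have e1 : 4 * K ^ 2 * (12 * K ^ 2 * M) = 48 * K ^ 4 * M := by ring
    have e2 : 49 * K ^ 4 * (s * y) = 48 * K ^ 4 * (s * y) + K ^ 4 * (s * y) := by ring
    rw [e1, e2]
    linarith
  have p1 : (0 : ℝ) ≤ Real.sqrt (2 * K * (40 * K ^ 2 * s * M)) + 1 := by positivity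
  have p2 : (0 : ℝ) ≤ 4 * K ^ 2 * (12 * K ^ 2 * M) + 1 := by positivity
  have p3 : (0 : ℝ) ≤ 11 * K ^ 3 * s := by positivity
  calc 2 * ((2 * (5 * K ^ 3 * s) + 1) * (2 * (Real.sqrt (2 * K * (40 * K ^ 2 * s * M)) + 1))) +
        2 * ((2 * (5 * K ^ 3 * s) + 1) * (4 * K ^ 2 * (12 * K ^ 2 * M) + 1))
      ≤ 2 * ((11 * K ^ 3 * s) * (2 * (10 * K ^ 2 * (s * y)))) +
        2 * ((11 * K ^ 3 * s) * (49 * K ^ 4 * (s * y))) := by gcongr
    _ = 440 * (K ^ 3 * K ^ 2) * (s ^ 2 * y) + 1078 * K ^ 7 * (s ^ 2 * y) := by ring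
    _ ≤ 440 * K ^ 7 * (s ^ 2 * y) + 1078 * K ^ 7 * (s ^ 2 * y) := by
      have i1 := ng3 K hK
      gcongr
    _ = 1518 * K ^ 7 * (s ^ 2 * y) := by ring

theorem ng5 {K2 Y c : ℝ} (r : ℕ) (hr : 1 ≤ r) (hr' : (1 : ℝ) ≤ r) (hY : 1 ≤ Y) (hK21 : 1 ≤ K2)
    (hc : c = 1 / (96 * 2 ^ r * (r + 1))) :
    (K2 * Y ^ (-(1 / 96) : ℝ)) ^ (1 / 2 ^ (r - 1) : ℝ) ≤ K2 * Y ^ (-c) := by
  have hY00 : 0 < Y := by linarith
  have posp : ∀ a : ℝ, 0 < Y ^ a := fun a => Real.rpow_pos_of_pos hY00 a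
  rw [Real.mul_rpow (by linarith) (posp _).le, ← Real.rpow_mul hY00.le]
  have h3 : K2 ^ (1 / 2 ^ (r - 1) : ℝ) ≤ K2 := by
    have h4 : (1 : ℝ) / 2 ^ (r - 1) ≤ 1 := by
      rw [div_le_one (by positivity)]
      exact one_le_pow₀ (by norm_num)
    calc K2 ^ (1 / 2 ^ (r - 1) : ℝ) ≤ K2 ^ (1 : ℝ) := Real.rpow_le_rpow_of_exponent_le hK21 h4
      _ = K2 := Real.rpow_one K2
  have h4 : Y ^ (-(1 / 96) * (1 / 2 ^ (r - 1)) : ℝ) ≤ Y ^ (-c) := by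
    apply Real.rpow_le_rpow_of_exponent_le hY
    have h5 : (2 : ℝ) ^ r = 2 * 2 ^ (r - 1) := by
      rw [← pow_succ']
      congr 1
      omega
    have h6 : c ≤ 1 / (96 * 2 ^ (r - 1)) := by
      rw [hc]
      apply one_div_le_one_div_of_le (by positivity)
      rw [h5]
      exact nf9 _ _ (by positivity) hr'
    have h7 : (-(1 / 96) * (1 / 2 ^ (r - 1)) : ℝ) = -(1 / (96 * 2 ^ (r - 1))) := by
      field_simp
    rw [h7]
    linarith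
  have h5 := posp (-(1 / 96) * (1 / 2 ^ (r - 1)))
  have h6 := posp (-c)
  have h7 : (0 : ℝ) ≤ K2 := by linarith
  gcongr

theorem ng6 {Y θr M CC Lr : ℝ} (r : ℕ) (hY : 1 ≤ Y) (hM' : 1 ≤ M) (hM4 : Y ^ (1 / 4 : ℝ) ≤ 2 * M)
    (hθ0 : 0 < θr) (lo1 : Y ^ (1 / 48 : ℝ) ≤ θr) (hCC : 0 ≤ CC)
    (hLb : Lr ≤ (1 + 96 * r) ^ r * Y ^ (1 / 96 : ℝ)) :
    CC * (1 / M + 10 * 4 ^ r / θr * Lr) ≤
      CC * (2 + 10 * 4 ^ r * (1 + 96 * r) ^ r) * Y ^ (-(1 / 96) : ℝ) := by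
  have hY00 : 0 < Y := by linarith
  have addp : ∀ a b : ℝ, Y ^ a * Y ^ b = Y ^ (a + b) := fun a b =>
    (Real.rpow_add hY00 a b).symm
  have hp := Real.rpow_pos_of_pos hY00 (-(1 / 96))
  have h3 : 1 / M ≤ 2 * Y ^ (-(1 / 96) : ℝ) := by
    rw [div_le_iff₀ (by linarith)]
    have h4 : Y ^ (-(1 / 96) : ℝ) * Y ^ (1 / 4 : ℝ) ≤ Y ^ (-(1 / 96) : ℝ) * (2 * M) :=
      mul_le_mul_of_nonneg_left hM4 hp.le
    rw [addp] at h4
    have h5 : (1 : ℝ) ≤ Y ^ (-(1 / 96) + 1 / 4 : ℝ) := Real.one_le_rpow hY (by norm_num)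
    linarith
  have h4 : 10 * 4 ^ r / θr * Lr ≤
      10 * 4 ^ r * (1 + 96 * r) ^ r * Y ^ (-(1 / 96) : ℝ) := by
    rw [div_mul_eq_mul_div, div_le_iff₀ hθ0]
    calc 10 * 4 ^ r * Lr ≤ 10 * 4 ^ r * ((1 + 96 * r) ^ r * Y ^ (1 / 96 : ℝ)) :=
          mul_le_mul_of_nonneg_left hLb (by positivity)
      _ = 10 * 4 ^ r * (1 + 96 * r) ^ r * (Y ^ (-(1 / 96) : ℝ) * Y ^ (1 / 48 : ℝ)) := by
        rw [addp]
        rw [show (-(1 / 96) + 1 / 48 : ℝ) = 1 / 96 by norm_num]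
        ring
      _ ≤ 10 * 4 ^ r * (1 + 96 * r) ^ r * (Y ^ (-(1 / 96) : ℝ) * θr) :=
        mul_le_mul_of_nonneg_left (mul_le_mul_of_nonneg_left lo1 hp.le) (by positivity)
      _ = _ := by ring
  calc CC * (1 / M + 10 * 4 ^ r / θr * Lr)
      ≤ CC * (2 * Y ^ (-(1 / 96) : ℝ) +
          10 * 4 ^ r * (1 + 96 * r) ^ r * Y ^ (-(1 / 96) : ℝ)) :=
        mul_le_mul_of_nonneg_left (add_le_add h3 h4) hCC
    _ = _ := by ring

/-- large frequencies -/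
theorem rbig_main {a1 b1 a2 b2 K : ℝ} (hd : Dat a1 b1 a2 b2 K) (r : ℕ) (hr : 1 ≤ r)
    (c : ℝ) (hc : c = 1 / (96 * 2 ^ r * (r + 1)))
    (Y0 : ℝ) (hY0 : Y0 = (8 * (r.factorial : ℝ) * K ^ (2 * r)) ^ 24)
    (K2 : ℝ) (hK2 : K2 = CC36 (r - 1) * (2 + 10 * 4 ^ r * (1 + 96 * r) ^ r))
    (Y Y1 Y2 l1 l2 tau : ℝ) (w : ℝ × ℝ) (S : Finset (ℤ × ℤ)) (hY : 1 ≤ Y) (hYY : Y0 ≤ Y)
    (h1 : Y ≤ Y1) (h2 : Y2 ≤ 2 * Y) (hl1 : 1 / K ≤ l1) (hl12 : l1 ≤ l2) (hl2 : l2 ≤ K)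
    (ht1 : Y ^ ((2 * r - 1) / 8 : ℝ) ≤ |tau|) (ht2 : |tau| ≤ Y ^ ((2 * r + 1) / 8 : ℝ))
    (hS : ∀ n, n ∈ S ↔ Reg a1 b1 a2 b2 Y1 Y2 l1 l2 (pt w n)) :
    ‖∑ n ∈ S, ph tau (ff a1 b1 (pt w n)) (ff a2 b2 (pt w n))‖ ≤
      (81 * K ^ 6 * (4 * K ^ (2 * (r + 1)) + K2) + 54 * K ^ 4 + 1518 * K ^ 7) * Y ^ (1 - c) := by
  classical
  have hK := hd.hK
  have hKp : 0 < K := by linarith
  have hr' : (1 : ℝ) ≤ r := by exact_mod_cast hr
  have hY00 : 0 < Y := by linarith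
  have hC1 : 1 ≤ CC36 (r - 1) := CC_ge36 _
  have hK21 : 1 ≤ K2 := by
    rw [hK2]
    exact nf1 _ _ hC1 (by positivity)
  -- the exponent
  have h2r : (1 : ℝ) ≤ 2 ^ r := one_le_pow₀ (by norm_num)
  have h2r2 : (2 : ℝ) ≤ 2 ^ r := by
    calc (2 : ℝ) = 2 ^ 1 := by norm_num
      _ ≤ 2 ^ r := pow_le_pow_right₀ (by norm_num) hr
  have hc0 : 0 < c := by rw [hc]; positivity
  have hcr : c * (r + 1) = 1 / (96 * 2 ^ r) := by
    rw [hc]; field_simp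
  have hcr1 : c * (r + 1) ≤ 1 / 192 := by
    rw [hcr]
    apply one_div_le_one_div_of_le (by norm_num)
    linarith
  have hc1 : c ≤ 1 / 384 := nf2 c r hc0 hr' hcr1
  have hc48 : c ≤ 1 / (48 * r) := by
    rw [hc]
    apply one_div_le_one_div_of_le (by positivity)
    exact nf3 _ _ h2r2 hr'
  have mono : ∀ a b : ℝ, a ≤ b → Y ^ a ≤ Y ^ b := fun a b hab =>
    Real.rpow_le_rpow_of_exponent_le hY hab
  have addp : ∀ a b : ℝ, Y ^ a * Y ^ b = Y ^ (a + b) := fun a b =>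
    (Real.rpow_add hY00 a b).symm
  have powp : ∀ (a : ℝ) (k : ℕ), (Y ^ a) ^ k = Y ^ (a * k) := fun a k =>
    (Real.rpow_mul_natCast hY00.le a k).symm
  have posp : ∀ a : ℝ, 0 < Y ^ a := fun a => Real.rpow_pos_of_pos hY00 a
  have onep : ∀ a : ℝ, 0 ≤ a → 1 ≤ Y ^ a := fun a ha => Real.one_le_rpow hY ha
  have invp : ∀ a : ℝ, (Y ^ a)⁻¹ = Y ^ (-a) := fun a => (Real.rpow_neg hY00.le a).symm
  -- theta
  set n : ℕ := 2 * r * (2 * r + 1) with hn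
  have hn0 : n ≠ 0 := by
    rw [hn]; positivity
  have hnr : (n : ℝ) = 2 * r * (2 * r + 1) := by rw [hn]; push_cast; ring
  set θ : ℝ := |tau| ^ ((n : ℝ)⁻¹) with hθd
  have hθn : θ ^ n = |tau| := Real.rpow_inv_natCast_pow (abs_nonneg _) hn0
  have hninv : (0 : ℝ) ≤ (n : ℝ)⁻¹ := by positivity
  have hθlo : Y ^ (1 / (48 * r) : ℝ) ≤ θ := by
    have h3 : (Y ^ ((2 * r - 1) / 8 : ℝ)) ^ ((n : ℝ)⁻¹) ≤ θ :=
      Real.rpow_le_rpow (posp _).le ht1 hninv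
    refine le_trans ?_ h3
    rw [← Real.rpow_mul hY00.le]
    apply mono
    rw [hnr, ← div_eq_mul_inv, div_div, div_le_div_iff₀ (by positivity) (by positivity)]
    exact nf4 r hr'
  have hθhi : θ ≤ Y ^ (1 / (16 * r) : ℝ) := by
    have h3 : θ ≤ (Y ^ ((2 * r + 1) / 8 : ℝ)) ^ ((n : ℝ)⁻¹) :=
      Real.rpow_le_rpow (abs_nonneg _) ht2 hninv
    refine h3.trans ?_
    rw [← Real.rpow_mul hY00.le]
    apply mono
    rw [hnr, ← div_eq_mul_inv, div_div, div_le_div_iff₀ (by positivity) (by positivity)]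
    exact nf5 r
  have hθ1 : 1 ≤ θ := (onep _ (by positivity)).trans hθlo
  have hθ0 : 0 < θ := by linarith
  have lowk : ∀ k : ℕ, Y ^ ((1 / (48 * r) : ℝ) * ((k * r : ℕ) : ℝ)) ≤ θ ^ (k * r) := by
    intro k
    rw [← powp]
    exact pow_le_pow_left₀ (posp _).le hθlo _
  have hik : ∀ k : ℕ, θ ^ (k * r) ≤ Y ^ ((1 / (16 * r) : ℝ) * ((k * r : ℕ) : ℝ)) := by
    intro k
    rw [← powp]
    exact pow_le_pow_left₀ hθ0.le hθhi _
  have lo1 : Y ^ (1 / 48 : ℝ) ≤ θ ^ r := by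
    have := lowk 1
    rw [one_mul] at this
    refine le_trans (le_of_eq ?_) this
    congr 1
    field_simp
  have lo2 : Y ^ (1 / 24 : ℝ) ≤ θ ^ (2 * r) := by
    refine le_trans (le_of_eq ?_) (lowk 2)
    congr 1
    push_cast
    field_simp
    norm_num
  have lo4 : Y ^ (1 / 12 : ℝ) ≤ θ ^ (4 * r) := by
    refine le_trans (le_of_eq ?_) (lowk 4)
    congr 1
    push_cast
    field_simp
    norm_num
  have hi4 : θ ^ (4 * r) ≤ Y ^ (1 / 4 : ℝ) := by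
    refine (hik 4).trans (le_of_eq ?_)
    congr 1
    push_cast
    field_simp
    norm_num
  have hi6 : θ ^ (6 * r) ≤ Y ^ (3 / 8 : ℝ) := by
    refine (hik 6).trans (le_of_eq ?_)
    congr 1
    push_cast
    field_simp
    norm_num
  have hθ8 : θ ≤ Y ^ (1 / 8 : ℝ) := by
    refine hθhi.trans (mono _ _ ?_)
    rw [div_le_div_iff₀ (by positivity) (by positivity)]
    linarith
  -- s and M
  set s : ℝ := Real.sqrt Y with hsd
  have hsY : s = Y ^ (1 / 2 : ℝ) := Real.sqrt_eq_rpow Y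
  have hs : 1 ≤ s := Real.one_le_sqrt.2 hY
  have hs0 : 0 < s := by linarith
  have hssq : s ^ 2 = Y := Real.sq_sqrt hY00.le
  set x : ℝ := s / θ ^ (4 * r) with hx
  have hx1 : Y ^ (1 / 4 : ℝ) ≤ x := by
    rw [hx, le_div_iff₀ (by positivity)]
    calc Y ^ (1 / 4 : ℝ) * θ ^ (4 * r) ≤ Y ^ (1 / 4 : ℝ) * Y ^ (1 / 4 : ℝ) := by
          gcongr
      _ = s := by rw [addp, hsY]; norm_num
  have hx0 : 1 ≤ x := (onep _ (by norm_num)).trans hx1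
  set M : ℕ := ⌊x⌋₊ with hMd
  have hM : 1 ≤ M := Nat.le_floor (by exact_mod_cast hx0)
  have hM' : (1 : ℝ) ≤ M := by exact_mod_cast hM
  have hM1 : (M : ℝ) ≤ x := Nat.floor_le (by linarith)
  have hM2 : x ≤ 2 * M := by
    have := Nat.lt_floor_add_one x
    rw [← hMd] at this
    linarith
  -- Y is large
  have hKr : 1 ≤ K ^ (2 * r) := one_le_pow₀ hK
  have hfac : (1 : ℝ) ≤ r.factorial := by exact_mod_cast Nat.factorial_pos r
  have hbig : 8 * (r.factorial : ℝ) * K ^ (2 * r) ≤ Y ^ (1 / 24 : ℝ) := by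
    have h3 : (0 : ℝ) ≤ 8 * (r.factorial : ℝ) * K ^ (2 * r) := by positivity
    have h4 := Real.rpow_le_rpow (by positivity)
      (hY0 ▸ hYY : (8 * (r.factorial : ℝ) * K ^ (2 * r)) ^ 24 ≤ Y)
      (show (0 : ℝ) ≤ 1 / 24 by norm_num)
    have h5 : ((8 * (r.factorial : ℝ) * K ^ (2 * r)) ^ 24) ^ (1 / 24 : ℝ) =
        8 * r.factorial * K ^ (2 * r) := by
      rw [← Real.rpow_natCast, ← Real.rpow_mul h3]
      norm_num
    rwa [h5] at h4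
  have hfac2 : ((r - 1).factorial : ℝ) ≤ r.factorial := by
    exact_mod_cast Nat.factorial_le (by omega)
  have hK8 : 8 * K ^ 2 ≤ Y ^ (1 / 24 : ℝ) := by
    refine le_trans ?_ hbig
    have h3 : K ^ 2 ≤ K ^ (2 * r) := pow_le_pow_right₀ hK (by omega)
    calc 8 * K ^ 2 ≤ 8 * K ^ (2 * r) := by linarith
      _ = 8 * 1 * K ^ (2 * r) := by ring
      _ ≤ 8 * (r.factorial : ℝ) * K ^ (2 * r) := by gcongr
  have hK84 : 8 * K ^ 2 ≤ θ ^ (4 * r) := (hK8.trans (mono _ _ (by norm_num))).trans lo4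
  have hqθ2 : K ^ 2 / θ ^ (4 * r) ≤ 1 / 2 := by
    rw [div_le_div_iff₀ (by positivity) (by norm_num)]
    have : 0 ≤ K ^ 2 := by positivity
    linarith
  have hsm : 2 * ((r - 1).factorial : ℝ) * K ^ (2 * r) * θ ^ (6 * r) / s ≤ 1 := by
    rw [div_le_one hs0]
    calc 2 * ((r - 1).factorial : ℝ) * K ^ (2 * r) * θ ^ (6 * r)
        ≤ Y ^ (1 / 24 : ℝ) * Y ^ (3 / 8 : ℝ) := by
          have h4 : 2 * ((r - 1).factorial : ℝ) * K ^ (2 * r) ≤ Y ^ (1 / 24 : ℝ) := by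
            refine le_trans ?_ hbig
            have : 2 * ((r - 1).factorial : ℝ) ≤ 8 * (r.factorial : ℝ) := by linarith
            gcongr
          gcongr
      _ = Y ^ (1 / 24 + 3 / 8 : ℝ) := by rw [addp]
      _ ≤ s := by rw [hsY]; apply mono; norm_num
  -- the harmonic sum
  set L : ℝ := ∑ h ∈ Icc 1 M, 1 / (h : ℝ) with hL
  have hL0 : 0 ≤ L := Finset.sum_nonneg fun _ _ => by positivity
  have hxs : x ≤ s := by
    rw [hx]
    apply div_le_self hs0.le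
    exact one_le_pow₀ hθ1
  have hLb : L ^ (r - 1) ≤ (1 + 96 * r) ^ r * Y ^ (1 / 96 : ℝ) := by
    have hMY : (M : ℝ) ≤ Y := nf6 _ _ _ _ hM1 hxs hs hssq
    have h3 := harm36 M Y hM hMY
    have h4 : Real.log Y ≤ Y ^ (1 / (96 * r) : ℝ) / (1 / (96 * r)) :=
      Real.log_le_rpow_div hY00.le (by positivity)
    have h5 : (1 : ℝ) ≤ Y ^ (1 / (96 * r) : ℝ) := onep _ (by positivity)
    rw [div_div_eq_mul_div, div_one] at h4
    have h6 : L ≤ (1 + 96 * r) * Y ^ (1 / (96 * r) : ℝ) := nf7 _ _ _ _ h3 h4 h5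
    have h7 : (1 : ℝ) ≤ (1 + 96 * r) * Y ^ (1 / (96 * r) : ℝ) := nf8 _ _ h5 hr'
    calc L ^ (r - 1) ≤ ((1 + 96 * r) * Y ^ (1 / (96 * r) : ℝ)) ^ (r - 1) :=
          pow_le_pow_left₀ hL0 h6 _
      _ ≤ ((1 + 96 * r) * Y ^ (1 / (96 * r) : ℝ)) ^ r := pow_le_pow_right₀ h7 (by omega)
      _ = (1 + 96 * r) ^ r * Y ^ (1 / 96 : ℝ) := by
        rw [mul_pow, powp]
        congr 2
        field_simp
  -- the two errors
  have he1 : 4 * K ^ (2 * (r + 1)) / θ ^ (2 * r) ≤ 4 * K ^ (2 * (r + 1)) * Y ^ (-c) := by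
    rw [div_le_iff₀ (by positivity)]
    have h3 : 1 ≤ Y ^ (-c) * θ ^ (2 * r) := by
      calc (1 : ℝ) ≤ Y ^ (-c + 1 / 24) := onep _ (by linarith)
        _ = Y ^ (-c) * Y ^ (1 / 24 : ℝ) := by rw [addp]
        _ ≤ Y ^ (-c) * θ ^ (2 * r) := by
          have := posp (-c)
          gcongr
    calc 4 * K ^ (2 * (r + 1)) = 4 * K ^ (2 * (r + 1)) * 1 := (mul_one _).symm
      _ ≤ 4 * K ^ (2 * (r + 1)) * (Y ^ (-c) * θ ^ (2 * r)) := by gcongr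
      _ = _ := by ring
  have he2 : CC36 (r - 1) * (1 / M + 10 * 4 ^ r / θ ^ r * L ^ (r - 1)) ≤
      K2 * Y ^ (-(1 / 96) : ℝ) := by
    rw [hK2]
    exact ng6 r hY hM' (hx1.trans hM2) (pow_pos hθ0 r) lo1 (by linarith) hLb
  have he3 : (K2 * Y ^ (-(1 / 96) : ℝ)) ^ (1 / 2 ^ (r - 1) : ℝ) ≤ K2 * Y ^ (-c) :=
    ng5 r hr hr' hY hK21 hc
  -- averaging
  set f : ℤ × ℤ → ℂ := fun n => ph tau (ff a1 b1 (pt w n)) (ff a2 b2 (pt w n)) with hf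
  have hRb : ∀ n ∈ S, _ := fun n hn => reg_bd hd s Y1 Y2 l1 l2 hs0 (by rw [hssq]; exact h1)
    (by rw [hssq]; exact h2) hl1 hl2 (pt w n) ((hS n).1 hn)
  set ε : ℝ := (4 * K ^ (2 * (r + 1)) + K2) * Y ^ (-c) with hε
  have hε0 : 0 ≤ ε := by
    have := posp (-c)
    have : (0 : ℝ) ≤ K2 := by linarith
    positivity
  have hav := avg_bound S f 1 M hM ε hε0 (fun n => FarR a1 b1 a2 b2 (s / θ) (pt w n))
    (fun m => (ph_norm _ _ _).le) (by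
      intro m hm hg _
      obtain ⟨⟨q1, q2⟩, _, _⟩ := hRb m hm
      have hreg := (hS m).1 hm
      have hgg : ff a1 b1 (pt w m) * ff a2 b2 (pt w m) ≤ 2 * s ^ 2 := by
        rw [hssq]
        exact hreg.2.2.2.1.trans h2
      have h4 := rblock_par r M hr hM tau (ff a1 b1 (pt w m)) (ff a2 b2 (pt w m)) a1 a2 K s θ
        (4 * K ^ (2 * (r + 1)) * Y ^ (-c)) (K2 * Y ^ (-(1 / 96) : ℝ)) hs hθ1 hK hθn.symm q1 q2
        hgg hd.ha1 hd.ha2 hM1 hM2 hqθ2 hsm hg.1 hg.2 he1 he2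
      have h5 : ∀ t ∈ range M, f (sh 1 t m) =
          ph tau (ff a1 b1 (pt w m) + a1 * t) (ff a2 b2 (pt w m) + a2 * t) := by
        intro t _
        rw [hf]
        simp only
        rw [ff_sh, ff_sh]
      rw [Finset.sum_congr rfl h5]
      refine h4.trans ?_
      have h6 : (0 : ℝ) ≤ M := by linarith
      apply mul_le_mul_of_nonneg_left _ h6
      rw [hε]
      linarith)
  refine hav.trans ?_
  -- counting
  have hYc : Y * Y ^ (-c) = Y ^ (1 - c) := by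
    rw [show (1 : ℝ) - c = 1 + -c by ring, Real.rpow_add hY00, Real.rpow_one]
  have hcS : (S.card : ℝ) ≤ 81 * K ^ 6 * Y := by
    have h3 := card_all w S (4 * K ^ 3 * s) (by positivity) (fun n hn => (hRb n hn).2.2)
    have h4 := ng1 K s hK hs
    refine h3.trans ?_
    calc (2 * (4 * K ^ 3 * s) + 1) * (2 * (4 * K ^ 3 * s) + 1)
        ≤ (9 * K ^ 3 * s) * (9 * K ^ 3 * s) := by gcongr
      _ = 81 * K ^ 6 * s ^ 2 := by ring
      _ = 81 * K ^ 6 * Y := by rw [hssq]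
  have t1 : ε * S.card ≤ 81 * K ^ 6 * (4 * K ^ (2 * (r + 1)) + K2) * Y ^ (1 - c) := by
    calc ε * S.card ≤ ε * (81 * K ^ 6 * Y) := by gcongr
      _ = 81 * K ^ 6 * (4 * K ^ (2 * (r + 1)) + K2) * (Y * Y ^ (-c)) := by rw [hε]; ring
      _ = _ := by rw [hYc]
  have hone : 1 ≤ s * Y ^ (-c) := by
    rw [hsY, addp]
    exact onep _ (by linarith)
  have t3 : ((S.filter (fun n => ¬ FarR a1 b1 a2 b2 (s / θ) (pt w n))).card : ℝ) ≤
      54 * K ^ 4 * Y ^ (1 - c) := by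
    have h3 := card_badR hd w (S.filter (fun n => ¬ FarR a1 b1 a2 b2 (s / θ) (pt w n)))
      (4 * K ^ 3 * s) (s / θ) (by positivity) (by positivity)
      (fun n hn => (hRb n (Finset.mem_filter.1 hn).1).2.2)
      (fun n hn => (Finset.mem_filter.1 hn).2)
    refine h3.trans ?_
    have h5 : s / θ ≤ s * Y ^ (-c) := by
      rw [div_eq_mul_inv]
      apply mul_le_mul_of_nonneg_left _ hs0.le
      rw [← invp]
      apply inv_anti₀ (posp _)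
      exact (mono _ _ hc48).trans hθlo
    have h6 : 2 * K * (s / θ) + 1 ≤ 3 * K * (s * Y ^ (-c)) := by
      have i1 : 2 * K * (s / θ) ≤ 2 * K * (s * Y ^ (-c)) := by gcongr
      have i2 : 1 ≤ K * (s * Y ^ (-c)) := one_le_mul_of_one_le_of_one_le hK hone
      have e : 3 * K * (s * Y ^ (-c)) = 2 * K * (s * Y ^ (-c)) + K * (s * Y ^ (-c)) := by ring
      linarith
    have h7 := ng1 K s hK hs
    have h8 : (0 : ℝ) ≤ 2 * K * (s / θ) + 1 := by positivity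
    calc 2 * ((2 * (4 * K ^ 3 * s) + 1) * (2 * K * (s / θ) + 1))
        ≤ 2 * ((9 * K ^ 3 * s) * (3 * K * (s * Y ^ (-c)))) := by gcongr
      _ = 54 * K ^ 4 * (s ^ 2 * Y ^ (-c)) := by ring
      _ = 54 * K ^ 4 * Y ^ (1 - c) := by rw [hssq, hYc]
  have t2 : (((BB S 1 M).filter (fun m => ∃ t, t < M ∧ sh 1 t m ∉ S)).card : ℝ) ≤
      1518 * K ^ 7 * Y ^ (1 - c) := by
    have hMs : 8 * K ^ 2 * (M : ℝ) ≤ s := by
      calc 8 * K ^ 2 * (M : ℝ) ≤ θ ^ (4 * r) * (s / θ ^ (4 * r)) := by gcongr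
        _ = s := by field_simp
    have hcr : ∀ m ∈ (BB S 1 M).filter (fun m => ∃ t, t < M ∧ sh 1 t m ∉ S),
        Bdr a1 b1 a2 b2 Y1 Y2 l1 l2 (40 * K ^ 2 * s * M) (12 * K ^ 2 * M) (pt w m) ∧
        (|(pt w m).1| ≤ 5 * K ^ 3 * s ∧ |(pt w m).2| ≤ 5 * K ^ 3 * s) := by
      intro m hm
      rw [Finset.mem_filter, mem_BB] at hm
      obtain ⟨⟨t, ht, htS⟩, t', ht', htS'⟩ := hm
      have hreg := (hS _).1 htS
      have hnreg : ¬ Reg a1 b1 a2 b2 Y1 Y2 l1 l2 (pt w (sh 1 t' m)) := fun h => htS' ((hS _).2 h)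
      have dist1 : ∀ u : ℕ, u < M → |(pt w (sh 1 u m)).1 - (pt w m).1| ≤ M := by
        intro u hu
        rw [pt_sh]
        simp only [add_sub_cancel_left, Nat.abs_cast]
        exact_mod_cast hu.le
      have dist2 : ∀ u : ℕ, |(pt w (sh 1 u m)).2 - (pt w m).2| ≤ M := by
        intro u
        rw [pt_sh]
        simp only [sub_self, abs_zero]
        linarith
      exact cross hd s Y1 Y2 l1 l2 M hs0 (by rw [hssq]; exact h1) (by rw [hssq]; exact h2) hl1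
        hl12 hl2 (by linarith) hMs (pt w m) (pt w (sh 1 t m)) (pt w (sh 1 t' m))
        (dist1 t ht) (dist2 t) (dist1 t' ht') (dist2 t') hreg hnreg
    have h3 := card_bdr hd w ((BB S 1 M).filter (fun m => ∃ t, t < M ∧ sh 1 t m ∉ S))
      (5 * K ^ 3 * s) (40 * K ^ 2 * s * M) (12 * K ^ 2 * M) Y1 Y2 l1 l2 (by positivity)
      (by positivity) (by positivity) (fun n hn => (hcr n hn).2) (fun n hn => (hcr n hn).1)
    refine h3.trans ?_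
    have hinv : ∀ k : ℕ, Y ^ c ≤ θ ^ (k * r) → 1 / θ ^ (k * r) ≤ Y ^ (-c) := by
      intro k hk
      rw [← invp, one_div]
      exact inv_anti₀ (posp _) hk
    have i2r : 1 / θ ^ (2 * r) ≤ Y ^ (-c) := hinv 2 ((mono _ _ (by linarith)).trans lo2)
    have i4r : 1 / θ ^ (4 * r) ≤ Y ^ (-c) := hinv 4 ((mono _ _ (by linarith)).trans lo4)
    have e4 : θ ^ (4 * r) = θ ^ (2 * r) * θ ^ (2 * r) := by rw [← pow_add]; congr 1; ring
    have h9 := ng4 (K := K) (s := s) (M := (M : ℝ)) hK hs (Nat.cast_nonneg _)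
      (pow_pos hθ0 (2 * r)) e4 hM1 (posp (-c)) i2r i4r hone
    rw [hssq, hYc] at h9
    exact h9
  have e : (81 * K ^ 6 * (4 * K ^ (2 * (r + 1)) + K2) + 54 * K ^ 4 + 1518 * K ^ 7) * Y ^ (1 - c) =
      81 * K ^ 6 * (4 * K ^ (2 * (r + 1)) + K2) * Y ^ (1 - c) + 1518 * K ^ 7 * Y ^ (1 - c) +
      54 * K ^ 4 * Y ^ (1 - c) := by ring
  rw [e]
  exact add_le_add (add_le_add t1 t2) t3

end Pool.Agent.XR67
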