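import Pool.Agent.Lib.MP_a17b09_nt.MRS.RCnt67

/-!
Exponential sums for indefinite forms: large frequencies.
-/

set_option autoImplicit false

namespace Pool.Agent.XR67

open Finset Complex Pool.Agent.MR36 Pool.Agent.X67

theorem pt_sh (w : ℝ × ℝ) (t : ℕ) (n : ℤ × ℤ) :
    pt w (sh 1 t n) = ((pt w n).1 + t, (pt w n).2) := by
  unfold pt sh
  ext
  · push_cast
    ring
  · rfl

theorem ff_sh (a b : ℝ) (w : ℝ × ℝ) (t : ℕ) (n : ℤ × ℤ) :
    ff a b (pt w (sh 1 t n)) = ff a b (pt w n) + a * t := by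
  rw [pt_sh]
  unfold ff
  simp only
  ring

/-- one block in terms of `s` and `θ` -/
theorem rblock_par (r M : ℕ) (hr : 1 ≤ r) (hM : 1 ≤ M) (tau g1 g2 a1 a2 K s θ e1 e2 : ℝ)
    (hs : 1 ≤ s) (hθ : 1 ≤ θ) (hK : 1 ≤ K)
    (htau : |tau| = θ ^ (2 * r * (2 * r + 1))) (hg1 : s / K ≤ g1) (hg2 : s / K ≤ g2)
    (hgg : g1 * g2 ≤ 2 * s ^ 2) (ha1 : |a1| ≤ K) (ha2 : |a2| ≤ K)
    (hM1 : (M : ℝ) ≤ s / θ ^ (4 * r)) (hM2 : s / θ ^ (4 * r) ≤ 2 * M)
    (hqθ : K ^ 2 / θ ^ (4 * r) ≤ 1 / 2)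
    (hsm : 2 * ((r - 1).factorial : ℝ) * K ^ (2 * r) * θ ^ (6 * r) / s ≤ 1)
    (hf1 : s / θ ≤ |a1 * g2 - a2 * g1|) (hf2 : s / θ ≤ |a1 * g2 + a2 * g1|)
    (he1 : 4 * K ^ (2 * (r + 1)) / θ ^ (2 * r) ≤ e1)
    (he2 : CC36 (r - 1) * (1 / M + 10 * 4 ^ r / θ ^ r *
      (∑ h ∈ Icc 1 M, 1 / (h : ℝ)) ^ (r - 1)) ≤ e2) :
    ‖∑ t ∈ range M, ph tau (g1 + a1 * t) (g2 + a2 * t)‖ ≤
      M * (e1 + e2 ^ (1 / 2 ^ (r - 1) : ℝ)) := by
  have hθ0 : 0 < θ := by linarith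
  have hs0 : 0 < s := by linarith
  have hK0 : 0 < K := by linarith
  have hM' : (1 : ℝ) ≤ M := by exact_mod_cast hM
  have hg0 : 0 < s / K := by positivity
  have hg1p : 0 < g1 := by linarith
  have hg2p : 0 < g2 := by linarith
  have htau0 : 0 < |tau| := by rw [htau]; positivity
  have a1' : K * M / (s / K) ≤ K ^ 2 / θ ^ (4 * r) := by
    calc K * M / (s / K) ≤ K * (s / θ ^ (4 * r)) / (s / K) := by gcongr
      _ = K ^ 2 / θ ^ (4 * r) := by field_simp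
  have a2' : |tau| * (r - 1).factorial * (2 * (K / (s / K)) ^ r) * (M : ℝ) ^ (r - 1) ≤ Real.pi := by
    have hp := Real.pi_gt_three
    have h1 : |tau| * (r - 1).factorial * (2 * (K / (s / K)) ^ r) * (M : ℝ) ^ (r - 1) ≤
        θ ^ (2 * r * (2 * r + 1)) * (r - 1).factorial * (2 * (K / (s / K)) ^ r) *
          (s / θ ^ (4 * r)) ^ (r - 1) := by
      rw [htau]
      gcongr
    have h2 : θ ^ (2 * r * (2 * r + 1)) * ((r - 1).factorial : ℝ) * (2 * (K / (s / K)) ^ r) *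
          (s / θ ^ (4 * r)) ^ (r - 1) =
          2 * ((r - 1).factorial : ℝ) * K ^ (2 * r) * θ ^ (6 * r) / s := by
      obtain ⟨k, rfl⟩ : ∃ k, r = k + 1 := ⟨r - 1, by omega⟩
      rw [Nat.add_sub_cancel]
      have e0 : K / (s / K) = K ^ 2 / s := by field_simp
      rw [e0, div_pow, div_pow, ← pow_mul, ← pow_mul]
      have e1 : θ ^ (2 * (k + 1) * (2 * (k + 1) + 1)) =
          θ ^ (6 * (k + 1)) * θ ^ (4 * (k + 1) * k) := by
        rw [← pow_add]; congr 1; ring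
      rw [e1]
      field_simp
      ring
    linarith
  have b0 := rblock_raw r M hr hM tau g1 g2 a1 a2 K (s / K) htau0 hg0 hg1 hg2 hK0 ha1 ha2
    (a1'.trans hqθ) (s / θ) (by positivity) hf1 hf2 a2'
  refine b0.trans ?_
  have hM0 : (0 : ℝ) ≤ M := by linarith
  rw [mul_add (M : ℝ) e1]
  have hL0 : 0 ≤ (∑ h ∈ Icc 1 M, 1 / (h : ℝ)) := Finset.sum_nonneg fun _ _ => by positivity
  have hC0 : (0 : ℝ) ≤ CC36 (r - 1) := le_trans zero_le_one (CC_ge36 _)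
  have c1 : 4 * |tau| * (K * M / (s / K)) ^ (r + 1) ≤ e1 := by
    refine le_trans ?_ he1
    calc 4 * |tau| * (K * M / (s / K)) ^ (r + 1)
        ≤ 4 * θ ^ (2 * r * (2 * r + 1)) * (K ^ 2 / θ ^ (4 * r)) ^ (r + 1) := by
          rw [htau]; gcongr
      _ = 4 * K ^ (2 * (r + 1)) / θ ^ (2 * r) := by
        rw [div_pow, ← pow_mul, ← pow_mul]
        have e1 : θ ^ (4 * r * (r + 1)) = θ ^ (2 * r * (2 * r + 1)) * θ ^ (2 * r) := by
          rw [← pow_add]; congr 1; ring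
        rw [e1]
        field_simp
  have c2 : CC36 (r - 1) * (1 / M + 10 * (g1 * g2) ^ r / (|tau| * (s / θ) ^ r * (M : ℝ) ^ r) *
        (∑ h ∈ Icc 1 M, 1 / (h : ℝ)) ^ (r - 1)) ≤ e2 := by
    refine le_trans ?_ he2
    have h1 : 10 * (g1 * g2) ^ r / (|tau| * (s / θ) ^ r * (M : ℝ) ^ r) ≤ 10 * 4 ^ r / θ ^ r := by
      have h2 : (g1 * g2) ^ r ≤ (2 * s ^ 2) ^ r :=
        pow_le_pow_left₀ (by positivity) hgg r
      have h3 : (s / (2 * θ ^ (4 * r))) ^ r ≤ (M : ℝ) ^ r := by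
        apply pow_le_pow_left₀ (by positivity)
        rw [div_le_iff₀ (by positivity)] at hM2 ⊢
        linarith
      calc 10 * (g1 * g2) ^ r / (|tau| * (s / θ) ^ r * (M : ℝ) ^ r)
          ≤ 10 * (2 * s ^ 2) ^ r / (θ ^ (2 * r * (2 * r + 1)) * (s / θ) ^ r *
              (s / (2 * θ ^ (4 * r))) ^ r) := by
            rw [htau]; gcongr
        _ = 10 * 4 ^ r / θ ^ r := by
          rw [mul_pow, div_pow, div_pow, mul_pow, ← pow_mul, ← pow_mul]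
          have e1 : θ ^ (2 * r * (2 * r + 1)) = θ ^ (4 * r * r) * θ ^ r * θ ^ r := by
            rw [← pow_add, ← pow_add]; congr 1; ring
          have e2 : s ^ (2 * r) = s ^ r * s ^ r := by rw [← pow_add]; congr 1; ring
          have e3 : (4 : ℝ) ^ r = 2 ^ r * 2 ^ r := by rw [← mul_pow]; norm_num
          rw [e1, e2, e3]
          field_simp
    gcongr
  have c3 : (CC36 (r - 1) * (1 / M + 10 * (g1 * g2) ^ r / (|tau| * (s / θ) ^ r * (M : ℝ) ^ r) *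
        (∑ h ∈ Icc 1 M, 1 / (h : ℝ)) ^ (r - 1))) ^ (1 / 2 ^ (r - 1) : ℝ) ≤
      e2 ^ (1 / 2 ^ (r - 1) : ℝ) := by
    apply Real.rpow_le_rpow _ c2 (by positivity)
    positivity
  exact add_le_add (mul_le_mul_of_nonneg_left c1 hM0) (mul_le_mul_of_nonneg_left c3 hM0)

end Pool.Agent.XR67
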