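import Pool.Agent.Lib.MP_a17b09_nt.MRS.StmtsR67
import Pool.Agent.Lib.MP_a17b09_nt.MRS.Avg67

/-!
Exponential sums for indefinite forms: one block.
-/

set_option autoImplicit false

namespace Pool.Agent.XR67

open Finset Complex Pool.Agent.MR36 Pool.Agent.X67

/-- real Taylor polynomial of the logarithm -/
noncomputable def tr (r : ℕ) (x : ℝ) : ℝ := (logTaylor (r + 1) (x : ℂ)).re

theorem tr_le (r : ℕ) (x : ℝ) (hx : |x| ≤ 1 / 2) :
    |Real.log (1 + x) - tr r x| ≤ 2 * |x| ^ (r + 1) := by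
  have hx1 : ‖(x : ℂ)‖ < 1 := by
    rw [Complex.norm_real, Real.norm_eq_abs]; linarith
  have h0 : 0 < 1 + x := by
    have := (abs_le.1 hx).1
    linarith
  have e1 : Real.log (1 + x) - tr r x = (log (1 + (x : ℂ)) - logTaylor (r + 1) x).re := by
    unfold tr
    rw [Complex.sub_re]
    congr 1
    have : (1 : ℂ) + x = ((1 + x : ℝ) : ℂ) := by push_cast; rfl
    rw [this, ← Complex.ofReal_log h0.le, Complex.ofReal_re]
  rw [e1]
  have h1 := (Complex.abs_re_le_norm (log (1 + (x : ℂ)) - logTaylor (r + 1) x)).trans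
    (norm_log_sub_logTaylor_le r hx1)
  rw [Complex.norm_real, Real.norm_eq_abs] at h1
  refine h1.trans ?_
  have h3 : (1 - |x|)⁻¹ ≤ 2 := by
    rw [inv_le_comm₀ (by linarith) (by norm_num)]
    linarith
  have h4 : (0 : ℝ) ≤ |x| ^ (r + 1) := by positivity
  have h5 : (1 : ℝ) ≤ (r : ℝ) + 1 := by
    have : (0 : ℝ) ≤ r := Nat.cast_nonneg r
    linarith
  calc |x| ^ (r + 1) * (1 - |x|)⁻¹ / (r + 1) ≤ |x| ^ (r + 1) * 2 / 1 := by gcongr
    _ = 2 * |x| ^ (r + 1) := by ring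

theorem tr_poly (r : ℕ) (v : ℝ) (t : ℤ) :
    tr r (v * t) = ∑ j ∈ range (r + 1), ((-1 : ℝ) ^ (j + 1) * v ^ j / j) * (t : ℝ) ^ j := by
  unfold tr logTaylor
  rw [Complex.re_sum]
  refine Finset.sum_congr rfl fun j _ => ?_
  have e1 : (-1 : ℂ) ^ (j + 1) * ((v * t : ℝ) : ℂ) ^ j / j =
      (((-1 : ℝ) ^ (j + 1) * v ^ j / j * (t : ℝ) ^ j : ℝ) : ℂ) := by
    push_cast
    rw [mul_pow]
    ring
  rw [e1, Complex.ofReal_re]

theorem pow_add_ge (r : ℕ) (hr : 1 ≤ r) (b d : ℝ) (hb : 0 ≤ b) (hd : 0 ≤ d) :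
    b ^ r + d ^ r ≤ (b + d) ^ r := by
  induction r, hr using Nat.le_induction with
  | base => simp
  | succ k hk ih =>
    have h1 : 0 ≤ b ^ k * d := by positivity
    have h2 : 0 ≤ d ^ k * b := by positivity
    calc b ^ (k + 1) + d ^ (k + 1) ≤ (b ^ k + d ^ k) * (b + d) := by
          rw [pow_succ, pow_succ]; nlinarith
      _ ≤ (b + d) ^ k * (b + d) := by gcongr
      _ = (b + d) ^ (k + 1) := (pow_succ _ _).symm

theorem pow_diff_ge (r : ℕ) (hr : 1 ≤ r) (A B D : ℝ) (hD : 0 ≤ D) (h1 : D ≤ |A - B|)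
    (h2 : D ≤ |A + B|) : D ^ r ≤ |A ^ r - B ^ r| := by
  have key : ∀ a b : ℝ, 0 ≤ a → 0 ≤ b → D ≤ a - b → D ^ r ≤ a ^ r - b ^ r := by
    intro a b ha hb hab
    have h3 := pow_add_ge r hr b (a - b) hb (by linarith)
    rw [add_sub_cancel] at h3
    have h4 : D ^ r ≤ (a - b) ^ r := pow_le_pow_left₀ hD hab r
    linarith
  have h3 : D ≤ |A| - |B| ∨ D ≤ |B| - |A| := by
    rcases le_total 0 A with ha | ha <;> rcases le_total 0 B with hb | hb
    · rw [abs_of_nonneg ha, abs_of_nonneg hb]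
      rcases le_abs.1 h1 with h | h
      · left; linarith
      · right; linarith
    · rw [abs_of_nonneg ha, abs_of_nonpos hb]
      rcases le_abs.1 h2 with h | h
      · left; linarith
      · right; linarith
    · rw [abs_of_nonpos ha, abs_of_nonneg hb]
      rcases le_abs.1 h2 with h | h
      · right; linarith
      · left; linarith
    · rw [abs_of_nonpos ha, abs_of_nonpos hb]
      rcases le_abs.1 h1 with h | h
      · right; linarith
      · left; linarith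
  have h4 : |(|A| ^ r - |B| ^ r)| ≤ |A ^ r - B ^ r| := by
    rw [← abs_pow, ← abs_pow]
    exact abs_abs_sub_abs_le_abs_sub _ _
  refine le_trans ?_ h4
  rcases h3 with h | h
  · exact (key _ _ (abs_nonneg _) (abs_nonneg _) h).trans (le_abs_self _)
  · rw [abs_sub_comm]
    exact (key _ _ (abs_nonneg _) (abs_nonneg _) h).trans (le_abs_self _)

/-- the phase -/
noncomputable def ph (tau g1 g2 : ℝ) : ℂ := exp (I * ((tau * Real.log (g1 / g2) : ℝ) : ℂ))

theorem ph_norm (tau g1 g2 : ℝ) : ‖ph tau g1 g2‖ = 1 := by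
  unfold ph
  rw [mul_comm, Complex.norm_exp_ofReal_mul_I]

/-- one block -/
theorem rblock_raw (r M : ℕ) (hr : 1 ≤ r) (hM : 1 ≤ M) (tau g1 g2 a1 a2 K g : ℝ)
    (htau : 0 < |tau|) (hg : 0 < g) (hg1 : g ≤ g1) (hg2 : g ≤ g2) (hK : 0 < K) (ha1 : |a1| ≤ K)
    (ha2 : |a2| ≤ K) (hKM : K * M / g ≤ 1 / 2) (D : ℝ) (hD : 0 < D)
    (hf1 : D ≤ |a1 * g2 - a2 * g1|) (hf2 : D ≤ |a1 * g2 + a2 * g1|)
    (hsm : |tau| * (r - 1).factorial * (2 * (K / g) ^ r) * (M : ℝ) ^ (r - 1) ≤ Real.pi) :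
    ‖∑ t ∈ range M, ph tau (g1 + a1 * t) (g2 + a2 * t)‖ ≤
      M * (4 * |tau| * (K * M / g) ^ (r + 1)) +
      M * (CC36 (r - 1) * (1 / M + 10 * (g1 * g2) ^ r / (|tau| * D ^ r * (M : ℝ) ^ r) *
        (∑ h ∈ Icc 1 M, 1 / (h : ℝ)) ^ (r - 1))) ^ (1 / 2 ^ (r - 1) : ℝ) := by
  obtain ⟨k, rfl⟩ : ∃ k, r = k + 1 := ⟨r - 1, by omega⟩
  rw [Nat.add_sub_cancel] at hsm ⊢
  have hg1' : 0 < g1 := by linarith
  have hg2' : 0 < g2 := by linarith
  have hM' : (1 : ℝ) ≤ M := by exact_mod_cast hM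
  set v1 : ℝ := a1 / g1 with hv1
  set v2 : ℝ := a2 / g2 with hv2
  set φ : ℤ → ℝ := fun t => tau * (tr (k + 1) (v1 * t) - tr (k + 1) (v2 * t)) with hφ
  have bd : ∀ (a b : ℝ) (t : ℕ), t < M → |a| ≤ K → g ≤ b → |a / b * t| ≤ K * M / g := by
    intro a b t ht ha hb
    have hb0 : 0 < b := by linarith
    rw [abs_mul, abs_div, abs_of_pos hb0, Nat.abs_cast, div_mul_eq_mul_div]
    have : (t : ℝ) ≤ M := by exact_mod_cast ht.le
    gcongr
  have e1 : ∀ t ∈ range M, ph tau (g1 + a1 * t) (g2 + a2 * t) =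
      ph tau g1 g2 * exp (I * ((tau * (Real.log (1 + v1 * t) - Real.log (1 + v2 * t)) : ℝ) : ℂ)) := by
    intro t ht
    rw [Finset.mem_range] at ht
    have b1 := (abs_le.1 ((bd a1 g1 t ht ha1 hg1).trans hKM)).1
    have b2 := (abs_le.1 ((bd a2 g2 t ht ha2 hg2).trans hKM)).1
    have p1 : 0 < 1 + v1 * t := by rw [hv1]; linarith
    have p2 : 0 < 1 + v2 * t := by rw [hv2]; linarith
    have f1 : g1 + a1 * t = g1 * (1 + v1 * t) := by rw [hv1]; field_simp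
    have f2 : g2 + a2 * t = g2 * (1 + v2 * t) := by rw [hv2]; field_simp
    unfold ph
    rw [← Complex.exp_add, ← mul_add, ← Complex.ofReal_add, f1, f2,
      Real.log_div (by positivity) (by positivity), Real.log_div hg1'.ne' hg2'.ne',
      Real.log_mul hg1'.ne' p1.ne', Real.log_mul hg2'.ne' p2.ne']
    congr 3
    ring
  have e2 : ∀ t ∈ range M,
      ‖exp (I * ((tau * (Real.log (1 + v1 * t) - Real.log (1 + v2 * t)) : ℝ) : ℂ)) -
        exp (I * ((φ (t : ℤ) : ℝ) : ℂ))‖ ≤ 4 * |tau| * (K * M / g) ^ (k + 1 + 1) := by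
    intro t ht
    rw [Finset.mem_range] at ht
    have b1 := bd a1 g1 t ht ha1 hg1
    have b2 := bd a2 g2 t ht ha2 hg2
    refine (exp_diff _ _).trans ?_
    rw [hφ]
    simp only [Int.cast_natCast]
    have e3 : tau * (Real.log (1 + v1 * t) - Real.log (1 + v2 * t)) -
        tau * (tr (k + 1) (v1 * t) - tr (k + 1) (v2 * t)) =
        tau * ((Real.log (1 + v1 * t) - tr (k + 1) (v1 * t)) -
          (Real.log (1 + v2 * t) - tr (k + 1) (v2 * t))) := by ring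
    rw [e3, abs_mul]
    have c1 := tr_le (k + 1) (v1 * t) (b1.trans hKM)
    have c2 := tr_le (k + 1) (v2 * t) (b2.trans hKM)
    have d1 : |v1 * t| ^ (k + 1 + 1) ≤ (K * M / g) ^ (k + 1 + 1) :=
      pow_le_pow_left₀ (abs_nonneg _) b1 _
    have d2 : |v2 * t| ^ (k + 1 + 1) ≤ (K * M / g) ^ (k + 1 + 1) :=
      pow_le_pow_left₀ (abs_nonneg _) b2 _
    have c3 := abs_sub (Real.log (1 + v1 * t) - tr (k + 1) (v1 * t))
      (Real.log (1 + v2 * t) - tr (k + 1) (v2 * t))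
    calc |tau| * |(Real.log (1 + v1 * t) - tr (k + 1) (v1 * t)) -
          (Real.log (1 + v2 * t) - tr (k + 1) (v2 * t))|
        ≤ |tau| * (4 * (K * M / g) ^ (k + 1 + 1)) := by
          apply mul_le_mul_of_nonneg_left _ (abs_nonneg _)
          linarith
      _ = _ := by ring
  have e3 : ‖∑ t ∈ range M, ph tau (g1 + a1 * t) (g2 + a2 * t)‖ ≤
      M * (4 * |tau| * (K * M / g) ^ (k + 1 + 1)) +
      ‖∑ t ∈ range M, exp (I * ((φ (t : ℤ) : ℝ) : ℂ))‖ := by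
    rw [Finset.sum_congr rfl e1, ← Finset.mul_sum, norm_mul, ph_norm, one_mul]
    have h1 : ∑ t ∈ range M,
        exp (I * ((tau * (Real.log (1 + v1 * t) - Real.log (1 + v2 * t)) : ℝ) : ℂ)) =
        ∑ t ∈ range M, (exp (I * ((tau * (Real.log (1 + v1 * t) -
          Real.log (1 + v2 * t)) : ℝ) : ℂ)) - exp (I * ((φ (t : ℤ) : ℝ) : ℂ))) +
        ∑ t ∈ range M, exp (I * ((φ (t : ℤ) : ℝ) : ℂ)) := by
      rw [← Finset.sum_add_distrib]
      refine Finset.sum_congr rfl fun t _ => ?_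
      ring
    rw [h1]
    refine (norm_add_le _ _).trans ?_
    gcongr
    refine (norm_sum_le _ _).trans ((Finset.sum_le_sum e2).trans (le_of_eq ?_))
    rw [Finset.sum_const, card_range, nsmul_eq_mul]
  refine e3.trans ?_
  gcongr
  -- the Weyl sum
  set c : ℕ → ℝ := fun j => tau * ((-1 : ℝ) ^ (j + 1) * (v1 ^ j - v2 ^ j) / j) with hc
  have hφ2 : φ = fun t : ℤ => ∑ j ∈ range (k + 1 + 1), c j * (t : ℝ) ^ j := by
    funext t
    rw [hφ]
    simp only
    rw [tr_poly, tr_poly, ← Finset.sum_sub_distrib, Finset.mul_sum]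
    refine Finset.sum_congr rfl fun j _ => ?_
    rw [hc]
    ring
  set β : ℝ := c (k + 1) * (k + 1).factorial with hβd
  have hdd : ∀ n, dd36 (k + 1) φ n = β := by
    intro n
    rw [hφ2]
    exact dd_poly (k + 1) c n
  have hβ1 : |β| = |tau| * k.factorial * |v1 ^ (k + 1) - v2 ^ (k + 1)| := by
    rw [hβd, hc]
    simp only
    rw [abs_mul, abs_mul, abs_div, abs_mul, abs_pow, abs_neg, abs_one, one_pow, one_mul,
      Nat.abs_cast, Nat.abs_cast, Nat.factorial_succ]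
    push_cast
    have : (0 : ℝ) < (k : ℝ) + 1 := by positivity
    field_simp
  have hfac : (1 : ℝ) ≤ k.factorial := by exact_mod_cast Nat.factorial_pos k
  have hvd : |v1 ^ (k + 1) - v2 ^ (k + 1)| =
      |(a1 * g2) ^ (k + 1) - (a2 * g1) ^ (k + 1)| / (g1 * g2) ^ (k + 1) := by
    have e : v1 ^ (k + 1) - v2 ^ (k + 1) =
        ((a1 * g2) ^ (k + 1) - (a2 * g1) ^ (k + 1)) / (g1 * g2) ^ (k + 1) := by
      rw [hv1, hv2, div_pow, div_pow, mul_pow, mul_pow, mul_pow]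
      field_simp
    rw [e, abs_div, abs_of_pos (show (0 : ℝ) < (g1 * g2) ^ (k + 1) by positivity)]
  have hlow : |tau| * D ^ (k + 1) / (g1 * g2) ^ (k + 1) ≤ |β| := by
    rw [hβ1, hvd]
    have h1 := pow_diff_ge (k + 1) (by omega) (a1 * g2) (a2 * g1) D hD.le hf1 hf2
    calc |tau| * D ^ (k + 1) / (g1 * g2) ^ (k + 1)
        = |tau| * 1 * (D ^ (k + 1) / (g1 * g2) ^ (k + 1)) := by ring
      _ ≤ _ := by gcongr
  have hup : |β| * (M : ℝ) ^ k ≤ Real.pi := by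
    refine le_trans ?_ hsm
    rw [hβ1]
    have h2 : |v1 ^ (k + 1) - v2 ^ (k + 1)| ≤ 2 * (K / g) ^ (k + 1) := by
      have b1 : |v1| ≤ K / g := by
        rw [hv1, abs_div, abs_of_pos hg1']
        gcongr
      have b2 : |v2| ≤ K / g := by
        rw [hv2, abs_div, abs_of_pos hg2']
        gcongr
      have c1 := pow_le_pow_left₀ (abs_nonneg _) b1 (k + 1)
      have c2 := pow_le_pow_left₀ (abs_nonneg _) b2 (k + 1)
      have c3 := abs_sub (v1 ^ (k + 1)) (v2 ^ (k + 1))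
      rw [abs_pow, abs_pow] at c3
      linarith
    gcongr
  have hβ0 : 0 < |β| := lt_of_lt_of_le (by positivity) hlow
  have hw := wey k φ β M hM hdd hβ0 hup
  set X := ‖∑ t ∈ range M, exp (I * ((φ (t : ℤ) : ℝ) : ℂ))‖ with hX
  set L := ∑ h ∈ Icc 1 M, 1 / (h : ℝ) with hL
  have hL0 : 0 ≤ L := Finset.sum_nonneg fun _ _ => by positivity
  have hC0 : (0 : ℝ) ≤ CC36 k := le_trans zero_le_one (CC_ge36 k)
  have h5 : 10 / (M * |β|) * (L / M) ^ k ≤
      10 * (g1 * g2) ^ (k + 1) / (|tau| * D ^ (k + 1) * (M : ℝ) ^ (k + 1)) * L ^ k := by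
    have h6 : 10 / (M * |β|) ≤ 10 / (M * (|tau| * D ^ (k + 1) / (g1 * g2) ^ (k + 1))) := by
      gcongr
    calc 10 / (M * |β|) * (L / M) ^ k
        ≤ 10 / (M * (|tau| * D ^ (k + 1) / (g1 * g2) ^ (k + 1))) * (L / M) ^ k := by gcongr
      _ = _ := by
        rw [div_pow]
        field_simp
        ring
  have h7 : (X / M) ^ (2 ^ k) ≤ CC36 k * (1 / M + 10 * (g1 * g2) ^ (k + 1) /
      (|tau| * D ^ (k + 1) * (M : ℝ) ^ (k + 1)) * L ^ k) := by
    refine hw.trans ?_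
    gcongr
  have hX0 : 0 ≤ X := norm_nonneg _
  have h8 : X / M ≤ (CC36 k * (1 / M + 10 * (g1 * g2) ^ (k + 1) /
      (|tau| * D ^ (k + 1) * (M : ℝ) ^ (k + 1)) * L ^ k)) ^ (1 / 2 ^ k : ℝ) := by
    have h9 := Real.rpow_le_rpow (by positivity) h7 (show (0 : ℝ) ≤ 1 / 2 ^ k by positivity)
    have h10 : ((X / M) ^ (2 ^ k)) ^ (1 / 2 ^ k : ℝ) = X / M := by
      rw [← Real.rpow_natCast, ← Real.rpow_mul (by positivity)]
      push_cast
      rw [mul_one_div_cancel (by positivity), Real.rpow_one]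
    rwa [h10] at h9
  rw [div_le_iff₀ (by linarith)] at h8
  linarith

end Pool.Agent.XR67
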