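import Pool.Agent.Lib.MP_a17b09_nt.MRS.RBlk67

/-!
Exponential sums for indefinite forms: geometry and counting.
-/

set_option autoImplicit false

namespace Pool.Agent.XR67

open Finset Pool.Agent.X67

/-- a linear form on the plane -/
def ff (a b : ℝ) (p : ℝ × ℝ) : ℝ := a * p.1 + b * p.2

/-- the shifted lattice point -/
def pt (w : ℝ × ℝ) (n : ℤ × ℤ) : ℝ × ℝ := (n.1 + w.1, n.2 + w.2)

/-- size of the coefficients -/
structure Dat (a1 b1 a2 b2 K : ℝ) : Prop where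
  hK : 1 ≤ K
  ha1 : |a1| ≤ K
  hb1 : |b1| ≤ K
  ha2 : |a2| ≤ K
  hb2 : |b2| ≤ K
  hdet : 1 ≤ K * |a1 * b2 - a2 * b1|
  haa : 1 ≤ K * |a1 * a2|

/-- the region -/
def Reg (a1 b1 a2 b2 Y1 Y2 l1 l2 : ℝ) (p : ℝ × ℝ) : Prop :=
  0 < ff a1 b1 p ∧ 0 < ff a2 b2 p ∧ Y1 < ff a1 b1 p * ff a2 b2 p ∧
    ff a1 b1 p * ff a2 b2 p ≤ Y2 ∧ l1 * ff a2 b2 p ≤ ff a1 b1 p ∧ ff a1 b1 p < l2 * ff a2 b2 p

theorem sq_le_of (a b : ℝ) (ha : 0 ≤ a) (hb : 0 ≤ b) (h : a ^ 2 ≤ b ^ 2) : a ≤ b :=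
  (le_abs_self _).trans (abs_le_of_sq_le_sq h hb)

theorem reg_bd {a1 b1 a2 b2 K : ℝ} (hd : Dat a1 b1 a2 b2 K) (s Y1 Y2 l1 l2 : ℝ) (hs : 0 < s)
    (h1 : s ^ 2 ≤ Y1) (h2 : Y2 ≤ 2 * s ^ 2) (hl1 : 1 / K ≤ l1) (hl2 : l2 ≤ K) (p : ℝ × ℝ)
    (hp : Reg a1 b1 a2 b2 Y1 Y2 l1 l2 p) :
    (s / K ≤ ff a1 b1 p ∧ s / K ≤ ff a2 b2 p) ∧ (ff a1 b1 p ≤ 2 * K * s ∧ ff a2 b2 p ≤ 2 * K * s) ∧
      (|p.1| ≤ 4 * K ^ 3 * s ∧ |p.2| ≤ 4 * K ^ 3 * s) := by
  obtain ⟨p1, p2, p3, p4, p5, p6⟩ := hp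
  set g1 := ff a1 b1 p with hg1
  set g2 := ff a2 b2 p with hg2
  have hK := hd.hK
  have hK0 : 0 < K := by linarith
  have l1K : 1 ≤ K * l1 := by
    rw [div_le_iff₀ hK0] at hl1
    linarith
  have hP : s ^ 2 ≤ g1 * g2 := by linarith
  have hP2 : g1 * g2 ≤ 2 * s ^ 2 := by linarith
  have u1 : s ^ 2 ≤ K * g1 ^ 2 := by
    have h3 : K * (l1 * g2) * g1 ≤ K * g1 * g1 := by
      have : K * (l1 * g2) ≤ K * g1 := by gcongr
      gcongr
    have h4 : 1 * (g1 * g2) ≤ (K * l1) * (g1 * g2) := by gcongr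
    nlinarith
  have u2 : s ^ 2 ≤ K * g2 ^ 2 := by
    have h3 : g1 ≤ K * g2 := p6.le.trans (by gcongr)
    have h4 : g1 * g2 ≤ (K * g2) * g2 := by gcongr
    nlinarith
  have u3 : g1 ^ 2 ≤ 2 * K * s ^ 2 := by
    have h3 : g1 ≤ K * g2 := p6.le.trans (by gcongr)
    have h4 : g1 * g1 ≤ g1 * (K * g2) := by gcongr
    nlinarith
  have u4 : g2 ^ 2 ≤ 2 * K * s ^ 2 := by
    have h3 : 1 * g2 ≤ (K * l1) * g2 := by gcongr
    have h4 : K * (l1 * g2) ≤ K * g1 := by gcongr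
    have h5 : g2 ≤ K * g1 := by linarith
    have h6 : g2 * g2 ≤ g2 * (K * g1) := by gcongr
    nlinarith
  have Ksq : K ≤ K ^ 2 := by nlinarith
  have lo : ∀ g : ℝ, 0 < g → s ^ 2 ≤ K * g ^ 2 → s / K ≤ g := by
    intro g hg h
    rw [div_le_iff₀ hK0]
    apply sq_le_of _ _ hs.le (by positivity)
    calc s ^ 2 ≤ K * g ^ 2 := h
      _ ≤ K ^ 2 * g ^ 2 := by gcongr
      _ = (g * K) ^ 2 := by ring
  have up : ∀ g : ℝ, 0 < g → g ^ 2 ≤ 2 * K * s ^ 2 → g ≤ 2 * K * s := by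
    intro g hg h
    apply sq_le_of _ _ hg.le (by positivity)
    calc g ^ 2 ≤ 2 * K * s ^ 2 := h
      _ ≤ 4 * K ^ 2 * s ^ 2 := by
        have : 2 * K ≤ 4 * K ^ 2 := by linarith
        gcongr
      _ = (2 * K * s) ^ 2 := by ring
  have g1u := up g1 p1 u3
  have g2u := up g2 p2 u4
  refine ⟨⟨lo g1 p1 u1, lo g2 p2 u2⟩, ⟨g1u, g2u⟩, ?_, ?_⟩
  · have e : (a1 * b2 - a2 * b1) * p.1 = b2 * g1 - b1 * g2 := by
      rw [hg1, hg2]; unfold ff; ring
    have h3 : |(a1 * b2 - a2 * b1)| * |p.1| ≤ K * (2 * K * s) + K * (2 * K * s) := by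
      rw [← abs_mul, e]
      refine (abs_sub _ _).trans ?_
      rw [abs_mul, abs_mul, abs_of_pos p1, abs_of_pos p2]
      have := hd.hb1
      have := hd.hb2
      gcongr
    calc |p.1| = 1 * |p.1| := (one_mul _).symm
      _ ≤ (K * |a1 * b2 - a2 * b1|) * |p.1| := by
        have := hd.hdet
        gcongr
      _ = K * (|a1 * b2 - a2 * b1| * |p.1|) := by ring
      _ ≤ K * (K * (2 * K * s) + K * (2 * K * s)) := by gcongr
      _ = 4 * K ^ 3 * s := by ring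
  · have e : (a1 * b2 - a2 * b1) * p.2 = a1 * g2 - a2 * g1 := by
      rw [hg1, hg2]; unfold ff; ring
    have h3 : |(a1 * b2 - a2 * b1)| * |p.2| ≤ K * (2 * K * s) + K * (2 * K * s) := by
      rw [← abs_mul, e]
      refine (abs_sub _ _).trans ?_
      rw [abs_mul, abs_mul, abs_of_pos p1, abs_of_pos p2]
      have := hd.ha1
      have := hd.ha2
      gcongr
    calc |p.2| = 1 * |p.2| := (one_mul _).symm
      _ ≤ (K * |a1 * b2 - a2 * b1|) * |p.2| := by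
        have := hd.hdet
        gcongr
      _ = K * (|a1 * b2 - a2 * b1| * |p.2|) := by ring
      _ ≤ K * (K * (2 * K * s) + K * (2 * K * s)) := by gcongr
      _ = 4 * K ^ 3 * s := by ring

/-- near the boundary -/
def Bdr (a1 b1 a2 b2 Y1 Y2 l1 l2 E F : ℝ) (z : ℝ × ℝ) : Prop :=
  (|ff a1 b1 z * ff a2 b2 z - Y1| ≤ E ∨ |ff a1 b1 z * ff a2 b2 z - Y2| ≤ E) ∨
    (|ff a1 b1 z - l1 * ff a2 b2 z| ≤ F ∨ |ff a1 b1 z - l2 * ff a2 b2 z| ≤ F)

theorem ff_diff {K a b m : ℝ} (ha : |a| ≤ K) (hb : |b| ≤ K) (z p : ℝ × ℝ)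
    (h1 : |p.1 - z.1| ≤ m) (h2 : |p.2 - z.2| ≤ m) : |ff a b p - ff a b z| ≤ 2 * K * m := by
  have e : ff a b p - ff a b z = a * (p.1 - z.1) + b * (p.2 - z.2) := by unfold ff; ring
  rw [e]
  refine (abs_add_le _ _).trans ?_
  rw [abs_mul, abs_mul]
  have hK : 0 ≤ K := (abs_nonneg a).trans ha
  have i1 : |a| * |p.1 - z.1| ≤ K * m := mul_le_mul ha h1 (abs_nonneg _) hK
  have i2 : |b| * |p.2 - z.2| ≤ K * m := mul_le_mul hb h2 (abs_nonneg _) hK
  linarith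

theorem cross_aux (g1 g2 h1 h2 G d : ℝ) (hg1 : 0 ≤ g1) (hg1' : g1 ≤ G)
    (hg2 : |g2| ≤ G) (hG : 0 ≤ G) (e1 : |h1 - g1| ≤ d) (e2 : |h2 - g2| ≤ d) (hd : 0 ≤ d) :
    |h1 * h2 - g1 * g2| ≤ d * (2 * G + d) := by
  have e : h1 * h2 - g1 * g2 = (h1 - g1) * (h2 - g2) + (h1 - g1) * g2 + g1 * (h2 - g2) := by ring
  rw [e]
  refine (abs_add_three _ _ _).trans ?_
  rw [abs_mul, abs_mul, abs_mul, abs_of_nonneg hg1]
  have i1 : |h1 - g1| * |h2 - g2| ≤ d * d := mul_le_mul e1 e2 (abs_nonneg _) hd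
  have i2 : |h1 - g1| * |g2| ≤ d * G := mul_le_mul e1 hg2 (abs_nonneg _) hd
  have i3 : g1 * |h2 - g2| ≤ G * d := mul_le_mul hg1' e2 (abs_nonneg _) hG
  linarith

theorem nr1 (K m : ℝ) (hK : 1 ≤ K) (hm : 0 ≤ m) : K * m ≤ K ^ 2 * m := by
  have : K ≤ K ^ 2 := by nlinarith
  exact mul_le_mul_of_nonneg_right this hm

theorem nr2 (K m : ℝ) (hK : 1 ≤ K) (hm : 0 ≤ m) : m ≤ K ^ 2 * m := by
  have : 1 ≤ K ^ 2 := one_le_pow₀ hK
  nlinarith

theorem nr3 (K m s : ℝ) (h : 8 * K ^ 2 * m ≤ s) : 8 * K * m * K ≤ s := by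
  have : 8 * K * m * K = 8 * K ^ 2 * m := by ring
  linarith

theorem nr4 (K m s : ℝ) (hK : 1 ≤ K) (hm : 0 ≤ m) (h : 8 * K ^ 2 * m ≤ s) (hs : s ≤ K * s) :
    4 * K * m ≤ K * s := by
  have h1 := nr1 K m hK hm
  have h2 : 0 ≤ K ^ 2 * m := by positivity
  have e : 8 * K ^ 2 * m = 8 * (K ^ 2 * m) := by ring
  have e2 : 4 * K * m = 4 * (K * m) := by ring
  rw [e] at h
  rw [e2]
  linarith

theorem nr5 (K m s : ℝ) (hK : 0 < K) (hm : 0 ≤ m) (h : 4 * K * m ≤ K * s) :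
    4 * K * m * (2 * (2 * K * s) + 4 * K * m) ≤ 20 * K ^ 2 * s * m := by
  have h1 : 4 * K * m * (2 * (2 * K * s) + 4 * K * m) ≤
      4 * K * m * (2 * (2 * K * s) + K * s) := by gcongr
  refine h1.trans (le_of_eq (by ring))

theorem nr6 (K m x : ℝ) (h : 4 * K * m + K * (4 * K * m) ≤ x) (hK : 1 ≤ K) (hm : 0 ≤ m) :
    4 * K * m + K * (4 * K * m) ≤ 8 * K ^ 2 * m := by
  have h1 := nr1 K m hK hm
  have e : 4 * K * m + K * (4 * K * m) = 4 * (K * m) + 4 * (K ^ 2 * m) := by ring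
  rw [e]
  have e2 : 8 * K ^ 2 * m = 8 * (K ^ 2 * m) := by ring
  rw [e2]
  linarith

theorem nr7 (K m : ℝ) (hK : 1 ≤ K) (hm : 0 ≤ m) :
    K * (2 * K * m) + 2 * K * m ≤ 4 * K ^ 2 * m := by
  have h1 := nr1 K m hK hm
  have e : K * (2 * K * m) + 2 * K * m = 2 * (K ^ 2 * m) + 2 * (K * m) := by ring
  rw [e]
  have e2 : 4 * K ^ 2 * m = 4 * (K ^ 2 * m) := by ring
  rw [e2]
  linarith

theorem nr8 (K m s : ℝ) (hK : 1 ≤ K) (hm : 0 ≤ m) (hs : 0 < s) (h : 8 * K ^ 2 * m ≤ s) :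
    m ≤ K ^ 3 * s := by
  have h1 := nr2 K m hK hm
  have h2 : 1 ≤ K ^ 3 := one_le_pow₀ hK
  have h3 : s ≤ K ^ 3 * s := by nlinarith
  have e : 8 * K ^ 2 * m = 8 * (K ^ 2 * m) := by ring
  rw [e] at h
  linarith

theorem cross {a1 b1 a2 b2 K : ℝ} (hd : Dat a1 b1 a2 b2 K) (s Y1 Y2 l1 l2 m : ℝ) (hs : 0 < s)
    (h1 : s ^ 2 ≤ Y1) (h2 : Y2 ≤ 2 * s ^ 2) (hl1 : 1 / K ≤ l1) (hl12 : l1 ≤ l2) (hl2 : l2 ≤ K)
    (hm : 0 ≤ m) (hms : 8 * K ^ 2 * m ≤ s) (z p p' : ℝ × ℝ)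
    (hz1 : |p.1 - z.1| ≤ m) (hz2 : |p.2 - z.2| ≤ m) (hz3 : |p'.1 - z.1| ≤ m)
    (hz4 : |p'.2 - z.2| ≤ m)
    (hp : Reg a1 b1 a2 b2 Y1 Y2 l1 l2 p) (hp' : ¬ Reg a1 b1 a2 b2 Y1 Y2 l1 l2 p') :
    Bdr a1 b1 a2 b2 Y1 Y2 l1 l2 (40 * K ^ 2 * s * m) (12 * K ^ 2 * m) z ∧
      (|z.1| ≤ 5 * K ^ 3 * s ∧ |z.2| ≤ 5 * K ^ 3 * s) := by
  obtain ⟨⟨lo1, lo2⟩, ⟨up1, up2⟩, x1, x2⟩ := reg_bd hd s Y1 Y2 l1 l2 hs h1 h2 hl1 hl2 p hp
  obtain ⟨p1, p2, p3, p4, p5, p6⟩ := hp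
  have hK := hd.hK
  have hK0 : 0 < K := by linarith
  have d1 := ff_diff hd.ha1 hd.hb1 z p hz1 hz2
  have d2 := ff_diff hd.ha2 hd.hb2 z p hz1 hz2
  have d3 := ff_diff hd.ha1 hd.hb1 z p' hz3 hz4
  have d4 := ff_diff hd.ha2 hd.hb2 z p' hz3 hz4
  set g1 := ff a1 b1 p with hg1
  set g2 := ff a2 b2 p with hg2
  set k1 := ff a1 b1 p' with hk1
  set k2 := ff a2 b2 p' with hk2
  set z1 := ff a1 b1 z with hz1d
  set z2 := ff a2 b2 z with hz2d
  have D1 : |k1 - g1| ≤ 4 * K * m := by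
    have : k1 - g1 = (k1 - z1) - (g1 - z1) := by ring
    rw [this]
    refine (abs_sub _ _).trans ?_
    linarith
  have D2 : |k2 - g2| ≤ 4 * K * m := by
    have : k2 - g2 = (k2 - z2) - (g2 - z2) := by ring
    rw [this]
    refine (abs_sub _ _).trans ?_
    linarith
  have hKm0 : 0 ≤ K * m := by positivity
  have hsK : 8 * K * m ≤ s / K := by
    rw [le_div_iff₀ hK0]
    exact nr3 K m s hms
  have k1p : 0 < k1 := by
    have := (abs_le.1 D1).1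
    have : 0 < s / K := by positivity
    linarith
  have k2p : 0 < k2 := by
    have := (abs_le.1 D2).1
    have : 0 < s / K := by positivity
    linarith
  have hKs : s ≤ K * s := le_mul_of_one_le_left hs.le hK
  have h4K := nr4 K m s hK hm hms hKs
  have G0 : (0 : ℝ) ≤ 2 * K * s := by positivity
  have ag2 : |g2| ≤ 2 * K * s := by rw [abs_of_pos p2]; exact up2
  have P1 : |k1 * k2 - g1 * g2| ≤ 20 * K ^ 2 * s * m := by
    refine (cross_aux g1 g2 k1 k2 (2 * K * s) (4 * K * m) p1.le up1 ag2 G0 D1 D2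
      (by positivity)).trans ?_
    exact nr5 K m s hK0 hm h4K
  have P2 : |z1 * z2 - g1 * g2| ≤ 20 * K ^ 2 * s * m := by
    have D5 : |z1 - g1| ≤ 4 * K * m := by rw [abs_sub_comm]; linarith
    have D6 : |z2 - g2| ≤ 4 * K * m := by rw [abs_sub_comm]; linarith
    refine (cross_aux g1 g2 z1 z2 (2 * K * s) (4 * K * m) p1.le up1 ag2 G0 D5 D6
      (by positivity)).trans ?_
    exact nr5 K m s hK0 hm h4K
  have hl10 : 0 < l1 := lt_of_lt_of_le (by positivity) hl1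
  have lin : ∀ l : ℝ, 0 < l → l ≤ K → |(k1 - l * k2) - (g1 - l * g2)| ≤ 8 * K ^ 2 * m ∧
      |(z1 - l * z2) - (g1 - l * g2)| ≤ 4 * K ^ 2 * m := by
    intro l hl hlK
    constructor
    · have e : (k1 - l * k2) - (g1 - l * g2) = (k1 - g1) - l * (k2 - g2) := by ring
      rw [e]
      refine (abs_sub _ _).trans ?_
      rw [abs_mul, abs_of_pos hl]
      have h5 : l * |k2 - g2| ≤ K * (4 * K * m) := mul_le_mul hlK D2 (abs_nonneg _) hK0.le
      have h6 := nr6 K m _ le_rfl hK hm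
      linarith
    · have e : (z1 - l * z2) - (g1 - l * g2) = l * (g2 - z2) - (g1 - z1) := by ring
      rw [e]
      refine (abs_sub _ _).trans ?_
      rw [abs_mul, abs_of_pos hl]
      have h5 : l * |g2 - z2| ≤ K * (2 * K * m) := mul_le_mul hlK d2 (abs_nonneg _) hK0.le
      have h6 := nr7 K m hK hm
      linarith
  constructor
  · have hcase : ¬ (Y1 < k1 * k2) ∨ ¬ (k1 * k2 ≤ Y2) ∨ ¬ (l1 * k2 ≤ k1) ∨ ¬ (k1 < l2 * k2) := by
      by_contra hcon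
      push Not at hcon
      exact hp' ⟨k1p, k2p, hcon.1, hcon.2.1, hcon.2.2.1, hcon.2.2.2⟩
    have q1 := abs_le.1 P1
    have q2 := abs_le.1 P2
    rcases hcase with h | h | h | h
    · left; left
      rw [not_lt] at h
      rw [abs_le]
      constructor <;> linarith [q1.1, q1.2, q2.1, q2.2]
    · left; right
      rw [not_le] at h
      rw [abs_le]
      constructor <;> linarith [q1.1, q1.2, q2.1, q2.2]
    · right; left
      rw [not_le] at h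
      obtain ⟨r1, r2⟩ := lin l1 hl10 (hl12.trans hl2)
      have r1 := abs_le.1 r1
      have r2 := abs_le.1 r2
      rw [abs_le]
      constructor <;> linarith [r1.1, r1.2, r2.1, r2.2]
    · right; right
      rw [not_lt] at h
      obtain ⟨r1, r2⟩ := lin l2 (hl10.trans_le hl12) hl2
      have r1 := abs_le.1 r1
      have r2 := abs_le.1 r2
      rw [abs_le]
      constructor <;> linarith [r1.1, r1.2, r2.1, r2.2]
  · have hm8 := nr8 K m s hK hm hs hms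
    constructor
    · have : z.1 = p.1 - (p.1 - z.1) := by ring
      rw [this]
      refine (abs_sub _ _).trans ?_
      linarith
    · have : z.2 = p.2 - (p.2 - z.2) := by ring
      rw [this]
      refine (abs_sub _ _).trans ?_
      linarith

/-! ### counting -/

theorem card_fib2 (T : Finset (ℤ × ℤ)) (D d : ℝ) (hD : 0 ≤ D) (hd : 0 ≤ d)
    (h1 : ∀ m ∈ T, ∀ n ∈ T, |((m.2 : ℝ) - n.2)| ≤ D)
    (h2 : ∀ m ∈ T, ∀ n ∈ T, m.2 = n.2 → |((m.1 : ℝ) - n.1)| ≤ d) :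
    (T.card : ℝ) ≤ (D + 1) * (d + 1) := by
  classical
  have e1 : T.card = ∑ b ∈ T.image Prod.snd, (T.filter (fun m => m.2 = b)).card :=
    Finset.card_eq_sum_card_image Prod.snd T
  have e2 : ∀ b ∈ T.image Prod.snd, ((T.filter (fun m => m.2 = b)).card : ℝ) ≤ d + 1 := by
    intro b _
    have e3 : (T.filter (fun m => m.2 = b)).card =
        ((T.filter (fun m => m.2 = b)).image Prod.fst).card := by
      symm
      apply Finset.card_image_of_injOn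
      intro m hm n hn hmn
      have hm' := Finset.mem_coe.1 hm
      have hn' := Finset.mem_coe.1 hn
      rw [Finset.mem_filter] at hm' hn'
      exact Prod.ext hmn (hm'.2.trans hn'.2.symm)
    rw [e3]
    apply card_diam _ d hd
    intro x hx y hy
    rw [Finset.mem_image] at hx hy
    obtain ⟨m, hm, rfl⟩ := hx
    obtain ⟨n, hn, rfl⟩ := hy
    rw [Finset.mem_filter] at hm hn
    exact h2 m hm.1 n hn.1 (hm.2.trans hn.2.symm)
  have e3 : ((T.image Prod.snd).card : ℝ) ≤ D + 1 := by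
    apply card_diam _ D hD
    intro x hx y hy
    rw [Finset.mem_image] at hx hy
    obtain ⟨m, hm, rfl⟩ := hx
    obtain ⟨n, hn, rfl⟩ := hy
    exact h1 m hm n hn
  rw [e1]
  push_cast
  refine (Finset.sum_le_sum e2).trans ?_
  rw [Finset.sum_const, nsmul_eq_mul]
  exact mul_le_mul_of_nonneg_right e3 (by linarith)

theorem diff_bd (x y u R : ℝ) (h1 : |x + u| ≤ R) (h2 : |y + u| ≤ R) : |x - y| ≤ 2 * R := by
  have : x - y = (x + u) - (y + u) := by ring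
  rw [this]
  refine (abs_sub _ _).trans ?_
  linarith

/-- strips -/
theorem card_lin (w : ℝ × ℝ) (T : Finset (ℤ × ℤ)) (R p s E mu : ℝ) (hR : 0 ≤ R) (hE : 0 ≤ E)
    (hmu : 0 < mu) (hps : mu ≤ |p| ∨ mu ≤ |s|)
    (h1 : ∀ n ∈ T, |(pt w n).1| ≤ R ∧ |(pt w n).2| ≤ R)
    (h2 : ∀ n ∈ T, |p * (pt w n).1 + s * (pt w n).2| ≤ E) :
    (T.card : ℝ) ≤ (2 * R + 1) * (2 * E / mu + 1) := by
  classical
  have key : ∀ (c u v : ℝ), mu ≤ |c| → |c * (u - v)| ≤ 2 * E → |u - v| ≤ 2 * E / mu := by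
    intro c u v hc h
    rw [le_div_iff₀ hmu]
    rw [abs_mul] at h
    have := abs_nonneg (u - v)
    nlinarith
  rcases hps with hp | hs
  · apply card_fib2 T (2 * R) (2 * E / mu) (by linarith) (by positivity)
    · intro m hm n hn
      exact diff_bd _ _ w.2 R (h1 m hm).2 (h1 n hn).2
    · intro m hm n hn hmn
      apply key p _ _ hp
      have e : p * ((m.1 : ℝ) - n.1) = (p * (pt w m).1 + s * (pt w m).2) -
          (p * (pt w n).1 + s * (pt w n).2) := by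
        unfold pt
        simp only
        rw [hmn]
        ring
      rw [e]
      refine (abs_sub _ _).trans ?_
      linarith [h2 m hm, h2 n hn]
  · rw [← card_swap T]
    apply card_fib2 (T.image Prod.swap) (2 * R) (2 * E / mu) (by linarith) (by positivity)
    · intro m' hm' n' hn'
      rw [Finset.mem_image] at hm' hn'
      obtain ⟨m, hm, rfl⟩ := hm'
      obtain ⟨n, hn, rfl⟩ := hn'
      exact diff_bd _ _ w.1 R (h1 m hm).1 (h1 n hn).1
    · intro m' hm' n' hn' hmn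
      rw [Finset.mem_image] at hm' hn'
      obtain ⟨m, hm, rfl⟩ := hm'
      obtain ⟨n, hn, rfl⟩ := hn'
      rw [Prod.snd_swap, Prod.snd_swap] at hmn
      rw [Prod.fst_swap, Prod.fst_swap]
      apply key s _ _ hs
      have e : s * ((m.2 : ℝ) - n.2) = (p * (pt w m).1 + s * (pt w m).2) -
          (p * (pt w n).1 + s * (pt w n).2) := by
        unfold pt
        simp only
        rw [hmn]
        ring
      rw [e]
      refine (abs_sub _ _).trans ?_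
      linarith [h2 m hm, h2 n hn]

/-- neighbourhoods of hyperbolas -/
theorem card_quad {a1 b1 a2 b2 K : ℝ} (hd : Dat a1 b1 a2 b2 K) (w : ℝ × ℝ)
    (T : Finset (ℤ × ℤ)) (R V E : ℝ) (hR : 0 ≤ R) (hE : 0 ≤ E)
    (h1 : ∀ n ∈ T, |(pt w n).2| ≤ R)
    (h2 : ∀ n ∈ T, |ff a1 b1 (pt w n) * ff a2 b2 (pt w n) - V| ≤ E) :
    (T.card : ℝ) ≤ (2 * R + 1) * (2 * (Real.sqrt (2 * K * E) + 1)) := by
  classical
  have hK := hd.hK
  have haa := hd.haa
  set ka : ℤ × ℤ → ℝ := fun n => 2 * (a1 * a2) * (pt w n).1 + (a1 * b2 + a2 * b1) * (pt w n).2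
    with hka
  have part : ∀ U : Finset (ℤ × ℤ), U ⊆ T → (∀ m ∈ U, ∀ n ∈ U, 0 ≤ ka m * ka n) →
      (U.card : ℝ) ≤ (2 * R + 1) * (Real.sqrt (2 * K * E) + 1) := by
    intro U hU hs
    apply card_fib2 U (2 * R) (Real.sqrt (2 * K * E)) (by linarith) (Real.sqrt_nonneg _)
    · intro m hm n hn
      exact diff_bd _ _ w.2 R (h1 m (hU hm)) (h1 n (hU hn))
    · intro m hm n hn hmn
      apply Real.le_sqrt_of_sq_le
      have e1 : (ff a1 b1 (pt w m) * ff a2 b2 (pt w m) - V) -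
          (ff a1 b1 (pt w n) * ff a2 b2 (pt w n) - V) =
          ((m.1 : ℝ) - n.1) * (ka m + ka n) / 2 := by
        rw [hka]
        unfold ff pt
        simp only
        rw [hmn]
        ring
      have e2 : ka m - ka n = 2 * (a1 * a2) * ((m.1 : ℝ) - n.1) := by
        rw [hka]
        unfold pt
        simp only
        rw [hmn]
        ring
      have h3 : |((m.1 : ℝ) - n.1) * (ka m + ka n) / 2| ≤ 2 * E := by
        rw [← e1]
        refine (abs_sub _ _).trans ?_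
        linarith [h2 m (hU hm), h2 n (hU hn)]
      have h4 : |ka m - ka n| ≤ |ka m + ka n| := by
        apply sq_le_sq.1
        have := hs m hm n hn
        nlinarith
      rw [e2, abs_mul, abs_mul, abs_two] at h4
      rw [abs_div, abs_mul, abs_two] at h3
      rw [sq_abs]
      have h5 : 0 ≤ |((m.1 : ℝ) - n.1)| := abs_nonneg _
      have h6 : |((m.1 : ℝ) - n.1)| * (2 * |a1 * a2| * |((m.1 : ℝ) - n.1)|) ≤ 2 * (2 * E) := by
        have h7 : |((m.1 : ℝ) - n.1)| * (2 * |a1 * a2| * |((m.1 : ℝ) - n.1)|) ≤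
            |((m.1 : ℝ) - n.1)| * |ka m + ka n| := mul_le_mul_of_nonneg_left h4 h5
        linarith
      have h8 : |((m.1 : ℝ) - n.1)| ^ 2 = ((m.1 : ℝ) - n.1) ^ 2 := sq_abs _
      have h9 : |a1 * a2| * ((m.1 : ℝ) - n.1) ^ 2 ≤ 2 * E := by
        rw [← h8]; nlinarith
      calc ((m.1 : ℝ) - n.1) ^ 2 = 1 * ((m.1 : ℝ) - n.1) ^ 2 := (one_mul _).symm
        _ ≤ (K * |a1 * a2|) * ((m.1 : ℝ) - n.1) ^ 2 := by gcongr
        _ = K * (|a1 * a2| * ((m.1 : ℝ) - n.1) ^ 2) := by ring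
        _ ≤ K * (2 * E) := by gcongr
        _ = 2 * K * E := by ring
  have p1 := part (T.filter (fun m => 0 ≤ ka m)) (Finset.filter_subset _ _) (by
    intro m hm n hn
    rw [Finset.mem_filter] at hm hn
    exact mul_nonneg hm.2 hn.2)
  have p2 := part (T.filter (fun m => ¬ 0 ≤ ka m)) (Finset.filter_subset _ _) (by
    intro m hm n hn
    rw [Finset.mem_filter, not_le] at hm hn
    exact mul_nonneg_of_nonpos_of_nonpos hm.2.le hn.2.le)
  have h5 : (T.card : ℝ) = ((T.filter (fun m => 0 ≤ ka m)).card : ℝ) +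
      ((T.filter (fun m => ¬ 0 ≤ ka m)).card : ℝ) := by
    rw [← Nat.cast_add, Finset.card_filter_add_card_filter_not]
  rw [h5]
  linarith

/-- points near the boundary -/
theorem card_bdr {a1 b1 a2 b2 K : ℝ} (hd : Dat a1 b1 a2 b2 K) (w : ℝ × ℝ)
    (T : Finset (ℤ × ℤ)) (R E F Y1 Y2 l1 l2 : ℝ) (hR : 0 ≤ R) (hE : 0 ≤ E) (hF : 0 ≤ F)
    (h1 : ∀ n ∈ T, |(pt w n).1| ≤ R ∧ |(pt w n).2| ≤ R)
    (h2 : ∀ n ∈ T, Bdr a1 b1 a2 b2 Y1 Y2 l1 l2 E F (pt w n)) :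
    (T.card : ℝ) ≤ 2 * ((2 * R + 1) * (2 * (Real.sqrt (2 * K * E) + 1))) +
      2 * ((2 * R + 1) * (4 * K ^ 2 * F + 1)) := by
  classical
  have hK := hd.hK
  have hK0 : 0 < K := by linarith
  set TQ : ℝ → Finset (ℤ × ℤ) := fun V =>
    T.filter (fun n => |ff a1 b1 (pt w n) * ff a2 b2 (pt w n) - V| ≤ E) with hTQ
  set TL : ℝ → Finset (ℤ × ℤ) := fun l =>
    T.filter (fun n => |ff a1 b1 (pt w n) - l * ff a2 b2 (pt w n)| ≤ F) with hTL
  have hsub : T ⊆ (TQ Y1 ∪ TQ Y2) ∪ (TL l1 ∪ TL l2) := by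
    intro n hn
    rw [Finset.mem_union, Finset.mem_union, Finset.mem_union, hTQ, hTL]
    simp only [Finset.mem_filter]
    rcases h2 n hn with (h | h) | (h | h)
    · exact Or.inl (Or.inl ⟨hn, h⟩)
    · exact Or.inl (Or.inr ⟨hn, h⟩)
    · exact Or.inr (Or.inl ⟨hn, h⟩)
    · exact Or.inr (Or.inr ⟨hn, h⟩)
  have hc : T.card ≤ (TQ Y1).card + (TQ Y2).card + ((TL l1).card + (TL l2).card) := by
    refine (Finset.card_le_card hsub).trans ((Finset.card_union_le _ _).trans ?_)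
    exact add_le_add (Finset.card_union_le _ _) (Finset.card_union_le _ _)
  have hc' : (T.card : ℝ) ≤ (TQ Y1).card + (TQ Y2).card + ((TL l1).card + (TL l2).card) := by
    exact_mod_cast hc
  have cQ : ∀ V : ℝ, ((TQ V).card : ℝ) ≤ (2 * R + 1) * (2 * (Real.sqrt (2 * K * E) + 1)) := by
    intro V
    apply card_quad hd w (TQ V) R V E hR hE
    · intro n hn
      exact (h1 n (Finset.mem_filter.1 hn).1).2
    · intro n hn
      exact (Finset.mem_filter.1 hn).2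
  have cL : ∀ l : ℝ, ((TL l).card : ℝ) ≤ (2 * R + 1) * (4 * K ^ 2 * F + 1) := by
    intro l
    have hps : 1 / (2 * K ^ 2) ≤ |a1 - l * a2| ∨ 1 / (2 * K ^ 2) ≤ |b1 - l * b2| := by
      by_contra hcon
      push Not at hcon
      have e : a1 * b2 - a2 * b1 = (a1 - l * a2) * b2 - (b1 - l * b2) * a2 := by ring
      have h3 : |a1 * b2 - a2 * b1| ≤ |a1 - l * a2| * K + |b1 - l * b2| * K := by
        rw [e]
        refine (abs_sub _ _).trans ?_
        rw [abs_mul, abs_mul]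
        have := hd.ha2
        have := hd.hb2
        gcongr
      have h4 : |a1 * b2 - a2 * b1| < 1 / (2 * K ^ 2) * K + 1 / (2 * K ^ 2) * K := by
        have i1 : |a1 - l * a2| * K < 1 / (2 * K ^ 2) * K := mul_lt_mul_of_pos_right hcon.1 hK0
        have i2 : |b1 - l * b2| * K < 1 / (2 * K ^ 2) * K := mul_lt_mul_of_pos_right hcon.2 hK0
        linarith
      have h5 : 1 / (2 * K ^ 2) * K + 1 / (2 * K ^ 2) * K = 1 / K := by
        field_simp
        norm_num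
      rw [h5] at h4
      have h6 := hd.hdet
      have h7 : K * |a1 * b2 - a2 * b1| < K * (1 / K) := mul_lt_mul_of_pos_left h4 hK0
      rw [mul_one_div_cancel hK0.ne'] at h7
      linarith
    have h3 := card_lin w (TL l) R (a1 - l * a2) (b1 - l * b2) F (1 / (2 * K ^ 2)) hR hF
      (by positivity) hps (by
        intro n hn
        exact h1 n (Finset.mem_filter.1 hn).1) (by
        intro n hn
        have h4 := (Finset.mem_filter.1 hn).2
        have e : (a1 - l * a2) * (pt w n).1 + (b1 - l * b2) * (pt w n).2 =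
            ff a1 b1 (pt w n) - l * ff a2 b2 (pt w n) := by unfold ff; ring
        rw [e]
        exact h4)
    refine h3.trans (le_of_eq ?_)
    congr 2
    field_simp
    ring
  linarith [cQ Y1, cQ Y2, cL l1, cL l2]

/-- far from degenerate lines -/
def FarR (a1 b1 a2 b2 D : ℝ) (z : ℝ × ℝ) : Prop :=
  D ≤ |a1 * ff a2 b2 z - a2 * ff a1 b1 z| ∧ D ≤ |a1 * ff a2 b2 z + a2 * ff a1 b1 z|

theorem card_badR {a1 b1 a2 b2 K : ℝ} (hd : Dat a1 b1 a2 b2 K) (w : ℝ × ℝ)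
    (T : Finset (ℤ × ℤ)) (R D : ℝ) (hR : 0 ≤ R) (hD : 0 ≤ D)
    (h1 : ∀ n ∈ T, |(pt w n).1| ≤ R ∧ |(pt w n).2| ≤ R)
    (h2 : ∀ n ∈ T, ¬ FarR a1 b1 a2 b2 D (pt w n)) :
    (T.card : ℝ) ≤ 2 * ((2 * R + 1) * (2 * K * D + 1)) := by
  classical
  have hK := hd.hK
  have hK0 : 0 < K := by linarith
  set TA := T.filter (fun n => |a1 * ff a2 b2 (pt w n) - a2 * ff a1 b1 (pt w n)| ≤ D) with hTA
  set TB := T.filter (fun n => |a1 * ff a2 b2 (pt w n) + a2 * ff a1 b1 (pt w n)| ≤ D) with hTB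
  have hsub : T ⊆ TA ∪ TB := by
    intro n hn
    rw [Finset.mem_union, hTA, hTB, Finset.mem_filter, Finset.mem_filter]
    have h3 := h2 n hn
    unfold FarR at h3
    rw [not_and_or, not_le, not_le] at h3
    rcases h3 with h3 | h3
    · exact Or.inl ⟨hn, h3.le⟩
    · exact Or.inr ⟨hn, h3.le⟩
  have hc : T.card ≤ TA.card + TB.card :=
    (Finset.card_le_card hsub).trans (Finset.card_union_le _ _)
  have hc' : (T.card : ℝ) ≤ TA.card + TB.card := by exact_mod_cast hc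
  have m1 : 1 / K ≤ |a1 * b2 - a2 * b1| := by
    rw [div_le_iff₀ hK0]
    linarith [hd.hdet]
  have m2 : 1 / K ≤ |2 * (a1 * a2)| := by
    rw [div_le_iff₀ hK0, abs_mul, abs_two]
    linarith [hd.haa]
  have cA := card_lin w TA R 0 (a1 * b2 - a2 * b1) D (1 / K) hR hD (by positivity) (Or.inr m1)
    (fun n hn => h1 n (Finset.mem_filter.1 hn).1) (by
      intro n hn
      have h3 := (Finset.mem_filter.1 hn).2
      have e : 0 * (pt w n).1 + (a1 * b2 - a2 * b1) * (pt w n).2 =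
          a1 * ff a2 b2 (pt w n) - a2 * ff a1 b1 (pt w n) := by unfold ff; ring
      rw [e]
      exact h3)
  have cB := card_lin w TB R (2 * (a1 * a2)) (a1 * b2 + a2 * b1) D (1 / K) hR hD (by positivity)
    (Or.inl m2) (fun n hn => h1 n (Finset.mem_filter.1 hn).1) (by
      intro n hn
      have h3 := (Finset.mem_filter.1 hn).2
      have e : 2 * (a1 * a2) * (pt w n).1 + (a1 * b2 + a2 * b1) * (pt w n).2 =
          a1 * ff a2 b2 (pt w n) + a2 * ff a1 b1 (pt w n) := by unfold ff; ring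
      rw [e]
      exact h3)
  have e : 2 * D / (1 / K) = 2 * K * D := by field_simp
  rw [e] at cA cB
  linarith

theorem card_all (w : ℝ × ℝ) (T : Finset (ℤ × ℤ)) (R : ℝ) (hR : 0 ≤ R)
    (h1 : ∀ n ∈ T, |(pt w n).1| ≤ R ∧ |(pt w n).2| ≤ R) :
    (T.card : ℝ) ≤ (2 * R + 1) * (2 * R + 1) := by
  apply card_fib2 T (2 * R) (2 * R) (by linarith) (by linarith)
  · intro m hm n hn
    exact diff_bd _ _ w.2 R (h1 m hm).2 (h1 n hn).2
  · intro m hm n hn _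
    exact diff_bd _ _ w.1 R (h1 m hm).1 (h1 n hn).1

end Pool.Agent.XR67
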