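import Pool.Agent.Lib.MP_a17b09_nt.MRS.RCnt67

/-!
The integral over a sector for an indefinite form.
-/

set_option autoImplicit false

namespace Pool.Agent.XR67

open MeasureTheory Complex

/-- hyperbolic coordinates -/
noncomputable def Psi (a1 b1 a2 b2 : ℝ) (p : ℝ × ℝ) : ℝ × ℝ :=
  (Real.sqrt p.1 * ((b2 / (a1 * b2 - a2 * b1)) * Real.exp (p.2 / 2) +
      (-b1 / (a1 * b2 - a2 * b1)) * Real.exp (-(p.2 / 2))),
    Real.sqrt p.1 * ((-a2 / (a1 * b2 - a2 * b1)) * Real.exp (p.2 / 2) +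
      (a1 / (a1 * b2 - a2 * b1)) * Real.exp (-(p.2 / 2))))

theorem Psi_ff1 {a1 b1 a2 b2 : ℝ} (h : a1 * b2 - a2 * b1 ≠ 0) (p : ℝ × ℝ) :
    ff a1 b1 (Psi a1 b1 a2 b2 p) = Real.sqrt p.1 * Real.exp (p.2 / 2) := by
  unfold ff Psi
  generalize hD : a1 * b2 - a2 * b1 = D at *
  simp only
  have e : a1 * (Real.sqrt p.1 * (b2 / D * Real.exp (p.2 / 2) + -b1 / D * Real.exp (-(p.2 / 2)))) +
      b1 * (Real.sqrt p.1 * (-a2 / D * Real.exp (p.2 / 2) + a1 / D * Real.exp (-(p.2 / 2)))) =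
      Real.sqrt p.1 * Real.exp (p.2 / 2) * ((a1 * b2 - a2 * b1) / D) := by ring
  rw [e, hD, div_self h, mul_one]

theorem Psi_ff2 {a1 b1 a2 b2 : ℝ} (h : a1 * b2 - a2 * b1 ≠ 0) (p : ℝ × ℝ) :
    ff a2 b2 (Psi a1 b1 a2 b2 p) = Real.sqrt p.1 * Real.exp (-(p.2 / 2)) := by
  unfold ff Psi
  generalize hD : a1 * b2 - a2 * b1 = D at *
  simp only
  have e : a2 * (Real.sqrt p.1 * (b2 / D * Real.exp (p.2 / 2) + -b1 / D * Real.exp (-(p.2 / 2)))) +
      b2 * (Real.sqrt p.1 * (-a2 / D * Real.exp (p.2 / 2) + a1 / D * Real.exp (-(p.2 / 2)))) =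
      Real.sqrt p.1 * Real.exp (-(p.2 / 2)) * ((a1 * b2 - a2 * b1) / D) := by ring
  rw [e, hD, div_self h, mul_one]

theorem ff_inj {a1 b1 a2 b2 : ℝ} (h : a1 * b2 - a2 * b1 ≠ 0) (p q : ℝ × ℝ)
    (h1 : ff a1 b1 p = ff a1 b1 q) (h2 : ff a2 b2 p = ff a2 b2 q) : p = q := by
  unfold ff at h1 h2
  have e1 : (a1 * b2 - a2 * b1) * p.1 = (a1 * b2 - a2 * b1) * q.1 := by
    linear_combination b2 * h1 - b1 * h2
  have e2 : (a1 * b2 - a2 * b1) * p.2 = (a1 * b2 - a2 * b1) * q.2 := by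
    linear_combination a1 * h2 - a2 * h1
  exact Prod.ext (mul_left_cancel₀ h e1) (mul_left_cancel₀ h e2)

/-- derivative of a component -/
theorem comp_deriv (c d : ℝ) (p : ℝ × ℝ) (hp : 0 < p.1) :
    HasFDerivAt (fun p : ℝ × ℝ => Real.sqrt p.1 * (c * Real.exp (p.2 / 2) +
      d * Real.exp (-(p.2 / 2))))
      ((1 / (2 * Real.sqrt p.1) * (c * Real.exp (p.2 / 2) + d * Real.exp (-(p.2 / 2)))) •
        ContinuousLinearMap.fst ℝ ℝ ℝ +
       (Real.sqrt p.1 / 2 * (c * Real.exp (p.2 / 2) - d * Real.exp (-(p.2 / 2)))) •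
        ContinuousLinearMap.snd ℝ ℝ ℝ) p := by
  have h1 : HasFDerivAt (fun p : ℝ × ℝ => Real.sqrt p.1)
      ((1 / (2 * Real.sqrt p.1)) • ContinuousLinearMap.fst ℝ ℝ ℝ) p :=
    (Real.hasDerivAt_sqrt hp.ne').comp_hasFDerivAt p hasFDerivAt_fst
  have h2 : HasDerivAt (fun u : ℝ => c * Real.exp (u / 2) + d * Real.exp (-(u / 2)))
      (1 / 2 * (c * Real.exp (p.2 / 2) - d * Real.exp (-(p.2 / 2)))) p.2 := by
    have e1 : HasDerivAt (fun u : ℝ => u / 2) (1 / 2) p.2 := (hasDerivAt_id p.2).div_const 2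
    have e1' : HasDerivAt (fun u : ℝ => -(u / 2)) (-(1 / 2)) p.2 := e1.neg
    have e2 := (e1.exp.const_mul c).add (e1'.exp.const_mul d)
    refine e2.congr_deriv ?_
    ring
  have hsnd : HasFDerivAt (fun p : ℝ × ℝ => p.2) (ContinuousLinearMap.snd ℝ ℝ ℝ) p :=
    hasFDerivAt_snd
  have h3 := HasDerivAt.comp_hasFDerivAt (f := fun p : ℝ × ℝ => p.2) p h2 hsnd
  have h4 := h1.mul h3
  refine h4.congr_fderiv ?_
  ext v
  · simp
    ring
  · simp
    ring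

/-- the derivative -/
noncomputable def dPsi (a1 b1 a2 b2 : ℝ) (p : ℝ × ℝ) : ℝ × ℝ →L[ℝ] ℝ × ℝ :=
  (Matrix.toLin (.finTwoProd ℝ) (.finTwoProd ℝ)
    !![1 / (2 * Real.sqrt p.1) * ((b2 / (a1 * b2 - a2 * b1)) * Real.exp (p.2 / 2) +
        (-b1 / (a1 * b2 - a2 * b1)) * Real.exp (-(p.2 / 2))),
      Real.sqrt p.1 / 2 * ((b2 / (a1 * b2 - a2 * b1)) * Real.exp (p.2 / 2) -
        (-b1 / (a1 * b2 - a2 * b1)) * Real.exp (-(p.2 / 2)));
      1 / (2 * Real.sqrt p.1) * ((-a2 / (a1 * b2 - a2 * b1)) * Real.exp (p.2 / 2) +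
        (a1 / (a1 * b2 - a2 * b1)) * Real.exp (-(p.2 / 2))),
      Real.sqrt p.1 / 2 * ((-a2 / (a1 * b2 - a2 * b1)) * Real.exp (p.2 / 2) -
        (a1 / (a1 * b2 - a2 * b1)) * Real.exp (-(p.2 / 2)))]).toContinuousLinearMap

theorem Psi_deriv (a1 b1 a2 b2 : ℝ) (p : ℝ × ℝ) (hp : 0 < p.1) :
    HasFDerivAt (Psi a1 b1 a2 b2) (dPsi a1 b1 a2 b2 p) p := by
  unfold dPsi
  rw [Matrix.toLin_finTwoProd_toContinuousLinearMap]
  exact (comp_deriv _ _ p hp).prodMk (comp_deriv _ _ p hp)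

theorem dPsi_det {a1 b1 a2 b2 : ℝ} (h : a1 * b2 - a2 * b1 ≠ 0) (p : ℝ × ℝ) (hp : 0 < p.1) :
    |(dPsi a1 b1 a2 b2 p).det| = 1 / (2 * |a1 * b2 - a2 * b1|) := by
  have e : (dPsi a1 b1 a2 b2 p).det = -(1 / (2 * (a1 * b2 - a2 * b1))) := by
    unfold dPsi
    rw [LinearMap.det_toContinuousLinearMap, LinearMap.det_toLin, Matrix.det_fin_two_of]
    have h1 : Real.exp (p.2 / 2) * Real.exp (-(p.2 / 2)) = 1 := by
      rw [← Real.exp_add]; simp
    have hs : Real.sqrt p.1 ≠ 0 := (Real.sqrt_pos.2 hp).ne'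
    set E := Real.exp (p.2 / 2)
    set E' := Real.exp (-(p.2 / 2))
    set s := Real.sqrt p.1
    generalize hD : a1 * b2 - a2 * b1 = D at *
    have h2 : 1 / (2 * s) * (b2 / D * E + -b1 / D * E') * (s / 2 * (-a2 / D * E - a1 / D * E')) -
        s / 2 * (b2 / D * E - -b1 / D * E') * (1 / (2 * s) * (-a2 / D * E + a1 / D * E')) =
        -((E * E') * (s / s) * ((a1 * b2 - a2 * b1) / D) * (1 / (2 * D))) := by ring
    rw [h2, h1, hD, div_self hs, div_self h]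
    ring
  rw [e, abs_neg, abs_div, abs_one, abs_mul, abs_two]

/-- the region as a set -/
def RegS (a1 b1 a2 b2 Y1 Y2 l1 l2 : ℝ) : Set (ℝ × ℝ) := {p | Reg a1 b1 a2 b2 Y1 Y2 l1 l2 p}

theorem RegS_image {a1 b1 a2 b2 : ℝ} (h : a1 * b2 - a2 * b1 ≠ 0) (Y1 Y2 l1 l2 : ℝ)
    (hY : 0 < Y1) (hl1 : 0 < l1) (hl12 : l1 ≤ l2) :
    RegS a1 b1 a2 b2 Y1 Y2 l1 l2 =
      Psi a1 b1 a2 b2 '' (Set.Ioc Y1 Y2 ×ˢ Set.Ico (Real.log l1) (Real.log l2)) := by
  have hl2 : 0 < l2 := hl1.trans_le hl12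
  ext p
  constructor
  · rintro ⟨p1, p2, p3, p4, p5, p6⟩
    refine ⟨(ff a1 b1 p * ff a2 b2 p, Real.log (ff a1 b1 p / ff a2 b2 p)), ⟨⟨p3, p4⟩, ?_, ?_⟩, ?_⟩
    · apply Real.log_le_log hl1
      rw [le_div_iff₀ p2]
      exact p5
    · apply Real.log_lt_log (by positivity)
      rw [div_lt_iff₀ p2]
      exact p6
    · have hE : Real.exp (Real.log (ff a1 b1 p / ff a2 b2 p) / 2) =
          Real.sqrt (ff a1 b1 p / ff a2 b2 p) := by
        rw [Real.exp_half, Real.exp_log (by positivity)]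
      have hE' : Real.exp (-(Real.log (ff a1 b1 p / ff a2 b2 p) / 2)) =
          (Real.sqrt (ff a1 b1 p / ff a2 b2 p))⁻¹ := by
        rw [Real.exp_neg, hE]
      apply ff_inj h
      · rw [Psi_ff1 h]
        simp only
        rw [hE, ← Real.sqrt_mul (by positivity)]
        rw [show ff a1 b1 p * ff a2 b2 p * (ff a1 b1 p / ff a2 b2 p) = ff a1 b1 p ^ 2 by
          field_simp]
        exact Real.sqrt_sq p1.le
      · rw [Psi_ff2 h]
        simp only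
        rw [hE', ← Real.sqrt_inv, ← Real.sqrt_mul (by positivity)]
        rw [show ff a1 b1 p * ff a2 b2 p * (ff a1 b1 p / ff a2 b2 p)⁻¹ = ff a2 b2 p ^ 2 by
          field_simp]
        exact Real.sqrt_sq p2.le
  · rintro ⟨⟨N, u⟩, ⟨⟨hN1, hN2⟩, hu1, hu2⟩, rfl⟩
    simp only at hN1 hN2 hu1 hu2
    have hN0 : 0 < N := hY.trans hN1
    have hs : 0 < Real.sqrt N := Real.sqrt_pos.2 hN0
    have e1 := Psi_ff1 h (N, u)
    have e2 := Psi_ff2 h (N, u)
    simp only at e1 e2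
    have hE : Real.exp (u / 2) * Real.exp (-(u / 2)) = 1 := by rw [← Real.exp_add]; simp
    have hE2 : Real.exp (u / 2) = Real.exp u * Real.exp (-(u / 2)) := by
      rw [← Real.exp_add]; congr 1; ring
    have hprod : ff a1 b1 (Psi a1 b1 a2 b2 (N, u)) * ff a2 b2 (Psi a1 b1 a2 b2 (N, u)) = N := by
      rw [e1, e2]
      calc Real.sqrt N * Real.exp (u / 2) * (Real.sqrt N * Real.exp (-(u / 2)))
          = (Real.sqrt N * Real.sqrt N) * (Real.exp (u / 2) * Real.exp (-(u / 2))) := by ring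
        _ = N := by rw [hE, Real.mul_self_sqrt hN0.le, mul_one]
    refine ⟨?_, ?_, ?_, ?_, ?_, ?_⟩
    · rw [e1]; positivity
    · rw [e2]; positivity
    · rw [hprod]; exact hN1
    · rw [hprod]; exact hN2
    · rw [e1, e2, hE2]
      have h3 : l1 ≤ Real.exp u := by
        rw [← Real.exp_log hl1]
        exact Real.exp_le_exp.2 hu1
      calc l1 * (Real.sqrt N * Real.exp (-(u / 2)))
          ≤ Real.exp u * (Real.sqrt N * Real.exp (-(u / 2))) := by gcongr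
        _ = _ := by ring
    · rw [e1, e2, hE2]
      have h3 : Real.exp u < l2 := by
        rw [← Real.exp_log hl2]
        exact Real.exp_lt_exp.2 hu2
      calc Real.sqrt N * (Real.exp u * Real.exp (-(u / 2)))
          = Real.exp u * (Real.sqrt N * Real.exp (-(u / 2))) := by ring
        _ < l2 * (Real.sqrt N * Real.exp (-(u / 2))) := by
          apply mul_lt_mul_of_pos_right h3
          positivity

theorem Psi_inj {a1 b1 a2 b2 : ℝ} (h : a1 * b2 - a2 * b1 ≠ 0) (Y1 Y2 u1 u2 : ℝ) (hY : 0 < Y1) :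
    Set.InjOn (Psi a1 b1 a2 b2) (Set.Ioc Y1 Y2 ×ˢ Set.Ico u1 u2) := by
  rintro ⟨N, u⟩ ⟨⟨hN1, _⟩, _⟩ ⟨N', u'⟩ ⟨⟨hN1', _⟩, _⟩ he
  simp only at hN1 hN1'
  have hN0 : 0 < N := hY.trans hN1
  have hN0' : 0 < N' := hY.trans hN1'
  have e1 := Psi_ff1 h (N, u)
  have e2 := Psi_ff2 h (N, u)
  rw [he, Psi_ff1 h] at e1
  rw [he, Psi_ff2 h] at e2
  simp only at e1 e2
  have hE : Real.exp (u / 2) * Real.exp (-(u / 2)) = 1 := by rw [← Real.exp_add]; simp
  have hE' : Real.exp (u' / 2) * Real.exp (-(u' / 2)) = 1 := by rw [← Real.exp_add]; simp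
  have hNN : N' = N := by
    calc N' = (Real.sqrt N' * Real.sqrt N') * (Real.exp (u' / 2) * Real.exp (-(u' / 2))) := by
          rw [hE', Real.mul_self_sqrt hN0'.le, mul_one]
      _ = (Real.sqrt N' * Real.exp (u' / 2)) * (Real.sqrt N' * Real.exp (-(u' / 2))) := by ring
      _ = (Real.sqrt N * Real.exp (u / 2)) * (Real.sqrt N * Real.exp (-(u / 2))) := by rw [e1, e2]
      _ = (Real.sqrt N * Real.sqrt N) * (Real.exp (u / 2) * Real.exp (-(u / 2))) := by ring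
      _ = N := by rw [hE, Real.mul_self_sqrt hN0.le, mul_one]
  subst hNN
  have hs : Real.sqrt N' ≠ 0 := (Real.sqrt_pos.2 hN0').ne'
  have h3 := mul_left_cancel₀ hs e1
  have h4 := Real.exp_injective h3
  have h5 : u = u' := by linarith
  rw [h5]

theorem ph_meas (a1 b1 a2 b2 tau : ℝ) :
    Measurable (fun p : ℝ × ℝ => ph tau (ff a1 b1 p) (ff a2 b2 p)) := by
  unfold ph ff
  have h1 : Measurable (fun p : ℝ × ℝ => Real.log ((a1 * p.1 + b1 * p.2) / (a2 * p.1 + b2 * p.2))) :=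
    Real.measurable_log.comp (by fun_prop)
  have h2 : Measurable (fun p : ℝ × ℝ =>
      tau * Real.log ((a1 * p.1 + b1 * p.2) / (a2 * p.1 + b2 * p.2))) := h1.const_mul tau
  have h3 : Measurable (fun x : ℝ => exp (I * (x : ℂ))) := by fun_prop
  exact h3.comp h2

/-- the integral over the sector -/
theorem reg_int {a1 b1 a2 b2 : ℝ} (h : a1 * b2 - a2 * b1 ≠ 0) (tau Y1 Y2 l1 l2 : ℝ)
    (hY : 0 < Y1) (hY12 : Y1 ≤ Y2) (hl1 : 0 < l1) (hl12 : l1 ≤ l2) :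
    ∫ p in RegS a1 b1 a2 b2 Y1 Y2 l1 l2, ph tau (ff a1 b1 p) (ff a2 b2 p) =
      (((Y2 - Y1) / (2 * |a1 * b2 - a2 * b1|) : ℝ) : ℂ) *
        ∫ u in (Real.log l1)..(Real.log l2), exp (I * ((tau * u : ℝ) : ℂ)) := by
  rw [RegS_image h Y1 Y2 l1 l2 hY hl1 hl12]
  have hms : MeasurableSet (Set.Ioc Y1 Y2 ×ˢ Set.Ico (Real.log l1) (Real.log l2)) :=
    measurableSet_Ioc.prod measurableSet_Ico
  rw [integral_image_eq_integral_abs_det_fderiv_smul volume hms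
    (f' := dPsi a1 b1 a2 b2) (fun p hp => (Psi_deriv a1 b1 a2 b2 p (hY.trans hp.1.1)).hasFDerivWithinAt)
    (Psi_inj h Y1 Y2 _ _ hY)]
  have e1 : ∫ p in (Set.Ioc Y1 Y2 ×ˢ Set.Ico (Real.log l1) (Real.log l2)),
      |(dPsi a1 b1 a2 b2 p).det| • ph tau (ff a1 b1 (Psi a1 b1 a2 b2 p))
        (ff a2 b2 (Psi a1 b1 a2 b2 p)) =
      ∫ p in (Set.Ioc Y1 Y2 ×ˢ Set.Ico (Real.log l1) (Real.log l2)),
        ((1 / (2 * |a1 * b2 - a2 * b1|) : ℝ) : ℂ) * exp (I * ((tau * p.2 : ℝ) : ℂ)) := by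
    apply setIntegral_congr_fun hms
    rintro ⟨N, u⟩ ⟨⟨hN1, _⟩, _⟩
    simp only at hN1 ⊢
    have hN0 : 0 < N := hY.trans hN1
    have hs : 0 < Real.sqrt N := Real.sqrt_pos.2 hN0
    rw [dPsi_det h (N, u) hN0, Psi_ff1 h, Psi_ff2 h, Complex.real_smul]
    unfold ph
    simp only
    have e2 : Real.sqrt N * Real.exp (u / 2) / (Real.sqrt N * Real.exp (-(u / 2))) =
        Real.exp u := by
      rw [mul_div_mul_left _ _ hs.ne', ← Real.exp_sub]
      congr 1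
      ring
    rw [e2, Real.log_exp]
  rw [e1, Measure.volume_eq_prod]
  rw [setIntegral_prod_mul (fun _ : ℝ => ((1 / (2 * |a1 * b2 - a2 * b1|) : ℝ) : ℂ))
    (fun u : ℝ => exp (I * ((tau * u : ℝ) : ℂ)))]
  rw [setIntegral_const, Real.volume_real_Ioc_of_le hY12, integral_Ico_eq_integral_Ioc,
    ← intervalIntegral.integral_of_le (Real.log_le_log hl1 hl12), Complex.real_smul,
    ← Complex.ofReal_mul]
  congr 2
  ring

theorem RegS_meas (a1 b1 a2 b2 Y1 Y2 l1 l2 : ℝ) :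
    MeasurableSet (RegS a1 b1 a2 b2 Y1 Y2 l1 l2) := by
  have c1 : Continuous (fun p : ℝ × ℝ => ff a1 b1 p) := by unfold ff; fun_prop
  have c2 : Continuous (fun p : ℝ × ℝ => ff a2 b2 p) := by unfold ff; fun_prop
  unfold RegS Reg
  refine (measurableSet_lt measurable_const c1.measurable).inter
    ((measurableSet_lt measurable_const c2.measurable).inter
    ((measurableSet_lt measurable_const (c1.mul c2).measurable).inter
    ((measurableSet_le (c1.mul c2).measurable measurable_const).inter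
    ((measurableSet_le (continuous_const.mul c2).measurable c1.measurable).inter
    (measurableSet_lt c1.measurable (continuous_const.mul c2).measurable)))))

end Pool.Agent.XR67
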