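import Pool.Agent.Lib.MP_a17b09_nt.MRS.Big67

/-!
MRS section 2: small frequencies, comparison with the integral over cells.
-/

set_option autoImplicit false

namespace Pool.Agent.X67

open Finset Complex MeasureTheory

/-! ### the integral over a ring -/

/-- a ring -/
def Ann (r1 r2 : ℝ) : Set ℂ := {z | r1 ≤ ‖z‖ ^ 2 ∧ ‖z‖ ^ 2 ≤ r2}

theorem ann_meas (r1 r2 : ℝ) : MeasurableSet (Ann r1 r2) := by
  have h1 : Continuous (fun z : ℂ => ‖z‖ ^ 2) := by fun_prop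
  exact (isClosed_le continuous_const h1).measurableSet.inter
    (isClosed_le h1 continuous_const).measurableSet

theorem uu_meas : Measurable uu := by
  unfold uu
  fun_prop

theorem uup_meas (h : ℕ) : Measurable (fun z => uu z ^ h) := uu_meas.pow_const h

theorem uup_le (h : ℕ) (z : ℂ) : ‖uu z ^ h‖ ≤ 1 := by
  rw [norm_pow]
  exact pow_le_one₀ (norm_nonneg _) (uu_norm_le _)

theorem ann_int (h : ℕ) (hh : 1 ≤ h) (r1 r2 : ℝ) :
    ∫ z in Ann r1 r2, uu z ^ h = 0 := by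
  have hh' : (h : ℝ) ≠ 0 := by
    have : (1 : ℝ) ≤ h := by exact_mod_cast hh
    linarith
  set a : Circle := Circle.exp (Real.pi / h) with ha
  have hpre : (rotation a) ⁻¹' (Ann r1 r2) = Ann r1 r2 := by
    ext z
    unfold Ann
    simp only [Set.mem_preimage, Set.mem_ofPred_eq]
    rw [LinearIsometryEquiv.norm_map]
  have hmp : MeasurePreserving (rotation a) volume volume :=
    (rotation a).measurePreserving
  have hemb : MeasurableEmbedding (rotation a) :=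
    (rotation a).toHomeomorph.measurableEmbedding
  have h1 := hmp.setIntegral_preimage_emb hemb (fun z => uu z ^ h) (Ann r1 r2)
  rw [hpre] at h1
  have ha1 : uu (a : ℂ) ^ h = -1 := by
    have h2 : uu (a : ℂ) = a := by
      unfold uu
      rw [Circle.norm_coe]
      push_cast
      rw [div_one]
    rw [h2, ha, Circle.coe_exp, ← Complex.exp_nat_mul]
    have h3 : (h : ℂ) * (((Real.pi / h : ℝ) : ℂ) * I) = Real.pi * I := by
      push_cast
      have : (h : ℂ) ≠ 0 := by exact_mod_cast hh'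
      field_simp
    rw [h3, Complex.exp_pi_mul_I]
  have h2 : ∀ z : ℂ, uu (rotation a z) ^ h = -(uu z ^ h) := by
    intro z
    rw [rotation_apply, uu_mul, mul_pow, ha1]
    ring
  simp only [h2] at h1
  rw [integral_neg] at h1
  have h3 : (2 : ℂ) * ∫ z in Ann r1 r2, uu z ^ h = 0 := by linear_combination -h1
  rcases mul_eq_zero.1 h3 with h4 | h4
  · norm_num at h4
  · exact h4

/-! ### cells -/

/-- a cell -/
def Cell (q : ℕ) (m : ℤ × ℤ) : Set ℂ :=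
  {z | ((m.1 : ℝ) ≤ z.re ∧ z.re < m.1 + q) ∧ ((m.2 : ℝ) ≤ z.im ∧ z.im < m.2 + q)}

theorem cell_eq (q : ℕ) (m : ℤ × ℤ) : Cell q m = Complex.measurableEquivRealProd ⁻¹'
    (Set.Ico (m.1 : ℝ) (m.1 + q) ×ˢ Set.Ico (m.2 : ℝ) (m.2 + q)) := by
  ext z
  rfl

theorem cell_meas (q : ℕ) (m : ℤ × ℤ) : MeasurableSet (Cell q m) := by
  rw [cell_eq]
  exact Complex.measurableEquivRealProd.measurable (measurableSet_Ico.prod measurableSet_Ico)

theorem cell_vol (q : ℕ) (m : ℤ × ℤ) : volume (Cell q m) = ENNReal.ofReal ((q : ℝ) ^ 2) := by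
  rw [cell_eq, Complex.volume_preserving_equiv_real_prod.measure_preimage
    (measurableSet_Ico.prod measurableSet_Ico).nullMeasurableSet, Measure.volume_eq_prod,
    Measure.prod_prod, Real.volume_Ico, Real.volume_Ico, add_sub_cancel_left, add_sub_cancel_left,
    ← ENNReal.ofReal_mul (Nat.cast_nonneg q), sq]

theorem cell_volr (q : ℕ) (m : ℤ × ℤ) : volume.real (Cell q m) = (q : ℝ) ^ 2 := by
  unfold Measure.real
  rw [cell_vol, ENNReal.toReal_ofReal (by positivity)]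

theorem cell_fin (q : ℕ) (m : ℤ × ℤ) : volume (Cell q m) < ⊤ := by
  rw [cell_vol]; exact ENNReal.ofReal_lt_top

theorem cell_dist (q : ℕ) (m : ℤ × ℤ) (z : ℂ) (hz : z ∈ Cell q m) : ‖z - zz m‖ ≤ 2 * q := by
  obtain ⟨⟨h1, h2⟩, h3, h4⟩ := hz
  refine (Complex.norm_le_abs_re_add_abs_im _).trans ?_
  rw [Complex.sub_re, Complex.sub_im, zz_re, zz_im, abs_of_nonneg (by linarith),
    abs_of_nonneg (by linarith)]
  linarith

theorem zz_mem_cell (q : ℕ) (hq : 1 ≤ q) (m : ℤ × ℤ) : zz m ∈ Cell q m := by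
  have hq' : (1 : ℝ) ≤ q := by exact_mod_cast hq
  refine ⟨⟨?_, ?_⟩, ?_, ?_⟩
  · rw [zz_re]
  · rw [zz_re]; linarith
  · rw [zz_im]
  · rw [zz_im]; linarith

theorem corner_ex (q : ℕ) (hq : 1 ≤ q) (a0 : ℤ) (x : ℝ) :
    ∃ n : ℤ, n ≡ a0 [ZMOD (q : ℤ)] ∧ (n : ℝ) ≤ x ∧ x < n + q := by
  have hq' : (0 : ℝ) < q := by exact_mod_cast hq
  refine ⟨a0 + q * ⌊(x - a0) / q⌋, ?_, ?_, ?_⟩
  · calc a0 + q * ⌊(x - a0) / q⌋ ≡ a0 + 0 [ZMOD q] :=
          Int.ModEq.add_left _ (Int.modEq_zero_iff_dvd.2 (Dvd.intro _ rfl))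
      _ = a0 := by ring
  · have h1 := Int.floor_le ((x - a0) / q)
    rw [le_div_iff₀ hq'] at h1
    push_cast
    linarith
  · have h1 := Int.lt_floor_add_one ((x - a0) / q)
    rw [div_lt_iff₀ hq'] at h1
    push_cast
    linarith

theorem corner_un (q : ℕ) (a0 n n' : ℤ) (x : ℝ) (h1 : n ≡ a0 [ZMOD (q : ℤ)])
    (h2 : n' ≡ a0 [ZMOD (q : ℤ)]) (h3 : (n : ℝ) ≤ x ∧ x < n + q) (h4 : (n' : ℝ) ≤ x ∧ x < n' + q) :
    n = n' := by
  have h5 : (q : ℤ) ∣ n' - n := (h1.trans h2.symm).dvd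
  have h6 : |n' - n| < (q : ℤ) := by
    rw [abs_lt]
    constructor
    · have : ((n : ℤ) : ℝ) < ((n' + q : ℤ) : ℝ) := by push_cast; linarith [h3.1, h4.2]
      have := Int.cast_lt.1 this
      omega
    · have : ((n' : ℤ) : ℝ) < ((n + q : ℤ) : ℝ) := by push_cast; linarith [h3.2, h4.1]
      have := Int.cast_lt.1 this
      omega
  have h7 := Int.eq_zero_of_abs_lt_dvd h5 h6
  omega

/-! ### the box -/

open Classical in
/-- class points in a disc -/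
noncomputable def Bx (R : ℝ) (q : ℕ) (a0 b0 : ℤ) : Finset (ℤ × ℤ) :=
  ((Icc (-⌊R⌋) ⌊R⌋) ×ˢ (Icc (-⌊R⌋) ⌊R⌋)).filter
    (fun m => ‖zz m‖ ≤ R ∧ m.1 ≡ a0 [ZMOD (q : ℤ)] ∧ m.2 ≡ b0 [ZMOD (q : ℤ)])

theorem mem_Bx (R : ℝ) (q : ℕ) (a0 b0 : ℤ) (m : ℤ × ℤ) : m ∈ Bx R q a0 b0 ↔
    (‖zz m‖ ≤ R ∧ m.1 ≡ a0 [ZMOD (q : ℤ)] ∧ m.2 ≡ b0 [ZMOD (q : ℤ)]) := by
  classical
  unfold Bx
  rw [Finset.mem_filter, Finset.mem_product, Finset.mem_Icc, Finset.mem_Icc]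
  constructor
  · intro h
    exact h.2
  · intro h
    refine ⟨?_, h⟩
    have key : ∀ n : ℤ, |(n : ℝ)| ≤ R → -⌊R⌋ ≤ n ∧ n ≤ ⌊R⌋ := by
      intro n hn
      have h1 := abs_le.1 hn
      constructor
      · have : -n ≤ ⌊R⌋ := Int.le_floor.2 (by push_cast; linarith [h1.1])
        omega
      · exact Int.le_floor.2 h1.2
    exact ⟨key _ (zz_bd1 m R h.1), key _ (zz_bd2 m R h.1)⟩

/-! ### two thin rings -/

theorem card_two (B2 : Finset (ℤ × ℤ)) (r1 r2 w R : ℝ) (hw : 0 ≤ w) (h1 : w ^ 2 ≤ r1)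
    (h12 : r1 ≤ r2) (h2 : r2 ≤ R ^ 2) (hR : 0 ≤ R)
    (key : ∀ m ∈ B2, |‖zz m‖ - Real.sqrt r1| ≤ w ∨ |‖zz m‖ - Real.sqrt r2| ≤ w) :
    (B2.card : ℝ) ≤ 2 * ((2 * (R + w) + 1) * (4 * Real.sqrt (R * w) + 2)) := by
  classical
  have s1 : w ≤ Real.sqrt r1 := Real.le_sqrt_of_sq_le h1
  have s2 : Real.sqrt r1 ≤ Real.sqrt r2 := Real.sqrt_le_sqrt h12
  have s3 : Real.sqrt r2 ≤ R := by
    rw [← Real.sqrt_sq hR]; exact Real.sqrt_le_sqrt h2
  have hsub : B2 ⊆ (B2.filter (fun m => |‖zz m‖ - Real.sqrt r1| ≤ w)) ∪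
      (B2.filter (fun m => |‖zz m‖ - Real.sqrt r2| ≤ w)) := by
    intro m hm
    rw [Finset.mem_union, Finset.mem_filter, Finset.mem_filter]
    rcases key m hm with h | h
    · exact Or.inl ⟨hm, h⟩
    · exact Or.inr ⟨hm, h⟩
  have hc := (Finset.card_le_card hsub).trans (Finset.card_union_le _ _)
  have c1 := card_ring (B2.filter (fun m => |‖zz m‖ - Real.sqrt r1| ≤ w)) (Real.sqrt r1) w hw s1
    (fun m hm => (Finset.mem_filter.1 hm).2)
  have c2 := card_ring (B2.filter (fun m => |‖zz m‖ - Real.sqrt r2| ≤ w)) (Real.sqrt r2) w hw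
    (s1.trans s2) (fun m hm => (Finset.mem_filter.1 hm).2)
  have m1 : ∀ ρ : ℝ, 0 ≤ ρ → ρ ≤ R → (2 * (ρ + w) + 1) * (4 * Real.sqrt (ρ * w) + 2) ≤
      (2 * (R + w) + 1) * (4 * Real.sqrt (R * w) + 2) := by
    intro ρ h0 hρ
    gcongr
  have c3 := m1 (Real.sqrt r1) (Real.sqrt_nonneg _) (s2.trans s3)
  have c4 := m1 (Real.sqrt r2) (Real.sqrt_nonneg _) s3
  have hc' : (B2.card : ℝ) ≤ ((B2.filter (fun m => |‖zz m‖ - Real.sqrt r1| ≤ w)).card : ℝ) +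
      ((B2.filter (fun m => |‖zz m‖ - Real.sqrt r2| ≤ w)).card : ℝ) := by exact_mod_cast hc
  linarith

/-! ### variation of the function on a cell -/

theorem uu_var (z w : ℂ) (d : ℝ) (hz : 0 < ‖z‖) (hw : w ≠ 0) (hd : ‖z - w‖ ≤ d) :
    ‖uu z - uu w‖ ≤ 2 * d / ‖z‖ := by
  have hw0 : 0 < ‖w‖ := norm_pos_iff.2 hw
  have hz' : ((‖z‖ : ℝ) : ℂ) ≠ 0 := by
    rw [Complex.ofReal_ne_zero]; exact hz.ne'
  have hw' : ((‖w‖ : ℝ) : ℂ) ≠ 0 := by
    rw [Complex.ofReal_ne_zero]; exact hw0.ne'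
  have e1 : uu z - uu w = ((z - w) + uu w * (((‖w‖ - ‖z‖ : ℝ)) : ℂ)) / (‖z‖ : ℂ) := by
    unfold uu
    push_cast
    field_simp
    ring
  rw [e1, norm_div, Complex.norm_real, norm_norm]
  apply div_le_div_of_nonneg_right _ hz.le
  refine (norm_add_le _ _).trans ?_
  rw [norm_mul, Complex.norm_real, Real.norm_eq_abs]
  have h1 : |‖w‖ - ‖z‖| ≤ ‖w - z‖ := abs_norm_sub_norm_le w z
  rw [norm_sub_rev w z] at h1
  have h2 := uu_norm_le w
  have h3 : ‖uu w‖ * |‖w‖ - ‖z‖| ≤ 1 * d := by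
    apply mul_le_mul h2 (h1.trans hd) (abs_nonneg _) zero_le_one
  linarith

theorem uup_var (h : ℕ) (z w : ℂ) (d : ℝ) (hz : 0 < ‖z‖) (hw : w ≠ 0) (hd : ‖z - w‖ ≤ d) :
    ‖uu z ^ h - uu w ^ h‖ ≤ h * (2 * d / ‖z‖) := by
  have h1 := uu_var z w d hz hw hd
  have h2 : ∀ k : ℕ, ‖uu z ^ k - uu w ^ k‖ ≤ k * ‖uu z - uu w‖ := by
    intro k
    induction k with
    | zero => simp
    | succ k ih =>
      have e : uu z ^ (k + 1) - uu w ^ (k + 1) =
          (uu z ^ k - uu w ^ k) * uu z + uu w ^ k * (uu z - uu w) := by ring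
      rw [e]
      refine (norm_add_le _ _).trans ?_
      rw [norm_mul, norm_mul]
      have h3 : ‖uu z ^ k - uu w ^ k‖ * ‖uu z‖ ≤ (k * ‖uu z - uu w‖) * 1 :=
        mul_le_mul ih (uu_norm_le z) (norm_nonneg _) (by positivity)
      have h4 : ‖uu w ^ k‖ * ‖uu z - uu w‖ ≤ 1 * ‖uu z - uu w‖ :=
        mul_le_mul_of_nonneg_right (uup_le k w) (norm_nonneg _)
      push_cast
      linarith
  refine (h2 h).trans ?_
  gcongr

end Pool.Agent.X67
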