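import Mathlib

/-!
Exponential sums with the phase `τ log (g1 / g2)` for two real linear forms: statement.
-/

set_option autoImplicit false

namespace Pool.Agent.XR67

open Finset Complex

/-- a linear form -/
def lf (a b : ℝ) (v : ℤ × ℤ) : ℝ := a * v.1 + b * v.2

/-- the sector `lam1 ≤ g1 / g2 < lam2` of the ring `Y1 < g1 g2 ≤ Y2` in a class mod `q` -/
def IsSec (a1 b1 a2 b2 Y1 Y2 lam1 lam2 : ℝ) (q : ℕ) (a : ℤ × ℤ) (S : Finset (ℤ × ℤ)) : Prop :=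
  ∀ v : ℤ × ℤ, v ∈ S ↔ (0 < lf a1 b1 v ∧ 0 < lf a2 b2 v ∧
    Y1 < lf a1 b1 v * lf a2 b2 v ∧ lf a1 b1 v * lf a2 b2 v ≤ Y2 ∧
    lam1 * lf a2 b2 v ≤ lf a1 b1 v ∧ lf a1 b1 v < lam2 * lf a2 b2 v ∧
    v.1 ≡ a.1 [ZMOD (q : ℤ)] ∧ v.2 ≡ a.2 [ZMOD (q : ℤ)])

/-- exponential sums over sectors for an indefinite form -/
def StVR : Prop :=
  ∀ a1 b1 a2 b2 : ℝ, a1 * a2 ≠ 0 → a1 * b2 - a2 * b1 ≠ 0 → ∀ Lam : ℝ, 1 ≤ Lam →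
    ∀ kap : ℝ, 0 < kap → ∃ c C : ℝ, 0 < c ∧ 0 < C ∧
      ∀ (T tau : ℝ) (q : ℕ) (a : ℤ × ℤ) (Y Y1 Y2 lam1 lam2 : ℝ) (S : Finset (ℤ × ℤ)),
        1 ≤ T → |tau| ≤ T → 0 < q → (q : ℝ) ^ 2 * T ^ kap ≤ Y → Y ≤ Y1 → Y1 ≤ Y2 → Y2 ≤ 2 * Y →
        1 / Lam ≤ lam1 → lam1 ≤ lam2 → lam2 ≤ Lam →
        IsSec a1 b1 a2 b2 Y1 Y2 lam1 lam2 q a S →
        ‖∑ v ∈ S, exp (I * ((tau * Real.log (lf a1 b1 v / lf a2 b2 v) : ℝ) : ℂ)) -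
          (((Y2 - Y1) / (2 * |a1 * b2 - a2 * b1| * (q : ℝ) ^ 2) : ℝ) : ℂ) *
            ∫ u in (Real.log lam1)..(Real.log lam2), exp (I * ((tau * u : ℝ) : ℂ))‖ ≤
          C * (Y / (q : ℝ) ^ 2) ^ (1 - c)

end Pool.Agent.XR67
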