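import Pool.Agent.Lib.MP_a17b09_nt.HY.Defs20
import Pool.Agent.Lib.MP_a17b09_nt.MRS.StmtsR67

/-!
Exponential sums over sectors of the cone of an indefinite binary form: statements.
-/

set_option autoImplicit false

namespace Pool.Agent.XH67

open Finset Complex
open Pool.Agent.Lib.MP_a17b09_nt.CH Pool.Agent.Lib.MP_a17b09_nt.HY

/-- the vectors of the cone with `t0 ≤ ps < t1`, `r1 < Q ≤ r2` in a class mod `q` -/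
def IsB (Q : Form) (q : ℕ) (a : V) (t0 t1 r1 r2 : ℝ) (S : Finset V) : Prop :=
  ∀ v : V, v ∈ S ↔ ((q : ℤ) ∣ v.1 - a.1 ∧ (q : ℤ) ∣ v.2 - a.2 ∧ Cn Q v ∧
    t0 ≤ ps Q v ∧ ps Q v < t1 ∧ r1 < (Q.q v : ℝ) ∧ (Q.q v : ℝ) ≤ r2)

/-- exponential sums over dyadic shells of the cone, arbitrary real frequency -/
def StVH : Prop :=
  ∀ (d : ℕ) (Q : Form), Hyp d Q → ∀ B κ : ℝ, 0 < B → 0 < κ → ∃ c C : ℝ, 0 < c ∧ 0 < C ∧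
    ∀ (T τ : ℝ) (q : ℕ) (a : V) (Y Y1 Y2 t0 t1 : ℝ) (S : Finset V),
      1 ≤ T → |τ| ≤ T → 0 < q → (q : ℝ) ^ 2 * T ^ κ ≤ Y → Y ≤ Y1 → Y1 ≤ Y2 → Y2 ≤ 2 * Y →
      -B ≤ t0 → t0 ≤ t1 → t1 ≤ B → IsB Q q a t0 t1 Y1 Y2 S →
      ‖∑ v ∈ S, exp (I * ((τ * ps Q v : ℝ) : ℂ)) -
        (((Y2 - Y1) / (√(d : ℝ) * (q : ℝ) ^ 2) : ℝ) : ℂ) *
          ∫ u in t0..t1, exp (I * ((τ * u : ℝ) : ℂ))‖ ≤ C * (Y / (q : ℝ) ^ 2) ^ (1 - c)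

/-- the same for all shells contained in a ball -/
def StVHB : Prop :=
  ∀ (d : ℕ) (Q : Form), Hyp d Q → ∀ B κ : ℝ, 0 < B → 0 < κ → ∃ c C : ℝ, 0 < c ∧ c ≤ 1 / 2 ∧
    0 < C ∧ ∀ (T τ : ℝ) (q : ℕ) (a : V) (Y r1 r2 t0 t1 : ℝ) (S : Finset V),
      1 ≤ T → |τ| ≤ T → 0 < q → (q : ℝ) ^ 2 * T ^ κ ≤ Y → 0 ≤ r1 → r1 ≤ r2 → r2 ≤ Y →
      -B ≤ t0 → t0 ≤ t1 → t1 ≤ B → IsB Q q a t0 t1 r1 r2 S →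
      ‖∑ v ∈ S, exp (I * ((τ * ps Q v : ℝ) : ℂ)) -
        (((r2 - r1) / (√(d : ℝ) * (q : ℝ) ^ 2) : ℝ) : ℂ) *
          ∫ u in t0..t1, exp (I * ((τ * u : ℝ) : ℂ))‖ ≤ C * (Y / (q : ℝ) ^ 2) ^ (1 - c)

end Pool.Agent.XH67
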