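import Pool.Agent.Lib.MP_a17b09_nt.MRS.StmtsL27

/-!
MRS, levels: the three estimates used in the assembly of `StLev` (helper38).
-/

set_option autoImplicit false

open Filter Topology Finset

namespace Pool.Agent.Lib.MP_a17b09_nt.MRS

/-- all windows `u ∈ [u0, u1)` of the level are small at the frequency `j` -/
def Gd (z : ℂ) (ψ : GaussianInt → ℂ) (h u0 u1 : ℕ) (α : ℝ) (j : ℤ) : Prop :=
  ∀ u ∈ Finset.Ico u0 u1, ‖Qs z ψ h u j‖ ≤ Real.exp (-(α * (u / h)))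

open Classical in
/-- level `0` (from StMomB of helper16 with `l = 0`) -/
def StLevT1 : Prop := ∀ r1 r2 : ℝ, 0 < r1 → r1 < r2 → ∃ C : ℝ, 1 ≤ C ∧ ∀ (z : ℂ) (K : ℕ)
  (ψ : GaussianInt → ℂ), ‖z‖ = 1 → 0 < K → Chr K ψ → ∀ (h u0 u1 J : ℕ) (α N : ℝ),
  0 < h → 3 * h ≤ u0 → u0 < u1 → 0 ≤ α → 1 ≤ r1 * (N * Real.exp (-(u1 / h))) →
  (J : ℝ) * Real.exp (u1 / h) ≤ r1 * N →
  ∑ j ∈ (js J).filter (fun j => Gd z ψ h u0 u1 α j), ‖∑ u ∈ Finset.Ico u0 u1,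
    Qs z ψ h u j * Mp z ψ r1 r2 (N * Real.exp (-(u / h))) j‖ ^ 2 ≤
    C * (u1 : ℝ) ^ 2 * Real.exp (-(2 * α * (u0 / h)))

open Classical in
/-- level `i + 1` = `(h, u0, u1, α)`, level `i` = `(h', v0, v1, α')` (from StMomB of helper16;
`Mp = r1 * Rs` with `Y = r1 N e^(-u/h)`, `B = r2/r1`) -/
def StLevT : Prop := ∃ C : ℝ, 1 ≤ C ∧ ∀ r1 r2 : ℝ, 0 < r1 → r1 < r2 → ∀ (z : ℂ) (K : ℕ)
  (ψ : GaussianInt → ℂ), ‖z‖ = 1 → 0 < K → Chr K ψ →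
  ∀ (h u0 u1 h' v0 v1 J : ℕ) (α α' N M : ℝ),
  0 < h → 3 * h ≤ u0 → u0 < u1 → 0 < h' → 3 * h' ≤ v0 → v0 < v1 → 0 ≤ α → 0 ≤ α' → 0 ≤ M →
  1 ≤ r1 * (N * Real.exp (-(u1 / h))) → (J : ℝ) ≤ r1 * N →
  (∀ u ∈ Finset.Ico u0 u1, ∀ s ∈ Finset.Ico v0 v1, ∃ l : ℕ, (u / h : ℝ) ≤ l * (s / h') ∧
    Real.exp (2 * l * α' * (s / h') - 2 * α * (u / h)) * (C ^ (l + 1) * (l.factorial : ℝ) ^ 2) ≤
      M) →
  ∑ j ∈ (js J).filter (fun j => Gd z ψ h u0 u1 α j ∧ ¬ Gd z ψ h' v0 v1 α' j),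
    ‖∑ u ∈ Finset.Ico u0 u1, Qs z ψ h u j * Mp z ψ r1 r2 (N * Real.exp (-(u / h))) j‖ ^ 2 ≤
    r2 ^ 3 / r1 * ((u1 : ℝ) ^ 2 * v1 * M)

open Classical in
/-- the set `U` of frequencies which are not small at the last level (from StMomB of helper16 with
`S = {1}`, `Y = B = 1`) -/
def StLevU : Prop := ∃ C : ℝ, 1 ≤ C ∧ ∀ (z : ℂ) (K : ℕ)
  (ψ : GaussianInt → ℂ), ‖z‖ = 1 → 0 < K → Chr K ψ →
  ∀ (h v0 v1 J : ℕ) (α N M : ℝ), 0 < h → 3 * h ≤ v0 → v0 < v1 → 0 ≤ α → 0 ≤ M → (J : ℝ) ≤ N →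
  (∀ s ∈ Finset.Ico v0 v1, ∃ l : ℕ, N ≤ Real.exp (l * (s / h)) ∧
    Real.exp (2 * l * α * (s / h)) * (C ^ (l + 1) * (l.factorial : ℝ) ^ 2) ≤ M) →
  (((js J).filter (fun j => ¬ Gd z ψ h v0 v1 α j)).card : ℝ) ≤ v1 * M

end Pool.Agent.Lib.MP_a17b09_nt.MRS
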