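import Pool.Agent.Lib.MP_a17b09_nt.MRS.Tk84
import Pool.Agent.Lib.MP_a17b09_nt.MRS.HM96
import Pool.Agent.Lib.MP_a17b09_nt.MRS.StmtsX67

/-!
MRS (MP_a17b09_nt), part U: statements.  Mean squares of `M_N(j)` over a small set `U` of
frequencies `j`, `0 < |j| ≤ N ^ A`, `card U ≤ N ^ c`, tend to zero.
-/

set_option autoImplicit false

open Finset

namespace Pool.Agent.Lib.MP_a17b09_nt.MRS.U86

open Tk84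

/-- the phase `(v / |v|) ^ j` -/
noncomputable def ee (j : ℤ) (v : GaussianInt) : ℂ :=
  (GaussianInt.toComplex v / (‖GaussianInt.toComplex v‖ : ℂ)) ^ j

/-- nonzero Gaussian integers of norm at most `x` -/
noncomputable def bb (x : ℕ) : Finset GaussianInt := (gball x).erase 0

/-- a (unimodular) character mod `K` -/
structure IsPsi (K : ℕ) (ψ : GaussianInt → ℂ) : Prop where
  mul : ∀ x y : GaussianInt, ψ (x * y) = ψ x * ψ y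
  per : ∀ x y : GaussianInt, ψ (x + (K : GaussianInt) * y) = ψ x
  one : ∀ x : GaussianInt, IsCoprime x.norm (K : ℤ) → ‖ψ x‖ = 1
  zero : ∀ x : GaussianInt, ¬ IsCoprime x.norm (K : ℤ) → ψ x = 0

/-- `F_j(v) = z ^ Ω(|v|²) ψ(v) (v/|v|)^j` -/
noncomputable def FF (z : ℂ) (ψ : GaussianInt → ℂ) (j : ℤ) (v : GaussianInt) : ℂ :=
  z ^ (ArithmeticFunction.cardFactors (nm v)) * ψ v * ee j v

/-- the sum of `F` over `0 < |v|² ≤ x` -/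
noncomputable def MS (F : GaussianInt → ℂ) (x : ℕ) : ℂ := ∑ v ∈ bb x, F v

/-- split Gaussian primes of norm at most `x` in the open first quadrant (both `π` and `i π̄`) -/
noncomputable def PP (x : ℕ) : Finset GaussianInt :=
  (gball x).filter fun v => 0 < v.re ∧ 0 < v.im ∧ v.re ≠ v.im ∧ (nm v).Prime

/-- `Ψ_j(v) = ψ(v) conj (ψ (conj v)) (v/|v|)^(2j)` -/
noncomputable def Ps (ψ : GaussianInt → ℂ) (j : ℤ) (v : GaussianInt) : ℂ :=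
  ψ v * (starRingEnd ℂ) (ψ (star v)) * ee (2 * j) v

/-- `D_j` : the distance of `Ψ_j` from `1` -/
noncomputable def DD (ψ : GaussianInt → ℂ) (j : ℤ) (x : ℕ) : ℝ :=
  ∑ v ∈ PP x, 1 / (nm v : ℝ) * (1 - (Ps ψ j v).re)

/-- U1: exponential sums over discs -/
def StExpB : Prop :=
  ∀ A : ℝ, 1 ≤ A → ∃ c C : ℝ, 0 < c ∧ c ≤ 1 ∧ 0 < C ∧
    ∀ (x : ℕ) (h : ℤ), 1 ≤ x → h ≠ 0 → |(h : ℝ)| ≤ (x : ℝ) ^ A →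
      ‖∑ v ∈ bb x, ee h v‖ ≤ C * (x : ℝ) ^ (1 - c)

/-- U2: duality over a small set of frequencies -/
def StHMU : Prop :=
  ∀ A : ℝ, 1 ≤ A → ∃ c0 C : ℝ, 0 < c0 ∧ 0 < C ∧
    ∀ (N : ℕ) (U : Finset ℤ) (a : GaussianInt → ℂ), 1 ≤ N →
      (∀ j ∈ U, |(j : ℝ)| ≤ (N : ℝ) ^ A) → (U.card : ℝ) ≤ (N : ℝ) ^ c0 →
      ∑ j ∈ U, ‖∑ v ∈ bb N, a v * ee j v‖ ^ 2 ≤ C * N * ∑ v ∈ bb N, ‖a v‖ ^ 2

/-- U3: the dual form of the inequality of Turan and Kubilius over a small set of frequencies -/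
def StTKH : Prop :=
  ∀ A : ℝ, 1 ≤ A → ∃ c0 c1 C : ℝ, 0 < c0 ∧ 0 < c1 ∧ 0 < C ∧
    ∀ (N : ℕ) (U : Finset ℤ) (P : Finset GaussianInt) (g : GaussianInt → ℂ), 1 ≤ N →
      (∀ j ∈ U, |(j : ℝ)| ≤ (N : ℝ) ^ A) → (U.card : ℝ) ≤ (N : ℝ) ^ c0 →
      (∀ p ∈ P, Prime p) → (∀ p ∈ P, ∀ r ∈ P, p ≠ r → ¬ Associated p r) →
      (∀ p ∈ P, (nm p : ℝ) ≤ (N : ℝ) ^ c1) →
      (∀ v, ‖g v‖ ≤ 1) → (∀ v w, v ≠ 0 → w ≠ 0 → g (v * w) = g v * g w) →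
      ∑ j ∈ U, ∑ p ∈ P, 1 / (nm p : ℝ) *
        ‖MS (fun v => g v * ee j v) N / (N : ℂ) -
          g p * ee j p * ((nm p : ℂ) / (N : ℂ)) * MS (fun v => g v * ee j v) (N / nm p)‖ ^ 2 ≤ C

/-- U4: comparison of a prime with its conjugate -/
def StCJ : Prop :=
  ∀ A : ℝ, 1 ≤ A → ∃ c0 c1 C : ℝ, 0 < c0 ∧ 0 < c1 ∧ 0 < C ∧
    ∀ (K : ℕ) (ψ : GaussianInt → ℂ) (z : ℂ) (N : ℕ) (U : Finset ℤ), 0 < K → IsPsi K ψ →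
      ‖z‖ = 1 → 1 ≤ N →
      (∀ j ∈ U, |(j : ℝ)| ≤ (N : ℝ) ^ A) → (U.card : ℝ) ≤ (N : ℝ) ^ c0 →
      ∑ j ∈ U, ‖MS (FF z ψ j) N / (N : ℂ)‖ ^ 2 * DD ψ j ⌊(N : ℝ) ^ c1⌋₊ ≤ C

/-- U5: `D_j` is large, uniformly in `0 < |j| ≤ N ^ A` -/
def StDJ : Prop :=
  ∀ A c1 B : ℝ, 1 ≤ A → 0 < c1 → ∀ (K : ℕ) (ψ : GaussianInt → ℂ), 0 < K → IsPsi K ψ →
    ∃ N0 : ℕ, ∀ N : ℕ, N0 ≤ N → ∀ j : ℤ, j ≠ 0 → |(j : ℝ)| ≤ (N : ℝ) ^ A →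
      ψ ⟨0, 1⟩ * Complex.I ^ j = 1 → B ≤ DD ψ j ⌊(N : ℝ) ^ c1⌋₊

/-- U6: the mean square over `U` for all vectors of a disc -/
def StUAll : Prop :=
  ∀ A : ℝ, 1 ≤ A → ∃ c0 : ℝ, 0 < c0 ∧
    ∀ (K : ℕ) (ψ : GaussianInt → ℂ) (z : ℂ) (ε : ℝ), 0 < K → IsPsi K ψ → ‖z‖ = 1 → 0 < ε →
      ∃ N0 : ℕ, ∀ N : ℕ, N0 ≤ N → ∀ U : Finset ℤ,
        (∀ j ∈ U, j ≠ 0 ∧ |(j : ℝ)| ≤ (N : ℝ) ^ A) → (U.card : ℝ) ≤ (N : ℝ) ^ c0 →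
        ∑ j ∈ U, ‖MS (FF z ψ j) N / (N : ℂ)‖ ^ 2 ≤ ε

open scoped Classical in
/-- primitive vectors -/
noncomputable def prim (x : ℕ) : Finset GaussianInt :=
  (bb x).filter fun v => IsCoprime v.re v.im

/-- U7: the mean square over `U` for the primitive vectors of a disc -/
def StUPrim : Prop :=
  ∀ A : ℝ, 1 ≤ A → ∃ c0 : ℝ, 0 < c0 ∧
    ∀ (K : ℕ) (ψ : GaussianInt → ℂ) (z : ℂ) (ε : ℝ), 0 < K → IsPsi K ψ → ‖z‖ = 1 → 0 < ε →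
      ∃ N0 : ℕ, ∀ N : ℕ, N0 ≤ N → ∀ U : Finset ℤ,
        (∀ j ∈ U, j ≠ 0 ∧ |(j : ℝ)| ≤ (N : ℝ) ^ A) → (U.card : ℝ) ≤ (N : ℝ) ^ c0 →
        ∑ j ∈ U, ‖(∑ v ∈ prim N, FF z ψ j v) / (N : ℂ)‖ ^ 2 ≤ ε

end Pool.Agent.Lib.MP_a17b09_nt.MRS.U86
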