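import Pool.Agent.Lib.MP_a17b09_nt.MRS.Tk84
import Pool.Agent.Lib.MP_a17b09_nt.MRS.HM96

/-!
MRS (MP_a17b09_nt): the inequality of Turan and Kubilius in dual form on a set of frequencies
(Halasz and Montgomery), and its consequence from conjugation. helper12.
-/

set_option autoImplicit false

open Finset

namespace Pool.Agent.Lib.MP_a17b09_nt.MRS.Tkh12

open Tk84

/-- direction of a Gaussian integer -/
noncomputable def ee (v : GaussianInt) : ℂ :=
  (GaussianInt.toComplex v) / (‖GaussianInt.toComplex v‖ : ℂ)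

theorem ee_mul (v w : GaussianInt) : ee (v * w) = ee v * ee w := by
  unfold ee
  rw [map_mul, norm_mul]
  push_cast
  rw [mul_div_mul_comm]

theorem toC_ne {v : GaussianInt} (hv : v ≠ 0) : GaussianInt.toComplex v ≠ 0 := by
  intro h
  exact hv (GaussianInt.toComplex_eq_zero.1 h)

theorem norm_ee {v : GaussianInt} (hv : v ≠ 0) : ‖ee v‖ = 1 := by
  unfold ee
  have h := norm_pos_iff.2 (toC_ne hv)
  rw [norm_div, Complex.norm_real, norm_norm, div_self h.ne']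

theorem ee_ne {v : GaussianInt} (hv : v ≠ 0) : ee v ≠ 0 := by
  intro h
  have := norm_ee hv
  rw [h, norm_zero] at this
  exact zero_ne_one this

theorem norm_ee_zpow {v : GaussianInt} (hv : v ≠ 0) (j : ℤ) : ‖ee v ^ j‖ = 1 := by
  rw [norm_zpow, norm_ee hv, one_zpow]

theorem conj_ee_zpow {v : GaussianInt} (hv : v ≠ 0) (j k : ℤ) :
    ee v ^ j * (starRingEnd ℂ) (ee v ^ k) = ee v ^ (j - k) := by
  have h1 : (starRingEnd ℂ) (ee v) = (ee v)⁻¹ := by
    rw [Complex.inv_def, Complex.normSq_eq_norm_sq, norm_ee hv]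
    simp
  rw [map_zpow₀, h1, inv_zpow, ← div_eq_mul_inv, zpow_sub₀ (ee_ne hv)]

open scoped Classical in
/-- sums over the multiples of `d` -/
theorem sum_mult (x : ℕ) (d : GaussianInt) (hd : d ≠ 0) (G : GaussianInt → ℂ) :
    ∑ v ∈ (gball x).erase 0, (if d ∣ v then G v else 0) =
      ∑ m ∈ (gball (x / nm d)).erase 0, G (d * m) := by
  rw [← sum_filter]
  symm
  apply Finset.sum_nbij (fun m => d * m)
  · intro m hm
    rw [mem_erase, mem_gball] at hm
    rw [mem_filter, mem_erase, mem_gball, nm_mul]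
    refine ⟨⟨mul_ne_zero hd hm.1, ?_⟩, Dvd.intro _ rfl⟩
    have := hm.2
    rw [Nat.le_div_iff_mul_le (nm_pos.2 hd)] at this
    linarith [mul_comm (nm d) (nm m)]
  · intro a _ b _ h
    exact mul_left_cancel₀ hd h
  · intro v hv
    rw [mem_coe, mem_filter, mem_erase, mem_gball] at hv
    obtain ⟨⟨hv0, hvx⟩, m, rfl⟩ := hv
    refine ⟨m, ?_, rfl⟩
    rw [mem_coe, mem_erase, mem_gball, Nat.le_div_iff_mul_le (nm_pos.2 hd)]
    refine ⟨fun h => hv0 (by rw [h, mul_zero]), ?_⟩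
    rw [nm_mul] at hvx
    linarith [mul_comm (nm d) (nm m)]
  · intro m _
    rfl

open scoped Classical in
/-- sums over the multiples of `d` with a direction character -/
theorem sum_mult_ee (x : ℕ) (d : GaussianInt) (hd : d ≠ 0) (h : ℤ) :
    ∑ v ∈ (gball x).erase 0, (if d ∣ v then ee v ^ h else 0) =
      ee d ^ h * ∑ m ∈ (gball (x / nm d)).erase 0, ee m ^ h := by
  rw [sum_mult x d hd (fun v => ee v ^ h), mul_sum]
  refine sum_congr rfl (fun m _ => ?_)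
  rw [ee_mul, mul_zpow]

open scoped Classical in
theorem sum_mult_bd (x : ℕ) (d : GaussianInt) (hd : d ≠ 0) (h : ℤ) (E : ℝ)
    (hE : ∀ y : ℕ, y ≤ x → ‖∑ m ∈ (gball y).erase 0, ee m ^ h‖ ≤ E) :
    ‖∑ v ∈ (gball x).erase 0, (if d ∣ v then ee v ^ h else 0)‖ ≤ E := by
  rw [sum_mult_ee x d hd h, norm_mul, norm_ee_zpow hd, one_mul]
  exact hE _ (Nat.div_le_self _ _)

/-- off-diagonal terms with a non-zero frequency -/
theorem off_freq (x : ℕ) (p r : GaussianInt) (hp : Prime p) (hr : Prime r)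
    (hpr : p = r ∨ IsCoprime p r) (h : ℤ) (E : ℝ)
    (hE : ∀ y : ℕ, y ≤ x → ‖∑ m ∈ (gball y).erase 0, ee m ^ h‖ ≤ E) :
    ‖∑ v ∈ (gball x).erase 0, ((dv p v * dv r v : ℝ) : ℂ) * ee v ^ h‖ ≤ 4 * E := by
  classical
  have hp0 := hp.ne_zero
  have hr0 := hr.ne_zero
  have hE0 : 0 ≤ E := (norm_nonneg _).trans (hE x le_rfl)
  obtain ⟨l, hl0, hl⟩ : ∃ l : GaussianInt, l ≠ 0 ∧ ∀ v, (p ∣ v ∧ r ∣ v ↔ l ∣ v) := by
    rcases hpr with hpr | hpr
    · exact ⟨p, hp0, fun v => by rw [← hpr]; tauto⟩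
    · refine ⟨p * r, mul_ne_zero hp0 hr0, fun v => ⟨fun hv => hpr.mul_dvd hv.1 hv.2, fun hv =>
        ⟨(dvd_mul_right p r).trans hv, (dvd_mul_left r p).trans hv⟩⟩⟩
  have hNp : (1 : ℝ) ≤ nm p := by exact_mod_cast nm_pos.2 hp0
  have hNr : (1 : ℝ) ≤ nm r := by exact_mod_cast nm_pos.2 hr0
  have key : ∀ v : GaussianInt, ((dv p v * dv r v : ℝ) : ℂ) * ee v ^ h =
      (if l ∣ v then ee v ^ h else 0) - (1 / (nm r : ℂ)) * (if p ∣ v then ee v ^ h else 0)
        - (1 / (nm p : ℂ)) * (if r ∣ v then ee v ^ h else 0)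
        + (1 / (nm p : ℂ)) * (1 / (nm r : ℂ)) * ee v ^ h := by
    intro v
    unfold dv
    by_cases h1 : p ∣ v
    · by_cases h2 : r ∣ v
      · rw [if_pos h1, if_pos h2, if_pos ((hl v).1 ⟨h1, h2⟩), if_pos h1, if_pos h2]
        push_cast
        ring
      · rw [if_pos h1, if_neg h2, if_neg (fun h3 => h2 ((hl v).2 h3).2), if_pos h1, if_neg h2]
        push_cast
        ring
    · by_cases h2 : r ∣ v
      · rw [if_neg h1, if_pos h2, if_neg (fun h3 => h1 ((hl v).2 h3).1), if_neg h1, if_pos h2]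
        push_cast
        ring
      · rw [if_neg h1, if_neg h2, if_neg (fun h3 => h1 ((hl v).2 h3).1), if_neg h1, if_neg h2]
        push_cast
        ring
  rw [sum_congr rfl (fun v _ => key v), sum_add_distrib, sum_sub_distrib, sum_sub_distrib,
    ← mul_sum, ← mul_sum, ← mul_sum]
  have b1 := sum_mult_bd x l hl0 h E hE
  have b2 := sum_mult_bd x p hp0 h E hE
  have b3 := sum_mult_bd x r hr0 h E hE
  have b4 := hE x le_rfl
  have c1 : ‖(1 / (nm p : ℂ))‖ ≤ 1 := by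
    rw [norm_div, norm_one, Complex.norm_natCast]
    exact (div_le_one (by linarith)).2 hNp
  have c2 : ‖(1 / (nm r : ℂ))‖ ≤ 1 := by
    rw [norm_div, norm_one, Complex.norm_natCast]
    exact (div_le_one (by linarith)).2 hNr
  refine (norm_add_le _ _).trans ?_
  refine (add_le_add (norm_sub_le _ _) le_rfl).trans ?_
  refine (add_le_add (add_le_add (norm_sub_le _ _) le_rfl) le_rfl).trans ?_
  rw [norm_mul, norm_mul, norm_mul, norm_mul]
  have d2 : ‖(1 / (nm r : ℂ))‖ * ‖∑ v ∈ (gball x).erase 0, (if p ∣ v then ee v ^ h else 0)‖ ≤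
      1 * E := mul_le_mul c2 b2 (norm_nonneg _) (by norm_num)
  have d3 : ‖(1 / (nm p : ℂ))‖ * ‖∑ v ∈ (gball x).erase 0, (if r ∣ v then ee v ^ h else 0)‖ ≤
      1 * E := mul_le_mul c1 b3 (norm_nonneg _) (by norm_num)
  have d4 : ‖(1 / (nm p : ℂ))‖ * ‖(1 / (nm r : ℂ))‖ * ‖∑ v ∈ (gball x).erase 0, ee v ^ h‖ ≤
      1 * 1 * E := mul_le_mul (mul_le_mul c1 c2 (norm_nonneg _) (by norm_num)) b4
        (norm_nonneg _) (by norm_num)
  linarith

/-- terms with frequency zero: removing the origin -/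
theorem erase_zero (x : ℕ) (p r : GaussianInt) (hp : Prime p) (hr : Prime r) :
    |∑ v ∈ (gball x).erase 0, dv p v * dv r v| ≤ |∑ v ∈ gball x, dv p v * dv r v| + 1 := by
  classical
  have h0 : (0 : GaussianInt) ∈ gball x := by
    rw [mem_gball]
    have : nm 0 = 0 := nm_eq_zero.2 rfl
    omega
  have h1 := add_sum_erase (gball x) (fun v => dv p v * dv r v) h0
  have hNp : (1 : ℝ) ≤ nm p := by exact_mod_cast nm_pos.2 hp.ne_zero
  have hNr : (1 : ℝ) ≤ nm r := by exact_mod_cast nm_pos.2 hr.ne_zero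
  have h2 : |dv p 0 * dv r 0| ≤ 1 := by
    unfold dv
    rw [if_pos (dvd_zero p), if_pos (dvd_zero r), abs_mul]
    have e1 : (0 : ℝ) < 1 / nm p := by positivity
    have e2 : (1 : ℝ) / nm p ≤ 1 := (div_le_one (by linarith)).2 hNp
    have e3 : (0 : ℝ) < 1 / nm r := by positivity
    have e4 : (1 : ℝ) / nm r ≤ 1 := (div_le_one (by linarith)).2 hNr
    have f1 : |(1 : ℝ) - 1 / nm p| ≤ 1 := abs_le.2 ⟨by linarith, by linarith⟩
    have f2 : |(1 : ℝ) - 1 / nm r| ≤ 1 := abs_le.2 ⟨by linarith, by linarith⟩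
    calc |(1 : ℝ) - 1 / nm p| * |(1 : ℝ) - 1 / nm r| ≤ 1 * 1 :=
          mul_le_mul f1 f2 (abs_nonneg _) (by norm_num)
      _ = 1 := by norm_num
  have h3 : ∑ v ∈ (gball x).erase 0, dv p v * dv r v =
      (∑ v ∈ gball x, dv p v * dv r v) - dv p 0 * dv r 0 := by
    rw [← h1]
    ring
  rw [h3]
  refine (abs_sub _ _).trans ?_
  linarith

theorem prime_cop {p r : GaussianInt} (hp : Prime p) (hr : Prime r) (h : ¬ Associated p r) :
    IsCoprime p r := by
  rw [hp.irreducible.coprime_iff_not_dvd]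
  intro hd
  exact h ((hp.irreducible.dvd_irreducible_iff_associated hr.irreducible).1 hd)

/-- one entry of the Gram matrix, frequency zero -/
theorem entry_zero (x : ℕ) (p r : GaussianInt) (hp : Prime p) (hr : Prime r)
    (hpr : ¬ Associated p r) (hNp : nm p ^ 2 ≤ x) (hNr : nm r ^ 2 ≤ x) :
    √((nm p : ℕ) : ℝ) * √((nm r : ℕ) : ℝ) *
      |∑ v ∈ (gball x).erase 0, dv p v * dv r v| ≤ 97 * √(x : ℝ) := by
  have hp1 : (1 : ℝ) ≤ nm p := by exact_mod_cast nm_pos.2 hp.ne_zero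
  have hr1 : (1 : ℝ) ≤ nm r := by exact_mod_cast nm_pos.2 hr.ne_zero
  have hprx : nm p * nm r ≤ x := by nlinarith
  have h1 := dv_corr x p r hp.ne_zero hr.ne_zero (prime_cop hp hr hpr) hprx
  have h2 := erase_zero x p r hp hr
  have h3 : 0 ≤ √((nm p : ℕ) : ℝ) * √((nm r : ℕ) : ℝ) := by positivity
  have h4 : √((nm p : ℕ) : ℝ) * √((nm r : ℕ) : ℝ) * √((x : ℝ) / (nm p * nm r)) = √(x : ℝ) := by
    rw [← Real.sqrt_mul (by positivity), ← Real.sqrt_mul (by positivity)]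
    congr 1
    field_simp
  have h5 : √((nm p : ℕ) : ℝ) * √((nm r : ℕ) : ℝ) ≤ √(x : ℝ) := by
    rw [← Real.sqrt_mul (by positivity)]
    apply Real.sqrt_le_sqrt
    exact_mod_cast hprx
  calc √((nm p : ℕ) : ℝ) * √((nm r : ℕ) : ℝ) * |∑ v ∈ (gball x).erase 0, dv p v * dv r v|
      ≤ √((nm p : ℕ) : ℝ) * √((nm r : ℕ) : ℝ) * (96 * √((x : ℝ) / (nm p * nm r)) + 1) :=
        mul_le_mul_of_nonneg_left (h2.trans (by linarith)) h3
    _ = 96 * (√((nm p : ℕ) : ℝ) * √((nm r : ℕ) : ℝ) * √((x : ℝ) / (nm p * nm r))) +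
        √((nm p : ℕ) : ℝ) * √((nm r : ℕ) : ℝ) := by ring
    _ ≤ 97 * √(x : ℝ) := by
        rw [h4]
        linarith

/-- one entry of the Gram matrix, on the diagonal -/
theorem entry_diag (x : ℕ) (p : GaussianInt) (hp : Prime p) (hNp : nm p ^ 2 ≤ x) :
    √((nm p : ℕ) : ℝ) * √((nm p : ℕ) : ℝ) *
      |∑ v ∈ (gball x).erase 0, dv p v * dv p v| ≤ 97 * (x : ℝ) := by
  have hp1 : (1 : ℝ) ≤ nm p := by exact_mod_cast nm_pos.2 hp.ne_zero
  have hp1' : 1 ≤ nm p := nm_pos.2 hp.ne_zero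
  have hpx : nm p ≤ x := by nlinarith
  have hpx' : ((nm p : ℕ) : ℝ) ≤ x := by exact_mod_cast hpx
  have h1 := dv_diag x p hp.ne_zero hpx
  have h2 := erase_zero x p p hp hp
  have h0 : 0 ≤ ∑ v ∈ gball x, dv p v * dv p v := sum_nonneg fun v _ => mul_self_nonneg _
  rw [abs_of_nonneg h0] at h2
  rw [Real.mul_self_sqrt (by positivity)]
  have h3 : ((nm p : ℕ) : ℝ) * (96 * ((x : ℝ) / nm p)) = 96 * x := by
    field_simp
  calc ((nm p : ℕ) : ℝ) * |∑ v ∈ (gball x).erase 0, dv p v * dv p v|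
      ≤ ((nm p : ℕ) : ℝ) * (96 * ((x : ℝ) / nm p) + 1) :=
        mul_le_mul_of_nonneg_left (h2.trans (by linarith)) (by positivity)
    _ = 96 * x + nm p := by rw [mul_add, h3, mul_one]
    _ ≤ 97 * x := by linarith

/-- **Turan - Kubilius in dual form on a set of frequencies.** -/
theorem tkh (x : ℕ) (hx : 1 ≤ x) (P : Finset GaussianInt) (hP : ∀ p ∈ P, Prime p)
    (hna : ∀ p ∈ P, ∀ r ∈ P, p ≠ r → ¬ Associated p r) (hN : ∀ p ∈ P, nm p ^ 2 ≤ x)
    (Q : ℝ) (hQ : ∀ p ∈ P, ((nm p : ℕ) : ℝ) ≤ Q) (U : Finset ℤ) (E : ℝ) (hE0 : 0 ≤ E)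
    (hE : ∀ j ∈ U, ∀ k ∈ U, j ≠ k → ∀ y : ℕ, y ≤ x →
      ‖∑ m ∈ (gball y).erase 0, ee m ^ (j - k)‖ ≤ E)
    (g : GaussianInt → ℂ) (hg : ∀ v, ‖g v‖ ≤ 1) :
    ∑ j ∈ U, ∑ p ∈ P, ((nm p : ℕ) : ℝ) *
        ‖∑ v ∈ (gball x).erase 0, (dv p v : ℂ) * (g v * ee v ^ j)‖ ^ 2 ≤
      24 * x * (97 * x + P.card * (97 * √(x : ℝ)) + U.card * (P.card * (4 * Q * E))) := by
  classical
  set G : ℝ := 97 * x + P.card * (97 * √(x : ℝ)) + U.card * (P.card * (4 * Q * E)) with hG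
  rcases P.eq_empty_or_nonempty with hPe | ⟨p0, hp0⟩
  · rw [hG, hPe]
    simp only [sum_empty, sum_const_zero, card_empty, Nat.cast_zero, zero_mul, mul_zero, add_zero]
    positivity
  have hQ0 : 0 ≤ Q := (Nat.cast_nonneg _).trans (hQ p0 hp0)
  have hG0 : 0 ≤ G := by positivity
  let φ : ℤ × GaussianInt → GaussianInt → ℂ :=
    fun i v => ((√((nm i.2 : ℕ) : ℝ) * dv i.2 v : ℝ) : ℂ) * ee v ^ i.1
  have hrow : ∀ i ∈ U ×ˢ P, ∑ k ∈ U ×ˢ P, ‖∑ v ∈ (gball x).erase 0,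
      ((1 : ℝ) : ℂ) * (φ i v * (starRingEnd ℂ) (φ k v))‖ ≤ G := by
    rintro ⟨j, p⟩ hjp
    rw [mem_product] at hjp
    obtain ⟨hj, hp⟩ := hjp
    simp only at hj hp
    have hterm : ∀ k ∈ U, ∀ r ∈ P, ‖∑ v ∈ (gball x).erase 0,
        ((1 : ℝ) : ℂ) * (φ (j, p) v * (starRingEnd ℂ) (φ (k, r) v))‖ ≤
        (if k = j then (if r = p then 97 * (x : ℝ) else 0) + 97 * √(x : ℝ) else 0) +
          4 * Q * E := by
      intro k hk r hr
      have e1 : ∑ v ∈ (gball x).erase 0,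
          ((1 : ℝ) : ℂ) * (φ (j, p) v * (starRingEnd ℂ) (φ (k, r) v)) =
          ((√((nm p : ℕ) : ℝ) * √((nm r : ℕ) : ℝ) : ℝ) : ℂ) *
            ∑ v ∈ (gball x).erase 0, ((dv p v * dv r v : ℝ) : ℂ) * ee v ^ (j - k) := by
        rw [mul_sum]
        refine sum_congr rfl (fun v hv => ?_)
        have hv0 := (mem_erase.1 hv).1
        simp only [φ]
        rw [← conj_ee_zpow hv0 j k, map_mul, Complex.conj_ofReal]
        push_cast
        ring
      rw [e1, norm_mul, Complex.norm_real, Real.norm_of_nonneg (by positivity)]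
      have h4 : 0 ≤ 4 * Q * E := by positivity
      have hsx : 0 ≤ 97 * √(x : ℝ) := by positivity
      by_cases hkj : k = j
      · subst hkj
        rw [if_pos rfl, sub_self]
        have e2 : ∑ v ∈ (gball x).erase 0, ((dv p v * dv r v : ℝ) : ℂ) * ee v ^ (0 : ℤ) =
            ((∑ v ∈ (gball x).erase 0, dv p v * dv r v : ℝ) : ℂ) := by
          push_cast
          refine sum_congr rfl (fun v _ => ?_)
          rw [zpow_zero, mul_one]
        rw [e2, Complex.norm_real, Real.norm_eq_abs]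
        by_cases hrp : r = p
        · subst hrp
          rw [if_pos rfl]
          have := entry_diag x r (hP r hr) (hN r hr)
          linarith
        · rw [if_neg hrp]
          have := entry_zero x p r (hP p hp) (hP r hr) (hna p hp r hr (Ne.symm hrp))
            (hN p hp) (hN r hr)
          linarith
      · rw [if_neg hkj]
        have hcase : p = r ∨ IsCoprime p r := by
          by_cases h : p = r
          · exact Or.inl h
          · exact Or.inr (prime_cop (hP p hp) (hP r hr) (hna p hp r hr h))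
        have h5 := off_freq x p r (hP p hp) (hP r hr) hcase (j - k) E
          (hE j hj k hk (Ne.symm hkj))
        have h6 : √((nm p : ℕ) : ℝ) * √((nm r : ℕ) : ℝ) ≤ Q := by
          rw [← Real.sqrt_mul (by positivity)]
          apply Real.sqrt_le_iff.2
          refine ⟨hQ0, ?_⟩
          rw [sq]
          exact mul_le_mul (hQ p hp) (hQ r hr) (Nat.cast_nonneg _) hQ0
        calc √((nm p : ℕ) : ℝ) * √((nm r : ℕ) : ℝ) *
            ‖∑ v ∈ (gball x).erase 0, ((dv p v * dv r v : ℝ) : ℂ) * ee v ^ (j - k)‖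
            ≤ Q * (4 * E) := mul_le_mul h6 h5 (norm_nonneg _) hQ0
          _ = 0 + 4 * Q * E := by ring
    rw [sum_product]
    refine (sum_le_sum fun k hk => sum_le_sum fun r hr => hterm k hk r hr).trans ?_
    have e3 : ∀ k ∈ U, ∑ r ∈ P, ((if k = j then (if r = p then 97 * (x : ℝ) else 0) +
        97 * √(x : ℝ) else 0) + 4 * Q * E) =
        (if k = j then 97 * (x : ℝ) + P.card * (97 * √(x : ℝ)) else 0) +
          P.card * (4 * Q * E) := by
      intro k _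
      rw [sum_add_distrib, sum_const, nsmul_eq_mul]
      congr 1
      split_ifs
      · rw [sum_add_distrib, sum_ite_eq' P p, if_pos hp, sum_const, nsmul_eq_mul]
      · rw [sum_const_zero]
    rw [sum_congr rfl e3, sum_add_distrib, sum_ite_eq' U j, if_pos hj, sum_const, nsmul_eq_mul,
      hG]
  have hmain := hm_96 ((gball x).erase 0) (U ×ˢ P) (fun _ => (1 : ℝ)) (fun _ _ => zero_le_one)
    φ g G hG0 hrow
  rw [sum_product] at hmain
  have hS : ∑ v ∈ (gball x).erase 0, (1 : ℝ) * ‖g v‖ ^ 2 ≤ 24 * x := by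
    calc ∑ v ∈ (gball x).erase 0, (1 : ℝ) * ‖g v‖ ^ 2
        ≤ ∑ v ∈ (gball x).erase 0, (1 : ℝ) := by
          refine sum_le_sum fun v _ => ?_
          rw [one_mul]
          exact pow_le_one₀ (norm_nonneg _) (hg v)
      _ = (((gball x).erase 0).card : ℝ) := by rw [sum_const, nsmul_eq_mul, mul_one]
      _ ≤ ((gball x).card : ℝ) := by exact_mod_cast card_le_card (erase_subset _ _)
      _ ≤ 24 * x := card_le x hx
  refine le_trans (le_of_eq ?_) (hmain.trans (mul_le_mul_of_nonneg_right hS hG0))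
  refine sum_congr rfl (fun j _ => sum_congr rfl (fun p _ => ?_))
  have e4 : ∑ v ∈ (gball x).erase 0, ((1 : ℝ) : ℂ) * g v * φ (j, p) v =
      ((√((nm p : ℕ) : ℝ) : ℝ) : ℂ) * ∑ v ∈ (gball x).erase 0, (dv p v : ℂ) * (g v * ee v ^ j) := by
    rw [mul_sum]
    refine sum_congr rfl (fun v _ => ?_)
    simp only [φ]
    push_cast
    ring
  rw [e4, norm_mul, Complex.norm_real, Real.norm_of_nonneg (by positivity), mul_pow,
    Real.sq_sqrt (by positivity)]

/-- the sum over the punctured ball -/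
noncomputable def SS (F : GaussianInt → ℂ) (x : ℕ) : ℂ := ∑ v ∈ (gball x).erase 0, F v

theorem sum_dv (x : ℕ) (p : GaussianInt) (hp : p ≠ 0) (F : GaussianInt → ℂ)
    (hF : ∀ m, F (p * m) = F p * F m) :
    ∑ v ∈ (gball x).erase 0, (dv p v : ℂ) * F v =
      F p * SS F (x / nm p) - (1 / (nm p : ℂ)) * SS F x := by
  classical
  have h1 := sum_mult x p hp F
  have h2 : ∑ m ∈ (gball (x / nm p)).erase 0, F (p * m) = F p * SS F (x / nm p) := by
    unfold SS
    rw [mul_sum]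
    exact sum_congr rfl (fun m _ => hF m)
  rw [← h2, ← h1]
  unfold SS
  rw [mul_sum, ← sum_sub_distrib]
  refine sum_congr rfl (fun v _ => ?_)
  unfold dv
  split_ifs
  · push_cast
    ring
  · push_cast
    ring

/-- the multiplicative form -/
theorem tkh_mul (x : ℕ) (hx : 1 ≤ x) (P : Finset GaussianInt) (hP : ∀ p ∈ P, Prime p)
    (hna : ∀ p ∈ P, ∀ r ∈ P, p ≠ r → ¬ Associated p r) (hN : ∀ p ∈ P, nm p ^ 2 ≤ x)
    (Q : ℝ) (hQ : ∀ p ∈ P, ((nm p : ℕ) : ℝ) ≤ Q) (U : Finset ℤ) (E : ℝ) (hE0 : 0 ≤ E)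
    (hE : ∀ j ∈ U, ∀ k ∈ U, j ≠ k → ∀ y : ℕ, y ≤ x →
      ‖∑ m ∈ (gball y).erase 0, ee m ^ (j - k)‖ ≤ E)
    (g : GaussianInt → ℂ) (hg : ∀ v, ‖g v‖ ≤ 1) (hmul : ∀ v w, g (v * w) = g v * g w) :
    ∑ j ∈ U, ∑ p ∈ P, ((nm p : ℕ) : ℝ) *
        ‖(g p * ee p ^ j) * SS (fun v => g v * ee v ^ j) (x / nm p) -
          (1 / (nm p : ℂ)) * SS (fun v => g v * ee v ^ j) x‖ ^ 2 ≤
      24 * x * (97 * x + P.card * (97 * √(x : ℝ)) + U.card * (P.card * (4 * Q * E))) := by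
  refine le_trans (le_of_eq ?_) (tkh x hx P hP hna hN Q hQ U E hE0 hE g hg)
  refine sum_congr rfl (fun j _ => sum_congr rfl (fun p hp => ?_))
  rw [sum_dv x p (hP p hp).ne_zero (fun v => g v * ee v ^ j)]
  intro m
  rw [hmul, ee_mul, mul_zpow]
  ring

theorem nm_star (p : GaussianInt) : nm (star p) = nm p := by
  unfold nm
  rw [Zsqrtd.norm_conj]

theorem prime_star {p : GaussianInt} (hp : Prime p) : Prime (star p) := by
  have h := (MulEquiv.prime_iff (starRingAut : RingAut GaussianInt)).2 hp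
  exact h

theorem assoc_star {p r : GaussianInt} (h : Associated (star p) (star r)) : Associated p r := by
  have h1 := h.map (starRingEnd GaussianInt)
  rw [starRingEnd_apply, starRingEnd_apply, star_star, star_star] at h1
  exact h1

/-- conjugate primes: no long average of a multiplicative function with a direction character
is large if the values at conjugate primes differ. -/
theorem tkh_conj (x : ℕ) (hx : 1 ≤ x) (P : Finset GaussianInt) (hP : ∀ p ∈ P, Prime p)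
    (hna : ∀ p ∈ P, ∀ r ∈ P, p ≠ r → ¬ Associated p r)
    (hnc : ∀ p ∈ P, ∀ r ∈ P, ¬ Associated p (star r)) (hN : ∀ p ∈ P, nm p ^ 2 ≤ x)
    (Q : ℝ) (hQ : ∀ p ∈ P, ((nm p : ℕ) : ℝ) ≤ Q) (U : Finset ℤ) (E : ℝ) (hE0 : 0 ≤ E)
    (hE : ∀ j ∈ U, ∀ k ∈ U, j ≠ k → ∀ y : ℕ, y ≤ x →
      ‖∑ m ∈ (gball y).erase 0, ee m ^ (j - k)‖ ≤ E)
    (g : GaussianInt → ℂ) (hg : ∀ v, ‖g v‖ ≤ 1) (hmul : ∀ v w, g (v * w) = g v * g w) :
    ∑ j ∈ U, ‖SS (fun v => g v * ee v ^ j) x‖ ^ 2 *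
        ∑ p ∈ P, 1 / ((nm p : ℕ) : ℝ) * ‖g p * ee p ^ j - g (star p) * ee (star p) ^ j‖ ^ 2 ≤
      48 * x * (97 * x + (2 * P.card) * (97 * √(x : ℝ)) +
        U.card * ((2 * P.card) * (4 * Q * E))) := by
  classical
  set P' : Finset GaussianInt := P ∪ P.image star with hP'
  have hdisj : Disjoint P (P.image star) := by
    rw [disjoint_left]
    intro p hp hp2
    obtain ⟨r, hr, rfl⟩ := mem_image.1 hp2
    exact hnc _ hp r hr (Associated.refl _)
  have hinj : Set.InjOn (star : GaussianInt → GaussianInt) (P : Set GaussianInt) :=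
    fun a _ b _ h => star_injective h
  have hcard : P'.card = 2 * P.card := by
    rw [hP', card_union_of_disjoint hdisj, card_image_of_injOn hinj]
    ring
  have hmem : ∀ p, p ∈ P' ↔ p ∈ P ∨ ∃ r ∈ P, star r = p := by
    intro p
    rw [hP', mem_union, mem_image]
  have hP1 : ∀ p ∈ P', Prime p := by
    intro p hp
    rcases (hmem p).1 hp with h | ⟨r, hr, rfl⟩
    · exact hP p h
    · exact prime_star (hP r hr)
  have hna1 : ∀ p ∈ P', ∀ r ∈ P', p ≠ r → ¬ Associated p r := by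
    intro p hp r hr hpr
    rcases (hmem p).1 hp with h | ⟨p1, hp1, rfl⟩
    · rcases (hmem r).1 hr with h' | ⟨r1, hr1, rfl⟩
      · exact hna p h r h' hpr
      · exact hnc p h r1 hr1
    · rcases (hmem r).1 hr with h' | ⟨r1, hr1, rfl⟩
      · intro h2
        exact hnc r h' p1 hp1 h2.symm
      · intro h2
        exact hna p1 hp1 r1 hr1 (fun h3 => hpr (by rw [h3])) (assoc_star h2)
  have hN1 : ∀ p ∈ P', nm p ^ 2 ≤ x := by
    intro p hp
    rcases (hmem p).1 hp with h | ⟨r, hr, rfl⟩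
    · exact hN p h
    · rw [nm_star]
      exact hN r hr
  have hQ1 : ∀ p ∈ P', ((nm p : ℕ) : ℝ) ≤ Q := by
    intro p hp
    rcases (hmem p).1 hp with h | ⟨r, hr, rfl⟩
    · exact hQ p h
    · rw [nm_star]
      exact hQ r hr
  have hmain := tkh_mul x hx P' hP1 hna1 hN1 Q hQ1 U E hE0 hE g hg hmul
  rw [hcard] at hmain
  push_cast at hmain
  have hstep : ∑ j ∈ U, ‖SS (fun v => g v * ee v ^ j) x‖ ^ 2 *
        ∑ p ∈ P, 1 / ((nm p : ℕ) : ℝ) * ‖g p * ee p ^ j - g (star p) * ee (star p) ^ j‖ ^ 2 ≤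
      2 * ∑ j ∈ U, ∑ p ∈ P', ((nm p : ℕ) : ℝ) *
        ‖(g p * ee p ^ j) * SS (fun v => g v * ee v ^ j) (x / nm p) -
          (1 / (nm p : ℂ)) * SS (fun v => g v * ee v ^ j) x‖ ^ 2 := by
    rw [mul_sum]
    refine sum_le_sum fun j _ => ?_
    rw [hP', sum_union hdisj, sum_image hinj, ← sum_add_distrib, mul_sum, mul_sum]
    refine sum_le_sum fun p hp => ?_
    rw [nm_star]
    set S : ℂ := SS (fun v => g v * ee v ^ j) x with hS
    set S' : ℂ := SS (fun v => g v * ee v ^ j) (x / nm p) with hS'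
    have hp0 := (hP p hp).ne_zero
    have hsp0 := (prime_star (hP p hp)).ne_zero
    have hN0 : (0 : ℝ) < nm p := by exact_mod_cast nm_pos.2 hp0
    have hF1 : ‖g p * ee p ^ j‖ ≤ 1 := by
      rw [norm_mul, norm_ee_zpow hp0, mul_one]
      exact hg p
    have hF2 : ‖g (star p) * ee (star p) ^ j‖ ≤ 1 := by
      rw [norm_mul, norm_ee_zpow hsp0, mul_one]
      exact hg _
    set F1 : ℂ := g p * ee p ^ j with hF1d
    set F2 : ℂ := g (star p) * ee (star p) ^ j with hF2d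
    set A : ℂ := F1 * S' - 1 / (nm p : ℂ) * S with hA
    set B : ℂ := F2 * S' - 1 / (nm p : ℂ) * S with hB
    have hid : F2 * A - F1 * B = 1 / (nm p : ℂ) * (S * (F1 - F2)) := by
      rw [hA, hB]
      ring
    have h1 : 1 / ((nm p : ℕ) : ℝ) * (‖S‖ * ‖F1 - F2‖) ≤ ‖A‖ + ‖B‖ := by
      have h2 := congrArg (fun z : ℂ => ‖z‖) hid
      simp only [norm_mul, norm_div, norm_one, Complex.norm_natCast] at h2
      rw [← h2]
      refine (norm_sub_le _ _).trans ?_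
      have h3 : ‖F2 * A‖ ≤ 1 * ‖A‖ := by
        rw [norm_mul F2 A]
        exact mul_le_mul_of_nonneg_right hF2 (norm_nonneg A)
      have h4 : ‖F1 * B‖ ≤ 1 * ‖B‖ := by
        rw [norm_mul F1 B]
        exact mul_le_mul_of_nonneg_right hF1 (norm_nonneg B)
      linarith
    have h2 : (1 / ((nm p : ℕ) : ℝ) * (‖S‖ * ‖F1 - F2‖)) ^ 2 ≤ 2 * (‖A‖ ^ 2 + ‖B‖ ^ 2) := by
      have h3 : 0 ≤ 1 / ((nm p : ℕ) : ℝ) * (‖S‖ * ‖F1 - F2‖) := by positivity
      nlinarith [sq_nonneg (‖A‖ - ‖B‖), norm_nonneg A, norm_nonneg B]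
    have h3 : ‖S‖ ^ 2 * (1 / ((nm p : ℕ) : ℝ) * ‖F1 - F2‖ ^ 2) =
        ((nm p : ℕ) : ℝ) * (1 / ((nm p : ℕ) : ℝ) * (‖S‖ * ‖F1 - F2‖)) ^ 2 := by
      field_simp
    rw [h3]
    calc ((nm p : ℕ) : ℝ) * (1 / ((nm p : ℕ) : ℝ) * (‖S‖ * ‖F1 - F2‖)) ^ 2
        ≤ ((nm p : ℕ) : ℝ) * (2 * (‖A‖ ^ 2 + ‖B‖ ^ 2)) := mul_le_mul_of_nonneg_left h2 hN0.le
      _ = 2 * (((nm p : ℕ) : ℝ) * ‖A‖ ^ 2 + ((nm p : ℕ) : ℝ) * ‖B‖ ^ 2) := by ring
  refine hstep.trans ?_
  linarith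

end Pool.Agent.Lib.MP_a17b09_nt.MRS.Tkh12
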