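import Pool.Agent.Lib.MP_a17b09_nt.MRS.TwJ90
import Pool.Agent.Lib.MP_a17b09_nt.CH.EndS98
import Pool.Agent.Lib.MP_a17b09_nt.CH.FinT22
import Pool.Agent.Lib.MP_a17b09_nt.CH.Top
import Pool.Agent.Lib.MP_a17b09_nt.CH.MeanLem

/-!
Project CH / MRS, stages B and C: if the twisted sums vanish in mean for all pairs of roots of unity
different from `(1, 1)`, then all classes of `(Ω d, Ω (f t / d))` modulo `k` have the same share of
the pairs `(t, d)`.
-/

set_option autoImplicit false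

open Filter Topology Finset

namespace Pool.Agent.Lib.MP_a17b09_nt.CH

namespace TopJ90

/-- all classes have the same number of elements in mean -/
theorem inv2 (E : LMean) (k : ℕ) (hk : 0 < k) (T : ℕ → Finset ℕ) (N : ℕ → Finset ℕ)
    (A B : ℕ → ℕ → ℕ) (hC : ∃ C : ℝ, ∀ M : ℕ, ((∑ t ∈ T M, (N t).card : ℕ) : ℝ) ≤ C * M)
    (h : ∀ z1 z2 : ℂ, z1 ^ k = 1 → z2 ^ k = 1 → (z1 ≠ 1 ∨ z2 ≠ 1) →
      E.E (fun M : ℕ => ‖∑ t ∈ T M, ∑ d ∈ N t, z1 ^ A t d * z2 ^ B t d‖ / (M : ℝ)) = 0)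
    (r s r' s' : ℕ) :
    E.E (fun M : ℕ =>
      |((∑ t ∈ T M, ((N t).filter
        (fun d => A t d ≡ r [MOD k] ∧ B t d ≡ s [MOD k])).card : ℕ) : ℝ) -
      ((∑ t ∈ T M, ((N t).filter
        (fun d => A t d ≡ r' [MOD k] ∧ B t d ≡ s' [MOD k])).card : ℕ) : ℝ)| / (M : ℝ))
      = 0 := by
  set z : ℂ := Complex.exp (2 * Real.pi * Complex.I / k) with hz
  have hzp : IsPrimitiveRoot z k := Complex.isPrimitiveRoot_exp k hk.ne'
  have hzk : ∀ j, (z ^ j) ^ k = 1 := by
    intro j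
    rw [← pow_mul, Nat.mul_comm, pow_mul, hzp.pow_eq_one, one_pow]
  have hzn : ‖z‖ = 1 := hzp.norm'_eq_one hk.ne'
  clear_value z
  set P := range k ×ˢ range k with hP
  set U : ℕ × ℕ → ℕ → ℂ := fun p M =>
    ∑ t ∈ T M, ∑ d ∈ N t, (z ^ p.1) ^ A t d * (z ^ p.2) ^ B t d with hU
  set c : ℕ → ℕ → ℕ × ℕ → ℂ := fun r s p =>
    (1 / (k : ℂ) ^ 2) * ((z⁻¹ ^ p.1) ^ r * (z⁻¹ ^ p.2) ^ s) with hc
  have hz0 : z ≠ 0 := hzp.ne_zero (by omega)
  obtain ⟨C, hC⟩ := hC
  -- the counting function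
  have h2 : ∀ (r s M : ℕ), (((∑ t ∈ T M, ((N t).filter
      (fun d => A t d ≡ r [MOD k] ∧ B t d ≡ s [MOD k])).card : ℕ) : ℝ) : ℂ) =
      ∑ p ∈ P, c r s p * U p M := by
    intro r s M
    push_cast
    have h3 : ∀ p ∈ P, c r s p * U p M =
        ∑ t ∈ T M, c r s p * ∑ d ∈ N t, (z ^ p.1) ^ A t d * (z ^ p.2) ^ B t d := by
      intro p _
      rw [hU, mul_sum]
    rw [sum_congr rfl h3, sum_comm]
    refine sum_congr rfl fun t _ => ?_
    rw [FinT22.card_eq hk hzp (N t) (A t) (B t) r s]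
  -- the pointwise bound
  have h4 : ∀ M : ℕ, |((∑ t ∈ T M, ((N t).filter
        (fun d => A t d ≡ r [MOD k] ∧ B t d ≡ s [MOD k])).card : ℕ) : ℝ) -
      ((∑ t ∈ T M, ((N t).filter
        (fun d => A t d ≡ r' [MOD k] ∧ B t d ≡ s' [MOD k])).card : ℕ) : ℝ)| ≤
      ∑ p ∈ P, ‖c r s p - c r' s' p‖ * ‖U p M‖ := by
    intro M
    rw [← Real.norm_eq_abs, ← Complex.norm_real, Complex.ofReal_sub, h2, h2, ← sum_sub_distrib]
    refine (norm_sum_le _ _).trans (le_of_eq ?_)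
    refine sum_congr rfl fun p _ => ?_
    rw [← sub_mul, norm_mul]
  -- boundedness
  have h5 : ∀ p M, ‖U p M‖ ≤ C * M := by
    intro p M
    refine le_trans ?_ (hC M)
    rw [hU]
    refine (norm_sum_le _ _).trans ?_
    push_cast
    refine sum_le_sum fun t _ => ?_
    refine (norm_sum_le _ _).trans ?_
    rw [← nsmul_one, ← sum_const]
    refine sum_le_sum fun d _ => le_of_eq ?_
    rw [norm_mul, norm_pow, norm_pow, norm_pow, norm_pow, hzn]
    simp
  have h6 : ∀ p, Bdd (fun M : ℕ => ‖U p M‖ / (M : ℝ)) := by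
    intro p
    refine ⟨|C|, fun M => ?_⟩
    rw [abs_of_nonneg (by positivity)]
    rcases Nat.eq_zero_or_pos M with h0 | h0
    · rw [h0]; simp
    · have h0' : (0 : ℝ) < M := by exact_mod_cast h0
      rw [div_le_iff₀ h0']
      exact (h5 p M).trans (mul_le_mul_of_nonneg_right (le_abs_self C) h0'.le)
  set F : ℕ → ℝ := fun M => |((∑ t ∈ T M, ((N t).filter
        (fun d => A t d ≡ r [MOD k] ∧ B t d ≡ s [MOD k])).card : ℕ) : ℝ) -
      ((∑ t ∈ T M, ((N t).filter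
        (fun d => A t d ≡ r' [MOD k] ∧ B t d ≡ s' [MOD k])).card : ℕ) : ℝ)| / (M : ℝ)
    with hF
  have hF0 : ∀ M, 0 ≤ F M := fun M => by rw [hF]; positivity
  have hle : ∀ M : ℕ, F M ≤ ∑ p ∈ P, ‖c r s p - c r' s' p‖ * (‖U p M‖ / (M : ℝ)) := by
    intro M
    have h7 : ∑ p ∈ P, ‖c r s p - c r' s' p‖ * (‖U p M‖ / (M : ℝ)) =
        (∑ p ∈ P, ‖c r s p - c r' s' p‖ * ‖U p M‖) / (M : ℝ) := by
      rw [sum_div]
      exact sum_congr rfl fun p _ => by ring
    rw [h7]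
    exact div_le_div_of_nonneg_right (h4 M) (Nat.cast_nonneg M)
  have hS : ∀ p ∈ P, Bdd (fun M : ℕ => ‖c r s p - c r' s' p‖ * (‖U p M‖ / (M : ℝ))) :=
    fun p _ => (h6 p).smul _
  have hB : Bdd (fun M : ℕ => ∑ p ∈ P, ‖c r s p - c r' s' p‖ *
      (‖U p M‖ / (M : ℝ))) := Bdd.sum P _ hS
  have hFB : Bdd F := by
    obtain ⟨D, hD⟩ := hB
    refine ⟨D, fun M => ?_⟩
    rw [abs_of_nonneg (hF0 M)]
    exact ((hle M).trans (le_abs_self _)).trans (hD M)
  have h8 : E.E (fun M : ℕ => ∑ p ∈ P, ‖c r s p - c r' s' p‖ *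
      (‖U p M‖ / (M : ℝ))) = 0 := by
    rw [E.sum P _ hS]
    apply sum_eq_zero
    intro p _
    rw [E.smul _ _ (h6 p)]
    by_cases hp : z ^ p.1 = 1 ∧ z ^ p.2 = 1
    · have h3 : c r s p - c r' s' p = 0 := by
        rw [hc]
        beta_reduce
        have i1 : z⁻¹ ^ p.1 = 1 := by rw [inv_pow, hp.1, inv_one]
        have i2 : z⁻¹ ^ p.2 = 1 := by rw [inv_pow, hp.2, inv_one]
        rw [i1, i2, one_pow, one_pow, one_pow, one_pow, sub_self]
      rw [h3, norm_zero, zero_mul]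
    · rw [h (z ^ p.1) (z ^ p.2) (hzk _) (hzk _) (not_and_or.1 hp), mul_zero]
  refine le_antisymm ?_ (E.nonneg F hFB hF0)
  rw [← h8]
  exact E.mono hFB hB hle

/-- equal shares -/
theorem share (M : LMean) {ι : Type} (P : Finset ι) (C : ι → ℕ → ℝ)
    (hb : ∀ i ∈ P, Bdd (fun N => C i N / N))
    (hinv : ∀ i ∈ P, ∀ j ∈ P, M.E (fun N => |C i N - C j N| / N) = 0) {κ : ℝ}
    (htot : Tendsto (fun N : ℕ => (∑ j ∈ P, C j N) / N) atTop (𝓝 κ)) (i : ι) (hi : i ∈ P) :
    M.E (fun N => |C i N / N - κ / P.card|) = 0 := by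
  have hP0 : 0 < P.card := Finset.card_pos.2 ⟨i, hi⟩
  have hP0' : (0 : ℝ) < P.card := by exact_mod_cast hP0
  have e0 : ∀ (x y : ℝ) (N : ℕ), |x / N - y / N| = |x - y| / N := by
    intro x y N
    rw [← sub_div, abs_div, Nat.abs_cast]
  have hbd : ∀ j ∈ P, Bdd (fun N => |C i N - C j N| / (N : ℝ)) := by
    intro j hj
    have := ((hb i hi).sub (hb j hj)).abs
    simpa only [e0] using this
  have hTb : Bdd (fun N : ℕ => (∑ j ∈ P, C j N) / (N : ℝ)) := by
    have h1 : (fun N : ℕ => (∑ j ∈ P, C j N) / (N : ℝ)) = fun N => ∑ j ∈ P, C j N / N := by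
      funext N
      rw [Finset.sum_div]
    rw [h1]
    exact Bdd.sum _ _ hb
  have hT0 : M.E (fun N : ℕ => |(∑ j ∈ P, C j N) / N - κ|) = 0 := by
    apply M.null _ (hTb.sub (Bdd.const κ)).abs
    have h1 := (htot.sub_const κ).abs
    simpa using h1
  have hsumb : Bdd (fun N : ℕ => ∑ j ∈ P, |C i N - C j N| / (N : ℝ)) := Bdd.sum _ _ hbd
  have hfin : M.E (fun N => |C i N / N - κ / P.card|) ≤ M.E (fun N : ℕ => (1 / (P.card : ℝ)) *
      (∑ j ∈ P, |C i N - C j N| / N + |(∑ j ∈ P, C j N) / N - κ|)) := by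
    refine M.mono ((hb i hi).sub (Bdd.const _)).abs
      ((hsumb.add (hTb.sub (Bdd.const κ)).abs).smul _) fun N => ?_
    have e1 : C i N / N - κ / P.card = (1 / (P.card : ℝ)) * ((∑ j ∈ P, (C i N - C j N) / N) +
        ((∑ j ∈ P, C j N) / N - κ)) := by
      rw [← Finset.sum_div, Finset.sum_sub_distrib, Finset.sum_const, nsmul_eq_mul]
      field_simp
      ring
    rw [e1, abs_mul, abs_of_pos (by positivity : (0 : ℝ) < 1 / P.card)]
    refine mul_le_mul_of_nonneg_left ((abs_add_le _ _).trans (add_le_add ?_ le_rfl))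
      (by positivity)
    refine (Finset.abs_sum_le_sum_abs _ _).trans (Finset.sum_le_sum fun j _ => ?_)
    rw [abs_div, Nat.abs_cast]
  rw [M.smul _ _ (hsumb.add (hTb.sub (Bdd.const κ)).abs),
    M.add _ _ hsumb (hTb.sub (Bdd.const κ)).abs, hT0, M.sum _ _ hbd] at hfin
  rw [Finset.sum_congr rfl fun j hj => hinv i hi j hj] at hfin
  simp only [Finset.sum_const_zero, add_zero, mul_zero] at hfin
  exact le_antisymm hfin (M.nonneg _ ((hb i hi).sub (Bdd.const _)).abs fun N => abs_nonneg _)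

/-- a sum of quantities with limits in mean -/
theorem sum_mean (M : LMean) {ι : Type} (P : Finset ι) (C : ι → ℕ → ℝ) (κ : ι → ℝ)
    (hb : ∀ i ∈ P, Bdd (fun N => C i N / N))
    (hC : ∀ i ∈ P, M.E (fun N => |C i N / N - κ i|) = 0) :
    M.E (fun N => |(∑ i ∈ P, C i N) / N - ∑ i ∈ P, κ i|) = 0 := by
  have hb1 : ∀ i ∈ P, Bdd (fun N : ℕ => |C i N / N - κ i|) := fun i hi =>
    ((hb i hi).sub (Bdd.const _)).abs
  have hb2 : Bdd (fun N : ℕ => |(∑ i ∈ P, C i N) / N - ∑ i ∈ P, κ i|) := by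
    have h1 : (fun N : ℕ => (∑ j ∈ P, C j N) / (N : ℝ)) = fun N => ∑ j ∈ P, C j N / N := by
      funext N
      rw [Finset.sum_div]
    have h2 : Bdd (fun N : ℕ => (∑ j ∈ P, C j N) / (N : ℝ)) := by
      rw [h1]
      exact Bdd.sum _ _ hb
    exact (h2.sub (Bdd.const _)).abs
  apply le_antisymm
  · have h3 : M.E (fun N => |(∑ i ∈ P, C i N) / N - ∑ i ∈ P, κ i|) ≤
        M.E (fun N : ℕ => ∑ i ∈ P, |C i N / N - κ i|) := by
      refine M.mono hb2 (Bdd.sum _ _ hb1) fun N => ?_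
      rw [Finset.sum_div, ← Finset.sum_sub_distrib]
      exact Finset.abs_sum_le_sum_abs _ _
    refine h3.trans (le_of_eq ?_)
    rw [M.sum _ _ hb1]
    exact Finset.sum_eq_zero hC
  · exact M.nonneg _ hb2 fun N => abs_nonneg _

/-- logarithmic form from the means of the natural averages -/
theorem log_of_mean (hMean : StMean) {w : ℕ → ℝ} {c : ℝ}
    (hb : Bdd (fun N : ℕ => (∑ t ∈ Finset.Icc 1 N, w t) / N))
    (hM : ∀ M : LMean, M.E (fun N : ℕ => |(∑ t ∈ Finset.Icc 1 N, w t) / N - c|) = 0) :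
    Tendsto (fun X : ℕ => (∑ t ∈ Finset.Icc 1 X, w t / t) / Real.log X) atTop (𝓝 c) := by
  set W : ℕ → ℝ := fun N => ∑ t ∈ Finset.Icc 1 N, w t with hW
  set G : ℕ → ℝ := fun N => |W N / N - c| with hG
  have hGb : Bdd G := (Bdd.sub hb (Bdd.const c)).abs
  obtain ⟨D, hD⟩ := hb
  have hG0 : ∀ N, 0 ≤ G N := fun N => abs_nonneg _
  -- the logarithmic average of `G`
  have hlog : Tendsto (fun X : ℕ => (∑ n ∈ Finset.Icc 1 X, G n / n) / Real.log X) atTop
      (𝓝 0) := by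
    have h1 := hMean (fun n => ((G n : ℝ) : ℂ)) (by
      obtain ⟨C, hC⟩ := hGb
      exact ⟨C, fun n => by
        rw [Complex.norm_real, Real.norm_eq_abs]
        exact hC n⟩) (fun M => by
      unfold LMean.EC
      simp only [Complex.ofReal_re, Complex.ofReal_im]
      rw [hM M, M.const]
      simp)
    have h2 := (Complex.continuous_re.tendsto 0).comp h1
    rw [Complex.zero_re] at h2
    refine h2.congr fun X => ?_
    unfold logav
    simp only [Function.comp]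
    have e1 : (1 / (Real.log X : ℂ)) * ∑ n ∈ Finset.Icc 1 X, ((G n : ℝ) : ℂ) / (n : ℂ) =
        (((∑ n ∈ Finset.Icc 1 X, G n / (n : ℝ)) / Real.log X : ℝ) : ℂ) := by
      push_cast
      ring
    rw [e1, Complex.ofReal_re]
  -- summation by parts
  have habel : ∀ X : ℕ, ∑ t ∈ Finset.Icc 1 X, w t / t =
      W X / (X + 1 : ℝ) + ∑ t ∈ Finset.Icc 1 X, W t / ((t : ℝ) * (t + 1)) := by
    intro X
    induction X with
    | zero => simp [hW]
    | succ X ih =>
      rw [Finset.sum_Icc_succ_top (by omega), ih, Finset.sum_Icc_succ_top (by omega)]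
      have h3 : W (X + 1) = W X + w (X + 1) := by
        rw [hW]
        exact Finset.sum_Icc_succ_top (by omega) _
      rw [h3]
      push_cast
      field_simp
      ring
  -- the harmonic sum
  have hharm : ∀ X : ℕ, 1 ≤ X → |∑ t ∈ Finset.Icc 1 X, (1 : ℝ) / (t + 1) - Real.log X| ≤ 1 := by
    intro X hX
    have h3 : ∑ t ∈ Finset.Icc 1 X, (1 : ℝ) / (t + 1) = (harmonic (X + 1) : ℝ) - 1 := by
      clear hX
      induction X with
      | zero => simp [harmonic]
      | succ X ih =>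
        rw [Finset.sum_Icc_succ_top (by omega), ih, harmonic_succ (X + 1)]
        push_cast
        rw [one_div]
        ring
    rw [h3]
    have h4 := log_add_one_le_harmonic (X + 1)
    have h5 := harmonic_le_one_add_log (X + 1)
    have hX' : (1 : ℝ) ≤ X := by exact_mod_cast hX
    have h6 : Real.log (X : ℝ) ≤ Real.log ((X + 1 : ℕ) + 1 : ℝ) := by
      apply Real.log_le_log (by linarith)
      push_cast
      linarith
    have h7 : Real.log ((X + 1 : ℕ) : ℝ) ≤ Real.log X + 1 := by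
      have h8 : ((X + 1 : ℕ) : ℝ) ≤ X * Real.exp 1 := by
        push_cast
        have := Real.add_one_le_exp (1 : ℝ)
        nlinarith
      have h9 := Real.log_le_log (by positivity) h8
      rwa [Real.log_mul (by linarith) (by positivity), Real.log_exp] at h9
    rw [abs_le]
    push_cast at h4 h5 h6 h7 ⊢
    constructor <;> linarith
  -- the comparison
  have hD0 : 0 ≤ D := (abs_nonneg _).trans (hD 0)
  have hcmp : ∀ X : ℕ, 1 ≤ X → |∑ t ∈ Finset.Icc 1 X, w t / t - c * Real.log X| ≤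
      (D + |c|) + ∑ n ∈ Finset.Icc 1 X, G n / n := by
    intro X hX
    have hX' : (0 : ℝ) < X := by exact_mod_cast hX
    have e1 : ∑ t ∈ Finset.Icc 1 X, w t / t - c * Real.log X = W X / (X + 1 : ℝ) +
        c * (∑ t ∈ Finset.Icc 1 X, (1 : ℝ) / (t + 1) - Real.log X) +
        ∑ t ∈ Finset.Icc 1 X, (W t / t - c) * (1 / (t + 1)) := by
      rw [habel X]
      have h3 : ∑ t ∈ Finset.Icc 1 X, (W t / t - c) * (1 / ((t : ℝ) + 1)) =
          ∑ t ∈ Finset.Icc 1 X, W t / ((t : ℝ) * (t + 1)) -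
          c * ∑ t ∈ Finset.Icc 1 X, (1 : ℝ) / (t + 1) := by
        rw [Finset.mul_sum, ← Finset.sum_sub_distrib]
        apply Finset.sum_congr rfl
        intro t ht
        rw [Finset.mem_Icc] at ht
        have : (0 : ℝ) < t := by exact_mod_cast ht.1
        field_simp
      rw [h3]
      ring
    rw [e1]
    have a1 : |W X / (X + 1 : ℝ)| ≤ D := by
      have h3 := hD X
      rw [abs_div, abs_of_pos hX'] at h3
      rw [abs_div, abs_of_pos (by linarith : (0 : ℝ) < X + 1)]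
      refine le_trans ?_ h3
      exact div_le_div_of_nonneg_left (abs_nonneg _) hX' (by linarith)
    have a2 : |c * (∑ t ∈ Finset.Icc 1 X, (1 : ℝ) / (t + 1) - Real.log X)| ≤ |c| := by
      rw [abs_mul]
      calc |c| * |∑ t ∈ Finset.Icc 1 X, (1 : ℝ) / (t + 1) - Real.log X| ≤ |c| * 1 :=
            mul_le_mul_of_nonneg_left (hharm X hX) (abs_nonneg c)
        _ = |c| := mul_one _
    have a3 : |∑ t ∈ Finset.Icc 1 X, (W t / t - c) * (1 / ((t : ℝ) + 1))| ≤
        ∑ n ∈ Finset.Icc 1 X, G n / n := by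
      refine (Finset.abs_sum_le_sum_abs _ _).trans (Finset.sum_le_sum fun t ht => ?_)
      rw [Finset.mem_Icc] at ht
      have ht' : (0 : ℝ) < t := by exact_mod_cast ht.1
      rw [abs_mul, abs_of_pos (by positivity : (0 : ℝ) < 1 / ((t : ℝ) + 1)),
        div_eq_mul_one_div (G t)]
      apply mul_le_mul_of_nonneg_left _ (hG0 t)
      apply one_div_le_one_div_of_le ht'
      linarith
    calc _ ≤ |W X / (X + 1 : ℝ) +
        c * (∑ t ∈ Finset.Icc 1 X, (1 : ℝ) / (t + 1) - Real.log X)| +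
        |∑ t ∈ Finset.Icc 1 X, (W t / t - c) * (1 / ((t : ℝ) + 1))| := abs_add_le _ _
      _ ≤ (|W X / (X + 1 : ℝ)| +
        |c * (∑ t ∈ Finset.Icc 1 X, (1 : ℝ) / (t + 1) - Real.log X)|) +
        |∑ t ∈ Finset.Icc 1 X, (W t / t - c) * (1 / ((t : ℝ) + 1))| :=
          add_le_add (abs_add_le _ _) le_rfl
      _ ≤ (D + |c|) + ∑ n ∈ Finset.Icc 1 X, G n / n :=
          add_le_add (add_le_add a1 a2) a3
  have hloginf : Tendsto (fun X : ℕ => Real.log X) atTop atTop :=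
    Real.tendsto_log_atTop.comp tendsto_natCast_atTop_atTop
  have h0 : Tendsto (fun X : ℕ => (D + |c|) / Real.log X +
      (∑ n ∈ Finset.Icc 1 X, G n / n) / Real.log X) atTop (𝓝 0) := by
    have h3 := (tendsto_const_nhds (x := D + |c|)).div_atTop hloginf
    simpa using h3.add hlog
  rw [tendsto_iff_norm_sub_tendsto_zero]
  refine squeeze_zero' (Eventually.of_forall fun X => norm_nonneg _) ?_ h0
  filter_upwards [eventually_ge_atTop 3] with X hX
  have hX3 : (1 : ℝ) < X := by exact_mod_cast (by omega : 1 < X)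
  have hlp : 0 < Real.log X := Real.log_pos hX3
  have e1 : (∑ t ∈ Finset.Icc 1 X, w t / t) / Real.log X - c =
      (∑ t ∈ Finset.Icc 1 X, w t / t - c * Real.log X) / Real.log X := by
    field_simp
  rw [e1, Real.norm_eq_abs, abs_div, abs_of_pos hlp, ← add_div]
  exact div_le_div_of_nonneg_right (hcmp X (by omega)) hlp.le

end TopJ90

end Pool.Agent.Lib.MP_a17b09_nt.CH
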