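import Pool.Agent.Lib.MP_a17b09_nt.CH.TwM68
import Pool.Agent.Lib.MP_a17b09_nt.CH.TopM98

/-!
Project CH / MRS, stages B and C: the twisted theorem for one polynomial and one pair of roots of
unity, from the conclusion of Theorem A for the systems of its discriminant.
-/

set_option autoImplicit false

open Filter Topology Finset

namespace Pool.Agent.Lib.MP_a17b09_nt.CH

/-- Theorem E for all systems of discriminant `-d` and all pairs of roots of unity different from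
`(1, 1)` -/
def EsAll (d : ℕ) : Prop := ∀ (ι : Type) [Fintype ι] (S : System ι), S.d = d →
  ∀ (z1 z2 : ℂ) (k : ℕ), 0 < k → z1 ^ k = 1 → z2 ^ k = 1 → (z1 ≠ 1 ∨ z2 ≠ 1) → EsFor S z1 z2

/-- the twisted theorem for one polynomial (module T4 with the use of Theorem A isolated) -/
theorem twJ90 (hFm : StFm) {a b c : ℤ} (ha : 0 < a) (hD : b ^ 2 - 4 * a * c < 0) {z1 z2 : ℂ}
    {k : ℕ} (hk : 0 < k) (hz1 : z1 ^ k = 1) (hz2 : z2 ^ k = 1) (M : LMean)
    (hA : ∀ (ι : Type) [Fintype ι] (S : System ι), (S.d : ℤ) = 4 * a * c - b ^ 2 → ∀ (K : ℕ),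
      0 < K → ∀ om : ι → V → V → ℂ, Wt S K om → NullM M S.Q (kerT S z1 z2 om))
    {h : ℕ} (hh : 0 < h) (t0 : ℕ) {α β : ℝ} (hα : 0 < α) (hβ : α < β) :
    M.E (fun N : ℕ => ‖TwN a b c α β h t0 z1 z2 N‖ / N) = 0 := by
  -- the system
  obtain ⟨d, hd⟩ : ∃ d : ℕ, 4 * a * c - b ^ 2 = (d : ℤ) :=
    ⟨_, (Int.toNat_of_nonneg (by linarith)).symm⟩
  have hd0 : 0 < d := by
    have : (0 : ℤ) < d := by rw [← hd]; linarith
    exact_mod_cast this
  obtain ⟨ι, hι, S, w, hSd, hw0, hws, hF⟩ := stSys_68 d hd0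
  have hSd' : (S.d : ℤ) = 4 * a * c - b ^ 2 := by rw [hSd, hd]
  -- the weight
  obtain ⟨K, hK⟩ : ∃ K : ℕ, 2 * a * h = (K : ℤ) :=
    ⟨_, (Int.toNat_of_nonneg (by positivity)).symm⟩
  have hK0 : 0 < K := by
    have hh' : (0 : ℤ) < h := by exact_mod_cast hh
    have : (0 : ℤ) < K := by rw [← hK]; positivity
    exact_mod_cast this
  have hWt : Wt S K (G68.omW S w a b h t0) := by
    apply stWt_68 ι S w
    · intro p hp h4 i
      rw [hSd] at h4
      exact hws p hp h4 i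
    · exact hK0
    · intro x y z u v t
      rw [← hK]
      exact G68.phi_per a b h t0 x y z u v t
  have hNull := hA ι S hSd' K hK0 _ hWt
  have hn1 : ‖z1‖ = 1 := Complex.norm_eq_one_of_pow_eq_one hz1 hk.ne'
  have hn2 : ‖z2‖ = 1 := Complex.norm_eq_one_of_pow_eq_one hz2 hk.ne'
  have hbd : ∃ C : ℝ, ∀ i v v', ‖kerT S z1 z2 (G68.omW S w a b h t0) i v v'‖ ≤ C := by
    refine ⟨1, fun i v v' => ?_⟩
    unfold kerT gz G68.omW
    rw [norm_mul, norm_mul, norm_mul, norm_pow, norm_pow, hn1, hn2, one_pow, one_pow, mul_one,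
      mul_one]
    have h1 : ‖(1 / (w i : ℂ))‖ ≤ 1 := by
      rw [norm_div, norm_one, Complex.norm_natCast]
      have : (1 : ℝ) ≤ w i := by exact_mod_cast hw0 i
      rw [div_le_one (by linarith)]
      exact this
    have h2 := G68.norm_phi a b h t0 ((S.Q i).q v) ((S.Q i).B v v') ((S.Q i).q v')
    calc _ ≤ (1 : ℝ) * 1 := mul_le_mul h1 h2 (norm_nonneg _) zero_le_one
      _ = 1 := one_mul 1
  let T0 : ℕ := b.natAbs + 1
  have hT1 : 0 < T0 := Nat.succ_pos _
  have hT0 : |b| ≤ T0 := by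
    simp only [T0]
    push_cast
    rw [Int.abs_eq_natAbs]
    linarith
  obtain ⟨hB, hE⟩ := hFm M ι S.Q S.pos _ hbd hNull a b α β ha hα hβ T0 hT1
  -- comparison
  let G : ℕ → ℂ := fun t =>
    ∑ d ∈ nearG a b c α β t, z1 ^ Omn d * z2 ^ Omn ((fv a b c t).natAbs / d)
  let C1 : ℝ := ∑ t ∈ Finset.Icc 1 (T0 - 1), ‖G t‖
  have hC1 : 0 ≤ C1 := Finset.sum_nonneg (fun _ _ => norm_nonneg _)
  have hcmp : ∀ N : ℕ, ‖TwN a b c α β h t0 z1 z2 N‖ ≤ C1 +
      ‖∑ i, ∑ f ∈ FG (S.Q i) a b α β T0 N, kerT S z1 z2 (G68.omW S w a b h t0) i f.1 f.2‖ := by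
    intro N
    rw [G68.main_id1 ha hD S hSd' w (fun F hP hFD => (hF F hP (by rw [hFD, hSd])).2) z1 z2 hα
      hβ.le hT0 hT1, norm_mul, norm_pow, hn2, one_pow, one_mul]
    have hsub : (Finset.Icc 1 N).filter (fun t => t ≡ t0 [MOD h]) =
        ((Finset.Icc 1 N).filter (fun t => t ≡ t0 [MOD h])).filter (fun t => t < T0) ∪
        (Finset.Icc T0 N).filter (fun t => t ≡ t0 [MOD h]) := by
      ext t
      rw [Finset.mem_union, Finset.mem_filter, Finset.mem_filter, Finset.mem_filter,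
        Finset.mem_filter, Finset.mem_Icc, Finset.mem_Icc]
      constructor
      · rintro ⟨h1, h2⟩
        by_cases h3 : t < T0
        · exact Or.inl ⟨⟨h1, h2⟩, h3⟩
        · exact Or.inr ⟨⟨by omega, h1.2⟩, h2⟩
      · rintro (h1 | h1)
        · exact h1.1
        · exact ⟨⟨by omega, h1.1.2⟩, h1.2⟩
    have hdis : Disjoint
        (((Finset.Icc 1 N).filter (fun t => t ≡ t0 [MOD h])).filter (fun t => t < T0))
        ((Finset.Icc T0 N).filter (fun t => t ≡ t0 [MOD h])) := by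
      rw [Finset.disjoint_left]
      intro t h1 h2
      rw [Finset.mem_filter] at h1
      rw [Finset.mem_filter, Finset.mem_Icc] at h2
      omega
    have e1 : TwN a b c α β h t0 z1 z2 N =
        ∑ t ∈ ((Finset.Icc 1 N).filter (fun t => t ≡ t0 [MOD h])).filter (fun t => t < T0), G t +
        ∑ t ∈ (Finset.Icc T0 N).filter (fun t => t ≡ t0 [MOD h]), G t := by
      rw [← Finset.sum_union hdis, ← hsub]
      rfl
    rw [e1]
    refine (norm_add_le _ _).trans (add_le_add ?_ le_rfl)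
    refine (norm_sum_le _ _).trans ?_
    apply Finset.sum_le_sum_of_subset_of_nonneg
    · intro t ht
      rw [Finset.mem_filter, Finset.mem_filter, Finset.mem_Icc] at ht
      rw [Finset.mem_Icc]
      omega
    · intro t _ _
      exact norm_nonneg _
  have hle : ∀ N : ℕ, ‖TwN a b c α β h t0 z1 z2 N‖ / N ≤ C1 / N +
      ‖∑ i, ∑ f ∈ FG (S.Q i) a b α β T0 N, kerT S z1 z2 (G68.omW S w a b h t0) i f.1 f.2‖ / N := by
    intro N
    rw [← add_div]
    exact div_le_div_of_nonneg_right (hcmp N) (Nat.cast_nonneg N)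
  have hr0 : Tendsto (fun N : ℕ => C1 / (N : ℝ)) atTop (𝓝 0) :=
    tendsto_const_div_atTop_nhds_zero_nat C1
  have hrB : Bdd (fun N : ℕ => C1 / (N : ℝ)) := by
    refine ⟨C1, fun N => ?_⟩
    rw [abs_of_nonneg (by positivity)]
    rcases Nat.eq_zero_or_pos N with h0 | h0
    · rw [h0]; simpa using hC1
    · apply div_le_self hC1
      exact_mod_cast h0
  have hfB : Bdd (fun N : ℕ => ‖TwN a b c α β h t0 z1 z2 N‖ / N) := by
    obtain ⟨C, hC⟩ := hB
    obtain ⟨C', hC'⟩ := hrB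
    refine ⟨C' + C, fun N => ?_⟩
    rw [abs_of_nonneg (by positivity)]
    exact (hle N).trans (add_le_add ((le_abs_self _).trans (hC' N))
      ((le_abs_self _).trans (hC N)))
  apply le_antisymm
  · calc M.E (fun N : ℕ => ‖TwN a b c α β h t0 z1 z2 N‖ / N)
        ≤ M.E (fun N : ℕ => C1 / (N : ℝ) + ‖∑ i, ∑ f ∈ FG (S.Q i) a b α β T0 N,
          kerT S z1 z2 (G68.omW S w a b h t0) i f.1 f.2‖ / N) :=
          LMean.mono M hfB (Bdd.add hrB hB) hle
      _ = 0 := by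
          rw [M.add _ _ hrB hB, M.null _ hrB hr0, hE, add_zero]
  · exact M.nonneg _ hfB (fun N => by positivity)

end Pool.Agent.Lib.MP_a17b09_nt.CH
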