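import Pool.Agent.Lib.MP_a17b09_nt.MRS.StmtsX67
import Pool.Agent.Lib.MP_60922f_co.MR.WEYL36

/-!
MRS section 2: Weyl sums with polynomial phases, Taylor polynomials of the argument.
-/

set_option autoImplicit false

namespace Pool.Agent.X67

open Finset Complex Pool.Agent.MR36

/-! ### differences of polynomials -/

theorem dd_eq_fwd : ∀ (k : ℕ) (φ : ℤ → ℝ) (n : ℤ), dd36 k φ n = (fwdDiff (1 : ℤ))^[k] φ n := by
  intro k
  induction k with
  | zero => intro φ n; rfl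
  | succ k ih =>
    intro φ n
    rw [Function.iterate_succ_apply']
    show dd36 k φ (n + 1) - dd36 k φ n = _
    rw [ih, ih]
    rfl

theorem dd_mono (r j : ℕ) (hj : j ≤ r) (n : ℤ) :
    dd36 r (fun t : ℤ => (t : ℝ) ^ j) n = if j = r then (r.factorial : ℝ) else 0 := by
  have h1 : ∀ (k : ℕ) (f : ℝ → ℝ) (n : ℤ),
      (fwdDiff (1 : ℤ))^[k] (fun t : ℤ => f t) n = (fwdDiff (1 : ℝ))^[k] f (n : ℝ) := by
    intro k f
    induction k with
    | zero => intro n; rfl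
    | succ k ih =>
      intro n
      rw [Function.iterate_succ_apply', Function.iterate_succ_apply']
      unfold fwdDiff
      have e1 := ih (n + 1)
      have e2 := ih n
      unfold fwdDiff at e1 e2
      rw [e1, e2]
      push_cast
      rfl
  rw [dd_eq_fwd, h1 r (fun x => x ^ j) n]
  split_ifs with h
  · subst h
    have := fwdDiff_iter_eq_factorial (R := ℝ) (n := j)
    rw [this]
    rfl
  · have := fwdDiff_iter_pow_eq_zero_of_lt (R := ℝ) (j := j) (n := r) (by omega)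
    rw [this]
    rfl

theorem dd_smul (c : ℝ) (φ : ℤ → ℝ) : ∀ k n, dd36 k (fun m => c * φ m) n = c * dd36 k φ n := by
  intro k
  induction k with
  | zero => intro n; rfl
  | succ k ih =>
    intro n
    show dd36 k (fun m => c * φ m) (n + 1) - dd36 k (fun m => c * φ m) n =
      c * (dd36 k φ (n + 1) - dd36 k φ n)
    rw [ih, ih]; ring

theorem dd_add (φ ψ : ℤ → ℝ) : ∀ k n,
    dd36 k (fun m => φ m + ψ m) n = dd36 k φ n + dd36 k ψ n := by
  intro k
  induction k with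
  | zero => intro n; rfl
  | succ k ih =>
    intro n
    show dd36 k (fun m => φ m + ψ m) (n + 1) - dd36 k (fun m => φ m + ψ m) n =
      (dd36 k φ (n + 1) - dd36 k φ n) + (dd36 k ψ (n + 1) - dd36 k ψ n)
    rw [ih, ih]; ring

theorem dd_zero : ∀ k n, dd36 k (fun _ => 0) n = 0 := by
  intro k
  induction k with
  | zero => intro n; rfl
  | succ k ih =>
    intro n
    show dd36 k (fun _ => 0) (n + 1) - dd36 k (fun _ => 0) n = 0
    rw [ih, ih]; ring

theorem dd_sum {ι : Type*} (s : Finset ι) (f : ι → ℤ → ℝ) (k : ℕ) (n : ℤ) :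
    dd36 k (fun m => ∑ i ∈ s, f i m) n = ∑ i ∈ s, dd36 k (f i) n := by
  classical
  induction s using Finset.induction_on with
  | empty => simp [dd_zero]
  | insert a s ha ih =>
    rw [Finset.sum_insert ha, ← ih, ← dd_add]
    congr 1
    funext m
    rw [Finset.sum_insert ha]

/-- the difference of order `r` of a polynomial of degree `r` -/
theorem dd_poly (r : ℕ) (c : ℕ → ℝ) (n : ℤ) :
    dd36 r (fun t : ℤ => ∑ j ∈ range (r + 1), c j * (t : ℝ) ^ j) n = c r * r.factorial := by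
  rw [dd_sum, Finset.sum_eq_single r]
  · rw [dd_smul, dd_mono r r le_rfl, if_pos rfl]
  · intro j hj hne
    rw [Finset.mem_range] at hj
    rw [dd_smul, dd_mono r j (by omega), if_neg hne, mul_zero]
  · intro h
    exact absurd (Finset.mem_range.2 (by omega)) h

/-! ### Weyl sums -/

theorem wey_pos (k : ℕ) (φ : ℤ → ℝ) (β : ℝ) (M : ℕ) (hM : 1 ≤ M)
    (hdd : ∀ n, dd36 (k + 1) φ n = β) (hβ : 0 < β) (hsm : β * (M : ℝ) ^ k ≤ Real.pi) :
    (‖∑ t ∈ range M, exp (I * φ t)‖ / M) ^ (2 ^ k) ≤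
      CC36 k * (1 / M + 10 / (M * β) * ((∑ h ∈ Icc 1 M, 1 / (h : ℝ)) / M) ^ k) := by
  have hM' : (0 : ℝ) < M := by exact_mod_cast hM
  have hC : InC36 k β β φ 0 M :=
    ⟨fun n _ _ => ⟨(hdd n).ge, (hdd n).le⟩, fun n _ _ => by rw [hdd, hdd]⟩
  have h1 := BB_pow36 (a := 0) (b := M) M (M : ℝ) hM (by push_cast; linarith) le_rfl (by omega)
    (PP36 0 M φ) (Ok_PP36 le_rfl φ) k
  have h2 := BB_le36 (a := 0) (b := M) M (M : ℝ) hM hM' k β β φ M hC le_rfl hβ le_rfl hsm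
  have h3 : SS36 0 M (PP36 0 M φ) = ∑ t ∈ range M, exp (I * φ t) := by
    rw [SS_PP36 le_rfl]
    symm
    apply Finset.sum_bij' (fun (j : ℕ) _ => (j : ℤ)) (fun (n : ℤ) _ => n.toNat)
    · intro j hj
      rw [Finset.mem_range] at hj
      rw [Finset.mem_Ico]; omega
    · intro n hn
      rw [Finset.mem_Ico] at hn
      rw [Finset.mem_range]; omega
    · intro j hj; omega
    · intro n hn
      rw [Finset.mem_Ico] at hn
      omega
    · intro j hj; rfl
  rw [h3] at h1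
  refine h1.trans ?_
  have hC1 := CC_ge36 k
  have hC0 : (0 : ℝ) ≤ CC36 k := by linarith
  gcongr

theorem wey (k : ℕ) (φ : ℤ → ℝ) (β : ℝ) (M : ℕ) (hM : 1 ≤ M)
    (hdd : ∀ n, dd36 (k + 1) φ n = β) (hβ : 0 < |β|) (hsm : |β| * (M : ℝ) ^ k ≤ Real.pi) :
    (‖∑ t ∈ range M, exp (I * φ t)‖ / M) ^ (2 ^ k) ≤
      CC36 k * (1 / M + 10 / (M * |β|) * ((∑ h ∈ Icc 1 M, 1 / (h : ℝ)) / M) ^ k) := by
  rcases lt_trichotomy β 0 with h | h | h
  · have h1 : ∀ n, dd36 (k + 1) (fun t => (-1) * φ t) n = -β := by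
      intro n; rw [dd_smul, hdd]; ring
    rw [abs_of_neg h] at hβ hsm ⊢
    have h2 := wey_pos k (fun t => (-1) * φ t) (-β) M hM h1 hβ hsm
    have h3 : ‖∑ t ∈ range M, exp (I * (((-1) * φ t : ℝ) : ℂ))‖ =
        ‖∑ t ∈ range M, exp (I * φ t)‖ := by
      rw [← RCLike.norm_conj (∑ t ∈ range M, exp (I * φ t)), map_sum]
      congr 1
      refine Finset.sum_congr rfl fun t _ => ?_
      rw [← Complex.exp_conj, map_mul, Complex.conj_I, Complex.conj_ofReal]
      congr 1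
      push_cast
      ring
    rw [h3] at h2
    exact h2
  · rw [h, abs_zero] at hβ
    exact absurd hβ (lt_irrefl _)
  · rw [abs_of_pos h] at hβ hsm ⊢
    exact wey_pos k φ β M hM hdd hβ hsm

/-! ### Taylor polynomials -/

/-- the unimodular function -/
noncomputable def uu (z : ℂ) : ℂ := z / (‖z‖ : ℂ)

theorem uu_norm_le (z : ℂ) : ‖uu z‖ ≤ 1 := by
  unfold uu
  rw [norm_div, Complex.norm_real, norm_norm]
  exact div_self_le_one _

theorem uu_norm {z : ℂ} (hz : z ≠ 0) : ‖uu z‖ = 1 := by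
  unfold uu
  rw [norm_div, Complex.norm_real, norm_norm]
  exact div_self (norm_ne_zero_iff.2 hz)

theorem uu_mul (z w : ℂ) : uu (z * w) = uu z * uu w := by
  unfold uu
  rw [norm_mul]
  push_cast
  rw [mul_div_mul_comm]

theorem uu_one_add {w : ℂ} (hw : ‖w‖ < 1) : uu (1 + w) = exp (I * ((log (1 + w)).im : ℂ)) := by
  have hne : (1 : ℂ) + w ≠ 0 := by
    intro h
    have : w = -1 := by linear_combination h
    rw [this, norm_neg, norm_one] at hw
    exact lt_irrefl _ hw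
  unfold uu
  have h1 : (1 : ℂ) + w = exp (log (1 + w)) := (Complex.exp_log hne).symm
  have h2 : ((‖(1 : ℂ) + w‖ : ℝ) : ℂ) = exp (((log (1 + w)).re : ℝ) : ℂ) := by
    rw [← Complex.ofReal_exp, ← Complex.norm_exp, Complex.exp_log hne]
  rw [h2, div_eq_iff (Complex.exp_ne_zero _), ← Complex.exp_add]
  conv_lhs => rw [h1]
  congr 1
  conv_lhs => rw [← Complex.re_add_im (log (1 + w))]
  ring

/-- phase of the Taylor polynomial -/
noncomputable def tp (r : ℕ) (w : ℂ) : ℝ := (logTaylor (r + 1) w).im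

theorem exp_diff (x y : ℝ) : ‖exp (I * x) - exp (I * y)‖ ≤ |x - y| := exp_sub_exp_le36 x y

theorem uu_taylor (r : ℕ) (h : ℕ) (w : ℂ) (hw : ‖w‖ ≤ 1 / 2) :
    ‖uu (1 + w) ^ h - exp (I * ((h * tp r w : ℝ) : ℂ))‖ ≤ 2 * h * ‖w‖ ^ (r + 1) := by
  have hw1 : ‖w‖ < 1 := by linarith
  rw [uu_one_add hw1, ← Complex.exp_nat_mul]
  have e1 : (h : ℂ) * (I * ((log (1 + w)).im : ℂ)) = I * ((h * (log (1 + w)).im : ℝ) : ℂ) := by
    push_cast
    ring
  rw [e1]
  refine (exp_diff _ _).trans ?_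
  have e2 : (h : ℝ) * (log (1 + w)).im - h * tp r w = h * (log (1 + w) - logTaylor (r + 1) w).im := by
    unfold tp
    rw [Complex.sub_im]
    ring
  rw [e2, abs_mul, Nat.abs_cast]
  have h1 := (Complex.abs_im_le_norm (log (1 + w) - logTaylor (r + 1) w)).trans
    (norm_log_sub_logTaylor_le r hw1)
  have h2 : ‖w‖ ^ (r + 1) * (1 - ‖w‖)⁻¹ / (r + 1) ≤ 2 * ‖w‖ ^ (r + 1) := by
    have h3 : (1 - ‖w‖)⁻¹ ≤ 2 := by
      rw [inv_le_comm₀ (by linarith) (by norm_num)]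
      linarith
    have h4 : (0 : ℝ) ≤ ‖w‖ ^ (r + 1) := by positivity
    have h5 : (1 : ℝ) ≤ (r : ℝ) + 1 := by
      have : (0 : ℝ) ≤ r := Nat.cast_nonneg r
      linarith
    calc ‖w‖ ^ (r + 1) * (1 - ‖w‖)⁻¹ / (r + 1) ≤ ‖w‖ ^ (r + 1) * 2 / 1 := by gcongr
      _ = 2 * ‖w‖ ^ (r + 1) := by ring
  have h0 : (0 : ℝ) ≤ h := Nat.cast_nonneg h
  calc (h : ℝ) * |(log (1 + w) - logTaylor (r + 1) w).im| ≤ h * (2 * ‖w‖ ^ (r + 1)) := by
        gcongr
        exact h1.trans h2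
    _ = 2 * h * ‖w‖ ^ (r + 1) := by ring

theorem tp_poly (r : ℕ) (v : ℂ) (t : ℤ) :
    tp r (v * t) = ∑ j ∈ range (r + 1), ((-1 : ℝ) ^ (j + 1) * (v ^ j).im / j) * (t : ℝ) ^ j := by
  unfold tp logTaylor
  rw [Complex.im_sum]
  refine Finset.sum_congr rfl fun j _ => ?_
  have e1 : (-1 : ℂ) ^ (j + 1) * (v * t) ^ j / j =
      (((-1 : ℝ) ^ (j + 1) * (t : ℝ) ^ j / j : ℝ) : ℂ) * v ^ j := by
    push_cast
    rw [mul_pow]
    ring
  rw [e1, Complex.im_ofReal_mul]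
  ring

end Pool.Agent.X67
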