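import Pool.Agent.Lib.MP_a17b09_nt.CH.StmtsE17

/-!
Project MRS: positive forms of discriminant `-4 m ^ 2` are multiples of the sum of two squares on
a sublattice.
-/

set_option autoImplicit false

open Filter Topology Finset

namespace Pool.Agent.Lib.MP_a17b09_nt.CH

open PE

namespace X79

theorem norm_int (n : ℤ) : (n : GaussianInt).norm = n * n := by
  have := Zsqrtd.norm_intCast (d := -1) n
  simpa using this

/-- descent -/
theorem descent (a : ℕ) : 0 < a → ∀ z : GaussianInt, (a : ℤ) ∣ z.norm →
    ∃ (c : ℕ) (d : GaussianInt), 0 < c ∧ (c : ℤ) * d.norm = a ∧ ((c : ℤ) : GaussianInt) * d ∣ z := by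
  induction a using Nat.strong_induction_on with
  | _ a ih =>
    intro ha z hz
    by_cases h0 : ((a : ℤ) : GaussianInt) ∣ z
    · exact ⟨a, 1, ha, by simp, by simpa using h0⟩
    set A : GaussianInt := ((a : ℤ) : GaussianInt) with hA
    have hA0 : A ≠ 0 := by
      rw [hA]
      exact_mod_cast ha.ne'
    set r : GaussianInt := z % A with hr
    have hzr : z = A * (z / A) + r := (EuclideanDomain.div_add_mod z A).symm
    have hr0 : r ≠ 0 := by
      intro h
      apply h0
      rw [hzr, h, add_zero]
      exact dvd_mul_right _ _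
    have hlt : r.norm.natAbs < A.norm.natAbs := GaussianInt.natAbs_norm_mod_lt z hA0
    have hAn : A.norm = (a : ℤ) * a := norm_int a
    have hrn : 0 < r.norm := by
      have := GaussianInt.norm_nonneg r
      rcases this.lt_or_eq with h | h
      · exact h
      · exact absurd ((GaussianInt.norm_eq_zero).1 h.symm) hr0
    -- a divides the norm of r
    have hdr : (a : ℤ) ∣ r.norm := by
      have e : r = z - A * (z / A) := by rw [eq_sub_iff_add_eq, add_comm]; exact hzr.symm
      have e2 : r.norm = z.norm - a * (2 * (z * star (z / A)).re) + a * (a * (z / A).norm) := by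
        rw [e]
        generalize z / A = q
        rw [hA]
        simp only [Zsqrtd.norm_def, Zsqrtd.re_sub, Zsqrtd.im_sub, Zsqrtd.re_mul, Zsqrtd.im_mul,
          Zsqrtd.re_star, Zsqrtd.im_star, Zsqrtd.re_intCast, Zsqrtd.im_intCast]
        ring
      rw [e2]
      exact dvd_add (dvd_sub hz (dvd_mul_right _ _)) (dvd_mul_right _ _)
    obtain ⟨b, hb⟩ := hdr
    have hb0 : 0 < b := by
      by_contra h
      push Not at h
      have : (a : ℤ) * b ≤ 0 := mul_nonpos_of_nonneg_of_nonpos (by positivity) h
      linarith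
    obtain ⟨b', rfl⟩ : ∃ b' : ℕ, b = b' := ⟨b.toNat, (Int.toNat_of_nonneg hb0.le).symm⟩
    have hb'0 : 0 < b' := by exact_mod_cast hb0
    have hba : b' < a := by
      have h1 : r.norm < A.norm := by
        have h2 : (0 : ℤ) ≤ r.norm := hrn.le
        have h3 : (0 : ℤ) ≤ A.norm := GaussianInt.norm_nonneg A
        omega
      rw [hb, hAn] at h1
      have h2 : (b' : ℤ) < a := lt_of_mul_lt_mul_left h1 (by positivity)
      exact_mod_cast h2
    obtain ⟨c, d, hc, hcd, hdv⟩ := ih b' hba hb'0 (star r) (by
      rw [Zsqrtd.norm_conj, hb]; exact dvd_mul_left _ _)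
    obtain ⟨w, hw⟩ := hdv
    refine ⟨c, star w, hc, ?_, ?_⟩
    · -- norms
      have h1 : (star r).norm = r.norm := Zsqrtd.norm_conj r
      have h2 : r.norm = (c : ℤ) * c * (d.norm * w.norm) := by
        rw [← h1, hw, Zsqrtd.norm_mul, Zsqrtd.norm_mul, norm_int]
        ring
      rw [Zsqrtd.norm_conj]
      have h3 : (a : ℤ) * b' = (b' : ℤ) * (c * w.norm) := by
        rw [← hb, h2, ← hcd]; ring
      have h4 : (b' : ℤ) * ((c : ℤ) * w.norm) = (b' : ℤ) * a := by rw [← h3]; ring
      exact mul_left_cancel₀ (by exact_mod_cast hb'0.ne') h4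
    · -- divisibility
      have h1 : r = ((c : ℤ) : GaussianInt) * star w * star d := by
        have h2 : r = star (star r) := (star_star r).symm
        rw [h2, hw, star_mul, star_mul]
        simp
        ring
      have h2 : A = ((c : ℤ) : GaussianInt) * star w * w := by
        have h3 : (a : ℤ) = c * w.norm := by
          have h1' : (star r).norm = r.norm := Zsqrtd.norm_conj r
          have h2' : r.norm = (c : ℤ) * c * (d.norm * w.norm) := by
            rw [← h1', hw, Zsqrtd.norm_mul, Zsqrtd.norm_mul, norm_int]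
            ring
          have h3' : (a : ℤ) * b' = (b' : ℤ) * (c * w.norm) := by
            rw [← hb, h2', ← hcd]; ring
          have h4 : (b' : ℤ) * (a : ℤ) = (b' : ℤ) * (c * w.norm) := by rw [← h3']; ring
          exact mul_left_cancel₀ (by exact_mod_cast hb'0.ne') h4
        rw [hA, h3, Int.cast_mul, Zsqrtd.norm_eq_mul_conj]
        ring
      rw [hzr, h1, h2]
      refine dvd_add ?_ (dvd_mul_right _ _)
      exact (dvd_mul_right _ _).mul_right _

end X79

end Pool.Agent.Lib.MP_a17b09_nt.CH
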