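import Pool.Agent.Lib.MP_a17b09_nt.MRS.XferA79
import Pool.Agent.Lib.MP_a17b09_nt.MRS.GlueB90

/-!
Project MRS: a form of discriminant `-4 m ^ 2` as a multiple of the sum of two squares on a
sublattice, and its embedding.
-/

set_option autoImplicit false

open Filter Topology Finset

namespace Pool.Agent.Lib.MP_a17b09_nt.CH

open PE

namespace X79

/-- a positive form of discriminant `-4 m ^ 2` -/
theorem rep {Q : Form} (hQ : Q.Pos) (hm : ∃ m : ℤ, Q.D = 4 * m ^ 2) :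
    ∃ (c : ℕ) (A : Mat), 0 < c ∧ 0 < A.det ∧ Q.a = c * (A.a ^ 2 + A.c ^ 2) ∧
      Q.b = 2 * c * (A.a * A.b + A.c * A.d) ∧ Q.c = c * (A.b ^ 2 + A.d ^ 2) := by
  obtain ⟨m0, hm0⟩ := hm
  obtain ⟨m, hmpos, hm⟩ : ∃ m : ℤ, 0 < m ∧ Q.D = 4 * m ^ 2 := by
    refine ⟨|m0|, ?_, by rw [sq_abs]; exact hm0⟩
    have := hQ.2
    rw [hm0] at this
    apply abs_pos.2
    rintro rfl
    norm_num at this
  have ha := hQ.1
  have hD : 4 * Q.a * Q.c - Q.b ^ 2 = 4 * m ^ 2 := hm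
  have hbe : (2 : ℤ) ∣ Q.b := by
    have h1 : (2 : ℤ) ∣ Q.b ^ 2 := ⟨2 * (Q.a * Q.c - m ^ 2), by linarith⟩
    exact Int.prime_two.dvd_of_dvd_pow h1
  obtain ⟨β, hβ⟩ := hbe
  have hac : Q.a * Q.c = β ^ 2 + m ^ 2 := by
    rw [hβ] at hD
    linarith
  obtain ⟨a, haa⟩ : ∃ a : ℕ, Q.a = a := ⟨_, (Int.toNat_of_nonneg ha.le).symm⟩
  have ha0 : 0 < a := by rw [haa] at ha; exact_mod_cast ha
  have hzn : (⟨β, m⟩ : GaussianInt).norm = β ^ 2 + m ^ 2 := by
    rw [Zsqrtd.norm_def]; ring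
  obtain ⟨c, d, hc, hcd, u, hu⟩ := descent a ha0 ⟨β, m⟩ (by
    rw [hzn, ← hac, haa]; exact dvd_mul_right _ _)
  have hre : β = c * (d.re * u.re - d.im * u.im) := by
    have := congrArg Zsqrtd.re hu
    simp only [Zsqrtd.re_mul, Zsqrtd.im_mul, Zsqrtd.re_intCast, Zsqrtd.im_intCast] at this
    linarith
  have him : m = c * (d.re * u.im + d.im * u.re) := by
    have := congrArg Zsqrtd.im hu
    simp only [Zsqrtd.re_mul, Zsqrtd.im_mul, Zsqrtd.re_intCast, Zsqrtd.im_intCast] at this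
    linarith
  have hdn : d.norm = d.re ^ 2 + d.im ^ 2 := by rw [Zsqrtd.norm_def]; ring
  refine ⟨c, ⟨d.re, u.re, -d.im, u.im⟩, hc, ?_, ?_, ?_, ?_⟩
  · have h1 : (0 : ℤ) < c * (d.re * u.im + d.im * u.re) := by rw [← him]; exact hmpos
    have h2 : (0 : ℤ) < c := by exact_mod_cast hc
    have h3 := (mul_pos_iff_of_pos_left h2).1 h1
    unfold Mat.det
    simp only
    linarith
  · rw [haa, ← hcd, hdn]; ring
  · rw [hβ, hre]; ring
  · have h1 : (a : ℤ) * Q.c = a * (c * (u.re ^ 2 + u.im ^ 2)) := by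
      rw [← haa, hac, hre, him, haa, ← hcd, hdn]; ring
    exact mul_left_cancel₀ (by exact_mod_cast ha0.ne') h1

open MRS MRS.Glue90 in
/-- the embedding of the form in terms of the sum of two squares -/
theorem rot {Q : Form} (hQ : Q.Pos) {c : ℕ} {A : Mat} (hc : 0 < c) (hdet : 0 < A.det)
    (h1 : Q.a = c * (A.a ^ 2 + A.c ^ 2)) (h2 : Q.b = 2 * c * (A.a * A.b + A.c * A.d))
    (h3 : Q.c = c * (A.b ^ 2 + A.d ^ 2)) :
    ∃ (s : ℝ) (t : ℂ), 0 < s ∧ ‖t‖ = 1 ∧ ∀ v : V, tq Q v = (s : ℂ) * (t * tq Q1 (A.app v)) := by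
  have hcR : (0 : ℝ) < c := by exact_mod_cast hc
  have haR : (0 : ℝ) < Q.a := by exact_mod_cast hQ.1
  have hdR : (0 : ℝ) < A.det := by exact_mod_cast hdet
  have hdR' : (A.det : ℝ) = A.a * A.d - A.b * A.c := by unfold Mat.det; push_cast; ring
  set n : ℝ := √((A.a : ℝ) ^ 2 + (A.c : ℝ) ^ 2) with hn
  have hn2 : n ^ 2 = (A.a : ℝ) ^ 2 + (A.c : ℝ) ^ 2 := Real.sq_sqrt (by positivity)
  have haR' : (Q.a : ℝ) = c * n ^ 2 := by
    rw [hn2, h1]; push_cast; ring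
  have hnpos : 0 < n := by
    rcases (Real.sqrt_nonneg ((A.a : ℝ) ^ 2 + (A.c : ℝ) ^ 2)).lt_or_eq with h | h
    · exact h
    · exfalso
      rw [haR', hn, ← h] at haR
      norm_num at haR
  have hsa : √(Q.a : ℝ) = √c * n := by
    rw [haR', Real.sqrt_mul hcR.le, Real.sqrt_sq hnpos.le]
  have hsc : 0 < √(c : ℝ) := Real.sqrt_pos.2 hcR
  have hsc2 : √(c : ℝ) * √(c : ℝ) = c := Real.mul_self_sqrt hcR.le
  have hD : (Q.D : ℝ) = (2 * c * A.det) ^ 2 := by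
    have : Q.D = (2 * c * A.det) ^ 2 := by
      unfold Form.D Mat.det
      rw [h1, h2, h3]; ring
    rw [this]; push_cast; ring
  have hsD : √(Q.D : ℝ) = 2 * c * A.det := by
    rw [hD]; exact Real.sqrt_sq (by positivity)
  refine ⟨√c, ⟨A.a / n, -(A.c / n)⟩, hsc, ?_, fun v => ?_⟩
  · rw [Complex.norm_def, Complex.normSq_mk]
    rw [Real.sqrt_eq_one]
    have : (A.a : ℝ) / n * (A.a / n) + -(A.c / n) * -((A.c : ℝ) / n) =
        ((A.a : ℝ) ^ 2 + (A.c : ℝ) ^ 2) / n ^ 2 := by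
      field_simp
    rw [this, ← hn2, div_self (pow_ne_zero 2 hnpos.ne')]
  · apply Complex.ext
    · rw [tq_re90, hsa, tq_Q1, GaussianInt.toComplex_def]
      have e : (Q.b : ℝ) = 2 * c * (A.a * A.b + A.c * A.d) := by rw [h2]; push_cast; ring
      have e2 : √(c : ℝ) * n * v.1 = √(c : ℝ) * (n ^ 2 / n) * v.1 := by
        rw [pow_two, mul_div_assoc, div_self hnpos.ne', mul_one]
      have e3 : 2 * (c : ℝ) * (A.a * A.b + A.c * A.d) * v.2 / (2 * (√c * n)) =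
          √c * (A.a * A.b + A.c * A.d) * v.2 / n := by
        nth_rewrite 1 [← hsc2]
        field_simp
      rw [e, e2, e3, hn2]
      unfold Mat.app
      simp
      field_simp
      ring
    · rw [tq_im90, hsa, hsD, hdR', tq_Q1, GaussianInt.toComplex_def]
      have e3 : 2 * (c : ℝ) * (A.a * A.d - A.b * A.c) * v.2 / (2 * (√c * n)) =
          √c * (A.a * A.d - A.b * A.c) * v.2 / n := by
        nth_rewrite 1 [← hsc2]
        field_simp
      rw [e3]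
      unfold Mat.app
      simp
      field_simp
      ring

end X79

end Pool.Agent.Lib.MP_a17b09_nt.CH
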