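import Pool.Agent.Lib.MP_a17b09_nt.MRS.XferB79

/-!
Project MRS: primitive vectors in a class, seen through an integer matrix.
-/

set_option autoImplicit false

open Filter Topology Finset

namespace Pool.Agent.Lib.MP_a17b09_nt.CH

open PE

namespace X79

/-- the vectors `v`, primitive, in the class `α` modulo `K`, whose image is `g` times a primitive
vector in the class `β` -/
def Pc (A : Mat) (K K' : ℕ) (α : ZMod K × ZMod K) (g : ℕ) (β : ZMod K' × ZMod K') (v : V) : Prop :=
  Prim v ∧ cl K v = α ∧ ∃ w : V, Prim w ∧ cl K' w = β ∧ A.app v = (g : ℤ) • w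

theorem app_add (A : Mat) (v w : V) : A.app (v + w) = A.app v + A.app w := by
  unfold Mat.app
  apply Prod.ext <;> simp <;> ring

theorem app_smul (A : Mat) (n : ℤ) (v : V) : A.app (n • v) = n • A.app v := by
  unfold Mat.app
  apply Prod.ext <;> simp <;> ring

theorem app_ad (A : Mat) (v : V) : A.app ((PE.adj A).app v) = A.det • v := by
  unfold Mat.app PE.adj Mat.det
  apply Prod.ext <;> simp <;> ring

theorem ad_app (A : Mat) (v : V) : (PE.adj A).app (A.app v) = A.det • v := by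
  unfold Mat.app PE.adj Mat.det
  apply Prod.ext <;> simp <;> ring

theorem app_inj {A : Mat} (hA : A.det ≠ 0) {v w : V} (h : A.app v = A.app w) : v = w := by
  have h1 : A.det • v = A.det • w := by rw [← ad_app, ← ad_app, h]
  have h2 : A.det * v.1 = A.det * w.1 := by simpa using congrArg Prod.fst h1
  have h3 : A.det * v.2 = A.det * w.2 := by simpa using congrArg Prod.snd h1
  exact Prod.ext (mul_left_cancel₀ hA h2) (mul_left_cancel₀ hA h3)

theorem not_prim {v : V} (h : ¬ Prim v) : ∃ q : ℕ, q.Prime ∧ (q : ℤ) ∣ v.1 ∧ (q : ℤ) ∣ v.2 := by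
  unfold Prim at h
  obtain ⟨q, hq, hd⟩ := Nat.exists_prime_and_dvd h
  exact ⟨q, hq, (Int.natCast_dvd_natCast.2 hd).trans (Int.gcd_dvd_left ..),
    (Int.natCast_dvd_natCast.2 hd).trans (Int.gcd_dvd_right ..)⟩

theorem prim_not_dvd {v : V} (h : Prim v) {q : ℕ} (hq : q.Prime) :
    ¬ ((q : ℤ) ∣ v.1 ∧ (q : ℤ) ∣ v.2) := by
  rintro ⟨h1, h2⟩
  unfold Prim at h
  have h3 : (q : ℤ) ∣ (Int.gcd v.1 v.2 : ℤ) := Int.dvd_coe_gcd h1 h2
  rw [h] at h3
  have h4 : q ∣ 1 := by exact_mod_cast h3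
  exact hq.one_lt.ne' (Nat.dvd_one.1 h4)

/-- a vector is determined by `g` and its primitive direction -/
theorem smul_prim_inj {g g' : ℕ} (hg : 0 < g) {w w' : V} (hw : Prim w) (hw' : Prim w')
    (h : (g : ℤ) • w = (g' : ℤ) • w') : g = g' ∧ w = w' := by
  have h1 : (g : ℤ) * w.1 = g' * w'.1 := by simpa using congrArg Prod.fst h
  have h2 : (g : ℤ) * w.2 = g' * w'.2 := by simpa using congrArg Prod.snd h
  have h3 : Int.gcd ((g : ℤ) * w.1) ((g : ℤ) * w.2) = g := by
    rw [Int.gcd_mul_left, hw, Int.natAbs_natCast, mul_one]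
  have h4 : Int.gcd ((g' : ℤ) * w'.1) ((g' : ℤ) * w'.2) = g' := by
    rw [Int.gcd_mul_left, hw', Int.natAbs_natCast, mul_one]
  have h5 : g = g' := by rw [← h3, h1, h2, h4]
  subst h5
  have h6 : (g : ℤ) ≠ 0 := by exact_mod_cast hg.ne'
  exact ⟨rfl, Prod.ext (mul_left_cancel₀ h6 h1) (mul_left_cancel₀ h6 h2)⟩

/-- the divisor `g` divides the determinant -/
theorem g_dvd {A : Mat} {v w : V} {g : ℕ} (hv : Prim v) (h : A.app v = (g : ℤ) • w) :
    (g : ℤ) ∣ A.det := by
  have h1 := ad_app A v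
  rw [h, app_smul] at h1
  have h2 : A.det * v.1 = g * ((PE.adj A).app w).1 := by simpa using (congrArg Prod.fst h1).symm
  have h3 : A.det * v.2 = g * ((PE.adj A).app w).2 := by simpa using (congrArg Prod.snd h1).symm
  have h4 : (g : ℤ) ∣ A.det * v.1 := ⟨_, h2⟩
  have h5 : (g : ℤ) ∣ A.det * v.2 := ⟨_, h3⟩
  have h6 : (g : ℤ) ∣ (Int.gcd (A.det * v.1) (A.det * v.2) : ℤ) := Int.dvd_coe_gcd h4 h5
  rw [Int.gcd_mul_left, hv, mul_one] at h6
  exact Int.dvd_natAbs.1 h6

/-- if one vector exists then all primitive vectors of the class occur -/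
theorem ext_cls {A : Mat} {N K : ℕ} (hN : (N : ℤ) = A.det) (hN0 : 0 < N) {α : ZMod K × ZMod K}
    {g : ℕ} {β : ZMod (N * N * K) × ZMod (N * N * K)} {v0 : V}
    (h0 : Pc A K (N * N * K) α g β v0) {w : V} (hw : Prim w) (hwβ : cl (N * N * K) w = β) :
    ∃ v, Prim v ∧ cl K v = α ∧ A.app v = (g : ℤ) • w := by
  obtain ⟨hv0, hα, w0, hw0, hw0β, hA⟩ := h0
  have hgd : (g : ℤ) ∣ A.det := g_dvd hv0 hA
  -- the difference
  have hd : ∃ t : V, w = w0 + ((N * N * K : ℕ) : ℤ) • t := by
    rw [← hw0β] at hwβ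
    unfold PE.cl at hwβ
    have e1 := congrArg Prod.fst hwβ
    have e2 := congrArg Prod.snd hwβ
    simp only at e1 e2
    rw [ZMod.intCast_eq_intCast_iff_dvd_sub] at e1 e2
    obtain ⟨a, ha⟩ := e1
    obtain ⟨b, hb⟩ := e2
    refine ⟨(-a, -b), ?_⟩
    apply Prod.ext
    · simp only [Prod.fst_add, Prod.smul_fst, smul_eq_mul]
      linarith
    · simp only [Prod.snd_add, Prod.smul_snd, smul_eq_mul]
      linarith
  obtain ⟨t, ht⟩ := hd
  set v : V := v0 + ((g * N * K : ℕ) : ℤ) • (PE.adj A).app t with hv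
  have hAv : A.app v = (g : ℤ) • w := by
    rw [hv, app_add, app_smul, app_ad, hA, ht, ← hN]
    apply Prod.ext <;> simp <;> ring
  refine ⟨v, ?_, ?_, hAv⟩
  · -- primitive
    by_contra hp
    obtain ⟨q, hq, h1, h2⟩ := not_prim hp
    by_cases hqN : q ∣ N
    · apply prim_not_dvd hv0 hq
      have e1 : v0.1 = v.1 - (g * N * K : ℕ) * ((PE.adj A).app t).1 := by
        rw [hv]; simp
      have e2 : v0.2 = v.2 - (g * N * K : ℕ) * ((PE.adj A).app t).2 := by
        rw [hv]; simp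
      have h3 : (q : ℤ) ∣ ((g * N * K : ℕ) : ℤ) := by
        have : q ∣ g * N * K := (hqN.mul_left g).mul_right K
        exact_mod_cast this
      rw [e1, e2]
      exact ⟨dvd_sub h1 (h3.mul_right _), dvd_sub h2 (h3.mul_right _)⟩
    · apply prim_not_dvd hw hq
      have hqg : ¬ q ∣ g := by
        intro h
        apply hqN
        have h3 : (g : ℤ) ∣ N := by rw [hN]; exact hgd
        exact h.trans (by exact_mod_cast h3)
      have hqI : Prime (q : ℤ) := Nat.prime_iff_prime_int.1 hq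
      have hA1 : (g : ℤ) * w.1 = A.a * v.1 + A.b * v.2 := by
        have := (congrArg Prod.fst hAv).symm
        simpa [Mat.app] using this
      have hA2 : (g : ℤ) * w.2 = A.c * v.1 + A.d * v.2 := by
        have := (congrArg Prod.snd hAv).symm
        simpa [Mat.app] using this
      have h3 : (q : ℤ) ∣ g * w.1 := by
        rw [hA1]; exact dvd_add (h1.mul_left _) (h2.mul_left _)
      have h4 : (q : ℤ) ∣ g * w.2 := by
        rw [hA2]; exact dvd_add (h1.mul_left _) (h2.mul_left _)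
      have hqg' : ¬ (q : ℤ) ∣ g := by
        intro h; exact hqg (by exact_mod_cast h)
      exact ⟨(hqI.dvd_or_dvd h3).resolve_left hqg', (hqI.dvd_or_dvd h4).resolve_left hqg'⟩
  · -- the class
    rw [← hα]
    unfold PE.cl
    rw [hv]
    apply Prod.ext
    · simp
    · simp

end X79

end Pool.Agent.Lib.MP_a17b09_nt.CH
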